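import Mathlib

/-!
# Symmetric orders over a complete discrete valuation ring: definitions

`W` complete DVR with uniformizer `p`, `K` its field of fractions, `F = W/p` algebraically closed,
`A` a finite dimensional `K`-algebra, `O` a `W`-order in `A`, `τ` a symmetrizing trace.
-/

namespace PDeg

open scoped BigOperators

/-- the base rings -/
class Base (p : ℕ) (W K F : Type) [CommRing W] [IsDomain W] [Field K] [Algebra W K]
    [IsFractionRing W K] [Field F] [Algebra W F] : Prop where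
  prime : p.Prime
  dvr : IsDiscreteValuationRing W
  charZero : CharZero K
  algClosed : IsAlgClosed F
  surj : Function.Surjective (algebraMap W F)
  ker : ∀ w : W, algebraMap W F w = 0 ↔ (p : W) ∣ w
  complete : IsAdicComplete (Ideal.span {(p : W)}) W
  teich : ∃ t : F →* W, ∀ a, algebraMap W F (t a) = a

/-- `x ∈ K` lies in `W` -/
def IsInt (W : Type) {K : Type} [CommRing W] [CommRing K] [Algebra W K] (x : K) : Prop :=
  ∃ w : W, algebraMap W K w = x

section
variable (p : ℕ) {W K A : Type} [CommRing W] [Field K] [Algebra W K]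
  [Ring A] [Algebra K A] [Algebra W A] [IsScalarTower W K A]

/-- `O` is a `W`-order in `A`, self dual with respect to the trace `τ` -/
structure SymOrder (O : Subalgebra W A) (τ : A →ₗ[K] K) : Prop where
  fg : (Subalgebra.toSubmodule O).FG
  span : ∀ x : A, ∃ n : ℕ, (p : A) ^ n * x ∈ O
  comm : ∀ x y : A, τ (x * y) = τ (y * x)
  int : ∀ x ∈ O, IsInt W (τ x)
  dual : ∀ x : A, (∀ z ∈ O, IsInt W (τ (x * z))) → x ∈ O
  nil : ∀ x : A, IsNilpotent x → τ x = 0

/-- a local idempotent `e` of `O`, with the radical `rad` of `eOe`; the residue ring of `eOe` is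
the residue field of `W` -/
structure LocIdem (O : Subalgebra W A) where
  e : A
  rad : Submodule W A
  mem : e ∈ O
  idem : e * e = e
  rad_mem : ∀ x ∈ rad, x ∈ O
  rad_left : ∀ x ∈ rad, e * x = x
  rad_right : ∀ x ∈ rad, x * e = x
  mul_left : ∀ x ∈ O, ∀ y ∈ rad, e * x * y ∈ rad
  mul_right : ∀ x ∈ O, ∀ y ∈ rad, y * x * e ∈ rad
  p_mem : (p : A) * e ∈ rad
  not_mem : e ∉ rad
  decomp : ∀ x ∈ O, ∃ w : W, e * x * e - w • e ∈ rad
  nilp : ∃ n : ℕ, ∀ x ∈ rad ^ n, ∃ y ∈ O, x = (p : A) * y

variable {p}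

/-- a good component of a local idempotent (a non-projective vertex) -/
structure Good {O : Subalgebra W A} (E : LocIdem p O) (f : A) : Prop where
  idem : f * f = f
  left : E.e * f = f
  right : f * E.e = f
  central : ∀ x : A, f * (E.e * x * E.e) = (E.e * x * E.e) * f
  not_mem : f ∉ O
  rad : ∀ x ∈ E.rad, f * x ∈ O

end

section
variable {W K A : Type} [CommRing W] [Field K] [Algebra W K]
  [Ring A] [Algebra K A] [Algebra W A] [IsScalarTower W K A]

/-- `b A f` for idempotents `b`, `f`, as a `K`-subspace -/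
def crn (K : Type) {A : Type} [Field K] [Ring A] [Algebra K A] (b f : A) : Submodule K A where
  carrier := {x | b * x = x ∧ x * f = x}
  add_mem' := by
    rintro x y ⟨hx, hx'⟩ ⟨hy, hy'⟩
    exact ⟨by rw [mul_add, hx, hy], by rw [add_mul, hx', hy']⟩
  zero_mem' := ⟨mul_zero _, zero_mul _⟩
  smul_mem' := by
    rintro c x ⟨hx, hx'⟩
    exact ⟨by rw [mul_smul_comm, hx], by rw [smul_mul_assoc, hx']⟩

theorem mem_crn {K A : Type} [Field K] [Ring A] [Algebra K A] {b f x : A} :
    x ∈ crn K b f ↔ b * x = x ∧ x * f = x := Iff.rfl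

/-- `f A f` is a division ring -/
def DivC {A : Type} [Ring A] (f : A) : Prop :=
  f * f = f ∧ f ≠ 0 ∧ ∀ x : A, f * x = x → x * f = x → x ≠ 0 →
    ∃ y : A, f * y = y ∧ y * f = y ∧ x * y = f ∧ y * x = f

/-- equivalence of idempotents -/
def Eqv {A : Type} [Ring A] (f g : A) : Prop :=
  ∃ a b : A, f * a = a ∧ a * g = a ∧ g * b = b ∧ b * f = b ∧ a * b = f ∧ b * a = g

/-- `z` is the central idempotent generating the two-sided ideal `A f A` -/
structure Vtx {A : Type} [Ring A] (z f : A) : Prop where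
  idem : z * z = z
  central : ∀ x : A, z * x = x * z
  zf : z * f = f
  span : ∃ (n : ℕ) (x y : Fin n → A), z = ∑ i, x i * f * y i

/-- the lattice `f O f` -/
def fOf (W : Type) {A : Type} [CommRing W] [Ring A] [Algebra W A] (O : Subalgebra W A) (f : A) :
    Submodule W A :=
  (Subalgebra.toSubmodule O).map ((LinearMap.mulLeft W f).comp (LinearMap.mulRight W f))

theorem mem_fOf {W A : Type} [CommRing W] [Ring A] [Algebra W A] {O : Subalgebra W A} {f x : A} :
    x ∈ fOf W O f ↔ ∃ z ∈ O, f * (z * f) = x := Iff.rfl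

/-- the lattice `f rad` -/
def fRad {p : ℕ} {W A : Type} [CommRing W] [Ring A] [Algebra W A] {O : Subalgebra W A}
    (E : LocIdem p O) (f : A) : Submodule W A :=
  E.rad.map (LinearMap.mulLeft W f)

theorem mem_fRad {p : ℕ} {W A : Type} [CommRing W] [Ring A] [Algebra W A] {O : Subalgebra W A}
    {E : LocIdem p O} {f x : A} : x ∈ fRad E f ↔ ∃ m ∈ E.rad, f * m = x := Iff.rfl

/-- The data of Lemma D: the lattice `O'` in `f A f` is a commutative discrete valuation ring with
maximal ideal `M = y O'` (`x` is the inverse of `y` in `f A f`), totally ramified of degree `k`. -/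
structure DVRC (p : ℕ) (K : Type) {W A : Type} [CommRing W] [Field K] [Ring A] [Algebra K A]
    [Algebra W A] (f : A) (O' M : Submodule W A) (y x : A) (k : ℕ) : Prop where
  y_mem : y ∈ M
  x_left : f * x = x
  x_right : x * f = x
  xy : x * y = f
  yx : y * x = f
  M_left : ∀ m ∈ M, x * m ∈ O'
  M_right : ∀ m ∈ M, m * x ∈ O'
  y_left : ∀ o ∈ O', y * o ∈ M
  y_right : ∀ o ∈ O', o * y ∈ M
  unit : ∀ a ∈ O', a ∉ M → ∃ b ∈ O', a * b = f ∧ b * a = f
  kpos : 1 ≤ k
  p_eq : ∃ u ∈ O', ∃ v ∈ O', u * v = f ∧ v * u = f ∧ (p : A) * f = y ^ k * u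
  val : ∀ a ∈ O', a ≠ 0 → ∃ i : ℕ, ∃ u ∈ O', ∃ v ∈ O', u * v = f ∧ v * u = f ∧
    a = f * y ^ i * u
  poly : ∀ a ∈ O', ∃ c : Fin k → W, a = ∑ i : Fin k, c i • (f * y ^ (i : ℕ))
  comm : ∀ a b : A, f * a = a → a * f = a → f * b = b → b * f = b → a * b = b * a
  div : DivC f
  rank : Module.finrank K (crn K f f) = k

end

end PDeg
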