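import Pool.Agent.Lib.MP_369ee2_lc_PD.HSizes

/-!
# Section 9, last step: from the number of colours of triples to singleton fibres
-/

namespace PDeg

open Function Finset

namespace Coh

variable {X : Type} [Fintype X] (C : Coh X)

theorem mk_eq {n : ℕ} (hn : n ≤ 6) {x y : Fin n → X} :
    Quot.mk (C.r n) x = Quot.mk (C.r n) y ↔ C.r n x y := (C.equiv n hn).quot_mk_eq_iff x y

/-- the space of colour-constant functions -/
def cstSub (R : Type*) [CommRing R] (n : ℕ) : Submodule R ((Fin n → X) → R) where
  carrier := {f | C.Cst n f}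
  add_mem' := fun hf hg x y h => congrArg₂ (· + ·) (hf x y h) (hg x y h)
  zero_mem' := fun _ _ _ => rfl
  smul_mem' := fun c _ hf x y h => congrArg (c • ·) (hf x y h)

theorem mem_cstSub {R : Type*} [CommRing R] {n : ℕ} {f : (Fin n → X) → R} :
    f ∈ C.cstSub R n ↔ C.Cst n f := Iff.rfl

/-- colour-constant functions are the functions on colours -/
noncomputable def cstEquiv (R : Type*) [CommRing R] (n : ℕ) :
    C.cstSub R n ≃ₗ[R] (Quot (C.r n) → R) where
  toFun f := Quot.lift f.1 (fun x y h => f.2 x y h)
  invFun g := ⟨fun x => g (Quot.mk _ x), fun _ _ h => congrArg g (Quot.sound h)⟩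
  left_inv f := rfl
  right_inv g := by
    ext q
    induction q using Quot.ind
    rfl
  map_add' f g := by
    ext q
    induction q using Quot.ind
    rfl
  map_smul' c f := by
    ext q
    induction q using Quot.ind
    rfl

/-- the dimension of the space of colour-constant functions is the number of colours -/
theorem finrank_cst (R : Type*) [Field R] (n : ℕ) :
    Module.finrank R (C.cstSub R n) = Nat.card (Quot (C.r n)) := by
  classical
  have : Fintype (Quot (C.r n)) := Fintype.ofFinite _
  rw [LinearEquiv.finrank_eq (C.cstEquiv R n), Module.finrank_fintype_fun_eq_card,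
    Nat.card_eq_fintype_card]

/-- reindexing of colours -/
def rx {n k : ℕ} (hn : n ≤ 6) (hk : k ≤ 6) (π : Fin k → Fin n) :
    Quot (C.r n) → Quot (C.r k) :=
  Quot.map (fun x i => x (π i)) (fun x y h => C.reindex hn hk π x y h)

theorem r_const {n : ℕ} (hn : n ≤ 6) (a b : X) : C.r n (fun _ => a) (fun _ => b) :=
  C.reindex (n := 1) (by norm_num) hn (fun _ => 0) (fun _ => a) (fun _ => b) (C.hom _ _)

/-- the classes of non-injective triples -/
theorem card_degenerate (k : ℕ) [Nonempty X] [Fintype (Quot (C.r 3))]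
    [DecidablePred fun c : Quot (C.r 3) => ∃ x, Quot.mk (C.r 3) x = c ∧ Injective x]
    (hk : Nat.card (Quot (C.r 2)) = k + 1) :
    (univ.filter fun c : Quot (C.r 3) => ¬ ∃ x, Quot.mk (C.r 3) x = c ∧ Injective x).card ≤
      3 * k + 1 := by
  classical
  have : Fintype (Quot (C.r 2)) := Fintype.ofFinite _
  obtain ⟨o⟩ := ‹Nonempty X›
  let dg : Quot (C.r 2) := Quot.mk _ (fun _ => o)
  let N : Finset (Quot (C.r 2)) := univ.erase dg
  have hN : N.card = k := by
    rw [Finset.card_erase_of_mem (mem_univ _), Finset.card_univ, ← Nat.card_eq_fintype_card, hk]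
    rfl
  let T : Finset (Quot (C.r 3)) := insert (Quot.mk _ (fun _ => o))
    (N.image (C.rx (by norm_num) (by norm_num) ![0, 0, 1]) ∪
      (N.image (C.rx (by norm_num) (by norm_num) ![0, 1, 0]) ∪
        N.image (C.rx (by norm_num) (by norm_num) ![1, 0, 0])))
  have hT : T.card ≤ 3 * k + 1 := by
    refine (Finset.card_insert_le _ _).trans ?_
    have h1 := Finset.card_union_le (N.image (C.rx (n := 2) (k := 3) (by norm_num) (by norm_num) ![0, 0, 1]))
      (N.image (C.rx (by norm_num) (by norm_num) ![0, 1, 0]) ∪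
        N.image (C.rx (by norm_num) (by norm_num) ![1, 0, 0]))
    have h2 := Finset.card_union_le (N.image (C.rx (n := 2) (k := 3) (by norm_num) (by norm_num) ![0, 1, 0]))
      (N.image (C.rx (by norm_num) (by norm_num) ![1, 0, 0]))
    have h3 := Finset.card_image_le (s := N) (f := C.rx (n := 2) (k := 3) (by norm_num) (by norm_num) ![0, 0, 1])
    have h4 := Finset.card_image_le (s := N) (f := C.rx (n := 2) (k := 3) (by norm_num) (by norm_num) ![0, 1, 0])
    have h5 := Finset.card_image_le (s := N) (f := C.rx (n := 2) (k := 3) (by norm_num) (by norm_num) ![1, 0, 0])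
    omega
  refine (Finset.card_le_card ?_).trans hT
  intro c hc
  rw [mem_filter] at hc
  obtain ⟨-, hc⟩ := hc
  obtain ⟨x, rfl⟩ := Quot.exists_rep c
  have hx : ¬ Injective x := fun h => hc ⟨x, rfl, h⟩
  have hnd : ∀ a b : X, a ≠ b → Quot.mk (C.r 2) ![a, b] ∈ N := by
    intro a b hab
    rw [Finset.mem_erase]
    refine ⟨?_, mem_univ _⟩
    intro h
    rw [C.mk_eq (by norm_num)] at h
    have := C.pattern (by norm_num) _ _ ((C.equiv 2 (by norm_num)).symm h) 0 1 rfl
    exact hab this
  have hcase : x 0 = x 1 ∨ x 0 = x 2 ∨ x 1 = x 2 := by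
    by_contra hcon
    push Not at hcon
    apply hx
    intro i j hij
    fin_cases i <;> fin_cases j <;> simp_all
  have hcon : x 0 = x 1 → x 1 = x 2 → Quot.mk (C.r 3) x ∈ T := by
    intro h01 h12
    apply Finset.mem_insert.2
    left
    rw [C.mk_eq (by norm_num)]
    have e : x = fun _ => x 0 := by
      ext i
      fin_cases i <;> simp [h01, h12]
    rw [e]
    exact C.r_const (by norm_num) _ _
  rcases hcase with h | h | h
  · by_cases h' : x 1 = x 2
    · exact hcon h h'
    · apply Finset.mem_insert_of_mem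
      apply Finset.mem_union_left
      refine Finset.mem_image.2 ⟨_, hnd (x 1) (x 2) h', ?_⟩
      show Quot.mk _ _ = _
      congr 1
      ext i
      fin_cases i <;> simp [h]
  · by_cases h' : x 1 = x 2
    · exact hcon (h.trans h'.symm) h'
    · apply Finset.mem_insert_of_mem
      apply Finset.mem_union_right
      apply Finset.mem_union_left
      refine Finset.mem_image.2 ⟨_, hnd (x 2) (x 1) (fun hh => h' hh.symm), ?_⟩
      show Quot.mk _ _ = _
      congr 1
      ext i
      fin_cases i <;> simp [h]
  · by_cases h' : x 0 = x 1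
    · exact hcon h' h
    · apply Finset.mem_insert_of_mem
      apply Finset.mem_union_right
      apply Finset.mem_union_right
      refine Finset.mem_image.2 ⟨_, hnd (x 1) (x 0) (fun hh => h' hh.symm), ?_⟩
      show Quot.mk _ _ = _
      congr 1
      ext i
      fin_cases i <;> simp [h]

/-- **Section 9, last step.** -/
theorem singletons_of_count (p k d : ℕ) (hcard : Fintype.card X = p) (hp : 2 ≤ p)
    (hkd : k * d + 1 = p) (hd : ∀ x y : X, x ≠ y → C.fb ![x] y = d)
    (hk : Nat.card (Quot (C.r 2)) = k + 1)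
    (h3 : k ^ 2 * d + 2 * k + 1 ≤ Nat.card (Quot (C.r 3))) :
    ∀ x y : X, x ≠ y → ∀ b : X, b ≠ x → b ≠ y →
      Nat.card {a : X // C.r 3 (sn ![x, y] a) (sn ![x, y] b)} = 1 := by
  classical
  have hX : Nonempty X := Fintype.card_pos_iff.1 (by omega)
  have : Fintype (Quot (C.r 3)) := Fintype.ofFinite _
  let P : Quot (C.r 3) → Prop := fun c => ∃ x, Quot.mk (C.r 3) x = c ∧ Injective x
  let I : Finset (Quot (C.r 3)) := univ.filter P
  have hdeg := C.card_degenerate k hk
  have hI : k ^ 2 * d + 2 * k + 1 ≤ I.card + (3 * k + 1) := by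
    refine (h3.trans_eq ?_).trans (Nat.add_le_add_left hdeg I.card)
    rw [Finset.card_filter_add_card_filter_not, Finset.card_univ, Nat.card_eq_fintype_card]
  -- the size of the class of an injective triple
  have hsz : ∀ x : Fin 3 → X, Injective x →
      C.cz x = p * d * C.fb ![x 0, x 1] (x 2) := by
    intro x hx
    have e3 : x = sn ![x 0, x 1] (x 2) := by
      ext i
      fin_cases i <;> rfl
    have e2 : (![x 0, x 1] : Fin 2 → X) = sn ![x 0] (x 1) := by
      ext i
      fin_cases i <;> rfl
    have h1 := C.cz_sn (n := 2) (by norm_num) ![x 0, x 1] (x 2)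
    have h2 := C.cz_sn (n := 1) (by norm_num) ![x 0] (x 1)
    rw [← e3] at h1
    rw [← e2] at h2
    rw [h1, h2, C.cz_one, hcard, hd _ _ (fun h => by simpa using hx h)]
  -- number of injective triples
  have hinj : (univ.filter fun x : Fin 3 → X => Injective x).card = p * (p - 1) * (p - 2) := by
    have e : (univ.filter fun x : Fin 3 → X => Injective x).card =
        Fintype.card (Fin 3 ↪ X) := by
      rw [← Fintype.card_subtype]
      exact Fintype.card_congr (Equiv.subtypeInjectiveEquivEmbedding (Fin 3) X)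
    rw [e, Fintype.card_embedding_eq, Fintype.card_fin, hcard]
    simp [Nat.descFactorial]
    ring
  let f : Quot (C.r 3) → ℕ := fun c => (univ.filter fun x : Fin 3 → X => Injective x ∧
    Quot.mk (C.r 3) x = c).card
  have hf : ∀ x : Fin 3 → X, Injective x → f (Quot.mk _ x) = p * d * C.fb ![x 0, x 1] (x 2) := by
    intro x hx
    rw [← hsz x hx]
    unfold cz
    rw [Nat.card_eq_fintype_card, Fintype.card_subtype]
    show (univ.filter _).card = _
    congr 1
    ext y
    rw [mem_filter, mem_filter, C.mk_eq (by norm_num)]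
    constructor
    · rintro ⟨h1, -, h2⟩
      exact ⟨h1, h2⟩
    · rintro ⟨h1, h2⟩
      refine ⟨h1, ?_, h2⟩
      intro i j hij
      exact hx (C.pattern (by norm_num) _ _ h2 i j hij)
  have hsum : ∑ c ∈ I, f c = p * (p - 1) * (p - 2) := by
    rw [← hinj, Finset.card_eq_sum_card_fiberwise (f := fun x => Quot.mk (C.r 3) x) (t := I)]
    · apply Finset.sum_congr rfl
      intro c _
      show (univ.filter _).card = _
      rw [Finset.filter_filter]
    · intro x hx
      rw [Finset.mem_coe, mem_filter] at hx
      rw [Finset.mem_coe, mem_filter]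
      exact ⟨mem_univ _, x, rfl, hx.2⟩
  have hlow : ∀ c ∈ I, p * d ≤ f c := by
    intro c hc
    obtain ⟨x, rfl, hx⟩ := (mem_filter.1 hc).2
    rw [hf x hx]
    exact Nat.le_mul_of_pos_right _ (C.fb_pos (by norm_num) _ _)
  have hd0 : 0 < p * d ∨ p = 1 := by
    rcases Nat.eq_zero_or_pos d with h | h
    · right; rw [h] at hkd; omega
    · left; exact Nat.mul_pos (by omega) h
  have hd0 : 0 < p * d := by
    rcases hd0 with h | h
    · exact h
    · omega
  -- `k (p - 2) ≤ |I|`
  have hIcard : p * (p - 1) * (p - 2) ≤ I.card * (p * d) := by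
    have h4 : k * (p - 2) ≤ I.card := by
      have h5 : k * (p - 2) + k = k ^ 2 * d := by
        have h6 : p - 2 + 1 = k * d := by omega
        calc k * (p - 2) + k = k * (p - 2 + 1) := by ring
          _ = k ^ 2 * d := by rw [h6]; ring
      omega
    have h7 : p - 1 = k * d := by omega
    calc p * (p - 1) * (p - 2) = k * (p - 2) * (p * d) := by rw [h7]; ring
      _ ≤ I.card * (p * d) := Nat.mul_le_mul_right _ h4
  have hall : ∀ c ∈ I, f c = p * d := by
    by_contra hcon
    push Not at hcon
    obtain ⟨c, hc, hne⟩ := hcon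
    have h8 : ∑ c ∈ I, p * d < ∑ c ∈ I, f c :=
      Finset.sum_lt_sum hlow ⟨c, hc, lt_of_le_of_ne (hlow c hc) (Ne.symm hne)⟩
    rw [Finset.sum_const, smul_eq_mul, hsum] at h8
    omega
  intro x y hxy b hbx hby
  have hxi : Injective ![x, y, b] := by
    intro i j
    fin_cases i <;> fin_cases j <;> simp [hxy, hxy.symm, hbx, hbx.symm, hby, hby.symm]
  have h9 := hall (Quot.mk _ ![x, y, b]) (mem_filter.2 ⟨mem_univ _, ![x, y, b], rfl, hxi⟩)
  rw [hf _ hxi] at h9
  exact Nat.eq_of_mul_eq_mul_left hd0 (h9.trans (mul_one _).symm)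

end Coh

end PDeg
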