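import Pool.Agent.Lib.MP_369ee2_lc_PD.LamLoc

/-!
# The local idempotent `δ` of `P_W`
-/

namespace PDeg

open scoped BigOperators Matrix

set_option linter.unusedSectionVars false

section
variable {X : Type} [Fintype X] [DecidableEq X] (C : Coh X)

section
variable (K : Type) [Field K]

/-- `Λ_K → P_K`, on the diagonal block -/
def dl : ↥(C.Lam K) →ₗ[K] ↥(C.PP K) where
  toFun a := ⟨tδ (a : Matrix X X K), tδ_mem C K a.2⟩
  map_add' a b := by
    apply Subtype.ext
    ext i j
    change tδ ((a : Matrix X X K) + (b : Matrix X X K)) i j =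
      tδ (a : Matrix X X K) i j + tδ (b : Matrix X X K) i j
    simp only [tδ, Matrix.of_apply, Matrix.add_apply]
    split_ifs <;> simp
  map_smul' c a := by
    apply Subtype.ext
    ext i j
    change tδ (c • (a : Matrix X X K)) i j = c * tδ (a : Matrix X X K) i j
    simp only [tδ, Matrix.of_apply, Matrix.smul_apply, smul_eq_mul]
    split_ifs <;> simp

theorem dl_apply (a : ↥(C.Lam K)) (i j : X × X) :
    ((dl C K a : ↥(C.PP K)) : Matrix (X × X) (X × X) K) i j =
      if i.1 = i.2 ∧ j.1 = j.2 then (a : Matrix X X K) i.1 j.1 else 0 := rfl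

theorem dl_diag (a : ↥(C.Lam K)) (u v : X) :
    ((dl C K a : ↥(C.PP K)) : Matrix (X × X) (X × X) K) (u, u) (v, v) =
      (a : Matrix X X K) u v := by
  rw [dl_apply, if_pos ⟨rfl, rfl⟩]

theorem dl_inj : Function.Injective (dl C K) := by
  intro a b h
  apply Subtype.ext
  ext u v
  rw [← dl_diag, h, dl_diag]

theorem dl_mul (a b : ↥(C.Lam K)) : dl C K (a * b) = dl C K a * dl C K b := by
  apply Subtype.ext
  ext i j
  change _ = (((dl C K a : ↥(C.PP K)) : Matrix (X × X) (X × X) K) *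
    ((dl C K b : ↥(C.PP K)) : Matrix (X × X) (X × X) K)) i j
  rw [Matrix.mul_apply, Fintype.sum_prod_type, dl_apply]
  change (if _ then ((a : Matrix X X K) * (b : Matrix X X K)) i.1 j.1 else 0) = _
  rw [Matrix.mul_apply]
  by_cases hi : i.1 = i.2
  · by_cases hj : j.1 = j.2
    · rw [if_pos ⟨hi, hj⟩]
      refine Finset.sum_congr rfl fun u _ => ?_
      rw [Finset.sum_eq_single u]
      · rw [dl_apply, dl_apply, if_pos ⟨hi, rfl⟩, if_pos ⟨rfl, hj⟩]
      · intro v _ hv
        rw [dl_apply, if_neg (fun h => hv h.2.symm), zero_mul]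
      · intro h
        exact absurd (Finset.mem_univ u) h
    · rw [if_neg (fun h => hj h.2)]
      symm
      refine Finset.sum_eq_zero fun u _ => Finset.sum_eq_zero fun v _ => ?_
      rw [dl_apply C K b, if_neg (fun h => hj h.2), mul_zero]
  · rw [if_neg (fun h => hi h.1)]
    symm
    refine Finset.sum_eq_zero fun u _ => Finset.sum_eq_zero fun v _ => ?_
    rw [dl_apply C K a, if_neg (fun h => hi h.1), zero_mul]

/-- the restriction of an element of `P_K` to the diagonal -/
def rs (x : ↥(C.PP K)) : ↥(C.Lam K) :=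
  ⟨Matrix.of fun u v => (x : Matrix (X × X) (X × X) K) (u, u) (v, v), by
    intro s t h
    exact x.2 _ _ (C.reindex (n := 2) (k := 4) (by norm_num) (by norm_num) ![0, 0, 1, 1] _ _ h)⟩

theorem rs_apply (x : ↥(C.PP K)) (u v : X) :
    ((rs C K x : ↥(C.Lam K)) : Matrix X X K) u v =
      (x : Matrix (X × X) (X × X) K) (u, u) (v, v) := rfl

theorem one_mul_apply (x : ↥(C.PP K)) (i j : X × X) :
    ((dl C K 1 * x : ↥(C.PP K)) : Matrix (X × X) (X × X) K) i j =
      if i.1 = i.2 then (x : Matrix (X × X) (X × X) K) i j else 0 := by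
  change (((dl C K 1 : ↥(C.PP K)) : Matrix (X × X) (X × X) K) *
    (x : Matrix (X × X) (X × X) K)) i j = _
  rw [Matrix.mul_apply]
  have h1 : ∀ l : X × X, ((dl C K 1 : ↥(C.PP K)) : Matrix (X × X) (X × X) K) i l =
      if i.1 = i.2 ∧ i = l then 1 else 0 := by
    intro l
    rw [dl_apply]
    change (if i.1 = i.2 ∧ l.1 = l.2 then (1 : Matrix X X K) i.1 l.1 else 0) = _
    rw [Matrix.one_apply]
    by_cases hi : i.1 = i.2
    · by_cases hl : l.1 = l.2
      · rw [if_pos ⟨hi, hl⟩]
        by_cases h : i.1 = l.1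
        · rw [if_pos h, if_pos ⟨hi, Prod.ext h (hi.symm.trans (h.trans hl))⟩]
        · rw [if_neg h, if_neg (fun hh => h (congrArg Prod.fst hh.2))]
      · rw [if_neg (fun h => hl h.2), if_neg]
        rintro ⟨-, rfl⟩
        exact hl hi
    · rw [if_neg (fun h => hi h.1), if_neg (fun h => hi h.1)]
  rw [Finset.sum_congr rfl fun l _ => by rw [h1 l]]
  by_cases hi : i.1 = i.2
  · rw [if_pos hi, Finset.sum_eq_single i]
    · rw [if_pos ⟨hi, rfl⟩, one_mul]
    · intro l _ hl
      rw [if_neg (fun h => hl h.2.symm), zero_mul]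
    · intro h
      exact absurd (Finset.mem_univ i) h
  · rw [if_neg hi]
    exact Finset.sum_eq_zero fun l _ => by rw [if_neg (fun h => hi h.1), zero_mul]

theorem mul_one_apply (x : ↥(C.PP K)) (i j : X × X) :
    ((x * dl C K 1 : ↥(C.PP K)) : Matrix (X × X) (X × X) K) i j =
      if j.1 = j.2 then (x : Matrix (X × X) (X × X) K) i j else 0 := by
  change ((x : Matrix (X × X) (X × X) K) *
    ((dl C K 1 : ↥(C.PP K)) : Matrix (X × X) (X × X) K)) i j = _
  rw [Matrix.mul_apply]
  have h1 : ∀ l : X × X, ((dl C K 1 : ↥(C.PP K)) : Matrix (X × X) (X × X) K) l j =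
      if j.1 = j.2 ∧ l = j then 1 else 0 := by
    intro l
    rw [dl_apply]
    change (if l.1 = l.2 ∧ j.1 = j.2 then (1 : Matrix X X K) l.1 j.1 else 0) = _
    rw [Matrix.one_apply]
    by_cases hj : j.1 = j.2
    · by_cases hl : l.1 = l.2
      · rw [if_pos ⟨hl, hj⟩]
        by_cases h : l.1 = j.1
        · rw [if_pos h, if_pos ⟨hj, Prod.ext h (hl.symm.trans (h.trans hj))⟩]
        · rw [if_neg h, if_neg (fun hh => h (congrArg Prod.fst hh.2))]
      · rw [if_neg (fun h => hl h.1), if_neg]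
        rintro ⟨-, rfl⟩
        exact hl hj
    · rw [if_neg (fun h => hj h.2), if_neg (fun h => hj h.1)]
  rw [Finset.sum_congr rfl fun l _ => by rw [h1 l]]
  by_cases hj : j.1 = j.2
  · rw [if_pos hj, Finset.sum_eq_single j]
    · rw [if_pos ⟨hj, rfl⟩, mul_one]
    · intro l _ hl
      rw [if_neg (fun h => hl h.2), mul_zero]
    · intro h
      exact absurd (Finset.mem_univ j) h
  · rw [if_neg hj]
    exact Finset.sum_eq_zero fun l _ => by rw [if_neg (fun h => hj h.1), mul_zero]

theorem corner_eq (x : ↥(C.PP K)) : dl C K 1 * x * dl C K 1 = dl C K (rs C K x) := by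
  apply Subtype.ext
  ext i j
  rw [mul_one_apply, dl_apply, rs_apply]
  by_cases hj : j.1 = j.2
  · rw [if_pos hj, one_mul_apply]
    by_cases hi : i.1 = i.2
    · rw [if_pos hi, if_pos ⟨hi, hj⟩]
      have e1 : i = (i.1, i.1) := Prod.ext rfl hi.symm
      have e2 : j = (j.1, j.1) := Prod.ext rfl hj.symm
      rw [← e1, ← e2]
    · rw [if_neg hi, if_neg (fun h => hi h.1)]
  · rw [if_neg hj, if_neg (fun h => hj h.2)]

theorem dl_one_mul (a : ↥(C.Lam K)) : dl C K 1 * dl C K a = dl C K a := by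
  rw [← dl_mul, one_mul]

theorem dl_mul_one (a : ↥(C.Lam K)) : dl C K a * dl C K 1 = dl C K a := by
  rw [← dl_mul, mul_one]

theorem trace_dl (a : ↥(C.Lam K)) :
    Matrix.trace ((dl C K a : ↥(C.PP K)) : Matrix (X × X) (X × X) K) =
      Matrix.trace (a : Matrix X X K) := by
  rw [Matrix.trace, Fintype.sum_prod_type, Matrix.trace]
  refine Finset.sum_congr rfl fun u _ => ?_
  rw [Finset.sum_eq_single u]
  · rw [Matrix.diag_apply, dl_diag, Matrix.diag_apply]
  · intro v _ hv
    rw [Matrix.diag_apply, dl_apply, if_neg (fun h => hv h.1.symm)]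
  · intro h
    exact absurd (Finset.mem_univ u) h

theorem tauP_dl (a : ↥(C.Lam K)) : tauP C K (dl C K a) = tauL C K a := by
  rw [tauP_apply, tauL_apply, trace_dl]

end

variable {p : ℕ} {W K F : Type}
  [CommRing W] [IsDomain W] [Field K] [Algebra W K] [IsFractionRing W K] [Field F] [Algebra W F]

theorem dl_mem_iff (a : ↥(C.Lam K)) : dl C K a ∈ PPO C W K ↔ a ∈ LamO C W K := by
  rw [mem_PPO, mem_LamO]
  constructor
  · intro h u v
    have := h (u, u) (v, v)
    rwa [dl_diag] at this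
  · intro h i j
    rw [dl_apply]
    split_ifs with hh
    · exact h _ _
    · exact IsInt.zero

theorem rs_mem {x : ↥(C.PP K)} (hx : x ∈ PPO C W K) : rs C K x ∈ LamO C W K := by
  rw [mem_LamO]
  intro u v
  exact hx (u, u) (v, v)

/-- `dl` over `W` -/
def dlW (W K : Type) [CommRing W] [Field K] [Algebra W K] : ↥(C.Lam K) →ₗ[W] ↥(C.PP K) where
  toFun := dl C K
  map_add' := (dl C K).map_add
  map_smul' w a := by
    apply Subtype.ext
    ext i j
    change (if i.1 = i.2 ∧ j.1 = j.2 then w • (a : Matrix X X K) i.1 j.1 else 0) =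
      w • (if i.1 = i.2 ∧ j.1 = j.2 then (a : Matrix X X K) i.1 j.1 else 0)
    split_ifs <;> simp

theorem dlW_apply (a : ↥(C.Lam K)) : dlW C W K a = dl C K a := rfl

/-- the local idempotent `δ` of `P_W` -/
theorem delta_loc (E : LocIdem p (LamO C W K)) (h1 : E.e = 1) :
    ∃ D : LocIdem p (PPO C W K), D.e = dl C K 1 ∧
      (∀ x, x ∈ D.rad ↔ ∃ a ∈ E.rad, dl C K a = x) := by
  have hcor : ∀ x : ↥(C.PP K), ∀ a : ↥(C.Lam K), dl C K 1 * x * dl C K a =
      dl C K (rs C K x * a) := by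
    intro x a
    rw [dl_mul, ← corner_eq, mul_assoc (dl C K 1 * x), dl_one_mul]
  have hcor' : ∀ x : ↥(C.PP K), ∀ a : ↥(C.Lam K), dl C K a * x * dl C K 1 =
      dl C K (a * rs C K x) := by
    intro x a
    rw [dl_mul, ← corner_eq, ← mul_assoc, ← mul_assoc, dl_mul_one]
  refine ⟨{
    e := dl C K 1
    rad := E.rad.map (dlW C W K)
    mem := (dl_mem_iff C 1).2 (LamO C W K).one_mem
    idem := by rw [← dl_mul, one_mul]
    rad_mem := ?_
    rad_left := ?_
    rad_right := ?_
    mul_left := ?_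
    mul_right := ?_
    p_mem := ?_
    not_mem := ?_
    decomp := ?_
    nilp := ?_ }, rfl, fun x => Iff.rfl⟩
  · rintro _ ⟨a, ha, rfl⟩
    exact (dl_mem_iff C a).2 (E.rad_mem a ha)
  · rintro _ ⟨a, ha, rfl⟩
    exact dl_one_mul C K a
  · rintro _ ⟨a, ha, rfl⟩
    exact dl_mul_one C K a
  · rintro x hx _ ⟨a, ha, rfl⟩
    refine ⟨rs C K x * a, ?_, (hcor x a).symm⟩
    have := E.mul_left (rs C K x) (rs_mem C hx) a ha
    rwa [h1, one_mul] at this
  · rintro x hx _ ⟨a, ha, rfl⟩
    refine ⟨a * rs C K x, ?_, (hcor' x a).symm⟩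
    have := E.mul_right (rs C K x) (rs_mem C hx) a ha
    rwa [h1, mul_one] at this
  · refine ⟨(p : ↥(C.Lam K)) * 1, ?_, ?_⟩
    · have := E.p_mem
      rwa [h1] at this
    · rw [dlW_apply]
      have e1 : (p : ↥(C.Lam K)) * 1 = (p : K) • (1 : ↥(C.Lam K)) := by
        rw [mul_one, Algebra.smul_def, mul_one, map_natCast]
      have e2 : (p : ↥(C.PP K)) * dl C K 1 = (p : K) • dl C K 1 := by
        rw [Algebra.smul_def, map_natCast]
      rw [e1, e2, map_smul]
  · rintro ⟨a, ha, h⟩
    rw [dlW_apply] at h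
    have := dl_inj C K h
    rw [this, ← h1] at ha
    exact E.not_mem ha
  · intro x hx
    obtain ⟨w, hw⟩ := E.decomp (rs C K x) (rs_mem C hx)
    rw [h1, one_mul, mul_one] at hw
    refine ⟨w, _, hw, ?_⟩
    rw [map_sub, map_smul, dlW_apply, dlW_apply, corner_eq]
  · obtain ⟨n, hn⟩ := E.nilp
    refine ⟨n + 1, ?_⟩
    have key : ∀ m : ℕ, (E.rad.map (dlW C W K)) ^ (m + 1) ≤ (E.rad ^ (m + 1)).map (dlW C W K) := by
      intro m
      induction m with
      | zero => simp
      | succ m ih =>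
        rw [pow_succ]
        refine Submodule.mul_le.2 ?_
        rintro x hx _ ⟨b, hb, rfl⟩
        obtain ⟨a, ha, rfl⟩ := ih hx
        refine ⟨a * b, ?_, ?_⟩
        · rw [pow_succ]
          exact Submodule.mul_mem_mul ha hb
        · rw [dlW_apply, dlW_apply, dlW_apply, dl_mul]
    intro x hx
    obtain ⟨a, ha, rfl⟩ := key n hx
    have h2 : ∃ y ∈ LamO C W K, a = (p : ↥(C.Lam K)) * y := by
      clear hx
      rw [pow_succ] at ha
      induction ha using Submodule.mul_induction_on' with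
      | mem_mul_mem u hu v hv =>
        obtain ⟨y, hy, rfl⟩ := hn u hu
        exact ⟨y * v, (LamO C W K).mul_mem hy (E.rad_mem v hv), by rw [mul_assoc]⟩
      | add u _ v _ hu hv =>
        obtain ⟨y, hy, rfl⟩ := hu
        obtain ⟨z, hz, rfl⟩ := hv
        exact ⟨y + z, (LamO C W K).add_mem hy hz, by rw [mul_add]⟩
    obtain ⟨y, hy, rfl⟩ := h2
    refine ⟨dl C K y, (dl_mem_iff C y).2 hy, ?_⟩
    rw [dlW_apply]
    have e1 : (p : ↥(C.Lam K)) * y = (p : K) • y := by
      rw [Algebra.smul_def, map_natCast]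
    have e2 : (p : ↥(C.PP K)) * dl C K y = (p : K) • dl C K y := by
      rw [Algebra.smul_def, map_natCast]
    rw [e1, e2, map_smul]

/-- `δ (J / p)` is good -/
theorem delta_good (E : LocIdem p (LamO C W K)) (h1 : E.e = 1) {g : ↥(C.Lam K)}
    (hg : Good E g) (D : LocIdem p (PPO C W K)) (hD : D.e = dl C K 1)
    (hr : ∀ x, x ∈ D.rad ↔ ∃ a ∈ E.rad, dl C K a = x) : Good D (dl C K g) where
  idem := by rw [← dl_mul, hg.idem]
  left := by rw [hD, dl_one_mul]
  right := by rw [hD, dl_mul_one]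
  central := by
    intro x
    rw [hD, corner_eq, ← dl_mul, ← dl_mul]
    have := hg.central (rs C K x)
    rw [h1, one_mul, mul_one] at this
    rw [this]
  not_mem := fun h => hg.not_mem ((dl_mem_iff C g).1 h)
  rad := by
    intro x hx
    obtain ⟨a, ha, rfl⟩ := (hr x).1 hx
    rw [← dl_mul]
    exact (dl_mem_iff C _).2 (hg.rad a ha)

end

end PDeg
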