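import Pool.Agent.Lib.MP_369ee2_lc_PD.Coh
import Pool.Agent.Lib.MP_369ee2_lc_PD.Alg

/-!
# The orders `Λ_W` and `P_W`, traces, kronecker elements
-/

namespace PDeg

open scoped BigOperators Matrix Kronecker

section
variable {W K : Type} [CommRing W] [CommRing K] [Algebra W K]

theorem IsInt.add {x y : K} (hx : IsInt W x) (hy : IsInt W y) : IsInt W (x + y) := by
  obtain ⟨a, rfl⟩ := hx
  obtain ⟨b, rfl⟩ := hy
  exact ⟨a + b, map_add _ _ _⟩

theorem IsInt.mul {x y : K} (hx : IsInt W x) (hy : IsInt W y) : IsInt W (x * y) := by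
  obtain ⟨a, rfl⟩ := hx
  obtain ⟨b, rfl⟩ := hy
  exact ⟨a * b, map_mul _ _ _⟩

theorem IsInt.neg {x : K} (hx : IsInt W x) : IsInt W (-x) := by
  obtain ⟨a, rfl⟩ := hx
  exact ⟨-a, map_neg _ _⟩

theorem IsInt.sub {x y : K} (hx : IsInt W x) (hy : IsInt W y) : IsInt W (x - y) := by
  obtain ⟨a, rfl⟩ := hx
  obtain ⟨b, rfl⟩ := hy
  exact ⟨a - b, map_sub _ _ _⟩

theorem IsInt.zero : IsInt W (0 : K) := ⟨0, map_zero _⟩

theorem IsInt.one : IsInt W (1 : K) := ⟨1, map_one _⟩

theorem IsInt.natCast (n : ℕ) : IsInt W (n : K) := ⟨n, map_natCast _ n⟩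

theorem IsInt.algebraMap (w : W) : IsInt W (algebraMap W K w) := ⟨w, rfl⟩

theorem IsInt.sum {ι : Type*} (s : Finset ι) {f : ι → K} (h : ∀ i ∈ s, IsInt W (f i)) :
    IsInt W (∑ i ∈ s, f i) := by
  classical
  induction s using Finset.induction_on with
  | empty => simpa using IsInt.zero
  | insert a s ha ih =>
    rw [Finset.sum_insert ha]
    exact (h a (Finset.mem_insert_self a s)).add
      (ih (fun i hi => h i (Finset.mem_insert_of_mem hi)))

end

section
variable {X : Type} [Fintype X] [DecidableEq X] (C : Coh X)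
variable (W K : Type) [CommRing W] [Field K] [Algebra W K]

/-- `Λ_W` inside `Λ_K` -/
def LamO : Subalgebra W ↥(C.Lam K) where
  carrier := {a | ∀ i j, IsInt W ((a : Matrix X X K) i j)}
  mul_mem' := by
    intro a b ha hb i j
    change IsInt W (((a : Matrix X X K) * (b : Matrix X X K)) i j)
    rw [Matrix.mul_apply]
    exact IsInt.sum _ (fun k _ => (ha i k).mul (hb k j))
  add_mem' := by
    intro a b ha hb i j
    exact (ha i j).add (hb i j)
  algebraMap_mem' := by
    intro w i j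
    change IsInt W ((algebraMap W (Matrix X X K) w) i j)
    rw [Matrix.algebraMap_matrix_apply]
    split_ifs
    · exact IsInt.algebraMap w
    · exact IsInt.zero

theorem mem_LamO {a : ↥(C.Lam K)} : a ∈ LamO C W K ↔ ∀ i j, IsInt W ((a : Matrix X X K) i j) :=
  Iff.rfl

/-- `P_W` inside `P_K` -/
def PPO : Subalgebra W ↥(C.PP K) where
  carrier := {a | ∀ i j, IsInt W ((a : Matrix (X × X) (X × X) K) i j)}
  mul_mem' := by
    intro a b ha hb i j
    change IsInt W (((a : Matrix (X × X) (X × X) K) * (b : Matrix (X × X) (X × X) K)) i j)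
    rw [Matrix.mul_apply]
    exact IsInt.sum _ (fun k _ => (ha i k).mul (hb k j))
  add_mem' := by
    intro a b ha hb i j
    exact (ha i j).add (hb i j)
  algebraMap_mem' := by
    intro w i j
    change IsInt W ((algebraMap W (Matrix (X × X) (X × X) K) w) i j)
    rw [Matrix.algebraMap_matrix_apply]
    split_ifs
    · exact IsInt.algebraMap w
    · exact IsInt.zero

theorem mem_PPO {a : ↥(C.PP K)} :
    a ∈ PPO C W K ↔ ∀ i j, IsInt W ((a : Matrix (X × X) (X × X) K) i j) := Iff.rfl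

/-- the trace divided by `p = |X|` on `Λ_K` -/
noncomputable def tauL : ↥(C.Lam K) →ₗ[K] K :=
  ((Fintype.card X : K)⁻¹) • ((Matrix.traceLinearMap X K K).comp (C.Lam K).val.toLinearMap)

/-- the trace divided by `p = |X|` on `P_K` -/
noncomputable def tauP : ↥(C.PP K) →ₗ[K] K :=
  ((Fintype.card X : K)⁻¹) • ((Matrix.traceLinearMap (X × X) K K).comp (C.PP K).val.toLinearMap)

theorem tauL_apply (a : ↥(C.Lam K)) :
    tauL C K a = ((Fintype.card X : K)⁻¹) * Matrix.trace (a : Matrix X X K) := rfl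

theorem tauP_apply (a : ↥(C.PP K)) :
    tauP C K a = ((Fintype.card X : K)⁻¹) * Matrix.trace (a : Matrix (X × X) (X × X) K) := rfl

end

section
variable {X : Type} [Fintype X] [DecidableEq X] (C : Coh X) (R : Type) [CommRing R]

/-- the all ones matrix -/
def JJ (X R : Type) [One R] : Matrix X X R := Matrix.of (fun _ _ => 1)

/-- `a ⊗ 1` -/
def t1 {X R : Type} [DecidableEq X] [CommRing R] (a : Matrix X X R) : Matrix (X × X) (X × X) R :=
  a ⊗ₖ (1 : Matrix X X R)

/-- `1 ⊗ a` -/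
def t2 {X R : Type} [DecidableEq X] [CommRing R] (a : Matrix X X R) : Matrix (X × X) (X × X) R :=
  (1 : Matrix X X R) ⊗ₖ a

theorem t1_apply {X R : Type} [DecidableEq X] [CommRing R] (a : Matrix X X R) (i j : X × X) :
    t1 a i j = if i.2 = j.2 then a i.1 j.1 else 0 := by
  simp [t1, Matrix.kroneckerMap_apply, Matrix.one_apply]

theorem t2_apply {X R : Type} [DecidableEq X] [CommRing R] (a : Matrix X X R) (i j : X × X) :
    t2 a i j = if i.1 = j.1 then a i.2 j.2 else 0 := by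
  simp [t2, Matrix.kroneckerMap_apply, Matrix.one_apply]

/-- embedding of `X × X` matrices on the diagonal -/
def tδ {X R : Type} [DecidableEq X] [CommRing R] (a : Matrix X X R) : Matrix (X × X) (X × X) R :=
  Matrix.of (fun i j => if i.1 = i.2 ∧ j.1 = j.2 then a i.1 j.1 else 0)

/-- embedding of `AA` in `PP` : block diagonal, `(a g)(x1,x2) = ∑ w, a x1 x2 w * g(x1,w)` -/
def tA {X R : Type} [DecidableEq X] [CommRing R] (a : X → Matrix X X R) :
    Matrix (X × X) (X × X) R :=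
  Matrix.of (fun i j => if i.1 = j.1 then a i.1 i.2 j.2 else 0)

theorem t1_mem {a : Matrix X X R} (ha : a ∈ C.Lam R) : t1 a ∈ C.PP R := by
  intro x y h
  have h1 := C.pattern (by norm_num) _ _ h
  have h2 := C.pattern (by norm_num) _ _ ((C.equiv 4 (by norm_num)).symm h)
  have h3 : x 1 = x 3 ↔ y 1 = y 3 := ⟨h1 1 3, h2 1 3⟩
  have h4 : a (x 0) (x 2) = a (y 0) (y 2) :=
    ha _ _ (C.reindex (n := 4) (k := 2) (by norm_num) (by norm_num) ![0, 2] _ _ h)
  simp only [t1_apply, h3, h4]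

theorem t2_mem {a : Matrix X X R} (ha : a ∈ C.Lam R) : t2 a ∈ C.PP R := by
  intro x y h
  have h1 := C.pattern (by norm_num) _ _ h
  have h2 := C.pattern (by norm_num) _ _ ((C.equiv 4 (by norm_num)).symm h)
  have h3 : x 0 = x 2 ↔ y 0 = y 2 := ⟨h1 0 2, h2 0 2⟩
  have h4 : a (x 1) (x 3) = a (y 1) (y 3) :=
    ha _ _ (C.reindex (n := 4) (k := 2) (by norm_num) (by norm_num) ![1, 3] _ _ h)
  simp only [t2_apply, h3, h4]

theorem tδ_mem {a : Matrix X X R} (ha : a ∈ C.Lam R) : tδ a ∈ C.PP R := by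
  intro x y h
  have h1 := C.pattern (by norm_num) _ _ h
  have h2 := C.pattern (by norm_num) _ _ ((C.equiv 4 (by norm_num)).symm h)
  have h3 : (x 0 = x 1 ∧ x 2 = x 3) ↔ (y 0 = y 1 ∧ y 2 = y 3) :=
    ⟨fun hh => ⟨h1 0 1 hh.1, h1 2 3 hh.2⟩, fun hh => ⟨h2 0 1 hh.1, h2 2 3 hh.2⟩⟩
  have h4 : a (x 0) (x 2) = a (y 0) (y 2) :=
    ha _ _ (C.reindex (n := 4) (k := 2) (by norm_num) (by norm_num) ![0, 2] _ _ h)
  simp only [tδ, Matrix.of_apply, h3, h4]

theorem tA_mem {a : X → Matrix X X R} (ha : a ∈ C.AA R) : tA a ∈ C.PP R := by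
  intro x y h
  have h1 := C.pattern (by norm_num) _ _ h
  have h2 := C.pattern (by norm_num) _ _ ((C.equiv 4 (by norm_num)).symm h)
  have h3 : x 0 = x 2 ↔ y 0 = y 2 := ⟨h1 0 2, h2 0 2⟩
  have h4 : a (x 0) (x 1) (x 3) = a (y 0) (y 1) (y 3) :=
    ha _ _ (C.reindex (n := 4) (k := 3) (by norm_num) (by norm_num) ![0, 1, 3] _ _ h)
  simp only [tA, Matrix.of_apply, h3, h4]

theorem JJ_mem : JJ X R ∈ C.Lam R := fun _ _ _ => rfl

end

/-- The structure of `Λ`: `k` non-diagonal colours of pairs, all valencies `d`, `k d = p - 1`, and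
the uniformizer `y` of `Λ_W` with `y ^ k = p - J`. -/
structure YData {X : Type} [Fintype X] [DecidableEq X] (C : Coh X) (p : ℕ) (W K : Type)
    [CommRing W] [Field K] [Algebra W K] (k d : ℕ) (y : Matrix X X W) (ζ0 : W) : Prop where
  card : Fintype.card X = p
  k2 : 2 ≤ k
  kd : k * d = p - 1
  mem : y ∈ C.Lam W
  rowsum : ∀ i, ∑ j, y i j = 0
  colsum : ∀ j, ∑ i, y i j = 0
  pow : y ^ k = (p : Matrix X X W) - JJ X W
  trans : yᵀ = ζ0 • y
  z0 : ζ0 ^ k = 1
  comm : ∀ a ∈ C.Lam K, ∀ b ∈ C.Lam K, a * b = b * a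
  rank2 : Nat.card (Quot (C.r 2)) = k + 1
  val : ∀ x z, x ≠ z → Nat.card {w : X // C.r 2 ![x, w] ![x, z]} = d

/-- regularity datum (P) -/
structure PData {X : Type} [Fintype X] [DecidableEq X] (C : Coh X) {W : Type} (F : Type)
    [CommRing W] [Field F] [Algebra W F] (k : ℕ) (y : Matrix X X W)
    (q r : X → Matrix X X F) : Prop where
  q_mem : q ∈ C.AA F
  r_mem : r ∈ C.AA F
  eq : ∀ x, (1 : Matrix X X F) = (y.map (algebraMap W F)) ^ (k - 1) * q x +
    r x * (y.map (algebraMap W F))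

/-- `b` is the idempotent of `P_K` projecting on `B_ζ` -/
structure IsB {X : Type} [Fintype X] [DecidableEq X] (C : Coh X) {W K : Type}
    [CommRing W] [Field K] [Algebra W K] (y : Matrix X X W) (ζ : W) (b : ↥(C.PP K)) : Prop where
  idem : b * b = b
  comm1 : (b : Matrix (X × X) (X × X) K) * t1 (y.map (algebraMap W K)) =
    t1 (y.map (algebraMap W K)) * (b : Matrix (X × X) (X × X) K)
  comm2 : (b : Matrix (X × X) (X × X) K) * t2 (y.map (algebraMap W K)) =
    t2 (y.map (algebraMap W K)) * (b : Matrix (X × X) (X × X) K)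
  commJ1 : (b : Matrix (X × X) (X × X) K) * t1 (JJ X K) =
    t1 (JJ X K) * (b : Matrix (X × X) (X × X) K)
  commJ2 : (b : Matrix (X × X) (X × X) K) * t2 (JJ X K) =
    t2 (JJ X K) * (b : Matrix (X × X) (X × X) K)
  iff : ∀ v : X × X → K, (b : Matrix (X × X) (X × X) K) *ᵥ v = v ↔
    (t1 (JJ X K) *ᵥ v = 0 ∧ t2 (JJ X K) *ᵥ v = 0 ∧
      t2 (y.map (algebraMap W K)) *ᵥ v = (algebraMap W K ζ) • (t1 (y.map (algebraMap W K)) *ᵥ v))

end PDeg
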