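import Pool.Agent.Lib.MP_369ee2_lc_PD.Dim3
import Pool.Agent.Lib.MP_369ee2_lc_PD.Ord

/-!
# Section 9: `P δ` and the colours of triples
-/

namespace PDeg

open Function Finset
open scoped BigOperators Matrix

variable {X : Type} [Fintype X] [DecidableEq X] (C : Coh X) (K : Type) [Field K]

/-- the diagonal idempotent `δ` of `P` -/
noncomputable def dlt : ↥(C.PP K) := ⟨tδ 1, tδ_mem C K (C.Lam K).one_mem⟩

theorem dlt_apply (i j : X × X) : ((dlt C K : ↥(C.PP K)) : Matrix (X × X) (X × X) K) i j =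
    if i.1 = i.2 ∧ j.1 = j.2 ∧ i.1 = j.1 then 1 else 0 := by
  show tδ (1 : Matrix X X K) i j = _
  simp only [tδ, Matrix.of_apply, Matrix.one_apply]
  by_cases h1 : i.1 = i.2 <;> by_cases h2 : j.1 = j.2 <;> by_cases h3 : i.1 = j.1 <;>
    simp [h1, h2, h3]

theorem mul_dlt_apply {Y : Type} (T : Matrix Y (X × X) K) (z : Y) (x : X × X) :
    (T * (tδ 1 : Matrix (X × X) (X × X) K)) z x = if x.1 = x.2 then T z x else 0 := by
  rw [Matrix.mul_apply]
  by_cases h : x.1 = x.2
  · rw [if_pos h, Finset.sum_eq_single x]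
    · simp [tδ, h]
    · intro y _ hy
      have : ¬ (y.1 = y.2 ∧ y.1 = x.1) := by
        rintro ⟨h1, h2⟩
        apply hy
        exact Prod.ext h2 (by rw [← h1, h2, h])
      simp only [tδ, Matrix.of_apply, Matrix.one_apply]
      by_cases h1 : y.1 = y.2
      · have h2 : y.1 ≠ x.1 := fun h2 => this ⟨h1, h2⟩
        simp [h2]
      · simp [h1]
    · intro h'
      exact absurd (Finset.mem_univ _) h'
  · rw [if_neg h]
    apply Finset.sum_eq_zero
    intro y _
    simp [tδ, h]

theorem mul_dlt_iff {Y : Type} (T : Matrix Y (X × X) K) :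
    T * (tδ 1 : Matrix (X × X) (X × X) K) = T ↔ ∀ z x1 x2, x1 ≠ x2 → T z (x1, x2) = 0 := by
  constructor
  · intro h z x1 x2 hx
    have := congrFun (congrFun h z) (x1, x2)
    rw [mul_dlt_apply, if_neg hx] at this
    exact this.symm
  · intro h
    ext z ⟨x1, x2⟩
    rw [mul_dlt_apply]
    by_cases hx : x1 = x2
    · rw [if_pos hx]
    · rw [if_neg hx, h z x1 x2 hx]

theorem t1_JJ_mul_apply {R : Type} [CommRing R] {Y : Type} (T : Matrix (X × X) Y R) (z : X × X)
    (x : Y) : (t1 (JJ X R) * T) z x = ∑ w, T (w, z.2) x := by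
  rw [Matrix.mul_apply, Fintype.sum_prod_type]
  refine Finset.sum_congr rfl (fun w _ => ?_)
  rw [Finset.sum_eq_single z.2]
  · simp [t1_apply, JJ]
  · intro b _ hb
    simp [t1_apply, Ne.symm hb]
  · simp

theorem t2_JJ_mul_apply {R : Type} [CommRing R] {Y : Type} (T : Matrix (X × X) Y R) (z : X × X)
    (x : Y) : (t2 (JJ X R) * T) z x = ∑ w, T (z.1, w) x := by
  rw [Matrix.mul_apply, Fintype.sum_prod_type, Finset.sum_eq_single z.1]
  · refine Finset.sum_congr rfl (fun w _ => ?_)
    simp [t2_apply, JJ]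
  · intro b _ hb
    refine Finset.sum_eq_zero (fun w _ => ?_)
    simp [t2_apply, Ne.symm hb]
  · simp

/-- `P δ` is the space of colour-constant functions on `X^3` -/
noncomputable def homEquiv : crn K (1 : ↥(C.PP K)) (dlt C K) ≃ₗ[K] C.cstSub K 3 where
  toFun T := ⟨fun t => (T.1 : Matrix (X × X) (X × X) K) (t 0, t 1) (t 2, t 2), by
    intro x y h
    have h1 := T.1.2 _ _ (C.reindex (n := 3) (k := 4) (by norm_num) (by norm_num)
      ![0, 1, 2, 2] _ _ h)
    exact h1⟩
  invFun f := ⟨⟨Matrix.of fun z x => if x.1 = x.2 then f.1 ![z.1, z.2, x.1] else 0, by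
      intro x y h
      have p1 := C.pattern (by norm_num) _ _ h
      have p2 := C.pattern (by norm_num) _ _ ((C.equiv 4 (by norm_num)).symm h)
      have q1 : (x 2 = x 3) = (y 2 = y 3) := propext ⟨p1 2 3, p2 2 3⟩
      have e : ∀ t : Fin 4 → X, (![t 0, t 1, t 2] : Fin 3 → X) = fun i => t (![0, 1, 2] i) := by
        intro t
        ext i
        fin_cases i <;> rfl
      have h1 := f.2 _ _ (C.reindex (n := 4) (k := 3) (by norm_num) (by norm_num)
        ![0, 1, 2] _ _ h)
      rw [← e, ← e] at h1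
      simp only [Matrix.of_apply, q1, h1]⟩, by
    rw [mem_crn]
    refine ⟨one_mul _, Subtype.ext ?_⟩
    show _ * (tδ 1 : Matrix (X × X) (X × X) K) = _
    rw [mul_dlt_iff]
    intro z x1 x2 hx
    simp [hx]⟩
  left_inv T := by
    apply Subtype.ext
    apply Subtype.ext
    have hT : (T.1 : Matrix (X × X) (X × X) K) * (tδ 1 : Matrix (X × X) (X × X) K) = T.1 :=
      congrArg Subtype.val (mem_crn.1 T.2).2
    rw [mul_dlt_iff] at hT
    ext ⟨z1, z2⟩ ⟨x1, x2⟩
    show (if x1 = x2 then (T.1 : Matrix (X × X) (X × X) K) (z1, z2) (x1, x1) else 0) = _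
    by_cases hx : x1 = x2
    · subst hx
      rw [if_pos rfl]
    · rw [if_neg hx, hT _ _ _ hx]
  right_inv f := by
    apply Subtype.ext
    ext t
    show (if t 2 = t 2 then f.1 ![t 0, t 1, t 2] else 0) = f.1 t
    rw [if_pos rfl]
    refine congrArg f.1 (funext fun i => ?_)
    fin_cases i <;> rfl
  map_add' S T := rfl
  map_smul' c T := rfl

/-- the dimension of `P δ` is the number of colours of triples -/
theorem finrank_crn_dlt :
    Module.finrank K (crn K (1 : ↥(C.PP K)) (dlt C K)) = Nat.card (Quot (C.r 3)) := by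
  rw [LinearEquiv.finrank_eq (homEquiv C K), C.finrank_cst]

/-- `{T ∈ P : T e = T, J_1 T = J_2 T = 0}` -/
def szSub (e : ↥(C.PP K)) : Submodule K ↥(C.PP K) where
  carrier := {T | T * e = T ∧ t1 (JJ X K) * (T : Matrix (X × X) (X × X) K) = 0 ∧
    t2 (JJ X K) * (T : Matrix (X × X) (X × X) K) = 0}
  add_mem' := by
    rintro S T ⟨h1, h2, h3⟩ ⟨h1', h2', h3'⟩
    refine ⟨by rw [add_mul, h1, h1'], ?_, ?_⟩
    · show t1 (JJ X K) * ((S : Matrix (X × X) (X × X) K) + T) = 0
      rw [mul_add, h2, h2', add_zero]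
    · show t2 (JJ X K) * ((S : Matrix (X × X) (X × X) K) + T) = 0
      rw [mul_add, h3, h3', add_zero]
  zero_mem' := ⟨zero_mul _, mul_zero _, mul_zero _⟩
  smul_mem' := by
    rintro c T ⟨h1, h2, h3⟩
    refine ⟨by rw [smul_mul_assoc, h1], ?_, ?_⟩
    · show t1 (JJ X K) * (c • (T : Matrix (X × X) (X × X) K)) = 0
      rw [mul_smul_comm, h2, smul_zero]
    · show t2 (JJ X K) * (c • (T : Matrix (X × X) (X × X) K)) = 0
      rw [mul_smul_comm, h3, smul_zero]

theorem mem_szSub {e T : ↥(C.PP K)} : T ∈ szSub C K e ↔ T * e = T ∧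
    t1 (JJ X K) * (T : Matrix (X × X) (X × X) K) = 0 ∧
    t2 (JJ X K) * (T : Matrix (X × X) (X × X) K) = 0 := Iff.rfl

/-- the sum-zero part of `P δ` is the kernel of `Phi` -/
theorem finrank_szSub_dlt :
    Module.finrank K (szSub C K (dlt C K)) =
      Module.finrank K (LinearMap.ker (C.Phi K)) := by
  have key : ∀ T : crn K (1 : ↥(C.PP K)) (dlt C K),
      T.1 ∈ szSub C K (dlt C K) ↔ homEquiv C K T ∈ LinearMap.ker (C.Phi K) := by
    intro T
    have hT : (T.1 : Matrix (X × X) (X × X) K) * (tδ 1 : Matrix (X × X) (X × X) K) = T.1 :=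
      congrArg Subtype.val (mem_crn.1 T.2).2
    rw [mul_dlt_iff] at hT
    rw [C.mem_ker_Phi, mem_szSub]
    constructor
    · rintro ⟨-, h2, h3⟩
      refine ⟨fun z x => ?_, fun z x => ?_⟩
      · have := congrFun (congrFun h2 (z, z)) (x, x)
        rw [t1_JJ_mul_apply] at this
        exact this
      · have := congrFun (congrFun h3 (z, z)) (x, x)
        rw [t2_JJ_mul_apply] at this
        exact this
    · rintro ⟨h2, h3⟩
      refine ⟨(mem_crn.1 T.2).2, ?_, ?_⟩
      · ext ⟨z1, z2⟩ ⟨x1, x2⟩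
        rw [t1_JJ_mul_apply]
        by_cases hx : x1 = x2
        · subst hx
          exact h2 z2 x1
        · exact Finset.sum_eq_zero fun w _ => hT _ _ _ hx
      · ext ⟨z1, z2⟩ ⟨x1, x2⟩
        rw [t2_JJ_mul_apply]
        by_cases hx : x1 = x2
        · subst hx
          exact h3 z1 x1
        · exact Finset.sum_eq_zero fun w _ => hT _ _ _ hx
  have e1 : (szSub C K (dlt C K)).comap (crn K (1 : ↥(C.PP K)) (dlt C K)).subtype =
      (LinearMap.ker (C.Phi K)).comap (homEquiv C K).toLinearMap := by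
    ext T
    exact key T
  have hle : szSub C K (dlt C K) ≤ crn K (1 : ↥(C.PP K)) (dlt C K) := by
    intro T hT
    exact mem_crn.2 ⟨one_mul _, hT.1⟩
  have e2 := LinearEquiv.finrank_eq (Submodule.comapSubtypeEquivOfLe hle)
  have e3 := LinearEquiv.finrank_eq ((homEquiv C K).submoduleMap
    ((LinearMap.ker (C.Phi K)).comap (homEquiv C K).toLinearMap))
  rw [Submodule.map_comap_eq_of_surjective (homEquiv C K).surjective] at e3
  rw [← e2, ← e3]
  exact congrArg (fun S : Submodule K (crn K (1 : ↥(C.PP K)) (dlt C K)) =>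
    Module.finrank K S) e1

/-- **Section 9.** number of colours of triples in terms of the sum-zero part of `P δ` -/
theorem card_colours3_P [Nonempty X] :
    Nat.card (Quot (C.r 3)) + 1 =
      Module.finrank K (szSub C K (dlt C K)) + 2 * Nat.card (Quot (C.r 2)) := by
  rw [finrank_szSub_dlt, C.card_colours3 K]

end PDeg
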