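import Pool.Agent.Lib.MP_369ee2_lc_PD.FactM3
import Pool.Agent.Lib.MP_369ee2_lc_PD.Dim3P

/-!
# Fact M with the total dimension
-/

namespace PDeg.FactM

open scoped BigOperators Matrix Kronecker

variable {p : ℕ} {X W K F : Type} [Fintype X] [DecidableEq X]
  [CommRing W] [IsDomain W] [Field K] [Algebra W K] [IsFractionRing W K]
  [Field F] [Algebra W F] (C : Coh X)

/-- **Fact M**, with the dimension of `{T : T e = T, J_1 T = J_2 T = 0}` -/
theorem factM_full (hB : Base p W K F) {k d : ℕ} {y : Matrix X X W} {ζ0 : W}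
    (hY : YData C p W K k d y ζ0) {q r : X → Matrix X X F} (hP : PData C F k y q r)
    {e : ↥(C.PP K)} (he : e ∈ PPO C W K) (hee : e * e = e) :
    ∃ κ : ℕ, Module.finrank K (szSub C K e) = k ^ 2 * κ ∧
      ∀ ζ : W, ζ ^ k = 1 → ∀ b : ↥(C.PP K), IsB C y ζ b →
        Module.finrank K (crn K b e) = k * κ := by
  have hinj : Function.Injective (algebraMap W K) := IsFractionRing.injective W K
  choose E hE using he
  let eW : Matrix (X × X) (X × X) W := Matrix.of E
  have heW : eW.map (algebraMap W K) = (e : Matrix (X × X) (X × X) K) := by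
    ext i j
    exact hE i j
  have m1 : eW ∈ C.PP W := by
    intro a b hab
    apply hinj
    have h1 := e.2 a b hab
    simp only [← heW] at h1
    exact h1
  have m2 : eW * eW = eW := by
    apply Matrix.map_injective hinj
    show (eW * eW).map (algebraMap W K) = eW.map (algebraMap W K)
    rw [Matrix.map_mul, heW]
    exact congrArg Subtype.val hee
  have hk : k ∣ p - 1 := ⟨d, hY.kd.symm⟩
  have hk1 : 1 ≤ k := by
    have := hY.k2
    omega
  have key := factM_gen hB hk hk1 (fm_pp C hB hY hP m1 m2)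
  have hone : (1 : Matrix (X × X) (X × X) W).map (algebraMap W K) = 1 := by
    ext i j
    simp [Matrix.one_apply]
  refine ⟨Module.finrank F ↥(KK (relP C) (1 : Matrix (X × X) (X × X) W) eW y F), ?_,
    fun ζ hζ b hb => ?_⟩
  · have h0 : k ^ 2 * Module.finrank F ↥(KK (relP C) (1 : Matrix (X × X) (X × X) W) eW y F) =
        k * (k * Module.finrank F ↥(KK (relP C) (1 : Matrix (X × X) (X × X) W) eW y F)) := by
      ring
    rw [h0, ← key.1]
    have h1 : (szSub C K e).map (C.PP K).val.toLinearMap =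
        LL (relP C) (1 : Matrix (X × X) (X × X) W) eW K := by
      ext T
      rw [Submodule.mem_map, mem_LL, hone, heW, Matrix.one_mul, cs_relP]
      constructor
      · rintro ⟨T, hT, rfl⟩
        obtain ⟨h2, h3, h4⟩ := (mem_szSub C K).mp hT
        exact ⟨T.2, congrArg Subtype.val h2, h3, h4⟩
      · rintro ⟨h2, h3, h4, h5⟩
        exact ⟨⟨T, h2⟩, (mem_szSub C K).mpr ⟨Subtype.ext h3, h4, h5⟩, rfl⟩
    rw [← h1]
    exact LinearEquiv.finrank_eq (Submodule.equivMapOfInjective _ Subtype.val_injective _)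
  · rw [← key.2 ζ hζ]
    have h1 : (crn K b e).map (C.PP K).val.toLinearMap =
        BZ (relP C) (1 : Matrix (X × X) (X × X) W) eW y ζ K := by
      ext T
      rw [Submodule.mem_map, mem_BZ, mem_LL, hone, heW, Matrix.one_mul, cs_relP]
      constructor
      · rintro ⟨T, hT, rfl⟩
        obtain ⟨h2, h3⟩ := mem_crn.mp hT
        have h4 := (hb.mul_iff_mat (T : Matrix (X × X) (X × X) K)).mp (congrArg Subtype.val h2)
        exact ⟨⟨T.2, congrArg Subtype.val h3, h4.1, h4.2.1⟩, h4.2.2⟩
      · rintro ⟨⟨h2, h3, h4, h5⟩, h6⟩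
        refine ⟨⟨T, h2⟩, mem_crn.mpr ⟨Subtype.ext ?_, Subtype.ext h3⟩, rfl⟩
        exact (hb.mul_iff_mat T).mpr ⟨h4, h5, h6⟩
    rw [← h1]
    exact LinearEquiv.finrank_eq (Submodule.equivMapOfInjective _ Subtype.val_injective _)

end PDeg.FactM
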