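import Pool.Agent.Lib.MP_369ee2_lc_PD.OrdDefs

/-!
# Vertices of idempotents

In a finite dimensional algebra with a nondegenerate symmetric form that vanishes on nilpotents
every idempotent `f` has a unique vertex: the central idempotent generating `A f A`.
-/

namespace PD

open Module

section general

variable {A : Type*} [Ring A]

/-- `f A f` is a (skew) field with unit `f`. -/
def CornerField (f : A) : Prop :=
  f ≠ 0 ∧ ∀ x : A, f * x = x → x * f = x → x ≠ 0 →
    ∃ y : A, f * y = y ∧ y * f = y ∧ x * y = f ∧ y * x = f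

theorem Vertex.central_mul {z f : A} (hz : Vertex z f) {w : A} (hw : ∀ x, w * x = x * w)
    (hwf : w * f = f) : w * z = z := by
  have : ∀ x ∈ Submodule.span ℤ {x : A | ∃ a b, x = a * f * b}, w * x = x := by
    intro x hx
    induction hx using Submodule.span_induction with
    | mem x h =>
      obtain ⟨a, b, rfl⟩ := h
      calc w * (a * f * b) = (w * a) * f * b := by noncomm_ring
        _ = a * (w * f) * b := by rw [hw a]; noncomm_ring
        _ = a * f * b := by rw [hwf]
    | zero => simp
    | add x y _ _ hx hy => rw [mul_add, hx, hy]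
    | smul c x _ hx => rw [mul_smul_comm, hx]
  exact this z hz.mem

theorem Vertex.central_mul_zero {z f : A} (hz : Vertex z f) {w : A} (hw : ∀ x, w * x = x * w)
    (hwf : w * f = 0) : w * z = 0 := by
  have : ∀ x ∈ Submodule.span ℤ {x : A | ∃ a b, x = a * f * b}, w * x = 0 := by
    intro x hx
    induction hx using Submodule.span_induction with
    | mem x h =>
      obtain ⟨a, b, rfl⟩ := h
      calc w * (a * f * b) = (w * a) * f * b := by noncomm_ring
        _ = a * (w * f) * b := by rw [hw a]; noncomm_ring
        _ = 0 := by rw [hwf]; simp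
    | zero => simp
    | add x y _ _ hx hy => rw [mul_add, hx, hy, add_zero]
    | smul c x _ hx => rw [mul_smul_comm, hx, smul_zero]
  exact this z hz.mem

theorem Vertex.fz {z f : A} (hz : Vertex z f) : f * z = f := by
  rw [← hz.central, hz.zf]

/-- `b A f = 0` implies `b z = 0`. -/
theorem Vertex.mul_eq_zero {z f : A} (hz : Vertex z f) {b : A} (hb : ∀ x, b * x * f = 0) :
    b * z = 0 := by
  have : ∀ x ∈ Submodule.span ℤ {x : A | ∃ a b, x = a * f * b}, b * x = 0 := by
    intro x hx
    induction hx using Submodule.span_induction with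
    | mem x h =>
      obtain ⟨a, c, rfl⟩ := h
      calc b * (a * f * c) = (b * a * f) * c := by noncomm_ring
        _ = 0 := by rw [hb]; simp
    | zero => simp
    | add x y _ _ hx hy => rw [mul_add, hx, hy, add_zero]
    | smul c x _ hx => rw [mul_smul_comm, hx, smul_zero]
  exact this z hz.mem

/-- `f A b = 0` implies `z b = 0`. -/
theorem Vertex.mul_eq_zero' {z f : A} (hz : Vertex z f) {b : A} (hb : ∀ x, f * x * b = 0) :
    z * b = 0 := by
  have : ∀ x ∈ Submodule.span ℤ {x : A | ∃ a b, x = a * f * b}, x * b = 0 := by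
    intro x hx
    induction hx using Submodule.span_induction with
    | mem x h =>
      obtain ⟨a, c, rfl⟩ := h
      calc a * f * c * b = a * (f * c * b) := by noncomm_ring
        _ = 0 := by rw [hb]; simp
    | zero => simp
    | add x y _ _ hx hy => rw [add_mul, hx, hy, add_zero]
    | smul c x _ hx => rw [smul_mul_assoc, hx, smul_zero]
  exact this z hz.mem

/-- `b A f = 0` if and only if `b z = 0`. -/
theorem Vertex.mul_eq_zero_iff {z f : A} (hz : Vertex z f) (b : A) :
    (∀ x, b * x * f = 0) ↔ b * z = 0 := by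
  refine ⟨hz.mul_eq_zero, fun h x => ?_⟩
  calc b * x * f = b * x * (z * f) := by rw [hz.zf]
    _ = b * (z * x) * f := by rw [hz.central x]; noncomm_ring
    _ = (b * z) * x * f := by noncomm_ring
    _ = 0 := by rw [h]; simp

/-- `f A b = 0` if and only if `z b = 0`. -/
theorem Vertex.mul_eq_zero_iff' {z f : A} (hz : Vertex z f) (b : A) :
    (∀ x, f * x * b = 0) ↔ z * b = 0 := by
  refine ⟨hz.mul_eq_zero', fun h x => ?_⟩
  calc f * x * b = (f * z) * x * b := by rw [hz.fz]
    _ = f * (z * x) * b := by noncomm_ring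
    _ = f * x * (z * b) := by rw [hz.central x]; noncomm_ring
    _ = 0 := by rw [h]; simp

/-- The vertex is unique. -/
theorem Vertex.unique {z z' f : A} (hz : Vertex z f) (hz' : Vertex z' f) : z = z' := by
  have h1 := hz.central_mul hz'.central hz'.zf
  have h2 := hz'.central_mul hz.central hz.zf
  rw [← h1, hz'.central, h2]

/-- If `f A f` is a field, a central idempotent kills or fixes the vertex of `f`. -/
theorem Vertex.dichotomy {z f w : A} (hz : Vertex z f) (hf : f * f = f) (hF : CornerField f)
    (hw : ∀ x, w * x = x * w) (hww : w * w = w) : w * z = 0 ∨ w * z = z := by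
  by_cases h : w * f = 0
  · exact Or.inl (hz.central_mul_zero hw h)
  · right
    refine hz.central_mul hw ?_
    obtain ⟨y, -, hy, hxy, -⟩ := hF.2 (w * f) (by rw [← mul_assoc, ← hw f, mul_assoc, hf])
      (by rw [mul_assoc, hf]) h
    have : w * f * (w * f) = w * f := by
      calc w * f * (w * f) = w * (f * w) * f := by noncomm_ring
        _ = (w * w) * (f * f) := by rw [← hw f]; noncomm_ring
        _ = w * f := by rw [hww, hf]
    calc w * f = w * f * (w * f * y) := by rw [hxy, mul_assoc, hf]
      _ = (w * f * (w * f)) * y := by noncomm_ring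
      _ = w * f * y := by rw [this]
      _ = f := hxy

/-- Two vertices of idempotents with corner fields are equal or orthogonal. -/
theorem Vertex.eq_or_mul_eq_zero {z₁ z₂ f₁ f₂ : A} (h₁ : Vertex z₁ f₁) (h₂ : Vertex z₂ f₂)
    (hf₁ : f₁ * f₁ = f₁) (hf₂ : f₂ * f₂ = f₂) (hF₁ : CornerField f₁) (hF₂ : CornerField f₂) :
    z₁ = z₂ ∨ z₁ * z₂ = 0 := by
  rcases h₁.dichotomy hf₁ hF₁ h₂.central h₂.idem with h | h
  · right; rw [h₁.central]; exact h
  · rcases h₂.dichotomy hf₂ hF₂ h₁.central h₁.idem with h' | h'
    · right; exact h'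
    · left; rw [← h, h₂.central, h']

theorem Vertex.ne_zero {z f : A} (hz : Vertex z f) (hf : f ≠ 0) : z ≠ 0 := by
  rintro rfl
  exact hf (by rw [← hz.zf, zero_mul])

/-- If `f` is central in `e A e` then `z e = f`. -/
theorem Vertex.mul_corner {z f e : A} (hz : Vertex z f) (hf : f * f = f) (he : e * e = e)
    (hef : e * f = f) (hfe : f * e = f)
    (hc : ∀ x : A, e * x = x → x * e = x → f * x = x * f) : z * e = f := by
  -- `g = z e - f` satisfies `g A f = 0`
  have hg : ∀ x, (z * e - f) * x * f = 0 := by
    intro x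
    have h1 := hc (e * x * e) (by rw [← mul_assoc, ← mul_assoc, he])
      (by rw [mul_assoc, he])
    have h2 : e * x * f = f * x * f := by
      calc e * x * f = (e * x * e) * f := by rw [mul_assoc (e * x) e f, hef]
        _ = (e * x * e) * (f * f) := by rw [hf]
        _ = (e * x * e * f) * f := by noncomm_ring
        _ = (f * (e * x * e)) * f := by rw [h1]
        _ = (f * e) * x * (e * f) := by noncomm_ring
        _ = f * x * f := by rw [hfe, hef]
    calc (z * e - f) * x * f = z * (e * x * f) - f * x * f := by noncomm_ring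
      _ = z * (f * x * f) - f * x * f := by rw [h2]
      _ = (z * f) * x * f - f * x * f := by noncomm_ring
      _ = 0 := by rw [hz.zf, sub_self]
  have h := hz.mul_eq_zero hg
  have h3 : (z * e - f) * z = z * e - f := by
    calc (z * e - f) * z = z * (z * e - f) := (hz.central _).symm
      _ = (z * z) * e - z * f := by noncomm_ring
      _ = z * e - f := by rw [hz.idem, hz.zf]
  rw [h3, sub_eq_zero] at h
  exact h

/-- Equivalent idempotents have the same vertex. -/
theorem Vertex.of_equi {z f g : A} (hz : Vertex z f) (h : Equi f g) : Vertex z g := by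
  obtain ⟨a, l, hga, haf, hfl, hlg, hla, hal⟩ := h
  refine ⟨hz.idem, hz.central, ?_, ?_⟩
  · calc z * g = z * (a * l) := by rw [hal]
      _ = (z * a) * l := by noncomm_ring
      _ = a * (z * (f * l)) := by rw [hz.central a, hfl]; noncomm_ring
      _ = a * ((z * f) * l) := by noncomm_ring
      _ = g := by rw [hz.zf, hfl, hal]
  · refine Submodule.span_mono ?_ hz.mem
    rintro x ⟨b, c, rfl⟩
    refine ⟨b * l, a * c, ?_⟩
    calc b * f * c = b * (l * a) * c := by rw [hla]
      _ = b * (l * g) * (a) * c := by rw [hlg]; noncomm_ring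
      _ = b * l * g * (a * c) := by noncomm_ring

theorem Equi.symm {f g : A} (h : Equi f g) : Equi g f := by
  obtain ⟨a, l, hga, haf, hfl, hlg, hla, hal⟩ := h
  exact ⟨l, a, hfl, hlg, hga, haf, hal, hla⟩

theorem Equi.refl {f : A} (hf : f * f = f) : Equi f f := ⟨f, f, hf, hf, hf, hf, hf, hf⟩

theorem Equi.trans {f g h : A} (h₁ : Equi f g) (h₂ : Equi g h) : Equi f h := by
  obtain ⟨a, l, hga, haf, hfl, hlg, hla, hal⟩ := h₁
  obtain ⟨b, m, hhb, hbg, hgm, hmh, hmb, hbm⟩ := h₂
  refine ⟨b * a, l * m, ?_, ?_, ?_, ?_, ?_, ?_⟩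
  · rw [← mul_assoc, hhb]
  · rw [mul_assoc, haf]
  · rw [← mul_assoc, hfl]
  · rw [mul_assoc, hmh]
  · calc l * m * (b * a) = l * (m * b) * a := by noncomm_ring
      _ = f := by rw [hmb, hlg, hla]
  · calc b * a * (l * m) = b * (a * l) * m := by noncomm_ring
      _ = h := by rw [hal, hbg, hbm]

/-- Equivalent idempotents have corner fields at the same time. -/
theorem CornerField.of_equi {f g : A} (hF : CornerField f) (h : Equi f g) :
    CornerField g := by
  obtain ⟨a, l, hga, haf, hfl, hlg, hla, hal⟩ := h
  refine ⟨?_, ?_⟩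
  · rintro rfl
    apply hF.1
    rw [← hla, ← hga]; simp
  · intro x hgx hxg hx
    have hne : l * x * a ≠ 0 := by
      intro h0
      apply hx
      calc x = g * x * g := by rw [hgx, hxg]
        _ = a * (l * x * a) * l := by rw [← hal]; noncomm_ring
        _ = 0 := by rw [h0]; simp
    obtain ⟨y, hfy, hyf, hxy, hyx⟩ := hF.2 (l * x * a) (by rw [← mul_assoc, ← mul_assoc, hfl])
      (by rw [mul_assoc, haf]) hne
    refine ⟨a * y * l, by rw [← mul_assoc, ← mul_assoc, hga], by rw [mul_assoc, hlg], ?_, ?_⟩
    · calc x * (a * y * l) = (g * x) * (a * y * l) := by rw [hgx]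
        _ = a * ((l * x * a) * y) * l := by rw [← hal]; noncomm_ring
        _ = g := by rw [hxy, haf, hal]
    · calc a * y * l * x = a * y * l * (x * g) := by rw [hxg]
        _ = a * (y * (l * x * a)) * l := by rw [← hal]; noncomm_ring
        _ = g := by rw [hyx, haf, hal]

end general

section form

variable {K A : Type*} [Field K] [Ring A] [Algebra K A]

/-- `K`-span of `A f A` is the `ℤ`-span. -/
theorem mem_zspan_of_mem_span {f x : A}
    (hx : x ∈ Submodule.span K {x : A | ∃ a b, x = a * f * b}) :
    x ∈ Submodule.span ℤ {x : A | ∃ a b, x = a * f * b} := by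
  induction hx using Submodule.span_induction with
  | mem x h => exact Submodule.subset_span h
  | zero => exact Submodule.zero_mem _
  | add x y _ _ hx hy => exact Submodule.add_mem _ hx hy
  | smul c x _ hx =>
    clear * - hx
    induction hx using Submodule.span_induction with
    | mem x h =>
      obtain ⟨a, b, rfl⟩ := h
      refine Submodule.subset_span ⟨c • a, b, ?_⟩
      rw [smul_mul_assoc, smul_mul_assoc]
    | zero => rw [smul_zero]; exact Submodule.zero_mem _
    | add x y _ _ hx hy => rw [smul_add]; exact Submodule.add_mem _ hx hy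
    | smul n x _ hx =>
      rw [smul_comm]
      exact Submodule.smul_mem _ _ hx

theorem mul_mem_span_left {f x : A} (c : A)
    (hx : x ∈ Submodule.span K {x : A | ∃ a b, x = a * f * b}) :
    c * x ∈ Submodule.span K {x : A | ∃ a b, x = a * f * b} := by
  induction hx using Submodule.span_induction with
  | mem x h =>
    obtain ⟨a, b, rfl⟩ := h
    exact Submodule.subset_span ⟨c * a, b, by noncomm_ring⟩
  | zero => rw [mul_zero]; exact Submodule.zero_mem _
  | add x y _ _ hx hy => rw [mul_add]; exact Submodule.add_mem _ hx hy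
  | smul n x _ hx => rw [mul_smul_comm]; exact Submodule.smul_mem _ _ hx

theorem mul_mem_span_right {f x : A} (c : A)
    (hx : x ∈ Submodule.span K {x : A | ∃ a b, x = a * f * b}) :
    x * c ∈ Submodule.span K {x : A | ∃ a b, x = a * f * b} := by
  induction hx using Submodule.span_induction with
  | mem x h =>
    obtain ⟨a, b, rfl⟩ := h
    exact Submodule.subset_span ⟨a, b * c, by noncomm_ring⟩
  | zero => rw [zero_mul]; exact Submodule.zero_mem _
  | add x y _ _ hx hy => rw [add_mul]; exact Submodule.add_mem _ hx hy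
  | smul n x _ hx => rw [smul_mul_assoc]; exact Submodule.smul_mem _ _ hx

/-- Existence of the vertex. -/
theorem exists_vertex_of_form [FiniteDimensional K A] (τ : A →ₗ[K] K)
    (symm : ∀ x y, τ (x * y) = τ (y * x)) (nondeg : ∀ x, (∀ z, τ (x * z) = 0) → x = 0)
    (nilp : ∀ x, IsNilpotent x → τ x = 0) (f : A) : ∃ z, Vertex z f := by
  classical
  set I : Submodule K A := Submodule.span K {x : A | ∃ a b, x = a * f * b} with hI
  let B : LinearMap.BilinForm K A := (LinearMap.mul K A).compr₂ τ
  have hB : ∀ x y, B x y = τ (x * y) := fun x y => rfl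
  have hrefl : B.IsRefl := by
    intro x y h
    rw [hB] at h ⊢
    rw [symm]; exact h
  have horth : ∀ x, x ∈ B.orthogonal I ↔ ∀ y ∈ I, τ (y * x) = 0 := by
    intro x
    rw [LinearMap.BilinForm.mem_orthogonal_iff]
    rfl
  have hdisj : Disjoint I (B.orthogonal I) := by
    rw [Submodule.disjoint_def]
    intro x hxI hxO
    rw [horth] at hxO
    apply nondeg
    intro a
    apply nilp
    refine ⟨2, ?_⟩
    apply nondeg
    intro c
    have : (x * a) ^ 2 * c = x * (a * x * a * c) := by rw [pow_two]; noncomm_ring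
    rw [this, symm]
    apply hxO
    exact mul_mem_span_right _ (mul_mem_span_right _ (mul_mem_span_left _ hxI))
  have hcompl := (LinearMap.BilinForm.isCompl_orthogonal_iff_disjoint hrefl).2 hdisj
  have h1 : (1 : A) ∈ I ⊔ B.orthogonal I := by rw [hcompl.sup_eq_top]; trivial
  obtain ⟨z, hz, z', hz', h1⟩ := Submodule.mem_sup.1 h1
  have hOl : ∀ c x, x ∈ B.orthogonal I → c * x ∈ B.orthogonal I := by
    intro c x hx
    rw [horth] at hx ⊢
    intro y hy
    rw [← mul_assoc]
    exact hx _ (mul_mem_span_right _ hy)
  have hOr : ∀ c x, x ∈ B.orthogonal I → x * c ∈ B.orthogonal I := by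
    intro c x hx
    rw [horth] at hx ⊢
    intro y hy
    rw [← mul_assoc, symm, ← mul_assoc]
    exact hx _ (mul_mem_span_left _ hy)
  have hzero : ∀ x, x ∈ I → x ∈ B.orthogonal I → x = 0 := fun x h h' =>
    (Submodule.disjoint_def.1 hdisj) x h h'
  have hzz' : z * z' = 0 := hzero _ (mul_mem_span_right _ hz) (hOl _ _ hz')
  have hcen : ∀ a, z * a = a * z := by
    intro a
    have h2 : z * a - a * z = a * z' - z' * a := by
      have e1 : z = 1 - z' := by rw [← h1]; simp
      rw [e1]; noncomm_ring
    have h3 : z * a - a * z = 0 := by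
      apply hzero
      · exact Submodule.sub_mem _ (mul_mem_span_right _ hz) (mul_mem_span_left _ hz)
      · rw [h2]
        exact Submodule.sub_mem _ (hOl _ _ hz') (hOr _ _ hz')
    exact sub_eq_zero.1 h3
  refine ⟨z, ?_, hcen, ?_, mem_zspan_of_mem_span hz⟩
  · have : z * (z + z') = z := by rw [h1, mul_one]
    rwa [mul_add, hzz', add_zero] at this
  · have hf : f ∈ I := Submodule.subset_span ⟨1, 1, by simp⟩
    have h4 : z' * f = 0 := hzero _ (mul_mem_span_left _ hf) (hOr _ _ hz')
    have : (z + z') * f = f := by rw [h1, one_mul]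
    rwa [add_mul, h4, add_zero] at this

end form

section frame

variable {W K A : Type*} [CommRing W] [IsDomain W] [IsDiscreteValuationRing W] [Field K]
  [Algebra W K] [IsFractionRing W K] [Ring A] [Algebra K A] [Algebra W A] [IsScalarTower W K A]

/-- Existence of the vertex in a frame. -/
theorem Frame.exists_vertex (Fr : Frame W K A) [FiniteDimensional K A] (f : A) :
    ∃ z, Vertex z f :=
  exists_vertex_of_form Fr.τ Fr.symm Fr.nondeg Fr.nilp f

/-- Trace form: a nonzero element of `b A c` is detected by `c A b`. -/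
theorem Frame.exists_mul_ne_zero (Fr : Frame W K A) {b c x : A} (hb : b * x = x)
    (hc : x * c = x) (hx : x ≠ 0) : ∃ y, Fr.τ (c * y * b * x) ≠ 0 := by
  by_contra h
  push Not at h
  apply hx
  apply Fr.nondeg
  intro y
  have := h y
  rw [mul_assoc, hb, mul_assoc, ← Fr.symm, mul_assoc] at this
  rw [← hc, mul_assoc]
  rw [Fr.symm] at this
  calc Fr.τ (x * (c * y)) = Fr.τ (c * y * x) := Fr.symm _ _
    _ = 0 := by rw [← this, ← Fr.symm]; congr 1; noncomm_ring

/-- `b A c = 0` implies `c A b = 0`. -/
theorem Frame.corner_zero_symm (Fr : Frame W K A) {b c : A} (h : ∀ x, b * x * c = 0) (x : A) :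
    c * x * b = 0 := by
  apply Fr.nondeg
  intro y
  have : Fr.τ (c * x * b * y) = Fr.τ (x * (b * y * c)) := by
    rw [show c * x * b * y = c * (x * b * y) by noncomm_ring, Fr.symm]
    congr 1; noncomm_ring
  rw [this, h, mul_zero, map_zero]

/-- For Good(e, f): the vertex `z` of `f` satisfies `z e = f`. -/
theorem Good.vertex_mul (Fr : Frame W K A) {e f z : A} {r : Submodule W A}
    (h : Good Fr e r f) (hz : Vertex z f) : z * e = f :=
  hz.mul_corner h.idem h.loc.idem h.ef h.fe h.central

/-- The complement of a good idempotent is good. -/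
theorem Good.compl (Fr : Frame W K A) {e f : A} {r : Submodule W A}
    (h : Good Fr e r f) : Good Fr e r (e - f) where
  loc := h.loc
  idem := by
    have := h.loc.idem
    calc (e - f) * (e - f) = e * e - e * f - f * e + f * f := by noncomm_ring
      _ = e - f := by rw [this, h.ef, h.fe, h.idem]; abel
  ef := by rw [mul_sub, h.loc.idem, h.ef]
  fe := by rw [sub_mul, h.loc.idem, h.fe]
  central := fun x hx hx' => by rw [sub_mul, mul_sub, hx, hx', h.central x hx hx']
  not_mem := fun hm => h.not_mem (by
    have := Fr.O.sub_mem h.loc.mem hm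
    rwa [sub_sub_cancel] at this)
  mul_mem := fun x hx => by
    rw [sub_mul, h.loc.r_left x hx]
    exact Fr.O.sub_mem (h.loc.r_mem x hx) (h.mul_mem x hx)

theorem Good.ne_zero (Fr : Frame W K A) {e f : A} {r : Submodule W A}
    (h : Good Fr e r f) : f ≠ 0 := by
  rintro rfl
  exact h.not_mem Fr.O.zero_mem

end frame

end PD
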