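import Pool.Agent.Lib.MP_369ee2_lc_PD.Alg
import Pool.Agent.Lib.MP_369ee2_lc_PD.OrdV

/-!
# Bridge between `PD.Vertex`, `PD.Equi`, `PD.CornerField` and `PDeg.Vtx`, `PDeg.Eqv`, `PDeg.DivC`
-/

namespace PDeg

open scoped BigOperators

variable {A : Type} [Ring A]

theorem exists_fin_of_mem_span {f x : A}
    (hx : x ∈ Submodule.span ℤ {x : A | ∃ a b, x = a * f * b}) :
    ∃ (n : ℕ) (u v : Fin n → A), x = ∑ i, u i * f * v i := by
  induction hx using Submodule.span_induction with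
  | mem x h =>
    obtain ⟨a, b, rfl⟩ := h
    exact ⟨1, fun _ => a, fun _ => b, by simp⟩
  | zero => exact ⟨0, fun _ => 0, fun _ => 0, by simp⟩
  | add x y _ _ hx hy =>
    obtain ⟨n, u, v, rfl⟩ := hx
    obtain ⟨m, u', v', rfl⟩ := hy
    refine ⟨n + m, Fin.append u u', Fin.append v v', ?_⟩
    rw [Fin.sum_univ_add]
    simp
  | smul c x _ hx =>
    obtain ⟨n, u, v, rfl⟩ := hx
    refine ⟨n, fun i => c • u i, v, ?_⟩
    rw [Finset.smul_sum]
    refine Finset.sum_congr rfl fun i _ => ?_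
    rw [smul_mul_assoc, smul_mul_assoc]

theorem vtx_iff {z f : A} : Vtx z f ↔ PD.Vertex z f := by
  constructor
  · intro h
    refine ⟨h.idem, h.central, h.zf, ?_⟩
    obtain ⟨n, x, y, hz⟩ := h.span
    rw [hz]
    exact Submodule.sum_mem _ fun i _ => Submodule.subset_span ⟨x i, y i, rfl⟩
  · intro h
    exact ⟨h.idem, h.central, h.zf, exists_fin_of_mem_span h.mem⟩

theorem eqv_iff {f g : A} : Eqv f g ↔ PD.Equi f g := by
  constructor
  · rintro ⟨a, b, h1, h2, h3, h4, h5, h6⟩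
    exact ⟨b, a, h3, h4, h1, h2, h5, h6⟩
  · rintro ⟨a, l, h1, h2, h3, h4, h5, h6⟩
    exact ⟨l, a, h3, h4, h1, h2, h5, h6⟩

theorem divC_iff {f : A} : DivC f ↔ f * f = f ∧ PD.CornerField f := Iff.rfl

end PDeg
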