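import Pool.Agent.Lib.MP_369ee2_lc_PD.Coh

/-!
# Sizes of colour classes of a coherent colouring
-/

namespace PDeg

namespace Coh

variable {X : Type} [Fintype X] (C : Coh X)

/-- the size of the fibre of `b` over `u` -/
noncomputable def fb {n : ℕ} (u : Fin n → X) (b : X) : ℕ :=
  Nat.card {a : X // C.r (n + 1) (sn u a) (sn u b)}

/-- the size of the colour class of `z` -/
noncomputable def cz {n : ℕ} (z : Fin n → X) : ℕ := Nat.card {x : Fin n → X // C.r n x z}

theorem sn_castSucc {n : ℕ} (u : Fin n → X) (a : X) (i : Fin n) :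
    sn u a (Fin.castSucc i) = u i := by simp [sn]

theorem sn_last {n : ℕ} (u : Fin n → X) (a : X) : sn u a (Fin.last n) = a := by simp [sn]

theorem sn_init {n : ℕ} (x : Fin (n + 1) → X) : sn (fun i => x (Fin.castSucc i)) (x (Fin.last n)) = x := by
  ext j
  refine Fin.lastCases ?_ (fun j => ?_) j
  · rw [sn_last]
  · rw [sn_castSucc]

theorem r_init {n : ℕ} (hn : n + 1 ≤ 6) {x y : Fin (n + 1) → X} (h : C.r (n + 1) x y) :
    C.r n (fun i => x (Fin.castSucc i)) (fun i => y (Fin.castSucc i)) :=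
  C.reindex hn (by omega) Fin.castSucc x y h

theorem r_of_sn {n : ℕ} (hn : n + 1 ≤ 6) {u v : Fin n → X} {a b : X}
    (h : C.r (n + 1) (sn u a) (sn v b)) : C.r n u v := by
  have := C.r_init hn h
  simp only [sn_castSucc] at this
  exact this

theorem fb_pos {n : ℕ} (hn : n + 1 ≤ 6) (u : Fin n → X) (b : X) : 0 < C.fb u b := by
  have : Nonempty {a : X // C.r (n + 1) (sn u a) (sn u b)} := ⟨⟨b, (C.equiv _ hn).refl _⟩⟩
  exact Nat.card_pos

theorem cz_pos {n : ℕ} (hn : n ≤ 6) (z : Fin n → X) : 0 < C.cz z := by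
  have : Nonempty {x : Fin n → X // C.r n x z} := ⟨⟨z, (C.equiv _ hn).refl _⟩⟩
  exact Nat.card_pos

theorem cz_congr {n : ℕ} (hn : n ≤ 6) {y z : Fin n → X} (h : C.r n y z) : C.cz y = C.cz z :=
  Nat.card_congr (Equiv.subtypeEquivRight fun _ =>
    ⟨fun hx => (C.equiv n hn).trans hx h,
      fun hx => (C.equiv n hn).trans hx ((C.equiv n hn).symm h)⟩)

theorem cz_sn {n : ℕ} (hn : n + 1 ≤ 6) (u : Fin n → X) (b : X) :
    C.cz (sn u b) = C.cz u * C.fb u b := by
  classical
  have e : {x : Fin (n + 1) → X // C.r (n + 1) x (sn u b)} ≃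
      Σ t : {t : Fin n → X // C.r n t u}, {a : X // C.r (n + 1) (sn t.1 a) (sn u b)} :=
    { toFun := fun x => ⟨⟨fun i => x.1 (Fin.castSucc i), by
          have := C.r_init hn x.2
          simp only [sn_castSucc] at this
          exact this⟩, ⟨x.1 (Fin.last n), by rw [sn_init]; exact x.2⟩⟩
      invFun := fun y => ⟨sn y.1.1 y.2.1, y.2.2⟩
      left_inv := fun x => Subtype.ext (sn_init _)
      right_inv := by
        rintro ⟨⟨t, ht⟩, ⟨a, ha⟩⟩
        have h1 : (fun i => sn t a (Fin.castSucc i)) = t := by ext i; rw [sn_castSucc]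
        have h2 : sn t a (Fin.last n) = a := sn_last _ _
        refine Sigma.ext (Subtype.ext h1) ?_
        refine (Subtype.heq_iff_coe_eq ?_).2 h2
        intro x
        show C.r (n + 1) (sn (fun i => sn t a (Fin.castSucc i)) x) _ ↔ _
        rw [h1] }
  have : Fintype {t : Fin n → X // C.r n t u} := Fintype.ofFinite _
  unfold cz
  rw [Nat.card_congr e, Nat.card_sigma]
  have hc : ∀ t : {t : Fin n → X // C.r n t u},
      Nat.card {a : X // C.r (n + 1) (sn t.1 a) (sn u b)} = C.fb u b := by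
    intro t
    exact C.regular hn _ _ _ t.2
  rw [Finset.sum_congr rfl (fun t _ => hc t), Finset.sum_const, Finset.card_univ, smul_eq_mul,
    Nat.card_eq_fintype_card]

theorem cz_one (z : Fin 1 → X) : C.cz z = Fintype.card X := by
  unfold cz
  have e : {x : Fin 1 → X // C.r 1 x z} ≃ X :=
    { toFun := fun x => x.1 0
      invFun := fun a => ⟨fun _ => a, C.hom _ _⟩
      left_inv := fun x => Subtype.ext (by ext i; rw [Subsingleton.elim i 0])
      right_inv := fun a => rfl }
  rw [Nat.card_congr e, Nat.card_eq_fintype_card]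

/-- the class sizes at levels one to four are `p` times an odd number prime to `p` -/
theorem cz_eq (hp : (Fintype.card X).Prime) {n : ℕ} (hn : n ≤ 3) (z : Fin (n + 1) → X) :
    ∃ c : ℕ, Odd c ∧ c.Coprime (Fintype.card X) ∧ C.cz z = Fintype.card X * c := by
  induction n with
  | zero => exact ⟨1, odd_one, Nat.coprime_one_left _, by rw [cz_one, mul_one]⟩
  | succ n ih =>
    obtain ⟨c, hc1, hc2, hc3⟩ := ih (by omega) (fun i => z (Fin.castSucc i))
    refine ⟨c * C.fb (fun i => z (Fin.castSucc i)) (z (Fin.last (n + 1))),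
      hc1.mul (C.odd (by omega) (by omega) _ _), ?_, ?_⟩
    · apply Nat.Coprime.mul_left hc2
      apply Nat.Coprime.symm
      rw [hp.coprime_iff_not_dvd]
      intro hd
      exact absurd (Nat.le_of_dvd (C.fb_pos (by omega) _ _) hd)
        (not_le.2 (C.lt (by omega) (by omega) _ _))
    · have := C.cz_sn (by omega) (fun i => z (Fin.castSucc i)) (z (Fin.last (n + 1)))
      rw [sn_init] at this
      rw [this, hc3, mul_assoc]

end Coh

end PDeg
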