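import Pool.Agent.Lib.MP_369ee2_lc_PD.Coh
import Pool.Agent.Lib.MP_369ee2_lc_PD.HSizes

/-!
# Class sizes (row S1)
-/

namespace PDeg

section
variable {X : Type} [Fintype X] (C : Coh X) {p : ℕ} (hp : p.Prime) (hX : Fintype.card X = p)

include hp hX

/-- every colour class of `n`-tuples, `1 ≤ n ≤ 4`, has size `p * m` with `m` odd, prime to `p` -/
theorem class_size {n : ℕ} (h1 : 1 ≤ n) (h4 : n ≤ 4) (z : Fin n → X) :
    ∃ m : ℕ, Nat.card {x : Fin n → X // C.r n x z} = p * m ∧ Odd m ∧ ¬ p ∣ m := by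
  obtain ⟨j, rfl⟩ : ∃ j, n = j + 1 := ⟨n - 1, by omega⟩
  subst hX
  obtain ⟨c, hc1, hc2, hc3⟩ := C.cz_eq hp (n := j) (by omega) z
  refine ⟨c, hc3, hc1, ?_⟩
  rw [← hp.coprime_iff_not_dvd]
  exact hc2.symm

/-- classes of pairs over a base point -/
theorem class_size_base (x0 z z' : X) :
    ¬ p ∣ Nat.card {w : X × X // C.r 3 ![x0, w.1, w.2] ![x0, z, z']} := by
  subst hX
  classical
  have e2 : ∀ a b c : X, (sn ![a, b] c : Fin 3 → X) = ![a, b, c] := by
    intro a b c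
    ext i
    fin_cases i <;> rfl
  have e3 : ∀ a b : X, (sn ![a] b : Fin 2 → X) = ![a, b] := by
    intro a b
    ext i
    fin_cases i <;> rfl
  have c3 : ∀ a b c a' b' c' : X, C.r 3 (sn ![a, b] c) (sn ![a', b'] c') ↔
      C.r 3 ![a, b, c] ![a', b', c'] := by
    intro a b c a' b' c'
    rw [e2, e2]
  have c2 : ∀ a b a' b' : X, C.r 2 (sn ![a] b) (sn ![a'] b') ↔ C.r 2 ![a, b] ![a', b'] := by
    intro a b a' b'
    rw [e3, e3]
  have c32 : ∀ a b c a' b' c' : X, C.r 3 ![a, b, c] ![a', b', c'] → C.r 2 ![a, b] ![a', b'] := by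
    intro a b c a' b' c' h
    have h := C.reindex (n := 3) (k := 2) (by norm_num) (by norm_num) ![0, 1] _ _ h
    have e1 : ∀ a b c : X, (fun i => (![a, b, c] : Fin 3 → X) ((![0, 1] : Fin 2 → Fin 3) i)) =
        ![a, b] := by
      intro a b c
      ext i
      fin_cases i <;> rfl
    rw [e1, e1] at h
    exact h
  -- the fibre over `x0` has size `fb ![x0] z * fb ![x0, z] z'`
  have e : {w : X × X // C.r 3 ![x0, w.1, w.2] ![x0, z, z']} ≃
      Σ a : {a : X // C.r 2 (sn ![x0] a) (sn ![x0] z)},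
        {b : X // C.r 3 (sn ![x0, a.1] b) (sn ![x0, z] z')} :=
    { toFun := fun w => ⟨⟨w.1.1, (c2 _ _ _ _).2 (c32 _ _ _ _ _ _ w.2)⟩,
        ⟨w.1.2, (c3 _ _ _ _ _ _).2 w.2⟩⟩
      invFun := fun t => ⟨(t.1.1, t.2.1), (c3 _ _ _ _ _ _).1 t.2.2⟩
      left_inv := fun w => rfl
      right_inv := fun t => rfl }
  have : Fintype {a : X // C.r 2 (sn ![x0] a) (sn ![x0] z)} := Fintype.ofFinite _
  rw [Nat.card_congr e, Nat.card_sigma]
  have hc : ∀ a : {a : X // C.r 2 (sn ![x0] a) (sn ![x0] z)},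
      Nat.card {b : X // C.r 3 (sn ![x0, a.1] b) (sn ![x0, z] z')} = C.fb ![x0, z] z' :=
    fun a => C.regular (by norm_num) _ _ _ ((c2 _ _ _ _).1 a.2)
  rw [Finset.sum_congr rfl (fun a _ => hc a), Finset.sum_const, Finset.card_univ, smul_eq_mul,
    ← Nat.card_eq_fintype_card (α := {a : X // C.r 2 (sn ![x0] a) (sn ![x0] z)})]
  intro hd
  have key : ∀ {n : ℕ}, 1 ≤ n → n ≤ 3 → ∀ (u : Fin n → X) (b : X),
      ¬ Fintype.card X ∣ C.fb u b := by
    intro n h1 h3 u b hd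
    exact absurd (Nat.le_of_dvd (C.fb_pos (by omega) _ _) hd) (not_le.2 (C.lt h1 h3 _ _))
  rcases (hp.dvd_mul).1 hd with h | h
  · exact key (n := 1) le_rfl (by norm_num) ![x0] z h
  · exact key (n := 2) (by norm_num) (by norm_num) ![x0, z] z' h

end

end PDeg
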