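import Pool.Agent.Lib.MP_369ee2_lc_PD.Ord8
import Pool.Agent.Lib.MP_369ee2_lc_PD.Ord
import Pool.Agent.Lib.MP_369ee2_lc_PD.Sizes
import Pool.Agent.Lib.MP_369ee2_lc_PD.BrV

/-!
# Section 8: parity of the rank of a rational idempotent of `P_K`
-/

namespace PDeg

open scoped BigOperators Matrix

set_option linter.unusedSectionVars false

namespace Sec8

variable {X : Type} [Fintype X] [DecidableEq X] (C : Coh X) (K : Type) [Field K]

/-- the equality of colours of quadruples -/
def S4 : Setoid (Fin 4 → X) := ⟨C.r 4, C.equiv 4 (by norm_num)⟩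

/-- the colours of quadruples -/
abbrev I4 : Type := Quotient (S4 C)

/-- the colour of `(i, j)` -/
def cl (i j : X × X) : I4 C := Quotient.mk (S4 C) ![i.1, i.2, j.1, j.2]

theorem cl_eq {t : Fin 4 → X} : cl C (t 0, t 1) (t 2, t 3) = Quotient.mk (S4 C) t := by
  have : (![t 0, t 1, t 2, t 3] : Fin 4 → X) = t := by
    ext i; fin_cases i <;> rfl
  unfold cl
  rw [this]

/-- the value of a colour constant matrix on a colour -/
def vl (a : ↥(C.PP K)) : I4 C → K :=
  Quotient.lift (fun t : Fin 4 → X => (a : Matrix (X × X) (X × X) K) (t 0, t 1) (t 2, t 3))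
    (fun _ _ h => a.2 _ _ h)

theorem vl_cl (a : ↥(C.PP K)) (i j : X × X) :
    vl C K a (cl C i j) = (a : Matrix (X × X) (X × X) K) i j := rfl

/-- the matrix with given values on the colours -/
def mk (g : I4 C → K) : ↥(C.PP K) :=
  ⟨Matrix.of fun i j => g (cl C i j), by
    intro x y h
    simp only [Matrix.of_apply]
    rw [cl_eq, cl_eq]
    exact congrArg g (Quotient.sound h)⟩

/-- `P_K` and the functions on the colours -/
def eqv : ↥(C.PP K) ≃ₗ[K] (I4 C → K) where
  toFun := vl C K
  map_add' a b := by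
    ext q
    induction q using Quotient.inductionOn with
    | h t => rfl
  map_smul' c a := by
    ext q
    induction q using Quotient.inductionOn with
    | h t => rfl
  invFun := mk C K
  left_inv a := by
    apply Subtype.ext
    ext i j
    rfl
  right_inv g := by
    ext q
    induction q using Quotient.inductionOn with
    | h t =>
      change g (cl C (t 0, t 1) (t 2, t 3)) = _
      rw [cl_eq]

noncomputable instance : Fintype (I4 C) := by
  classical
  exact Fintype.ofFinite _

/-- the basis of the class matrices -/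
noncomputable def bs : Module.Basis (I4 C) K ↥(C.PP K) := Module.Basis.ofEquivFun (eqv C K)

theorem bs_apply [DecidableEq (I4 C)] (q : I4 C) (i j : X × X) :
    ((bs C K q : ↥(C.PP K)) : Matrix (X × X) (X × X) K) i j = if cl C i j = q then 1 else 0 := by
  have h1 : bs C K q = (eqv C K).symm (Pi.single q 1) := by
    unfold bs
    rw [Module.Basis.coe_ofEquivFun]
  rw [h1]
  change (Pi.single q (1 : K) : I4 C → K) (cl C i j) = _
  rw [Pi.single_apply]

theorem bs_repr (a : ↥(C.PP K)) (i j : X × X) :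
    (bs C K).repr a (cl C i j) = (a : Matrix (X × X) (X × X) K) i j := by
  unfold bs
  rw [← Module.Basis.equivFun_apply, Module.Basis.equivFun_ofEquivFun]
  rfl

/-- transposition of colours -/
def tp : I4 C → I4 C :=
  Quotient.map (fun t : Fin 4 → X => (fun i => t ((![2, 3, 0, 1] : Fin 4 → Fin 4) i)))
    (fun x y h => C.reindex (n := 4) (k := 4) (by norm_num) (by norm_num) ![2, 3, 0, 1] x y h)

theorem tp_cl (i j : X × X) : tp C (cl C i j) = cl C j i := by
  have h : (fun l : Fin 4 => (![i.1, i.2, j.1, j.2] : Fin 4 → X)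
      ((![2, 3, 0, 1] : Fin 4 → Fin 4) l)) = ![j.1, j.2, i.1, i.2] := by
    ext l; fin_cases l <;> rfl
  change Quotient.mk (S4 C) (fun l : Fin 4 =>
    (![i.1, i.2, j.1, j.2] : Fin 4 → X) ((![2, 3, 0, 1] : Fin 4 → Fin 4) l)) = _
  rw [h]
  rfl

theorem exists_cl (q : I4 C) : ∃ i j, q = cl C i j := by
  induction q using Quotient.inductionOn with
  | h t => exact ⟨(t 0, t 1), (t 2, t 3), (cl_eq C).symm⟩

theorem tp_tp (q : I4 C) : tp C (tp C q) = q := by
  obtain ⟨i, j, rfl⟩ := exists_cl C q
  rw [tp_cl, tp_cl]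

/-- the class sizes -/
noncomputable def sz : I4 C → ℕ :=
  Quotient.lift (fun t : Fin 4 → X => C.cz t) (fun _ _ h => C.cz_congr (by norm_num) h)

theorem sz_eq [DecidableEq (I4 C)] (q : I4 C) : (Finset.univ.filter fun ij : (X × X) × (X × X) =>
    cl C ij.1 ij.2 = q).card = sz C q := by
  classical
  induction q using Quotient.inductionOn with
  | h t =>
    change _ = Nat.card {x : Fin 4 → X // C.r 4 x t}
    rw [← Fintype.card_subtype, ← Nat.card_eq_fintype_card]
    refine Nat.card_congr ?_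
    exact
      { toFun := fun ij => ⟨![ij.1.1.1, ij.1.1.2, ij.1.2.1, ij.1.2.2], Quotient.exact ij.2⟩
        invFun := fun x => ⟨((x.1 0, x.1 1), (x.1 2, x.1 3)), by
          have h2 : cl C (x.1 0, x.1 1) (x.1 2, x.1 3) = Quotient.mk (S4 C) x.1 := cl_eq C
          change cl C (x.1 0, x.1 1) (x.1 2, x.1 3) = _
          rw [h2]
          exact Quotient.sound x.2⟩
        left_inv := fun ij => rfl
        right_inv := fun x => by
          apply Subtype.ext
          ext l; fin_cases l <;> rfl }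

/-- the trace on `P_K` -/
noncomputable def Tr : ↥(C.PP K) →ₗ[K] K :=
  (Matrix.traceLinearMap (X × X) K K).comp (C.PP K).val.toLinearMap

theorem Tr_apply (a : ↥(C.PP K)) : Tr C K a = Matrix.trace (a : Matrix (X × X) (X × X) K) := rfl

theorem Tr_comm (a b : ↥(C.PP K)) : Tr C K (a * b) = Tr C K (b * a) := by
  rw [Tr_apply, Tr_apply]
  exact Matrix.trace_mul_comm _ _

theorem Tr_bs [DecidableEq (I4 C)] (q q' : I4 C) :
    Tr C K (bs C K q * bs C K (tp C q')) = if q = q' then (sz C q : K) else 0 := by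
  rw [Tr_apply]
  change Matrix.trace (((bs C K q : ↥(C.PP K)) : Matrix (X × X) (X × X) K) *
    ((bs C K (tp C q') : ↥(C.PP K)) : Matrix (X × X) (X × X) K)) = _
  rw [Matrix.trace]
  simp only [Matrix.diag_apply, Matrix.mul_apply, bs_apply]
  have h1 : ∀ i j : X × X, ((if cl C i j = q then (1 : K) else 0) *
      (if cl C j i = tp C q' then (1 : K) else 0)) = if q = q' then
        (if cl C i j = q then (1 : K) else 0) else 0 := by
    intro i j
    have h2 : cl C j i = tp C q' ↔ cl C i j = q' := by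
      constructor
      · intro h
        rw [← tp_cl, h, tp_tp]
      · intro h
        rw [← h, tp_cl]
    by_cases h3 : cl C i j = q
    · rw [if_pos h3, one_mul]
      by_cases h4 : q = q'
      · rw [if_pos h4, if_pos (h2.2 (h3.trans h4))]
      · rw [if_neg h4, if_neg (fun h => h4 (h3.symm.trans (h2.1 h)))]
    · rw [if_neg h3, zero_mul]
      split_ifs <;> rfl
  simp only [h1]
  by_cases h4 : q = q'
  · simp only [if_pos h4]
    rw [← sz_eq, ← Fintype.sum_prod_type'
      (f := fun i j : X × X => if cl C i j = q then (1 : K) else 0), Finset.sum_ite]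
    simp
  · simp [if_neg h4]

theorem sz_pos (q : I4 C) : 0 < sz C q := by
  induction q using Quotient.inductionOn with
  | h t => exact C.cz_pos (by norm_num) t

/-- the trace form on `P_K` is nondegenerate -/
theorem Tr_nondeg [CharZero K] (x : ↥(C.PP K)) (hx : ∀ y, Tr C K (x * y) = 0) : x = 0 := by
  classical
  apply (bs C K).repr.map_eq_zero_iff.1
  ext q
  have h1 : Tr C K (x * bs C K (tp C q)) = (bs C K).repr x q * sz C q := by
    conv_lhs => rw [← (bs C K).sum_repr x]
    rw [Finset.sum_mul, map_sum, Finset.sum_eq_single q]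
    · rw [smul_mul_assoc, map_smul, Tr_bs, if_pos rfl, smul_eq_mul]
    · intro j _ hj
      rw [smul_mul_assoc, map_smul, Tr_bs, if_neg hj, smul_zero]
    · intro h
      exact absurd (Finset.mem_univ q) h
  rw [hx, eq_comm, mul_eq_zero] at h1
  have h2 : (sz C q : K) ≠ 0 := by
    exact_mod_cast (sz_pos C q).ne'
  simpa [h2] using h1

theorem mem_span_of_int (a : ↥(C.PP K))
    (h : ∀ i j, ∃ m : ℤ, (a : Matrix (X × X) (X × X) K) i j = m) :
    a ∈ Submodule.span ℤ (Set.range (bs C K)) := by
  rw [← (bs C K).sum_repr a]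
  refine Submodule.sum_mem _ fun q _ => ?_
  obtain ⟨i, j, rfl⟩ := exists_cl C q
  obtain ⟨m, hm⟩ := h i j
  rw [bs_repr, hm]
  have : (m : K) • bs C K (cl C i j) = m • bs C K (cl C i j) := by
    rw [← Int.cast_smul_eq_zsmul K]
  rw [this]
  exact Submodule.smul_mem _ _ (Submodule.subset_span ⟨_, rfl⟩)

/-- (8A) the rank of a rational idempotent of `P_K` is odd -/
theorem odd_of_rational [CharZero K] (hp : (Fintype.card X).Prime) (hodd : Odd (Fintype.card X))
    {f z : ↥(C.PP K)} (hf : f * f = f)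
    (hk : ∀ x, f * x = x → x * f = x → ∃ c : K, x = c • f) (hz : Vtx z f) {M : ℕ}
    (hM : Matrix.trace (f : Matrix (X × X) (X × X) K) = M) (hM0 : M ≠ 0) : Odd M := by
  classical
  have hszo : ∀ q : I4 C, Odd (sz C q) := by
    intro q
    induction q using Quotient.inductionOn with
    | h t =>
      obtain ⟨c, hc1, -, hc3⟩ := C.cz_eq hp (n := 3) le_rfl t
      change Odd (C.cz t)
      rw [hc3]
      exact hodd.mul hc1
  have hne : ∀ q : I4 C, sz C q ≠ 0 := by
    intro q h
    have := hszo q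
    rw [h] at this
    exact absurd this (by decide)
  have key : M ∣ ∏ q, sz C q := by
    refine PD.rank_dvd (bs C K) (tp C) (sz C) hne (Tr C K) (Tr_comm C K) (Tr_bs C K) ?_ ?_ hf hk
      ((vtx_iff).1 hz) (M := M) hM hM0 (fun q => Finset.dvd_prod_of_mem _ (Finset.mem_univ q))
    · intro q q'
      refine mem_span_of_int C K _ fun i j => ?_
      refine ⟨∑ l, (if cl C i l = q then 1 else 0) * (if cl C l j = q' then 1 else 0), ?_⟩
      change (((bs C K q : ↥(C.PP K)) : Matrix (X × X) (X × X) K) *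
        ((bs C K q' : ↥(C.PP K)) : Matrix (X × X) (X × X) K)) i j = _
      rw [Matrix.mul_apply]
      simp only [bs_apply]
      push_cast
      refine Finset.sum_congr rfl fun l _ => ?_
      congr 1
    · refine mem_span_of_int C K _ fun i j => ?_
      refine ⟨if i = j then 1 else 0, ?_⟩
      change (1 : Matrix (X × X) (X × X) K) i j = _
      rw [Matrix.one_apply]
      split_ifs <;> simp
  have hN : Odd (∏ q, sz C q) := by
    refine Finset.prod_induction _ Odd (fun a b ha hb => ha.mul hb) odd_one (fun q _ => hszo q)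
  exact hN.of_dvd_nat key

/-! ### rank one -/

/-- the colour of a pair -/
def c2 (i : X × X) : Quot (C.r 2) := Quot.mk _ ![i.1, i.2]

theorem c2_eq {i j : X × X} : c2 C i = c2 C j ↔ C.r 2 ![i.1, i.2] ![j.1, j.2] :=
  (C.equiv 2 (by norm_num)).quot_mk_eq_iff _ _

/-- the diagonal idempotent of a colour of pairs -/
noncomputable def oc (q : Quot (C.r 2)) : ↥(C.PP K) := by
  classical
  exact ⟨Matrix.of fun i j => if i = j ∧ c2 C i = q then 1 else 0, by
    intro x y h
    simp only [Matrix.of_apply]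
    have h1 := C.pattern (by norm_num) _ _ h
    have h2 := C.pattern (by norm_num) _ _ ((C.equiv 4 (by norm_num)).symm h)
    have h3 : ((x 0, x 1) = (x 2, x 3)) ↔ ((y 0, y 1) = (y 2, y 3)) := by
      rw [Prod.mk.injEq, Prod.mk.injEq]
      exact ⟨fun hh => ⟨h1 0 2 hh.1, h1 1 3 hh.2⟩, fun hh => ⟨h2 0 2 hh.1, h2 1 3 hh.2⟩⟩
    have h4 : c2 C (x 0, x 1) = c2 C (y 0, y 1) := by
      rw [c2_eq]
      have := C.reindex (n := 4) (k := 2) (by norm_num) (by norm_num) ![0, 1] _ _ h
      have e1 : (fun i => x ((![0, 1] : Fin 2 → Fin 4) i)) = ![x 0, x 1] := by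
        ext l; fin_cases l <;> rfl
      have e2 : (fun i => y ((![0, 1] : Fin 2 → Fin 4) i)) = ![y 0, y 1] := by
        ext l; fin_cases l <;> rfl
      rw [e1, e2] at this
      exact this
    rw [h4]
    simp only [h3]⟩

theorem oc_mul_apply [DecidableEq (Quot (C.r 2))] (q : Quot (C.r 2)) (a : ↥(C.PP K))
    (i j : X × X) : ((oc C K q * a : ↥(C.PP K)) : Matrix (X × X) (X × X) K) i j =
      if c2 C i = q then (a : Matrix (X × X) (X × X) K) i j else 0 := by
  classical
  change (((oc C K q : ↥(C.PP K)) : Matrix (X × X) (X × X) K) *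
    (a : Matrix (X × X) (X × X) K)) i j = _
  rw [Matrix.mul_apply, Finset.sum_eq_single i]
  · by_cases h : c2 C i = q
    · simp [oc, h]
    · simp [oc, h]
  · intro l _ hl
    simp [oc, hl.symm]
  · intro h
    exact absurd (Finset.mem_univ i) h

theorem mul_oc_apply [DecidableEq (Quot (C.r 2))] (q : Quot (C.r 2)) (a : ↥(C.PP K))
    (i j : X × X) : ((a * oc C K q : ↥(C.PP K)) : Matrix (X × X) (X × X) K) i j =
      if c2 C j = q then (a : Matrix (X × X) (X × X) K) i j else 0 := by
  classical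
  change ((a : Matrix (X × X) (X × X) K) *
    ((oc C K q : ↥(C.PP K)) : Matrix (X × X) (X × X) K)) i j = _
  rw [Matrix.mul_apply, Finset.sum_eq_single j]
  · by_cases h : c2 C j = q
    · simp [oc, h]
    · simp [oc, h]
  · intro l _ hl
    simp [oc, hl]
  · intro h
    exact absurd (Finset.mem_univ j) h

/-- the diagonal of an element of `P_K` is constant on the colours of pairs -/
theorem diag_const (a : ↥(C.PP K)) {i j : X × X} (h : c2 C i = c2 C j) :
    (a : Matrix (X × X) (X × X) K) i i = (a : Matrix (X × X) (X × X) K) j j := by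
  rw [c2_eq] at h
  have h1 := C.reindex (n := 2) (k := 4) (by norm_num) (by norm_num) ![0, 1, 0, 1] _ _ h
  exact a.2 _ _ h1

/-- a rank one factorisation of an idempotent of trace one -/
theorem exists_rank_one [CharZero K] {Y : Type} [Fintype Y] [DecidableEq Y] (f : Matrix Y Y K)
    (hf : f * f = f) (ht : Matrix.trace f = 1) :
    ∃ u w : Y → K, ∀ i j, f i j = u i * w j := by
  set L : (Y → K) →ₗ[K] (Y → K) := Matrix.toLin' f with hL
  have hidem : IsIdempotentElem L := by
    change L * L = L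
    rw [hL, Module.End.mul_eq_comp, ← Matrix.toLin'_mul, hf]
  have hproj : LinearMap.IsProj (LinearMap.range L) L :=
    LinearMap.IsIdempotentElem.isProj_range L hidem
  have h1 := hproj.trace
  have h2 : LinearMap.trace K (Y → K) L = 1 := by
    rw [hL, Matrix.trace_toLin'_eq, ht]
  rw [h2] at h1
  have h3 : Module.finrank K (LinearMap.range L) = 1 := by exact_mod_cast h1.symm
  obtain ⟨u, hu0, hu⟩ := finrank_eq_one_iff'.1 h3
  have h4 : ∀ j : Y, ∃ w : K, ∀ i, f i j = u.1 i * w := by
    intro j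
    obtain ⟨w, hw⟩ := hu ⟨L (Pi.single j 1), ⟨_, rfl⟩⟩
    refine ⟨w, fun i => ?_⟩
    have h5 := congrArg (fun t : LinearMap.range L => (t : Y → K) i) hw
    simp only [Submodule.coe_smul, Pi.smul_apply, smul_eq_mul] at h5
    rw [mul_comm, h5, hL, Matrix.toLin'_apply, Matrix.mulVec_single_one]
    rfl
  choose w hw using h4
  exact ⟨u.1, w, fun i j => hw j i⟩

/-- (8B) -/
theorem finrank_oc_le_one [CharZero K] {f : ↥(C.PP K)} (hf : f * f = f)
    (ht : Matrix.trace (f : Matrix (X × X) (X × X) K) = 1) (q : Quot (C.r 2)) :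
    Module.finrank K (crn K (oc C K q) f) ≤ 1 := by
  classical
  obtain ⟨u, w, huw⟩ := exists_rank_one K (f : Matrix (X × X) (X × X) K)
    (congrArg Subtype.val hf) ht
  by_cases h0 : ∀ T : crn K (oc C K q) f, T = 0
  · refine finrank_le_one (0 : crn K (oc C K q) f) fun T => ⟨0, ?_⟩
    rw [h0 T, smul_zero]
  push Not at h0
  obtain ⟨T₁, hT₁⟩ := h0
  -- the form of the elements of `1_c P f`
  have hform : ∀ T : crn K (oc C K q) f, ∃ a : X × X → K, (∀ i j,
      ((T : ↥(C.PP K)) : Matrix (X × X) (X × X) K) i j = a i * w j) ∧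
      ∀ i, c2 C i ≠ q → ∀ j, ((T : ↥(C.PP K)) : Matrix (X × X) (X × X) K) i j = 0 := by
    intro T
    obtain ⟨h1, h2⟩ := T.2
    refine ⟨fun i => ∑ l, ((T : ↥(C.PP K)) : Matrix (X × X) (X × X) K) i l * u l, ?_, ?_⟩
    · intro i j
      have h3 : ((T : ↥(C.PP K)) : Matrix (X × X) (X × X) K) i j =
          (((T : ↥(C.PP K)) : Matrix (X × X) (X × X) K) *
            (f : Matrix (X × X) (X × X) K)) i j := by
        conv_lhs => rw [← h2]
        rfl
      rw [h3, Matrix.mul_apply, Finset.sum_mul]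
      refine Finset.sum_congr rfl fun l _ => ?_
      rw [huw, mul_assoc]
    · intro i hi j
      have h3 := oc_mul_apply C K q (T : ↥(C.PP K)) i j
      rw [h1, if_neg hi] at h3
      exact h3
  obtain ⟨a₁, ha₁, hz₁⟩ := hform T₁
  have hT₁' : (T₁ : ↥(C.PP K)) ≠ 0 := fun h => hT₁ (Subtype.ext h)
  -- the partner
  obtain ⟨y, hy⟩ : ∃ y, Tr C K ((T₁ : ↥(C.PP K)) * y) ≠ 0 := by
    by_contra hcon
    push Not at hcon
    exact hT₁' (Tr_nondeg C K _ hcon)
  obtain ⟨h1, h2⟩ := T₁.2
  set S : ↥(C.PP K) := f * y * oc C K q with hS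
  have hTS : Tr C K ((T₁ : ↥(C.PP K)) * S) ≠ 0 := by
    have h3 : Tr C K ((T₁ : ↥(C.PP K)) * S) = Tr C K ((T₁ : ↥(C.PP K)) * y) := by
      rw [hS, ← mul_assoc, Tr_comm, ← mul_assoc, ← mul_assoc, h1, h2]
    rw [h3]
    exact hy
  set b : X × X → K := fun j => ∑ l, w l * (S : Matrix (X × X) (X × X) K) l j with hb
  have hTSa : ∀ (T : ↥(C.PP K)) (a : X × X → K), (∀ i j,
      (T : Matrix (X × X) (X × X) K) i j = a i * w j) → ∀ i j,
      ((T * S : ↥(C.PP K)) : Matrix (X × X) (X × X) K) i j = a i * b j := by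
    intro T a ha i j
    change ((T : Matrix (X × X) (X × X) K) * (S : Matrix (X × X) (X × X) K)) i j = _
    rw [Matrix.mul_apply, hb, Finset.mul_sum]
    refine Finset.sum_congr rfl fun l _ => ?_
    rw [ha, mul_assoc]
  have hbz : ∀ j, c2 C j ≠ q → b j = 0 := by
    intro j hj
    rw [hb]
    refine Finset.sum_eq_zero fun l _ => ?_
    rw [hS, mul_oc_apply, if_neg hj, mul_zero]
  -- the trace is a sum over the class of `q`
  obtain ⟨i₀, hi₀, hne⟩ : ∃ i, c2 C i = q ∧ a₁ i * b i ≠ 0 := by
    by_contra hcon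
    push Not at hcon
    apply hTS
    rw [Tr_apply, Matrix.trace]
    refine Finset.sum_eq_zero fun i _ => ?_
    rw [Matrix.diag_apply, hTSa _ _ ha₁]
    by_cases hi : c2 C i = q
    · exact hcon i hi
    · rw [hbz i hi, mul_zero]
  have hconst : ∀ (T : ↥(C.PP K)) (a : X × X → K), (∀ i j,
      (T : Matrix (X × X) (X × X) K) i j = a i * w j) → ∀ i, c2 C i = q →
      a i * b i = a i₀ * b i₀ := by
    intro T a ha i hi
    rw [← hTSa T a ha, ← hTSa T a ha]
    exact diag_const C K _ (hi.trans hi₀.symm)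
  refine finrank_le_one T₁ fun T₂ => ?_
  obtain ⟨a₂, ha₂, hz₂⟩ := hform T₂
  refine ⟨(a₂ i₀ * b i₀) / (a₁ i₀ * b i₀), ?_⟩
  apply Subtype.ext
  apply Subtype.ext
  ext i j
  change ((a₂ i₀ * b i₀) / (a₁ i₀ * b i₀)) * ((T₁ : ↥(C.PP K)) : Matrix (X × X) (X × X) K) i j
    = ((T₂ : ↥(C.PP K)) : Matrix (X × X) (X × X) K) i j
  by_cases hi : c2 C i = q
  · have e1 := hconst _ _ ha₁ i hi
    have e2 := hconst _ _ ha₂ i hi
    have hbi : b i ≠ 0 := by
      intro h
      rw [h, mul_zero] at e1
      exact hne e1.symm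
    rw [ha₁, ha₂, ← e2, ← e1]
    have ha1 : a₁ i ≠ 0 := by
      intro h
      rw [h, zero_mul] at e1
      exact hne e1.symm
    field_simp
  · rw [hz₁ i hi, hz₂ i hi, mul_zero]

theorem oc_idem (q : Quot (C.r 2)) : oc C K q * oc C K q = oc C K q := by
  classical
  apply Subtype.ext
  ext i j
  rw [oc_mul_apply]
  by_cases h : c2 C i = q
  · rw [if_pos h]
  · rw [if_neg h]
    simp [oc, h]

theorem oc_sum [Fintype (Quot (C.r 2))] : ∑ q, oc C K q = 1 := by
  classical
  apply Subtype.ext
  ext i j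
  have h1 : ((∑ q, oc C K q : ↥(C.PP K)) : Matrix (X × X) (X × X) K) i j =
      ∑ q, ((oc C K q : ↥(C.PP K)) : Matrix (X × X) (X × X) K) i j := by
    rw [AddSubmonoidClass.coe_finsetSum, Matrix.sum_apply]
  rw [h1]
  change _ = (1 : Matrix (X × X) (X × X) K) i j
  rw [Matrix.one_apply]
  by_cases h : i = j
  · subst h
    rw [if_pos rfl, Finset.sum_eq_single (c2 C i)]
    · simp [oc]
    · intro q _ hq
      simp [oc, hq.symm]
    · intro hq
      exact absurd (Finset.mem_univ _) hq
  · rw [if_neg h]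
    exact Finset.sum_eq_zero fun q _ => by simp [oc, h]

theorem finrank_crn_eq_zero {A : Type} [Ring A] [Algebra K A] {b f : A}
    (h : ∀ T : A, b * T * f = 0) : Module.finrank K (crn K b f) = 0 := by
  have : Subsingleton (crn K b f) := by
    refine ⟨fun S T => ?_⟩
    have h1 : ∀ T : crn K b f, T = 0 := by
      intro T
      apply Subtype.ext
      obtain ⟨e1, e2⟩ := T.2
      have := h T.1
      rw [e1, e2] at this
      exact this
    rw [h1 S, h1 T]
  exact Module.finrank_zero_of_subsingleton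

theorem finrank_crn_le_sum {A : Type} [Ring A] [Algebra K A] [FiniteDimensional K A]
    {ι : Type} [Fintype ι] (o : ι → A) (ho : ∀ q, o q * o q = o q) (hs : ∑ q, o q = 1) (f : A) :
    Module.finrank K (crn K (1 : A) f) ≤ ∑ q, Module.finrank K (crn K (o q) f) := by
  let Φ : crn K (1 : A) f →ₗ[K] (∀ q : ι, crn K (o q) f) :=
    { toFun := fun T q => ⟨o q * T.1, by
        exact ⟨by rw [← mul_assoc, ho], by rw [mul_assoc, T.2.2]⟩⟩
      map_add' := by
        intro S T
        refine funext fun q => Subtype.ext ?_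
        change o q * (S.1 + T.1) = o q * S.1 + o q * T.1
        rw [mul_add]
      map_smul' := by
        intro c T
        refine funext fun q => Subtype.ext ?_
        change o q * (c • T.1) = c • (o q * T.1)
        rw [mul_smul_comm] }
  have hinj : Function.Injective Φ := by
    intro S T hST
    apply Subtype.ext
    have h1 : ∀ q, o q * S.1 = o q * T.1 := by
      intro q
      exact congrArg Subtype.val (congrFun hST q)
    have h2 : ∀ T : A, T = ∑ q, o q * T := by
      intro T
      rw [← Finset.sum_mul, hs, one_mul]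
    rw [h2 S.1, h2 T.1]
    exact Finset.sum_congr rfl fun q _ => h1 q
  have h3 := LinearMap.finrank_le_finrank_of_injective hinj
  rwa [Module.finrank_pi_fintype] at h3

/-- (8B), total: `dim P_K f ≤ k` if `f` has rank one and is killed by the diagonal -/
theorem finrank_le_of_rank_one [CharZero K] {f : ↥(C.PP K)} (hf : f * f = f)
    (ht : Matrix.trace (f : Matrix (X × X) (X × X) K) = 1) {k : ℕ}
    (hk : Nat.card (Quot (C.r 2)) = k + 1) (x₀ : X)
    (hδ : ∀ T : ↥(C.PP K), oc C K (c2 C (x₀, x₀)) * T * f = 0) :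
    Module.finrank K (crn K (1 : ↥(C.PP K)) f) ≤ k := by
  classical
  have : Finite (Quot (C.r 2)) := Nat.finite_of_card_ne_zero (by omega)
  have : Fintype (Quot (C.r 2)) := Fintype.ofFinite _
  rw [Nat.card_eq_fintype_card] at hk
  have hfin0 : Module.Finite K ↥(C.PP K) := Module.Finite.of_basis (bs C K)
  refine (finrank_crn_le_sum K (fun q => oc C K q) (fun q => oc_idem C K q) (oc_sum C K) f).trans ?_
  have h4 : Module.finrank K (crn K (oc C K (c2 C (x₀, x₀))) f) = 0 := by
    exact finrank_crn_eq_zero K hδ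
  rw [← Finset.add_sum_erase _ _ (Finset.mem_univ (c2 C (x₀, x₀))), h4, zero_add]
  have h5 : ∑ q ∈ Finset.univ.erase (c2 C (x₀, x₀)), Module.finrank K (crn K (oc C K q) f)
      ≤ ∑ q ∈ Finset.univ.erase (c2 C (x₀, x₀)), 1 :=
    Finset.sum_le_sum fun q _ => finrank_oc_le_one C K hf ht q
  refine h5.trans ?_
  rw [Finset.sum_const, smul_eq_mul, mul_one, Finset.card_erase_of_mem (Finset.mem_univ _),
    Finset.card_univ, hk]
  omega

end Sec8

end PDeg
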