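import Mathlib

/-!
# The arithmetic of sections 8 and 9

Pure number theory: the size of the ranks, the equation `c₀ = d` and the last count of colours.
-/

namespace PD

/-- section 8: an odd rank congruent to a sign is `1` or at least `2 p - 1` -/
theorem rank_size {p M : ℕ} {s : ℤ} (hp : 2 < p) (hpo : Odd p) (hM : Odd M)
    (hs : s = 1 ∨ s = -1) (hd : (p : ℤ) ∣ (M : ℤ) - s) :
    (M = 1 ∧ s = 1) ∨ 2 * p - 1 ≤ M := by
  obtain ⟨c, hc⟩ := hd
  obtain ⟨a, rfl⟩ := hpo
  obtain ⟨b, rfl⟩ := hM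
  have hc0 : 0 ≤ c := by
    by_contra hneg
    push Not at hneg
    have h1 : ((2 * a + 1 : ℕ) : ℤ) * c ≤ ((2 * a + 1 : ℕ) : ℤ) * (-1) := by
      apply mul_le_mul_of_nonneg_left (by omega) (by positivity)
    rcases hs with rfl | rfl <;> push_cast at * <;> omega
  rcases hs with rfl | rfl
  · rcases Int.lt_or_le c 2 with h2 | h2
    · interval_cases c
      · left
        push_cast at hc
        exact ⟨by omega, rfl⟩
      · exfalso
        push_cast at hc
        omega
    · right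
      have h1 : ((2 * a + 1 : ℕ) : ℤ) * 2 ≤ ((2 * a + 1 : ℕ) : ℤ) * c :=
        mul_le_mul_of_nonneg_left h2 (by positivity)
      push_cast at *
      omega
  · rcases Int.lt_or_le c 2 with h2 | h2
    · interval_cases c
      · exfalso
        push_cast at hc
        omega
      · exfalso
        push_cast at hc
        omega
    · right
      have h1 : ((2 * a + 1 : ℕ) : ℤ) * 2 ≤ ((2 * a + 1 : ℕ) : ℤ) * c :=
        mul_le_mul_of_nonneg_left h2 (by positivity)
      push_cast at *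
      omega

/-- section 9: the count modulo `p` -/
theorem count_eq {ι : Type*} (Z : Finset ι) (M D : ι → ℕ) (s : ι → ℤ) {p k d c₀ κ : ℕ}
    (hp : 2 < p) (hk : 2 ≤ k) (hkd : k * d + 1 = p)
    (hs : ∀ i ∈ Z, s i = 1 ∨ s i = -1) (hMs : ∀ i ∈ Z, (p : ℤ) ∣ (M i : ℤ) - s i)
    (hD : ∀ i ∈ Z, D i = 0 ∨ 2 * p - 1 ≤ M i) (hκ : p ∣ κ)
    (h : k * d ^ 2 = k * d * c₀ + ∑ i ∈ Z, M i * D i + k * κ) : c₀ = d := by
  have hd0 : 0 < d := by
    rcases Nat.eq_zero_or_pos d with rfl | h0
    · omega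
    · exact h0
  -- `c₀ ≤ d`
  have hle : c₀ ≤ d := by
    have h1 : k * d * c₀ ≤ k * d * d := by
      have : k * d * d = k * d ^ 2 := by ring
      rw [this, h, add_assoc]
      exact Nat.le_add_right _ _
    exact Nat.le_of_mul_le_mul_left h1 (by positivity)
  obtain ⟨u, hu⟩ := Nat.exists_eq_add_of_le hle
  -- `k d u = ∑ M D + k κ`
  have hmain : k * d * u = ∑ i ∈ Z, M i * D i + k * κ := by
    have h2 : k * d ^ 2 = k * d * c₀ + k * d * u := by
      rw [← mul_add, ← hu]; ring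
    rw [h2, add_assoc] at h
    exact Nat.add_left_cancel h
  rcases Nat.eq_zero_or_pos u with h0 | hupos
  · omega
  exfalso
  -- `(2 p - 1) ∑ D ≤ k d u`
  have hsum : (2 * p - 1) * ∑ i ∈ Z, D i ≤ k * d * u := by
    rw [hmain, Finset.mul_sum]
    refine le_trans ?_ (Nat.le_add_right _ _)
    refine Finset.sum_le_sum fun i hi => ?_
    rcases hD i hi with h0 | h1
    · simp [h0]
    · exact Nat.mul_le_mul_right _ h1
  have hkd' : k * d = p - 1 := by omega
  rw [hkd'] at hsum hmain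
  -- `2 ∑ D < u`
  set S := ∑ i ∈ Z, D i with hS
  have hlt : 2 * S < u := by
    by_contra hcon
    push Not at hcon
    have h3 : (2 * p - 1) * u ≤ (2 * p - 1) * (2 * S) := Nat.mul_le_mul_left _ hcon
    have h4 : (2 * p - 1) * (2 * S) ≤ 2 * ((p - 1) * u) := by
      calc (2 * p - 1) * (2 * S) = 2 * ((2 * p - 1) * S) := by ring
        _ ≤ 2 * ((p - 1) * u) := Nat.mul_le_mul_left _ hsum
    have h5 : (2 * p - 1) * u ≤ (2 * p - 2) * u := by
      calc (2 * p - 1) * u ≤ 2 * ((p - 1) * u) := h3.trans h4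
        _ = (2 * p - 2) * u := by rw [← mul_assoc]; congr 1; omega
    have h6 : (2 * p - 1) = (2 * p - 2) + 1 := by omega
    rw [h6, add_mul, one_mul] at h5
    omega
  -- the congruence
  set T : ℤ := ∑ i ∈ Z, s i * D i with hT
  have hcong : (p : ℤ) ∣ (u : ℤ) + T := by
    have h7 : (p : ℤ) ∣ ∑ i ∈ Z, ((M i : ℤ) - s i) * D i :=
      Finset.dvd_sum fun i hi => Dvd.dvd.mul_right (hMs i hi) _
    have h8 : (∑ i ∈ Z, ((M i : ℤ) - s i) * D i) = ∑ i ∈ Z, (M i : ℤ) * D i - T := by
      rw [hT, ← Finset.sum_sub_distrib]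
      exact Finset.sum_congr rfl fun i _ => by ring
    have h9 : ((p - 1 : ℕ) : ℤ) * u = ∑ i ∈ Z, (M i : ℤ) * D i + k * κ := by
      exact_mod_cast hmain
    have h10 : ((p - 1 : ℕ) : ℤ) = (p : ℤ) - 1 := by
      push_cast [Nat.cast_sub (show 1 ≤ p by omega)]; ring
    rw [h10] at h9
    have h11 : (u : ℤ) + T = (p : ℤ) * u - (∑ i ∈ Z, (M i : ℤ) * D i - T) - k * κ := by
      linear_combination -h9
    rw [h11]
    refine dvd_sub (dvd_sub (dvd_mul_right _ _) (h8 ▸ h7)) ?_
    exact Dvd.dvd.mul_left (by exact_mod_cast hκ) _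
  -- `|T| ≤ S`
  have hT1 : T ≤ S := by
    rw [hT, hS]
    push_cast
    refine Finset.sum_le_sum fun i hi => ?_
    rcases hs i hi with h | h <;> rw [h] <;> nlinarith [Int.natCast_nonneg (D i)]
  have hT2 : -(S : ℤ) ≤ T := by
    rw [hT, hS]
    push_cast
    rw [← Finset.sum_neg_distrib]
    refine Finset.sum_le_sum fun i hi => ?_
    rcases hs i hi with h | h <;> rw [h] <;> nlinarith [Int.natCast_nonneg (D i)]
  have hpos : 0 < (u : ℤ) + T := by omega
  have hple := Int.le_of_dvd hpos hcong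
  -- `u ≤ d` and `2 d < p`
  have h2d : 2 * d < p := by
    have : 2 * d ≤ k * d := Nat.mul_le_mul_right _ hk
    omega
  have : (u : ℤ) + T < p := by
    have hu1 : u ≤ d := by omega
    have h12 : (S : ℤ) * 2 < u := by exact_mod_cast (by omega : S * 2 < u)
    -- `u + T ≤ u + S < 3 u / 2 ≤ 3 d / 2 < p`
    omega
  omega

/-- section 9: the last count.  If `k (k d - 1)` colours of injective triples have sizes at least
`p d` and the sizes sum to `p (p - 1) (p - 2)`, every size is `p d`. -/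
theorem sizes_eq {ι : Type*} (T : Finset ι) (size : ι → ℕ) {p k d : ℕ} (hkd : k * d + 1 = p)
    (hT : T.card = k * (k * d - 1)) (hge : ∀ i ∈ T, p * d ≤ size i)
    (hsum : ∑ i ∈ T, size i = p * (p - 1) * (p - 2)) : ∀ i ∈ T, size i = p * d := by
  have h1 : ∑ i ∈ T, p * d = p * (p - 1) * (p - 2) := by
    rw [Finset.sum_const, hT, smul_eq_mul]
    subst hkd
    have h2 : k * d + 1 - 1 = k * d := by omega
    have h3 : k * d + 1 - 2 = k * d - 1 := by omega
    rw [h2, h3]
    ring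
  intro i hi
  have h2 := (Finset.sum_eq_sum_iff_of_le hge).1 (h1.trans hsum.symm)
  exact (h2 i hi).symm

end PD
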