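import Pool.Agent.Lib.MP_369ee2_lc_PD.LemmaT
import Pool.Agent.Lib.MP_369ee2_lc_PD.CountNum

/-!
# The abstract assembly of section 9: `c₀ = d`
-/

namespace PDeg

open scoped BigOperators

section
variable {K : Type} [Field K] [CharZero K] {A : Type} [Ring A] [Algebra K A]
  [FiniteDimensional K A] {τ : A →ₗ[K] K}

/-- the data of an ordinary vertex (neither trivial nor exceptional) for section 9; `b` is the
idempotent `b_ζ`, `ζ ≠ ζ₀` -/
def Ordinary (p : ℕ) (τ : A →ₗ[K] K) (b z : A) : Prop :=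
  ∃ (f : A) (s : ℤ) (M : ℕ), Vtx z f ∧ DivC f ∧ Module.finrank K (crn K f f) = 1 ∧
    (p : K) * τ f = M ∧ (s = 1 ∨ s = -1) ∧ (M : ℤ) ≡ s [ZMOD p] ∧ Odd M ∧
    (M = 1 → Module.finrank K (crn K b f) = 0)

/-- the count of section 9 -/
theorem sec9_count (hcomm : ∀ x y : A, τ (x * y) = τ (y * x))
    (hnd : ∀ x : A, (∀ y : A, τ (x * y) = 0) → x = 0) {p k d c₀ κ : ℕ} (hp : 2 < p) (hpo : Odd p)
    (hk : 2 ≤ k) (hkd : k * d = p - 1) {b f0 f1 z0 z1 eV : A} {Z : Finset A}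
    (hb : b * b = b) (hsum : ∑ z ∈ Z, z = eV) (hz0 : z0 ∈ Z) (hz1 : z1 ∈ Z) (hz : z0 ≠ z1)
    (hV0 : Vtx z0 f0) (hV1 : Vtx z1 f1) (hf0 : DivC f0) (hf1 : DivC f1)
    (hr0 : Module.finrank K (crn K f0 f0) ≠ 0)
    (hb0 : Module.finrank K (crn K b f0) = 0)
    (hr1 : Module.finrank K (crn K f1 f1) = k) (hM1 : (p : K) * τ f1 = (p - 1 : ℕ))
    (hb1 : Module.finrank K (crn K b f1) = k * c₀)
    (hoth : ∀ z ∈ Z, z ≠ z0 → z ≠ z1 → Ordinary p τ b z)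
    (hB : (p : K) * τ b = (k * d ^ 2 : ℕ)) (hD : (p : K) * τ (b * (1 - eV)) = (k * κ : ℕ))
    (hκ : p ∣ κ) : c₀ = d := by
  classical
  have hoth' : ∀ z : A, ∃ (D : ℕ) (s : ℤ) (M : ℕ), z ∈ Z → z ≠ z0 → z ≠ z1 →
      (p : K) * τ (b * z) = (M * D : ℕ) ∧ (s = 1 ∨ s = -1) ∧ (p : ℤ) ∣ (M : ℤ) - s ∧
        (D = 0 ∨ 2 * p - 1 ≤ M) := by
    intro z
    by_cases hzz : z ∈ Z ∧ z ≠ z0 ∧ z ≠ z1
    · obtain ⟨f, s, M, hV, hf, h1, hM, hs, hmod, hodd, hone⟩ := hoth z hzz.1 hzz.2.1 hzz.2.2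
      refine ⟨Module.finrank K (crn K b f), s, M, fun _ _ _ => ⟨?_, hs, ?_, ?_⟩⟩
      · have hT := lemmaT hcomm hnd hV hf hb
        rw [h1, Nat.cast_one, one_mul] at hT
        rw [hT, ← mul_assoc, hM, Nat.cast_mul]
      · exact hmod.symm.dvd
      · rcases PD.rank_size hp hpo hodd hs hmod.symm.dvd with h | h
        · exact Or.inl (hone h.1)
        · exact Or.inr h
    · exact ⟨0, 1, 0, fun h1 h2 h3 => absurd ⟨h1, h2, h3⟩ hzz⟩
  choose D s M hDM using hoth'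
  set Z' : Finset A := (Z.erase z0).erase z1 with hZ'
  have hmem : ∀ z ∈ Z', z ∈ Z ∧ z ≠ z0 ∧ z ≠ z1 := by
    intro z hz'
    rw [hZ', Finset.mem_erase, Finset.mem_erase] at hz'
    exact ⟨hz'.2.2, hz'.2.1, hz'.1⟩
  have hz1' : z1 ∈ Z.erase z0 := Finset.mem_erase.2 ⟨hz.symm, hz1⟩
  -- the trivial vertex
  have ht0 : τ (b * z0) = 0 := by
    have hT := lemmaT hcomm hnd hV0 hf0 hb
    rw [hb0, Nat.cast_zero, mul_zero] at hT
    exact (mul_eq_zero.1 hT).resolve_left (Nat.cast_ne_zero.2 hr0)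
  -- the exceptional vertex
  have hk0 : (k : K) ≠ 0 := Nat.cast_ne_zero.2 (by omega)
  have ht1 : (p : K) * τ (b * z1) = (k * d * c₀ : ℕ) := by
    have hT := lemmaT hcomm hnd hV1 hf1 hb
    rw [hr1, hb1] at hT
    apply mul_left_cancel₀ hk0
    calc (k : K) * ((p : K) * τ (b * z1)) = (p : K) * ((k : K) * τ (b * z1)) := by ring
      _ = ((p : K) * τ f1) * ((k * c₀ : ℕ) : K) := by rw [hT]; ring
      _ = (k : K) * ((k * d * c₀ : ℕ) : K) := by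
        rw [hM1, ← hkd]; push_cast; ring
  -- the sum over the vertices
  have hsplit : τ b = ∑ z ∈ Z, τ (b * z) + τ (b * (1 - eV)) := by
    rw [← map_sum, ← map_add, ← Finset.mul_sum, hsum, ← mul_add, add_sub_cancel, mul_one]
  have hZ : ∑ z ∈ Z, τ (b * z) = τ (b * z0) + (τ (b * z1) + ∑ z ∈ Z', τ (b * z)) := by
    rw [hZ', Finset.add_sum_erase _ (fun z => τ (b * z)) hz1',
      Finset.add_sum_erase _ (fun z => τ (b * z)) hz0]
  have hmain : (k * d ^ 2 : ℕ) = k * d * c₀ + ∑ z ∈ Z', M z * D z + k * κ := by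
    have h2 : ((k * d ^ 2 : ℕ) : K) = ((k * d * c₀ + ∑ z ∈ Z', M z * D z + k * κ : ℕ) : K) := by
      rw [← hB, hsplit, hZ, ht0, zero_add, mul_add, mul_add, ht1, hD, Finset.mul_sum,
        Finset.sum_congr rfl fun z hz' => (hDM z (hmem z hz').1 (hmem z hz').2.1
          (hmem z hz').2.2).1]
      push_cast
      ring
    exact_mod_cast h2
  refine PD.count_eq Z' M D s hp hk (by omega) ?_ ?_ ?_ hκ hmain
  · exact fun z hz' => (hDM z (hmem z hz').1 (hmem z hz').2.1 (hmem z hz').2.2).2.1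
  · exact fun z hz' => (hDM z (hmem z hz').1 (hmem z hz').2.1 (hmem z hz').2.2).2.2.1
  · exact fun z hz' => (hDM z (hmem z hz').1 (hmem z hz').2.1 (hmem z hz').2.2).2.2.2

end

end PDeg
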