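import Pool.Agent.Lib.MP_369ee2_lc_PD.Ord

/-!
# (3a): all valencies are equal
-/

set_option linter.unusedSectionVars false

namespace PDeg

open scoped BigOperators Matrix
open Module

namespace Sec3A

theorem trace_lsmul {K B V : Type} [Field K] [Field B] [Algebra K B] [AddCommGroup V] [Module K V]
    [Module B V] [IsScalarTower K B V] [FiniteDimensional K B] [FiniteDimensional B V] (b : B) :
    LinearMap.trace K V (Algebra.lsmul K K V b) = (finrank B V : K) * Algebra.trace K B b := by
  classical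
  let bK := Module.finBasis K B
  let bV := Module.finBasis B V
  rw [LinearMap.trace_eq_matrix_trace K (bK.smulTower bV), Matrix.trace,
    Algebra.trace_eq_matrix_trace bK, Matrix.trace, Fintype.sum_prod_type, Finset.sum_comm]
  have h1 : ∀ j : Fin (finrank B V), ∑ i : Fin (finrank K B),
      ((LinearMap.toMatrix (bK.smulTower bV) (bK.smulTower bV)) (Algebra.lsmul K K V b)).diag (i, j)
      = ∑ i, (Algebra.leftMulMatrix bK b).diag i := by
    intro j
    apply Finset.sum_congr rfl
    intro i _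
    rw [Matrix.diag_apply, Matrix.diag_apply, LinearMap.toMatrix_apply,
      Algebra.leftMulMatrix_eq_repr_mul, Module.Basis.smulTower_repr, Module.Basis.smulTower_apply]
    change (bK.repr ((bV.repr (b • (bK i • bV j))) j)) i = _
    rw [smul_smul]
    simp
  rw [Finset.sum_congr rfl fun j _ => h1 j, Finset.sum_const, Finset.card_univ, Fintype.card_fin,
    nsmul_eq_mul]

theorem field_trace {K V : Type} [Field K] [AddCommGroup V] [Module K V] [FiniteDimensional K V]
    [Nontrivial V] (B : Subalgebra K (Module.End K V)) (hcomm : ∀ a ∈ B, ∀ b ∈ B, a * b = b * a)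
    (hinv : ∀ a ∈ B, a ≠ 0 → ∃ b ∈ B, a * b = 1) :
    ∃ m : ℕ, finrank K B * m = finrank K V ∧ ∀ b ∈ B, IsIntegral ℤ b →
      ∃ t : K, IsIntegral ℤ t ∧ LinearMap.trace K V b = m * t := by
  have hF : IsField B := by
    refine ⟨⟨0, 1, ?_⟩, ?_, ?_⟩
    · intro h
      exact zero_ne_one (congrArg Subtype.val h)
    · intro a b
      exact Subtype.ext (hcomm a a.2 b b.2)
    · intro a ha
      obtain ⟨b, hb, e⟩ := hinv a a.2 (fun h => ha (Subtype.ext h))
      exact ⟨⟨b, hb⟩, Subtype.ext e⟩
  let _ : Field B := hF.toField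
  have : FiniteDimensional K B := inferInstance
  have : FiniteDimensional B V := FiniteDimensional.right K B V
  refine ⟨finrank B V, Module.finrank_mul_finrank K B V, ?_⟩
  intro b hb hint
  have hint' : IsIntegral ℤ (⟨b, hb⟩ : B) := by
    obtain ⟨P, hP, e⟩ := hint
    refine ⟨P, hP, ?_⟩
    apply Subtype.ext
    have h1 : ((Polynomial.eval₂ (algebraMap ℤ B) (⟨b, hb⟩ : B) P : B) : Module.End K V) =
        Polynomial.eval₂ (algebraMap ℤ (Module.End K V)) b P := by
      have := Polynomial.hom_eval₂ P (algebraMap ℤ B) (B.val : B →+* Module.End K V) ⟨b, hb⟩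
      rw [show (B.val : B →+* Module.End K V).comp (algebraMap ℤ B) =
        algebraMap ℤ (Module.End K V) from RingHom.ext_int _ _] at this
      exact this
    rw [h1, e]
    rfl
  refine ⟨Algebra.trace K B ⟨b, hb⟩, Algebra.isIntegral_trace hint', ?_⟩
  rw [← trace_lsmul]
  congr 1

section
variable {X : Type} [Fintype X] [DecidableEq X] (C : Coh X) (K : Type) [Field K]

/-- the vectors of sum zero -/
def V0 (X K : Type) [Fintype X] [Field K] : Submodule K (X → K) where
  carrier := {v | ∑ i, v i = 0}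
  add_mem' := by
    intro a b ha hb
    have : ∑ i, (a + b) i = ∑ i, a i + ∑ i, b i := by
      simp only [Pi.add_apply, Finset.sum_add_distrib]
    change ∑ i, (a + b) i = 0
    rw [this, show ∑ i, a i = 0 from ha, show ∑ i, b i = 0 from hb, add_zero]
  zero_mem' := by simp
  smul_mem' := by
    intro c v hv
    change ∑ i, (c • v) i = 0
    simp only [Pi.smul_apply, smul_eq_mul]
    rw [← Finset.mul_sum, show ∑ i, v i = 0 from hv, mul_zero]

theorem mem_V0 {v : X → K} : v ∈ V0 X K ↔ ∑ i, v i = 0 := Iff.rfl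

variable (hcomm : ∀ a ∈ C.Lam K, ∀ b ∈ C.Lam K, a * b = b * a)
include hcomm

theorem row_eq_col {a : Matrix X X K} (ha : a ∈ C.Lam K) (i j : X) :
    ∑ l, a i l = ∑ l, a l j := by
  have h := congrFun (congrFun (hcomm a ha (JJ X K) (JJ_mem C K)) i) j
  simpa [Matrix.mul_apply, JJ] using h

theorem col_eq {a : Matrix X X K} (ha : a ∈ C.Lam K) (i j : X) :
    ∑ l, a l i = ∑ l, a l j := by
  rw [← row_eq_col C K hcomm ha i i, row_eq_col C K hcomm ha i j]

theorem mapsTo_V0 {a : Matrix X X K} (ha : a ∈ C.Lam K) {v : X → K} (hv : v ∈ V0 X K) :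
    a *ᵥ v ∈ V0 X K := by
  rw [mem_V0] at hv ⊢
  simp only [Matrix.mulVec, dotProduct]
  rw [Finset.sum_comm]
  rcases isEmpty_or_nonempty X with hX | ⟨⟨x⟩⟩
  · simp
  · have h1 : ∀ j, ∑ i, a i j * v j = (∑ i, a i x) * v j := by
      intro j
      rw [← Finset.sum_mul, col_eq C K hcomm ha j x]
    rw [Finset.sum_congr rfl fun j _ => h1 j, ← Finset.mul_sum, hv, mul_zero]

/-- the action of `Λ_K` on the vectors of sum zero -/
noncomputable def rho : ↥(C.Lam K) →ₐ[K] Module.End K (V0 X K) where
  toFun a := ((a : Matrix X X K).mulVecLin).restrict fun _ hv => mapsTo_V0 C K hcomm a.2 hv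
  map_one' := by
    ext v i
    simp
  map_mul' a b := by
    apply LinearMap.ext
    intro v
    apply Subtype.ext
    change ((a : Matrix X X K) * (b : Matrix X X K)) *ᵥ (v : X → K) =
      (a : Matrix X X K) *ᵥ ((b : Matrix X X K) *ᵥ (v : X → K))
    rw [Matrix.mulVec_mulVec]
  map_zero' := by
    apply LinearMap.ext
    intro v
    apply Subtype.ext
    change (0 : Matrix X X K) *ᵥ (v : X → K) = 0
    rw [Matrix.zero_mulVec]
  map_add' a b := by
    apply LinearMap.ext
    intro v
    apply Subtype.ext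
    change ((a : Matrix X X K) + (b : Matrix X X K)) *ᵥ (v : X → K) =
      (a : Matrix X X K) *ᵥ (v : X → K) + (b : Matrix X X K) *ᵥ (v : X → K)
    rw [Matrix.add_mulVec]
  commutes' c := by
    apply LinearMap.ext
    intro v
    apply Subtype.ext
    change (algebraMap K (Matrix X X K) c) *ᵥ (v : X → K) = c • (v : X → K)
    rw [Algebra.algebraMap_eq_smul_one, Matrix.smul_mulVec, Matrix.one_mulVec]

theorem rho_apply (a : ↥(C.Lam K)) (v : V0 X K) :
    ((rho C K hcomm a v : V0 X K) : X → K) = (a : Matrix X X K) *ᵥ (v : X → K) := rfl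

omit hcomm in
theorem finrank_V0 [Nonempty X] : finrank K (V0 X K) + 1 = Fintype.card X := by
  let L : (X → K) →ₗ[K] K :=
    { toFun := fun v => ∑ i, v i
      map_add' := by intro a b; simp [Finset.sum_add_distrib]
      map_smul' := by intro c a; simp [Finset.mul_sum] }
  have hk : LinearMap.ker L = V0 X K := by
    ext v
    rfl
  have hr : LinearMap.range L = ⊤ := by
    rw [LinearMap.range_eq_top]
    intro c
    obtain ⟨x⟩ := ‹Nonempty X›
    refine ⟨Pi.single x c, ?_⟩
    change ∑ i, (Pi.single x c : X → K) i = c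
    simp
  have h := LinearMap.finrank_range_add_finrank_ker L
  rw [hk, hr, finrank_top, Module.finrank_self, Module.finrank_fintype_fun_eq_card] at h
  omega

variable [CharZero K] [Nonempty X]

/-- the kernel of the action consists of the multiples of `J` -/
theorem rho_eq_zero {a : ↥(C.Lam K)} (h : rho C K hcomm a = 0) :
    ∃ c : K, (a : Matrix X X K) = c • JJ X K := by
  have hcol : ∀ i j l : X, (a : Matrix X X K) l i = (a : Matrix X X K) l j := by
    intro i j l
    have hv : (Pi.single i 1 - Pi.single j 1 : X → K) ∈ V0 X K := by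
      rw [mem_V0]
      simp
    have h1 := congrArg (fun T : Module.End K (V0 X K) => ((T ⟨_, hv⟩ : V0 X K) : X → K) l) h
    change ((a : Matrix X X K) *ᵥ (Pi.single i 1 - Pi.single j 1 : X → K)) l = 0 at h1
    rw [Matrix.mulVec_sub, Pi.sub_apply, Matrix.mulVec_single_one, Matrix.mulVec_single_one] at h1
    exact sub_eq_zero.1 h1
  obtain ⟨x⟩ := ‹Nonempty X›
  refine ⟨(a : Matrix X X K) x x, ?_⟩
  have hcard : (Fintype.card X : K) ≠ 0 := by
    have : Fintype.card X ≠ 0 := Fintype.card_ne_zero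
    exact_mod_cast this
  have hrow : ∀ l : X, (Fintype.card X : K) * (a : Matrix X X K) l x =
      (Fintype.card X : K) * (a : Matrix X X K) x x := by
    intro l
    have e1 : ∀ l, ∑ j, (a : Matrix X X K) l j = (Fintype.card X : K) * (a : Matrix X X K) l x := by
      intro l
      rw [Finset.sum_congr rfl fun j _ => hcol j x l, Finset.sum_const, Finset.card_univ,
        nsmul_eq_mul]
    rw [← e1 l, ← e1 x, row_eq_col C K hcomm a.2 l x, row_eq_col C K hcomm a.2 x x]
  ext l j
  rw [Matrix.smul_apply]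
  simp only [JJ, Matrix.of_apply, smul_eq_mul, mul_one]
  rw [hcol j x l]
  exact mul_left_cancel₀ hcard (hrow l)

variable {f : ↥(C.Lam K)}
  (hf : (f : Matrix X X K) = 1 - (Fintype.card X : K)⁻¹ • JJ X K) (hdiv : DivC f)

include hf

omit [Nonempty X] [CharZero K] in
theorem rho_f : rho C K hcomm f = 1 := by
  apply LinearMap.ext
  intro v
  apply Subtype.ext
  rw [rho_apply, hf, Matrix.sub_mulVec, Matrix.one_mulVec, Matrix.smul_mulVec]
  have : JJ X K *ᵥ (v : X → K) = 0 := by
    ext i
    have h0 : ∑ i, (v : X → K) i = 0 := v.2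
    simpa [Matrix.mulVec, dotProduct, JJ] using h0
  rw [this, smul_zero, sub_zero]
  rfl

theorem f_mul_J : (f : Matrix X X K) * JJ X K = 0 := by
  have hcard : (Fintype.card X : K) ≠ 0 := by
    have : Fintype.card X ≠ 0 := Fintype.card_ne_zero
    exact_mod_cast this
  rw [hf, sub_mul, one_mul, Matrix.smul_mul]
  have : JJ X K * JJ X K = (Fintype.card X : K) • JJ X K := by
    ext i j
    simp [Matrix.mul_apply, JJ]
  rw [this, smul_smul, inv_mul_cancel₀ hcard, one_smul, sub_self]

include hdiv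

omit [Nonempty X] [CharZero K] in
theorem range_inv : ∀ a ∈ (rho C K hcomm).range, a ≠ 0 →
    ∃ b ∈ (rho C K hcomm).range, a * b = 1 := by
  rintro _ ⟨a, rfl⟩ ha
  change rho C K hcomm a ≠ 0 at ha
  have h1 : rho C K hcomm (f * a * f) = rho C K hcomm a := by
    rw [map_mul, map_mul, rho_f C K hcomm hf, one_mul, mul_one]
  have h2 : f * a * f ≠ 0 := by
    intro h0
    rw [h0, map_zero] at h1
    exact ha h1.symm
  obtain ⟨hff, hf0, hinv⟩ := hdiv
  obtain ⟨y, -, -, e, -⟩ := hinv (f * a * f) (by rw [← mul_assoc, ← mul_assoc, hff])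
    (by rw [mul_assoc, hff]) h2
  refine ⟨rho C K hcomm y, ⟨y, rfl⟩, ?_⟩
  have h3 := congrArg (rho C K hcomm) e
  rw [map_mul, h1, rho_f C K hcomm hf] at h3
  exact h3

theorem finrank_range : finrank K (rho C K hcomm).range = finrank K (crn K f f) := by
  obtain ⟨hff, hf0, hinv⟩ := hdiv
  let φ : crn K f f →ₗ[K] (rho C K hcomm).range :=
    { toFun := fun a => ⟨rho C K hcomm a.1, ⟨a.1, rfl⟩⟩
      map_add' := by
        intro a b
        apply Subtype.ext
        exact map_add (rho C K hcomm) a.1 b.1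
      map_smul' := by
        intro c a
        apply Subtype.ext
        exact map_smul (rho C K hcomm) c a.1 }
  have hinj : Function.Injective φ := by
    intro a b h
    have h1 : rho C K hcomm (a.1 - b.1) = 0 := by
      rw [map_sub, sub_eq_zero]
      exact congrArg Subtype.val h
    obtain ⟨c, hc⟩ := rho_eq_zero C K hcomm h1
    have h2 : ((f * (a.1 - b.1) : ↥(C.Lam K)) : Matrix X X K) = 0 := by
      change (f : Matrix X X K) * ((a.1 - b.1 : ↥(C.Lam K)) : Matrix X X K) = 0
      rw [hc, Matrix.mul_smul, f_mul_J C K hcomm hf, smul_zero]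
    have h3 : f * (a.1 - b.1) = 0 := Subtype.ext h2
    rw [mul_sub, a.2.1, b.2.1, sub_eq_zero] at h3
    exact Subtype.ext h3
  have hsurj : Function.Surjective φ := by
    rintro ⟨_, ⟨a, rfl⟩⟩
    refine ⟨⟨f * a * f, by rw [← mul_assoc, ← mul_assoc, hff], by rw [mul_assoc, hff]⟩, ?_⟩
    apply Subtype.ext
    change rho C K hcomm (f * a * f) = rho C K hcomm a
    rw [map_mul, map_mul, rho_f C K hcomm hf, one_mul, mul_one]
  exact (LinearEquiv.ofBijective φ ⟨hinj, hsurj⟩).finrank_eq.symm

end

section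
variable {X : Type} [Fintype X] [DecidableEq X] (C : Coh X) (K : Type) [Field K]

theorem vec2 (t : Fin 2 → X) : ![t 0, t 1] = t := by
  ext i
  fin_cases i <;> rfl

/-- `Λ_K` has the colours of pairs as a basis -/
noncomputable def lamEquiv : ↥(C.Lam K) ≃ₗ[K] (Quot (C.r 2) → K) where
  toFun a := fun q => Quot.lift (fun t => (a : Matrix X X K) (t 0) (t 1)) (fun x y h => a.2 x y h) q
  map_add' a b := by
    funext q
    induction q using Quot.ind
    rfl
  map_smul' c a := by
    funext q
    induction q using Quot.ind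
    rfl
  invFun g := ⟨Matrix.of fun i j => g (Quot.mk _ ![i, j]), by
    intro x y h
    change g (Quot.mk _ ![x 0, x 1]) = g (Quot.mk _ ![y 0, y 1])
    rw [vec2, vec2, Quot.sound h]⟩
  left_inv a := by
    apply Subtype.ext
    ext i j
    rfl
  right_inv g := by
    funext q
    induction q using Quot.ind with
    | mk t =>
      change g (Quot.mk _ ![t 0, t 1]) = g (Quot.mk _ t)
      rw [vec2]

theorem finrank_lam : finrank K (C.Lam K) = Nat.card (Quot (C.r 2)) := by
  classical
  have : Finite (Quot (C.r 2)) := inferInstance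
  have := Fintype.ofFinite (Quot (C.r 2))
  rw [(lamEquiv C K).finrank_eq, Module.finrank_fintype_fun_eq_card, Nat.card_eq_fintype_card]

theorem mk_eq {x y : Fin 2 → X} : Quot.mk (C.r 2) x = Quot.mk (C.r 2) y ↔ C.r 2 x y := by
  constructor
  · intro h
    exact (C.equiv 2 (by norm_num)).eqvGen_iff.1 (Quot.eqvGen_exact h)
  · exact Quot.sound

open Classical in
/-- the class matrix of a colour -/
noncomputable def clm (R : Type) [CommRing R] (q : Quot (C.r 2)) : Matrix X X R :=
  Matrix.of fun i j => if Quot.mk (C.r 2) ![i, j] = q then 1 else 0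

theorem clm_mem (R : Type) [CommRing R] (q : Quot (C.r 2)) : clm C R q ∈ C.Lam R := by
  intro x y h
  simp only [clm, Matrix.of_apply]
  rw [vec2, vec2, Quot.sound h]

theorem clm_int (q : Quot (C.r 2)) : IsIntegral ℤ (clm C K q) := by
  have h1 : IsIntegral ℤ (clm C ℤ q) := IsIntegral.of_finite ℤ _
  have h2 := h1.map ((Algebra.ofId ℤ K).mapMatrix : Matrix X X ℤ →ₐ[ℤ] Matrix X X K)
  have h3 : ((Algebra.ofId ℤ K).mapMatrix : Matrix X X ℤ →ₐ[ℤ] Matrix X X K) (clm C ℤ q) =
      clm C K q := by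
    ext i j
    simp only [AlgHom.mapMatrix_apply, Matrix.map_apply, clm, Matrix.of_apply]
    split_ifs <;> simp
  rwa [h3] at h2

/-- the valency of a colour over `x` -/
noncomputable def val (x : X) (q : Quot (C.r 2)) : ℕ :=
  Nat.card {w : X // Quot.mk (C.r 2) ![x, w] = q}

theorem row_clm (q : Quot (C.r 2)) (i : X) : ∑ j, clm C K q i j = (val C i q : K) := by
  classical
  simp only [clm, Matrix.of_apply]
  rw [Finset.sum_boole, val, Nat.card_eq_fintype_card, Fintype.card_subtype]

theorem clm_diag {q : Quot (C.r 2)} {x z : X} (hxz : x ≠ z) (hq : q = Quot.mk _ ![x, z])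
    (i : X) : clm C K q i i = 0 := by
  simp only [clm, Matrix.of_apply]
  rw [if_neg]
  intro h
  rw [hq, mk_eq] at h
  exact hxz (C.pattern (by norm_num) _ _ h 0 1 rfl)

theorem trace_clm [CharZero K] [Nonempty X] (hcomm : ∀ a ∈ C.Lam K, ∀ b ∈ C.Lam K, a * b = b * a)
    {q : Quot (C.r 2)} {x z : X} (hxz : x ≠ z) (hq : q = Quot.mk _ ![x, z]) (x0 : X) :
    LinearMap.trace K (V0 X K) (rho C K hcomm ⟨clm C K q, clm_mem C K q⟩) = -(val C x0 q : K) := by
  have hcard : (Fintype.card X : K) ≠ 0 := by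
    have : Fintype.card X ≠ 0 := Fintype.card_ne_zero
    exact_mod_cast this
  set D : K := (Fintype.card X : K)⁻¹ * (val C x0 q : K) with hD
  set G : Matrix X X K := clm C K q - D • JJ X K with hG
  have hcol : ∀ j, ∑ i, clm C K q i j = (val C x0 q : K) := by
    intro j
    rw [← row_eq_col C K hcomm (clm_mem C K q) x0 j, row_clm]
  have hGmem : ∀ v : X → K, G *ᵥ v ∈ V0 X K := by
    intro v
    rw [mem_V0]
    simp only [Matrix.mulVec, dotProduct]
    rw [Finset.sum_comm]
    apply Finset.sum_eq_zero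
    intro j _
    rw [← Finset.sum_mul]
    have : ∑ i, G i j = 0 := by
      simp only [hG, Matrix.sub_apply, Matrix.smul_apply, JJ, Matrix.of_apply, smul_eq_mul,
        mul_one, Finset.sum_sub_distrib, Finset.sum_const, Finset.card_univ, nsmul_eq_mul]
      rw [hcol j, hD, ← mul_assoc, mul_inv_cancel₀ hcard, one_mul, sub_self]
    rw [this, zero_mul]
  let g : (X → K) →ₗ[K] V0 X K := G.mulVecLin.codRestrict (V0 X K) hGmem
  let ι : V0 X K →ₗ[K] (X → K) := (V0 X K).subtype
  have h1 : g ∘ₗ ι = rho C K hcomm ⟨clm C K q, clm_mem C K q⟩ := by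
    apply LinearMap.ext
    intro v
    apply Subtype.ext
    change G *ᵥ (v : X → K) = clm C K q *ᵥ (v : X → K)
    have h0 : JJ X K *ᵥ (v : X → K) = 0 := by
      ext i
      have h0 : ∑ i, (v : X → K) i = 0 := v.2
      simpa [Matrix.mulVec, dotProduct, JJ] using h0
    rw [hG, Matrix.sub_mulVec, Matrix.smul_mulVec, h0, smul_zero, sub_zero]
  have h2 : ι ∘ₗ g = G.mulVecLin := by
    apply LinearMap.ext
    intro v
    rfl
  rw [← h1, LinearMap.trace_comp_comm', h2, ← Matrix.toLin'_apply', Matrix.trace_toLin'_eq]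
  rw [Matrix.trace]
  have h3 : ∀ i, G.diag i = -D := by
    intro i
    rw [Matrix.diag_apply, hG, Matrix.sub_apply, clm_diag C K hxz hq, Matrix.smul_apply]
    simp [JJ]
  rw [Finset.sum_congr rfl fun i _ => h3 i, Finset.sum_const, Finset.card_univ, nsmul_eq_mul, hD,
    mul_neg, ← mul_assoc, mul_inv_cancel₀ hcard, one_mul]

theorem dvd_of_int [CharZero K] {m d : ℕ} (hm : m ≠ 0) {t : K} (ht : IsIntegral ℤ t)
    (h : -(d : K) = m * t) : m ∣ d := by
  have hm' : (m : K) ≠ 0 := by exact_mod_cast hm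
  have h1 : t = algebraMap ℚ K (-(d : ℚ) / m) := by
    rw [map_div₀, map_neg, map_natCast, map_natCast, eq_div_iff hm', h, mul_comm]
  rw [h1] at ht
  have h2 : IsIntegral ℤ (-(d : ℚ) / m) :=
    (isIntegral_algHom_iff ((Algebra.ofId ℚ K).restrictScalars ℤ)
      (algebraMap ℚ K).injective).1 ht
  obtain ⟨n, hn⟩ := IsIntegrallyClosed.isIntegral_iff.1 h2
  have hm2 : (m : ℚ) ≠ 0 := by exact_mod_cast hm
  rw [eq_div_iff hm2] at hn
  have h3 : (m : ℤ) ∣ d := by
    refine ⟨-n, ?_⟩
    have h4 : (n * m : ℤ) = -(d : ℤ) := by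
      have h5 : ((n * m : ℤ) : ℚ) = ((-(d : ℤ) : ℤ) : ℚ) := by
        push_cast
        exact hn
      exact_mod_cast h5
    rw [mul_neg, mul_comm, h4, neg_neg]
  exact_mod_cast h3

theorem sn_one (u a : X) : sn ![u] a = ![u, a] := by
  ext i
  fin_cases i <;> simp [sn, Fin.snoc]

theorem mk_diag (x y : X) : Quot.mk (C.r 2) ![x, x] = Quot.mk (C.r 2) ![y, y] := by
  rw [mk_eq]
  have h := C.reindex (n := 1) (k := 2) (by norm_num) (by norm_num) (fun _ => 0) ![x] ![y]
    (C.hom _ _)
  have e : ∀ x : X, (fun _ : Fin 2 => ![x] 0) = ![x, x] := by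
    intro x
    ext i
    fin_cases i <;> rfl
  rw [e, e] at h
  exact h

theorem mk_surj (x : X) (q : Quot (C.r 2)) : ∃ w, Quot.mk (C.r 2) ![x, w] = q := by
  induction q using Quot.ind with
  | mk t =>
    obtain ⟨σ, hσ⟩ := C.bij (n := 1) (by norm_num) (C.hom ![t 0] ![x])
    have h := hσ (t 1)
    rw [sn_one, sn_one, vec2] at h
    exact ⟨σ (t 1), (Quot.sound h).symm⟩

theorem mk_ne_diag {x w : X} : Quot.mk (C.r 2) ![x, w] = Quot.mk (C.r 2) ![x, x] ↔ w = x := by
  constructor
  · intro h
    rw [mk_eq] at h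
    exact (C.pattern (by norm_num) _ _ ((C.equiv 2 (by norm_num)).symm h) 1 0 rfl)
  · rintro rfl
    rfl

theorem val_diag (x : X) : val C x (Quot.mk _ ![x, x]) = 1 := by
  unfold val
  rw [Nat.card_eq_one_iff_unique]
  constructor
  · constructor
    rintro ⟨a, ha⟩ ⟨b, hb⟩
    rw [mk_ne_diag] at ha hb
    exact Subtype.ext (ha.trans hb.symm)
  · exact ⟨⟨x, rfl⟩⟩

theorem val_pos (x : X) (q : Quot (C.r 2)) : 0 < val C x q := by
  obtain ⟨w, hw⟩ := mk_surj C x q
  unfold val
  rw [Nat.card_pos_iff]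
  exact ⟨⟨⟨w, hw⟩⟩, inferInstance⟩

theorem sum_val [Fintype (Quot (C.r 2))] (x : X) : ∑ q, val C x q = Fintype.card X := by
  classical
  have h := Fintype.card_congr (Equiv.sigmaFiberEquiv fun w : X => Quot.mk (C.r 2) ![x, w])
  rw [Fintype.card_sigma] at h
  rw [← h]
  apply Finset.sum_congr rfl
  intro q _
  rw [val, Nat.card_eq_fintype_card]

/-- (3a) -/
theorem main [CharZero K] (hX : 2 ≤ Fintype.card X)
    (hcomm : ∀ a ∈ C.Lam K, ∀ b ∈ C.Lam K, a * b = b * a) {f : ↥(C.Lam K)}
    (hf : (f : Matrix X X K) = 1 - (Fintype.card X : K)⁻¹ • JJ X K) (hdiv : DivC f) :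
    2 ≤ finrank K (crn K f f) ∧ Nat.card (Quot (C.r 2)) = finrank K (crn K f f) + 1 ∧
      ∃ d, finrank K (crn K f f) * d = Fintype.card X - 1 ∧
        ∀ x z, x ≠ z → Nat.card {w : X // C.r 2 ![x, w] ![x, z]} = d := by
  classical
  have hne : Nonempty X := Fintype.card_pos_iff.1 (by omega)
  have hV := finrank_V0 (X := X) K
  have hnt : Nontrivial (V0 X K) := Module.nontrivial_of_finrank_pos (R := K) (by omega)
  obtain ⟨m, hm, htr⟩ := field_trace (rho C K hcomm).range (by
    rintro _ ⟨a, rfl⟩ _ ⟨b, rfl⟩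
    change rho C K hcomm a * rho C K hcomm b = rho C K hcomm b * rho C K hcomm a
    rw [← map_mul, ← map_mul]
    congr 1
    exact Subtype.ext (hcomm _ a.2 _ b.2)) (range_inv C K hcomm hf hdiv)
  have hrank := finrank_range C K hcomm hf hdiv
  rw [hrank] at hm
  set k := finrank K (crn K f f) with hk
  have hkm : k * m = Fintype.card X - 1 := by omega
  have hm0 : m ≠ 0 := by
    rintro rfl
    omega
  -- the number of colours
  have hcol : Nat.card (Quot (C.r 2)) = k + 1 := by
    let φ : ↥(C.Lam K) →ₗ[K] Module.End K (V0 X K) := (rho C K hcomm).toLinearMap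
    have hrn := LinearMap.finrank_range_add_finrank_ker (K := K) (V := ↥(C.Lam K)) (V₂ := Module.End K (V0 X K)) φ
    have h1 : finrank K (LinearMap.range φ) = k := hrank
    have h2 : LinearMap.ker φ = K ∙ (⟨JJ X K, JJ_mem C K⟩ : ↥(C.Lam K)) := by
      ext a
      rw [LinearMap.mem_ker, Submodule.mem_span_singleton]
      constructor
      · intro h
        obtain ⟨c, hc⟩ := rho_eq_zero C K hcomm (a := a) h
        exact ⟨c, Subtype.ext hc.symm⟩
      · rintro ⟨c, rfl⟩
        rw [map_smul]
        have h0 : rho C K hcomm ⟨JJ X K, JJ_mem C K⟩ = 0 := by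
          apply LinearMap.ext
          intro v
          apply Subtype.ext
          rw [rho_apply]
          ext i
          have h0 : ∑ i, (v : X → K) i = 0 := v.2
          simpa [Matrix.mulVec, dotProduct, JJ] using h0
        change c • rho C K hcomm ⟨JJ X K, JJ_mem C K⟩ = 0
        rw [h0, smul_zero]
    have h3 : (⟨JJ X K, JJ_mem C K⟩ : ↥(C.Lam K)) ≠ 0 := by
      intro h
      obtain ⟨x⟩ := hne
      have h4 := congrFun (congrFun (congrArg Subtype.val h) x) x
      change (1 : K) = 0 at h4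
      exact one_ne_zero h4
    rw [h1, h2, finrank_span_singleton h3] at hrn
    rw [← finrank_lam C K]
    exact hrn.symm
  have hfin : Finite (Quot (C.r 2)) := inferInstance
  have hft : Fintype (Quot (C.r 2)) := Fintype.ofFinite _
  rw [Nat.card_eq_fintype_card] at hcol
  have hdvd : ∀ x z : X, x ≠ z → ∀ x0, m ∣ val C x0 (Quot.mk _ ![x, z]) := by
    intro x z hxz x0
    obtain ⟨t, ht, e⟩ := htr (rho C K hcomm ⟨clm C K (Quot.mk _ ![x, z]), clm_mem C K _⟩) ⟨_, rfl⟩
      (by
        have h1 : IsIntegral ℤ (⟨clm C K (Quot.mk _ ![x, z]), clm_mem C K _⟩ : ↥(C.Lam K)) :=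
          (isIntegral_algHom_iff ((C.Lam K).val.restrictScalars ℤ) Subtype.val_injective).1
            (clm_int C K _)
        exact h1.map ((rho C K hcomm).restrictScalars ℤ))
    rw [trace_clm C K hcomm hxz rfl x0] at e
    exact dvd_of_int K hm0 ht e
  have hval : ∀ x z : X, x ≠ z → val C x (Quot.mk _ ![x, z]) = m := by
    intro x
    have hs := sum_val C x
    rw [← Finset.add_sum_erase _ _ (Finset.mem_univ (Quot.mk (C.r 2) ![x, x])), val_diag] at hs
    have hle : ∀ q ∈ Finset.univ.erase (Quot.mk (C.r 2) ![x, x]), m ≤ val C x q := by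
      intro q hq
      obtain ⟨w, rfl⟩ := mk_surj C x q
      have hw : x ≠ w := by
        rintro rfl
        exact (Finset.ne_of_mem_erase hq) rfl
      exact Nat.le_of_dvd (val_pos C x _) (hdvd x w hw x)
    have hcard : (Finset.univ.erase (Quot.mk (C.r 2) ![x, x])).card = k := by
      rw [Finset.card_erase_of_mem (Finset.mem_univ _), Finset.card_univ, hcol]
      omega
    have hsum : ∑ q ∈ Finset.univ.erase (Quot.mk (C.r 2) ![x, x]), m =
        ∑ q ∈ Finset.univ.erase (Quot.mk (C.r 2) ![x, x]), val C x q := by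
      rw [Finset.sum_const, hcard, smul_eq_mul, hkm]
      omega
    have heq := (Finset.sum_eq_sum_iff_of_le hle).1 hsum
    intro z hxz
    refine (heq _ ?_).symm
    rw [Finset.mem_erase]
    refine ⟨?_, Finset.mem_univ _⟩
    intro h
    exact hxz ((mk_ne_diag C).1 h).symm
  refine ⟨?_, by rw [Nat.card_eq_fintype_card, hcol], m, hkm, ?_⟩
  · by_contra hlt
    have hk1 : k = 1 := by
      have : k ≠ 0 := by
        intro h0
        rw [h0, zero_mul] at hkm
        omega
      omega
    obtain ⟨x, z, hxz⟩ := Fintype.exists_pair_of_one_lt_card (α := X) (by omega)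
    have hcard : (Finset.univ.erase (Quot.mk (C.r 2) ![x, x])).card = 1 := by
      rw [Finset.card_erase_of_mem (Finset.mem_univ _), Finset.card_univ, hcol]
      omega
    obtain ⟨q, hq⟩ := Finset.card_eq_one.1 hcard
    have h1 : Quot.mk (C.r 2) ![x, z] ∈ Finset.univ.erase (Quot.mk (C.r 2) ![x, x]) := by
      rw [Finset.mem_erase]
      exact ⟨fun h => hxz ((mk_ne_diag C).1 h).symm, Finset.mem_univ _⟩
    have h2 : Quot.mk (C.r 2) ![z, x] ∈ Finset.univ.erase (Quot.mk (C.r 2) ![x, x]) := by
      rw [Finset.mem_erase]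
      refine ⟨fun h => hxz ?_, Finset.mem_univ _⟩
      rw [mk_diag C x z] at h
      exact (mk_ne_diag C).1 h
    rw [hq, Finset.mem_singleton] at h1 h2
    exact C.anti x z hxz ((mk_eq C).1 (h1.trans h2.symm))
  · intro x z hxz
    rw [← hval x z hxz]
    unfold val
    apply Nat.card_congr
    exact Equiv.subtypeEquivRight fun w => (mk_eq C).symm

end

end Sec3A

end PDeg
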