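import Pool.Agent.Lib.MP_369ee2_lc_PD.SecB
import Pool.Agent.Lib.MP_369ee2_lc_PD.Sec3A

/-!
# `D_ζ` of the trivial vertex
-/

namespace PDeg

open scoped BigOperators Matrix Kronecker

section
variable {X : Type} [Fintype X] [DecidableEq X] {C : Coh X} {p : ℕ} {W K : Type}
  [CommRing W] [Field K] [Algebra W K] {k d : ℕ} {y : Matrix X X W} {ζ0 : W}

/-- `T_G(z, (x, x')) = [x = x'] G(z)` -/
def TG {X R : Type} [DecidableEq X] [CommRing R] (G : Matrix X X R) :
    Matrix (X × X) (X × X) R :=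
  Matrix.of (fun i j => if j.1 = j.2 then G i.1 i.2 else 0)

theorem TG_apply {X R : Type} [DecidableEq X] [CommRing R] (G : Matrix X X R) (i j : X × X) :
    TG G i j = if j.1 = j.2 then G i.1 i.2 else 0 := rfl

theorem t1_TG (a G : Matrix X X K) : t1 a * TG G = TG (a * G) := by
  ext i j
  rw [Matrix.mul_apply, TG_apply, Matrix.mul_apply, Fintype.sum_prod_type]
  simp only [t1_apply, TG_apply]
  by_cases h : j.1 = j.2
  · simp [h, Finset.sum_ite_eq]
  · simp [h]

theorem t2_TG (a G : Matrix X X K) : t2 a * TG G = TG (G * aᵀ) := by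
  ext i j
  rw [Matrix.mul_apply, TG_apply, Matrix.mul_apply, Fintype.sum_prod_type]
  simp only [t2_apply, TG_apply, Matrix.transpose_apply]
  by_cases h : j.1 = j.2
  · simp only [h, if_true]
    rw [Finset.sum_comm]
    refine Finset.sum_congr rfl fun w _ => ?_
    simp [mul_comm]
  · simp [h]

theorem TG_mem {G : Matrix X X K} (hG : G ∈ C.Lam K) : TG G ∈ C.PP K := by
  intro x y h
  have h1 := C.pattern (by norm_num) _ _ h
  have h2 := C.pattern (by norm_num) _ _ ((C.equiv 4 (by norm_num)).symm h)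
  have h3 : x 2 = x 3 ↔ y 2 = y 3 := ⟨h1 2 3, h2 2 3⟩
  have h4 : G (x 0) (x 1) = G (y 0) (y 1) :=
    hG _ _ (C.reindex (n := 4) (k := 2) (by norm_num) (by norm_num) ![0, 1] _ _ h)
  simp only [TG_apply, h3, h4]

theorem TG_smul (c : K) (G : Matrix X X K) : TG (c • G) = c • TG G := by
  ext i j
  simp [TG_apply]

theorem TG_add (G H : Matrix X X K) : TG (G + H) = TG G + TG H := by
  ext i j
  simp only [TG_apply, Matrix.add_apply]
  split_ifs <;> simp

theorem TG_inj (x0 : X) {G H : Matrix X X K} (h : TG G = TG H) : G = H := by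
  ext i j
  have := congrFun (congrFun h (i, j)) (x0, x0)
  simpa [TG_apply] using this

theorem TG_zero : TG (0 : Matrix X X K) = 0 := by
  ext i j
  simp [TG_apply]

/-- the trivial idempotent `J/p` of `δ P δ` -/
noncomputable def ftr (C : Coh X) (K : Type) [Field K] : ↥(C.PP K) :=
  ⟨tδ ((Fintype.card X : K)⁻¹ • JJ X K), tδ_mem C K ((C.Lam K).smul_mem (JJ_mem C K) _)⟩

theorem mul_ftr (T : Matrix (X × X) (X × X) K) (i j : X × X) :
    (T * (ftr C K : Matrix (X × X) (X × X) K)) i j =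
      if j.1 = j.2 then (Fintype.card X : K)⁻¹ * ∑ w, T i (w, w) else 0 := by
  rw [Matrix.mul_apply, Fintype.sum_prod_type]
  have h1 : ∀ a b : X, T i (a, b) * (ftr C K : Matrix (X × X) (X × X) K) (a, b) j =
      if j.1 = j.2 then (if a = b then (Fintype.card X : K)⁻¹ * T i (a, b) else 0) else 0 := by
    intro a b
    change T i (a, b) * (if a = b ∧ j.1 = j.2 then
      ((Fintype.card X : K)⁻¹ • JJ X K) a j.1 else 0) = _
    by_cases h : j.1 = j.2 <;> by_cases h' : a = b <;> simp [h, h', JJ, mul_comm]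
  simp only [h1]
  by_cases h : j.1 = j.2
  · simp only [h, if_true, Finset.sum_ite_eq, Finset.mem_univ, Finset.mul_sum]
  · simp [h]

theorem TG_ftr (hX : (Fintype.card X : K) ≠ 0) (G : Matrix X X K) :
    TG G * (ftr C K : Matrix (X × X) (X × X) K) = TG G := by
  ext i j
  rw [mul_ftr]
  simp only [TG_apply, if_true, Finset.sum_const, Finset.card_univ, nsmul_eq_mul]
  rw [← mul_assoc, inv_mul_cancel₀ hX, one_mul]

/-- column sums of a constant matrix are equal -/
theorem colsum_const {G : Matrix X X K} (hG : G ∈ C.Lam K) (x x' : X) :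
    ∑ w, G w x = ∑ w, G w x' := by
  have h1 : C.Cst 2 (fun t => G (t 1) (t 0)) :=
    Coh.Cst.comp (n := 2) (k := 2) (by norm_num) (by norm_num) ![1, 0]
      (f := fun t => G (t 0) (t 1)) hG
  have h2 := Coh.Cst.sum (n := 1) (by norm_num) h1
  exact h2 ![x] ![x'] (C.hom _ _)

theorem JJ_mul_eq {G : Matrix X X K} (hG : G ∈ C.Lam K) (x0 : X) :
    JJ X K * G = 0 ↔ ∑ w, G w x0 = 0 := by
  constructor
  · intro h
    have := congrFun (congrFun h x0) x0
    simpa [JJ, Matrix.mul_apply] using this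
  · intro h
    ext i j
    simp only [JJ, Matrix.mul_apply, Matrix.of_apply, one_mul, Matrix.zero_apply]
    rw [colsum_const hG j x0, h]

/-- fixed elements of `ftr` have the form `T_G` -/
theorem exists_G (hX : (Fintype.card X : K) ≠ 0) (x0 : X) {T : Matrix (X × X) (X × X) K}
    (hT : T ∈ C.PP K) (h : T * (ftr C K : Matrix (X × X) (X × X) K) = T) :
    ∃ G ∈ C.Lam K, T = TG G := by
  refine ⟨Matrix.of (fun a b => (Fintype.card X : K)⁻¹ * ∑ w, T (a, b) (w, w)), ?_, ?_⟩
  · have h1 : C.Cst 3 (fun t => T (t 0, t 1) (t 2, t 2)) :=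
      Coh.Cst.comp (n := 3) (k := 4) (by norm_num) (by norm_num) ![0, 1, 2, 2]
        (f := fun t => T (t 0, t 1) (t 2, t 3)) hT
    have h2 := Coh.Cst.sum (n := 2) (by norm_num) h1
    intro s t hst
    exact congrArg (fun z => (Fintype.card X : K)⁻¹ * z) (h2 s t hst)
  · ext i j
    rw [TG_apply]
    have := congrFun (congrFun h i) j
    rw [mul_ftr] at this
    exact this.symm

/-- the zero sum part of `Λ_K` -/
def Lam0 (C : Coh X) (K : Type) [Field K] : Submodule K (Matrix X X K) :=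
  Subalgebra.toSubmodule (C.Lam K) ⊓ LinearMap.ker (LinearMap.mulLeft K (JJ X K))

theorem mem_Lam0 {G : Matrix X X K} : G ∈ Lam0 C K ↔ G ∈ C.Lam K ∧ JJ X K * G = 0 := Iff.rfl

theorem finrank_Lam0 (x0 : X) {k : ℕ} (hk : Nat.card (Quot (C.r 2)) = k + 1) :
    Module.finrank K (Lam0 C K) = k := by
  let φ : ↥(C.Lam K) →ₗ[K] K :=
    { toFun := fun G => ∑ w, (G : Matrix X X K) w x0
      map_add' := by intro a b; simp [Finset.sum_add_distrib]
      map_smul' := by intro c a; simp [Finset.mul_sum] }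
  have hsurj : Function.Surjective φ := by
    intro c
    refine ⟨c • 1, ?_⟩
    change ∑ w, ((c • (1 : ↥(C.Lam K)) : ↥(C.Lam K)) : Matrix X X K) w x0 = c
    simp [Matrix.one_apply]
  have h1 := φ.finrank_range_add_finrank_ker
  rw [LinearMap.range_eq_top.2 hsurj, finrank_top, Module.finrank_self] at h1
  have h2 : Module.finrank K (C.Lam K) = k + 1 := by rw [Sec3A.finrank_lam C K, hk]
  have h3 : Module.finrank K (LinearMap.ker φ) = k := by
    have : Module.finrank K (↥(C.Lam K)) = k + 1 := h2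
    omega
  rw [← h3]
  refine LinearEquiv.finrank_eq ?_
  exact
    { toFun := fun G => ⟨⟨G.1, (mem_Lam0.1 G.2).1⟩,
        (JJ_mul_eq (mem_Lam0.1 G.2).1 x0).1 (mem_Lam0.1 G.2).2⟩
      map_add' := fun _ _ => rfl
      map_smul' := fun _ _ => rfl
      invFun := fun G => ⟨(G.1 : Matrix X X K), mem_Lam0.2 ⟨G.1.2, (JJ_mul_eq G.1.2 x0).2 G.2⟩⟩
      left_inv := fun _ => rfl
      right_inv := fun _ => rfl }

variable (hY : YData C p W K k d y ζ0)
include hY

theorem yK_transpose : (yK K y)ᵀ = (algebraMap W K ζ0) • yK K y := by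
  ext i j
  have := congrFun (congrFun hY.trans i) j
  simp only [Matrix.transpose_apply, Matrix.smul_apply, smul_eq_mul] at this
  simp only [yK, Matrix.transpose_apply, Matrix.map_apply, Matrix.smul_apply, smul_eq_mul]
  rw [this, map_mul]

theorem JJ_transpose' : (JJ X K)ᵀ = JJ X K := by
  ext i j; rfl

/-- the condition for `T_G` -/
theorem b_TG {ζ : W} {b : ↥(C.PP K)} (hb : IsB C y ζ b) (x0 : X) {G : Matrix X X K}
    (hG : G ∈ C.Lam K) :
    (b : Matrix (X × X) (X × X) K) * TG G = TG G ↔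
      (JJ X K * G = 0 ∧
        (algebraMap W K ζ0 - algebraMap W K ζ) • (yK K y * G) = 0) := by
  rw [hb.mul_iff_mat, t1_TG, t2_TG, JJ_transpose' hY]
  change (_ ∧ _ ∧ t2 (yK K y) * TG G = (algebraMap W K ζ) • (t1 (yK K y) * TG G)) ↔ _
  rw [t1_TG, t2_TG, yK_transpose hY, Matrix.mul_smul,
    hY.comm G hG (yK K y) (yK_mem hY), hY.comm G hG (JJ X K) (JJ_mem C K), ← TG_smul]
  constructor
  · rintro ⟨h1, -, h3⟩
    refine ⟨TG_inj x0 (by rw [h1, TG_zero]), ?_⟩
    have := TG_inj x0 h3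
    rw [sub_smul, this, sub_self]
  · rintro ⟨h1, h3⟩
    rw [sub_smul, sub_eq_zero] at h3
    rw [h1, h3]
    exact ⟨TG_zero, TG_zero, rfl⟩

/-- `D_ζ₀(f_triv) = k` -/
theorem finrank_triv0 (hX : (Fintype.card X : K) ≠ 0) (x0 : X) {b : ↥(C.PP K)}
    (hb : IsB C y ζ0 b) : Module.finrank K (crn K b (ftr C K)) = k := by
  rw [← finrank_Lam0 (K := K) (C := C) x0 hY.rank2]
  refine (LinearEquiv.finrank_eq (LinearEquiv.ofBijective
    ({ toFun := fun G => ⟨⟨TG G.1, TG_mem (mem_Lam0.1 G.2).1⟩, ?_, ?_⟩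
       map_add' := ?_
       map_smul' := ?_ } : ↥(Lam0 C K) →ₗ[K] ↥(crn K b (ftr C K))) ?_)).symm
  · apply Subtype.ext
    change (b : Matrix (X × X) (X × X) K) * TG G.1 = TG G.1
    exact (b_TG hY hb x0 (mem_Lam0.1 G.2).1).2 ⟨(mem_Lam0.1 G.2).2, by rw [sub_self, zero_smul]⟩
  · apply Subtype.ext
    exact TG_ftr hX G.1
  · intro G H
    apply Subtype.ext
    apply Subtype.ext
    exact TG_add _ _
  · intro c G
    apply Subtype.ext
    apply Subtype.ext
    exact TG_smul _ _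
  · constructor
    · intro G H h
      apply Subtype.ext
      exact TG_inj x0 (congrArg (fun t : ↥(crn K b (ftr C K)) =>
        ((t : ↥(C.PP K)) : Matrix (X × X) (X × X) K)) h)
    · rintro ⟨⟨T, hT⟩, hT1, hT2⟩
      have hT1' : (b : Matrix (X × X) (X × X) K) * T = T := congrArg Subtype.val hT1
      have hT2' : T * (ftr C K : Matrix (X × X) (X × X) K) = T := congrArg Subtype.val hT2
      obtain ⟨G, hG, rfl⟩ := exists_G hX x0 hT hT2'
      exact ⟨⟨G, mem_Lam0.2 ⟨hG, ((b_TG hY hb x0 hG).1 hT1').1⟩⟩, rfl⟩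

/-- `D_ζ(f_triv) = 0` for `ζ ≠ ζ₀` -/
theorem finrank_triv (hX : (Fintype.card X : K) ≠ 0) (x0 : X) (hp : (p : K) ≠ 0) {ζ : W}
    (hζ : algebraMap W K ζ ≠ algebraMap W K ζ0)
    {b : ↥(C.PP K)} (hb : IsB C y ζ b) : Module.finrank K (crn K b (ftr C K)) = 0 := by
  have h0 : crn K b (ftr C K) = ⊥ := by
    rw [eq_bot_iff]
    rintro ⟨T, hT⟩ ⟨hT1, hT2⟩
    have hT1' : (b : Matrix (X × X) (X × X) K) * T = T := congrArg Subtype.val hT1
    have hT2' : T * (ftr C K : Matrix (X × X) (X × X) K) = T := congrArg Subtype.val hT2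
    obtain ⟨G, hG, rfl⟩ := exists_G hX x0 hT hT2'
    obtain ⟨h1, h2⟩ := (b_TG hY hb x0 hG).1 hT1'
    have h3 : yK K y * G = 0 :=
      (smul_eq_zero.1 h2).resolve_left (sub_ne_zero.2 (Ne.symm hζ))
    have h4 : (yK K y) ^ k * G = 0 := by
      obtain ⟨n, hn⟩ : ∃ n, k = n + 1 := ⟨k - 1, by have := hY.k2; omega⟩
      rw [hn, pow_succ, mul_assoc, h3, mul_zero]
    have h5 : G = 0 := by
      rw [yK_pow hY, sub_mul, h1, sub_zero, Matrix.smul_mul, one_mul] at h4
      exact (smul_eq_zero.1 h4).resolve_left hp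
    rw [Submodule.mem_bot]
    apply Subtype.ext
    change TG G = 0
    rw [h5, TG_zero]
  rw [h0, finrank_bot]

end

end PDeg
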