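import Pool.Agent.Lib.MP_369ee2_lc_PD.Sec7
import Pool.Agent.Lib.MP_369ee2_lc_PD.Sec8
import Pool.Agent.Lib.MP_369ee2_lc_PD.Sec9Abs
import Pool.Agent.Lib.MP_369ee2_lc_PD.DeltaLoc
import Pool.Agent.Lib.MP_369ee2_lc_PD.SecB2
import Pool.Agent.Lib.MP_369ee2_lc_PD.Dim3P
import Pool.Agent.Lib.MP_369ee2_lc_PD.ColourCount
import Pool.Agent.Lib.MP_369ee2_lc_PD.FactM4

/-!
# Assembly: the multiplicity `c₀` equals `d`, and the number of colours of triples
-/

namespace PDeg

open scoped BigOperators Matrix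

set_option linter.unusedSectionVars false
set_option linter.unusedVariables false

namespace Asm

section generic
variable {K A : Type} [Field K] [Ring A] [Algebra K A]

theorem exists_smul {f : A} (hf : f * f = f) (h0 : f ≠ 0)
    (h : Module.finrank K (crn K f f) = 1) (x : A) (h1 : f * x = x) (h2 : x * f = x) :
    ∃ c : K, x = c • f := by
  have hne : (⟨f, hf, hf⟩ : crn K f f) ≠ 0 := fun h => h0 (congrArg Subtype.val h)
  obtain ⟨c, hc⟩ := (finrank_eq_one_iff_of_nonzero' _ hne).1 h ⟨x, h1, h2⟩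
  exact ⟨c, (congrArg Subtype.val hc).symm⟩

theorem finrank_ne_zero [FiniteDimensional K A] {f : A} (hf : f * f = f) (h0 : f ≠ 0) :
    Module.finrank K (crn K f f) ≠ 0 := by
  have hne : (⟨f, hf, hf⟩ : crn K f f) ≠ 0 := fun h => h0 (congrArg Subtype.val h)
  have : Nontrivial (crn K f f) := ⟨⟨_, _, hne⟩⟩
  exact (Module.finrank_pos (R := K) (M := crn K f f)).ne'

theorem finrank_crn_sum [FiniteDimensional K A] {ι : Type} [Fintype ι] [DecidableEq ι] {b : ι → A}
    (hb : ∀ i, b i * b i = b i) (hbb : ∀ i j, i ≠ j → b i * b j = 0) {B : A}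
    (hB : ∑ i, b i = B) (f : A) :
    Module.finrank K (crn K B f) = ∑ i, Module.finrank K (crn K (b i) f) := by
  have hBb : ∀ i, B * b i = b i := by
    intro i
    rw [← hB, Finset.sum_mul, Finset.sum_eq_single i (fun j _ hj => hbb j i hj)
      (fun h => absurd (Finset.mem_univ i) h), hb]
  let e : crn K B f ≃ₗ[K] ((i : ι) → crn K (b i) f) :=
    { toFun := fun x i => ⟨b i * x, by
        exact ⟨by rw [← mul_assoc, hb], by rw [mul_assoc, x.2.2]⟩⟩
      map_add' := by
        intro x y
        refine funext fun i => Subtype.ext ?_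
        exact mul_add _ _ _
      map_smul' := by
        intro c x
        refine funext fun i => Subtype.ext ?_
        exact mul_smul_comm _ _ _
      invFun := fun x => ⟨∑ i, (x i : A), by
        refine ⟨?_, ?_⟩
        · rw [Finset.mul_sum]
          refine Finset.sum_congr rfl fun i _ => ?_
          rw [← (x i).2.1, ← mul_assoc, hBb]
        · rw [Finset.sum_mul]
          exact Finset.sum_congr rfl fun i _ => (x i).2.2⟩
      left_inv := by
        rintro ⟨x, h1, h2⟩
        apply Subtype.ext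
        change ∑ i, b i * x = x
        rw [← Finset.sum_mul, hB, h1]
      right_inv := by
        intro x
        refine funext fun i => Subtype.ext ?_
        change b i * ∑ j, (x j : A) = x i
        rw [Finset.mul_sum, Finset.sum_eq_single i]
        · exact (x i).2.1
        · intro j _ hj
          rw [← (x j).2.1, ← mul_assoc, hbb i j hj.symm, zero_mul]
        · intro h
          exact absurd (Finset.mem_univ i) h }
  rw [e.finrank_eq]
  exact Module.finrank_pi_fintype K

theorem finrank_congr_left {b b' f : A} (h : b = b') :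
    Module.finrank K (crn K b f) = Module.finrank K (crn K b' f) := by rw [h]

end generic

section
variable {X : Type} [Fintype X] [DecidableEq X] {C : Coh X} {p k d : ℕ} {W K F : Type}
  [CommRing W] [IsDomain W] [Field K] [Algebra W K] [IsFractionRing W K] [Field F] [Algebra W F]
  {y : Matrix X X W} {ζ0 : W}

/-- `oc` of the diagonal colour is `δ` -/
theorem oc_diag (x₀ : X) : Sec8.oc C K (Sec8.c2 C (x₀, x₀)) = dl C K 1 := by
  classical
  apply Subtype.ext
  ext i j
  have h1 : ((Sec8.oc C K (Sec8.c2 C (x₀, x₀)) : ↥(C.PP K)) : Matrix (X × X) (X × X) K) i j =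
      if i = j ∧ Sec8.c2 C i = Sec8.c2 C (x₀, x₀) then 1 else 0 := by
    simp [Sec8.oc]
  rw [h1, dl_apply]
  change _ = if i.1 = i.2 ∧ j.1 = j.2 then (1 : Matrix X X K) i.1 j.1 else 0
  rw [Matrix.one_apply]
  have h2 : Sec8.c2 C i = Sec8.c2 C (x₀, x₀) ↔ i.1 = i.2 := by
    rw [Sec8.c2_eq]
    constructor
    · intro h
      exact C.pattern (n := 2) (by norm_num) _ _ ((C.equiv 2 (by norm_num)).symm h) 0 1 rfl
    · intro h
      have h3 := C.reindex (n := 1) (k := 2) (by norm_num) (by norm_num) (fun _ => 0)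
        (fun _ => i.1) (fun _ => x₀) (C.hom _ _)
      have e1 : (fun _ : Fin 2 => i.1) = ![i.1, i.2] := by
        ext l; fin_cases l
        · rfl
        · exact h
      have e2 : (fun _ : Fin 2 => x₀) = ![x₀, x₀] := by
        ext l; fin_cases l <;> rfl
      rw [← e1]
      change C.r 2 (fun _ : Fin 2 => i.1) ![x₀, x₀]
      rw [← e2]
      exact h3
  rw [h2]
  by_cases hij : i = j
  · subst hij
    by_cases hi : i.1 = i.2
    · rw [if_pos ⟨rfl, hi⟩, if_pos ⟨hi, hi⟩, if_pos rfl]
    · rw [if_neg (fun h => hi h.2), if_neg (fun h => hi h.1)]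
  · rw [if_neg (fun h => hij h.1)]
    by_cases hi : i.1 = i.2 ∧ j.1 = j.2
    · rw [if_pos hi, if_neg]
      intro h
      exact hij (Prod.ext h (hi.1.symm.trans (h.trans hi.2)))
    · rw [if_neg hi]

theorem ftr_eq : ftr C K = dl C K (fJ C K) := rfl

theorem dlt_eq : dlt C K = dl C K 1 := rfl

/-- dimension of the exceptional corner -/
theorem finrank_exc (hX0 : (Fintype.card X : K) ≠ 0) (hY : YData C p W K k d y ζ0) (x₀ : X) :
    Module.finrank K (crn K (dl C K 1 - dl C K (fJ C K)) (dl C K 1 - dl C K (fJ C K))) = k := by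
  rw [← finrank_Lam0 (K := K) (C := C) x₀ hY.rank2]
  have hcom : ∀ a b : ↥(C.Lam K), a * b = b * a := fun a b =>
    Subtype.ext (hY.comm _ a.2 _ b.2)
  have hfJ : ∀ G : ↥(C.Lam K), ((fJ C K * G : ↥(C.Lam K)) : Matrix X X K) =
      (Fintype.card X : K)⁻¹ • (JJ X K * (G : Matrix X X K)) := by
    intro G
    change ((Fintype.card X : K)⁻¹ • JJ X K) * (G : Matrix X X K) = _
    rw [Matrix.smul_mul]
  have hfJ0 : ∀ G : ↥(C.Lam K), fJ C K * G = 0 ↔ JJ X K * (G : Matrix X X K) = 0 := by
    intro G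
    constructor
    · intro h
      have h1 := congrArg Subtype.val h
      rw [hfJ] at h1
      exact (smul_eq_zero.1 h1).resolve_left (inv_ne_zero hX0)
    · intro h
      apply Subtype.ext
      rw [hfJ, h, smul_zero]
      rfl
  have hdl : dl C K 1 - dl C K (fJ C K) = dl C K (1 - fJ C K) := (map_sub _ _ _).symm
  rw [hdl]
  have key : ∀ G : ↥(C.Lam K), dl C K G ∈ crn K (dl C K (1 - fJ C K)) (dl C K (1 - fJ C K)) ↔
      JJ X K * (G : Matrix X X K) = 0 := by
    intro G
    rw [mem_crn, ← dl_mul, ← dl_mul, (dl_inj C K).eq_iff, (dl_inj C K).eq_iff, sub_mul, one_mul,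
      mul_sub, mul_one, hcom G, ← hfJ0]
    constructor
    · rintro ⟨h, -⟩
      rwa [sub_eq_self] at h
    · intro h
      rw [h, sub_zero]
      exact ⟨rfl, rfl⟩
  have hrs : ∀ x ∈ crn K (dl C K (1 - fJ C K)) (dl C K (1 - fJ C K)),
      dl C K (rs C K x) = x := by
    rintro x ⟨h1, h2⟩
    rw [← corner_eq]
    have e1 : dl C K 1 * x = x := by
      rw [← h1, ← mul_assoc, dl_one_mul]
    have e2 : x * dl C K 1 = x := by
      rw [← h2, mul_assoc, dl_mul_one]
    rw [e1, e2]
  have hrs2 : ∀ G : ↥(C.Lam K), rs C K (dl C K G) = G := by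
    intro G
    apply Subtype.ext
    ext u v
    rw [rs_apply, dl_diag]
  refine LinearEquiv.finrank_eq ?_
  exact
    { toFun := fun x => ⟨(rs C K x.1 : Matrix X X K), (rs C K x.1).2, by
        have h3 := x.2
        rw [← hrs _ x.2, key] at h3
        exact h3⟩
      map_add' := fun _ _ => rfl
      map_smul' := fun _ _ => rfl
      invFun := fun G => ⟨dl C K ⟨G.1, G.2.1⟩, (key _).2 G.2.2⟩
      left_inv := fun x => Subtype.ext (hrs _ x.2)
      right_inv := fun G => Subtype.ext (congrArg (fun t : ↥(C.Lam K) => (t : Matrix X X K))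
        (hrs2 ⟨G.1, G.2.1⟩)) }

/-- section 9: `c₀ = d` -/
theorem c0_eq_d (hB : Base p W K F) (hX : Fintype.card X = p) (hp2 : p ≠ 2)
    (hY : YData C p W K k d y ζ0) (x₀ : X)
    (E0 : LocIdem p (LamO C W K)) (h1 : E0.e = 1) (hg : Good E0 (fJ C K))
    (H : SymOrder p (PPO C W K) (tauP C K))
    (hnat : ∀ g : ↥(C.PP K), g * g = g → ∃ n : ℕ, (p : K) * tauP C K g = n)
    {ω : W} (hω : IsPrimitiveRoot ω k)
    (hC : ∀ i, (p : K) * tauP C K (bfam hY (algebraMap W K ω) i) = (k * d ^ 2 : ℕ))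
    (hDD : ∀ e ∈ PPO C W K, e * e = e → (∀ x, e * x = x * e) → e * dl C K 1 = 0 →
      ∃ κ : ℕ, p ∣ κ ∧ ∀ i,
        (p : K) * tauP C K (bfam hY (algebraMap W K ω) i * e) = (k * κ : ℕ))
    {q r : X → Matrix X X F} (hP : PData C F k y q r) :
    ∀ i, Module.finrank K (crn K (bfam hY (algebraMap W K ω) i) (dl C K 1)) = k * d := by
  classical
  have := hB
  have : CharZero K := hB.charZero
  have hp : p.Prime := hB.prime
  have hp0 : (p : K) ≠ 0 := Nat.cast_ne_zero.2 hp.ne_zero
  have hX0 : (Fintype.card X : K) ≠ 0 := by rw [hX]; exact hp0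
  have hp3 : 2 < p := lt_of_le_of_ne hp.two_le (Ne.symm hp2)
  have hpo : Odd p := hp.odd_of_ne_two hp2
  have hk2 := hY.k2
  have hωK : IsPrimitiveRoot (algebraMap W K ω) k :=
    hω.map_of_injective (IsFractionRing.injective W K)
  set b := bfam hY (algebraMap W K ω) with hb
  have hbi := bfam_idem hB hX hY hωK
  have hbb := bfam_orth hB hX hY hωK
  have hnd : ∀ x : ↥(C.PP K), (∀ z, tauP C K (x * z) = 0) → x = 0 := fun x hx =>
    SymOrder.nondeg F H x hx
  have hFM : ∀ e ∈ PPO C W K, e * e = e → ∃ kap : ℕ, ∀ i,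
      Module.finrank K (crn K (b i) e) = k * kap := by
    intro e he hee
    obtain ⟨kap, -, h⟩ := FactM.factM_full C hB hY hP he hee
    refine ⟨kap, fun i => h (ω ^ (i : ℕ)) ?_ _
      (bfam_isB hB hX hY hωK (ζ := ω ^ (i : ℕ)) (by rw [map_pow]))⟩
    rw [← pow_mul, mul_comm, pow_mul, hω.pow_eq_one, one_pow]
  obtain ⟨D, hDe, hDr⟩ := delta_loc C E0 h1
  have hG0 : Good D (dl C K (fJ C K)) := delta_good C E0 h1 hg D hDe hDr
  -- the index of `ζ₀`
  obtain ⟨i0, hi0⟩ : ∃ i : Fin k, algebraMap W K ζ0 = (algebraMap W K ω) ^ (i : ℕ) := by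
    have : NeZero k := ⟨by omega⟩
    obtain ⟨i, hi, h⟩ := hωK.eq_pow_of_pow_eq_one (ξ := algebraMap W K ζ0)
      (by rw [← map_pow, hY.z0, map_one])
    exact ⟨⟨i, hi⟩, h.symm⟩
  obtain ⟨i1, hi1⟩ : ∃ i : Fin k, i ≠ i0 := by
    have : Nontrivial (Fin k) := Fin.nontrivial_iff_two_le.2 hk2
    exact exists_ne i0
  have hfact : ∀ e ∈ PPO C W K, e * e = e → ∀ i,
      Module.finrank K (crn K (b i) e) = Module.finrank K (crn K (b i0) e) := by
    intro e he hee i
    obtain ⟨kap, hkap⟩ := hFM e he hee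
    rw [hkap, hkap]
  have htrJ : tauL C K (fJ C K) = (p : K)⁻¹ := by
    rw [tauL_apply, hX]
    change (p : K)⁻¹ * Matrix.trace ((Fintype.card X : K)⁻¹ • JJ X K) = _
    rw [Matrix.trace_smul, smul_eq_mul]
    have : Matrix.trace (JJ X K) = (Fintype.card X : K) := by
      simp [Matrix.trace, JJ]
    rw [this, inv_mul_cancel₀ hX0, mul_one]
  have htr1 : tauL C K (1 : ↥(C.Lam K)) = 1 := by
    rw [tauL_apply]
    change (Fintype.card X : K)⁻¹ * Matrix.trace (1 : Matrix X X K) = 1
    rw [Matrix.trace_one, inv_mul_cancel₀ hX0]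
  have hM : (p : K) * tauP C K (dl C K (fJ C K)) = 1 := by
    rw [tauP_dl, htrJ, mul_inv_cancel₀ hp0]
  have htriv : ∀ i, i ≠ i0 → Module.finrank K (crn K (b i) (dl C K (fJ C K))) = 0 := by
    intro i hi
    have hne : algebraMap W K (ω ^ (i : ℕ)) ≠ algebraMap W K ζ0 := by
      rw [map_pow, hi0]
      intro h
      exact hi (Fin.ext (hωK.pow_inj i.2 i0.2 h))
    exact finrank_triv hY hX0 x₀ hp0 hne
      (bfam_isB hB hX hY hωK (ζ := ω ^ (i : ℕ)) (by rw [map_pow]))
  have htriv0 : Module.finrank K (crn K (b i0) (dl C K (fJ C K))) = k :=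
    finrank_triv0 hY hX0 x₀ (bfam_isB hB hX hY hωK hi0)
  have hDD0 : ∀ i, i ≠ i0 → (Module.finrank K (crn K (b i0) (dl C K (fJ C K))) : ℤ) -
      Module.finrank K (crn K (b i) (dl C K (fJ C K))) = k := by
    intro i hi
    rw [htriv i hi, htriv0]
    simp
  obtain ⟨eV, Z, heV, heVi, heVc, hDeV, hsum, horth, hZ, ⟨z0, hz0, hV0⟩, ⟨z1, hz1, hV1⟩⟩ :=
    block F H hp2 hnat b hbi i0 k hfact D (dl C K (fJ C K)) hG0 hM hDD0
  have hG1 : Good D (D.e - dl C K (fJ C K)) := Good.compl F hG0
  have hc0 : z0 * D.e = dl C K (fJ C K) :=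
    hV0.corner D.idem hG0.left hG0.right hG0.idem hG0.central
  have hc1 : z1 * D.e = D.e - dl C K (fJ C K) :=
    hV1.corner D.idem hG1.left hG1.right hG1.idem hG1.central
  have hf00 : dl C K (fJ C K) ≠ 0 := fun h => hG0.not_mem (h ▸ (PPO C W K).zero_mem)
  have hz01 : z0 ≠ z1 := by
    intro h
    have h2 : dl C K (fJ C K) = D.e - dl C K (fJ C K) :=
      hc0.symm.trans ((congrArg (· * D.e) h).trans hc1)
    apply hf00
    calc dl C K (fJ C K) = dl C K (fJ C K) * dl C K (fJ C K) := hG0.idem.symm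
      _ = dl C K (fJ C K) * (D.e - dl C K (fJ C K)) := by rw [← h2]
      _ = 0 := by rw [mul_sub, hG0.right, hG0.idem, sub_self]
  obtain ⟨y0', x0', k0', hD0⟩ := Good.dvr F H hG0
  obtain ⟨y1', x1', k1', hD1⟩ := Good.dvr F H hG1
  -- the number `c₀`
  obtain ⟨c₀, hc₀⟩ := hFM D.e D.mem D.idem
  have hadd : ∀ i, Module.finrank K (crn K (b i) D.e) =
      Module.finrank K (crn K (b i) (dl C K (fJ C K))) +
        Module.finrank K (crn K (b i) (D.e - dl C K (fJ C K))) := by
    intro i
    have := finrank_crn_add (K := K) hG0.idem hG1.idem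
      (by rw [mul_sub, hG0.right, hG0.idem, sub_self])
      (by rw [sub_mul, hG0.left, hG0.idem, sub_self]) (b i)
    rwa [add_sub_cancel] at this
  have hb1 : Module.finrank K (crn K (b i1) (D.e - dl C K (fJ C K))) = k * c₀ := by
    have h2 := hadd i1
    rw [hc₀, htriv i1 hi1, zero_add] at h2
    exact h2.symm
  have hr1 : Module.finrank K
      (crn K (D.e - dl C K (fJ C K)) (D.e - dl C K (fJ C K))) = k := by
    rw [hDe]
    exact finrank_exc hX0 hY x₀
  have hM1 : (p : K) * tauP C K (D.e - dl C K (fJ C K)) = (p - 1 : ℕ) := by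
    rw [map_sub, mul_sub, hM, hDe, tauP_dl, htr1, mul_one, Nat.cast_sub hp.one_lt.le,
      Nat.cast_one]
  -- the remaining vertices
  have hoth : ∀ z ∈ Z, z ≠ z0 → z ≠ z1 → Ordinary p (tauP C K) (b i1) z := by
    intro z hz hne0 hne1
    obtain ⟨f, E, s, M, hS⟩ := hZ z hz
    have hzD : z * dl C K 1 = 0 := by
      have h2 : D.e = z0 * D.e + z1 * D.e := by rw [hc0, hc1, add_sub_cancel]
      rw [← hDe, h2, mul_add, ← mul_assoc, ← mul_assoc, horth z hz z0 hz0 hne0,
        horth z hz z1 hz1 hne1, zero_mul, add_zero]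
    obtain ⟨hr, hdim⟩ := sec7 hB hX hY hωK H hi1 hS hzD hP
    obtain ⟨yf, xf, kf, hDf⟩ := Good.dvr F H hS.good
    have hf0 : f ≠ 0 := fun h => hS.good.not_mem (h ▸ (PPO C W K).zero_mem)
    have htrf : Matrix.trace (f : Matrix (X × X) (X × X) K) = M := by
      have h2 := hS.deg
      rw [tauP_apply, hX, ← mul_assoc, mul_inv_cancel₀ hp0, one_mul] at h2
      exact h2
    have hM0 : M ≠ 0 := by
      rintro rfl
      have h2 := hS.degmod
      have h3 : (p : ℤ) ∣ s := by
        have := h2.dvd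
        simpa using this
      have h4 : (p : ℤ) ∣ 1 := by
        rcases hS.sign with h | h
        · rwa [h] at h3
        · rw [h] at h3
          exact (dvd_neg.1 h3)
      have h5 := Int.le_of_dvd one_pos h4
      omega
    refine ⟨f, s, M, hS.vtx, hDf.div, hr, hS.deg, hS.sign, hS.degmod, ?_, ?_⟩
    · exact Sec8.odd_of_rational C K (by rw [hX]; exact hp) (by rw [hX]; exact hpo)
        hS.good.idem (exists_smul hS.good.idem hf0 hr) hS.vtx htrf hM0
    · intro hM1'
      have hs1 : s = 1 := by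
        rcases hS.sign with h | h
        · exact h
        · exfalso
          have h2 := hS.degmod
          rw [hM1', h] at h2
          have h3 := h2.dvd
          have h4 : (p : ℤ) ∣ 2 := by
            have : ((-1 : ℤ) - ((1 : ℕ) : ℤ)) = -2 := by norm_num
            rw [this] at h3
            exact (dvd_neg.1 h3)
          have h5 := Int.le_of_dvd (by norm_num) h4
          omega
      have hle : Module.finrank K (crn K (1 : ↥(C.PP K)) f) ≤ k := by
        refine Sec8.finrank_le_of_rank_one C K hS.good.idem ?_ hY.rank2 x₀ ?_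
        · rw [htrf, hM1', Nat.cast_one]
        · intro T
          rw [oc_diag, ← hS.vtx.zf]
          calc dl C K 1 * T * (z * f) = (dl C K 1 * (T * z)) * f := by noncomm_ring
            _ = (dl C K 1 * (z * T)) * f := by rw [hS.vtx.central T]
            _ = ((dl C K 1 * z) * T) * f := by noncomm_ring
            _ = ((z * dl C K 1) * T) * f := by rw [hS.vtx.central]
            _ = 0 := by rw [hzD, zero_mul, zero_mul]
      have h2 : (k : ℤ) * (Module.finrank K (crn K (b i1) f) + s) ≤ k := by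
        rw [← hdim]
        exact_mod_cast hle
      rw [hs1] at h2
      have hkpos : (0 : ℤ) < k := by exact_mod_cast (by omega : 0 < k)
      have h3 : (Module.finrank K (crn K (b i1) f) : ℤ) + 1 ≤ 1 := by
        by_contra hcon
        push Not at hcon
        nlinarith
      have h4 : (Module.finrank K (crn K (b i1) f) : ℤ) ≤ 0 := by linarith
      have h5 : Module.finrank K (crn K (b i1) f) ≤ 0 := by exact_mod_cast h4
      exact Nat.le_zero.1 h5
  -- the part outside the block
  have heD : (1 - eV) * dl C K 1 = 0 := by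
    rw [sub_mul, one_mul, ← hDe, heVc, hDeV, sub_self]
  obtain ⟨κ, hκp, hκ⟩ := hDD (1 - eV) ((PPO C W K).sub_mem (PPO C W K).one_mem heV)
    (by rw [mul_sub, mul_one, sub_mul, one_mul, heVi, sub_self, sub_zero])
    (by intro x; rw [sub_mul, mul_sub, one_mul, mul_one, heVc]) heD
  have hcd : c₀ = d := sec9_count (τ := tauP C K) H.comm hnd hp3 hpo hk2 hY.kd (hbi i1) hsum
    hz0 hz1 hz01 hV0 hV1 hD0.div hD1.div (finrank_ne_zero hG0.idem hf00) (htriv i1 hi1) hr1 hM1
    hb1 hoth (hC i1) (hκ i1) hκp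
  intro i
  rw [← hcd, ← hDe]
  exact hc₀ i

/-- `dim szSub = k² d` -/
theorem finrank_szSub (hB : Base p W K F) (hX : Fintype.card X = p)
    (hY : YData C p W K k d y ζ0) {ω : K} (hω : IsPrimitiveRoot ω k)
    (hd : ∀ i, Module.finrank K (crn K (bfam hY ω i) (dl C K 1)) = k * d) :
    Module.finrank K (szSub C K (dlt C K)) = k ^ 2 * d := by
  have : CharZero K := hB.charZero
  have hp0 : (p : K) ≠ 0 := Nat.cast_ne_zero.2 hB.prime.ne_zero
  have hX0 : (Fintype.card X : K) ≠ 0 := by rw [hX]; exact hp0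
  have h1 : szSub C K (dlt C K) = crn K (EP C K) (dl C K 1) := by
    ext T
    rw [mem_szSub, mem_crn, dlt_eq]
    have key : EP C K * T = T ↔ (t1 (JJ X K) * (T : Matrix (X × X) (X × X) K) = 0 ∧
        t2 (JJ X K) * (T : Matrix (X × X) (X × X) K) = 0) := by
      constructor
      · intro h
        have h2 : E2 X K * (T : Matrix (X × X) (X × X) K) = T := congrArg Subtype.val h
        rw [← h2]
        constructor
        · rw [← mul_assoc, E2, ← mul_assoc, ← t1_mul, JJ_mul_EE hX0, t1_zero, zero_mul, zero_mul]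
        · rw [← mul_assoc, E2, ← mul_assoc, ← t1_t2, mul_assoc (t1 (EE X K)), ← t2_mul,
            JJ_mul_EE hX0, t2_zero, mul_zero, zero_mul]
      · rintro ⟨h2, h3⟩
        apply Subtype.ext
        change t1 (EE X K) * t2 (EE X K) * (T : Matrix (X × X) (X × X) K) = T
        have e1 : t1 (EE X K) * (T : Matrix (X × X) (X × X) K) = T := by
          rw [EE, t1_sub, t1_one, t1_smul, sub_mul, one_mul, Matrix.smul_mul, h2, smul_zero,
            sub_zero]
        have e2 : t2 (EE X K) * (T : Matrix (X × X) (X × X) K) = T := by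
          rw [EE, t2_sub, t2_one, t2_smul, sub_mul, one_mul, Matrix.smul_mul, h3, smul_zero,
            sub_zero]
        rw [mul_assoc, e2, e1]
    rw [key]
    tauto
  rw [h1, finrank_crn_sum (bfam_idem hB hX hY hω) (bfam_orth hB hX hY hω)
    (bfam_sum hB hX hY hω), Finset.sum_congr rfl (fun i _ => hd i), Finset.sum_const,
    Finset.card_univ, Fintype.card_fin, smul_eq_mul]
  ring

end

end Asm

end PDeg
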