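import Pool.Agent.Lib.MP_369ee2_lc_PD.Alg

/-!
# Witt vectors give base rings (row B1)
-/

namespace PDeg

namespace WB

/-- the Witt vectors have characteristic zero -/
theorem natCast_eq_zero (p : ℕ) [hp : Fact p.Prime] (F : Type) [Field F] [CharP F p]
    [PerfectRing F p] (n : ℕ) (hn : (n : WittVector p F) = 0) : n = 0 := by
  by_contra hne
  obtain ⟨a, m, hm, hnm⟩ := Nat.exists_eq_pow_mul_and_not_dvd hne p hp.out.ne_one
  have hp0 : (p : WittVector p F) ≠ 0 := (WittVector.irreducible p).ne_zero
  rw [hnm] at hn
  push_cast at hn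
  have hm0 : (m : WittVector p F) = 0 := by
    rcases mul_eq_zero.mp hn with h | h
    · exact absurd h (pow_ne_zero _ hp0)
    · exact h
  have h2 : (m : F) = 0 := by
    have h3 := congrArg (WittVector.constantCoeff (p := p) (R := F)) hm0
    rwa [map_natCast, map_zero] at h3
  exact hm ((CharP.cast_eq_zero_iff F p m).mp h2)

end WB

/-- base rings exist for every prime -/
theorem exists_base (p : ℕ) (hp : p.Prime) :
    ∃ (W K F : Type) (_ : CommRing W) (_ : IsDomain W) (_ : Field K) (_ : Algebra W K)
      (_ : IsFractionRing W K) (_ : Field F) (_ : Algebra W F), Base p W K F := by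
  haveI : Fact p.Prime := ⟨hp⟩
  haveI : CharP (AlgebraicClosure (ZMod p)) p :=
    charP_of_injective_algebraMap (algebraMap (ZMod p) (AlgebraicClosure (ZMod p))).injective p
  let F := AlgebraicClosure (ZMod p)
  haveI : PerfectRing F p := inferInstance
  let W := WittVector p F
  letI : Algebra W F := (WittVector.constantCoeff (p := p) (R := F)).toAlgebra
  have hmap : ∀ w : W, algebraMap W F w = w.coeff 0 := fun w => rfl
  refine ⟨W, FractionRing W, F, inferInstance, inferInstance, inferInstance, inferInstance,
    inferInstance, inferInstance, inferInstance, ?_⟩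
  refine
    { prime := hp
      dvr := inferInstance
      charZero := ?_
      algClosed := inferInstance
      surj := ?_
      ker := ?_
      complete := inferInstance
      teich := ?_ }
  · haveI : CharZero W := by
      refine ⟨?_⟩
      intro a b hab
      wlog h : a ≤ b generalizing a b with H
      · exact (H hab.symm (le_of_not_ge h)).symm
      have h1 : ((b - a : ℕ) : W) = 0 := by
        rw [Nat.cast_sub h]
        exact sub_eq_zero.mpr hab.symm
      have h2 := WB.natCast_eq_zero p F _ h1
      omega
    exact charZero_of_injective_algebraMap (IsFractionRing.injective W (FractionRing W))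
  · intro a
    exact ⟨WittVector.teichmuller p a, by rw [hmap]; exact WittVector.teichmuller_coeff_zero p a⟩
  · intro w
    rw [hmap, ← WittVector.mem_span_p_iff_coeff_zero_eq_zero, Ideal.mem_span_singleton]
  · exact ⟨WittVector.teichmuller p, fun a => by
      rw [hmap]; exact WittVector.teichmuller_coeff_zero p a⟩

section
variable {p : ℕ} {W K F : Type} [CommRing W] [IsDomain W] [Field K] [Algebra W K]
  [IsFractionRing W K] [Field F] [Algebra W F]

theorem Base.charP (hB : Base p W K F) : CharP F p := by
  have h0 : (p : F) = 0 := by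
    have h1 := (hB.ker (p : W)).mpr dvd_rfl
    rwa [map_natCast] at h1
  have : Fact p.Prime := ⟨hB.prime⟩
  exact (CharP.charP_iff_prime_eq_zero hB.prime).mpr h0

/-- primitive `k`-th roots of unity in `W`, `k ∣ p - 1` -/
theorem Base.exists_primitive (hB : Base p W K F) (k : ℕ) (hk : k ∣ p - 1) (hk0 : 1 ≤ k) :
    ∃ ζ : W, IsPrimitiveRoot ζ k ∧ IsPrimitiveRoot (algebraMap W F ζ) k := by
  haveI := hB.charP
  haveI := hB.algClosed
  have : Fact p.Prime := ⟨hB.prime⟩
  haveI : NeZero k := ⟨by omega⟩
  have hpk : ¬ p ∣ k := by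
    intro h
    have h1 := Nat.le_of_dvd (by have := hB.prime.two_le; omega) (h.trans hk)
    have := hB.prime.two_le
    omega
  haveI : NeZero (k : F) := ⟨fun h => hpk ((CharP.cast_eq_zero_iff F p k).mp h)⟩
  obtain ⟨z, hz⟩ := HasEnoughRootsOfUnity.exists_primitiveRoot F k
  obtain ⟨t, ht⟩ := hB.teich
  have htinj : Function.Injective t := by
    intro a b hab
    rw [← ht a, ← ht b, hab]
  refine ⟨t z, hz.map_of_injective htinj, ?_⟩
  rw [ht]
  exact hz

/-- a natural number divisible by `p` in `W` is divisible by `p` -/
theorem Base.dvd_of_int (hB : Base p W K F) (n : ℕ) (x : K) (hx : IsInt W x)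
    (h : (n : K) = (p : K) * x) : p ∣ n := by
  obtain ⟨w, hw⟩ := hx
  have h1 : algebraMap W K (n : W) = algebraMap W K ((p : W) * w) := by
    rw [map_mul, map_natCast, map_natCast, hw, h]
  have h2 : (n : W) = (p : W) * w := IsFractionRing.injective W K h1
  have h3 := (hB.ker (n : W)).mpr ⟨w, h2⟩
  rw [map_natCast] at h3
  haveI := hB.charP
  exact (CharP.cast_eq_zero_iff F p n).mp h3

end

end PDeg
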