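import Pool.Agent.Lib.MP_369ee2_lc_PD.Alg

/-!
# Lemma T (row A4): `dim (f A f) * tr (b z) = tr f * dim (b A f)`
-/

namespace PDeg

open scoped BigOperators

section
variable {K : Type} [Field K] {A : Type} [Ring A] [Algebra K A] [FiniteDimensional K A]

theorem Eqv.finrank {f g : A} (h : Eqv f g) (b : A) :
    Module.finrank K (crn K b f) = Module.finrank K (crn K b g) := by
  obtain ⟨a, c, h1, h2, h3, h4, h5, h6⟩ := h
  refine LinearEquiv.finrank_eq
    { toFun := fun x => ⟨x.1 * a, by rw [← mul_assoc, x.2.1], by rw [mul_assoc, h2]⟩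
      invFun := fun x => ⟨x.1 * c, by rw [← mul_assoc, x.2.1], by rw [mul_assoc, h4]⟩
      map_add' := fun x y => Subtype.ext (by simp [add_mul])
      map_smul' := fun t x => Subtype.ext (by simp)
      left_inv := fun x => Subtype.ext (by
        change x.1 * a * c = x.1
        rw [mul_assoc, h5, x.2.2])
      right_inv := fun x => Subtype.ext (by
        change x.1 * c * a = x.1
        rw [mul_assoc, h6, x.2.2]) }

theorem Eqv.tau {τ : A →ₗ[K] K} (hcomm : ∀ x y : A, τ (x * y) = τ (y * x)) {f g : A}
    (h : Eqv f g) : τ f = τ g := by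
  obtain ⟨a, c, h1, h2, h3, h4, h5, h6⟩ := h
  rw [← h5, ← h6, hcomm]

theorem Eqv.divC {f g : A} (h : Eqv f g) (hf : DivC f) : DivC g := by
  obtain ⟨a, c, h1, h2, h3, h4, h5, h6⟩ := h
  obtain ⟨f1, f2, f3⟩ := hf
  refine ⟨?_, ?_, ?_⟩
  · calc g * g = g * (c * a) := by rw [h6]
      _ = g := by rw [← mul_assoc, h3, h6]
  · rintro rfl
    apply f2
    rw [← h5, ← h2, mul_zero, zero_mul]
  · intro x hx hx' hx0
    have e1 : c * (a * x * c) * a = x := by
      calc c * (a * x * c) * a = (c * a) * x * (c * a) := by simp only [mul_assoc]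
        _ = x := by rw [h6, hx, hx']
    obtain ⟨y, y1, y2, y3, y4⟩ := f3 (a * x * c)
      (by rw [← mul_assoc, ← mul_assoc, h1]) (by rw [mul_assoc, h4]) (by
        intro h0
        apply hx0
        rw [← e1, h0, mul_zero, zero_mul])
    refine ⟨c * y * a, ?_, ?_, ?_, ?_⟩
    · rw [← mul_assoc, ← mul_assoc, h3]
    · rw [mul_assoc, h2]
    · calc x * (c * y * a) = c * (a * x * c) * a * (c * y * a) := by rw [e1]
        _ = c * ((a * x * c) * (a * c) * y) * a := by simp only [mul_assoc]
        _ = g := by
          rw [h5, mul_assoc (a * x * c), y1, y3, h4, h6]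
    · calc c * y * a * x = c * y * a * (c * (a * x * c) * a) := by rw [e1]
        _ = c * (y * (a * c) * (a * x * c)) * a := by simp only [mul_assoc]
        _ = g := by
          rw [h5, y2, y4, h4, h6]

/-- additivity of `dim (b A -)` -/
theorem finrank_crn_add {f g : A} (hf : f * f = f) (hg : g * g = g) (hfg : f * g = 0)
    (hgf : g * f = 0) (b : A) :
    Module.finrank K (crn K b (f + g)) =
      Module.finrank K (crn K b f) + Module.finrank K (crn K b g) := by
  rw [← Module.finrank_prod]
  refine LinearEquiv.finrank_eq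
    { toFun := fun x => (⟨x.1 * f, by rw [← mul_assoc, x.2.1], by rw [mul_assoc, hf]⟩,
        ⟨x.1 * g, by rw [← mul_assoc, x.2.1], by rw [mul_assoc, hg]⟩)
      invFun := fun x => ⟨x.1.1 + x.2.1, by rw [mul_add, x.1.2.1, x.2.2.1], by
        have e1 : x.1.1 * g = 0 := by rw [← x.1.2.2, mul_assoc, hfg, mul_zero]
        have e2 : x.2.1 * f = 0 := by rw [← x.2.2.2, mul_assoc, hgf, mul_zero]
        rw [mul_add, add_mul, add_mul, x.1.2.2, x.2.2.2, e1, e2, add_zero, zero_add]⟩
      map_add' := fun x y => by
        ext <;> simp [add_mul]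
      map_smul' := fun t x => by
        ext <;> simp
      left_inv := fun x => Subtype.ext (by
        change x.1 * f + x.1 * g = x.1
        rw [← mul_add, x.2.2])
      right_inv := fun x => by
        have e1 : x.1.1 * g = 0 := by rw [← x.1.2.2, mul_assoc, hfg, mul_zero]
        have e2 : x.2.1 * f = 0 := by rw [← x.2.2.2, mul_assoc, hgf, mul_zero]
        refine Prod.ext (Subtype.ext ?_) (Subtype.ext ?_)
        · change (x.1.1 + x.2.1) * f = x.1.1
          rw [add_mul, x.1.2.2, e2, add_zero]
        · change (x.1.1 + x.2.1) * g = x.2.1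
          rw [add_mul, x.2.2.2, e1, zero_add] }

/-- `v f A f` has the dimension of `f A f` -/
private theorem finrank_map_mulLeft {f b v : A} (hf : DivC f) (hv : v ∈ crn K b f)
    (hv0 : v ≠ 0) :
    Module.finrank K ((crn K f f).map (LinearMap.mulLeft K v)) =
      Module.finrank K (crn K f f) := by
  have h1 : Function.Injective ((LinearMap.mulLeft K v).domRestrict (crn K f f)) := by
    rw [injective_iff_map_eq_zero]
    intro d hd
    have hd' : v * d.1 = 0 := hd
    by_contra h0
    obtain ⟨y, y1, y2, y3, y4⟩ := hf.2.2 d.1 d.2.1 d.2.2 (fun h => h0 (Subtype.ext h))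
    apply hv0
    rw [← hv.2, ← y3, ← mul_assoc, hd', zero_mul]
  have h2 := LinearMap.finrank_range_of_inj h1
  rwa [LinearMap.range_domRestrict] at h2

private theorem finrank_dvd_aux {f b : A} (hf : DivC f) (n : ℕ) :
    ∀ U : Submodule K A, U ≤ crn K b f → (∀ u ∈ U, ∀ d ∈ crn K f f, u * d ∈ U) →
      Module.finrank K (crn K f f) ∣ Module.finrank K U →
      Module.finrank K (crn K b f) ≤ Module.finrank K U + n →
      Module.finrank K (crn K f f) ∣ Module.finrank K (crn K b f) := by
  induction n with
  | zero =>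
    intro U hU hs hd hn
    have h1 := Submodule.finrank_mono hU
    rwa [le_antisymm h1 (by simpa using hn)] at hd
  | succ n ih =>
    intro U hU hs hd hn
    by_cases hUV : crn K b f ≤ U
    · rwa [le_antisymm hU hUV] at hd
    · obtain ⟨v, hv, hvU⟩ := SetLike.not_le_iff_exists.mp hUV
      have hv0 : v ≠ 0 := by
        rintro rfl
        exact hvU U.zero_mem
      set D := (crn K f f).map (LinearMap.mulLeft K v) with hD
      have hDle : D ≤ crn K b f := by
        rintro _ ⟨d, hd', rfl⟩
        exact ⟨by rw [LinearMap.mulLeft_apply, ← mul_assoc, hv.1],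
          by rw [LinearMap.mulLeft_apply, mul_assoc, hd'.2]⟩
      have hinf : U ⊓ D = ⊥ := by
        rw [eq_bot_iff]
        rintro _ ⟨hu, ⟨d, hd', rfl⟩⟩
        rw [Submodule.mem_bot]
        by_contra h0
        have hd0 : d ≠ 0 := by
          rintro rfl
          exact h0 (map_zero _)
        obtain ⟨y, y1, y2, y3, y4⟩ := hf.2.2 d hd'.1 hd'.2 hd0
        apply hvU
        have h3 := hs _ hu y ⟨y1, y2⟩
        rw [LinearMap.mulLeft_apply, mul_assoc, y3, hv.2] at h3
        exact h3
      have hfr : Module.finrank K (U ⊔ D : Submodule K A) =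
          Module.finrank K U + Module.finrank K (crn K f f) := by
        have h4 := Submodule.finrank_sup_add_finrank_inf_eq U D
        rw [hinf, finrank_bot, add_zero, finrank_map_mulLeft hf hv hv0] at h4
        exact h4
      have hpos : 0 < Module.finrank K (crn K f f) := by
        rw [Module.finrank_pos_iff]
        exact ⟨⟨f, hf.1, hf.1⟩, 0, fun h => hf.2.1 (congrArg Subtype.val h)⟩
      refine ih (U ⊔ D) (sup_le hU hDle) ?_ ?_ ?_
      · intro u hu d hd'
        obtain ⟨u1, hu1, u2, hu2, rfl⟩ := Submodule.mem_sup.mp hu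
        rw [add_mul]
        refine Submodule.add_mem_sup (hs _ hu1 _ hd') ?_
        obtain ⟨d2, hd2, rfl⟩ := hu2
        refine ⟨d2 * d, ⟨by rw [← mul_assoc, hd2.1], by rw [mul_assoc, hd'.2]⟩, ?_⟩
        simp only [LinearMap.mulLeft_apply, mul_assoc]
      · rw [hfr]
        exact dvd_add hd dvd_rfl
      · rw [hfr]
        omega

/-- the dimension over the division ring divides -/
theorem finrank_dvd {f b : A} (hb : b * b = b) (hf : DivC f) :
    Module.finrank K (crn K f f) ∣ Module.finrank K (crn K b f) := by
  refine finrank_dvd_aux hf (Module.finrank K (crn K b f)) ⊥ bot_le ?_ ?_ ?_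
  · intro u hu d _
    rw [Submodule.mem_bot] at hu ⊢
    rw [hu, zero_mul]
  · rw [finrank_bot]
    exact dvd_zero _
  · simp

/-- additivity of `dim (- A f)` -/
private theorem finrank_crn_add_left {g c : A} (hg : g * g = g) (hc : c * c = c)
    (hgc : g * c = 0) (hcg : c * g = 0) (f : A) :
    Module.finrank K (crn K (g + c) f) =
      Module.finrank K (crn K g f) + Module.finrank K (crn K c f) := by
  rw [← Module.finrank_prod]
  refine LinearEquiv.finrank_eq
    { toFun := fun x => (⟨g * x.1, by rw [← mul_assoc, hg], by rw [mul_assoc, x.2.2]⟩,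
        ⟨c * x.1, by rw [← mul_assoc, hc], by rw [mul_assoc, x.2.2]⟩)
      invFun := fun x => ⟨x.1.1 + x.2.1, by
        have e1 : c * x.1.1 = 0 := by rw [← x.1.2.1, ← mul_assoc, hcg, zero_mul]
        have e2 : g * x.2.1 = 0 := by rw [← x.2.2.1, ← mul_assoc, hgc, zero_mul]
        rw [add_mul, mul_add, mul_add, x.1.2.1, x.2.2.1, e1, e2, add_zero, zero_add],
        by rw [add_mul, x.1.2.2, x.2.2.2]⟩
      map_add' := fun x y => by
        ext <;> simp [mul_add]
      map_smul' := fun t x => by
        ext <;> simp
      left_inv := fun x => Subtype.ext (by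
        change g * x.1 + c * x.1 = x.1
        rw [← add_mul, x.2.1])
      right_inv := fun x => by
        have e1 : c * x.1.1 = 0 := by rw [← x.1.2.1, ← mul_assoc, hcg, zero_mul]
        have e2 : g * x.2.1 = 0 := by rw [← x.2.2.1, ← mul_assoc, hgc, zero_mul]
        refine Prod.ext (Subtype.ext ?_) (Subtype.ext ?_)
        · change g * (x.1.1 + x.2.1) = x.1.1
          rw [mul_add, x.1.2.1, e2, add_zero]
        · change c * (x.1.1 + x.2.1) = x.2.1
          rw [mul_add, x.2.2.1, e1, zero_add] }

private theorem lemmaT_aux {τ : A →ₗ[K] K} (hcomm : ∀ x y : A, τ (x * y) = τ (y * x))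
    (hnd : ∀ x : A, (∀ y : A, τ (x * y) = 0) → x = 0) {z f : A} (hV : Vtx z f) (hf : DivC f)
    (n : ℕ) : ∀ b : A, b * b = b → Module.finrank K (crn K b f) ≤ n →
    (Module.finrank K (crn K f f) : K) * τ (b * z) = τ f * Module.finrank K (crn K b f) := by
  have hbot : ∀ b : A, b * b = b → crn K b f = ⊥ →
      (Module.finrank K (crn K f f) : K) * τ (b * z) =
        τ f * Module.finrank K (crn K b f) := by
    intro b hb h0
    obtain ⟨m, x, y, hz⟩ := hV.span
    have h1 : b * z = 0 := by
      rw [hz, Finset.mul_sum]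
      refine Finset.sum_eq_zero fun i _ => ?_
      have h2 : b * (x i * f) ∈ crn K b f :=
        ⟨by rw [← mul_assoc, hb], by rw [mul_assoc, mul_assoc, hf.1]⟩
      rw [h0, Submodule.mem_bot] at h2
      rw [← mul_assoc, h2, zero_mul]
    rw [h1, map_zero, h0, finrank_bot]
    simp
  induction n with
  | zero =>
    intro b hb hn
    exact hbot b hb (Submodule.finrank_eq_zero.mp (Nat.le_zero.mp hn))
  | succ n ih =>
    intro b hb hn
    by_cases h0 : crn K b f = ⊥
    · exact hbot b hb h0
    · obtain ⟨α, hα, hα0⟩ := Submodule.exists_mem_ne_zero_of_ne_bot h0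
      obtain ⟨c, hc⟩ : ∃ c, τ (α * c) ≠ 0 := by
        by_contra hcon
        exact hα0 (hnd α fun y => by
          by_contra hy
          exact hcon ⟨y, hy⟩)
      have h1 : τ (f * c * b * α) ≠ 0 := by
        rw [mul_assoc, hα.1, mul_assoc, hcomm, mul_assoc, hα.2, hcomm]
        exact hc
      obtain ⟨y, y1, y2, y3, y4⟩ := hf.2.2 (f * c * b * α)
        (by simp only [← mul_assoc]; rw [hf.1])
        (by rw [mul_assoc, hα.2]) (fun h => h1 (by rw [h, map_zero]))
      set l := y * (f * c * b) with hl
      have l1 : l * α = f := by rw [hl, mul_assoc, y4]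
      have l2 : f * l = l := by rw [hl, ← mul_assoc, y1]
      have l3 : l * b = l := by rw [hl, mul_assoc, mul_assoc (f * c), hb]
      have g1 : α * l * (α * l) = α * l := by
        rw [mul_assoc, ← mul_assoc l, l1, l2]
      have g2 : b * (α * l) = α * l := by rw [← mul_assoc, hα.1]
      have g3 : α * l * b = α * l := by rw [mul_assoc, l3]
      set g := α * l with hg
      have c1 : (b - g) * (b - g) = b - g := by
        rw [mul_sub, sub_mul, sub_mul, hb, g2, g3, g1]
        abel
      have c2 : g * (b - g) = 0 := by rw [mul_sub, g3, g1, sub_self]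
      have c3 : (b - g) * g = 0 := by rw [sub_mul, g2, g1, sub_self]
      have d1 : Module.finrank K (crn K b f) =
          Module.finrank K (crn K g f) + Module.finrank K (crn K (b - g) f) := by
        have := finrank_crn_add_left (K := K) g1 c1 c2 c3 f
        rwa [add_sub_cancel] at this
      have d2 : Module.finrank K (crn K g f) = Module.finrank K (crn K f f) := by
        refine LinearEquiv.finrank_eq
          { toFun := fun x => ⟨l * x.1, by rw [← mul_assoc, l2], by rw [mul_assoc, x.2.2]⟩
            invFun := fun x => ⟨α * x.1, by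
              rw [hg, mul_assoc, ← mul_assoc l, l1, x.2.1], by rw [mul_assoc, x.2.2]⟩
            map_add' := fun x y => Subtype.ext (by simp [mul_add])
            map_smul' := fun t x => Subtype.ext (by simp)
            left_inv := fun x => Subtype.ext (by
              change α * (l * x.1) = x.1
              rw [← mul_assoc, ← hg, x.2.1])
            right_inv := fun x => Subtype.ext (by
              change l * (α * x.1) = x.1
              rw [← mul_assoc, l1, x.2.1]) }
      have hpos : 0 < Module.finrank K (crn K f f) := by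
        rw [Module.finrank_pos_iff]
        exact ⟨⟨f, hf.1, hf.1⟩, 0, fun h => hf.2.1 (congrArg Subtype.val h)⟩
      have h2 := ih (b - g) c1 (by omega)
      have h3 : g * z = g := by
        rw [← hV.central, hg, ← mul_assoc, hV.central α, mul_assoc]
        congr 1
        rw [← l2, ← mul_assoc, hV.zf]
      have h4 : τ g = τ f := by rw [hg, hcomm, l1]
      rw [sub_mul, map_sub, h3, h4, mul_sub] at h2
      rw [d1, d2]
      push_cast
      linear_combination h2

theorem lemmaT {τ : A →ₗ[K] K} (hcomm : ∀ x y : A, τ (x * y) = τ (y * x))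
    (hnd : ∀ x : A, (∀ y : A, τ (x * y) = 0) → x = 0) {z f b : A} (hV : Vtx z f) (hf : DivC f)
    (hb : b * b = b) :
    (Module.finrank K (crn K f f) : K) * τ (b * z) = τ f * Module.finrank K (crn K b f) :=
  lemmaT_aux hcomm hnd hV hf _ b hb le_rfl

end

end PDeg
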