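import Pool.Agent.Lib.MP_369ee2_lc_PD.Ord
import Pool.Agent.Lib.MP_369ee2_lc_PD.LemmaT

/-!
# Section 7: dimension count at the vertices away from the diagonal
-/

namespace PDeg

open scoped BigOperators Matrix

section
variable {K A : Type} [Field K] [Ring A] [Algebra K A]

/-- decomposition of `1 A f` along orthogonal idempotents on the left -/
noncomputable def crnPi {ι : Type} [Fintype ι] [DecidableEq ι] {b : ι → A}
    (hb : ∀ i, b i * b i = b i) (hbb : ∀ i j, i ≠ j → b i * b j = 0) {f : A}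
    (hsum : ∀ x : A, x * f = x → (∑ i, b i) * x = x) :
    crn K 1 f ≃ₗ[K] ((i : ι) → crn K (b i) f) where
  toFun x i := ⟨b i * x, by
    refine ⟨?_, ?_⟩
    · rw [← mul_assoc, hb]
    · rw [mul_assoc, (mem_crn.1 x.2).2]⟩
  map_add' x y := by
    ext i
    exact mul_add _ _ _
  map_smul' c x := by
    ext i
    exact mul_smul_comm _ _ _
  invFun v := ⟨∑ i, (v i : A), by
    refine ⟨one_mul _, ?_⟩
    rw [Finset.sum_mul]
    exact Finset.sum_congr rfl (fun i _ => (mem_crn.1 (v i).2).2)⟩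
  left_inv x := by
    apply Subtype.ext
    change ∑ i, b i * (x : A) = x
    rw [← Finset.sum_mul]
    exact hsum _ (mem_crn.1 x.2).2
  right_inv v := by
    funext i
    apply Subtype.ext
    change b i * (∑ j, (v j : A)) = v i
    rw [Finset.mul_sum, Finset.sum_eq_single i]
    · exact (mem_crn.1 (v i).2).1
    · intro j _ hj
      rw [← (mem_crn.1 (v j).2).1, ← mul_assoc, hbb i j (Ne.symm hj), zero_mul]
    · intro h
      exact absurd (Finset.mem_univ i) h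

theorem finrank_crn_one [FiniteDimensional K A] {ι : Type} [Fintype ι] [DecidableEq ι] {b : ι → A}
    (hb : ∀ i, b i * b i = b i) (hbb : ∀ i j, i ≠ j → b i * b j = 0) {f : A}
    (hsum : ∀ x : A, x * f = x → (∑ i, b i) * x = x) :
    Module.finrank K (crn K 1 f) = ∑ i, Module.finrank K (crn K (b i) f) := by
  rw [(crnPi (K := K) hb hbb hsum).finrank_eq]
  exact Module.finrank_pi_fintype K

/-- the count of section 7: ramification one -/
theorem sec7_count [FiniteDimensional K A] {ι : Type} [Fintype ι] [DecidableEq ι] {b : ι → A}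
    (hb : ∀ i, b i * b i = b i) (hbb : ∀ i j, i ≠ j → b i * b j = 0) {f z : A}
    (hz : ∀ x : A, z * x = x * z) (hzf : z * f = f) (hsum : (∑ i, b i) * z = z)
    {i0 i1 : ι} (h01 : i1 ≠ i0) {k kf : ℕ} (hk : Fintype.card ι = k) {s : ℤ}
    (hs : s = 1 ∨ s = -1)
    (hdiff : ∀ i, i ≠ i0 → (Module.finrank K (crn K (b i0) f) : ℤ) -
      Module.finrank K (crn K (b i) f) = s * k)
    (hf : DivC f) (hkf : Module.finrank K (crn K f f) = kf)
    (hH : ∃ h : ℕ, Module.finrank K (crn K 1 f) = kf * (k * h)) :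
    kf = 1 ∧ (Module.finrank K (crn K 1 f) : ℤ) =
      k * (Module.finrank K (crn K (b i1) f) + s) := by
  have hkpos : 0 < k := by
    rw [← hk]
    exact Fintype.card_pos_iff.2 ⟨i0⟩
  have h1 : (Module.finrank K (crn K 1 f) : ℤ) =
      k * (Module.finrank K (crn K (b i1) f) + s) := by
    rw [finrank_crn_one (K := K) hb hbb (f := f) (fun x hx => by
      have : x = z * x := by
        calc x = x * f := hx.symm
          _ = x * (z * f) := by rw [hzf]
          _ = z * x := by rw [← mul_assoc, ← hz x, mul_assoc, hx]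
      rw [this, ← mul_assoc, hsum])]
    rw [← Finset.add_sum_erase _ _ (Finset.mem_univ i0)]
    have h2 : ∀ i ∈ Finset.univ.erase i0, Module.finrank K (crn K (b i) f) =
        Module.finrank K (crn K (b i1) f) := by
      intro i hi
      have a1 := hdiff i (Finset.ne_of_mem_erase hi)
      have a2 := hdiff i1 h01
      have : (Module.finrank K (crn K (b i) f) : ℤ) = Module.finrank K (crn K (b i1) f) := by
        linarith
      exact_mod_cast this
    rw [Finset.sum_congr rfl h2, Finset.sum_const, Finset.card_erase_of_mem (Finset.mem_univ i0),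
      Finset.card_univ, hk, smul_eq_mul]
    push_cast [Nat.cast_sub (Nat.one_le_iff_ne_zero.2 hkpos.ne')]
    have a2 := hdiff i1 h01
    linear_combination a2
  refine ⟨?_, h1⟩
  obtain ⟨h, hh⟩ := hH
  have h3 : ((kf : ℤ) * h) = Module.finrank K (crn K (b i1) f) + s := by
    have : (k : ℤ) * (kf * h) = k * (Module.finrank K (crn K (b i1) f) + s) := by
      rw [← h1, hh]
      push_cast
      ring
    exact mul_left_cancel₀ (by exact_mod_cast hkpos.ne') this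
  have h4 : (kf : ℤ) ∣ Module.finrank K (crn K (b i1) f) := by
    rw [← hkf]
    exact_mod_cast finrank_dvd (K := K) (hb i1) hf
  have h5 : (kf : ℤ) ∣ s := by
    have : s = kf * h - Module.finrank K (crn K (b i1) f) := by linarith
    rw [this]
    exact dvd_sub (dvd_mul_right _ _) h4
  have h6 : (kf : ℤ) ∣ 1 := by
    rcases hs with h | h
    · rwa [h] at h5
    · rw [h] at h5
      exact (dvd_neg.1 h5)
  exact_mod_cast Int.eq_one_of_dvd_one (by positivity) h6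

end

section
variable {X : Type} [Fintype X] [DecidableEq X] (C : Coh X) (R : Type) [CommRing R]

/-- the kronecker element `U` with `U δ = U` -/
def tU1 (X R : Type) [DecidableEq X] [CommRing R] : Matrix (X × X) (X × X) R :=
  Matrix.of (fun i j => if i.2 = j.1 ∧ j.1 = j.2 then 1 else 0)

def tU2 (X R : Type) [DecidableEq X] [CommRing R] : Matrix (X × X) (X × X) R :=
  Matrix.of (fun i j => if i.1 = j.1 ∧ j.1 = j.2 then 1 else 0)

theorem tU1_mem : tU1 X R ∈ C.PP R := by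
  intro x y h
  have h1 := C.pattern (by norm_num) _ _ h
  have h2 := C.pattern (by norm_num) _ _ ((C.equiv 4 (by norm_num)).symm h)
  have h3 : (x 1 = x 2 ∧ x 2 = x 3) ↔ (y 1 = y 2 ∧ y 2 = y 3) :=
    ⟨fun hh => ⟨h1 1 2 hh.1, h1 2 3 hh.2⟩, fun hh => ⟨h2 1 2 hh.1, h2 2 3 hh.2⟩⟩
  simp only [tU1, Matrix.of_apply, h3]

theorem tU2_mem : tU2 X R ∈ C.PP R := by
  intro x y h
  have h1 := C.pattern (by norm_num) _ _ h
  have h2 := C.pattern (by norm_num) _ _ ((C.equiv 4 (by norm_num)).symm h)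
  have h3 : (x 0 = x 2 ∧ x 2 = x 3) ↔ (y 0 = y 2 ∧ y 2 = y 3) :=
    ⟨fun hh => ⟨h1 0 2 hh.1, h1 2 3 hh.2⟩, fun hh => ⟨h2 0 2 hh.1, h2 2 3 hh.2⟩⟩
  simp only [tU2, Matrix.of_apply, h3]

/-- the transposes -/
theorem tU1T_mem : (tU1 X R)ᵀ ∈ C.PP R := by
  intro x y h
  have h1 := C.pattern (by norm_num) _ _ h
  have h2 := C.pattern (by norm_num) _ _ ((C.equiv 4 (by norm_num)).symm h)
  have h3 : (x 3 = x 0 ∧ x 0 = x 1) ↔ (y 3 = y 0 ∧ y 0 = y 1) :=
    ⟨fun hh => ⟨h1 3 0 hh.1, h1 0 1 hh.2⟩, fun hh => ⟨h2 3 0 hh.1, h2 0 1 hh.2⟩⟩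
  simp only [tU1, Matrix.transpose_apply, Matrix.of_apply, h3]

theorem tU2T_mem : (tU2 X R)ᵀ ∈ C.PP R := by
  intro x y h
  have h1 := C.pattern (by norm_num) _ _ h
  have h2 := C.pattern (by norm_num) _ _ ((C.equiv 4 (by norm_num)).symm h)
  have h3 : (x 2 = x 0 ∧ x 0 = x 1) ↔ (y 2 = y 0 ∧ y 0 = y 1) :=
    ⟨fun hh => ⟨h1 2 0 hh.1, h1 0 1 hh.2⟩, fun hh => ⟨h2 2 0 hh.1, h2 0 1 hh.2⟩⟩
  simp only [tU2, Matrix.transpose_apply, Matrix.of_apply, h3]

theorem tδ_one_mul_tU1T : tδ (1 : Matrix X X R) * (tU1 X R)ᵀ = (tU1 X R)ᵀ := by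
  ext ⟨a, b⟩ ⟨c, d⟩
  rw [Matrix.mul_apply, Fintype.sum_prod_type]
  by_cases h : a = b
  · subst h
    rw [Finset.sum_eq_single a, Finset.sum_eq_single a]
    · simp [tδ, tU1]
    · intro j _ hj
      simp [tδ, Ne.symm hj]
    · simp
    · intro j _ hj
      refine Finset.sum_eq_zero (fun l _ => ?_)
      simp [tδ, Matrix.one_apply, Ne.symm hj]
    · simp
  · simp [tδ, tU1, h]

theorem tδ_one_mul_tU2T : tδ (1 : Matrix X X R) * (tU2 X R)ᵀ = (tU2 X R)ᵀ := by
  ext ⟨a, b⟩ ⟨c, d⟩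
  rw [Matrix.mul_apply, Fintype.sum_prod_type]
  by_cases h : a = b
  · subst h
    rw [Finset.sum_eq_single a, Finset.sum_eq_single a]
    · simp [tδ, tU2]
    · intro j _ hj
      simp [tδ, Ne.symm hj]
    · simp
    · intro j _ hj
      refine Finset.sum_eq_zero (fun l _ => ?_)
      simp [tδ, Matrix.one_apply, Ne.symm hj]
    · simp
  · simp [tδ, tU2, h]

theorem tU1_mul : tU1 X R * (tU1 X R)ᵀ = t1 (JJ X R) := by
  ext ⟨a, b⟩ ⟨c, d⟩
  rw [Matrix.mul_apply, Fintype.sum_prod_type, Finset.sum_eq_single b, Finset.sum_eq_single b]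
  · simp [tU1, t1_apply, JJ, eq_comm]
  · intro j _ hj
    simp [tU1, Ne.symm hj]
  · simp
  · intro j _ hj
    refine Finset.sum_eq_zero (fun l _ => ?_)
    simp [tU1, Ne.symm hj]
  · simp

theorem tU2_mul : tU2 X R * (tU2 X R)ᵀ = t2 (JJ X R) := by
  ext ⟨a, b⟩ ⟨c, d⟩
  rw [Matrix.mul_apply, Fintype.sum_prod_type, Finset.sum_eq_single a, Finset.sum_eq_single a]
  · simp [tU2, t2_apply, JJ, eq_comm]
  · intro j _ hj
    simp [tU2, Ne.symm hj]
  · simp
  · intro j _ hj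
    refine Finset.sum_eq_zero (fun l _ => ?_)
    simp [tU2, Ne.symm hj]
  · simp

/-- `J_1 z = 0` for a central `z` with `z δ = 0` -/
theorem t1J_mul_eq_zero (z : ↥(C.PP R)) (hz : ∀ x : ↥(C.PP R), z * x = x * z)
    (hd : z * ⟨tδ 1, tδ_mem C R (C.Lam R).one_mem⟩ = 0) :
    (⟨t1 (JJ X R), t1_mem C R (JJ_mem C R)⟩ : ↥(C.PP R)) * z = 0 := by
  have e : (⟨t1 (JJ X R), t1_mem C R (JJ_mem C R)⟩ : ↥(C.PP R)) =
      ⟨tU1 X R, tU1_mem C R⟩ * (⟨tδ 1, tδ_mem C R (C.Lam R).one_mem⟩ *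
        ⟨(tU1 X R)ᵀ, tU1T_mem C R⟩) := by
    apply Subtype.ext
    change t1 (JJ X R) = tU1 X R * (tδ 1 * (tU1 X R)ᵀ)
    rw [tδ_one_mul_tU1T, tU1_mul]
  rw [← hz, e, ← mul_assoc, ← mul_assoc, hz, mul_assoc _ z, hd, mul_zero, zero_mul]

/-- `J_2 z = 0` for a central `z` with `z δ = 0` -/
theorem t2J_mul_eq_zero (z : ↥(C.PP R)) (hz : ∀ x : ↥(C.PP R), z * x = x * z)
    (hd : z * ⟨tδ 1, tδ_mem C R (C.Lam R).one_mem⟩ = 0) :
    (⟨t2 (JJ X R), t2_mem C R (JJ_mem C R)⟩ : ↥(C.PP R)) * z = 0 := by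
  have e : (⟨t2 (JJ X R), t2_mem C R (JJ_mem C R)⟩ : ↥(C.PP R)) =
      ⟨tU2 X R, tU2_mem C R⟩ * (⟨tδ 1, tδ_mem C R (C.Lam R).one_mem⟩ *
        ⟨(tU2 X R)ᵀ, tU2T_mem C R⟩) := by
    apply Subtype.ext
    change t2 (JJ X R) = tU2 X R * (tδ 1 * (tU2 X R)ᵀ)
    rw [tδ_one_mul_tU2T, tU2_mul]
  rw [← hz, e, ← mul_assoc, ← mul_assoc, hz, mul_assoc _ z, hd, mul_zero, zero_mul]

end

end PDeg
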