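import Mathlib

/-!
# The projections on the eigenspaces of `y₂ / y₁` (abstract)

`y₁, y₂, e` commute, `e` idempotent, `yᵢ ^ k e = c e` with `c ≠ 0`.
-/

namespace PDeg

open scoped BigOperators

section
variable {K B : Type*} [Field K] [Ring B] [Algebra K B]

/-- commuting data -/
structure RP (k : ℕ) (c : K) (y1 y2 e : B) : Prop where
  k1 : 1 ≤ k
  k0 : (k : K) ≠ 0
  c0 : c ≠ 0
  idem : e * e = e
  c12 : y1 * y2 = y2 * y1
  e1 : y1 * e = e * y1
  e2 : y2 * e = e * y2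
  p1 : y1 ^ k * e = c • e
  p2 : y2 ^ k * e = c • e

/-- `u = y₂ y₁⁻¹` on `e` -/
noncomputable def rpu (k : ℕ) (c : K) (y1 y2 e : B) : B := c⁻¹ • (y2 * y1 ^ (k - 1) * e)

/-- the projection on the `ζ`-eigenspace -/
noncomputable def rpb (k : ℕ) (c : K) (y1 y2 e : B) (ζ : K) : B :=
  (k : K)⁻¹ • ∑ j ∈ Finset.range k, (ζ⁻¹) ^ j • ((rpu k c y1 y2 e) ^ j * e)

variable {k : ℕ} {c : K} {y1 y2 e : B} (h : RP k c y1 y2 e)
include h

namespace RP

theorem u_e : rpu k c y1 y2 e * e = rpu k c y1 y2 e := by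
  rw [rpu, smul_mul_assoc, mul_assoc, h.idem]

theorem y1_pow_e (n : ℕ) : y1 ^ n * e = e * y1 ^ n := by
  have : Commute y1 e := h.e1
  exact (this.pow_left n)

theorem y2_pow_e (n : ℕ) : y2 ^ n * e = e * y2 ^ n := by
  have : Commute y2 e := h.e2
  exact (this.pow_left n)

theorem e_u : e * rpu k c y1 y2 e = rpu k c y1 y2 e := by
  rw [rpu, mul_smul_comm]
  congr 1
  calc e * (y2 * y1 ^ (k - 1) * e) = (e * y2) * y1 ^ (k - 1) * e := by noncomm_ring
    _ = y2 * (e * y1 ^ (k - 1)) * e := by rw [← h.e2]; noncomm_ring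
    _ = y2 * y1 ^ (k - 1) * (e * e) := by rw [← h.y1_pow_e]; noncomm_ring
    _ = y2 * y1 ^ (k - 1) * e := by rw [h.idem]

theorem comm_ue : Commute (rpu k c y1 y2 e) e := by
  change _ * _ = _ * _
  rw [h.u_e, h.e_u]

theorem comm_y1 : Commute y1 (rpu k c y1 y2 e) := by
  change _ * _ = _ * _
  rw [rpu, mul_smul_comm, smul_mul_assoc]
  congr 1
  calc y1 * (y2 * y1 ^ (k - 1) * e) = (y1 * y2) * y1 ^ (k - 1) * e := by noncomm_ring
    _ = y2 * (y1 * y1 ^ (k - 1)) * e := by rw [h.c12]; noncomm_ring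
    _ = y2 * (y1 ^ (k - 1) * y1) * e := by rw [← pow_succ, ← pow_succ']
    _ = y2 * y1 ^ (k - 1) * (y1 * e) := by noncomm_ring
    _ = y2 * y1 ^ (k - 1) * e * y1 := by rw [h.e1]; noncomm_ring

theorem y1_u : y1 * rpu k c y1 y2 e = y2 * e := by
  rw [rpu, mul_smul_comm]
  have h1 : y1 * (y2 * y1 ^ (k - 1) * e) = c • (y2 * e) := by
    calc y1 * (y2 * y1 ^ (k - 1) * e) = (y1 * y2) * y1 ^ (k - 1) * e := by noncomm_ring
      _ = y2 * (y1 * y1 ^ (k - 1)) * e := by rw [h.c12]; noncomm_ring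
      _ = y2 * (y1 ^ k * e) := by rw [← pow_succ', Nat.sub_add_cancel h.k1]; noncomm_ring
      _ = c • (y2 * e) := by rw [h.p1, mul_smul_comm]
  rw [h1, smul_smul, inv_mul_cancel₀ h.c0, one_smul]

theorem u_pow (n : ℕ) : (rpu k c y1 y2 e) ^ (n + 1) =
    (c⁻¹) ^ (n + 1) • (y2 ^ (n + 1) * (y1 ^ (k - 1)) ^ (n + 1) * e) := by
  induction n with
  | zero => simp [rpu]
  | succ n ih =>
    rw [pow_succ, ih, rpu, smul_mul_assoc, mul_smul_comm, smul_smul, ← pow_succ]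
    congr 1
    have hc : Commute y1 y2 := h.c12
    have hc2 : Commute ((y1 ^ (k - 1)) ^ (n + 1)) y2 := (hc.pow_left _).pow_left _
    have he1 : Commute e (y1 ^ (k - 1)) := (h.y1_pow_e (k - 1)).symm
    have he2 : Commute e y2 := h.e2.symm
    calc y2 ^ (n + 1) * (y1 ^ (k - 1)) ^ (n + 1) * e * (y2 * y1 ^ (k - 1) * e)
        = y2 ^ (n + 1) * (y1 ^ (k - 1)) ^ (n + 1) * (e * y2) * y1 ^ (k - 1) * e := by noncomm_ring
      _ = y2 ^ (n + 1) * ((y1 ^ (k - 1)) ^ (n + 1) * y2) * (e * y1 ^ (k - 1)) * e := by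
          rw [he2.eq]; noncomm_ring
      _ = y2 ^ (n + 1) * (y2 * (y1 ^ (k - 1)) ^ (n + 1)) * (y1 ^ (k - 1) * e) * e := by
          rw [hc2.eq, he1.eq]
      _ = (y2 ^ (n + 1) * y2) * ((y1 ^ (k - 1)) ^ (n + 1) * y1 ^ (k - 1)) * (e * e) := by
          noncomm_ring
      _ = y2 ^ (n + 1 + 1) * (y1 ^ (k - 1)) ^ (n + 1 + 1) * e := by
          rw [← pow_succ, ← pow_succ, h.idem]

theorem y1_powk (n : ℕ) : (y1 ^ k) ^ n * e = c ^ n • e := by
  induction n with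
  | zero => simp
  | succ n ih =>
    rw [pow_succ', mul_assoc, ih, mul_smul_comm, h.p1, smul_smul, ← pow_succ]

theorem u_k : (rpu k c y1 y2 e) ^ k = e := by
  obtain ⟨n, rfl⟩ : ∃ n, k = n + 1 := ⟨k - 1, by have := h.k1; omega⟩
  rw [h.u_pow n]
  have h1 : (y1 ^ (n + 1 - 1)) ^ (n + 1) * e = c ^ n • e := by
    rw [Nat.add_sub_cancel, ← pow_mul, mul_comm n, pow_mul]
    exact h.y1_powk n
  rw [mul_assoc, h1, mul_smul_comm, h.p2, smul_smul, smul_smul]
  rw [mul_assoc, ← pow_succ, ← mul_pow, inv_mul_cancel₀ h.c0, one_pow, one_smul]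

theorem e_b (ζ : K) : e * rpb k c y1 y2 e ζ = rpb k c y1 y2 e ζ := by
  rw [rpb, mul_smul_comm, Finset.mul_sum]
  congr 1
  refine Finset.sum_congr rfl fun j _ => ?_
  rw [mul_smul_comm, ← mul_assoc, ← (h.comm_ue.pow_left j).eq, mul_assoc, h.idem]

theorem b_e (ζ : K) : rpb k c y1 y2 e ζ * e = rpb k c y1 y2 e ζ := by
  rw [rpb, smul_mul_assoc, Finset.sum_mul]
  congr 1
  refine Finset.sum_congr rfl fun j _ => ?_
  rw [smul_mul_assoc, mul_assoc, h.idem]

theorem u_b {ζ : K} (hζ : ζ ^ k = 1) :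
    rpu k c y1 y2 e * rpb k c y1 y2 e ζ = ζ • rpb k c y1 y2 e ζ := by
  have hζ0 : ζ ≠ 0 := by
    rintro rfl
    rw [zero_pow (by have := h.k1; omega)] at hζ
    exact zero_ne_one hζ
  set u := rpu k c y1 y2 e with hu
  rw [rpb, mul_smul_comm, Finset.mul_sum, smul_comm ζ, ← hu]
  congr 1
  have h1 : ∀ j, u * ((ζ⁻¹) ^ j • (u ^ j * e)) = ζ • ((ζ⁻¹) ^ (j + 1) • (u ^ (j + 1) * e)) := by
    intro j
    rw [mul_smul_comm, ← mul_assoc, ← pow_succ', smul_smul, pow_succ (ζ⁻¹) j, mul_comm ζ,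
      mul_assoc, inv_mul_cancel₀ hζ0, mul_one]
  rw [Finset.sum_congr rfl fun j _ => h1 j, ← Finset.smul_sum]
  congr 1
  have h2 := Finset.sum_range_succ (fun j => (ζ⁻¹) ^ j • (u ^ j * e)) k
  have h3 := Finset.sum_range_succ' (fun j => (ζ⁻¹) ^ j • (u ^ j * e)) k
  rw [h2] at h3
  have h4 : (ζ⁻¹) ^ k • (u ^ k * e) = (ζ⁻¹) ^ 0 • (u ^ 0 * e) := by
    rw [h.u_k, inv_pow, hζ, inv_one, one_smul, pow_zero, pow_zero, one_smul, one_mul, h.idem]
  rw [h4] at h3
  exact (add_right_cancel h3).symm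

theorem u_pow_b {ζ : K} (hζ : ζ ^ k = 1) (j : ℕ) :
    (rpu k c y1 y2 e) ^ j * rpb k c y1 y2 e ζ = ζ ^ j • rpb k c y1 y2 e ζ := by
  induction j with
  | zero => simp
  | succ j ih => rw [pow_succ, mul_assoc, h.u_b hζ, mul_smul_comm, ih, smul_smul, pow_succ']

/-- `b b' = 0` for different roots, `b b = b` -/
theorem b_mul {ζ ζ' : K} (hζ : ζ ^ k = 1) :
    rpb k c y1 y2 e ζ' * rpb k c y1 y2 e ζ =
      ((k : K)⁻¹ * ∑ j ∈ Finset.range k, (ζ'⁻¹ * ζ) ^ j) • rpb k c y1 y2 e ζ := by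
  conv_lhs => rw [rpb]
  rw [smul_mul_assoc, Finset.sum_mul, mul_smul, Finset.sum_smul]
  congr 1
  refine Finset.sum_congr rfl fun j _ => ?_
  rw [smul_mul_assoc, mul_assoc, h.e_b, h.u_pow_b hζ, smul_smul, mul_pow]

theorem b_idem {ζ : K} (hζ : ζ ^ k = 1) :
    rpb k c y1 y2 e ζ * rpb k c y1 y2 e ζ = rpb k c y1 y2 e ζ := by
  have hζ0 : ζ ≠ 0 := by
    rintro rfl
    rw [zero_pow (by have := h.k1; omega)] at hζ
    exact zero_ne_one hζ
  rw [h.b_mul hζ, inv_mul_cancel₀ hζ0]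
  simp [h.k0]

theorem b_orth {ζ ζ' : K} (hζ : ζ ^ k = 1) (hζ' : ζ' ^ k = 1) (hne : ζ' ≠ ζ) :
    rpb k c y1 y2 e ζ' * rpb k c y1 y2 e ζ = 0 := by
  have hζ0 : ζ' ≠ 0 := by
    rintro rfl
    rw [zero_pow (by have := h.k1; omega)] at hζ'
    exact zero_ne_one hζ'
  rw [h.b_mul hζ]
  have h1 : ζ'⁻¹ * ζ ≠ 1 := by
    intro hh
    apply hne
    have := congrArg (fun t => ζ' * t) hh
    simp only [mul_one, ← mul_assoc, mul_inv_cancel₀ hζ0, one_mul] at this
    exact this.symm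
  have h2 : (∑ j ∈ Finset.range k, (ζ'⁻¹ * ζ) ^ j) = 0 := by
    have := geom_sum_mul (ζ'⁻¹ * ζ) k
    rw [mul_pow, inv_pow, hζ', hζ, inv_one, one_mul, sub_self] at this
    exact (mul_eq_zero.1 this).resolve_right (sub_ne_zero.2 h1)
  rw [h2, mul_zero, zero_smul]

theorem y2_b {ζ : K} (hζ : ζ ^ k = 1) :
    y2 * rpb k c y1 y2 e ζ = ζ • (y1 * rpb k c y1 y2 e ζ) := by
  have h1 : y2 * rpb k c y1 y2 e ζ = y1 * rpu k c y1 y2 e * rpb k c y1 y2 e ζ := by
    rw [h.y1_u, mul_assoc, h.e_b]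
  rw [h1, mul_assoc, h.u_b hζ, mul_smul_comm]

/-- the projections commute with everything commuting with `y₁, y₂, e` -/
theorem b_comm {ζ : K} {a : B} (h1 : Commute a y1) (h2 : Commute a y2) (h3 : Commute a e) :
    Commute a (rpb k c y1 y2 e ζ) := by
  have hu : Commute a (rpu k c y1 y2 e) := by
    rw [rpu]
    exact ((h2.mul_right (h1.pow_right _)).mul_right h3).smul_right _
  rw [rpb]
  refine Commute.smul_right ?_ _
  refine Commute.sum_right _ _ _ fun j _ => ?_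
  exact ((hu.pow_right j).mul_right h3).smul_right _

/-- in a representation: the fixed vectors -/
theorem fix {V : Type*} [AddCommGroup V] [Module K V] (ρ : B →ₐ[K] Module.End K V) {ζ : K}
    (hζ : ζ ^ k = 1) {v : V} (hv : ρ e v = v) (h2 : ρ y2 v = ζ • ρ y1 v) :
    ρ (rpb k c y1 y2 e ζ) v = v := by
  have hζ0 : ζ ≠ 0 := by
    rintro rfl
    rw [zero_pow (by have := h.k1; omega)] at hζ
    exact zero_ne_one hζ
  have hu : ρ (rpu k c y1 y2 e) v = ζ • v := by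
    have hc : y2 * y1 ^ (k - 1) = y1 ^ (k - 1) * y2 :=
      ((show Commute y1 y2 from h.c12).pow_left (k - 1)).symm
    rw [rpu, map_smul, LinearMap.smul_apply, hc, map_mul, map_mul, Module.End.mul_apply,
      Module.End.mul_apply, hv, h2, map_smul, ← Module.End.mul_apply, ← map_mul, ← pow_succ,
      Nat.sub_add_cancel h.k1]
    have h3 : ρ (y1 ^ k) v = c • v := by
      conv_lhs => rw [← hv]
      rw [← Module.End.mul_apply, ← map_mul, h.p1, map_smul, LinearMap.smul_apply, hv]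
    rw [h3, smul_smul, smul_smul, mul_comm, mul_inv_cancel_left₀ h.c0]
  have hp : ∀ j : ℕ, ρ ((rpu k c y1 y2 e) ^ j) v = ζ ^ j • v := by
    intro j
    induction j with
    | zero => simp
    | succ j ih =>
      rw [pow_succ, map_mul, Module.End.mul_apply, hu, map_smul, ih, smul_smul, pow_succ, mul_comm]
  rw [rpb, map_smul, LinearMap.smul_apply, map_sum, LinearMap.sum_apply]
  have h4 : ∀ j, ρ ((ζ⁻¹) ^ j • ((rpu k c y1 y2 e) ^ j * e)) v = v := by
    intro j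
    rw [map_smul, LinearMap.smul_apply, map_mul, Module.End.mul_apply, hv, hp, smul_smul,
      ← mul_pow, inv_mul_cancel₀ hζ0, one_pow, one_smul]
  rw [Finset.sum_congr rfl fun j _ => h4 j, Finset.sum_const, Finset.card_range,
    ← Nat.cast_smul_eq_nsmul K, smul_smul, inv_mul_cancel₀ h.k0, one_smul]

/-- sum over all roots -/
theorem sum_b {ω : K} (hω : IsPrimitiveRoot ω k) :
    ∑ i ∈ Finset.range k, rpb k c y1 y2 e (ω ^ i) = e := by
  simp only [rpb]
  rw [← Finset.smul_sum, Finset.sum_comm]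
  have h1 : ∀ j ∈ Finset.range k, (∑ i ∈ Finset.range k,
      ((ω ^ i)⁻¹) ^ j • ((rpu k c y1 y2 e) ^ j * e)) = if j = 0 then (k : K) • e else 0 := by
    intro j hj
    rw [← Finset.sum_smul]
    by_cases hj0 : j = 0
    · subst hj0
      simp
    · rw [if_neg hj0]
      have h2 : (∑ i ∈ Finset.range k, ((ω ^ i)⁻¹) ^ j) = 0 := by
        have h3 : ∀ i, ((ω ^ i)⁻¹) ^ j = ((ω⁻¹) ^ j) ^ i := by
          intro i
          rw [← inv_pow, ← pow_mul, ← pow_mul, mul_comm]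
        simp only [h3]
        have h4 := geom_sum_mul ((ω⁻¹) ^ j) k
        have h5 : ((ω⁻¹) ^ j) ^ k = 1 := by
          rw [← pow_mul, mul_comm, pow_mul, inv_pow, hω.pow_eq_one, inv_one, one_pow]
        rw [h5, sub_self] at h4
        refine (mul_eq_zero.1 h4).resolve_right ?_
        intro h6
        have h7 : ω ^ j = 1 := by
          have h6' := sub_eq_zero.1 h6
          rw [inv_pow] at h6'
          exact inv_eq_one.1 h6'
        have h8 := hω.dvd_of_pow_eq_one j h7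
        have h9 := Finset.mem_range.1 hj
        exact absurd (Nat.le_of_dvd (Nat.pos_of_ne_zero hj0) h8) (by omega)
      rw [h2, zero_smul]
  rw [Finset.sum_congr rfl h1, Finset.sum_ite_eq' (Finset.range k) 0]
  rw [if_pos (Finset.mem_range.2 (by have := h.k1; omega)), smul_smul, inv_mul_cancel₀ h.k0,
    one_smul]

end RP

end

end PDeg
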