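import Pool.Agent.Lib.MP_369ee2_lc_PD.Ord
import Pool.Agent.Lib.MP_369ee2_lc_PD.RootProj

/-!
# The idempotents `b_ζ` of `P_K`
-/

namespace PDeg

open scoped BigOperators Matrix Kronecker

section kron
variable {X R : Type} [Fintype X] [DecidableEq X] [CommRing R]

theorem t1_mul (a b : Matrix X X R) : t1 (a * b) = t1 a * t1 b := by
  rw [t1, t1, t1, ← Matrix.mul_kronecker_mul, Matrix.one_mul]

theorem t2_mul (a b : Matrix X X R) : t2 (a * b) = t2 a * t2 b := by
  rw [t2, t2, t2, ← Matrix.mul_kronecker_mul, Matrix.one_mul]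

theorem t1_one : t1 (1 : Matrix X X R) = 1 := Matrix.one_kronecker_one
theorem t2_one : t2 (1 : Matrix X X R) = 1 := Matrix.one_kronecker_one

theorem t1_t2 (a b : Matrix X X R) : t1 a * t2 b = t2 b * t1 a := by
  rw [t1, t2, ← Matrix.mul_kronecker_mul, ← Matrix.mul_kronecker_mul, Matrix.one_mul,
    Matrix.mul_one, Matrix.one_mul, Matrix.mul_one]

theorem t1_add (a b : Matrix X X R) : t1 (a + b) = t1 a + t1 b := Matrix.add_kronecker _ _ _
theorem t2_add (a b : Matrix X X R) : t2 (a + b) = t2 a + t2 b := Matrix.kronecker_add _ _ _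

theorem t1_smul (c : R) (a : Matrix X X R) : t1 (c • a) = c • t1 a := Matrix.smul_kronecker _ _ _
theorem t2_smul (c : R) (a : Matrix X X R) : t2 (c • a) = c • t2 a := Matrix.kronecker_smul _ _ _

theorem t1_sub (a b : Matrix X X R) : t1 (a - b) = t1 a - t1 b := by
  rw [sub_eq_add_neg, t1_add, show -b = (-1 : R) • b by simp, t1_smul]
  simp [sub_eq_add_neg]

theorem t2_sub (a b : Matrix X X R) : t2 (a - b) = t2 a - t2 b := by
  rw [sub_eq_add_neg, t2_add, show -b = (-1 : R) • b by simp, t2_smul]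
  simp [sub_eq_add_neg]

theorem t1_zero : t1 (0 : Matrix X X R) = 0 := Matrix.zero_kronecker _
theorem t2_zero : t2 (0 : Matrix X X R) = 0 := Matrix.kronecker_zero _

theorem t1_pow (a : Matrix X X R) (n : ℕ) : t1 (a ^ n) = (t1 a) ^ n := by
  induction n with
  | zero => simp [t1_one]
  | succ n ih => rw [pow_succ, t1_mul, ih, pow_succ]

theorem t2_pow (a : Matrix X X R) (n : ℕ) : t2 (a ^ n) = (t2 a) ^ n := by
  induction n with
  | zero => simp [t2_one]
  | succ n ih => rw [pow_succ, t2_mul, ih, pow_succ]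

theorem JJ_mul_JJ : JJ X R * JJ X R = (Fintype.card X : R) • JJ X R := by
  ext i j
  simp [JJ, Matrix.mul_apply]

theorem mul_JJ {a : Matrix X X R} (h : ∀ i, ∑ j, a i j = 0) : a * JJ X R = 0 := by
  ext i j
  simp [JJ, Matrix.mul_apply, h]

theorem JJ_mul {a : Matrix X X R} (h : ∀ j, ∑ i, a i j = 0) : JJ X R * a = 0 := by
  ext i j
  simp [JJ, Matrix.mul_apply, h]

end kron

section main
variable {X : Type} [Fintype X] [DecidableEq X] {C : Coh X} {p : ℕ} {W K : Type}
  [CommRing W] [Field K] [Algebra W K] {k d : ℕ} {y : Matrix X X W} {ζ0 : W}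

/-- `y` over `K` -/
def yK (K : Type) {X W : Type} [CommRing W] [Field K] [Algebra W K] (y : Matrix X X W) :
    Matrix X X K := y.map (algebraMap W K)

theorem yK_mem (hY : YData C p W K k d y ζ0) : yK K y ∈ C.Lam K := by
  intro s t h
  exact congrArg (algebraMap W K) (hY.mem s t h)

theorem yK_pow (hY : YData C p W K k d y ζ0) :
    (yK K y) ^ k = (p : K) • (1 : Matrix X X K) - JJ X K := by
  have h := congrArg (fun M => (algebraMap W K).mapMatrix M) hY.pow
  simp only [map_pow, map_sub, map_natCast] at h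
  have h1 : (algebraMap W K).mapMatrix (JJ X W) = JJ X K := by
    ext i j; simp [JJ]
  rw [h1] at h
  have h2 : (p : Matrix X X K) = (p : K) • (1 : Matrix X X K) := by
    rw [← nsmul_one, ← Nat.cast_smul_eq_nsmul K]
  rw [← h2]
  exact h

theorem yK_mul_JJ (hY : YData C p W K k d y ζ0) : yK K y * JJ X K = 0 := by
  apply mul_JJ
  intro i
  simp only [yK, Matrix.map_apply, ← map_sum, hY.rowsum, map_zero]

theorem JJ_mul_yK (hY : YData C p W K k d y ζ0) : JJ X K * yK K y = 0 := by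
  apply JJ_mul
  intro i
  simp only [yK, Matrix.map_apply, ← map_sum, hY.colsum, map_zero]

/-- `1 - J / p` -/
noncomputable def EE (X K : Type) [Fintype X] [DecidableEq X] [Field K] : Matrix X X K :=
  1 - (Fintype.card X : K)⁻¹ • JJ X K

theorem EE_mem : EE X K ∈ C.Lam K :=
  (C.Lam K).sub_mem (C.Lam K).one_mem ((C.Lam K).smul_mem (JJ_mem C K) _)

variable (hX : (Fintype.card X : K) ≠ 0)
include hX

theorem JJ_mul_EE : JJ X K * EE X K = 0 := by
  rw [EE, mul_sub, mul_one, Matrix.mul_smul, JJ_mul_JJ, smul_smul, inv_mul_cancel₀ hX, one_smul,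
    sub_self]

theorem EE_mul_JJ : EE X K * JJ X K = 0 := by
  rw [EE, sub_mul, one_mul, Matrix.smul_mul, JJ_mul_JJ, smul_smul, inv_mul_cancel₀ hX, one_smul,
    sub_self]

theorem EE_idem : EE X K * EE X K = EE X K := by
  change (1 - (Fintype.card X : K)⁻¹ • JJ X K) * EE X K = EE X K
  rw [sub_mul, one_mul, Matrix.smul_mul, JJ_mul_EE hX, smul_zero, sub_zero]

omit hX in
theorem yK_mul_EE (hY : YData C p W K k d y ζ0) : yK K y * EE X K = yK K y := by
  rw [EE, mul_sub, mul_one, Matrix.mul_smul, yK_mul_JJ hY, smul_zero, sub_zero]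

omit hX in
theorem EE_mul_yK (hY : YData C p W K k d y ζ0) : EE X K * yK K y = yK K y := by
  rw [EE, sub_mul, one_mul, Matrix.smul_mul, JJ_mul_yK hY, smul_zero, sub_zero]

theorem yK_pow_EE (hY : YData C p W K k d y ζ0) : (yK K y) ^ k * EE X K = (p : K) • EE X K := by
  rw [yK_pow hY, sub_mul, JJ_mul_EE hX, sub_zero, Matrix.smul_mul, one_mul]

/-- `(1 - J₁/p)(1 - J₂/p)` -/
noncomputable def E2 (X K : Type) [Fintype X] [DecidableEq X] [Field K] :
    Matrix (X × X) (X × X) K := t1 (EE X K) * t2 (EE X K)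

omit hX in
theorem E2_mem : E2 X K ∈ C.PP K :=
  (C.PP K).mul_mem (t1_mem C K EE_mem) (t2_mem C K EE_mem)

/-- the element `t1 y` of `P_K` -/
def Y1 (hY : YData C p W K k d y ζ0) : ↥(C.PP K) := ⟨t1 (yK K y), t1_mem C K (yK_mem hY)⟩

/-- the element `t2 y` of `P_K` -/
def Y2 (hY : YData C p W K k d y ζ0) : ↥(C.PP K) := ⟨t2 (yK K y), t2_mem C K (yK_mem hY)⟩

/-- the element `E2` of `P_K` -/
noncomputable def EP (C : Coh X) (K : Type) [Field K] : ↥(C.PP K) := ⟨E2 X K, E2_mem⟩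

theorem rp (hp : (p : K) ≠ 0) (hk : (k : K) ≠ 0) (hY : YData C p W K k d y ζ0) :
    RP k (p : K) (Y1 hY) (Y2 hY) (EP C K) where
  k1 := le_trans (by norm_num) hY.k2
  k0 := hk
  c0 := hp
  idem := by
    apply Subtype.ext
    change t1 (EE X K) * t2 (EE X K) * (t1 (EE X K) * t2 (EE X K)) = t1 (EE X K) * t2 (EE X K)
    rw [mul_assoc, ← mul_assoc (t2 (EE X K)), ← t1_t2, mul_assoc, ← mul_assoc, ← mul_assoc,
      ← t1_mul, EE_idem hX, mul_assoc, ← t2_mul, EE_idem hX]
  c12 := Subtype.ext (t1_t2 _ _)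
  e1 := by
    apply Subtype.ext
    change t1 (yK K y) * (t1 (EE X K) * t2 (EE X K)) = t1 (EE X K) * t2 (EE X K) * t1 (yK K y)
    rw [← mul_assoc, ← t1_mul, yK_mul_EE hY, mul_assoc, ← t1_t2, ← mul_assoc, ← t1_mul,
      EE_mul_yK hY]
  e2 := by
    apply Subtype.ext
    change t2 (yK K y) * (t1 (EE X K) * t2 (EE X K)) = t1 (EE X K) * t2 (EE X K) * t2 (yK K y)
    rw [← mul_assoc, ← t1_t2, mul_assoc, ← t2_mul, yK_mul_EE hY, mul_assoc, ← t2_mul,
      EE_mul_yK hY]
  p1 := by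
    apply Subtype.ext
    change t1 (yK K y) ^ k * (t1 (EE X K) * t2 (EE X K)) = (p : K) • (t1 (EE X K) * t2 (EE X K))
    rw [← t1_pow, ← mul_assoc, ← t1_mul, yK_pow_EE hX hY, t1_smul, smul_mul_assoc]
  p2 := by
    apply Subtype.ext
    change t2 (yK K y) ^ k * (t1 (EE X K) * t2 (EE X K)) = (p : K) • (t1 (EE X K) * t2 (EE X K))
    rw [← t2_pow, ← mul_assoc, ← t1_t2, mul_assoc, ← t2_mul, yK_pow_EE hX hY, t2_smul,
      mul_smul_comm]

omit hX in
theorem mulVec_ext {m n : Type} [Fintype n] {M : Matrix m n K}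
    (v : n → K) (w : m → K) (h : M *ᵥ v = w) : M *ᵥ v = w := h

/-- the explicit idempotent -/
noncomputable def bz (hY : YData C p W K k d y ζ0) (ζ : K) : ↥(C.PP K) :=
  rpb k (p : K) (Y1 hY) (Y2 hY) (EP C K) ζ

/-- the representation on `K^(X²)` -/
noncomputable def rep (C : Coh X) (K : Type) [Field K] :
    ↥(C.PP K) →ₐ[K] Module.End K (X × X → K) :=
  (Matrix.toLinAlgEquiv' (R := K) (n := X × X)).toAlgHom.comp (C.PP K).val

omit hX in
theorem rep_apply (T : ↥(C.PP K)) (v : X × X → K) :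
    rep C K T v = (T : Matrix (X × X) (X × X) K) *ᵥ v := rfl

theorem isB_bz (hp : (p : K) ≠ 0) (hk : (k : K) ≠ 0) (hY : YData C p W K k d y ζ0) {ζ : W}
    (hζ : ζ ^ k = 1) : IsB C y ζ (bz hY (algebraMap W K ζ)) := by
  have h := rp hX hp hk hY
  have hζ' : (algebraMap W K ζ) ^ k = 1 := by rw [← map_pow, hζ, map_one]
  have hJE1 : t1 (JJ X K) * E2 X K = E2 X K * t1 (JJ X K) := by
    rw [E2, ← mul_assoc, ← t1_mul, JJ_mul_EE hX, t1_zero, zero_mul, mul_assoc, ← t1_t2,
      ← mul_assoc, ← t1_mul, EE_mul_JJ hX, t1_zero, zero_mul]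
  have hJE2 : t2 (JJ X K) * E2 X K = E2 X K * t2 (JJ X K) := by
    rw [E2, ← mul_assoc, ← t1_t2, mul_assoc, ← t2_mul, JJ_mul_EE hX, t2_zero, mul_zero, mul_assoc,
      ← t2_mul, EE_mul_JJ hX, t2_zero, mul_zero]
  have hyJ : yK K y * JJ X K = JJ X K * yK K y := by rw [yK_mul_JJ hY, JJ_mul_yK hY]
  refine ⟨h.b_idem hζ', ?_, ?_, ?_, ?_, fun v => ⟨fun hv => ?_, fun hv => ?_⟩⟩
  · have hc : Commute (Y1 hY) (bz hY (algebraMap W K ζ)) :=
      h.b_comm (Commute.refl _) h.c12 h.e1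
    exact (congrArg Subtype.val hc.eq).symm
  · have hc : Commute (Y2 hY) (bz hY (algebraMap W K ζ)) :=
      h.b_comm h.c12.symm (Commute.refl _) h.e2
    exact (congrArg Subtype.val hc.eq).symm
  · have hc : Commute (⟨t1 (JJ X K), t1_mem C K (JJ_mem C K)⟩ : ↥(C.PP K))
        (bz hY (algebraMap W K ζ)) := by
      refine h.b_comm ?_ ?_ ?_
      · apply Subtype.ext
        change t1 (JJ X K) * t1 (yK K y) = t1 (yK K y) * t1 (JJ X K)
        rw [← t1_mul, ← t1_mul, hyJ]
      · exact Subtype.ext (t1_t2 _ _)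
      · exact Subtype.ext hJE1
    exact (congrArg Subtype.val hc.eq).symm
  · have hc : Commute (⟨t2 (JJ X K), t2_mem C K (JJ_mem C K)⟩ : ↥(C.PP K))
        (bz hY (algebraMap W K ζ)) := by
      refine h.b_comm ?_ ?_ ?_
      · exact Subtype.ext (t1_t2 _ _).symm
      · apply Subtype.ext
        change t2 (JJ X K) * t2 (yK K y) = t2 (yK K y) * t2 (JJ X K)
        rw [← t2_mul, ← t2_mul, hyJ]
      · exact Subtype.ext hJE2
    exact (congrArg Subtype.val hc.eq).symm
  · have h1 : (EP C K) * bz hY (algebraMap W K ζ) = bz hY (algebraMap W K ζ) := h.e_b _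
    have h2 : E2 X K * (bz hY (algebraMap W K ζ) : Matrix (X × X) (X × X) K) =
        (bz hY (algebraMap W K ζ) : Matrix (X × X) (X × X) K) := congrArg Subtype.val h1
    have h3 : t2 (yK K y) * (bz hY (algebraMap W K ζ) : Matrix (X × X) (X × X) K) =
        (algebraMap W K ζ) • (t1 (yK K y) * (bz hY (algebraMap W K ζ) :
          Matrix (X × X) (X × X) K)) := congrArg Subtype.val (h.y2_b hζ')
    refine ⟨?_, ?_, ?_⟩
    · have h4 : t1 (JJ X K) * E2 X K = 0 := by
        rw [E2, ← mul_assoc, ← t1_mul, JJ_mul_EE hX, t1_zero, zero_mul]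
      rw [← hv, ← h2, Matrix.mulVec_mulVec, ← mul_assoc, h4, zero_mul, Matrix.zero_mulVec]
    · have h4 : t2 (JJ X K) * E2 X K = 0 := by
        rw [E2, ← mul_assoc, ← t1_t2, mul_assoc, ← t2_mul, JJ_mul_EE hX, t2_zero, mul_zero]
      rw [← hv, ← h2, Matrix.mulVec_mulVec, ← mul_assoc, h4, zero_mul, Matrix.zero_mulVec]
    · change t2 (yK K y) *ᵥ v = (algebraMap W K ζ) • (t1 (yK K y) *ᵥ v)
      rw [← hv, Matrix.mulVec_mulVec, Matrix.mulVec_mulVec, h3, Matrix.smul_mulVec]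
  · obtain ⟨h1, h2, h3⟩ := hv
    have h4 : rep C K (EP C K) v = v := by
      rw [rep_apply]
      change (t1 (EE X K) * t2 (EE X K)) *ᵥ v = v
      have e1 : t1 (EE X K) *ᵥ v = v := by
        rw [EE, t1_sub, t1_one, t1_smul, Matrix.sub_mulVec, Matrix.one_mulVec, Matrix.smul_mulVec,
          h1, smul_zero, sub_zero]
      have e2 : t2 (EE X K) *ᵥ v = v := by
        rw [EE, t2_sub, t2_one, t2_smul, Matrix.sub_mulVec, Matrix.one_mulVec, Matrix.smul_mulVec,
          h2, smul_zero, sub_zero]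
      rw [← Matrix.mulVec_mulVec, e2, e1]
    exact h.fix (rep C K) hζ' h4 h3

/-- existence of `b_ζ` -/
theorem exists_isB' (hp : (p : K) ≠ 0) (hk : (k : K) ≠ 0) (hY : YData C p W K k d y ζ0) {ζ : W}
    (hζ : ζ ^ k = 1) : ∃ b : ↥(C.PP K), IsB C y ζ b :=
  ⟨_, isB_bz hX hp hk hY hζ⟩

end main

section cols
variable {X : Type} [Fintype X] [DecidableEq X] {C : Coh X} {W K : Type}
  [CommRing W] [Field K] [Algebra W K] {y : Matrix X X W} {ζ : W}

/-- matrix form of the defining property -/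
theorem IsB.mul_iff_mat {b : ↥(C.PP K)} (hb : IsB C y ζ b) {Y : Type} (T : Matrix (X × X) Y K) :
    (b : Matrix (X × X) (X × X) K) * T = T ↔
      (t1 (JJ X K) * T = 0 ∧ t2 (JJ X K) * T = 0 ∧
        t2 (y.map (algebraMap W K)) * T =
          (algebraMap W K ζ) • (t1 (y.map (algebraMap W K)) * T)) := by
  have key : ∀ (M N : Matrix (X × X) (X × X) K), (M * T = N * T ↔
      ∀ j, M *ᵥ (fun i => T i j) = N *ᵥ (fun i => T i j)) := by
    intro M N
    constructor
    · intro h j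
      ext i
      have := congrFun (congrFun h i) j
      simpa [Matrix.mul_apply, Matrix.mulVec, dotProduct] using this
    · intro h
      ext i j
      have := congrFun (h j) i
      simpa [Matrix.mul_apply, Matrix.mulVec, dotProduct] using this
  have k1 := key (b : Matrix (X × X) (X × X) K) 1
  have k2 := key (t1 (JJ X K)) 0
  have k3 := key (t2 (JJ X K)) 0
  have k4 := key (t2 (y.map (algebraMap W K)))
    ((algebraMap W K ζ) • (t1 (y.map (algebraMap W K))))
  simp only [Matrix.one_mul, Matrix.one_mulVec] at k1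
  simp only [Matrix.zero_mul, Matrix.zero_mulVec] at k2 k3
  simp only [Matrix.smul_mul, Matrix.smul_mulVec] at k4
  rw [k1, k2, k3, k4]
  constructor
  · intro h
    exact ⟨fun j => ((hb.iff _).1 (h j)).1, fun j => ((hb.iff _).1 (h j)).2.1,
      fun j => ((hb.iff _).1 (h j)).2.2⟩
  · rintro ⟨h1, h2, h3⟩ j
    exact (hb.iff _).2 ⟨h1 j, h2 j, h3 j⟩

end cols

end PDeg
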