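import Pool.Agent.Lib.MP_369ee2_lc_PD.Ord
import Pool.Agent.Lib.MP_369ee2_lc_PD.BaseWitt
import Pool.Agent.Lib.MP_369ee2_lc_PD.SecB
import Pool.Agent.Lib.MP_369ee2_lc_PD.Sec7A

/-!
# The idempotents `b_ζ` (row S10)
-/

namespace PDeg

open scoped BigOperators Matrix

section
variable {X : Type} [Fintype X] [DecidableEq X] (C : Coh X) (K : Type) [Field K]

/-- `J ⊗ 1` in `P_K` -/
def jj1 : ↥(C.PP K) := ⟨t1 (JJ X K), t1_mem C K (JJ_mem C K)⟩

/-- `1 ⊗ J` in `P_K` -/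
def jj2 : ↥(C.PP K) := ⟨t2 (JJ X K), t2_mem C K (JJ_mem C K)⟩

/-- the diagonal idempotent `δ` -/
def dl : ↥(C.PP K) := ⟨tδ 1, tδ_mem C K (C.Lam K).one_mem⟩

/-- `J / p` on the diagonal -/
noncomputable def ftr : ↥(C.PP K) :=
  ⟨tδ (((Fintype.card X : K)⁻¹) • JJ X K), tδ_mem C K ((C.Lam K).smul_mem (JJ_mem C K) _)⟩

end

section
variable {X : Type} [Fintype X] [DecidableEq X] {C : Coh X}
variable {p : ℕ} {W K F : Type}
  [CommRing W] [IsDomain W] [Field K] [Algebra W K] [IsFractionRing W K] [Field F] [Algebra W F]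

/-- the family of the `b_ζ`, `ζ` a `k`-th root of unity -/
structure BData (C : Coh X) {W K : Type} [CommRing W] [Field K] [Algebra W K] (k : ℕ)
    (y : Matrix X X W) (ζ0 : W) (ζ : W) (i0 : Fin k) (b : Fin k → ↥(C.PP K)) : Prop where
  prim : IsPrimitiveRoot ζ k
  i0_eq : ζ ^ (i0 : ℕ) = ζ0
  isB : ∀ i : Fin k, IsB C y (ζ ^ (i : ℕ)) (b i)

private theorem bz_hp (hB : Base p W K F) : (p : K) ≠ 0 := by
  have := hB.charZero
  exact Nat.cast_ne_zero.2 hB.prime.ne_zero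

private theorem bz_hX (hB : Base p W K F) {k d : ℕ} {y : Matrix X X W} {ζ0 : W}
    (Y : YData C p W K k d y ζ0) : (Fintype.card X : K) ≠ 0 := by
  rw [Y.card]
  exact bz_hp hB

private theorem bz_hk (hB : Base p W K F) {k d : ℕ} {y : Matrix X X W} {ζ0 : W}
    (Y : YData C p W K k d y ζ0) : (k : K) ≠ 0 := by
  have := hB.charZero
  have := Y.k2
  exact Nat.cast_ne_zero.2 (by omega)

omit [IsDomain W] in
private theorem bz_root {k : ℕ} {ζ : W} (h : IsPrimitiveRoot ζ k) (i : Fin k) :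
    (ζ ^ (i : ℕ)) ^ k = 1 := by
  rw [← pow_mul, mul_comm, pow_mul, h.pow_eq_one, one_pow]

theorem exists_bData (hB : Base p W K F) {k d : ℕ} {y : Matrix X X W} {ζ0 : W}
    (Y : YData C p W K k d y ζ0) :
    ∃ (ζ : W) (i0 : Fin k) (b : Fin k → ↥(C.PP K)), BData C k y ζ0 ζ i0 b := by
  have hk2 := Y.k2
  obtain ⟨ζ, hζ, -⟩ := hB.exists_primitive k (Dvd.intro _ Y.kd) (by omega)
  have : NeZero k := ⟨by omega⟩
  obtain ⟨i0, h1, h2⟩ := hζ.eq_pow_of_pow_eq_one Y.z0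
  refine ⟨ζ, ⟨i0, h1⟩, fun i => bz Y (algebraMap W K (ζ ^ (i : ℕ))), hζ, h2, fun i => ?_⟩
  exact isB_bz (bz_hX hB Y) (bz_hp hB) (bz_hk hB Y) Y (bz_root hζ i)

/-- `b_ζ T = T` for matrices -/
theorem IsB.mul_iff {y : Matrix X X W} {ζ : W} {b : ↥(C.PP K)} (h : IsB C y ζ b)
    (T : ↥(C.PP K)) : b * T = T ↔ (jj1 C K * T = 0 ∧ jj2 C K * T = 0 ∧
      t2 (y.map (algebraMap W K)) * (T : Matrix (X × X) (X × X) K) =
        (algebraMap W K ζ) • (t1 (y.map (algebraMap W K)) * (T : Matrix (X × X) (X × X) K))) := by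
  have h1 := h.mul_iff_mat (T : Matrix (X × X) (X × X) K)
  constructor
  · intro h2
    obtain ⟨h3, h4, h5⟩ := h1.1 (congrArg Subtype.val h2)
    exact ⟨Subtype.ext h3, Subtype.ext h4, h5⟩
  · rintro ⟨h3, h4, h5⟩
    exact Subtype.ext (h1.2 ⟨congrArg Subtype.val h3, congrArg Subtype.val h4, h5⟩)

/-- the three conditions for `b` itself -/
private theorem bz_self {y : Matrix X X W} {ζ : W} {b : ↥(C.PP K)} (h : IsB C y ζ b) :
    t1 (JJ X K) * (b : Matrix (X × X) (X × X) K) = 0 ∧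
      t2 (JJ X K) * (b : Matrix (X × X) (X × X) K) = 0 ∧
      t2 (y.map (algebraMap W K)) * (b : Matrix (X × X) (X × X) K) =
        (algebraMap W K ζ) • (t1 (y.map (algebraMap W K)) * (b : Matrix (X × X) (X × X) K)) :=
  (h.mul_iff_mat (b : Matrix (X × X) (X × X) K)).1 (congrArg Subtype.val h.idem)

/-- two idempotents for different roots are orthogonal -/
private theorem bz_orth (hB : Base p W K F) {k d : ℕ} {y : Matrix X X W} {ζ0 : W}
    (Y : YData C p W K k d y ζ0) {ζ η : W} {a b : ↥(C.PP K)} (ha : IsB C y ζ a)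
    (hb : IsB C y η b) (hne : ζ ≠ η) : a * b = 0 := by
  obtain ⟨a1, a2, a3⟩ := bz_self ha
  obtain ⟨b1, b2, b3⟩ := bz_self hb
  have e1 : t2 (yK K y) * ((a : Matrix (X × X) (X × X) K) * (b : Matrix (X × X) (X × X) K)) =
      (algebraMap W K ζ) • (t1 (yK K y) * ((a : Matrix (X × X) (X × X) K) *
        (b : Matrix (X × X) (X × X) K))) := by
    rw [← mul_assoc, show t2 (yK K y) * (a : Matrix (X × X) (X × X) K) = _ from a3, smul_mul_assoc,
      mul_assoc]
    rfl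
  have e2 : t2 (yK K y) * ((a : Matrix (X × X) (X × X) K) * (b : Matrix (X × X) (X × X) K)) =
      (algebraMap W K η) • (t1 (yK K y) * ((a : Matrix (X × X) (X × X) K) *
        (b : Matrix (X × X) (X × X) K))) := by
    have c1 : (a : Matrix (X × X) (X × X) K) * t1 (yK K y) = t1 (yK K y) * a := ha.comm1
    have c2 : (a : Matrix (X × X) (X × X) K) * t2 (yK K y) = t2 (yK K y) * a := ha.comm2
    have c3 : t2 (yK K y) * (b : Matrix (X × X) (X × X) K) =
      (algebraMap W K η) • (t1 (yK K y) * (b : Matrix (X × X) (X × X) K)) := b3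
    rw [← mul_assoc, ← c2, mul_assoc, c3, mul_smul_comm, ← mul_assoc, c1, mul_assoc]
  have hne' : algebraMap W K ζ - algebraMap W K η ≠ 0 :=
    sub_ne_zero.2 fun h => hne (IsFractionRing.injective W K h)
  have e3 : t1 (yK K y) * ((a : Matrix (X × X) (X × X) K) *
      (b : Matrix (X × X) (X × X) K)) = 0 := by
    have e4 : (algebraMap W K ζ - algebraMap W K η) • (t1 (yK K y) *
        ((a : Matrix (X × X) (X × X) K) * (b : Matrix (X × X) (X × X) K))) = 0 := by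
      rw [sub_smul, ← e1, ← e2, sub_self]
    exact (smul_eq_zero.1 e4).resolve_left hne'
  have hk : k = (k - 1) + 1 := by
    have := Y.k2
    omega
  have e5 : t1 (yK K y) ^ k * ((a : Matrix (X × X) (X × X) K) *
      (b : Matrix (X × X) (X × X) K)) = 0 := by
    rw [hk, pow_succ, mul_assoc, e3, mul_zero]
  rw [← t1_pow, yK_pow Y, t1_sub, t1_smul, t1_one, sub_mul, smul_mul_assoc, one_mul,
    ← mul_assoc (t1 (JJ X K)), a1, zero_mul, sub_zero] at e5
  exact Subtype.ext ((smul_eq_zero.1 e5).resolve_left (bz_hp hB))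

private theorem bz_right {y : Matrix X X W} {ζ : W} {b : ↥(C.PP K)} (h : IsB C y ζ b) :
    b * EP C K = b := by
  obtain ⟨b1, b2, -⟩ := bz_self h
  apply Subtype.ext
  change (b : Matrix (X × X) (X × X) K) * (t1 (EE X K) * t2 (EE X K)) = b
  have e1 : (b : Matrix (X × X) (X × X) K) * t1 (EE X K) = b := by
    rw [EE, t1_sub, t1_one, t1_smul, mul_sub, mul_one, mul_smul_comm, h.commJ1, b1, smul_zero,
      sub_zero]
  have e2 : (b : Matrix (X × X) (X × X) K) * t2 (EE X K) = b := by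
    rw [EE, t2_sub, t2_one, t2_smul, mul_sub, mul_one, mul_smul_comm, h.commJ2, b2, smul_zero,
      sub_zero]
  rw [← mul_assoc, e1, e2]

theorem BData.orth (hB : Base p W K F) {k d : ℕ} {y : Matrix X X W} {ζ0 : W}
    (Y : YData C p W K k d y ζ0) {ζ : W} {i0 : Fin k} {b : Fin k → ↥(C.PP K)}
    (h : BData C k y ζ0 ζ i0 b) (i j : Fin k) (hij : i ≠ j) : b i * b j = 0 :=
  bz_orth hB Y (h.isB i) (h.isB j) fun hh => hij (Fin.ext (h.prim.pow_inj i.2 j.2 hh))

private theorem bz_sum (hB : Base p W K F) {k d : ℕ} {y : Matrix X X W} {ζ0 : W}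
    (Y : YData C p W K k d y ζ0) {ζ : W} {i0 : Fin k} {b : Fin k → ↥(C.PP K)}
    (h : BData C k y ζ0 ζ i0 b) : ∑ i, b i = EP C K := by
  have hR := rp (bz_hX hB Y) (bz_hp hB) (bz_hk hB Y) Y
  have hω : IsPrimitiveRoot (algebraMap W K ζ) k :=
    h.prim.map_of_injective (IsFractionRing.injective W K)
  have hs : ∑ i : Fin k, bz Y (algebraMap W K (ζ ^ (i : ℕ))) = EP C K := by
    have h1 := hR.sum_b hω
    rw [← Fin.sum_univ_eq_sum_range
      (fun i => rpb k (p : K) (Y1 Y) (Y2 Y) (EP C K) ((algebraMap W K ζ) ^ i)) k] at h1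
    rw [← h1]
    refine Finset.sum_congr rfl fun i _ => ?_
    rw [map_pow]
    rfl
  rw [← hs]
  refine Finset.sum_congr rfl fun i _ => ?_
  have hz : ∀ j : Fin k, IsB C y (ζ ^ (j : ℕ)) (bz Y (algebraMap W K (ζ ^ (j : ℕ)))) := fun j =>
    isB_bz (bz_hX hB Y) (bz_hp hB) (bz_hk hB Y) Y (bz_root h.prim j)
  calc b i = b i * EP C K := (bz_right (h.isB i)).symm
    _ = ∑ j : Fin k, b i * bz Y (algebraMap W K (ζ ^ (j : ℕ))) := by
        rw [← hs, Finset.mul_sum]
    _ = b i * bz Y (algebraMap W K (ζ ^ (i : ℕ))) := by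
        refine Finset.sum_eq_single i (fun j _ hj => ?_) fun hi => absurd (Finset.mem_univ i) hi
        exact bz_orth hB Y (h.isB i) (hz j) fun hh =>
          hj (Fin.ext (h.prim.pow_inj i.2 j.2 hh)).symm
    _ = bz Y (algebraMap W K (ζ ^ (i : ℕ))) :=
        Subtype.ext (((h.isB i).mul_iff_mat _).2 (bz_self (hz i)))

theorem BData.sum (hB : Base p W K F) {k d : ℕ} {y : Matrix X X W} {ζ0 : W}
    (Y : YData C p W K k d y ζ0) {ζ : W} {i0 : Fin k} {b : Fin k → ↥(C.PP K)}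
    (h : BData C k y ζ0 ζ i0 b) :
    ∑ i, b i = (1 - ((Fintype.card X : K)⁻¹) • jj1 C K) *
      (1 - ((Fintype.card X : K)⁻¹) • jj2 C K) := by
  rw [bz_sum hB Y h]
  apply Subtype.ext
  change t1 (EE X K) * t2 (EE X K) = (1 - ((Fintype.card X : K)⁻¹) • t1 (JJ X K)) *
    (1 - ((Fintype.card X : K)⁻¹) • t2 (JJ X K))
  rw [EE, t1_sub, t1_one, t1_smul, t2_sub, t2_one, t2_smul]

/-- on idempotents killed by the `J`'s the dimensions add up -/
theorem BData.finrank_sum (hB : Base p W K F) {k d : ℕ} {y : Matrix X X W} {ζ0 : W}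
    (Y : YData C p W K k d y ζ0) {ζ : W} {i0 : Fin k} {b : Fin k → ↥(C.PP K)}
    (h : BData C k y ζ0 ζ i0 b) (f : ↥(C.PP K))
    (h1 : ∀ T : ↥(C.PP K), jj1 C K * T * f = 0) (h2 : ∀ T : ↥(C.PP K), jj2 C K * T * f = 0) :
    Module.finrank K (crn K 1 f) = ∑ i, Module.finrank K (crn K (b i) f) := by
  refine finrank_crn_one (fun i => (h.isB i).idem) (h.orth hB Y) fun x hx => ?_
  rw [h.sum hB Y]
  have e1 : jj1 C K * x = 0 := by
    rw [← hx, ← mul_assoc]
    exact h1 x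
  have e2 : jj2 C K * x = 0 := by
    rw [← hx, ← mul_assoc]
    exact h2 x
  rw [mul_assoc, sub_mul _ _ x, one_mul, smul_mul_assoc, e2, smul_zero, sub_zero, sub_mul, one_mul,
    smul_mul_assoc, e1, smul_zero, sub_zero]

end

end PDeg
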