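import Pool.Agent.Lib.MP_369ee2_lc.Singletons

/-!
# Restriction of a scheme to a block of an invariant equivalence relation
-/

namespace PDeg

open MSch Function

namespace Block

variable {V : Type} [Fintype V] {m : ℕ}

/-- a tuple of points of `B` as a tuple of points of `V` -/
def inc {V : Type} {B : Set V} {s : ℕ} (x : Fin s ↪ B) : Fin s ↪ V :=
  x.trans (Embedding.subtype _)

theorem inc_apply {V : Type} {B : Set V} {s : ℕ} (x : Fin s ↪ B) (i : Fin s) :
    inc x i = (x i : V) := rfl

theorem inc_inj {V : Type} {B : Set V} {s : ℕ} {x y : Fin s ↪ B} (h : inc x = inc y) : x = y := by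
  ext i
  exact DFunLike.congr_fun h i

/-- the set `B` is recognised by the colours of pairs -/
def Closed (Q : MScheme V m) (B : Set V) : Prop :=
  ∀ x y : Fin 2 ↪ V, (Q.P 2).r x y → x 0 ∈ B → x 1 ∈ B → y 0 ∈ B → y 1 ∈ B

theorem mem_of_rel {Q : MScheme V m} {B : Set V} (hB : Closed Q B) {t : ℕ} (ht : t ≤ m)
    {x z : Fin t ↪ V} (h : (Q.P t).r x z) (hz : ∀ k, z k ∈ B) (k0 : Fin t) (hx : x k0 ∈ B)
    (k : Fin t) : x k ∈ B := by
  by_cases hk : k0 = k
  · rw [← hk]; exact hx
  · have h2 := RelAPI.emb Q ht (pr k0 k hk) h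
    exact hB _ _ ((Q.P 2).symm' h2) (hz _) (hz _) hx

/-- extensions inside `B` and in `V` are the same -/
theorem card_ext {Q : MScheme V m} {B : Set V} (hB : Closed Q B) {s t : ℕ} (ht : t ≤ m)
    (ι : Fin s ↪ Fin t) (i0 : Fin s) (z : Fin t ↪ B) (u : Fin s ↪ B) :
    Nat.card {x : Fin t ↪ B // (Q.P t).r (inc x) (inc z) ∧ ι.trans x = u} =
      Nat.card {x : Fin t ↪ V // (Q.P t).r x (inc z) ∧ ι.trans x = inc u} := by
  let F : {x : Fin t ↪ B // (Q.P t).r (inc x) (inc z) ∧ ι.trans x = u} →
      {x : Fin t ↪ V // (Q.P t).r x (inc z) ∧ ι.trans x = inc u} := fun x =>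
    ⟨inc x.1, x.2.1, congrArg inc x.2.2⟩
  apply Nat.card_congr (Equiv.ofBijective F ⟨?_, ?_⟩)
  · intro x y hxy
    exact Subtype.ext (inc_inj (congrArg Subtype.val hxy))
  · rintro ⟨x, hx, hxu⟩
    have hmem : ∀ k, x k ∈ B := by
      refine mem_of_rel hB ht hx (fun k => (z k).2) (ι i0) ?_
      have := DFunLike.congr_fun hxu i0
      change x (ι i0) = (u i0 : V) at this
      rw [this]
      exact (u i0).2
    let x' : Fin t ↪ B := ⟨fun k => ⟨x k, hmem k⟩, fun a b hab =>
      x.injective (congrArg Subtype.val hab)⟩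
    refine ⟨⟨x', ?_, ?_⟩, ?_⟩
    · have e : inc x' = x := by
        ext k
        rfl
      rw [e]
      exact hx
    · apply inc_inj
      rw [← hxu]
      ext k
      rfl
    · apply Subtype.ext
      ext k
      rfl

/-- the restriction of the scheme to `B` -/
def restr (Q : MScheme V m) (B : Set V) [Fintype B] (hB : Closed Q B) : MScheme B m where
  P s := Setoid.comap inc (Q.P s)
  compat s hs i x y h := Q.compat s hs i (inc x) (inc y) h
  regular s hs i z u v h := by
    rcases Nat.eq_zero_or_pos s with rfl | h0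
    · have : u = v := Subsingleton.elim _ _
      rw [this]
    · have h1 := card_ext hB hs (Fin.succAboveEmb i) ⟨0, h0⟩ z u
      have h2 := card_ext hB hs (Fin.succAboveEmb i) ⟨0, h0⟩ z v
      have h3 := Q.regular s hs i (inc z) (inc u) (inc v) h
      exact h1.trans (h3.trans h2.symm)
  inv s hs σ x y h := Q.inv s hs σ (inc x) (inc y) h

theorem restr_hom {Q : MScheme V m} {B : Set V} [Fintype B] (hB : Closed Q B)
    (h : Q.Homogeneous) : (restr Q B hB).Homogeneous := fun x y => h (inc x) (inc y)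

theorem restr_anti {Q : MScheme V m} {B : Set V} [Fintype B] (hB : Closed Q B)
    (h : Q.Antisymmetric) : (restr Q B hB).Antisymmetric :=
  fun s hs σ hσ x hx => h s hs σ hσ (inc x) hx

theorem restr_weak {Q : MScheme V m} {B : Set V} [Fintype B] (hB : Closed Q B)
    (h : ∀ x : Fin 2 ↪ V, ¬ (Q.P 2).r ((Equiv.swap (0 : Fin 2) 1).toEmbedding.trans x) x) :
    ∀ x : Fin 2 ↪ B, ¬ ((restr Q B hB).P 2).r ((Equiv.swap (0 : Fin 2) 1).toEmbedding.trans x) x :=
  fun x hx => h (inc x) hx

theorem size_one {Q : MScheme V m} (hH : Q.Homogeneous) (x : Fin 1 ↪ V) :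
    Q.size x = Fintype.card V := by
  unfold MScheme.size
  have e : {y : Fin 1 ↪ V // (Q.P 1).r y x} ≃ V :=
    { toFun := fun y => y.1 0
      invFun := fun a => ⟨⟨fun _ => a, fun i j _ => Subsingleton.elim i j⟩, hH _ _⟩
      left_inv := fun y => by
        apply Subtype.ext
        ext i
        rw [Subsingleton.elim i 0]
        rfl
      right_inv := fun a => rfl }
  rw [Nat.card_congr e, Nat.card_eq_fintype_card]

/-- a matching of the restriction is a matching -/
theorem hasMatching {Q : MScheme V m} (hH : Q.Homogeneous) {B : Set V} [Fintype B]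
    (hB : Closed Q B) (hne : 0 < Fintype.card B) (h : (restr Q B hB).HasMatching) :
    Q.HasMatching := by
  obtain ⟨s, h1, hs, z, i, j, hij, hd, hc⟩ := h
  refine ⟨s, h1, hs, inc z, i, j, hij, hd, ?_⟩
  have key : ∀ {t : ℕ}, 1 ≤ t → t ≤ m → ∀ w : Fin t ↪ B,
      Q.size (inc w) * Fintype.card B = (restr Q B hB).size w * Fintype.card V := by
    intro t ht1 htm w
    let ι : Fin 1 ↪ Fin t := ⟨fun _ => ⟨0, ht1⟩, fun a b _ => Subsingleton.elim a b⟩
    have e1 := rel_size Q htm ι (inc w)
    have e2 := rel_size (restr Q B hB) htm ι w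
    rw [size_one hH] at e1
    rw [size_one (restr_hom hB hH)] at e2
    have e3 := card_ext hB htm ι 0 w (ι.trans w)
    rw [e1, e2]
    have e4 : Nat.card {x : Fin t ↪ B // ((restr Q B hB).P t).r x w ∧ ι.trans x = ι.trans w} =
        Nat.card {x : Fin t ↪ V // (Q.P t).r x (inc w) ∧ ι.trans x = ι.trans (inc w)} := e3
    rw [e4]
    ring
  have k1 := key h1 (by omega) (del i z)
  have k2 := key (show 1 ≤ s + 1 by omega) hs z
  have hc' : (restr Q B hB).size (del i z) = (restr Q B hB).size z := hc
  rw [hc', ← k2] at k1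
  exact Nat.eq_of_mul_eq_mul_right hne k1

end Block

/-- **Block version.** From the theorem for schemes on sets of prime cardinality to schemes with
an invariant equivalence relation having one class of prime cardinality; here antisymmetry is only
asked of the colours of pairs. -/
theorem block_version_weak
    (main : ∀ (V : Type) [Fintype V] (m : ℕ) (Q : MScheme V m), 6 ≤ m →
      (Fintype.card V).Prime → Q.Homogeneous →
      (∀ x : Fin 2 ↪ V, ¬ (Q.P 2).r ((Equiv.swap (0 : Fin 2) 1).toEmbedding.trans x) x) →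
      Q.HasMatching)
    {V : Type} [Fintype V] {m : ℕ} (Q : MScheme V m) (hm : 6 ≤ m) (hH : Q.Homogeneous)
    (hA : ∀ x : Fin 2 ↪ V, ¬ (Q.P 2).r ((Equiv.swap (0 : Fin 2) 1).toEmbedding.trans x) x)
    (E : Setoid V)
    (hE : ∀ x y : Fin 2 ↪ V, (Q.P 2).r x y → (E.r (x 0) (x 1) ↔ E.r (y 0) (y 1)))
    (a : V) (hp : (Nat.card {b : V // E.r b a}).Prime) : Q.HasMatching := by
  classical
  let B : Set V := {b | E.r b a}
  have hB : Block.Closed Q B := by
    intro x y hxy h0 h1 h2
    have h3 : E.r (x 0) (x 1) := E.trans' h0 (E.symm' h1)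
    have h4 := (hE x y hxy).1 h3
    exact E.trans' (E.symm' h4) h2
  haveI : Fintype B := Fintype.ofFinite B
  have hcard : Fintype.card B = Nat.card {b : V // E.r b a} := (Nat.card_eq_fintype_card).symm
  have hp' : (Fintype.card B).Prime := by
    rw [hcard]
    exact hp
  exact Block.hasMatching hH hB hp'.pos (main B m (Block.restr Q B hB) hm hp'
    (Block.restr_hom hB hH) (Block.restr_weak hB hA))

/-- **Block version.** From the theorem for schemes on sets of prime cardinality to schemes with
an invariant equivalence relation having one class of prime cardinality. -/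
theorem block_version
    (main : ∀ (V : Type) [Fintype V] (m : ℕ) (Q : MScheme V m), 6 ≤ m →
      (Fintype.card V).Prime → Q.Homogeneous → Q.Antisymmetric → Q.HasMatching)
    {V : Type} [Fintype V] {m : ℕ} (Q : MScheme V m) (hm : 6 ≤ m) (hH : Q.Homogeneous)
    (hA : Q.Antisymmetric) (E : Setoid V)
    (hE : ∀ x y : Fin 2 ↪ V, (Q.P 2).r x y → (E.r (x 0) (x 1) ↔ E.r (y 0) (y 1)))
    (a : V) (hp : (Nat.card {b : V // E.r b a}).Prime) : Q.HasMatching := by
  classical
  let B : Set V := {b | E.r b a}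
  have hB : Block.Closed Q B := by
    intro x y hxy h0 h1 h2
    have h3 : E.r (x 0) (x 1) := E.trans' h0 (E.symm' h1)
    have h4 := (hE x y hxy).1 h3
    exact E.trans' (E.symm' h4) h2
  haveI : Fintype B := Fintype.ofFinite B
  have hcard : Fintype.card B = Nat.card {b : V // E.r b a} := (Nat.card_eq_fintype_card).symm
  have hp' : (Fintype.card B).Prime := by
    rw [hcard]
    exact hp
  exact Block.hasMatching hH hB hp'.pos (main B m (Block.restr Q B hB) hm hp'
    (Block.restr_hom hB hH) (Block.restr_anti hB hA))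

end PDeg
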