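import Pool.Agent.Lib.MP_369ee2_lc_PD.OrdBase

/-!
# The corner order `OF = f e O e` and its ideal `MF = f r` for a Good pair
-/

set_option linter.unusedSectionVars false

namespace PD

variable {W K A : Type*} [CommRing W] [IsDomain W] [IsDiscreteValuationRing W] [Field K]
  [Algebra W K] [IsFractionRing W K] [Ring A] [Algebra K A] [Algebra W A] [IsScalarTower W K A]

/-- elements fixed by `e` on both sides -/
def fixd (W : Type*) {A : Type*} [CommRing W] [Ring A] [Algebra W A] (e : A) : Submodule W A where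
  carrier := {x | e * x = x ∧ x * e = x}
  add_mem' := by
    rintro a b ⟨h1, h2⟩ ⟨h3, h4⟩
    exact ⟨by rw [mul_add, h1, h3], by rw [add_mul, h2, h4]⟩
  zero_mem' := by simp
  smul_mem' := by
    rintro c x ⟨h1, h2⟩
    exact ⟨by rw [mul_smul_comm, h1], by rw [smul_mul_assoc, h2]⟩

theorem mem_fixd {e x : A} : x ∈ fixd W e ↔ e * x = x ∧ x * e = x := Iff.rfl

/-- the corner `e O e` -/
def Frame.corner (Fr : Frame W K A) (e : A) : Submodule W A :=
  Subalgebra.toSubmodule Fr.O ⊓ fixd W e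

theorem Frame.mem_corner {Fr : Frame W K A} {e x : A} :
    x ∈ Fr.corner e ↔ x ∈ Fr.O ∧ e * x = x ∧ x * e = x := Iff.rfl

/-- `f e O e` -/
def Frame.OF (Fr : Frame W K A) (e f : A) : Submodule W A :=
  (Fr.corner e).map (LinearMap.mulLeft W f)

/-- `f r` -/
def MF (r : Submodule W A) (f : A) : Submodule W A := r.map (LinearMap.mulLeft W f)

theorem Frame.mem_OF {Fr : Frame W K A} {e f x : A} :
    x ∈ Fr.OF e f ↔ ∃ y, (y ∈ Fr.O ∧ e * y = y ∧ y * e = y) ∧ f * y = x := Iff.rfl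

theorem mem_MF {r : Submodule W A} {f x : A} : x ∈ MF r f ↔ ∃ y ∈ r, f * y = x := Iff.rfl

namespace Frame

variable (Fr : Frame W K A)

include Fr in
theorem smul_inj (w : W) (hw : w ≠ 0) {x y : A} (h : w • x = w • y) : x = y := by
  have hwK : algebraMap W K w ≠ 0 := by
    intro h0
    exact hw ((IsFractionRing.injective W K) (by simpa using h0))
  rw [← algebraMap_smul K w x, ← algebraMap_smul K w y] at h
  exact smul_right_injective A hwK h

/-- submodules of a finitely generated `W`-module are finitely generated -/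
theorem fg_of_le {L M : Submodule W A} (h : L ≤ M) (hM : M.FG) : L.FG := by
  haveI : Module.Finite W M := Module.Finite.iff_fg.2 hM
  haveI : IsNoetherian W M := isNoetherian_of_isNoetherianRing_of_finite W M
  have h1 : (L.comap M.subtype).FG := IsNoetherian.noetherian _
  have h2 := h1.map M.subtype
  rwa [Submodule.map_comap_subtype, inf_eq_right.2 h] at h2

theorem corner_fg (e : A) : (Fr.corner e).FG := fg_of_le inf_le_left Fr.fg

theorem OF_fg (e f : A) : (Fr.OF e f).FG := (Fr.corner_fg e).map _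

/-- Nakayama for the uniformizer -/
theorem nak {L M : Submodule W A} (hM : M.FG)
    (h : M ≤ L ⊔ M.map (LinearMap.lsmul W A Fr.π)) : M ≤ L := by
  refine Submodule.le_of_le_smul_of_le_jacobson_bot (I := Ideal.span {Fr.π}) hM ?_ ?_
  · rw [← Fr.maximalIdeal_eq]
    exact IsLocalRing.maximalIdeal_le_jacobson _
  · refine h.trans (sup_le_sup le_rfl ?_)
    rintro _ ⟨y, hy, rfl⟩
    exact Submodule.smul_mem_smul (Ideal.mem_span_singleton_self _) hy

/-- test for membership in `O` for elements of a corner -/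
theorem mem_O_of_left {e x : A} (h : x * e = x) {f : A} (hf : f * x = x)
    (H : ∀ z ∈ Fr.O, IsInt W (Fr.τ (x * (e * z * f)))) : x ∈ Fr.O := by
  apply Fr.U
  intro z hz
  have := H z hz
  rw [show x * (e * z * f) = x * e * z * f by noncomm_ring, h, Fr.symm, ← mul_assoc, hf] at this
  exact this

end Frame

namespace Loc

variable {Fr : Frame W K A} {e : A} {r : Submodule W A}

theorem r_le (h : Loc Fr e r) : r ≤ Fr.corner e := fun _ hx =>
  ⟨h.r_mem _ hx, h.r_left _ hx, h.r_right _ hx⟩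

theorem e_mem (h : Loc Fr e r) : e ∈ Fr.corner e := ⟨h.mem, h.idem, h.idem⟩

theorem corner_mul {x y : A} (hx : x ∈ Fr.corner e) (hy : y ∈ Fr.corner e) :
    x * y ∈ Fr.corner e :=
  ⟨Fr.O.mul_mem hx.1 hy.1, by rw [← mul_assoc, hx.2.1], by rw [mul_assoc, hy.2.2]⟩

theorem r_pow_le (h : Loc Fr e r) (j : ℕ) : r ^ (j + 1) ≤ r := by
  induction j with
  | zero => simp
  | succ j ih =>
    rw [pow_succ]
    refine Submodule.mul_le.2 fun x hx y hy => ?_
    exact h.mul_r y (h.r_mem y hy) (h.r_left y hy) (h.r_right y hy) x (ih hx)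

/-- membership in `O` tested on `e` and `r` -/
theorem mem_O (h : Loc Fr e r) {x : A} (h1 : e * x = x) (h2 : x * e = x)
    (hτ : IsInt W (Fr.τ x)) (hr : ∀ y ∈ r, IsInt W (Fr.τ (x * y))) : x ∈ Fr.O := by
  apply Fr.mem_O_of_left h2 h1
  intro z hz
  obtain ⟨w, hw⟩ := h.dec (e * z * e) (Fr.O.mul_mem (Fr.O.mul_mem h.mem hz) h.mem)
    (by rw [← mul_assoc, ← mul_assoc, h.idem]) (by rw [mul_assoc, h.idem])
  have : x * (e * z * e) = x * (e * z * e - w • e) + w • x := by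
    rw [mul_sub, mul_smul_comm, h2]
    abel
  rw [this, map_add, Fr.tau_smul]
  exact (hr _ hw).add (hτ.smul w)

/-- elements of the corner outside `r` are units of the corner -/
theorem unit (h : Loc Fr e r) {x : A} (hx : x ∈ Fr.corner e) (hxr : x ∉ r) :
    ∃ u ∈ Fr.corner e, x * u = e ∧ u * x = e := by
  have key : ∀ x ∈ Fr.corner e, x ∉ r → ∃ u ∈ Fr.corner e, x * u = e := by
    intro x hx hxr
    obtain ⟨w, hw⟩ := h.dec x hx.1 hx.2.1 hx.2.2
    have hwu : IsUnit w := by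
      apply Fr.unit_of_not_dvd
      rintro ⟨v, rfl⟩
      apply hxr
      have : x = (x - (Fr.π * v) • e) + v • (Fr.π • e) := by
        rw [smul_smul, mul_comm v]; abel
      rw [this]
      exact r.add_mem hw (r.smul_mem _ h.pe)
    obtain ⟨w, rfl⟩ := hwu
    set m := x - (w : W) • e with hm
    have step : ∀ y, e * y = y → y = x * ((↑w⁻¹ : W) • y) - (↑w⁻¹ : W) • (m * y) := by
      intro y hy
      rw [mul_smul_comm, ← smul_sub, ← sub_mul, hm, sub_sub_cancel, smul_mul_assoc, hy, smul_smul,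
        Units.inv_mul, one_smul]
    let N : Submodule W A := (Fr.corner e).map (LinearMap.mulLeft W x)
    have h1 : ∀ j, Fr.corner e ≤ N ⊔ r ^ (j + 1) := by
      intro j
      induction j with
      | zero =>
        intro y hy
        rw [step y hy.2.1, sub_eq_add_neg]
        refine Submodule.add_mem_sup ⟨_, (Fr.corner e).smul_mem _ hy, rfl⟩ ?_
        rw [zero_add, pow_one]
        exact r.neg_mem (r.smul_mem _ (h.mul_r y hy.1 hy.2.1 hy.2.2 m hw))
      | succ j ih =>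
        refine ih.trans (sup_le le_sup_left ?_)
        intro y hy
        have hyr := h.r_pow_le j hy
        have hyc := h.r_le hyr
        rw [step y hyc.2.1, sub_eq_add_neg]
        refine Submodule.add_mem_sup ⟨_, (Fr.corner e).smul_mem _ hyc, rfl⟩ ?_
        refine Submodule.neg_mem _ (Submodule.smul_mem _ _ ?_)
        rw [pow_succ']
        exact Submodule.mul_mem_mul hw hy
    obtain ⟨n, hn, hnil⟩ := h.nil
    have h2 : Fr.corner e ≤ N := by
      refine Fr.nak (Fr.corner_fg e) ?_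
      refine (h1 (n - 1)).trans (sup_le_sup le_rfl ?_)
      rw [Nat.sub_add_cancel hn]
      intro y hy
      obtain ⟨t, ht, rfl⟩ := hnil y hy
      have hyr : Fr.π • t ∈ r := by
        have := h.r_pow_le (n - 1)
        rw [Nat.sub_add_cancel hn] at this
        exact this hy
      refine ⟨t, ⟨ht, ?_, ?_⟩, rfl⟩
      · apply Fr.smul_inj Fr.π Fr.pi_ne
        rw [← mul_smul_comm]
        exact h.r_left _ hyr
      · apply Fr.smul_inj Fr.π Fr.pi_ne
        rw [← smul_mul_assoc]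
        exact h.r_right _ hyr
    obtain ⟨u, hu, hxu⟩ := h2 h.e_mem
    exact ⟨u, hu, hxu⟩
  obtain ⟨u, hu, hxu⟩ := key x hx hxr
  have hur : u ∉ r := by
    intro hur
    apply h.ne
    rw [← hxu]
    exact h.mul_l x hx.1 hx.2.1 hx.2.2 u hur
  obtain ⟨v, hv, huv⟩ := key u hu hur
  refine ⟨u, hu, hxu, ?_⟩
  have : x = v := by
    calc x = x * e := hx.2.2.symm
      _ = x * (u * v) := by rw [huv]
      _ = (x * u) * v := by rw [mul_assoc]
      _ = v := by rw [hxu, hv.2.1]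
  rw [this]
  exact huv

theorem not_mem_of_unit (h : Loc Fr e r) {x u : A} (hu : u ∈ Fr.corner e) (hxu : x * u = e) :
    x ∉ r := by
  intro hx
  apply h.ne
  rw [← hxu]
  exact h.mul_r u hu.1 hu.2.1 hu.2.2 x hx

end Loc

namespace Good

variable {Fr : Frame W K A} {e f : A} {r : Submodule W A}

theorem comm (h : Good Fr e r f) {x : A} (hx : x ∈ Fr.corner e) : f * x = x * f :=
  h.central x hx.2.1 hx.2.2

theorem comm_r (h : Good Fr e r f) {x : A} (hx : x ∈ r) : f * x = x * f :=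
  h.comm (h.loc.r_le hx)

theorem MF_le_OF (h : Good Fr e r f) : MF r f ≤ Fr.OF e f :=
  Submodule.map_mono h.loc.r_le

theorem MF_O (h : Good Fr e r f) {x : A} (hx : x ∈ MF r f) : x ∈ Fr.O := by
  obtain ⟨y, hy, rfl⟩ := hx
  exact h.mul_mem y hy

theorem f_mem (h : Good Fr e r f) : f ∈ Fr.OF e f := ⟨e, h.loc.e_mem, h.fe⟩

theorem OF_left (h : Good Fr e r f) {x : A} (hx : x ∈ Fr.OF e f) : f * x = x := by
  obtain ⟨y, hy, rfl⟩ := hx
  change f * (f * y) = f * y
  rw [← mul_assoc, h.idem]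

theorem OF_right (h : Good Fr e r f) {x : A} (hx : x ∈ Fr.OF e f) : x * f = x := by
  obtain ⟨y, hy, rfl⟩ := hx
  change (f * y) * f = f * y
  rw [h.comm hy, mul_assoc, h.idem]

theorem OF_mul (h : Good Fr e r f) {x y : A} (hx : x ∈ Fr.OF e f) (hy : y ∈ Fr.OF e f) :
    x * y ∈ Fr.OF e f := by
  obtain ⟨a, ha, rfl⟩ := hx
  obtain ⟨b, hb, rfl⟩ := hy
  refine ⟨a * b, Loc.corner_mul ha hb, ?_⟩
  change f * (a * b) = (f * a) * (f * b)
  rw [h.comm ha, mul_assoc a, ← mul_assoc f f, h.idem, ← mul_assoc a, ← h.comm ha, mul_assoc]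

theorem OF_mul_MF (h : Good Fr e r f) {x y : A} (hx : x ∈ Fr.OF e f) (hy : y ∈ MF r f) :
    x * y ∈ MF r f := by
  obtain ⟨a, ha, rfl⟩ := hx
  obtain ⟨b, hb, rfl⟩ := hy
  refine ⟨a * b, h.loc.mul_l a ha.1 ha.2.1 ha.2.2 b hb, ?_⟩
  change f * (a * b) = (f * a) * (f * b)
  rw [h.comm ha, mul_assoc a, ← mul_assoc f f, h.idem, ← mul_assoc a, ← h.comm ha, mul_assoc]

theorem MF_mul_OF (h : Good Fr e r f) {x y : A} (hx : x ∈ MF r f) (hy : y ∈ Fr.OF e f) :
    x * y ∈ MF r f := by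
  obtain ⟨a, ha, rfl⟩ := hx
  obtain ⟨b, hb, rfl⟩ := hy
  refine ⟨a * b, h.loc.mul_r b hb.1 hb.2.1 hb.2.2 a ha, ?_⟩
  change f * (a * b) = (f * a) * (f * b)
  have ha' := h.loc.r_le ha
  rw [h.comm ha', mul_assoc a, ← mul_assoc f f, h.idem, ← mul_assoc a, ← h.comm ha', mul_assoc]

theorem OF_dec (h : Good Fr e r f) {x : A} (hx : x ∈ Fr.OF e f) :
    ∃ w : W, x - w • f ∈ MF r f := by
  obtain ⟨a, ha, rfl⟩ := hx
  obtain ⟨w, hw⟩ := h.loc.dec a ha.1 ha.2.1 ha.2.2
  refine ⟨w, _, hw, ?_⟩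
  change f * (a - w • e) = f * a - w • f
  rw [mul_sub, mul_smul_comm, h.fe]

theorem pf_mem (h : Good Fr e r f) : Fr.π • f ∈ MF r f := by
  refine ⟨_, h.loc.pe, ?_⟩
  change f * (Fr.π • e) = _
  rw [mul_smul_comm, h.fe]

theorem f_not_mem (h : Good Fr e r f) : f ∉ MF r f := fun hf => h.not_mem (h.MF_O hf)

theorem f_ne (h : Good Fr e r f) : f ≠ 0 := by
  rintro rfl
  exact h.not_mem Fr.O.zero_mem

/-- an element of `OF` outside `MF` is `w f + m` with `w` a unit -/
theorem dec_unit (h : Good Fr e r f) {x : A} (hx : x ∈ Fr.OF e f) (hxm : x ∉ MF r f) :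
    ∃ w : Wˣ, x - (w : W) • f ∈ MF r f := by
  obtain ⟨w, hw⟩ := h.OF_dec hx
  have hwu : IsUnit w := by
    apply Fr.unit_of_not_dvd
    rintro ⟨v, rfl⟩
    apply hxm
    have : x = (x - (Fr.π * v) • f) + v • (Fr.π • f) := by
      rw [smul_smul, mul_comm v]; abel
    rw [this]
    exact (MF r f).add_mem hw ((MF r f).smul_mem _ h.pf_mem)
  obtain ⟨w, rfl⟩ := hwu
  exact ⟨w, hw⟩

/-- (a) -/
theorem mem_MF_of_O (h : Good Fr e r f) {x : A} (hx : x ∈ Fr.O) (h1 : f * x = x)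
    (h2 : x * f = x) : x ∈ MF r f := by
  have he1 : e * x = x := by rw [← h1, ← mul_assoc, h.ef]
  have he2 : x * e = x := by rw [← h2, mul_assoc, h.fe]
  have hxO : x ∈ Fr.OF e f := ⟨x, ⟨hx, he1, he2⟩, h1⟩
  by_contra hxm
  obtain ⟨w, hw⟩ := h.dec_unit hxO hxm
  have h3 : (w : W) • f ∈ Fr.O := by
    have : (w : W) • f = x - (x - (w : W) • f) := by abel
    rw [this]
    exact Fr.O.sub_mem hx (h.MF_O hw)
  apply h.not_mem
  have : f = (↑w⁻¹ : W) • ((w : W) • f) := by rw [smul_smul, Units.inv_mul, one_smul]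
  rw [this]
  exact Fr.O.smul_mem h3 _

/-- (b) -/
theorem mem_MF_of_tau (h : Good Fr e r f) {x : A} (h1 : f * x = x) (h2 : x * f = x)
    (H : ∀ y ∈ Fr.OF e f, IsInt W (Fr.τ (x * y))) : x ∈ MF r f := by
  have he1 : e * x = x := by rw [← h1, ← mul_assoc, h.ef]
  have he2 : x * e = x := by rw [← h2, mul_assoc, h.fe]
  refine h.mem_MF_of_O ?_ h1 h2
  apply Fr.mem_O_of_left he2 he1
  intro z hz
  have hc : e * z * e ∈ Fr.corner e :=
    ⟨Fr.O.mul_mem (Fr.O.mul_mem h.loc.mem hz) h.loc.mem,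
      by rw [← mul_assoc, ← mul_assoc, h.loc.idem], by rw [mul_assoc, h.loc.idem]⟩
  have := H (f * (e * z * e)) ⟨_, hc, rfl⟩
  rwa [← mul_assoc, h2] at this

theorem tau_pf (h : Good Fr e r f) : IsInt W (Fr.π • Fr.τ f) := by
  rw [← Fr.tau_smul]
  exact Fr.V _ (h.MF_O h.pf_mem)

theorem tau_MF (h : Good Fr e r f) {x : A} (hx : x ∈ MF r f) : IsInt W (Fr.τ x) :=
  Fr.V _ (h.MF_O hx)

theorem tau_f (h : Good Fr e r f) : ¬ IsInt W (Fr.τ f) := by
  intro ht
  apply h.not_mem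
  refine h.loc.mem_O h.ef h.fe ht ?_
  intro y hy
  exact Fr.V _ (h.mul_mem y hy)

/-- (c) -/
theorem mem_OF_of_tau (h : Good Fr e r f) {x : A} (h1 : f * x = x) (h2 : x * f = x)
    (H : ∀ y ∈ MF r f, IsInt W (Fr.τ (x * y))) : x ∈ Fr.OF e f := by
  have he1 : e * x = x := by rw [← h1, ← mul_assoc, h.ef]
  have he2 : x * e = x := by rw [← h2, mul_assoc, h.fe]
  have hpx : IsInt W (Fr.π • Fr.τ x) := by
    have := H _ h.pf_mem
    rwa [mul_smul_comm, h2, Fr.tau_smul] at this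
  obtain ⟨w, hw⟩ := Fr.ratio h.tau_f h.tau_pf hpx
  have h3 : x - w • f ∈ Fr.O := by
    refine h.loc.mem_O ?_ ?_ ?_ ?_
    · rw [mul_sub, mul_smul_comm, h.ef, he1]
    · rw [sub_mul, smul_mul_assoc, h.fe, he2]
    · rw [map_sub, Fr.tau_smul, hw, sub_self]
      exact IsInt.zero
    · intro y hy
      rw [sub_mul, smul_mul_assoc, map_sub, Fr.tau_smul]
      refine IsInt.sub ?_ (IsInt.smul w (Fr.V _ (h.mul_mem y hy)))
      have := H (f * y) ⟨y, hy, rfl⟩
      rwa [← mul_assoc, h2] at this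
  have h4 : x - w • f ∈ MF r f := by
    refine h.mem_MF_of_O h3 ?_ ?_
    · rw [mul_sub, mul_smul_comm, h.idem, h1]
    · rw [sub_mul, smul_mul_assoc, h.idem, h2]
  have : x = (x - w • f) + w • f := by abel
  rw [this]
  exact (Fr.OF e f).add_mem (h.MF_le_OF h4) ((Fr.OF e f).smul_mem _ h.f_mem)

/-- elements of `OF` outside `MF` are units of `OF` -/
theorem unit (h : Good Fr e r f) {x : A} (hx : x ∈ Fr.OF e f) (hxm : x ∉ MF r f) :
    ∃ u ∈ Fr.OF e f, x * u = f ∧ u * x = f := by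
  obtain ⟨a, ha, rfl⟩ := hx
  have har : a ∉ r := by
    intro har
    exact hxm ⟨a, har, rfl⟩
  obtain ⟨u, hu, h1, h2⟩ := h.loc.unit ha har
  refine ⟨f * u, ⟨u, hu, rfl⟩, ?_, ?_⟩
  · change (f * a) * (f * u) = f
    rw [h.comm ha, mul_assoc a, ← mul_assoc f f, h.idem, ← mul_assoc a, ← h.comm ha, mul_assoc, h1,
      h.fe]
  · change (f * u) * (f * a) = f
    rw [h.comm hu, mul_assoc u, ← mul_assoc f f, h.idem, ← mul_assoc u, ← h.comm hu, mul_assoc, h2,
      h.fe]

theorem MF_pow (h : Good Fr e r f) (j : ℕ) : (MF r f) ^ (j + 1) ≤ MF (r ^ (j + 1)) f := by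
  induction j with
  | zero => simp
  | succ j ih =>
    rw [pow_succ]
    refine Submodule.mul_le.2 fun x hx y hy => ?_
    obtain ⟨a, ha, rfl⟩ := ih hx
    obtain ⟨b, hb, rfl⟩ := hy
    refine ⟨a * b, by rw [pow_succ]; exact Submodule.mul_mem_mul ha hb, ?_⟩
    change f * (a * b) = (f * a) * (f * b)
    have ha' := h.loc.r_le (h.loc.r_pow_le j ha)
    rw [h.comm ha', mul_assoc a, ← mul_assoc f f, h.idem, ← mul_assoc a, ← h.comm ha', mul_assoc]

/-- `MF ^ n` lies in `π OF` for some `n > 0` -/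
theorem MF_nil (h : Good Fr e r f) :
    ∃ n : ℕ, 0 < n ∧ ∀ x ∈ (MF r f) ^ n, ∃ y ∈ Fr.OF e f, x = Fr.π • y := by
  obtain ⟨n, hn, hnil⟩ := h.loc.nil
  refine ⟨n, hn, ?_⟩
  intro x hx
  have h1 := h.MF_pow (n - 1)
  rw [Nat.sub_add_cancel hn] at h1
  obtain ⟨a, ha, rfl⟩ := h1 hx
  obtain ⟨t, ht, rfl⟩ := hnil a ha
  have hyr : Fr.π • t ∈ r := by
    have := h.loc.r_pow_le (n - 1)
    rw [Nat.sub_add_cancel hn] at this
    exact this ha
  refine ⟨f * t, ⟨t, ⟨ht, ?_, ?_⟩, rfl⟩, ?_⟩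
  · apply Fr.smul_inj Fr.π Fr.pi_ne
    rw [← mul_smul_comm]
    exact h.loc.r_left _ hyr
  · apply Fr.smul_inj Fr.π Fr.pi_ne
    rw [← smul_mul_assoc]
    exact h.loc.r_right _ hyr
  · change f * (Fr.π • t) = _
    rw [mul_smul_comm]

end Good

end PD
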