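import Pool.Agent.Lib.MP_369ee2_lc_PD.BrV
import Pool.Agent.Lib.MP_369ee2_lc_PD.OrdGood

/-!
# Bridge between `PDeg.SymOrder`, `PDeg.LocIdem`, `PDeg.Good` and `PD.Frame`, `PD.Loc`, `PD.Good`
-/

namespace PDeg

open scoped BigOperators

section base
variable {p : ℕ} {W K F : Type} [CommRing W] [IsDomain W] [Field K] [Algebra W K]
  [IsFractionRing W K] [Field F] [Algebra W F]

theorem Base.p_ne_zero (hB : Base p W K F) : (p : W) ≠ 0 := by
  have := hB.charZero
  intro h
  have h1 : (algebraMap W K) (p : W) = 0 := by rw [h, map_zero]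
  rw [map_natCast] at h1
  exact hB.prime.ne_zero (Nat.cast_eq_zero.1 h1)

theorem Base.irr (hB : Base p W K F) : Irreducible (p : W) := by
  have h0 := hB.p_ne_zero
  have hker := hB.ker
  constructor
  · intro hu
    have h1 : (p : W) ∣ 1 := hu.dvd
    have h2 := (hker 1).2 h1
    rw [map_one] at h2
    exact one_ne_zero h2
  · intro a b hab
    have h1 : algebraMap W F a * algebraMap W F b = 0 := by
      rw [← map_mul, ← hab]
      exact (hker _).2 dvd_rfl
    rcases mul_eq_zero.1 h1 with h | h
    · obtain ⟨c, hc⟩ := (hker a).1 h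
      right
      have h2 : (p : W) * (c * b) = (p : W) * 1 := by
        rw [mul_one, ← mul_assoc, ← hc, ← hab]
      have h3 := mul_left_cancel₀ h0 h2
      exact IsUnit.of_mul_eq_one c (by rw [mul_comm]; exact h3)
    · obtain ⟨c, hc⟩ := (hker b).1 h
      left
      have h2 : (p : W) * (a * c) = (p : W) * 1 := by
        rw [mul_one, mul_left_comm, ← hc, ← hab]
      have h3 := mul_left_cancel₀ h0 h2
      exact IsUnit.of_mul_eq_one c h3

/-- an element of `W` with nonzero residue is a unit -/
theorem Base.isUnit_of_ne (hB : Base p W K F) {w : W} (hw : algebraMap W F w ≠ 0) : IsUnit w := by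
  have := hB.dvr
  have hmax : (RingHom.ker (algebraMap W F)).IsMaximal :=
    RingHom.ker_isMaximal_of_surjective _ hB.surj
  have h1 := IsLocalRing.eq_maximalIdeal hmax
  by_contra hu
  apply hw
  have h2 : w ∈ IsLocalRing.maximalIdeal W := (IsLocalRing.mem_maximalIdeal w).2 hu
  rw [← h1] at h2
  exact h2

theorem Base.isUnit_iff (hB : Base p W K F) {w : W} : IsUnit w ↔ algebraMap W F w ≠ 0 :=
  ⟨fun h => (h.map (algebraMap W F)).ne_zero, hB.isUnit_of_ne⟩

theorem Base.two (hB : Base p W K F) (hp : p ≠ 2) : IsUnit (2 : W) := by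
  apply hB.isUnit_of_ne
  intro h2
  rcases hB.prime.eq_two_or_odd' with h | ⟨m, hm⟩
  · exact hp h
  · have h3 : algebraMap W F (p : W) = 0 := (hB.ker _).2 dvd_rfl
    have h4 : (p : W) = 2 * (m : W) + 1 := by rw [hm]; push_cast; ring
    rw [h4, map_add, map_mul, h2, zero_mul, zero_add, map_one] at h3
    exact one_ne_zero h3

end base

section frame
variable {p : ℕ} {W K : Type} {F : Type} [CommRing W] [IsDomain W] [Field K] [Algebra W K]
  [IsFractionRing W K] [Field F] [Algebra W F]
  {A : Type} [Ring A] [Algebra K A] [Algebra W A] [IsScalarTower W K A]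
  {O : Subalgebra W A} {τ : A →ₗ[K] K}

omit [IsDomain W] in
theorem natCast_mul_eq_smul (n : ℕ) (x : A) : (n : A) * x = (n : W) • x := by
  rw [Algebra.smul_def, map_natCast]

/-- nondegeneracy of the form of a symmetric order -/
theorem SymOrder.nondeg' (hB : Base p W K F) (H : SymOrder p O τ) (x : A)
    (hx : ∀ y : A, τ (x * y) = 0) : x = 0 := by
  have := hB.dvr
  -- the `K`-line of `x` lies in `O`
  let M : Submodule W A := (Submodule.span K {x}).restrictScalars W
  have hM : M ≤ Subalgebra.toSubmodule O := by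
    intro y hy
    have hy' : y ∈ Submodule.span K {x} := hy
    obtain ⟨c, rfl⟩ := Submodule.mem_span_singleton.1 hy'
    apply H.dual
    intro z _
    rw [smul_mul_assoc, map_smul, hx, smul_zero]
    exact ⟨0, map_zero _⟩
  have hfg : M.FG := PD.Frame.fg_of_le hM H.fg
  have hp0 : algebraMap W K (p : W) ≠ 0 := by
    intro h
    exact hB.p_ne_zero ((IsFractionRing.injective W K) (by rw [h, map_zero]))
  have hsm : M ≤ (Ideal.span {(p : W)}) • M := by
    intro y hy
    have h1 : y = (p : W) • ((algebraMap W K (p : W))⁻¹ • y) := by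
      rw [← algebraMap_smul K (p : W), smul_smul, mul_inv_cancel₀ hp0, one_smul]
    rw [h1]
    refine Submodule.smul_mem_smul (Ideal.mem_span_singleton_self _) ?_
    exact (Submodule.span K {x}).smul_mem _ hy
  have hjac : Ideal.span {(p : W)} ≤ Ideal.jacobson ⊥ := by
    rw [IsLocalRing.jacobson_eq_maximalIdeal ⊥ bot_ne_top, Ideal.span_singleton_le_iff_mem,
      IsLocalRing.mem_maximalIdeal]
    exact hB.irr.not_isUnit
  have hbot := Submodule.eq_bot_of_le_smul_of_le_jacobson_bot _ _ hfg hsm hjac
  have hxM : x ∈ M := Submodule.mem_span_singleton_self x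
  rw [hbot] at hxM
  exact (Submodule.mem_bot W).1 hxM

variable (τ) in
/-- the frame attached to a symmetric order -/
noncomputable def frameOf [IsDiscreteValuationRing W] (hB : Base p W K F) (hp : p ≠ 2)
    (H : SymOrder p O τ) : PD.Frame W K A where
  π := (p : W)
  irr := hB.irr
  two := hB.two hp
  O := O
  fg := H.fg
  full := fun x => by
    obtain ⟨n, hn⟩ := H.span x
    refine ⟨(p : W) ^ n, pow_ne_zero n hB.p_ne_zero, ?_⟩
    have h1 : ((p : W) ^ n) • x = (p : A) ^ n * x := by
      rw [Algebra.smul_def, map_pow, map_natCast]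
    rw [h1]; exact hn
  τ := τ
  symm := H.comm
  V := H.int
  U := H.dual
  nondeg := fun x hx => H.nondeg' hB x hx
  nilp := H.nil

section
variable [IsDiscreteValuationRing W] (hB : Base p W K F) (hp : p ≠ 2) (H : SymOrder p O τ)

theorem frameOf_O : (frameOf τ hB hp H).O = O := rfl

theorem frameOf_τ : (frameOf τ hB hp H).τ = τ := rfl

theorem frameOf_π : (frameOf τ hB hp H).π = (p : W) := rfl

/-- local idempotents -/
theorem LocIdem.toLoc (E : LocIdem p O) : PD.Loc (frameOf τ hB hp H) E.e E.rad where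
  idem := E.idem
  mem := E.mem
  r_mem := E.rad_mem
  r_left := E.rad_left
  r_right := E.rad_right
  dec := fun x hx h1 h2 => by
    obtain ⟨w, hw⟩ := E.decomp x hx
    rw [h1, h2] at hw
    exact ⟨w, hw⟩
  mul_l := fun x hx h1 _ y hy => by
    have := E.mul_left x hx y hy
    rwa [h1] at this
  mul_r := fun x hx _ h2 y hy => by
    have := E.mul_right x hx y hy
    rwa [mul_assoc, h2] at this
  pe := by
    have := E.p_mem
    rwa [natCast_mul_eq_smul (W := W)] at this
  ne := E.not_mem
  nil := by
    obtain ⟨n, hn⟩ := E.nilp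
    refine ⟨n + 1, Nat.succ_pos n, ?_⟩
    intro x hx
    rw [pow_succ] at hx
    induction hx using Submodule.mul_induction_on' with
    | mem_mul_mem a ha b hb =>
      obtain ⟨y, hy, rfl⟩ := hn a ha
      refine ⟨y * b, O.mul_mem hy (E.rad_mem b hb), ?_⟩
      rw [mul_assoc, natCast_mul_eq_smul (W := W)]
      rfl
    | add a _ b _ iha ihb =>
      obtain ⟨y, hy, rfl⟩ := iha
      obtain ⟨y', hy', rfl⟩ := ihb
      exact ⟨y + y', O.add_mem hy hy', by rw [smul_add]⟩

/-- a local idempotent of the frame gives a `LocIdem` -/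
def locIdemOf {e : A} {r : Submodule W A} (h : PD.Loc (frameOf τ hB hp H) e r) :
    LocIdem p O where
  e := e
  rad := r
  mem := h.mem
  idem := h.idem
  rad_mem := h.r_mem
  rad_left := h.r_left
  rad_right := h.r_right
  mul_left := fun x hx y hy => by
    have h1 := h.mul_l (e * x * e) (O.mul_mem (O.mul_mem h.mem hx) h.mem)
      (by rw [← mul_assoc, ← mul_assoc, h.idem]) (by rw [mul_assoc, h.idem]) y hy
    rwa [mul_assoc (e * x), h.r_left y hy] at h1
  mul_right := fun x hx y hy => by
    have h1 := h.mul_r (e * x * e) (O.mul_mem (O.mul_mem h.mem hx) h.mem)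
      (by rw [← mul_assoc, ← mul_assoc, h.idem]) (by rw [mul_assoc, h.idem]) y hy
    rwa [← mul_assoc, ← mul_assoc, h.r_right y hy] at h1
  p_mem := by
    have := h.pe
    rw [natCast_mul_eq_smul (W := W)]
    exact this
  not_mem := h.ne
  decomp := fun x hx => h.dec (e * x * e) (O.mul_mem (O.mul_mem h.mem hx) h.mem)
      (by rw [← mul_assoc, ← mul_assoc, h.idem]) (by rw [mul_assoc, h.idem])
  nilp := by
    obtain ⟨n, _, hn⟩ := h.nil
    refine ⟨n, fun x hx => ?_⟩
    obtain ⟨y, hy, hxy⟩ := hn x hx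
    refine ⟨y, hy, ?_⟩
    rw [natCast_mul_eq_smul (W := W)]
    exact hxy

theorem locIdemOf_e {e : A} {r : Submodule W A} (h : PD.Loc (frameOf τ hB hp H) e r) :
    (locIdemOf hB hp H h).e = e := rfl

theorem locIdemOf_rad {e : A} {r : Submodule W A} (h : PD.Loc (frameOf τ hB hp H) e r) :
    (locIdemOf hB hp H h).rad = r := rfl

/-- good components -/
theorem good_iff {E : LocIdem p O} {f : A} :
    Good E f ↔ PD.Good (frameOf τ hB hp H) E.e E.rad f := by
  constructor
  · intro h
    refine ⟨E.toLoc hB hp H, h.idem, h.left, h.right, ?_, h.not_mem, h.rad⟩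
    intro x h1 h2
    have := h.central x
    rwa [h1, h2] at this
  · intro h
    refine ⟨h.idem, h.ef, h.fe, ?_, h.not_mem, h.mul_mem⟩
    intro x
    exact h.central _ (by rw [← mul_assoc, ← mul_assoc, E.idem]) (by rw [mul_assoc, E.idem])

/-- good components of the frame -/
theorem good_of {e f : A} {r : Submodule W A} (h : PD.Good (frameOf τ hB hp H) e r f) :
    Good (locIdemOf hB hp H h.loc) f := (good_iff hB hp H).2 h

omit [IsDomain W] [IsDiscreteValuationRing W] in
theorem fRad_eq (E : LocIdem p O) (f : A) : fRad E f = PD.MF E.rad f := rfl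

theorem fOf_eq {E : LocIdem p O} {f : A} (h : Good E f) :
    fOf W O f = (frameOf τ hB hp H).OF E.e f := by
  ext x
  rw [mem_fOf, PD.Frame.mem_OF]
  have key : ∀ z, f * (z * f) = f * (E.e * z * E.e) := by
    intro z
    have h1 := h.central z
    calc f * (z * f) = (f * E.e) * z * (E.e * f) := by rw [h.left, h.right]; noncomm_ring
      _ = f * (E.e * z * E.e * f) := by noncomm_ring
      _ = f * (f * (E.e * z * E.e)) := by rw [h1]
      _ = f * (E.e * z * E.e) := by rw [← mul_assoc, h.idem]
  constructor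
  · rintro ⟨z, hz, rfl⟩
    exact ⟨E.e * z * E.e, ⟨O.mul_mem (O.mul_mem E.mem hz) E.mem,
      by rw [← mul_assoc, ← mul_assoc, E.idem], by rw [mul_assoc, E.idem]⟩, (key z).symm⟩
  · rintro ⟨z, ⟨hz, h1, h2⟩, rfl⟩
    refine ⟨z, hz, ?_⟩
    rw [key, h1, h2]

end

end frame

end PDeg
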