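import Mathlib

/-!
# Coherent colourings of tuples of length at most 6 (prime degree theorem)
-/

namespace PDeg

open scoped BigOperators Matrix

/-- append a point -/
def sn {X : Type} {n : ℕ} (u : Fin n → X) (a : X) : Fin (n + 1) → X :=
  Fin.snoc (α := fun _ => X) u a

/-- a coherent colouring of the tuples (repetitions allowed) of length at most 6, homogeneous,
all fibres over nonempty short tuples odd and smaller than `X` -/
structure Coh (X : Type) [Fintype X] where
  /-- `r n x y`: the `n`-tuples `x` and `y` have the same colour -/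
  r : ∀ n : ℕ, (Fin n → X) → (Fin n → X) → Prop
  equiv : ∀ n, n ≤ 6 → Equivalence (r n)
  reindex : ∀ {n k : ℕ}, n ≤ 6 → k ≤ 6 → ∀ (π : Fin k → Fin n) (x y : Fin n → X),
    r n x y → r k (fun i => x (π i)) (fun i => y (π i))
  pattern : ∀ {n : ℕ}, n ≤ 6 → ∀ (x y : Fin n → X), r n x y → ∀ i j, x i = x j → y i = y j
  regular : ∀ {n : ℕ}, n + 1 ≤ 6 → ∀ (z : Fin (n + 1) → X) (u v : Fin n → X), r n u v →
    Nat.card {a : X // r (n + 1) (sn u a) z} = Nat.card {a : X // r (n + 1) (sn v a) z}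
  hom : ∀ x y : Fin 1 → X, r 1 x y
  odd : ∀ {n : ℕ}, 1 ≤ n → n ≤ 3 → ∀ (u : Fin n → X) (b : X),
    Odd (Nat.card {a : X // r (n + 1) (sn u a) (sn u b)})
  lt : ∀ {n : ℕ}, 1 ≤ n → n ≤ 3 → ∀ (u : Fin n → X) (b : X),
    Nat.card {a : X // r (n + 1) (sn u a) (sn u b)} < Fintype.card X
  anti : ∀ x y : X, x ≠ y → ¬ r 2 ![x, y] ![y, x]

namespace Coh

variable {X : Type} [Fintype X] (C : Coh X)

/-- colour-constant functions on `X^n` -/
def Cst {R : Type*} (n : ℕ) (f : (Fin n → X) → R) : Prop := ∀ x y, C.r n x y → f x = f y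

theorem bij {n : ℕ} (hn : n + 1 ≤ 6) {u v : Fin n → X} (h : C.r n u v) :
    ∃ σ : Equiv.Perm X, ∀ a, C.r (n + 1) (sn u a) (sn v (σ a)) := by
  classical
  let S : Setoid (Fin (n + 1) → X) := ⟨C.r (n + 1), C.equiv _ hn⟩
  let Fu : X → Quotient S := fun a => Quotient.mk S (sn u a)
  let Fv : X → Quotient S := fun a => Quotient.mk S (sn v a)
  have hcard : ∀ q : Quotient S, Nonempty ({a // Fu a = q} ≃ {a // Fv a = q}) := by
    intro q
    induction q using Quotient.inductionOn with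
    | h z =>
      have e1 : ∀ (w : Fin n → X), ∀ a : X, (Quotient.mk S (sn w a) = Quotient.mk S z) ↔
          C.r (n + 1) (sn w a) z := fun w a =>
        ⟨fun hh => Quotient.exact hh, fun hh => Quotient.sound hh⟩
      have h1 := C.regular hn z u v h
      have h2 : Nat.card {a // Fu a = Quotient.mk S z} = Nat.card {a // Fv a = Quotient.mk S z} := by
        rw [Nat.card_congr (Equiv.subtypeEquivRight (e1 u)),
          Nat.card_congr (Equiv.subtypeEquivRight (e1 v)), h1]
      exact Finite.card_eq.1 h2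
  have e : ∀ q : Quotient S, ({a // Fu a = q} ≃ {a // Fv a = q}) := fun q => (hcard q).some
  refine ⟨(Equiv.sigmaFiberEquiv Fu).symm.trans ((Equiv.sigmaCongrRight e).trans
    (Equiv.sigmaFiberEquiv Fv)), fun a => ?_⟩
  have := (e (Fu a) ⟨a, rfl⟩).2
  apply Quotient.exact (s := S)
  exact this.symm

theorem Cst.sum {C : Coh X} {M : Type*} [AddCommMonoid M] {n : ℕ} (hn : n + 1 ≤ 6)
    {f : (Fin (n + 1) → X) → M} (hf : C.Cst (n + 1) f) :
    C.Cst n (fun u => ∑ a, f (sn u a)) := by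
  intro u v h
  obtain ⟨σ, hσ⟩ := C.bij hn h
  exact Fintype.sum_equiv σ _ _ (fun a => hf _ _ (hσ a))

theorem Cst.comp {C : Coh X} {R : Type*} {n k : ℕ} (hn : n ≤ 6) (hk : k ≤ 6)
    (π : Fin k → Fin n) {f : (Fin k → X) → R} (hf : C.Cst k f) :
    C.Cst n (fun x => f (fun i => x (π i))) :=
  fun x y h => hf _ _ (C.reindex hn hk π x y h)

variable (R : Type) [CommRing R]

/-- colour-constant `X × X` matrices -/
def Lam [DecidableEq X] : Subalgebra R (Matrix X X R) where
  carrier := {a | C.Cst 2 (fun t => a (t 0) (t 1))}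
  mul_mem' := by
    intro a b ha hb x y h
    obtain ⟨σ, hσ⟩ := C.bij (n := 2) (by norm_num) h
    simp only [Matrix.mul_apply]
    refine Fintype.sum_equiv σ _ _ (fun w => ?_)
    have h1 := ha _ _ (C.reindex (n := 3) (k := 2) (by norm_num) (by norm_num) ![0, 2] _ _ (hσ w))
    have h2 := hb _ _ (C.reindex (n := 3) (k := 2) (by norm_num) (by norm_num) ![2, 1] _ _ (hσ w))
    exact congrArg₂ (· * ·) h1 h2
  add_mem' := by
    intro a b ha hb x y h
    exact congrArg₂ (· + ·) (ha _ _ h) (hb _ _ h)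
  algebraMap_mem' := by
    intro c x y h
    have h1 := C.pattern (by norm_num) _ _ h
    have h2 := C.pattern (by norm_num) _ _ ((C.equiv 2 (by norm_num)).symm h)
    have h3 : x 0 = x 1 ↔ y 0 = y 1 := ⟨h1 0 1, h2 0 1⟩
    simp only [Matrix.algebraMap_matrix_apply]
    by_cases hx : x 0 = x 1
    · rw [if_pos hx, if_pos (h3.1 hx)]
    · rw [if_neg hx, if_neg (fun hh => hx (h3.2 hh))]

theorem mem_Lam [DecidableEq X] {a : Matrix X X R} :
    a ∈ C.Lam R ↔ C.Cst 2 (fun t => a (t 0) (t 1)) := Iff.rfl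

/-- the algebra of colour-constant functions on `X^3`, multiplied with fixed first coordinate -/
def AA [DecidableEq X] : Subalgebra R (X → Matrix X X R) where
  carrier := {a | C.Cst 3 (fun t => a (t 0) (t 1) (t 2))}
  mul_mem' := by
    intro a b ha hb x y h
    obtain ⟨σ, hσ⟩ := C.bij (n := 3) (by norm_num) h
    simp only [Pi.mul_apply, Matrix.mul_apply]
    refine Fintype.sum_equiv σ _ _ (fun w => ?_)
    have h1 := ha _ _ (C.reindex (n := 4) (k := 3) (by norm_num) (by norm_num) ![0, 1, 3] _ _ (hσ w))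
    have h2 := hb _ _ (C.reindex (n := 4) (k := 3) (by norm_num) (by norm_num) ![0, 3, 2] _ _ (hσ w))
    exact congrArg₂ (· * ·) h1 h2
  add_mem' := by
    intro a b ha hb x y h
    exact congrArg₂ (· + ·) (ha _ _ h) (hb _ _ h)
  algebraMap_mem' := by
    intro c x y h
    have h1 := C.pattern (by norm_num) _ _ h
    have h2 := C.pattern (by norm_num) _ _ ((C.equiv 3 (by norm_num)).symm h)
    have h3 : x 1 = x 2 ↔ y 1 = y 2 := ⟨h1 1 2, h2 1 2⟩
    simp only [Pi.algebraMap_apply, Matrix.algebraMap_matrix_apply]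
    by_cases hx : x 1 = x 2
    · rw [if_pos hx, if_pos (h3.1 hx)]
    · rw [if_neg hx, if_neg (fun hh => hx (h3.2 hh))]

theorem mem_AA [DecidableEq X] {a : X → Matrix X X R} :
    a ∈ C.AA R ↔ C.Cst 3 (fun t => a (t 0) (t 1) (t 2)) := Iff.rfl

/-- colour-constant matrices indexed by pairs -/
def PP [DecidableEq X] : Subalgebra R (Matrix (X × X) (X × X) R) where
  carrier := {T | C.Cst 4 (fun t => T (t 0, t 1) (t 2, t 3))}
  mul_mem' := by
    intro a b ha hb x y h
    obtain ⟨σ, hσ⟩ := C.bij (n := 4) (by norm_num) h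
    simp only [Matrix.mul_apply, Fintype.sum_prod_type]
    refine Fintype.sum_equiv σ _ _ (fun w => ?_)
    obtain ⟨σ', hσ'⟩ := C.bij (n := 5) (by norm_num) (hσ w)
    refine Fintype.sum_equiv σ' _ _ (fun w' => ?_)
    have h1 := ha _ _ (C.reindex (n := 6) (k := 4) (by norm_num) (by norm_num) ![0, 1, 4, 5] _ _ (hσ' w'))
    have h2 := hb _ _ (C.reindex (n := 6) (k := 4) (by norm_num) (by norm_num) ![4, 5, 2, 3] _ _ (hσ' w'))
    exact congrArg₂ (· * ·) h1 h2
  add_mem' := by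
    intro a b ha hb x y h
    exact congrArg₂ (· + ·) (ha _ _ h) (hb _ _ h)
  algebraMap_mem' := by
    intro c x y h
    have h1 := C.pattern (by norm_num) _ _ h
    have h2 := C.pattern (by norm_num) _ _ ((C.equiv 4 (by norm_num)).symm h)
    have h3 : (x 0 = x 2 ∧ x 1 = x 3) ↔ (y 0 = y 2 ∧ y 1 = y 3) :=
      ⟨fun hh => ⟨h1 0 2 hh.1, h1 1 3 hh.2⟩, fun hh => ⟨h2 0 2 hh.1, h2 1 3 hh.2⟩⟩
    simp only [Matrix.algebraMap_matrix_apply, Prod.mk.injEq]
    by_cases hx : x 0 = x 2 ∧ x 1 = x 3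
    · rw [if_pos hx, if_pos (h3.1 hx)]
    · rw [if_neg hx, if_neg (fun hh => hx (h3.2 hh))]

theorem mem_PP [DecidableEq X] {T : Matrix (X × X) (X × X) R} :
    T ∈ C.PP R ↔ C.Cst 4 (fun t => T (t 0, t 1) (t 2, t 3)) := Iff.rfl

end Coh

end PDeg
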