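import Pool.Agent.Lib.MP_369ee2_lc.RelAPI

/-!
# Colours of arbitrary tuples (repetitions allowed)
-/

namespace MSch

open Function

namespace MScheme

variable {V : Type} [Fintype V] {m : ℕ}

/-- same colour, for arbitrary tuples (repetitions allowed) -/
def ceq (Q : MScheme V m) {I : Type} (x y : I → V) : Prop :=
  ∃ (J : Type) (_ : Fintype J) (π : I → J) (x' y' : J ↪ V), Surjective π ∧ Q.rel x' y' ∧
    (∀ i, x i = x' (π i)) ∧ (∀ i, y i = y' (π i))

variable (Q : MScheme V m)

/-- normal form of a tuple -/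
theorem exists_normal {I : Type} (x : I → V) :
    ∃ (J : Type) (_ : Fintype J) (π : I → J) (x' : J ↪ V), Surjective π ∧
      (∀ i, x i = x' (π i)) := by
  classical
  refine ⟨Set.range x, Fintype.ofFinite _, Set.rangeFactorization x,
    Embedding.subtype _, Set.rangeFactorization_surjective, fun i => rfl⟩

theorem ceq_refl {I : Type} (x : I → V) : Q.ceq x x := by
  obtain ⟨J, hJ, π, x', hπ, hx⟩ := exists_normal x
  exact ⟨J, hJ, π, x', x', hπ, rel_refl Q x', hx, hx⟩

theorem ceq_symm {I : Type} {x y : I → V} (h : Q.ceq x y) : Q.ceq y x := by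
  obtain ⟨J, hJ, π, x', y', hπ, hr, hx, hy⟩ := h
  exact ⟨J, hJ, π, y', x', hπ, rel_symm Q hr, hy, hx⟩

theorem card_le_of_surj {I J : Type} [Fintype I] [Fintype J] (hI : Fintype.card I ≤ m)
    (π : I → J) (hπ : Surjective π) : Fintype.card J ≤ m :=
  (Fintype.card_le_of_surjective π hπ).trans hI

/-- relation to a tuple in normal form -/
theorem ceq_iff {I L : Type} [Fintype I] [Fintype L] (hI : Fintype.card I ≤ m)
    {z : I → V} (ρ : I → L) (hρ : Surjective ρ) (z' : L ↪ V) (hz : ∀ i, z i = z' (ρ i))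
    (x : I → V) : Q.ceq x z ↔ ∃ x' : L ↪ V, Q.rel x' z' ∧ ∀ i, x i = x' (ρ i) := by
  constructor
  · rintro ⟨J, hJ, π, x', y', hπ, hr, hx, hy⟩
    have hJm : Fintype.card J ≤ m := card_le_of_surj hI π hπ
    have hLm : Fintype.card L ≤ m := card_le_of_surj hI ρ hρ
    have key : ∀ i j, π i = π j ↔ ρ i = ρ j := by
      intro i j
      rw [← y'.injective.eq_iff, ← hy, ← hy, hz, hz, z'.injective.eq_iff]
    -- the map `L → J`
    obtain ⟨s, hs⟩ := hρ.hasRightInverse
    have h1 : ∀ i, π (s (ρ i)) = π i := by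
      intro i
      rw [key, hs]
    let e : L ↪ J := ⟨fun l => π (s l), by
      intro a b hab
      have := (key _ _).1 hab
      rwa [hs, hs] at this⟩
    refine ⟨e.trans x', ?_, ?_⟩
    · have h2 : e.trans y' = z' := by
        ext l
        obtain ⟨i, rfl⟩ := hρ l
        show y' (π (s (ρ i))) = z' (ρ i)
        rw [h1, ← hy, hz]
      have := rel_comp Q hJm e hr
      rwa [h2] at this
    · intro i
      show x i = x' (π (s (ρ i)))
      rw [h1, hx]
  · rintro ⟨x', hr, hx⟩
    exact ⟨L, inferInstance, ρ, x', z', hρ, hr, hx, hz⟩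

theorem ceq_trans {I : Type} [Fintype I] (hI : Fintype.card I ≤ m) {x y z : I → V}
    (h : Q.ceq x y) (h' : Q.ceq y z) : Q.ceq x z := by
  obtain ⟨J, hJ, π, y', z', hπ, hr, hy, hz⟩ := h'
  have hJm : Fintype.card J ≤ m := card_le_of_surj hI π hπ
  rw [Q.ceq_iff hI π hπ y' hy] at h
  obtain ⟨x', hr', hx⟩ := h
  exact ⟨J, hJ, π, x', z', hπ, rel_trans Q hJm hr' hr, hx, hz⟩

theorem ceq_eq_iff {I : Type} {x y : I → V} (h : Q.ceq x y) (i j : I) :
    x i = x j ↔ y i = y j := by
  obtain ⟨J, hJ, π, x', y', hπ, hr, hx, hy⟩ := h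
  rw [hx, hx, hy, hy, x'.injective.eq_iff, y'.injective.eq_iff]

theorem ceq_comp {I I' : Type} [Fintype I] (hI : Fintype.card I ≤ m) {x y : I → V}
    (h : Q.ceq x y) (ρ : I' → I) : Q.ceq (fun i => x (ρ i)) (fun i => y (ρ i)) := by
  classical
  obtain ⟨J, hJ, π, x', y', hπ, hr, hx, hy⟩ := h
  have hJm : Fintype.card J ≤ m := card_le_of_surj hI π hπ
  let _ : Fintype (Set.range (fun i => π (ρ i))) := Fintype.ofFinite _
  refine ⟨Set.range (fun i => π (ρ i)), inferInstance,
    Set.rangeFactorization (fun i => π (ρ i)), (Embedding.subtype _).trans x',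
    (Embedding.subtype _).trans y', Set.rangeFactorization_surjective, ?_, ?_, ?_⟩
  · exact rel_comp Q hJm (Embedding.subtype _) hr
  · intro i
    exact hx (ρ i)
  · intro i
    exact hy (ρ i)

theorem ceq_inj_iff {I : Type} [Fintype I] (hI : Fintype.card I ≤ m) (x y : I ↪ V) :
    Q.ceq (fun i => x i) (fun i => y i) ↔ Q.rel x y := by
  rw [Q.ceq_iff hI (z := fun i => y i) (fun i : I => i) surjective_id y (fun _ => rfl)]
  constructor
  · rintro ⟨x', hr, hx⟩
    have : x = x' := by
      ext i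
      exact hx i
    rwa [this]
  · intro h
    exact ⟨x, h, fun _ => rfl⟩

/-- the number of extensions only depends on the colour -/
theorem ceq_count {I K : Type} [Fintype I] [Fintype K] (hIK : Fintype.card (I ⊕ K) ≤ m)
    (z : I ⊕ K → V) {u v : I → V} (h : Q.ceq u v) :
    Nat.card {w : K → V // Q.ceq (Sum.elim u w) z} =
      Nat.card {w : K → V // Q.ceq (Sum.elim v w) z} := by
  classical
  obtain ⟨L, hL, ρ, z', hρ, hz⟩ := exists_normal z
  have hLm : Fintype.card L ≤ m := card_le_of_surj hIK ρ hρ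
  have hI : Fintype.card I ≤ m := by
    refine le_trans ?_ hIK
    rw [Fintype.card_sum]
    omega
  -- the equivalence with injective tuples
  have key : ∀ u : I → V, Nat.card {w : K → V // Q.ceq (Sum.elim u w) z} =
      Nat.card {x' : L ↪ V // Q.rel x' z' ∧ ∀ i, x' (ρ (Sum.inl i)) = u i} := by
    intro u
    refine (Nat.card_congr ?_).symm
    refine Equiv.ofBijective (fun x' => ⟨fun k => x'.1 (ρ (Sum.inr k)), ?_⟩) ⟨?_, ?_⟩
    · rw [Q.ceq_iff hIK ρ hρ z' hz]
      refine ⟨x'.1, x'.2.1, ?_⟩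
      rintro (i | k)
      · exact (x'.2.2 i).symm
      · rfl
    · rintro ⟨x', hx1, hx2⟩ ⟨y', hy1, hy2⟩ hxy
      have h1 : ∀ k, x' (ρ (Sum.inr k)) = y' (ρ (Sum.inr k)) := fun k =>
        congrFun (congrArg Subtype.val hxy) k
      refine Subtype.ext ?_
      ext l
      obtain ⟨i, rfl⟩ := hρ l
      rcases i with i | k
      · show x' _ = y' _
        rw [hx2, hy2]
      · exact h1 k
    · rintro ⟨w, hw⟩
      rw [Q.ceq_iff hIK ρ hρ z' hz] at hw
      obtain ⟨x', hr, hx⟩ := hw
      refine ⟨⟨x', hr, fun i => (hx (Sum.inl i)).symm⟩, ?_⟩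
      refine Subtype.ext ?_
      funext k
      exact (hx (Sum.inr k)).symm
  rw [key u, key v]
  -- one sided version
  have aux : ∀ u v : I → V, Q.ceq u v →
      Nonempty {x' : L ↪ V // Q.rel x' z' ∧ ∀ i, x' (ρ (Sum.inl i)) = u i} →
      Nat.card {x' : L ↪ V // Q.rel x' z' ∧ ∀ i, x' (ρ (Sum.inl i)) = u i} =
      Nat.card {x' : L ↪ V // Q.rel x' z' ∧ ∀ i, x' (ρ (Sum.inl i)) = v i} := by
    rintro u v h ⟨⟨x0, hx0, hx0'⟩⟩
    let M := Set.range (fun i => ρ (Sum.inl i))
    let _ : Fintype M := Fintype.ofFinite _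
    let ι : M ↪ L := Embedding.subtype _
    let q : I → M := Set.rangeFactorization (fun i => ρ (Sum.inl i))
    have hq : Surjective q := Set.rangeFactorization_surjective
    have hu : ∀ i, u i = (ι.trans x0) (q i) := fun i => (hx0' i).symm
    obtain ⟨v', hv', hv⟩ := (Q.ceq_iff hI q hq (ι.trans x0) hu v).1 (Q.ceq_symm h)
    have h3 := rel_count Q hLm ι z' (rel_symm Q hv')
    have h4 : ∀ (t : I → V) (t' : M ↪ V), (∀ i, t i = t' (q i)) →
        Nat.card {x' : L ↪ V // Q.rel x' z' ∧ ∀ i, x' (ρ (Sum.inl i)) = t i} =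
        Nat.card {x' : L ↪ V // Q.rel x' z' ∧ ι.trans x' = t'} := by
      intro t t' ht
      refine Nat.card_congr (Equiv.subtypeEquivRight (fun x' => and_congr Iff.rfl ?_))
      constructor
      · intro hh
        ext l
        obtain ⟨i, rfl⟩ := hq l
        rw [← ht, ← hh]
        rfl
      · intro hh i
        rw [ht, ← hh]
        rfl
    rw [h4 u _ hu, h4 v _ hv]
    exact h3
  by_cases h1 : Nonempty {x' : L ↪ V // Q.rel x' z' ∧ ∀ i, x' (ρ (Sum.inl i)) = u i}
  · exact aux u v h h1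
  · by_cases h2 : Nonempty {x' : L ↪ V // Q.rel x' z' ∧ ∀ i, x' (ρ (Sum.inl i)) = v i}
    · exact (aux v u (Q.ceq_symm h) h2).symm
    · rw [not_nonempty_iff] at h1 h2
      rw [Nat.card_of_isEmpty, Nat.card_of_isEmpty]

/-- the setoid of colours -/
def cset (I : Type) [Fintype I] (hI : Fintype.card I ≤ m) : Setoid (I → V) where
  r := Q.ceq
  iseqv := ⟨Q.ceq_refl, Q.ceq_symm, Q.ceq_trans hI⟩

/-- matching of the extensions of two tuples of the same colour -/
theorem ceq_equiv {I K : Type} [Fintype I] [Fintype K] (hIK : Fintype.card (I ⊕ K) ≤ m)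
    {u v : I → V} (h : Q.ceq u v) :
    ∃ φ : (K → V) ≃ (K → V), ∀ w, Q.ceq (Sum.elim u w) (Sum.elim v (φ w)) := by
  classical
  let S := Q.cset (I ⊕ K) hIK
  have h1 : ∀ c : Quotient S, Nonempty
      ({w : K → V // (Quotient.mk S (Sum.elim u w)) = c} ≃
        {w : K → V // (Quotient.mk S (Sum.elim v w)) = c}) := by
    intro c
    induction c using Quotient.inductionOn with
    | h z =>
      have h2 := Q.ceq_count hIK z h
      have h3 : ∀ t : I → V, Nat.card {w : K → V // (Quotient.mk S (Sum.elim t w)) =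
          Quotient.mk S z} = Nat.card {w : K → V // Q.ceq (Sum.elim t w) z} := by
        intro t
        refine Nat.card_congr (Equiv.subtypeEquivRight (fun w => ?_))
        rw [Quotient.eq]
        rfl
      rw [← h3, ← h3] at h2
      exact Finite.card_eq.1 h2
  let E := fun c => (h1 c).some
  let φ : (K → V) ≃ (K → V) :=
    ((Equiv.sigmaFiberEquiv (fun w : K → V => Quotient.mk S (Sum.elim u w))).symm.trans
      (Equiv.sigmaCongrRight E)).trans
      (Equiv.sigmaFiberEquiv (fun w : K → V => Quotient.mk S (Sum.elim v w)))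
  refine ⟨φ, fun w => ?_⟩
  have h4 : Quotient.mk S (Sum.elim v (φ w)) = Quotient.mk S (Sum.elim u w) :=
    (E (Quotient.mk S (Sum.elim u w)) ⟨w, rfl⟩).2
  exact Q.ceq_symm (Quotient.exact h4)

/-- functions depending only on the colour -/
def Const {R : Type*} {I : Type} (f : (I → V) → R) : Prop :=
  ∀ x y, Q.ceq x y → f x = f y

namespace Const

variable {Q} {R : Type*} {I : Type}

theorem const (r : R) : Q.Const (fun _ : I → V => r) := fun _ _ _ => rfl

theorem comp [Fintype I] {I' : Type} {f : (I' → V) → R} (hf : Q.Const f)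
    (hI : Fintype.card I ≤ m) (ρ : I' → I) :
    Q.Const (fun x : I → V => f (fun i => x (ρ i))) :=
  fun _ _ h => hf _ _ (Q.ceq_comp hI h ρ)

theorem map {S : Type*} {f : (I → V) → R} (hf : Q.Const f) (g : R → S) :
    Q.Const (fun x => g (f x)) := fun x y h => congrArg g (hf x y h)

theorem map₂ {S T : Type*} {f : (I → V) → R} {f' : (I → V) → S} (hf : Q.Const f)
    (hf' : Q.Const f') (g : R → S → T) : Q.Const (fun x => g (f x) (f' x)) :=
  fun x y h => congrArg₂ g (hf x y h) (hf' x y h)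

theorem add [Add R] {f g : (I → V) → R} (hf : Q.Const f) (hg : Q.Const g) :
    Q.Const (fun x => f x + g x) := hf.map₂ hg _

theorem sub [Sub R] {f g : (I → V) → R} (hf : Q.Const f) (hg : Q.Const g) :
    Q.Const (fun x => f x - g x) := hf.map₂ hg _

theorem mul [Mul R] {f g : (I → V) → R} (hf : Q.Const f) (hg : Q.Const g) :
    Q.Const (fun x => f x * g x) := hf.map₂ hg _

theorem smul {S : Type*} [SMul S R] (c : S) {f : (I → V) → R} (hf : Q.Const f) :
    Q.Const (fun x => c • f x) := hf.map _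

theorem neg [Neg R] {f : (I → V) → R} (hf : Q.Const f) :
    Q.Const (fun x => - f x) := hf.map _

theorem finset_sum {ι : Type*} [AddCommMonoid R] (s : Finset ι) {f : ι → (I → V) → R}
    (hf : ∀ i ∈ s, Q.Const (f i)) : Q.Const (fun x => ∑ i ∈ s, f i x) :=
  fun x y h => Finset.sum_congr rfl (fun i hi => hf i hi x y h)

theorem eq_pattern (i j : I) : Q.Const (fun x : I → V => x i = x j) :=
  fun _ _ h => propext (Q.ceq_eq_iff h i j)

theorem ite {p : (I → V) → Prop} [DecidablePred p] (hp : Q.Const p) {f g : (I → V) → R}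
    (hf : Q.Const f) (hg : Q.Const g) : Q.Const (fun x => if p x then f x else g x) := by
  intro x y h
  have h1 := hp x y h
  simp only [hf x y h, hg x y h, h1]

theorem of_ceq [Fintype I] (hI : Fintype.card I ≤ m) (z : I → V) :
    Q.Const (fun x : I → V => Q.ceq x z) := fun _ _ h =>
  propext ⟨fun h' => Q.ceq_trans hI (Q.ceq_symm h) h', fun h' => Q.ceq_trans hI h h'⟩

theorem sum [AddCommMonoid R] [Fintype I] {K : Type} [Fintype K] [DecidableEq K]
    {f : (I ⊕ K → V) → R} (hf : Q.Const f) (hIK : Fintype.card (I ⊕ K) ≤ m) :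
    Q.Const (fun u : I → V => ∑ w : K → V, f (Sum.elim u w)) := by
  intro u v h
  obtain ⟨φ, hφ⟩ := Q.ceq_equiv hIK (K := K) h
  calc ∑ w : K → V, f (Sum.elim u w) = ∑ w : K → V, f (Sum.elim v (φ w)) :=
        Finset.sum_congr rfl (fun w _ => hf _ _ (hφ w))
    _ = ∑ w : K → V, f (Sum.elim v w) := Equiv.sum_comp φ (fun w => f (Sum.elim v w))

/-- summation over one point -/
theorem sum_one [AddCommMonoid R] [Fintype I] 
    {f : (I ⊕ Unit → V) → R} (hf : Q.Const f) (hI : Fintype.card I + 1 ≤ m) :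
    Q.Const (fun u : I → V => ∑ a : V, f (Sum.elim u (fun _ => a))) := by
  have h := hf.sum (K := Unit) (by rw [Fintype.card_sum]; simpa using hI)
  intro u v huv
  have h1 := h u v huv
  have h2 : ∀ u : I → V, ∑ w : Unit → V, f (Sum.elim u w) =
      ∑ a : V, f (Sum.elim u (fun _ => a)) := by
    intro u
    exact Fintype.sum_equiv (Equiv.funUnique Unit V) _ _ (fun w => by
      congr 1)
  simpa only [h2] using h1

/-- summation over two points -/
theorem sum_two [AddCommMonoid R] [Fintype I] 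
    {f : (I ⊕ Fin 2 → V) → R} (hf : Q.Const f) (hI : Fintype.card I + 2 ≤ m) :
    Q.Const (fun u : I → V => ∑ a : V × V, f (Sum.elim u ![a.1, a.2])) := by
  have h := hf.sum (K := Fin 2) (by rw [Fintype.card_sum]; simpa using hI)
  intro u v huv
  have h1 := h u v huv
  have h2 : ∀ u : I → V, ∑ w : Fin 2 → V, f (Sum.elim u w) =
      ∑ a : V × V, f (Sum.elim u ![a.1, a.2]) := by
    intro u
    exact Fintype.sum_equiv (finTwoArrowEquiv V) _ _ (fun w => by
      congr 2
      funext i
      fin_cases i <;> rfl)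
  simpa only [h2] using h1

end Const

end MScheme

end MSch
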