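import Mathlib

/-!
# The final arithmetic (row S14a, section 9)
-/

namespace PDeg

open scoped BigOperators

private theorem countArith_big {p M : ℕ} {s : ℤ} (hp3 : 3 ≤ p) (hpo : Odd p)
    (hs : s = 1 ∨ s = -1) (hM : (M : ℤ) ≡ s [ZMOD p]) (hodd : Odd M) (h1 : M ≠ 1) :
    2 * p - 1 ≤ M := by
  by_contra hlt
  rw [not_le] at hlt
  obtain ⟨c, hc⟩ := hM.symm.dvd
  obtain ⟨a, ha⟩ := hpo
  obtain ⟨b, hb⟩ := hodd
  have hp0 : (0 : ℤ) < p := by exact_mod_cast (by omega : 0 < p)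
  have hlt' : (M : ℤ) < 2 * p - 1 := by omega
  have hM0 : (0 : ℤ) < M := by omega
  rcases hs with hs | hs
  · subst hs
    have hc0 : 0 ≤ c := by
      by_contra hneg
      rw [not_le] at hneg
      have : (p : ℤ) * c ≤ p * (-1) := mul_le_mul_of_nonneg_left (by omega) hp0.le
      omega
    have hc2 : c < 2 := by
      by_contra hneg
      rw [not_lt] at hneg
      have : (p : ℤ) * 2 ≤ p * c := mul_le_mul_of_nonneg_left hneg hp0.le
      omega
    have hc' : c = 0 ∨ c = 1 := by omega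
    rcases hc' with hc' | hc' <;> subst hc' <;> omega
  · subst hs
    have hc0 : 0 < c := by
      by_contra hneg
      rw [not_lt] at hneg
      have : (p : ℤ) * c ≤ p * 0 := mul_le_mul_of_nonneg_left (by omega) hp0.le
      omega
    have hc2 : c < 2 := by
      by_contra hneg
      rw [not_lt] at hneg
      have : (p : ℤ) * 2 ≤ p * c := mul_le_mul_of_nonneg_left hneg hp0.le
      omega
    have hc' : c = 1 := by omega
    subst hc'
    omega

theorem count_arith {ι : Type} (S : Finset ι) (p k d c0 κ : ℕ) (M D : ι → ℕ) (s : ι → ℤ)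
    (hp : p.Prime) (hp2 : p ≠ 2) (hk : 2 ≤ k) (hkd : k * d = p - 1)
    (hs : ∀ i ∈ S, s i = 1 ∨ s i = -1) (hM : ∀ i ∈ S, (M i : ℤ) ≡ s i [ZMOD p])
    (hodd : ∀ i ∈ S, Odd (M i)) (hone : ∀ i ∈ S, M i = 1 → D i = 0) (hκ : p ∣ κ)
    (h : k * d ^ 2 = k * d * c0 + ∑ i ∈ S, M i * D i + k * κ) : c0 = d := by
  have hp3 : 3 ≤ p := by
    have := hp.two_le
    omega
  have hpo : Odd p := hp.odd_of_ne_two hp2
  -- the lower bound for the sum
  have hsum : (2 * p - 1) * ∑ i ∈ S, D i ≤ ∑ i ∈ S, M i * D i := by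
    rw [Finset.mul_sum]
    refine Finset.sum_le_sum fun i hi => ?_
    by_cases h1 : M i = 1
    · rw [hone i hi h1]
      simp
    · exact Nat.mul_le_mul_right _
        (countArith_big hp3 hpo (hs i hi) (hM i hi) (hodd i hi) h1)
  have hkd0 : 0 < k * d := by omega
  have hle : c0 ≤ d := by
    have h2 : k * d * c0 ≤ k * d * d := by
      have : k * d * d = k * d ^ 2 := by ring
      omega
    exact Nat.le_of_mul_le_mul_left h2 hkd0
  obtain ⟨u, hu⟩ := Nat.exists_eq_add_of_le hle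
  by_contra hne
  have hu0 : 0 < u := by omega
  have h3 : k * d * u = ∑ i ∈ S, M i * D i + k * κ := by
    have h4 : k * d ^ 2 = k * d * c0 + k * d * u := by
      rw [pow_two, ← mul_assoc, ← Nat.mul_add, ← hu]
    omega
  rw [hkd] at h3
  -- the two real bounds
  have h5 : (2 * p - 1) * ∑ i ∈ S, D i ≤ (p - 1) * u := by
    rw [h3]
    exact le_trans hsum (Nat.le_add_right _ _)
  have h6 : 2 * ∑ i ∈ S, D i < u := by
    by_contra hge
    rw [not_lt] at hge
    obtain ⟨q, rfl⟩ : ∃ q, p = q + 1 := ⟨p - 1, by omega⟩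
    have e1 : 2 * (q + 1) - 1 = 2 * q + 1 := by omega
    have e2 : q + 1 - 1 = q := by omega
    rw [e1, e2] at h5
    generalize (∑ i ∈ S, D i) = E at h5 hge
    nlinarith
  -- the congruence
  have h7 : (p : ℤ) ∣ (u : ℤ) + ∑ i ∈ S, s i * (D i : ℤ) := by
    have h8 : ((p : ℤ) - 1) * u = ∑ i ∈ S, (M i : ℤ) * (D i : ℤ) + (k : ℤ) * κ := by
      have := congrArg (Nat.cast : ℕ → ℤ) h3
      push_cast [Nat.cast_sub (by omega : 1 ≤ p)] at this
      exact this
    have h9 : (p : ℤ) ∣ ∑ i ∈ S, (M i : ℤ) * (D i : ℤ) - ∑ i ∈ S, s i * (D i : ℤ) := by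
      rw [← Finset.sum_sub_distrib]
      refine Finset.dvd_sum fun i hi => ?_
      rw [← sub_mul]
      exact Dvd.dvd.mul_right (hM i hi).symm.dvd _
    have h10 : (p : ℤ) ∣ (κ : ℤ) := by exact_mod_cast hκ
    have h11 : (u : ℤ) + ∑ i ∈ S, s i * (D i : ℤ) =
        p * u - (∑ i ∈ S, (M i : ℤ) * (D i : ℤ) - ∑ i ∈ S, s i * (D i : ℤ)) - k * κ := by
      linarith
    rw [h11]
    exact dvd_sub (dvd_sub (dvd_mul_right _ _) h9) (Dvd.dvd.mul_left h10 _)
  have h12 : |∑ i ∈ S, s i * (D i : ℤ)| ≤ ((∑ i ∈ S, D i : ℕ) : ℤ) := by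
    refine le_trans (Finset.abs_sum_le_sum_abs _ _) ?_
    rw [Nat.cast_sum]
    refine Finset.sum_le_sum fun i hi => ?_
    rw [abs_mul, Nat.abs_cast]
    rcases hs i hi with h | h <;> rw [h] <;> simp
  rw [abs_le] at h12
  have h13 : (2 : ℤ) * ((∑ i ∈ S, D i : ℕ) : ℤ) < u := by exact_mod_cast h6
  have h14 : 2 * d ≤ p - 1 := by
    rw [← hkd]
    exact Nat.mul_le_mul_right _ hk
  have h15 : (2 : ℤ) * d ≤ p - 1 := by
    have : 2 * d + 1 ≤ p := by omega
    have := (Nat.cast_le (α := ℤ)).2 this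
    push_cast at this
    linarith
  have h16 : (u : ℤ) ≤ d := by
    have : u ≤ d := by omega
    exact_mod_cast this
  have h17 := Int.le_of_dvd (by linarith [h12.1]) h7
  have h18 : (0 : ℤ) < p := by exact_mod_cast (by omega : 0 < p)
  linarith [h12.2]

end PDeg
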