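import Pool.Agent.Lib.MP_369ee2_lc_PD.BZ
import Pool.Agent.Lib.MP_369ee2_lc_PD.Dim3P

/-!
# The diagonal idempotent `δ` (row S9), dimensions
-/

namespace PDeg

open scoped BigOperators Matrix

set_option linter.unusedSectionVars false

section
variable {K : Type} [Field K] {A : Type} [Ring A] [Algebra K A] [FiniteDimensional K A]

/-- the dimension of `(∑ b i) A f` for orthogonal idempotents `b i` -/
private theorem finrank_crn_sum {k : ℕ} {b : Fin k → A} (hb : ∀ i, b i * b i = b i)
    (ho : ∀ i j, i ≠ j → b i * b j = 0) (f : A) :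
    Module.finrank K (crn K (∑ i, b i) f) = ∑ i, Module.finrank K (crn K (b i) f) := by
  rw [← Module.finrank_pi_fintype K]
  refine LinearEquiv.finrank_eq
    { toFun := fun x i => ⟨b i * x.1, by rw [← mul_assoc, hb], by rw [mul_assoc, x.2.2]⟩
      invFun := fun x => ⟨∑ i, (x i).1, by
        rw [Finset.mul_sum]
        refine Finset.sum_congr rfl fun i _ => ?_
        rw [Finset.sum_mul, Finset.sum_eq_single i]
        · exact (x i).2.1
        · intro j _ hj
          rw [← (x i).2.1, ← mul_assoc, ho j i hj, zero_mul]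
        · intro h
          exact absurd (Finset.mem_univ i) h, by
        rw [Finset.sum_mul]
        exact Finset.sum_congr rfl fun i _ => (x i).2.2⟩
      map_add' := fun x y => by
        ext i
        simp [mul_add]
      map_smul' := fun t x => by
        ext i
        simp
      left_inv := fun x => Subtype.ext (by
        change ∑ i, b i * x.1 = x.1
        rw [← Finset.sum_mul, x.2.1])
      right_inv := fun x => by
        funext i
        apply Subtype.ext
        change b i * ∑ j, (x j).1 = (x i).1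
        rw [Finset.mul_sum, Finset.sum_eq_single i]
        · exact (x i).2.1
        · intro j _ hj
          rw [← (x j).2.1, ← mul_assoc, ho i j (Ne.symm hj), zero_mul]
        · intro h
          exact absurd (Finset.mem_univ i) h }

end

section
variable {X : Type} [Fintype X] [DecidableEq X] {C : Coh X}
variable {K : Type} [Field K]

private theorem jj1_sq : jj1 C K * jj1 C K = (Fintype.card X : K) • jj1 C K := by
  apply Subtype.ext
  ext z x
  change (t1 (JJ X K) * t1 (JJ X K)) z x = (Fintype.card X : K) * t1 (JJ X K) z x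
  rw [t1_JJ_mul_apply]
  simp [t1_apply, JJ]

private theorem jj2_sq : jj2 C K * jj2 C K = (Fintype.card X : K) • jj2 C K := by
  apply Subtype.ext
  ext z x
  change (t2 (JJ X K) * t2 (JJ X K)) z x = (Fintype.card X : K) * t2 (JJ X K) z x
  rw [t2_JJ_mul_apply]
  simp [t2_apply, JJ]

private theorem jj_comm : jj1 C K * jj2 C K = jj2 C K * jj1 C K := by
  apply Subtype.ext
  ext z x
  change (t1 (JJ X K) * t2 (JJ X K)) z x = (t2 (JJ X K) * t1 (JJ X K)) z x
  rw [t1_JJ_mul_apply, t2_JJ_mul_apply]
  simp [t1_apply, t2_apply, JJ]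

private theorem szSub_eq (hX : (Fintype.card X : K) ≠ 0) (e : ↥(C.PP K)) :
    szSub C K e = crn K ((1 - ((Fintype.card X : K)⁻¹) • jj1 C K) *
      (1 - ((Fintype.card X : K)⁻¹) • jj2 C K)) e := by
  have h1 : jj1 C K * (1 - ((Fintype.card X : K)⁻¹) • jj1 C K) = 0 := by
    rw [mul_sub, mul_one, mul_smul_comm, jj1_sq, smul_smul, inv_mul_cancel₀ hX, one_smul,
      sub_self]
  have h2 : jj2 C K * (1 - ((Fintype.card X : K)⁻¹) • jj2 C K) = 0 := by
    rw [mul_sub, mul_one, mul_smul_comm, jj2_sq, smul_smul, inv_mul_cancel₀ hX, one_smul,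
      sub_self]
  have h3 : jj2 C K * (1 - ((Fintype.card X : K)⁻¹) • jj1 C K) =
      (1 - ((Fintype.card X : K)⁻¹) • jj1 C K) * jj2 C K := by
    rw [mul_sub, sub_mul, mul_one, one_mul, mul_smul_comm, smul_mul_assoc, jj_comm]
  ext T
  rw [mem_szSub, mem_crn]
  constructor
  · rintro ⟨ha, hb, hc⟩
    have hb' : jj1 C K * T = 0 := Subtype.ext hb
    have hc' : jj2 C K * T = 0 := Subtype.ext hc
    refine ⟨?_, ha⟩
    have e2 : (1 - ((Fintype.card X : K)⁻¹) • jj2 C K) * T = T := by
      rw [sub_mul, one_mul, smul_mul_assoc, hc', smul_zero, sub_zero]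
    rw [mul_assoc, e2, sub_mul, one_mul, smul_mul_assoc, hb', smul_zero, sub_zero]
  · rintro ⟨ha, hb⟩
    refine ⟨hb, ?_, ?_⟩
    · have : jj1 C K * T = 0 := by
        rw [← ha, ← mul_assoc, ← mul_assoc, h1, zero_mul, zero_mul]
      exact congrArg Subtype.val this
    · have : jj2 C K * T = 0 := by
        rw [← ha, ← mul_assoc, ← mul_assoc, h3, mul_assoc _ (jj2 C K), h2, mul_zero, zero_mul]
      exact congrArg Subtype.val this

/-- the entries of `T f` for the trivial idempotent `f = δ J / p` -/
private theorem mul_ftr_apply (T : Matrix (X × X) (X × X) K) (z x : X × X) :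
    (T * (tδ (((Fintype.card X : K)⁻¹) • JJ X K) : Matrix (X × X) (X × X) K)) z x =
      if x.1 = x.2 then (Fintype.card X : K)⁻¹ * ∑ w, T z (w, w) else 0 := by
  rw [Matrix.mul_apply, Fintype.sum_prod_type]
  by_cases h : x.1 = x.2
  · rw [if_pos h, Finset.mul_sum]
    refine Finset.sum_congr rfl fun u _ => ?_
    rw [Finset.sum_eq_single u]
    · simp [tδ, JJ, h, mul_comm]
    · intro v _ hv
      simp [tδ, Ne.symm hv]
    · intro h'
      exact absurd (Finset.mem_univ _) h'
  · rw [if_neg h]
    refine Finset.sum_eq_zero fun u _ => Finset.sum_eq_zero fun v _ => ?_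
    simp [tδ, h]

private theorem mul_ftr_iff (hX : (Fintype.card X : K) ≠ 0) (o : X)
    (T : Matrix (X × X) (X × X) K) :
    T * (tδ (((Fintype.card X : K)⁻¹) • JJ X K) : Matrix (X × X) (X × X) K) = T ↔
      ∀ z x, T z x = if x.1 = x.2 then T z (o, o) else 0 := by
  constructor
  · intro h z x
    have h1 := congrFun (congrFun h z) x
    have h2 := congrFun (congrFun h z) (o, o)
    rw [mul_ftr_apply] at h1 h2
    rw [if_pos rfl] at h2
    rw [← h1, ← h2]
  · intro h
    ext z x
    rw [mul_ftr_apply, h z x]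
    by_cases hx : x.1 = x.2
    · rw [if_pos hx, if_pos hx]
      have : ∀ w : X, T z (w, w) = T z (o, o) := fun w => by
        have := h z (w, w)
        rwa [if_pos rfl] at this
      rw [Finset.sum_congr rfl fun w _ => this w, Finset.sum_const, Finset.card_univ, nsmul_eq_mul,
        inv_mul_cancel_left₀ hX]
    · rw [if_neg hx, if_neg hx]

/-- the matrix with entries `G z.1 z.2` on the columns of the diagonal -/
private def ext (G : Matrix X X K) : Matrix (X × X) (X × X) K :=
  Matrix.of fun z x => if x.1 = x.2 then G z.1 z.2 else 0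

private theorem ext_mem {G : Matrix X X K} (hG : G ∈ C.Lam K) : ext G ∈ C.PP K := by
  intro x y h
  have p1 := C.pattern (by norm_num) _ _ h
  have p2 := C.pattern (by norm_num) _ _ ((C.equiv 4 (by norm_num)).symm h)
  have q1 : (x 2 = x 3) = (y 2 = y 3) := propext ⟨p1 2 3, p2 2 3⟩
  have h1 : G (x 0) (x 1) = G (y 0) (y 1) :=
    hG _ _ (C.reindex (n := 4) (k := 2) (by norm_num) (by norm_num) ![0, 1] _ _ h)
  simp only [ext, Matrix.of_apply, q1, h1]

private theorem t1_mul_ext (a G : Matrix X X K) : t1 a * ext G = ext (a * G) := by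
  ext z x
  rw [Matrix.mul_apply, Fintype.sum_prod_type]
  have h1 : ∀ w : X, ∑ v, t1 a z (w, v) * ext G (w, v) x =
      if x.1 = x.2 then a z.1 w * G w z.2 else 0 := by
    intro w
    rw [Finset.sum_eq_single z.2]
    · simp [t1_apply, ext]
    · intro b _ hb
      simp [t1_apply, Ne.symm hb]
    · simp
  rw [Finset.sum_congr rfl fun w _ => h1 w]
  change _ = if x.1 = x.2 then (a * G) z.1 z.2 else 0
  rw [Matrix.mul_apply]
  by_cases hx : x.1 = x.2 <;> simp [hx]

private theorem t2_mul_ext (a G : Matrix X X K) : t2 a * ext G = ext (G * aᵀ) := by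
  ext z x
  rw [Matrix.mul_apply, Fintype.sum_prod_type, Finset.sum_eq_single z.1]
  · change _ = if x.1 = x.2 then (G * aᵀ) z.1 z.2 else 0
    rw [Matrix.mul_apply]
    by_cases hx : x.1 = x.2
    · rw [if_pos hx]
      refine Finset.sum_congr rfl fun w _ => ?_
      simp [t2_apply, ext, hx, mul_comm]
    · rw [if_neg hx]
      refine Finset.sum_eq_zero fun w _ => ?_
      simp [ext, hx]
  · intro b _ hb
    refine Finset.sum_eq_zero fun w _ => ?_
    simp [t2_apply, Ne.symm hb]
  · simp

private theorem ext_inj [Nonempty X] {G H : Matrix X X K} (h : ext G = ext H) : G = H := by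
  obtain ⟨o⟩ := ‹Nonempty X›
  ext i j
  have := congrFun (congrFun h (i, j)) (o, o)
  simpa [ext] using this

private theorem ext_zero : ext (0 : Matrix X X K) = 0 := by
  ext z x
  simp [ext]

private theorem smul_ext (c : K) (G : Matrix X X K) : c • ext G = ext (c • G) := by
  ext z x
  by_cases hx : x.1 = x.2 <;> simp [ext, hx]

/-- the matrix of a colour constant function on pairs -/
private def mt (g : C.cstSub K 2) : Matrix X X K := Matrix.of fun i j => g.1 ![i, j]

private theorem mt_mem (g : C.cstSub K 2) : mt g ∈ C.Lam K := by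
  rw [Coh.mem_Lam]
  have e : (fun t : Fin 2 → X => mt g (t 0) (t 1)) = g.1 := by
    funext t
    refine congrArg g.1 (funext fun i => ?_)
    fin_cases i <;> rfl
  rw [e]
  exact g.2

/-- the column sum -/
private noncomputable def cs (C : Coh X) (K : Type) [Field K] (o : X) :
    C.cstSub K 2 →ₗ[K] K where
  toFun g := ∑ z, g.1 ![z, o]
  map_add' g h := by
    change ∑ z, (g.1 ![z, o] + h.1 ![z, o]) = _
    rw [Finset.sum_add_distrib]
  map_smul' c g := by
    change ∑ z, (c * g.1 ![z, o]) = c * _
    rw [← Finset.mul_sum]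

private theorem cs_surj (o : X) : Function.Surjective (cs C K o) := by
  intro c
  refine ⟨⟨fun t => if t 0 = t 1 then c else 0, ?_⟩, ?_⟩
  · intro x y hxy
    have p1 := C.pattern (by norm_num) _ _ hxy
    have p2 := C.pattern (by norm_num) _ _ ((C.equiv 2 (by norm_num)).symm hxy)
    have q1 : (x 0 = x 1) = (y 0 = y 1) := propext ⟨p1 0 1, p2 0 1⟩
    simp only [q1]
  · change ∑ z, (if z = o then c else 0) = c
    rw [Finset.sum_ite_eq' Finset.univ o, if_pos (Finset.mem_univ _)]

private theorem finrank_ker_cs (o : X) :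
    Module.finrank K (LinearMap.ker (cs C K o)) + 1 = Nat.card (Quot (C.r 2)) := by
  have fin2 : FiniteDimensional K (C.cstSub K 2) := inferInstance
  have h2 := LinearMap.finrank_range_add_finrank_ker (cs C K o)
  rw [LinearMap.range_eq_top.2 (cs_surj o), finrank_top, Module.finrank_self,
    C.finrank_cst] at h2
  omega

/-- `b P f` maps to the colour constant functions on pairs -/
private def toC (hX : (Fintype.card X : K) ≠ 0) (o : X) (b : ↥(C.PP K)) :
    crn K b (ftr C K) →ₗ[K] C.cstSub K 2 where
  toFun T := ⟨fun t => (T.1 : Matrix (X × X) (X × X) K) (t 0, t 1) (o, o), by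
    intro u v h
    obtain ⟨σ, hσ⟩ := C.bij (n := 2) (by norm_num) h
    have h0 := (mul_ftr_iff hX o _).1 (congrArg Subtype.val T.2.2)
    have h1 := T.1.2 _ _ (C.reindex (n := 3) (k := 4) (by norm_num) (by norm_num)
      ![0, 1, 2, 2] _ _ (hσ o))
    have h2 := h0 (v 0, v 1) (σ o, σ o)
    rw [if_pos rfl] at h2
    exact Eq.trans h1 h2⟩
  map_add' _ _ := rfl
  map_smul' _ _ := rfl

private theorem eq_ext (hX : (Fintype.card X : K) ≠ 0) (o : X) {b : ↥(C.PP K)}
    (T : crn K b (ftr C K)) :
    (T.1 : Matrix (X × X) (X × X) K) = ext (mt (toC hX o b T)) := by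
  ext z x
  have h0 := (mul_ftr_iff hX o _).1 (congrArg Subtype.val T.2.2) z x
  rw [h0]
  rfl

private theorem toC_inj (hX : (Fintype.card X : K) ≠ 0) (o : X) (b : ↥(C.PP K)) :
    Function.Injective (toC hX o b) := by
  intro S T h
  apply Subtype.ext
  apply Subtype.ext
  rw [eq_ext hX o S, eq_ext hX o T, h]

private theorem JJ_mul_eq_zero_iff (o : X) (g : C.cstSub K 2) :
    JJ X K * mt g = 0 ↔ g ∈ LinearMap.ker (cs C K o) := by
  have h1 : ∀ i j, (JJ X K * mt g) i j = ∑ z, g.1 ![z, j] := by
    intro i j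
    rw [Matrix.mul_apply]
    simp [JJ, mt]
  rw [LinearMap.mem_ker]
  constructor
  · intro h
    have := congrFun (congrFun h o) o
    rw [h1] at this
    exact this
  · intro h
    ext i j
    rw [h1, C.colsum_const g.2 j o]
    exact h

end

section
variable {X : Type} [Fintype X] [DecidableEq X] {C : Coh X}
variable {p : ℕ} {W K F : Type}
  [CommRing W] [IsDomain W] [Field K] [Algebra W K] [IsFractionRing W K] [Field F] [Algebra W F]
variable {k d : ℕ} {y : Matrix X X W} {ζ0 : W} {ζ : W} {i0 : Fin k} {b : Fin k → ↥(C.PP K)}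

private theorem card_ne (hB : Base p W K F) (Y : YData C p W K k d y ζ0) :
    (Fintype.card X : K) ≠ 0 := by
  have := hB.charZero
  rw [Y.card]
  exact Nat.cast_ne_zero.2 hB.prime.ne_zero

private theorem nonempty_X (hB : Base p W K F) (Y : YData C p W K k d y ζ0) : Nonempty X := by
  rw [← Fintype.card_pos_iff, Y.card]
  exact hB.prime.pos

private theorem yK_mem (Y : YData C p W K k d y ζ0) : y.map (algebraMap W K) ∈ C.Lam K := by
  intro u v h
  exact congrArg (algebraMap W K) (Y.mem u v h)

private theorem yK_trans (Y : YData C p W K k d y ζ0) :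
    (y.map (algebraMap W K))ᵀ = algebraMap W K ζ0 • y.map (algebraMap W K) := by
  ext i j
  have h := congrFun (congrFun Y.trans i) j
  change y j i = ζ0 * y i j at h
  change algebraMap W K (y j i) = algebraMap W K ζ0 * algebraMap W K (y i j)
  rw [h, map_mul]

private theorem yK_pow (Y : YData C p W K k d y ζ0) :
    (y.map (algebraMap W K)) ^ k = (p : Matrix X X K) - JJ X K := by
  have h := congrArg (fun M : Matrix X X W => (algebraMap W K).mapMatrix M) Y.pow
  simp only [map_pow, map_sub, map_natCast] at h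
  rw [RingHom.mapMatrix_apply] at h
  rw [h]
  congr 1
  ext i j
  simp [JJ]

/-- the corner `b P f` -/
private theorem mem_iff (hB : Base p W K F) (Y : YData C p W K k d y ζ0)
    (B : BData C k y ζ0 ζ i0 b) (i : Fin k) {G : Matrix X X K} (hG : G ∈ C.Lam K) :
    b i * ⟨ext G, ext_mem hG⟩ = (⟨ext G, ext_mem hG⟩ : ↥(C.PP K)) ↔
      JJ X K * G = 0 ∧ algebraMap W K ζ0 • (y.map (algebraMap W K) * G) =
        algebraMap W K (ζ ^ (i : ℕ)) • (y.map (algebraMap W K) * G) := by
  have hne := nonempty_X hB Y
  have e1 : G * (y.map (algebraMap W K))ᵀ =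
      algebraMap W K ζ0 • (y.map (algebraMap W K) * G) := by
    rw [yK_trans Y, Matrix.mul_smul, Y.comm _ hG _ (yK_mem Y)]
  have e2 : G * (JJ X K)ᵀ = JJ X K * G := by
    have : (JJ X K)ᵀ = JJ X K := rfl
    rw [this, Y.comm _ hG _ (JJ_mem C K)]
  rw [(B.isB i).mul_iff, ← e1]
  constructor
  · rintro ⟨h1, h2, h3⟩
    have h1' : t1 (JJ X K) * ext G = 0 := congrArg Subtype.val h1
    change t2 (y.map (algebraMap W K)) * ext G =
      (algebraMap W K (ζ ^ (i : ℕ))) • (t1 (y.map (algebraMap W K)) * ext G) at h3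
    rw [t1_mul_ext, ← ext_zero] at h1'
    rw [t1_mul_ext, t2_mul_ext, smul_ext] at h3
    exact ⟨ext_inj h1', ext_inj h3⟩
  · rintro ⟨h1, h2⟩
    refine ⟨Subtype.ext ?_, Subtype.ext ?_, ?_⟩
    · change t1 (JJ X K) * ext G = 0
      rw [t1_mul_ext, h1, ext_zero]
    · change t2 (JJ X K) * ext G = 0
      rw [t2_mul_ext, e2, h1, ext_zero]
    · change t2 (y.map (algebraMap W K)) * ext G =
        (algebraMap W K (ζ ^ (i : ℕ))) • (t1 (y.map (algebraMap W K)) * ext G)
      rw [t1_mul_ext, t2_mul_ext, smul_ext, h2]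

/-- trivial vectors lie in `B_{ζ0}` -/
theorem ftr_dim (hB : Base p W K F) (Y : YData C p W K k d y ζ0) (B : BData C k y ζ0 ζ i0 b)
    (i : Fin k) : Module.finrank K (crn K (b i) (ftr C K)) = if i = i0 then k else 0 := by
  have hX := card_ne hB Y
  obtain ⟨o⟩ := nonempty_X hB Y
  have hne : Nonempty X := ⟨o⟩
  have key : ∀ T : crn K (b i) (ftr C K),
      JJ X K * mt (toC hX o (b i) T) = 0 ∧ algebraMap W K ζ0 • (y.map (algebraMap W K) *
        mt (toC hX o (b i) T)) = algebraMap W K (ζ ^ (i : ℕ)) •
          (y.map (algebraMap W K) * mt (toC hX o (b i) T)) := by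
    intro T
    rw [← mem_iff hB Y B i (mt_mem _)]
    have e : (⟨ext (mt (toC hX o (b i) T)), ext_mem (mt_mem _)⟩ : ↥(C.PP K)) = T.1 :=
      Subtype.ext (eq_ext hX o T).symm
    rw [e]
    exact T.2.1
  by_cases hi : i = i0
  · rw [if_pos hi]
    subst hi
    have h1 : LinearMap.range (toC hX o (b i)) = LinearMap.ker (cs C K o) := by
      ext g
      rw [← JJ_mul_eq_zero_iff]
      constructor
      · rintro ⟨T, rfl⟩
        exact (key T).1
      · intro h
        have h2 : b i * ⟨ext (mt g), ext_mem (mt_mem g)⟩ =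
            (⟨ext (mt g), ext_mem (mt_mem g)⟩ : ↥(C.PP K)) := by
          rw [mem_iff hB Y B i (mt_mem g), B.i0_eq]
          exact ⟨h, rfl⟩
        refine ⟨⟨⟨ext (mt g), ext_mem (mt_mem g)⟩, h2, Subtype.ext ?_⟩, Subtype.ext ?_⟩
        · change ext (mt g) * tδ (((Fintype.card X : K)⁻¹) • JJ X K) = ext (mt g)
          rw [mul_ftr_iff hX o]
          intro z x
          simp [ext]
        · funext t
          change (if o = o then g.1 ![t 0, t 1] else 0) = g.1 t
          rw [if_pos rfl]
          refine congrArg g.1 (funext fun j => ?_)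
          fin_cases j <;> rfl
    have h2 := LinearMap.finrank_range_of_inj (toC_inj hX o (b i))
    have h3 := finrank_ker_cs (C := C) (K := K) o
    rw [h1] at h2
    rw [Y.rank2] at h3
    omega
  · rw [if_neg hi]
    have h0 : ∀ T : crn K (b i) (ftr C K), T = 0 := by
      intro T
      obtain ⟨k1, k2⟩ := key T
      set G := mt (toC hX o (b i) T) with hG
      have h1 : algebraMap W K ζ0 - algebraMap W K (ζ ^ (i : ℕ)) ≠ 0 := by
        rw [sub_ne_zero]
        intro h
        apply hi
        have h2 := IsFractionRing.injective W K h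
        rw [← B.i0_eq] at h2
        exact Fin.ext (B.prim.pow_inj i0.2 i.2 h2).symm
      have h2 : y.map (algebraMap W K) * G = 0 := by
        have h3 : (algebraMap W K ζ0 - algebraMap W K (ζ ^ (i : ℕ))) •
            (y.map (algebraMap W K) * G) = 0 := by
          rw [sub_smul, k2, sub_self]
        exact (smul_eq_zero.1 h3).resolve_left h1
      have h3 : (y.map (algebraMap W K)) ^ k * G = 0 := by
        have hk : k = (k - 1) + 1 := by have := Y.k2; omega
        rw [hk, pow_succ, mul_assoc, h2, mul_zero]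
      rw [yK_pow Y, sub_mul, k1, sub_zero] at h3
      have h4 : (p : K) ≠ 0 := by
        rw [← Y.card]
        exact hX
      have h5 : G = 0 := by
        have h6 : (p : K) • G = 0 := by
          rw [← h3, Nat.cast_smul_eq_nsmul, nsmul_eq_mul]
        exact (smul_eq_zero.1 h6).resolve_left h4
      apply Subtype.ext
      apply Subtype.ext
      rw [eq_ext hX o T, ← hG, h5, ext_zero]
      rfl
    have h1 : Subsingleton (crn K (b i) (ftr C K)) :=
      ⟨fun S T => by rw [h0 S, h0 T]⟩
    exact Module.finrank_zero_of_subsingleton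

theorem dl_dim_sum (hB : Base p W K F) (Y : YData C p W K k d y ζ0)
    (B : BData C k y ζ0 ζ i0 b) :
    Module.finrank K (crn K 1 (dl C K)) =
      ∑ i, Module.finrank K (crn K (b i) (dl C K)) + (2 * k + 1) := by
  have hX := card_ne hB Y
  have hne := nonempty_X hB Y
  have e : dlt C K = dl C K := rfl
  have h1 := finrank_crn_dlt C K
  have h2 := card_colours3_P C K
  rw [e] at h1 h2
  rw [szSub_eq hX, ← B.sum hB Y, finrank_crn_sum (fun i => (B.isB i).idem)
    (B.orth hB Y), Y.rank2, ← h1] at h2
  omega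

end

end PDeg
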