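import Pool.Agent.Lib.MP_369ee2_lc_PD.DeltaA
import Pool.Agent.Lib.MP_369ee2_lc_PD.DeltaB

/-!
# The diagonal idempotent `δ` (row S9)

The theorems `dl_idem`, `delta_loc`, `ftr_tau`, `exc_tau`, `exc_dim`, `jj_factor`, `dl_dim` are in
`DeltaA`, the theorems `ftr_dim` and `dl_dim_sum` in `DeltaB`.
-/
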