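import Pool.Agent.Lib.MP_369ee2_lc_PD.FactM2
import Pool.Agent.Lib.MP_369ee2_lc_PD.SecB

/-!
# Fact M for the idempotents of `P_W`
-/

namespace PDeg.FactM

open scoped BigOperators Matrix Kronecker

section lift
variable {p : ℕ} {X S W K F : Type} [Fintype X] [DecidableEq X] [Fintype S]
  [CommRing W] [IsDomain W] [Field K] [Algebra W K] [IsFractionRing W K]
  [Field F] [Algebra W F]
  {rel : (X × X) × S → (X × X) × S → Prop} {base : S → X} {e : Matrix S S W}

omit [IsDomain W] [Fintype S] in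
theorem t1_JJ_apply (T : Matrix (X × X) S W) (i : X × X) (s : S) :
    (t1 (JJ X W) * T) i s = ∑ w, T (w, i.2) s := by
  rw [t1_mul_apply]
  exact Finset.sum_congr rfl fun w _ => by simp [JJ]

omit [IsDomain W] [Fintype S] in
theorem t2_JJ_apply (T : Matrix (X × X) S W) (i : X × X) (s : S) :
    (t2 (JJ X W) * T) i s = ∑ w, T (i.1, w) s := by
  rw [t2_mul_apply]
  exact Finset.sum_congr rfl fun w _ => by simp [JJ]

/-- the lifting condition of `FM` for `e' = 1` -/
theorem lift_gen (hB : Base p W K F) (he : e * e = e)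
    (ce : ∀ T : Matrix (X × X) S W, Cs rel T → Cs rel (T * e))
    (cJ1 : ∀ T : Matrix (X × X) S W, Cs rel T → Cs rel (t1 (JJ X W) * T))
    (cJ2 : ∀ T : Matrix (X × X) S W, Cs rel T → Cs rel (t2 (JJ X W) * T))
    (hb1 : ∀ a b, rel a b → (a.1.1 = base a.2 ↔ b.1.1 = base b.2))
    (hb2 : ∀ a b, rel a b → (a.1.2 = base a.2 ↔ b.1.2 = base b.2)) :
    ∀ T ∈ LL rel (1 : Matrix (X × X) (X × X) W) e F,
      ∃ T' ∈ LL rel (1 : Matrix (X × X) (X × X) W) e W, T'.map (algebraMap W F) = T := by
  classical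
  intro T hT
  obtain ⟨h1, h2, h3, h4⟩ := hT
  have hcz : CharZero K := hB.charZero
  have hp0 : (p : K) ≠ 0 := Nat.cast_ne_zero.mpr hB.prime.ne_zero
  have hpW : (p : W) ≠ 0 := by
    intro h0
    apply hp0
    rw [← map_natCast (algebraMap W K), h0, map_zero]
  have hpF : algebraMap W F (p : W) = 0 := (hB.ker _).mpr dvd_rfl
  have hone : (1 : Matrix (X × X) (X × X) W).map (algebraMap W F) = 1 := by
    ext i j
    simp [Matrix.one_apply]
  rw [hone, Matrix.one_mul] at h2
  have hs : ∀ a : F, ∃ w : W, algebraMap W F w = a := hB.surj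
  choose s hs using hs
  -- the first lift
  let T0 : Matrix (X × X) S W := T.map s
  have hT0 : T0.map (algebraMap W F) = T := by
    ext i j
    exact hs _
  have c0 : Cs rel T0 := fun a b hab => congrArg s (h1 a b hab)
  let T1 : Matrix (X × X) S W := T0 * e
  have c1 : Cs rel T1 := ce _ c0
  have e1 : T1 * e = T1 := by
    show T0 * e * e = T0 * e
    rw [Matrix.mul_assoc, he]
  have m1 : T1.map (algebraMap W F) = T := by
    show (T0 * e).map (algebraMap W F) = T
    rw [Matrix.map_mul, hT0, h2]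
  have hdiv : ∀ A : Matrix (X × X) S W, A.map (algebraMap W F) = 0 →
      ∃ G : Matrix (X × X) S W, A = (p : W) • G := by
    intro A hA
    have h5 : ∀ i t, ∃ c, A i t = (p : W) * c := fun i t =>
      (hB.ker _).mp (congrFun (congrFun hA i) t)
    choose G hG using h5
    exact ⟨Matrix.of G, by ext i t; exact hG i t⟩
  have hcan : ∀ A B : Matrix (X × X) S W, (p : W) • A = (p : W) • B → A = B := by
    intro A B h
    ext i t
    exact mul_left_cancel₀ hpW (congrFun (congrFun h i) t)
  have hccan : ∀ A : Matrix (X × X) S W, Cs rel ((p : W) • A) → Cs rel A := fun A h a b hab =>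
    mul_left_cancel₀ hpW (h a b hab)
  obtain ⟨G1, hG1⟩ := hdiv (t1 (JJ X W) * T1) (by
    rw [Matrix.map_mul, t1_map, JJ_map, m1, h3])
  obtain ⟨G2, hG2⟩ := hdiv (t2 (JJ X W) * T1) (by
    rw [Matrix.map_mul, t2_map, JJ_map, m1, h4])
  have cG1 : Cs rel G1 := hccan _ (by rw [← hG1]; exact cJ1 _ c1)
  have cG2 : Cs rel G2 := hccan _ (by rw [← hG2]; exact cJ2 _ c1)
  have eG1 : G1 * e = G1 := hcan _ _ (by
    rw [← Matrix.smul_mul, ← hG1, Matrix.mul_assoc, e1])
  have eG2 : G2 * e = G2 := hcan _ _ (by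
    rw [← Matrix.smul_mul, ← hG2, Matrix.mul_assoc, e1])
  have h12 : t2 (JJ X W) * G1 = t1 (JJ X W) * G2 := hcan _ _ (by
    rw [← Matrix.mul_smul, ← hG1, ← Matrix.mul_smul, ← hG2, ← Matrix.mul_assoc, ← t12_comm,
      Matrix.mul_assoc])
  have i1 : ∀ z z' w t, G1 (z, w) t = G1 (z', w) t := by
    intro z z' w t
    apply mul_left_cancel₀ hpW
    have h5 := congrFun (congrFun hG1 (z, w)) t
    have h6 := congrFun (congrFun hG1 (z', w)) t
    rw [t1_JJ_apply] at h5 h6
    exact h5.symm.trans h6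
  have i2 : ∀ z z' w t, G2 (w, z) t = G2 (w, z') t := by
    intro z z' w t
    apply mul_left_cancel₀ hpW
    have h5 := congrFun (congrFun hG2 (w, z)) t
    have h6 := congrFun (congrFun hG2 (w, z')) t
    rw [t2_JJ_apply] at h5 h6
    exact h5.symm.trans h6
  -- the correction
  let T' : Matrix (X × X) S W := Matrix.of fun i t =>
    (if i.1 = base t then G1 i t else 0) + (if i.2 = base t then G2 i t else 0) -
      (if i.1 = base t ∧ i.2 = base t then (t2 (JJ X W) * G1) i t else 0)
  have cT' : Cs rel T' := by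
    intro a b hab
    show (if a.1.1 = base a.2 then G1 a.1 a.2 else 0) + (if a.1.2 = base a.2 then G2 a.1 a.2 else 0) -
      (if a.1.1 = base a.2 ∧ a.1.2 = base a.2 then (t2 (JJ X W) * G1) a.1 a.2 else 0) =
      (if b.1.1 = base b.2 then G1 b.1 b.2 else 0) + (if b.1.2 = base b.2 then G2 b.1 b.2 else 0) -
      (if b.1.1 = base b.2 ∧ b.1.2 = base b.2 then (t2 (JJ X W) * G1) b.1 b.2 else 0)
    rw [cG1 a b hab, cG2 a b hab, cJ2 _ cG1 a b hab]
    simp only [hb1 a b hab, hb2 a b hab]
  have J1T' : t1 (JJ X W) * T' = G1 := by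
    ext ⟨z1, z2⟩ t
    rw [t1_JJ_apply]
    show ∑ w, ((if w = base t then G1 (w, z2) t else 0) +
      (if z2 = base t then G2 (w, z2) t else 0) -
      (if w = base t ∧ z2 = base t then (t2 (JJ X W) * G1) (w, z2) t else 0)) = G1 (z1, z2) t
    rw [Finset.sum_sub_distrib, Finset.sum_add_distrib]
    rw [Finset.sum_ite_eq' Finset.univ (base t) (fun w => G1 (w, z2) t), if_pos (Finset.mem_univ _)]
    by_cases hz : z2 = base t
    · simp only [hz, if_true, and_true]
      rw [Finset.sum_ite_eq' Finset.univ (base t) (fun w => (t2 (JJ X W) * G1) (w, base t) t),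
        if_pos (Finset.mem_univ _), h12, t1_JJ_apply]
      rw [i1 z1 (base t)]
      ring
    · simp only [hz, if_false, and_false, Finset.sum_const_zero, add_zero, sub_zero]
      exact i1 _ _ _ _
  have J2T' : t2 (JJ X W) * T' = G2 := by
    ext ⟨z1, z2⟩ t
    rw [t2_JJ_apply]
    show ∑ w, ((if z1 = base t then G1 (z1, w) t else 0) +
      (if w = base t then G2 (z1, w) t else 0) -
      (if z1 = base t ∧ w = base t then (t2 (JJ X W) * G1) (z1, w) t else 0)) = G2 (z1, z2) t
    rw [Finset.sum_sub_distrib, Finset.sum_add_distrib]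
    rw [Finset.sum_ite_eq' Finset.univ (base t) (fun w => G2 (z1, w) t), if_pos (Finset.mem_univ _)]
    by_cases hz : z1 = base t
    · simp only [hz, if_true, true_and]
      rw [Finset.sum_ite_eq' Finset.univ (base t) (fun w => (t2 (JJ X W) * G1) (base t, w) t),
        if_pos (Finset.mem_univ _), t2_JJ_apply]
      rw [i2 z2 (base t)]
      ring
    · simp only [hz, if_false, false_and, Finset.sum_const_zero, zero_add, sub_zero]
      exact i2 _ _ _ _
  refine ⟨T1 - (p : W) • (T' * e), ?_, ?_⟩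
  · rw [mem_LL_W]
    refine ⟨?_, ?_, ?_, ?_⟩
    · intro a b hab
      show T1 a.1 a.2 - (p : W) * (T' * e) a.1 a.2 = T1 b.1 b.2 - (p : W) * (T' * e) b.1 b.2
      rw [c1 a b hab, ce _ cT' a b hab]
    · rw [Matrix.one_mul, Matrix.sub_mul, e1, Matrix.smul_mul, Matrix.mul_assoc, he]
    · rw [Matrix.mul_sub, Matrix.mul_smul, hG1, ← Matrix.mul_assoc (t1 (JJ X W)) T' e, J1T', eG1,
        sub_self]
    · rw [Matrix.mul_sub, Matrix.mul_smul, hG2, ← Matrix.mul_assoc (t2 (JJ X W)) T' e, J2T', eG2,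
        sub_self]
  · rw [← m1]
    ext i t
    show algebraMap W F (T1 i t - (p : W) * (T' * e) i t) = algebraMap W F (T1 i t)
    rw [map_sub, map_mul, hpF, zero_mul, sub_zero]

end lift

section PP
variable {p : ℕ} {X W K F : Type} [Fintype X] [DecidableEq X]
  [CommRing W] [IsDomain W] [Field K] [Algebra W K] [IsFractionRing W K]
  [Field F] [Algebra W F] (C : Coh X)

/-- same colour, for indices of matrices on pairs -/
def relP (a b : (X × X) × (X × X)) : Prop :=
  C.r 4 ![a.1.1, a.1.2, a.2.1, a.2.2] ![b.1.1, b.1.2, b.2.1, b.2.2]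

theorem cs_relP {R : Type} [CommRing R] {T : Matrix (X × X) (X × X) R} :
    Cs (relP C) T ↔ T ∈ C.PP R := by
  rw [Coh.mem_PP]
  constructor
  · intro h x y hxy
    have h1 := h ((x 0, x 1), (x 2, x 3)) ((y 0, y 1), (y 2, y 3))
    apply h1
    unfold relP
    have e1 : ∀ z : Fin 4 → X, ![z 0, z 1, z 2, z 3] = z := by
      intro z
      funext i
      fin_cases i <;> rfl
    simp only [e1]
    exact hxy
  · intro h a b hab
    exact h _ _ hab

theorem star2_mem {q : X → Matrix X X F} (hq : q ∈ C.AA F) {T : Matrix (X × X) (X × X) F}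
    (hT : T ∈ C.PP F) : star2 (fun s : X × X => s.1) q T ∈ C.PP F := by
  intro x y h
  obtain ⟨σ, hσ⟩ := C.bij (n := 4) (by norm_num) h
  simp only [star2_apply]
  refine Fintype.sum_equiv σ _ _ (fun w => ?_)
  have h1 := hq _ _ (C.reindex (n := 5) (k := 3) (by norm_num) (by norm_num) ![2, 1, 4] _ _ (hσ w))
  have h2 := hT _ _ (C.reindex (n := 5) (k := 4) (by norm_num) (by norm_num) ![0, 4, 2, 3] _ _ (hσ w))
  exact congrArg₂ (· * ·) h1 h2

/-- the hypotheses of the general form hold for the idempotents of `P_W` -/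
theorem fm_pp (hB : Base p W K F) {k d : ℕ} {y : Matrix X X W} {ζ0 : W}
    (hY : YData C p W K k d y ζ0) {q r : X → Matrix X X F} (hP : PData C F k y q r)
    {e : Matrix (X × X) (X × X) W} (he : e ∈ C.PP W) (hee : e * e = e) :
    FM p k K F (relP C) (fun s : X × X => s.1) (1 : Matrix (X × X) (X × X) W) e y q r := by
  have hmap : ∀ (R : Type) [CommRing R] [Algebra W R], y.map (algebraMap W R) ∈ C.Lam R := by
    intro R _ _ a b hab
    exact congrArg (algebraMap W R) (hY.mem a b hab)
  have hemap : ∀ (R : Type) [CommRing R] [Algebra W R], e.map (algebraMap W R) ∈ C.PP R := by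
    intro R _ _ a b hab
    exact congrArg (algebraMap W R) (he a b hab)
  have hone : (1 : Matrix (X × X) (X × X) W).map (algebraMap W F) = 1 := by
    ext i j
    simp [Matrix.one_apply]
  refine
    { idem' := Matrix.one_mul _
      idem := hee
      comm1 := by rw [Matrix.mul_one, Matrix.one_mul]
      comm2 := by rw [Matrix.mul_one, Matrix.one_mul]
      yJ := mul_JJ hY.rowsum
      Jy := JJ_mul hY.colsum
      pow := hY.pow
      cW1 := fun T hT => (cs_relP C).mpr (mul_mem (t1_mem C W hY.mem) ((cs_relP C).mp hT))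
      cW2 := fun T hT => (cs_relP C).mpr (mul_mem (t2_mem C W hY.mem) ((cs_relP C).mp hT))
      cK1 := fun T hT => (cs_relP C).mpr (mul_mem (t1_mem C K (hmap K)) ((cs_relP C).mp hT))
      cK2 := fun T hT => (cs_relP C).mpr (mul_mem (t2_mem C K (hmap K)) ((cs_relP C).mp hT))
      cF1 := fun T hT => (cs_relP C).mpr (mul_mem (t1_mem C F (hmap F)) ((cs_relP C).mp hT))
      cF2 := fun T hT => (cs_relP C).mpr (mul_mem (t2_mem C F (hmap F)) ((cs_relP C).mp hT))
      cF := fun T hT => by
        rw [hone, Matrix.one_mul]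
        exact (cs_relP C).mpr (mul_mem ((cs_relP C).mp hT) (hemap F))
      cq := fun T hT => (cs_relP C).mpr (star2_mem C hP.q_mem ((cs_relP C).mp hT))
      eq := hP.eq
      lift := ?_ }
  refine lift_gen (base := fun s : X × X => s.1) hB hee ?_ ?_ ?_ ?_ ?_
  · exact fun T hT => (cs_relP C).mpr (mul_mem ((cs_relP C).mp hT) he)
  · exact fun T hT => (cs_relP C).mpr (mul_mem (t1_mem C W (JJ_mem C W)) ((cs_relP C).mp hT))
  · exact fun T hT => (cs_relP C).mpr (mul_mem (t2_mem C W (JJ_mem C W)) ((cs_relP C).mp hT))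
  · intro a b hab
    exact ⟨fun h => C.pattern (by norm_num) _ _ hab 0 2 h,
      fun h => C.pattern (by norm_num) _ _ ((C.equiv 4 (by norm_num)).symm hab) 0 2 h⟩
  · intro a b hab
    exact ⟨fun h => C.pattern (by norm_num) _ _ hab 1 2 h,
      fun h => C.pattern (by norm_num) _ _ ((C.equiv 4 (by norm_num)).symm hab) 1 2 h⟩

/-- **Fact M** -/
theorem factM (hB : Base p W K F) {k d : ℕ} {y : Matrix X X W} {ζ0 : W}
    (hY : YData C p W K k d y ζ0) {q r : X → Matrix X X F} (hP : PData C F k y q r)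
    {e : ↥(C.PP K)} (he : e ∈ PPO C W K) (hee : e * e = e) :
    ∃ κ : ℕ, ∀ ζ : W, ζ ^ k = 1 → ∀ b : ↥(C.PP K), IsB C y ζ b →
      Module.finrank K (crn K b e) = k * κ := by
  have hinj : Function.Injective (algebraMap W K) := IsFractionRing.injective W K
  choose E hE using he
  let eW : Matrix (X × X) (X × X) W := Matrix.of E
  have heW : eW.map (algebraMap W K) = (e : Matrix (X × X) (X × X) K) := by
    ext i j
    exact hE i j
  have m1 : eW ∈ C.PP W := by
    intro a b hab
    apply hinj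
    have h1 := e.2 a b hab
    simp only [← heW] at h1
    exact h1
  have m2 : eW * eW = eW := by
    apply Matrix.map_injective hinj
    show (eW * eW).map (algebraMap W K) = eW.map (algebraMap W K)
    rw [Matrix.map_mul, heW]
    exact congrArg Subtype.val hee
  have hk : k ∣ p - 1 := ⟨d, hY.kd.symm⟩
  have hk1 : 1 ≤ k := by
    have := hY.k2
    omega
  have key := (factM_gen hB hk hk1 (fm_pp C hB hY hP m1 m2)).2
  refine ⟨Module.finrank F ↥(KK (relP C) (1 : Matrix (X × X) (X × X) W) eW y F),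
    fun ζ hζ b hb => ?_⟩
  rw [← key ζ hζ]
  have hone : (1 : Matrix (X × X) (X × X) W).map (algebraMap W K) = 1 := by
    ext i j
    simp [Matrix.one_apply]
  have h1 : (crn K b e).map (C.PP K).val.toLinearMap =
      BZ (relP C) (1 : Matrix (X × X) (X × X) W) eW y ζ K := by
    ext T
    rw [Submodule.mem_map, mem_BZ, mem_LL, hone, heW, Matrix.one_mul, cs_relP]
    constructor
    · rintro ⟨T, hT, rfl⟩
      obtain ⟨h2, h3⟩ := mem_crn.mp hT
      have h4 := (hb.mul_iff_mat (T : Matrix (X × X) (X × X) K)).mp (congrArg Subtype.val h2)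
      exact ⟨⟨T.2, congrArg Subtype.val h3, h4.1, h4.2.1⟩, h4.2.2⟩
    · rintro ⟨⟨h2, h3, h4, h5⟩, h6⟩
      refine ⟨⟨T, h2⟩, mem_crn.mpr ⟨Subtype.ext ?_, Subtype.ext h3⟩, rfl⟩
      exact (hb.mul_iff_mat T).mpr ⟨h4, h5, h6⟩
  rw [← h1]
  exact LinearEquiv.finrank_eq (Submodule.equivMapOfInjective _ Subtype.val_injective _)

end PP

end PDeg.FactM
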