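import Mathlib

/-! # (M-abs): lattices with two commuting `k`-th roots of the uniformizer -/

set_option autoImplicit false

namespace Pool.Agent.MP_369ee2_lc_PD

open Module

section Jordan

variable {F N : Type*} [Field F] [AddCommGroup N] [Module F N] [FiniteDimensional F N]

theorem finrank_range_pow_step (y : N →ₗ[F] N) (j : ℕ) :
    finrank F (LinearMap.range (y ^ j)) =
      finrank F (LinearMap.range (y ^ (j + 1))) +
        finrank F (LinearMap.ker y ⊓ LinearMap.range (y ^ j) : Submodule F N) := by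
  set p := LinearMap.range (y ^ j) with hp
  have h := LinearMap.finrank_range_add_finrank_ker (y.domRestrict p)
  have h1 : LinearMap.range (y.domRestrict p) = LinearMap.range (y ^ (j + 1)) := by
    rw [LinearMap.range_domRestrict, hp, pow_succ', Module.End.mul_eq_comp, LinearMap.range_comp]
  have h2 : finrank F (LinearMap.ker (y.domRestrict p)) =
      finrank F (LinearMap.ker y ⊓ p : Submodule F N) := by
    have h3 : LinearMap.ker (y.domRestrict p) = Submodule.comap p.subtype (LinearMap.ker y) := by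
      ext x
      simp [LinearMap.mem_ker, LinearMap.domRestrict_apply]
    rw [h3, ← Submodule.finrank_map_subtype_eq p, Submodule.map_comap_subtype, inf_comm]
  rw [h1, h2] at h
  exact h.symm

theorem finrank_eq_sum_ker (y : N →ₗ[F] N) (n : ℕ) :
    finrank F N = finrank F (LinearMap.range (y ^ n)) +
      ∑ j ∈ Finset.range n,
        finrank F (LinearMap.ker y ⊓ LinearMap.range (y ^ j) : Submodule F N) := by
  induction n with
  | zero =>
    have h : LinearMap.range (y ^ 0) = ⊤ := by
      rw [pow_zero]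
      exact LinearMap.range_id
    rw [h, finrank_top]
    simp
  | succ n ih =>
    rw [Finset.sum_range_succ, ih, finrank_range_pow_step y n]
    ring

theorem finrank_le_mul_ker (y : N →ₗ[F] N) {k : ℕ} (hy : y ^ k = 0) :
    finrank F N ≤ k * finrank F (LinearMap.ker y) := by
  rw [finrank_eq_sum_ker y k, hy, LinearMap.range_zero, finrank_bot, zero_add]
  calc ∑ j ∈ Finset.range k,
        finrank F (LinearMap.ker y ⊓ LinearMap.range (y ^ j) : Submodule F N)
      ≤ ∑ _j ∈ Finset.range k, finrank F (LinearMap.ker y) :=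
        Finset.sum_le_sum fun j _ => Submodule.finrank_mono inf_le_left
    _ = k * finrank F (LinearMap.ker y) := by simp

/-- all Jordan blocks have length `k` -/
theorem finrank_eq_mul_ker (y : N →ₗ[F] N) {k : ℕ} (hy : y ^ k = 0)
    (h : ∀ t, y t = 0 → ∃ t', (y ^ (k - 1)) t' = t) :
    finrank F N = k * finrank F (LinearMap.ker y) := by
  rw [finrank_eq_sum_ker y k, hy, LinearMap.range_zero, finrank_bot, zero_add]
  have h1 : ∀ j ∈ Finset.range k,
      finrank F (LinearMap.ker y ⊓ LinearMap.range (y ^ j) : Submodule F N) =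
        finrank F (LinearMap.ker y) := by
    intro j hj
    have hj' := Finset.mem_range.mp hj
    have h2 : LinearMap.ker y ⊓ LinearMap.range (y ^ j) = LinearMap.ker y := by
      apply inf_eq_left.mpr
      intro t ht
      obtain ⟨t', ht'⟩ := h t (LinearMap.mem_ker.mp ht)
      refine ⟨(y ^ (k - 1 - j)) t', ?_⟩
      rw [← Module.End.mul_apply, ← pow_add, show j + (k - 1 - j) = k - 1 by omega, ht']
    rw [h2]
  rw [Finset.sum_congr rfl h1]
  simp

end Jordan

section Lattice

variable {W K F : Type*} [CommRing W] [IsDomain W] [IsPrincipalIdealRing W]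
  [Field K] [Algebra W K] [IsFractionRing W K] [Field F] [Algebra W F]
  (hWF : Function.Surjective (algebraMap W F)) (ϖ : W)
  (hϖ1 : algebraMap W F ϖ = 0) (hϖ0 : ϖ ≠ 0)
  {V : Type*} [AddCommGroup V] [Module K V] [Module W V] [IsScalarTower W K V]
  (L : Submodule W V) [Module.Finite W L] (hL : ∀ v : V, ∃ w : W, w ≠ 0 ∧ w • v ∈ L)
  {M : Type*} [AddCommGroup M] [Module F M] [Module W M] [IsScalarTower W F M]
  (r : L →ₗ[W] M) (hr : Function.Surjective r)
  (hk : ∀ x : L, r x = 0 → ∃ x' : L, x = ϖ • x')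

/-- the image in `M` of the saturated sublattice `L ∩ E` -/
def redSub (E : Submodule K V) : Submodule F M where
  carrier := {m | ∃ x : L, (x : V) ∈ E ∧ r x = m}
  add_mem' := by
    rintro a b ⟨x, hx, rfl⟩ ⟨y, hy, rfl⟩
    exact ⟨x + y, E.add_mem hx hy, map_add r x y⟩
  zero_mem' := ⟨0, E.zero_mem, map_zero r⟩
  smul_mem' := by
    rintro c a ⟨x, hx, rfl⟩
    obtain ⟨w, rfl⟩ := hWF c
    refine ⟨w • x, ?_, ?_⟩
    · rw [Submodule.coe_smul, ← algebraMap_smul K w (x : V)]
      exact E.smul_mem _ hx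
    · rw [map_smul, algebraMap_smul]

omit [IsDomain W] [IsPrincipalIdealRing W] [IsFractionRing W K] [Module.Finite W L] in
theorem mem_redSub {E : Submodule K V} {m : M} :
    m ∈ redSub hWF L r E ↔ ∃ x : L, (x : V) ∈ E ∧ r x = m := Iff.rfl

include hϖ1 hϖ0 hL hk in
theorem finrank_redSub (E : Submodule K V) :
    finrank F (redSub hWF L r E) = finrank K E := by
  classical
  have hVt : Module.IsTorsionFree W V := .trans_faithfulSMul W K V
  let LE : Submodule W L := (E.restrictScalars W).comap L.subtype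
  have hLE : ∀ x : L, x ∈ LE ↔ (x : V) ∈ E := fun x => Iff.rfl
  have : IsNoetherian W L := isNoetherian_of_isNoetherianRing_of_finite W L
  have : Module.Finite W LE := Module.IsNoetherian.finite W LE
  have : Module.Free W LE := Module.free_of_finite_type_torsion_free'
  let ι := Module.Free.ChooseBasisIndex W LE
  let b : Basis ι W LE := Module.Free.chooseBasis W LE
  -- over `K`
  let v : ι → V := fun i => ((b i : L) : V)
  have hbW : LinearIndependent W v := by
    have h1 := b.linearIndependent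
    have h2 : LinearIndependent W ((L.subtype ∘ₗ LE.subtype) ∘ b) :=
      h1.map' _ (by
        rw [LinearMap.ker_eq_bot]
        exact fun x y hxy => Subtype.ext (Subtype.ext hxy))
    exact h2
  have hbK : LinearIndependent K v := (LinearIndependent.iff_fractionRing W K).mp hbW
  have hspanK : Submodule.span K (Set.range v) = E := by
    apply le_antisymm
    · rw [Submodule.span_le]
      rintro _ ⟨i, rfl⟩
      exact (hLE _).mp (b i).2
    · intro e he
      obtain ⟨w, hw0, hw⟩ := hL e
      have hwe : (⟨w • e, hw⟩ : L) ∈ LE := by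
        rw [hLE]
        show w • e ∈ E
        rw [← algebraMap_smul K w e]
        exact E.smul_mem _ he
      have h1 := b.sum_repr ⟨⟨w • e, hw⟩, hwe⟩
      have h2 : w • e = ∑ i, (b.repr ⟨⟨w • e, hw⟩, hwe⟩ i) • v i := by
        have h3 := congrArg (L.subtype ∘ₗ LE.subtype) h1
        rw [map_sum] at h3
        simp only [map_smul] at h3
        exact h3.symm
      have hw' : algebraMap W K w ≠ 0 := by
        intro h0
        exact hw0 ((IsFractionRing.injective W K) (by rw [h0, map_zero]))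
      have h4 : e = (algebraMap W K w)⁻¹ • (w • e) := by
        rw [← algebraMap_smul K w e, smul_smul, inv_mul_cancel₀ hw', one_smul]
      rw [h4, h2]
      apply Submodule.smul_mem
      apply Submodule.sum_mem
      intro i _
      rw [← algebraMap_smul K]
      exact Submodule.smul_mem _ _ (Submodule.subset_span ⟨i, rfl⟩)
  have h1 : finrank K E = Fintype.card ι := by
    rw [← hspanK]
    exact finrank_span_eq_card hbK
  -- over `F`
  let m : ι → M := fun i => r (b i)
  have hm : LinearIndependent F m := by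
    rw [Fintype.linearIndependent_iff]
    intro g hg
    choose w hw using fun i => hWF (g i)
    have h2 : r (∑ i, w i • (b i : L)) = 0 := by
      rw [map_sum, ← hg]
      refine Finset.sum_congr rfl fun i _ => ?_
      rw [map_smul, ← hw i, algebraMap_smul]
    obtain ⟨x', hx'⟩ := hk _ h2
    have hxE : (x' : V) ∈ E := by
      have h3 : ϖ • (x' : V) ∈ E := by
        have h4 := congrArg (fun x : L => (x : V)) hx'
        simp only [Submodule.coe_smul] at h4
        rw [← h4]
        have h5 : (∑ i, w i • (b i : L)) ∈ LE :=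
          Submodule.sum_mem _ fun i _ => Submodule.smul_mem _ _ (b i).2
        exact (hLE _).mp h5
      have hp' : algebraMap W K ϖ ≠ 0 := by
        intro h0
        exact hϖ0 ((IsFractionRing.injective W K) (by rw [h0, map_zero]))
      have h6 : (x' : V) = (algebraMap W K ϖ)⁻¹ • (ϖ • (x' : V)) := by
        rw [← algebraMap_smul K ϖ (x' : V), smul_smul, inv_mul_cancel₀ hp', one_smul]
      rw [h6]
      exact E.smul_mem _ h3
    have h7 : (∑ i, w i • b i) = ϖ • (⟨x', hxE⟩ : LE) := by
      apply Subtype.ext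
      have h8 : ((∑ i, w i • b i : LE) : L) = ∑ i, w i • (b i : L) := by
        simp
      rw [h8, hx']
      rfl
    intro i
    have h9 := congrArg (fun z => b.repr z i) h7
    simp only [map_smul, Finsupp.smul_apply, smul_eq_mul] at h9
    rw [b.repr_sum_self] at h9
    rw [← hw i, h9, map_mul, hϖ1, zero_mul]
  have hspanF : Submodule.span F (Set.range m) = redSub hWF L r E := by
    apply le_antisymm
    · rw [Submodule.span_le]
      rintro _ ⟨i, rfl⟩
      exact ⟨b i, (hLE _).mp (b i).2, rfl⟩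
    · rintro _ ⟨x, hx, rfl⟩
      have h2 := b.sum_repr ⟨x, (hLE x).mpr hx⟩
      have h3 : x = ∑ i, (b.repr ⟨x, (hLE x).mpr hx⟩ i) • (b i : L) := by
        have h4 := congrArg LE.subtype h2
        rw [map_sum] at h4
        simp only [map_smul] at h4
        exact h4.symm
      rw [h3, map_sum]
      apply Submodule.sum_mem
      intro i _
      rw [map_smul, ← algebraMap_smul F]
      exact Submodule.smul_mem _ _ (Submodule.subset_span ⟨i, rfl⟩)
  rw [h1, ← hspanF]
  exact finrank_span_eq_card hm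

/-- `Σ_{j<k} dim E_j ≥ dim V` if the `E_j` span -/
theorem finrank_le_sum_of_span {K V : Type*} [Field K] [AddCommGroup V] [Module K V]
    [FiniteDimensional K V] {k : ℕ} (E : Fin k → Submodule K V)
    (h : ∀ v : V, ∃ f : Fin k → V, (∀ j, f j ∈ E j) ∧ ∑ j, f j = v) :
    finrank K V ≤ ∑ j, finrank K (E j) := by
  let φ : ((j : Fin k) → E j) →ₗ[K] V :=
    ∑ j, (E j).subtype ∘ₗ LinearMap.proj j
  have hφ : Function.Surjective φ := by
    intro v
    obtain ⟨f, hf, hv⟩ := h v
    refine ⟨fun j => ⟨f j, hf j⟩, ?_⟩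
    rw [← hv]
    simp [φ]
  have h1 := LinearMap.finrank_le_finrank_of_surjective hφ
  rwa [Module.finrank_pi_fintype] at h1

section Count

variable {V : Type*} {K : Type*} [Field K] [AddCommGroup V] [Module K V]

/-- decomposition into the subspaces `Y2 v = ξ^j Y1 v` -/
theorem exists_decomp {k : ℕ} (hk0 : 0 < k) (hkK : (k : K) ≠ 0) {ξ c : K} (hξ : IsPrimitiveRoot ξ k)
    (hc : c ≠ 0) (Y1 Y2 : V →ₗ[K] V) (hY : Commute Y1 Y2) (h1 : Y1 ^ k = c • (1 : V →ₗ[K] V))
    (h2 : Y2 ^ k = c • (1 : V →ₗ[K] V)) (v : V) :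
    ∃ f : Fin k → V, (∀ j, Y2 (f j) = ξ ^ (j : ℕ) • Y1 (f j)) ∧ ∑ j, f j = v := by
  have hξ0 : ξ ≠ 0 := hξ.ne_zero hk0.ne'
  let P : Fin k → (V →ₗ[K] V) := fun j =>
    ((k : K)⁻¹ * c⁻¹) • ∑ i ∈ Finset.range k, (ξ⁻¹ ^ ((j : ℕ) * i)) • (Y2 ^ i * Y1 ^ (k - i))
  refine ⟨fun j => P j v, ?_, ?_⟩
  · intro j
    have h3 : Y2 * P j = ξ ^ (j : ℕ) • (Y1 * P j) := by
      simp only [P, mul_smul_comm, smul_comm (ξ ^ (j : ℕ))]
      congr 1
      rw [Finset.mul_sum, Finset.mul_sum, Finset.smul_sum]
      obtain ⟨n, rfl⟩ : ∃ n, k = n + 1 := ⟨k - 1, by omega⟩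
      rw [Finset.sum_range_succ, Finset.sum_range_succ' _ n]
      congr 1
      · refine Finset.sum_congr rfl fun i hi => ?_
        have hi' := Finset.mem_range.mp hi
        have e1 : n + 1 - i = (n + 1 - (i + 1)) + 1 := by omega
        rw [mul_smul_comm, mul_smul_comm, smul_smul, ← mul_assoc, ← pow_succ', e1]
        have e2 : Y1 * (Y2 ^ (i + 1) * Y1 ^ (n + 1 - (i + 1))) =
            Y2 ^ (i + 1) * Y1 ^ (n + 1 - (i + 1) + 1) := by
          rw [← mul_assoc, (hY.pow_right (i + 1)).eq, mul_assoc, ← pow_succ']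
        rw [e2]
        congr 1
        rw [mul_add, mul_one, pow_add, inv_pow, inv_pow, ← mul_assoc, mul_comm (ξ ^ (j : ℕ)),
          mul_assoc, mul_inv_cancel₀ (pow_ne_zero _ hξ0), mul_one]
      · rw [mul_smul_comm, mul_smul_comm, smul_smul, ← mul_assoc, ← pow_succ', h2, mul_zero,
          pow_zero, pow_zero, mul_one, one_mul, show n + 1 - n = 1 by omega, pow_one, Nat.sub_zero,
          h1, smul_mul_assoc, one_mul, mul_smul_comm, mul_one]
        congr 1
        have e3 : ξ⁻¹ ^ ((j : ℕ) * n) * ξ⁻¹ ^ (j : ℕ) = 1 := by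
          rw [← pow_add, ← Nat.mul_succ, Nat.succ_eq_add_one, mul_comm, pow_mul, inv_pow,
            hξ.pow_eq_one, inv_one, one_pow]
        have e4 : ξ ^ (j : ℕ) = (ξ⁻¹ ^ (j : ℕ))⁻¹ := by
          rw [inv_pow, inv_inv]
        rw [e4]
        exact eq_inv_of_mul_eq_one_left e3
    have h4 := LinearMap.congr_fun h3 v
    simpa using h4
  · have h5 : ∑ j, P j = 1 := by
      simp only [P]
      rw [← Finset.smul_sum, Finset.sum_comm]
      have h6 : ∀ i ∈ Finset.range k, i ≠ 0 →
          ∑ j : Fin k, (ξ⁻¹ ^ ((j : ℕ) * i)) • (Y2 ^ i * Y1 ^ (k - i)) = 0 := by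
        intro i hi hi0
        rw [← Finset.sum_smul]
        have h7 : ∑ j : Fin k, ξ⁻¹ ^ ((j : ℕ) * i) = 0 := by
          have h8 : ∑ j : Fin k, ξ⁻¹ ^ ((j : ℕ) * i) = ∑ j ∈ Finset.range k, (ξ⁻¹ ^ i) ^ j := by
            rw [← Fin.sum_univ_eq_sum_range (fun j => (ξ⁻¹ ^ i) ^ j) k]
            exact Finset.sum_congr rfl fun j _ => by rw [← pow_mul, mul_comm]
          rw [h8]
          have h9 : ξ⁻¹ ^ i ≠ 1 := by
            intro h10
            rw [inv_pow, inv_eq_one] at h10
            have := hξ.dvd_of_pow_eq_one _ h10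
            have h11 := Finset.mem_range.mp hi
            have := Nat.le_of_dvd (Nat.pos_of_ne_zero hi0) this
            omega
          have h12 := mul_geom_sum (ξ⁻¹ ^ i) k
          have h13 : (ξ⁻¹ ^ i) ^ k = 1 := by
            rw [← pow_mul, mul_comm, pow_mul, inv_pow, hξ.pow_eq_one, inv_one, one_pow]
          rw [h13, sub_self] at h12
          rcases mul_eq_zero.mp h12 with h14 | h14
          · exact absurd (sub_eq_zero.mp h14) h9
          · exact h14
        rw [h7, zero_smul]
      rw [Finset.sum_eq_single_of_mem 0 (Finset.mem_range.mpr hk0) h6]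
      simp only [mul_zero, pow_zero, one_smul, one_mul, Nat.sub_zero, Finset.sum_const,
        Finset.card_univ, Fintype.card_fin, h1]
      rw [← Nat.cast_smul_eq_nsmul K, smul_smul, smul_smul]
      rw [show (k : K)⁻¹ * c⁻¹ * (k : K) * c = 1 by field_simp, one_smul]
    have h15 := LinearMap.congr_fun h5 v
    simpa using h15

end Count

variable [FiniteDimensional K V]

include hWF hϖ1 hϖ0 hL hk hr in
/-- **(M-abs)** -/
theorem mabs {k : ℕ} (hk0 : 0 < k) (hkK : (k : K) ≠ 0) {ξ : W} (hξ : IsPrimitiveRoot ξ k)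
    (Y1 Y2 : V →ₗ[K] V) (hY : Commute Y1 Y2)
    (h1 : Y1 ^ k = algebraMap W K ϖ • (1 : V →ₗ[K] V))
    (h2 : Y2 ^ k = algebraMap W K ϖ • (1 : V →ₗ[K] V))
    (hL1 : ∀ x ∈ L, Y1 x ∈ L) (hL2 : ∀ x ∈ L, Y2 x ∈ L)
    (y1 y2 : M →ₗ[F] M) (hy1 : ∀ x : L, y1 (r x) = r ⟨Y1 x, hL1 x x.2⟩)
    (hy2 : ∀ x : L, y2 (r x) = r ⟨Y2 x, hL2 x x.2⟩)
    (hii : ∀ t, y1 t = 0 → y2 t = 0 → ∃ t', y1 t' = 0 ∧ (y2 ^ (k - 1)) t' = t) :
    finrank K V = k * (k * finrank F (LinearMap.ker y1 ⊓ LinearMap.ker y2 : Submodule F M)) ∧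
    ∀ ζ : W, ζ ^ k = 1 →
      finrank K (LinearMap.ker (Y2 - algebraMap W K ζ • Y1)) =
        k * finrank F (LinearMap.ker y1 ⊓ LinearMap.ker y2 : Submodule F M) := by
  classical
  have hMW : Module.Finite W M := Module.Finite.of_surjective r hr
  have hMF : Module.Finite F M := Module.Finite.of_restrictScalars_finite W F M
  have hp' : algebraMap W K ϖ ≠ 0 := by
    intro h0
    exact hϖ0 ((IsFractionRing.injective W K) (by rw [h0, map_zero]))
  have hpV : ∀ v : V, ϖ • v = algebraMap W K ϖ • v := fun v => (algebraMap_smul K ϖ v).symm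
  have hpM : ∀ m : M, ϖ • m = 0 := by
    intro m
    rw [← algebraMap_smul F ϖ m, hϖ1, zero_smul]
  -- powers
  have hpow1 : ∀ (j : ℕ) (x : L), ∃ x' : L, (x' : V) = (Y1 ^ j) x ∧ (y1 ^ j) (r x) = r x' := by
    intro j
    induction j with
    | zero => exact fun x => ⟨x, by simp, by simp⟩
    | succ j ih =>
      intro x
      obtain ⟨x', hx', hx''⟩ := ih x
      refine ⟨⟨Y1 x', hL1 x' x'.2⟩, ?_, ?_⟩
      · rw [pow_succ', Module.End.mul_apply, ← hx']
      · rw [pow_succ', Module.End.mul_apply, hx'', hy1]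
  have hpow2 : ∀ (j : ℕ) (x : L), ∃ x' : L, (x' : V) = (Y2 ^ j) x ∧ (y2 ^ j) (r x) = r x' := by
    intro j
    induction j with
    | zero => exact fun x => ⟨x, by simp, by simp⟩
    | succ j ih =>
      intro x
      obtain ⟨x', hx', hx''⟩ := ih x
      refine ⟨⟨Y2 x', hL2 x' x'.2⟩, ?_, ?_⟩
      · rw [pow_succ', Module.End.mul_apply, ← hx']
      · rw [pow_succ', Module.End.mul_apply, hx'', hy2]
  have hy1k : y1 ^ k = 0 := by
    apply LinearMap.ext
    intro m
    obtain ⟨x, rfl⟩ := hr m
    obtain ⟨x', hx', hx''⟩ := hpow1 k x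
    rw [hx'', LinearMap.zero_apply]
    have : x' = ϖ • x := by
      apply Subtype.ext
      rw [hx', h1, Submodule.coe_smul, hpV]
      simp
    rw [this, map_smul, hpM]
  have hy2k : y2 ^ k = 0 := by
    apply LinearMap.ext
    intro m
    obtain ⟨x, rfl⟩ := hr m
    obtain ⟨x', hx', hx''⟩ := hpow2 k x
    rw [hx'', LinearMap.zero_apply]
    have : x' = ϖ • x := by
      apply Subtype.ext
      rw [hx', h2, Submodule.coe_smul, hpV]
      simp
    rw [this, map_smul, hpM]
  have hcomm : ∀ m, y1 (y2 m) = y2 (y1 m) := by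
    intro m
    obtain ⟨x, rfl⟩ := hr m
    rw [hy1, hy2, hy1, hy2]
    congr 1
    apply Subtype.ext
    exact LinearMap.congr_fun hY.eq (x : V)
  have hinj : ∀ v : V, Y1 v = 0 → v = 0 := by
    intro v hv
    have h3 : (Y1 ^ k) v = 0 := by
      obtain ⟨n, rfl⟩ : ∃ n, k = n + 1 := ⟨k - 1, by omega⟩
      rw [pow_succ, Module.End.mul_apply, hv, map_zero]
    rw [h1, LinearMap.smul_apply, Module.End.one_apply] at h3
    exact (smul_eq_zero.mp h3).resolve_left hp'
  have hker1 : ∀ t, y1 t = 0 → ∃ t', (y1 ^ (k - 1)) t' = t := by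
    intro t ht
    obtain ⟨x, rfl⟩ := hr t
    rw [hy1] at ht
    obtain ⟨x', hx'⟩ := hk _ ht
    obtain ⟨x'', e1, e2⟩ := hpow1 (k - 1) x'
    refine ⟨r x', ?_⟩
    rw [e2]
    congr 1
    apply Subtype.ext
    have h3 : Y1 ((x : V) - x'') = 0 := by
      rw [map_sub, e1, ← Module.End.mul_apply, ← pow_succ', show k - 1 + 1 = k by omega, h1]
      have h4 := congrArg (fun z : L => (z : V)) hx'
      simp only [Submodule.coe_smul] at h4
      rw [h4, hpV]
      simp
    exact (sub_eq_zero.mp (hinj _ h3)).symm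
  -- total dimension
  have hred : finrank F M = finrank K V := by
    have h3 := finrank_redSub hWF ϖ hϖ1 hϖ0 L hL r hk (⊤ : Submodule K V)
    have h4 : redSub hWF L r (⊤ : Submodule K V) = ⊤ := by
      rw [eq_top_iff]
      intro m _
      obtain ⟨x, hx⟩ := hr m
      exact ⟨x, Submodule.mem_top, hx⟩
    rw [h4, finrank_top, finrank_top] at h3
    exact h3
  have hMk : finrank F M = k * finrank F (LinearMap.ker y1) := finrank_eq_mul_ker y1 hy1k hker1
  have hstab : ∀ m ∈ LinearMap.ker y1, y2 m ∈ LinearMap.ker y1 := by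
    intro m hm
    rw [LinearMap.mem_ker] at hm ⊢
    rw [hcomm, hm, map_zero]
  have hKk : finrank F (LinearMap.ker y1) =
      k * finrank F (LinearMap.ker y1 ⊓ LinearMap.ker y2 : Submodule F M) := by
    have h3 : (y2.restrict hstab) ^ k = 0 := by
      apply LinearMap.ext
      intro m
      apply Subtype.ext
      rw [Module.End.pow_restrict]
      simp [hy2k]
    have h4 := finrank_eq_mul_ker (y2.restrict hstab) h3 (by
      intro t ht
      have ht' : y2 (t : M) = 0 := by
        have := congrArg (fun z : LinearMap.ker y1 => (z : M)) ht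
        simpa using this
      obtain ⟨t', e1, e2⟩ := hii t (LinearMap.mem_ker.mp t.2) ht'
      refine ⟨⟨t', LinearMap.mem_ker.mpr e1⟩, ?_⟩
      apply Subtype.ext
      rw [Module.End.pow_restrict]
      simpa using e2)
    have h5 : finrank F (LinearMap.ker (y2.restrict hstab)) =
        finrank F (LinearMap.ker y1 ⊓ LinearMap.ker y2 : Submodule F M) := by
      have h6 : LinearMap.ker (y2.restrict hstab) =
          Submodule.comap (LinearMap.ker y1).subtype (LinearMap.ker y2) := by
        ext z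
        simp [LinearMap.mem_ker, LinearMap.restrict_apply, Subtype.ext_iff]
      rw [h6, ← Submodule.finrank_map_subtype_eq (LinearMap.ker y1), Submodule.map_comap_subtype]
    rw [h4, h5]
  -- upper bound
  have hup : ∀ ζ : W, finrank K (LinearMap.ker (Y2 - algebraMap W K ζ • Y1)) ≤
      k * finrank F (LinearMap.ker y1 ⊓ LinearMap.ker y2 : Submodule F M) := by
    intro ζ
    set E := LinearMap.ker (Y2 - algebraMap W K ζ • Y1) with hE
    have hmemE : ∀ v, v ∈ E ↔ Y2 v = algebraMap W K ζ • Y1 v := by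
      intro v
      rw [hE, LinearMap.mem_ker, LinearMap.sub_apply, LinearMap.smul_apply, sub_eq_zero]
    rw [← finrank_redSub hWF ϖ hϖ1 hϖ0 L hL r hk E]
    have hst : ∀ m ∈ redSub hWF L r E, y1 m ∈ redSub hWF L r E := by
      rintro _ ⟨x, hx, rfl⟩
      refine ⟨⟨Y1 x, hL1 x x.2⟩, ?_, (hy1 x).symm⟩
      rw [hmemE] at hx ⊢
      have h3 := LinearMap.congr_fun hY.eq (x : V)
      simp only [Module.End.mul_apply] at h3
      show Y2 (Y1 (x : V)) = _
      rw [← h3, hx, map_smul]
    have h3 : (y1.restrict hst) ^ k = 0 := by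
      apply LinearMap.ext
      intro m
      apply Subtype.ext
      rw [Module.End.pow_restrict]
      simp [hy1k]
    refine (finrank_le_mul_ker _ h3).trans (Nat.mul_le_mul_left k ?_)
    rw [← Submodule.finrank_map_subtype_eq (redSub hWF L r E)]
    apply Submodule.finrank_mono
    rintro _ ⟨⟨m, hm⟩, hm', rfl⟩
    have h4 : y1 m = 0 := by
      have h5 := LinearMap.mem_ker.mp hm'
      have := congrArg (fun z : redSub hWF L r E => (z : M)) h5
      simpa using this
    obtain ⟨x, hx, hxm⟩ := hm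
    refine Submodule.mem_inf.mpr ⟨LinearMap.mem_ker.mpr h4, LinearMap.mem_ker.mpr ?_⟩
    show y2 m = 0
    rw [← hxm, hy2]
    have h6 : (⟨Y2 x, hL2 x x.2⟩ : L) = ζ • ⟨Y1 x, hL1 x x.2⟩ := by
      apply Subtype.ext
      show Y2 (x : V) = ζ • Y1 (x : V)
      rw [(hmemE _).mp hx, algebraMap_smul]
    rw [h6, map_smul, ← hy1, hxm, h4, smul_zero]
  have htot : finrank K V =
      k * (k * finrank F (LinearMap.ker y1 ⊓ LinearMap.ker y2 : Submodule F M)) := by
    rw [← hred, hMk, hKk]
  refine ⟨htot, ?_⟩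
  intro ζ hζ
  have : NeZero k := ⟨hk0.ne'⟩
  obtain ⟨i, hi, hiζ⟩ := hξ.eq_pow_of_pow_eq_one hζ
  have hξK : IsPrimitiveRoot (algebraMap W K ξ) k :=
    hξ.map_of_injective (IsFractionRing.injective W K)
  have hsum := finrank_le_sum_of_span
    (fun j : Fin k => LinearMap.ker (Y2 - algebraMap W K (ξ ^ (j : ℕ)) • Y1)) (by
      intro v
      obtain ⟨f, hf, hv⟩ := exists_decomp hk0 hkK hξK hp' Y1 Y2 hY h1 h2 v
      refine ⟨f, fun j => ?_, hv⟩
      rw [LinearMap.mem_ker, LinearMap.sub_apply, LinearMap.smul_apply, sub_eq_zero, hf j,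
        map_pow])
  refine le_antisymm (hup ζ) ?_
  by_contra hlt
  rw [not_le] at hlt
  have h7 : ∑ j : Fin k, finrank K (LinearMap.ker (Y2 - algebraMap W K (ξ ^ (j : ℕ)) • Y1)) <
      ∑ _j : Fin k, k * finrank F (LinearMap.ker y1 ⊓ LinearMap.ker y2 : Submodule F M) := by
    apply Finset.sum_lt_sum (fun j _ => hup _)
    refine ⟨⟨i, hi⟩, Finset.mem_univ _, ?_⟩
    show finrank K (LinearMap.ker (Y2 - algebraMap W K (ξ ^ i) • Y1)) < _
    rw [hiζ]
    exact hlt
  rw [Finset.sum_const, Finset.card_univ, Fintype.card_fin, smul_eq_mul, ← htot] at h7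
  exact absurd hsum (not_le.mpr h7)

end Lattice

end Pool.Agent.MP_369ee2_lc_PD
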