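import Pool.Agent.Lib.MP_369ee2_lc_PD.OrdP
import Pool.Agent.Lib.MP_369ee2_lc_PD.MAbs

/-!
# Jordan counts (row A10)
-/

namespace PDeg

section
variable {F V : Type} [Field F] [AddCommGroup V] [Module F V] [FiniteDimensional F V]

/-- if `y ^ k = 0` and every vector killed by `y` is in the image of `y ^ (k-1)`, all Jordan
blocks have size `k` -/
theorem jordan_eq (y : V →ₗ[F] V) (k : ℕ) (hk : 1 ≤ k) (h0 : y ^ k = 0)
    (h : ∀ v, y v = 0 → ∃ u, v = (y ^ (k - 1)) u) :
    Module.finrank F V = k * Module.finrank F (LinearMap.ker y) :=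
  PD.finrank_eq_mul_finrank_ker y k h0 h

theorem jordan_le (y : V →ₗ[F] V) (k : ℕ) (h0 : y ^ k = 0) :
    Module.finrank F V ≤ k * Module.finrank F (LinearMap.ker y) :=
  Pool.Agent.MP_369ee2_lc_PD.finrank_le_mul_ker y h0

end

end PDeg
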