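import Pool.Agent.Lib.MP_369ee2_lc_PD.MAbs

/-! # (M-abs) for a lattice given by an injection -/

set_option autoImplicit false

namespace Pool.Agent.MP_369ee2_lc_PD

open Module

variable {W K F : Type*} [CommRing W] [IsDomain W] [IsPrincipalIdealRing W]
  [Field K] [Algebra W K] [IsFractionRing W K] [Field F] [Algebra W F]
  (hWF : Function.Surjective (algebraMap W F)) (ϖ : W)
  (hϖ1 : algebraMap W F ϖ = 0) (hϖ0 : ϖ ≠ 0)
  {V : Type*} [AddCommGroup V] [Module K V] [Module W V] [IsScalarTower W K V]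
  {N : Type*} [AddCommGroup N] [Module W N] [Module.Finite W N]
  {M : Type*} [AddCommGroup M] [Module F M] [Module W M] [IsScalarTower W F M]

include hWF hϖ1 hϖ0 in
/-- **(M-abs)**, the lattice `N` being mapped injectively to `V` -/
theorem mabs_inj (i : N →ₗ[W] V) (hi : Function.Injective i)
    (hfull : ∀ v : V, ∃ w : W, w ≠ 0 ∧ ∃ x, i x = w • v)
    (ρ : N →ₗ[W] M) (hρ : Function.Surjective ρ) (hρk : ∀ x, ρ x = 0 → ∃ x', x = ϖ • x')
    {k : ℕ} (hk0 : 0 < k) (hkK : (k : K) ≠ 0) {ξ : W} (hξ : IsPrimitiveRoot ξ k)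
    (Y1 Y2 : V →ₗ[K] V) (hY : Commute Y1 Y2)
    (h1 : Y1 ^ k = algebraMap W K ϖ • (1 : V →ₗ[K] V))
    (h2 : Y2 ^ k = algebraMap W K ϖ • (1 : V →ₗ[K] V))
    (n1 n2 : N → N) (hn1 : ∀ x, Y1 (i x) = i (n1 x)) (hn2 : ∀ x, Y2 (i x) = i (n2 x))
    (y1 y2 : M →ₗ[F] M) (hy1 : ∀ x, y1 (ρ x) = ρ (n1 x)) (hy2 : ∀ x, y2 (ρ x) = ρ (n2 x))
    (hii : ∀ t, y1 t = 0 → y2 t = 0 → ∃ t', y1 t' = 0 ∧ (y2 ^ (k - 1)) t' = t) :
    finrank K V = k * (k * finrank F (LinearMap.ker y1 ⊓ LinearMap.ker y2 : Submodule F M)) ∧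
    ∀ ζ : W, ζ ^ k = 1 →
      finrank K (LinearMap.ker (Y2 - algebraMap W K ζ • Y1)) =
        k * finrank F (LinearMap.ker y1 ⊓ LinearMap.ker y2 : Submodule F M) := by
  classical
  have hspan : Submodule.span K (LinearMap.range i : Set V) = ⊤ := by
    rw [eq_top_iff]
    intro v _
    obtain ⟨w, hw, x, hx⟩ := hfull v
    have hw' : algebraMap W K w ≠ 0 := fun h0 =>
      hw ((IsFractionRing.injective W K) (by rw [h0, map_zero]))
    have : v = (algebraMap W K w)⁻¹ • i x := by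
      rw [hx, ← algebraMap_smul K w v, smul_smul, inv_mul_cancel₀ hw', one_smul]
    rw [this]
    exact Submodule.smul_mem _ _ (Submodule.subset_span ⟨x, rfl⟩)
  have : FiniteDimensional K V := by
    obtain ⟨s, hs⟩ := (Module.Finite.fg_top : (⊤ : Submodule W N).FG)
    refine ⟨⟨s.image i, ?_⟩⟩
    rw [eq_top_iff, ← hspan, Submodule.span_le]
    rintro _ ⟨x, rfl⟩
    have hx : x ∈ Submodule.span W (s : Set N) := by rw [hs]; trivial
    have hx' : i x ∈ Submodule.span W (i '' (s : Set N)) := by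
      rw [← Submodule.map_span]
      exact ⟨x, hx, rfl⟩
    rw [Finset.coe_image]
    exact Submodule.span_le_restrictScalars W K _ hx'
  let e := LinearEquiv.ofInjective i hi
  have he : ∀ (x : N) (z : LinearMap.range i), (z : V) = i x → e.symm z = x := by
    intro x z h
    apply e.injective
    rw [LinearEquiv.apply_symm_apply]
    exact Subtype.ext h
  have hfin : Module.Finite W (LinearMap.range i) := Module.Finite.equiv e
  refine mabs hWF ϖ hϖ1 hϖ0 (LinearMap.range i) ?_ (ρ.comp e.symm.toLinearMap) ?_ ?_ hk0 hkK hξ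
    Y1 Y2 hY h1 h2 ?_ ?_ y1 y2 ?_ ?_ hii
  · intro v
    obtain ⟨w, hw, x, hx⟩ := hfull v
    exact ⟨w, hw, x, hx⟩
  · exact hρ.comp e.symm.surjective
  · rintro ⟨_, x, rfl⟩ hx
    have hx' : ρ (e.symm ⟨i x, ⟨x, rfl⟩⟩) = 0 := hx
    rw [he x _ rfl] at hx'
    obtain ⟨x', rfl⟩ := hρk x hx'
    refine ⟨⟨i x', ⟨x', rfl⟩⟩, ?_⟩
    apply Subtype.ext
    show i (ϖ • x') = ϖ • i x'
    rw [map_smul]
  · rintro _ ⟨x, rfl⟩
    exact ⟨n1 x, (hn1 x).symm⟩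
  · rintro _ ⟨x, rfl⟩
    exact ⟨n2 x, (hn2 x).symm⟩
  · rintro ⟨_, x, rfl⟩
    show y1 (ρ (e.symm ⟨i x, ⟨x, rfl⟩⟩)) = ρ (e.symm ⟨Y1 (i x), _⟩)
    rw [he x _ rfl, hy1, he (n1 x) _ (hn1 x)]
  · rintro ⟨_, x, rfl⟩
    show y2 (ρ (e.symm ⟨i x, ⟨x, rfl⟩⟩)) = ρ (e.symm ⟨Y2 (i x), _⟩)
    rw [he x _ rfl, hy2, he (n2 x) _ (hn2 x)]

end Pool.Agent.MP_369ee2_lc_PD
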