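import Pool.Agent.Lib.MP_369ee2_lc_PD.Alg
import Pool.Agent.Lib.MP_369ee2_lc_PD.BaseWitt
import Pool.Agent.Lib.MP_369ee2_lc_PD.Jordan
import Pool.Agent.Lib.MP_369ee2_lc_PD.MInj

/-!
# Fact M, abstract version (row A9)
-/

namespace PDeg

open scoped BigOperators

section
variable {p : ℕ} {W K F : Type} [CommRing W] [IsDomain W] [Field K] [Algebra W K]
  [IsFractionRing W K] [Field F] [Algebra W F]

theorem factM_abs (hB : Base p W K F) (k : ℕ) (hk : k ∣ p - 1) (hk1 : 1 ≤ k)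
    {L LK LF : Type} [AddCommGroup L] [Module W L] [Module.Finite W L]
    [AddCommGroup LK] [Module K LK] [FiniteDimensional K LK]
    [AddCommGroup LF] [Module F LF] [FiniteDimensional F LF]
    (iK : L →+ LK) (iF : L →+ LF)
    (hKs : ∀ (w : W) (v : L), iK (w • v) = algebraMap W K w • iK v)
    (hFs : ∀ (w : W) (v : L), iF (w • v) = algebraMap W F w • iF v)
    (hKinj : Function.Injective iK)
    (hKsp : ∀ v : LK, ∃ (n : ℕ) (u : L), (p : K) ^ n • v = iK u)
    (hFsurj : Function.Surjective iF)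
    (hFker : ∀ v : L, iF v = 0 → ∃ u : L, v = (p : W) • u)
    (y1 y2 : L →+ L) (y1K y2K : LK →ₗ[K] LK) (y1F y2F : LF →ₗ[F] LF)
    (c1K : ∀ v, iK (y1 v) = y1K (iK v)) (c2K : ∀ v, iK (y2 v) = y2K (iK v))
    (c1F : ∀ v, iF (y1 v) = y1F (iF v)) (c2F : ∀ v, iF (y2 v) = y2F (iF v))
    (hcomm : ∀ v, y1 (y2 v) = y2 (y1 v))
    (hp1 : ∀ v : LK, (y1K ^ k) v = (p : K) • v) (hp2 : ∀ v : LK, (y2K ^ k) v = (p : K) • v)
    (hP1 : ∀ v : LF, y1F v = 0 → ∃ u : LF, v = (y1F ^ (k - 1)) u)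
    (hP2 : ∀ v : LF, y1F v = 0 → y2F v = 0 → ∃ u : LF, y1F u = 0 ∧ v = (y2F ^ (k - 1)) u) :
    Module.finrank K LK =
        k ^ 2 * Module.finrank F ↥(LinearMap.ker y1F ⊓ LinearMap.ker y2F) ∧
      ∀ ζ : W, ζ ^ k = 1 →
        Module.finrank K (LinearMap.ker (y2K - (algebraMap W K ζ) • y1K)) =
          k * Module.finrank F ↥(LinearMap.ker y1F ⊓ LinearMap.ker y2F) := by
  have hdvr : IsDiscreteValuationRing W := hB.dvr
  have hpir : IsPrincipalIdealRing W := inferInstance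
  have hcz : CharZero K := hB.charZero
  letI mK : Module W LK := Module.compHom LK (algebraMap W K)
  have tK : IsScalarTower W K LK :=
    ⟨fun w c v => by rw [Algebra.smul_def, mul_smul]; rfl⟩
  letI mF : Module W LF := Module.compHom LF (algebraMap W F)
  have tF : IsScalarTower W F LF :=
    ⟨fun w c v => by rw [Algebra.smul_def, mul_smul]; rfl⟩
  obtain ⟨ξ, hξ, -⟩ := hB.exists_primitive k hk hk1
  have hp0 : (p : K) ≠ 0 := Nat.cast_ne_zero.mpr hB.prime.ne_zero
  have hpW : (p : W) ≠ 0 := by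
    intro h0
    apply hp0
    rw [← map_natCast (algebraMap W K), h0, map_zero]
  let i : L →ₗ[W] LK := { toFun := iK, map_add' := iK.map_add, map_smul' := hKs }
  let ρ : L →ₗ[W] LF := { toFun := iF, map_add' := iF.map_add, map_smul' := hFs }
  have key := Pool.Agent.MP_369ee2_lc_PD.mabs_inj (W := W) (K := K) (F := F) hB.surj (p : W)
    ((hB.ker _).mpr dvd_rfl) hpW i hKinj (fun v => by
      obtain ⟨n, u, hu⟩ := hKsp v
      refine ⟨(p : W) ^ n, pow_ne_zero n hpW, u, ?_⟩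
      show iK u = algebraMap W K ((p : W) ^ n) • v
      rw [← hu, map_pow, map_natCast]) ρ hFsurj hFker hk1
    (Nat.cast_ne_zero.mpr (by omega)) hξ y1K y2K (by
      apply LinearMap.ext
      intro v
      obtain ⟨n, u, hu⟩ := hKsp v
      have h3 : (p : K) ^ n • (y1K (y2K v)) = (p : K) ^ n • (y2K (y1K v)) := by
        rw [← map_smul, ← map_smul, ← map_smul, ← map_smul, hu, ← c2K, ← c1K, ← c1K, ← c2K,
          hcomm]
      have h4 := congrArg (fun t => ((p : K) ^ n)⁻¹ • t) h3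
      simpa [smul_smul, inv_mul_cancel₀ (pow_ne_zero n hp0)] using h4) (by
      apply LinearMap.ext
      intro v
      rw [hp1, map_natCast]
      rfl) (by
      apply LinearMap.ext
      intro v
      rw [hp2, map_natCast]
      rfl) y1 y2 (fun x => (c1K x).symm) (fun x => (c2K x).symm) y1F y2F
      (fun x => (c1F x).symm) (fun x => (c2F x).symm) (fun t h h' => by
        obtain ⟨u, hu, hu'⟩ := hP2 t h h'
        exact ⟨u, hu, hu'.symm⟩)
  refine ⟨?_, key.2⟩
  rw [key.1]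
  ring

end

end PDeg
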