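import Pool.Agent.Lib.MP_369ee2_lc_PD.Ord

/-!
# Section 3, (3d): the kernel of `y` mod `p`
-/

namespace PDeg

open scoped BigOperators Matrix

section
variable {X : Type} [Fintype X] [DecidableEq X] {C : Coh X} {p : ℕ} {W K F : Type}
  [CommRing W] [IsDomain W] [Field K] [Algebra W K] [IsFractionRing W K] [Field F] [Algebra W F]
  {k d : ℕ} {y : Matrix X X W} {ζ0 : W}

omit [DecidableEq X] in
theorem JJ_mulVec {R : Type} [CommRing R] (v : X → R) : JJ X R *ᵥ v = fun _ => ∑ i, v i := by
  ext i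
  simp [JJ, Matrix.mulVec, dotProduct]

theorem natCast_mulVec {R : Type} [CommRing R] (n : ℕ) (v : X → R) :
    ((n : Matrix X X R)) *ᵥ v = fun i => (n : R) * v i := by
  have : ((n : ℕ) : Matrix X X R) = (n : R) • (1 : Matrix X X R) := by
    rw [← Matrix.diagonal_natCast, Matrix.smul_one_eq_diagonal]
  rw [this, Matrix.smul_mulVec, Matrix.one_mulVec]
  rfl

omit [IsDomain W] [IsFractionRing W K] in
/-- the sum of `y v` vanishes -/
theorem YData.sum_mulVec (hY : YData C p W K k d y ζ0) (v : X → W) : ∑ i, (y *ᵥ v) i = 0 := by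
  simp only [Matrix.mulVec, dotProduct]
  rw [Finset.sum_comm]
  have : ∀ j, ∑ i, y i j * v j = 0 := by
    intro j
    rw [← Finset.sum_mul, hY.colsum, zero_mul]
  simp [this]

omit [IsDomain W] [IsFractionRing W K] in
theorem YData.sum_pow_mulVec (hY : YData C p W K k d y ζ0) (n : ℕ) (hn : 1 ≤ n) (v : X → W) :
    ∑ i, ((y ^ n) *ᵥ v) i = 0 := by
  obtain ⟨m, rfl⟩ : ∃ m, n = m + 1 := ⟨n - 1, by omega⟩
  rw [pow_succ', ← Matrix.mulVec_mulVec]
  exact hY.sum_mulVec _

omit [IsDomain W] [IsFractionRing W K] in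
theorem YData.pow_mulVec (hY : YData C p W K k d y ζ0) (v : X → W) (hv : ∑ i, v i = 0) :
    (y ^ k) *ᵥ v = fun i => (p : W) * v i := by
  rw [hY.pow, Matrix.sub_mulVec, natCast_mulVec, JJ_mulVec, hv]
  ext i
  simp

/-- `y` is injective on vectors of sum zero -/
theorem YData.inj [Base p W K F] (hY : YData C p W K k d y ζ0) (v : X → W)
    (hv : ∑ i, v i = 0) (h : y *ᵥ v = 0) : v = 0 := by
  have hB : Base p W K F := inferInstance
  have h1 := hY.pow_mulVec v hv
  have hk := hY.k2
  have h2 : (y ^ k) *ᵥ v = 0 := by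
    obtain ⟨m, hm⟩ : ∃ m, k = m + 1 := ⟨k - 1, by omega⟩
    rw [hm, pow_succ, ← Matrix.mulVec_mulVec, h, Matrix.mulVec_zero]
  rw [h2] at h1
  have hp0 : (p : W) ≠ 0 := by
    intro h0
    have h3 : (p : K) = 0 := by
      rw [← map_natCast (algebraMap W K), h0, map_zero]
    have := hB.charZero
    exact hB.prime.ne_zero (Nat.cast_eq_zero.1 h3)
  ext i
  have := congrFun h1 i
  simp only [Pi.zero_apply] at this ⊢
  rcases mul_eq_zero.1 this.symm with h3 | h3
  · exact absurd h3 hp0
  · exact h3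

/-- (3d) -/
theorem YData.ker [Base p W K F] (hY : YData C p W K k d y ζ0) (v : X → F)
    (hv : (y.map (algebraMap W F)) *ᵥ v = 0) :
    ∃ u : X → F, v = ((y.map (algebraMap W F)) ^ (k - 1)) *ᵥ u := by
  have hB : Base p W K F := inferInstance
  have hk := hY.k2
  have hp0 : (p : F) = 0 := by
    rw [← map_natCast (algebraMap W F), hB.ker]
  rcases isEmpty_or_nonempty X with hX | hX
  · exact ⟨0, funext fun i => (hX.false i).elim⟩
  obtain ⟨x0⟩ := hX
  -- the sum of `v`
  have hsum : ∑ i, v i = 0 := by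
    have h1 : ((y.map (algebraMap W F)) ^ k) *ᵥ v = 0 := by
      obtain ⟨m, hm⟩ : ∃ m, k = m + 1 := ⟨k - 1, by omega⟩
      rw [hm, pow_succ, ← Matrix.mulVec_mulVec, hv, Matrix.mulVec_zero]
    have h2 : (y.map (algebraMap W F)) ^ k = (p : Matrix X X F) - JJ X F := by
      have h3 := congrArg (fun M : Matrix X X W => (algebraMap W F).mapMatrix M) hY.pow
      simp only [map_pow, map_sub, map_natCast] at h3
      have h4 : (algebraMap W F).mapMatrix (JJ X W) = JJ X F := by
        ext i j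
        simp [JJ]
      rw [h4] at h3
      exact h3
    rw [h2, Matrix.sub_mulVec, natCast_mulVec, JJ_mulVec, hp0] at h1
    have h3 := congrFun h1 x0
    simpa using h3
  -- lift
  choose g hg using hB.surj
  let v1 : X → W := fun i => g (v i) - if i = x0 then ∑ j, g (v j) else 0
  have hv1s : ∑ i, v1 i = 0 := by
    simp [v1, Finset.sum_sub_distrib]
  have hv1r : ∀ i, algebraMap W F (v1 i) = v i := by
    intro i
    have h1 : algebraMap W F (∑ j, g (v j)) = 0 := by
      rw [map_sum]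
      simp only [hg]
      exact hsum
    simp only [v1, map_sub, hg]
    split_ifs
    · rw [h1, sub_zero]
    · rw [map_zero, sub_zero]
  have h1 : ∀ i, (p : W) ∣ (y *ᵥ v1) i := by
    intro i
    rw [← hB.ker]
    have h2 := congrFun hv i
    have h3 : algebraMap W F ((y *ᵥ v1) i) = ((y.map (algebraMap W F)) *ᵥ v) i := by
      simp [Matrix.mulVec, dotProduct, map_sum, hv1r]
    rw [h3]
    exact h2
  choose v2 hv2 using h1
  have hpW : (p : W) ≠ 0 := by
    intro h0
    have h3 : (p : K) = 0 := by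
      rw [← map_natCast (algebraMap W K), h0, map_zero]
    have := hB.charZero
    exact hB.prime.ne_zero (Nat.cast_eq_zero.1 h3)
  have hv2s : ∑ i, v2 i = 0 := by
    have h2 := hY.sum_mulVec v1
    simp only [hv2, ← Finset.mul_sum] at h2
    exact (mul_eq_zero.1 h2).resolve_left hpW
  have h2 : y *ᵥ (v1 - (y ^ (k - 1)) *ᵥ v2) = 0 := by
    rw [Matrix.mulVec_sub, Matrix.mulVec_mulVec, ← pow_succ', Nat.sub_add_cancel (by omega),
      hY.pow_mulVec v2 hv2s, sub_eq_zero]
    ext i
    exact hv2 i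
  have h3 := hY.inj (K := K) (F := F) (v1 - (y ^ (k - 1)) *ᵥ v2) (by
    simp only [Pi.sub_apply, Finset.sum_sub_distrib, hv1s,
      hY.sum_pow_mulVec (k - 1) (by omega) v2, sub_zero]) h2
  rw [sub_eq_zero] at h3
  refine ⟨fun i => algebraMap W F (v2 i), ?_⟩
  ext i
  rw [← hv1r i, h3]
  have h4 : (y.map (algebraMap W F)) ^ (k - 1) = (y ^ (k - 1)).map (algebraMap W F) :=
    (map_pow (algebraMap W F).mapMatrix y (k - 1)).symm
  rw [h4]
  simp [Matrix.mulVec, dotProduct, map_sum]

end

end PDeg
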