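import Mathlib

/-!
# (P), abstract part

A finite dimensional algebra with a symmetric nondegenerate form that vanishes on nilpotents is
von Neumann regular; this gives `1 = y ^ m q + r y` in an algebra of families of matrices.
-/

namespace PD

open Module

/-- Semisimple rings are von Neumann regular. -/
theorem exists_regular {B : Type*} [Ring B] [IsSemisimpleRing B] (y : B) :
    ∃ g : B, y * g * y = y := by
  obtain ⟨e, he, hI⟩ := IsSemisimpleRing.ideal_eq_span_idempotent (Ideal.span {y})
  have h1 : e ∈ Ideal.span {y} := by rw [hI]; exact Ideal.mem_span_singleton_self e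
  have h2 : y ∈ Ideal.span {e} := by rw [← hI]; exact Ideal.mem_span_singleton_self y
  obtain ⟨g, hg⟩ := Ideal.mem_span_singleton'.1 h1
  obtain ⟨a, ha⟩ := Ideal.mem_span_singleton'.1 h2
  refine ⟨g, ?_⟩
  have he' : e * e = e := he
  rw [mul_assoc, hg, ← ha, mul_assoc, he']

/-- A finite dimensional algebra with a form (a linear functional `t`) which is nondegenerate and
vanishes on nilpotents is semisimple. -/
theorem isSemisimpleRing_of_form {F B : Type*} [Field F] [Ring B] [Algebra F B]
    [FiniteDimensional F B] (t : B → F)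
    (nondeg : ∀ x, (∀ z, t (x * z) = 0) → x = 0) (nilp : ∀ x, IsNilpotent x → t x = 0) :
    IsSemisimpleRing B := by
  have : IsArtinianRing B := IsArtinianRing.of_finite F B
  rw [IsArtinianRing.isSemisimpleRing_iff_jacobson]
  rw [eq_bot_iff]
  intro x hx
  rw [Submodule.mem_bot]
  apply nondeg
  intro z
  apply nilp
  obtain ⟨n, hn⟩ := IsSemiprimaryRing.isNilpotent (R := B)
  refine ⟨n, ?_⟩
  have h1 : x * z ∈ Ring.jacobson B := Ideal.IsTwoSided.mul_mem_of_left z hx
  have h2 := Ideal.pow_mem_pow h1 n
  rw [hn] at h2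
  simpa using h2

/-- Abstract (P): `ρ` a faithful representation in which `ker y ≤ im y ^ m`. -/
theorem exists_qr_of_regular {B V : Type*} [Ring B] [IsSemisimpleRing B] [AddCommGroup V]
    [Module B V] (hf : ∀ a : B, (∀ v : V, a • v = 0) → a = 0) (y : B) (m : ℕ)
    (hy : ∀ v : V, y • v = 0 → ∃ v' : V, v = y ^ m • v') :
    ∃ q r : B, 1 = y ^ m * q + r * y := by
  obtain ⟨g, hg⟩ := exists_regular y
  obtain ⟨h, hh⟩ := exists_regular (y ^ m)
  refine ⟨h * (1 - g * y), g, ?_⟩
  have key : y ^ m * h * (1 - g * y) - (1 - g * y) = 0 := by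
    apply hf
    intro v
    have h0 : y • ((1 - g * y) • v) = 0 := by
      rw [smul_smul, mul_sub, mul_one, ← mul_assoc, hg, sub_self, zero_smul]
    obtain ⟨v', hv'⟩ := hy _ h0
    rw [sub_smul, ← smul_smul, hv', smul_smul, hh, sub_self]
  rw [sub_eq_zero] at key
  rw [← mul_assoc, key, sub_add_cancel]

/-- (P) for an algebra of families of matrices. -/
theorem exists_qr {X F : Type*} [Fintype X] [DecidableEq X] [Field F]
    (AA : Subalgebra F (X → Matrix X X F)) (x0 : X)
    (hnd : ∀ a ∈ AA, (∀ b ∈ AA, Matrix.trace (a x0 * b x0) = 0) → a = 0)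
    (y : X → Matrix X X F) (hyA : y ∈ AA) (m : ℕ)
    (hy : ∀ v : X → F, (y x0).mulVec v = 0 → ∃ v' : X → F, v = (y x0 ^ m).mulVec v') :
    ∃ q ∈ AA, ∃ r ∈ AA, 1 = y ^ m * q + r * y := by
  have hpow : ∀ (a : AA) (n : ℕ), ((a ^ n : AA) : X → Matrix X X F) x0 = (a : X → _) x0 ^ n := by
    intro a n
    rw [SubmonoidClass.coe_pow, Pi.pow_apply]
  have : IsSemisimpleRing AA := by
    refine isSemisimpleRing_of_form (F := F)
      (fun a : AA => Matrix.trace ((a : X → Matrix X X F) x0)) ?_ ?_
    · intro a ha
      apply Subtype.ext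
      exact hnd a a.2 fun b hb => ha ⟨b, hb⟩
    · rintro a ⟨n, hn⟩
      have h1 : IsNilpotent ((a : X → Matrix X X F) x0) := by
        refine ⟨n, ?_⟩
        rw [← hpow, hn]
        rfl
      exact (Matrix.isNilpotent_trace_of_isNilpotent h1).eq_zero
  let _ : Module AA (X → F) :=
    { smul := fun a v => ((a : X → Matrix X X F) x0).mulVec v
      one_smul := fun v => by
        change ((1 : X → Matrix X X F) x0).mulVec v = v
        simp
      mul_smul := fun a b v => by
        change ((a * b : X → Matrix X X F) x0).mulVec v = _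
        rw [Pi.mul_apply, ← Matrix.mulVec_mulVec]
        rfl
      smul_zero := fun a => Matrix.mulVec_zero _
      smul_add := fun a u v => Matrix.mulVec_add _ _ _
      add_smul := fun a b v => by
        change ((a + b : X → Matrix X X F) x0).mulVec v = _
        rw [Pi.add_apply, Matrix.add_mulVec]
        rfl
      zero_smul := fun v => by
        change ((0 : X → Matrix X X F) x0).mulVec v = 0
        simp }
  have hsm : ∀ (a : AA) (v : X → F), a • v = ((a : X → Matrix X X F) x0).mulVec v :=
    fun _ _ => rfl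
  have hfaith : ∀ a : AA, (∀ v : X → F, a • v = 0) → a = 0 := by
    intro a ha
    apply Subtype.ext
    apply hnd a a.2
    intro b hb
    have h0 : (a : X → Matrix X X F) x0 = 0 := by
      ext i j
      have := congrFun (ha (Pi.single j 1)) i
      rw [hsm] at this
      simpa using this
    rw [h0]; simp
  have hyy : ∀ v : X → F, (⟨y, hyA⟩ : AA) • v = 0 →
      ∃ v' : X → F, v = (⟨y, hyA⟩ : AA) ^ m • v' := by
    intro v hv
    obtain ⟨v', hv'⟩ := hy v hv
    refine ⟨v', ?_⟩
    rw [hsm, hpow]
    exact hv'
  obtain ⟨q, r, h⟩ := exists_qr_of_regular (B := AA) (V := X → F) hfaith ⟨y, hyA⟩ m hyy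
  refine ⟨q, q.2, r, r.2, ?_⟩
  have := congrArg (Subtype.val) h
  simpa using this

/-- Jordan count: if `Y ^ k = 0` and `ker Y ≤ im Y ^ (k - 1)` then
`dim Z = k * dim ker Y`. -/
theorem finrank_eq_mul_finrank_ker {F Z : Type*} [Field F] [AddCommGroup Z] [Module F Z]
    [FiniteDimensional F Z] (Y : Z →ₗ[F] Z) (k : ℕ) (hk : Y ^ k = 0)
    (hY : ∀ v, Y v = 0 → ∃ w, v = (Y ^ (k - 1)) w) :
    finrank F Z = k * finrank F (LinearMap.ker Y) := by
  have key : ∀ j, j ≤ k → finrank F (LinearMap.ker (Y ^ j)) = j * finrank F (LinearMap.ker Y) := by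
    intro j
    induction j with
    | zero =>
      intro _
      have : LinearMap.ker (Y ^ 0) = ⊥ := by
        rw [pow_zero]; exact LinearMap.ker_id
      rw [this]; simp
    | succ j ih =>
      intro hj
      have ih' := ih (by omega)
      -- the map `Y ^ j : ker Y ^ (j + 1) → ker Y`
      let φ : LinearMap.ker (Y ^ (j + 1)) →ₗ[F] LinearMap.ker Y :=
        LinearMap.codRestrict (LinearMap.ker Y)
          ((Y ^ j).comp (LinearMap.ker (Y ^ (j + 1))).subtype) (by
            rintro ⟨v, hv⟩
            rw [LinearMap.mem_ker] at hv ⊢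
            rw [LinearMap.comp_apply, Submodule.subtype_apply, ← Module.End.mul_apply,
              ← pow_succ']
            exact hv)
      have hφ : ∀ v, ((φ v : LinearMap.ker Y) : Z) = (Y ^ j) v := fun v => rfl
      have hsurj : Function.Surjective φ := by
        rintro ⟨v, hv⟩
        obtain ⟨w, hw⟩ := hY v hv
        refine ⟨⟨(Y ^ (k - 1 - j)) w, ?_⟩, ?_⟩
        · rw [LinearMap.mem_ker, ← Module.End.mul_apply, ← pow_add,
            show j + 1 + (k - 1 - j) = k by omega, hk, LinearMap.zero_apply]
        · apply Subtype.ext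
          rw [hφ]
          change (Y ^ j) ((Y ^ (k - 1 - j)) w) = v
          rw [← Module.End.mul_apply, ← pow_add, show j + (k - 1 - j) = k - 1 by omega, ← hw]
      have hker : finrank F (LinearMap.ker φ) = finrank F (LinearMap.ker (Y ^ j)) := by
        refine LinearEquiv.finrank_eq
          { toFun := fun v => ⟨(v : LinearMap.ker (Y ^ (j + 1))), by
              have := v.2
              rw [LinearMap.mem_ker] at this ⊢
              rw [← hφ, this]; rfl⟩
            invFun := fun v => ⟨⟨(v : Z), by
              have := v.2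
              rw [LinearMap.mem_ker] at this ⊢
              rw [pow_succ', Module.End.mul_apply, this, map_zero]⟩, by
              have := v.2
              rw [LinearMap.mem_ker] at this ⊢
              apply Subtype.ext
              rw [hφ]
              exact this⟩
            map_add' := fun v w => rfl
            map_smul' := fun c v => rfl
            left_inv := fun v => rfl
            right_inv := fun v => rfl }
      have := LinearMap.finrank_range_add_finrank_ker φ
      rw [LinearMap.range_eq_top.2 hsurj, finrank_top, hker, ih'] at this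
      rw [← this]; ring
  have h := key k le_rfl
  rw [hk] at h
  rw [← h, LinearMap.ker_zero, finrank_top]

/-- Consequence of (P): if `Y ^ k = 0` and `1 = Y ^ (k - 1) Q + R Y` on `Z` then
`k ∣ dim Z`. -/
theorem dvd_finrank_of_qr {F Z : Type*} [Field F] [AddCommGroup Z] [Module F Z]
    [FiniteDimensional F Z] (Y Q R : Z →ₗ[F] Z) (k : ℕ) (hk : Y ^ k = 0)
    (h : 1 = Y ^ (k - 1) * Q + R * Y) : k ∣ finrank F Z := by
  refine ⟨_, finrank_eq_mul_finrank_ker Y k hk fun v hv => ⟨Q v, ?_⟩⟩
  have := congrArg (fun f : Z →ₗ[F] Z => f v) h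
  simpa [hv] using this

end PD
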