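import Pool.Agent.Lib.MP_369ee2_lc_PD.Ord
import Pool.Agent.Lib.MP_369ee2_lc_PD.OrdP
import Pool.Agent.Lib.MP_369ee2_lc_PD.Sizes

/-!
# (P): `1 = y ^ (k - 1) q + r y` in the algebra `AA` over the residue field
-/

namespace PDeg

open scoped BigOperators Matrix

section base
variable {p : ℕ} {W K F : Type} [CommRing W] [IsDomain W] [Field K] [Algebra W K]
  [IsFractionRing W K] [Field F] [Algebra W F]

theorem Base.p_eq_zero (hB : Base p W K F) : (p : F) = 0 := by
  have h : algebraMap W F (p : W) = 0 := (hB.ker _).2 dvd_rfl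
  rwa [map_natCast] at h

/-- numbers prime to `p` are nonzero in `F` -/
theorem Base.natCast_ne_zero (hB : Base p W K F) {n : ℕ} (h : n.Coprime p) : (n : F) ≠ 0 := by
  intro h0
  have h1 : IsCoprime (n : ℤ) (p : ℤ) := Nat.isCoprime_iff_coprime.2 h
  obtain ⟨u, v, huv⟩ := h1
  have h2 := congrArg (fun z : ℤ => (z : F)) huv
  simp only [Int.cast_add, Int.cast_mul, Int.cast_natCast, Int.cast_one, h0, hB.p_eq_zero,
    mul_zero, add_zero] at h2
  exact zero_ne_one h2

/-- positive numbers smaller than `p` are nonzero in `F` -/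
theorem Base.natCast_ne_zero_of_lt (hB : Base p W K F) {n : ℕ} (h0 : 0 < n) (h : n < p) :
    (n : F) ≠ 0 := by
  apply hB.natCast_ne_zero
  apply Nat.Coprime.symm
  rw [hB.prime.coprime_iff_not_dvd]
  exact fun hd => absurd (Nat.le_of_dvd h0 hd) (not_le.2 h)

end base

section
variable {X : Type} [Fintype X] [DecidableEq X] (C : Coh X)

omit [Fintype X] [DecidableEq X] in
theorem sn_sn_one (x v u : X) : sn (sn ![x] v) u = ![x, v, u] := by
  ext i; fin_cases i <;> rfl

omit [Fintype X] [DecidableEq X] in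
theorem sn_one (x v : X) : sn ![x] v = ![x, v] := by
  ext i; fin_cases i <;> rfl

omit [DecidableEq X] in
/-- number of pairs over a point with a given colour -/
theorem Coh.card_two (x j i : X) :
    Nat.card {q : X × X // C.r 3 (sn (sn ![x] q.1) q.2) (sn (sn ![x] j) i)} =
      C.fb ![x] j * C.fb (sn ![x] j) i := by
  classical
  have e : {q : X × X // C.r 3 (sn (sn ![x] q.1) q.2) (sn (sn ![x] j) i)} ≃
      Σ v : {v : X // C.r 2 (sn ![x] v) (sn ![x] j)},
        {u : X // C.r 3 (sn (sn ![x] v.1) u) (sn (sn ![x] j) i)} :=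
    { toFun := fun q => ⟨⟨q.1.1, C.r_of_sn (by norm_num) q.2⟩, ⟨q.1.2, q.2⟩⟩
      invFun := fun y => ⟨(y.1.1, y.2.1), y.2.2⟩
      left_inv := fun _ => rfl
      right_inv := fun _ => rfl }
  have : Fintype {v : X // C.r 2 (sn ![x] v) (sn ![x] j)} := Fintype.ofFinite _
  rw [Nat.card_congr e, Nat.card_sigma]
  have hc : ∀ v : {v : X // C.r 2 (sn ![x] v) (sn ![x] j)},
      Nat.card {u : X // C.r 3 (sn (sn ![x] v.1) u) (sn (sn ![x] j) i)} =
        C.fb (sn ![x] j) i := by
    intro v
    exact C.regular (by norm_num) _ _ _ v.2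
  rw [Finset.sum_congr rfl (fun t _ => hc t), Finset.sum_const, Finset.card_univ, smul_eq_mul,
    ← Nat.card_eq_fintype_card]
  rfl

/-- the trace form at a point is nondegenerate on `AA` over the residue field -/
theorem Coh.AA_nondeg {p : ℕ} {W K F : Type} [CommRing W] [IsDomain W] [Field K] [Algebra W K]
    [IsFractionRing W K] [Field F] [Algebra W F] (hB : Base p W K F)
    (hX : Fintype.card X = p) (x0 : X) (a : X → Matrix X X F) (ha : a ∈ C.AA F)
    (h : ∀ b ∈ C.AA F, Matrix.trace (a x0 * b x0) = 0) : a = 0 := by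
  classical
  -- all values over `x0` vanish
  have h0 : ∀ i j, a x0 i j = 0 := by
    intro i j
    let b : X → Matrix X X F := fun x => Matrix.of fun y y' =>
      if C.r 3 ![x, y, y'] ![x0, j, i] then (1 : F) else 0
    have hb : b ∈ C.AA F := by
      intro s t hst
      have e1 : (![s 0, s 1, s 2] : Fin 3 → X) = s := by ext i; fin_cases i <;> rfl
      have e2 : (![t 0, t 1, t 2] : Fin 3 → X) = t := by ext i; fin_cases i <;> rfl
      have hiff : C.r 3 s ![x0, j, i] ↔ C.r 3 t ![x0, j, i] :=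
        ⟨fun hh => (C.equiv 3 (by norm_num)).trans ((C.equiv 3 (by norm_num)).symm hst) hh,
          fun hh => (C.equiv 3 (by norm_num)).trans hst hh⟩
      simp only [b, Matrix.of_apply, e1, e2, hiff]
    have h1 := h b hb
    have h2 : Matrix.trace (a x0 * b x0) = ∑ q : X × X,
        if C.r 3 (sn (sn ![x0] q.1) q.2) (sn (sn ![x0] j) i) then a x0 i j else 0 := by
      rw [Matrix.trace, Fintype.sum_prod_type, Finset.sum_comm]
      refine Finset.sum_congr rfl fun u _ => ?_
      rw [Matrix.diag_apply, Matrix.mul_apply]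
      refine Finset.sum_congr rfl fun v _ => ?_
      rw [sn_sn_one, sn_sn_one]
      simp only [b, Matrix.of_apply]
      by_cases hr : C.r 3 ![x0, v, u] ![x0, j, i]
      · rw [if_pos hr, if_pos hr, mul_one]
        exact ha _ _ (C.reindex (n := 3) (k := 3) (by norm_num) (by norm_num) ![0, 2, 1] _ _ hr)
      · rw [if_neg hr, if_neg hr, mul_zero]
    rw [h2, ← Finset.sum_filter, Finset.sum_const, nsmul_eq_mul] at h1
    have h3 : ((Finset.univ.filter fun q : X × X =>
        C.r 3 (sn (sn ![x0] q.1) q.2) (sn (sn ![x0] j) i)).card : F) ≠ 0 := by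
      rw [← Fintype.card_subtype, ← Nat.card_eq_fintype_card, C.card_two, Nat.cast_mul]
      refine mul_ne_zero ?_ ?_
      · apply hB.natCast_ne_zero_of_lt (C.fb_pos (by norm_num) _ _)
        rw [← hX]
        exact C.lt (by norm_num) (by norm_num) _ _
      · apply hB.natCast_ne_zero_of_lt (C.fb_pos (by norm_num) _ _)
        rw [← hX]
        exact C.lt (by norm_num) (by norm_num) _ _
    exact (mul_eq_zero.1 h1).resolve_left h3
  ext x i j
  obtain ⟨σ, hσ⟩ := C.bij (n := 1) (by norm_num) (C.hom ![x] ![x0])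
  obtain ⟨σ', hσ'⟩ := C.bij (n := 2) (by norm_num) (hσ i)
  have h1 := ha _ _ (hσ' j)
  exact h1.trans (h0 _ _)

/-- (P) -/
theorem exists_pData_of {p : ℕ} {W K F : Type} [CommRing W] [IsDomain W] [Field K] [Algebra W K]
    [IsFractionRing W K] [Field F] [Algebra W F] (hB : Base p W K F)
    (hX : Fintype.card X = p) {k : ℕ} {y : Matrix X X W} (hy : y ∈ C.Lam W)
    (hker : ∀ v : X → F, (y.map (algebraMap W F)) *ᵥ v = 0 →
      ∃ u, v = ((y.map (algebraMap W F)) ^ (k - 1)) *ᵥ u) :
    ∃ q r, PData C F k y q r := by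
  have hne : Nonempty X := by
    rw [← Fintype.card_pos_iff, hX]
    exact hB.prime.pos
  obtain ⟨x0⟩ := hne
  have hyA : (fun _ : X => y.map (algebraMap W F)) ∈ C.AA F := by
    intro s t hst
    exact congrArg (algebraMap W F)
      (hy _ _ (C.reindex (n := 3) (k := 2) (by norm_num) (by norm_num) ![1, 2] _ _ hst))
  obtain ⟨q, hq, r, hr, h⟩ := PD.exists_qr (C.AA F) x0
    (fun a ha hh => C.AA_nondeg hB hX x0 a ha hh) (fun _ => y.map (algebraMap W F)) hyA (k - 1)
    hker
  exact ⟨q, r, hq, hr, fun x => congrFun h x⟩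

end

end PDeg
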