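import Pool.Agent.Lib.MP_369ee2_lc_PD.Ord
import Pool.Agent.Lib.MP_369ee2_lc_PD.Sizes
import Pool.Agent.Lib.MP_369ee2_lc_PD.Sec3D
import Pool.Agent.Lib.MP_369ee2_lc_PD.SecP

/-!
# (P) (row S7; 3d and section 4)
-/

namespace PDeg

open scoped BigOperators Matrix

section
variable {X : Type} [Fintype X] [DecidableEq X] (C : Coh X)
variable {p : ℕ} {W K F : Type}
  [CommRing W] [IsDomain W] [Field K] [Algebra W K] [IsFractionRing W K] [Field F] [Algebra W F]

/-- (3d) -/
theorem ker_le_range (hB : Base p W K F) {k d : ℕ} {y : Matrix X X W} {ζ0 : W}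
    (Y : YData C p W K k d y ζ0) (v : X → F) (hv : (y.map (algebraMap W F)) *ᵥ v = 0) :
    ∃ u : X → F, v = ((y.map (algebraMap W F)) ^ (k - 1)) *ᵥ u := by
  have := hB
  exact Y.ker v hv

theorem exists_pData (hB : Base p W K F) {k d : ℕ} {y : Matrix X X W} {ζ0 : W}
    (Y : YData C p W K k d y ζ0) : ∃ q r, PData C F k y q r := by
  exact exists_pData_of C hB Y.card Y.mem (fun v hv => ker_le_range C hB Y v hv)

end

end PDeg
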