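import Pool.Agent.Lib.MP_369ee2_lc_PD.Ord

/-!
# `t1`, `t2`, and the second action with a base point
-/

namespace PDeg.FactM

open scoped BigOperators Matrix Kronecker

section T12
variable {X R : Type} [Fintype X] [DecidableEq X] [CommRing R]

theorem t1_mul (a b : Matrix X X R) : t1 (a * b) = t1 a * t1 b := by
  unfold t1
  rw [← Matrix.mul_kronecker_mul, Matrix.one_mul]

theorem t2_mul (a b : Matrix X X R) : t2 (a * b) = t2 a * t2 b := by
  unfold t2
  rw [← Matrix.mul_kronecker_mul, Matrix.one_mul]

omit [Fintype X] in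
theorem t1_one : t1 (1 : Matrix X X R) = 1 := Matrix.one_kronecker_one

omit [Fintype X] in
theorem t2_one : t2 (1 : Matrix X X R) = 1 := Matrix.one_kronecker_one

omit [Fintype X] in
theorem t1_add (a b : Matrix X X R) : t1 (a + b) = t1 a + t1 b := Matrix.add_kronecker _ _ _

omit [Fintype X] in
theorem t2_add (a b : Matrix X X R) : t2 (a + b) = t2 a + t2 b := Matrix.kronecker_add _ _ _

omit [Fintype X] in
theorem t1_zero : t1 (0 : Matrix X X R) = 0 := Matrix.zero_kronecker _

omit [Fintype X] in
theorem t2_zero : t2 (0 : Matrix X X R) = 0 := Matrix.kronecker_zero _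

omit [Fintype X] in
theorem t1_sub (a b : Matrix X X R) : t1 (a - b) = t1 a - t1 b := by
  rw [eq_sub_iff_add_eq, ← t1_add, sub_add_cancel]

omit [Fintype X] in
theorem t2_sub (a b : Matrix X X R) : t2 (a - b) = t2 a - t2 b := by
  rw [eq_sub_iff_add_eq, ← t2_add, sub_add_cancel]

omit [Fintype X] in
theorem t1_smul (c : R) (a : Matrix X X R) : t1 (c • a) = c • t1 a := Matrix.smul_kronecker _ _ _

omit [Fintype X] in
theorem t2_smul (c : R) (a : Matrix X X R) : t2 (c • a) = c • t2 a := Matrix.kronecker_smul _ _ _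

theorem t1_pow (a : Matrix X X R) (n : ℕ) : t1 (a ^ n) = t1 a ^ n := by
  induction n with
  | zero => rw [pow_zero, pow_zero, t1_one]
  | succ n ih => rw [pow_succ, pow_succ, t1_mul, ih]

theorem t2_pow (a : Matrix X X R) (n : ℕ) : t2 (a ^ n) = t2 a ^ n := by
  induction n with
  | zero => rw [pow_zero, pow_zero, t2_one]
  | succ n ih => rw [pow_succ, pow_succ, t2_mul, ih]

theorem t1_t2 (a b : Matrix X X R) : t1 a * t2 b = a ⊗ₖ b := by
  unfold t1 t2
  rw [← Matrix.mul_kronecker_mul, Matrix.one_mul, Matrix.mul_one]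

theorem t2_t1 (a b : Matrix X X R) : t2 b * t1 a = a ⊗ₖ b := by
  unfold t1 t2
  rw [← Matrix.mul_kronecker_mul, Matrix.one_mul, Matrix.mul_one]

theorem t12_comm (a b : Matrix X X R) : t1 a * t2 b = t2 b * t1 a := by
  rw [t1_t2, t2_t1]

omit [Fintype X] in
theorem t1_map {R' : Type} [CommRing R'] (φ : R →+* R') (a : Matrix X X R) :
    (t1 a).map φ = t1 (a.map φ) := by
  ext i j
  rw [Matrix.map_apply, t1_apply, t1_apply]
  split_ifs <;> simp

omit [Fintype X] in
theorem t2_map {R' : Type} [CommRing R'] (φ : R →+* R') (a : Matrix X X R) :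
    (t2 a).map φ = t2 (a.map φ) := by
  ext i j
  rw [Matrix.map_apply, t2_apply, t2_apply]
  split_ifs <;> simp

omit [Fintype X] [DecidableEq X] in
theorem JJ_map {R' : Type} [CommRing R'] (φ : R →+* R') : (JJ X R).map φ = JJ X R' := by
  ext i j
  simp [JJ]

variable {S : Type} (base : S → X)

theorem t1_mul_apply (a : Matrix X X R) (T : Matrix (X × X) S R) (i : X × X) (s : S) :
    (t1 a * T) i s = ∑ w, a i.1 w * T (w, i.2) s := by
  rw [Matrix.mul_apply, Fintype.sum_prod_type]
  refine Finset.sum_congr rfl fun w _ => ?_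
  rw [Finset.sum_eq_single i.2]
  · rw [t1_apply, if_pos rfl]
  · intro b _ hb
    rw [t1_apply, if_neg (fun h => hb h.symm), zero_mul]
  · intro h
    exact absurd (Finset.mem_univ _) h

theorem t2_mul_apply (a : Matrix X X R) (T : Matrix (X × X) S R) (i : X × X) (s : S) :
    (t2 a * T) i s = ∑ w, a i.2 w * T (i.1, w) s := by
  rw [Matrix.mul_apply, Fintype.sum_prod_type, Finset.sum_eq_single i.1]
  · refine Finset.sum_congr rfl fun w _ => ?_
    rw [t2_apply, if_pos rfl]
  · intro b _ hb
    refine Finset.sum_eq_zero fun w _ => ?_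
    rw [t2_apply, if_neg (fun h => hb h.symm), zero_mul]
  · intro h
    exact absurd (Finset.mem_univ _) h

/-- `q *2 T`, with base point `base s` -/
def star2 (q : X → Matrix X X R) (T : Matrix (X × X) S R) : Matrix (X × X) S R :=
  Matrix.of fun i s => ∑ w, q (base s) i.2 w * T (i.1, w) s

omit [DecidableEq X] in
theorem star2_apply (q : X → Matrix X X R) (T : Matrix (X × X) S R) (i : X × X) (s : S) :
    star2 base q T i s = ∑ w, q (base s) i.2 w * T (i.1, w) s := rfl

theorem t2_star2 (a : Matrix X X R) (q : X → Matrix X X R) (T : Matrix (X × X) S R) :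
    t2 a * star2 base q T = star2 base (fun x => a * q x) T := by
  ext i s
  rw [t2_mul_apply, star2_apply]
  simp only [star2_apply, Matrix.mul_apply, Finset.mul_sum, Finset.sum_mul]
  rw [Finset.sum_comm]
  refine Finset.sum_congr rfl fun w _ => Finset.sum_congr rfl fun w' _ => ?_
  ring

theorem star2_t2 (a : Matrix X X R) (q : X → Matrix X X R) (T : Matrix (X × X) S R) :
    star2 base q (t2 a * T) = star2 base (fun x => q x * a) T := by
  ext i s
  rw [star2_apply, star2_apply]
  have h1 : ∀ w, q (base s) i.2 w * (t2 a * T) (i.1, w) s =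
      ∑ w', q (base s) i.2 w * (a w w' * T (i.1, w') s) := fun w => by
    rw [t2_mul_apply, Finset.mul_sum]
  rw [Finset.sum_congr rfl (fun w _ => h1 w), Finset.sum_comm]
  refine Finset.sum_congr rfl fun w' _ => ?_
  rw [Matrix.mul_apply, Finset.sum_mul]
  refine Finset.sum_congr rfl fun w _ => ?_
  ring

theorem star2_t1 (a : Matrix X X R) (q : X → Matrix X X R) (T : Matrix (X × X) S R) :
    t1 a * star2 base q T = star2 base q (t1 a * T) := by
  ext i s
  rw [t1_mul_apply, star2_apply]
  simp only [star2_apply, t1_mul_apply, Finset.mul_sum]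
  rw [Finset.sum_comm]
  refine Finset.sum_congr rfl fun w _ => Finset.sum_congr rfl fun w' _ => ?_
  ring

theorem star2_one (T : Matrix (X × X) S R) : star2 base (fun _ => (1 : Matrix X X R)) T = T := by
  ext i s
  rw [star2_apply]
  simp [Matrix.one_apply]

omit [DecidableEq X] in
theorem star2_add (q q' : X → Matrix X X R) (T : Matrix (X × X) S R) :
    star2 base (fun x => q x + q' x) T = star2 base q T + star2 base q' T := by
  ext i s
  simp only [star2_apply, Matrix.add_apply, add_mul, Finset.sum_add_distrib]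

omit [DecidableEq X] in
theorem star2_zero (q : X → Matrix X X R) :
    star2 base q (0 : Matrix (X × X) S R) = 0 := by
  ext i s
  simp [star2_apply]

end T12

end PDeg.FactM
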