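import Pool.Agent.Lib.MP_369ee2_lc_PD.Ord
import Pool.Agent.Lib.MP_369ee2_lc_PD.Sizes
import Pool.Agent.Lib.MP_369ee2_lc_PD.BaseWitt

/-!
# `Λ_W` and `P_W` are symmetric orders (row S2)
-/

namespace PDeg

open scoped BigOperators Matrix

section
variable {p : ℕ} {W K F : Type} [CommRing W] [IsDomain W] [Field K] [Algebra W K]
  [IsFractionRing W K] [Field F] [Algebra W F]

private theorem os_max (hB : Base p W K F) :
    haveI := hB.dvr
    RingHom.ker (algebraMap W F) = IsLocalRing.maximalIdeal W := by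
  haveI := hB.dvr
  exact IsLocalRing.eq_maximalIdeal (RingHom.ker_isMaximal_of_surjective _ hB.surj)

private theorem os_unit (hB : Base p W K F) {m : ℕ} (hm : ¬ p ∣ m) : IsUnit (m : W) := by
  haveI := hB.dvr
  haveI : CharP F p := hB.charP
  by_contra h
  have h1 : (m : W) ∈ IsLocalRing.maximalIdeal W := (IsLocalRing.mem_maximalIdeal _).2 h
  rw [← os_max hB, RingHom.mem_ker, map_natCast] at h1
  exact hm ((CharP.cast_eq_zero_iff F p m).1 h1)

private theorem os_irr (hB : Base p W K F) : Irreducible (p : W) := by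
  haveI := hB.dvr
  rw [IsDiscreteValuationRing.irreducible_iff_uniformizer, ← os_max hB]
  ext w
  rw [RingHom.mem_ker, hB.ker, Ideal.mem_span_singleton]

private theorem os_pow (hB : Base p W K F) (x : K) : ∃ n : ℕ, IsInt W ((p : K) ^ n * x) := by
  haveI := hB.dvr
  obtain ⟨a, b, hb, rfl⟩ := IsFractionRing.div_surjective (A := W) x
  obtain ⟨n, u, hu⟩ := IsDiscreteValuationRing.associated_pow_irreducible
    (nonZeroDivisors.ne_zero hb) (os_irr hB)
  refine ⟨n, a * u, ?_⟩
  have hb0 : algebraMap W K b ≠ 0 := by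
    intro h
    exact nonZeroDivisors.ne_zero hb ((IsFractionRing.injective W K) (by rw [h, map_zero]))
  have : (p : K) ^ n = algebraMap W K b * algebraMap W K u := by
    rw [← map_mul, hu, map_pow, map_natCast]
  rw [this, map_mul]
  field_simp

private theorem os_pow_fin (hB : Base p W K F) {ι : Type} [Fintype ι] (f : ι → K) :
    ∃ N : ℕ, ∀ i, IsInt W ((p : K) ^ N * f i) := by
  choose n hn using fun i => os_pow hB (f i)
  refine ⟨∑ i, n i, fun i => ?_⟩
  have hle : n i ≤ ∑ i, n i := Finset.single_le_sum (fun _ _ => Nat.zero_le _) (Finset.mem_univ i)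
  have : (p : K) ^ (∑ i, n i) * f i = (p : K) ^ (∑ i, n i - n i) * ((p : K) ^ n i * f i) := by
    rw [← mul_assoc, ← pow_add, Nat.sub_add_cancel hle]
  rw [this]
  refine IsInt.mul ?_ (hn i)
  rw [← Nat.cast_pow]
  exact IsInt.natCast _

private theorem os_fg (hB : Base p W K F) {J : Type} [Fintype J] [DecidableEq J] {V : Type}
    [AddCommGroup V] [Module W V] (φ : V →ₗ[W] Matrix J J K) (hφ : Function.Injective φ)
    (N : Submodule W V) (hN : ∀ v ∈ N, ∀ i j, IsInt W (φ v i j)) : N.FG := by
  haveI := hB.dvr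
  let g : Matrix J J W →ₗ[W] Matrix J J K :=
    { toFun := fun M => M.map (algebraMap W K)
      map_add' := fun M M' => by
        ext i j
        simp
      map_smul' := fun c M => by
        ext i j
        change algebraMap W K (c * M i j) = c • algebraMap W K (M i j)
        rw [map_mul, Algebra.smul_def] }
  apply Submodule.fg_of_fg_map_injective φ hφ
  have h1 : N.map φ ≤ LinearMap.range g := by
    rintro _ ⟨v, hv, rfl⟩
    choose w hw using hN v hv
    refine ⟨Matrix.of w, ?_⟩
    ext i j
    exact hw i j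
  rw [← Submodule.map_comap_eq_of_le h1]
  haveI : IsNoetherian W (Matrix J J W) := inferInstanceAs (IsNoetherian W (J → J → W))
  exact (IsNoetherian.noetherian _).map g

end

section
variable {X : Type} [Fintype X] [DecidableEq X] (C : Coh X) {p : ℕ} {W K F : Type}
  [CommRing W] [IsDomain W] [Field K] [Algebra W K] [IsFractionRing W K] [Field F] [Algebra W F]

open Classical in
private theorem os_sum_class {n : ℕ} (f : (Fin n → X) → K) (hf : C.Cst n f)
    (z : Fin n → X) :
    ∑ t, (if C.r n t z then f t else 0) = (Nat.card {x : Fin n → X // C.r n x z} : K) * f z := by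
  have h1 : ∀ t, (if C.r n t z then f t else 0) = (if C.r n t z then f z else 0) := by
    intro t
    split_ifs with h
    · exact hf _ _ h
    · rfl
  rw [Finset.sum_congr rfl fun t _ => h1 t, ← Finset.sum_filter, Finset.sum_const, nsmul_eq_mul,
    Nat.card_eq_fintype_card, Fintype.card_subtype]

open Classical in
private theorem os_dual (hB : Base p W K F) (hX : Fintype.card X = p) {n : ℕ} (h1 : 1 ≤ n)
    (h4 : n ≤ 4) {J : Type} [Fintype J] (e : J × J ≃ (Fin n → X))
    (a : Matrix J J K) (ha : C.Cst n (fun t => a (e.symm t).1 (e.symm t).2)) (i j : J)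
    (h : IsInt W ((Fintype.card X : K)⁻¹ * Matrix.trace (a * Matrix.of
      (fun k l => if C.r n (e (l, k)) (e (i, j)) then (1 : K) else 0)))) : IsInt W (a i j) := by
  haveI : CharZero K := hB.charZero
  have hp : p.Prime := hB.prime
  have htr : Matrix.trace (a * Matrix.of
      (fun k l => if C.r n (e (l, k)) (e (i, j)) then (1 : K) else 0)) =
      (Nat.card {x : Fin n → X // C.r n x (e (i, j))} : K) * a i j := by
    have h2 := os_sum_class C (K := K) _ ha (e (i, j))
    simp only [Equiv.symm_apply_apply] at h2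
    rw [← h2, ← Equiv.sum_comp e, Fintype.sum_prod_type, Matrix.trace]
    refine Finset.sum_congr rfl fun k _ => ?_
    rw [Matrix.diag_apply, Matrix.mul_apply]
    refine Finset.sum_congr rfl fun l _ => ?_
    rw [Matrix.of_apply, Equiv.symm_apply_apply, mul_ite, mul_one, mul_zero]
  obtain ⟨m, hm, -, hpm⟩ := class_size C hp hX h1 h4 (e (i, j))
  have hp0 : (p : K) ≠ 0 := Nat.cast_ne_zero.2 hp.ne_zero
  rw [htr, hm, hX, Nat.cast_mul] at h
  have h5 : (p : K)⁻¹ * ((p : K) * (m : K) * a i j) = (m : K) * a i j := by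
    field_simp
  rw [h5] at h
  obtain ⟨w, hw⟩ := h
  obtain ⟨u, hu⟩ := os_unit hB hpm
  refine ⟨((u⁻¹ : Wˣ) : W) * w, ?_⟩
  rw [map_mul, hw, ← mul_assoc]
  have h6 : algebraMap W K ((u⁻¹ : Wˣ) : W) * (m : K) = 1 := by
    have : (m : K) = algebraMap W K (m : W) := (map_natCast _ _).symm
    rw [this, ← hu, ← map_mul, Units.inv_mul, map_one]
  rw [h6, one_mul]

/-- colour-constant functions of one point are constant, sums over all points -/
private theorem os_sum_one (hX : Fintype.card X = p) (f : (Fin 1 → X) → K)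
    (hf : C.Cst 1 f) (x0 : X) : ∑ x : X, f ![x] = (p : K) * f ![x0] := by
  have h1 : ∀ x : X, f ![x] = f ![x0] := fun x => hf _ _ (C.hom _ _)
  rw [Finset.sum_congr rfl fun x _ => h1 x, Finset.sum_const, nsmul_eq_mul, Finset.card_univ, hX]

private def osE2 (X : Type) : X × X ≃ (Fin 2 → X) where
  toFun q := ![q.1, q.2]
  invFun t := (t 0, t 1)
  left_inv q := rfl
  right_inv t := by
    funext i
    fin_cases i <;> rfl

private def osE4 (X : Type) : (X × X) × (X × X) ≃ (Fin 4 → X) where
  toFun q := ![q.1.1, q.1.2, q.2.1, q.2.2]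
  invFun t := ((t 0, t 1), (t 2, t 3))
  left_inv q := rfl
  right_inv t := by
    funext i
    fin_cases i <;> rfl

private theorem Cst1 {K : Type} [Field K] (a : Matrix X X K) (ha : a ∈ C.Lam K) :
    C.Cst 1 (fun t => a (t 0) (t 0)) := by
  have h4 := Coh.Cst.comp (C := C) (n := 1) (k := 2) (by norm_num) (by norm_num) ![0, 0] ha
  exact h4

theorem lam_symOrder (hB : Base p W K F) (hX : Fintype.card X = p) :
    SymOrder p (LamO C W K) (tauL C K) := by
  classical
  haveI : CharZero K := hB.charZero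
  have hp : p.Prime := hB.prime
  have hp0 : (p : K) ≠ 0 := Nat.cast_ne_zero.2 hp.ne_zero
  have hne : Nonempty X := Fintype.card_pos_iff.1 (by rw [hX]; exact hp.pos)
  obtain ⟨x0⟩ := hne
  constructor
  · apply os_fg hB ((C.Lam K).val.toLinearMap.restrictScalars W) Subtype.val_injective
    intro v hv i j
    exact hv i j
  · intro x
    obtain ⟨N, hN⟩ := os_pow_fin hB (fun q : X × X => (x : Matrix X X K) q.1 q.2)
    refine ⟨N, fun i j => ?_⟩
    have : ((((p : ↥(C.Lam K)) ^ N * x : ↥(C.Lam K)) : Matrix X X K)) i j =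
        (p : K) ^ N * (x : Matrix X X K) i j := by
      have h1 : ((((p : ↥(C.Lam K)) ^ N * x : ↥(C.Lam K)) : Matrix X X K)) =
          ((p ^ N : ℕ) : K) • (x : Matrix X X K) := by
        push_cast
        rw [← Nat.cast_pow, ← Nat.cast_pow, ← nsmul_eq_mul, Nat.cast_smul_eq_nsmul]
      rw [h1, Matrix.smul_apply, smul_eq_mul, Nat.cast_pow]
    rw [this]
    exact hN (i, j)
  · intro x y
    rw [tauL_apply, tauL_apply]
    congr 1
    exact Matrix.trace_mul_comm _ _
  · intro x hx
    rw [tauL_apply]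
    have h1 : Matrix.trace (x : Matrix X X K) = (p : K) * (x : Matrix X X K) x0 x0 := by
      have h2 : C.Cst 1 (fun t => (x : Matrix X X K) (t 0) (t 0)) := by
        have := Cst1 C (x : Matrix X X K) x.2
        exact this
      exact os_sum_one C hX _ h2 x0
    rw [h1, hX, ← mul_assoc, inv_mul_cancel₀ hp0, one_mul]
    exact hx x0 x0
  · intro x hx i j
    have hmem : (Matrix.of (fun k l => if C.r 2 (osE2 X (l, k)) (osE2 X (i, j)) then (1 : K)
        else 0)) ∈ C.Lam K := by
      intro t t' h
      have h1 := C.reindex (n := 2) (k := 2) (by norm_num) (by norm_num) ![1, 0] t t' h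
      have h2 : (fun i => t (![1, 0] i)) = osE2 X (t 1, t 0) := by
        funext i
        fin_cases i <;> rfl
      have h3 : (fun i => t' (![1, 0] i)) = osE2 X (t' 1, t' 0) := by
        funext i
        fin_cases i <;> rfl
      rw [h2, h3] at h1
      have h4 : C.r 2 (osE2 X (t 1, t 0)) (osE2 X (i, j)) ↔
          C.r 2 (osE2 X (t' 1, t' 0)) (osE2 X (i, j)) :=
        ⟨fun hh => (C.equiv 2 (by norm_num)).trans ((C.equiv 2 (by norm_num)).symm h1) hh,
          fun hh => (C.equiv 2 (by norm_num)).trans h1 hh⟩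
      simp only [Matrix.of_apply, h4]
    have h1 := hx ⟨_, hmem⟩ (by
      intro k l
      change IsInt W (if C.r 2 (osE2 X (l, k)) (osE2 X (i, j)) then (1 : K) else 0)
      split_ifs
      · exact IsInt.one
      · exact IsInt.zero)
    rw [tauL_apply] at h1
    exact os_dual C hB hX (n := 2) (by norm_num) (by norm_num) (osE2 X) (x : Matrix X X K) x.2 i j h1
  · intro x hx
    rw [tauL_apply]
    have h1 : IsNilpotent (x : Matrix X X K) := by
      obtain ⟨n, hn⟩ := hx
      exact ⟨n, by rw [← Subalgebra.coe_pow, hn, Subalgebra.coe_zero]⟩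
    rw [(Matrix.isNilpotent_trace_of_isNilpotent h1).eq_zero, mul_zero]

theorem pp_symOrder (hB : Base p W K F) (hX : Fintype.card X = p) :
    SymOrder p (PPO C W K) (tauP C K) := by
  classical
  haveI : CharZero K := hB.charZero
  have hp : p.Prime := hB.prime
  have hp0 : (p : K) ≠ 0 := Nat.cast_ne_zero.2 hp.ne_zero
  have hne : Nonempty X := Fintype.card_pos_iff.1 (by rw [hX]; exact hp.pos)
  obtain ⟨x0⟩ := hne
  constructor
  · apply os_fg hB ((C.PP K).val.toLinearMap.restrictScalars W) Subtype.val_injective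
    intro v hv i j
    exact hv i j
  · intro x
    obtain ⟨N, hN⟩ := os_pow_fin hB
      (fun q : (X × X) × (X × X) => (x : Matrix (X × X) (X × X) K) q.1 q.2)
    refine ⟨N, fun i j => ?_⟩
    have : ((((p : ↥(C.PP K)) ^ N * x : ↥(C.PP K)) : Matrix (X × X) (X × X) K)) i j =
        (p : K) ^ N * (x : Matrix (X × X) (X × X) K) i j := by
      have h1 : ((((p : ↥(C.PP K)) ^ N * x : ↥(C.PP K)) : Matrix (X × X) (X × X) K)) =
          ((p ^ N : ℕ) : K) • (x : Matrix (X × X) (X × X) K) := by
        push_cast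
        rw [← Nat.cast_pow, ← Nat.cast_pow, ← nsmul_eq_mul, Nat.cast_smul_eq_nsmul]
      rw [h1, Matrix.smul_apply, smul_eq_mul, Nat.cast_pow]
    rw [this]
    exact hN (i, j)
  · intro x y
    rw [tauP_apply, tauP_apply]
    congr 1
    exact Matrix.trace_mul_comm _ _
  · intro x hx
    rw [tauP_apply]
    have h2 : C.Cst 1 (fun u => ∑ b : X, (x : Matrix (X × X) (X × X) K)
        (u 0, b) (u 0, b)) := by
      have h3 : C.Cst 2 (fun t => (x : Matrix (X × X) (X × X) K) (t 0, t 1) (t 0, t 1)) := by
        have h4 := Coh.Cst.comp (C := C) (n := 2) (k := 4) (by norm_num) (by norm_num)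
          ![0, 1, 0, 1] x.2
        exact h4
      exact Coh.Cst.sum (by norm_num) h3
    have h1 : Matrix.trace (x : Matrix (X × X) (X × X) K) =
        (p : K) * ∑ b : X, (x : Matrix (X × X) (X × X) K) (x0, b) (x0, b) := by
      have h5 := os_sum_one C hX _ h2 x0
      rw [Matrix.trace, Fintype.sum_prod_type]
      exact h5
    rw [h1, hX, ← mul_assoc, inv_mul_cancel₀ hp0, one_mul]
    exact IsInt.sum _ fun b _ => hx _ _
  · intro x hx i j
    have hmem : (Matrix.of (fun k l => if C.r 4 (osE4 X (l, k)) (osE4 X (i, j)) then (1 : K)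
        else 0)) ∈ C.PP K := by
      intro t t' h
      have h1 := C.reindex (n := 4) (k := 4) (by norm_num) (by norm_num) ![2, 3, 0, 1] t t' h
      have h2 : (fun i => t (![2, 3, 0, 1] i)) = osE4 X ((t 2, t 3), (t 0, t 1)) := by
        funext i
        fin_cases i <;> rfl
      have h3 : (fun i => t' (![2, 3, 0, 1] i)) = osE4 X ((t' 2, t' 3), (t' 0, t' 1)) := by
        funext i
        fin_cases i <;> rfl
      rw [h2, h3] at h1
      have h4 : C.r 4 (osE4 X ((t 2, t 3), (t 0, t 1))) (osE4 X (i, j)) ↔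
          C.r 4 (osE4 X ((t' 2, t' 3), (t' 0, t' 1))) (osE4 X (i, j)) :=
        ⟨fun hh => (C.equiv 4 (by norm_num)).trans ((C.equiv 4 (by norm_num)).symm h1) hh,
          fun hh => (C.equiv 4 (by norm_num)).trans h1 hh⟩
      simp only [Matrix.of_apply, h4]
    have h1 := hx ⟨_, hmem⟩ (by
      intro k l
      change IsInt W (if C.r 4 (osE4 X (l, k)) (osE4 X (i, j)) then (1 : K) else 0)
      split_ifs
      · exact IsInt.one
      · exact IsInt.zero)
    rw [tauP_apply] at h1
    exact os_dual C hB hX (n := 4) (by norm_num) (by norm_num) (osE4 X)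
      (x : Matrix (X × X) (X × X) K) x.2 i j h1
  · intro x hx
    rw [tauP_apply]
    have h1 : IsNilpotent (x : Matrix (X × X) (X × X) K) := by
      obtain ⟨n, hn⟩ := hx
      exact ⟨n, by rw [← Subalgebra.coe_pow, hn, Subalgebra.coe_zero]⟩
    rw [(Matrix.isNilpotent_trace_of_isNilpotent h1).eq_zero, mul_zero]

/-- traces of idempotents are natural numbers -/
theorem pp_nat (hB : Base p W K F) (hX : Fintype.card X = p) (g : ↥(C.PP K)) (hg : g * g = g) :
    (p : K) * tauP C K g = ((g : Matrix (X × X) (X × X) K).rank : K) := by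
  haveI : CharZero K := hB.charZero
  have hp : p.Prime := hB.prime
  have hp0 : (p : K) ≠ 0 := Nat.cast_ne_zero.2 hp.ne_zero
  rw [tauP_apply, hX, ← mul_assoc, mul_inv_cancel₀ hp0, one_mul]
  set M : Matrix (X × X) (X × X) K := (g : Matrix (X × X) (X × X) K) with hM
  have hMM : M * M = M := by
    have := congrArg (fun a : ↥(C.PP K) => (a : Matrix (X × X) (X × X) K)) hg
    exact this
  have hid : IsIdempotentElem (Matrix.toLin' M) := by
    change Matrix.toLin' M * Matrix.toLin' M = Matrix.toLin' M
    rw [Module.End.mul_eq_comp, ← Matrix.toLin'_mul, hMM]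
  have h1 := (LinearMap.IsIdempotentElem.isProj_range _ hid).trace
  rw [Matrix.trace_toLin'_eq] at h1
  rw [h1]
  rfl

end

end PDeg
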