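import Pool.Agent.Lib.MP_369ee2_lc_PD.SecV
import Pool.Agent.Lib.MP_369ee2_lc_PD.SecB
import Pool.Agent.Lib.MP_369ee2_lc_PD.FactM0
import Pool.Agent.Lib.MP_369ee2_lc_PD.OrderSym

/-!
# Fact M for `K^(X × X)`: the trace of `b_ζ` and of `b_ζ e`
-/

set_option linter.unusedSectionVars false

namespace PDeg

open scoped BigOperators Matrix Kronecker
open Module

namespace SecV

theorem trace_idem {K : Type} [Field K] {I : Type} [Fintype I] [DecidableEq I] (M : Matrix I I K)
    (hM : M * M = M) (U : Submodule K (I → K)) (hU : ∀ v, v ∈ U ↔ M *ᵥ v = v) :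
    M.trace = (finrank K U : K) := by
  have hid : IsIdempotentElem (Matrix.toLin' M) := by
    change Matrix.toLin' M * Matrix.toLin' M = Matrix.toLin' M
    rw [Module.End.mul_eq_comp, ← Matrix.toLin'_mul, hM]
  have h1 := (LinearMap.IsIdempotentElem.isProj_range _ hid).trace
  rw [Matrix.trace_toLin'_eq] at h1
  rw [h1]
  have h2 : LinearMap.range (Matrix.toLin' M) = U := by
    ext v
    rw [hU, LinearMap.mem_range]
    constructor
    · rintro ⟨u, rfl⟩
      rw [Matrix.toLin'_apply, Matrix.mulVec_mulVec, hM]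
    · intro h
      exact ⟨v, by rw [Matrix.toLin'_apply, h]⟩
  rw [h2]

section vec
variable {X R : Type} [Fintype X] [DecidableEq X] [CommRing R]

theorem t1_mulVec (a : Matrix X X R) (v : X × X → R) (i : X × X) :
    (t1 a *ᵥ v) i = ∑ j, a i.1 j * v (j, i.2) := by
  rw [Matrix.mulVec, dotProduct, Fintype.sum_prod_type]
  apply Finset.sum_congr rfl
  intro j _
  rw [Finset.sum_eq_single i.2]
  · rw [t1_apply, if_pos rfl]
  · intro b _ hb
    rw [t1_apply, if_neg (Ne.symm hb), zero_mul]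
  · intro h
    exact absurd (Finset.mem_univ _) h

theorem t2_mulVec (a : Matrix X X R) (v : X × X → R) (i : X × X) :
    (t2 a *ᵥ v) i = ∑ j, a i.2 j * v (i.1, j) := by
  rw [Matrix.mulVec, dotProduct, Fintype.sum_prod_type, Finset.sum_eq_single i.1]
  · apply Finset.sum_congr rfl
    intro j _
    rw [t2_apply, if_pos rfl]
  · intro b _ hb
    apply Finset.sum_eq_zero
    intro j _
    rw [t2_apply, if_neg (Ne.symm hb), zero_mul]
  · intro h
    exact absurd (Finset.mem_univ _) h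

/-- both sums -/
def NN (X R : Type) [Fintype X] [DecidableEq X] [CommRing R] :
    Matrix ((X × X) ⊕ (X × X)) (X × X) R :=
  Matrix.fromRows (t1 (JJ X R)) (t2 (JJ X R))

theorem NN_mulVec (v : X × X → R) :
    NN X R *ᵥ v = 0 ↔ t1 (JJ X R) *ᵥ v = 0 ∧ t2 (JJ X R) *ᵥ v = 0 := by
  rw [NN, Matrix.fromRows_mulVec]
  constructor
  · intro h
    exact ⟨funext fun i => congrFun h (Sum.inl i), funext fun i => congrFun h (Sum.inr i)⟩
  · rintro ⟨h1, h2⟩
    rw [h1, h2]
    funext i
    rcases i with i | i <;> rfl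

theorem NN_map {S : Type} [CommRing S] (φ : R →+* S) : (NN X R).map φ = NN X S := by
  rw [NN, Matrix.fromRows_map, FactM.t1_map, FactM.t2_map, FactM.JJ_map, NN]

end vec

section main
variable {X : Type} [Fintype X] [DecidableEq X] {C : Coh X} {p : ℕ} {W K F : Type}
  [CommRing W] [IsDomain W] [Field K] [Algebra W K] [IsFractionRing W K] [Field F] [Algebra W F]
  {k d : ℕ} {y : Matrix X X W} {ζ0 : W} {q r : X → Matrix X X F}

theorem lift_NN (hB : Base p W K F) (x0 : X) (g : X × X → W)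
    (hg : ∀ z, (p : W) ∣ (NN X W *ᵥ g) z) :
    ∃ h : X × X → W, NN X W *ᵥ (g - (p : W) • h) = 0 := by
  classical
  have hp0 : (p : W) ≠ 0 := S3.p_ne hB
  have hA : ∀ z : X, ∃ c, ∑ x, g (x, z) = (p : W) * c := by
    intro z
    have h1 := hg (Sum.inl (x0, z))
    rw [NN, Matrix.fromRows_mulVec] at h1
    change (p : W) ∣ (t1 (JJ X W) *ᵥ g) (x0, z) at h1
    rw [t1_mulVec] at h1
    obtain ⟨c, hc⟩ := h1
    refine ⟨c, ?_⟩
    rw [← hc]
    apply Finset.sum_congr rfl
    intro j _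
    simp [JJ]
  have hBB : ∀ z : X, ∃ c, ∑ x, g (z, x) = (p : W) * c := by
    intro z
    have h1 := hg (Sum.inr (z, x0))
    rw [NN, Matrix.fromRows_mulVec] at h1
    change (p : W) ∣ (t2 (JJ X W) *ᵥ g) (z, x0) at h1
    rw [t2_mulVec] at h1
    obtain ⟨c, hc⟩ := h1
    refine ⟨c, ?_⟩
    rw [← hc]
    apply Finset.sum_congr rfl
    intro j _
    simp [JJ]
  choose A hA using hA
  choose B hBB using hBB
  have hAB : ∑ z, A z = ∑ z, B z := by
    apply mul_left_cancel₀ hp0
    rw [Finset.mul_sum, Finset.mul_sum]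
    calc ∑ z, (p : W) * A z = ∑ z, ∑ x, g (x, z) := Finset.sum_congr rfl fun z _ => (hA z).symm
      _ = ∑ x, ∑ z, g (x, z) := Finset.sum_comm
      _ = ∑ z, (p : W) * B z := Finset.sum_congr rfl fun z _ => hBB z
  refine ⟨fun z => (if z.1 = x0 then A z.2 else 0) +
    (if z.2 = x0 then (B z.1 - if z.1 = x0 then ∑ x, B x else 0) else 0), ?_⟩
  rw [NN_mulVec]
  constructor
  · funext i
    rw [t1_mulVec]
    simp only [JJ, Matrix.of_apply, one_mul, Pi.sub_apply, Pi.smul_apply, smul_eq_mul,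
      Pi.zero_apply]
    rw [Finset.sum_sub_distrib, ← Finset.mul_sum, Finset.sum_add_distrib, hA]
    rw [Finset.sum_ite_eq' Finset.univ x0 (fun _ => A i.2), if_pos (Finset.mem_univ _)]
    by_cases h : i.2 = x0
    · simp only [if_pos h]
      rw [Finset.sum_sub_distrib, Finset.sum_ite_eq' Finset.univ x0 (fun _ => ∑ x, B x),
        if_pos (Finset.mem_univ _)]
      ring
    · simp only [if_neg h]
      rw [Finset.sum_const_zero]
      ring
  · funext i
    rw [t2_mulVec]
    simp only [JJ, Matrix.of_apply, one_mul, Pi.sub_apply, Pi.smul_apply, smul_eq_mul,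
      Pi.zero_apply]
    rw [Finset.sum_sub_distrib, ← Finset.mul_sum, Finset.sum_add_distrib, hBB]
    rw [Finset.sum_ite_eq' Finset.univ x0 (fun _ => (B i.1 - if i.1 = x0 then ∑ x, B x else 0)),
      if_pos (Finset.mem_univ _)]
    by_cases h : i.1 = x0
    · simp only [if_pos h]
      rw [hAB]
      ring
    · simp only [if_neg h]
      rw [Finset.sum_const_zero]
      ring

theorem yW_mul_JJ (hY : YData C p W K k d y ζ0) : y * JJ X W = 0 := mul_JJ hY.rowsum
theorem yW_JJ_mul (hY : YData C p W K k d y ζ0) : JJ X W * y = 0 := JJ_mul hY.colsum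

theorem pow1 (hY : YData C p W K k d y ζ0) :
    t1 y ^ k = (p : Matrix (X × X) (X × X) W) - t1 (JJ X W) := by
  rw [← t1_pow, hY.pow, t1_sub]
  congr 1
  have : (p : Matrix X X W) = (p : W) • 1 := by
    rw [Nat.cast_smul_eq_nsmul, nsmul_one]
  rw [this, t1_smul, t1_one, Nat.cast_smul_eq_nsmul, nsmul_one]

theorem pow2 (hY : YData C p W K k d y ζ0) :
    t2 y ^ k = (p : Matrix (X × X) (X × X) W) - t2 (JJ X W) := by
  rw [← t2_pow, hY.pow, t2_sub]
  congr 1
  have : (p : Matrix X X W) = (p : W) • 1 := by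
    rw [Nat.cast_smul_eq_nsmul, nsmul_one]
  rw [this, t2_smul, t2_one, Nat.cast_smul_eq_nsmul, nsmul_one]

/-- the vector `u = t2 (q x0) t` -/
theorem uvec (hP : PData C F k y q r) (x0 : X)
    (t : X × X → F) (h1 : t1 (y.map (algebraMap W F)) *ᵥ t = 0)
    (h2 : t2 (y.map (algebraMap W F)) *ᵥ t = 0) :
    t1 (y.map (algebraMap W F)) *ᵥ (t2 (q x0) *ᵥ t) = 0 ∧
      t = (t2 (y.map (algebraMap W F))) ^ (k - 1) *ᵥ (t2 (q x0) *ᵥ t) := by
  constructor
  · rw [Matrix.mulVec_mulVec, t1_t2, ← Matrix.mulVec_mulVec, h1, Matrix.mulVec_zero]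
  · rw [Matrix.mulVec_mulVec, ← t2_pow, ← t2_mul]
    have h3 : (y.map (algebraMap W F)) ^ (k - 1) * q x0 =
        1 - r x0 * (y.map (algebraMap W F)) := by
      rw [hP.eq x0, add_sub_cancel_right]
    rw [h3, t2_sub, t2_one, t2_mul, Matrix.sub_mulVec, Matrix.one_mulVec, ← Matrix.mulVec_mulVec,
      h2, Matrix.mulVec_zero, sub_zero]

theorem finrank_NN (hB : Base p W K F) (hX : Fintype.card X = p) :
    finrank K (kr (NN X K)) = (p - 1) ^ 2 := by
  have := hB.charZero
  have hp1 : 1 ≤ p := hB.prime.one_le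
  have hXK : (Fintype.card X : K) ≠ 0 := by
    rw [hX]
    exact S3.p_neK hB
  have h1 := trace_idem (E2 X K) (by
    change t1 (EE X K) * t2 (EE X K) * (t1 (EE X K) * t2 (EE X K)) = t1 (EE X K) * t2 (EE X K)
    rw [mul_assoc, ← mul_assoc (t2 (EE X K)), ← t1_t2, mul_assoc, ← mul_assoc, ← mul_assoc,
      ← t1_mul, EE_idem hXK, mul_assoc, ← t2_mul, EE_idem hXK]) (kr (NN X K)) (by
    intro v
    rw [mem_kr, NN_mulVec]
    constructor
    · rintro ⟨h1, h2⟩
      have e1 : t1 (EE X K) *ᵥ v = v := by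
        rw [EE, t1_sub, t1_one, t1_smul, Matrix.sub_mulVec, Matrix.one_mulVec, Matrix.smul_mulVec,
          h1, smul_zero, sub_zero]
      have e2 : t2 (EE X K) *ᵥ v = v := by
        rw [EE, t2_sub, t2_one, t2_smul, Matrix.sub_mulVec, Matrix.one_mulVec, Matrix.smul_mulVec,
          h2, smul_zero, sub_zero]
      rw [E2, ← Matrix.mulVec_mulVec, e2, e1]
    · intro hv
      constructor
      · have h4 : t1 (JJ X K) * E2 X K = 0 := by
          rw [E2, ← mul_assoc, ← t1_mul, JJ_mul_EE hXK, t1_zero, zero_mul]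
        rw [← hv, Matrix.mulVec_mulVec, h4, Matrix.zero_mulVec]
      · have h4 : t2 (JJ X K) * E2 X K = 0 := by
          rw [E2, ← mul_assoc, ← t1_t2, mul_assoc, ← t2_mul, JJ_mul_EE hXK, t2_zero, mul_zero]
        rw [← hv, Matrix.mulVec_mulVec, h4, Matrix.zero_mulVec])
  have h2 : (E2 X K).trace = ((p : K) - 1) * ((p : K) - 1) := by
    have h3 : E2 X K = EE X K ⊗ₖ EE X K := by
      rw [E2, t1, t2, ← Matrix.mul_kronecker_mul, Matrix.mul_one, Matrix.one_mul]
    have h4 : (EE X K).trace = (p : K) - 1 := by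
      have h5 : (JJ X K).trace = (p : K) := by
        rw [Matrix.trace]
        simp [JJ, hX]
      rw [EE, Matrix.trace_sub, Matrix.trace_smul, Matrix.trace_one, h5, hX, smul_eq_mul,
        inv_mul_cancel₀ (S3.p_neK hB)]
    rw [h3, Matrix.trace_kronecker, h4]
  rw [h2] at h1
  have h6 : (((p - 1) ^ 2 : ℕ) : K) = (finrank K (kr (NN X K)) : K) := by
    rw [← h1]
    push_cast [Nat.cast_sub hp1]
    ring
  exact (Nat.cast_injective h6).symm

/-- **the trace of `b_ζ` is `k d²`** -/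
theorem trace_b (hB : Base p W K F) (hk : k ∣ p - 1) (hY : YData C p W K k d y ζ0)
    (hP : PData C F k y q r) {ζ : W} (hζ : ζ ^ k = 1) {b : ↥(C.PP K)} (hb : IsB C y ζ b) :
    (p : K) * tauP C K b = (k : K) * (d : K) ^ 2 := by
  classical
  have := hB.charZero
  have hX := hY.card
  have hp1 : 1 ≤ p := hB.prime.one_le
  have hk1 : 1 ≤ k := le_trans (by norm_num) hY.k2
  obtain ⟨x0⟩ : Nonempty X := Fintype.card_pos_iff.1 (by rw [hX]; exact hB.prime.pos)
  obtain ⟨N1, hN1⟩ : ∃ N1 : Matrix ((X × X) ⊕ (X × X)) ((X × X) ⊕ (X × X)) W,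
      NN X W * t1 y = N1 * NN X W := by
    refine ⟨Matrix.fromBlocks 0 0 0 (t1 y), ?_⟩
    rw [NN, Matrix.fromRows_mul, Matrix.fromBlocks_mul_fromRows, ← t1_mul, yW_JJ_mul hY, t1_zero,
      Matrix.zero_mul, Matrix.zero_mul, add_zero, zero_add, t1_t2]
  obtain ⟨N2, hN2⟩ : ∃ N2 : Matrix ((X × X) ⊕ (X × X)) ((X × X) ⊕ (X × X)) W,
      NN X W * t2 y = N2 * NN X W := by
    refine ⟨Matrix.fromBlocks (t2 y) 0 0 0, ?_⟩
    rw [NN, Matrix.fromRows_mul, Matrix.fromBlocks_mul_fromRows, ← t2_mul, yW_JJ_mul hY, t2_zero,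
      Matrix.zero_mul, Matrix.zero_mul, add_zero, add_zero, t1_t2]
  obtain ⟨P1, hp1'⟩ : ∃ P1 : Matrix (X × X) ((X × X) ⊕ (X × X)) W,
      t1 y ^ k = (p : Matrix (X × X) (X × X) W) - P1 * NN X W := by
    refine ⟨Matrix.fromCols 1 0, ?_⟩
    rw [NN, Matrix.fromCols_mul_fromRows, Matrix.one_mul, Matrix.zero_mul, add_zero, pow1 hY]
  obtain ⟨P2, hp2'⟩ : ∃ P2 : Matrix (X × X) ((X × X) ⊕ (X × X)) W,
      t2 y ^ k = (p : Matrix (X × X) (X × X) W) - P2 * NN X W := by
    refine ⟨Matrix.fromCols 0 1, ?_⟩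
    rw [NN, Matrix.fromCols_mul_fromRows, Matrix.one_mul, Matrix.zero_mul, zero_add, pow2 hY]
  obtain ⟨κ, h1, h2⟩ := vecM (K := K) hB hk hk1 (t1 y) (t2 y) (NN X W) _ _ _ _ hN1 hN2 (t1_t2 y y)
    hp1' hp2' (lift_NN hB x0) (by
      intro t ht h1 h2
      rw [NN_map, NN_mulVec] at ht
      rw [FactM.t1_map] at h1
      rw [FactM.t2_map] at h2
      obtain ⟨h3, h4⟩ := uvec hP x0 t h1 h2
      refine ⟨t2 (q x0) *ᵥ t, ?_, ?_, ?_⟩
      · rw [NN_map, NN_mulVec]
        constructor
        · rw [Matrix.mulVec_mulVec, t1_t2, ← Matrix.mulVec_mulVec, ht.1, Matrix.mulVec_zero]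
        · have hch := S3.charP hB
          have h5 : t2 (JJ X F) = - (t2 (y.map (algebraMap W F))) ^ k := by
            have h6 := congrArg (fun M => (algebraMap W F).mapMatrix M) (pow2 hY)
            simp only [map_pow, map_sub, map_natCast] at h6
            have h7 : (algebraMap W F).mapMatrix (t2 y) = t2 (y.map (algebraMap W F)) :=
              FactM.t2_map _ _
            have h8 : (algebraMap W F).mapMatrix (t2 (JJ X W)) = t2 (JJ X F) := by
              change (t2 (JJ X W)).map (algebraMap W F) = _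
              rw [FactM.t2_map, FactM.JJ_map]
            have h9 : (p : Matrix (X × X) (X × X) F) = 0 := by
              rw [← map_natCast (algebraMap F (Matrix (X × X) (X × X) F)), CharP.cast_eq_zero,
                map_zero]
            rw [h7, h8, h9, zero_sub] at h6
            rw [h6, neg_neg]
          obtain ⟨j, hj⟩ : ∃ j, k = j + 1 := ⟨k - 1, by omega⟩
          rw [h5, Matrix.neg_mulVec, hj, pow_succ', ← Matrix.mulVec_mulVec]
          rw [hj, Nat.add_sub_cancel] at h4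
          rw [← h4, h2, neg_zero]
      · rw [FactM.t1_map]
        exact h3
      · rw [FactM.t2_map]
        exact h4)
  rw [NN_map, finrank_NN hB hX, ← hY.kd] at h1
  have hκ : κ = d ^ 2 := by
    have h3 : k ^ 2 * κ = k ^ 2 * d ^ 2 := by
      rw [← h1]
      ring
    exact Nat.eq_of_mul_eq_mul_left (by positivity) h3
  have h3 := h2 ζ hζ
  have h4 := trace_idem (b : Matrix (X × X) (X × X) K) (congrArg Subtype.val hb.idem)
    (sol ((NN X W).map (algebraMap W K)) ((t1 y).map (algebraMap W K))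
      ((t2 y).map (algebraMap W K)) (algebraMap W K ζ)) (by
    intro v
    rw [mem_sol, hb.iff, NN_map, NN_mulVec, FactM.t1_map, FactM.t2_map, and_assoc])
  rw [h3, hκ] at h4
  rw [tauP_apply, hX, ← mul_assoc, mul_inv_cancel₀ (S3.p_neK hB), one_mul, h4]
  push_cast
  ring

/-- **Fact M for `e B_ζ`**, `e` a central idempotent of `P_W` killed by `J₁` and `J₂`. -/
theorem trace_be (hB : Base p W K F) (hk : k ∣ p - 1) (hY : YData C p W K k d y ζ0)
    (hP : PData C F k y q r) (e : ↥(C.PP K)) (he : e ∈ PPO C W K) (hi : e * e = e)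
    (hc : ∀ a : ↥(C.PP K), e * a = a * e)
    (hJ1 : (e : Matrix (X × X) (X × X) K) * t1 (JJ X K) = 0)
    (hJ2 : (e : Matrix (X × X) (X × X) K) * t2 (JJ X K) = 0) :
    ∃ κ : ℕ, p ∣ κ ∧ ∀ ζ : W, ζ ^ k = 1 → ∀ b : ↥(C.PP K), IsB C y ζ b →
      (p : K) * tauP C K (b * e) = (k : K) * (κ : K) := by
  classical
  have := hB.charZero
  have hX := hY.card
  have hk1 : 1 ≤ k := le_trans (by norm_num) hY.k2
  have hinj : Function.Injective (algebraMap W K) := IsFractionRing.injective W K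
  obtain ⟨x0⟩ : Nonempty X := Fintype.card_pos_iff.1 (by rw [hX]; exact hB.prime.pos)
  choose E hE using he
  have hEe : (Matrix.of E).map (algebraMap W K) = (e : Matrix (X × X) (X × X) K) := by
    ext i j
    exact hE i j
  generalize hEE : Matrix.of E = M at hEe
  have hmi : Function.Injective (fun A : Matrix (X × X) (X × X) W => A.map (algebraMap W K)) := by
    intro A B h
    ext i j
    exact hinj (congrFun (congrFun h i) j)
  have hmm : ∀ A B : Matrix (X × X) (X × X) W, (A * B).map (algebraMap W K) =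
      A.map (algebraMap W K) * B.map (algebraMap W K) := fun A B => Matrix.map_mul
  have hMM : M * M = M := by
    apply hmi
    change (M * M).map (algebraMap W K) = M.map (algebraMap W K)
    rw [hmm, hEe]
    exact congrArg Subtype.val hi
  have hcW : ∀ A : Matrix (X × X) (X × X) W, A.map (algebraMap W K) ∈ C.PP K →
      M * A = A * M := by
    intro A hA
    apply hmi
    change (M * A).map (algebraMap W K) = (A * M).map (algebraMap W K)
    rw [hmm, hmm, hEe]
    exact congrArg Subtype.val (hc ⟨_, hA⟩)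
  have hm1 : M * t1 y = t1 y * M := hcW _ (by
    rw [FactM.t1_map]
    exact t1_mem C K (yK_mem hY))
  have hm2 : M * t2 y = t2 y * M := hcW _ (by
    rw [FactM.t2_map]
    exact t2_mem C K (yK_mem hY))
  have hj1 : M * t1 (JJ X W) = t1 (JJ X W) * M := hcW _ (by
    rw [FactM.t1_map, FactM.JJ_map]
    exact t1_mem C K (JJ_mem C K))
  have hj2 : M * t2 (JJ X W) = t2 (JJ X W) * M := hcW _ (by
    rw [FactM.t2_map, FactM.JJ_map]
    exact t2_mem C K (JJ_mem C K))
  have hJ1' : M * t1 (JJ X W) = 0 := by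
    apply hmi
    change (M * t1 (JJ X W)).map (algebraMap W K) = (0 : Matrix _ _ W).map (algebraMap W K)
    rw [hmm, hEe, FactM.t1_map, FactM.JJ_map, hJ1, Matrix.map_zero _ (map_zero _)]
  have hJ2' : M * t2 (JJ X W) = 0 := by
    apply hmi
    change (M * t2 (JJ X W)).map (algebraMap W K) = (0 : Matrix _ _ W).map (algebraMap W K)
    rw [hmm, hEe, FactM.t2_map, FactM.JJ_map, hJ2, Matrix.map_zero _ (map_zero _)]
  have h1M : ∀ {S : Type} [CommRing S] (φ : W →+* S),
      (1 - M).map φ = 1 - M.map φ := by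
    intro S _ φ
    rw [Matrix.map_sub _ (map_sub _), Matrix.map_one _ (map_zero _) (map_one _)]
  have hfix : ∀ {S : Type} [CommRing S] (φ : W →+* S) (v : X × X → S),
      (1 - M).map φ *ᵥ v = 0 ↔ M.map φ *ᵥ v = v := by
    intro S _ φ v
    rw [h1M, Matrix.sub_mulVec, Matrix.one_mulVec, sub_eq_zero]
    exact eq_comm
  have hMMF : M.map (algebraMap W F) * M.map (algebraMap W F) = M.map (algebraMap W F) := by
    rw [← Matrix.map_mul, hMM]
  have hm1F : M.map (algebraMap W F) * t1 (y.map (algebraMap W F)) =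
      t1 (y.map (algebraMap W F)) * M.map (algebraMap W F) := by
    have h := congrArg (fun A => A.map (algebraMap W F)) hm1
    simp only [Matrix.map_mul] at h
    rwa [FactM.t1_map] at h
  have hm2F : M.map (algebraMap W F) * t2 (y.map (algebraMap W F)) =
      t2 (y.map (algebraMap W F)) * M.map (algebraMap W F) := by
    have h := congrArg (fun A => A.map (algebraMap W F)) hm2
    simp only [Matrix.map_mul] at h
    rwa [FactM.t2_map] at h
  have hm2Fp : ∀ n : ℕ, M.map (algebraMap W F) * t2 (y.map (algebraMap W F)) ^ n =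
      t2 (y.map (algebraMap W F)) ^ n * M.map (algebraMap W F) := by
    intro n
    exact ((show Commute _ _ from hm2F).pow_right n)
  obtain ⟨κ, h1, h2⟩ := vecM (K := K) (F := F) hB hk hk1 (t1 y) (t2 y) (1 - M) (t1 y) (t2 y)
    (t1 (JJ X W)) (t2 (JJ X W))
    (by rw [sub_mul, mul_sub, one_mul, mul_one, hm1])
    (by rw [sub_mul, mul_sub, one_mul, mul_one, hm2]) (t1_t2 y y)
    (by rw [mul_sub, mul_one, ← hj1, hJ1', sub_zero, pow1 hY])
    (by rw [mul_sub, mul_one, ← hj2, hJ2', sub_zero, pow2 hY])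
    (by
      intro g hg
      choose c hc' using hg
      refine ⟨c, ?_⟩
      have h3 : (p : W) • c = (1 - M) *ᵥ g := by
        funext i
        exact (hc' i).symm
      rw [h3, Matrix.mulVec_sub, Matrix.mulVec_mulVec]
      have h4 : (1 - M) * (1 - M) = 1 - M := by
        rw [mul_sub, mul_one, sub_mul, one_mul, hMM, sub_self, sub_zero]
      rw [h4, sub_self])
    (by
      intro t ht h1 h2
      rw [hfix] at ht
      rw [FactM.t1_map] at h1
      rw [FactM.t2_map] at h2
      obtain ⟨h3, h4⟩ := uvec hP x0 t h1 h2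
      refine ⟨M.map (algebraMap W F) *ᵥ (t2 (q x0) *ᵥ t), ?_, ?_, ?_⟩
      · rw [hfix, Matrix.mulVec_mulVec _ (M.map (algebraMap W F)) (M.map (algebraMap W F)), hMMF]
      · rw [FactM.t1_map, Matrix.mulVec_mulVec, ← hm1F, ← Matrix.mulVec_mulVec, h3,
          Matrix.mulVec_zero]
      · rw [FactM.t2_map, Matrix.mulVec_mulVec, ← hm2Fp, ← Matrix.mulVec_mulVec, ← h4, ht])
  have hsolv : ∀ v : X × X → K, (1 - M).map (algebraMap W K) *ᵥ v = 0 ↔
      (e : Matrix (X × X) (X × X) K) *ᵥ v = v := by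
    intro v
    rw [hfix, hEe]
  have htr := trace_idem (e : Matrix (X × X) (X × X) K) (congrArg Subtype.val hi)
    (kr ((1 - M).map (algebraMap W K))) (fun v => hsolv v)
  have hint := (pp_symOrder (C := C) hB hX).int e (fun i j => ⟨E i j, hE i j⟩)
  have hpκ : p ∣ κ := by
    obtain ⟨w, hw⟩ := hint
    have h3 : (p : K) * tauP C K e = ((k ^ 2 * κ : ℕ) : K) := by
      rw [tauP_apply, hX, ← mul_assoc, mul_inv_cancel₀ (S3.p_neK hB), one_mul, htr, h1]
    have h4 : (p : W) ∣ ((k ^ 2 * κ : ℕ) : W) := by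
      refine ⟨w, ?_⟩
      apply hinj
      rw [map_mul, map_natCast, map_natCast, hw, h3]
    have h5 := S3.dvd_natCast hB h4
    have h6 : ¬ p ∣ k := by
      intro h
      have h7 := Nat.le_of_dvd (by omega) h
      have h8 : k ≤ p - 1 := Nat.le_of_dvd (by have := hB.prime.two_le; omega) hk
      have := hB.prime.two_le
      omega
    have h7 : ¬ p ∣ k ^ 2 := fun h => h6 (hB.prime.dvd_of_dvd_pow h)
    exact (hB.prime.dvd_mul.1 h5).resolve_left h7
  refine ⟨κ, hpκ, ?_⟩
  intro ζ hζ b hb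
  have hbi : (b : Matrix (X × X) (X × X) K) * (b : Matrix (X × X) (X × X) K) =
      (b : Matrix (X × X) (X × X) K) := congrArg Subtype.val hb.idem
  have hce : (e : Matrix (X × X) (X × X) K) * (b : Matrix (X × X) (X × X) K) =
      (b : Matrix (X × X) (X × X) K) * (e : Matrix (X × X) (X × X) K) :=
    congrArg Subtype.val (hc b)
  have hii : (e : Matrix (X × X) (X × X) K) * (e : Matrix (X × X) (X × X) K) =
      (e : Matrix (X × X) (X × X) K) := congrArg Subtype.val hi
  have hcj1 : (e : Matrix (X × X) (X × X) K) * t1 (JJ X K) = t1 (JJ X K) *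
      (e : Matrix (X × X) (X × X) K) :=
    congrArg Subtype.val (hc ⟨_, t1_mem C K (JJ_mem C K)⟩)
  have hcj2 : (e : Matrix (X × X) (X × X) K) * t2 (JJ X K) = t2 (JJ X K) *
      (e : Matrix (X × X) (X × X) K) :=
    congrArg Subtype.val (hc ⟨_, t2_mem C K (JJ_mem C K)⟩)
  have h4 := trace_idem ((b : Matrix (X × X) (X × X) K) * (e : Matrix (X × X) (X × X) K)) (by
      rw [mul_assoc, ← mul_assoc (e : Matrix (X × X) (X × X) K), hce, ← mul_assoc, ← mul_assoc,
        hbi, mul_assoc, hii])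
    (sol ((1 - M).map (algebraMap W K)) ((t1 y).map (algebraMap W K))
      ((t2 y).map (algebraMap W K)) (algebraMap W K ζ)) (by
    intro v
    rw [mem_sol, hsolv, FactM.t1_map, FactM.t2_map]
    constructor
    · rintro ⟨h5, h6⟩
      rw [← Matrix.mulVec_mulVec, h5, hb.iff]
      refine ⟨?_, ?_, h6⟩
      · rw [← h5, Matrix.mulVec_mulVec, ← hcj1, hJ1, Matrix.zero_mulVec]
      · rw [← h5, Matrix.mulVec_mulVec, ← hcj2, hJ2, Matrix.zero_mulVec]
    · intro h5
      have h6 : (e : Matrix (X × X) (X × X) K) *ᵥ v = v := by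
        rw [← h5, Matrix.mulVec_mulVec, ← mul_assoc, hce, mul_assoc, hii]
      have h7 : (b : Matrix (X × X) (X × X) K) *ᵥ v = v := by
        rw [← h5, Matrix.mulVec_mulVec, ← mul_assoc, hbi]
      exact ⟨h6, ((hb.iff v).1 h7).2.2⟩)
  rw [h2 ζ hζ] at h4
  rw [tauP_apply, hX, ← mul_assoc, mul_inv_cancel₀ (S3.p_neK hB), one_mul]
  have h5 : ((b * e : ↥(C.PP K)) : Matrix (X × X) (X × X) K) =
      (b : Matrix (X × X) (X × X) K) * (e : Matrix (X × X) (X × X) K) := rfl
  rw [h5, h4]
  push_cast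
  ring

end main

end SecV

end PDeg
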