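import Pool.Agent.Lib.MP_369ee2_lc_PD.BZ
import Pool.Agent.Lib.MP_369ee2_lc_PD.FactMAbs
import Pool.Agent.Lib.MP_369ee2_lc_PD.PReg
import Pool.Agent.Lib.MP_369ee2_lc_PD.FactM3
import Pool.Agent.Lib.MP_369ee2_lc_PD.SecV2

/-!
# Fact M for idempotents of `P_W` (row S8)
-/

namespace PDeg

open scoped BigOperators Matrix

section
variable {X : Type} [Fintype X] [DecidableEq X] {C : Coh X}
variable {p : ℕ} {W K F : Type}
  [CommRing W] [IsDomain W] [Field K] [Algebra W K] [IsFractionRing W K] [Field F] [Algebra W F]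
variable {k d : ℕ} {y : Matrix X X W} {ζ0 : W} {ζ : W} {i0 : Fin k} {b : Fin k → ↥(C.PP K)}
  {q r : X → Matrix X X F}

/-- Fact M -/
theorem factM_idem (hB : Base p W K F) (Y : YData C p W K k d y ζ0) (P : PData C F k y q r)
    (B : BData C k y ζ0 ζ i0 b) (e : ↥(C.PP K)) (he : e ∈ PPO C W K) (hee : e * e = e) :
    ∃ κ : ℕ, ∀ i, Module.finrank K (crn K (b i) e) = k * κ := by
  obtain ⟨κ, hκ⟩ := FactM.factM C hB Y P he hee
  refine ⟨κ, fun i => hκ (ζ ^ (i : ℕ)) ?_ (b i) (B.isB i)⟩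
  rw [← pow_mul, mul_comm, pow_mul, B.prim.pow_eq_one, one_pow]

/-- `dim B_ζ = k d^2` -/
theorem trace_b (hB : Base p W K F) (Y : YData C p W K k d y ζ0) (P : PData C F k y q r)
    (B : BData C k y ζ0 ζ i0 b) (i : Fin k) : (p : K) * tauP C K (b i) = k * d ^ 2 := by
  refine SecV.trace_b hB ⟨d, Y.kd.symm⟩ Y P (ζ := ζ ^ (i : ℕ)) ?_ (B.isB i)
  rw [← pow_mul, mul_comm, pow_mul, B.prim.pow_eq_one, one_pow]

/-- Fact M for a central idempotent killed by the `J`'s, acting on vectors -/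
theorem factM_central (hB : Base p W K F) (Y : YData C p W K k d y ζ0) (P : PData C F k y q r)
    (B : BData C k y ζ0 ζ i0 b) (e : ↥(C.PP K)) (he : e ∈ PPO C W K) (hee : e * e = e)
    (hc : ∀ x, e * x = x * e) (h1 : jj1 C K * e = 0) (h2 : jj2 C K * e = 0) :
    ∃ κ : ℕ, (∀ i, (p : K) * tauP C K (b i * e) = k * κ) ∧ p ∣ κ := by
  obtain ⟨κ, h3, h4⟩ := SecV.trace_be hB ⟨d, Y.kd.symm⟩ Y P e he hee hc
    (congrArg Subtype.val ((hc (jj1 C K)).trans h1))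
    (congrArg Subtype.val ((hc (jj2 C K)).trans h2))
  refine ⟨κ, fun i => h4 (ζ ^ (i : ℕ)) ?_ (b i) (B.isB i), h3⟩
  rw [← pow_mul, mul_comm, pow_mul, B.prim.pow_eq_one, one_pow]

end

end PDeg
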