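import Pool.Agent.Lib.MP_369ee2_lc_PD.LemmaD

/-!
# Good components (row A2)
-/

set_option linter.unusedSectionVars false

namespace PDeg

open scoped BigOperators

section
variable {p : ℕ} {W K : Type} (F : Type) [CommRing W] [IsDomain W] [Field K] [Algebra W K]
  [IsFractionRing W K] [Field F] [Algebra W F] [Base p W K F]

private theorem goodD_int_add {x y : K} (hx : IsInt W x) (hy : IsInt W y) :
    IsInt W (x + y) := by
  obtain ⟨a, rfl⟩ := hx
  obtain ⟨b, rfl⟩ := hy
  exact ⟨a + b, by simp⟩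

private theorem goodD_int_sub {x y : K} (hx : IsInt W x) (hy : IsInt W y) :
    IsInt W (x - y) := by
  obtain ⟨a, rfl⟩ := hx
  obtain ⟨b, rfl⟩ := hy
  exact ⟨a - b, by simp⟩

private theorem goodD_int_smul (w : W) {x : K} (hx : IsInt W x) : IsInt W (w • x) := by
  obtain ⟨a, rfl⟩ := hx
  exact ⟨w * a, by simp [Algebra.smul_def]⟩

include W F in
private theorem goodD_pK : (p : K) ≠ 0 := by
  have h1 : CharZero K := Base.charZero (p := p) (W := W) (F := F)
  have h2 : p.Prime := Base.prime (W := W) (K := K) (F := F)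
  exact Nat.cast_ne_zero.2 h2.ne_zero

include F K in
private theorem goodD_not_unit : ¬ IsUnit (p : W) := by
  intro h
  have h1 : algebraMap W F (p : W) = 0 :=
    (Base.ker (p := p) (K := K) (F := F) (p : W)).2 (dvd_refl _)
  have h2 := h.map (algebraMap W F)
  rw [h1] at h2
  exact not_isUnit_zero h2

include F K in
private theorem goodD_unit {w : W} (h : ¬ (p : W) ∣ w) : IsUnit w := by
  have hd : IsDiscreteValuationRing W := Base.dvr (p := p) (K := K) (F := F)
  have h0 : algebraMap W F w ≠ 0 := fun h0 =>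
    h ((Base.ker (p := p) (K := K) (F := F) w).1 h0)
  obtain ⟨v, hv⟩ := Base.surj (p := p) (W := W) (K := K) (F := F) (algebraMap W F w)⁻¹
  have h1 : algebraMap W F (1 - w * v) = 0 := by
    rw [map_sub, map_one, map_mul, hv, mul_inv_cancel₀ h0, sub_self]
  obtain ⟨c, hc⟩ := (Base.ker (p := p) (K := K) (F := F) (1 - w * v)).1 h1
  have h2 : (p : W) * c ∈ nonunits W := fun hu =>
    goodD_not_unit (K := K) F (isUnit_of_mul_isUnit_left hu)
  have h3 : IsUnit (1 - (p : W) * c) := IsLocalRing.isUnit_one_sub_self_of_mem_nonunits _ h2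
  have h4 : w * v = 1 - (p : W) * c := by rw [← hc]; ring
  rw [← h4] at h3
  exact isUnit_of_mul_isUnit_left h3

variable {A : Type} [Ring A] [Algebra K A] [Algebra W A] [IsScalarTower W K A]

private theorem goodD_cast (n : ℕ) (x : A) : (n : A) * x = (n : W) • x := by
  rw [← nsmul_eq_mul, Nat.cast_smul_eq_nsmul]

include K F in
private theorem goodD_inj {x y : A} (h : (p : W) • x = (p : W) • y) : x = y := by
  have hK := goodD_pK (p := p) (W := W) (K := K) F
  have h1 : ∀ z : A, (p : W) • z = (p : K) • z := by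
    intro z
    rw [← algebraMap_smul K (p : W) z, map_natCast]
  rw [h1, h1] at h
  exact smul_right_injective A hK h

include F K in
private theorem goodD_nak {L M : Submodule W A} (hM : M.FG)
    (h : M ≤ L ⊔ M.map (LinearMap.lsmul W A (p : W))) : M ≤ L := by
  have hd : IsDiscreteValuationRing W := Base.dvr (p := p) (K := K) (F := F)
  refine Submodule.le_of_le_smul_of_le_jacobson_bot (I := Ideal.span {(p : W)}) hM ?_ ?_
  · refine le_trans ?_ (IsLocalRing.maximalIdeal_le_jacobson _)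
    rw [Ideal.span_singleton_le_iff_mem, IsLocalRing.mem_maximalIdeal]
    exact goodD_not_unit (K := K) F
  · refine h.trans (sup_le_sup le_rfl ?_)
    rintro _ ⟨y, hy, rfl⟩
    exact Submodule.smul_mem_smul (Ideal.mem_span_singleton_self _) hy

/-- elements fixed by `e` on both sides -/
private def goodDFix (W : Type) {A : Type} [CommRing W] [Ring A] [Algebra W A] (e : A) :
    Submodule W A where
  carrier := {x | e * x = x ∧ x * e = x}
  add_mem' := by
    rintro a b ⟨h1, h2⟩ ⟨h3, h4⟩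
    exact ⟨by rw [mul_add, h1, h3], by rw [add_mul, h2, h4]⟩
  zero_mem' := by simp
  smul_mem' := by
    rintro c x ⟨h1, h2⟩
    exact ⟨by rw [mul_smul_comm, h1], by rw [smul_mul_assoc, h2]⟩

/-- the corner `e O e` -/
private def goodDCor (O : Subalgebra W A) (e : A) : Submodule W A :=
  Subalgebra.toSubmodule O ⊓ goodDFix W e

private theorem goodD_mem_cor {O : Subalgebra W A} {e x : A} :
    x ∈ goodDCor O e ↔ x ∈ O ∧ e * x = x ∧ x * e = x := Iff.rfl

private theorem goodD_fg_of_le [IsNoetherianRing W] {L M : Submodule W A} (h : L ≤ M)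
    (hM : M.FG) : L.FG := by
  have h0 : Module.Finite W M := Module.Finite.iff_fg.2 hM
  have h3 : IsNoetherian W M := isNoetherian_of_isNoetherianRing_of_finite W M
  have h1 : (L.comap M.subtype).FG := IsNoetherian.noetherian _
  have h2 := h1.map M.subtype
  rwa [Submodule.map_comap_subtype, inf_eq_right.2 h] at h2

variable {O : Subalgebra W A}

private theorem goodD_rad_cor (E : LocIdem p O) {x : A} (hx : x ∈ E.rad) :
    x ∈ goodDCor O E.e :=
  ⟨E.rad_mem x hx, E.rad_left x hx, E.rad_right x hx⟩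

private theorem goodD_e_cor (E : LocIdem p O) : E.e ∈ goodDCor O E.e :=
  ⟨E.mem, E.idem, E.idem⟩

private theorem goodD_mul_l (E : LocIdem p O) {x y : A} (hx : x ∈ goodDCor O E.e)
    (hy : y ∈ E.rad) : x * y ∈ E.rad := by
  have h := E.mul_left x hx.1 y hy
  rwa [hx.2.1] at h

private theorem goodD_mul_r (E : LocIdem p O) {x y : A} (hx : x ∈ goodDCor O E.e)
    (hy : y ∈ E.rad) : y * x ∈ E.rad := by
  have h := E.mul_right x hx.1 y hy
  rwa [mul_assoc, hx.2.2] at h

private theorem goodD_dec (E : LocIdem p O) {x : A} (hx : x ∈ goodDCor O E.e) :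
    ∃ w : W, x - w • E.e ∈ E.rad := by
  obtain ⟨w, hw⟩ := E.decomp x hx.1
  rw [hx.2.1, hx.2.2] at hw
  exact ⟨w, hw⟩

private theorem goodD_rad_pow (E : LocIdem p O) (j : ℕ) : E.rad ^ (j + 1) ≤ E.rad := by
  induction j with
  | zero => simp
  | succ j ih =>
    rw [pow_succ]
    refine Submodule.mul_le.2 fun x hx y hy => ?_
    exact goodD_mul_r E (goodD_rad_cor E hy) (ih hx)

private theorem goodD_nilp (E : LocIdem p O) :
    ∃ n : ℕ, ∀ x ∈ E.rad ^ (n + 1), ∃ y ∈ O, x = (p : W) • y := by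
  obtain ⟨n, hn⟩ := E.nilp
  refine ⟨n, fun x hx => ?_⟩
  rw [pow_succ] at hx
  refine Submodule.mul_induction_on hx ?_ ?_
  · intro a ha b hb
    obtain ⟨y, hy, rfl⟩ := hn a ha
    refine ⟨y * b, O.mul_mem hy (E.rad_mem b hb), ?_⟩
    rw [mul_assoc, goodD_cast (W := W)]
  · rintro a b ⟨y, hy, rfl⟩ ⟨z, hz, rfl⟩
    exact ⟨y + z, O.add_mem hy hz, by rw [smul_add]⟩

include F K in
/-- an element `x = w e + m` of the corner outside `rad` has `w` a unit -/
private theorem goodD_dec_unit (E : LocIdem p O) {x : A} (hx : x ∈ goodDCor O E.e)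
    (hxr : x ∉ E.rad) : ∃ w : Wˣ, x - (w : W) • E.e ∈ E.rad := by
  obtain ⟨w, hw⟩ := goodD_dec E hx
  have hwu : IsUnit w := by
    apply goodD_unit (p := p) (K := K) F
    rintro ⟨v, rfl⟩
    apply hxr
    have h1 : x = (x - ((p : W) * v) • E.e) + v • ((p : W) • E.e) := by
      rw [smul_smul, mul_comm v]; abel
    rw [h1]
    have h2 := E.p_mem
    rw [goodD_cast (W := W)] at h2
    exact E.rad.add_mem hw (E.rad.smul_mem _ h2)
  obtain ⟨w, rfl⟩ := hwu
  exact ⟨w, hw⟩

include K F in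
private theorem goodD_rinv (hfg : (Subalgebra.toSubmodule O).FG) (E : LocIdem p O) {x : A}
    (hx : x ∈ goodDCor O E.e) (hxr : x ∉ E.rad) : ∃ u ∈ goodDCor O E.e, x * u = E.e := by
  have hd : IsDiscreteValuationRing W := Base.dvr (p := p) (K := K) (F := F)
  obtain ⟨w, hw⟩ := goodD_dec_unit (K := K) F E hx hxr
  set m := x - (w : W) • E.e with hm
  have step : ∀ y, E.e * y = y → y = x * ((↑w⁻¹ : W) • y) - (↑w⁻¹ : W) • (m * y) := by
    intro y hy
    rw [mul_smul_comm, ← smul_sub, ← sub_mul, hm, sub_sub_cancel, smul_mul_assoc, hy, smul_smul,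
      Units.inv_mul, one_smul]
  let N : Submodule W A := (goodDCor O E.e).map (LinearMap.mulLeft W x)
  have h1 : ∀ j, goodDCor O E.e ≤ N ⊔ E.rad ^ (j + 1) := by
    intro j
    induction j with
    | zero =>
      intro y hy
      rw [step y hy.2.1, sub_eq_add_neg]
      refine Submodule.add_mem_sup ⟨_, (goodDCor O E.e).smul_mem _ hy, rfl⟩ ?_
      rw [zero_add, pow_one]
      exact E.rad.neg_mem (E.rad.smul_mem _ (goodD_mul_r E hy hw))
    | succ j ih =>
      refine ih.trans (sup_le le_sup_left ?_)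
      intro y hy
      have hyr := goodD_rad_pow E j hy
      have hyc := goodD_rad_cor E hyr
      rw [step y hyc.2.1, sub_eq_add_neg]
      refine Submodule.add_mem_sup ⟨_, (goodDCor O E.e).smul_mem _ hyc, rfl⟩ ?_
      refine Submodule.neg_mem _ (Submodule.smul_mem _ _ ?_)
      rw [pow_succ']
      exact Submodule.mul_mem_mul hw hy
  obtain ⟨n, hnil⟩ := goodD_nilp E
  have h2 : goodDCor O E.e ≤ N := by
    refine goodD_nak (p := p) (K := K) F (goodD_fg_of_le inf_le_left hfg) ?_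
    refine (h1 n).trans (sup_le_sup le_rfl ?_)
    intro y hy
    obtain ⟨t, ht, rfl⟩ := hnil y hy
    have hyr : (p : W) • t ∈ E.rad := goodD_rad_pow E n hy
    refine ⟨t, ⟨ht, ?_, ?_⟩, rfl⟩
    · apply goodD_inj (p := p) (W := W) (K := K) F
      rw [← mul_smul_comm]
      exact E.rad_left _ hyr
    · apply goodD_inj (p := p) (W := W) (K := K) F
      rw [← smul_mul_assoc]
      exact E.rad_right _ hyr
  obtain ⟨u, hu, hxu⟩ := h2 (goodD_e_cor E)
  exact ⟨u, hu, hxu⟩

include K F in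
private theorem goodD_inv (hfg : (Subalgebra.toSubmodule O).FG) (E : LocIdem p O) {x : A}
    (hx : x ∈ goodDCor O E.e) (hxr : x ∉ E.rad) :
    ∃ u ∈ goodDCor O E.e, x * u = E.e ∧ u * x = E.e := by
  obtain ⟨u, hu, hxu⟩ := goodD_rinv (K := K) F hfg E hx hxr
  have hur : u ∉ E.rad := by
    intro hur
    apply E.not_mem
    rw [← hxu]
    exact goodD_mul_l E hx hur
  obtain ⟨v, hv, huv⟩ := goodD_rinv (K := K) F hfg E hu hur
  refine ⟨u, hu, hxu, ?_⟩
  have h1 : x = v := by
    calc x = x * E.e := hx.2.2.symm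
      _ = x * (u * v) := by rw [huv]
      _ = (x * u) * v := by rw [mul_assoc]
      _ = v := by rw [hxu, hv.2.1]
  rw [h1]
  exact huv

variable {E : LocIdem p O} {f : A}

private theorem goodD_comm (hG : Good E f) {x : A} (hx : E.e * x = x) (hx' : x * E.e = x) :
    f * x = x * f := by
  have h := hG.central x
  rwa [hx, hx'] at h

private theorem goodD_ezf (hG : Good E f) (z : A) :
    f * (z * f) = f * (E.e * z * E.e) := by
  have h1 : f * (z * f) = f * (E.e * z * E.e) * f := by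
    calc f * (z * f) = (f * E.e) * (z * (E.e * f)) := by rw [hG.right, hG.left]
      _ = f * (E.e * z * E.e) * f := by simp only [mul_assoc]
  rw [h1, hG.central z, mul_assoc, hG.idem]

private theorem goodD_cor_of (hG : Good E f) {x : A} (h1 : f * x = x) (h2 : x * f = x) :
    E.e * x = x ∧ x * E.e = x :=
  ⟨by rw [← h1, ← mul_assoc, hG.left], by rw [← h2, mul_assoc, hG.right]⟩

/-- `x = f (e z e)` for elements of `fOf` -/
private theorem goodD_mem_fOf (hG : Good E f) {x : A} :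
    x ∈ fOf W O f ↔ ∃ z ∈ goodDCor O E.e, f * z = x := by
  rw [mem_fOf]
  constructor
  · rintro ⟨z, hz, rfl⟩
    refine ⟨E.e * z * E.e, ⟨O.mul_mem (O.mul_mem E.mem hz) E.mem, ?_, ?_⟩, ?_⟩
    · rw [← mul_assoc, ← mul_assoc, E.idem]
    · rw [mul_assoc, E.idem]
    · rw [goodD_ezf hG]
  · rintro ⟨z, hz, rfl⟩
    refine ⟨z, hz.1, ?_⟩
    rw [← goodD_comm hG hz.2.1 hz.2.2, ← mul_assoc, hG.idem]

private theorem goodD_ff (hG : Good E f) {a b : A} (ha : E.e * a = a) (ha' : a * E.e = a) :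
    (f * a) * (f * b) = f * (a * b) := by
  rw [goodD_comm hG ha ha', mul_assoc a, ← mul_assoc f f, hG.idem, ← mul_assoc a,
    ← goodD_comm hG ha ha', mul_assoc]

private theorem goodD_MF_pow (hG : Good E f) (j : ℕ) :
    (fRad E f) ^ (j + 1) ≤ (E.rad ^ (j + 1)).map (LinearMap.mulLeft W f) := by
  induction j with
  | zero => simp [fRad]
  | succ j ih =>
    rw [pow_succ]
    refine Submodule.mul_le.2 fun x hx y hy => ?_
    obtain ⟨a, ha, rfl⟩ := ih hx
    obtain ⟨b, hb, rfl⟩ := mem_fRad.1 hy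
    refine ⟨a * b, by rw [pow_succ]; exact Submodule.mul_mem_mul ha hb, ?_⟩
    change f * (a * b) = (f * a) * (f * b)
    have ha' := goodD_rad_cor E (goodD_rad_pow E j ha)
    rw [goodD_ff hG ha'.2.1 ha'.2.2]

variable {τ : A →ₗ[K] K}

private theorem goodD_tau_smul (w : W) (x : A) : τ (w • x) = w • τ x :=
  τ.map_smul_of_tower w x

/-- membership in `O` tested on `e` and `rad` -/
private theorem goodD_mem_O (H : SymOrder p O τ) (E : LocIdem p O) {x : A}
    (h1 : E.e * x = x) (h2 : x * E.e = x) (hτ : IsInt W (τ x))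
    (hr : ∀ y ∈ E.rad, IsInt W (τ (x * y))) : x ∈ O := by
  apply H.dual
  intro z hz
  obtain ⟨w, hw⟩ := E.decomp z hz
  have h3 : τ (x * z) = τ (x * (E.e * z * E.e)) := by
    calc τ (x * z) = τ (E.e * x * E.e * z) := by rw [h1, h2]
      _ = τ (E.e * (x * E.e * z)) := by simp only [mul_assoc]
      _ = τ ((x * E.e * z) * E.e) := H.comm _ _
      _ = τ (x * (E.e * z * E.e)) := by simp only [mul_assoc]
  have h4 : x * (E.e * z * E.e) = x * (E.e * z * E.e - w • E.e) + w • x := by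
    rw [mul_sub, mul_smul_comm, h2]
    abel
  rw [h3, h4, map_add, goodD_tau_smul]
  exact goodD_int_add (hr _ hw) (goodD_int_smul w hτ)

private theorem goodD_not_int (H : SymOrder p O τ) (hG : Good E f) : ¬ IsInt W (τ f) := by
  intro ht
  apply hG.not_mem
  refine goodD_mem_O H E hG.left hG.right ht ?_
  intro y hy
  exact H.int _ (hG.rad y hy)

private theorem goodD_pf (hG : Good E f) : (p : W) • f ∈ fRad E f := by
  refine ⟨_, E.p_mem, ?_⟩
  change f * ((p : A) * E.e) = _
  rw [goodD_cast (W := W), mul_smul_comm, hG.right]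

private theorem goodD_fRad_O (hG : Good E f) {x : A} (hx : x ∈ fRad E f) : x ∈ O := by
  obtain ⟨y, hy, rfl⟩ := hx
  exact hG.rad y hy

include F in
private theorem goodD_ptau (H : SymOrder p O τ) (hG : Good E f) :
    ∃ w : W, IsUnit w ∧ algebraMap W K w = (p : K) * τ f := by
  have hK := goodD_pK (p := p) (W := W) (K := K) F
  obtain ⟨w, hw⟩ := H.int _ (goodD_fRad_O hG (goodD_pf hG))
  rw [goodD_tau_smul, Algebra.smul_def, map_natCast] at hw
  refine ⟨w, ?_, hw⟩
  apply goodD_unit (p := p) (K := K) F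
  rintro ⟨v, rfl⟩
  apply goodD_not_int H hG
  refine ⟨v, ?_⟩
  rw [map_mul, map_natCast] at hw
  exact mul_left_cancel₀ hK hw

include K F in
private theorem goodD_inter (hG : Good E f) {x : A} (hx : x ∈ O) (h1 : f * x = x)
    (h2 : x * f = x) : x ∈ fRad E f := by
  obtain ⟨he1, he2⟩ := goodD_cor_of hG h1 h2
  by_contra hxm
  have hxr : x ∉ E.rad := fun h => hxm ⟨x, h, h1⟩
  obtain ⟨w, hw⟩ := goodD_dec_unit (K := K) F E ⟨hx, he1, he2⟩ hxr
  have h3 : (w : W) • f ∈ O := by
    have h4 : (w : W) • f = x - f * (x - (w : W) • E.e) := by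
      rw [mul_sub, mul_smul_comm, hG.right, h1]; abel
    rw [h4]
    exact O.sub_mem hx (hG.rad _ hw)
  apply hG.not_mem
  have h5 : f = (↑w⁻¹ : W) • ((w : W) • f) := by rw [smul_smul, Units.inv_mul, one_smul]
  rw [h5]
  exact O.smul_mem h3 _

end

section
variable {p : ℕ} {W K : Type} (F : Type) [CommRing W] [IsDomain W] [Field K] [Algebra W K]
  [IsFractionRing W K] [Field F] [Algebra W F] [Base p W K F]
  {A : Type} [Ring A] [Algebra K A] [Algebra W A] [IsScalarTower W K A] [FiniteDimensional K A]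
  {O : Subalgebra W A} {τ : A →ₗ[K] K} (H : SymOrder p O τ) {E : LocIdem p O} {f : A}

include F

include H in
/-- the trace form is nondegenerate -/
theorem SymOrder.nondeg (x : A) (hx : ∀ y : A, τ (x * y) = 0) : x = 0 := by
  have hd : IsDiscreteValuationRing W := Base.dvr (p := p) (K := K) (F := F)
  have hpK := goodD_pK (p := p) (W := W) (K := K) F
  have hmem : ∀ n : ℕ, ((p : K) ^ n)⁻¹ • x ∈ O := by
    intro n
    apply H.dual
    intro z _
    refine ⟨0, ?_⟩
    rw [smul_mul_assoc, map_smul, hx z, smul_zero, map_zero]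
  have hfin : Module.Finite W (Subalgebra.toSubmodule O) := Module.Finite.iff_fg.2 H.fg
  have hne : Ideal.span {(p : W)} ≠ ⊤ := by
    rw [Ne, Ideal.span_singleton_eq_top]
    exact goodD_not_unit (K := K) F
  have hKr := Ideal.iInf_pow_smul_eq_bot_of_isLocalRing
    (M := Subalgebra.toSubmodule O) (Ideal.span {(p : W)}) hne
  have hx0 : x ∈ Subalgebra.toSubmodule O := by
    have := hmem 0
    rw [pow_zero, inv_one, one_smul] at this
    exact this
  have h1 : (⟨x, hx0⟩ : Subalgebra.toSubmodule O) ∈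
      (⨅ i : ℕ, Ideal.span {(p : W)} ^ i • (⊤ : Submodule W (Subalgebra.toSubmodule O))) := by
    rw [Submodule.mem_iInf]
    intro n
    have h2 : (⟨x, hx0⟩ : Subalgebra.toSubmodule O)
        = (p : W) ^ n • ⟨((p : K) ^ n)⁻¹ • x, hmem n⟩ := by
      apply Subtype.ext
      change x = (p : W) ^ n • (((p : K) ^ n)⁻¹ • x)
      rw [← algebraMap_smul K ((p : W) ^ n), map_pow, map_natCast, smul_smul,
        mul_inv_cancel₀ (pow_ne_zero n hpK), one_smul]
    rw [h2]
    exact Submodule.smul_mem_smul (Ideal.pow_mem_pow (Ideal.mem_span_singleton_self _) n)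
      Submodule.mem_top
  rw [hKr, Submodule.mem_bot] at h1
  exact congrArg Subtype.val h1

/-- complement -/
theorem Good.compl (hG : Good E f) : Good E (E.e - f) := by
  constructor
  · rw [sub_mul, mul_sub, mul_sub, E.idem, hG.left, hG.right, hG.idem]; abel
  · rw [mul_sub, E.idem, hG.left]
  · rw [sub_mul, E.idem, hG.right]
  · intro x
    rw [sub_mul, mul_sub, hG.central x]
    congr 1
    rw [← mul_assoc, ← mul_assoc, E.idem, mul_assoc (E.e * x), E.idem]
  · intro h
    apply hG.not_mem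
    have h1 : f = E.e - (E.e - f) := by abel
    rw [h1]
    exact O.sub_mem E.mem h
  · intro x hx
    rw [sub_mul, E.rad_left x hx]
    exact O.sub_mem (E.rad_mem x hx) (hG.rad x hx)

/-- elements of `eOe` outside the radical are units of `eOe` -/
theorem LocIdem.unit (H : SymOrder p O τ) (E : LocIdem p O) {x : A} (hx : x ∈ O)
    (h1 : E.e * x = x) (h2 : x * E.e = x) (h3 : x ∉ E.rad) :
    ∃ u ∈ O, E.e * u = u ∧ u * E.e = u ∧ x * u = E.e ∧ u * x = E.e := by
  obtain ⟨u, hu, h4, h5⟩ := goodD_inv (K := K) F H.fg E ⟨hx, h1, h2⟩ h3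
  exact ⟨u, hu.1, hu.2.1, hu.2.2, h4, h5⟩

/-- idempotents of `eOe` are `0` and `e` -/
theorem LocIdem.idem_eq (H : SymOrder p O τ) (E : LocIdem p O) {x : A} (hx : x ∈ O)
    (h1 : E.e * x = x) (h2 : x * E.e = x) (h3 : x * x = x) : x = 0 ∨ x = E.e := by
  have key : ∀ y ∈ goodDCor O E.e, y * y = y → y ∉ E.rad → y = E.e := by
    intro y hy hyy hyr
    obtain ⟨u, hu, h4, h5⟩ := goodD_inv (K := K) F H.fg E hy hyr
    calc y = y * E.e := hy.2.2.symm
      _ = y * (y * u) := by rw [h4]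
      _ = (y * y) * u := by rw [mul_assoc]
      _ = E.e := by rw [hyy, h4]
  by_cases hxr : x ∈ E.rad
  · left
    have h4 : E.e - x ∉ E.rad := by
      intro h
      apply E.not_mem
      have h5 : E.e = (E.e - x) + x := by abel
      rw [h5]
      exact E.rad.add_mem h hxr
    have h6 : E.e - x ∈ goodDCor O E.e :=
      ⟨O.sub_mem E.mem hx, by rw [mul_sub, E.idem, h1], by rw [sub_mul, E.idem, h2]⟩
    have h7 := key (E.e - x) h6 (by
      rw [sub_mul, mul_sub, mul_sub, E.idem, h1, h2, h3]; abel) h4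
    exact sub_eq_self.1 h7
  · right
    exact key x ⟨hx, h1, h2⟩ h3 hxr

/-- `p τ(f)` is a unit of `W` -/
theorem Good.ptau (H : SymOrder p O τ) (hG : Good E f) :
    ∃ w : W, IsUnit w ∧ algebraMap W K w = (p : K) * τ f := by
  exact goodD_ptau F H hG

theorem Good.not_int (H : SymOrder p O τ) (hG : Good E f) : ¬ IsInt W (τ f) := by
  exact goodD_not_int H hG

/-- (a) -/
theorem Good.inter (H : SymOrder p O τ) (hG : Good E f) {x : A} (hx : x ∈ O) (h1 : f * x = x)
    (h2 : x * f = x) : x ∈ fRad E f := by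
  exact goodD_inter (K := K) F hG hx h1 h2

/-- (c) -/
theorem Good.dual (H : SymOrder p O τ) (hG : Good E f) {x : A} (h1 : f * x = x)
    (h2 : x * f = x) (h : ∀ m ∈ fRad E f, IsInt W (τ (x * m))) : x ∈ fOf W O f := by
  obtain ⟨he1, he2⟩ := goodD_cor_of hG h1 h2
  have hpK := goodD_pK (p := p) (W := W) (K := K) F
  obtain ⟨u, hu, hut⟩ := goodD_ptau F H hG
  obtain ⟨u, rfl⟩ := hu
  obtain ⟨v, hv⟩ : IsInt W ((p : K) * τ x) := by
    have h3 := h _ (goodD_pf hG)
    rwa [mul_smul_comm, h2, goodD_tau_smul, Algebra.smul_def, map_natCast] at h3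
  have hw : τ x = (v * (↑u⁻¹ : W)) • τ f := by
    apply mul_left_cancel₀ hpK
    rw [← hv, Algebra.smul_def, mul_left_comm, ← hut, map_mul, mul_assoc, ← map_mul,
      Units.inv_mul, map_one, mul_one]
  set w : W := v * (↑u⁻¹ : W) with hwdef
  have h3 : x - w • f ∈ O := by
    refine goodD_mem_O H E ?_ ?_ ?_ ?_
    · rw [mul_sub, mul_smul_comm, hG.left, he1]
    · rw [sub_mul, smul_mul_assoc, hG.right, he2]
    · rw [map_sub, goodD_tau_smul, hw, sub_self]
      exact ⟨0, map_zero _⟩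
    · intro y hy
      rw [sub_mul, smul_mul_assoc, map_sub, goodD_tau_smul]
      refine goodD_int_sub ?_ (goodD_int_smul w (H.int _ (hG.rad y hy)))
      have h4 := h (f * y) ⟨y, hy, rfl⟩
      rwa [← mul_assoc, h2] at h4
  have h5 : x = f * ((x - w • f + w • 1) * f) := by
    rw [add_mul, sub_mul, smul_mul_assoc, smul_mul_assoc, hG.idem, one_mul, sub_add_cancel, h2, h1]
  rw [mem_fOf]
  exact ⟨_, O.add_mem h3 (O.smul_mem O.one_mem w), h5.symm⟩

/-- the valuation ring of a good component -/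
theorem Good.dvr (H : SymOrder p O τ) (hG : Good E f) :
    ∃ (y x : A) (k : ℕ), DVRC p K f (fOf W O f) (fRad E f) y x k := by
  refine lemmaD F τ H.comm f (fOf W O f) (fRad E f) (H.fg.map _) hG.idem ?_ ?_ ?_ ?_ ?_ ?_ ?_ ?_
    ?_ ?_ ?_ ?_ ?_
  · rw [mem_fOf]
    exact ⟨1, O.one_mem, by rw [one_mul, hG.idem]⟩
  · intro x hx
    obtain ⟨z, hz, rfl⟩ := mem_fOf.1 hx
    constructor
    · rw [← mul_assoc, hG.idem]
    · rw [mul_assoc, mul_assoc, hG.idem]
  · intro x hx y hy
    rw [goodD_mem_fOf hG] at hx hy ⊢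
    obtain ⟨a, ha, rfl⟩ := hx
    obtain ⟨b, hb, rfl⟩ := hy
    refine ⟨a * b, ⟨O.mul_mem ha.1 hb.1, ?_, ?_⟩, (goodD_ff hG ha.2.1 ha.2.2).symm⟩
    · rw [← mul_assoc, ha.2.1]
    · rw [mul_assoc, hb.2.2]
  · intro x hx
    obtain ⟨m, hm, rfl⟩ := mem_fRad.1 hx
    rw [goodD_mem_fOf hG]
    exact ⟨m, goodD_rad_cor E hm, rfl⟩
  · intro x hx m hm
    rw [goodD_mem_fOf hG] at hx
    obtain ⟨a, ha, rfl⟩ := hx
    obtain ⟨b, hb, rfl⟩ := mem_fRad.1 hm
    exact ⟨a * b, goodD_mul_l E ha hb, (goodD_ff hG ha.2.1 ha.2.2).symm⟩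
  · intro x hx m hm
    rw [goodD_mem_fOf hG] at hx
    obtain ⟨a, ha, rfl⟩ := hx
    obtain ⟨b, hb, rfl⟩ := mem_fRad.1 hm
    have hb' := goodD_rad_cor E hb
    exact ⟨b * a, goodD_mul_r E ha hb, (goodD_ff hG hb'.2.1 hb'.2.2).symm⟩
  · intro x hx
    rw [goodD_mem_fOf hG] at hx
    obtain ⟨a, ha, rfl⟩ := hx
    obtain ⟨w, hw⟩ := goodD_dec E ha
    refine ⟨w, ⟨_, hw, ?_⟩⟩
    change f * (a - w • E.e) = f * a - w • f
    rw [mul_sub, mul_smul_comm, hG.right]
  · rw [goodD_cast (W := W)]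
    exact goodD_pf hG
  · intro h
    exact hG.not_mem (goodD_fRad_O hG h)
  · obtain ⟨n, hn⟩ := goodD_nilp E
    refine ⟨n + 1, fun x hx => ?_⟩
    obtain ⟨a, ha, rfl⟩ := goodD_MF_pow hG n hx
    obtain ⟨t, ht, rfl⟩ := hn a ha
    have hyr : (p : W) • t ∈ E.rad := goodD_rad_pow E n ha
    refine ⟨f * t, ?_, ?_⟩
    · rw [goodD_mem_fOf hG]
      refine ⟨t, ⟨ht, ?_, ?_⟩, rfl⟩
      · apply goodD_inj (p := p) (W := W) (K := K) F
        rw [← mul_smul_comm]
        exact E.rad_left _ hyr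
      · apply goodD_inj (p := p) (W := W) (K := K) F
        rw [← smul_mul_assoc]
        exact E.rad_right _ hyr
    · change f * ((p : W) • t) = _
      rw [mul_smul_comm, goodD_cast (W := W)]
  · intro x h1 h2
    obtain ⟨n, hn⟩ := H.span x
    refine ⟨n, ?_⟩
    rw [mem_fOf]
    refine ⟨_, hn, ?_⟩
    rw [mul_assoc, h2, ← mul_assoc, ((Nat.cast_commute p f).symm.pow_right n).eq, mul_assoc, h1]
  · intro x h1 h2 h
    exact Good.dual F H hG h1 h2 h
  · intro m hm
    exact H.int _ (goodD_fRad_O hG hm)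

end

end PDeg
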