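import Pool.Agent.Lib.MP_369ee2_lc_PD.OrdCF
import Pool.Agent.Lib.MP_369ee2_lc_PD.OrdP
import Pool.Agent.Lib.MP_369ee2_lc_PD.MAbs

/-!
# Section 7, abstract: `k_f * k ∣ dim_K A f`
-/

namespace PD

open Module

section linear

variable {F M : Type*} [Field F] [AddCommGroup M] [Module F M] [FiniteDimensional F M]

/-- two commuting Jordan structures -/
theorem mul_dvd_finrank (P Y Q R : M →ₗ[F] M) (n k : ℕ) (hP : P ^ n = 0)
    (hPk : ∀ m, P m = 0 → ∃ m', m = (P ^ (n - 1)) m') (hYP : ∀ m, Y (P m) = P (Y m))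
    (hQP : ∀ m, Q (P m) = P (Q m)) (hRP : ∀ m, R (P m) = P (R m)) (hk : Y ^ k = 0)
    (h : ∀ m, m = (Y ^ (k - 1)) (Q m) + R (Y m)) : n * k ∣ finrank F M := by
  rw [finrank_eq_mul_finrank_ker P n hP hPk]
  apply Nat.mul_dvd_mul_left
  have hst : ∀ (Z : M →ₗ[F] M), (∀ m, Z (P m) = P (Z m)) →
      ∀ m ∈ LinearMap.ker P, Z m ∈ LinearMap.ker P := by
    intro Z hZ m hm
    rw [LinearMap.mem_ker] at hm ⊢
    rw [← hZ, hm, map_zero]
  refine dvd_finrank_of_qr (Y.restrict (hst Y hYP)) (Q.restrict (hst Q hQP))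
    (R.restrict (hst R hRP)) k ?_ ?_
  · apply LinearMap.ext
    intro m
    apply Subtype.ext
    rw [Module.End.pow_restrict]
    simp [hk]
  · apply LinearMap.ext
    intro m
    apply Subtype.ext
    rw [LinearMap.add_apply, Module.End.mul_apply, Module.End.mul_apply, Module.End.pow_restrict]
    exact h m

end linear

section induced

variable {W F L M : Type*} [CommRing W] [Field F] [Algebra W F] [AddCommGroup L] [Module W L]
  [AddCommGroup M] [Module F M] [Module W M] [IsScalarTower W F M]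

/-- endomorphisms of the lattice induce endomorphisms of the reduction -/
theorem exists_induced (hWF : Function.Surjective (algebraMap W F)) (r : L →ₗ[W] M)
    (hr : Function.Surjective r) (g : L →ₗ[W] L) (hg : ∀ x, r x = 0 → r (g x) = 0) :
    ∃ G : M →ₗ[F] M, ∀ x, G (r x) = r (g x) := by
  have key : ∀ x x', r x = r x' → r (g x) = r (g x') := by
    intro x x' h
    have h1 : r (g (x - x')) = 0 := hg _ (by rw [map_sub, h, sub_self])
    rw [map_sub, map_sub, sub_eq_zero] at h1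
    exact h1
  choose s hs using hr
  refine ⟨{ toFun := fun m => r (g (s m)), map_add' := ?_, map_smul' := ?_ }, ?_⟩
  · intro m m'
    rw [← map_add, ← map_add]
    apply key
    rw [hs, map_add, hs, hs]
  · intro c m
    obtain ⟨w, rfl⟩ := hWF c
    rw [RingHom.id_apply, algebraMap_smul, algebraMap_smul, ← map_smul, ← map_smul]
    apply key
    rw [hs, map_smul, hs]
  · intro x
    exact key _ _ (hs _)

end induced

section lattice

open Pool.Agent.MP_369ee2_lc_PD

variable {W K F : Type*} [CommRing W] [IsDomain W] [IsPrincipalIdealRing W]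
  [Field K] [Algebra W K] [IsFractionRing W K] [Field F] [Algebra W F]
  {V : Type*} [AddCommGroup V] [Module K V] [Module W V] [IsScalarTower W K V]
  {M : Type*} [AddCommGroup M] [Module F M] [Module W M] [IsScalarTower W F M]

/-- section 7 for a lattice `L` in `V` with reduction `M` -/
theorem mul_dvd_finrank_lattice (hWF : Function.Surjective (algebraMap W F)) (ϖ : W)
    (hϖ1 : algebraMap W F ϖ = 0) (hϖ0 : ϖ ≠ 0)
    (L : Submodule W V) [Module.Finite W L] (hL : ∀ v : V, ∃ w : W, w ≠ 0 ∧ w • v ∈ L)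
    (r : L →ₗ[W] M) (hr : Function.Surjective r) (hk : ∀ x : L, r x = 0 → ∃ x' : L, x = ϖ • x')
    (P Y Q R : L →ₗ[W] L) (n k : ℕ) (hPn : ∀ x, ∃ x', (P ^ n) x = ϖ • x')
    (hPk : ∀ x x', P x = ϖ • x' → ∃ x'', x = (P ^ (n - 1)) x'')
    (hYP : ∀ x, Y (P x) = P (Y x)) (hQP : ∀ x, Q (P x) = P (Q x))
    (hRP : ∀ x, R (P x) = P (R x)) (hYk : ∀ x, ∃ x', (Y ^ k) x = ϖ • x')
    (h : ∀ x, ∃ x', x = (Y ^ (k - 1)) (Q x) + R (Y x) + ϖ • x') : n * k ∣ finrank K V := by
  have hMW : Module.Finite W M := Module.Finite.of_surjective r hr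
  have hMF : Module.Finite F M := Module.Finite.of_restrictScalars_finite W F M
  have hred : finrank F M = finrank K V := by
    have h3 := finrank_redSub hWF ϖ hϖ1 hϖ0 L hL r hk (⊤ : Submodule K V)
    have h4 : redSub hWF L r (⊤ : Submodule K V) = ⊤ := by
      rw [eq_top_iff]
      intro m _
      obtain ⟨x, hx⟩ := hr m
      exact ⟨x, Submodule.mem_top, hx⟩
    rw [h4, finrank_top, finrank_top] at h3
    exact h3
  have hϖM : ∀ x : L, r (ϖ • x) = 0 := by
    intro x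
    rw [map_smul, ← algebraMap_smul F ϖ, hϖ1, zero_smul]
  have hg : ∀ g : L →ₗ[W] L, ∀ x, r x = 0 → r (g x) = 0 := by
    intro g x hx
    obtain ⟨x', rfl⟩ := hk x hx
    rw [map_smul, hϖM]
  obtain ⟨P', hP'⟩ := exists_induced hWF r hr P (hg P)
  obtain ⟨Y', hY'⟩ := exists_induced hWF r hr Y (hg Y)
  obtain ⟨Q', hQ'⟩ := exists_induced hWF r hr Q (hg Q)
  obtain ⟨R', hR'⟩ := exists_induced hWF r hr R (hg R)
  have hpow : ∀ (g : L →ₗ[W] L) (G : M →ₗ[F] M), (∀ x, G (r x) = r (g x)) →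
      ∀ (j : ℕ) (x : L), (G ^ j) (r x) = r ((g ^ j) x) := by
    intro g G hG j
    induction j with
    | zero => intro x; simp
    | succ j ih =>
      intro x
      rw [pow_succ', pow_succ', Module.End.mul_apply, Module.End.mul_apply, ih, hG]
  rw [← hred]
  refine mul_dvd_finrank P' Y' Q' R' n k ?_ ?_ ?_ ?_ ?_ ?_ ?_
  · apply LinearMap.ext
    intro m
    obtain ⟨x, rfl⟩ := hr m
    obtain ⟨x', hx'⟩ := hPn x
    rw [hpow P P' hP', hx', hϖM, LinearMap.zero_apply]
  · intro m hm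
    obtain ⟨x, rfl⟩ := hr m
    rw [hP'] at hm
    obtain ⟨x', hx'⟩ := hk _ hm
    obtain ⟨x'', hx''⟩ := hPk x x' hx'
    exact ⟨r x'', by rw [hpow P P' hP', ← hx'']⟩
  · intro m
    obtain ⟨x, rfl⟩ := hr m
    rw [hP', hY', hY', hP', hYP]
  · intro m
    obtain ⟨x, rfl⟩ := hr m
    rw [hP', hQ', hQ', hP', hQP]
  · intro m
    obtain ⟨x, rfl⟩ := hr m
    rw [hP', hR', hR', hP', hRP]
  · apply LinearMap.ext
    intro m
    obtain ⟨x, rfl⟩ := hr m
    obtain ⟨x', hx'⟩ := hYk x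
    rw [hpow Y Y' hY', hx', hϖM, LinearMap.zero_apply]
  · intro m
    obtain ⟨x, rfl⟩ := hr m
    obtain ⟨x', hx'⟩ := h x
    have h5 := congrArg r hx'
    rw [map_add, map_add, hϖM, add_zero] at h5
    rw [hQ', hpow Y Y' hY', hY', hR']
    exact h5

/-- the same with the residue field of `W` -/
theorem mul_dvd_finrank_lattice' {W K V : Type*} [CommRing W] [IsDomain W]
    [IsDiscreteValuationRing W] [Field K] [Algebra W K] [IsFractionRing W K]
    [AddCommGroup V] [Module K V] [Module W V] [IsScalarTower W K V] {ϖ : W}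
    (hϖ : Irreducible ϖ)
    (L : Submodule W V) [Module.Finite W L] (hL : ∀ v : V, ∃ w : W, w ≠ 0 ∧ w • v ∈ L)
    (P Y Q R : L →ₗ[W] L) (n k : ℕ) (hPn : ∀ x, ∃ x', (P ^ n) x = ϖ • x')
    (hPk : ∀ x x', P x = ϖ • x' → ∃ x'', x = (P ^ (n - 1)) x'')
    (hYP : ∀ x, Y (P x) = P (Y x)) (hQP : ∀ x, Q (P x) = P (Q x))
    (hRP : ∀ x, R (P x) = P (R x)) (hYk : ∀ x, ∃ x', (Y ^ k) x = ϖ • x')
    (h : ∀ x, ∃ x', x = (Y ^ (k - 1)) (Q x) + R (Y x) + ϖ • x') : n * k ∣ finrank K V := by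
  let I : Ideal W := IsLocalRing.maximalIdeal W
  let _ : Field (W ⧸ I) := Ideal.Quotient.field I
  have hI : I = Ideal.span {ϖ} := hϖ.maximalIdeal_eq
  let r : L →ₗ[W] (↥L ⧸ (I • (⊤ : Submodule W L))) := Submodule.mkQ _
  have hr : Function.Surjective r := Submodule.mkQ_surjective _
  have hrk : ∀ t : L, r t = 0 → ∃ t' : L, t = ϖ • t' := by
    intro t ht
    have h1 : t ∈ (I • (⊤ : Submodule W L)) := (Submodule.Quotient.mk_eq_zero _).1 ht
    rw [hI, Submodule.ideal_span_singleton_smul] at h1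
    obtain ⟨t', _, ht'⟩ := h1
    exact ⟨t', ht'.symm⟩
  refine mul_dvd_finrank_lattice (F := W ⧸ I) Ideal.Quotient.mk_surjective ϖ ?_ hϖ.ne_zero
    L hL r hr hrk P Y Q R n k hPn hPk hYP hQP hRP hYk h
  change (Ideal.Quotient.mk I) ϖ = 0
  rw [Ideal.Quotient.eq_zero_iff_mem, hI]
  exact Ideal.mem_span_singleton_self _

end lattice

section frame

variable {W K A : Type*} [CommRing W] [IsDomain W] [IsDiscreteValuationRing W] [Field K]
  [Algebra W K] [IsFractionRing W K] [Ring A] [Algebra K A] [Algebra W A] [IsScalarTower W K A]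

/-- `A f` -/
def colK (K : Type*) {A : Type*} [Field K] [Ring A] [Algebra K A] (f : A) : Submodule K A where
  carrier := {x | x * f = x}
  add_mem' := by
    rintro a b h1 h2
    change (a + b) * f = a + b
    rw [add_mul, show a * f = a from h1, show b * f = b from h2]
  zero_mem' := zero_mul _
  smul_mem' := by
    rintro c x h1
    change (c • x) * f = c • x
    rw [smul_mul_assoc, show x * f = x from h1]

theorem mem_colK {f x : A} : x ∈ colK K f ↔ x * f = x := Iff.rfl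

variable {Fr : Frame W K A} {f y x : A} {O' m' : Submodule W A}

/-- **Section 7, abstract.**  `Y, Q, R ∈ O`, `1 = Y ^ (k - 1) Q + R Y` modulo `π` and
`Y ^ k T = π T` for `T ∈ A f`.  Then `[f A f : K] * k` divides `dim_K A f`. -/
theorem Gen.mul_dvd_finrank_colK [FiniteDimensional K A] (h : Gen Fr f O' m' y x)
    (hO : ∀ T ∈ Fr.O, T * f = T → ∀ v ∈ O', T * v ∈ Fr.O) (k : ℕ) {Y Q R : A}
    (hY : Y ∈ Fr.O) (hQ : Q ∈ Fr.O) (hR : R ∈ Fr.O)
    (hqr : ∃ E ∈ Fr.O, 1 = Y ^ (k - 1) * Q + R * Y + Fr.π • E)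
    (hYk : ∀ T, T * f = T → Y ^ k * T = Fr.π • T) :
    finrank K (cor K f) * k ∣ finrank K (colK K f) := by
  classical
  set n := finrank K (cor K f) with hn
  obtain ⟨hn0, u, hu, v, hv, huv, hvu, hram⟩ := h.ram
  rw [← hn] at hn0 hram
  have hπ0 : Fr.π ≠ 0 := Fr.irr.ne_zero
  have hff : f * f = f := h.idem
  have hyf : y * f = y := h.yf
  have hfy : f * y = y := h.fy
  have hy' : y ∈ O' := h.y_mem'
  -- the lattice
  let L : Submodule W (colK K f) := (Subalgebra.toSubmodule Fr.O).comap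
    ((colK K f).subtype.restrictScalars W)
  have hLmem : ∀ t : colK K f, t ∈ L ↔ (t : A) ∈ Fr.O := fun t => Iff.rfl
  let ι : L →ₗ[W] A := ((colK K f).subtype.restrictScalars W).comp L.subtype
  have hιinj : Function.Injective ι := by
    intro a b hab
    exact Subtype.ext (Subtype.ext hab)
  have hι : ∀ t : L, ι t ∈ Fr.O ∧ ι t * f = ι t := fun t => ⟨t.2, t.1.2⟩
  have hmk : ∀ a : A, a ∈ Fr.O → a * f = a → ∃ t : L, ι t = a :=
    fun a h1 h2 => ⟨⟨⟨a, h2⟩, h1⟩, rfl⟩
  have hfin : Module.Finite W L := by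
    have hN : IsNoetherian W ↥(Subalgebra.toSubmodule Fr.O) := by
      have : Module.Finite W ↥(Subalgebra.toSubmodule Fr.O) := Module.Finite.iff_fg.2 Fr.fg
      exact isNoetherian_of_isNoetherianRing_of_finite W _
    let ι' : L →ₗ[W] ↥(Subalgebra.toSubmodule Fr.O) :=
      LinearMap.codRestrict _ ι (fun t => t.2)
    have hι' : Function.Injective ι' := by
      intro a b hab
      exact hιinj (congrArg (Subtype.val : ↥(Subalgebra.toSubmodule Fr.O) → A) hab)
    exact Module.Finite.of_injective ι' hι'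
  have hfull : ∀ t : colK K f, ∃ w : W, w ≠ 0 ∧ w • t ∈ L := by
    intro t
    obtain ⟨c, hc, hc'⟩ := Fr.full (t : A)
    exact ⟨c, hc, hc'⟩
  -- left and right multiplications
  have hleft : ∀ a ∈ Fr.O, ∃ g : L →ₗ[W] L, ∀ t, ι (g t) = a * ι t := by
    intro a ha
    refine ⟨{ toFun := fun t => ⟨⟨a * ι t, ?_⟩, ?_⟩, map_add' := ?_, map_smul' := ?_ }, ?_⟩
    · change a * ι t * f = a * ι t
      rw [mul_assoc, (hι t).2]
    · exact Fr.O.mul_mem ha (hι t).1
    · intro s t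
      apply hιinj
      change a * ι (s + t) = a * ι s + a * ι t
      rw [map_add, mul_add]
    · intro c t
      apply hιinj
      change a * ι (c • t) = c • (a * ι t)
      rw [map_smul, mul_smul_comm]
    · intro t; rfl
  have hright : ∃ g : L →ₗ[W] L, ∀ t, ι (g t) = ι t * y := by
    refine ⟨{ toFun := fun t => ⟨⟨ι t * y, ?_⟩, ?_⟩, map_add' := ?_, map_smul' := ?_ }, ?_⟩
    · change ι t * y * f = ι t * y
      rw [mul_assoc, hyf]
    · exact hO _ (hι t).1 (hι t).2 _ hy'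
    · intro s t
      apply hιinj
      change ι (s + t) * y = ι s * y + ι t * y
      rw [map_add, add_mul]
    · intro c t
      apply hιinj
      change ι (c • t) * y = c • (ι t * y)
      rw [map_smul, smul_mul_assoc]
    · intro t; rfl
  obtain ⟨gY, hgY⟩ := hleft Y hY
  obtain ⟨gQ, hgQ⟩ := hleft Q hQ
  obtain ⟨gR, hgR⟩ := hleft R hR
  obtain ⟨gP, hgP⟩ := hright
  have hYpow : ∀ (j : ℕ) (t : L), ι ((gY ^ j) t) = Y ^ j * ι t := by
    intro j
    induction j with
    | zero => intro t; simp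
    | succ j ih =>
      intro t
      rw [pow_succ', Module.End.mul_apply, hgY, ih, pow_succ', mul_assoc]
  have hPpow : ∀ (j : ℕ) (t : L), ι ((gP ^ j) t) = ι t * y ^ j := by
    intro j
    induction j with
    | zero => intro t; simp
    | succ j ih =>
      intro t
      rw [pow_succ', Module.End.mul_apply, hgP, ih, pow_succ, mul_assoc]
  -- `y ^ n = π v`
  have hynu : ∀ j, 0 < j → f * y ^ j = y ^ j := by
    intro j hj
    obtain ⟨i, rfl⟩ : ∃ i, j = i + 1 := ⟨j - 1, by omega⟩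
    rw [pow_succ', ← mul_assoc, hfy]
  have hynf : ∀ j, 0 < j → y ^ j * f = y ^ j := by
    intro j hj
    obtain ⟨i, rfl⟩ : ∃ i, j = i + 1 := ⟨j - 1, by omega⟩
    rw [pow_succ, mul_assoc, hyf]
  have hyn : y ^ n = Fr.π • v := by
    calc y ^ n = y ^ n * f := (hynf n hn0).symm
      _ = y ^ n * (u * v) := by rw [huv]
      _ = (y ^ n * u) * v := by rw [mul_assoc]
      _ = (Fr.π • f) * v := by rw [← hram]
      _ = Fr.π • v := by rw [smul_mul_assoc, h.left v hv]
  refine mul_dvd_finrank_lattice' Fr.irr L hfull gP gY gQ gR n k ?_ ?_ ?_ ?_ ?_ ?_ ?_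
  · intro t
    obtain ⟨s, hs⟩ := hmk (ι t * v) (hO _ (hι t).1 (hι t).2 v hv) (by rw [mul_assoc, h.right v hv])
    refine ⟨s, hιinj ?_⟩
    rw [hPpow, hyn, map_smul, hs, mul_smul_comm]
  · intro t t' ht
    -- `t y = π t'` gives `t = t' u y ^ (n - 1)`
    obtain ⟨s, hs⟩ := hmk (ι t' * u) (hO _ (hι t').1 (hι t').2 u hu)
      (by rw [mul_assoc, h.right u hu])
    refine ⟨s, hιinj ?_⟩
    rw [hPpow, hs]
    have h1 : ι t * y = Fr.π • ι t' := by
      rw [← hgP, ht, map_smul]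
    have h2 : ι t = ι t * y * x := by
      rw [mul_assoc, h.yx, (hι t).2]
    have hcomm : y ^ n * u = u * y ^ n := by
      rw [hyn, smul_mul_assoc, mul_smul_comm, huv, hvu]
    rw [h2, h1]
    have h3 : Fr.π • ι t' = ι t' * (Fr.π • f) := by
      rw [mul_smul_comm, (hι t').2]
    rw [h3, hram, hcomm]
    obtain ⟨i, hi⟩ : ∃ i, n = i + 1 := ⟨n - 1, by omega⟩
    rw [hi, pow_succ, show i + 1 - 1 = i by omega]
    calc ι t' * (u * (y ^ i * y)) * x = ι t' * u * y ^ i * (y * x) := by noncomm_ring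
      _ = ι t' * u * y ^ i * f := by rw [h.yx]
      _ = ι t' * u * y ^ i := by
        cases i with
        | zero => rw [pow_zero, mul_one, mul_assoc, h.right u hu]
        | succ i => rw [mul_assoc, hynf (i + 1) (Nat.succ_pos i)]
  · intro t
    apply hιinj
    rw [hgY, hgP, hgP, hgY, mul_assoc]
  · intro t
    apply hιinj
    rw [hgQ, hgP, hgP, hgQ, mul_assoc]
  · intro t
    apply hιinj
    rw [hgR, hgP, hgP, hgR, mul_assoc]
  · intro t
    refine ⟨t, hιinj ?_⟩
    rw [hYpow, map_smul]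
    exact hYk _ (hι t).2
  · intro t
    obtain ⟨E, hE, hE'⟩ := hqr
    obtain ⟨gE, hgE⟩ := hleft E hE
    refine ⟨gE t, hιinj ?_⟩
    rw [map_add, map_add, map_smul, hYpow, hgQ, hgR, hgY, hgE]
    calc ι t = 1 * ι t := (one_mul _).symm
      _ = (Y ^ (k - 1) * Q + R * Y + Fr.π • E) * ι t := by rw [← hE']
      _ = Y ^ (k - 1) * (Q * ι t) + R * (Y * ι t) + Fr.π • (E * ι t) := by
        rw [add_mul, add_mul, smul_mul_assoc, mul_assoc, mul_assoc]

/-- Section 7 for a good pair. -/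
theorem Good.mul_dvd_finrank_colK [FiniteDimensional K A] {e : A} {r : Submodule W A}
    (h : Good Fr e r f) (k : ℕ) {Y Q R : A}
    (hY : Y ∈ Fr.O) (hQ : Q ∈ Fr.O) (hR : R ∈ Fr.O)
    (hqr : ∃ E ∈ Fr.O, 1 = Y ^ (k - 1) * Q + R * Y + Fr.π • E)
    (hYk : ∀ T, T * f = T → Y ^ k * T = Fr.π • T) :
    finrank K (cor K f) * k ∣ finrank K (colK K f) := by
  obtain ⟨y, x, hg⟩ := h.gen
  refine hg.mul_dvd_finrank_colK ?_ k hY hQ hR hqr hYk
  rintro T hT hTf v hv
  obtain ⟨a, ⟨ha, h1, h2⟩, rfl⟩ := Frame.mem_OF.1 hv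
  rw [← mul_assoc, hTf]
  exact Fr.O.mul_mem hT ha

end frame

end PD
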