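import Pool.Agent.Lib.MP_369ee2_lc_PD.Ord
import Pool.Agent.Lib.MP_369ee2_lc_PD.Ord7
import Pool.Agent.Lib.MP_369ee2_lc_PD.BrF

/-!
# Section 7: `dim P_K f = k_f * (k * h)`
-/

namespace PDeg

open scoped BigOperators Matrix Kronecker

section tA
variable {X R : Type} [Fintype X] [DecidableEq X] [CommRing R]

theorem tA_apply (a : X → Matrix X X R) (i j : X × X) :
    tA a i j = if i.1 = j.1 then a i.1 i.2 j.2 else 0 := rfl

theorem tA_one : tA (fun _ : X => (1 : Matrix X X R)) = 1 := by
  ext ⟨a, b⟩ ⟨c, d⟩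
  simp only [tA_apply, Matrix.one_apply, Prod.mk.injEq]
  by_cases h : a = c <;> by_cases h' : b = d <;> simp [h, h']

theorem tA_add (a b : X → Matrix X X R) : tA (fun x => a x + b x) = tA a + tA b := by
  ext i j
  rw [Matrix.add_apply, tA_apply, tA_apply, tA_apply]
  split_ifs
  · rfl
  · rw [add_zero]

theorem tA_sub (a b : X → Matrix X X R) : tA (fun x => a x - b x) = tA a - tA b := by
  ext i j
  rw [Matrix.sub_apply, tA_apply, tA_apply, tA_apply]
  split_ifs
  · rfl
  · rw [sub_zero]

theorem tA_smul (c : R) (a : X → Matrix X X R) : tA (fun x => c • a x) = c • tA a := by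
  ext i j
  rw [Matrix.smul_apply, tA_apply, tA_apply]
  split_ifs
  · rfl
  · rw [smul_zero]

theorem tA_mul (a b : X → Matrix X X R) : tA (fun x => a x * b x) = tA a * tA b := by
  ext i j
  rw [Matrix.mul_apply, Fintype.sum_prod_type, tA_apply]
  by_cases h : i.1 = j.1
  · rw [if_pos h, Finset.sum_eq_single i.1]
    · rw [Matrix.mul_apply]
      refine Finset.sum_congr rfl fun w _ => ?_
      rw [tA_apply, tA_apply, if_pos rfl, if_pos h]
    · intro c _ hc
      refine Finset.sum_eq_zero fun w _ => ?_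
      rw [tA_apply, if_neg (fun hh => hc hh.symm), zero_mul]
    · intro hh; exact absurd (Finset.mem_univ _) hh
  · rw [if_neg h]
    symm
    refine Finset.sum_eq_zero fun c _ => Finset.sum_eq_zero fun w _ => ?_
    rw [tA_apply, tA_apply]
    by_cases h1 : i.1 = c
    · rw [if_pos h1, if_neg (fun h2 => h (h1.trans h2)), mul_zero]
    · rw [if_neg h1, zero_mul]

theorem tA_pow (a : Matrix X X R) (n : ℕ) : tA (fun _ : X => a ^ n) = (tA fun _ : X => a) ^ n := by
  induction n with
  | zero => simp only [pow_zero]; exact tA_one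
  | succ n ih =>
    calc tA (fun _ : X => a ^ (n + 1)) = tA (fun _ : X => a ^ n * a) := by simp only [pow_succ]
      _ = tA (fun _ : X => a ^ n) * tA (fun _ : X => a) := tA_mul _ _
      _ = (tA fun _ : X => a) ^ (n + 1) := by rw [ih, pow_succ]

theorem tA_const (a : Matrix X X R) : tA (fun _ : X => a) = t2 a := by
  ext i j
  rw [tA_apply, t2_apply]

end tA

section
variable {X : Type} [Fintype X] [DecidableEq X] {C : Coh X}
  {p : ℕ} {W K F : Type} [CommRing W] [IsDomain W] [Field K] [Algebra W K]
  [IsFractionRing W K] [Field F] [Algebra W F]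

theorem AA_map {R S : Type} [CommRing R] [CommRing S] {a : X → Matrix X X R} (ha : a ∈ C.AA R)
    (φ : R → S) : (fun x => (a x).map φ) ∈ C.AA S :=
  fun s t hst => congrArg φ (ha s t hst)

theorem tA_map (a : X → Matrix X X W) :
    tA (fun x => (a x).map (algebraMap W K)) = (tA a).map (algebraMap W K) := by
  ext i j
  rw [Matrix.map_apply, tA_apply, tA_apply]
  split_ifs
  · rfl
  · rw [map_zero]

/-- `dim P_K f` is a multiple of `k_f * k` -/
theorem sec7_dvd (hB : Base p W K F) {k d : ℕ} {y : Matrix X X W} {z0 : W}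
    (hy : YData C p W K k d y z0) {q r : X → Matrix X X F} (hP : PData C F k y q r)
    (H : SymOrder p (PPO C W K) (tauP C K)) {E : LocIdem p (PPO C W K)} {f : ↥(C.PP K)}
    (hG : Good E f)
    (hJ : ∀ T : ↥(C.PP K), T * f = T → t2 (JJ X K) * (T : Matrix (X × X) (X × X) K) = 0) :
    Module.finrank K (crn K f f) * k ∣ Module.finrank K (crn K 1 f) := by
  classical
  have hdvr := hB.dvr
  have hp2 : p ≠ 2 := by
    intro h2
    have h3 := hy.kd
    have h4 := hy.k2
    rw [h2] at h3
    rcases Nat.eq_zero_or_pos d with h5 | h5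
    · rw [h5] at h3; simp at h3
    · have : 2 * 1 ≤ k * d := Nat.mul_le_mul h4 h5
      omega
  have hG' := (good_iff hB hp2 H).1 hG
  -- lifts
  choose s hs using hB.surj
  let q' : X → Matrix X X W := fun x => (q x).map s
  let r' : X → Matrix X X W := fun x => (r x).map s
  have hq' : q' ∈ C.AA W := AA_map hP.q_mem s
  have hr' : r' ∈ C.AA W := AA_map hP.r_mem s
  have hyA : (fun _ : X => y) ∈ C.AA W := by
    intro u t hst
    exact hy.mem _ _
      (C.reindex (n := 3) (k := 2) (by norm_num) (by norm_num) ![1, 2] _ _ hst)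
  have hq'q : ∀ x, (q' x).map (algebraMap W F) = q x := by
    intro x; ext i j; exact hs _
  have hr'r : ∀ x, (r' x).map (algebraMap W F) = r x := by
    intro x; ext i j; exact hs _
  let D : X → Matrix X X W := 1 - ((fun _ : X => y) ^ (k - 1) * q' + r' * (fun _ : X => y))
  have hD' : D ∈ C.AA W := by
    refine Subalgebra.sub_mem _ (Subalgebra.one_mem _) (Subalgebra.add_mem _
      (Subalgebra.mul_mem _ (Subalgebra.pow_mem _ hyA _) hq') (Subalgebra.mul_mem _ hr' hyA))
  have hDx : ∀ x, D x = 1 - (y ^ (k - 1) * q' x + r' x * y) := fun x => rfl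
  have hDdiv : ∀ x i j, (p : W) ∣ D x i j := by
    intro x i j
    rw [← hB.ker]
    have h1 : (D x).map (algebraMap W F) = 0 := by
      have h2 : (algebraMap W F).mapMatrix (D x) = 0 := by
        rw [hDx, map_sub, map_add, map_mul, map_mul, map_pow, map_one]
        have h3 := hP.eq x
        rw [← hq'q x, ← hr'r x] at h3
        exact sub_eq_zero.2 h3
      exact h2
    exact congrFun (congrFun h1 i) j
  choose e he using hDdiv
  let e' : X → Matrix X X W := fun x => Matrix.of (e x)
  have hp0 : (p : W) ≠ 0 := hB.p_ne_zero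
  have he' : e' ∈ C.AA W := by
    intro u t hst
    have h1 := hD' u t hst
    simp only at h1
    rw [he, he] at h1
    exact mul_left_cancel₀ hp0 h1
  have hDe : ∀ x, D x = (p : W) • e' x := by
    intro x; ext i j
    rw [he x i j]; rfl
  -- elements of `P_K`
  let mkP : (a : X → Matrix X X W) → a ∈ C.AA W → ↥(C.PP K) := fun a ha =>
    ⟨tA (fun x => (a x).map (algebraMap W K)), tA_mem C K (AA_map ha _)⟩
  have hmkP : ∀ a ha, mkP a ha ∈ PPO C W K := by
    intro a ha i j
    change IsInt W (tA (fun x => (a x).map (algebraMap W K)) i j)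
    rw [tA_map]
    exact IsInt.algebraMap _
  let Y := mkP (fun _ => y) hyA
  let Q := mkP q' hq'
  let R := mkP r' hr'
  let G := mkP e' he'
  have hYc : ((Y : ↥(C.PP K)) : Matrix (X × X) (X × X) K) = t2 (y.map (algebraMap W K)) :=
    tA_const _
  have hqr : ∃ E ∈ (frameOf (tauP C K) hB hp2 H).O,
      1 = Y ^ (k - 1) * Q + R * Y + (frameOf (tauP C K) hB hp2 H).π • E := by
    refine ⟨G, hmkP e' he', ?_⟩
    apply Subtype.ext
    change (1 : Matrix (X × X) (X × X) K) =
      (Y : Matrix (X × X) (X × X) K) ^ (k - 1) * (Q : Matrix (X × X) (X × X) K) +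
        (R : Matrix (X × X) (X × X) K) * (Y : Matrix (X × X) (X × X) K) +
        (p : W) • (G : Matrix (X × X) (X × X) K)
    have h1 : ∀ x, (1 : Matrix X X W) = y ^ (k - 1) * q' x + r' x * y + (p : W) • e' x := by
      intro x
      rw [← hDe, hDx]; abel
    have h2 : tA (fun _ : X => (1 : Matrix X X W)) =
        (tA fun _ : X => y) ^ (k - 1) * tA q' + tA r' * (tA fun _ : X => y) + (p : W) • tA e' := by
      rw [← tA_pow, ← tA_mul, ← tA_mul, ← tA_smul, ← tA_add, ← tA_add]
      congr 1
      funext x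
      exact h1 x
    rw [tA_one] at h2
    have h3 := congrArg (algebraMap W K).mapMatrix h2
    rw [map_one, map_add, map_add, map_mul, map_mul, map_pow] at h3
    rw [h3]
    have h4 : ∀ a : X → Matrix X X W, (algebraMap W K).mapMatrix (tA a) =
        tA (fun x => (a x).map (algebraMap W K)) := fun a => (tA_map a).symm
    have h5 : (algebraMap W K).mapMatrix ((p : W) • tA e') =
        (p : W) • (algebraMap W K).mapMatrix (tA e') := by
      ext i j
      change algebraMap W K (((p : W) • tA e') i j) = (p : W) • algebraMap W K (tA e' i j)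
      rw [Matrix.smul_apply, smul_eq_mul, map_mul, Algebra.smul_def]
    rw [h5, h4, h4, h4, h4]
  have hYk : ∀ T, T * f = T → Y ^ k * T = (frameOf (tauP C K) hB hp2 H).π • T := by
    intro T hT
    apply Subtype.ext
    change (Y : Matrix (X × X) (X × X) K) ^ k * (T : Matrix (X × X) (X × X) K) =
      (p : W) • (T : Matrix (X × X) (X × X) K)
    have h1 : (Y : Matrix (X × X) (X × X) K) ^ k =
        (p : Matrix (X × X) (X × X) K) - t2 (JJ X K) := by
      have h2 : (tA fun _ : X => y) ^ k = (p : Matrix (X × X) (X × X) W) - t2 (JJ X W) := by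
        rw [← tA_pow, hy.pow, ← tA_const, ← nsmul_one, ← nsmul_one]
        have : tA (fun _ : X => (p • (1 : Matrix X X W) - JJ X W)) =
            tA (fun _ : X => (p : W) • (1 : Matrix X X W)) - tA (fun _ : X => JJ X W) := by
          rw [← tA_sub]
          simp only [Nat.cast_smul_eq_nsmul]
        rw [this, tA_smul, tA_one, Nat.cast_smul_eq_nsmul]
      have h3 := congrArg (algebraMap W K).mapMatrix h2
      rw [map_pow, map_sub, map_natCast] at h3
      have h4 : (algebraMap W K).mapMatrix (tA fun _ : X => y) = (Y : Matrix (X × X) (X × X) K) :=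
        (tA_map _).symm
      rw [h4] at h3
      rw [h3]
      congr 1
      ext i j
      simp [t2_apply, JJ]
    rw [h1, sub_mul]
    have h2 : t2 (JJ X K) * (T : Matrix (X × X) (X × X) K) = 0 := hJ T hT
    rw [h2, sub_zero]
    ext i j
    rw [← nsmul_one, smul_mul_assoc, one_mul, Matrix.smul_apply, Matrix.smul_apply,
      nsmul_eq_mul, Algebra.smul_def, map_natCast]
  have hdvd := PD.Good.mul_dvd_finrank_colK hG' k (Y := Y) (Q := Q) (R := R)
    (hmkP _ hyA) (hmkP q' hq') (hmkP r' hr') hqr hYk
  have e1 : PD.cor K f = crn K f f := by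
    ext x; rfl
  have e2 : PD.colK K f = crn K 1 f := by
    ext x
    rw [PD.mem_colK, mem_crn, one_mul]
    exact ⟨fun h => ⟨rfl, h⟩, fun h => h.2⟩
  rw [e1, e2] at hdvd
  exact hdvd

theorem sec7_H (hB : Base p W K F) {k d : ℕ} {y : Matrix X X W} {z0 : W}
    (hy : YData C p W K k d y z0) {q r : X → Matrix X X F} (hP : PData C F k y q r)
    (H : SymOrder p (PPO C W K) (tauP C K)) {E : LocIdem p (PPO C W K)} {f z : ↥(C.PP K)}
    (hG : Good E f) (hzc : ∀ x, z * x = x * z) (hzf : z * f = f)
    (hj2 : t2 (JJ X K) * (z : Matrix (X × X) (X × X) K) = 0) {yf xf : ↥(C.PP K)} {kf : ℕ}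
    (hD : DVRC p K f (fOf W (PPO C W K) f) (fRad E f) yf xf kf) :
    ∃ h, Module.finrank K (crn K 1 f) = kf * (k * h) := by
  have hdvd := sec7_dvd hB hy hP H hG fun T hT => by
    have hzT : z * T = T := by
      calc z * T = z * (T * f) := by rw [hT]
        _ = (z * T) * f := by rw [mul_assoc]
        _ = T * (z * f) := by rw [hzc T, mul_assoc]
        _ = T := by rw [hzf, hT]
    have h3 : (T : Matrix (X × X) (X × X) K) = (z : Matrix (X × X) (X × X) K) * T := by
      rw [← Subalgebra.coe_mul, hzT]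
    rw [h3, ← Matrix.mul_assoc, hj2, Matrix.zero_mul]
  rw [hD.rank] at hdvd
  obtain ⟨h, hh⟩ := hdvd
  exact ⟨h, by rw [hh, mul_assoc]⟩

end

end PDeg
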