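import Pool.Agent.Lib.MP_369ee2_lc_PD.Alg
import Pool.Agent.Lib.MP_369ee2_lc_PD.BrV

/-!
# Central idempotents of idempotents (row A3)
-/

namespace PDeg

open scoped BigOperators

section
variable {K : Type} [Field K] {A : Type} [Ring A] [Algebra K A] [FiniteDimensional K A]
  {τ : A →ₗ[K] K}

/-- existence of the central idempotent generating `A f A` -/
theorem exists_vtx (hcomm : ∀ x y : A, τ (x * y) = τ (y * x))
    (hnd : ∀ x : A, (∀ y : A, τ (x * y) = 0) → x = 0)
    (hnil : ∀ x : A, IsNilpotent x → τ x = 0) (f : A) (hf : f * f = f) : ∃ z : A, Vtx z f := by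
  obtain ⟨z, hz⟩ := PD.exists_vertex_of_form τ hcomm hnd hnil f
  exact ⟨z, vtx_iff.2 hz⟩

end

section
variable {A : Type} [Ring A]

theorem Vtx.unique {z z' f : A} (h : Vtx z f) (h' : Vtx z' f) : z = z' :=
  (vtx_iff.1 h).unique (vtx_iff.1 h')

/-- minimality: two vertices are equal or orthogonal -/
theorem Vtx.eq_or_orth {z z' f f' : A} (h : Vtx z f) (h' : Vtx z' f') (hf : DivC f)
    (hf' : DivC f') : z = z' ∨ z * z' = 0 :=
  (vtx_iff.1 h).eq_or_mul_eq_zero (vtx_iff.1 h') hf.1 hf'.1 (divC_iff.1 hf).2 (divC_iff.1 hf').2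

/-- a central idempotent `f` of `e A e` is `z e` -/
theorem Vtx.corner {z e f : A} (h : Vtx z f) (he : e * e = e) (hef : e * f = f) (hfe : f * e = f)
    (hf : f * f = f) (hc : ∀ x : A, f * (e * x * e) = (e * x * e) * f) : z * e = f := by
  refine (vtx_iff.1 h).mul_corner hf he hef hfe fun x h1 h2 => ?_
  have := hc x
  rwa [h1, h2] at this

/-- the vertex only depends on the equivalence class -/
theorem Vtx.eqv {z f g : A} (h : Vtx z f) (hfg : Eqv f g) : Vtx z g :=
  vtx_iff.2 ((vtx_iff.1 h).of_equi (eqv_iff.1 hfg))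

theorem Eqv.symm {f g : A} (h : Eqv f g) : Eqv g f := eqv_iff.2 (eqv_iff.1 h).symm

end

end PDeg
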