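import Pool.Agent.Lib.MP_369ee2_lc_PD.BZ
import Pool.Agent.Lib.MP_369ee2_lc_PD.PReg
import Pool.Agent.Lib.MP_369ee2_lc_PD.GoodD
import Pool.Agent.Lib.MP_369ee2_lc_PD.LemmaT
import Pool.Agent.Lib.MP_369ee2_lc_PD.Jordan
import Pool.Agent.Lib.MP_369ee2_lc_PD.OrderSym
import Pool.Agent.Lib.MP_369ee2_lc_PD.VtxL
import Pool.Agent.Lib.MP_369ee2_lc_PD.BrF
import Pool.Agent.Lib.MP_369ee2_lc_PD.Sec7H

/-!
# `k_f = 1` (row S11, section 7)
-/

namespace PDeg

open scoped BigOperators Matrix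

section
variable {X : Type} [Fintype X] [DecidableEq X] {C : Coh X}
variable {p : ℕ} {W K F : Type}
  [CommRing W] [IsDomain W] [Field K] [Algebra W K] [IsFractionRing W K] [Field F] [Algebra W F]
variable {k d : ℕ} {y : Matrix X X W} {ζ0 : W} {ζ : W} {i0 : Fin k} {b : Fin k → ↥(C.PP K)}
  {q r : X → Matrix X X F}

/-- `dim P_K f` is a multiple of `k_f * k` -/
theorem dvd_dim (hB : Base p W K F) (Y : YData C p W K k d y ζ0) (P : PData C F k y q r)
    {E : LocIdem p (PPO C W K)} {f : ↥(C.PP K)} (hG : Good E f)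
    (h2 : ∀ T : ↥(C.PP K), jj2 C K * T * f = 0) :
    Module.finrank K (crn K f f) * k ∣ Module.finrank K (crn K 1 f) := by
  have := hB
  have H := pp_symOrder hB Y.card (C := C)
  obtain ⟨z, hz⟩ := exists_vtx (τ := tauP C K) H.comm (fun x hx => H.nondeg' hB x hx) H.nil f
    hG.idem
  have hj2 : t2 (JJ X K) * (z : Matrix (X × X) (X × X) K) = 0 := by
    obtain ⟨n, x, x', hsum⟩ := hz.span
    have h3 : jj2 C K * z = 0 := by
      rw [hsum, Finset.mul_sum]
      refine Finset.sum_eq_zero fun i _ => ?_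
      rw [← mul_assoc, ← mul_assoc, h2, zero_mul]
    exact congrArg Subtype.val h3
  obtain ⟨yf, xf, kf, hD⟩ := Good.dvr F H hG
  obtain ⟨h, hh⟩ := sec7_H hB Y P H hG hz.central hz.zf hj2 hD
  rw [hD.rank, hh, ← mul_assoc]
  exact dvd_mul_right _ _

theorem k_one (hB : Base p W K F) (Y : YData C p W K k d y ζ0) (P : PData C F k y q r)
    (B : BData C k y ζ0 ζ i0 b) {E : LocIdem p (PPO C W K)} {f : ↥(C.PP K)} (hG : Good E f)
    (h1 : ∀ T : ↥(C.PP K), jj1 C K * T * f = 0) (h2 : ∀ T : ↥(C.PP K), jj2 C K * T * f = 0)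
    (s : ℤ) (hs : s = 1 ∨ s = -1)
    (hdiff : ∀ i, i ≠ i0 → (Module.finrank K (crn K (b i0) f) : ℤ) -
      Module.finrank K (crn K (b i) f) = s * k) :
    Module.finrank K (crn K f f) = 1 ∧
      ∀ i, i ≠ i0 → (Module.finrank K (crn K 1 f) : ℤ) =
        k * (Module.finrank K (crn K (b i) f) + s) := by
  have := hB
  have H := pp_symOrder hB Y.card (C := C)
  obtain ⟨yf, xf, kf, hD⟩ := Good.dvr F H hG
  have hsum := BData.finrank_sum hB Y B f h1 h2
  have hk2 := Y.k2
  have hmain : ∀ i, i ≠ i0 → (Module.finrank K (crn K 1 f) : ℤ) =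
      k * (Module.finrank K (crn K (b i) f) + s) := by
    intro i hi
    have e1 : (Module.finrank K (crn K 1 f) : ℤ) =
        ∑ j, (Module.finrank K (crn K (b j) f) : ℤ) := by
      rw [hsum]; push_cast; rfl
    have e2 : ∑ j, (Module.finrank K (crn K (b j) f) : ℤ) =
        ∑ j : Fin k, ((Module.finrank K (crn K (b i) f) : ℤ) + if j = i0 then s * k else 0) := by
      refine Finset.sum_congr rfl fun j _ => ?_
      by_cases hj : j = i0
      · rw [if_pos hj, hj]
        linarith [hdiff i hi]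
      · rw [if_neg hj, add_zero]
        linarith [hdiff i hi, hdiff j hj]
    rw [e1, e2, Finset.sum_add_distrib, Finset.sum_const, Finset.card_univ, Fintype.card_fin,
      Finset.sum_ite_eq' Finset.univ i0, if_pos (Finset.mem_univ _), nsmul_eq_mul]
    ring
  refine ⟨?_, hmain⟩
  obtain ⟨i1, hi1⟩ : ∃ i1 : Fin k, i1 ≠ i0 := by
    have : Nontrivial (Fin k) := Fin.nontrivial_iff_two_le.2 hk2
    exact exists_ne i0
  obtain ⟨h, hh⟩ := dvd_dim hB Y P hG h2
  have hbb : b i1 * b i1 = b i1 := (B.isB i1).idem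
  obtain ⟨t, ht⟩ := finrank_dvd (K := K) hbb hD.div
  have h3 := hmain i1 hi1
  rw [hh, ht] at h3
  push_cast at h3
  have hk0 : (k : ℤ) ≠ 0 := by
    have : (0 : ℤ) < k := by exact_mod_cast (by omega : 0 < k)
    exact this.ne'
  have h4 : (Module.finrank K (crn K f f) : ℤ) * (h - t) = s := by
    have h5 : (k : ℤ) * ((Module.finrank K (crn K f f) : ℤ) * (h - t)) = k * s := by
      linear_combination h3
    exact mul_left_cancel₀ hk0 h5
  have h6 : (Module.finrank K (crn K f f) : ℤ) ∣ 1 := by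
    rcases hs with h' | h'
    · exact ⟨(h : ℤ) - t, by rw [h4, h']⟩
    · exact ⟨-((h : ℤ) - t), by rw [mul_neg, h4, h', neg_neg]⟩
  exact_mod_cast Int.eq_one_of_dvd_one (by positivity) h6

end

end PDeg
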