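import Pool.Agent.Lib.MP_369ee2_lc_PD.OrderSym
import Pool.Agent.Lib.MP_369ee2_lc_PD.LemmaT
import Pool.Agent.Lib.MP_369ee2_lc_PD.VtxL

/-!
# Degrees are odd (row S12, section 8)
-/

namespace PDeg

open scoped BigOperators Matrix

/-- the trace of an endomorphism killed by a monic integral polynomial is integral -/
private theorem par_trace {K V : Type} [Field K] [AddCommGroup V] [Module K V]
    [FiniteDimensional K V] (T : V →ₗ[K] V) (q : Polynomial ℤ) (hq : q.Monic)
    (h : Polynomial.aeval T (q.map (Int.castRingHom K)) = 0) :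
    IsIntegral ℤ (LinearMap.trace K V T) := by
  let b := Module.finBasis K V
  set A := LinearMap.toMatrix b b T with hA
  rw [LinearMap.trace_eq_matrix_trace K b]
  set K' := AlgebraicClosure K
  rw [← isIntegral_algebraMap_iff (R := ℤ) (B := K') (algebraMap K K').injective]
  have h1 : algebraMap K K' A.trace = (A.map (algebraMap K K')).trace :=
    (AddMonoidHom.map_trace (algebraMap K K').toAddMonoidHom A)
  rw [h1, Matrix.trace_eq_sum_roots_charpoly]
  refine IsIntegral.multiset_sum fun μ hμ => ?_
  have h2 : (A.map (algebraMap K K')).charpoly.IsRoot μ := (Polynomial.mem_roots'.1 hμ).2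
  -- the matrix is killed by the polynomial
  have h4 : Polynomial.aeval A (q.map (Int.castRingHom K)) = 0 := by
    have h5 : Polynomial.aeval (LinearMap.toMatrixAlgEquiv b T) (q.map (Int.castRingHom K)) =
        LinearMap.toMatrixAlgEquiv b (Polynomial.aeval T (q.map (Int.castRingHom K))) :=
      (Polynomial.aeval_algHom_apply (LinearMap.toMatrixAlgEquiv b).toAlgHom T _)
    rw [h, map_zero] at h5
    exact h5
  -- eigenvector
  have h6 : ((Matrix.toLin' (A.map (algebraMap K K'))).charpoly).IsRoot μ := by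
    rwa [Matrix.charpoly_toLin']
  rw [← Module.End.hasEigenvalue_iff_isRoot_charpoly] at h6
  obtain ⟨v, hv⟩ := h6.exists_hasEigenvector
  have h7 : Polynomial.aeval (A.map (algebraMap K K')) (q.map (Int.castRingHom K')) = 0 := by
    have h8 : Polynomial.aeval (A.map (algebraMap K K')) (q.map (Int.castRingHom K')) =
        (Polynomial.aeval A (q.map (Int.castRingHom K))).map (algebraMap K K') := by
      change _ = (algebraMap K K').mapMatrix (Polynomial.aeval A (q.map (Int.castRingHom K)))
      rw [Polynomial.aeval_def, Polynomial.aeval_def, Polynomial.eval₂_map,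
        Polynomial.eval₂_map, Polynomial.hom_eval₂]
      congr 1
      exact RingHom.ext_int _ _
    rw [h8, h4]
    ext i j
    simp
  have h8 : Polynomial.aeval (Matrix.toLin' (A.map (algebraMap K K')))
      (q.map (Int.castRingHom K')) = 0 := by
    have h9 := Polynomial.aeval_algHom_apply (Matrix.toLinAlgEquiv' (R := K')
      (n := Fin (Module.finrank K V))).toAlgHom (A.map (algebraMap K K'))
      (q.map (Int.castRingHom K'))
    rw [h7, map_zero] at h9
    exact h9
  have h9 := Module.End.aeval_apply_of_hasEigenvector (p := q.map (Int.castRingHom K')) hv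
  rw [h8, LinearMap.zero_apply] at h9
  have h10 : (q.map (Int.castRingHom K')).eval μ = 0 := by
    rcases smul_eq_zero.1 h9.symm with h | h
    · exact h
    · exact absurd h hv.2
  refine ⟨q, hq, ?_⟩
  rw [Polynomial.eval_map] at h10
  exact h10

/-- an eigenvalue of a matrix with integral entries is integral -/
private theorem par_eig {K S : Type} [Field K] [Fintype S] [DecidableEq S] (B z : Matrix S S K)
    (hB : ∀ i j, IsIntegral ℤ (B i j)) (hz : z ≠ 0) (c : K) (h : B * z = c • z) :
    IsIntegral ℤ c := by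
  have h1 : ∃ i j, z i j ≠ 0 := by
    by_contra hcon
    push Not at hcon
    exact hz (Matrix.ext hcon)
  obtain ⟨i, j, hij⟩ := h1
  have h2 : (Matrix.scalar S c - B).det = 0 := by
    rw [← Matrix.exists_mulVec_eq_zero_iff]
    refine ⟨fun k => z k j, fun h0 => hij (congrFun h0 i), ?_⟩
    have h3 : B *ᵥ (fun k => z k j) = c • (fun k => z k j) := by
      funext k
      have := congrFun (congrFun h k) j
      rw [Matrix.mul_apply, Matrix.smul_apply] at this
      exact this
    rw [Matrix.sub_mulVec, h3]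
    funext k
    simp [Matrix.scalar_apply]
  let O := integralClosure ℤ K
  let B' : Matrix S S O := Matrix.of fun i j => ⟨B i j, hB i j⟩
  have h3 : B'.map (algebraMap O K) = B := by
    ext i j
    rfl
  have h4 : IsIntegral O c := by
    refine ⟨B'.charpoly, B'.charpoly_monic, ?_⟩
    rw [← Polynomial.eval_map, ← Matrix.charpoly_map, h3, Matrix.eval_charpoly, h2]
  exact isIntegral_trans (A := O) c h4

private theorem par_dvd {K : Type} [Field K] [CharZero K] {M N : ℕ} (hM : M ≠ 0)
    (h : IsIntegral ℤ ((N : K) / (M : K))) : M ∣ N := by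
  have h1 : (N : K) / (M : K) = algebraMap ℚ K ((N : ℚ) / M) := by
    rw [map_div₀, map_natCast, map_natCast]
  rw [h1, isIntegral_algebraMap_iff (algebraMap ℚ K).injective] at h
  obtain ⟨y, hy⟩ := (IsIntegrallyClosed.isIntegral_iff (R := ℤ) (K := ℚ)).1 h
  have hM' : (M : ℚ) ≠ 0 := Nat.cast_ne_zero.2 hM
  rw [eq_div_iff hM'] at hy
  have h2 : (y * M : ℤ) = N := by
    have : ((y * M : ℤ) : ℚ) = ((N : ℤ) : ℚ) := by
      push_cast
      exact hy
    exact_mod_cast this
  exact Int.natCast_dvd_natCast.1 ⟨y, by rw [← h2, mul_comm]⟩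

section
variable {K A : Type} [Field K] [Ring A] [Algebra K A]

/-- left multiplication on `A f` -/
private def parL (f : A) : A →ₐ[K] Module.End K (crn K (1 : A) f) where
  toFun a := (LinearMap.mulLeft K a).restrict (fun v hv =>
    ⟨one_mul _, by rw [LinearMap.mulLeft_apply, mul_assoc, hv.2]⟩)
  map_one' := by
    ext v
    exact one_mul _
  map_mul' a b := by
    ext v
    exact mul_assoc _ _ _
  map_zero' := by
    ext v
    exact zero_mul _
  map_add' a b := by
    ext v
    exact add_mul _ _ _
  commutes' c := by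
    ext v
    exact (Algebra.smul_def _ _).symm

private theorem parL_apply (f a : A) (v : crn K (1 : A) f) :
    ((parL (K := K) f a v : crn K (1 : A) f) : A) = a * v.1 := rfl

private theorem par_char [FiniteDimensional K A] {t : A →ₗ[K] K}
    (hcomm : ∀ x y : A, t (x * y) = t (y * x)) {z f : A} (hV : Vtx z f) (hf : f * f = f)
    (hf0 : f ≠ 0) (h1 : Module.finrank K (crn K f f) = 1) (h0 : t f ≠ 0) (a : A) :
    t (z * a) = t f * LinearMap.trace K (crn K (1 : A) f) (parL f a) := by
  -- the coordinate of `f x f`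
  have hφ : ∀ x : A, f * x * f = ((t f)⁻¹ * t (x * f)) • f := by
    intro x
    have h2 := (finrank_eq_one_iff_of_nonzero' (⟨f, hf, hf⟩ : crn K f f)
      (fun h => hf0 (congrArg Subtype.val h))).1 h1
      ⟨f * x * f, by rw [← mul_assoc, ← mul_assoc, hf], by rw [mul_assoc, hf]⟩
    obtain ⟨c, hc⟩ := h2
    have hc' : c • f = f * x * f := congrArg Subtype.val hc
    have h3 : t (x * f) = c * t f := by
      have : t (f * x * f) = t (x * f) := by
        rw [mul_assoc, hcomm, mul_assoc, hf]
      rw [← this, ← hc', map_smul, smul_eq_mul]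
    rw [h3, ← hc', mul_comm c, inv_mul_cancel_left₀ h0]
  obtain ⟨n, x, y, hz⟩ := hV.span
  let g : Fin n → (crn K (1 : A) f →ₗ[K] K) := fun i =>
    ((t f)⁻¹ • t.comp (LinearMap.mulLeft K (y i * a))).comp (crn K (1 : A) f).subtype
  let w : Fin n → crn K (1 : A) f := fun i => ⟨x i * f, one_mul _, by rw [mul_assoc, hf]⟩
  have hL : parL f a = ∑ i, (g i).smulRight (w i) := by
    refine LinearMap.ext fun v => Subtype.ext ?_
    rw [parL_apply, LinearMap.sum_apply, Submodule.coe_sum]
    have hv : a * v.1 = z * (a * v.1) := by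
      have h3 : a * v.1 * f = a * v.1 := by rw [mul_assoc, v.2.2]
      calc a * v.1 = a * v.1 * (z * f) := by rw [hV.zf, h3]
        _ = (a * v.1 * z) * f := (mul_assoc _ _ _).symm
        _ = z * (a * v.1) * f := by rw [← hV.central]
        _ = z * (a * v.1) := by rw [mul_assoc, h3]
    rw [hv, hz, Finset.sum_mul]
    refine Finset.sum_congr rfl fun i _ => ?_
    have h3 : x i * f * y i * (a * v.1) = x i * (f * (y i * a * v.1) * f) := by
      conv_lhs => rw [← v.2.2]
      simp only [mul_assoc]
    rw [h3, hφ]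
    have h4 : y i * a * v.1 * f = y i * a * v.1 := by rw [mul_assoc, v.2.2]
    rw [h4, mul_smul_comm]
    rfl
  rw [hL, map_sum, Finset.mul_sum, hz, Finset.sum_mul, map_sum]
  refine Finset.sum_congr rfl fun i _ => ?_
  rw [LinearMap.trace_smulRight]
  change t (x i * f * y i * a) = t f * ((t f)⁻¹ * t (y i * a * (x i * f)))
  rw [mul_inv_cancel_left₀ h0, mul_assoc (x i * f), hcomm]

end

section
variable {X : Type} [Fintype X] [DecidableEq X] {C : Coh X} {K : Type} [Field K]

private theorem par_int (f a : ↥(C.PP K)) (D : Matrix (X × X) (X × X) ℤ)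
    (ha : (a : Matrix (X × X) (X × X) K) = D.map (Int.castRingHom K)) :
    IsIntegral ℤ (LinearMap.trace K (crn K (1 : ↥(C.PP K)) f) (parL f a)) := by
  refine par_trace (K := K) (V := crn K (1 : ↥(C.PP K)) f) (parL f a) D.charpoly
    D.charpoly_monic ?_
  rw [Polynomial.aeval_algHom_apply]
  have h1 : Polynomial.aeval a (D.charpoly.map (Int.castRingHom K)) = 0 := by
    apply Subtype.ext
    have h2 := Polynomial.aeval_algHom_apply (C.PP K).val a
      (D.charpoly.map (Int.castRingHom K))
    have h3 : (C.PP K).val a = D.map (Int.castRingHom K) := ha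
    rw [h3, ← Matrix.charpoly_map, Matrix.aeval_self_charpoly] at h2
    rw [Matrix.charpoly_map] at h2
    exact h2.symm
  rw [h1, map_zero]

private theorem par_entry (C : Coh X) (i j : X × X) : ∃ (D : Matrix (X × X) (X × X) ℤ)
    (a : ↥(C.PP K)), (a : Matrix (X × X) (X × X) K) = D.map (Int.castRingHom K) ∧
      ∀ x : ↥(C.PP K), Matrix.trace ((x : Matrix (X × X) (X × X) K) *
        (a : Matrix (X × X) (X × X) K)) =
        (Nat.card {t : Fin 4 → X // C.r 4 t ![i.1, i.2, j.1, j.2]} : K) *
          (x : Matrix (X × X) (X × X) K) i j := by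
  classical
  let D : Matrix (X × X) (X × X) ℤ := Matrix.of fun k l =>
    if C.r 4 ![l.1, l.2, k.1, k.2] ![i.1, i.2, j.1, j.2] then 1 else 0
  have hD : D.map (Int.castRingHom K) ∈ C.PP K := by
    intro t t' h
    have h1 := C.reindex (n := 4) (k := 4) (by norm_num) (by norm_num) ![2, 3, 0, 1] t t' h
    have h2 : ∀ s : Fin 4 → X, (fun i => s (![2, 3, 0, 1] i)) = ![s 2, s 3, s 0, s 1] := by
      intro s
      funext i
      fin_cases i <;> rfl
    rw [h2, h2] at h1
    have h4 : C.r 4 ![t 2, t 3, t 0, t 1] ![i.1, i.2, j.1, j.2] ↔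
        C.r 4 ![t' 2, t' 3, t' 0, t' 1] ![i.1, i.2, j.1, j.2] :=
      ⟨fun hh => (C.equiv 4 (by norm_num)).trans ((C.equiv 4 (by norm_num)).symm h1) hh,
        fun hh => (C.equiv 4 (by norm_num)).trans h1 hh⟩
    simp only [D, Matrix.map_apply, Matrix.of_apply, h4]
  refine ⟨D, ⟨_, hD⟩, rfl, fun x => ?_⟩
  have h1 : ∀ k l : X × X, (x : Matrix (X × X) (X × X) K) k l *
      (D.map (Int.castRingHom K)) l k =
      if C.r 4 ![k.1, k.2, l.1, l.2] ![i.1, i.2, j.1, j.2] then
        (x : Matrix (X × X) (X × X) K) i j else 0 := by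
    intro k l
    simp only [D, Matrix.map_apply, Matrix.of_apply]
    split_ifs with h
    · have h2 := x.2 _ _ h
      simp only [map_one, mul_one]
      exact h2
    · rw [map_zero, mul_zero]
  rw [Matrix.trace]
  simp only [Matrix.diag_apply, Matrix.mul_apply, h1]
  let e : (X × X) × (X × X) ≃ (Fin 4 → X) :=
    { toFun := fun q => ![q.1.1, q.1.2, q.2.1, q.2.2]
      invFun := fun t => ((t 0, t 1), (t 2, t 3))
      left_inv := fun q => rfl
      right_inv := fun t => by
        funext i
        fin_cases i <;> rfl }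
  rw [← Fintype.sum_prod_type' (f := fun k l : X × X =>
    if C.r 4 ![k.1, k.2, l.1, l.2] ![i.1, i.2, j.1, j.2] then
        (x : Matrix (X × X) (X × X) K) i j else 0)]
  have h2 := Fintype.sum_equiv e (fun q : (X × X) × (X × X) =>
    if C.r 4 ![q.1.1, q.1.2, q.2.1, q.2.2] ![i.1, i.2, j.1, j.2] then
        (x : Matrix (X × X) (X × X) K) i j else 0)
    (fun t => if C.r 4 t ![i.1, i.2, j.1, j.2] then
        (x : Matrix (X × X) (X × X) K) i j else 0) (fun q => rfl)
  refine h2.trans ?_
  rw [← Finset.sum_filter, Finset.sum_const, nsmul_eq_mul, Nat.card_eq_fintype_card,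
    Fintype.card_subtype]

end

section
variable {X : Type} [Fintype X] [DecidableEq X] {C : Coh X}
variable {p : ℕ} {W K F : Type}
  [CommRing W] [IsDomain W] [Field K] [Algebra W K] [IsFractionRing W K] [Field F] [Algebra W F]

theorem odd_deg (hB : Base p W K F) (hX : Fintype.card X = p) (hp2 : p ≠ 2) {f : ↥(C.PP K)}
    (hf : DivC f) (h1 : Module.finrank K (crn K f f) = 1) (M : ℕ)
    (hM : (p : K) * tauP C K f = M) : Odd M := by
  have : CharZero K := hB.charZero
  have hp : p.Prime := hB.prime
  have hp0 : (p : K) ≠ 0 := Nat.cast_ne_zero.2 hp.ne_zero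
  have hpo : Odd p := hp.odd_of_ne_two hp2
  have hS := pp_symOrder C hB hX
  -- the sizes of the classes
  let r : (X × X) × (X × X) → ℕ := fun q =>
    Nat.card {t : Fin 4 → X // C.r 4 t ![q.1.1, q.1.2, q.2.1, q.2.2]}
  have hr : ∀ q, Odd (r q) := by
    intro q
    obtain ⟨m, h2, h3, -⟩ := class_size C hp hX (n := 4) (by norm_num) (by norm_num)
      ![q.1.1, q.1.2, q.2.1, q.2.2]
    change Odd (Nat.card _)
    rw [h2]
    exact hpo.mul h3
  have hr0 : ∀ q, (r q : K) ≠ 0 := fun q => Nat.cast_ne_zero.2 (hr q).pos.ne'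
  let N : ℕ := ∏ q, r q
  have hN : Odd N := Finset.prod_induction r Odd (fun _ _ => Odd.mul) odd_one (fun q _ => hr q)
  -- the trace
  let t : ↥(C.PP K) →ₗ[K] K :=
    (Matrix.traceLinearMap (X × X) K K).comp (C.PP K).val.toLinearMap
  have ht : ∀ x, t x = Matrix.trace (x : Matrix (X × X) (X × X) K) := fun x => rfl
  have htau : ∀ x, t x = (p : K) * tauP C K x := by
    intro x
    rw [tauP_apply, hX, ← mul_assoc, mul_inv_cancel₀ hp0, one_mul, ht]
  have htf : t f = M := by rw [htau, hM]
  have hcomm : ∀ x y : ↥(C.PP K), t (x * y) = t (y * x) := by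
    intro x y
    rw [htau, htau, hS.comm]
  have hnd : ∀ x : ↥(C.PP K), (∀ y, tauP C K (x * y) = 0) → x = 0 := by
    intro x hx
    apply Subtype.ext
    ext i j
    obtain ⟨D, a, -, h3⟩ := par_entry (K := K) C i j
    have h4 := h3 x
    have h5 : Matrix.trace ((x : Matrix (X × X) (X × X) K) * (a : Matrix (X × X) (X × X) K)) =
        t (x * a) := rfl
    rw [h5, htau, hx, mul_zero] at h4
    exact (mul_eq_zero.1 h4.symm).resolve_left (hr0 (i, j))
  obtain ⟨z, hz⟩ := exists_vtx hS.comm hnd hS.nil f hf.1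
  have hz0 : z ≠ 0 := by
    rintro rfl
    apply hf.2.1
    rw [← hz.zf, zero_mul]
  have hM0 : M ≠ 0 := by
    rintro rfl
    rw [Nat.cast_zero] at htf
    apply hf.2.1
    apply hnd
    intro x
    have h2 := (finrank_eq_one_iff_of_nonzero' (⟨f, hf.1, hf.1⟩ : crn K f f)
      (fun h => hf.2.1 (congrArg Subtype.val h))).1 h1
      ⟨f * x * f, by rw [← mul_assoc, ← mul_assoc, hf.1], by rw [mul_assoc, hf.1]⟩
    obtain ⟨c, hc⟩ := h2
    have hc' : c • f = f * x * f := congrArg Subtype.val hc
    have h3 : t (f * x) = 0 := by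
      have : t (f * x * f) = t (f * x) := by
        rw [hcomm, ← mul_assoc, hf.1]
      rw [← this, ← hc', map_smul, htf, smul_zero]
    rw [htau] at h3
    exact (mul_eq_zero.1 h3).resolve_left hp0
  have hM' : (M : K) ≠ 0 := Nat.cast_ne_zero.2 hM0
  have h2 : IsIntegral ℤ ((N : K) / (M : K)) := by
    refine par_eig (((N : K) / (M : K)) • (z : Matrix (X × X) (X × X) K))
      (z : Matrix (X × X) (X × X) K) ?_ (fun h => hz0 (Subtype.ext h)) _ ?_
    · intro i j
      obtain ⟨D, a, ha, h3⟩ := par_entry (K := K) C i j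
      have h4 := h3 z
      have h5 := par_char hcomm hz hf.1 hf.2.1 h1 (by rw [htf]; exact hM') a
      have h6 : Matrix.trace ((z : Matrix (X × X) (X × X) K) *
        (a : Matrix (X × X) (X × X) K)) = t (z * a) := rfl
      rw [h6, h5, htf] at h4
      obtain ⟨N', hN'⟩ : r (i, j) ∣ N := Finset.dvd_prod_of_mem r (Finset.mem_univ (i, j))
      have h7 : (((N : K) / (M : K)) • (z : Matrix (X × X) (X × X) K)) i j =
          (N' : K) * LinearMap.trace K (crn K (1 : ↥(C.PP K)) f) (parL f a) := by
        rw [Matrix.smul_apply, smul_eq_mul, hN', Nat.cast_mul, div_mul_eq_mul_div,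
          div_eq_iff hM']
        change (r (i, j) : K) * N' * _ = _
        rw [mul_right_comm, ← h4]
        ring
      rw [h7]
      exact (isIntegral_natCast _).mul (par_int f a D ha)
    · rw [Matrix.smul_mul]
      congr 1
      exact congrArg Subtype.val hz.idem
  exact hN.of_dvd_nat (par_dvd hM0 h2)

end

end PDeg
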