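import Pool.Agent.Lib.MP_369ee2_lc_PD.OrderSym
import Pool.Agent.Lib.MP_369ee2_lc_PD.BZ

/-!
# Degree one (row S13, section 8)
-/

namespace PDeg

open scoped BigOperators Matrix

section
variable {X : Type} [Fintype X] [DecidableEq X] {C : Coh X}
variable {p : ℕ} {W K F : Type}
  [CommRing W] [IsDomain W] [Field K] [Algebra W K] [IsFractionRing W K] [Field F] [Algebra W F]

/-- equal classes are related -/
private theorem rel_of_mk {u v : Fin 2 → X} (h : Quot.mk (C.r 2) u = Quot.mk (C.r 2) v) :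
    C.r 2 u v :=
  ((C.equiv 2 (by norm_num)).eqvGen_iff).mp (Quot.eqvGen_exact h)

/-- a row of an element of `P_K` vanishes with the row of a related pair -/
private theorem row_zero (T : ↥(C.PP K)) {u v : Fin 2 → X} (h : C.r 2 u v)
    (hv : ∀ w, (T : Matrix (X × X) (X × X) K) (v 0, v 1) w = 0) (w : X × X) :
    (T : Matrix (X × X) (X × X) K) (u 0, u 1) w = 0 := by
  obtain ⟨a, b⟩ := w
  obtain ⟨σ, hσ⟩ := C.bij (n := 2) (by norm_num) h
  obtain ⟨σ', hσ'⟩ := C.bij (n := 3) (by norm_num) (hσ a)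
  have h1 := T.2 _ _ (hσ' b)
  have h2 : (T : Matrix (X × X) (X × X) K) (u 0, u 1) (a, b) =
      (T : Matrix (X × X) (X × X) K) (v 0, v 1) (σ a, σ' b) := h1
  rw [h2, hv]

/-- multiplication by the diagonal idempotent -/
private theorem dl_mul_apply (T : ↥(C.PP K)) (x w : X × X) (hx : x.1 = x.2) :
    ((dl C K * T : ↥(C.PP K)) : Matrix (X × X) (X × X) K) x w =
      (T : Matrix (X × X) (X × X) K) x w := by
  change ((tδ 1 : Matrix (X × X) (X × X) K) * (T : Matrix (X × X) (X × X) K)) x w = _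
  rw [Matrix.mul_apply, Finset.sum_eq_single x]
  · simp [tδ, hx]
  · intro z _ hz
    have h1 : (tδ 1 : Matrix (X × X) (X × X) K) x z = 0 := by
      simp only [tδ, Matrix.of_apply, Matrix.one_apply]
      split_ifs with h2 h3
      · exact absurd (Prod.ext h3.symm (by rw [← hx, ← h2.2]; exact h3.symm)) hz
      · rfl
      · rfl
    rw [h1, zero_mul]
  · intro h
    exact absurd (Finset.mem_univ x) h

theorem rank_one (hB : Base p W K F) {k d : ℕ} {y : Matrix X X W} {ζ0 : W}
    (Y : YData C p W K k d y ζ0) {f : ↥(C.PP K)} (hf : f * f = f)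
    (h1 : (p : K) * tauP C K f = 1) (hδ : ∀ x : ↥(C.PP K), dl C K * x * f = 0) :
    Module.finrank K (crn K 1 f) ≤ k := by
  classical
  have := hB.charZero
  have hp0 : (p : K) ≠ 0 := Nat.cast_ne_zero.mpr hB.prime.ne_zero
  obtain ⟨M, hM⟩ : ∃ M : Matrix (X × X) (X × X) K, M = (f : Matrix (X × X) (X × X) K) := ⟨_, rfl⟩
  have hMM : M * M = M := by
    rw [hM]
    exact congrArg Subtype.val hf
  have htr : Matrix.trace M = 1 := by
    rw [tauP_apply, Y.card, ← mul_assoc, mul_inv_cancel₀ hp0, one_mul, ← hM] at h1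
    exact h1
  let L : (X × X → K) →ₗ[K] (X × X → K) := Matrix.toLin' Mᵀ
  have hLL : IsIdempotentElem L := by
    change Matrix.toLin' Mᵀ * Matrix.toLin' Mᵀ = Matrix.toLin' Mᵀ
    rw [Module.End.mul_eq_comp, ← Matrix.toLin'_mul, ← Matrix.transpose_mul, hMM]
  have hrk : Module.finrank K (LinearMap.range L) = 1 := by
    have h2 := (LinearMap.IsIdempotentElem.isProj_range L hLL).trace
    have h3 : LinearMap.trace K (X × X → K) L = 1 := by
      change LinearMap.trace K (X × X → K) (Matrix.toLin' Mᵀ) = 1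
      rw [Matrix.trace_toLin'_eq, Matrix.trace_transpose, htr]
    rw [h3] at h2
    exact_mod_cast h2.symm
  have hpos : 0 < Fintype.card X := by
    rw [Y.card]
    exact hB.prime.pos
  obtain ⟨x0⟩ : Nonempty X := Fintype.card_pos_iff.mp hpos
  have hrow : ∀ (T : ↥(crn K 1 f)) (x : X × X),
      (fun w => ((T : ↥(C.PP K)) : Matrix (X × X) (X × X) K) x w) ∈ LinearMap.range L := by
    intro T x
    refine ⟨fun w => ((T : ↥(C.PP K)) : Matrix (X × X) (X × X) K) x w, ?_⟩
    have h2 : ((T : ↥(C.PP K)) : Matrix (X × X) (X × X) K) * M =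
        ((T : ↥(C.PP K)) : Matrix (X × X) (X × X) K) := by
      rw [hM]
      exact congrArg Subtype.val T.2.2
    funext w
    change (Matrix.toLin' Mᵀ) _ w = _
    rw [Matrix.toLin'_apply, Matrix.mulVec_transpose]
    exact congrFun (congrFun h2 x) w
  obtain ⟨δ0, hδ0⟩ : ∃ q : Quot (C.r 2), q = Quot.mk (C.r 2) ![x0, x0] := ⟨_, rfl⟩
  let t : {q : Quot (C.r 2) // q ≠ δ0} → X × X :=
    fun q => ((Quot.out q.1) 0, (Quot.out q.1) 1)
  let Φ : ↥(crn K 1 f) →ₗ[K] ({q : Quot (C.r 2) // q ≠ δ0} → ↥(LinearMap.range L)) :=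
    { toFun := fun T q => ⟨_, hrow T (t q)⟩
      map_add' := fun _ _ => rfl
      map_smul' := fun _ _ => rfl }
  have hΦ : Function.Injective Φ := by
    intro T1 T2 hT
    obtain ⟨T, hTd⟩ : ∃ T : ↥(crn K 1 f), T = T1 - T2 := ⟨_, rfl⟩
    have hT0 : ∀ (q : {q : Quot (C.r 2) // q ≠ δ0}) (w : X × X),
        ((T : ↥(C.PP K)) : Matrix (X × X) (X × X) K) (t q) w = 0 := by
      intro q w
      have h4 := congrFun (congrArg Subtype.val (congrFun hT q)) w
      rw [hTd]
      exact sub_eq_zero.mpr h4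
    have hz : T = 0 := by
      apply Subtype.ext
      apply Subtype.ext
      ext x w
      change ((T : ↥(C.PP K)) : Matrix (X × X) (X × X) K) x w = 0
      by_cases hx : x.1 = x.2
      · have h2 : dl C K * (T : ↥(C.PP K)) = 0 := by
          have h3 := hδ (T : ↥(C.PP K))
          rw [mul_assoc, T.2.2] at h3
          exact h3
        rw [← dl_mul_apply (T : ↥(C.PP K)) x w hx, h2]
        rfl
      · have hne : Quot.mk (C.r 2) ![x.1, x.2] ≠ δ0 := by
          intro h2
          rw [hδ0] at h2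
          have h3 := C.pattern (by norm_num) _ _
            ((C.equiv 2 (by norm_num)).symm (rel_of_mk h2)) 0 1 rfl
          exact hx h3
        have hr : C.r 2 ![x.1, x.2] (Quot.out (Quot.mk (C.r 2) ![x.1, x.2])) :=
          rel_of_mk (Quot.out_eq _).symm
        exact row_zero (T : ↥(C.PP K)) hr (fun w => hT0 ⟨_, hne⟩ w) w
    rw [hTd] at hz
    exact sub_eq_zero.mp hz
  have : Fintype (Quot (C.r 2)) := Fintype.ofFinite _
  have h5 := LinearMap.finrank_le_finrank_of_injective hΦ
  have h6 : Fintype.card {q : Quot (C.r 2) // q ≠ δ0} = Fintype.card (Quot (C.r 2)) - 1 :=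
    Set.card_ne_eq δ0
  rw [Module.finrank_pi_fintype, Finset.sum_const, hrk, Finset.card_univ, smul_eq_mul, mul_one,
    h6, ← Nat.card_eq_fintype_card, Y.rank2] at h5
  omega

end

end PDeg
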