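import Pool.Agent.Lib.MP_369ee2_lc_PD.Signs
import Pool.Agent.Lib.MP_369ee2_lc_PD.FactMP
import Pool.Agent.Lib.MP_369ee2_lc_PD.Delta
import Pool.Agent.Lib.MP_369ee2_lc_PD.KOne
import Pool.Agent.Lib.MP_369ee2_lc_PD.Parity
import Pool.Agent.Lib.MP_369ee2_lc_PD.RankOne
import Pool.Agent.Lib.MP_369ee2_lc_PD.CountArith

/-!
# The count (row S14b, section 9)
-/

namespace PDeg

open scoped BigOperators Matrix

section
variable {X : Type} [Fintype X] [DecidableEq X] {C : Coh X}
variable {p : ℕ} {W K F : Type}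
  [CommRing W] [IsDomain W] [Field K] [Algebra W K] [IsFractionRing W K] [Field F] [Algebra W F]
variable {k d : ℕ} {y : Matrix X X W} {ζ0 : W} {ζ : W} {i0 : Fin k} {b : Fin k → ↥(C.PP K)}
  {q r : X → Matrix X X F}

private theorem count_fr_pos {A : Type} [Ring A] [Algebra K A] [FiniteDimensional K A] {f : A}
    (hf : DivC f) : 0 < Module.finrank K (crn K f f) := by
  have h1 : (⟨f, hf.1, hf.1⟩ : crn K f f) ≠ 0 := fun h => hf.2.1 (congrArg Subtype.val h)
  have : Nontrivial (crn K f f) := ⟨⟨_, _, h1⟩⟩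
  exact Module.finrank_pos

theorem count_main (hB : Base p W K F) (hp2 : p ≠ 2) (Y : YData C p W K k d y ζ0)
    (P : PData C F k y q r) (B : BData C k y ζ0 ζ i0 b) (i : Fin k) :
    Module.finrank K (crn K (b i) (dl C K)) = k * d := by
  classical
  have := hB
  have : CharZero K := hB.charZero
  have hp : p.Prime := hB.prime
  have hp0 : (p : K) ≠ 0 := Nat.cast_ne_zero.2 hp.ne_zero
  have H : SymOrder p (PPO C W K) (tauP C K) := pp_symOrder C hB Y.card
  have hnd : ∀ x : ↥(C.PP K), (∀ y : ↥(C.PP K), tauP C K (x * y) = 0) → x = 0 := fun x hx =>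
    SymOrder.nondeg F H x hx
  obtain ⟨D, hDe, hG⟩ := delta_loc (C := C) hB Y.card
  have hM := ftr_tau (C := C) hB Y.card
  have hX := exc_tau (C := C) hB Y.card
  have hfi : ∀ e ∈ PPO C W K, e * e = e → ∀ i,
      Module.finrank K (crn K (b i) e) = Module.finrank K (crn K (b i0) e) := by
    intro e he hee i
    obtain ⟨κ, hκ⟩ := factM_idem hB Y P B e he hee
    rw [hκ, hκ]
  have hfd : ∀ i, i ≠ i0 → (Module.finrank K (crn K (b i0) (ftr C K)) : ℤ) -
      Module.finrank K (crn K (b i) (ftr C K)) = k := by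
    intro i hi
    rw [ftr_dim hB Y B i0, ftr_dim hB Y B i, if_pos rfl, if_neg hi]
    simp
  obtain ⟨eV, Z, heO, hee, hec, hDV, hZs, hZo, hZ, ⟨zt, hzt, hVt⟩, ⟨ze, hze, hVe⟩⟩ :=
    block F H hp2 (fun g hg => ⟨_, pp_nat C hB Y.card g hg⟩) b (fun i => (B.isB i).idem) i0 k hfi
      D (ftr C K) hG hM hfd
  rw [hDe] at hVe hDV
  -- the constant `c0`
  have hdO : dl C K ∈ PPO C W K := hDe ▸ D.mem
  have hdd : dl C K * dl C K = dl C K := dl_idem
  obtain ⟨c0, hc0⟩ := factM_idem hB Y P B (dl C K) hdO hdd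
  rw [hc0 i]
  congr 1
  -- a root different from `i0`
  obtain ⟨i1, hi1⟩ : ∃ i1 : Fin k, i1 ≠ i0 := by
    have : Nontrivial (Fin k) := Fin.nontrivial_iff_two_le.2 Y.k2
    exact exists_ne i0
  have hbb : b i1 * b i1 = b i1 := (B.isB i1).idem
  -- the two vertices of `δ`
  have hGl : dl C K * ftr C K = ftr C K := hDe ▸ hG.left
  have hGr : ftr C K * dl C K = ftr C K := hDe ▸ hG.right
  have hGc : Good D (D.e - ftr C K) := Good.compl F hG
  rw [hDe] at hGc
  have hdt : DivC (ftr C K) := by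
    obtain ⟨y, x, k, h⟩ := Good.dvr F H hG
    exact h.div
  have hde : DivC (dl C K - ftr C K) := by
    obtain ⟨y, x, k, h⟩ := Good.dvr F H hGc
    exact h.div
  have hzd : zt * dl C K = ftr C K := by
    have := Vtx.corner hVt D.idem hG.left hG.right hG.idem hG.central
    rwa [hDe] at this
  have hzed : ze * dl C K = dl C K - ftr C K := by
    have := Vtx.corner hVe D.idem hGc.left hGc.right hGc.idem hGc.central
    rwa [hDe] at this
  have hne : ze ≠ zt := by
    rintro rfl
    rw [hzd] at hzed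
    rw [← hzed, hM] at hX
    have h2 : (p : K) = (2 : ℕ) := by
      push_cast
      linear_combination -hX
    exact hp2 (by exact_mod_cast h2)
  -- the data of the vertices
  have : Nonempty (LocIdem p (PPO C W K)) := ⟨D⟩
  choose! f E s M hS using hZ
  set S : Finset ↥(C.PP K) := (Z.erase zt).erase ze with hSdef
  have hSZ : ∀ z ∈ S, z ∈ Z ∧ z ≠ zt ∧ z ≠ ze := by
    intro z hz
    rw [hSdef, Finset.mem_erase, Finset.mem_erase] at hz
    exact ⟨hz.2.2, hz.2.1, hz.1⟩
  have hzdl : ∀ z ∈ S, z * dl C K = 0 := by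
    intro z hz
    obtain ⟨h1, h2, h3⟩ := hSZ z hz
    have e1 : dl C K = zt * dl C K + ze * dl C K := by rw [hzd, hzed, add_sub_cancel]
    rw [e1, mul_add, ← mul_assoc, ← mul_assoc, hZo z h1 zt hzt h2, hZo z h1 ze hze h3, zero_mul,
      add_zero]
  have hdzf : ∀ z ∈ S, ∀ x : ↥(C.PP K), dl C K * x * f z = 0 := by
    intro z hz x
    obtain ⟨h1, -, -⟩ := hSZ z hz
    have hV := (hS z h1).vtx
    calc dl C K * x * f z = dl C K * x * (z * f z) := by rw [hV.zf]
      _ = (z * (dl C K * x)) * f z := by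
          rw [hV.central (dl C K * x), mul_assoc (dl C K * x)]
      _ = (z * dl C K) * x * f z := by simp only [mul_assoc]
      _ = 0 := by rw [hzdl z hz, zero_mul, zero_mul]
  obtain ⟨⟨s1, t1', hj1⟩, ⟨s2, t2', hj2⟩⟩ := jj_factor (C := C) (K := K)
  have hj1f : ∀ z ∈ S, ∀ T : ↥(C.PP K), jj1 C K * T * f z = 0 := by
    intro z hz T
    calc jj1 C K * T * f z = s1 * (dl C K * (t1' * T) * f z) := by
          rw [hj1]
          simp only [mul_assoc]
      _ = 0 := by rw [hdzf z hz, mul_zero]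
  have hj2f : ∀ z ∈ S, ∀ T : ↥(C.PP K), jj2 C K * T * f z = 0 := by
    intro z hz T
    calc jj2 C K * T * f z = s2 * (dl C K * (t2' * T) * f z) := by
          rw [hj2]
          simp only [mul_assoc]
      _ = 0 := by rw [hdzf z hz, mul_zero]
  have hk1 : ∀ z ∈ S, Module.finrank K (crn K (f z) (f z)) = 1 ∧
      ∀ i, i ≠ i0 → (Module.finrank K (crn K 1 (f z)) : ℤ) =
        k * (Module.finrank K (crn K (b i) (f z)) + s z) := by
    intro z hz
    obtain ⟨h1, -, -⟩ := hSZ z hz
    exact k_one hB Y P B (hS z h1).good (hj1f z hz) (hj2f z hz) (s z) (hS z h1).sign (hS z h1).diff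
  have hdiv : ∀ z ∈ S, DivC (f z) := by
    intro z hz
    obtain ⟨y, x, k, h⟩ := Good.dvr F H (hS z (hSZ z hz).1).good
    exact h.div
  -- the complement of the block
  have heD : (1 - eV) * (1 - eV) = 1 - eV := by
    rw [sub_mul, one_mul, mul_sub, mul_one, hee, sub_self, sub_zero]
  have heDc : ∀ x, (1 - eV) * x = x * (1 - eV) := by
    intro x
    rw [sub_mul, one_mul, mul_sub, mul_one, hec]
  have hdeD : dl C K * (1 - eV) = 0 := by rw [mul_sub, mul_one, hDV, sub_self]
  have hj1e : jj1 C K * (1 - eV) = 0 := by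
    rw [hj1, mul_assoc, ← heDc, ← mul_assoc, mul_assoc s1, hdeD, mul_zero, zero_mul]
  have hj2e : jj2 C K * (1 - eV) = 0 := by
    rw [hj2, mul_assoc, ← heDc, ← mul_assoc, mul_assoc s2, hdeD, mul_zero, zero_mul]
  obtain ⟨κ, hκ, hpκ⟩ := factM_central hB Y P B (1 - eV)
    ((PPO C W K).sub_mem (PPO C W K).one_mem heO) heD heDc hj1e hj2e
  -- the trace of `b`
  have htr : (p : K) * tauP C K (b i1) = (p : K) * tauP C K (b i1 * zt) +
      (p : K) * tauP C K (b i1 * ze) + ∑ z ∈ S, (p : K) * tauP C K (b i1 * z) +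
      (p : K) * tauP C K (b i1 * (1 - eV)) := by
    have e1 : b i1 = b i1 * zt + b i1 * ze + ∑ z ∈ S, b i1 * z + b i1 * (1 - eV) := by
      rw [← Finset.mul_sum, hSdef]
      have e2 : ze + ∑ z ∈ (Z.erase zt).erase ze, z = ∑ z ∈ Z.erase zt, z :=
        Finset.add_sum_erase _ (fun z => z) (Finset.mem_erase.2 ⟨hne, hze⟩)
      have e3 : zt + ∑ z ∈ Z.erase zt, z = ∑ z ∈ Z, z :=
        Finset.add_sum_erase _ (fun z => z) hzt
      rw [← mul_add, ← mul_add, ← mul_add, add_assoc zt, e2, e3, hZs, add_sub_cancel, mul_one]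
    conv_lhs => rw [e1]
    rw [map_add, map_add, map_add, map_sum, mul_add, mul_add, mul_add, Finset.mul_sum]
  -- trivial vertex
  have h_t : (p : K) * tauP C K (b i1 * zt) = 0 := by
    have h1 := lemmaT H.comm hnd hVt hdt hbb
    rw [ftr_dim hB Y B i1, if_neg hi1, Nat.cast_zero, mul_zero] at h1
    rcases mul_eq_zero.1 h1 with h2 | h2
    · exact absurd (Nat.cast_eq_zero.1 h2) (count_fr_pos hdt).ne'
    · rw [h2, mul_zero]
  -- exceptional vertex
  have hk0 : (k : K) ≠ 0 := Nat.cast_ne_zero.2 (by have := Y.k2; omega)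
  have hkd : (k : K) * d = (p : K) - 1 := by
    have h1 : k * d + 1 = p := by
      have := Y.kd
      have := hp.one_lt
      omega
    rw [← h1]
    push_cast
    ring
  have h_e : (p : K) * tauP C K (b i1 * ze) = (k : K) * d * c0 := by
    have h1 := lemmaT H.comm hnd hVe hde hbb
    have h2 : Module.finrank K (crn K (b i1) (dl C K)) =
        Module.finrank K (crn K (b i1) (ftr C K)) +
          Module.finrank K (crn K (b i1) (dl C K - ftr C K)) := by
      have e1 := finrank_crn_add (K := K) hG.idem hGc.idem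
        (by rw [mul_sub, hGr, hG.idem, sub_self]) (by rw [sub_mul, hGl, hG.idem, sub_self]) (b i1)
      rwa [add_sub_cancel] at e1
    rw [ftr_dim hB Y B i1, if_neg hi1, zero_add, hc0 i1] at h2
    rw [exc_dim hB Y, ← h2] at h1
    have h3 : (k : K) * ((p : K) * tauP C K (b i1 * ze)) = (k : K) * ((k : K) * d * c0) := by
      calc (k : K) * ((p : K) * tauP C K (b i1 * ze))
          = (p : K) * ((k : K) * tauP C K (b i1 * ze)) := by ring
        _ = (p : K) * (tauP C K (dl C K - ftr C K) * ((k * c0 : ℕ) : K)) := by rw [h1]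
        _ = ((p : K) * tauP C K (dl C K - ftr C K)) * ((k * c0 : ℕ) : K) := by ring
        _ = ((p : K) - 1) * ((k * c0 : ℕ) : K) := by rw [hX]
        _ = (k : K) * ((k : K) * d * c0) := by
          rw [← hkd]
          push_cast
          ring
    exact mul_left_cancel₀ hk0 h3
  -- the other vertices
  have h_z : ∀ z ∈ S, (p : K) * tauP C K (b i1 * z) =
      ((M z * Module.finrank K (crn K (b i1) (f z)) : ℕ) : K) := by
    intro z hz
    obtain ⟨h1, -, -⟩ := hSZ z hz
    have h2 := lemmaT H.comm hnd (hS z h1).vtx (hdiv z hz) hbb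
    rw [(hk1 z hz).1, Nat.cast_one, one_mul] at h2
    rw [h2, ← mul_assoc, (hS z h1).deg]
    push_cast
    ring
  -- the final equation
  have hfin : k * d ^ 2 = k * d * c0 +
      ∑ z ∈ S, M z * Module.finrank K (crn K (b i1) (f z)) + k * κ := by
    have h1 := htr
    rw [trace_b hB Y P B i1, h_t, h_e, hκ i1, Finset.sum_congr rfl h_z, zero_add] at h1
    exact_mod_cast h1
  refine count_arith S p k d c0 κ M (fun z => Module.finrank K (crn K (b i1) (f z))) s hp hp2
    Y.k2 Y.kd (fun z hz => (hS z (hSZ z hz).1).sign) (fun z hz => (hS z (hSZ z hz).1).degmod)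
    (fun z hz => ?_) (fun z hz hMz => ?_) hpκ hfin
  · exact odd_deg hB Y.card hp2 (hdiv z hz) (hk1 z hz).1 (M z) (hS z (hSZ z hz).1).deg
  · have hSz := hS z (hSZ z hz).1
    have hs1 : s z = 1 := by
      rcases hSz.sign with h1 | h1
      · exact h1
      · exfalso
        have h2 := hSz.degmod
        rw [hMz, h1] at h2
        have h3 : (p : ℤ) ∣ 2 := by
          have := (Int.modEq_iff_dvd.1 h2.symm)
          simpa using this
        have h4 : p ∣ 2 := by exact_mod_cast h3
        have h5 := Nat.le_of_dvd (by norm_num) h4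
        have h6 := hp.two_le
        omega
    have h1 : (p : K) * tauP C K (f z) = 1 := by rw [hSz.deg, hMz, Nat.cast_one]
    have h2 := rank_one hB Y hSz.good.idem h1 (hdzf z hz)
    have h3 := (hk1 z hz).2 i1 hi1
    rw [hs1] at h3
    have h4 : k * (Module.finrank K (crn K (b i1) (f z)) + 1) ≤ k * 1 := by
      have h5 : Module.finrank K (crn K 1 (f z)) =
          k * (Module.finrank K (crn K (b i1) (f z)) + 1) := by exact_mod_cast h3
      rw [← h5, mul_one]
      exact h2
    have h6 := Nat.le_of_mul_le_mul_left h4 (by have := Y.k2; omega)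
    show Module.finrank K (crn K (b i1) (f z)) = 0
    omega

end

end PDeg
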