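import Pool.Agent.Lib.MP_369ee2_lc_PD.GoodD

/-!
# Duality (row A5)
-/

namespace PDeg

open scoped BigOperators

section func

/-- a point outside a finitely generated `W`-submodule is separated by a functional -/
theorem exists_functional {W K : Type} [CommRing W] [IsDomain W] [IsDiscreteValuationRing W]
    [Field K] [Algebra W K] [IsFractionRing W K] {V : Type} [AddCommGroup V] [Module K V]
    [Module W V] [IsScalarTower W K V] [FiniteDimensional K V] (L : Submodule W V) (hL : L.FG)
    (x : V) (hx : x ∉ L) :
    ∃ φ : V →ₗ[K] K, (∀ l ∈ L, IsInt W (φ l)) ∧ ¬ IsInt W (φ x) := by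
  obtain ⟨π, hπ⟩ := IsDiscreteValuationRing.exists_irreducible W
  have : Module.Finite W L := Module.Finite.iff_fg.2 hL
  have : Module.IsTorsionFree W V := by
    have : FaithfulSMul W K := by infer_instance
    have := Module.IsTorsionFree.trans_faithfulSMul W K V
    infer_instance
  have : Module.IsTorsionFree W L := inferInstance
  have : Module.Free W L := inferInstance
  let b := Module.Free.chooseBasis W L
  let v : Module.Free.ChooseBasisIndex W L → V := fun i => (b i : V)
  have hli : LinearIndependent W v := by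
    have := b.linearIndependent
    exact this.map' L.subtype (Submodule.ker_subtype L)
  have hlK : LinearIndependent K v := (LinearIndependent.iff_fractionRing W K).1 hli
  have hsub : ∀ y ∈ L, ∃ c : Module.Free.ChooseBasisIndex W L → W, y = ∑ i, c i • v i := by
    intro y hy
    refine ⟨fun i => b.repr ⟨y, hy⟩ i, ?_⟩
    have := b.sum_repr ⟨y, hy⟩
    have h2 : ((∑ i, (b.repr ⟨y, hy⟩) i • b i : L) : V) = y := by rw [this]
    refine h2.symm.trans ?_
    rw [Submodule.coe_sum]
    rfl
  by_cases hxs : x ∈ Submodule.span K (Set.range v)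
  · have key : ∃ i, ¬ IsInt W (hlK.repr ⟨x, hxs⟩ i) := by
      by_contra hcon
      push Not at hcon
      apply hx
      choose c hc using hcon
      have h1 : x = ∑ i, hlK.repr ⟨x, hxs⟩ i • v i := by
        have := hlK.linearCombination_repr ⟨x, hxs⟩
        rw [Finsupp.linearCombination_apply, Finsupp.sum_fintype _ _ (by simp)] at this
        exact this.symm
      rw [h1]
      refine Submodule.sum_mem _ fun i _ => ?_
      rw [← hc i, algebraMap_smul]
      exact L.smul_mem _ (b i).2
    obtain ⟨i, hi⟩ := key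
    let ψ : Submodule.span K (Set.range v) →ₗ[K] K := (Finsupp.lapply i) ∘ₗ hlK.repr
    obtain ⟨φ, hφ⟩ := LinearMap.exists_extend ψ
    have hφx : ∀ (y : V) (hy : y ∈ Submodule.span K (Set.range v)), φ y = hlK.repr ⟨y, hy⟩ i := by
      intro y hy
      have := congrArg (fun g => g ⟨y, hy⟩) hφ
      simpa [ψ] using this
    refine ⟨φ, ?_, ?_⟩
    · intro y hy
      obtain ⟨c, hc⟩ := hsub y hy
      refine ⟨c i, ?_⟩
      have hv : ∀ j, φ (v j) = if j = i then 1 else 0 := by
        intro j
        have hj : v j ∈ Submodule.span K (Set.range v) := Submodule.subset_span ⟨j, rfl⟩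
        rw [hφx (v j) hj]
        have := hlK.repr_eq_single j ⟨v j, hj⟩ rfl
        rw [this, Finsupp.single_apply]
      rw [hc, map_sum]
      have : ∀ j, φ (c j • v j) = if j = i then algebraMap W K (c j) else 0 := by
        intro j
        rw [φ.map_smul_of_tower, hv j]
        split_ifs <;> simp [Algebra.smul_def]
      rw [Finset.sum_congr rfl (fun j _ => this j)]
      simp
    · rw [hφx x hxs]
      exact hi
  · obtain ⟨φ, h1, h2⟩ := Submodule.exists_le_ker_of_notMem hxs
    have hπK : algebraMap W K π ≠ 0 := by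
      intro h
      exact hπ.ne_zero ((IsFractionRing.injective W K) (by simpa using h))
    refine ⟨((algebraMap W K π)⁻¹ * (φ x)⁻¹) • φ, ?_, ?_⟩
    · intro y hy
      have : φ y = 0 := by
        obtain ⟨c, hc⟩ := hsub y hy
        have hy' : y ∈ Submodule.span K (Set.range v) := by
          rw [hc]
          refine Submodule.sum_mem _ fun i _ => ?_
          rw [← algebraMap_smul K (c i) (v i)]
          exact Submodule.smul_mem _ _ (Submodule.subset_span ⟨i, rfl⟩)
        exact h2 hy'
      refine ⟨0, ?_⟩
      simp [this]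
    · rintro ⟨w, hw⟩
      have h3 : algebraMap W K w = (algebraMap W K π)⁻¹ := by
        rw [hw]
        simp [h1]
      have h4 : algebraMap W K (w * π) = algebraMap W K 1 := by
        rw [map_mul, h3, inv_mul_cancel₀ hπK, map_one]
      have h5 := (IsFractionRing.injective W K) h4
      exact hπ.not_isUnit (IsUnit.of_mul_eq_one w (by rw [mul_comm]; exact h5))

end func

section
variable {p : ℕ} {W K : Type} (F : Type) [CommRing W] [IsDomain W] [Field K] [Algebra W K]
  [IsFractionRing W K] [Field F] [Algebra W F] [Base p W K F]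

include F

variable {A : Type} [Ring A] [Algebra K A] [Algebra W A] [IsScalarTower W K A]
  [FiniteDimensional K A] {O : Subalgebra W A} {τ : A →ₗ[K] K} (H : SymOrder p O τ)

include H

/-- functionals on `e A e'` are given by `e' A e` -/
theorem exists_rep {e e' : A} (he : e * e = e) (he' : e' * e' = e') (φ : A →ₗ[K] K) :
    ∃ ξ : A, e' * ξ = ξ ∧ ξ * e = ξ ∧ ∀ x : A, e * x = x → x * e' = x → φ x = τ (ξ * x) := by
  let T : A →ₗ[K] Module.Dual K A :=
    { toFun := fun ξ => τ ∘ₗ (LinearMap.mulLeft K ξ)
      map_add' := by intro a b; ext x; simp [add_mul]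
      map_smul' := by intro a b; ext x; simp }
  have hinj : Function.Injective T := by
    rw [← LinearMap.ker_eq_bot, LinearMap.ker_eq_bot']
    intro ξ h
    apply SymOrder.nondeg F H
    intro z
    have := congrArg (fun g => g z) h
    simpa [T] using this
  have hfr : Module.finrank K A = Module.finrank K (Module.Dual K A) :=
    (Subspace.dual_finrank_eq).symm
  have hsurj : Function.Surjective T :=
    (LinearMap.injective_iff_surjective_of_finrank_eq_finrank hfr).1 hinj
  obtain ⟨ξ, hξ⟩ := hsurj φ
  refine ⟨e' * ξ * e, ?_, ?_, fun x h1 h2 => ?_⟩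
  · rw [← mul_assoc, ← mul_assoc, he']
  · rw [mul_assoc, he]
  · have h3 : φ x = τ (ξ * x) := by
      rw [← hξ]
      simp [T]
    rw [h3, mul_assoc (e' * ξ), h1, mul_assoc, H.comm e', mul_assoc, h2]

theorem exists_dual {e e' : A} (he : e * e = e) (he' : e' * e' = e') (L : Submodule W A)
    (hL : L.FG) (hL' : ∀ x ∈ L, e * x = x ∧ x * e' = x) (x : A) (h1 : e * x = x)
    (h2 : x * e' = x) (hx : x ∉ L) :
    ∃ ξ : A, e' * ξ = ξ ∧ ξ * e = ξ ∧ (∀ l ∈ L, IsInt W (τ (ξ * l))) ∧
      ¬ IsInt W (τ (ξ * x)) := by
  have : IsDiscreteValuationRing W := Base.dvr (p := p) (K := K) (F := F)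
  obtain ⟨φ, hφ, hφx⟩ := exists_functional (K := K) L hL x hx
  obtain ⟨ξ, k1, k2, k3⟩ := exists_rep F H he he' φ
  refine ⟨ξ, k1, k2, fun l hl => ?_, ?_⟩
  · rw [← k3 l (hL' l hl).1 (hL' l hl).2]
    exact hφ l hl
  · rw [← k3 x h1 h2]
    exact hφx

end

end PDeg
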