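import Pool.Agent.Lib.MP_369ee2_lc_PD.GoodD

/-!
# Decomposition of 1 into local idempotents (row A7), Hensel for finite algebras (row B2)
-/

set_option linter.unusedSectionVars false

open Polynomial IsLocalRing TensorProduct

namespace PDeg

universe u

namespace G4

theorem isAdicComplete_of_finite {W : Type u} [CommRing W] [IsNoetherianRing W] (I : Ideal W)
    [IsAdicComplete I W] (C : Type u) [AddCommGroup C] [Module W C] [Module.Finite W C] :
    IsAdicComplete I C := by
  rw [← AdicCompletion.of_bijective_iff]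
  have h1 := AdicCompletion.ofTensorProduct_bijective_of_finite_of_isNoetherian I C
  let E : C ≃ₗ[W] (AdicCompletion I W) ⊗[W] C :=
    (TensorProduct.lid W C).symm.trans
      (TensorProduct.congr (AdicCompletion.ofLinearEquiv I W) (LinearEquiv.refl W C))
  have h2 : (AdicCompletion.of I C : C → AdicCompletion I C) =
      (AdicCompletion.ofTensorProduct I C) ∘ E := by
    funext x
    have h3 : AdicCompletion.of I W 1 = 1 := rfl
    simp [E, h3]
  rw [h2]
  exact h1.comp E.bijective

theorem lift_idem {W : Type u} [CommRing W] [IsNoetherianRing W] (I : Ideal W)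
    [IsAdicComplete I W] (C : Type u) [CommRing C] [Algebra W C] [Module.Finite W C]
    (x : C) (hx : x * x - x ∈ I.map (algebraMap W C)) :
    ∃ e : C, e * e = e ∧ e - x ∈ I.map (algebraMap W C) := by
  have h0 := isAdicComplete_of_finite I C
  have h1 : IsAdicComplete (I.map (algebraMap W C)) C :=
    (IsAdicComplete.map_algebraMap_iff I C).mpr h0
  set J := I.map (algebraMap W C) with hJ
  have h2 : HenselianRing C J := IsAdicComplete.henselianRing C J
  have hu : ((2 : C) * x - 1) * (2 * x - 1) - 1 ∈ J := by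
    have : ((2 : C) * x - 1) * (2 * x - 1) - 1 = 4 * (x * x - x) := by ring
    rw [this]
    exact J.mul_mem_left _ hx
  obtain ⟨a, ha1, ha2⟩ := h2.is_henselian (X ^ 2 - X : C[X]) (by
      nontriviality C
      have := monic_X_pow_sub (R := C) (n := 2) (p := X) (by rw [degree_X]; decide)
      simpa using this) x
    (by simpa [pow_two] using hx)
    (by
      have h3 : Ideal.Quotient.mk J (2 * x - 1) * Ideal.Quotient.mk J (2 * x - 1) = 1 := by
        rw [← map_mul, ← map_one (Ideal.Quotient.mk J), Ideal.Quotient.eq]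
        exact hu
      have h4 : eval x (derivative (X ^ 2 - X : C[X])) = 2 * x - 1 := by simp; ring
      rw [h4]
      exact IsUnit.of_mul_eq_one _ h3)
  refine ⟨a, ?_, ha2⟩
  have : a ^ 2 - a = 0 := by simpa [IsRoot] using ha1
  linear_combination this


theorem nilp_of_connected {F D : Type*} [Field F] [IsAlgClosed F] [CommRing D] [Algebra F D]
    (hconn : ∀ e : D, e * e = e → e = 0 ∨ e = 1) (y : D) (hy : IsIntegral F y) :
    ∃ (w : F) (n : ℕ), (y - algebraMap F D w) ^ n = 0 := by
  rcases subsingleton_or_nontrivial D with hD | hD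
  · exact ⟨0, 0, Subsingleton.elim _ _⟩
  have hq : minpoly F y ≠ 0 := minpoly.ne_zero hy
  obtain ⟨w, hw⟩ := IsAlgClosed.exists_root (minpoly F y) (minpoly.degree_pos hy).ne'
  obtain ⟨h, h1, h2⟩ := exists_eq_pow_rootMultiplicity_mul_and_not_dvd (minpoly F y) hq w
  set n := rootMultiplicity w (minpoly F y) with hn
  have hn1 : n ≠ 0 := by
    have := (rootMultiplicity_pos hq).mpr hw
    omega
  have hco : IsCoprime ((X - Polynomial.C w) ^ n) h :=
    IsCoprime.pow_left (((irreducible_X_sub_C w).coprime_iff_not_dvd).mpr h2)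
  obtain ⟨a, b, hab⟩ := hco
  have hqy : aeval y (minpoly F y) = 0 := minpoly.aeval F y
  have e1 : aeval y (b * h) * aeval y (b * h) = aeval y (b * h) := by
    have : b * h * (b * h) = b * h - a * b * ((X - Polynomial.C w) ^ n * h) := by
      linear_combination (b * h) * hab
    rw [← map_mul, this, ← h1, map_sub, map_mul _ (a * b), hqy, mul_zero, sub_zero]
  rcases hconn _ e1 with h0 | h0
  · exfalso
    have h3 : minpoly F y ∣ b * h := minpoly.dvd F y h0
    have h4 : (X - Polynomial.C w) ∣ b * h := by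
      refine dvd_trans ?_ h3
      rw [h1]
      exact Dvd.dvd.mul_right (dvd_pow_self _ hn1) _
    have h5 : (X - Polynomial.C w) ∣ (1 : F[X]) := by
      rw [← hab]
      exact dvd_add (Dvd.dvd.mul_left (dvd_pow_self _ hn1) _) h4
    exact (irreducible_X_sub_C w).not_isUnit (isUnit_of_dvd_one h5)
  · refine ⟨w, n, ?_⟩
    have h3 : (y - algebraMap F D w) ^ n = aeval y ((X - Polynomial.C w) ^ n) := by simp
    calc (y - algebraMap F D w) ^ n = aeval y ((X - Polynomial.C w) ^ n) * aeval y (b * h) := by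
          rw [h0, mul_one, h3]
      _ = aeval y (b * minpoly F y) := by
          rw [← map_mul]
          congr 1
          conv_rhs => rw [h1]
          ring
      _ = 0 := by rw [map_mul, hqy, mul_zero]

theorem scalar_nilp {W : Type u} [CommRing W] [IsNoetherianRing W] [IsLocalRing W]
    [IsAdicComplete (maximalIdeal W) W] [IsAlgClosed (ResidueField W)]
    (C : Type u) [CommRing C] [Algebra W C] [Module.Finite W C]
    (hconn : ∀ e : C, e * e = e → e = 0 ∨ e = 1) (x : C) :
    ∃ (w : W) (n : ℕ), (x - algebraMap W C w) ^ n ∈ (maximalIdeal W).map (algebraMap W C) := by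
  set J := (maximalIdeal W).map (algebraMap W C) with hJ
  let φ : ResidueField W →+* C ⧸ J := Ideal.Quotient.lift (maximalIdeal W)
    ((Ideal.Quotient.mk J).comp (algebraMap W C)) (by
      intro a ha
      rw [RingHom.comp_apply, Ideal.Quotient.eq_zero_iff_mem]
      exact Ideal.mem_map_of_mem _ ha)
  let _ : Algebra (ResidueField W) (C ⧸ J) := φ.toAlgebra
  have hφ : ∀ w : W, algebraMap (ResidueField W) (C ⧸ J) (residue W w) =
      Ideal.Quotient.mk J (algebraMap W C w) := by
    intro w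
    exact Ideal.Quotient.lift_mk _ _ _
  have hint : IsIntegral (ResidueField W) (Ideal.Quotient.mk J x) := by
    have h1 : IsIntegral W x := IsIntegral.of_finite W x
    obtain ⟨g, hg, hgx⟩ := h1
    refine ⟨g.map (residue W), hg.map _, ?_⟩
    rw [eval₂_map]
    have : (algebraMap (ResidueField W) (C ⧸ J)).comp (residue W) =
        (Ideal.Quotient.mk J).comp (algebraMap W C) := by
      ext w
      exact hφ w
    rw [this, ← hom_eval₂, hgx, map_zero]
  obtain ⟨w, n, hw⟩ := nilp_of_connected (F := ResidueField W) (D := C ⧸ J) (by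
    intro e he
    obtain ⟨c, rfl⟩ := Ideal.Quotient.mk_surjective e
    have h1 : c * c - c ∈ J := by
      rw [← Ideal.Quotient.eq_zero_iff_mem, map_sub, map_mul, he, sub_self]
    obtain ⟨ε, h2, h3⟩ := lift_idem (maximalIdeal W) C c h1
    have h4 : Ideal.Quotient.mk J ε = Ideal.Quotient.mk J c := by
      rw [Ideal.Quotient.eq]
      exact h3
    rw [← h4]
    rcases hconn ε h2 with h5 | h5
    · left; rw [h5, map_zero]
    · right; rw [h5, map_one]) _ hint
  obtain ⟨w', rfl⟩ := residue_surjective w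
  refine ⟨w', n, ?_⟩
  rw [← Ideal.Quotient.eq_zero_iff_mem, map_pow, map_sub, ← hφ]
  exact hw


/-- the ideal of polynomials killed by `f ↦ e f(x)` -/
def killIdeal (W : Type u) {A : Type*} [CommRing W] [Ring A] [Algebra W A] (e x : A) :
    Ideal W[X] where
  carrier := {f | e * aeval x f = 0}
  add_mem' := by
    intro f g hf hg
    change e * aeval x f = 0 at hf
    change e * aeval x g = 0 at hg
    change e * aeval x (f + g) = 0
    rw [map_add, mul_add, hf, hg, add_zero]
  zero_mem' := by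
    change e * aeval x 0 = 0
    simp
  smul_mem' := by
    intro c f hf
    change e * aeval x f = 0 at hf
    change e * aeval x (c • f) = 0
    rw [smul_eq_mul, mul_comm, map_mul, ← mul_assoc, hf, zero_mul]

theorem mem_killIdeal {W : Type u} {A : Type*} [CommRing W] [Ring A] [Algebra W A] {e x : A}
    {f : W[X]} : f ∈ killIdeal W e x ↔ e * aeval x f = 0 := Iff.rfl

/-- an order and a uniformizer -/
structure OD (W A : Type*) [CommRing W] [Ring A] [Algebra W A] where
  π : W
  irr : Irreducible π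
  O : Subalgebra W A
  fg : (Subalgebra.toSubmodule O).FG

variable {W : Type u} {A : Type*} [CommRing W] [IsDomain W] [IsDiscreteValuationRing W]
  [Ring A] [Algebra W A]

/-- a nonzero idempotent of `O` without proper idempotents below -/
structure Prim (Fr : OD W A) (e : A) : Prop where
  mem : e ∈ Fr.O
  idem : e * e = e
  ne : e ≠ 0
  prim : ∀ g ∈ Fr.O, g * g = g → e * g = g → g * e = g → g = 0 ∨ g = e

theorem finite_O (Fr : OD W A) : Module.Finite W Fr.O :=
  Module.Finite.iff_fg.mpr Fr.fg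

theorem scalar_corner (Fr : OD W A) [IsAdicComplete (maximalIdeal W) W]
    [IsAlgClosed (ResidueField W)] {e : A} (he : Prim Fr e) {x : A} (hx : x ∈ Fr.O)
    (h1 : e * x = x) (h2 : x * e = x) :
    ∃ (w : W) (n : ℕ), ∃ y ∈ Fr.O, (x - w • e) ^ (n + 1) = Fr.π • y := by
  set J := killIdeal W e x with hJ
  have hce : Commute e x := by rw [commute_iff_eq, h1, h2]
  have hcomm : ∀ f : W[X], e * aeval x f = aeval x f * e := by
    intro f
    induction f using Polynomial.induction_on' with
    | add p q hp hq => rw [map_add, mul_add, add_mul, hp, hq]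
    | monomial n a =>
      rw [aeval_monomial]
      exact ((Algebra.commute_algebraMap_right a e).mul_right (hce.pow_right n)).eq
  have hO : ∀ f : W[X], aeval x f ∈ Fr.O := by
    intro f
    exact (Algebra.adjoin_le (Set.singleton_subset_iff.mpr hx)) (aeval_mem_adjoin_singleton W x)
  have hfin : Module.Finite W (W[X] ⧸ J) := by
    have hint : IsIntegral W x := by
      have h3 := finite_O Fr
      have h4 : IsIntegral W (⟨x, hx⟩ : Fr.O) := IsIntegral.of_finite W _
      exact h4.map Fr.O.val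
    obtain ⟨g, hg, hgx⟩ := hint
    have h5 : Ideal.span {g} ≤ J := by
      rw [Ideal.span_singleton_le_iff_mem, hJ, mem_killIdeal]
      rw [← aeval_def] at hgx
      rw [hgx, mul_zero]
    have h6 : Module.Finite W (W[X] ⧸ Ideal.span {g}) := hg.finite_quotient
    exact Module.Finite.of_surjective (Ideal.Quotient.factorₐ W h5).toLinearMap
      (Ideal.Quotient.factor_surjective h5)
  have hconn : ∀ ε : W[X] ⧸ J, ε * ε = ε → ε = 0 ∨ ε = 1 := by
    intro ε hε
    obtain ⟨f, rfl⟩ := Ideal.Quotient.mk_surjective ε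
    rw [← map_mul, Ideal.Quotient.eq, mem_killIdeal, map_sub, map_mul, mul_sub, sub_eq_zero]
      at hε
    have h3 : e * aeval x f * (e * aeval x f) = e * aeval x f := by
      calc e * aeval x f * (e * aeval x f) = e * (aeval x f * e) * aeval x f := by
            simp only [mul_assoc]
        _ = (e * e) * (aeval x f * aeval x f) := by rw [← hcomm]; simp only [mul_assoc]
        _ = _ := by rw [he.idem, hε]
    rcases he.prim (e * aeval x f) (Fr.O.mul_mem he.mem (hO f)) h3
      (by rw [← mul_assoc, he.idem]) (by rw [mul_assoc, ← hcomm, ← mul_assoc, he.idem]) with h | h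
    · left
      rw [Ideal.Quotient.eq_zero_iff_mem]
      exact h
    · right
      rw [← map_one (Ideal.Quotient.mk J), Ideal.Quotient.eq, mem_killIdeal, map_sub, map_one,
        mul_sub, h, mul_one, sub_self]
  obtain ⟨w, n, hw⟩ := scalar_nilp (W := W) (W[X] ⧸ J) hconn (Ideal.Quotient.mk J X)
  rw [Fr.irr.maximalIdeal_eq, Ideal.map_span, Set.image_singleton,
    Ideal.mem_span_singleton'] at hw
  obtain ⟨c, hc⟩ := hw
  obtain ⟨q, rfl⟩ := Ideal.Quotient.mk_surjective c
  have h7 : q * Polynomial.C Fr.π - (X - Polynomial.C w) ^ n ∈ J := by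
    rw [← Ideal.Quotient.eq]
    rw [map_mul, map_pow, map_sub]
    exact hc
  rw [mem_killIdeal, map_sub, map_mul, map_pow, map_sub, aeval_X, aeval_C, aeval_C, mul_sub,
    sub_eq_zero] at h7
  have hde : Commute e (x - algebraMap W A w) :=
    hce.sub_right (Algebra.commute_algebraMap_right w e)
  have h8 : x - w • e = e * (x - algebraMap W A w) := by
    rw [mul_sub, h1, Algebra.smul_def, Algebra.commutes]
  have h9 : (e : A) ^ (n + 1) = e := by
    have : IsIdempotentElem e := he.idem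
    exact this.pow_succ_eq n
  refine ⟨w, n, e * aeval x q * (x - algebraMap W A w),
    Fr.O.mul_mem (Fr.O.mul_mem he.mem (hO q)) (Fr.O.sub_mem hx (Fr.O.algebraMap_mem w)), ?_⟩
  rw [h8, hde.mul_pow, h9, pow_succ, ← mul_assoc, ← h7, Algebra.smul_def]
  have h10 := Algebra.commutes (R := W) (A := A) Fr.π (aeval x q)
  have h11 := Algebra.commutes (R := W) (A := A) Fr.π (e * aeval x q)
  rw [← mul_assoc, ← h11]
  simp only [mul_assoc]

/-- the corner `e O e` -/
def corner (Fr : OD W A) (e : A) : Submodule W A where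
  carrier := {x | x ∈ Fr.O ∧ e * x = x ∧ x * e = x}
  add_mem' := by
    rintro x y ⟨hx1, hx2, hx3⟩ ⟨hy1, hy2, hy3⟩
    exact ⟨Fr.O.add_mem hx1 hy1, by rw [mul_add, hx2, hy2], by rw [add_mul, hx3, hy3]⟩
  zero_mem' := ⟨Fr.O.zero_mem, mul_zero _, zero_mul _⟩
  smul_mem' := by
    rintro c x ⟨hx1, hx2, hx3⟩
    exact ⟨Fr.O.smul_mem hx1 c, by rw [mul_smul_comm, hx2], by rw [smul_mul_assoc, hx3]⟩

theorem mem_corner {Fr : OD W A} {e x : A} :
    x ∈ corner Fr e ↔ x ∈ Fr.O ∧ e * x = x ∧ x * e = x := Iff.rfl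

theorem fg_of_le (Fr : OD W A) (N : Submodule W A) (h : ∀ x ∈ N, x ∈ Fr.O) : N.FG := by
  have h1 := isNoetherian_of_fg_of_noetherian (Subalgebra.toSubmodule Fr.O) Fr.fg
  exact (isNoetherian_submodule.mp h1) N h

theorem corner_fg (Fr : OD W A) (e : A) : (corner Fr e).FG :=
  fg_of_le Fr _ fun _ hx => hx.1

theorem corner_mul {Fr : OD W A} {e x y : A} (hx : x ∈ corner Fr e)
    (hy : y ∈ corner Fr e) : x * y ∈ corner Fr e :=
  ⟨Fr.O.mul_mem hx.1 hy.1, by rw [← mul_assoc, hx.2.1], by rw [mul_assoc, hy.2.2]⟩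

theorem corner_self {Fr : OD W A} {e : A} (he : Prim Fr e) : e ∈ corner Fr e :=
  ⟨he.mem, he.idem, he.idem⟩

/-- Nakayama in the corner. -/
theorem nak {Fr : OD W A} {e : A} {N : Submodule W A}
    (h : ∀ x ∈ corner Fr e, ∃ y ∈ N, ∃ z ∈ corner Fr e, x = y + Fr.π • z) :
    ∀ x ∈ corner Fr e, x ∈ N := by
  have h1 : maximalIdeal W ≤ Ideal.jacobson ⊥ := by
    rw [IsLocalRing.jacobson_eq_maximalIdeal _ bot_ne_top]
  have h2 : corner Fr e ≤ N ⊔ maximalIdeal W • corner Fr e := by
    intro x hx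
    obtain ⟨y, hy, z, hz, rfl⟩ := h x hx
    refine Submodule.add_mem_sup hy (Submodule.smul_mem_smul ?_ hz)
    rw [Fr.irr.maximalIdeal_eq]
    exact Ideal.mem_span_singleton_self _
  exact Submodule.le_of_le_smul_of_le_jacobson_bot (corner_fg Fr e) h1 h2

/-- nilpotent modulo `π O` -/
def NilP (Fr : OD W A) (x : A) : Prop := ∃ n : ℕ, ∃ y ∈ Fr.O, x ^ (n + 1) = Fr.π • y

theorem pow_add_pi {Fr : OD W A} {x c : A} (hx : x ∈ Fr.O) (hc : c ∈ Fr.O) (j : ℕ) :
    ∃ d ∈ Fr.O, (x + Fr.π • c) ^ j = x ^ j + Fr.π • d := by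
  induction j with
  | zero => exact ⟨0, Fr.O.zero_mem, by simp⟩
  | succ j ih =>
    obtain ⟨d, hd, h⟩ := ih
    refine ⟨x ^ j * c + d * (x + Fr.π • c), ?_, ?_⟩
    · exact Fr.O.add_mem (Fr.O.mul_mem (Fr.O.pow_mem hx j) hc)
        (Fr.O.mul_mem hd (Fr.O.add_mem hx (Fr.O.smul_mem hc _)))
    · rw [pow_succ, h, add_mul, pow_succ, mul_add, smul_mul_assoc, mul_smul_comm, smul_add]
      abel

theorem NilP.add_pi {Fr : OD W A} {x c : A} (h : NilP Fr x) (hx : x ∈ Fr.O)
    (hc : c ∈ Fr.O) : NilP Fr (x + Fr.π • c) := by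
  obtain ⟨n, y, hy, h1⟩ := h
  obtain ⟨d, hd, h2⟩ := pow_add_pi (Fr := Fr) hx hc (n + 1)
  exact ⟨n, y + d, Fr.O.add_mem hy hd, by rw [h2, h1, smul_add]⟩

theorem e_not {Fr : OD W A} {e : A} (he : Prim Fr e) {y : A} (hy : y ∈ Fr.O) :
    e ≠ Fr.π • y := by
  intro h
  have h1 := nak (Fr := Fr) (e := e) (N := ⊥) (by
    intro x hx
    refine ⟨0, Submodule.zero_mem _, e * y * x, ?_, ?_⟩
    · exact ⟨Fr.O.mul_mem (Fr.O.mul_mem he.mem hy) hx.1,
        by rw [← mul_assoc, ← mul_assoc, he.idem], by rw [mul_assoc, hx.2.2]⟩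
    · have h2 : e * e * x = x := by rw [he.idem, hx.2.1]
      have h3 : e * (Fr.π • y) * x = x := by rw [← h]; exact h2
      rw [zero_add, ← h3, mul_smul_comm, smul_mul_assoc]
      congr 1
      rw [← smul_mul_assoc, ← mul_smul_comm, h3])
  exact he.ne ((Submodule.mem_bot W).mp (h1 e (corner_self he)))

theorem pow_mul_pow {e x u : A} (hxe : x * e = x) (h : x * u = e) :
    ∀ j : ℕ, x ^ (j + 1) * u ^ (j + 1) = e := by
  intro j
  induction j with
  | zero => simpa using h
  | succ j ih =>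
    calc x ^ (j + 1 + 1) * u ^ (j + 1 + 1) = x * (x ^ (j + 1) * u ^ (j + 1)) * u := by
          rw [pow_succ' x, pow_succ u]
          simp only [mul_assoc]
      _ = e := by rw [ih, hxe, h]

theorem not_nilp_left {Fr : OD W A} {e : A} (he : Prim Fr e) {x u : A}
    (hx : x ∈ corner Fr e) (hu : u ∈ corner Fr e) (h : x * u = e) : ¬ NilP Fr x := by
  rintro ⟨n, y, hy, h1⟩
  have h2 := pow_mul_pow hx.2.2 h n
  rw [h1, smul_mul_assoc] at h2
  exact e_not he (Fr.O.mul_mem hy (Fr.O.pow_mem hu.1 _)) h2.symm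

theorem not_nilp_right {Fr : OD W A} {e : A} (he : Prim Fr e) {x u : A}
    (hx : x ∈ corner Fr e) (_hu : u ∈ corner Fr e) (h : x * u = e) : ¬ NilP Fr u := by
  rintro ⟨n, y, hy, h1⟩
  have h2 := pow_mul_pow hx.2.2 h n
  rw [h1, mul_smul_comm] at h2
  exact e_not he (Fr.O.mul_mem (Fr.O.pow_mem hx.1 _) hy) h2.symm

theorem right_inv {Fr : OD W A} {e : A} (he : Prim Fr e) {n : A} {w : W} (hw : IsUnit w)
    (hn : n ∈ corner Fr e) (hnn : NilP Fr n) : ∃ v ∈ corner Fr e, (w • e + n) * v = e := by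
  set x := w • e + n with hx
  have hxc : x ∈ corner Fr e := (corner Fr e).add_mem ((corner Fr e).smul_mem _ (corner_self he)) hn
  set N : Submodule W A := (corner Fr e).map (LinearMap.mulLeft W x) with hN
  have hNR : ∀ y ∈ N, ∀ v ∈ corner Fr e, y * v ∈ N := by
    rintro y ⟨a, ha, rfl⟩ v hv
    refine ⟨a * v, corner_mul ha hv, ?_⟩
    simp [mul_assoc]
  obtain ⟨k, y, hy, hk⟩ := hnn
  obtain ⟨w', hw'⟩ := hw.exists_left_inv
  have hce : Commute e n := by rw [commute_iff_eq, hn.2.1, hn.2.2]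
  have hp : ∀ j : ℕ, e * n ^ j ∈ corner Fr e := by
    intro j
    refine ⟨Fr.O.mul_mem he.mem (Fr.O.pow_mem hn.1 j), by rw [← mul_assoc, he.idem], ?_⟩
    rw [(hce.pow_right j).eq, mul_assoc, he.idem]
  have key : ∀ i j : ℕ, i + j = k + 1 → ∃ a ∈ N, ∃ b ∈ corner Fr e, e * n ^ j = a + Fr.π • b := by
    intro i
    induction i with
    | zero =>
      intro j hj
      have hj' : j = k + 1 := by omega
      subst hj'
      refine ⟨0, N.zero_mem, e * y * e, ?_, ?_⟩
      · exact ⟨Fr.O.mul_mem (Fr.O.mul_mem he.mem hy) he.mem,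
          by rw [← mul_assoc, ← mul_assoc, he.idem], by rw [mul_assoc, he.idem]⟩
      · rw [zero_add, ← (hp (k + 1)).2.2, hk]
        simp [mul_assoc]
    | succ i ih =>
      intro j hj
      obtain ⟨a, ha, b, hb, h⟩ := ih (j + 1) (by omega)
      refine ⟨w' • (x * (e * n ^ j)) - w' • a, ?_, - (w' • b), ?_, ?_⟩
      · refine N.sub_mem (N.smul_mem _ ⟨e * n ^ j, hp j, rfl⟩) (N.smul_mem _ ha)
      · exact (corner Fr e).neg_mem ((corner Fr e).smul_mem _ hb)
      · have h1 : x * (e * n ^ j) = w • (e * n ^ j) + (a + Fr.π • b) := by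
          rw [← h, hx, add_mul, smul_mul_assoc, ← mul_assoc, he.idem, ← mul_assoc, hn.2.2,
            ← pow_succ', pow_succ' n j, ← mul_assoc, hn.2.1]
        rw [h1, smul_add, smul_smul, hw', one_smul, smul_add, smul_neg, smul_comm Fr.π w' b]
        abel
  obtain ⟨a, ha, b, hb, h⟩ := key (k + 1) 0 (by omega)
  rw [pow_zero, mul_one] at h
  have h2 := nak (Fr := Fr) (e := e) (N := N) (by
    intro z hz
    refine ⟨a * z, hNR a ha z hz, b * z, corner_mul hb hz, ?_⟩
    rw [← smul_mul_assoc, ← add_mul, ← h, hz.2.1]) e (corner_self he)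
  obtain ⟨v, hv, hv2⟩ := h2
  exact ⟨v, hv, hv2⟩

theorem nilp_small {Fr : OD W A} {e : A} (he : Prim Fr e) {n : A} {w : W}
    (hw : ¬ IsUnit w) (hn : n ∈ corner Fr e) (hnn : NilP Fr n) : NilP Fr (w • e + n) := by
  have h1 : w ∈ maximalIdeal W := hw
  rw [Fr.irr.maximalIdeal_eq, Ideal.mem_span_singleton'] at h1
  obtain ⟨c, rfl⟩ := h1
  have h2 := hnn.add_pi hn.1 (Fr.O.smul_mem he.mem c)
  rw [smul_smul, add_comm, mul_comm Fr.π c] at h2
  exact h2

theorem nilp_neg {Fr : OD W A} {x : A} (h : NilP Fr x) : NilP Fr (-x) := by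
  obtain ⟨n, y, hy, h1⟩ := h
  have h2 := neg_pow x (n + 1)
  refine ⟨n, (-1) ^ (n + 1) * y, Fr.O.mul_mem (Fr.O.pow_mem (Fr.O.neg_mem Fr.O.one_mem) _) hy, ?_⟩
  rw [h2, h1, mul_smul_comm]

theorem nilp_smul {Fr : OD W A} {x : A} (w : W) (h : NilP Fr x) : NilP Fr (w • x) := by
  obtain ⟨n, y, hy, h1⟩ := h
  refine ⟨n, w ^ (n + 1) • y, Fr.O.smul_mem hy _, ?_⟩
  rw [_root_.smul_pow, h1, smul_comm]

section complete

variable [IsAdicComplete (maximalIdeal W) W] [IsAlgClosed (ResidueField W)]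

theorem dec' (Fr : OD W A) {e : A} (he : Prim Fr e) {x : A} (hx : x ∈ corner Fr e) :
    ∃ w : W, ∃ n ∈ corner Fr e, NilP Fr n ∧ x = w • e + n := by
  obtain ⟨w, n, y, hy, h⟩ := scalar_corner Fr he hx.1 hx.2.1 hx.2.2
  exact ⟨w, x - w • e, (corner Fr e).sub_mem hx ((corner Fr e).smul_mem _ (corner_self he)),
    ⟨n, y, hy, h⟩, by abel⟩

theorem dich_right {Fr : OD W A} {e : A} (he : Prim Fr e) {x : A}
    (hx : x ∈ corner Fr e) : NilP Fr x ∨ ∃ u ∈ corner Fr e, x * u = e := by
  obtain ⟨w, n, hn, hnn, rfl⟩ := dec' Fr he hx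
  by_cases hw : IsUnit w
  · right
    exact right_inv he hw hn hnn
  · left
    exact nilp_small he hw hn hnn

theorem dich {Fr : OD W A} {e : A} (he : Prim Fr e) {x : A}
    (hx : x ∈ corner Fr e) : NilP Fr x ∨ ∃ u ∈ corner Fr e, x * u = e ∧ u * x = e := by
  rcases dich_right he hx with h | ⟨u, hu, h⟩
  · exact Or.inl h
  · right
    refine ⟨u, hu, h, ?_⟩
    rcases dich_right he hu with h1 | ⟨v, hv, h1⟩
    · exact absurd h1 (not_nilp_right he hx hu h)
    · have : x = v := by
        calc x = x * e := hx.2.2.symm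
          _ = x * (u * v) := by rw [h1]
          _ = (x * u) * v := by rw [mul_assoc]
          _ = v := by rw [h, hv.2.1]
      rw [this]
      exact h1

theorem nilp_mul_left {Fr : OD W A} {e : A} (he : Prim Fr e) {x b : A}
    (hx : x ∈ corner Fr e) (hb : b ∈ corner Fr e) (h : NilP Fr x) : NilP Fr (b * x) := by
  rcases dich he (corner_mul hb hx) with h1 | ⟨u, hu, _, h2⟩
  · exact h1
  · rw [← mul_assoc] at h2
    exact absurd h (not_nilp_right he (corner_mul hu hb) hx h2)

theorem nilp_mul_right {Fr : OD W A} {e : A} (he : Prim Fr e) {x b : A}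
    (hx : x ∈ corner Fr e) (hb : b ∈ corner Fr e) (h : NilP Fr x) : NilP Fr (x * b) := by
  rcases dich he (corner_mul hx hb) with h1 | ⟨u, hu, h2, _⟩
  · exact h1
  · rw [mul_assoc] at h2
    exact absurd h (not_nilp_left he hx (corner_mul hb hu) h2)

theorem nilp_add {Fr : OD W A} {e : A} (he : Prim Fr e) {x y : A}
    (hx : x ∈ corner Fr e) (hy : y ∈ corner Fr e) (h : NilP Fr x) (h' : NilP Fr y) :
    NilP Fr (x + y) := by
  rcases dich he ((corner Fr e).add_mem hx hy) with h1 | ⟨u, hu, _, h2⟩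
  · exact h1
  · exfalso
    have h3 : NilP Fr (u * x) := nilp_mul_left he hx hu h
    obtain ⟨v, hv, h4⟩ := right_inv he (w := 1) (n := -(u * x)) isUnit_one
      ((corner Fr e).neg_mem (corner_mul hu hx)) (nilp_neg h3)
    have h5 : (1 : W) • e + -(u * x) = u * y := by
      rw [one_smul, ← h2, mul_add]
      abel
    rw [h5] at h4
    exact not_nilp_left he (corner_mul hu hy) hv h4 (nilp_mul_left he hy hu h')

/-- the radical of the corner -/
def rad (Fr : OD W A) {e : A} (he : Prim Fr e) : Submodule W A where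
  carrier := {x | x ∈ corner Fr e ∧ NilP Fr x}
  add_mem' := by
    rintro x y ⟨hx, hx'⟩ ⟨hy, hy'⟩
    exact ⟨(corner Fr e).add_mem hx hy, nilp_add he hx hy hx' hy'⟩
  zero_mem' := ⟨(corner Fr e).zero_mem, ⟨0, 0, Fr.O.zero_mem, by simp⟩⟩
  smul_mem' := by
    rintro c x ⟨hx, hx'⟩
    exact ⟨(corner Fr e).smul_mem c hx, nilp_smul c hx'⟩

theorem swap_inv {T : Type*} [Ring T] {a b v : T} (h : v * (1 + b * a) = 1) :
    (1 - a * v * b) * (1 + a * b) = 1 := by
  have h1 : (1 - a * v * b) * (1 + a * b) = 1 + a * b - a * (v * (1 + b * a)) * b := by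
    noncomm_ring
  rw [h1, h]
  noncomm_ring

theorem rad_jac (Fr : OD W A) {e : A} (he : Prim Fr e) (x : Fr.O)
    (hx : (x : A) ∈ rad Fr he) :
    (Algebra.TensorProduct.includeRight : Fr.O →ₐ[W] (ResidueField W) ⊗[W] Fr.O) x ∈
      Ring.jacobson ((ResidueField W) ⊗[W] Fr.O) := by
  set ι := (Algebra.TensorProduct.includeRight : Fr.O →ₐ[W] (ResidueField W) ⊗[W] Fr.O) with hι
  have hpi : ∀ y : Fr.O, ι (Fr.π • y) = 0 := by
    intro y
    have h1 : ι (Fr.π • y) = (Fr.π • (1 : ResidueField W)) ⊗ₜ[W] y := by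
      rw [hι, Algebra.TensorProduct.includeRight_apply, TensorProduct.smul_tmul]
    have h2 : Fr.π • (1 : ResidueField W) = 0 := by
      rw [Algebra.smul_def, mul_one]
      change residue W Fr.π = 0
      rw [residue_eq_zero_iff]
      exact Fr.irr.not_isUnit
    rw [h1, h2, TensorProduct.zero_tmul]
  have hsurj : Function.Surjective ι := by
    intro t
    induction t using TensorProduct.induction_on with
    | zero => exact ⟨0, map_zero _⟩
    | tmul f b =>
      obtain ⟨w, rfl⟩ := residue_surjective f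
      refine ⟨w • b, ?_⟩
      rw [hι, Algebra.TensorProduct.includeRight_apply, ← TensorProduct.smul_tmul,
        Algebra.smul_def, mul_one]
      rfl
    | add s t hs ht =>
      obtain ⟨a, rfl⟩ := hs
      obtain ⟨b, rfl⟩ := ht
      exact ⟨a + b, map_add _ _ _⟩
  rw [← Ideal.jacobson_bot, Ideal.mem_jacobson_iff]
  intro y
  obtain ⟨b, rfl⟩ := hsurj y
  let E : Fr.O := ⟨e, he.mem⟩
  have hEx : E * x = x := Subtype.ext hx.1.2.1
  have hxE : x * E = x := Subtype.ext hx.1.2.2
  have hEE : E * E = E := Subtype.ext he.idem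
  have hn : IsNilpotent (ι (x * b * E)) := by
    have h1 : x * b * E = x * (E * b * E) := by
      rw [← mul_assoc, ← mul_assoc, hxE]
    have h2 : ((E * b * E : Fr.O) : A) ∈ corner Fr e := by
      refine ⟨(E * b * E).2, ?_, ?_⟩
      · have : E * (E * b * E) = E * b * E := by rw [← mul_assoc, ← mul_assoc, hEE]
        exact congrArg Subtype.val this
      · have : (E * b * E) * E = E * b * E := by rw [mul_assoc, hEE]
        exact congrArg Subtype.val this
    obtain ⟨n, y, hy, h3⟩ := nilp_mul_right he hx.1 h2 hx.2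
    refine ⟨n + 1, ?_⟩
    rw [h1, ← map_pow]
    have h4 : (x * (E * b * E)) ^ (n + 1) = Fr.π • (⟨y, hy⟩ : Fr.O) := by
      apply Subtype.ext
      exact h3
    rw [h4, hpi]
  have hu : IsUnit (1 + ι (x * b * E)) := hn.isUnit_one_add
  obtain ⟨v, hv⟩ := hu.exists_left_inv
  have h5 : v * (1 + (ι x * ι b) * ι E) = 1 := by
    rw [← map_mul, ← map_mul]
    exact hv
  have h6 := swap_inv h5
  have h7 : ι E * (ι x * ι b) = ι x * ι b := by rw [← mul_assoc, ← map_mul, hEx]
  rw [h7] at h6
  have h8 := swap_inv h6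
  refine ⟨1 - ι b * (1 - ι E * v * (ι x * ι b)) * ι x, ?_⟩
  rw [Submodule.mem_bot, sub_eq_zero]
  rw [mul_add, mul_one, add_comm] at h8
  rw [mul_assoc]
  exact h8

theorem rad_nil (Fr : OD W A) {e : A} (he : Prim Fr e) :
    ∃ n : ℕ, 0 < n ∧ ∀ x ∈ (rad Fr he) ^ n, ∃ y ∈ Fr.O, x = Fr.π • y := by
  have hfin := finite_O Fr
  set ι := (Algebra.TensorProduct.includeRight : Fr.O →ₐ[W] (ResidueField W) ⊗[W] Fr.O) with hι
  have hart : IsArtinianRing ((ResidueField W) ⊗[W] Fr.O) :=
    IsArtinianRing.of_finite (ResidueField W) _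
  set J := Ring.jacobson ((ResidueField W) ⊗[W] Fr.O) with hJ
  obtain ⟨N, hN⟩ : IsNilpotent J := IsSemiprimaryRing.isNilpotent
  let S : ℕ → Submodule W A := fun n =>
    (((J ^ n).restrictScalars W).comap ι.toLinearMap).map Fr.O.val.toLinearMap
  have hS : ∀ n, (rad Fr he) ^ n ≤ S n := by
    intro n
    induction n with
    | zero =>
      rw [pow_zero, Submodule.one_le]
      refine ⟨1, ?_, rfl⟩
      change ι 1 ∈ J ^ 0
      rw [Submodule.pow_zero, Ideal.one_eq_top]
      exact Submodule.mem_top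
    | succ n ih =>
      rw [pow_succ, Submodule.mul_le]
      intro m hm k hk
      obtain ⟨m', hm', rfl⟩ := ih hm
      let k' : Fr.O := ⟨k, hk.1.1⟩
      refine ⟨m' * k', ?_, rfl⟩
      change ι (m' * k') ∈ J ^ (n + 1)
      rw [map_mul, Submodule.pow_succ]
      exact Ideal.mul_mem_mul hm' (rad_jac Fr he k' hk)
  refine ⟨N + 1, Nat.succ_pos _, ?_⟩
  intro x hx
  obtain ⟨x', hx', rfl⟩ := hS (N + 1) hx
  have h1 : ι x' ∈ J ^ (N + 1) := hx'
  rw [Submodule.pow_succ, hN] at h1
  have h2 : ι x' = 0 := by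
    have h3 : (0 : Ideal ((ResidueField W) ⊗[W] Fr.O)) * J = 0 := by
      exact Submodule.bot_mul J
    rw [h3] at h1
    exact h1
  have h3 := TensorProduct.quotTensorEquivQuotSMul_mk_one_tmul (R := W) (M := Fr.O)
    (maximalIdeal W) x'
  have h4 : (1 : W ⧸ maximalIdeal W) ⊗ₜ[W] x' = 0 := h2
  rw [h4, map_zero, eq_comm, Submodule.Quotient.mk_eq_zero, Fr.irr.maximalIdeal_eq,
    Submodule.ideal_span_singleton_smul, Submodule.mem_smul_pointwise_iff_exists] at h3
  obtain ⟨y, _, hy⟩ := h3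
  exact ⟨y, y.2, by rw [← hy]; rfl⟩

end complete

/-- decomposition into primitive idempotents -/
theorem exists_prim_decomp (Fr : OD W A) : ∀ (N : Submodule W Fr.O) (e : A), e ∈ Fr.O →
    e * e = e → (∀ x : Fr.O, x ∈ N ↔ e * (x : A) = 0) →
    ∃ l : List A, (∀ g ∈ l, Prim Fr g ∧ e * g = g ∧ g * e = g) ∧
      l.Pairwise (fun a b => a * b = 0 ∧ b * a = 0) ∧ l.sum = e := by
  have hfin := finite_O Fr
  intro N
  induction N using WellFoundedGT.induction with
  | ind N ih =>
  intro e he hi hN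
  by_cases h0 : e = 0
  · exact ⟨[], by simp, List.Pairwise.nil, by simp [h0]⟩
  by_cases hp : ∀ g ∈ Fr.O, g * g = g → e * g = g → g * e = g → g = 0 ∨ g = e
  · exact ⟨[e], by simp [hi, Prim.mk he hi h0 hp], List.pairwise_singleton _ _, by simp⟩
  push Not at hp
  obtain ⟨g, hg, hgg, heg, hge, hg0, hgne⟩ := hp
  have key : ∀ (a a' : A), a ∈ Fr.O → a' ∈ Fr.O → a * a = a → a * e = a → e * a' = a' →
      a * a' = 0 → a' ≠ 0 →
      ∃ l : List A, (∀ g ∈ l, Prim Fr g ∧ a * g = g ∧ g * a = g) ∧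
        l.Pairwise (fun a b => a * b = 0 ∧ b * a = 0) ∧ l.sum = a := by
    intro a a' ha ha' haa hae hea h1 h2
    let M : Submodule W Fr.O := LinearMap.ker ((LinearMap.mulLeft W a).comp Fr.O.val.toLinearMap)
    have hM : ∀ x : Fr.O, x ∈ M ↔ a * (x : A) = 0 := by
      intro x
      exact Iff.rfl
    refine ih M ?_ a ha haa hM
    refine lt_of_le_of_ne ?_ ?_
    · intro x hx
      rw [hM]
      rw [hN] at hx
      rw [← hae, mul_assoc, hx, mul_zero]
    · intro h3
      have h4 : (⟨a', ha'⟩ : Fr.O) ∈ M := by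
        rw [hM]
        exact h1
      rw [← h3, hN] at h4
      exact h2 (by rw [← hea]; exact h4)
  have hg'm : e - g ∈ Fr.O := Fr.O.sub_mem he hg
  have hgg' : (e - g) * (e - g) = e - g := by
    rw [mul_sub, sub_mul, sub_mul, hi, heg, hge, hgg]
    abel
  have hne : e - g ≠ 0 := fun h => hgne (sub_eq_zero.mp h).symm
  have h1 : g * (e - g) = 0 := by rw [mul_sub, hge, hgg, sub_self]
  have h2 : (e - g) * g = 0 := by rw [sub_mul, heg, hgg, sub_self]
  have h3 : e * (e - g) = e - g := by rw [mul_sub, hi, heg]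
  have h4 : (e - g) * e = e - g := by rw [sub_mul, hi, hge]
  obtain ⟨l1, p1, q1, s1⟩ := key g (e - g) hg hg'm hgg hge h3 h1 hne
  obtain ⟨l2, p2, q2, s2⟩ := key (e - g) g hg'm hg hgg' h4 heg h2 hg0
  refine ⟨l1 ++ l2, ?_, ?_, ?_⟩
  · intro a ha
    rcases List.mem_append.mp ha with h | h
    · obtain ⟨ha1, ha2, ha3⟩ := p1 a h
      refine ⟨ha1, ?_, ?_⟩
      · rw [← ha2, ← mul_assoc, heg]
      · rw [← ha3, mul_assoc, hge]
    · obtain ⟨ha1, ha2, ha3⟩ := p2 a h
      refine ⟨ha1, ?_, ?_⟩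
      · rw [← ha2, ← mul_assoc, h3]
      · rw [← ha3, mul_assoc, h4]
  · rw [List.pairwise_append]
    refine ⟨q1, q2, ?_⟩
    intro a ha b hb
    obtain ⟨_, ha2, ha3⟩ := p1 a ha
    obtain ⟨_, hb2, hb3⟩ := p2 b hb
    constructor
    · rw [← ha3, ← hb2, mul_assoc, ← mul_assoc g, h1, zero_mul, mul_zero]
    · rw [← hb3, ← ha2, mul_assoc, ← mul_assoc (e - g), h2, zero_mul, mul_zero]
  · rw [List.sum_append, s1, s2]
    abel

end G4

open scoped BigOperators

section
variable {p : ℕ} {W K F : Type} [CommRing W] [IsDomain W] [Field K] [Algebra W K]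
  [IsFractionRing W K] [Field F] [Algebra W F]

theorem G4.base_ker_eq (hB : Base p W K F) :
    RingHom.ker (algebraMap W F) = Ideal.span {(p : W)} := by
  ext w
  rw [RingHom.mem_ker, hB.ker, Ideal.mem_span_singleton]

theorem G4.base_max_eq (hB : Base p W K F) [IsDiscreteValuationRing W] :
    maximalIdeal W = Ideal.span {(p : W)} := by
  have h1 : (RingHom.ker (algebraMap W F)).IsMaximal :=
    RingHom.ker_isMaximal_of_surjective _ hB.surj
  rw [← (G4.base_ker_eq hB)]
  exact (IsLocalRing.eq_maximalIdeal h1).symm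

theorem G4.base_irr (hB : Base p W K F) : Irreducible (p : W) := by
  have := hB.dvr
  rw [IsDiscreteValuationRing.irreducible_iff_uniformizer]
  exact (G4.base_max_eq hB)

theorem G4.base_isAlgClosed_residue (hB : Base p W K F) [IsDiscreteValuationRing W] :
    IsAlgClosed (ResidueField W) := by
  have h1 := hB.algClosed
  have h2 : RingHom.ker (algebraMap W F) = maximalIdeal W := by rw [(G4.base_max_eq hB), (G4.base_ker_eq hB)]
  let e1 : ResidueField W ≃+* W ⧸ RingHom.ker (algebraMap W F) := Ideal.quotEquivOfEq h2.symm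
  let e2 : W ⧸ RingHom.ker (algebraMap W F) ≃+* F :=
    RingHom.quotientKerEquivOfSurjective hB.surj
  exact IsAlgClosed.of_ringEquiv _ _ (e1.trans e2).symm

theorem G4.base_complete (hB : Base p W K F) [IsDiscreteValuationRing W] :
    IsAdicComplete (maximalIdeal W) W := by
  rw [(G4.base_max_eq hB)]
  exact hB.complete

end

section
variable {p : ℕ} {W K : Type} (F : Type) [CommRing W] [IsDomain W] [Field K] [Algebra W K]
  [IsFractionRing W K] [Field F] [Algebra W F] [hB : Base p W K F]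

include F

theorem exists_local_decomp {A : Type} [Ring A] [Algebra K A] [Algebra W A]
    [IsScalarTower W K A] [FiniteDimensional K A] {O : Subalgebra W A} {τ : A →ₗ[K] K}
    (H : SymOrder p O τ) :
    ∃ (n : ℕ) (E : Fin n → LocIdem p O), (∀ i j, i ≠ j → (E i).e * (E j).e = 0) ∧
      ∑ i, (E i).e = 1 := by
  have i1 := hB.dvr
  have i2 := G4.base_complete hB
  have i3 := G4.base_isAlgClosed_residue hB
  let Fr : G4.OD W A := ⟨(p : W), G4.base_irr hB, O, H.fg⟩
  have hpi : ∀ y : A, Fr.π • y = (p : A) * y := by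
    intro y
    change ((p : ℕ) : W) • y = (p : A) * y
    rw [Algebra.smul_def, map_natCast]
  let N : Submodule W Fr.O := LinearMap.ker ((LinearMap.mulLeft W (1 : A)).comp
    Fr.O.val.toLinearMap)
  obtain ⟨l, h1, h2, h3⟩ := G4.exists_prim_decomp Fr N 1 Fr.O.one_mem (mul_one 1)
    (fun x => Iff.rfl)
  have hEOE : ∀ {e x : A}, G4.Prim Fr e → x ∈ O → e * x * e ∈ G4.corner Fr e := by
    intro e x he hx
    exact ⟨O.mul_mem (O.mul_mem he.mem hx) he.mem, by rw [← mul_assoc, ← mul_assoc, he.idem],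
      by rw [mul_assoc, he.idem]⟩
  let E : Fin l.length → LocIdem p O := fun i =>
    { e := l.get i
      rad := G4.rad Fr (h1 _ (l.get_mem i)).1
      mem := (h1 _ (l.get_mem i)).1.mem
      idem := (h1 _ (l.get_mem i)).1.idem
      rad_mem := fun x hx => hx.1.1
      rad_left := fun x hx => hx.1.2.1
      rad_right := fun x hx => hx.1.2.2
      mul_left := by
        intro x hx y hy
        have he := (h1 _ (l.get_mem i)).1
        have h4 : l.get i * x * y = (l.get i * x * l.get i) * y := by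
          rw [mul_assoc (l.get i * x), hy.1.2.1]
        rw [h4]
        exact ⟨G4.corner_mul (hEOE he hx) hy.1, G4.nilp_mul_left he hy.1 (hEOE he hx) hy.2⟩
      mul_right := by
        intro x hx y hy
        have he := (h1 _ (l.get_mem i)).1
        have h4 : y * x * l.get i = y * (l.get i * x * l.get i) := by
          rw [← mul_assoc, ← mul_assoc, hy.1.2.2]
        rw [h4]
        exact ⟨G4.corner_mul hy.1 (hEOE he hx), G4.nilp_mul_right he hy.1 (hEOE he hx) hy.2⟩
      p_mem := by
        have he := (h1 _ (l.get_mem i)).1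
        rw [← hpi]
        exact ⟨(G4.corner Fr _).smul_mem _ (G4.corner_self he), ⟨0, l.get i, he.mem, by simp⟩⟩
      not_mem := by
        have he := (h1 _ (l.get_mem i)).1
        rintro ⟨_, n, y, hy, h⟩
        have : IsIdempotentElem (l.get i) := he.idem
        rw [this.pow_succ_eq n] at h
        exact G4.e_not he hy h
      decomp := by
        intro x hx
        have he := (h1 _ (l.get_mem i)).1
        obtain ⟨w, n, hn, hnn, h⟩ := G4.dec' Fr he (hEOE he hx)
        refine ⟨w, ?_⟩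
        rw [h, add_sub_cancel_left]
        exact ⟨hn, hnn⟩
      nilp := by
        have he := (h1 _ (l.get_mem i)).1
        obtain ⟨n, _, hn⟩ := G4.rad_nil Fr he
        refine ⟨n, ?_⟩
        intro x hx
        obtain ⟨y, hy, h⟩ := hn x hx
        exact ⟨y, hy, by rw [← hpi]; exact h⟩ }
  refine ⟨l.length, E, ?_, ?_⟩
  · intro i j hij
    rcases lt_or_gt_of_ne hij with h | h
    · exact (List.pairwise_iff_get.mp h2 i j h).1
    · exact (List.pairwise_iff_get.mp h2 j i h).2
  · rw [← h3]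
    have := List.sum_ofFn (f := fun i => l.get i)
    rw [List.ofFn_get] at this
    exact this.symm

end

end PDeg
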