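import Pool.Agent.Lib.MP_369ee2_lc_PD.Ord

/-!
# `Λ` modulo `p` (row S3)
-/

namespace PDeg

open scoped BigOperators Matrix

section
variable {X : Type} [Fintype X] [DecidableEq X] (C : Coh X) {p : ℕ} {F : Type} [Field F]

/-- colour-constant matrices with zero row sums -/
def lamN (F : Type) [Field F] : Submodule F (Matrix X X F) where
  carrier := {a | a ∈ C.Lam F ∧ ∀ x, ∑ y, a x y = 0}
  add_mem' := by
    rintro a b ⟨ha, ha'⟩ ⟨hb, hb'⟩
    refine ⟨(C.Lam F).add_mem ha hb, fun x => ?_⟩
    simp only [Matrix.add_apply, Finset.sum_add_distrib, ha' x, hb' x, add_zero]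
  zero_mem' := ⟨(C.Lam F).zero_mem, fun x => by simp⟩
  smul_mem' := by
    rintro c a ⟨ha, ha'⟩
    refine ⟨(C.Lam F).smul_mem ha c, fun x => ?_⟩
    simp only [Matrix.smul_apply, ← Finset.smul_sum, ha' x, smul_zero]

private theorem lamF_diag {a : Matrix X X F} (ha : a ∈ C.Lam F) (x y : X) : a x x = a y y := by
  have h := C.hom ![x] ![y]
  have h2 := C.reindex (n := 1) (k := 2) (by norm_num) (by norm_num) (fun _ => 0) _ _ h
  exact ha _ _ h2

private theorem lamF_trace (hF : CharP F p) (hp : p.Prime) (hX : Fintype.card X = p)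
    {a : Matrix X X F} (ha : a ∈ C.Lam F) : Matrix.trace a = 0 := by
  have hne : Nonempty X := Fintype.card_pos_iff.1 (by rw [hX]; exact hp.pos)
  obtain ⟨x0⟩ := hne
  have h1 : Matrix.trace a = ∑ _x : X, a x0 x0 :=
    Finset.sum_congr rfl fun x _ => lamF_diag C ha x x0
  rw [h1, Finset.sum_const, Finset.card_univ, hX, nsmul_eq_mul, CharP.cast_eq_zero, zero_mul]

/-- an element with zero row sums is nilpotent -/
theorem lamF_nil (hF : CharP F p) (hp : p.Prime) (hX : Fintype.card X = p) (a : Matrix X X F)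
    (ha : a ∈ lamN C F) : IsNilpotent a := by
  obtain ⟨haL, haS⟩ := ha
  have hne : Nonempty X := Fintype.card_pos_iff.1 (by rw [hX]; exact hp.pos)
  have hm0 : minpoly F a ≠ 0 := minpoly.ne_zero (Algebra.IsIntegral.isIntegral a)
  obtain ⟨g, hg, hnd⟩ := Polynomial.exists_eq_pow_rootMultiplicity_mul_and_not_dvd _ hm0 0
  rw [Polynomial.C_0, sub_zero] at hg hnd
  set n := (minpoly F a).rootMultiplicity 0 with hn
  have hcop : IsCoprime ((Polynomial.X : Polynomial F) ^ (n + 1)) g :=
    (Polynomial.irreducible_X.coprime_iff_not_dvd.2 hnd).pow_left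
  obtain ⟨u, v, huv⟩ := hcop
  set A := Polynomial.aeval (R := F) a with hA
  set e : Matrix X X F := A (u * Polynomial.X ^ (n + 1)) with he
  have hmin : A (minpoly F a) = 0 := minpoly.aeval F a
  have h1e : 1 - e = A (v * g) := by
    have h2 : A (u * Polynomial.X ^ (n + 1) + v * g) = 1 := by rw [huv, map_one]
    rw [map_add] at h2
    rw [he, ← h2, add_sub_cancel_left]
  have hae : a ^ (n + 1) * (1 - e) = 0 := by
    have h2 : A (Polynomial.X ^ (n + 1)) = a ^ (n + 1) := by
      rw [map_pow, hA, Polynomial.aeval_X]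
    have h3 : (Polynomial.X : Polynomial F) ^ (n + 1) * (v * g) =
        (Polynomial.X * v) * minpoly F a := by
      conv_rhs => rw [hg]
      ring
    rw [h1e, ← h2, ← map_mul, h3, map_mul, hmin, mul_zero]
  have hee : e * e = e := by
    have h2 : e * (1 - e) = 0 := by
      have h3 : (u * Polynomial.X ^ (n + 1)) * (v * g) =
          (u * Polynomial.X * v) * minpoly F a := by
        conv_rhs => rw [hg]
        ring
      rw [h1e, he, ← map_mul, h3, map_mul, hmin, mul_zero]
    rw [mul_sub, mul_one, sub_eq_zero] at h2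
    exact h2.symm
  have heL : e ∈ C.Lam F :=
    (Algebra.adjoin_le (Set.singleton_subset_iff.2 haL))
      (Polynomial.aeval_mem_adjoin_singleton F a)
  have htr : Matrix.trace e = 0 := lamF_trace C hF hp hX heL
  -- the vector of ones
  have ha1 : a *ᵥ (fun _ => (1 : F)) = 0 := by
    funext x
    simpa [Matrix.mulVec, dotProduct] using haS x
  have he1 : e *ᵥ (fun _ => (1 : F)) = 0 := by
    have h2 : e = A (u * Polynomial.X ^ n) * a := by
      rw [he, pow_succ, ← mul_assoc, map_mul, hA, Polynomial.aeval_X]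
    rw [h2, ← Matrix.mulVec_mulVec, ha1, Matrix.mulVec_zero]
  set f : (X → F) →ₗ[F] (X → F) := Matrix.toLin' e with hf
  have hff : IsIdempotentElem f := by
    change f * f = f
    rw [hf, Module.End.mul_eq_comp, ← Matrix.toLin'_mul, hee]
  have hproj := (LinearMap.IsIdempotentElem.isProj_range f hff).trace
  have htr2 : LinearMap.trace F (X → F) f = 0 := by
    rw [hf, Matrix.trace_toLin'_eq, htr]
  rw [htr2] at hproj
  have hdvd : p ∣ Module.finrank F (LinearMap.range f) :=
    (CharP.cast_eq_zero_iff F p _).1 hproj.symm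
  have hle : Module.finrank F (LinearMap.range f) ≤ p := by
    have h2 := Submodule.finrank_le (LinearMap.range f)
    rwa [Module.finrank_fintype_fun_eq_card, hX] at h2
  rcases Nat.eq_zero_or_pos (Module.finrank F (LinearMap.range f)) with h0 | h0
  · have h2 : f = 0 := LinearMap.range_eq_bot.1 (Submodule.finrank_eq_zero.1 h0)
    have h3 : e = 0 := by
      apply Matrix.toLin'.injective
      rw [map_zero]
      exact h2
    rw [h3, sub_zero, mul_one] at hae
    exact ⟨n + 1, hae⟩
  · exfalso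
    have h2 : Module.finrank F (LinearMap.range f) = p := le_antisymm hle (Nat.le_of_dvd h0 hdvd)
    have h3 : LinearMap.range f = ⊤ := by
      apply Submodule.eq_top_of_finrank_eq
      rw [h2, Module.finrank_fintype_fun_eq_card, hX]
    obtain ⟨w, hw⟩ := LinearMap.range_eq_top.1 h3 (fun _ => (1 : F))
    have h4 : f (f w) = f w := congrFun (congrArg DFunLike.coe hff) w
    rw [hw] at h4
    have h5 : f (fun _ => (1 : F)) = 0 := by
      rw [hf, Matrix.toLin'_apply, he1]
    rw [h5] at h4
    obtain ⟨x0⟩ := hne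
    have h6 := congrFun h4 x0
    exact one_ne_zero h6.symm

/-- the ideal of elements with zero row sums is nilpotent -/
theorem lamF_nilp (hF : CharP F p) (hp : p.Prime) (hX : Fintype.card X = p) :
    ∃ n : ℕ, (lamN C F) ^ n = ⊥ := by
  classical
  have : IsArtinianRing ↥(C.Lam F) := isArtinian_of_tower F inferInstance
  obtain ⟨n, hn⟩ := IsArtinianRing.isNilpotent_jacobson_bot (R := ↥(C.Lam F))
  set J := Ideal.jacobson (⊥ : Ideal ↥(C.Lam F)) with hJ
  have hmem : ∀ x : ↥(C.Lam F), (x : Matrix X X F) ∈ lamN C F → x ∈ J := by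
    intro x hx
    rw [hJ, Ideal.mem_jacobson_iff]
    intro y
    have hyx : ((y * x : ↥(C.Lam F)) : Matrix X X F) ∈ lamN C F := by
      refine ⟨(y * x).2, fun i => ?_⟩
      change ∑ j, ((y : Matrix X X F) * (x : Matrix X X F)) i j = 0
      simp only [Matrix.mul_apply]
      rw [Finset.sum_comm]
      refine Finset.sum_eq_zero fun w _ => ?_
      rw [← Finset.mul_sum, hx.2 w, mul_zero]
    obtain ⟨m, hm⟩ := lamF_nil C hF hp hX _ hyx
    have hnil : IsNilpotent (y * x) := ⟨m, Subtype.ext (by simpa using hm)⟩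
    obtain ⟨w, hw⟩ := hnil.isUnit_one_add
    refine ⟨↑w⁻¹, ?_⟩
    have h2 : (↑w⁻¹ : ↥(C.Lam F)) * y * x + ↑w⁻¹ - 1 = 0 := by
      have h3 : (↑w⁻¹ : ↥(C.Lam F)) * (1 + y * x) = 1 := by rw [← hw, Units.inv_mul]
      rw [mul_add, mul_one] at h3
      rw [mul_assoc, ← h3]
      abel
    rw [h2]
    exact Submodule.zero_mem _
  refine ⟨n, eq_bot_iff.2 fun x hx => ?_⟩
  have key : ∀ k : ℕ, ∀ x ∈ (lamN C F) ^ k, ∃ x' ∈ J ^ k, (x' : Matrix X X F) = x := by
    intro k
    induction k with
    | zero =>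
      intro x hx
      rw [pow_zero, Submodule.mem_one] at hx
      obtain ⟨c, rfl⟩ := hx
      refine ⟨algebraMap F _ c, ?_, rfl⟩
      rw [Submodule.pow_zero, Ideal.one_eq_top]
      exact Submodule.mem_top
    | succ k ih =>
      intro x hx
      rw [pow_succ] at hx
      refine Submodule.mul_induction_on hx (fun m hm z hz => ?_) (fun y z hy hz => ?_)
      · obtain ⟨m', hm', rfl⟩ := ih m hm
        refine ⟨m' * ⟨z, hz.1⟩, ?_, rfl⟩
        rw [Submodule.pow_succ]
        exact Ideal.mul_mem_mul hm' (hmem ⟨z, hz.1⟩ hz)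
      · obtain ⟨y', hy', rfl⟩ := hy
        obtain ⟨z', hz', rfl⟩ := hz
        exact ⟨y' + z', Ideal.add_mem _ hy' hz', rfl⟩
  obtain ⟨x', hx', rfl⟩ := key n x hx
  rw [hn] at hx'
  have : x' = 0 := by simpa using hx'
  rw [this]
  exact Submodule.zero_mem _

end

end PDeg
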