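import Pool.Agent.Lib.MP_369ee2_lc_PD.Ord

/-!
# Section 3: preliminaries on the base rings and on colour-constant matrices
-/

namespace PDeg

open scoped BigOperators Matrix

namespace S3

section base
variable {p : ℕ} {W K F : Type} [CommRing W] [IsDomain W] [Field K] [Algebra W K]
  [IsFractionRing W K] [Field F] [Algebra W F]

theorem p_ne (hB : Base p W K F) : (p : W) ≠ 0 := by
  intro h0
  have h3 : (p : K) = 0 := by
    rw [← map_natCast (algebraMap W K), h0, map_zero]
  have := hB.charZero
  exact hB.prime.ne_zero (Nat.cast_eq_zero.1 h3)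

theorem p_neK (hB : Base p W K F) : (p : K) ≠ 0 := by
  have := hB.charZero
  exact Nat.cast_ne_zero.2 hB.prime.ne_zero

theorem ker_eq (hB : Base p W K F) : RingHom.ker (algebraMap W F) = Ideal.span {(p : W)} := by
  ext w
  rw [RingHom.mem_ker, hB.ker, Ideal.mem_span_singleton]

theorem span_max (hB : Base p W K F) : (Ideal.span {(p : W)}).IsMaximal := by
  rw [← ker_eq hB]
  exact RingHom.ker_isMaximal_of_surjective (algebraMap W F) hB.surj

theorem max_eq (hB : Base p W K F) (_hd : IsDiscreteValuationRing W) :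
    IsLocalRing.maximalIdeal W = Ideal.span {(p : W)} :=
  (IsLocalRing.eq_maximalIdeal (span_max hB)).symm

theorem isUnit_of (hB : Base p W K F) {w : W} (hw : ¬ (p : W) ∣ w) : IsUnit w := by
  have hd := hB.dvr
  by_contra h
  have h1 : w ∈ IsLocalRing.maximalIdeal W := (IsLocalRing.mem_maximalIdeal _).2 h
  rw [max_eq hB hd, Ideal.mem_span_singleton] at h1
  exact hw h1

theorem irr (hB : Base p W K F) : Irreducible (p : W) := by
  have hd := hB.dvr
  rw [IsDiscreteValuationRing.irreducible_iff_uniformizer]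
  exact max_eq hB hd

theorem charP (hB : Base p W K F) : CharP F p := by
  have h0 : (p : F) = 0 := by
    rw [← map_natCast (algebraMap W F), hB.ker]
  exact (CharP.charP_iff_prime_eq_zero hB.prime).2 h0

theorem dvd_natCast (hB : Base p W K F) {n : ℕ} (h : (p : W) ∣ (n : W)) : p ∣ n := by
  have := charP hB
  rw [← hB.ker, map_natCast] at h
  exact (CharP.cast_eq_zero_iff F p n).1 h

theorem isUnit_natCast (hB : Base p W K F) {n : ℕ} (h : ¬ p ∣ n) : IsUnit (n : W) :=
  isUnit_of hB (fun h1 => h (dvd_natCast hB h1))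

theorem exists_pow (hB : Base p W K F) (c : K) : ∃ n : ℕ, IsInt W ((p : K) ^ n * c) := by
  have hd := hB.dvr
  obtain ⟨a, b, hb, rfl⟩ := IsFractionRing.div_surjective (A := W) c
  have hb0 : b ≠ 0 := nonZeroDivisors.ne_zero hb
  obtain ⟨n, u, hu⟩ := IsDiscreteValuationRing.associated_pow_irreducible hb0 (irr hB)
  refine ⟨n, a * u, ?_⟩
  have h1 : algebraMap W K b ≠ 0 := fun h0 =>
    hb0 ((IsFractionRing.injective W K) (by rw [h0, map_zero]))
  rw [map_mul]
  have h2 : algebraMap W K b * algebraMap W K u = (p : K) ^ n := by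
    rw [← map_mul, hu, map_pow, map_natCast]
  rw [← h2]
  field_simp

end base

section coh
variable {X : Type} [Fintype X] [DecidableEq X] (C : Coh X)

omit [DecidableEq X] in
theorem diag (x y : X) : C.r 2 ![x, x] ![y, y] := by
  have h := C.reindex (n := 1) (k := 2) (by norm_num) (by norm_num) (fun _ => 0)
    (fun _ => x) (fun _ => y) (C.hom _ _)
  convert h using 1 <;> · funext i; fin_cases i <;> rfl

omit [Fintype X] [DecidableEq X] in
theorem sn1 (x : X) (a : X) : sn (fun _ : Fin 1 => x) a = ![x, a] := by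
  funext i
  fin_cases i <;> rfl

omit [DecidableEq X] in
theorem swap {x : Fin 2 → X} {y : Fin 2 → X} (h : C.r 2 x y) :
    C.r 2 ![x 1, x 0] ![y 1, y 0] := by
  have h := C.reindex (n := 2) (k := 2) (by norm_num) (by norm_num) ![1, 0] _ _ h
  convert h using 1 <;> · funext i; fin_cases i <;> rfl

omit [DecidableEq X] in
theorem swap_iff (a b c d : X) : C.r 2 ![a, b] ![c, d] ↔ C.r 2 ![b, a] ![d, c] :=
  ⟨fun h => by simpa using swap C h, fun h => by simpa using swap C h⟩

variable {R : Type} [CommRing R]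

omit [DecidableEq X] in
theorem eta2 (x : Fin 2 → X) : ![x 0, x 1] = x := by
  funext i
  fin_cases i <;> rfl

theorem mem_lam {a : Matrix X X R} :
    a ∈ C.Lam R ↔ ∀ i j i' j', C.r 2 ![i, j] ![i', j'] → a i j = a i' j' := by
  rw [Coh.mem_Lam]
  constructor
  · intro h i j i' j' hr
    exact h _ _ hr
  · intro h x y hr
    refine h _ _ _ _ ?_
    rw [eta2, eta2]
    exact hr

theorem lam_diag {a : Matrix X X R} (ha : a ∈ C.Lam R) (x y : X) : a x x = a y y :=
  (mem_lam C).1 ha _ _ _ _ (diag C x y)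

theorem lam_transpose {a : Matrix X X R} (ha : a ∈ C.Lam R) : aᵀ ∈ C.Lam R := by
  rw [mem_lam] at ha ⊢
  intro i j i' j' hr
  exact ha _ _ _ _ ((swap_iff C _ _ _ _).1 hr)

theorem lam_map {S : Type} [CommRing S] {a : Matrix X X R} (ha : a ∈ C.Lam R) (φ : R → S) :
    a.map φ ∈ C.Lam S := by
  rw [mem_lam] at ha ⊢
  intro i j i' j' hr
  exact congrArg φ (ha _ _ _ _ hr)

theorem lam_row {a : Matrix X X R} (ha : a ∈ C.Lam R) (x y : X) :
    ∑ j, a x j = ∑ j, a y j := by
  have h := Coh.Cst.sum (C := C) (n := 1) (by norm_num) ha (fun _ => x) (fun _ => y) (C.hom _ _)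
  simpa [sn1] using h

theorem lam_col {a : Matrix X X R} (ha : a ∈ C.Lam R) (x y : X) :
    ∑ j, a j x = ∑ j, a j y :=
  lam_row C (lam_transpose C ha) x y

theorem lam_total_row {a : Matrix X X R} (ha : a ∈ C.Lam R) (x : X) :
    ∑ i, ∑ j, a i j = (Fintype.card X : R) * ∑ j, a x j := by
  rw [Finset.sum_congr rfl (fun i _ => lam_row C ha i x), Finset.sum_const, nsmul_eq_mul,
    Finset.card_univ]

theorem lam_trace {a : Matrix X X R} (ha : a ∈ C.Lam R) (x : X) :
    Matrix.trace a = (Fintype.card X : R) * a x x := by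
  have h : ∀ i ∈ Finset.univ, a.diag i = a x x := fun i _ => lam_diag C ha i x
  rw [Matrix.trace, Finset.sum_congr rfl h, Finset.sum_const, nsmul_eq_mul, Finset.card_univ]

/-- row sums equal column sums -/
theorem lam_row_col [IsDomain R] (h0 : (Fintype.card X : R) ≠ 0) {a : Matrix X X R}
    (ha : a ∈ C.Lam R) (x y : X) : ∑ j, a x j = ∑ i, a i y := by
  have h1 := lam_total_row C ha x
  have h2 := lam_total_row C (lam_transpose C ha) y
  simp only [Matrix.transpose_apply] at h2
  rw [Finset.sum_comm] at h2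
  rw [h1] at h2
  exact mul_left_cancel₀ h0 h2

theorem mul_JJ (a : Matrix X X R) (i j : X) : (a * JJ X R) i j = ∑ k, a i k := by
  simp [JJ, Matrix.mul_apply]

theorem JJ_mul (a : Matrix X X R) (i j : X) : (JJ X R * a) i j = ∑ k, a k j := by
  simp [JJ, Matrix.mul_apply]

/-- the class matrix -/
noncomputable def cls (C : Coh X) (R : Type) [CommRing R] (i j : X) : Matrix X X R := by
  classical
  exact Matrix.of (fun a b => if C.r 2 ![a, b] ![i, j] then 1 else 0)

open Classical in
theorem cls_apply (i j a b : X) :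
    cls C R i j a b = if C.r 2 ![a, b] ![i, j] then (1 : R) else 0 := by
  rw [cls, Matrix.of_apply]

theorem cls_mem (i j : X) : cls C R i j ∈ C.Lam R := by
  classical
  rw [mem_lam]
  intro a b a' b' h
  rw [cls_apply, cls_apply]
  have h1 : C.r 2 ![a, b] ![i, j] ↔ C.r 2 ![a', b'] ![i, j] :=
    ⟨fun h' => (C.equiv 2 (by norm_num)).trans ((C.equiv 2 (by norm_num)).symm h) h',
      fun h' => (C.equiv 2 (by norm_num)).trans h h'⟩
  simp only [h1]

/-- out-valency -/
noncomputable def vl (C : Coh X) (i j : X) : ℕ := Nat.card {w : X // C.r 2 ![i, w] ![i, j]}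

omit [DecidableEq X] in
theorem vl_pos (i j : X) : 0 < vl C i j := by
  have : Nonempty {w : X // C.r 2 ![i, w] ![i, j]} :=
    ⟨⟨j, (C.equiv 2 (by norm_num)).refl _⟩⟩
  exact Nat.card_pos

omit [DecidableEq X] in
theorem vl_lt (i j : X) : vl C i j < Fintype.card X := by
  have h := C.lt (n := 1) (by norm_num) (by norm_num) (fun _ => i) j
  simp only [sn1] at h
  exact h

theorem not_dvd_vl {p : ℕ} (hX : Fintype.card X = p) (i j : X) : ¬ p ∣ vl C i j := by
  intro h
  have h1 := vl_pos C i j
  have h2 := vl_lt C i j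
  rw [hX] at h2
  exact absurd (Nat.le_of_dvd h1 h) (by omega)

omit [DecidableEq X] in
theorem vl_eq {i j i' j' : X} (h : C.r 2 ![i, j] ![i', j']) : vl C i j = vl C i' j' := by
  have h1 := C.regular (n := 1) (by norm_num) ![i, j] (fun _ => i) (fun _ => i') (C.hom _ _)
  simp only [sn1] at h1
  rw [vl, vl, h1]
  refine Nat.card_congr (Equiv.subtypeEquivRight (fun w => ?_))
  exact ⟨fun h' => (C.equiv 2 (by norm_num)).trans h' h,
    fun h' => (C.equiv 2 (by norm_num)).trans h' ((C.equiv 2 (by norm_num)).symm h)⟩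

theorem sum_cls (i j : X) (x : X) : ∑ w, cls C R i j x w = (vl C i j : R) := by
  classical
  have h0 := lam_row C (cls_mem (R := R) C i j) x i
  rw [h0]
  simp only [cls_apply]
  rw [Finset.sum_boole, vl, Nat.card_eq_fintype_card, Fintype.card_subtype]

/-- in- and out-valencies agree -/
theorem vl_swap (i j : X) : vl C i j = vl C j i := by
  have h1 := sum_cls (R := ℤ) C i j i
  have h2 := sum_cls (R := ℤ) C j i i
  have h3 := lam_row_col (R := ℤ) C (by
    have : Nonempty X := ⟨i⟩
    exact Nat.cast_ne_zero.2 (Fintype.card_ne_zero)) (cls_mem (R := ℤ) C i j) i i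
  have h4 : ∀ a b, cls C ℤ i j a b = cls C ℤ j i b a := by
    classical
    intro a b
    rw [cls_apply, cls_apply]
    simp only [swap_iff C a b i j]
  rw [h1] at h3
  simp only [h4] at h3
  rw [h2] at h3
  exact_mod_cast h3

end coh

end S3

end PDeg
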