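import Pool.Agent.Lib.MP_369ee2_lc_PD.OrderSym
import Pool.Agent.Lib.MP_369ee2_lc_PD.LamF
import Pool.Agent.Lib.MP_369ee2_lc_PD.Sec3Base

/-!
# `Λ_W` is local (row S4)
-/

namespace PDeg

open scoped BigOperators Matrix

section
variable {X : Type} [Fintype X] [DecidableEq X] (C : Coh X)

/-- `J / p` -/
noncomputable def fJ (K : Type) [Field K] : ↥(C.Lam K) :=
  ((Fintype.card X : K)⁻¹) • (⟨JJ X K, JJ_mem C K⟩ : ↥(C.Lam K))

variable {p : ℕ} {W K F : Type}
  [CommRing W] [IsDomain W] [Field K] [Algebra W K] [IsFractionRing W K] [Field F] [Algebra W F]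

/-- the radical of `Λ_W` -/
def lamRad (p : ℕ) (W K : Type) [CommRing W] [Field K] [Algebra W K] :
    Submodule W ↥(C.Lam K) where
  carrier := {a | a ∈ LamO C W K ∧
    ∀ x, ∃ w : W, ∑ y, (a : Matrix X X K) x y = (p : K) * algebraMap W K w}
  add_mem' := by
    rintro a b ⟨ha, ha'⟩ ⟨hb, hb'⟩
    refine ⟨(LamO C W K).add_mem ha hb, fun x => ?_⟩
    obtain ⟨w, hw⟩ := ha' x
    obtain ⟨v, hv⟩ := hb' x
    refine ⟨w + v, ?_⟩
    change ∑ y, ((a : Matrix X X K) x y + (b : Matrix X X K) x y) = _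
    rw [Finset.sum_add_distrib, hw, hv, map_add, mul_add]
  zero_mem' := by
    refine ⟨(LamO C W K).zero_mem, fun x => ⟨0, ?_⟩⟩
    change ∑ y, (0 : K) = _
    simp
  smul_mem' := by
    rintro c a ⟨ha, ha'⟩
    refine ⟨(LamO C W K).smul_mem ha c, fun x => ?_⟩
    obtain ⟨w, hw⟩ := ha' x
    refine ⟨c * w, ?_⟩
    change ∑ y, c • ((a : Matrix X X K) x y) = _
    rw [← Finset.smul_sum, hw, Algebra.smul_def, map_mul]
    ring

omit [IsDomain W] [IsFractionRing W K] in
theorem mem_lamRad {a : ↥(C.Lam K)} : a ∈ lamRad C p W K ↔ a ∈ LamO C W K ∧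
    ∀ x, ∃ w : W, ∑ y, (a : Matrix X X K) x y = (p : K) * algebraMap W K w := Iff.rfl

omit [IsDomain W] [IsFractionRing W K] in
theorem lamO_rowsum {a : ↥(C.Lam K)} (ha : a ∈ LamO C W K) (x : X) :
    IsInt W (∑ y, (a : Matrix X X K) x y) := IsInt.sum _ (fun j _ => ha x j)

/-- reduction of the powers of the radical -/
theorem lamRad_pow (hB : Base p W K F) (n : ℕ) (x : ↥(C.Lam K)) (hx : x ∈ (lamRad C p W K) ^ n) :
    ∃ M : Matrix X X W, M.map (algebraMap W K) = (x : Matrix X X K) ∧
      M.map (algebraMap W F) ∈ (lamN C F) ^ n := by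
  have hinj : Function.Injective (algebraMap W K) := IsFractionRing.injective W K
  induction n generalizing x with
  | zero =>
    rw [pow_zero, Submodule.mem_one] at hx
    obtain ⟨w, rfl⟩ := hx
    refine ⟨algebraMap W (Matrix X X W) w, ?_, ?_⟩
    · change (algebraMap W K).mapMatrix (algebraMap W (Matrix X X W) w) =
        algebraMap W (Matrix X X K) w
      ext i j
      rw [RingHom.mapMatrix_apply, Matrix.map_apply, Matrix.algebraMap_matrix_apply,
        Matrix.algebraMap_matrix_apply]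
      split_ifs <;> simp
    · rw [pow_zero, Submodule.mem_one]
      refine ⟨algebraMap W F w, ?_⟩
      ext i j
      rw [Matrix.map_apply, Matrix.algebraMap_matrix_apply, Matrix.algebraMap_matrix_apply]
      split_ifs <;> simp
  | succ n ih =>
    rw [pow_succ] at hx
    refine Submodule.mul_induction_on hx (fun m hm z hz => ?_) (fun y z hy hz => ?_)
    · obtain ⟨M, hM, hM'⟩ := ih m hm
      obtain ⟨hz1, hz2⟩ := hz
      choose Z hZ using hz1
      have hZe : (Matrix.of Z).map (algebraMap W K) = (z : Matrix X X K) := by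
        ext i j
        exact hZ i j
      refine ⟨M * Matrix.of Z, ?_, ?_⟩
      · rw [Matrix.map_mul, hM, hZe]
        rfl
      · rw [Matrix.map_mul, pow_succ]
        refine Submodule.mul_mem_mul hM' ⟨?_, ?_⟩
        · have h1 : Matrix.of Z ∈ C.Lam W := by
            intro s t hst
            apply hinj
            have h2 := z.2 s t hst
            change (z : Matrix X X K) (s 0) (s 1) = (z : Matrix X X K) (t 0) (t 1) at h2
            rw [← hZe] at h2
            exact h2
          exact S3.lam_map C h1 _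
        · intro i
          obtain ⟨w, hw⟩ := hz2 i
          have h1 : ∑ j, Z i j = (p : W) * w := by
            apply hinj
            rw [map_sum, map_mul, map_natCast, ← hw]
            exact Finset.sum_congr rfl fun j _ => hZ i j
          change ∑ j, algebraMap W F (Z i j) = 0
          rw [← map_sum, h1, hB.ker]
          exact dvd_mul_right _ _
    · obtain ⟨M, hM, hM'⟩ := hy
      obtain ⟨N, hN, hN'⟩ := hz
      refine ⟨M + N, ?_, ?_⟩
      · rw [Matrix.map_add _ (map_add _), hM, hN]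
        rfl
      · rw [Matrix.map_add _ (map_add _)]
        exact Submodule.add_mem _ hM' hN'

/-- `1` is a local idempotent of `Λ_W` -/
theorem lam_loc (hB : Base p W K F) (hX : Fintype.card X = p) :
    ∃ E : LocIdem p (LamO C W K), E.e = 1 ∧ ∀ a : ↥(C.Lam K), a ∈ E.rad ↔
      a ∈ LamO C W K ∧ ∀ x, ∃ w : W, ∑ y, (a : Matrix X X K) x y = (p : K) * algebraMap W K w := by
  have hinj : Function.Injective (algebraMap W K) := IsFractionRing.injective W K
  have hp0 : (p : K) ≠ 0 := S3.p_neK hB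
  obtain ⟨x0⟩ : Nonempty X := Fintype.card_pos_iff.1 (by rw [hX]; exact hB.prime.pos)
  refine ⟨{ e := 1
            rad := lamRad C p W K
            mem := (LamO C W K).one_mem
            idem := one_mul 1
            rad_mem := fun x hx => hx.1
            rad_left := fun x _ => one_mul x
            rad_right := fun x _ => mul_one x
            mul_left := ?_
            mul_right := ?_
            p_mem := ?_
            not_mem := ?_
            decomp := ?_
            nilp := ?_ }, rfl, fun a => Iff.rfl⟩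
  · intro x hx y hy
    rw [one_mul]
    refine ⟨(LamO C W K).mul_mem hx hy.1, fun i => ?_⟩
    choose w hw using hy.2
    choose v hv using hx
    refine ⟨∑ k, v i k * w k, ?_⟩
    change ∑ j, ((x : Matrix X X K) * (y : Matrix X X K)) i j = _
    simp only [Matrix.mul_apply]
    rw [Finset.sum_comm, map_sum, Finset.mul_sum]
    refine Finset.sum_congr rfl fun k _ => ?_
    rw [← Finset.mul_sum, hw k, map_mul, hv i k]
    ring
  · intro x hx y hy
    rw [mul_one]
    refine ⟨(LamO C W K).mul_mem hy.1 hx, fun i => ?_⟩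
    obtain ⟨w, hw⟩ := hy.2 i
    obtain ⟨v, hv⟩ := lamO_rowsum C hx x0
    refine ⟨w * v, ?_⟩
    change ∑ j, ((y : Matrix X X K) * (x : Matrix X X K)) i j = _
    simp only [Matrix.mul_apply]
    rw [Finset.sum_comm]
    have h1 : ∀ k ∈ Finset.univ, ∑ j, (y : Matrix X X K) i k * (x : Matrix X X K) k j =
        (y : Matrix X X K) i k * algebraMap W K v := by
      intro k _
      rw [← Finset.mul_sum, S3.lam_row C x.2 k x0, hv]
    rw [Finset.sum_congr rfl h1, ← Finset.sum_mul, hw, map_mul]
    ring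
  · rw [mul_one]
    refine ⟨?_, fun i => ⟨1, ?_⟩⟩
    · exact (LamO C W K).natCast_mem p
    · have h1 : (((p : ↥(C.Lam K)) : ↥(C.Lam K)) : Matrix X X K) = (p : Matrix X X K) := by
        push_cast
        rfl
      rw [h1]
      have h2 : ∀ j ∈ Finset.univ, (p : Matrix X X K) i j = if i = j then (p : K) else 0 := by
        intro j _
        rw [← Matrix.diagonal_natCast]
        simp [Matrix.diagonal_apply]
      rw [Finset.sum_congr rfl h2]
      simp
  · rintro ⟨-, h⟩
    obtain ⟨w, hw⟩ := h x0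
    change ∑ j, (1 : Matrix X X K) x0 j = _ at hw
    have h1 : ∑ j, (1 : Matrix X X K) x0 j = 1 := by
      simp [Matrix.one_apply]
    rw [h1] at hw
    have h2 : (1 : W) = (p : W) * w := by
      apply hinj
      rw [map_one, map_mul, map_natCast, hw]
    have h3 : algebraMap W F 1 = 0 := (hB.ker 1).2 ⟨w, h2⟩
    rw [map_one] at h3
    exact one_ne_zero h3
  · intro x hx
    obtain ⟨v, hv⟩ := lamO_rowsum C hx x0
    refine ⟨v, ?_⟩
    rw [one_mul, mul_one]
    refine ⟨(LamO C W K).sub_mem hx ((LamO C W K).smul_mem (LamO C W K).one_mem v),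
      fun i => ⟨0, ?_⟩⟩
    change ∑ j, ((x : Matrix X X K) i j - v • (1 : Matrix X X K) i j) = _
    rw [Finset.sum_sub_distrib, S3.lam_row C x.2 i x0, ← hv, ← Finset.smul_sum]
    have h1 : ∑ j, (1 : Matrix X X K) i j = 1 := by
      simp [Matrix.one_apply]
    rw [h1, Algebra.smul_def, mul_one, sub_self, map_zero, mul_zero]
  · obtain ⟨n, hn⟩ := lamF_nilp C (S3.charP hB) hB.prime hX
    refine ⟨n, fun x hx => ?_⟩
    obtain ⟨M, hM, hM'⟩ := lamRad_pow C hB n x hx
    rw [hn, Submodule.mem_bot] at hM'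
    have h1 : ∀ i j, ∃ w, M i j = (p : W) * w := fun i j => (hB.ker (M i j)).1
      (congrFun (congrFun hM' i) j)
    choose N hN using h1
    have hNe : (p : K) • (Matrix.of N).map (algebraMap W K) = (x : Matrix X X K) := by
      rw [← hM]
      ext i j
      rw [Matrix.smul_apply, Matrix.map_apply, Matrix.map_apply, hN, map_mul, map_natCast,
        smul_eq_mul, Matrix.of_apply]
    have hNx : (Matrix.of N).map (algebraMap W K) = (p : K)⁻¹ • (x : Matrix X X K) := by
      rw [← hNe, smul_smul, inv_mul_cancel₀ hp0, one_smul]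
    refine ⟨⟨(Matrix.of N).map (algebraMap W K), ?_⟩, fun i j => ⟨N i j, rfl⟩, ?_⟩
    · rw [hNx]
      exact (C.Lam K).smul_mem x.2 _
    · apply Subtype.ext
      refine hNe.symm.trans ?_
      rw [← nsmul_eq_mul, ← Nat.cast_smul_eq_nsmul K]
      rfl

/-- `J / p` is good -/
theorem lam_good (hB : Base p W K F) (hX : Fintype.card X = p) (E : LocIdem p (LamO C W K))
    (h1 : E.e = 1) (h2 : ∀ a : ↥(C.Lam K), a ∈ E.rad ↔
      a ∈ LamO C W K ∧ ∀ x, ∃ w : W, ∑ y, (a : Matrix X X K) x y = (p : K) * algebraMap W K w) :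
    Good E (fJ C K) := by
  have hinj : Function.Injective (algebraMap W K) := IsFractionRing.injective W K
  have hp0 : (p : K) ≠ 0 := S3.p_neK hB
  have hX0 : (Fintype.card X : K) ≠ 0 := by rw [hX]; exact hp0
  obtain ⟨x0⟩ : Nonempty X := Fintype.card_pos_iff.1 (by rw [hX]; exact hB.prime.pos)
  have hcoe : ((fJ C K : ↥(C.Lam K)) : Matrix X X K) = ((Fintype.card X : K)⁻¹) • JJ X K := rfl
  have hL : ∀ (a : ↥(C.Lam K)) (i j : X), ((fJ C K * a : ↥(C.Lam K)) : Matrix X X K) i j =
      (p : K)⁻¹ * ∑ l, (a : Matrix X X K) x0 l := by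
    intro a i j
    change (((Fintype.card X : K)⁻¹ • JJ X K) * (a : Matrix X X K)) i j = _
    rw [Matrix.smul_mul, Matrix.smul_apply, S3.JJ_mul, ← S3.lam_row_col C hX0 a.2 x0 j, hX,
      smul_eq_mul]
  have hR : ∀ (a : ↥(C.Lam K)) (i j : X), ((a * fJ C K : ↥(C.Lam K)) : Matrix X X K) i j =
      (p : K)⁻¹ * ∑ l, (a : Matrix X X K) x0 l := by
    intro a i j
    change ((a : Matrix X X K) * ((Fintype.card X : K)⁻¹ • JJ X K)) i j = _
    rw [Matrix.mul_smul, Matrix.smul_apply, S3.mul_JJ, S3.lam_row C a.2 i x0, hX, smul_eq_mul]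
  have hap : ∀ i j, ((fJ C K : ↥(C.Lam K)) : Matrix X X K) i j = (p : K)⁻¹ := by
    intro i j
    rw [hcoe, Matrix.smul_apply, hX]
    simp [JJ]
  refine ⟨?_, ?_, ?_, ?_, ?_, ?_⟩
  · apply Subtype.ext
    ext i j
    rw [hL, hap]
    simp only [hap]
    rw [Finset.sum_const, Finset.card_univ, hX, nsmul_eq_mul, mul_inv_cancel₀ hp0, mul_one]
  · rw [h1, one_mul]
  · rw [h1, mul_one]
  · intro x
    rw [h1, one_mul, mul_one]
    apply Subtype.ext
    ext i j
    rw [hL, hR]
  · intro h
    obtain ⟨w, hw⟩ := h x0 x0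
    rw [hap] at hw
    have h3 : (1 : W) = (p : W) * w := by
      apply hinj
      rw [map_one, map_mul, map_natCast, hw, mul_inv_cancel₀ hp0]
    have h4 : algebraMap W F 1 = 0 := (hB.ker 1).2 ⟨w, h3⟩
    rw [map_one] at h4
    exact one_ne_zero h4
  · intro x hx i j
    obtain ⟨w, hw⟩ := ((h2 x).1 hx).2 x0
    rw [hL, hw, ← mul_assoc, inv_mul_cancel₀ hp0, one_mul]
    exact ⟨w, rfl⟩

end

end PDeg
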