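import Pool.Agent.Lib.MP_369ee2_lc_PD.BZ
import Pool.Agent.Lib.MP_369ee2_lc_PD.LamLoc
import Pool.Agent.Lib.MP_369ee2_lc_PD.Dim3P

/-!
# The diagonal idempotent `δ` (row S9), first half

The transport of a local idempotent along the diagonal embedding is by helper18.
-/

namespace PDeg

open scoped BigOperators Matrix

set_option linter.unusedSectionVars false

section
variable {X : Type} [Fintype X] [DecidableEq X] (C : Coh X)

section
variable (K : Type) [Field K]

/-- `Λ_K → P_K`, on the diagonal block -/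
def dAm : ↥(C.Lam K) →ₗ[K] ↥(C.PP K) where
  toFun a := ⟨tδ (a : Matrix X X K), tδ_mem C K a.2⟩
  map_add' a b := by
    apply Subtype.ext
    ext i j
    change tδ ((a : Matrix X X K) + (b : Matrix X X K)) i j = tδ (a : Matrix X X K) i j + tδ (b : Matrix X X K) i j
    simp only [tδ, Matrix.of_apply, Matrix.add_apply]
    split_ifs <;> simp
  map_smul' c a := by
    apply Subtype.ext
    ext i j
    change tδ (c • (a : Matrix X X K)) i j = c * tδ (a : Matrix X X K) i j
    simp only [tδ, Matrix.of_apply, Matrix.smul_apply, smul_eq_mul]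
    split_ifs <;> simp

theorem dA_apply (a : ↥(C.Lam K)) (i j : X × X) :
    ((dAm C K a : ↥(C.PP K)) : Matrix (X × X) (X × X) K) i j =
      if i.1 = i.2 ∧ j.1 = j.2 then (a : Matrix X X K) i.1 j.1 else 0 := rfl

theorem dA_diag (a : ↥(C.Lam K)) (u v : X) :
    ((dAm C K a : ↥(C.PP K)) : Matrix (X × X) (X × X) K) (u, u) (v, v) =
      (a : Matrix X X K) u v := by
  rw [dA_apply, if_pos ⟨rfl, rfl⟩]

theorem dA_inj : Function.Injective (dAm C K) := by
  intro a b h
  apply Subtype.ext
  ext u v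
  rw [← dA_diag, h, dA_diag]

theorem dA_mul (a b : ↥(C.Lam K)) : dAm C K (a * b) = dAm C K a * dAm C K b := by
  apply Subtype.ext
  ext i j
  change _ = (((dAm C K a : ↥(C.PP K)) : Matrix (X × X) (X × X) K) *
    ((dAm C K b : ↥(C.PP K)) : Matrix (X × X) (X × X) K)) i j
  rw [Matrix.mul_apply, Fintype.sum_prod_type, dA_apply]
  change (if _ then ((a : Matrix X X K) * (b : Matrix X X K)) i.1 j.1 else 0) = _
  rw [Matrix.mul_apply]
  by_cases hi : i.1 = i.2
  · by_cases hj : j.1 = j.2
    · rw [if_pos ⟨hi, hj⟩]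
      refine Finset.sum_congr rfl fun u _ => ?_
      rw [Finset.sum_eq_single u]
      · rw [dA_apply, dA_apply, if_pos ⟨hi, rfl⟩, if_pos ⟨rfl, hj⟩]
      · intro v _ hv
        rw [dA_apply, if_neg (fun h => hv h.2.symm), zero_mul]
      · intro h
        exact absurd (Finset.mem_univ u) h
    · rw [if_neg (fun h => hj h.2)]
      symm
      refine Finset.sum_eq_zero fun u _ => Finset.sum_eq_zero fun v _ => ?_
      rw [dA_apply C K b, if_neg (fun h => hj h.2), mul_zero]
  · rw [if_neg (fun h => hi h.1)]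
    symm
    refine Finset.sum_eq_zero fun u _ => Finset.sum_eq_zero fun v _ => ?_
    rw [dA_apply C K a, if_neg (fun h => hi h.1), zero_mul]

/-- the restriction of an element of `P_K` to the diagonal -/
def dAr (x : ↥(C.PP K)) : ↥(C.Lam K) :=
  ⟨Matrix.of fun u v => (x : Matrix (X × X) (X × X) K) (u, u) (v, v), by
    intro s t h
    exact x.2 _ _ (C.reindex (n := 2) (k := 4) (by norm_num) (by norm_num) ![0, 0, 1, 1] _ _ h)⟩

theorem dAr_apply (x : ↥(C.PP K)) (u v : X) :
    ((dAr C K x : ↥(C.Lam K)) : Matrix X X K) u v =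
      (x : Matrix (X × X) (X × X) K) (u, u) (v, v) := rfl

theorem dA_one_mul_apply (x : ↥(C.PP K)) (i j : X × X) :
    ((dAm C K 1 * x : ↥(C.PP K)) : Matrix (X × X) (X × X) K) i j =
      if i.1 = i.2 then (x : Matrix (X × X) (X × X) K) i j else 0 := by
  change (((dAm C K 1 : ↥(C.PP K)) : Matrix (X × X) (X × X) K) *
    (x : Matrix (X × X) (X × X) K)) i j = _
  rw [Matrix.mul_apply]
  have h1 : ∀ l : X × X, ((dAm C K 1 : ↥(C.PP K)) : Matrix (X × X) (X × X) K) i l =
      if i.1 = i.2 ∧ i = l then 1 else 0 := by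
    intro l
    rw [dA_apply]
    change (if i.1 = i.2 ∧ l.1 = l.2 then (1 : Matrix X X K) i.1 l.1 else 0) = _
    rw [Matrix.one_apply]
    by_cases hi : i.1 = i.2
    · by_cases hl : l.1 = l.2
      · rw [if_pos ⟨hi, hl⟩]
        by_cases h : i.1 = l.1
        · rw [if_pos h, if_pos ⟨hi, Prod.ext h (hi.symm.trans (h.trans hl))⟩]
        · rw [if_neg h, if_neg (fun hh => h (congrArg Prod.fst hh.2))]
      · rw [if_neg (fun h => hl h.2), if_neg]
        rintro ⟨-, rfl⟩
        exact hl hi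
    · rw [if_neg (fun h => hi h.1), if_neg (fun h => hi h.1)]
  rw [Finset.sum_congr rfl fun l _ => by rw [h1 l]]
  by_cases hi : i.1 = i.2
  · rw [if_pos hi, Finset.sum_eq_single i]
    · rw [if_pos ⟨hi, rfl⟩, one_mul]
    · intro l _ hl
      rw [if_neg (fun h => hl h.2.symm), zero_mul]
    · intro h
      exact absurd (Finset.mem_univ i) h
  · rw [if_neg hi]
    exact Finset.sum_eq_zero fun l _ => by rw [if_neg (fun h => hi h.1), zero_mul]

theorem dA_mul_one_apply (x : ↥(C.PP K)) (i j : X × X) :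
    ((x * dAm C K 1 : ↥(C.PP K)) : Matrix (X × X) (X × X) K) i j =
      if j.1 = j.2 then (x : Matrix (X × X) (X × X) K) i j else 0 := by
  change ((x : Matrix (X × X) (X × X) K) *
    ((dAm C K 1 : ↥(C.PP K)) : Matrix (X × X) (X × X) K)) i j = _
  rw [Matrix.mul_apply]
  have h1 : ∀ l : X × X, ((dAm C K 1 : ↥(C.PP K)) : Matrix (X × X) (X × X) K) l j =
      if j.1 = j.2 ∧ l = j then 1 else 0 := by
    intro l
    rw [dA_apply]
    change (if l.1 = l.2 ∧ j.1 = j.2 then (1 : Matrix X X K) l.1 j.1 else 0) = _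
    rw [Matrix.one_apply]
    by_cases hj : j.1 = j.2
    · by_cases hl : l.1 = l.2
      · rw [if_pos ⟨hl, hj⟩]
        by_cases h : l.1 = j.1
        · rw [if_pos h, if_pos ⟨hj, Prod.ext h (hl.symm.trans (h.trans hj))⟩]
        · rw [if_neg h, if_neg (fun hh => h (congrArg Prod.fst hh.2))]
      · rw [if_neg (fun h => hl h.1), if_neg]
        rintro ⟨-, rfl⟩
        exact hl hj
    · rw [if_neg (fun h => hj h.2), if_neg (fun h => hj h.1)]
  rw [Finset.sum_congr rfl fun l _ => by rw [h1 l]]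
  by_cases hj : j.1 = j.2
  · rw [if_pos hj, Finset.sum_eq_single j]
    · rw [if_pos ⟨hj, rfl⟩, mul_one]
    · intro l _ hl
      rw [if_neg (fun h => hl h.2), mul_zero]
    · intro h
      exact absurd (Finset.mem_univ j) h
  · rw [if_neg hj]
    exact Finset.sum_eq_zero fun l _ => by rw [if_neg (fun h => hj h.1), mul_zero]

theorem dA_corner (x : ↥(C.PP K)) : dAm C K 1 * x * dAm C K 1 = dAm C K (dAr C K x) := by
  apply Subtype.ext
  ext i j
  rw [dA_mul_one_apply, dA_apply, dAr_apply]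
  by_cases hj : j.1 = j.2
  · rw [if_pos hj, dA_one_mul_apply]
    by_cases hi : i.1 = i.2
    · rw [if_pos hi, if_pos ⟨hi, hj⟩]
      have e1 : i = (i.1, i.1) := Prod.ext rfl hi.symm
      have e2 : j = (j.1, j.1) := Prod.ext rfl hj.symm
      rw [← e1, ← e2]
    · rw [if_neg hi, if_neg (fun h => hi h.1)]
  · rw [if_neg hj, if_neg (fun h => hj h.2)]

theorem dA_one_mul (a : ↥(C.Lam K)) : dAm C K 1 * dAm C K a = dAm C K a := by
  rw [← dA_mul, one_mul]

theorem dA_mul_one (a : ↥(C.Lam K)) : dAm C K a * dAm C K 1 = dAm C K a := by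
  rw [← dA_mul, mul_one]

theorem dA_trace (a : ↥(C.Lam K)) :
    Matrix.trace ((dAm C K a : ↥(C.PP K)) : Matrix (X × X) (X × X) K) =
      Matrix.trace (a : Matrix X X K) := by
  rw [Matrix.trace, Fintype.sum_prod_type, Matrix.trace]
  refine Finset.sum_congr rfl fun u _ => ?_
  rw [Finset.sum_eq_single u]
  · rw [Matrix.diag_apply, dA_diag, Matrix.diag_apply]
  · intro v _ hv
    rw [Matrix.diag_apply, dA_apply, if_neg (fun h => hv h.1.symm)]
  · intro h
    exact absurd (Finset.mem_univ u) h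

theorem dA_tauP (a : ↥(C.Lam K)) : tauP C K (dAm C K a) = tauL C K a := by
  rw [tauP_apply, tauL_apply, dA_trace]

end

variable {p : ℕ} {W K F : Type}
  [CommRing W] [IsDomain W] [Field K] [Algebra W K] [IsFractionRing W K] [Field F] [Algebra W F]

theorem dA_mem_iff (a : ↥(C.Lam K)) : dAm C K a ∈ PPO C W K ↔ a ∈ LamO C W K := by
  rw [mem_PPO, mem_LamO]
  constructor
  · intro h u v
    have := h (u, u) (v, v)
    rwa [dA_diag] at this
  · intro h i j
    rw [dA_apply]
    split_ifs with hh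
    · exact h _ _
    · exact IsInt.zero

theorem dAr_mem {x : ↥(C.PP K)} (hx : x ∈ PPO C W K) : dAr C K x ∈ LamO C W K := by
  rw [mem_LamO]
  intro u v
  exact hx (u, u) (v, v)

/-- `dAm` over `W` -/
def dAW (W K : Type) [CommRing W] [Field K] [Algebra W K] : ↥(C.Lam K) →ₗ[W] ↥(C.PP K) where
  toFun := dAm C K
  map_add' := (dAm C K).map_add
  map_smul' w a := by
    apply Subtype.ext
    ext i j
    change (if i.1 = i.2 ∧ j.1 = j.2 then w • (a : Matrix X X K) i.1 j.1 else 0) =
      w • (if i.1 = i.2 ∧ j.1 = j.2 then (a : Matrix X X K) i.1 j.1 else 0)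
    split_ifs <;> simp

theorem dAW_apply (a : ↥(C.Lam K)) : dAW C W K a = dAm C K a := rfl

/-- the local idempotent `δ` of `P_W` -/
theorem dA_loc (E : LocIdem p (LamO C W K)) (h1 : E.e = 1) :
    ∃ D : LocIdem p (PPO C W K), D.e = dAm C K 1 ∧
      (∀ x, x ∈ D.rad ↔ ∃ a ∈ E.rad, dAm C K a = x) := by
  have hcor : ∀ x : ↥(C.PP K), ∀ a : ↥(C.Lam K), dAm C K 1 * x * dAm C K a =
      dAm C K (dAr C K x * a) := by
    intro x a
    rw [dA_mul, ← dA_corner, mul_assoc (dAm C K 1 * x), dA_one_mul]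
  have hcor' : ∀ x : ↥(C.PP K), ∀ a : ↥(C.Lam K), dAm C K a * x * dAm C K 1 =
      dAm C K (a * dAr C K x) := by
    intro x a
    rw [dA_mul, ← dA_corner, ← mul_assoc, ← mul_assoc, dA_mul_one]
  refine ⟨{
    e := dAm C K 1
    rad := E.rad.map (dAW C W K)
    mem := (dA_mem_iff C 1).2 (LamO C W K).one_mem
    idem := by rw [← dA_mul, one_mul]
    rad_mem := ?_
    rad_left := ?_
    rad_right := ?_
    mul_left := ?_
    mul_right := ?_
    p_mem := ?_
    not_mem := ?_
    decomp := ?_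
    nilp := ?_ }, rfl, fun x => Iff.rfl⟩
  · rintro _ ⟨a, ha, rfl⟩
    exact (dA_mem_iff C a).2 (E.rad_mem a ha)
  · rintro _ ⟨a, ha, rfl⟩
    exact dA_one_mul C K a
  · rintro _ ⟨a, ha, rfl⟩
    exact dA_mul_one C K a
  · rintro x hx _ ⟨a, ha, rfl⟩
    refine ⟨dAr C K x * a, ?_, (hcor x a).symm⟩
    have := E.mul_left (dAr C K x) (dAr_mem C hx) a ha
    rwa [h1, one_mul] at this
  · rintro x hx _ ⟨a, ha, rfl⟩
    refine ⟨a * dAr C K x, ?_, (hcor' x a).symm⟩
    have := E.mul_right (dAr C K x) (dAr_mem C hx) a ha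
    rwa [h1, mul_one] at this
  · refine ⟨(p : ↥(C.Lam K)) * 1, ?_, ?_⟩
    · have := E.p_mem
      rwa [h1] at this
    · rw [dAW_apply]
      have e1 : (p : ↥(C.Lam K)) * 1 = (p : K) • (1 : ↥(C.Lam K)) := by
        rw [mul_one, Algebra.smul_def, mul_one, map_natCast]
      have e2 : (p : ↥(C.PP K)) * dAm C K 1 = (p : K) • dAm C K 1 := by
        rw [Algebra.smul_def, map_natCast]
      rw [e1, e2, map_smul]
  · rintro ⟨a, ha, h⟩
    rw [dAW_apply] at h
    have := dA_inj C K h
    rw [this, ← h1] at ha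
    exact E.not_mem ha
  · intro x hx
    obtain ⟨w, hw⟩ := E.decomp (dAr C K x) (dAr_mem C hx)
    rw [h1, one_mul, mul_one] at hw
    refine ⟨w, _, hw, ?_⟩
    rw [map_sub, map_smul, dAW_apply, dAW_apply, dA_corner]
  · obtain ⟨n, hn⟩ := E.nilp
    refine ⟨n + 1, ?_⟩
    have key : ∀ m : ℕ, (E.rad.map (dAW C W K)) ^ (m + 1) ≤ (E.rad ^ (m + 1)).map (dAW C W K) := by
      intro m
      induction m with
      | zero => simp
      | succ m ih =>
        rw [pow_succ]
        refine Submodule.mul_le.2 ?_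
        rintro x hx _ ⟨b, hb, rfl⟩
        obtain ⟨a, ha, rfl⟩ := ih hx
        refine ⟨a * b, ?_, ?_⟩
        · rw [pow_succ]
          exact Submodule.mul_mem_mul ha hb
        · rw [dAW_apply, dAW_apply, dAW_apply, dA_mul]
    intro x hx
    obtain ⟨a, ha, rfl⟩ := key n hx
    have h2 : ∃ y ∈ LamO C W K, a = (p : ↥(C.Lam K)) * y := by
      clear hx
      rw [pow_succ] at ha
      induction ha using Submodule.mul_induction_on' with
      | mem_mul_mem u hu v hv =>
        obtain ⟨y, hy, rfl⟩ := hn u hu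
        exact ⟨y * v, (LamO C W K).mul_mem hy (E.rad_mem v hv), by rw [mul_assoc]⟩
      | add u _ v _ hu hv =>
        obtain ⟨y, hy, rfl⟩ := hu
        obtain ⟨z, hz, rfl⟩ := hv
        exact ⟨y + z, (LamO C W K).add_mem hy hz, by rw [mul_add]⟩
    obtain ⟨y, hy, rfl⟩ := h2
    refine ⟨dAm C K y, (dA_mem_iff C y).2 hy, ?_⟩
    rw [dAW_apply]
    have e1 : (p : ↥(C.Lam K)) * y = (p : K) • y := by
      rw [Algebra.smul_def, map_natCast]
    have e2 : (p : ↥(C.PP K)) * dAm C K y = (p : K) • dAm C K y := by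
      rw [Algebra.smul_def, map_natCast]
    rw [e1, e2, map_smul]

/-- `δ (J / p)` is good -/
theorem dA_good (E : LocIdem p (LamO C W K)) (h1 : E.e = 1) {g : ↥(C.Lam K)}
    (hg : Good E g) (D : LocIdem p (PPO C W K)) (hD : D.e = dAm C K 1)
    (hr : ∀ x, x ∈ D.rad ↔ ∃ a ∈ E.rad, dAm C K a = x) : Good D (dAm C K g) where
  idem := by rw [← dA_mul, hg.idem]
  left := by rw [hD, dA_one_mul]
  right := by rw [hD, dA_mul_one]
  central := by
    intro x
    rw [hD, dA_corner, ← dA_mul, ← dA_mul]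
    have := hg.central (dAr C K x)
    rw [h1, one_mul, mul_one] at this
    rw [this]
  not_mem := fun h => hg.not_mem ((dA_mem_iff C g).1 h)
  rad := by
    intro x hx
    obtain ⟨a, ha, rfl⟩ := (hr x).1 hx
    rw [← dA_mul]
    exact (dA_mem_iff C _).2 (hg.rad a ha)

end

section
variable {X : Type} [Fintype X] [DecidableEq X] {C : Coh X}
variable {p : ℕ} {W K F : Type}
  [CommRing W] [IsDomain W] [Field K] [Algebra W K] [IsFractionRing W K] [Field F] [Algebra W F]
variable {k d : ℕ} {y : Matrix X X W} {ζ0 : W} {ζ : W} {i0 : Fin k} {b : Fin k → ↥(C.PP K)}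

theorem dA_dl : dl C K = dAm C K 1 := rfl

theorem dA_ftr : ftr C K = dAm C K (fJ C K) := rfl

theorem dl_idem : dl C K * dl C K = dl C K := by
  rw [dA_dl, ← dA_mul, one_mul]

/-- `δ` is local and `J/p` on it is good -/
theorem delta_loc (hB : Base p W K F) (hX : Fintype.card X = p) :
    ∃ E : LocIdem p (PPO C W K), E.e = dl C K ∧ Good E (ftr C K) := by
  obtain ⟨E, h1, h2⟩ := lam_loc C hB hX
  have hg := lam_good C hB hX E h1 h2
  obtain ⟨D, hD, hr⟩ := dA_loc C E h1
  exact ⟨D, hD, dA_good C E h1 hg D hD hr⟩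

theorem dA_card_ne (hB : Base p W K F) (hX : Fintype.card X = p) : (Fintype.card X : K) ≠ 0 := by
  have := hB.charZero
  rw [hX]
  exact Nat.cast_ne_zero.2 hB.prime.ne_zero

theorem ftr_tau (hB : Base p W K F) (hX : Fintype.card X = p) :
    (p : K) * tauP C K (ftr C K) = 1 := by
  have h0 := dA_card_ne (K := K) hB hX
  rw [dA_ftr, dA_tauP, tauL_apply]
  have h1 : Matrix.trace ((fJ C K : ↥(C.Lam K)) : Matrix X X K) = 1 := by
    have h2 : ∀ x, ((fJ C K : ↥(C.Lam K)) : Matrix X X K).diag x = (Fintype.card X : K)⁻¹ := by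
      intro x
      change (Fintype.card X : K)⁻¹ • (1 : K) = _
      rw [smul_eq_mul, mul_one]
    rw [Matrix.trace, Finset.sum_congr rfl fun x _ => h2 x, Finset.sum_const, Finset.card_univ,
      nsmul_eq_mul, mul_inv_cancel₀ h0]
  rw [h1, mul_one, ← hX, mul_inv_cancel₀ h0]

theorem dA_dl_tau (hB : Base p W K F) (hX : Fintype.card X = p) :
    (p : K) * tauP C K (dl C K) = p := by
  have h0 := dA_card_ne (K := K) hB hX
  rw [dA_dl, dA_tauP, tauL_apply]
  change (p : K) * ((Fintype.card X : K)⁻¹ * Matrix.trace (1 : Matrix X X K)) = p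
  rw [Matrix.trace_one, inv_mul_cancel₀ h0, mul_one]

theorem exc_tau (hB : Base p W K F) (hX : Fintype.card X = p) :
    (p : K) * tauP C K (dl C K - ftr C K) = (p : K) - 1 := by
  rw [map_sub, mul_sub, dA_dl_tau hB hX, ftr_tau hB hX]

/-- row sums of a colour constant matrix are constant -/
theorem dA_rowsum {a : Matrix X X K} (ha : a ∈ C.Lam K) (x z : X) :
    ∑ w, a x w = ∑ w, a z w := by
  obtain ⟨σ, hσ⟩ := C.bij (n := 1) (by norm_num) (C.hom ![x] ![z])
  refine Fintype.sum_equiv σ _ _ (fun w => ?_)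
  exact ha _ _ (hσ w)

/-- colour constant matrices of size two are colour constant functions -/
noncomputable def dA_lamEquiv : ↥(C.Lam K) ≃ₗ[K] C.cstSub K 2 where
  toFun a := ⟨fun t => (a : Matrix X X K) (t 0) (t 1), a.2⟩
  invFun f := ⟨Matrix.of fun u v => f.1 ![u, v], by
    intro x y h
    have e : ∀ t : Fin 2 → X, (![t 0, t 1] : Fin 2 → X) = t := by
      intro t
      ext i
      fin_cases i <;> rfl
    change f.1 ![x 0, x 1] = f.1 ![y 0, y 1]
    rw [e, e]
    exact f.2 _ _ h⟩
  left_inv a := rfl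
  right_inv f := by
    apply Subtype.ext
    ext t
    change f.1 ![t 0, t 1] = f.1 t
    refine congrArg f.1 (funext fun i => ?_)
    fin_cases i <;> rfl
  map_add' a b := rfl
  map_smul' c a := rfl

theorem dA_finrank_lam : Module.finrank K ↥(C.Lam K) = Nat.card (Quot (C.r 2)) := by
  rw [LinearEquiv.finrank_eq (dA_lamEquiv (C := C) (K := K)), C.finrank_cst]

/-- the corner of the exceptional vertex has dimension `k` -/
theorem exc_dim (hB : Base p W K F) (Y : YData C p W K k d y ζ0) :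
    Module.finrank K (crn K (dl C K - ftr C K) (dl C K - ftr C K)) = k := by
  have hX := Y.card
  have h0 := dA_card_ne (K := K) hB hX
  have hne : Nonempty X := by
    rw [← Fintype.card_pos_iff, hX]
    exact hB.prime.pos
  obtain ⟨o⟩ := hne
  -- the row sum
  let φ : ↥(C.Lam K) →ₗ[K] K :=
    { toFun := fun a => ∑ w, (a : Matrix X X K) o w
      map_add' := fun a b => Finset.sum_add_distrib
      map_smul' := fun c a => (Finset.mul_sum _ _ _).symm }
  have hφ : ∀ a, φ a = ∑ w, (a : Matrix X X K) o w := fun a => rfl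
  have hf : ∀ a : ↥(C.Lam K), fJ C K * a = a * fJ C K := by
    intro a
    apply Subtype.ext
    exact Y.comm _ (fJ C K).2 _ a.2
  have hr : ∀ a : ↥(C.Lam K), a * fJ C K = φ a • fJ C K := by
    intro a
    apply Subtype.ext
    ext u v
    change ((a : Matrix X X K) * ((Fintype.card X : K)⁻¹ • JJ X K)) u v =
      φ a * ((Fintype.card X : K)⁻¹ • (1 : K))
    rw [Matrix.mul_apply, hφ, dA_rowsum a.2 o u, Finset.sum_mul]
    rfl
  have hker : ∀ a : ↥(C.Lam K), a * fJ C K = 0 ↔ φ a = 0 := by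
    intro a
    rw [hr]
    constructor
    · intro h
      have h1 := congrFun (congrFun (congrArg Subtype.val h) o) o
      change φ a * ((Fintype.card X : K)⁻¹ • (1 : K)) = 0 at h1
      rw [smul_eq_mul, mul_one] at h1
      rcases mul_eq_zero.1 h1 with h2 | h2
      · exact h2
      · exact absurd h2 (inv_ne_zero h0)
    · intro h
      rw [h, zero_smul]
  have hg : dl C K - ftr C K = dAm C K (1 - fJ C K) := by
    rw [map_sub, ← dA_dl, ← dA_ftr]
  -- the corner is the image of the kernel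
  have hmem : ∀ x : ↥(C.PP K), x ∈ crn K (dl C K - ftr C K) (dl C K - ftr C K) ↔
      ∃ a ∈ LinearMap.ker φ, dAm C K a = x := by
    intro x
    rw [mem_crn, hg]
    constructor
    · rintro ⟨h1, h2⟩
      have h3 : dAm C K 1 * x = x := by
        calc dAm C K 1 * x = dAm C K 1 * (dAm C K (1 - fJ C K) * x) := by rw [h1]
          _ = dAm C K (1 - fJ C K) * x := by rw [← mul_assoc, dA_one_mul]
          _ = x := h1
      have h4 : x * dAm C K 1 = x := by
        calc x * dAm C K 1 = x * dAm C K (1 - fJ C K) * dAm C K 1 := by rw [h2]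
          _ = x * dAm C K (1 - fJ C K) := by rw [mul_assoc, dA_mul_one]
          _ = x := h2
      have h5 : x = dAm C K (dAr C K x) := by rw [← dA_corner, h3, h4]
      refine ⟨dAr C K x, ?_, h5.symm⟩
      rw [LinearMap.mem_ker, ← hker]
      rw [h5, ← dA_mul] at h2
      have h6 := dA_inj C K h2
      rw [mul_sub, mul_one] at h6
      have h7 : dAr C K x - dAr C K x * fJ C K = dAr C K x := h6
      exact sub_eq_self.1 h7
    · rintro ⟨a, ha, rfl⟩
      rw [LinearMap.mem_ker, ← hker] at ha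
      rw [← dA_mul, ← dA_mul, sub_mul, mul_sub, one_mul, mul_one, hf, ha, sub_zero]
      exact ⟨rfl, rfl⟩
  have hcrn : crn K (dl C K - ftr C K) (dl C K - ftr C K) = (LinearMap.ker φ).map (dAm C K) := by
    ext x
    rw [hmem]
    rfl
  have hfin : Module.Finite K ↥(C.Lam K) := by
    have : Fintype (Quot (C.r 2)) := Fintype.ofFinite _
    exact Module.Finite.equiv ((dA_lamEquiv (C := C) (K := K)).trans (C.cstEquiv K 2)).symm
  have hsurj : LinearMap.range φ = ⊤ := by
    rw [LinearMap.range_eq_top]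
    intro c
    refine ⟨c • 1, ?_⟩
    rw [map_smul, hφ]
    change c * ∑ w, (1 : Matrix X X K) o w = c
    rw [Finset.sum_eq_single o]
    · rw [Matrix.one_apply_eq, mul_one]
    · intro w _ hw
      rw [Matrix.one_apply_ne hw.symm]
    · intro h
      exact absurd (Finset.mem_univ o) h
  have hrank := LinearMap.finrank_range_add_finrank_ker φ
  rw [hsurj, finrank_top, Module.finrank_self, dA_finrank_lam, Y.rank2] at hrank
  rw [hcrn, ← (Submodule.equivMapOfInjective (dAm C K) (dA_inj C K) (LinearMap.ker φ)).finrank_eq]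
  omega

/-- the indicator of an equality of two of the four points -/
def dA_eq (C : Coh X) (K : Type) [Field K] (i j : Fin 4) : ↥(C.PP K) :=
  ⟨Matrix.of fun z w => if (![z.1, z.2, w.1, w.2] : Fin 4 → X) i =
      (![z.1, z.2, w.1, w.2] : Fin 4 → X) j then 1 else 0, by
    intro x y h
    have e : ∀ t : Fin 4 → X, (![t 0, t 1, t 2, t 3] : Fin 4 → X) = t := by
      intro t
      ext i
      fin_cases i <;> rfl
    have h1 := C.pattern (by norm_num) _ _ h
    have h2 := C.pattern (by norm_num) _ _ ((C.equiv 4 (by norm_num)).symm h)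
    have h3 : x i = x j ↔ y i = y j := ⟨h1 i j, h2 i j⟩
    change (if (![x 0, x 1, x 2, x 3] : Fin 4 → X) i = (![x 0, x 1, x 2, x 3] : Fin 4 → X) j
      then (1 : K) else 0) = (if (![y 0, y 1, y 2, y 3] : Fin 4 → X) i =
        (![y 0, y 1, y 2, y 3] : Fin 4 → X) j then (1 : K) else 0)
    rw [e, e]
    simp only [h3]⟩

theorem dA_fac (s t : ↥(C.PP K)) (z w : X × X) :
    ((s * dl C K * t : ↥(C.PP K)) : Matrix (X × X) (X × X) K) z w =
      ∑ u : X, (s : Matrix (X × X) (X × X) K) z (u, u) *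
        (t : Matrix (X × X) (X × X) K) (u, u) w := by
  rw [mul_assoc]
  change ((s : Matrix (X × X) (X × X) K) *
    ((dAm C K 1 * t : ↥(C.PP K)) : Matrix (X × X) (X × X) K)) z w = _
  rw [Matrix.mul_apply, Fintype.sum_prod_type]
  refine Finset.sum_congr rfl fun u _ => ?_
  rw [Finset.sum_eq_single u]
  · rw [dA_one_mul_apply, if_pos rfl]
  · intro v _ hv
    rw [dA_one_mul_apply, if_neg (fun h => hv h.symm), mul_zero]
  · intro h
    exact absurd (Finset.mem_univ u) h

/-- `J ⊗ 1` and `1 ⊗ J` factor through `δ` -/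
theorem jj_factor : (∃ s t : ↥(C.PP K), jj1 C K = s * dl C K * t) ∧
    (∃ s t : ↥(C.PP K), jj2 C K = s * dl C K * t) := by
  constructor
  · refine ⟨dA_eq C K 1 2, dA_eq C K 0 3, ?_⟩
    apply Subtype.ext
    ext z w
    rw [dA_fac]
    change t1 (JJ X K) z w = ∑ u : X, (if z.2 = u then (1 : K) else 0) *
      (if u = w.2 then (1 : K) else 0)
    rw [t1_apply, Finset.sum_eq_single z.2]
    · rw [if_pos rfl, one_mul]
      rfl
    · intro u _ hu
      rw [if_neg hu.symm, zero_mul]
    · intro h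
      exact absurd (Finset.mem_univ _) h
  · refine ⟨dA_eq C K 0 2, dA_eq C K 0 2, ?_⟩
    apply Subtype.ext
    ext z w
    rw [dA_fac]
    change t2 (JJ X K) z w = ∑ u : X, (if z.1 = u then (1 : K) else 0) *
      (if u = w.1 then (1 : K) else 0)
    rw [t2_apply, Finset.sum_eq_single z.1]
    · rw [if_pos rfl, one_mul]
      rfl
    · intro u _ hu
      rw [if_neg hu.symm, zero_mul]
    · intro h
      exact absurd (Finset.mem_univ _) h

/-- the number of colours of `X^3` -/
theorem dl_dim : Module.finrank K (crn K 1 (dl C K)) = Nat.card (Quot (C.r 3)) :=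
  finrank_crn_dlt C K

end

end PDeg
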