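import Pool.Agent.Lib.MP_369ee2_lc_PD.ColourCount

/-!
# Section 9: the number of colours of triples as a dimension
-/

namespace PDeg

open Function Finset

namespace Coh

variable {X : Type} [Fintype X] (C : Coh X)

section

variable (R : Type*) [CommRing R]

/-- summation over one coordinate, after reindexing -/
noncomputable def sgm (π : Fin 3 → Fin 3) : C.cstSub R 3 →ₗ[R] C.cstSub R 2 where
  toFun f := ⟨fun u => ∑ a, f.1 (fun i => sn u a (π i)),
    Cst.sum (C := C) (n := 2) (by norm_num) (f := fun t : Fin 3 → X => f.1 (fun i => t (π i)))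
      (Cst.comp (C := C) (by norm_num) (by norm_num) π f.2)⟩
  map_add' f g := by
    apply Subtype.ext
    ext u
    exact Finset.sum_add_distrib
  map_smul' c f := by
    apply Subtype.ext
    ext u
    exact (Finset.mul_sum _ _ _).symm

/-- the sum over the first coordinate -/
noncomputable abbrev sg1 : C.cstSub R 3 →ₗ[R] C.cstSub R 2 := C.sgm R ![2, 0, 1]

/-- the sum over the second coordinate -/
noncomputable abbrev sg2 : C.cstSub R 3 →ₗ[R] C.cstSub R 2 := C.sgm R ![0, 2, 1]

theorem sg1_apply (f : C.cstSub R 3) (u : Fin 2 → X) :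
    (C.sg1 R f).1 u = ∑ a, f.1 ![a, u 0, u 1] := by
  show ∑ a, f.1 (fun i => sn u a (![2, 0, 1] i)) = _
  refine Finset.sum_congr rfl fun a _ => congrArg f.1 (funext fun i => ?_)
  fin_cases i <;> rfl

theorem sg2_apply (f : C.cstSub R 3) (u : Fin 2 → X) :
    (C.sg2 R f).1 u = ∑ a, f.1 ![u 0, a, u 1] := by
  show ∑ a, f.1 (fun i => sn u a (![0, 2, 1] i)) = _
  refine Finset.sum_congr rfl fun a _ => congrArg f.1 (funext fun i => ?_)
  fin_cases i <;> rfl

/-- both sums -/
noncomputable def Phi : C.cstSub R 3 →ₗ[R] C.cstSub R 2 × C.cstSub R 2 :=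
  (C.sg1 R).prod (C.sg2 R)

/-- the difference of the column sums -/
noncomputable def Psi (o : X) : C.cstSub R 2 × C.cstSub R 2 →ₗ[R] R where
  toFun g := ∑ z, g.1.1 ![z, o] - ∑ z, g.2.1 ![z, o]
  map_add' g h := by
    show ∑ z, (g.1.1 ![z, o] + h.1.1 ![z, o]) - ∑ z, (g.2.1 ![z, o] + h.2.1 ![z, o]) = _
    rw [Finset.sum_add_distrib, Finset.sum_add_distrib]
    ring
  map_smul' c g := by
    show ∑ z, (c * g.1.1 ![z, o]) - ∑ z, (c * g.2.1 ![z, o]) = c * (_ - _)
    rw [← Finset.mul_sum, ← Finset.mul_sum]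
    ring

variable {R}

theorem colsum_const {g : (Fin 2 → X) → R} (hg : C.Cst 2 g) (o o' : X) :
    ∑ z, g ![z, o] = ∑ z, g ![z, o'] := by
  have h := Cst.sum (C := C) (n := 1) (by norm_num) (f := fun t : Fin 2 → X => g ![t 1, t 0])
    (by
      intro x y h
      have e : ∀ t : Fin 2 → X, (![t 1, t 0] : Fin 2 → X) = fun i => t (![1, 0] i) := by
        intro t
        ext i
        fin_cases i <;> rfl
      show g ![x 1, x 0] = g ![y 1, y 0]
      rw [e, e]
      exact hg _ _ (C.reindex (by norm_num) (by norm_num) ![1, 0] _ _ h))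
  exact h ![o] ![o'] (C.hom _ _)

theorem mem_range_iff (o : X) (g : C.cstSub R 2 × C.cstSub R 2) :
    g ∈ LinearMap.range (C.Phi R) ↔ C.Psi R o g = 0 := by
  classical
  constructor
  · rintro ⟨f, rfl⟩
    show ∑ z, (C.sg1 R f).1 ![z, o] - ∑ z, (C.sg2 R f).1 ![z, o] = 0
    simp only [sg1_apply, sg2_apply]
    rw [Finset.sum_comm, sub_eq_zero]
    rfl
  · intro h
    obtain ⟨⟨g1, h1⟩, ⟨g2, h2⟩⟩ := g
    have hs : ∀ x, ∑ z, g1 ![z, x] = ∑ z, g2 ![z, x] := by
      intro x
      have h0 : ∑ z, g1 ![z, o] - ∑ z, g2 ![z, o] = 0 := h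
      rw [C.colsum_const h1 x o, C.colsum_const h2 x o]
      exact sub_eq_zero.1 h0
    have hs1 : ∀ x x', ∑ z, g1 ![z, x] = ∑ z, g1 ![z, x'] := C.colsum_const h1
    let T : (Fin 3 → X) → R := fun t =>
      (if t 0 = t 2 then g1 ![t 1, t 2] else 0) +
        (if t 1 = t 2 then (g2 ![t 0, t 2] - if t 0 = t 2 then ∑ z, g1 ![z, t 2] else 0) else 0)
    have hT : C.Cst 3 T := by
      intro x y hxy
      have p1 := C.pattern (by norm_num) _ _ hxy
      have p2 := C.pattern (by norm_num) _ _ ((C.equiv 3 (by norm_num)).symm hxy)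
      have q1 : (x 0 = x 2) = (y 0 = y 2) := propext ⟨p1 0 2, p2 0 2⟩
      have q2 : (x 1 = x 2) = (y 1 = y 2) := propext ⟨p1 1 2, p2 1 2⟩
      have e : ∀ (i j : Fin 3) (t : Fin 3 → X), (![t i, t j] : Fin 2 → X) =
          fun l => t (![i, j] l) := by
        intro i j t
        ext l
        fin_cases l <;> rfl
      have q3 : g1 ![x 1, x 2] = g1 ![y 1, y 2] := by
        rw [e, e]
        exact h1 _ _ (C.reindex (by norm_num) (by norm_num) _ _ _ hxy)
      have q4 : g2 ![x 0, x 2] = g2 ![y 0, y 2] := by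
        rw [e, e]
        exact h2 _ _ (C.reindex (by norm_num) (by norm_num) _ _ _ hxy)
      have q5 := hs1 (x 2) (y 2)
      simp only [T, q1, q2, q3, q4, q5]
    refine ⟨⟨T, hT⟩, Prod.ext (Subtype.ext ?_) (Subtype.ext ?_)⟩
    · ext u
      have e0 : u = ![u 0, u 1] := by
        ext i; fin_cases i <;> rfl
      show (C.sg1 R ⟨T, hT⟩).1 u = g1 u
      rw [sg1_apply]
      show ∑ a, ((if a = u 1 then g1 ![u 0, u 1] else 0) +
        (if u 0 = u 1 then (g2 ![a, u 1] - if a = u 1 then ∑ z, g1 ![z, u 1] else 0) else 0)) = _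
      rw [Finset.sum_add_distrib, Finset.sum_ite_eq' univ (u 1), if_pos (mem_univ _), ← e0]
      by_cases h01 : u 0 = u 1
      · simp only [if_pos h01, Finset.sum_sub_distrib]
        rw [Finset.sum_ite_eq' univ (u 1), if_pos (mem_univ _), hs, sub_self, add_zero]
      · simp only [if_neg h01]
        rw [Finset.sum_const_zero, add_zero]
    · ext u
      have e0 : u = ![u 0, u 1] := by
        ext i; fin_cases i <;> rfl
      show (C.sg2 R ⟨T, hT⟩).1 u = g2 u
      rw [sg2_apply]
      show ∑ a, ((if u 0 = u 1 then g1 ![a, u 1] else 0) +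
        (if a = u 1 then (g2 ![u 0, u 1] - if u 0 = u 1 then ∑ z, g1 ![z, u 1] else 0) else 0))
          = _
      rw [Finset.sum_add_distrib, Finset.sum_ite_eq' univ (u 1), if_pos (mem_univ _), ← e0]
      by_cases h01 : u 0 = u 1
      · simp only [if_pos h01]
        ring
      · simp only [if_neg h01]
        rw [Finset.sum_const_zero, zero_add, sub_zero]

theorem psi_surj (o : X) : Function.Surjective (C.Psi R o) := by
  classical
  intro c
  refine ⟨⟨⟨fun t => if t 0 = t 1 then c else 0, ?_⟩, 0⟩, ?_⟩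
  · intro x y hxy
    have p1 := C.pattern (by norm_num) _ _ hxy
    have p2 := C.pattern (by norm_num) _ _ ((C.equiv 2 (by norm_num)).symm hxy)
    have q1 : (x 0 = x 1) = (y 0 = y 1) := propext ⟨p1 0 1, p2 0 1⟩
    simp only [q1]
  · show ∑ z, (if z = o then c else 0) - ∑ z, (0 : R) = c
    rw [Finset.sum_ite_eq' univ o, if_pos (mem_univ _), Finset.sum_const_zero, sub_zero]

end

/-- **Section 9.** the number of colours of triples -/
theorem card_colours3 (R : Type*) [Field R] [Nonempty X] :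
    Nat.card (Quot (C.r 3)) + 1 =
      Module.finrank R (LinearMap.ker (C.Phi R)) + 2 * Nat.card (Quot (C.r 2)) := by
  classical
  obtain ⟨o⟩ := ‹Nonempty X›
  have fin2 : FiniteDimensional R (C.cstSub R 2) := inferInstance
  have fin3 : FiniteDimensional R (C.cstSub R 3) := inferInstance
  have h1 := LinearMap.finrank_range_add_finrank_ker (C.Phi R)
  have h2 := LinearMap.finrank_range_add_finrank_ker (C.Psi R o)
  rw [C.finrank_cst] at h1
  rw [LinearMap.range_eq_top.2 (C.psi_surj o), finrank_top, Module.finrank_self,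
    Module.finrank_prod, C.finrank_cst] at h2
  have h3 : LinearMap.range (C.Phi R) = LinearMap.ker (C.Psi R o) := by
    ext g
    rw [C.mem_range_iff o g, LinearMap.mem_ker]
  rw [h3] at h1
  omega

theorem mem_ker_Phi {R : Type*} [CommRing R] {f : C.cstSub R 3} :
    f ∈ LinearMap.ker (C.Phi R) ↔
      (∀ z x, ∑ w, f.1 ![w, z, x] = 0) ∧ (∀ z x, ∑ w, f.1 ![z, w, x] = 0) := by
  rw [LinearMap.mem_ker]
  constructor
  · intro h
    have h1 : C.sg1 R f = 0 := congrArg Prod.fst h
    have h2 : C.sg2 R f = 0 := congrArg Prod.snd h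
    refine ⟨fun z x => ?_, fun z x => ?_⟩
    · have := C.sg1_apply R f ![z, x]
      rw [h1] at this
      exact this.symm
    · have := C.sg2_apply R f ![z, x]
      rw [h2] at this
      exact this.symm
  · rintro ⟨h1, h2⟩
    refine Prod.ext (Subtype.ext ?_) (Subtype.ext ?_)
    · ext u
      show (C.sg1 R f).1 u = 0
      rw [sg1_apply]
      exact h1 _ _
    · ext u
      show (C.sg2 R f).1 u = 0
      rw [sg2_apply]
      exact h2 _ _

end Coh

end PDeg
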