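import Pool.Agent.Lib.MP_369ee2_lc_PD.EngH28B

/-!
# EL, case A: `z e' ∉ O` (row A6b)
-/

namespace PDeg

open scoped BigOperators

section
variable {p : ℕ} {W K : Type} (F : Type) [CommRing W] [IsDomain W] [Field K] [Algebra W K]
  [IsFractionRing W K] [Field F] [Algebra W F] [Base p W K F]
  {A : Type} [Ring A] [Algebra K A] [Algebra W A] [IsScalarTower W K A] [FiniteDimensional K A]
  {O : Subalgebra W A} {τ : A →ₗ[K] K} (H : SymOrder p O τ)

include F H

theorem EL_caseA {E E' : LocIdem p O} {f0 z : A} (hG : Good E f0) (hV : Vtx z f0)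
    (hne : z * E'.e ≠ 0) (hA : z * E'.e ∉ O) :
    Good E' (z * E'.e) ∧ Eqv f0 (z * E'.e) :=
  engB_caseA F H hG hV hne hA

end

end PDeg
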