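import Pool.Agent.Lib.MP_369ee2_lc_PD.ELPre

/-!
# EL, case B: `z e' ∈ O` is impossible (row A6c)
-/

namespace PDeg

open scoped BigOperators

section
variable {p : ℕ} {W K : Type} [CommRing W] [Field K] [Algebra W K]
  {A : Type} [Ring A] [Algebra K A] [Algebra W A] [IsScalarTower W K A]
  {O : Subalgebra W A} {τ : A →ₗ[K] K}

private theorem iadd {x y : K} (hx : IsInt W x) (hy : IsInt W y) : IsInt W (x + y) := by
  obtain ⟨a, rfl⟩ := hx
  obtain ⟨b, rfl⟩ := hy
  exact ⟨a + b, map_add _ _ _⟩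

private theorem isub {x y : K} (hx : IsInt W x) (hy : IsInt W y) : IsInt W (x - y) := by
  obtain ⟨a, rfl⟩ := hx
  obtain ⟨b, rfl⟩ := hy
  exact ⟨a - b, map_sub _ _ _⟩

private theorem imul (w : W) {y : K} (hy : IsInt W y) : IsInt W (algebraMap W K w * y) := by
  obtain ⟨b, rfl⟩ := hy
  exact ⟨w * b, map_mul _ _ _⟩

private theorem tsm (w : W) (x : A) : τ (w • x) = algebraMap W K w * τ x := by
  rw [← algebraMap_smul K w x, map_smul, smul_eq_mul]

private theorem pmul (x : A) : (p : A) * x = (p : W) • x := by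
  rw [Algebra.smul_def, map_natCast]

omit [IsScalarTower W K A] in
/-- (v), first part -/
private theorem no_one (H : SymOrder p O τ) {E' : LocIdem p O} {f0 : A} (hd : DivC f0)
    (hn : ¬ IsInt W (τ f0)) {β ν : A} (h1 : β * f0 = β) (h3 : f0 * ν = ν)
    (h4 : ν * E'.e = ν) (h : β * ν = E'.e) : False := by
  obtain ⟨hff, hf0, hinv⟩ := hd
  have hnb : ν * β = f0 := by
    by_contra hne
    have hc0 : ν * β - f0 ≠ 0 := sub_ne_zero.2 hne
    have hcl : f0 * (ν * β - f0) = ν * β - f0 := by
      rw [mul_sub, ← mul_assoc, h3, hff]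
    have hcr : (ν * β - f0) * f0 = ν * β - f0 := by
      rw [sub_mul, mul_assoc, h1, hff]
    obtain ⟨d, -, -, -, hd'⟩ := hinv _ hcl hcr hc0
    have h5 : (ν * β - f0) * ν = 0 := by
      rw [sub_mul, mul_assoc, h, h4, h3, sub_self]
    have h6 : ν = 0 := by
      calc ν = f0 * ν := h3.symm
        _ = d * ((ν * β - f0) * ν) := by rw [← mul_assoc, hd']
        _ = 0 := by rw [h5, mul_zero]
    apply E'.not_mem
    rw [← h, h6, mul_zero]
    exact E'.rad.zero_mem
  apply hn
  rw [← hnb, H.comm, h]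
  exact H.int _ E'.mem

omit [IsScalarTower W K A] in
/-- (v), second part -/
private theorem no_two (H : SymOrder p O τ) (hp2 : ∃ q : ℕ, p = 2 * q + 1) {E' : LocIdem p O}
    {f0 : A} (hd : DivC f0) (hn : ¬ IsInt W (τ f0)) (hpt : IsInt W ((p : K) * τ f0))
    {lam mu β γ : A} (l1 : f0 * lam = lam) (l2 : lam * E'.e = lam) (l0 : lam ≠ 0)
    (m1 : f0 * mu = mu) (m2 : mu * E'.e = mu) (b2 : β * f0 = β) (g2 : γ * f0 = γ)
    (h : β * lam + γ * mu = E'.e) : False := by
  obtain ⟨hff, hf0, hinv⟩ := id hd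
  -- `mu` is not a left multiple of `lam`
  have hno : ∀ κ : A, κ * f0 = κ → mu = κ * lam → False := by
    intro κ hκ e
    apply no_one H hd hn (β := β + γ * κ) (ν := lam) (by rw [add_mul, mul_assoc, hκ, b2]) l1 l2
    rw [add_mul, mul_assoc, ← e, h]
  have r1 : lam * β * lam + lam * γ * mu = lam := by
    rw [mul_assoc, mul_assoc, ← mul_add, h, l2]
  have r2 : mu * β * lam + mu * γ * mu = mu := by
    rw [mul_assoc, mul_assoc, ← mul_add, h, m2]
  have hlg : lam * γ = 0 := by
    by_contra hne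
    obtain ⟨d, hd1, hd2, -, hd3⟩ := hinv (lam * γ) (by rw [← mul_assoc, l1])
      (by rw [mul_assoc, g2]) hne
    apply hno (d * (f0 - lam * β))
    · rw [mul_assoc, sub_mul, mul_assoc, b2, hff]
    · have h5 : lam * γ * mu = (f0 - lam * β) * lam := by
        rw [sub_mul, l1, eq_sub_iff_add_eq, add_comm]
        exact r1
      calc mu = f0 * mu := m1.symm
        _ = d * (lam * γ * mu) := by rw [← mul_assoc, hd3]
        _ = d * (f0 - lam * β) * lam := by rw [h5, mul_assoc]
  have hlb : lam * β = f0 := by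
    by_contra hne
    have hc0 : lam * β - f0 ≠ 0 := sub_ne_zero.2 hne
    obtain ⟨d, -, -, -, hd3⟩ := hinv (lam * β - f0) (by rw [mul_sub, ← mul_assoc, l1, hff])
      (by rw [sub_mul, mul_assoc, b2, hff]) hc0
    apply l0
    have h5 : (lam * β - f0) * lam = 0 := by
      rw [hlg, zero_mul, add_zero] at r1
      rw [sub_mul, r1, l1, sub_self]
    calc lam = f0 * lam := l1.symm
      _ = d * ((lam * β - f0) * lam) := by rw [← mul_assoc, hd3]
      _ = 0 := by rw [h5, mul_zero]
  have hmg : mu * γ = f0 := by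
    by_contra hne
    have hc0 : f0 - mu * γ ≠ 0 := sub_ne_zero.2 (Ne.symm hne)
    obtain ⟨d, hd1, hd2, -, hd3⟩ := hinv (f0 - mu * γ) (by rw [mul_sub, ← mul_assoc, m1, hff])
      (by rw [sub_mul, mul_assoc, g2, hff]) hc0
    apply hno (d * (mu * β))
    · rw [mul_assoc, mul_assoc, b2]
    · have h5 : (f0 - mu * γ) * mu = mu * β * lam := by
        rw [sub_mul, m1, sub_eq_iff_eq_add]
        exact r2.symm
      calc mu = f0 * mu := m1.symm
        _ = d * ((f0 - mu * γ) * mu) := by rw [← mul_assoc, hd3]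
        _ = d * (mu * β) * lam := by rw [h5, ← mul_assoc]
  have h2 : IsInt W ((2 : K) * τ f0) := by
    have h3 : (2 : K) * τ f0 = τ E'.e := by
      rw [← h, map_add, H.comm β, H.comm γ, hlb, hmg, two_mul]
    rw [h3]
    exact H.int _ E'.mem
  apply hn
  obtain ⟨q, hq⟩ := hp2
  have h4 : τ f0 = (p : K) * τ f0 - algebraMap W K (q : W) * ((2 : K) * τ f0) := by
    rw [hq, map_natCast]
    push_cast
    ring
  rw [h4]
  exact isub hpt (imul _ h2)

end

section
variable {p : ℕ} {W K : Type} (F : Type) [CommRing W] [IsDomain W] [Field K] [Algebra W K]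
  [IsFractionRing W K] [Field F] [Algebra W F] [Base p W K F]
  {A : Type} [Ring A] [Algebra K A] [Algebra W A] [IsScalarTower W K A] [FiniteDimensional K A]
  {O : Subalgebra W A} {τ : A →ₗ[K] K} (H : SymOrder p O τ)

include F

omit [Base p W K F] in
/-- a unit of `W` or divisible by `p` -/
private theorem uor (hB : Base p W K F) (w : W) : IsUnit w ∨ ∃ v, w = (p : W) * v := by
  have := hB.dvr
  exact LD.CornerP.unit_or hB.prime_p.irreducible w

omit [Base p W K F] in
/-- an element of `K` in `p ^ i W` for all `i` is `0` -/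
private theorem zero_of_div (hB : Base p W K F) {r : K}
    (h : ∀ i : ℕ, ∃ w : W, algebraMap W K ((p : W) ^ i * w) = r) : r = 0 := by
  have := hB.dvr
  have hirr := hB.prime_p.irreducible
  obtain ⟨w0, hw0⟩ := h 0
  rw [pow_zero, one_mul] at hw0
  by_cases h0 : w0 = 0
  · rw [← hw0, h0, map_zero]
  exfalso
  obtain ⟨n, hn⟩ := IsDiscreteValuationRing.associated_pow_irreducible h0 hirr
  obtain ⟨w1, hw1⟩ := h (n + 1)
  have h1 : (p : W) ^ (n + 1) * w1 = w0 := by
    apply IsFractionRing.injective W K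
    rw [hw1, hw0]
  have h2 : (p : W) ^ (n + 1) ∣ (p : W) ^ n := by
    have h3 : (p : W) ^ (n + 1) ∣ w0 := ⟨w1, h1.symm⟩
    exact h3.trans hn.dvd
  have h3 := (pow_dvd_pow_iff hirr.ne_zero hirr.not_isUnit).1 h2
  omega

omit F [IsDomain W] [IsFractionRing W K] [Field F] [Algebra W F] [Base p W K F]
  [FiniteDimensional K A] in
/-- integrality on `rad` and at `e'` gives integrality on `O` -/
private theorem int_all (H : SymOrder p O τ) {E' : LocIdem p O} {x : A} (h1 : E'.e * x = x)
    (h2 : x * E'.e = x) (ht : IsInt W (τ x)) (k : ∀ n ∈ E'.rad, IsInt W (τ (x * n))) :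
    ∀ o ∈ O, IsInt W (τ (x * o)) := by
  intro o ho
  obtain ⟨w, hw⟩ := E'.decomp o ho
  have h3 : τ (x * o) = algebraMap W K w * τ x + τ (x * (E'.e * o * E'.e - w • E'.e)) := by
    calc τ (x * o) = τ (E'.e * (x * o)) := by rw [← mul_assoc, h1]
      _ = τ (x * o * E'.e) := H.comm _ _
      _ = τ (x * (E'.e * o * E'.e)) := by
        congr 1
        calc x * o * E'.e = (x * E'.e) * o * E'.e := by rw [h2]
          _ = x * (E'.e * o * E'.e) := by simp only [mul_assoc]
      _ = τ (w • x + x * (E'.e * o * E'.e - w • E'.e)) := by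
        congr 1
        rw [mul_sub, mul_smul_comm, h2, add_sub_cancel]
      _ = _ := by rw [map_add, tsm]
  rw [h3]
  exact iadd (imul _ ht) (k _ hw)

include H

omit [FiniteDimensional K A] in
/-- (iv) -/
private theorem step4 {E' : LocIdem p O} {x1 x2 : A} (h1 : E'.e * x1 = x1)
    (h1' : x1 * E'.e = x1) (h2 : E'.e * x2 = x2) (h2' : x2 * E'.e = x2)
    (k1 : ∀ n ∈ E'.rad, IsInt W (τ (x1 * n))) (k2 : ∀ n ∈ E'.rad, IsInt W (τ (x2 * n)))
    (hn : ¬ IsInt W (τ x1)) : ∃ w : W, x2 - w • x1 ∈ O := by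
  have hB : Base p W K F := inferInstance
  have hchar := hB.charZero
  have hpK : algebraMap W K (p : W) ≠ 0 := by
    rw [map_natCast]
    exact Nat.cast_ne_zero.2 hB.prime.ne_zero
  have hpe : ∀ x : A, x * E'.e = x → x * ((p : A) * E'.e) = (p : W) • x := by
    intro x hx
    rw [pmul (W := W), mul_smul_comm, hx]
  obtain ⟨u1, hu1⟩ := k1 _ E'.p_mem
  obtain ⟨u2, hu2⟩ := k2 _ E'.p_mem
  rw [hpe x1 h1', tsm] at hu1
  rw [hpe x2 h2', tsm] at hu2
  have hu : IsUnit u1 := by
    rcases uor F hB u1 with h | ⟨v, hv⟩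
    · exact h
    · exfalso
      apply hn
      refine ⟨v, ?_⟩
      rw [hv, map_mul] at hu1
      exact mul_left_cancel₀ hpK hu1
  obtain ⟨u, rfl⟩ := hu
  refine ⟨u2 * (↑u⁻¹ : W), ?_⟩
  have h3 : τ x2 = algebraMap W K (u2 * (↑u⁻¹ : W)) * τ x1 := by
    apply mul_left_cancel₀ hpK
    rw [← hu2, mul_left_comm, ← hu1, ← map_mul, mul_assoc, Units.inv_mul, mul_one]
  apply H.dual
  apply int_all H (E' := E')
  · rw [mul_sub, mul_smul_comm, h1, h2]
  · rw [sub_mul, smul_mul_assoc, h1', h2']
  · refine ⟨0, ?_⟩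
    rw [map_zero, map_sub, tsm, ← h3, sub_self]
  · intro n hn'
    rw [sub_mul, smul_mul_assoc, map_sub, tsm]
    exact isub (k2 n hn') (imul _ (k1 n hn'))

theorem EL_caseB (hp : p ≠ 2) {E E' : LocIdem p O} {f0 z : A} (hG : Good E f0) (hV : Vtx z f0)
    (hne : z * E'.e ≠ 0) (hB : z * E'.e ∈ O) : False := by
  have hBase : Base p W K F := inferInstance
  have hchar := hBase.charZero
  have hpK : (p : K) ≠ 0 := Nat.cast_ne_zero.2 hBase.prime.ne_zero
  have hp2 : ∃ q : ℕ, p = 2 * q + 1 := by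
    rcases hBase.prime.eq_two_or_odd' with h | h
    · exact absurd h hp
    · obtain ⟨q, hq⟩ := h
      exact ⟨q, hq⟩
  -- `z e' = e'`
  have hze : z * E'.e = E'.e := by
    rcases LocIdem.idem_eq F H E' hB (by rw [← mul_assoc, ← hV.central, mul_assoc, E'.idem])
      (by rw [mul_assoc, E'.idem])
      (by rw [mul_assoc, ← mul_assoc E'.e, ← hV.central, mul_assoc z E'.e E'.e, E'.idem,
        ← mul_assoc, hV.idem]) with h | h
    · exact absurd h hne
    · exact h
  obtain ⟨y, yi, k, hD⟩ := Good.dvr F H hG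
  obtain ⟨α, lam, hL, hlr⟩ := exists_pair_left F H (E' := E') hG hV hne
  obtain ⟨α3, mu, hM, hmr⟩ := exists_pair_right F H (E' := E') hG hV hne
  have hd : DivC f0 := hD.div
  have hff : f0 * f0 = f0 := hG.idem
  have hn : ¬ IsInt W (τ f0) := Good.not_int F H hG
  have hpt : IsInt W ((p : K) * τ f0) := by
    obtain ⟨w, -, hw⟩ := Good.ptau F H hG
    exact ⟨w, hw⟩
  -- the lattice `m`
  have mO : ∀ x ∈ fRad E f0, x ∈ O := by
    intro x hx
    obtain ⟨r, hr, rfl⟩ := mem_fRad.1 hx
    exact hG.rad r hr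
  have mint : ∀ x ∈ fRad E f0, IsInt W (τ x) := fun x hx => H.int x (mO x hx)
  have hcen : ∀ o : A, f0 * (o * f0) = E.e * o * E.e * f0 := by
    intro o
    calc f0 * (o * f0) = (f0 * E.e) * (o * (E.e * f0)) := by rw [hG.left, hG.right]
      _ = f0 * (E.e * o * E.e) * f0 := by simp only [mul_assoc]
      _ = E.e * o * E.e * f0 := by rw [hG.central, mul_assoc, hff]
  have hrf : ∀ r ∈ E.rad, r * f0 = f0 * r := by
    intro r hr
    have h1 := hG.central r
    rw [E.rad_left r hr, E.rad_right r hr] at h1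
    exact h1.symm
  have mmul : ∀ x ∈ fRad E f0, ∀ c ∈ fOf W O f0, x * c ∈ fRad E f0 := by
    intro x hx c hc
    obtain ⟨r, hr, rfl⟩ := mem_fRad.1 hx
    obtain ⟨o, ho, rfl⟩ := mem_fOf.1 hc
    have h1 : r * o * E.e ∈ E.rad := E.mul_right o ho r hr
    refine mem_fRad.2 ⟨r * o * E.e, h1, ?_⟩
    calc f0 * (r * o * E.e) = f0 * f0 * (r * o * E.e) := by rw [hff]
      _ = f0 * ((r * o * E.e) * f0) := by rw [mul_assoc, ← hrf _ h1]
      _ = f0 * (r * o * f0) := by rw [mul_assoc (r * o), hG.left]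
      _ = f0 * f0 * (r * (o * f0)) := by rw [hff, mul_assoc r o f0]
      _ = f0 * (r * f0 * (o * f0)) := by rw [hrf r hr]; simp only [mul_assoc]
      _ = f0 * r * (f0 * (o * f0)) := by simp only [mul_assoc]
  have amul : ∀ o ∈ O, ∀ c ∈ fOf W O f0, ∃ o' ∈ O, E'.e * o * f0 * c = E'.e * o' * f0 := by
    intro o ho c hc
    obtain ⟨o1, ho1, rfl⟩ := mem_fOf.1 hc
    refine ⟨o * (E.e * o1 * E.e), O.mul_mem ho (O.mul_mem (O.mul_mem E.mem ho1) E.mem), ?_⟩
    rw [hcen, mul_assoc (E'.e * o) f0, ← mul_assoc f0 (E.e * o1 * E.e) f0, hG.central,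
      mul_assoc (E.e * o1 * E.e), hff]
    simp only [mul_assoc]
  have fO : f0 ∉ fRad E f0 := fun h => hG.not_mem (mO _ h)
  -- the pair `(α, lam)`
  obtain ⟨xα, hxα, hα⟩ := hL.α_mem
  obtain ⟨x3, hx3, hα3⟩ := hM.α_mem
  have αl : E'.e * α = α := by rw [hα, ← mul_assoc, ← mul_assoc, E'.idem]
  have αr : α * f0 = α := by rw [hα, mul_assoc, hff]
  have α3l : E'.e * α3 = α3 := by rw [hα3, ← mul_assoc, ← mul_assoc, E'.idem]
  have α3r : α3 * f0 = α3 := by rw [hα3, mul_assoc, hff]
  have al : ∀ o : A, E'.e * (E'.e * o * f0) = E'.e * o * f0 := by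
    intro o
    rw [← mul_assoc, ← mul_assoc, E'.idem]
  have ar : ∀ o : A, E'.e * o * f0 * f0 = E'.e * o * f0 := by
    intro o
    rw [mul_assoc, hff]
  have lam0 : lam ≠ 0 := by
    intro h
    apply hd.2.1
    rw [← hL.one, h, zero_mul]
  -- `t`
  have tl : E'.e * (α * lam) = α * lam := by rw [← mul_assoc, αl]
  have tr : α * lam * E'.e = α * lam := by rw [mul_assoc, hL.lam_right]
  have tn : ∀ n ∈ E'.rad, IsInt W (τ (α * lam * n)) := by
    intro n hn'
    have h1 : τ (α * lam * n) = τ (lam * (n * α)) := by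
      rw [mul_assoc, H.comm, mul_assoc]
    rw [h1, hα]
    exact mint _ (hlr n hn' xα hxα)
  have tt : τ (α * lam) = τ f0 := by rw [H.comm, hL.one]
  have tint : ¬ IsInt W (τ (α * lam)) := by rw [tt]; exact hn
  -- units of `e' O e'`
  have unit_l : ∀ x ∈ O, E'.e * x = x → x * E'.e = x → x ∉ E'.rad →
      ∃ u ∈ O, u * x = E'.e := by
    intro x hx h1 h2 h3
    obtain ⟨u, hu, -, -, -, h4⟩ := LocIdem.unit F H E' hx h1 h2 h3
    exact ⟨u, hu, h4⟩
  have ptrad : (p : W) • (α * lam) ∈ E'.rad := by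
    have h1 : E'.e * ((p : W) • (α * lam)) = (p : W) • (α * lam) := by rw [mul_smul_comm, tl]
    have h2 : (p : W) • (α * lam) * E'.e = (p : W) • (α * lam) := by rw [smul_mul_assoc, tr]
    have h3 : (p : W) • (α * lam) ∈ O := by
      apply H.dual
      apply int_all H h1 h2
      · rw [tsm, tt, map_natCast]
        exact hpt
      · intro n hn'
        rw [smul_mul_assoc, tsm]
        exact imul _ (tn n hn')
    by_contra h4
    obtain ⟨u, hu, h5⟩ := unit_l _ h3 h1 h2 h4
    apply no_one H hd hn (β := (p : W) • (u * α)) (ν := lam)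
      (by rw [smul_mul_assoc, mul_assoc, αr]) hL.lam_left hL.lam_right
    refine Eq.trans ?_ h5
    rw [smul_mul_assoc, mul_smul_comm, mul_assoc]
  -- (vi)
  have hvi : ∀ o ∈ O, lam * (E'.e * o * f0) ∈ fRad E f0 → E'.e * o * f0 * lam ∈ E'.rad := by
    intro o ho hm
    obtain ⟨w, hw⟩ := step4 F H (E' := E') (x1 := α * lam) (x2 := E'.e * o * f0 * lam) tl tr
      (by rw [← mul_assoc, al]) (by rw [mul_assoc, hL.lam_right]) tn
      (by
        intro n hn'
        have h1 : τ (E'.e * o * f0 * lam * n) = τ (lam * (n * (E'.e * o * f0))) := by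
          rw [mul_assoc (E'.e * o * f0), H.comm, mul_assoc lam]
        rw [h1]
        exact mint _ (hlr n hn' o ho)) tint
    have q1 : E'.e * (E'.e * o * f0 * lam - w • (α * lam)) =
        E'.e * o * f0 * lam - w • (α * lam) := by
      rw [mul_sub, mul_smul_comm, tl, ← mul_assoc, al]
    have q2 : (E'.e * o * f0 * lam - w • (α * lam)) * E'.e =
        E'.e * o * f0 * lam - w • (α * lam) := by
      rw [sub_mul, smul_mul_assoc, tr, mul_assoc _ lam, hL.lam_right]
    have q3 : E'.e * o * f0 * lam - w • (α * lam) ∈ E'.rad := by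
      by_contra h4
      obtain ⟨u, hu, h5⟩ := unit_l _ hw q1 q2 h4
      apply no_one H hd hn (β := u * (E'.e * o * f0 - w • α)) (ν := lam)
        (by rw [mul_assoc, sub_mul, smul_mul_assoc, αr, ar]) hL.lam_left hL.lam_right
      refine Eq.trans ?_ h5
      rw [mul_assoc, sub_mul, smul_mul_assoc]
    have q4 := hlr _ q3 xα hxα
    rw [← hα] at q4
    have q5 : lam * ((E'.e * o * f0 * lam - w • (α * lam)) * α) =
        lam * (E'.e * o * f0) - w • f0 := by
      rw [sub_mul, smul_mul_assoc, mul_assoc, mul_assoc α lam α, hL.one, ar, αr, mul_sub,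
        mul_smul_comm, hL.one]
    rw [q5] at q4
    have q6 : w • f0 ∈ fRad E f0 := by
      have := (fRad E f0).sub_mem hm q4
      rwa [sub_sub_cancel] at this
    have q7 : ∃ v : W, w = (p : W) * v := by
      rcases uor F hBase w with h | h
      · exfalso
        obtain ⟨u, rfl⟩ := h
        apply fO
        have := (fRad E f0).smul_mem (↑u⁻¹ : W) q6
        rwa [smul_smul, Units.inv_mul, one_smul] at this
      · exact h
    obtain ⟨v, rfl⟩ := q7
    have q8 : ((p : W) * v) • (α * lam) ∈ E'.rad := by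
      rw [mul_comm, mul_smul]
      exact E'.rad.smul_mem v ptrad
    have := E'.rad.add_mem q3 q8
    rwa [sub_add_cancel] at this
  -- (vii)
  have hvii : lam * α3 ∈ fRad E f0 := by
    by_contra h7
    have h7' : lam * α3 ∈ fOf W O f0 := by
      rw [hα3]
      exact hL.lam_a x3 hx3
    obtain ⟨b, hb, hb1, hb2⟩ := hD.unit _ h7' h7
    have stepA : ∀ o ∈ O, lam * (E'.e * o * f0) ∈ fRad E f0 → ∀ ν : A, f0 * ν = ν →
        ν * E'.e = ν → (∀ x ∈ O, ν * (E'.e * x * f0) ∈ fOf W O f0) →
        ν * (E'.e * o * f0) ∈ fRad E f0 := by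
      intro o ho hm ν n1 n2 n3
      have h1 := mmul _ (hmr _ (hvi o ho hm) ν n1 n2 n3) b hb
      have h2 : ν * (E'.e * o * f0 * lam * α3) * b = ν * (E'.e * o * f0) := by
        calc ν * (E'.e * o * f0 * lam * α3) * b = ν * (E'.e * o * f0 * (lam * α3 * b)) := by
              simp only [mul_assoc]
          _ = ν * (E'.e * o * f0) := by rw [hb1, ar]
      rwa [h2] at h1
    have stepB : ∀ o ∈ O, lam * (E'.e * o * f0) ∈ fRad E f0 →
        ∃ o' ∈ O, E'.e * o * f0 * yi = E'.e * o' * f0 := by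
      intro o ho hm
      let L : Submodule W A := (Subalgebra.toSubmodule O).map
        ((LinearMap.mulLeft W E'.e).comp (LinearMap.mulRight W f0))
      have hLm : ∀ x, x ∈ L ↔ ∃ o ∈ O, E'.e * (o * f0) = x := fun x => Iff.rfl
      by_contra hcon
      have hx : E'.e * o * f0 * yi ∉ L := by
        intro h
        obtain ⟨o', ho', h'⟩ := (hLm _).1 h
        exact hcon ⟨o', ho', by rw [← h', mul_assoc]⟩
      obtain ⟨ξ, ξ1, ξ2, ξ3, ξ4⟩ := exists_dual F H E'.idem hff L (H.fg.map _)
        (by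
          intro x hx
          obtain ⟨o', ho', rfl⟩ := (hLm _).1 hx
          exact ⟨by rw [← mul_assoc, E'.idem], by rw [mul_assoc, mul_assoc, hff]⟩)
        (E'.e * o * f0 * yi) (by rw [← mul_assoc, al]) (by rw [mul_assoc, hD.x_right]) hx
      apply ξ4
      have h1 : ∀ x ∈ O, yi * ξ * (E'.e * x * f0) ∈ fOf W O f0 := by
        intro x hx
        apply Good.dual F H hG
        · calc f0 * (yi * ξ * (E'.e * x * f0)) = f0 * yi * (ξ * (E'.e * x * f0)) := by
                simp only [mul_assoc]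
            _ = yi * ξ * (E'.e * x * f0) := by
                rw [hD.x_left]
                simp only [mul_assoc]
        · rw [mul_assoc, ar]
        · intro m hm'
          have h2 := hD.M_right m hm'
          obtain ⟨o', ho', h3⟩ := amul x hx _ h2
          have h4 : τ (yi * ξ * (E'.e * x * f0) * m) = τ (ξ * (E'.e * (o' * f0))) := by
            rw [← mul_assoc E'.e o' f0, ← h3, mul_assoc, mul_assoc, H.comm]
            simp only [mul_assoc]
          rw [h4]
          exact ξ3 _ ((hLm _).2 ⟨o', ho', rfl⟩)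
      have h2 := mint _ (stepA o ho hm (yi * ξ) (by rw [← mul_assoc, hD.x_left])
        (by rw [mul_assoc, ξ2]) h1)
      rwa [mul_assoc, H.comm, mul_assoc] at h2
    have hpf : (p : A) * f0 ∈ O := by
      have h1 := hG.rad _ E.p_mem
      have h2 : f0 * ((p : A) * E.e) = (p : A) * f0 := by
        rw [← mul_assoc, ← (Nat.cast_commute p f0).eq, mul_assoc, hG.right]
      rwa [h2] at h1
    -- divisibility
    have stepC : ∀ o ∈ O, lam * (E'.e * o * f0) = 0 →
        ∃ o' ∈ O, lam * (E'.e * o' * f0) = 0 ∧ E'.e * o * f0 = (p : W) • (E'.e * o' * f0) := by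
      intro o ho h0
      have hit : ∀ n : ℕ, ∃ o' ∈ O, E'.e * o * f0 * yi ^ n = E'.e * o' * f0 := by
        intro n
        induction n with
        | zero => exact ⟨o, ho, by rw [pow_zero, mul_one]⟩
        | succ n ih =>
          obtain ⟨o1, ho1, h1⟩ := ih
          have h2 : lam * (E'.e * o1 * f0) = 0 := by
            rw [← h1, ← mul_assoc, h0, zero_mul]
          obtain ⟨o2, ho2, h3⟩ := stepB o1 ho1 (by rw [h2]; exact Submodule.zero_mem _)
          exact ⟨o2, ho2, by rw [pow_succ, ← mul_assoc, h1, h3]⟩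
      obtain ⟨o1, ho1, h1⟩ := hit k
      obtain ⟨u, hu, v, hv, huv, hvu, hpk⟩ := hD.p_eq
      obtain ⟨o2, ho2, h2⟩ := amul o1 ho1 v hv
      have h3 : E'.e * o2 * f0 = E'.e * o * f0 * yi ^ k * v := by rw [← h2, h1]
      refine ⟨o2, ho2, ?_, ?_⟩
      · rw [h3]
        calc lam * (E'.e * o * f0 * yi ^ k * v) = lam * (E'.e * o * f0) * (yi ^ k * v) := by
              simp only [mul_assoc]
          _ = 0 := by rw [h0, zero_mul]
      · have hvf : ∀ c ∈ fOf W O f0, f0 * c = c ∧ c * f0 = c := by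
          intro c hc
          obtain ⟨o3, ho3, rfl⟩ := mem_fOf.1 hc
          exact ⟨by rw [← mul_assoc, hff], by rw [mul_assoc, mul_assoc, hff]⟩
        have hfy : ∀ n : ℕ, f0 * (y ^ n * f0) = y ^ n * f0 := by
          intro n
          cases n with
          | zero => rw [pow_zero, one_mul, hff]
          | succ n =>
            obtain ⟨r, hr, hr'⟩ := mem_fRad.1 hD.y_mem
            have h9 : f0 * y = y := by rw [← hr', ← mul_assoc, hff]
            rw [pow_succ', ← mul_assoc, ← mul_assoc, h9]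
        have hyy : ∀ n : ℕ, f0 * yi ^ n * (y ^ n * f0) = f0 := by
          intro n
          induction n with
          | zero => rw [pow_zero, pow_zero, mul_one, one_mul, hff]
          | succ n ih =>
            calc f0 * yi ^ (n + 1) * (y ^ (n + 1) * f0)
                = f0 * yi ^ n * ((yi * y) * (y ^ n * f0)) := by
                  rw [pow_succ, pow_succ']
                  simp only [mul_assoc]
              _ = f0 * yi ^ n * (y ^ n * f0) := by rw [hD.xy, hfy]
              _ = f0 := ih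
        have hup : y ^ k * u * v = (p : A) * v := by
          rw [← hpk, mul_assoc, (hvf v hv).1]
        have h4 : (p : A) * (E'.e * o2 * f0) = E'.e * o * f0 * yi ^ k * ((p : A) * v) := by
          rw [h3, (Nat.cast_commute p _).eq, mul_assoc, ← (Nat.cast_commute p v).eq]
        rw [← pmul, h4, ← hup, mul_assoc (y ^ k) u v, huv]
        calc E'.e * o * f0 = E'.e * o * (f0 * yi ^ k * (y ^ k * f0)) := by rw [hyy]
          _ = E'.e * o * f0 * yi ^ k * (y ^ k * f0) := by simp only [mul_assoc]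
    have stepC' : ∀ i : ℕ, ∀ o ∈ O, lam * (E'.e * o * f0) = 0 →
        ∃ o' ∈ O, lam * (E'.e * o' * f0) = 0 ∧
          E'.e * o * f0 = (p : W) ^ i • (E'.e * o' * f0) := by
      intro i
      induction i with
      | zero => intro o ho h0; exact ⟨o, ho, h0, by rw [pow_zero, one_smul]⟩
      | succ i ih =>
        intro o ho h0
        obtain ⟨o1, ho1, h1, h2⟩ := ih o ho h0
        obtain ⟨o2, ho2, h3, h4⟩ := stepC o1 ho1 h1
        exact ⟨o2, ho2, h3, by rw [h2, h4, smul_smul, pow_succ]⟩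
    have stepD : ∀ o ∈ O, lam * (E'.e * o * f0) = 0 → E'.e * o * f0 = 0 := by
      intro o ho h0
      apply SymOrder.nondeg F H
      intro c
      have hO : ∀ c ∈ O, τ (E'.e * o * f0 * c) = 0 := by
        intro c hc
        apply zero_of_div F hBase
        intro i
        obtain ⟨o1, ho1, h1, h2⟩ := stepC' i o ho h0
        obtain ⟨o2, ho2, h3, h4⟩ := stepC o1 ho1 h1
        have h5 : E'.e * o1 * f0 ∈ O := by
          rw [h4, ← pmul]
          have h6 : (p : A) * (E'.e * o2 * f0) = E'.e * o2 * ((p : A) * f0) := by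
            rw [(Nat.cast_commute p _).eq, mul_assoc, ← (Nat.cast_commute p f0).eq]
          rw [h6]
          exact O.mul_mem (O.mul_mem E'.mem ho2) hpf
        obtain ⟨w, hw⟩ := H.int _ (O.mul_mem h5 hc)
        refine ⟨w, ?_⟩
        rw [h2, smul_mul_assoc, tsm, map_mul, hw]
      obtain ⟨N, hN⟩ := H.span c
      have h1 := hO _ hN
      have h2 : E'.e * o * f0 * ((p : A) ^ N * c) = ((p : K) ^ N) • (E'.e * o * f0 * c) := by
        rw [← mul_smul_comm]
        congr 1
        rw [Algebra.smul_def, map_pow, map_natCast]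
      rw [h2, map_smul, smul_eq_mul, mul_eq_zero] at h1
      rcases h1 with h1 | h1
      · exact absurd h1 (pow_ne_zero N hpK)
      · exact h1
    have stepE : ∀ β : A, E'.e * β = β → β * f0 = β → α * (lam * β) = β := by
      intro β b1 b2
      have hδ : lam * (β - α * (lam * β)) = 0 := by
        rw [mul_sub, ← mul_assoc lam α, hL.one, ← mul_assoc f0, hL.lam_left, sub_self]
      obtain ⟨N, hN⟩ := H.span (β - α * (lam * β))
      have h1 : E'.e * ((p : A) ^ N * (β - α * (lam * β))) * f0 =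
          (p : A) ^ N * (β - α * (lam * β)) := by
        have hc : E'.e * (p : A) ^ N = (p : A) ^ N * E'.e := by
          exact ((Nat.cast_commute p E'.e).pow_left N).eq.symm
        calc E'.e * ((p : A) ^ N * (β - α * (lam * β))) * f0
            = (E'.e * (p : A) ^ N) * (β - α * (lam * β)) * f0 := by simp only [mul_assoc]
          _ = (p : A) ^ N * (E'.e * (β - α * (lam * β)) * f0) := by
              rw [hc]
              simp only [mul_assoc]
          _ = (p : A) ^ N * (β - α * (lam * β)) := by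
              rw [mul_sub, b1, ← mul_assoc E'.e α, αl, sub_mul, b2, mul_assoc, mul_assoc, b2]
      have h2 : lam * ((p : A) ^ N * (β - α * (lam * β))) = 0 := by
        have hc : lam * (p : A) ^ N = (p : A) ^ N * lam := by
          exact ((Nat.cast_commute p lam).pow_left N).eq.symm
        rw [← mul_assoc, hc, mul_assoc, hδ, mul_zero]
      have h3 := stepD _ hN (by rw [h1, h2])
      rw [h1] at h3
      have h4 : ((p : K) ^ N) • (β - α * (lam * β)) = 0 := by
        rw [Algebra.smul_def, map_pow, map_natCast]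
        exact h3
      rcases smul_eq_zero.1 h4 with h5 | h5
      · exact absurd h5 (pow_ne_zero N hpK)
      · exact (sub_eq_zero.1 h5).symm
    -- `e' = t`
    obtain ⟨N, xs, ys, hz⟩ := hV.span
    have h1 : α * lam * z = E'.e * z := by
      rw [hz, Finset.mul_sum, Finset.mul_sum]
      apply Finset.sum_congr rfl
      intro i _
      have h2 := stepE (E'.e * xs i * f0) (al _) (ar _)
      calc α * lam * (xs i * f0 * ys i) = α * (lam * E'.e * (xs i * f0)) * ys i := by
            rw [hL.lam_right]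
            simp only [mul_assoc]
        _ = α * (lam * (E'.e * xs i * f0)) * ys i := by simp only [mul_assoc]
        _ = E'.e * (xs i * f0 * ys i) := by
            rw [h2]
            simp only [mul_assoc]
    have h2 : lam * z = lam := by
      rw [← hV.central]
      calc z * lam = z * (f0 * lam) := by rw [hL.lam_left]
        _ = lam := by rw [← mul_assoc, hV.zf, hL.lam_left]
    rw [mul_assoc, h2, ← hV.central, hze] at h1
    exact no_one H hd hn αr hL.lam_left hL.lam_right h1
  -- (viii)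
  have sl : E'.e * (α3 * mu) = α3 * mu := by rw [← mul_assoc, α3l]
  have sr : α3 * mu * E'.e = α3 * mu := by rw [mul_assoc, hM.lam_right]
  have sn : ∀ n ∈ E'.rad, IsInt W (τ (α3 * mu * n)) := by
    intro n hn'
    have h1 : τ (α3 * mu * n) = τ (mu * (n * α3)) := by
      rw [mul_assoc, H.comm, mul_assoc]
    rw [h1]
    exact mint _ (hmr n hn' mu hM.lam_left hM.lam_right hM.lam_a)
  have sint : ¬ IsInt W (τ (α3 * mu)) := by
    rw [H.comm, hM.one]
    exact hn
  obtain ⟨w, hw⟩ := step4 F H (E' := E') (x1 := α3 * mu) (x2 := α * lam) sl sr tl tr sn tn sint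
  have q1 : E'.e * (α * lam - w • (α3 * mu)) = α * lam - w • (α3 * mu) := by
    rw [mul_sub, mul_smul_comm, tl, sl]
  have q2 : (α * lam - w • (α3 * mu)) * E'.e = α * lam - w • (α3 * mu) := by
    rw [sub_mul, smul_mul_assoc, tr, sr]
  have q3 : α * lam - w • (α3 * mu) ∈ E'.rad := by
    by_contra h4
    obtain ⟨u, hu, h5⟩ := unit_l _ hw q1 q2 h4
    apply no_two H hp2 hd hn hpt (lam := lam) (mu := mu) (β := u * α) (γ := -(w • (u * α3)))
      hL.lam_left hL.lam_right lam0 hM.lam_left hM.lam_right (by rw [mul_assoc, αr])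
      (by rw [neg_mul, smul_mul_assoc, mul_assoc, α3r]) (E' := E')
    refine Eq.trans ?_ h5
    rw [mul_sub, mul_smul_comm, neg_mul, smul_mul_assoc, mul_assoc, mul_assoc,
      sub_eq_add_neg]
  have q4 := hlr _ q3 xα hxα
  rw [← hα] at q4
  have q5 : lam * ((α * lam - w • (α3 * mu)) * α) = f0 - w • (lam * α3 * (mu * α)) := by
    rw [sub_mul, smul_mul_assoc, mul_assoc, hL.one, αr, mul_sub, hL.one, mul_smul_comm]
    simp only [mul_assoc]
  rw [q5] at q4
  have q6 : mu * α ∈ fOf W O f0 := by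
    rw [hα]
    exact hM.lam_a xα hxα
  have q7 := (fRad E f0).smul_mem w (mmul _ hvii _ q6)
  have q8 := (fRad E f0).add_mem q4 q7
  rw [sub_add_cancel] at q8
  exact fO q8

end

end PDeg
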