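import Pool.Agent.Lib.MP_369ee2_lc_PD.OrdD

/-!
# Consequences of Lemma D

`O'` is a commutative discrete valuation ring with uniformizer `y`, `f A f` is its field of
fractions, `π f = y ^ k * unit` with `k = [f A f : K]`.
-/

namespace PD

open Module

variable {W K A : Type*} [CommRing W] [IsDomain W] [IsDiscreteValuationRing W] [Field K]
  [Algebra W K] [IsFractionRing W K] [Ring A] [Algebra K A] [Algebra W A] [IsScalarTower W K A]

namespace Gen

variable {Fr : Frame W K A} {f y x : A} {O' m' : Submodule W A} (h : Gen Fr f O' m' y x)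
include h

omit [IsDomain W] [IsDiscreteValuationRing W] [Field K] [Algebra W K] [IsFractionRing W K]
  [Algebra K A] [IsScalarTower W K A] h in
/-- the filtration `y ^ j O'` -/
theorem filt_mem {j : ℕ} {a : A} :
    a ∈ O'.map (LinearMap.mulLeft W (y ^ j)) ↔ ∃ b ∈ O', a = y ^ j * b := by
  constructor
  · rintro ⟨b, hb, rfl⟩
    exact ⟨b, hb, rfl⟩
  · rintro ⟨b, hb, rfl⟩
    exact ⟨b, hb, rfl⟩

theorem yf : y * f = y := h.right y h.y_mem'

theorem fy : f * y = y := h.left y h.y_mem'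

theorem f_ne : f ≠ 0 := by
  intro h0
  exact h.ne (h0 ▸ m'.zero_mem)

theorem poly_le (n : ℕ) : poly W f y n ≤ O' := by
  apply Submodule.span_le.2
  rintro _ ⟨i, rfl⟩
  exact h.pow_mul_mem h.one i

theorem dec_pow (n : ℕ) {a : A} (ha : a ∈ O') :
    ∃ c ∈ poly W f y n, ∃ b ∈ O', a = c + y ^ n * b := by
  induction n generalizing a with
  | zero => exact ⟨0, Submodule.zero_mem _, a, ha, by simp⟩
  | succ n ih =>
    obtain ⟨c, hc, b, hb, rfl⟩ := ih ha
    obtain ⟨w, b', hb', rfl⟩ := h.dec_y hb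
    refine ⟨c + w • (y ^ n * f), Submodule.add_mem _ ?_ ?_, b', hb', ?_⟩
    · refine Submodule.span_mono ?_ hc
      rintro _ ⟨i, rfl⟩
      exact ⟨i.castSucc, rfl⟩
    · apply Submodule.smul_mem
      exact Submodule.subset_span ⟨Fin.last n, rfl⟩
    · rw [mul_add, mul_smul_comm, pow_succ, mul_assoc (y ^ n) y b']
      abel

/-- `O'` is generated by the powers of `y` -/
theorem le_poly {n : ℕ} (hn : ∃ b ∈ O', y ^ n * f = Fr.π • b) : O' ≤ poly W f y n := by
  obtain ⟨b, hb, e⟩ := hn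
  have hjac : Ideal.span {Fr.π} ≤ Ideal.jacobson (⊥ : Ideal W) := by
    rw [IsLocalRing.jacobson_eq_maximalIdeal ⊥ bot_ne_top, Ideal.span_singleton_le_iff_mem,
      IsLocalRing.mem_maximalIdeal]
    exact Fr.irr.not_isUnit
  apply Submodule.le_of_le_smul_of_le_jacobson_bot h.fg hjac
  intro a ha
  obtain ⟨c, hc, b', hb', rfl⟩ := h.dec_pow n ha
  apply Submodule.add_mem_sup hc
  have e1 : y ^ n * b' = Fr.π • (b * b') := by
    rw [← smul_mul_assoc, ← e, mul_assoc, h.left b' hb']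
  rw [e1]
  exact Submodule.smul_mem_smul (Ideal.mem_span_singleton_self _) (h.mul b hb b' hb')

/-- `O'` is commutative -/
theorem comm' {a b : A} (ha : a ∈ O') (hb : b ∈ O') : a * b = b * a := by
  obtain ⟨n, hn, c, hc, e⟩ := h.exists_pow_div
  have hle := h.le_poly (n := n) ⟨c, hc, by rw [e, smul_mul_assoc, h.right c hc]⟩
  have h1 : ∀ i j : ℕ, (y ^ i * f) * (y ^ j * f) = (y ^ j * f) * (y ^ i * f) := by
    intro i j
    have hc : ∀ i : ℕ, f * (y ^ i * f) = y ^ i * f := fun i => h.left _ (h.pow_mul_mem h.one i)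
    rw [mul_assoc, hc, mul_assoc (y ^ j), hc, ← mul_assoc, ← mul_assoc, ← pow_add, ← pow_add,
      add_comm]
  refine Submodule.span_induction₂ (p := fun a b _ _ => a * b = b * a) ?_ ?_ ?_ ?_ ?_ ?_ ?_
    (hle ha) (hle hb)
  · rintro _ _ ⟨i, rfl⟩ ⟨j, rfl⟩
    exact h1 i j
  · intros; simp
  · intros; simp
  · intro a b c _ _ _ h1 h2
    rw [add_mul, mul_add, h1, h2]
  · intro a b c _ _ _ h1 h2
    rw [mul_add, add_mul, h1, h2]
  · intro r a b _ _ h1
    rw [smul_mul_assoc, mul_smul_comm, h1]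
  · intro r a b _ _ h1
    rw [mul_smul_comm, smul_mul_assoc, h1]

/-- `O'` is a lattice in the corner -/
theorem exists_smul_mem {a : A} (fa : f * a = a) (af : a * f = a) :
    ∃ c : W, c ≠ 0 ∧ c • a ∈ O' := by
  have hN : IsNoetherian W O' := isNoetherian_of_fg_of_noetherian O' h.fg
  obtain ⟨s, hs⟩ := isNoetherian_submodule.1 hN m' h.le
  classical
  obtain ⟨c, hc⟩ := IsLocalization.exist_integer_multiples_of_finset (nonZeroDivisors W)
    (s.image fun g => Fr.τ (a * g))
  refine ⟨c, nonZeroDivisors.ne_zero c.2, ?_⟩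
  apply h.dual
  · rw [mul_smul_comm, fa]
  · rw [smul_mul_assoc, af]
  · intro g hg
    rw [← hs] at hg
    refine Submodule.span_induction (p := fun g _ => IsInt W (Fr.τ ((c : W) • a * g)))
      ?_ ?_ ?_ ?_ hg
    · intro g hg
      obtain ⟨w, hw⟩ := hc (Fr.τ (a * g)) (Finset.mem_image_of_mem _ hg)
      refine ⟨w, ?_⟩
      rw [hw, smul_mul_assoc, ← algebraMap_smul K (c : W) (a * g), map_smul, smul_eq_mul,
        Algebra.smul_def]
    · exact ⟨0, by simp⟩
    · rintro g g' _ _ ⟨w, hw⟩ ⟨w', hw'⟩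
      exact ⟨w + w', by rw [map_add, hw, hw', mul_add, map_add]⟩
    · rintro r g _ ⟨w, hw⟩
      refine ⟨r * w, ?_⟩
      rw [map_mul, hw, mul_smul_comm, ← algebraMap_smul K r, map_smul, smul_eq_mul]

/-- the corner is commutative -/
theorem comm {a b : A} (fa : f * a = a) (af : a * f = a) (fb : f * b = b) (bf : b * f = b) :
    a * b = b * a := by
  obtain ⟨c, hc, ha⟩ := h.exists_smul_mem fa af
  obtain ⟨d, hd, hb⟩ := h.exists_smul_mem fb bf
  have e := h.comm' ha hb
  rw [smul_mul_smul_comm, smul_mul_smul_comm, mul_comm d c, ← algebraMap_smul K (c * d),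
    ← algebraMap_smul K (c * d)] at e
  have h0 : algebraMap W K (c * d) ≠ 0 := fun h0 =>
    mul_ne_zero hc hd ((IsFractionRing.injective W K) (by rw [h0, map_zero]))
  exact smul_right_injective A h0 e

theorem smul_cancel {c : W} (hc : c ≠ 0) {a b : A} (e : c • a = c • b) : a = b := by
  have h0 : algebraMap W K c ≠ 0 := fun h0 =>
    hc ((IsFractionRing.injective W K) (by rw [h0, map_zero]))
  rw [← algebraMap_smul K c a, ← algebraMap_smul K c b] at e
  exact smul_right_injective A h0 e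

/-- separatedness of the filtration -/
theorem sep {a : A} (ha : ∀ n : ℕ, ∃ b ∈ O', a = y ^ n * b) : a = 0 := by
  have haO : a ∈ O' := by
    obtain ⟨b, hb, e⟩ := ha 0
    rw [e, pow_zero, one_mul]
    exact hb
  obtain ⟨n, hn, c, hc, e⟩ := h.exists_pow_div
  have h1 : ∀ j : ℕ, ∃ b ∈ O', a = Fr.π ^ j • b := by
    intro j
    obtain ⟨b, hb, eb⟩ := ha (n * j)
    have h2 : ∀ j : ℕ, ∀ b ∈ O', ∃ b' ∈ O', y ^ (n * j) * b = Fr.π ^ j • b' := by
      intro j
      induction j with
      | zero => exact fun b hb => ⟨b, hb, by simp⟩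
      | succ j ih =>
        intro b hb
        obtain ⟨b', hb', e'⟩ := ih _ (h.mul c hc b hb)
        refine ⟨b', hb', ?_⟩
        rw [Nat.mul_succ, pow_add, mul_assoc, e, smul_mul_assoc, mul_smul_comm, e', smul_smul,
          pow_succ']
    obtain ⟨b', hb', e'⟩ := h2 j b hb
    exact ⟨b', hb', by rw [eb, e']⟩
  haveI : Module.Finite W O' := Module.Finite.iff_fg.2 h.fg
  have h2 : (⟨a, haO⟩ : O') ∈ (⨅ i : ℕ, (Ideal.span {Fr.π}) ^ i • ⊤ : Submodule W O') := by
    rw [Submodule.mem_iInf]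
    intro j
    obtain ⟨b, hb, e⟩ := h1 j
    have : (⟨a, haO⟩ : O') = Fr.π ^ j • (⟨b, hb⟩ : O') := Subtype.ext e
    rw [this]
    apply Submodule.smul_mem_smul _ Submodule.mem_top
    rw [Ideal.span_singleton_pow]
    exact Ideal.mem_span_singleton_self _
  rw [Ideal.iInf_pow_smul_eq_bot_of_isLocalRing] at h2
  · exact congrArg Subtype.val ((Submodule.mem_bot W).1 h2)
  · intro htop
    rw [Ideal.span_singleton_eq_top] at htop
    exact Fr.irr.not_isUnit htop

/-- every nonzero element of `O'` is a power of `y` times a unit -/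
theorem exists_pow_unit [Module.Finite K A] {a : A} (ha : a ∈ O') (ha0 : a ≠ 0) :
    ∃ i : ℕ, ∃ u ∈ O', ∃ v ∈ O', u * v = f ∧ v * u = f ∧ a = y ^ i * u := by
  classical
  have hex : ∃ n : ℕ, ¬ ∃ b ∈ O', a = y ^ n * b := by
    by_contra hcon
    push Not at hcon
    exact ha0 (h.sep hcon)
  have hs := Nat.find_spec hex
  have hmin : ∀ k, k < Nat.find hex → ∃ b ∈ O', a = y ^ k * b :=
    fun k hk => not_not.1 (Nat.find_min hex hk)
  generalize Nat.find hex = n at hs hmin
  obtain ⟨i, rfl⟩ : ∃ i, n = i + 1 := by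
    cases n with
    | zero => exact absurd ⟨a, ha, by simp⟩ hs
    | succ i => exact ⟨i, rfl⟩
  obtain ⟨b, hb, e⟩ := hmin i (Nat.lt_succ_self i)
  have hbm : b ∉ m' := by
    intro hbm
    apply hs
    refine ⟨x * b, h.x_mul b hbm, ?_⟩
    rw [pow_succ, mul_assoc, ← h.eq_y_mul hbm]
    exact e
  obtain ⟨v, hv, e1, e2⟩ := h.isUnit hb hbm
  exact ⟨i, b, hb, v, hv, e1, e2, e⟩

theorem ypow_fxpow (i : ℕ) : y ^ i * f * x ^ i = f := by
  induction i with
  | zero => simp
  | succ i ih =>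
    rw [pow_succ, pow_succ', mul_assoc, mul_assoc, ← mul_assoc f, h.fx, ← mul_assoc y, h.yx,
      ← mul_assoc]
    exact ih

/-- the corner is a division ring -/
theorem exists_inv [Module.Finite K A] {a : A} (fa : f * a = a) (af : a * f = a) (ha0 : a ≠ 0) :
    ∃ b, f * b = b ∧ b * f = b ∧ a * b = f ∧ b * a = f := by
  obtain ⟨c, hc, ha⟩ := h.exists_smul_mem fa af
  have h0 : c • a ≠ 0 := by
    intro h0
    exact ha0 (h.smul_cancel hc (by rw [h0, smul_zero]))
  obtain ⟨i, u, hu, v, hv, e1, e2, e⟩ := h.exists_pow_unit ha h0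
  have key : (c • a) * (v * x ^ i * f) = f := by
    rw [e]
    calc y ^ i * u * (v * x ^ i * f) = y ^ i * (u * v) * x ^ i * f := by simp only [mul_assoc]
      _ = f * f := by rw [e1, h.ypow_fxpow]
      _ = f := h.idem
  have key2 : a * (c • (v * x ^ i * f)) = f := by
    rw [mul_smul_comm, ← smul_mul_assoc]
    exact key
  have hl : f * (c • (v * x ^ i * f)) = c • (v * x ^ i * f) := by
    rw [mul_smul_comm, ← mul_assoc, ← mul_assoc, h.left v hv]
  have hr : (c • (v * x ^ i * f)) * f = c • (v * x ^ i * f) := by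
    rw [smul_mul_assoc, mul_assoc, h.idem]
  exact ⟨_, hl, hr, key2, Corner.inv_comm (K := K) h.idem fa af hl hr key2⟩

/-- `π f = y ^ k * unit`, `k > 0` -/
theorem exists_ram [Module.Finite K A] : ∃ k : ℕ, 0 < k ∧ ∃ u ∈ O', ∃ v ∈ O', u * v = f ∧
    v * u = f ∧ Fr.π • f = y ^ k * u := by
  have h0 : Fr.π • f ≠ 0 := by
    intro h0
    exact h.f_ne (h.smul_cancel Fr.irr.ne_zero (by rw [h0, smul_zero]))
  obtain ⟨k, u, hu, v, hv, e1, e2, e⟩ := h.exists_pow_unit (h.le h.pe) h0
  refine ⟨k, ?_, u, hu, v, hv, e1, e2, e⟩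
  rcases Nat.eq_zero_or_pos k with rfl | hk
  · exfalso
    apply h.ne
    rw [← e1]
    apply h.mul_r v hv
    rw [pow_zero, one_mul] at e
    rw [← e]
    exact h.pe
  · exact hk

/-- the powers of `y` below the ramification index are independent over `W` -/
theorem indep [Module.Finite K A] {k : ℕ} {u v : A} (hu : u ∈ O') (_hv : v ∈ O')
    (hk : Fr.π • f = y ^ k * u) (c : Fin k → W) (hc : ∑ i, c i • (y ^ (i : ℕ) * f) = 0) :
    ∀ i, c i = 0 := by
  have step : ∀ c : Fin k → W, ∑ i, c i • (y ^ (i : ℕ) * f) = 0 → ∀ i, ∃ d, c i = Fr.π * d := by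
    intro c hc
    by_contra hcon
    push Not at hcon
    obtain ⟨i₁, hi₁⟩ := hcon
    classical
    have hex : ∃ n : ℕ, ∃ hn : n < k, ∀ d, c ⟨n, hn⟩ ≠ Fr.π * d := ⟨i₁, i₁.2, hi₁⟩
    obtain ⟨hn, hs⟩ := Nat.find_spec hex
    have hmin : ∀ j, j < Nat.find hex → ¬ ∃ hn : j < k, ∀ d, c ⟨j, hn⟩ ≠ Fr.π * d :=
      fun j hj => Nat.find_min hex hj
    generalize Nat.find hex = n at hn hs hmin
    have hu' : IsUnit (c ⟨n, hn⟩) := by
      rcases Corner.unit_or Fr (c ⟨n, hn⟩) with h1 | ⟨d, hd⟩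
      · exact h1
      · exact absurd hd (hs d)
    have hrest : ∀ i ∈ Finset.univ.erase (⟨n, hn⟩ : Fin k),
        c i • (y ^ (i : ℕ) * f) ∈ O'.map (LinearMap.mulLeft W (y ^ (n + 1))) := by
      intro i hi
      have hin : (i : ℕ) ≠ n := fun h0 => (Finset.ne_of_mem_erase hi) (Fin.ext h0)
      rcases lt_or_gt_of_ne hin with hlt | hgt
      · have h1 := hmin i hlt
        push Not at h1
        obtain ⟨d, hd⟩ := h1 i.2
        rw [filt_mem]
        refine ⟨d • (y ^ (i + k - (n + 1)) * u), O'.smul_mem _ (h.pow_mul_mem hu _), ?_⟩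
        have e1 : c i = d * Fr.π := by
          rw [mul_comm]
          exact hd
        rw [e1, mul_smul, ← mul_smul_comm, hk, mul_smul_comm, ← mul_assoc, ← mul_assoc,
          ← pow_add, ← pow_add]
        congr 3
        omega
      · rw [filt_mem]
        refine ⟨c i • (y ^ (i - (n + 1)) * f), O'.smul_mem _ (h.pow_mul_mem h.one _), ?_⟩
        rw [mul_smul_comm, ← mul_assoc, ← pow_add]
        congr 3
        omega
    have hsum := Submodule.sum_mem _ hrest
    rw [← Finset.add_sum_erase _ _ (Finset.mem_univ (⟨n, hn⟩ : Fin k))] at hc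
    rw [filt_mem] at hsum
    obtain ⟨b, hb, eb⟩ := hsum
    rw [eb] at hc
    have e2 : y ^ n * (c ⟨n, hn⟩ • f + y * b) = y ^ n * 0 := by
      rw [mul_add, mul_smul_comm, mul_zero, ← mul_assoc (y ^ n) y b, ← pow_succ]
      exact hc
    have hcf : f * (c ⟨n, hn⟩ • f + y * b) = c ⟨n, hn⟩ • f + y * b := by
      apply h.left
      exact O'.add_mem (O'.smul_mem _ h.one) (h.le (h.y_mul_mem hb))
    have e3 := h.pow_inj n hcf (mul_zero f) e2
    apply h.ne
    obtain ⟨w, hw⟩ := hu'
    have e4 : f = (-(↑w⁻¹ : W)) • (y * b) := by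
      have e5 : c ⟨n, hn⟩ • f = -(y * b) := eq_neg_of_add_eq_zero_left e3
      rw [← hw] at e5
      calc f = (↑w⁻¹ : W) • ((w : W) • f) := by rw [smul_smul, Units.inv_mul, one_smul]
        _ = (-(↑w⁻¹ : W)) • (y * b) := by rw [e5, smul_neg, neg_smul]
    rw [e4]
    exact m'.smul_mem _ (h.y_mul_mem hb)
  have hdiv : ∀ n : ℕ, ∀ c : Fin k → W, ∑ i, c i • (y ^ (i : ℕ) * f) = 0 →
      ∀ i, Fr.π ^ n ∣ c i := by
    intro n
    induction n with
    | zero => intro c _ i; simp
    | succ n ih =>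
      intro c hc i
      choose d hd using step c hc
      have e1 : ∑ i, d i • (y ^ (i : ℕ) * f) = 0 := by
        apply h.smul_cancel Fr.irr.ne_zero
        rw [smul_zero, Finset.smul_sum, ← hc]
        apply Finset.sum_congr rfl
        intro i _
        rw [smul_smul, ← hd i]
      rw [hd i, pow_succ']
      exact mul_dvd_mul_left _ (ih d e1 i)
  intro i
  by_contra hne
  obtain ⟨n, hn⟩ := IsDiscreteValuationRing.associated_pow_irreducible hne Fr.irr
  have h1 := hdiv (n + 1) c hc i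
  have h2 : Fr.π ^ (n + 1) ∣ Fr.π ^ n := h1.trans hn.dvd
  have h3 := (pow_dvd_pow_iff Fr.irr.ne_zero Fr.irr.not_isUnit).1 h2
  omega

/-- the degree of the corner is the ramification index -/
theorem finrank_cor [Module.Finite K A] {k : ℕ} {u v : A} (hu : u ∈ O') (hv : v ∈ O')
    (huv : u * v = f) (hk : Fr.π • f = y ^ k * u) : finrank K (cor K f) = k := by
  have hmem : ∀ i : Fin k, y ^ (i : ℕ) * f ∈ cor K f := fun i =>
    ⟨h.left _ (h.pow_mul_mem h.one i), h.right _ (h.pow_mul_mem h.one i)⟩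
  have hli : LinearIndependent K (fun i : Fin k => (⟨y ^ (i : ℕ) * f, hmem i⟩ : cor K f)) := by
    rw [← LinearIndependent.iff_fractionRing (R := W) (K := K), Fintype.linearIndependent_iff]
    intro c hc
    apply h.indep hu hv hk c
    have h1 := congrArg (Subtype.val : cor K f → A) hc
    rw [Submodule.coe_zero] at h1
    rw [← h1]
    push_cast
    rfl
  have hsp : ⊤ ≤ Submodule.span K
      (Set.range (fun i : Fin k => (⟨y ^ (i : ℕ) * f, hmem i⟩ : cor K f))) := by
    rintro ⟨a, fa, af⟩ -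
    obtain ⟨c, hc, ha⟩ := h.exists_smul_mem fa af
    have hle := h.le_poly (n := k) ⟨v, hv, by
      rw [← huv, ← mul_assoc, ← hk, smul_mul_assoc, h.left v hv]⟩
    have h1 := hle ha
    have h0 : algebraMap W K c ≠ 0 := fun h0 =>
      hc ((IsFractionRing.injective W K) (by rw [h0, map_zero]))
    have h2 : ∀ b ∈ poly W f y k, ∀ hb : b ∈ cor K f, (⟨b, hb⟩ : cor K f) ∈ Submodule.span K
        (Set.range (fun i : Fin k => (⟨y ^ (i : ℕ) * f, hmem i⟩ : cor K f))) := by
      intro b hb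
      refine Submodule.span_induction (p := fun b _ => ∀ hb : b ∈ cor K f,
        (⟨b, hb⟩ : cor K f) ∈ Submodule.span K
        (Set.range (fun i : Fin k => (⟨y ^ (i : ℕ) * f, hmem i⟩ : cor K f)))) ?_ ?_ ?_ ?_ hb
      · rintro _ ⟨i, rfl⟩ _
        exact Submodule.subset_span ⟨i, rfl⟩
      · intro _
        exact Submodule.zero_mem _
      · intro b b' hb hb' i1 i2 hbb
        have m1 : b ∈ cor K f :=
          ⟨h.left _ (h.poly_le k hb), h.right _ (h.poly_le k hb)⟩
        have m2 : b' ∈ cor K f :=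
          ⟨h.left _ (h.poly_le k hb'), h.right _ (h.poly_le k hb')⟩
        exact Submodule.add_mem _ (i1 m1) (i2 m2)
      · intro r b hb i1 hbb
        have m1 : b ∈ cor K f :=
          ⟨h.left _ (h.poly_le k hb), h.right _ (h.poly_le k hb)⟩
        have := Submodule.smul_mem _ (algebraMap W K r) (i1 m1)
        convert this using 1
        apply Subtype.ext
        show r • b = algebraMap W K r • b
        rw [algebraMap_smul]
    have h3 := h2 _ h1 ⟨h.left _ ha, h.right _ ha⟩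
    have h4 := Submodule.smul_mem _ (algebraMap W K c)⁻¹ h3
    convert h4 using 1
    apply Subtype.ext
    show a = (algebraMap W K c)⁻¹ • (c • a)
    rw [← algebraMap_smul K c a, smul_smul, inv_mul_cancel₀ h0, one_smul]
  have b := Basis.mk hli hsp
  rw [finrank_eq_card_basis b, Fintype.card_fin]

/-- summary: `π f = y ^ k * u`, `u` a unit, `k = [f A f : K] > 0` -/
theorem ram [Module.Finite K A] : 0 < finrank K (cor K f) ∧ ∃ u ∈ O', ∃ v ∈ O', u * v = f ∧
    v * u = f ∧ Fr.π • f = y ^ (finrank K (cor K f)) * u := by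
  obtain ⟨k, hk, u, hu, v, hv, e1, e2, e⟩ := h.exists_ram
  have := h.finrank_cor hu hv e1 e
  rw [this]
  exact ⟨hk, u, hu, v, hv, e1, e2, e⟩

end Gen

end PD
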