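import Pool.Agent.Lib.MP_369ee2_lc_PD.OrdGood
import Pool.Agent.Lib.MP_369ee2_lc_PD.OrdV
import Pool.Agent.Lib.MP_369ee2_lc_PD.OrdD2

/-!
# A Good pair satisfies the hypotheses of Lemma D; its corner is a field
-/

namespace PD

open Module

variable {W K A : Type*} [CommRing W] [IsDomain W] [IsDiscreteValuationRing W] [Field K]
  [Algebra W K] [IsFractionRing W K] [Ring A] [Algebra K A] [Algebra W A] [IsScalarTower W K A]

/-- the hypotheses of Lemma D hold for a Good pair -/
theorem Good.corner {Fr : Frame W K A} {e f : A} {r : Submodule W A} (h : Good Fr e r f) :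
    Corner Fr f (Fr.OF e f) (MF r f) where
  idem := h.idem
  left := fun _ hx => h.OF_left hx
  right := fun _ hx => h.OF_right hx
  one := h.f_mem
  mul := fun _ hx _ hy => h.OF_mul hx hy
  le := h.MF_le_OF
  mul_l := fun _ hx _ hy => h.OF_mul_MF hx hy
  mul_r := fun _ hx _ hy => h.MF_mul_OF hy hx
  dec := fun _ hx => h.OF_dec hx
  pe := h.pf_mem
  ne := h.f_not_mem
  nil := h.MF_nil
  fg := Fr.OF_fg e f
  dual := fun _ h1 h2 H => h.mem_OF_of_tau h1 h2 H
  int := fun _ hy => h.tau_MF hy

theorem Gen.cornerField [Module.Finite K A] {Fr : Frame W K A} {f y x : A}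
    {O' m' : Submodule W A} (h : Gen Fr f O' m' y x) : CornerField f := by
  refine ⟨h.f_ne, ?_⟩
  intro a fa af ha
  obtain ⟨b, h1, h2, h3, h4⟩ := h.exists_inv fa af ha
  exact ⟨b, h1, h2, h3, h4⟩

/-- the data of Lemma D -/
theorem Corner.gen [Module.Finite K A] {Fr : Frame W K A} {f : A} {O' m' : Submodule W A}
    (h : Corner Fr f O' m') : ∃ y x, Gen Fr f O' m' y x := by
  obtain ⟨y, hy, x, h1, h2, h3, h4, h5, h6⟩ := h.exists_gen
  exact ⟨y, x, ⟨h, hy, h1, h2, h3, h4, h5, h6⟩⟩

theorem Corner.cornerField [Module.Finite K A] {Fr : Frame W K A} {f : A}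
    {O' m' : Submodule W A} (h : Corner Fr f O' m') : CornerField f := by
  obtain ⟨y, x, hg⟩ := h.gen
  exact hg.cornerField

theorem Good.gen [Module.Finite K A] {Fr : Frame W K A} {e f : A} {r : Submodule W A}
    (h : Good Fr e r f) : ∃ y x, Gen Fr f (Fr.OF e f) (MF r f) y x := h.corner.gen

theorem Good.cornerField [Module.Finite K A] {Fr : Frame W K A} {e f : A} {r : Submodule W A}
    (h : Good Fr e r f) : CornerField f := h.corner.cornerField

/-- the corner of a Good pair is commutative -/
theorem Good.cor_comm [Module.Finite K A] {Fr : Frame W K A} {e f : A} {r : Submodule W A}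
    (h : Good Fr e r f) {a b : A} (fa : f * a = a) (af : a * f = a) (fb : f * b = b)
    (bf : b * f = b) : a * b = b * a := by
  obtain ⟨y, x, hg⟩ := h.gen
  exact hg.comm fa af fb bf

end PD
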