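import Pool.Agent.Lib.MP_369ee2_lc_PD.OrdA
import Pool.Agent.Lib.MP_369ee2_lc_PD.OrdCF

/-!
# (EL): transfer of Good pairs
-/

set_option linter.unusedSectionVars false

namespace PD

variable {W K A : Type*} [CommRing W] [IsDomain W] [IsDiscreteValuationRing W] [Field K]
  [Algebra W K] [IsFractionRing W K] [Ring A] [Algebra K A] [Algebra W A] [IsScalarTower W K A]

namespace Loc

variable {Fr : Frame W K A} {e : A} {r : Submodule W A}

/-- a submodule of the algebra with `N ≤ N π` style descent is zero -/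
theorem zero_of_div (Fr : Frame W K A) {N : Submodule W A} (hN : N.FG)
    (h : ∀ x ∈ N, ∃ y ∈ N, x = Fr.π • y) : ∀ x ∈ N, x = 0 := by
  have : N ≤ ⊥ := by
    refine Fr.nak hN ?_
    intro x hx
    obtain ⟨y, hy, rfl⟩ := h x hx
    exact Submodule.mem_sup_right ⟨y, hy, rfl⟩
  intro x hx
  simpa using this hx

theorem nil_corner (h : Loc Fr e r) :
    ∃ n : ℕ, 0 < n ∧ ∀ x ∈ r ^ n, ∃ y ∈ Fr.corner e, x = Fr.π • y := by
  obtain ⟨n, hn, hnil⟩ := h.nil
  refine ⟨n, hn, ?_⟩
  intro x hx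
  obtain ⟨t, ht, rfl⟩ := hnil x hx
  have hyr : Fr.π • t ∈ r := by
    have := h.r_pow_le (n - 1)
    rw [Nat.sub_add_cancel hn] at this
    exact this hx
  refine ⟨t, ⟨ht, ?_, ?_⟩, rfl⟩
  · apply Fr.smul_inj Fr.π Fr.pi_ne
    rw [← mul_smul_comm]
    exact h.r_left _ hyr
  · apply Fr.smul_inj Fr.π Fr.pi_ne
    rw [← smul_mul_assoc]
    exact h.r_right _ hyr

/-- image of an idempotent: `t = z c`, `c` in the corner, `z` central idempotent commuting: then
`t = 0` or `t = z e` -/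
theorem idem_quot (h : Loc Fr e r) {z c : A} (hz : z * z = z) (hzc : ∀ x, z * x = x * z)
    (hc : c ∈ Fr.corner e) (ht : (z * c) * (z * c) = z * c) : z * c = 0 ∨ z * c = z * e := by
  by_cases hcr : c ∈ r
  · left
    obtain ⟨n, hn, hnil⟩ := h.nil_corner
    have hpow : ∀ j : ℕ, z * c ^ (j + 1) = z * c := by
      intro j
      induction j with
      | zero => simp
      | succ j ih =>
        calc z * c ^ (j + 1 + 1) = (z * z) * (c ^ (j + 1) * c) := by rw [hz, pow_succ]
          _ = z * (z * c ^ (j + 1)) * c := by noncomm_ring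
          _ = z * (z * c) * c := by rw [ih]
          _ = z * c * z * c := by rw [hzc (z * c)]
          _ = (z * c) * (z * c) := by noncomm_ring
          _ = z * c := ht
    obtain ⟨y, hy, hyc⟩ := hnil (c ^ n) (Submodule.pow_mem_pow r hcr n)
    have h1 : z * c = Fr.π • (z * y) := by
      have := hpow (n - 1)
      rw [Nat.sub_add_cancel hn, hyc, mul_smul_comm] at this
      exact this.symm
    let N : Submodule W A := (Fr.corner e).map (LinearMap.mulRight W (z * c))
    have hN : ∀ x ∈ N, x = 0 := by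
      apply zero_of_div Fr ((Fr.corner_fg e).map _)
      rintro _ ⟨x, hx, rfl⟩
      refine ⟨_, ⟨x * y, corner_mul hx hy, rfl⟩, ?_⟩
      change x * (z * c) = Fr.π • ((x * y) * (z * c))
      calc x * (z * c) = x * ((z * c) * (z * c)) := by rw [ht]
        _ = x * ((Fr.π • (z * y)) * (z * c)) := by rw [← h1]
        _ = Fr.π • (x * ((z * y) * (z * c))) := by rw [smul_mul_assoc, mul_smul_comm]
        _ = Fr.π • (x * ((y * z) * (z * c))) := by rw [hzc y]
        _ = Fr.π • (x * y * ((z * z) * c)) := by noncomm_ring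
        _ = Fr.π • ((x * y) * (z * c)) := by rw [hz]
    have h2 := hN _ ⟨e, h.e_mem, rfl⟩
    change e * (z * c) = 0 at h2
    rw [← mul_assoc, ← hzc e, mul_assoc, hc.2.1] at h2
    exact h2
  · right
    obtain ⟨u, hu, h1, h2⟩ := h.unit hc hcr
    calc z * c = z * (c * e) := by rw [hc.2.2]
      _ = z * c * (c * u) := by rw [h1, mul_assoc]
      _ = (z * z) * c * c * u := by rw [hz]; noncomm_ring
      _ = z * (z * c) * c * u := by noncomm_ring
      _ = z * c * z * c * u := by rw [hzc (z * c)]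
      _ = ((z * c) * (z * c)) * u := by noncomm_ring
      _ = z * (c * u) := by rw [ht, mul_assoc]
      _ = z * e := by rw [h1]

end Loc

namespace EL

variable (Fr : Frame W K A)

/-- the bimodule `e O f` -/
def am (e f : A) : Submodule W A :=
  (Subalgebra.toSubmodule Fr.O).map ((LinearMap.mulLeft W e) ∘ₗ (LinearMap.mulRight W f))

variable {Fr}

theorem mem_am {e f x : A} : x ∈ am Fr e f ↔ ∃ y ∈ Fr.O, e * (y * f) = x := Iff.rfl

theorem am_fg (e f : A) : (am Fr e f).FG := Fr.fg.map _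

theorem am_left {e f x : A} (he : e * e = e) (hx : x ∈ am Fr e f) : e * x = x := by
  obtain ⟨y, _, rfl⟩ := hx
  change e * (e * (y * f)) = e * (y * f)
  rw [← mul_assoc, he]

theorem am_right {e f x : A} (hf : f * f = f) (hx : x ∈ am Fr e f) : x * f = x := by
  obtain ⟨y, _, rfl⟩ := hx
  change (e * (y * f)) * f = e * (y * f)
  rw [mul_assoc, mul_assoc, hf]

/-- `corner * am ≤ am` -/
theorem mul_am {e f x y : A} (hx : x ∈ Fr.O) (hx1 : e * x = x) (heO : e ∈ Fr.O)
    (hy : y ∈ am Fr e f) : x * y ∈ am Fr e f := by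
  obtain ⟨t, ht, rfl⟩ := hy
  refine ⟨x * e * t, Fr.O.mul_mem (Fr.O.mul_mem hx heO) ht, ?_⟩
  change e * (x * e * t * f) = x * (e * (t * f))
  rw [show e * (x * e * t * f) = (e * x) * e * t * f by noncomm_ring, hx1]
  noncomm_ring

/-- `am * OF ≤ am` -/
theorem am_mul {e e0 f0 x y : A} {r0 : Submodule W A} (hG : Good Fr e0 r0 f0)
    (hx : x ∈ am Fr e f0) (hy : y ∈ Fr.OF e0 f0) : x * y ∈ am Fr e f0 := by
  obtain ⟨t, ht, rfl⟩ := hx
  obtain ⟨c, hc, rfl⟩ := hy
  refine ⟨t * c, Fr.O.mul_mem ht hc.1, ?_⟩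
  change e * (t * c * f0) = (e * (t * f0)) * (f0 * c)
  have h1 : f0 * c = c * f0 := hG.comm hc
  calc e * (t * c * f0) = e * t * (c * f0) := by noncomm_ring
    _ = e * t * (f0 * c) := by rw [h1]
    _ = e * t * ((f0 * f0) * c) := by rw [hG.idem]
    _ = (e * (t * f0)) * (f0 * c) := by noncomm_ring

/-- elements `x` of `f A e` with `τ(x am)` integral lie in `O` -/
theorem mem_O {e f x : A} (h1 : f * x = x) (h2 : x * e = x)
    (H : ∀ y ∈ am Fr e f, IsInt W (Fr.τ (x * y))) : x ∈ Fr.O := by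
  apply Fr.mem_O_of_left h2 h1
  intro z hz
  rw [mul_assoc e]
  exact H _ ⟨z, hz, rfl⟩

section main

variable {e e0 f0 : A} {r r0 : Submodule W A} (hG : Good Fr e0 r0 f0) (hL : Loc Fr e r)

include hG in
/-- (Good b) for a right stable submodule -/
theorem dual1 {x : A} (h1 : f0 * x = x) {N : Submodule W A} (hNa : N ≤ am Fr e f0)
    (hN : ∀ y ∈ N, ∀ c ∈ Fr.OF e0 f0, y * c ∈ N)
    (H : ∀ y ∈ N, IsInt W (Fr.τ (x * y))) : ∀ y ∈ N, x * y ∈ MF r0 f0 := by
  intro y hy
  refine hG.mem_MF_of_tau ?_ ?_ ?_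
  · rw [← mul_assoc, h1]
  · rw [mul_assoc, am_right hG.idem (hNa hy)]
  · intro c hc
    rw [mul_assoc]
    exact H _ (hN y hy c hc)

include hG in
/-- (Good c) -/
theorem dual2 {x : A} (h1 : f0 * x = x)
    (H : ∀ y ∈ am Fr e f0, ∀ c ∈ MF r0 f0, IsInt W (Fr.τ (x * (y * c)))) :
    ∀ y ∈ am Fr e f0, x * y ∈ Fr.OF e0 f0 := by
  intro y hy
  refine hG.mem_OF_of_tau ?_ ?_ ?_
  · rw [← mul_assoc, h1]
  · rw [mul_assoc, am_right hG.idem hy]
  · intro c hc
    rw [mul_assoc]
    exact H y hy c hc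

include hG hL in
/-- separation: for a right stable `N` between `am MF` and `am` and `x0` outside -/
theorem sep [FiniteDimensional K A] {N : Submodule W A} (hNa : N ≤ am Fr e f0)
    (hN : ∀ y ∈ N, ∀ c ∈ Fr.OF e0 f0, y * c ∈ N)
    (hNM : ∀ y ∈ am Fr e f0, ∀ c ∈ MF r0 f0, y * c ∈ N) {x0 : A} (hx0 : x0 ∈ am Fr e f0)
    (hx0N : x0 ∉ N) :
    ∃ l : A, f0 * l = l ∧ l * e = l ∧ (∀ y ∈ am Fr e f0, l * y ∈ Fr.OF e0 f0) ∧
      (∀ y ∈ N, l * y ∈ MF r0 f0) ∧ l * x0 ∉ MF r0 f0 := by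
  obtain ⟨ξ, h1, h2⟩ := Fr.dd N (Frame.fg_of_le hNa (am_fg e f0)) x0 hx0N
  have hτ : ∀ y ∈ am Fr e f0, Fr.τ (f0 * ξ * e * y) = Fr.τ (ξ * y) := by
    intro y hy
    rw [show f0 * ξ * e * y = f0 * (ξ * (e * y)) by noncomm_ring, am_left hL.idem hy, Fr.symm,
      mul_assoc, am_right hG.idem hy]
  have hl : f0 * (f0 * ξ * e) = f0 * ξ * e := by
    rw [← mul_assoc, ← mul_assoc, hG.idem]
  have hN' : ∀ y ∈ N, f0 * ξ * e * y ∈ MF r0 f0 := by
    refine dual1 hG hl hNa hN ?_
    intro y hy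
    rw [hτ y (hNa hy)]
    exact h1 y hy
  refine ⟨f0 * ξ * e, hl, by rw [mul_assoc, hL.idem], ?_, hN', ?_⟩
  · refine dual2 hG hl ?_
    intro y hy c hc
    exact hG.tau_MF (hN' _ (hNM y hy c hc))
  · intro hM
    apply h2
    rw [← hτ x0 hx0]
    exact hG.tau_MF hM

include hG hL in
/-- `am` is not contained in `am MF` if it is not zero -/
theorem not_le_amM (hne : ∃ x ∈ am Fr e f0, x ≠ 0) :
    ¬ am Fr e f0 ≤ am Fr e f0 * MF r0 f0 := by
  intro hle
  obtain ⟨n, hn, hnil⟩ := hG.MF_nil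
  have h1 : ∀ j : ℕ, am Fr e f0 ≤ am Fr e f0 * (MF r0 f0) ^ (j + 1) := by
    intro j
    induction j with
    | zero => simpa using hle
    | succ j ih =>
      calc am Fr e f0 ≤ am Fr e f0 * (MF r0 f0) ^ (j + 1) := ih
        _ ≤ (am Fr e f0 * MF r0 f0) * (MF r0 f0) ^ (j + 1) := by
          exact mul_le_mul_left hle _
        _ = am Fr e f0 * (MF r0 f0) ^ (j + 1 + 1) := by rw [mul_assoc, ← pow_succ']
  have h2 : ∀ x ∈ am Fr e f0, x = 0 := by
    apply Loc.zero_of_div Fr (am_fg e f0)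
    intro x hx
    have hx' := h1 (n - 1) hx
    rw [Nat.sub_add_cancel hn] at hx'
    refine Submodule.mul_induction_on hx' ?_ ?_
    · intro a ha c hc
      obtain ⟨y, hy, rfl⟩ := hnil c hc
      exact ⟨a * y, am_mul hG ha hy, by rw [mul_smul_comm]⟩
    · rintro a b ⟨a', ha', rfl⟩ ⟨b', hb', rfl⟩
      exact ⟨a' + b', Submodule.add_mem _ ha' hb', by rw [smul_add]⟩
  obtain ⟨x, hx, hx0⟩ := hne
  exact hx0 (h2 x hx)

include hG hL in
theorem r_pow_am (j : ℕ) : r ^ j * am Fr e f0 ≤ am Fr e f0 := by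
  induction j with
  | zero => simp
  | succ j ih =>
    rw [pow_succ', mul_assoc]
    refine (mul_le_mul_right ih _).trans ?_
    refine Submodule.mul_le.2 fun x hx y hy => ?_
    exact mul_am (hL.r_mem x hx) (hL.r_left x hx) hL.mem hy

include hG hL in
/-- `r ^ n am ≤ am MF` -/
theorem r_pow_le_amM : ∃ n : ℕ, 0 < n ∧ r ^ n * am Fr e f0 ≤ am Fr e f0 * MF r0 f0 := by
  obtain ⟨n, hn, hnil⟩ := hL.nil_corner
  refine ⟨n, hn, Submodule.mul_le.2 fun x hx y hy => ?_⟩
  obtain ⟨t, ht, rfl⟩ := hnil x hx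
  have h1 : (Fr.π • t) * y = (t * y) * (Fr.π • f0) := by
    rw [smul_mul_assoc, mul_smul_comm, mul_assoc, am_right hG.idem hy]
  rw [h1]
  exact Submodule.mul_mem_mul (mul_am ht.1 ht.2.1 hL.mem hy) hG.pf_mem

include hG hL in
/-- `am` is not `r am + am MF` -/
theorem exists_out (hne : ∃ x ∈ am Fr e f0, x ≠ 0) :
    ∃ x ∈ am Fr e f0, x ∉ r * am Fr e f0 ⊔ am Fr e f0 * MF r0 f0 := by
  by_contra hcon
  push Not at hcon
  have hle : am Fr e f0 ≤ r * am Fr e f0 ⊔ am Fr e f0 * MF r0 f0 := fun x hx => hcon x hx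
  have h1 : ∀ j : ℕ, am Fr e f0 ≤ r ^ (j + 1) * am Fr e f0 ⊔ am Fr e f0 * MF r0 f0 := by
    intro j
    induction j with
    | zero => simpa using hle
    | succ j ih =>
      refine ih.trans (sup_le ?_ le_sup_right)
      calc r ^ (j + 1) * am Fr e f0
          ≤ r ^ (j + 1) * (r * am Fr e f0 ⊔ am Fr e f0 * MF r0 f0) :=
            mul_le_mul_right hle _
        _ = r ^ (j + 1) * (r * am Fr e f0) ⊔ r ^ (j + 1) * (am Fr e f0 * MF r0 f0) :=
            Submodule.mul_sup _ _ _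
        _ ≤ r ^ (j + 1 + 1) * am Fr e f0 ⊔ am Fr e f0 * MF r0 f0 := by
            refine sup_le_sup ?_ ?_
            · rw [← mul_assoc, ← pow_succ]
            · rw [← mul_assoc]
              exact mul_le_mul_left (r_pow_am hG hL (j + 1)) _
  obtain ⟨n, hn, hn2⟩ := r_pow_le_amM hG hL
  apply not_le_amM hG hL hne
  have := h1 (n - 1)
  rw [Nat.sub_add_cancel hn] at this
  exact this.trans (sup_le hn2 le_rfl)

include hG hL in
theorem amM_right {y c : A} (hy : y ∈ am Fr e f0 * MF r0 f0) (hc : c ∈ Fr.OF e0 f0) :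
    y * c ∈ am Fr e f0 * MF r0 f0 := by
  refine Submodule.mul_induction_on hy ?_ ?_
  · intro a ha m hm
    rw [mul_assoc]
    exact Submodule.mul_mem_mul ha (hG.MF_mul_OF hm hc)
  · intro a b ha hb
    rw [add_mul]
    exact Submodule.add_mem _ ha hb

include hG hL in
theorem amM_le : am Fr e f0 * MF r0 f0 ≤ am Fr e f0 :=
  Submodule.mul_le.2 fun _ hx _ hy => am_mul hG hx (hG.MF_le_OF hy)

include hG hL in
/-- (i) -/
theorem step1 [FiniteDimensional K A] (hne : ∃ x ∈ am Fr e f0, x ≠ 0) :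
    ∃ α l : A, α ∈ am Fr e f0 ∧ f0 * l = l ∧ l * e = l ∧
      (∀ y ∈ am Fr e f0, l * y ∈ Fr.OF e0 f0) ∧
      (∀ x ∈ r, ∀ y ∈ am Fr e f0, l * (x * y) ∈ MF r0 f0) ∧ l * α = f0 := by
  obtain ⟨x0, hx0, hx0N⟩ := exists_out hG hL hne
  have hst1 : ∀ y ∈ r * am Fr e f0 ⊔ am Fr e f0 * MF r0 f0, ∀ c ∈ Fr.OF e0 f0,
      y * c ∈ r * am Fr e f0 ⊔ am Fr e f0 * MF r0 f0 := by
    intro y hy c hc
    obtain ⟨a, ha, b, hb, rfl⟩ := Submodule.mem_sup.1 hy
    rw [add_mul]
    refine Submodule.add_mem_sup ?_ (amM_right hG hL hb hc)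
    refine Submodule.mul_induction_on ha ?_ ?_
    · intro s hs m hm
      rw [mul_assoc]
      exact Submodule.mul_mem_mul hs (am_mul hG hm hc)
    · intro s t hs ht
      rw [add_mul]
      exact Submodule.add_mem _ hs ht
  have hst2 : ∀ y ∈ am Fr e f0, ∀ c ∈ MF r0 f0,
      y * c ∈ r * am Fr e f0 ⊔ am Fr e f0 * MF r0 f0 := by
    intro y hy c hc
    exact Submodule.mem_sup_right (Submodule.mul_mem_mul hy hc)
  obtain ⟨l, h1, h2, h3, h4, h5⟩ := sep hG hL
    (N := r * am Fr e f0 ⊔ am Fr e f0 * MF r0 f0)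
    (sup_le (by simpa using r_pow_am hG hL 1) (amM_le hG hL)) hst1 hst2 hx0 hx0N
  obtain ⟨u, hu, hu1, hu2⟩ := hG.unit (h3 x0 hx0) h5
  refine ⟨x0 * u, l, am_mul hG hx0 hu, h1, h2, h3, ?_, by rw [← mul_assoc, hu1]⟩
  intro x hx y hy
  exact h4 _ (Submodule.mem_sup_left (Submodule.mul_mem_mul hx hy))

include hG hL in
/-- (iii) -/
theorem step3 [FiniteDimensional K A] (hne : ∃ x ∈ am Fr e f0, x ≠ 0) :
    ∃ α m : A, α ∈ am Fr e f0 ∧ f0 * m = m ∧ m * e = m ∧
      (∀ x ∈ r, x * α ∈ am Fr e f0 * MF r0 f0) ∧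
      (∀ y ∈ am Fr e f0, m * y ∈ Fr.OF e0 f0) ∧
      (∀ y ∈ am Fr e f0 * MF r0 f0, m * y ∈ MF r0 f0) ∧ m * α = f0 := by
  classical
  obtain ⟨n, hn, hn2⟩ := r_pow_le_amM hG hL
  have hex : ∃ n : ℕ, r ^ n * am Fr e f0 ≤ am Fr e f0 * MF r0 f0 := ⟨n, hn2⟩
  have hP := Nat.find_spec hex
  have hmin : ∀ k, k < Nat.find hex → ¬ (r ^ k * am Fr e f0 ≤ am Fr e f0 * MF r0 f0) :=
    fun k hk => Nat.find_min hex hk
  generalize Nat.find hex = n at hP hmin
  have hn0 : n ≠ 0 := by
    rintro rfl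
    apply not_le_amM hG hL hne
    simpa using hP
  obtain ⟨j, rfl⟩ := Nat.exists_eq_succ_of_ne_zero hn0
  have hj := hmin j (Nat.lt_succ_self j)
  obtain ⟨x0, hx0, hx0N⟩ := Set.not_subset.1 hj
  have hx0a : x0 ∈ am Fr e f0 := r_pow_am hG hL j hx0
  obtain ⟨l, h1, h2, h3, h4, h5⟩ := sep hG hL (N := am Fr e f0 * MF r0 f0) (amM_le hG hL)
    (fun y hy c hc => amM_right hG hL hy hc) (fun y hy c hc => Submodule.mul_mem_mul hy hc)
    hx0a hx0N
  obtain ⟨u, hu, hu1, hu2⟩ := hG.unit (h3 x0 hx0a) h5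
  refine ⟨x0, u * l, hx0a, ?_, ?_, ?_, ?_, ?_, ?_⟩
  · rw [← mul_assoc, hG.OF_left hu]
  · rw [mul_assoc, h2]
  · intro x hx
    apply hP
    rw [Nat.succ_eq_add_one, pow_succ', mul_assoc]
    exact Submodule.mul_mem_mul hx hx0
  · intro y hy
    rw [mul_assoc]
    exact hG.OF_mul hu (h3 y hy)
  · intro y hy
    rw [mul_assoc]
    exact hG.OF_mul_MF hu (h4 y hy)
  · rw [mul_assoc, hu2]

/-- a nonzero idempotent of the corner is `e` -/
theorem idem_eq {e : A} {r : Submodule W A} (hL : Loc Fr e r) {g : A} (hg : g ∈ Fr.corner e)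
    (hgg : g * g = g) (h0 : g ≠ 0) : g = e := by
  have := hL.idem_quot (z := 1) (by simp) (by simp) hg (by simpa using hgg)
  simpa [h0] using this

include hG hL in
/-- the generator form of `am MF` -/
theorem amM_gen {y x : A} (hgen : Gen Fr f0 (Fr.OF e0 f0) (MF r0 f0) y x) {β : A}
    (hβ : β ∈ am Fr e f0 * MF r0 f0) : β * x ∈ am Fr e f0 := by
  refine Submodule.mul_induction_on hβ ?_ ?_
  · intro a ha m hm
    rw [mul_assoc]
    exact am_mul hG ha (hgen.mul_x m hm)
  · intro a b ha hb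
    rw [add_mul]
    exact Submodule.add_mem _ ha hb

include hG hL in
/-- if `l β ∈ MF` implies `β ∈ am MF` then `l` is injective on `am` -/
theorem inj_of [FiniteDimensional K A] {l : A} (h1 : f0 * l = l)
    (H : ∀ β ∈ am Fr e f0, l * β ∈ MF r0 f0 → β ∈ am Fr e f0 * MF r0 f0) :
    ∀ β ∈ am Fr e f0, l * β = 0 → β = 0 := by
  obtain ⟨y, x, hgen⟩ := hG.gen
  obtain ⟨n, hn, hnil⟩ := hG.MF_nil
  let N : Submodule W A := am Fr e f0 ⊓ LinearMap.ker (LinearMap.mulLeft W l)
  have hN : ∀ β, β ∈ N ↔ β ∈ am Fr e f0 ∧ l * β = 0 := fun β => Iff.rfl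
  have hdiv : ∀ j : ℕ, ∀ β ∈ N, ∃ γ ∈ N, β = γ * y ^ j := by
    intro j
    induction j with
    | zero => intro β hβ; exact ⟨β, hβ, by simp⟩
    | succ j ih =>
      intro β hβ
      obtain ⟨γ, hγ, rfl⟩ := ih β hβ
      obtain ⟨hγ1, hγ2⟩ := (hN γ).1 hγ
      have h3 : γ ∈ am Fr e f0 * MF r0 f0 := H γ hγ1 (by rw [hγ2]; exact Submodule.zero_mem _)
      refine ⟨γ * x, (hN _).2 ⟨amM_gen hG hL hgen h3, by rw [← mul_assoc, hγ2, zero_mul]⟩, ?_⟩
      rw [pow_succ', ← mul_assoc, mul_assoc γ x y, hgen.xy, am_right hG.idem hγ1]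
  have hzero : ∀ β ∈ N, β = 0 := by
    apply Loc.zero_of_div Fr (Frame.fg_of_le inf_le_left (am_fg e f0))
    intro β hβ
    obtain ⟨γ, hγ, rfl⟩ := hdiv n β hβ
    obtain ⟨hγ1, hγ2⟩ := (hN γ).1 hγ
    obtain ⟨c, hc, hyc⟩ := hnil (y ^ n) (Submodule.pow_mem_pow _ hgen.y_mem n)
    refine ⟨γ * c, (hN _).2 ⟨am_mul hG hγ1 hc, by rw [← mul_assoc, hγ2, zero_mul]⟩, ?_⟩
    rw [hyc, mul_smul_comm]
  intro β hβ hl
  exact hzero β ((hN β).2 ⟨hβ, hl⟩)

end main

/-- (EL) -/
theorem main [FiniteDimensional K A] {e e0 f0 z : A} {r r0 : Submodule W A}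
    (hG : Good Fr e0 r0 f0) (hV : Vertex z f0) (hL : Loc Fr e r) (hze : z * e ≠ 0) :
    Good Fr e r (z * e) ∧ Equi f0 (z * e) := by
  classical
  have hF : Fld f0 := by
    intro x h1 h2 h3
    obtain ⟨y, hy1, hy2, hy3, hy4⟩ := hG.cornerField.2 x h1 h2 h3
    exact ⟨y, hy1, hy2, hy4, hy3⟩
  -- `am` is not zero
  have hall : ∀ g : A, (∀ β ∈ am Fr e f0, g * β = 0) → g * e = g → g * z = 0 := by
    intro g hg hge
    have h1 : ∀ x : A, g * x * f0 = 0 := by
      intro x
      obtain ⟨c, hc, hcx⟩ := Fr.full x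
      have h2 := hg (e * ((c • x) * f0)) ⟨c • x, hcx, rfl⟩
      rw [← mul_assoc, hge, smul_mul_assoc, mul_smul_comm, ← mul_assoc] at h2
      exact Fr.smul_inj c hc (by rw [h2, smul_zero])
    have h3 : ∀ w ∈ Submodule.span ℤ {x : A | ∃ a b, x = a * f0 * b}, g * w = 0 := by
      intro w hw
      induction hw using Submodule.span_induction with
      | mem x hx =>
        obtain ⟨a, b, rfl⟩ := hx
        rw [← mul_assoc, ← mul_assoc, h1, zero_mul]
      | zero => rw [mul_zero]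
      | add x y _ _ hx hy => rw [mul_add, hx, hy, add_zero]
      | smul c x _ hx => rw [mul_smul_comm, hx, smul_zero]
    exact h3 z hV.mem
  have hne : ∃ x ∈ am Fr e f0, x ≠ 0 := by
    by_contra hcon
    push Not at hcon
    apply hze
    rw [hV.central]
    refine hall e (fun β hβ => ?_) hL.idem
    rw [hcon β hβ, mul_zero]
  obtain ⟨α, l, hα, hl1, hl2, hl3, hl4, hlα⟩ := step1 hG hL hne
  have hαe : e * α = α := am_left hL.idem hα
  have hαf : α * f0 = α := am_right hG.idem hα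
  set t := α * l with ht
  have htt : t * t = t := by
    rw [ht, show α * l * (α * l) = α * (l * α) * l by noncomm_ring, hlα, hαf]
  have het : e * t = t := by rw [ht, ← mul_assoc, hαe]
  have hte : t * e = t := by rw [ht, mul_assoc, hl2]
  have hτt : Fr.τ t = Fr.τ f0 := by rw [ht, Fr.symm, hlα]
  have hτtr : ∀ x ∈ r, IsInt W (Fr.τ (t * x)) := by
    intro x hx
    rw [ht, show α * l * x = α * (l * x) by noncomm_ring, Fr.symm, mul_assoc]
    exact hG.tau_MF (hl4 x hx α hα)
  have hzα : z * α = α := by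
    calc z * α = z * (α * f0) := by rw [hαf]
      _ = (z * α) * f0 := by rw [mul_assoc]
      _ = (α * z) * f0 := by rw [hV.central α]
      _ = α * (z * f0) := by rw [mul_assoc]
      _ = α := by rw [hV.zf, hαf]
  have hzl : z * l = l := by
    calc z * l = z * (f0 * l) := by rw [hl1]
      _ = (z * f0) * l := by rw [mul_assoc]
      _ = l := by rw [hV.zf, hl1]
  have hzt : z * t = t := by rw [ht, ← mul_assoc, hzα]
  have hτe : IsInt W (Fr.τ e) := Fr.V _ hL.mem
  have he0 : e ≠ 0 := by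
    rintro rfl
    exact hze (mul_zero z)
  have hff : (z * e) * (z * e) = z * e := by
    calc (z * e) * (z * e) = z * (e * z) * e := by noncomm_ring
      _ = z * (z * e) * e := by rw [hV.central e]
      _ = (z * z) * (e * e) := by noncomm_ring
      _ = z * e := by rw [hV.idem, hL.idem]
  have hef : e * (z * e) = z * e := by
    rw [← mul_assoc, ← hV.central e, mul_assoc, hL.idem]
  have hfe : (z * e) * e = z * e := by rw [mul_assoc, hL.idem]
  by_cases hA : z * e ∈ Fr.O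
  · -- Case B
    exfalso
    have hzee : z * e = e := idem_eq hL ⟨hA, hef, hfe⟩ hff hze
    -- units
    have nu1 : ∀ β ν : A, β * f0 = β → f0 * ν = ν → ν * e = ν → β * ν ∈ Fr.corner e →
        β * ν ∈ r := by
      intro β ν h1 h2 h3 h4
      by_contra h5
      obtain ⟨u, hu, hu1, hu2⟩ := hL.unit h4 h5
      refine Fr.not_unit he0 hτe hG.idem hF hG.tau_f (β := u * β) (ν := ν) ?_ h2 h3 ?_
      · rw [mul_assoc, h1]
      · rw [mul_assoc, hu2]
    have nu2 : ∀ β₁ ν₁ β₂ ν₂ : A, β₁ * f0 = β₁ → β₂ * f0 = β₂ → f0 * ν₁ = ν₁ → ν₁ * e = ν₁ →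
        f0 * ν₂ = ν₂ → ν₂ * e = ν₂ → β₁ * ν₁ + β₂ * ν₂ ∈ Fr.corner e → β₁ * ν₁ + β₂ * ν₂ ∈ r := by
      intro β₁ ν₁ β₂ ν₂ h1 h2 h3 h4 h5 h6 h7
      by_contra h8
      obtain ⟨u, hu, hu1, hu2⟩ := hL.unit h7 h8
      refine Fr.not_unit₂ he0 hτe hG.idem hF hG.tau_f (β₁ := u * β₁) (β₂ := u * β₂) ?_ ?_
        h3 h4 h5 h6 ?_
      · rw [mul_assoc, h1]
      · rw [mul_assoc, h2]
      · rw [mul_assoc, mul_assoc, ← mul_add, hu2]
    obtain ⟨α3, m, hα3, hm1, hm2, hm3, hm4, hm5, hmα⟩ := step3 hG hL hne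
    have hα3e : e * α3 = α3 := am_left hL.idem hα3
    have hα3f : α3 * f0 = α3 := am_right hG.idem hα3
    have hftau : IsInt W (Fr.τ (Fr.π • t)) := by
      rw [Fr.tau_smul, hτt]; exact hG.tau_pf
    -- `π t ∈ r`
    have hpt : Fr.π • t ∈ r := by
      have h1 : Fr.π • t ∈ Fr.O := by
        refine hL.mem_O (by rw [mul_smul_comm, het]) (by rw [smul_mul_assoc, hte]) hftau ?_
        intro y hy
        rw [smul_mul_assoc, Fr.tau_smul]
        exact (hτtr y hy).smul _
      have h2 := nu1 (Fr.π • α) l (by rw [smul_mul_assoc, hαf]) hl1 hl2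
        (by rw [smul_mul_assoc]; exact ⟨h1, by rw [mul_smul_comm, het], by rw [smul_mul_assoc, hte]⟩)
      rwa [smul_mul_assoc] at h2
    -- (vi)
    have h6 : ∀ β ∈ am Fr e f0, l * β ∈ MF r0 f0 → β * l ∈ r := by
      intro β hβ hlβ
      have hβe : e * β = β := am_left hL.idem hβ
      have hβf : β * f0 = β := am_right hG.idem hβ
      have hb1 : e * (β * l) = β * l := by rw [← mul_assoc, hβe]
      have hb2 : (β * l) * e = β * l := by rw [mul_assoc, hl2]
      have hb3 : ∀ x ∈ r, IsInt W (Fr.τ (β * l * x)) := by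
        intro x hx
        rw [mul_assoc, Fr.symm, mul_assoc]
        exact hG.tau_MF (hl4 x hx β hβ)
      have hπτ : IsInt W (Fr.π • Fr.τ (β * l)) := by
        have := hb3 _ hL.pe
        rwa [mul_smul_comm, hb2, Fr.tau_smul] at this
      obtain ⟨w, hw⟩ := Fr.ratio (x := Fr.τ t) (by rw [hτt]; exact hG.tau_f)
        (by rw [hτt]; exact hG.tau_pf) hπτ
      have hO : β * l - w • t ∈ Fr.O := by
        refine hL.mem_O (by rw [mul_sub, hb1, mul_smul_comm, het])
          (by rw [sub_mul, hb2, smul_mul_assoc, hte]) ?_ ?_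
        · rw [map_sub, Fr.tau_smul, hw, sub_self]; exact IsInt.zero
        · intro y hy
          rw [sub_mul, smul_mul_assoc, map_sub, Fr.tau_smul]
          exact (hb3 y hy).sub ((hτtr y hy).smul _)
      have hfac : β * l - w • t = (β - w • α) * l := by
        rw [sub_mul, smul_mul_assoc]
      have hr : β * l - w • t ∈ r := by
        rw [hfac]
        apply nu1 _ _ _ hl1 hl2
        · rw [← hfac]
          exact ⟨hO, by rw [mul_sub, hb1, mul_smul_comm, het],
            by rw [sub_mul, hb2, smul_mul_assoc, hte]⟩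
        · rw [sub_mul, smul_mul_assoc, hβf, hαf]
      have h7 : l * ((β * l - w • t) * α) ∈ MF r0 f0 := hl4 _ hr α hα
      have h8 : l * ((β * l - w • t) * α) = l * β - w • f0 := by
        rw [hfac]
        calc l * ((β - w • α) * l * α) = l * (β - w • α) * (l * α) := by noncomm_ring
          _ = (l * β) * f0 - w • (l * α) * f0 := by
              rw [hlα, mul_sub, mul_smul_comm, sub_mul, hlα]
          _ = l * β - w • f0 := by
              rw [mul_assoc, hβf, hlα, smul_mul_assoc, hG.idem]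
      rw [h8] at h7
      have h9 : w • f0 ∈ MF r0 f0 := by
        have : w • f0 = l * β - (l * β - w • f0) := by abel
        rw [this]
        exact (MF r0 f0).sub_mem hlβ h7
      have h10 : ¬ IsUnit w := by
        rintro ⟨w, rfl⟩
        apply hG.f_not_mem
        have h9' := (MF r0 f0).smul_mem (↑w⁻¹ : W) h9
        rwa [smul_smul, Units.inv_mul, one_smul] at h9'
      have h11 : Fr.π ∣ w := by
        by_contra h
        exact h10 (Fr.unit_of_not_dvd h)
      obtain ⟨v, rfl⟩ := h11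
      have h12 : β * l = (β * l - (Fr.π * v) • t) + v • (Fr.π • t) := by
        rw [smul_smul, mul_comm v]; abel
      rw [h12]
      exact r.add_mem hr (r.smul_mem _ hpt)
    -- (vii)
    have h7 : l * α3 ∈ MF r0 f0 := by
      by_contra hnot
      obtain ⟨u, hu, hu1, hu2⟩ := hG.unit (hl3 α3 hα3) hnot
      have hin : ∀ β ∈ am Fr e f0, l * β ∈ MF r0 f0 → β ∈ am Fr e f0 * MF r0 f0 := by
        intro β hβ hlβ
        have h8 : (β * l) * α3 ∈ am Fr e f0 * MF r0 f0 := hm3 _ (h6 β hβ hlβ)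
        have h9 : β = ((β * l) * α3) * u := by
          rw [mul_assoc, mul_assoc, ← mul_assoc l, hu1, am_right hG.idem hβ]
        rw [h9]
        exact amM_right hG hL h8 hu
      have hinj := inj_of hG hL hl1 hin
      have h10 : (e - t) * z = 0 := by
        apply hall
        · intro β hβ
          have h11 : β - α * (l * β) = 0 := by
            apply hinj
            · exact Submodule.sub_mem _ hβ (am_mul hG hα (hl3 β hβ))
            · rw [mul_sub, ← mul_assoc l α, hlα, ← mul_assoc f0 l, hl1, sub_self]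
          rw [sub_mul, am_left hL.idem hβ, ht, mul_assoc]
          exact h11
        · rw [sub_mul, hL.idem, hte]
      have h12 : e = t := by
        rw [← hV.central, mul_sub, hzee, hzt, sub_eq_zero] at h10
        exact h10
      exact Fr.not_unit he0 hτe hG.idem hF hG.tau_f hαf hl1 hl2 h12.symm
    -- (viii)
    have hms : Fr.τ (α3 * m) = Fr.τ f0 := by rw [Fr.symm, hmα]
    have hs1 : e * (α3 * m) = α3 * m := by rw [← mul_assoc, hα3e]
    have hs2 : (α3 * m) * e = α3 * m := by rw [mul_assoc, hm2]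
    have hO : t - α3 * m ∈ Fr.O := by
      refine hL.mem_O (by rw [mul_sub, het, hs1]) (by rw [sub_mul, hte, hs2]) ?_ ?_
      · rw [map_sub, hτt, hms, sub_self]; exact IsInt.zero
      · intro y hy
        rw [sub_mul, map_sub]
        refine (hτtr y hy).sub ?_
        rw [mul_assoc, Fr.symm, mul_assoc]
        exact hG.tau_MF (hm5 _ (hm3 y hy))
    have hr0 : t - α3 * m ∈ r := by
      have h8 : t - α3 * m = α * l + (-α3) * m := by rw [ht, neg_mul, sub_eq_add_neg]
      rw [h8]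
      apply nu2 _ _ _ _ hαf (by rw [neg_mul, hα3f]) hl1 hl2 hm1 hm2
      rw [← h8]
      exact ⟨hO, by rw [mul_sub, het, hs1], by rw [sub_mul, hte, hs2]⟩
    have h13 : l * ((t - α3 * m) * α) ∈ MF r0 f0 := hl4 _ hr0 α hα
    have h14 : l * ((t - α3 * m) * α) = f0 - (l * α3) * (m * α) := by
      calc l * ((t - α3 * m) * α) = (l * α) * (l * α) - (l * α3) * (m * α) := by
            rw [ht]; noncomm_ring
        _ = f0 - (l * α3) * (m * α) := by rw [hlα, hG.idem]
    apply hG.f_not_mem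
    have h15 : l * ((t - α3 * m) * α) + (l * α3) * (m * α) = f0 := by rw [h14]; abel
    have h16 := (MF r0 f0).add_mem h13 (hG.MF_mul_OF h7 (hm4 α hα))
    rwa [h15] at h16
  · -- Case A
    have c1 : ∀ x ∈ Fr.O, (z * e) * x = x → x * (z * e) = x → x ∈ r := by
      intro x hx h1 h2
      have h3 : e * x = x := by rw [← h1, ← mul_assoc, hef]
      have h4 : x * e = x := by rw [← h2, mul_assoc, hfe]
      by_contra h5
      obtain ⟨u, hu, hu1, hu2⟩ := hL.unit ⟨hx, h3, h4⟩ h5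
      apply hA
      have h6 : z * e = e := by
        calc z * e = (z * e) * e := hfe.symm
          _ = (z * e) * (x * u) := by rw [hu1]
          _ = ((z * e) * x) * u := by rw [mul_assoc (z * e)]
          _ = e := by rw [h1, hu1]
      rw [h6]
      exact hL.mem
    have c2 : ∃ c ∈ Fr.corner e, z * c = t := by
      let L : Submodule W A := (Fr.corner e).map (LinearMap.mulLeft W z)
      by_contra hcon
      have htL : t ∉ L := fun h => hcon h
      obtain ⟨ξ, h1, h2⟩ := Fr.dd L ((Fr.corner_fg e).map _) t htL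
      set x := (z * e) * ξ * (z * e) with hx
      have hx1 : (z * e) * x = x := by
        rw [hx, show (z * e) * ((z * e) * ξ * (z * e)) = ((z * e) * (z * e)) * ξ * (z * e) by
          noncomm_ring, hff]
      have hx2 : x * (z * e) = x := by rw [hx, mul_assoc, hff]
      have h3 : e * x = x := by rw [← hx1, ← mul_assoc, hef]
      have h4 : x * e = x := by rw [← hx2, mul_assoc, hfe]
      have h5 : ∀ c : A, e * c = c → c * e = c → Fr.τ (x * c) = Fr.τ (ξ * (z * c)) := by
        intro c hc1 hc2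
        have h6 : (z * e) * c * (z * e) = z * c := by
          calc (z * e) * c * (z * e) = z * (e * c) * z * e := by noncomm_ring
            _ = z * (c * z) * e := by rw [hc1]; noncomm_ring
            _ = z * (z * c) * e := by rw [hV.central c]
            _ = (z * z) * (c * e) := by noncomm_ring
            _ = z * c := by rw [hV.idem, hc2]
        rw [hx, show (z * e) * ξ * (z * e) * c = (z * e) * (ξ * ((z * e) * c)) by noncomm_ring,
          Fr.symm, show ξ * ((z * e) * c) * (z * e) = ξ * ((z * e) * c * (z * e)) by noncomm_ring,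
          h6]
      have h6 : x ∈ Fr.O := by
        refine hL.mem_O h3 h4 ?_ ?_
        · have := h5 e hL.idem hL.idem
          rw [h4] at this
          rw [this]
          exact h1 _ ⟨e, hL.e_mem, rfl⟩
        · intro y hy
          rw [h5 y (hL.r_left y hy) (hL.r_right y hy)]
          exact h1 _ ⟨y, hL.r_le hy, rfl⟩
      have h7 : x ∈ r := c1 x h6 hx1 hx2
      apply h2
      have h8 := hτtr x h7
      rw [Fr.symm, h5 t het hte, hzt] at h8
      exact h8
    obtain ⟨c, hc, hzc⟩ := c2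
    have c3 : t = z * e := by
      rcases hL.idem_quot hV.idem hV.central hc (by rw [hzc, htt]) with h | h
      · exfalso
        rw [hzc] at h
        apply hG.tau_f
        rw [← hτt, h, map_zero]
        exact IsInt.zero
      · rw [← hzc, h]
    refine ⟨⟨hL, hff, hef, hfe, ?_, hA, ?_⟩, ⟨α, l, ?_, hαf, hl1, ?_, hlα, ?_⟩⟩
    · intro x h1 h2
      calc (z * e) * x = z * (e * x) := by rw [mul_assoc]
        _ = z * x := by rw [h1]
        _ = x * z := hV.central x
        _ = (x * e) * z := by rw [h2]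
        _ = x * (e * z) := by rw [mul_assoc]
        _ = x * (z * e) := by rw [hV.central e]
    · intro x hx
      rw [← c3, ht, mul_assoc]
      have h1 : l * x ∈ Fr.O := by
        refine mem_O (e := e) (f := f0) (by rw [← mul_assoc, hl1])
          (by rw [mul_assoc, hL.r_right x hx]) ?_
        intro y hy
        rw [mul_assoc]
        exact hG.tau_MF (hl4 x hx y hy)
      obtain ⟨s, hs, hsα⟩ := mem_am.1 hα
      have h2 : α * (l * x) = e * (s * (l * x)) := by
        rw [← hsα]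
        calc e * (s * f0) * (l * x) = e * (s * ((f0 * l) * x)) := by noncomm_ring
          _ = e * (s * (l * x)) := by rw [hl1]
      rw [h2]
      exact Fr.O.mul_mem hL.mem (Fr.O.mul_mem hs h1)
    · rw [mul_assoc, hαe, hzα]
    · calc l * (z * e) = (l * z) * e := by rw [mul_assoc]
        _ = (z * l) * e := by rw [hV.central l]
        _ = l := by rw [hzl, hl2]
    · rw [← c3]



end EL

end PD
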