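import Pool.Agent.Lib.MP_369ee2_lc_PD.BrF
import Pool.Agent.Lib.MP_369ee2_lc_PD.OrdEL

/-!
# (EL) in the interface of the skeleton
-/

namespace PDeg

section
variable {p : ℕ} {W K : Type} (F : Type) [CommRing W] [IsDomain W] [Field K] [Algebra W K]
  [IsFractionRing W K] [Field F] [Algebra W F] [hB : Base p W K F]
  {A : Type} [Ring A] [Algebra K A] [Algebra W A] [IsScalarTower W K A] [FiniteDimensional K A]
  {O : Subalgebra W A} {τ : A →ₗ[K] K} (H : SymOrder p O τ)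

include F hB H

theorem EL_main (hp : p ≠ 2) {E E' : LocIdem p O} {f0 z : A} (hG : Good E f0) (hV : Vtx z f0)
    (hne : z * E'.e ≠ 0) : Good E' (z * E'.e) ∧ Eqv f0 (z * E'.e) := by
  have := hB.dvr
  have h1 := (good_iff hB hp H).1 hG
  obtain ⟨h2, h3⟩ := PD.EL.main h1 (vtx_iff.1 hV) (E'.toLoc hB hp H) hne
  exact ⟨(good_iff hB hp H).2 h2, eqv_iff.2 h3⟩

end

end PDeg
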