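import Pool.Agent.Lib.MP_369ee2_lc_PD.GoodD
import Pool.Agent.Lib.MP_369ee2_lc_PD.DD
import Pool.Agent.Lib.MP_369ee2_lc_PD.VtxL

/-!
# EL: the pairs `(α, λ)` and `(α₃, μ)` (row A6a)
-/

set_option linter.unusedSectionVars false

namespace PDeg

open scoped BigOperators

section
variable {p : ℕ} {W K : Type} (F : Type) [CommRing W] [IsDomain W] [Field K] [Algebra W K]
  [IsFractionRing W K] [Field F] [Algebra W F] [Base p W K F]
  {A : Type} [Ring A] [Algebra K A] [Algebra W A] [IsScalarTower W K A] [FiniteDimensional K A]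
  {O : Subalgebra W A} {τ : A →ₗ[K] K} (H : SymOrder p O τ)

/-- `α ∈ e' O f₀`, `lam ∈ f₀ A e'`, `lam (e' O f₀) ⊆ O_{f₀}`, `lam α = f₀` -/
structure ELPair {O : Subalgebra W A} (E' : LocIdem p O) (f0 : A) (α lam : A) : Prop where
  α_mem : ∃ x ∈ O, α = E'.e * x * f0
  lam_left : f0 * lam = lam
  lam_right : lam * E'.e = lam
  lam_a : ∀ x ∈ O, lam * (E'.e * x * f0) ∈ fOf W O f0
  one : lam * α = f0

/-! ### auxiliary lemmas -/

private theorem good_comm {E : LocIdem p O} {f0 : A} (hG : Good E f0) (o : A) :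
    f0 * o * f0 = E.e * o * E.e * f0 := by
  have h := hG.central o
  calc f0 * o * f0 = (f0 * E.e) * o * (E.e * f0) := by rw [hG.right, hG.left]
    _ = f0 * (E.e * o * E.e) * f0 := by noncomm_ring
    _ = (E.e * o * E.e) * f0 * f0 := by rw [h]
    _ = E.e * o * E.e * f0 := by rw [mul_assoc, hG.idem]

private theorem fOf_mul {E : LocIdem p O} {f0 : A} (hG : Good E f0) {a b : A}
    (ha : a ∈ fOf W O f0) (hb : b ∈ fOf W O f0) : a * b ∈ fOf W O f0 := by
  obtain ⟨o, ho, rfl⟩ := mem_fOf.1 ha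
  obtain ⟨o', ho', rfl⟩ := mem_fOf.1 hb
  refine mem_fOf.2 ⟨o * (E.e * o' * E.e), O.mul_mem ho (O.mul_mem (O.mul_mem E.mem ho') E.mem), ?_⟩
  have h := good_comm hG o'
  calc f0 * (o * (E.e * o' * E.e) * f0) = f0 * (o * (E.e * o' * E.e * f0)) := by noncomm_ring
    _ = f0 * (o * (f0 * o' * f0)) := by rw [h]
    _ = f0 * (o * ((f0 * f0) * o' * f0)) := by rw [hG.idem]
    _ = f0 * (o * f0) * (f0 * (o' * f0)) := by noncomm_ring

private theorem fOf_left {f0 : A} (hf : f0 * f0 = f0) {a : A} (ha : a ∈ fOf W O f0) :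
    f0 * a = a := by
  obtain ⟨o, ho, rfl⟩ := mem_fOf.1 ha
  rw [← mul_assoc, hf]

private theorem fOf_right {f0 : A} (hf : f0 * f0 = f0) {a : A} (ha : a ∈ fOf W O f0) :
    a * f0 = a := by
  obtain ⟨o, ho, rfl⟩ := mem_fOf.1 ha
  rw [mul_assoc, mul_assoc, hf]

private theorem rad_comm {E : LocIdem p O} {f0 : A} (hG : Good E f0) {r : A} (hr : r ∈ E.rad) :
    f0 * r = r * f0 := by
  have h1 := E.rad_left r hr
  have h2 := E.rad_right r hr
  have h := hG.central r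
  rwa [h1, h2] at h

private theorem fRad_le {E : LocIdem p O} {f0 : A} (hG : Good E f0) {a : A}
    (ha : a ∈ fRad E f0) : a ∈ fOf W O f0 := by
  obtain ⟨r, hr, rfl⟩ := mem_fRad.1 ha
  refine mem_fOf.2 ⟨r, E.rad_mem r hr, ?_⟩
  rw [← rad_comm hG hr, ← mul_assoc, hG.idem]

private theorem fRad_mem {E : LocIdem p O} {f0 : A} (hG : Good E f0) {a : A}
    (ha : a ∈ fRad E f0) : a ∈ O := by
  obtain ⟨r, hr, rfl⟩ := mem_fRad.1 ha
  exact hG.rad r hr

private theorem p_fRad {E : LocIdem p O} {f0 : A} (hG : Good E f0) :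
    (p : A) * f0 ∈ fRad E f0 := by
  refine mem_fRad.2 ⟨(p : A) * E.e, E.p_mem, ?_⟩
  rw [← mul_assoc, ← (Nat.cast_commute p f0).eq, mul_assoc, hG.right]

/-- the lattice `e' O f₀` -/
private def aL (E' : LocIdem p O) (f0 : A) : Submodule W A :=
  (Subalgebra.toSubmodule O).map
    ((LinearMap.mulLeft W E'.e).comp (LinearMap.mulRight W f0))

private theorem mem_aL {E' : LocIdem p O} {f0 α : A} :
    α ∈ aL E' f0 ↔ ∃ o ∈ O, α = E'.e * o * f0 := by
  constructor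
  · rintro ⟨o, ho, rfl⟩
    exact ⟨o, ho, (mul_assoc _ _ _).symm⟩
  · rintro ⟨o, ho, rfl⟩
    exact ⟨o, ho, (mul_assoc _ _ _).symm⟩

private theorem aL_left {E' : LocIdem p O} {f0 α : A} (h : α ∈ aL E' f0) : E'.e * α = α := by
  obtain ⟨o, ho, rfl⟩ := mem_aL.1 h
  rw [← mul_assoc, ← mul_assoc, E'.idem]

private theorem aL_right {E' : LocIdem p O} {f0 α : A} (hf : f0 * f0 = f0)
    (h : α ∈ aL E' f0) : α * f0 = α := by
  obtain ⟨o, ho, rfl⟩ := mem_aL.1 h
  rw [mul_assoc, hf]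

private theorem aL_mul {E E' : LocIdem p O} {f0 α o : A} (hG : Good E f0)
    (h : α ∈ aL E' f0) (ho : o ∈ fOf W O f0) : α * o ∈ aL E' f0 := by
  obtain ⟨a, ha, rfl⟩ := mem_aL.1 h
  obtain ⟨b, hb, rfl⟩ := mem_fOf.1 ho
  refine mem_aL.2 ⟨a * (E.e * b * E.e), O.mul_mem ha (O.mul_mem (O.mul_mem E.mem hb) E.mem), ?_⟩
  have h := good_comm hG b
  calc E'.e * a * f0 * (f0 * (b * f0)) = E'.e * a * ((f0 * f0) * b * f0) := by noncomm_ring
    _ = E'.e * a * (f0 * b * f0) := by rw [hG.idem]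
    _ = E'.e * a * (E.e * b * E.e * f0) := by rw [h]
    _ = E'.e * (a * (E.e * b * E.e)) * f0 := by noncomm_ring

private theorem rad_mul_aL {E' : LocIdem p O} {f0 n α : A} (hn : n ∈ E'.rad)
    (h : α ∈ aL E' f0) : n * α ∈ aL E' f0 := by
  obtain ⟨a, ha, rfl⟩ := mem_aL.1 h
  refine mem_aL.2 ⟨n * (E'.e * a), O.mul_mem (E'.rad_mem n hn) (O.mul_mem E'.mem ha), ?_⟩
  calc n * (E'.e * a * f0) = (E'.e * n) * (E'.e * a * f0) := by rw [E'.rad_left n hn]
    _ = E'.e * (n * (E'.e * a)) * f0 := by noncomm_ring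

/-- the lattice of the `ν` in `f₀ A e'` with `ν (e' O f₀) ⊆ O_{f₀}` -/
private def aS (E' : LocIdem p O) (f0 : A) : Submodule W A where
  carrier := {ν | f0 * ν = ν ∧ ν * E'.e = ν ∧ ∀ x ∈ O, ν * (E'.e * x * f0) ∈ fOf W O f0}
  add_mem' := by
    rintro a b ⟨h1, h2, h3⟩ ⟨h1', h2', h3'⟩
    refine ⟨by rw [mul_add, h1, h1'], by rw [add_mul, h2, h2'], fun x hx => ?_⟩
    rw [add_mul]
    exact Submodule.add_mem _ (h3 x hx) (h3' x hx)
  zero_mem' := ⟨mul_zero _, zero_mul _, fun x _ => by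
    rw [zero_mul]
    exact Submodule.zero_mem _⟩
  smul_mem' := by
    rintro c a ⟨h1, h2, h3⟩
    refine ⟨by rw [mul_smul_comm, h1], by rw [smul_mul_assoc, h2], fun x hx => ?_⟩
    rw [smul_mul_assoc]
    exact Submodule.smul_mem _ _ (h3 x hx)

private theorem aS_aL {E' : LocIdem p O} {f0 ν α : A} (h : ν ∈ aS E' f0)
    (hα : α ∈ aL E' f0) : ν * α ∈ fOf W O f0 := by
  obtain ⟨o, ho, rfl⟩ := mem_aL.1 hα
  exact h.2.2 o ho

private theorem mul_aS {E E' : LocIdem p O} {f0 ν o : A} (hG : Good E f0)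
    (ho : o ∈ fOf W O f0) (h : ν ∈ aS E' f0) : o * ν ∈ aS E' f0 := by
  refine ⟨?_, ?_, fun x hx => ?_⟩
  · rw [← mul_assoc, fOf_left hG.idem ho]
  · rw [mul_assoc, h.2.1]
  · rw [mul_assoc]
    exact fOf_mul hG ho (h.2.2 x hx)

private theorem aS_rad {E' : LocIdem p O} {f0 ν n : A} (h : ν ∈ aS E' f0)
    (hn : n ∈ E'.rad) : ν * n ∈ aS E' f0 := by
  refine ⟨?_, ?_, fun x hx => ?_⟩
  · rw [← mul_assoc, h.1]
  · rw [mul_assoc, E'.rad_right n hn]
  · rw [mul_assoc]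
    exact aS_aL h (rad_mul_aL hn (mem_aL.2 ⟨x, hx, rfl⟩))

section
omit [FiniteDimensional K A]

private theorem p_cancel {p : ℕ} {W K : Type} (F : Type) [CommRing W] [IsDomain W] [Field K]
    [Algebra W K] [IsFractionRing W K] [Field F] [Algebra W F] [Base p W K F]
    {A : Type} [Ring A] [Algebra K A] (N : ℕ) (w : A) (h : (p : A) ^ N * w = 0) : w = 0 := by
  have : CharZero K := Base.charZero (p := p) (W := W) (K := K) (F := F)
  have hp0 : p ≠ 0 := (Base.prime (p := p) (W := W) (K := K) (F := F)).ne_zero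
  have hp : (p : K) ^ N ≠ 0 := pow_ne_zero _ (Nat.cast_ne_zero.2 hp0)
  have h1 : ((p : K) ^ N) • w = 0 := by
    rw [Algebra.smul_def, map_pow, map_natCast, h]
  exact (smul_eq_zero.1 h1).resolve_left hp

private theorem noeth {p : ℕ} {W K : Type} (F : Type) [CommRing W] [IsDomain W] [Field K]
    [Algebra W K] [IsFractionRing W K] [Field F] [Algebra W F] [Base p W K F] :
    IsNoetherianRing W := by
  have : IsDiscreteValuationRing W := Base.dvr (p := p) (W := W) (K := K) (F := F)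
  infer_instance

private theorem fg_of_le {p : ℕ} {W K : Type} (F : Type) [CommRing W] [IsDomain W] [Field K]
    [Algebra W K] [IsFractionRing W K] [Field F] [Algebra W F] [Base p W K F]
    {A : Type} [Ring A] [Algebra W A] {N N' : Submodule W A} (hN : N.FG) (h : N' ≤ N) :
    N'.FG := by
  have : IsNoetherianRing W := noeth (p := p) (W := W) (K := K) F
  exact isNoetherian_submodule.1 (isNoetherian_of_fg_of_noetherian N hN) N' h

private theorem eq_bot_of_p {p : ℕ} {W K : Type} (F : Type) [CommRing W] [IsDomain W] [Field K]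
    [Algebra W K] [IsFractionRing W K] [Field F] [Algebra W F] [Base p W K F]
    {A : Type} [Ring A] [Algebra W A] (N : Submodule W A) (hN : N.FG)
    (h : ∀ x ∈ N, ∃ y ∈ N, x = (p : A) * y) : N = ⊥ := by
  have : IsDiscreteValuationRing W := Base.dvr (p := p) (W := W) (K := K) (F := F)
  refine Submodule.eq_bot_of_le_smul_of_le_jacobson_bot (Ideal.span {(p : W)}) N hN ?_ ?_
  · intro x hx
    obtain ⟨y, hy, rfl⟩ := h x hx
    have h1 : (p : A) * y = (p : W) • y := by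
      rw [Algebra.smul_def, map_natCast]
    rw [h1]
    exact Submodule.smul_mem_smul (Ideal.mem_span_singleton_self _) hy
  · rw [IsLocalRing.jacobson_eq_maximalIdeal ⊥ bot_ne_top, Ideal.span_singleton_le_iff_mem,
      IsLocalRing.mem_maximalIdeal, mem_nonunits_iff]
    intro hu
    have h1 := hu.map (algebraMap W F)
    rw [(Base.ker (p := p) (W := W) (K := K) (F := F) (p : W)).2 dvd_rfl] at h1
    exact not_isUnit_zero h1

end

include F H

/-- `f₀ A e' ∩ O` is the set of the `x` with `x (e' O f₀) ⊆ m` -/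
theorem mem_of_left {E E' : LocIdem p O} {f0 : A} (hG : Good E f0) {x : A} (h1 : f0 * x = x)
    (h2 : x * E'.e = x) (h : ∀ o ∈ O, x * (E'.e * o * f0) ∈ fRad E f0) : x ∈ O := by
  refine H.dual x fun z hz => ?_
  have h3 : τ (x * z) = τ (x * (E'.e * z * f0)) := by
    calc τ (x * z) = τ ((f0 * x) * z) := by rw [h1]
      _ = τ (f0 * (x * z)) := by rw [mul_assoc]
      _ = τ ((x * z) * f0) := H.comm _ _
      _ = τ (((x * E'.e) * z) * f0) := by rw [h2]
      _ = τ (x * (E'.e * z * f0)) := by congr 1; noncomm_ring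
  rw [h3]
  exact H.int _ (fRad_mem hG (h z hz))

private theorem mem_fRad_of_int {E : LocIdem p O} {f0 : A} (hG : Good E f0) {t : A}
    (h1 : f0 * t = t) (h2 : t * f0 = t) (h : ∀ o ∈ fOf W O f0, IsInt W (τ (t * o))) :
    t ∈ fRad E f0 := by
  refine hG.inter F H (H.dual t fun z hz => ?_) h1 h2
  have h3 : τ (t * z) = τ (t * (f0 * (z * f0))) := by
    calc τ (t * z) = τ ((f0 * t) * z) := by rw [h1]
      _ = τ (f0 * (t * z)) := by rw [mul_assoc]
      _ = τ ((t * z) * f0) := H.comm _ _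
      _ = τ (((t * f0) * z) * f0) := by rw [h2]
      _ = τ (t * (f0 * (z * f0))) := by congr 1; noncomm_ring
  rw [h3]
  exact h _ (mem_fOf.2 ⟨z, hz, rfl⟩)

private theorem left_ne {E E' : LocIdem p O} {f0 z : A} (hG : Good E f0) (hV : Vtx z f0)
    (hne : z * E'.e ≠ 0) :
    ¬ aL E' f0 ≤ E'.rad * aL E' f0 ⊔ aL E' f0 * fRad E f0 := by
  intro h0
  obtain ⟨y, x, k, D⟩ := hG.dvr F H
  have h1 : E'.rad * aL E' f0 ≤ aL E' f0 :=
    Submodule.mul_le.2 fun n hn α hα => rad_mul_aL hn hα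
  have h2 : ∀ j : ℕ, E'.rad ^ j * aL E' f0 ≤ aL E' f0 := by
    intro j
    induction j with
    | zero => rw [pow_zero, one_mul]
    | succ j ih =>
      rw [pow_succ, mul_assoc]
      exact (mul_le_mul' le_rfl h1).trans ih
  have h3 : ∀ j : ℕ, aL E' f0 ≤ E'.rad ^ j * aL E' f0 ⊔ aL E' f0 * fRad E f0 := by
    intro j
    induction j with
    | zero =>
      rw [pow_zero, one_mul]
      exact le_sup_left
    | succ j ih =>
      refine ih.trans (sup_le ?_ le_sup_right)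
      refine (mul_le_mul' le_rfl h0).trans ?_
      rw [Submodule.mul_sup, ← mul_assoc, ← mul_assoc, ← pow_succ]
      exact sup_le_sup le_rfl (mul_le_mul' (h2 j) le_rfl)
  obtain ⟨n, hn⟩ := E'.nilp
  have h4 : E'.rad ^ n * aL E' f0 ≤ aL E' f0 * fRad E f0 := by
    refine Submodule.mul_le.2 fun u hu α hα => ?_
    have h5 : u * α ∈ aL E' f0 := h2 n (Submodule.mul_mem_mul hu hα)
    obtain ⟨w, hw, rfl⟩ := hn u hu
    obtain ⟨o, ho, rfl⟩ := mem_aL.1 hα
    have h6 : (p : A) * w * (E'.e * o * f0) =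
        (E'.e * (w * (E'.e * o)) * f0) * ((p : A) * f0) := by
      have hc := (Nat.cast_commute p E'.e).eq
      have hc' := (Nat.cast_commute p (E'.e * (w * (E'.e * o)) * f0)).eq
      calc (p : A) * w * (E'.e * o * f0) = E'.e * ((p : A) * w * (E'.e * o * f0)) :=
            (aL_left h5).symm
        _ = (E'.e * (p : A)) * (w * (E'.e * o)) * f0 := by noncomm_ring
        _ = (p : A) * (E'.e * (w * (E'.e * o)) * f0) := by rw [← hc]; noncomm_ring
        _ = (E'.e * (w * (E'.e * o)) * f0) * (p : A) := hc'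
        _ = (E'.e * (w * (E'.e * o)) * (f0 * f0)) * (p : A) := by rw [hG.idem]
        _ = (E'.e * (w * (E'.e * o)) * f0) * (f0 * (p : A)) := by noncomm_ring
        _ = (E'.e * (w * (E'.e * o)) * f0) * ((p : A) * f0) := by
            rw [(Nat.cast_commute p f0).eq]
    rw [h6]
    exact Submodule.mul_mem_mul (mem_aL.2 ⟨_, O.mul_mem hw (O.mul_mem E'.mem ho), rfl⟩)
      (p_fRad hG)
  have h5 : aL E' f0 ≤ aL E' f0 * fRad E f0 := (h3 n).trans (sup_le h4 le_rfl)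
  have h6 : ∀ α ∈ aL E' f0, ∃ β ∈ aL E' f0, α = β * y := by
    intro α hα
    refine Submodule.mul_induction_on (C := fun α => ∃ β ∈ aL E' f0, α = β * y) (h5 hα) ?_ ?_
    · intro β hβ μ hμ
      refine ⟨β * (μ * x), aL_mul hG hβ (D.M_right μ hμ), ?_⟩
      rw [mul_assoc, mul_assoc, D.xy, fOf_right hG.idem (fRad_le hG hμ)]
    · rintro _ _ ⟨β, hβ, rfl⟩ ⟨γ, hγ, rfl⟩
      exact ⟨β + γ, Submodule.add_mem _ hβ hγ, (add_mul _ _ _).symm⟩
  have h7 : ∀ (j : ℕ), ∀ α ∈ aL E' f0, ∃ β ∈ aL E' f0, α = β * y ^ j := by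
    intro j
    induction j with
    | zero =>
      intro α hα
      exact ⟨α, hα, by rw [pow_zero, mul_one]⟩
    | succ j ih =>
      intro α hα
      obtain ⟨β, hβ, rfl⟩ := ih α hα
      obtain ⟨γ, hγ, rfl⟩ := h6 β hβ
      exact ⟨γ, hγ, by rw [pow_succ', mul_assoc]⟩
  have h8 : aL E' f0 = ⊥ := by
    refine eq_bot_of_p (p := p) (K := K) F _ (H.fg.map _) fun α hα => ?_
    obtain ⟨β, hβ, hαβ⟩ := h7 k α hα
    obtain ⟨u, hu, v, hv, huv, hvu, hp⟩ := D.p_eq
    refine ⟨β * v, aL_mul hG hβ hv, ?_⟩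
    have hc := (Nat.cast_commute p β).eq
    calc α = α * f0 := (aL_right hG.idem hα).symm
      _ = β * (y ^ k * u) * v := by rw [hαβ, ← huv]; noncomm_ring
      _ = β * ((p : A) * f0) * v := by rw [hp]
      _ = (β * (p : A)) * (f0 * v) := by noncomm_ring
      _ = (p : A) * (β * v) := by rw [fOf_left hG.idem hv, ← hc, mul_assoc]
  have h9 : ∀ w : A, E'.e * w * f0 = 0 := by
    intro w
    obtain ⟨N, hN⟩ := H.span w
    refine p_cancel (p := p) (W := W) (K := K) F N _ ?_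
    have h10 : E'.e * ((p : A) ^ N * w) * f0 ∈ aL E' f0 := mem_aL.2 ⟨_, hN, rfl⟩
    rw [h8, Submodule.mem_bot] at h10
    have hc : E'.e * (p : A) ^ N = (p : A) ^ N * E'.e :=
      ((Nat.cast_commute p E'.e).pow_left N).eq.symm
    rw [← mul_assoc, hc] at h10
    rw [← h10]
    noncomm_ring
  apply hne
  obtain ⟨N, a, b, hz⟩ := hV.span
  rw [hV.central, hz, Finset.mul_sum]
  refine Finset.sum_eq_zero fun i _ => ?_
  rw [← mul_assoc, ← mul_assoc, h9, zero_mul]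

private theorem aS_O {E E' : LocIdem p O} {f0 y x ν : A} {k : ℕ} (hG : Good E f0)
    (D : DVRC p K f0 (fOf W O f0) (fRad E f0) y x k) (h : ν ∈ aS E' f0) : y * ν ∈ O := by
  refine mem_of_left F H hG (E' := E') ?_ ?_ ?_
  · rw [← mul_assoc, fOf_left hG.idem (fRad_le hG D.y_mem)]
  · rw [mul_assoc, h.2.1]
  · intro o ho
    rw [mul_assoc]
    exact D.y_left _ (h.2.2 o ho)

private theorem aS_fg {E E' : LocIdem p O} {f0 : A} (hG : Good E f0) : (aS E' f0).FG := by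
  obtain ⟨y, x, k, D⟩ := hG.dvr F H
  refine fg_of_le (p := p) (K := K) F (H.fg.map (LinearMap.mulLeft W x)) fun ν hν => ?_
  refine ⟨y * ν, aS_O F H hG D hν, ?_⟩
  rw [LinearMap.mulLeft_apply, ← mul_assoc, D.xy, hν.1]

private theorem right_ne {E E' : LocIdem p O} {f0 z : A} (hG : Good E f0) (hV : Vtx z f0)
    (hne : z * E'.e ≠ 0) :
    ¬ aS E' f0 ≤ aS E' f0 * E'.rad ⊔ fRad E f0 * aS E' f0 := by
  intro h0
  obtain ⟨y, x, k, D⟩ := hG.dvr F H
  have h1 : aS E' f0 * E'.rad ≤ aS E' f0 :=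
    Submodule.mul_le.2 fun ν hν n hn => aS_rad hν hn
  have h2 : ∀ j : ℕ, aS E' f0 * E'.rad ^ j ≤ aS E' f0 := by
    intro j
    induction j with
    | zero => rw [pow_zero, mul_one]
    | succ j ih =>
      rw [pow_succ', ← mul_assoc]
      exact (mul_le_mul' h1 le_rfl).trans ih
  have h3 : ∀ j : ℕ, aS E' f0 ≤ aS E' f0 * E'.rad ^ j ⊔ fRad E f0 * aS E' f0 := by
    intro j
    induction j with
    | zero =>
      rw [pow_zero, mul_one]
      exact le_sup_left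
    | succ j ih =>
      refine ih.trans (sup_le ?_ le_sup_right)
      refine (mul_le_mul' h0 le_rfl).trans ?_
      rw [Submodule.sup_mul, mul_assoc, mul_assoc, ← pow_succ']
      exact sup_le_sup le_rfl (mul_le_mul' le_rfl (h2 j))
  obtain ⟨n, hn⟩ := E'.nilp
  have h4 : aS E' f0 * E'.rad ^ n ≤ fRad E f0 * aS E' f0 := by
    refine Submodule.mul_le.2 fun ν hν u hu => ?_
    have h5 : ν * u ∈ aS E' f0 := h2 n (Submodule.mul_mem_mul hν hu)
    obtain ⟨w, hw, rfl⟩ := hn u hu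
    have h6 : ν * ((p : A) * w) = ((p : A) * f0) * (ν * w * E'.e) := by
      rw [← h5.2.1]
      have hc := (Nat.cast_commute p ν).eq
      calc ν * ((p : A) * w) * E'.e = (ν * (p : A)) * w * E'.e := by noncomm_ring
        _ = ((p : A) * (f0 * ν)) * w * E'.e := by rw [← hc, hν.1]
        _ = ((p : A) * f0) * (ν * w * E'.e) := by noncomm_ring
    rw [h6]
    refine Submodule.mul_mem_mul (p_fRad hG) ⟨?_, ?_, fun o ho => ?_⟩
    · rw [← mul_assoc, ← mul_assoc, hν.1]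
    · rw [mul_assoc, E'.idem]
    · have h7 : ν * w * E'.e * (E'.e * o * f0) = ν * (E'.e * (w * (E'.e * o)) * f0) := by
        calc ν * w * E'.e * (E'.e * o * f0) = ν * w * ((E'.e * E'.e) * o * f0) := by noncomm_ring
          _ = (ν * E'.e) * w * (E'.e * o * f0) := by rw [E'.idem, hν.2.1]
          _ = ν * (E'.e * (w * (E'.e * o)) * f0) := by noncomm_ring
      rw [h7]
      exact hν.2.2 _ (O.mul_mem hw (O.mul_mem E'.mem ho))
  have h5 : aS E' f0 ≤ fRad E f0 * aS E' f0 := (h3 n).trans (sup_le h4 le_rfl)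
  have h6 : ∀ ν ∈ aS E' f0, ∃ μ ∈ aS E' f0, ν = y * μ := by
    intro ν hν
    refine Submodule.mul_induction_on (C := fun ν => ∃ μ ∈ aS E' f0, ν = y * μ) (h5 hν) ?_ ?_
    · intro μ hμ β hβ
      refine ⟨(x * μ) * β, mul_aS hG (D.M_left μ hμ) hβ, ?_⟩
      rw [← mul_assoc, ← mul_assoc, D.yx, fOf_left hG.idem (fRad_le hG hμ)]
    · rintro _ _ ⟨β, hβ, rfl⟩ ⟨γ, hγ, rfl⟩
      exact ⟨β + γ, Submodule.add_mem _ hβ hγ, (mul_add _ _ _).symm⟩
  have h7 : ∀ (j : ℕ), ∀ ν ∈ aS E' f0, ∃ μ ∈ aS E' f0, ν = y ^ j * μ := by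
    intro j
    induction j with
    | zero =>
      intro ν hν
      exact ⟨ν, hν, by rw [pow_zero, one_mul]⟩
    | succ j ih =>
      intro ν hν
      obtain ⟨β, hβ, rfl⟩ := ih ν hν
      obtain ⟨γ, hγ, rfl⟩ := h6 β hβ
      exact ⟨γ, hγ, by rw [pow_succ, mul_assoc]⟩
  have h8 : aS E' f0 = ⊥ := by
    refine eq_bot_of_p (p := p) (K := K) F _ (aS_fg F H hG) fun ν hν => ?_
    obtain ⟨β, hβ, hνβ⟩ := h7 k ν hν
    obtain ⟨u, hu, v, hv, huv, hvu, hp⟩ := D.p_eq
    refine ⟨v * β, mul_aS hG hv hβ, ?_⟩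
    calc ν = y ^ k * (f0 * β) := by rw [hνβ, hβ.1]
      _ = (y ^ k * u) * v * β := by rw [← huv]; noncomm_ring
      _ = ((p : A) * f0) * v * β := by rw [hp]
      _ = (p : A) * ((f0 * v) * β) := by noncomm_ring
      _ = (p : A) * (v * β) := by rw [fOf_left hG.idem hv]
  have h9 : ∀ w : A, f0 * w * E'.e = 0 := by
    intro w
    obtain ⟨N, hN⟩ := H.span w
    refine p_cancel (p := p) (W := W) (K := K) F N _ ?_
    have h10 : f0 * ((p : A) ^ N * w) * E'.e ∈ aS E' f0 := by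
      refine ⟨?_, ?_, fun o ho => ?_⟩
      · rw [← mul_assoc, ← mul_assoc, hG.idem]
      · rw [mul_assoc, E'.idem]
      · refine mem_fOf.2 ⟨((p : A) ^ N * w) * (E'.e * o), O.mul_mem hN (O.mul_mem E'.mem ho), ?_⟩
        calc f0 * ((p : A) ^ N * w * (E'.e * o) * f0)
            = f0 * ((p : A) ^ N * w * ((E'.e * E'.e) * o) * f0) := by rw [E'.idem]
          _ = f0 * ((p : A) ^ N * w) * E'.e * (E'.e * o * f0) := by noncomm_ring
    rw [h8, Submodule.mem_bot] at h10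
    have hc : f0 * (p : A) ^ N = (p : A) ^ N * f0 :=
      ((Nat.cast_commute p f0).pow_left N).eq.symm
    rw [← mul_assoc, hc] at h10
    rw [← h10]
    noncomm_ring
  apply hne
  obtain ⟨N, a, b, hz⟩ := hV.span
  rw [hz, Finset.sum_mul]
  refine Finset.sum_eq_zero fun i _ => ?_
  calc a i * f0 * b i * E'.e = a i * (f0 * b i * E'.e) := by noncomm_ring
    _ = 0 := by rw [h9, mul_zero]

/-- (i): `lam` kills `r' a` modulo `m` -/
theorem exists_pair_left {E E' : LocIdem p O} {f0 z : A} (hG : Good E f0) (hV : Vtx z f0)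
    (hne : z * E'.e ≠ 0) :
    ∃ α lam : A, ELPair E' f0 α lam ∧
      ∀ n ∈ E'.rad, ∀ x ∈ O, lam * (n * (E'.e * x * f0)) ∈ fRad E f0 := by
  obtain ⟨y, x, k, D⟩ := hG.dvr F H
  obtain ⟨α0, hα0, hα0'⟩ := SetLike.not_le_iff_exists.1 (left_ne F H hG hV hne (E' := E'))
  have hsub : E'.rad * aL E' f0 ⊔ aL E' f0 * fRad E f0 ≤ aL E' f0 :=
    sup_le (Submodule.mul_le.2 fun n hn α hα => rad_mul_aL hn hα)
      (Submodule.mul_le.2 fun α hα μ hμ => aL_mul hG hα (fRad_le hG hμ))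
  have hL : (E'.rad * aL E' f0 ⊔ aL E' f0 * fRad E f0).FG :=
    fg_of_le (p := p) (K := K) F (H.fg.map _) hsub
  obtain ⟨ξ, h1, h2, h3, h4⟩ := exists_dual F H E'.idem hG.idem _ hL
    (fun l hl => ⟨aL_left (hsub hl), aL_right hG.idem (hsub hl)⟩) α0 (aL_left hα0)
    (aL_right hG.idem hα0) hα0'
  have hfm : ∀ μ ∈ fRad E f0, ∀ o ∈ fOf W O f0, μ * o ∈ fRad E f0 := by
    intro μ hμ o ho
    have h := D.y_left _ (fOf_mul hG (D.M_left μ hμ) ho)
    rwa [← mul_assoc, ← mul_assoc, D.yx, fOf_left hG.idem (fRad_le hG hμ)] at h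
  have hstab : ∀ l ∈ E'.rad * aL E' f0 ⊔ aL E' f0 * fRad E f0, ∀ o ∈ fOf W O f0,
      l * o ∈ E'.rad * aL E' f0 ⊔ aL E' f0 * fRad E f0 := by
    intro l hl o ho
    obtain ⟨l1, hl1, l2, hl2, rfl⟩ := Submodule.mem_sup.1 hl
    rw [add_mul]
    refine Submodule.add_mem_sup ?_ ?_
    · refine Submodule.mul_induction_on
        (C := fun l => l * o ∈ E'.rad * aL E' f0) hl1 ?_ ?_
      · intro n hn α hα
        rw [mul_assoc]
        exact Submodule.mul_mem_mul hn (aL_mul hG hα ho)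
      · intro a b ha hb
        rw [add_mul]
        exact Submodule.add_mem _ ha hb
    · refine Submodule.mul_induction_on
        (C := fun l => l * o ∈ aL E' f0 * fRad E f0) hl2 ?_ ?_
      · intro α hα μ hμ
        rw [mul_assoc]
        exact Submodule.mul_mem_mul hα (hfm μ hμ o ho)
      · intro a b ha hb
        rw [add_mul]
        exact Submodule.add_mem _ ha hb
  have hm : ∀ l ∈ E'.rad * aL E' f0 ⊔ aL E' f0 * fRad E f0, ξ * l ∈ fRad E f0 := by
    intro l hl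
    refine mem_fRad_of_int F H hG ?_ ?_ fun o ho => ?_
    · rw [← mul_assoc, h1]
    · rw [mul_assoc, aL_right hG.idem (hsub hl)]
    · rw [mul_assoc]
      exact h3 _ (hstab l hl o ho)
  have hO : ∀ α ∈ aL E' f0, ξ * α ∈ fOf W O f0 := by
    intro α hα
    refine hG.dual F H ?_ ?_ fun μ hμ => ?_
    · rw [← mul_assoc, h1]
    · rw [mul_assoc, aL_right hG.idem hα]
    · rw [mul_assoc]
      exact h3 _ (Submodule.mem_sup_right (Submodule.mul_mem_mul hα hμ))
  have hnm : ξ * α0 ∉ fRad E f0 := fun h => h4 (H.int _ (fRad_mem hG h))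
  obtain ⟨b, hb, hb1, hb2⟩ := D.unit _ (hO α0 hα0) hnm
  refine ⟨α0 * b, ξ, ⟨mem_aL.1 (aL_mul hG hα0 hb), h1, h2,
    fun o ho => hO _ (mem_aL.2 ⟨o, ho, rfl⟩), by rw [← mul_assoc, hb1]⟩, fun n hn o ho => ?_⟩
  exact hm _ (Submodule.mem_sup_left
    (Submodule.mul_mem_mul hn (mem_aL.2 ⟨o, ho, rfl⟩)))

/-- (iii): `r' α₃ ⊆ a m` -/
theorem exists_pair_right {E E' : LocIdem p O} {f0 z : A} (hG : Good E f0) (hV : Vtx z f0)
    (hne : z * E'.e ≠ 0) :
    ∃ α mu : A, ELPair E' f0 α mu ∧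
      ∀ n ∈ E'.rad, ∀ ν : A, f0 * ν = ν → ν * E'.e = ν →
        (∀ x ∈ O, ν * (E'.e * x * f0) ∈ fOf W O f0) → ν * (n * α) ∈ fRad E f0 := by
  obtain ⟨y, x, k, D⟩ := hG.dvr F H
  obtain ⟨ν0, hν0, hν0'⟩ := SetLike.not_le_iff_exists.1 (right_ne F H hG hV hne (E' := E'))
  have hsub : aS E' f0 * E'.rad ⊔ fRad E f0 * aS E' f0 ≤ aS E' f0 :=
    sup_le (Submodule.mul_le.2 fun ν hν n hn => aS_rad hν hn)
      (Submodule.mul_le.2 fun μ hμ ν hν => mul_aS hG (fRad_le hG hμ) hν)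
  have hL : (aS E' f0 * E'.rad ⊔ fRad E f0 * aS E' f0).FG :=
    fg_of_le (p := p) (K := K) F (aS_fg F H hG) hsub
  obtain ⟨ξ, h1, h2, h3, h4⟩ := exists_dual F H hG.idem E'.idem _ hL
    (fun l hl => ⟨(hsub hl).1, (hsub hl).2.1⟩) ν0 hν0.1 hν0.2.1 hν0'
  have hmf : ∀ o ∈ fOf W O f0, ∀ μ ∈ fRad E f0, o * μ ∈ fRad E f0 := by
    intro o ho μ hμ
    have h := D.y_right _ (fOf_mul hG ho (D.M_right μ hμ))
    rwa [mul_assoc, mul_assoc, D.xy, fOf_right hG.idem (fRad_le hG hμ)] at h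
  have hstab : ∀ l ∈ aS E' f0 * E'.rad ⊔ fRad E f0 * aS E' f0, ∀ o ∈ fOf W O f0,
      o * l ∈ aS E' f0 * E'.rad ⊔ fRad E f0 * aS E' f0 := by
    intro l hl o ho
    obtain ⟨l1, hl1, l2, hl2, rfl⟩ := Submodule.mem_sup.1 hl
    rw [mul_add]
    refine Submodule.add_mem_sup ?_ ?_
    · refine Submodule.mul_induction_on
        (C := fun l => o * l ∈ aS E' f0 * E'.rad) hl1 ?_ ?_
      · intro ν hν n hn
        rw [← mul_assoc]
        exact Submodule.mul_mem_mul (mul_aS hG ho hν) hn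
      · intro a b ha hb
        rw [mul_add]
        exact Submodule.add_mem _ ha hb
    · refine Submodule.mul_induction_on
        (C := fun l => o * l ∈ fRad E f0 * aS E' f0) hl2 ?_ ?_
      · intro μ hμ ν hν
        rw [← mul_assoc]
        exact Submodule.mul_mem_mul (hmf o ho μ hμ) hν
      · intro a b ha hb
        rw [mul_add]
        exact Submodule.add_mem _ ha hb
  have hm : ∀ l ∈ aS E' f0 * E'.rad ⊔ fRad E f0 * aS E' f0, l * ξ ∈ fRad E f0 := by
    intro l hl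
    refine mem_fRad_of_int F H hG ?_ ?_ fun o ho => ?_
    · rw [← mul_assoc, (hsub hl).1]
    · rw [mul_assoc, h2]
    · have h5 : τ (l * ξ * o) = τ (ξ * (o * l)) := by
        rw [mul_assoc, H.comm, mul_assoc]
      rw [h5]
      exact h3 _ (hstab l hl o ho)
  have hO : ∀ ν ∈ aS E' f0, ν * ξ ∈ fOf W O f0 := by
    intro ν hν
    refine hG.dual F H ?_ ?_ fun μ hμ => ?_
    · rw [← mul_assoc, hν.1]
    · rw [mul_assoc, h2]
    · have h5 : τ (ν * ξ * μ) = τ (ξ * (μ * ν)) := by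
        rw [mul_assoc, H.comm, mul_assoc]
      rw [h5]
      exact h3 _ (Submodule.mem_sup_right (Submodule.mul_mem_mul hμ hν))
  have hnm : ν0 * ξ ∉ fRad E f0 := fun h => h4 (by
    rw [H.comm]
    exact H.int _ (fRad_mem hG h))
  have hξ : ξ ∈ aL E' f0 := by
    by_contra hcon
    obtain ⟨η, g1, g2, g3, g4⟩ := exists_dual F H E'.idem hG.idem (aL E' f0) (H.fg.map _)
      (fun l hl => ⟨aL_left hl, aL_right hG.idem hl⟩) ξ h1 h2 hcon
    have g5 : ∀ α ∈ aL E' f0, η * α ∈ fRad E f0 := by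
      intro α hα
      refine mem_fRad_of_int F H hG ?_ ?_ fun o ho => ?_
      · rw [← mul_assoc, g1]
      · rw [mul_assoc, aL_right hG.idem hα]
      · rw [mul_assoc]
        exact g3 _ (aL_mul hG hα ho)
    have g6 : x * η ∈ aS E' f0 := by
      refine ⟨?_, ?_, fun o ho => ?_⟩
      · rw [← mul_assoc, D.x_left]
      · rw [mul_assoc, g2]
      · rw [mul_assoc]
        exact D.M_left _ (g5 _ (mem_aL.2 ⟨o, ho, rfl⟩))
    have g7 : η * ξ = y * (x * η * ξ) := by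
      rw [← mul_assoc, ← mul_assoc, D.yx, g1]
    apply g4
    rw [g7]
    exact H.int _ (fRad_mem hG (D.y_left _ (hO _ g6)))
  obtain ⟨b, hb, hb1, hb2⟩ := D.unit _ (hO ν0 hν0) hnm
  have hmu := mul_aS hG hb hν0
  refine ⟨ξ, b * ν0, ⟨mem_aL.1 hξ, hmu.1, hmu.2.1, hmu.2.2, by rw [mul_assoc, hb2]⟩, ?_⟩
  intro n hn ν q1 q2 q3
  rw [← mul_assoc]
  exact hm _ (Submodule.mem_sup_left (Submodule.mul_mem_mul ⟨q1, q2, q3⟩ hn))

end

end PDeg
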