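import Pool.Agent.Lib.MP_369ee2_lc_PD.MCol

/-!
# Sizes of fibres and of colour classes (C0)
-/

namespace MSch

open Function

namespace MScheme

variable {V : Type} [Fintype V] {m : ℕ} (Q : MScheme V m)

/-- the fibre of `b` over `u` -/
def fib {I : Type} (u : I → V) (b : V) : Set V :=
  {a | Q.ceq (Sum.elim u (fun _ : Unit => a)) (Sum.elim u (fun _ : Unit => b))}

theorem mem_fib_self {I : Type} (u : I → V) (b : V) : b ∈ Q.fib u b := Q.ceq_refl _

theorem fib_comp {I J : Type} [Fintype I] [Fintype J] (hI : Fintype.card I + 1 ≤ m)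
    (π : I → J) (hπ : Surjective π) (u : J → V) (b : V) :
    Q.fib (fun i => u (π i)) b = Q.fib u b := by
  have hJ : Fintype.card J ≤ Fintype.card I := Fintype.card_le_of_surjective π hπ
  ext a
  constructor
  · intro h
    obtain ⟨s, hs⟩ := hπ.hasRightInverse
    have h1 := Q.ceq_comp (by rw [Fintype.card_sum]; simpa using hI) h
      (Sum.elim (fun j => Sum.inl (s j)) (fun i => Sum.inr i) : J ⊕ Unit → I ⊕ Unit)
    have h2 : ∀ c : V, (fun i => (Sum.elim (fun i => u (π i)) (fun _ : Unit => c) :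
        I ⊕ Unit → V) ((Sum.elim (fun j => Sum.inl (s j)) (fun i => Sum.inr i) :
          J ⊕ Unit → I ⊕ Unit) i)) = Sum.elim u (fun _ : Unit => c) := by
      intro c
      funext i
      rcases i with j | i
      · simp [hs j]
      · rfl
    rwa [h2, h2] at h1
  · intro h
    have h1 := Q.ceq_comp (by rw [Fintype.card_sum]; simp; omega) h
      (Sum.elim (fun j => Sum.inl (π j)) (fun i => Sum.inr i) : I ⊕ Unit → J ⊕ Unit)
    have h2 : ∀ c : V, (fun i => (Sum.elim u (fun _ : Unit => c) :
        J ⊕ Unit → V) ((Sum.elim (fun j => Sum.inl (π j)) (fun i => Sum.inr i) :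
          I ⊕ Unit → J ⊕ Unit) i)) = Sum.elim (fun i => u (π i)) (fun _ : Unit => c) := by
      intro c
      funext i
      rcases i with j | i
      · rfl
      · rfl
    rwa [h2, h2] at h1

theorem fib_of_mem {I : Type} (u : I → V) (i : I) : Q.fib u (u i) = {u i} := by
  ext a
  constructor
  · intro h
    have h1 := (Q.ceq_eq_iff h (Sum.inl i) (Sum.inr ())).2 rfl
    exact h1.symm
  · rintro rfl
    exact Q.mem_fib_self _ _

theorem fib_not_mem {I : Type} (u : I → V) {b : V} (hb : ∀ i, u i ≠ b) {a : V}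
    (ha : a ∈ Q.fib u b) (i : I) : u i ≠ a := by
  intro h
  exact hb i ((Q.ceq_eq_iff ha (Sum.inl i) (Sum.inr ())).1 h)

/-- a function separating the colours -/
theorem exists_sep (I : Type) [Fintype I] (hI : Fintype.card I ≤ m) :
    ∃ g : (I → V) → ℕ, ∀ x y, g x = g y ↔ Q.ceq x y := by
  classical
  let S := Q.cset I hI
  have : Finite (Quotient S) := Quotient.finite S
  have : Fintype (Quotient S) := Fintype.ofFinite _
  refine ⟨fun x => (Fintype.equivFin (Quotient S) (Quotient.mk S x) : ℕ), fun x y => ?_⟩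
  rw [← Fin.ext_iff, (Fintype.equivFin (Quotient S)).injective.eq_iff, Quotient.eq]
  rfl

/-- exchanging two new points changes the colour -/
theorem not_ceq_swap {I : Type} [Fintype I] (hI : Fintype.card I + 2 ≤ m)
    (hQ : Q.Antisymmetric) (u : I ↪ V) {a b : V} (ha : ∀ i, u i ≠ a) (hb : ∀ i, u i ≠ b)
    (hab : a ≠ b) :
    ¬ Q.ceq (Sum.elim (fun i => u i) ![a, b]) (Sum.elim (fun i => u i) ![b, a]) := by
  classical
  intro h
  have hI2 : Fintype.card (I ⊕ Fin 2) ≤ m := by
    rw [Fintype.card_sum]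
    simpa using hI
  have hinj : ∀ c d : V, (∀ i, u i ≠ c) → (∀ i, u i ≠ d) → c ≠ d →
      Injective (Sum.elim (fun i => u i) ![c, d]) := by
    intro c d hc hd hcd
    rintro (i | i) (j | j) hij
    · simp only [Sum.elim_inl] at hij
      rw [u.injective hij]
    · simp only [Sum.elim_inl, Sum.elim_inr] at hij
      fin_cases j
      · exact absurd hij (hc i)
      · exact absurd hij (hd i)
    · simp only [Sum.elim_inl, Sum.elim_inr] at hij
      fin_cases i
      · exact absurd hij.symm (hc j)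
      · exact absurd hij.symm (hd j)
    · simp only [Sum.elim_inr] at hij
      fin_cases i <;> fin_cases j <;> simp_all [Ne.symm]
  let x : I ⊕ Fin 2 ↪ V := ⟨_, hinj a b ha hb hab⟩
  let y : I ⊕ Fin 2 ↪ V := ⟨_, hinj b a hb ha hab.symm⟩
  have h1 : Q.rel x y := (Q.ceq_inj_iff hI2 x y).1 h
  let σ : Equiv.Perm (I ⊕ Fin 2) := Equiv.sumCongr (Equiv.refl I) (Equiv.swap 0 1)
  have h2 : σ.toEmbedding.trans x = y := by
    ext i
    rcases i with i | i
    · rfl
    · fin_cases i <;> rfl
  have h3 : σ = 1 := by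
    apply rel_antisymm Q hI2 hQ σ x
    rw [h2]
    exact rel_symm Q h1
  have h4 := congrArg (fun τ : Equiv.Perm (I ⊕ Fin 2) => τ (Sum.inr 0)) h3
  have h5 : (Sum.inr 1 : I ⊕ Fin 2) = Sum.inr 0 := h4
  simp at h5

/-- fibres are odd: injective case -/
theorem odd_fib_inj {I : Type} [Fintype I] (hI : Fintype.card I + 2 ≤ m)
    (hQ : Q.Antisymmetric) (u : I ↪ V) {b : V} (hb : ∀ i, u i ≠ b) :
    Odd (Nat.card (Q.fib (fun i => u i) b)) := by
  classical
  have hI2 : Fintype.card (I ⊕ Fin 2) ≤ m := by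
    rw [Fintype.card_sum]
    simpa using hI
  have hI1 : Fintype.card (I ⊕ Unit) ≤ m := by
    rw [Fintype.card_sum]
    simp
    omega
  have hI11 : Fintype.card ((I ⊕ Unit) ⊕ Unit) ≤ m := by
    rw [Fintype.card_sum, Fintype.card_sum]
    simp
    omega
  obtain ⟨g, hg⟩ := Q.exists_sep (I ⊕ Fin 2) hI2
  let F : Finset V := Finset.univ.filter (fun a => a ∈ Q.fib (fun i => u i) b)
  have hF : ∀ a, a ∈ F ↔ a ∈ Q.fib (fun i => u i) b := fun a => by simp [F]
  let T : V → V → Prop := fun a a' =>
    g (Sum.elim (fun i => u i) ![a, a']) < g (Sum.elim (fun i => u i) ![a', a])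
  have hT : ∀ a ∈ F, ∀ a' ∈ F, a ≠ a' → (T a a' ↔ ¬ T a' a) := by
    intro a ha a' ha' haa'
    have h1 := Q.not_ceq_swap hI hQ u (Q.fib_not_mem _ hb ((hF a).1 ha))
      (Q.fib_not_mem _ hb ((hF a').1 ha')) haa'
    rw [← hg] at h1
    constructor
    · intro h
      exact not_lt.2 h.le
    · intro h
      exact lt_of_le_of_ne (not_lt.1 h) h1
  -- the out-valency is constant
  let ρ01 : I ⊕ Fin 2 → (I ⊕ Unit) ⊕ Unit :=
    Sum.elim (fun i => Sum.inl (Sum.inl i)) ![Sum.inl (Sum.inr ()), Sum.inr ()]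
  let ρ10 : I ⊕ Fin 2 → (I ⊕ Unit) ⊕ Unit :=
    Sum.elim (fun i => Sum.inl (Sum.inl i)) ![Sum.inr (), Sum.inl (Sum.inr ())]
  let ρ1 : I ⊕ Unit → (I ⊕ Unit) ⊕ Unit :=
    Sum.elim (fun i => Sum.inl (Sum.inl i)) (fun _ => Sum.inr ())
  let h : ((I ⊕ Unit) ⊕ Unit → V) → ℕ := fun x =>
    if (Q.ceq (fun i => x (ρ1 i)) (Sum.elim (fun i => u i) (fun _ => b)) ∧
      (¬ x (Sum.inl (Sum.inr ())) = x (Sum.inr ()))) ∧
      g (fun i => x (ρ01 i)) < g (fun i => x (ρ10 i)) then 1 else 0
  have hgc : Q.Const g := fun x y hxy => (hg x y).2 hxy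
  have hc : Q.Const h := by
    refine Const.ite ?_ (Const.const _) (Const.const _)
    refine Const.map₂ (Const.map₂ ((Const.of_ceq hI1 _).comp hI11 ρ1)
      ((Const.eq_pattern _ _).map Not) And) (Const.map₂ (hgc.comp hI11 ρ01)
        (hgc.comp hI11 ρ10) (fun x y => x < y)) And
  have hs := hc.sum_one (by
    have : Fintype.card (I ⊕ Unit) = Fintype.card I + 1 := by simp
    omega)
  obtain ⟨k, hk⟩ : ∃ k : ℕ, ∀ a ∈ F, ∑ a' ∈ F, (if a ≠ a' ∧ T a a' then 1 else 0) = k := by
    refine ⟨∑ a' : V, h (Sum.elim (Sum.elim (fun i => u i) fun _ => b) fun _ => a'),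
      fun a ha => ?_⟩
    have h1 := hs _ _ ((hF a).1 ha)
    refine Eq.trans ?_ h1
    rw [Finset.sum_filter]
    refine Finset.sum_congr rfl (fun a' _ => ?_)
    have e1 : (fun i => (Sum.elim (Sum.elim (fun i => u i) fun _ => a) fun _ => a' :
        (I ⊕ Unit) ⊕ Unit → V) (ρ1 i)) = Sum.elim (fun i => u i) (fun _ => a') := by
      funext i
      rcases i with i | i <;> rfl
    have e2 : (fun i => (Sum.elim (Sum.elim (fun i => u i) fun _ => a) fun _ => a' :
        (I ⊕ Unit) ⊕ Unit → V) (ρ01 i)) = Sum.elim (fun i => u i) ![a, a'] := by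
      funext i
      rcases i with i | i
      · rfl
      · fin_cases i <;> rfl
    have e3 : (fun i => (Sum.elim (Sum.elim (fun i => u i) fun _ => a) fun _ => a' :
        (I ⊕ Unit) ⊕ Unit → V) (ρ10 i)) = Sum.elim (fun i => u i) ![a', a] := by
      funext i
      rcases i with i | i
      · rfl
      · fin_cases i <;> rfl
    simp only [h, e1, e2, e3, Sum.elim_inl, Sum.elim_inr]
    by_cases hm : a' ∈ Q.fib (fun i => u i) b
    · have hm' : Q.ceq (Sum.elim (fun i => u i) (fun _ : Unit => a'))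
        (Sum.elim (fun i => u i) (fun _ : Unit => b)) := hm
      simp only [hm, hm', if_true, true_and]
      rfl
    · have hm' : ¬ Q.ceq (Sum.elim (fun i => u i) (fun _ : Unit => a'))
        (Sum.elim (fun i => u i) (fun _ : Unit => b)) := hm
      simp only [hm, hm', if_false, false_and]
  have hsum : ∑ a ∈ F, ∑ a' ∈ F, (if a ≠ a' ∧ T a a' then 1 else 0) = F.card * k := by
    rw [Finset.sum_congr rfl hk, Finset.sum_const, smul_eq_mul]
  have hsum' : ∑ a ∈ F, ∑ a' ∈ F, (if a ≠ a' ∧ T a' a then 1 else 0) = F.card * k := by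
    rw [Finset.sum_comm, ← hsum]
    refine Finset.sum_congr rfl (fun a _ => Finset.sum_congr rfl (fun a' _ => ?_))
    simp only [ne_comm]
  have hadd : ∑ a ∈ F, ∑ a' ∈ F, (if a ≠ a' ∧ T a a' then 1 else 0) +
      ∑ a ∈ F, ∑ a' ∈ F, (if a ≠ a' ∧ T a' a then 1 else 0) + F.card = F.card * F.card := by
    rw [← Finset.sum_add_distrib]
    have h1 : ∀ a ∈ F, ∑ a' ∈ F, (if a ≠ a' ∧ T a a' then 1 else 0) +
        ∑ a' ∈ F, (if a ≠ a' ∧ T a' a then 1 else 0) + 1 = F.card := by
      intro a ha
      rw [← Finset.sum_add_distrib]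
      have h2 : ∑ a' ∈ F, (if a = a' then 1 else 0) = 1 := by
        rw [Finset.sum_ite_eq]
        simp [ha]
      refine (congrArg (fun t => ∑ a' ∈ F, ((if a ≠ a' ∧ T a a' then 1 else 0) +
        (if a ≠ a' ∧ T a' a then 1 else 0)) + t) h2.symm).trans ?_
      rw [← Finset.sum_add_distrib, Finset.card_eq_sum_ones]
      refine Finset.sum_congr rfl (fun a' ha' => ?_)
      by_cases haa : a = a'
      · simp [haa]
      · have h3 := hT a ha a' ha' haa
        by_cases h4 : T a' a
        · have h5 : ¬ T a a' := fun h5 => h3.1 h5 h4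
          simp [haa, h4, h5]
        · have h5 : T a a' := h3.2 h4
          simp [haa, h4, h5]
    calc _ = ∑ a ∈ F, (∑ a' ∈ F, (if a ≠ a' ∧ T a a' then 1 else 0) +
        ∑ a' ∈ F, (if a ≠ a' ∧ T a' a then 1 else 0) + 1) := by
          rw [Finset.sum_add_distrib (g := fun _ => 1), Finset.card_eq_sum_ones]
      _ = ∑ a ∈ F, F.card := Finset.sum_congr rfl h1
      _ = F.card * F.card := by rw [Finset.sum_const, smul_eq_mul]
  rw [hsum, hsum'] at hadd
  have hpos : 0 < F.card := Finset.card_pos.2 ⟨b, (hF b).2 (Q.mem_fib_self _ _)⟩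
  have hcard : Nat.card (Q.fib (fun i => u i) b) = F.card := by
    rw [Nat.card_eq_fintype_card, Fintype.card_subtype]
  rw [hcard]
  refine ⟨k, ?_⟩
  have h6 : F.card * (2 * k + 1) = F.card * F.card := by
    rw [← hadd]
    ring
  exact (Nat.eq_of_mul_eq_mul_left hpos h6).symm

/-- fibres are odd -/
theorem odd_fib {I : Type} [Fintype I] (hI : Fintype.card I + 2 ≤ m)
    (hQ : Q.Antisymmetric) (u : I → V) (b : V) : Odd (Nat.card (Q.fib u b)) := by
  classical
  by_cases hb : ∃ i, u i = b
  · obtain ⟨i, rfl⟩ := hb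
    rw [Q.fib_of_mem]
    simp
  · push Not at hb
    obtain ⟨J, hJ, π, u', hπ, hu⟩ := exists_normal u
    have h1 : u = fun i => u' (π i) := funext hu
    rw [h1, Q.fib_comp (by omega) π hπ (fun j => u' j) b]
    have hJI : Fintype.card J ≤ Fintype.card I := Fintype.card_le_of_surjective π hπ
    refine Q.odd_fib_inj (by omega) hQ u' (fun j => ?_)
    obtain ⟨i, rfl⟩ := hπ j
    rw [← hu]
    exact hb i

theorem fib_lt {I : Type} [Nonempty I] (hV : 2 ≤ Fintype.card V) (u : I → V) (b : V) :
    Nat.card (Q.fib u b) < Fintype.card V := by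
  classical
  obtain ⟨i⟩ := ‹Nonempty I›
  by_cases hb : ∃ i, u i = b
  · obtain ⟨i, rfl⟩ := hb
    rw [Q.fib_of_mem]
    simp
    omega
  · push Not at hb
    rw [Nat.card_eq_fintype_card]
    exact Fintype.card_subtype_lt (x := u i) (fun h => Q.fib_not_mem u hb h i rfl)

/-- the size of a class is the size of the class of a restriction times the size of a fibre -/
theorem card_class {I : Type} [Fintype I] (hI : Fintype.card I + 1 ≤ m) (u : I → V) (b : V) :
    Nat.card {x : I ⊕ Unit → V // Q.ceq x (Sum.elim u (fun _ => b))} =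
      Nat.card {x : I → V // Q.ceq x u} * Nat.card (Q.fib u b) := by
  classical
  have hI1 : Fintype.card (I ⊕ Unit) ≤ m := by
    rw [Fintype.card_sum]
    simpa using hI
  let E : {x : I ⊕ Unit → V // Q.ceq x (Sum.elim u (fun _ => b))} ≃
      Σ v : {x : I → V // Q.ceq x u},
        {w : Unit → V // Q.ceq (Sum.elim v.1 w) (Sum.elim u (fun _ => b))} :=
    { toFun := fun x => ⟨⟨fun i => x.1 (Sum.inl i), Q.ceq_comp hI1 x.2 Sum.inl⟩,
        ⟨fun i => x.1 (Sum.inr i), by
          have : (Sum.elim (fun i => x.1 (Sum.inl i)) (fun i => x.1 (Sum.inr i)) :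
            I ⊕ Unit → V) = x.1 := by
            funext i
            rcases i with i | i <;> rfl
          rw [this]
          exact x.2⟩⟩
      invFun := fun p => ⟨Sum.elim p.1.1 p.2.1, p.2.2⟩
      left_inv := fun x => by
        refine Subtype.ext ?_
        funext i
        rcases i with i | i <;> rfl
      right_inv := fun p => rfl }
  have : Fintype {x : I → V // Q.ceq x u} := Fintype.ofFinite _
  rw [Nat.card_congr E, Nat.card_sigma]
  rw [Finset.sum_congr rfl (fun v _ => Q.ceq_count hI1 (Sum.elim u (fun _ => b)) v.2)]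
  rw [Finset.sum_const, Finset.card_univ, smul_eq_mul, Nat.card_eq_fintype_card
    (α := {x : I → V // Q.ceq x u})]
  congr 1
  refine Nat.card_congr (Equiv.subtypeEquiv (Equiv.funUnique Unit V) (fun w => ?_))
  rfl

theorem ceq_of_unique {I : Type} [Unique I] (hm : 1 ≤ m) (hQ : Q.Homogeneous) (x y : I → V) :
    Q.ceq x y := by
  classical
  let _ : Fintype I := Fintype.ofFinite _
  have hI : Fintype.card I ≤ m := by
    rw [Fintype.card_unique]
    exact hm
  have hinj : ∀ z : I → V, Injective z := fun z i j _ => Subsingleton.elim i j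
  refine (Q.ceq_inj_iff hI ⟨x, hinj x⟩ ⟨y, hinj y⟩).2 ?_
  rw [rel_iff Q hI (Equiv.ofUnique (Fin 1) I)]
  exact hQ _ _

/-- the number of points is odd -/
theorem odd_card (hm : 2 ≤ m) (hV : 1 ≤ Fintype.card V) (hQ : Q.Homogeneous)
    (hQ' : Q.Antisymmetric) : Odd (Fintype.card V) := by
  classical
  obtain ⟨b⟩ : Nonempty V := Fintype.card_pos_iff.1 hV
  have h := Q.odd_fib (I := Empty) (by simpa using hm) hQ' Empty.elim b
  have h1 : Q.fib (Empty.elim : Empty → V) b = Set.univ := by
    ext a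
    simp only [Set.mem_univ, iff_true]
    have h2 := Q.ceq_of_unique (by omega) hQ (fun _ : Unit => a) (fun _ : Unit => b)
    have h3 := Q.ceq_comp (by simp; omega) h2 (fun _ : Empty ⊕ Unit => ())
    have h4 : ∀ c : V, (Sum.elim Empty.elim (fun _ : Unit => c) : Empty ⊕ Unit → V) =
        fun _ => c := by
      intro c
      funext i
      rcases i with i | i
      · exact i.elim
      · rfl
    show Q.ceq _ _
    rw [h4, h4]
    exact h3
  rw [h1] at h
  simpa using h

/-- **C0**: a class of `I`-tuples has `p * u` elements, `u` odd and prime to `p` -/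
theorem card_class_fin (p : ℕ) (hp : p.Prime) (hV : Fintype.card V = p)
    (hQ : Q.Homogeneous) (hQ' : Q.Antisymmetric) :
    ∀ n : ℕ, n + 2 ≤ m → ∀ x : Fin (n + 1) → V,
      ∃ t : ℕ, Nat.card {y : Fin (n + 1) → V // Q.ceq y x} = p * t ∧ Odd t ∧ t.Coprime p := by
  classical
  intro n
  induction n with
  | zero =>
    intro hn x
    refine ⟨1, ?_, odd_one, Nat.coprime_one_left p⟩
    have h1 : Nat.card {y : Fin (0 + 1) → V // Q.ceq y x} = Nat.card (Fin (0 + 1) → V) := by
      refine Nat.card_congr (Equiv.subtypeUnivEquiv (fun y => ?_))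
      exact Q.ceq_of_unique (I := Fin 1) (by omega) hQ y x
    rw [h1, Nat.card_eq_fintype_card]
    simp [hV]
  | succ n ih =>
    intro hn x
    obtain ⟨t, ht, ht1, ht2⟩ := ih (by omega) (fun i => x (Fin.castSucc i))
    let u : Fin (n + 1) → V := fun i => x (Fin.castSucc i)
    let b : V := x (Fin.last (n + 1))
    have h1 := Q.card_class (I := Fin (n + 1)) (by simp; omega) u b
    have hodd := Q.odd_fib (I := Fin (n + 1)) (by simp; omega) hQ' u b
    have hlt := Q.fib_lt (I := Fin (n + 1)) (by rw [hV]; exact hp.two_le) u b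
    refine ⟨t * Nat.card (Q.fib u b), ?_, ht1.mul hodd, ?_⟩
    · rw [← mul_assoc, ← ht, ← h1]
      let e : Fin (n + 1) ⊕ Unit ≃ Fin (n + 1 + 1) :=
        { toFun := Sum.elim Fin.castSucc (fun _ => Fin.last (n + 1))
          invFun := fun i => Fin.lastCases (Sum.inr ()) (fun j => Sum.inl j) i
          left_inv := by
            rintro (i | i)
            · simp
            · simp
          right_inv := by
            intro i
            refine Fin.lastCases ?_ (fun j => ?_) i
            · simp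
            · simp }
      refine Nat.card_congr (Equiv.subtypeEquiv (Equiv.arrowCongr e.symm (Equiv.refl V))
        (fun y => ?_))
      have e1 : (Sum.elim u (fun _ : Unit => b)) = fun i => x (e i) := by
        funext i
        rcases i with i | i <;> rfl
      have e2 : (Equiv.arrowCongr e.symm (Equiv.refl V)) y = fun i => y (e i) := by
        funext i
        rfl
      rw [e1, e2]
      constructor
      · intro h
        exact Q.ceq_comp (by simp; omega) h e
      · intro h
        have h2 := Q.ceq_comp (by rw [Fintype.card_sum]; simp; omega) h e.symm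
        simpa using h2
    · refine Nat.Coprime.mul_left ht2 ?_
      rw [hV] at hlt
      refine (Nat.Coprime.symm ?_)
      rw [Nat.Prime.coprime_iff_not_dvd hp]
      intro hdvd
      exact absurd (Nat.le_of_dvd hodd.pos hdvd) (by omega)

end MScheme

end MSch
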