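import Pool.Agent.Lib.MP_369ee2_lc_PD.Coh
import Pool.Agent.Lib.MP_369ee2_lc_PD.MColCount
import Pool.Agent.Lib.MP_369ee2_lc.Singletons

/-!
# From singletons to matchings (row S16), and `|X|` is odd
-/

namespace PDeg

open MSch

private def mOne {V : Type} (x : V) : Fin 1 ↪ V :=
  ⟨fun _ => x, fun a b _ => Subsingleton.elim a b⟩

private theorem mOne_ne {V : Type} {x y : V} (h : x ≠ y) : y ∉ Set.range (mOne x) := by
  rintro ⟨k, hk⟩
  exact h hk

private theorem coe_two {V : Type} {x y : V} (h : y ∉ Set.range (mOne x)) :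
    ((ext (mOne x) y h : Fin 2 ↪ V) : Fin 2 → V) = ![x, y] := by
  funext k
  fin_cases k
  · rfl
  · rfl

private theorem coe_three {V : Type} {x y z : V} (h : y ∉ Set.range (mOne x))
    (h2 : z ∉ Set.range (ext (mOne x) y h)) :
    ((ext (ext (mOne x) y h) z h2 : Fin 3 ↪ V) : Fin 3 → V) = ![x, y, z] := by
  funext k
  fin_cases k
  · rfl
  · rfl
  · rfl

private theorem coe_del {V : Type} {x y z : V} (h : y ∉ Set.range (mOne x))
    (h2 : z ∉ Set.range (ext (mOne x) y h)) :
    ((del 1 (ext (ext (mOne x) y h) z h2) : Fin 2 ↪ V) : Fin 2 → V) = ![x, z] := by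
  funext k
  fin_cases k
  · rfl
  · rfl

theorem match_of {V : Type} [Fintype V] {m : ℕ} (Q : MScheme V m) (hm : 6 ≤ m)
    (hV : 3 ≤ Fintype.card V) (hH : Q.Homogeneous) (C : Coh V)
    (hC : ∀ n, n ≤ 6 → ∀ x y : Fin n ↪ V, C.r n x y ↔ (Q.P n).r x y)
    (hs : ∀ x y z : V, x ≠ y → x ≠ z → y ≠ z →
      Nat.card {w : V // C.r 3 ![x, y, w] ![x, y, z]} = 1) : Q.HasMatching := by
  classical
  by_cases hcase : ∃ x y z : V, x ≠ y ∧ x ≠ z ∧ y ≠ z ∧ C.r 2 ![x, y] ![x, z]
  · obtain ⟨x, y, z, hxy, hxz, hyz, hr⟩ := hcase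
    have hy := mOne_ne hxy
    have hz : z ∉ Set.range (ext (mOne x) y hy) := by
      rintro ⟨k, hk⟩
      rw [coe_two] at hk
      fin_cases k
      · exact hxz hk
      · exact hyz hk
    refine Singletons.matching_of Q (j := 2) (by norm_num) (by omega) (ext (mOne x) y hy) z hz ?_ 1
      (by decide) ?_
    · rw [Set.ncard_eq_one]
      refine ⟨z, ?_⟩
      ext w
      rw [Set.mem_singleton_iff]
      constructor
      · rintro ⟨hw, hv, h3⟩
        have h4 := (hC 3 (by norm_num) _ _).2 h3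
        rw [coe_three, coe_three] at h4
        obtain ⟨h5, -⟩ := Nat.card_eq_one_iff_unique.1 (hs x y z hxy hxz hyz)
        have h6 := h5.elim ⟨w, h4⟩ ⟨z, (C.equiv 3 (by norm_num)).refl _⟩
        exact congrArg Subtype.val h6
      · rintro rfl
        exact Singletons.mem_cls_self Q _ hz
    · refine (hC 2 (by norm_num) _ _).1 ?_
      rw [coe_del, coe_two]
      exact (C.equiv 2 (by norm_num)).symm hr
  · obtain ⟨x, y, hxy⟩ := Fintype.exists_pair_of_one_lt_card (α := V) (by omega)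
    have hy := mOne_ne hxy
    refine Singletons.matching_of Q (j := 1) le_rfl (by omega) (mOne x) y hy ?_ 0 (by decide)
      (hH _ _)
    rw [Set.ncard_eq_one]
    refine ⟨y, ?_⟩
    ext w
    rw [Set.mem_singleton_iff]
    constructor
    · rintro ⟨hw, hv, h3⟩
      have h4 := (hC 2 (by norm_num) _ _).2 h3
      rw [coe_two, coe_two] at h4
      by_contra hwy
      refine hcase ⟨x, w, y, ?_, hxy, hwy, h4⟩
      rintro rfl
      exact hw ⟨0, rfl⟩
    · rintro rfl
      exact Singletons.mem_cls_self Q _ hy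

/-- the number of points is odd -/
theorem odd_card {V : Type} [Fintype V] {m : ℕ} (Q : MScheme V m) (hm : 2 ≤ m)
    (hV : 1 ≤ Fintype.card V) (hH : Q.Homogeneous) (hA : Q.Antisymmetric) :
    Odd (Fintype.card V) :=
  Q.odd_card hm hV hH hA

end PDeg
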