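import Pool.Agent.Lib.MP_369ee2_lc_PD.Dim3P
import Pool.Agent.Lib.MP_369ee2_lc_PD.Match

/-!
# Section 9: the end of the proof
-/

namespace PDeg

open MSch

private theorem sn_one {X : Type} (a b : X) : (sn ![a] b : Fin 2 → X) = ![a, b] := by
  ext i
  fin_cases i <;> rfl

private theorem sn_two {X : Type} (a b c : X) : (sn ![a, b] c : Fin 3 → X) = ![a, b, c] := by
  ext i
  fin_cases i <;> rfl

/-- **End of section 9.** If the sum-zero part of `P δ` has dimension `k ^ 2 * d`, all fibres over
pairs of distinct points are singletons. -/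
theorem singletons_of_dim {X : Type} [Fintype X] [DecidableEq X] (C : Coh X) {p : ℕ}
    {W K : Type} [CommRing W] [Field K] [Algebra W K] {k d : ℕ} {y : Matrix X X W} {ζ0 : W}
    (hp : p.Prime) (hy : YData C p W K k d y ζ0)
    (h : Module.finrank K (szSub C K (dlt C K)) = k ^ 2 * d) :
    ∀ x y z : X, x ≠ y → x ≠ z → y ≠ z →
      Nat.card {w : X // C.r 3 ![x, y, w] ![x, y, z]} = 1 := by
  have hcard := hy.card
  have h2 := hp.two_le
  have hkd : k * d + 1 = p := by
    have := hy.kd
    omega
  haveI : Nonempty X := Fintype.card_pos_iff.1 (by omega)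
  have hc := card_colours3_P C K
  rw [h, hy.rank2] at hc
  have hd : ∀ x y : X, x ≠ y → C.fb ![x] y = d := by
    intro x z hxz
    have := hy.val x z hxz
    unfold Coh.fb
    rw [← this]
    exact Nat.card_congr (Equiv.subtypeEquivRight fun w => by rw [sn_one, sn_one])
  intro x z b hxz hxb hzb
  have hs := C.singletons_of_count p k d hcard h2 hkd hd hy.rank2 (by omega) x z hxz b
    hxb.symm hzb.symm
  refine Eq.trans ?_ hs
  exact Nat.card_congr (Equiv.subtypeEquivRight fun w => by rw [sn_two, sn_two])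

/-- **End of the proof.** -/
theorem hasMatching_of_dim {V : Type} [Fintype V] [DecidableEq V] {m : ℕ} (Q : MScheme V m)
    (hm : 6 ≤ m) (hV : 3 ≤ Fintype.card V) (hH : Q.Homogeneous) (C : Coh V)
    (hC : ∀ n, n ≤ 6 → ∀ x y : Fin n ↪ V, C.r n x y ↔ (Q.P n).r x y) {p : ℕ}
    {W K : Type} [CommRing W] [Field K] [Algebra W K] {k d : ℕ} {y : Matrix V V W} {ζ0 : W}
    (hp : p.Prime) (hy : YData C p W K k d y ζ0)
    (h : Module.finrank K (szSub C K (dlt C K)) = k ^ 2 * d) : Q.HasMatching :=
  match_of Q hm hV hH C hC (singletons_of_dim C hp hy h)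

end PDeg
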