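import Mathlib

/-!
# The edge lemma for symmetric orders over a discrete valuation ring (engine of helper28)

Self contained: `W` a discrete valuation ring with uniformizer `p`, `K` its field of fractions,
`A` a finite dimensional `K`-algebra, `O` a `W`-order that is self dual for the trace form `τ`.
`DvrCorner` is a good component `f` of a local idempotent (a discrete valuation ring with
uniformizer `y`).  `EL_A` and `EL_B` are the two cases of the edge lemma.
-/

set_option autoImplicit false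
set_option linter.unusedSectionVars false
set_option linter.unusedVariables false

namespace PDt

open Submodule

variable {W K A : Type*} [CommRing W] [IsDomain W] [IsDiscreteValuationRing W]
  [Field K] [Algebra W K] [IsFractionRing W K]
  [Ring A] [Algebra K A] [Module.Finite K A] [Algebra W A] [IsScalarTower W K A]

/-- `x` is an element of `W`. -/
def IW (W : Type*) {K : Type*} [CommRing W] [CommRing K] [Algebra W K] (x : K) : Prop :=
  ∃ w : W, algebraMap W K w = x

include K in
theorem tf : Module.IsTorsionFree W A := by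
  have h : Module.IsTorsionFree W K := inferInstance
  have h2 : Module.IsTorsionFree K A := inferInstance
  exact Module.IsTorsionFree.trans K

/-- A functional separating a point from a full lattice. -/
theorem sep_full (L : Submodule W A) (hfg : L.FG) (hspan : ∀ x : A, ∃ w : W, w ≠ 0 ∧ w • x ∈ L)
    {x : A} (hx : x ∉ L) :
    ∃ φ : A →ₗ[K] K, (∀ l ∈ L, IW W (φ l)) ∧ ¬ IW W (φ x) := by
  have h0 : Module.Finite W L := Module.Finite.iff_fg.2 hfg
  have h1 : Module.IsTorsionFree W A := tf (K := K)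
  have h2 : Module.IsTorsionFree W L := inferInstance
  have h3 : Module.Free W L := inferInstance
  have hloc : IsLocalizedModule (nonZeroDivisors W) L.subtype := by
    refine ⟨?_, ?_, ?_⟩
    · intro s
      rw [Module.End.isUnit_iff]
      have hs : algebraMap W K (s : W) ≠ 0 :=
        IsFractionRing.to_map_ne_zero_of_mem_nonZeroDivisors s.2
      constructor
      · intro a b hab
        have : algebraMap W K (s : W) • a = algebraMap W K (s : W) • b := by
          simpa [Module.algebraMap_end_apply] using hab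
        exact smul_right_injective A hs this
      · intro a
        refine ⟨(algebraMap W K (s : W))⁻¹ • a, ?_⟩
        rw [Module.algebraMap_end_apply, ← algebraMap_smul K (s : W), smul_smul,
          mul_inv_cancel₀ hs, one_smul]
    · intro y
      obtain ⟨w, hw, hy⟩ := hspan y
      exact ⟨⟨⟨w • y, hy⟩, ⟨w, mem_nonZeroDivisors_of_ne_zero hw⟩⟩, rfl⟩
    · intro a b hab
      exact ⟨1, by rw [Subtype.val_injective hab]⟩
  let b := Module.Free.chooseBasis W L
  let c := b.ofIsLocalizedModule K (nonZeroDivisors W) L.subtype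
  by_contra hcon
  push Not at hcon
  apply hx
  have hco : ∀ i, IW W (c.repr x i) := by
    intro i
    by_contra hni
    apply hni
    exact hcon (c.coord i) (fun l hl => ⟨b.repr ⟨l, hl⟩ i, by
      rw [Module.Basis.coord_apply]
      exact (b.ofIsLocalizedModule_repr_apply K (nonZeroDivisors W) L.subtype ⟨l, hl⟩ i).symm⟩)
  choose w hw using hco
  have : x = ((∑ i, w i • b i : L) : A) := by
    conv_lhs => rw [← c.sum_repr x]
    rw [Submodule.coe_sum]
    refine Finset.sum_congr rfl fun i _ => ?_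
    rw [← hw i, Submodule.coe_smul, algebraMap_smul]
    congr 1
    exact b.ofIsLocalizedModule_apply K (nonZeroDivisors W) L.subtype i
  rw [this]
  exact Subtype.mem _

open Pointwise in
/-- A functional separating a point from any finitely generated submodule. -/
theorem sep (O : Submodule W A) (hO : O.FG) (hspan : ∀ x : A, ∃ w : W, w ≠ 0 ∧ w • x ∈ O)
    (L : Submodule W A) (hL : L.FG) {x : A} (hx : x ∉ L) :
    ∃ φ : A →ₗ[K] K, (∀ l ∈ L, IW W (φ l)) ∧ ¬ IW W (φ x) := by
  obtain ⟨p, hp⟩ := IsDiscreteValuationRing.exists_irreducible W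
  have key : ∃ n : ℕ, x ∉ L ⊔ (p ^ n) • O := by
    by_contra hcon
    push Not at hcon
    apply hx
    let N : Submodule W (A ⧸ L) := O.map L.mkQ
    have hN : Module.Finite W N := Module.Finite.iff_fg.2 (hO.map _)
    have hmem : ∀ n : ℕ, ∃ o ∈ O, L.mkQ x = p ^ n • L.mkQ o := by
      intro n
      obtain ⟨l, hl, y, hy, hlx⟩ := Submodule.mem_sup.1 (hcon n)
      obtain ⟨o, ho, rfl⟩ := (Submodule.mem_smul_pointwise_iff_exists _ _ _).1 hy
      refine ⟨o, ho, ?_⟩
      rw [← hlx, map_add, map_smul]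
      have : L.mkQ l = 0 := (Submodule.Quotient.mk_eq_zero L).2 hl
      rw [this, zero_add]
    have hxN : L.mkQ x ∈ N := by
      obtain ⟨o, ho, h⟩ := hmem 0
      rw [pow_zero, one_smul] at h
      exact ⟨o, ho, h.symm⟩
    have hk := Ideal.iInf_pow_smul_eq_bot_of_isLocalRing (M := N) (Ideal.span {p})
      (by rw [Ne, Ideal.span_singleton_eq_top]; exact hp.not_isUnit)
    have h0 : (⟨L.mkQ x, hxN⟩ : N) ∈ (⊥ : Submodule W N) := by
      rw [← hk, Submodule.mem_iInf]
      intro n
      rw [Ideal.span_singleton_pow, Submodule.ideal_span_singleton_smul,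
        Submodule.mem_smul_pointwise_iff_exists]
      obtain ⟨o, ho, h⟩ := hmem n
      exact ⟨⟨L.mkQ o, ⟨o, ho, rfl⟩⟩, trivial, Subtype.ext h.symm⟩
    have h1 : L.mkQ x = 0 := by simpa using h0
    exact (Submodule.Quotient.mk_eq_zero L).1 h1
  obtain ⟨n, hn⟩ := key
  obtain ⟨φ, h1, h2⟩ := sep_full (K := K) (L ⊔ (p ^ n) • O) (hL.sup (hO.map _)) (by
    intro y
    obtain ⟨w, hw, hy⟩ := hspan y
    refine ⟨p ^ n * w, mul_ne_zero (pow_ne_zero _ hp.ne_zero) hw, ?_⟩
    rw [mul_smul]
    exact Submodule.mem_sup_right (Submodule.smul_mem_pointwise_smul _ _ _ hy)) hn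
  exact ⟨φ, fun l hl => h1 l (Submodule.mem_sup_left hl), h2⟩


section IWlemmas
omit [IsDomain W] [IsDiscreteValuationRing W] [IsFractionRing W K]

theorem IW.add {x y : K} (hx : IW W x) (hy : IW W y) : IW W (x + y) := by
  obtain ⟨a, rfl⟩ := hx
  obtain ⟨b, rfl⟩ := hy
  exact ⟨a + b, map_add _ _ _⟩

theorem IW.neg {x : K} (hx : IW W x) : IW W (-x) := by
  obtain ⟨a, rfl⟩ := hx
  exact ⟨-a, map_neg _ _⟩

theorem IW.sub {x y : K} (hx : IW W x) (hy : IW W y) : IW W (x - y) := by
  rw [sub_eq_add_neg]; exact hx.add hy.neg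

theorem IW.smul {x : K} (w : W) (hx : IW W x) : IW W (w • x) := by
  obtain ⟨a, rfl⟩ := hx
  exact ⟨w * a, by rw [map_mul, Algebra.smul_def]⟩

theorem IW.zero : IW W (0 : K) := ⟨0, map_zero _⟩

end IWlemmas

theorem tau_smul (τ : A →ₗ[K] K) (w : W) (x : A) : τ (w • x) = w • τ x := by
  rw [← algebraMap_smul K w x, map_smul, algebraMap_smul]

open Pointwise

/-- A symmetric order `O` in `A` with respect to the trace form `τ`. -/
structure SymOrder (O : Submodule W A) (τ : A →ₗ[K] K) : Prop where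
  one_mem : (1 : A) ∈ O
  mul_mem : ∀ x ∈ O, ∀ y ∈ O, x * y ∈ O
  fg : O.FG
  span : ∀ x : A, ∃ w : W, w ≠ 0 ∧ w • x ∈ O
  comm : ∀ x y, τ (x * y) = τ (y * x)
  int : ∀ x ∈ O, IW W (τ x)
  dual : ∀ x, (∀ z ∈ O, IW W (τ (x * z))) → x ∈ O

/-- A local idempotent `e` of the order `O`, with radical `r` of `e O e`. -/
structure LocalIdem (O : Submodule W A) (p : W) (e : A) (r : Submodule W A) : Prop where
  mem : e ∈ O
  idem : e * e = e
  r_le : r ≤ O
  r_left : ∀ n ∈ r, e * n = n
  r_right : ∀ n ∈ r, n * e = n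
  dec : ∀ x ∈ O, e * x = x → x * e = x → ∃ w : W, x - w • e ∈ r
  mul_r : ∀ n ∈ r, ∀ x ∈ O, e * x = x → x * e = x → x * n ∈ r ∧ n * x ∈ r
  p_mem : p • e ∈ r
  not_mem : e ∉ r
  nil : ∃ n : ℕ, r ^ n ≤ p • O

/-- The discrete valuation ring `O1` with maximal ideal `m = y O1 = O1 y` at the corner of the
idempotent `f`. -/
structure DvrCorner (O : Submodule W A) (τ : A →ₗ[K] K) (p : W) (f : A)
    (O1 m : Submodule W A) (y x : A) : Prop where
  idem : f * f = f
  left : ∀ u ∈ O1, f * u = u
  right : ∀ u ∈ O1, u * f = u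
  f_mem : f ∈ O1
  mul_mem : ∀ u ∈ O1, ∀ v ∈ O1, u * v ∈ O1
  m_le : m ≤ O1
  m_O : m ≤ O
  dec : ∀ u ∈ O1, ∃ w : W, u - w • f ∈ m
  not_mem : f ∉ m
  p_mem : p • f ∈ m
  mul_m : ∀ u ∈ O1, ∀ n ∈ m, u * n ∈ m ∧ n * u ∈ m
  unit : ∀ u ∈ O1, u ∉ m → ∃ v ∈ O1, u * v = f ∧ v * u = f
  y_mem : y ∈ m
  yx : y * x = f
  xy : x * y = f
  m_eq : ∀ u ∈ m, (∃ v ∈ O1, u = y * v) ∧ ∃ v ∈ O1, u = v * y
  nil : ∃ n : ℕ, y ^ n ∈ p • O1
  field : ∀ u : A, f * u = u → u * f = u → u ≠ 0 →
    ∃ v : A, f * v = v ∧ v * f = v ∧ u * v = f ∧ v * u = f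
  dualm : ∀ u : A, f * u = u → u * f = u → (∀ v ∈ O1, IW W (τ (u * v))) → u ∈ m
  tau_f : ¬ IW W (τ f)
  lift : ∀ u ∈ O1, ∃ v ∈ O, u = v * f

variable {O r : Submodule W A} {τ : A →ₗ[K] K} {p : W} {e : A}

include K in
/-- `τ` is nondegenerate. -/
theorem SymOrder.nondeg (hO : SymOrder O τ) {x : A} (h : ∀ z : A, τ (x * z) = 0) : x = 0 := by
  obtain ⟨q, hq⟩ := IsDiscreteValuationRing.exists_irreducible W
  let N : Submodule W A := (Submodule.span K {x}).restrictScalars W
  have hN : N ≤ O := by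
    intro y hy
    obtain ⟨c, rfl⟩ := Submodule.mem_span_singleton.1 hy
    apply hO.dual
    intro z _
    rw [smul_mul_assoc, map_smul, h z, smul_zero]
    exact IW.zero
  have h1 : N.FG := by
    have : Module.Finite W O := Module.Finite.iff_fg.2 hO.fg
    have : IsNoetherian W O := inferInstance
    exact Submodule.FG.of_le hO.fg hN
  have h2 : N = ⊥ := by
    refine Submodule.eq_bot_of_le_smul_of_le_jacobson_bot (Ideal.span {q}) N h1 ?_ ?_
    · intro y hy
      obtain ⟨c, rfl⟩ := Submodule.mem_span_singleton.1 hy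
      rw [Submodule.ideal_span_singleton_smul, Submodule.mem_smul_pointwise_iff_exists]
      have hq0 : algebraMap W K q ≠ 0 := by
        simpa using hq.ne_zero
      refine ⟨((algebraMap W K q)⁻¹ * c) • x, ?_, ?_⟩
      · exact Submodule.smul_mem _ _ (Submodule.mem_span_singleton_self x)
      · rw [← algebraMap_smul K q, smul_smul, mul_inv_cancel_left₀ hq0]
    · rw [IsLocalRing.jacobson_eq_maximalIdeal ⊥ bot_ne_top,
        Ideal.span_singleton_le_iff_mem]
      exact (IsLocalRing.mem_maximalIdeal q).2 hq.not_isUnit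
  have h3 : x ∈ N := Submodule.mem_span_singleton_self x
  rw [h2] at h3
  exact (Submodule.mem_bot W).1 h3

include K in
/-- Every functional is `τ (ξ * ·)`. -/
theorem SymOrder.repr (hO : SymOrder O τ) (φ : A →ₗ[K] K) : ∃ ξ : A, ∀ x, φ x = τ (ξ * x) := by
  let B : A →ₗ[K] (A →ₗ[K] K) := (LinearMap.mul K A).compr₂ τ
  have hinj : Function.Injective B := by
    rw [← LinearMap.ker_eq_bot, LinearMap.ker_eq_bot']
    intro x hx
    apply hO.nondeg
    intro z
    exact LinearMap.congr_fun hx z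
  have hsurj : Function.Surjective B :=
    (LinearMap.injective_iff_surjective_of_finrank_eq_finrank
      (Subspace.dual_finrank_eq (K := K) (V := A)).symm).1 hinj
  obtain ⟨ξ, hξ⟩ := hsurj φ
  exact ⟨ξ, fun x => by rw [← hξ]; rfl⟩

include K in
/-- Separation of a point from a finitely generated lattice by `τ (ξ * ·)`. -/
theorem SymOrder.sep (hO : SymOrder O τ) (L : Submodule W A) (hL : L.FG) {x : A} (hx : x ∉ L) :
    ∃ ξ : A, (∀ l ∈ L, IW W (τ (ξ * l))) ∧ ¬ IW W (τ (ξ * x)) := by
  obtain ⟨φ, h1, h2⟩ := PDt.sep (K := K) O hO.fg hO.span L hL hx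
  obtain ⟨ξ, hξ⟩ := hO.repr φ
  exact ⟨ξ, fun l hl => hξ l ▸ h1 l hl, hξ x ▸ h2⟩

include K in
theorem fg_le (hO : SymOrder O τ) {L : Submodule W A} (h : L ≤ O) : L.FG := by
  have : Module.Finite W O := Module.Finite.iff_fg.2 hO.fg
  exact Submodule.FG.of_le hO.fg h


/-- The corner `e O e` (for an idempotent `e` in `O`). -/
def corner (O : Submodule W A) (e : A) : Submodule W A where
  carrier := {x | x ∈ O ∧ e * x = x ∧ x * e = x}
  add_mem' := by
    rintro a b ⟨h1, h2, h3⟩ ⟨h4, h5, h6⟩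
    exact ⟨O.add_mem h1 h4, by rw [mul_add, h2, h5], by rw [add_mul, h3, h6]⟩
  zero_mem' := ⟨O.zero_mem, mul_zero _, zero_mul _⟩
  smul_mem' := by
    rintro c x ⟨h1, h2, h3⟩
    exact ⟨O.smul_mem c h1, by rw [mul_smul_comm, h2], by rw [smul_mul_assoc, h3]⟩

theorem mem_corner {x : A} : x ∈ corner O e ↔ x ∈ O ∧ e * x = x ∧ x * e = x := Iff.rfl

include K in
theorem corner_mul (hO : SymOrder O τ) {x y : A} (hx : x ∈ corner O e) (hy : y ∈ corner O e) :
    x * y ∈ corner O e :=
  ⟨hO.mul_mem x hx.1 y hy.1, by rw [← mul_assoc, hx.2.1], by rw [mul_assoc, hy.2.2]⟩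

theorem LocalIdem.r_corner (he : LocalIdem O p e r) {n : A} (hn : n ∈ r) : n ∈ corner O e :=
  ⟨he.r_le hn, he.r_left n hn, he.r_right n hn⟩

theorem LocalIdem.e_corner (he : LocalIdem O p e r) : e ∈ corner O e :=
  ⟨he.mem, he.idem, he.idem⟩

theorem LocalIdem.pow_succ_le (he : LocalIdem O p e r) (n : ℕ) : r ^ (n + 1) ≤ r := by
  induction n with
  | zero => rw [zero_add, pow_one]
  | succ n ih =>
    rw [pow_succ, Submodule.mul_le]
    intro a ha b hb
    have ha' := he.r_corner (ih ha)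
    exact (he.mul_r b hb a ha'.1 ha'.2.1 ha'.2.2).1

theorem LocalIdem.e_ne (he : LocalIdem O p e r) : e ≠ 0 := fun h =>
  he.not_mem (h ▸ r.zero_mem)

include K in
/-- Some power of the radical lies in `p e O e`. -/
theorem LocalIdem.nil' (hO : SymOrder O τ) (he : LocalIdem O p e r) :
    ∃ n : ℕ, ∀ x ∈ r ^ (n + 1), ∃ u ∈ corner O e, x = p • u := by
  obtain ⟨n, hn⟩ := he.nil
  refine ⟨n, fun x hx => ?_⟩
  have h1 : x ∈ p • O := by
    rw [pow_succ] at hx
    refine (Submodule.mul_le.2 ?_ : r ^ n * r ≤ p • O) hx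
    intro a ha b hb
    obtain ⟨o, ho, rfl⟩ := (Submodule.mem_smul_pointwise_iff_exists _ _ _).1 (hn ha)
    rw [smul_mul_assoc]
    exact Submodule.smul_mem_pointwise_smul _ _ _ (hO.mul_mem _ ho _ (he.r_le hb))
  obtain ⟨o, ho, rfl⟩ := (Submodule.mem_smul_pointwise_iff_exists _ _ _).1 h1
  have h2 := he.r_corner (he.pow_succ_le n hx)
  refine ⟨e * o * e, ⟨hO.mul_mem _ (hO.mul_mem _ he.mem _ ho) _ he.mem, ?_, ?_⟩, ?_⟩
  · rw [← mul_assoc, ← mul_assoc, he.idem]
  · rw [mul_assoc, he.idem]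
  · conv_lhs => rw [← h2.2.2, ← h2.2.1]
    rw [mul_smul_comm, smul_mul_assoc]

theorem p_jac (hp : Irreducible p) : Ideal.span {p} ≤ Ideal.jacobson (⊥ : Ideal W) := by
  rw [IsLocalRing.jacobson_eq_maximalIdeal ⊥ bot_ne_top, Ideal.span_singleton_le_iff_mem]
  exact (IsLocalRing.mem_maximalIdeal p).2 hp.not_isUnit

theorem dvd_of_not_unit (hp : Irreducible p) {w : W} (hw : ¬ IsUnit w) : p ∣ w := by
  have h := (IsLocalRing.mem_maximalIdeal w).2 hw
  rw [hp.maximalIdeal_eq] at h
  exact Ideal.mem_span_singleton.1 h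

theorem LocalIdem.w_unit (hp : Irreducible p) (he : LocalIdem O p e r) {x : A} {w : W}
    (hw : x - w • e ∈ r) (hx : x ∉ r) : IsUnit w := by
  by_contra hu
  obtain ⟨v, rfl⟩ := dvd_of_not_unit hp hu
  apply hx
  have h := r.add_mem hw (r.smul_mem v he.p_mem)
  rwa [smul_smul, mul_comm v p, sub_add_cancel] at h

include K in
theorem corner_inv {e x v : A} (he : e * e = e) (h1 : e * x = x) (h2 : x * e = x)
    (h3 : e * v = v) (h4 : v * e = v) (h : x * v = e) : v * x = e := by
  have : IsArtinianRing A := IsArtinianRing.of_finite K A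
  have h5 : (x + (1 - e)) * (v + (1 - e)) = 1 := by
    have : (x + (1 - e)) * (v + (1 - e)) = x * v + (x - x * e) + (v - e * v) +
      (1 - e - e + e * e) := by
      simp only [add_mul, mul_add, sub_mul, mul_sub, one_mul, mul_one]
      abel
    rw [this, h, h2, h3, he]
    abel
  have h6 := mul_eq_one_comm.1 h5
  have h7 : (v + (1 - e)) * (x + (1 - e)) = v * x + (v - v * e) + (x - e * x) +
      (1 - e - e + e * e) := by
    simp only [add_mul, mul_add, sub_mul, mul_sub, one_mul, mul_one]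
    abel
  rw [h7, h4, h1, he] at h6
  calc v * x = (v * x + (v - v) + (x - x) + (1 - e - e + e)) - (1 - e) := by abel
    _ = 1 - (1 - e) := by rw [h6]
    _ = e := by abel

include K in
/-- Elements of `e O e` outside the radical are units. -/
theorem LocalIdem.unit (hO : SymOrder O τ) (hp : Irreducible p) (he : LocalIdem O p e r)
    {x : A} (hx : x ∈ corner O e) (hxr : x ∉ r) :
    ∃ v ∈ corner O e, x * v = e ∧ v * x = e := by
  obtain ⟨w, hw⟩ := he.dec x hx.1 hx.2.1 hx.2.2
  obtain ⟨w, rfl⟩ := he.w_unit hp hw hxr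
  set R := corner O e with hR
  let N : Submodule W A := R.map (LinearMap.mulLeft W x)
  have hRO : R ≤ O := fun y hy => hy.1
  have step : ∀ (S : Submodule W A), S ≤ R → S ≤ N ⊔ r * S := by
    intro S hS u hu
    have hx' : u = x * (((w⁻¹ : Wˣ) : W) • u) - ((w⁻¹ : Wˣ) : W) • ((x - (w : W) • e) * u) := by
      have h1 : e * u = u := (hS hu).2.1
      rw [sub_mul, smul_mul_assoc, h1, smul_sub, smul_smul, Units.inv_mul, one_smul,
        mul_smul_comm]
      abel
    rw [hx']
    refine Submodule.sub_mem _ (Submodule.mem_sup_left ⟨_, R.smul_mem _ (hS hu), rfl⟩)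
      (Submodule.mem_sup_right (Submodule.smul_mem _ _ (Submodule.mul_mem_mul hw hu)))
  have hrR : ∀ S : Submodule W A, S ≤ R → r * S ≤ R := by
    intro S hS
    rw [Submodule.mul_le]
    intro a ha b hb
    exact corner_mul hO (he.r_corner ha) (hS hb)
  have hpowR : ∀ j : ℕ, r ^ j * R ≤ R := by
    intro j
    induction j with
    | zero => rw [pow_zero, one_mul]
    | succ j ih => rw [pow_succ', mul_assoc]; exact hrR _ ih
  have hall : ∀ j : ℕ, R ≤ N ⊔ r ^ j * R := by
    intro j
    induction j with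
    | zero => rw [pow_zero, one_mul]; exact le_sup_right
    | succ j ih =>
      refine ih.trans (sup_le le_sup_left ?_)
      rw [pow_succ', mul_assoc]
      exact step _ (hpowR j)
  obtain ⟨n, hn⟩ := he.nil' hO
  have hNak : R ≤ N := by
    refine Submodule.le_of_le_smul_of_le_jacobson_bot (fg_le hO hRO) (p_jac hp) ?_
    refine (hall (n + 1)).trans (sup_le_sup_left ?_ _)
    rw [Submodule.mul_le, Submodule.ideal_span_singleton_smul]
    intro a ha b hb
    obtain ⟨u, hu, rfl⟩ := hn a ha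
    rw [smul_mul_assoc]
    exact Submodule.smul_mem_pointwise_smul _ _ _ (corner_mul hO hu hb)
  obtain ⟨v, hv, hxv⟩ := hNak he.e_corner
  have hxv' : x * v = e := hxv
  exact ⟨v, hv, hxv', corner_inv (K := K) he.idem hx.2.1 hx.2.2 hv.2.1 hv.2.2 hxv'⟩


/-- The lattice `e O f`. -/
def lat (O : Submodule W A) (e f : A) : Submodule W A :=
  O.map (LinearMap.mulLeft W e ∘ₗ LinearMap.mulRight W f)

theorem mem_lat {f α : A} : α ∈ lat O e f ↔ ∃ o ∈ O, e * (o * f) = α := Iff.rfl

variable {f : A} {O1 m : Submodule W A} {y x1 : A}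

section lat
variable (hO : SymOrder O τ) (hp : Irreducible p) (he : LocalIdem O p e r)
  (hf : DvrCorner O τ p f O1 m y x1)

include he in
theorem lat_left {α : A} (h : α ∈ lat O e f) : e * α = α := by
  obtain ⟨o, _, rfl⟩ := h
  change e * (e * (o * f)) = e * (o * f)
  rw [← mul_assoc, he.idem]

include hf in
theorem lat_right {α : A} (h : α ∈ lat O e f) : α * f = α := by
  obtain ⟨o, _, rfl⟩ := h
  change e * (o * f) * f = e * (o * f)
  rw [mul_assoc, mul_assoc, hf.idem]

include hO hf in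
theorem lat_O1 {α u : A} (h : α ∈ lat O e f) (hu : u ∈ O1) : α * u ∈ lat O e f := by
  obtain ⟨o, ho, rfl⟩ := h
  obtain ⟨v, hv, hv'⟩ := hf.lift u hu
  refine ⟨o * v, hO.mul_mem o ho v hv, ?_⟩
  change e * (o * v * f) = e * (o * f) * u
  rw [mul_assoc o v f, ← hv', mul_assoc, mul_assoc, hf.left u hu]

include hO he in
theorem lat_R {α n : A} (hn : n ∈ corner O e) (h : α ∈ lat O e f) : n * α ∈ lat O e f := by
  obtain ⟨o, ho, rfl⟩ := h
  refine ⟨n * o, hO.mul_mem n hn.1 o ho, ?_⟩
  change e * (n * o * f) = n * (e * (o * f))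
  rw [← mul_assoc n e, hn.2.2, mul_assoc n o f, ← mul_assoc e n, hn.2.1]

include hO in
theorem lat_fg : (lat O e f).FG := hO.fg.map _

include hO in
theorem lat_full {β : A} (h1 : e * β = β) (h2 : β * f = β) :
    ∃ w : W, w ≠ 0 ∧ w • β ∈ lat O e f := by
  obtain ⟨w, hw, hb⟩ := hO.span β
  refine ⟨w, hw, w • β, hb, ?_⟩
  change e * ((w • β) * f) = w • β
  rw [smul_mul_assoc, mul_smul_comm, h2, h1]

include hO in
theorem dual_O {l : A} (h1 : f * l = l) (h2 : l * e = l)
    (h : ∀ α ∈ lat O e f, IW W (τ (l * α))) : l ∈ O := by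
  apply hO.dual
  intro o ho
  have := h (e * (o * f)) ⟨o, ho, rfl⟩
  rw [← mul_assoc l e, h2, ← mul_assoc, hO.comm, ← mul_assoc, h1] at this
  exact this

include hO hf in
/-- A functional `l` that is integral on a right `O1`-stable set maps it to `m`. -/
theorem dual_m {l : A} (h1 : f * l = l) (L : Submodule W A) (hL : ∀ α ∈ L, α * f = α)
    (hLO : ∀ α ∈ L, ∀ u ∈ O1, α * u ∈ L)
    (h : ∀ α ∈ L, IW W (τ (l * α))) : ∀ α ∈ L, l * α ∈ m := by
  intro α hα
  apply hf.dualm
  · rw [← mul_assoc, h1]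
  · rw [mul_assoc, hL α hα]
  · intro u hu
    rw [mul_assoc]
    exact h _ (hLO α hα u hu)

/-- The sublattice `e O f y`. -/
def laty (O : Submodule W A) (e f y : A) : Submodule W A :=
  (lat O e f).map (LinearMap.mulRight W y)

include hO hf in
theorem laty_le : laty O e f y ≤ lat O e f := by
  rintro _ ⟨α, hα, rfl⟩
  exact lat_O1 hO hf hα (hf.m_le hf.y_mem)

include hO hf in
theorem lat_m {α u : A} (h : α ∈ lat O e f) (hu : u ∈ m) : α * u ∈ laty O e f y := by
  obtain ⟨-, v, hv, rfl⟩ := hf.m_eq u hu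
  exact ⟨α * v, lat_O1 hO hf h hv, by
    change α * v * y = α * (v * y)
    rw [mul_assoc]⟩

include hO hf in
theorem p_laty {α : A} (h : α ∈ lat O e f) : p • α ∈ laty O e f y := by
  have := lat_m hO hf h hf.p_mem
  rwa [mul_smul_comm, lat_right hf h] at this

include hO hf in
theorem laty_O1 {β u : A} (h : β ∈ laty O e f y) (hu : u ∈ O1) : β * u ∈ laty O e f y := by
  obtain ⟨α, hα, rfl⟩ := h
  have := lat_m hO hf hα (hf.mul_m u hu y hf.y_mem).2
  rwa [← mul_assoc] at this

include hO he in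
theorem laty_R {β n : A} (hn : n ∈ corner O e) (h : β ∈ laty O e f y) :
    n * β ∈ laty O e f y := by
  obtain ⟨α, hα, rfl⟩ := h
  exact ⟨n * α, lat_R hO he hn hα, by
    change n * α * y = n * (α * y)
    rw [mul_assoc]⟩

include hO hp hf in
/-- Nakayama's lemma for `e O f`, first form. -/
theorem lat_nak (h : lat O e f ≤ laty O e f y) : lat O e f = ⊥ := by
  have hall : ∀ j : ℕ, ∀ α ∈ lat O e f, ∃ β ∈ lat O e f, α = β * y ^ j := by
    intro j
    induction j with
    | zero => intro α hα; exact ⟨α, hα, by rw [pow_zero, mul_one]⟩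
    | succ j ih =>
      intro α hα
      obtain ⟨β, hβ, rfl⟩ := ih α hα
      obtain ⟨γ, hγ, rfl⟩ := h hβ
      exact ⟨γ, hγ, by
        change γ * y * y ^ j = γ * y ^ (j + 1)
        rw [mul_assoc, pow_succ']⟩
  obtain ⟨n, hn⟩ := hf.nil
  obtain ⟨u, hu, hu'⟩ := (Submodule.mem_smul_pointwise_iff_exists _ _ _).1 hn
  refine Submodule.eq_bot_of_le_smul_of_le_jacobson_bot (Ideal.span {p}) _ (lat_fg hO) ?_
    (p_jac hp)
  intro α hα
  obtain ⟨β, hβ, rfl⟩ := hall n α hα
  rw [Submodule.ideal_span_singleton_smul, ← hu', mul_smul_comm]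
  exact Submodule.smul_mem_pointwise_smul _ _ _ (lat_O1 hO hf hβ hu)

include hO hf he in
/-- A power of the radical maps `e O f` to `e O f y`. -/
theorem pow_lat : ∃ n : ℕ, r ^ n * lat O e f ≤ laty O e f y := by
  obtain ⟨n, hn⟩ := he.nil' hO
  refine ⟨n + 1, Submodule.mul_le.2 ?_⟩
  intro a ha b hb
  obtain ⟨u, hu, rfl⟩ := hn a ha
  rw [smul_mul_assoc]
  exact p_laty hO hf (lat_R hO he hu hb)

include hO he in
theorem pow_lat_le (n : ℕ) : r ^ n * lat O e f ≤ lat O e f := by
  induction n with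
  | zero => rw [pow_zero, one_mul]
  | succ n ih =>
    rw [pow_succ', mul_assoc, Submodule.mul_le]
    intro a ha b hb
    exact lat_R hO he (he.r_corner ha) (ih hb)

include hO hf he in
/-- Nakayama's lemma for `e O f`, second form. -/
theorem lat_nak2 (h : lat O e f ≤ r * lat O e f ⊔ laty O e f y) :
    lat O e f ≤ laty O e f y := by
  have hry : r * laty O e f y ≤ laty O e f y :=
    Submodule.mul_le.2 fun a ha b hb => laty_R hO he (he.r_corner ha) hb
  have hall : ∀ j : ℕ, lat O e f ≤ r ^ j * lat O e f ⊔ laty O e f y := by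
    intro j
    induction j with
    | zero => rw [pow_zero, one_mul]; exact le_sup_left
    | succ j ih =>
      refine h.trans (sup_le ?_ le_sup_right)
      refine (Submodule.mul_le.2 (fun a ha b hb => Submodule.mul_mem_mul ha (ih hb)) :
        r * lat O e f ≤ r * (r ^ j * lat O e f ⊔ laty O e f y)).trans ?_
      rw [Submodule.mul_sup, ← mul_assoc, ← pow_succ']
      exact sup_le_sup_left hry _
  obtain ⟨n, hn⟩ := pow_lat hO he hf
  exact (hall n).trans (sup_le hn le_rfl)

include hO hf he in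
/-- Separation: a left `O1`-linear form on `e O f`. -/
theorem lat_sep (L : Submodule W A) (hLa : L ≤ lat O e f) (hLy : laty O e f y ≤ L)
    (hLO : ∀ α ∈ L, ∀ u ∈ O1, α * u ∈ L) {α : A} (hα : α ∈ lat O e f) (hαL : α ∉ L) :
    ∃ l : A, f * l = l ∧ l * e = l ∧ (∀ β ∈ lat O e f, l * β ∈ O1) ∧
      (∀ β ∈ L, l * β ∈ m) ∧ l * α = f := by
  have hLfg : L.FG := by
    have : Module.Finite W (lat O e f) := Module.Finite.iff_fg.2 (lat_fg hO)
    exact Submodule.FG.of_le (lat_fg hO) hLa
  obtain ⟨ξ, h1, h2⟩ := hO.sep L hLfg hαL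
  have h3 : ∀ β ∈ lat O e f, τ (f * ξ * e * β) = τ (ξ * β) := by
    intro β hβ
    rw [mul_assoc (f * ξ), lat_left he hβ, mul_assoc, hO.comm, mul_assoc, lat_right hf hβ]
  have hfl : f * (f * ξ * e) = f * ξ * e := by
    rw [← mul_assoc, ← mul_assoc, hf.idem]
  have hle : f * ξ * e * e = f * ξ * e := by rw [mul_assoc, he.idem]
  have hm : ∀ β ∈ L, f * ξ * e * β ∈ m :=
    dual_m hO hf hfl L (fun β hβ => lat_right hf (hLa hβ)) hLO
      (fun β hβ => by rw [h3 β (hLa hβ)]; exact h1 β hβ)
  have hO1 : ∀ β ∈ lat O e f, f * ξ * e * β ∈ O1 := by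
    intro β hβ
    obtain ⟨-, v, hv, hv'⟩ := hf.m_eq _ (hm (β * y) (hLy ⟨β, hβ, rfl⟩))
    have : f * ξ * e * β = v := by
      have h5 : f * ξ * e * (β * y) * x1 = v * y * x1 := by rw [hv']
      rw [mul_assoc v, hf.yx, hf.right v hv, mul_assoc, mul_assoc β y x1, hf.yx,
        lat_right hf hβ] at h5
      exact h5
    rw [this]; exact hv
  have hnot : f * ξ * e * α ∉ m := by
    intro h4
    apply h2
    rw [← h3 α hα]
    exact hO.int _ (hf.m_O h4)
  obtain ⟨v, hv, -, hv2⟩ := hf.unit _ (hO1 α hα) hnot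
  refine ⟨v * (f * ξ * e), ?_, ?_, ?_, ?_, ?_⟩
  · rw [← mul_assoc, hf.left v hv]
  · rw [mul_assoc, hle]
  · intro β hβ
    rw [mul_assoc]
    exact hf.mul_mem v hv _ (hO1 β hβ)
  · intro β hβ
    rw [mul_assoc]
    exact (hf.mul_m v hv _ (hm β hβ)).1
  · rw [mul_assoc]; exact hv2

end lat


section EL
variable (hO : SymOrder O τ) (hp : Irreducible p) (h2 : IsUnit (2 : W))
  (he : LocalIdem O p e r) (hf : DvrCorner O τ p f O1 m y x1)

include hO he in
/-- Integrality on `e O e` of an element of `e A e`. -/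
theorem mem_of_int {x : A} (h1 : e * x = x) (h2 : x * e = x) (h3 : IW W (τ x))
    (h4 : ∀ n ∈ r, IW W (τ (x * n))) : x ∈ O := by
  apply hO.dual
  intro o ho
  have ho' : e * o * e ∈ O := hO.mul_mem _ (hO.mul_mem _ he.mem _ ho) _ he.mem
  obtain ⟨w, hw⟩ := he.dec (e * o * e) ho' (by rw [← mul_assoc, ← mul_assoc, he.idem])
    (by rw [mul_assoc, he.idem])
  have h5 : τ (x * o) = w • τ x + τ (x * (e * o * e - w • e)) := by
    rw [mul_sub, map_sub, mul_smul_comm, h2, tau_smul, add_sub_cancel]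
    rw [← mul_assoc, ← mul_assoc, h2, hO.comm (x * o) e, ← mul_assoc, h1]
  rw [h5]
  exact (h3.smul w).add (h4 _ hw)

include hO hp he in
/-- (iv): two functionals on `e O e` that are integral on the radical are proportional. -/
theorem prop_of_int {x z : A} (hx1 : e * x = x) (hx2 : x * e = x) (hz1 : e * z = z)
    (hz2 : z * e = z) (hx : ¬ IW W (τ x)) (hxr : ∀ n ∈ r, IW W (τ (x * n)))
    (hzr : ∀ n ∈ r, IW W (τ (z * n))) :
    ∃ w : W, z - w • x ∈ O ∧ w • τ x = τ z := by
  have hpx : IW W (p • τ x) := by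
    have := hxr _ he.p_mem
    rwa [mul_smul_comm, hx2, tau_smul] at this
  have hpz : IW W (p • τ z) := by
    have := hzr _ he.p_mem
    rwa [mul_smul_comm, hz2, tau_smul] at this
  obtain ⟨a, ha⟩ := hpx
  obtain ⟨b, hb⟩ := hpz
  have hp0 : algebraMap W K p ≠ 0 := by simpa using hp.ne_zero
  have hau : IsUnit a := by
    by_contra hu
    obtain ⟨c, rfl⟩ := dvd_of_not_unit hp hu
    apply hx
    refine ⟨c, ?_⟩
    rw [map_mul, Algebra.smul_def] at ha
    exact mul_left_cancel₀ hp0 ha
  obtain ⟨a, rfl⟩ := hau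
  have hw : (b * ((a⁻¹ : Wˣ) : W)) • τ x = τ z := by
    have h1 : algebraMap W K p * ((b * ((a⁻¹ : Wˣ) : W)) • τ x) = algebraMap W K p * τ z := by
      rw [← Algebra.smul_def, ← Algebra.smul_def, ← hb, smul_comm, ← ha, Algebra.smul_def,
        ← map_mul, mul_assoc, Units.inv_mul, mul_one]
    exact mul_left_cancel₀ hp0 h1
  refine ⟨b * ((a⁻¹ : Wˣ) : W), ?_, hw⟩
  apply mem_of_int hO he
  · rw [mul_sub, hz1, mul_smul_comm, hx1]
  · rw [sub_mul, hz2, smul_mul_assoc, hx2]
  · rw [map_sub, tau_smul, hw, sub_self]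
    exact IW.zero
  · intro n hn
    rw [sub_mul, map_sub, smul_mul_assoc, tau_smul]
    exact (hzr n hn).sub ((hxr n hn).smul _)

include hO he hf in
/-- (v), first part. -/
theorem no_factor1 {l β : A} (hl1 : f * l = l) (hl2 : l * e = l) (hβ2 : β * f = β) :
    β * l ≠ e := by
  intro h
  have h1 : f * (l * β) = l * β := by rw [← mul_assoc, hl1]
  have h2 : l * β * f = l * β := by rw [mul_assoc, hβ2]
  have h3 : l * β = f := by
    by_contra hne
    obtain ⟨v, -, hv2, -, hv⟩ := hf.field (l * β - f) (by rw [mul_sub, h1, hf.idem])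
      (by rw [sub_mul, h2, hf.idem]) (sub_ne_zero.2 hne)
    have h4 : (l * β - f) * l = 0 := by
      rw [sub_mul, mul_assoc, h, hl2, hl1, sub_self]
    have h5 : l = 0 := by
      rw [← hl1, ← hv, mul_assoc, h4, mul_zero]
    exact he.e_ne (by rw [← h, h5, mul_zero])
  apply hf.tau_f
  rw [← h3, hO.comm, h]
  exact hO.int _ he.mem

include hO h2 he hf in
/-- (v), second part. -/
theorem no_factor2 {l l' β γ : A} (hl1 : f * l = l) (hl2 : l * e = l) (hβ2 : β * f = β)
    (hl1' : f * l' = l') (hl2' : l' * e = l') (hγ2 : γ * f = γ) :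
    β * l + γ * l' ≠ e := by
  intro h
  have key : ∀ {l l' β γ : A}, f * l = l → l * e = l → β * f = β → f * l' = l' →
      l' * e = l' → γ * f = γ → β * l + γ * l' = e → l * β = f := by
    intro l l' β γ hl1 hl2 hβ2 hl1' hl2' hγ2 h
    by_contra hne
    have h1 : f * (l * β) = l * β := by rw [← mul_assoc, hl1]
    have h2 : l * β * f = l * β := by rw [mul_assoc, hβ2]
    obtain ⟨v, -, hv2, -, hv⟩ := hf.field (l * β - f) (by rw [mul_sub, h1, hf.idem])
      (by rw [sub_mul, h2, hf.idem]) (sub_ne_zero.2 hne)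
    have h4 : (l * β - f) * l = -((l * γ) * l') := by
      have h5 : l * (β * l + γ * l') = l := by rw [h, hl2]
      rw [mul_add] at h5
      rw [sub_mul, hl1, mul_assoc, mul_assoc l γ l']
      rw [eq_neg_iff_add_eq_zero, sub_add_eq_add_sub, h5, sub_self]
    have h5 : l = -(v * (l * γ) * l') := by
      calc l = f * l := hl1.symm
        _ = v * ((l * β - f) * l) := by rw [← mul_assoc, hv]
        _ = -(v * (l * γ) * l') := by rw [h4, mul_neg, mul_assoc v]
    apply no_factor1 hO he hf hl1' hl2' (β := γ - β * v * (l * γ)) (by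
      rw [sub_mul, hγ2, mul_assoc, mul_assoc l, hγ2])
    rw [sub_mul]
    have h6 : β * v * (l * γ) * l' = -(β * l) := by
      calc β * v * (l * γ) * l' = -(β * -(v * (l * γ) * l')) := by
            rw [mul_neg, neg_neg]
            simp only [mul_assoc]
        _ = -(β * l) := by rw [← h5]
    rw [h6, sub_neg_eq_add, add_comm, h]
  have h3 := key hl1 hl2 hβ2 hl1' hl2' hγ2 h
  have h4 := key hl1' hl2' hγ2 hl1 hl2 hβ2 (by rw [add_comm, h])
  apply hf.tau_f
  have h5 : τ e = (2 : W) • τ f := by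
    rw [← h, map_add, hO.comm β l, hO.comm γ l', h3, h4, two_smul]
  obtain ⟨t, ht⟩ := h2
  obtain ⟨b, hb⟩ := hO.int _ he.mem
  refine ⟨((t⁻¹ : Wˣ) : W) * b, ?_⟩
  rw [map_mul, hb, h5, ← Algebra.smul_def, smul_smul, ← ht, Units.inv_mul, one_smul]


include hO he in
theorem lat_ne_bot {z : A} (hzc : ∀ x, z * x = x * z)
    (hzs : z ∈ Submodule.span K {t : A | ∃ a b, t = a * f * b}) (hze : z * e ≠ 0) :
    lat O e f ≠ ⊥ := by
  intro h
  have tfr : Module.IsTorsionFree W A := tf (K := K)
  have h1 : ∀ x : A, e * (x * f) = 0 := by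
    intro x
    obtain ⟨w, hw, hx⟩ := hO.span x
    have h3 : e * ((w • x) * f) ∈ lat O e f := ⟨_, hx, rfl⟩
    rw [h, Submodule.mem_bot, smul_mul_assoc, mul_smul_comm] at h3
    exact (smul_eq_zero.1 h3).resolve_left hw
  apply hze
  rw [hzc]
  have h4 : Submodule.span K {t : A | ∃ a b, t = a * f * b} ≤
      LinearMap.ker (LinearMap.mulLeft K e) := by
    rw [Submodule.span_le]
    rintro _ ⟨a, b, rfl⟩
    change e * (a * f * b) = 0
    rw [← mul_assoc, h1, zero_mul]
  exact h4 hzs

include hO hp he hf in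
theorem EL_key (hne : lat O e f ≠ ⊥) : ∃ α ∈ lat O e f, ∃ l : A, f * l = l ∧ l * e = l ∧
    (∀ β ∈ lat O e f, l * β ∈ O1) ∧ (∀ n ∈ r, ∀ β ∈ lat O e f, l * (n * β) ∈ m) ∧
    l * α = f := by
  have h1 : ¬ lat O e f ≤ r * lat O e f ⊔ laty O e f y := fun h =>
    hne (lat_nak hO hp hf (lat_nak2 hO he hf h))
  obtain ⟨α, hα, hα'⟩ := Set.not_subset.1 h1
  obtain ⟨l, h2, h3, h4, h5, h6⟩ := lat_sep hO he hf (r * lat O e f ⊔ laty O e f y)
    (sup_le (Submodule.mul_le.2 fun a ha b hb => lat_R hO he (he.r_corner ha) hb)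
      (laty_le hO hf)) le_sup_right (by
      intro a ha u hu
      have h7 : r * lat O e f ⊔ laty O e f y ≤
          (r * lat O e f ⊔ laty O e f y).comap (LinearMap.mulRight W u) := by
        refine sup_le (Submodule.mul_le.2 ?_) ?_
        · intro a ha b hb
          refine Submodule.mem_sup_left ?_
          change a * b * u ∈ _
          rw [mul_assoc]
          exact Submodule.mul_mem_mul ha (lat_O1 hO hf hb hu)
        · intro b hb
          exact Submodule.mem_sup_right (laty_O1 hO hf hb hu)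
      exact h7 ha) hα hα'
  exact ⟨α, hα, l, h2, h3, h4, fun n hn β hβ =>
    h5 _ (Submodule.mem_sup_left (Submodule.mul_mem_mul hn hβ)), h6⟩

include hO hp he in
/-- In the quotient ring `g e O e` of the local ring `e O e` an idempotent is `0` or `g`. -/
theorem idem_quot {g t u : A} (hg : g * g = g) (hgc : ∀ v ∈ corner O e, g * v = v * g)
    (hge : g * e = g) (hu : u ∈ corner O e) (ht : t = g * u) (htt : t * t = t) :
    t = 0 ∨ t = g := by
  have hgt : g * t = t := by rw [ht, ← mul_assoc, hg]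
  have htg : t * g = t := by rw [ht, mul_assoc, ← hgc u hu, ← mul_assoc, hg]
  by_cases hur : u ∈ r
  · left
    have h1 : e - u ∈ corner O e := (corner O e).sub_mem he.e_corner hu
    have h2 : e - u ∉ r := by
      intro h
      apply he.not_mem
      have := r.add_mem h hur
      rwa [sub_add_cancel] at this
    obtain ⟨v, hv, hv1, -⟩ := he.unit hO hp h1 h2
    have h3 : t * (e - u) = 0 := by
      have h4 : t * e = t := by rw [← htg, mul_assoc, hge]
      rw [mul_sub, h4]
      have h5 : t * u = t * t := by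
        conv_rhs => rw [ht]
        rw [← mul_assoc, ← ht, htg]
      rw [h5, htt, sub_self]
    have h6 : t * e = 0 := by rw [← hv1, ← mul_assoc, h3, zero_mul]
    rw [← htg, ← hge, hgc e he.e_corner, ← mul_assoc, h6, zero_mul]
  · right
    obtain ⟨v, hv, hv1, hv2⟩ := he.unit hO hp hu hur
    have h3 : t * v = g := by
      rw [ht, mul_assoc, hv1, hge]
    have h4 : t * g = g := by
      rw [← h3, ← mul_assoc, htt]
    rw [← htg, h4]

include hO hp he hf in
/-- Case A of the edge lemma. -/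
theorem EL_A (hne : lat O e f ≠ ⊥) {g : A} (hg : g * g = g)
    (hgc : ∀ v : A, e * v = v → v * e = v → g * v = v * g) (hge : g * e = g) (heg : e * g = g)
    (hgl : ∀ α : A, e * α = α → α * f = α → g * α = α)
    (hgr : ∀ l : A, f * l = l → l * e = l → l * g = l) (hgO : g ∉ O) :
    (∀ n ∈ r, g * n ∈ O) ∧ ∃ α l : A, e * α = α ∧ α * f = α ∧ f * l = l ∧ l * e = l ∧
      l * α = f ∧ α * l = g := by
  obtain ⟨α, hα, l, hl1, hl2, hlO, hlr, hlα⟩ := EL_key hO hp he hf hne
  have hα1 : e * α = α := lat_left he hα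
  have hα2 : α * f = α := lat_right hf hα
  have hgc' : ∀ v ∈ corner O e, g * v = v * g := fun v hv => hgc v hv.2.1 hv.2.2
  have ht : α * l * (α * l) = α * l := by
    rw [mul_assoc, ← mul_assoc l, hlα, hl1]
  have hgt : g * (α * l) = α * l := by rw [← mul_assoc, hgl α hα1 hα2]
  have htg : α * l * g = α * l := by rw [mul_assoc, hgr l hl1 hl2]
  have hτt : τ (α * l) = τ f := by rw [hO.comm, hlα]
  -- the lattice `g e O e`
  let L : Submodule W A := (corner O e).map (LinearMap.mulLeft W g)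
  have hL : α * l ∈ L := by
    by_contra hL
    have hcfg : (corner O e).FG := fg_le hO (fun x hx => hx.1)
    obtain ⟨ξ, h1, h3⟩ := hO.sep L (hcfg.map _) hL
    apply h3
    set x := g * ξ * g with hx
    have hex : e * x = x := by rw [hx, ← mul_assoc, ← mul_assoc, heg]
    have hxe : x * e = x := by rw [hx, mul_assoc, hge]
    have hgx : g * x = x := by rw [hx, ← mul_assoc, ← mul_assoc, hg]
    have hxO : x ∈ O := by
      apply hO.dual
      intro o ho
      have ho' : e * o * e ∈ corner O e :=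
        ⟨hO.mul_mem _ (hO.mul_mem _ he.mem _ ho) _ he.mem, by
          rw [← mul_assoc, ← mul_assoc, he.idem], by rw [mul_assoc, he.idem]⟩
      have h4 := h1 (g * (e * o * e)) ⟨_, ho', rfl⟩
      have h5 : τ (x * o) = τ (ξ * (g * (e * o * e))) := by
        calc τ (x * o) = τ (x * e * o) := by rw [hxe]
          _ = τ (x * (e * o)) := by rw [mul_assoc]
          _ = τ (e * o * x) := hO.comm _ _
          _ = τ (e * o * (e * x)) := by rw [hex]
          _ = τ (e * o * e * x) := by rw [← mul_assoc (e * o)]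
          _ = τ (x * (e * o * e)) := hO.comm _ _
          _ = τ (g * (ξ * (g * (e * o * e)))) := by
              rw [hx, mul_assoc g ξ g, mul_assoc g, mul_assoc ξ]
          _ = τ (ξ * (g * (e * o * e)) * g) := hO.comm _ _
          _ = τ (ξ * (g * (e * o * e))) := by
              rw [mul_assoc ξ, mul_assoc g, ← hgc' _ ho', ← mul_assoc g g, hg]
      rw [h5]; exact h4
    have hxr : x ∈ r := by
      by_contra hxr
      obtain ⟨v, hv, hv1, -⟩ := he.unit hO hp ⟨hxO, hex, hxe⟩ hxr
      apply hgO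
      have : g * e = e := by rw [← hv1, ← mul_assoc, hgx]
      rw [hge] at this
      rw [this]; exact he.mem
    have h6 : τ (ξ * (α * l)) = τ (l * (x * α)) := by
      calc τ (ξ * (α * l)) = τ (ξ * (g * (α * l) * g)) := by rw [hgt, htg]
        _ = τ (ξ * g * (α * l) * g) := by simp only [mul_assoc]
        _ = τ (g * (ξ * g * (α * l))) := hO.comm _ _
        _ = τ (x * α * l) := by rw [hx]; simp only [mul_assoc]
        _ = τ (l * (x * α)) := hO.comm _ _
    rw [h6]
    exact hO.int _ (hf.m_O (hlr x hxr α hα))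
  obtain ⟨u, hu, hu'⟩ := hL
  have hu'' : g * u = α * l := hu'
  have htne : α * l ≠ 0 := by
    intro h
    apply hf.tau_f
    rw [← hτt, h, map_zero]
    exact IW.zero
  have htg' : α * l = g :=
    (idem_quot hO hp he hg hgc' hge hu hu''.symm ht).resolve_left htne
  refine ⟨fun n hn => ?_, α, l, hα1, hα2, hl1, hl2, hlα, htg'⟩
  have h7 : l * n ∈ O := by
    apply dual_O hO (f := f) (e := e)
    · rw [← mul_assoc, hl1]
    · rw [mul_assoc, he.r_right n hn]
    · intro β hβ
      rw [mul_assoc]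
      exact hO.int _ (hf.m_O (hlr n hn β hβ))
  obtain ⟨o, ho, hα'⟩ := hα
  have hα'' : e * (o * f) = α := hα'
  have h8 : g * n = e * (o * (l * n)) := by
    rw [← htg', ← hα'']
    simp only [mul_assoc]
    rw [← mul_assoc f l, hl1]
  rw [h8]
  exact hO.mul_mem _ he.mem _ (hO.mul_mem _ ho _ h7)


include hO hp he hf in
/-- (iii) -/
theorem EL_right (hne : lat O e f ≠ ⊥) : ∃ α ∈ lat O e f, ∃ l : A, f * l = l ∧ l * e = l ∧
    (∀ β ∈ lat O e f, l * β ∈ O1) ∧ (∀ β ∈ laty O e f y, l * β ∈ m) ∧ l * α = f ∧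
    ∀ n ∈ r, n * α ∈ laty O e f y := by
  classical
  obtain ⟨n, hn⟩ := pow_lat hO he hf
  have h0 : ¬ lat O e f ≤ laty O e f y := fun h => hne (lat_nak hO hp hf h)
  have hex : ∃ n : ℕ, r ^ n * lat O e f ≤ laty O e f y := ⟨n, hn⟩
  obtain ⟨k, hk⟩ : ∃ k, Nat.find hex = k + 1 := by
    refine Nat.exists_eq_succ_of_ne_zero ?_
    intro h
    have := Nat.find_spec hex
    rw [h, pow_zero, one_mul] at this
    exact h0 this
  have h1 : ¬ r ^ k * lat O e f ≤ laty O e f y :=
    Nat.find_min hex (by rw [hk]; exact k.lt_succ_self)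
  have h2 : r ^ (k + 1) * lat O e f ≤ laty O e f y := hk ▸ Nat.find_spec hex
  obtain ⟨α, hα, hα'⟩ := Set.not_subset.1 h1
  have hαa := pow_lat_le hO he k hα
  obtain ⟨l, h3, h4, h5, h6, h7⟩ := lat_sep hO he hf (laty O e f y) (laty_le hO hf) le_rfl
    (fun a ha u hu => laty_O1 hO hf ha hu) hαa hα'
  refine ⟨α, hαa, l, h3, h4, h5, h6, h7, fun n hn => ?_⟩
  apply h2
  rw [pow_succ', mul_assoc]
  exact Submodule.mul_mem_mul hn hα

include hO hp h2 he hf in
/-- Case B of the edge lemma is impossible. -/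
theorem EL_B (hne : lat O e f ≠ ⊥) {z : A} (hzc : ∀ x, z * x = x * z) (hzf : z * f = f)
    (hzs : z ∈ Submodule.span K {t : A | ∃ a b, t = a * f * b}) (hze : z * e = e) : False := by
  have tfr : Module.IsTorsionFree W A := tf (K := K)
  obtain ⟨α, hα, l, hl1, hl2, hlO, hlr, hlα⟩ := EL_key hO hp he hf hne
  obtain ⟨α3, hα3, μ, hμ1, hμ2, hμO, hμm, hμα, hα3r⟩ := EL_right hO hp he hf hne
  have hα1 := lat_left he hα
  have hα2 := lat_right hf hα
  have h31 := lat_left he hα3
  have h32 := lat_right hf hα3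
  have hfm : ∀ w : W, w • f ∈ m → ¬ IsUnit w := by
    rintro w hw ⟨u, rfl⟩
    apply hf.not_mem
    have := m.smul_mem ((u⁻¹ : Wˣ) : W) hw
    rwa [smul_smul, Units.inv_mul, one_smul] at this
  -- facts on `t = α l` and `s = α3 μ`
  have ht1 : e * (α * l) = α * l := by rw [← mul_assoc, hα1]
  have ht2 : α * l * e = α * l := by rw [mul_assoc, hl2]
  have hs1 : e * (α3 * μ) = α3 * μ := by rw [← mul_assoc, h31]
  have hs2 : α3 * μ * e = α3 * μ := by rw [mul_assoc, hμ2]
  have hτt : τ (α * l) = τ f := by rw [hO.comm, hlα]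
  have hτs : τ (α3 * μ) = τ f := by rw [hO.comm, hμα]
  have htr : ∀ n ∈ r, IW W (τ (α * l * n)) := by
    intro n hn
    have : τ (α * l * n) = τ (l * (n * α)) := by
      rw [mul_assoc, hO.comm, mul_assoc]
    rw [this]
    exact hO.int _ (hf.m_O (hlr n hn α hα))
  have hsr : ∀ n ∈ r, IW W (τ (α3 * μ * n)) := by
    intro n hn
    have : τ (α3 * μ * n) = τ (μ * (n * α3)) := by
      rw [mul_assoc, hO.comm, mul_assoc]
    rw [this]
    exact hO.int _ (hf.m_O (hμm _ (hα3r n hn)))
  have hnt : ¬ IW W (τ (α * l)) := by rw [hτt]; exact hf.tau_f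
  have hns : ¬ IW W (τ (α3 * μ)) := by rw [hτs]; exact hf.tau_f
  -- (vi)
  have vi : ∀ β ∈ lat O e f, l * β ∈ m → β * l ∈ r := by
    intro β hβ hlβ
    have hb1 := lat_left he hβ
    have hb2 := lat_right hf hβ
    have hbr : ∀ n ∈ r, IW W (τ (β * l * n)) := by
      intro n hn
      have : τ (β * l * n) = τ (l * (n * β)) := by
        rw [mul_assoc, hO.comm, mul_assoc]
      rw [this]
      exact hO.int _ (hf.m_O (hlr n hn β hβ))
    obtain ⟨w, hwO, -⟩ := prop_of_int hO hp he ht1 ht2 (x := α * l) (z := β * l)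
      (by rw [← mul_assoc, hb1]) (by rw [mul_assoc, hl2]) hnt htr hbr
    have hfac : β * l - w • (α * l) = (β - w • α) * l := by
      rw [sub_mul, smul_mul_assoc]
    have hcor : β * l - w • (α * l) ∈ corner O e :=
      ⟨hwO, by rw [mul_sub, mul_smul_comm, ht1, ← mul_assoc, hb1],
        by rw [sub_mul, smul_mul_assoc, ht2, mul_assoc, hl2]⟩
    have hρ : β * l - w • (α * l) ∈ r := by
      by_contra hρ
      obtain ⟨v, hv, hv1, -⟩ := he.unit hO hp hcor hρ
      apply no_factor1 hO he hf (l := l * v) (β := β - w • α)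
      · rw [← mul_assoc, hl1]
      · rw [mul_assoc, hv.2.2]
      · rw [sub_mul, hb2, smul_mul_assoc, hα2]
      · rw [← mul_assoc, ← hfac, hv1]
    have hw : ¬ IsUnit w := by
      apply hfm
      have h5 : l * ((β * l - w • (α * l)) * α) = l * β - w • f := by
        rw [sub_mul, mul_sub, smul_mul_assoc, mul_smul_comm]
        rw [mul_assoc β, hlα, hb2, mul_assoc α, hlα, hα2, hlα]
      have h6 := hlr _ hρ α hα
      rw [h5] at h6
      have := m.sub_mem hlβ h6
      rwa [sub_sub_cancel] at this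
    obtain ⟨w', rfl⟩ := dvd_of_not_unit hp hw
    have hpt : p • (α * l) ∈ r := by
      have hptO : p • (α * l) ∈ O := by
        apply mem_of_int hO he
        · rw [mul_smul_comm, ht1]
        · rw [smul_mul_assoc, ht2]
        · rw [tau_smul]
          have := htr _ he.p_mem
          rwa [mul_smul_comm, ht2, tau_smul] at this
        · intro n hn
          rw [smul_mul_assoc, tau_smul]
          exact (htr n hn).smul p
      by_contra hptr
      obtain ⟨v, hv, hv1, -⟩ := he.unit hO hp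
        ⟨hptO, by rw [mul_smul_comm, ht1], by rw [smul_mul_assoc, ht2]⟩ hptr
      apply no_factor1 hO he hf (l := l * v) (β := p • α)
      · rw [← mul_assoc, hl1]
      · rw [mul_assoc, hv.2.2]
      · rw [smul_mul_assoc, hα2]
      · rw [← mul_assoc, smul_mul_assoc, hv1]
    have h7 := r.add_mem hρ (r.smul_mem w' hpt)
    rwa [smul_smul, mul_comm w' p, sub_add_cancel] at h7
  -- (vii)
  have vii : l * α3 ∈ m := by
    by_contra hlm
    obtain ⟨v, hv, hv1, hv2⟩ := hf.unit _ (hlO α3 hα3) hlm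
    have hstep : ∀ β ∈ lat O e f, l * β ∈ m → β ∈ laty O e f y := by
      intro β hβ hlβ
      have h5 := hα3r _ (vi β hβ hlβ)
      have h6 := laty_O1 hO hf h5 hv
      rwa [mul_assoc β l, mul_assoc β, hv1, lat_right hf hβ] at h6
    have hker : ∀ β ∈ lat O e f, l * β = 0 → β = 0 := by
      have hall : ∀ j : ℕ, ∀ β ∈ lat O e f, l * β = 0 →
          ∃ γ ∈ lat O e f, l * γ = 0 ∧ β = γ * y ^ j := by
        intro j
        induction j with
        | zero => intro β hβ h; exact ⟨β, hβ, h, by rw [pow_zero, mul_one]⟩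
        | succ j ih =>
          intro β hβ h
          obtain ⟨γ, hγ, hγ0, rfl⟩ := ih β hβ h
          obtain ⟨δ, hδ, hδ'⟩ := hstep γ hγ (by rw [hγ0]; exact m.zero_mem)
          have hδ'' : δ * y = γ := hδ'
          refine ⟨δ, hδ, ?_, ?_⟩
          · have h8 : l * δ * y * x1 = 0 := by
              rw [mul_assoc l, hδ'', hγ0, zero_mul]
            rwa [mul_assoc (l * δ), hf.yx, mul_assoc, lat_right hf hδ] at h8
          · rw [← hδ'', mul_assoc, pow_succ']
      -- the kernel is `⊥` by Nakayama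
      let N : Submodule W A := lat O e f ⊓ LinearMap.ker (LinearMap.mulLeft W l)
      have hNfg : N.FG := by
        have : Module.Finite W (lat O e f) := Module.Finite.iff_fg.2 (lat_fg hO)
        exact Submodule.FG.of_le (lat_fg hO) inf_le_left
      have hN : N = ⊥ := by
        refine Submodule.eq_bot_of_le_smul_of_le_jacobson_bot (Ideal.span {p}) N hNfg ?_
          (p_jac hp)
        rintro β ⟨hβ, hβ0⟩
        obtain ⟨n, hn⟩ := hf.nil
        obtain ⟨u, hu, hu'⟩ := (Submodule.mem_smul_pointwise_iff_exists _ _ _).1 hn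
        obtain ⟨γ, hγ, hγ0, rfl⟩ := hall n β hβ hβ0
        rw [Submodule.ideal_span_singleton_smul, ← hu', mul_smul_comm]
        refine Submodule.smul_mem_pointwise_smul _ _ _ ⟨lat_O1 hO hf hγ hu, ?_⟩
        change l * (γ * u) = 0
        rw [← mul_assoc, hγ0, zero_mul]
      intro β hβ h
      have : β ∈ N := ⟨hβ, h⟩
      rw [hN] at this
      exact (Submodule.mem_bot W).1 this
    have hfix : ∀ β : A, e * β = β → β * f = β → α * l * β = β := by
      intro β hb1 hb2
      obtain ⟨w, hw, hwβ⟩ := lat_full hO hb1 hb2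
      have h9 : w • β - α * (l * (w • β)) = 0 := by
        apply hker
        · exact (lat O e f).sub_mem hwβ (lat_O1 hO hf hα (hlO _ hwβ))
        · have h10 : l * (α * (l * (w • β))) = l * (w • β) := by
            rw [← mul_assoc, hlα, ← mul_assoc, hl1]
          rw [mul_sub, h10, sub_self]
      have h11 : w • (β - α * l * β) = 0 := by
        rw [smul_sub, ← h9]
        congr 1
        rw [mul_smul_comm, mul_smul_comm, mul_assoc]
      have h12 := (smul_eq_zero.1 h11).resolve_left hw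
      exact (sub_eq_zero.1 h12).symm
    have hz0 : (e - α * l) * z = 0 := by
      have h13 : Submodule.span K {t : A | ∃ a b, t = a * f * b} ≤
          LinearMap.ker (LinearMap.mulLeft K (e - α * l)) := by
        rw [Submodule.span_le]
        rintro _ ⟨a, b, rfl⟩
        change (e - α * l) * (a * f * b) = 0
        have h14 := hfix (e * a * f) (by rw [← mul_assoc, ← mul_assoc, he.idem])
          (by rw [mul_assoc, hf.idem])
        have h15 : (e - α * l) * (a * f) = 0 := by
          rw [sub_mul, ← ht2]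
          have h16 : α * l * e * (a * f) = α * l * (e * a * f) := by
            simp only [mul_assoc]
          rw [h16, h14, ← mul_assoc, sub_self]
        rw [← mul_assoc, h15, zero_mul]
      exact h13 hzs
    have hze' : e = α * l := by
      have h17 : e * z = e := by rw [← hzc, hze]
      have h18 : α * l * z = α * l := by
        rw [← ht2, mul_assoc, h17]
      rw [sub_mul, h17, h18] at hz0
      exact sub_eq_zero.1 hz0
    exact no_factor1 hO he hf hl1 hl2 hα2 hze'.symm
  -- (viii)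
  have hτe : τ (α * l - α3 * μ) = 0 := by rw [map_sub, hτt, hτs, sub_self]
  have hrO : α * l - α3 * μ ∈ O := by
    apply mem_of_int hO he
    · rw [mul_sub, ht1, hs1]
    · rw [sub_mul, ht2, hs2]
    · rw [hτe]; exact IW.zero
    · intro n hn
      rw [sub_mul, map_sub]
      exact (htr n hn).sub (hsr n hn)
  have hcor : α * l - α3 * μ ∈ corner O e :=
    ⟨hrO, by rw [mul_sub, ht1, hs1], by rw [sub_mul, ht2, hs2]⟩
  have hrr : α * l - α3 * μ ∈ r := by
    by_contra hrr
    obtain ⟨v, hv, hv1, -⟩ := he.unit hO hp hcor hrr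
    apply no_factor2 hO h2 he hf (l := l * v) (β := α) (l' := μ * v) (γ := -α3)
    · rw [← mul_assoc, hl1]
    · rw [mul_assoc, hv.2.2]
    · exact hα2
    · rw [← mul_assoc, hμ1]
    · rw [mul_assoc, hv.2.2]
    · rw [neg_mul, h32]
    · rw [← hv1, sub_mul, neg_mul, ← sub_eq_add_neg, mul_assoc α, mul_assoc α3]
  have h20 := hlr _ hrr α hα
  have h21 : l * ((α * l - α3 * μ) * α) = f - l * α3 * (μ * α) := by
    rw [sub_mul, mul_sub, mul_assoc α l, hlα, hα2, hlα, mul_assoc α3, ← mul_assoc l α3]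
  rw [h21] at h20
  have h22 : l * α3 * (μ * α) ∈ m := (hf.mul_m _ (hμO α hα) _ vii).2
  apply hf.not_mem
  have := m.add_mem h20 h22
  rwa [sub_add_cancel] at this

end EL

end PDt
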