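import Pool.Agent.Lib.MP_369ee2_lc_PD.EngH28
import Pool.Agent.Lib.MP_369ee2_lc_PD.GoodD

/-!
# Bridge from the definitions of `Alg.lean` to the engine `EngH28.lean`
-/

set_option autoImplicit false
set_option linter.unusedSectionVars false

namespace PDeg

open scoped BigOperators Pointwise

section
variable {p : ℕ} {W K : Type} (F : Type) [CommRing W] [IsDomain W] [Field K] [Algebra W K]
  [IsFractionRing W K] [Field F] [Algebra W F] [Base p W K F]
  {A : Type} [Ring A] [Algebra K A] [Algebra W A] [IsScalarTower W K A] [FiniteDimensional K A]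
  {O : Subalgebra W A} {τ : A →ₗ[K] K}

include K F in
theorem engB_irr : Irreducible ((p : ℕ) : W) := by
  have hdvr : IsDiscreteValuationRing W := Base.dvr p K F
  rw [IsDiscreteValuationRing.irreducible_iff_uniformizer]
  have hker : Ideal.span {((p : ℕ) : W)} = RingHom.ker (algebraMap W F) := by
    ext w
    rw [Ideal.mem_span_singleton, RingHom.mem_ker, Base.ker (p := p) (K := K)]
  rw [hker]
  exact (IsLocalRing.eq_maximalIdeal
    (RingHom.ker_isMaximal_of_surjective (algebraMap W F) (Base.surj p K))).symm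

include K F in
theorem engB_two (hp : p ≠ 2) : IsUnit (2 : W) := by
  have hdvr : IsDiscreteValuationRing W := Base.dvr p K F
  by_contra h2
  have hirr : Irreducible ((p : ℕ) : W) := engB_irr (K := K) F
  have h3 := PDt.dvd_of_not_unit hirr h2
  have hodd : Odd p := (Base.prime (p := p) W K F).odd_of_ne_two hp
  obtain ⟨k, hk⟩ := hodd
  apply hirr.not_isUnit
  rw [isUnit_iff_dvd_one]
  have h4 : (1 : W) = (p : W) - 2 * (k : W) := by
    rw [hk]; push_cast; ring
  rw [h4]
  exact dvd_sub dvd_rfl (h3.mul_right _)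

include F in
theorem engB_order (H : SymOrder p O τ) : PDt.SymOrder (Subalgebra.toSubmodule O) τ := by
  have hdvr : IsDiscreteValuationRing W := Base.dvr p K F
  refine ⟨O.one_mem, fun x hx y hy => O.mul_mem hx hy, H.fg, ?_, H.comm, H.int, H.dual⟩
  intro x
  obtain ⟨n, hn⟩ := H.span x
  refine ⟨((p : ℕ) : W) ^ n, pow_ne_zero _ (engB_irr (K := K) F).ne_zero, ?_⟩
  have : ((p : ℕ) : W) ^ n • x = (p : A) ^ n * x := by
    rw [Algebra.smul_def, map_pow, map_natCast]
  rw [this]
  exact hn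

theorem engB_smul (x : A) : ((p : ℕ) : W) • x = (p : A) * x := by
  rw [Algebra.smul_def, map_natCast]

theorem engB_loc (E : LocIdem p O) :
    PDt.LocalIdem (Subalgebra.toSubmodule O) ((p : ℕ) : W) E.e E.rad := by
  refine ⟨E.mem, E.idem, fun x hx => E.rad_mem x hx, E.rad_left, E.rad_right, ?_, ?_, ?_,
    E.not_mem, ?_⟩
  · intro x hx h1 h2
    obtain ⟨w, hw⟩ := E.decomp x hx
    rw [h1, h2] at hw
    exact ⟨w, hw⟩
  · intro n hn x hx h1 h2
    constructor
    · have := E.mul_left x hx n hn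
      rwa [h1] at this
    · have := E.mul_right x hx n hn
      rwa [mul_assoc, h2] at this
  · rw [engB_smul]
    exact E.p_mem
  · obtain ⟨n, hn⟩ := E.nilp
    refine ⟨n, fun x hx => ?_⟩
    obtain ⟨y, hy, rfl⟩ := hn x hx
    rw [← engB_smul (W := W)]
    exact Submodule.smul_mem_pointwise_smul _ _ _ hy

theorem engB_fOf {E : LocIdem p O} {f : A} (hG : Good E f) {u : A} :
    u ∈ fOf W O f ↔ ∃ a ∈ O, E.e * a = a ∧ a * E.e = a ∧ u = f * a ∧ u = a * f := by
  constructor
  · intro hu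
    obtain ⟨a, ha, hu'⟩ := mem_fOf.1 hu
    have h0 : E.e * a * E.e ∈ O := O.mul_mem (O.mul_mem E.mem ha) E.mem
    have h1 : f * (E.e * a * E.e) = f * (a * f) := by
      calc f * (E.e * a * E.e) = f * (f * (E.e * a * E.e)) := by rw [← mul_assoc f f, hG.idem]
        _ = f * (E.e * a * E.e * f) := by rw [hG.central]
        _ = f * E.e * (a * (E.e * f)) := by simp only [mul_assoc]
        _ = f * (a * f) := by rw [hG.right, hG.left]
    refine ⟨E.e * a * E.e, h0, ?_, ?_, ?_, ?_⟩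
    · rw [← mul_assoc, ← mul_assoc, E.idem]
    · rw [mul_assoc, E.idem]
    · rw [← hu', h1]
    · rw [← hG.central, ← hu', h1]
  · rintro ⟨a, ha, h1, h2, h3, h4⟩
    rw [mem_fOf]
    refine ⟨a, ha, ?_⟩
    rw [← h4, h3, ← mul_assoc, hG.idem]

theorem engB_comm {E : LocIdem p O} {f : A} (hG : Good E f) {a : A} (h1 : E.e * a = a)
    (h2 : a * E.e = a) : f * a = a * f := by
  have := hG.central a
  rwa [h1, h2] at this

include F in
/-- A good component is a corner as in the engine. -/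
theorem engB_corner (H : SymOrder p O τ) {E : LocIdem p O} {f : A} (hG : Good E f) :
    ∃ y x : A, PDt.DvrCorner (Subalgebra.toSubmodule O) τ ((p : ℕ) : W) f (fOf W O f)
      (fRad E f) y x := by
  obtain ⟨y, x, k, hD⟩ := hG.dvr F H
  have hO := engB_order F H
  have hleft : ∀ u ∈ fOf W O f, f * u = u := by
    intro u hu
    obtain ⟨a, ha, rfl⟩ := mem_fOf.1 hu
    rw [← mul_assoc, hG.idem]
  have hright : ∀ u ∈ fOf W O f, u * f = u := by
    intro u hu
    obtain ⟨a, ha, rfl⟩ := mem_fOf.1 hu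
    rw [mul_assoc, mul_assoc, hG.idem]
  have hm_le : fRad E f ≤ fOf W O f := by
    intro u hu
    obtain ⟨n, hn, rfl⟩ := mem_fRad.1 hu
    rw [engB_fOf hG]
    exact ⟨n, E.rad_mem n hn, E.rad_left n hn, E.rad_right n hn, rfl,
      engB_comm hG (E.rad_left n hn) (E.rad_right n hn)⟩
  refine ⟨y, x, ⟨hG.idem, hleft, hright, ?_, ?_, hm_le, ?_, ?_, ?_, ?_, ?_, hD.unit, hD.y_mem,
    hD.yx, hD.xy, ?_, ?_, hD.div.2.2, ?_, ?_, ?_⟩⟩
  · rw [mem_fOf]
    exact ⟨1, O.one_mem, by rw [one_mul, hG.idem]⟩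
  · intro u hu v hv
    obtain ⟨a, ha, ha1, ha2, -, hua⟩ := (engB_fOf hG).1 hu
    obtain ⟨b, hb, hb1, hb2, hvb, -⟩ := (engB_fOf hG).1 hv
    rw [engB_fOf hG]
    have hab1 : E.e * (a * b) = a * b := by rw [← mul_assoc, ha1]
    have hab2 : a * b * E.e = a * b := by rw [mul_assoc, hb2]
    have h1 : u * v = f * (a * b) := by
      rw [hua, hvb, mul_assoc, ← mul_assoc f f, hG.idem, ← mul_assoc,
        ← engB_comm hG ha1 ha2, mul_assoc]
    refine ⟨a * b, O.mul_mem ha hb, hab1, hab2, h1, ?_⟩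
    rw [h1, engB_comm hG hab1 hab2]
  · intro u hu
    obtain ⟨n, hn, rfl⟩ := mem_fRad.1 hu
    exact hG.rad n hn
  · intro u hu
    obtain ⟨a, ha, ha1, ha2, hua, -⟩ := (engB_fOf hG).1 hu
    obtain ⟨w, hw⟩ := E.decomp a ha
    rw [ha1, ha2] at hw
    refine ⟨w, mem_fRad.2 ⟨_, hw, ?_⟩⟩
    rw [mul_sub, ← hua, mul_smul_comm, hG.right]
  · intro h
    obtain ⟨n, hn, hf⟩ := mem_fRad.1 h
    apply hG.not_mem
    rw [← hf]
    exact hG.rad n hn
  · refine mem_fRad.2 ⟨(p : A) * E.e, E.p_mem, ?_⟩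
    rw [engB_smul, ← mul_assoc, ← (Nat.cast_commute p f).eq, mul_assoc, hG.right]
  · intro u hu n hn
    obtain ⟨a, ha, ha1, ha2, -, hua⟩ := (engB_fOf hG).1 hu
    obtain ⟨b, hb, rfl⟩ := mem_fRad.1 hn
    have hb1 := E.rad_left b hb
    have hb2 := E.rad_right b hb
    constructor
    · refine mem_fRad.2 ⟨a * b, ?_, ?_⟩
      · have := E.mul_left a ha b hb
        rwa [ha1] at this
      · rw [hua, mul_assoc a f, ← mul_assoc f f, hG.idem, ← mul_assoc a f,
          ← engB_comm hG ha1 ha2, mul_assoc]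
    · refine mem_fRad.2 ⟨b * a, ?_, ?_⟩
      · have := E.mul_right a ha b hb
        rwa [mul_assoc, ha2] at this
      · rw [hua, ← engB_comm hG ha1 ha2, mul_assoc f b, ← mul_assoc b f,
          ← engB_comm hG hb1 hb2, ← mul_assoc f, ← mul_assoc f, ← mul_assoc f, hG.idem]
  · intro u hu
    refine ⟨⟨x * u, hD.M_left u hu, ?_⟩, ⟨u * x, hD.M_right u hu, ?_⟩⟩
    · rw [← mul_assoc, hD.yx, hleft u (hm_le hu)]
    · rw [mul_assoc, hD.xy, hright u (hm_le hu)]
  · obtain ⟨u, hu, v, hv, huv, -, hpu⟩ := hD.p_eq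
    refine ⟨k, ?_⟩
    have h1 : y ^ k = ((p : ℕ) : W) • v := by
      have h2 : y ^ k * f = y ^ k := by
        obtain ⟨j, rfl⟩ := Nat.exists_eq_succ_of_ne_zero (Nat.one_le_iff_ne_zero.1 hD.kpos)
        rw [pow_succ, mul_assoc, hright y (hm_le hD.y_mem)]
      calc y ^ k = y ^ k * (u * v) := by rw [huv, h2]
        _ = (p : A) * f * v := by rw [← mul_assoc, ← hpu]
        _ = ((p : ℕ) : W) • v := by rw [mul_assoc, hleft v hv, engB_smul]
    rw [h1]
    exact Submodule.smul_mem_pointwise_smul _ _ _ hv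
  · intro u h1 h2 h3
    have hu : u ∈ O := by
      apply H.dual
      intro z hz
      have h4 := h3 (f * (z * f)) (mem_fOf.2 ⟨z, hz, rfl⟩)
      rw [← mul_assoc, h2, ← mul_assoc, H.comm, ← mul_assoc, h1] at h4
      exact h4
    exact hG.inter F H hu h1 h2
  · exact hG.not_int F H
  · intro u hu
    obtain ⟨a, ha, -, -, -, hua⟩ := (engB_fOf hG).1 hu
    exact ⟨a, ha, hua⟩

theorem engB_span {z f : A} (hV : Vtx z f) :
    z ∈ Submodule.span K {t : A | ∃ a b, t = a * f * b} := by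
  obtain ⟨n, x, y, rfl⟩ := hV.span
  exact Submodule.sum_mem _ fun i _ => Submodule.subset_span ⟨x i, y i, rfl⟩

include F in
/-- Case A of the edge lemma. -/
theorem engB_caseA (H : SymOrder p O τ) {E E' : LocIdem p O} {f0 z : A} (hG : Good E f0)
    (hV : Vtx z f0) (hne : z * E'.e ≠ 0) (hA : z * E'.e ∉ O) :
    Good E' (z * E'.e) ∧ Eqv f0 (z * E'.e) := by
  have hdvr : IsDiscreteValuationRing W := Base.dvr p K F
  have hp : Irreducible ((p : ℕ) : W) := engB_irr (K := K) F
  have hO := engB_order F H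
  have he := engB_loc E'
  obtain ⟨y, x, hf⟩ := engB_corner F H hG
  have hlat := PDt.lat_ne_bot hO he hV.central (engB_span (K := K) hV) hne
  have hcc : ∀ v : A, E'.e * v = v → v * E'.e = v → z * E'.e * v = v * (z * E'.e) := by
    intro v h1 h2
    rw [mul_assoc, h1, ← mul_assoc, ← hV.central v, mul_assoc, h2]
  have hge : z * E'.e * E'.e = z * E'.e := by rw [mul_assoc, E'.idem]
  have heg : E'.e * (z * E'.e) = z * E'.e := by
    rw [← mul_assoc, ← hV.central, mul_assoc, E'.idem]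
  have hgg : z * E'.e * (z * E'.e) = z * E'.e := by
    rw [mul_assoc, heg, ← mul_assoc, hV.idem]
  obtain ⟨h1, α, l, h2, h3, h4, h5, h6, h7⟩ := PDt.EL_A hO hp he hf hlat (g := z * E'.e)
    hgg hcc hge heg
    (by
      intro α h1 h2
      rw [mul_assoc, h1]
      conv_lhs => rw [← h2]
      rw [hV.central, mul_assoc, ← hV.central, hV.zf, h2])
    (by
      intro l h1 h2
      rw [← mul_assoc, ← hV.central, mul_assoc, h2]
      conv_lhs => rw [← h1]
      rw [← mul_assoc, hV.zf, h1]) hA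
  refine ⟨⟨hgg, heg, hge, ?_, hA, h1⟩, l, α, h4, ?_, ?_, h3, h6, h7⟩
  · intro x
    exact hcc _ (by rw [← mul_assoc, ← mul_assoc, E'.idem]) (by rw [mul_assoc, E'.idem])
  · rw [← h7, ← mul_assoc, h6, h4]
  · rw [← h7, mul_assoc, h6, h3]

include F in
/-- Case B of the edge lemma is impossible. -/
theorem engB_caseB (H : SymOrder p O τ) (hp2 : p ≠ 2) {E E' : LocIdem p O} {f0 z : A}
    (hG : Good E f0) (hV : Vtx z f0) (hne : z * E'.e ≠ 0) (hB : z * E'.e ∈ O) : False := by
  have hdvr : IsDiscreteValuationRing W := Base.dvr p K F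
  have hp : Irreducible ((p : ℕ) : W) := engB_irr (K := K) F
  have hO := engB_order F H
  have he := engB_loc E'
  obtain ⟨y, x, hf⟩ := engB_corner F H hG
  have hlat := PDt.lat_ne_bot hO he hV.central (engB_span (K := K) hV) hne
  have hcc : ∀ v : A, E'.e * v = v → v * E'.e = v → z * E'.e * v = v * (z * E'.e) := by
    intro v h1 h2
    rw [mul_assoc, h1, ← mul_assoc, ← hV.central v, mul_assoc, h2]
  have hge : z * E'.e * E'.e = z * E'.e := by rw [mul_assoc, E'.idem]
  have heg : E'.e * (z * E'.e) = z * E'.e := by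
    rw [← mul_assoc, ← hV.central, mul_assoc, E'.idem]
  have hgg : z * E'.e * (z * E'.e) = z * E'.e := by
    rw [mul_assoc, heg, ← mul_assoc, hV.idem]
  have hze : z * E'.e = E'.e := by
    by_cases hr : z * E'.e ∈ E'.rad
    · exfalso
      have h1 : E'.e - z * E'.e ∉ E'.rad := by
        intro h
        apply E'.not_mem
        have := E'.rad.add_mem h hr
        rwa [sub_add_cancel] at this
      obtain ⟨v, hv, hv1, -⟩ := he.unit hO hp (x := E'.e - z * E'.e)
        ⟨O.sub_mem E'.mem hB, by rw [mul_sub, E'.idem, heg], by rw [sub_mul, E'.idem, hge]⟩ h1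
      apply hne
      have h2 : z * E'.e * (E'.e - z * E'.e) = 0 := by
        rw [mul_sub, hge, hgg, sub_self]
      calc z * E'.e = z * E'.e * E'.e := hge.symm
        _ = z * E'.e * ((E'.e - z * E'.e) * v) := by rw [hv1]
        _ = 0 := by rw [← mul_assoc, h2, zero_mul]
    · obtain ⟨v, hv, hv1, -⟩ := he.unit hO hp (x := z * E'.e) ⟨hB, heg, hge⟩ hr
      calc z * E'.e = z * E'.e * E'.e := hge.symm
        _ = z * E'.e * (z * E'.e * v) := by rw [hv1]
        _ = E'.e := by rw [← mul_assoc, hgg, hv1]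
  exact PDt.EL_B hO hp (engB_two (K := K) F hp2) he hf hlat hV.central hV.zf
    (engB_span (K := K) hV) hze

end

end PDeg
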