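import Pool.Agent.Lib.MP_369ee2_lc_PD.FactM0
import Pool.Agent.Lib.MP_369ee2_lc_PD.MInj
import Pool.Agent.Lib.MP_369ee2_lc_PD.BaseWitt

/-!
# Fact M, general concrete form
-/

namespace PDeg.FactM

open scoped BigOperators Matrix Kronecker

section Defs
variable {X : Type} [Fintype X] [DecidableEq X] {S : Type} [Fintype S]
  (rel : (X × X) × S → (X × X) × S → Prop)
  {W : Type} [CommRing W] (e' : Matrix (X × X) (X × X) W) (e : Matrix S S W)

/-- constant along `rel` -/
def Cs {X S : Type} (rel : (X × X) × S → (X × X) × S → Prop) {R : Type}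
    (T : Matrix (X × X) S R) : Prop := ∀ a b, rel a b → T a.1 a.2 = T b.1 b.2

/-- the matrices `T = e' T e`, constant along `rel`, with `J_1 T = J_2 T = 0` -/
def LL (R : Type) [CommRing R] [Algebra W R] : Submodule R (Matrix (X × X) S R) where
  carrier := {T | Cs rel T ∧ e'.map (algebraMap W R) * T * e.map (algebraMap W R) = T ∧
    t1 (JJ X R) * T = 0 ∧ t2 (JJ X R) * T = 0}
  add_mem' := by
    rintro A B ⟨h1, h2, h3, h4⟩ ⟨h1', h2', h3', h4'⟩
    refine ⟨fun a b hab => ?_, ?_, ?_, ?_⟩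
    · rw [Matrix.add_apply, Matrix.add_apply, h1 a b hab, h1' a b hab]
    · rw [Matrix.mul_add, Matrix.add_mul, h2, h2']
    · rw [Matrix.mul_add, h3, h3', add_zero]
    · rw [Matrix.mul_add, h4, h4', add_zero]
  zero_mem' := ⟨fun _ _ _ => rfl, by simp, by simp, by simp⟩
  smul_mem' := by
    rintro c A ⟨h1, h2, h3, h4⟩
    refine ⟨fun a b hab => ?_, ?_, ?_, ?_⟩
    · rw [Matrix.smul_apply, Matrix.smul_apply, h1 a b hab]
    · rw [Matrix.mul_smul, Matrix.smul_mul, h2]
    · rw [Matrix.mul_smul, h3, smul_zero]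
    · rw [Matrix.mul_smul, h4, smul_zero]

theorem mem_LL {R : Type} [CommRing R] [Algebra W R] {T : Matrix (X × X) S R} :
    T ∈ LL rel e' e R ↔ Cs rel T ∧
      e'.map (algebraMap W R) * T * e.map (algebraMap W R) = T ∧
      t1 (JJ X R) * T = 0 ∧ t2 (JJ X R) * T = 0 := Iff.rfl

/-- the joint kernel of `y_1`, `y_2` -/
def KK (y : Matrix X X W) (R : Type) [CommRing R] [Algebra W R] :
    Submodule R (Matrix (X × X) S R) where
  carrier := {T | Cs rel T ∧ e'.map (algebraMap W R) * T * e.map (algebraMap W R) = T ∧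
    t1 (y.map (algebraMap W R)) * T = 0 ∧ t2 (y.map (algebraMap W R)) * T = 0}
  add_mem' := by
    rintro A B ⟨h1, h2, h3, h4⟩ ⟨h1', h2', h3', h4'⟩
    refine ⟨fun a b hab => ?_, ?_, ?_, ?_⟩
    · rw [Matrix.add_apply, Matrix.add_apply, h1 a b hab, h1' a b hab]
    · rw [Matrix.mul_add, Matrix.add_mul, h2, h2']
    · rw [Matrix.mul_add, h3, h3', add_zero]
    · rw [Matrix.mul_add, h4, h4', add_zero]
  zero_mem' := ⟨fun _ _ _ => rfl, by simp, by simp, by simp⟩
  smul_mem' := by
    rintro c A ⟨h1, h2, h3, h4⟩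
    refine ⟨fun a b hab => ?_, ?_, ?_, ?_⟩
    · rw [Matrix.smul_apply, Matrix.smul_apply, h1 a b hab]
    · rw [Matrix.mul_smul, Matrix.smul_mul, h2]
    · rw [Matrix.mul_smul, h3, smul_zero]
    · rw [Matrix.mul_smul, h4, smul_zero]

theorem mem_KK {y : Matrix X X W} {R : Type} [CommRing R] [Algebra W R]
    {T : Matrix (X × X) S R} :
    T ∈ KK rel e' e y R ↔ Cs rel T ∧
      e'.map (algebraMap W R) * T * e.map (algebraMap W R) = T ∧
      t1 (y.map (algebraMap W R)) * T = 0 ∧ t2 (y.map (algebraMap W R)) * T = 0 := Iff.rfl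

/-- `y_2 T = ζ y_1 T` -/
def BZ (y : Matrix X X W) (ζ : W) (R : Type) [CommRing R] [Algebra W R] :
    Submodule R (Matrix (X × X) S R) where
  carrier := {T | T ∈ LL rel e' e R ∧ t2 (y.map (algebraMap W R)) * T =
    algebraMap W R ζ • (t1 (y.map (algebraMap W R)) * T)}
  add_mem' := by
    rintro A B ⟨h1, h2⟩ ⟨h1', h2'⟩
    exact ⟨add_mem h1 h1', by rw [Matrix.mul_add, Matrix.mul_add, smul_add, h2, h2']⟩
  zero_mem' := ⟨zero_mem _, by simp⟩
  smul_mem' := by
    rintro c A ⟨h1, h2⟩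
    exact ⟨Submodule.smul_mem _ _ h1, by
      rw [Matrix.mul_smul, Matrix.mul_smul, h2, smul_comm]⟩

theorem mem_BZ {y : Matrix X X W} {ζ : W} {R : Type} [CommRing R] [Algebra W R]
    {T : Matrix (X × X) S R} :
    T ∈ BZ rel e' e y ζ R ↔ T ∈ LL rel e' e R ∧ t2 (y.map (algebraMap W R)) * T =
      algebraMap W R ζ • (t1 (y.map (algebraMap W R)) * T) := Iff.rfl

/-- left multiplication -/
def lmul {X S R : Type} [Fintype X] [CommRing R] (A : Matrix (X × X) (X × X) R) :
    Matrix (X × X) S R →ₗ[R] Matrix (X × X) S R where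
  toFun := fun T => A * T
  map_add' := Matrix.mul_add A
  map_smul' := fun c T => Matrix.mul_smul A c T

omit [DecidableEq X] [Fintype S] in
theorem lmul_apply {R : Type} [CommRing R] (A : Matrix (X × X) (X × X) R)
    (T : Matrix (X × X) S R) : lmul A T = A * T := rfl

omit [Fintype S] in
theorem lmul_pow {R : Type} [CommRing R] (A : Matrix (X × X) (X × X) R) (n : ℕ) :
    (lmul A : Matrix (X × X) S R →ₗ[R] Matrix (X × X) S R) ^ n = lmul (A ^ n) := by
  induction n with
  | zero =>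
    apply LinearMap.ext
    intro T
    rw [pow_zero, pow_zero, lmul_apply, Matrix.one_mul]
    rfl
  | succ n ih =>
    apply LinearMap.ext
    intro T
    rw [pow_succ, pow_succ, Module.End.mul_apply, ih, lmul_apply, lmul_apply, lmul_apply,
      Matrix.mul_assoc]

end Defs

/-- the hypotheses of the general form of Fact M -/
structure FM (p k : ℕ) {X S W : Type} (K F : Type) [Fintype X] [DecidableEq X] [Fintype S]
    [CommRing W] [Field K] [Algebra W K] [Field F] [Algebra W F]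
    (rel : (X × X) × S → (X × X) × S → Prop) (base : S → X)
    (e' : Matrix (X × X) (X × X) W) (e : Matrix S S W) (y : Matrix X X W)
    (q r : X → Matrix X X F) : Prop where
  idem' : e' * e' = e'
  idem : e * e = e
  comm1 : t1 y * e' = e' * t1 y
  comm2 : t2 y * e' = e' * t2 y
  yJ : y * JJ X W = 0
  Jy : JJ X W * y = 0
  pow : y ^ k = (p : Matrix X X W) - JJ X W
  cW1 : ∀ T : Matrix (X × X) S W, Cs rel T → Cs rel (t1 y * T)
  cW2 : ∀ T : Matrix (X × X) S W, Cs rel T → Cs rel (t2 y * T)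
  cK1 : ∀ T : Matrix (X × X) S K, Cs rel T → Cs rel (t1 (y.map (algebraMap W K)) * T)
  cK2 : ∀ T : Matrix (X × X) S K, Cs rel T → Cs rel (t2 (y.map (algebraMap W K)) * T)
  cF1 : ∀ T : Matrix (X × X) S F, Cs rel T → Cs rel (t1 (y.map (algebraMap W F)) * T)
  cF2 : ∀ T : Matrix (X × X) S F, Cs rel T → Cs rel (t2 (y.map (algebraMap W F)) * T)
  cF : ∀ T : Matrix (X × X) S F, Cs rel T →
    Cs rel (e'.map (algebraMap W F) * T * e.map (algebraMap W F))
  cq : ∀ T : Matrix (X × X) S F, Cs rel T → Cs rel (star2 base q T)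
  eq : ∀ x, (1 : Matrix X X F) = (y.map (algebraMap W F)) ^ (k - 1) * q x +
    r x * (y.map (algebraMap W F))
  lift : ∀ T ∈ LL rel e' e F, ∃ T' ∈ LL rel e' e W, T'.map (algebraMap W F) = T

section
variable {p k : ℕ} {X S W K F : Type} [Fintype X] [DecidableEq X] [Fintype S]
  [CommRing W] [IsDomain W] [Field K] [Algebra W K] [IsFractionRing W K]
  [Field F] [Algebra W F]
  {rel : (X × X) × S → (X × X) × S → Prop} {base : S → X}
  {e' : Matrix (X × X) (X × X) W} {e : Matrix S S W} {y : Matrix X X W}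
  {q r : X → Matrix X X F}

omit [Fintype S] in
theorem mmul_map {R : Type} [CommRing R] (φ : W →+* R) (A : Matrix (X × X) (X × X) W)
    (T : Matrix (X × X) S W) : (A * T).map φ = A.map φ * T.map φ := Matrix.map_mul

omit [DecidableEq X] [IsDomain W] in
theorem mul_mem_LL_aux {R : Type} [CommRing R] [Algebra W R] : True := trivial

/-- `J_1` from `y_1` -/
theorem t1_pow_eq {R : Type} [CommRing R] [Algebra W R]
    (h : y ^ k = (p : Matrix X X W) - JJ X W) :
    (t1 (y.map (algebraMap W R))) ^ k = (p : Matrix (X × X) (X × X) R) - t1 (JJ X R) := by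
  have h1 : (y.map (algebraMap W R)) ^ k = (p : Matrix X X R) - JJ X R := by
    have h2 := congrArg (RingHom.mapMatrix (algebraMap W R)) h
    rw [map_pow, map_sub, map_natCast] at h2
    simpa [JJ_map] using h2
  rw [← t1_pow, h1, t1_sub]
  congr 1
  rw [← nsmul_one, ← nsmul_one]
  have : t1 ((p : ℕ) • (1 : Matrix X X R)) = (p : ℕ) • t1 (1 : Matrix X X R) := by
    rw [← Nat.cast_smul_eq_nsmul R, ← Nat.cast_smul_eq_nsmul R, t1_smul]
  rw [this, t1_one]

theorem t2_pow_eq {R : Type} [CommRing R] [Algebra W R]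
    (h : y ^ k = (p : Matrix X X W) - JJ X W) :
    (t2 (y.map (algebraMap W R))) ^ k = (p : Matrix (X × X) (X × X) R) - t2 (JJ X R) := by
  have h1 : (y.map (algebraMap W R)) ^ k = (p : Matrix X X R) - JJ X R := by
    have h2 := congrArg (RingHom.mapMatrix (algebraMap W R)) h
    rw [map_pow, map_sub, map_natCast] at h2
    simpa [JJ_map] using h2
  rw [← t2_pow, h1, t2_sub]
  congr 1
  rw [← nsmul_one, ← nsmul_one]
  have : t2 ((p : ℕ) • (1 : Matrix X X R)) = (p : ℕ) • t2 (1 : Matrix X X R) := by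
    rw [← Nat.cast_smul_eq_nsmul R, ← Nat.cast_smul_eq_nsmul R, t2_smul]
  rw [this, t2_one]

end

end PDeg.FactM
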