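import Pool.Agent.Lib.MP_369ee2_lc_PD.FactM1

/-!
# Fact M, general concrete form: proof
-/

namespace PDeg.FactM

open scoped BigOperators Matrix Kronecker

section
variable {p k : ℕ} {X S W K F : Type} [Fintype X] [DecidableEq X] [Fintype S]
  [CommRing W] [IsDomain W] [Field K] [Algebra W K] [IsFractionRing W K]
  [Field F] [Algebra W F]
  {rel : (X × X) × S → (X × X) × S → Prop} {base : S → X}
  {e' : Matrix (X × X) (X × X) W} {e : Matrix S S W} {y : Matrix X X W}
  {q r : X → Matrix X X F}

omit [IsDomain W] in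
theorem mul1_mem {R : Type} [CommRing R] [Algebra W R]
    (comm1 : t1 y * e' = e' * t1 y) (Jy : JJ X W * y = 0)
    (hc : ∀ T : Matrix (X × X) S R, Cs rel T → Cs rel (t1 (y.map (algebraMap W R)) * T))
    {T : Matrix (X × X) S R} (hT : T ∈ LL rel e' e R) :
    t1 (y.map (algebraMap W R)) * T ∈ LL rel e' e R := by
  obtain ⟨h1, h2, h3, h4⟩ := hT
  have c1 : t1 (y.map (algebraMap W R)) * e'.map (algebraMap W R) =
      e'.map (algebraMap W R) * t1 (y.map (algebraMap W R)) := by
    rw [← t1_map, ← Matrix.map_mul, comm1, Matrix.map_mul]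
  have c2 : JJ X R * y.map (algebraMap W R) = 0 := by
    rw [← JJ_map (algebraMap W R), ← Matrix.map_mul, Jy]
    simp
  refine ⟨hc T h1, ?_, ?_, ?_⟩
  · conv_rhs => rw [← h2]
    rw [← Matrix.mul_assoc, ← c1, Matrix.mul_assoc, Matrix.mul_assoc, Matrix.mul_assoc]
  · rw [← Matrix.mul_assoc, ← t1_mul, c2, t1_zero, Matrix.zero_mul]
  · rw [← Matrix.mul_assoc, ← t12_comm, Matrix.mul_assoc, h4, Matrix.mul_zero]

omit [IsDomain W] in
theorem mul2_mem {R : Type} [CommRing R] [Algebra W R]
    (comm2 : t2 y * e' = e' * t2 y) (Jy : JJ X W * y = 0)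
    (hc : ∀ T : Matrix (X × X) S R, Cs rel T → Cs rel (t2 (y.map (algebraMap W R)) * T))
    {T : Matrix (X × X) S R} (hT : T ∈ LL rel e' e R) :
    t2 (y.map (algebraMap W R)) * T ∈ LL rel e' e R := by
  obtain ⟨h1, h2, h3, h4⟩ := hT
  have c1 : t2 (y.map (algebraMap W R)) * e'.map (algebraMap W R) =
      e'.map (algebraMap W R) * t2 (y.map (algebraMap W R)) := by
    rw [← t2_map, ← Matrix.map_mul, comm2, Matrix.map_mul]
  have c2 : JJ X R * y.map (algebraMap W R) = 0 := by
    rw [← JJ_map (algebraMap W R), ← Matrix.map_mul, Jy]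
    simp
  refine ⟨hc T h1, ?_, ?_, ?_⟩
  · conv_rhs => rw [← h2]
    rw [← Matrix.mul_assoc, ← c1, Matrix.mul_assoc, Matrix.mul_assoc, Matrix.mul_assoc]
  · rw [← Matrix.mul_assoc, t12_comm, Matrix.mul_assoc, h3, Matrix.mul_zero]
  · rw [← Matrix.mul_assoc, ← t2_mul, c2, t2_zero, Matrix.zero_mul]

omit [IsDomain W] in
theorem map_W (A : Matrix (X × X) (X × X) W) : A.map (algebraMap W W) = A := by
  ext i j
  simp

omit [IsDomain W] in
theorem mem_LL_W {T : Matrix (X × X) S W} :
    T ∈ LL rel e' e W ↔ Cs rel T ∧ e' * T * e = T ∧ t1 (JJ X W) * T = 0 ∧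
      t2 (JJ X W) * T = 0 := by
  rw [mem_LL]
  have h1 : e'.map (algebraMap W W) = e' := by ext; simp
  have h2 : e.map (algebraMap W W) = e := by ext; simp
  rw [h1, h2]

omit [IsDomain W] in
theorem map_mem_LL {R : Type} [CommRing R] [Algebra W R] {T : Matrix (X × X) S W}
    (hT : T ∈ LL rel e' e W) : T.map (algebraMap W R) ∈ LL rel e' e R := by
  obtain ⟨h1, h2, h3, h4⟩ := mem_LL_W.mp hT
  refine ⟨fun a b hab => ?_, ?_, ?_, ?_⟩
  · rw [Matrix.map_apply, Matrix.map_apply, h1 a b hab]
  · rw [← Matrix.map_mul, ← Matrix.map_mul, h2]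
  · rw [← JJ_map (algebraMap W R), ← t1_map, ← Matrix.map_mul, h3]
    simp
  · rw [← JJ_map (algebraMap W R), ← t2_map, ← Matrix.map_mul, h4]
    simp

omit [IsDomain W] in
theorem mem_LL_of_map {T : Matrix (X × X) S W} (hinj : Function.Injective (algebraMap W K))
    (hT : T.map (algebraMap W K) ∈ LL rel e' e K) : T ∈ LL rel e' e W := by
  obtain ⟨h1, h2, h3, h4⟩ := hT
  rw [mem_LL_W]
  have hi : Function.Injective (fun A : Matrix (X × X) S W => A.map (algebraMap W K)) :=
    Matrix.map_injective hinj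
  refine ⟨fun a b hab => hinj (h1 a b hab), hi ?_, hi ?_, hi ?_⟩
  · show (e' * T * e).map (algebraMap W K) = _
    rw [Matrix.map_mul, Matrix.map_mul, h2]
  · show (t1 (JJ X W) * T).map (algebraMap W K) = (0 : Matrix (X × X) S W).map (algebraMap W K)
    rw [Matrix.map_mul, t1_map, JJ_map, h3]
    simp
  · show (t2 (JJ X W) * T).map (algebraMap W K) = (0 : Matrix (X × X) S W).map (algebraMap W K)
    rw [Matrix.map_mul, t2_map, JJ_map, h4]
    simp

theorem mem_LL_of_smul {c : W} (hc : c ≠ 0) {T : Matrix (X × X) S W}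
    (hT : c • T ∈ LL rel e' e W) : T ∈ LL rel e' e W := by
  obtain ⟨h1, h2, h3, h4⟩ := mem_LL_W.mp hT
  rw [mem_LL_W]
  have hi : Function.Injective (fun A : Matrix (X × X) S W => c • A) := by
    intro A B h
    ext i j
    have := congrFun (congrFun h i) j
    exact mul_left_cancel₀ hc this
  refine ⟨fun a b hab => mul_left_cancel₀ hc (h1 a b hab), hi ?_, hi ?_, hi ?_⟩
  · show c • (e' * T * e) = c • T
    conv_rhs => rw [← h2]
    rw [Matrix.mul_smul, Matrix.smul_mul]
  · show c • (t1 (JJ X W) * T) = c • (0 : Matrix (X × X) S W)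
    rw [← Matrix.mul_smul, h3, smul_zero]
  · show c • (t2 (JJ X W) * T) = c • (0 : Matrix (X × X) S W)
    rw [← Matrix.mul_smul, h4, smul_zero]

/-- the entrywise map on lattices -/
def mapL (rel : (X × X) × S → (X × X) × S → Prop)
    (e' : Matrix (X × X) (X × X) W) (e : Matrix S S W)
    (R : Type) [CommRing R] [Algebra W R] : ↥(LL rel e' e W) →ₗ[W] ↥(LL rel e' e R) where
  toFun := fun T => ⟨T.1.map (algebraMap W R), map_mem_LL T.2⟩
  map_add' := by
    intro A B
    apply Subtype.ext
    show (A.1 + B.1).map (algebraMap W R) = A.1.map (algebraMap W R) + B.1.map (algebraMap W R)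
    exact Matrix.map_add _ (map_add _) _ _
  map_smul' := by
    intro c A
    apply Subtype.ext
    show (c • A.1).map (algebraMap W R) = c • A.1.map (algebraMap W R)
    ext i j
    simp [Algebra.smul_def]

omit [IsDomain W] in
theorem mapL_coe {R : Type} [CommRing R] [Algebra W R] (T : ↥(LL rel e' e W)) :
    (mapL rel e' e R T : Matrix (X × X) S R) = T.1.map (algebraMap W R) := rfl

/-- multiplication by `y_1` or `y_2` on the lattices -/
def opL {R : Type} [CommRing R] [Algebra W R] (A : Matrix (X × X) (X × X) R)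
    (h : ∀ T ∈ LL rel e' e R, A * T ∈ LL rel e' e R) : ↥(LL rel e' e R) →ₗ[R] ↥(LL rel e' e R) :=
  (lmul A).restrict h

omit [IsDomain W] in
theorem opL_coe {R : Type} [CommRing R] [Algebra W R] (A : Matrix (X × X) (X × X) R)
    (h : ∀ T ∈ LL rel e' e R, A * T ∈ LL rel e' e R) (T : ↥(LL rel e' e R)) :
    (opL A h T : Matrix (X × X) S R) = A * T.1 := rfl

omit [IsDomain W] in
theorem opL_pow_coe {R : Type} [CommRing R] [Algebra W R] (A : Matrix (X × X) (X × X) R)
    (h : ∀ T ∈ LL rel e' e R, A * T ∈ LL rel e' e R) (n : ℕ) (T : ↥(LL rel e' e R)) :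
    (((opL A h) ^ n) T : Matrix (X × X) S R) = A ^ n * T.1 := by
  induction n with
  | zero =>
    rw [pow_zero, pow_zero, Matrix.one_mul]
    rfl
  | succ n ih => rw [pow_succ', Module.End.mul_apply, opL_coe, ih, ← Matrix.mul_assoc, ← pow_succ']

omit [IsDomain W] [Field K] [Algebra W K] [IsFractionRing W K] [CommRing W] in
theorem natCast_mat_mul {R : Type} [CommRing R] (n : ℕ) (T : Matrix (X × X) S R) :
    (n : Matrix (X × X) (X × X) R) * T = (n : R) • T := by
  rw [← nsmul_one, ← Nat.cast_smul_eq_nsmul R, Matrix.smul_mul, Matrix.one_mul]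

theorem factM_gen (hB : Base p W K F) (hk : k ∣ p - 1) (hk1 : 1 ≤ k)
    (D : FM p k K F rel base e' e y q r) :
    Module.finrank K (LL rel e' e K) = k * (k * Module.finrank F (KK rel e' e y F)) ∧
    ∀ ζ : W, ζ ^ k = 1 →
      Module.finrank K (BZ rel e' e y ζ K) = k * Module.finrank F (KK rel e' e y F) := by
  classical
  have hdvr : IsDiscreteValuationRing W := hB.dvr
  have hpir : IsPrincipalIdealRing W := inferInstance
  have hcz : CharZero K := hB.charZero
  obtain ⟨ξ, hξ, -⟩ := hB.exists_primitive k hk hk1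
  have hinj : Function.Injective (algebraMap W K) := IsFractionRing.injective W K
  have hp0 : (p : K) ≠ 0 := Nat.cast_ne_zero.mpr hB.prime.ne_zero
  have hpW : (p : W) ≠ 0 := by
    intro h0
    apply hp0
    rw [← map_natCast (algebraMap W K), h0, map_zero]
  have hpF : (p : F) = 0 := by
    rw [← map_natCast (algebraMap W F)]
    exact (hB.ker _).mpr dvd_rfl
  have hpM : (p : Matrix (X × X) (X × X) F) = 0 := by
    rw [← nsmul_one, ← Nat.cast_smul_eq_nsmul F, hpF, zero_smul]
  have mK1 : ∀ T ∈ LL rel e' e K, t1 (y.map (algebraMap W K)) * T ∈ LL rel e' e K :=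
    fun T hT => mul1_mem D.comm1 D.Jy D.cK1 hT
  have mK2 : ∀ T ∈ LL rel e' e K, t2 (y.map (algebraMap W K)) * T ∈ LL rel e' e K :=
    fun T hT => mul2_mem D.comm2 D.Jy D.cK2 hT
  have mF1 : ∀ T ∈ LL rel e' e F, t1 (y.map (algebraMap W F)) * T ∈ LL rel e' e F :=
    fun T hT => mul1_mem D.comm1 D.Jy D.cF1 hT
  have mF2 : ∀ T ∈ LL rel e' e F, t2 (y.map (algebraMap W F)) * T ∈ LL rel e' e F :=
    fun T hT => mul2_mem D.comm2 D.Jy D.cF2 hT
  have hyW : y.map (algebraMap W W) = y := by ext; simp
  have mW1 : ∀ T ∈ LL rel e' e W, t1 y * T ∈ LL rel e' e W := fun T hT => by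
    have := mul1_mem (R := W) D.comm1 D.Jy (by rw [hyW]; exact D.cW1) hT
    rwa [hyW] at this
  have mW2 : ∀ T ∈ LL rel e' e W, t2 y * T ∈ LL rel e' e W := fun T hT => by
    have := mul2_mem (R := W) D.comm2 D.Jy (by rw [hyW]; exact D.cW2) hT
    rwa [hyW] at this
  have key := Pool.Agent.MP_369ee2_lc_PD.mabs_inj (W := W) (K := K) (F := F) hB.surj (p : W)
    ((hB.ker _).mpr dvd_rfl) hpW (mapL rel e' e K) ?_ ?_ (mapL rel e' e F) ?_ ?_ hk1
    (Nat.cast_ne_zero.mpr (by omega)) hξ
    (opL (t1 (y.map (algebraMap W K))) mK1) (opL (t2 (y.map (algebraMap W K))) mK2) ?_ ?_ ?_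
    (opL (t1 y) mW1) (opL (t2 y) mW2) ?_ ?_
    (opL (t1 (y.map (algebraMap W F))) mF1) (opL (t2 (y.map (algebraMap W F))) mF2) ?_ ?_ ?_
  · have e1 : (LinearMap.ker (opL (t1 (y.map (algebraMap W F))) mF1) ⊓
        LinearMap.ker (opL (t2 (y.map (algebraMap W F))) mF2) :
        Submodule F ↥(LL rel e' e F)).map (LL rel e' e F).subtype = KK rel e' e y F := by
      ext T
      rw [Submodule.mem_map, mem_KK]
      constructor
      · rintro ⟨T, hT, rfl⟩
        obtain ⟨h1, h2⟩ := Submodule.mem_inf.mp hT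
        exact ⟨T.2.1, T.2.2.1, congrArg Subtype.val (LinearMap.mem_ker.mp h1),
          congrArg Subtype.val (LinearMap.mem_ker.mp h2)⟩
      · rintro ⟨h1, h2, h3, h4⟩
        have h5 : T ∈ LL rel e' e F := by
          refine ⟨h1, h2, ?_, ?_⟩
          · have h6 := t1_pow_eq (R := F) D.pow
            have h7 : t1 (y.map (algebraMap W F)) ^ k * T = 0 := by
              rw [show k = (k - 1) + 1 by omega, pow_succ, Matrix.mul_assoc, h3, Matrix.mul_zero]
            rw [h6, Matrix.sub_mul, hpM, Matrix.zero_mul, zero_sub, neg_eq_zero] at h7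
            exact h7
          · have h6 := t2_pow_eq (R := F) D.pow
            have h7 : t2 (y.map (algebraMap W F)) ^ k * T = 0 := by
              rw [show k = (k - 1) + 1 by omega, pow_succ, Matrix.mul_assoc, h4, Matrix.mul_zero]
            rw [h6, Matrix.sub_mul, hpM, Matrix.zero_mul, zero_sub, neg_eq_zero] at h7
            exact h7
        exact ⟨⟨T, h5⟩, Submodule.mem_inf.mpr ⟨LinearMap.mem_ker.mpr (Subtype.ext h3),
          LinearMap.mem_ker.mpr (Subtype.ext h4)⟩, rfl⟩
    have e2 : ∀ ζ : W, (LinearMap.ker (opL (t2 (y.map (algebraMap W K))) mK2 -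
        algebraMap W K ζ • opL (t1 (y.map (algebraMap W K))) mK1)).map
        (LL rel e' e K).subtype = BZ rel e' e y ζ K := by
      intro ζ
      ext T
      rw [Submodule.mem_map, mem_BZ]
      constructor
      · rintro ⟨T, hT, rfl⟩
        refine ⟨T.2, ?_⟩
        have h1 := congrArg Subtype.val (LinearMap.mem_ker.mp hT)
        exact sub_eq_zero.mp h1
      · rintro ⟨h1, h2⟩
        refine ⟨⟨T, h1⟩, ?_, rfl⟩
        rw [LinearMap.mem_ker]
        apply Subtype.ext
        exact sub_eq_zero.mpr h2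
    rw [← e1, Submodule.finrank_map_subtype_eq]
    refine ⟨key.1, fun ζ hζ => ?_⟩
    rw [← e2, Submodule.finrank_map_subtype_eq]
    exact key.2 ζ hζ
  · intro A B h
    apply Subtype.ext
    have h1 := congrArg Subtype.val h
    rw [mapL_coe, mapL_coe] at h1
    exact Matrix.map_injective hinj h1
  · rintro ⟨v, hv⟩
    obtain ⟨b, hb⟩ := IsLocalization.exist_integer_multiples_of_finite (nonZeroDivisors W)
      (fun a : (X × X) × S => v a.1 a.2)
    choose T0 hT0 using hb
    have h1 : (Matrix.of fun i s => T0 (i, s)).map (algebraMap W K) = (b : W) • v := by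
      ext i s
      exact hT0 (i, s)
    have h2 : (b : W) • v ∈ LL rel e' e K := by
      have : (b : W) • v = algebraMap W K b • v := (algebraMap_smul K (b : W) v).symm
      rw [this]
      exact Submodule.smul_mem _ _ hv
    rw [← h1] at h2
    exact ⟨b, nonZeroDivisors.coe_ne_zero b, ⟨_, mem_LL_of_map hinj h2⟩, Subtype.ext h1⟩
  · rintro ⟨v, hv⟩
    obtain ⟨T', hT', h⟩ := D.lift v hv
    exact ⟨⟨T', hT'⟩, Subtype.ext h⟩
  · rintro ⟨T, hT⟩ h
    have h1 : T.map (algebraMap W F) = 0 := congrArg Subtype.val h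
    have h2 : ∀ i s, ∃ c, T i s = (p : W) * c := by
      intro i s
      exact (hB.ker _).mp (congrFun (congrFun h1 i) s)
    choose T0 hT0 using h2
    have h3 : T = (p : W) • (Matrix.of T0) := by
      ext i s
      exact hT0 i s
    subst h3
    exact ⟨⟨Matrix.of T0, mem_LL_of_smul hpW hT⟩, rfl⟩
  · apply LinearMap.ext
    intro T
    apply Subtype.ext
    show t1 (y.map (algebraMap W K)) * (t2 (y.map (algebraMap W K)) * T.1) =
      t2 (y.map (algebraMap W K)) * (t1 (y.map (algebraMap W K)) * T.1)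
    rw [← Matrix.mul_assoc, t12_comm, Matrix.mul_assoc]
  · apply LinearMap.ext
    intro T
    apply Subtype.ext
    rw [opL_pow_coe, t1_pow_eq D.pow, Matrix.sub_mul, T.2.2.2.1, sub_zero, map_natCast]
    exact natCast_mat_mul _ _
  · apply LinearMap.ext
    intro T
    apply Subtype.ext
    rw [opL_pow_coe, t2_pow_eq D.pow, Matrix.sub_mul, T.2.2.2.2, sub_zero, map_natCast]
    exact natCast_mat_mul _ _
  · intro T
    apply Subtype.ext
    show t1 (y.map (algebraMap W K)) * (T.1.map (algebraMap W K)) =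
      (t1 y * T.1).map (algebraMap W K)
    rw [Matrix.map_mul, t1_map]
  · intro T
    apply Subtype.ext
    show t2 (y.map (algebraMap W K)) * (T.1.map (algebraMap W K)) =
      (t2 y * T.1).map (algebraMap W K)
    rw [Matrix.map_mul, t2_map]
  · intro T
    apply Subtype.ext
    show t1 (y.map (algebraMap W F)) * (T.1.map (algebraMap W F)) =
      (t1 y * T.1).map (algebraMap W F)
    rw [Matrix.map_mul, t1_map]
  · intro T
    apply Subtype.ext
    show t2 (y.map (algebraMap W F)) * (T.1.map (algebraMap W F)) =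
      (t2 y * T.1).map (algebraMap W F)
    rw [Matrix.map_mul, t2_map]
  · rintro ⟨T, hT⟩ h1 h2
    have h1' : t1 (y.map (algebraMap W F)) * T = 0 := congrArg Subtype.val h1
    have h2' : t2 (y.map (algebraMap W F)) * T = 0 := congrArg Subtype.val h2
    have c1 : t1 (y.map (algebraMap W F)) * e'.map (algebraMap W F) =
        e'.map (algebraMap W F) * t1 (y.map (algebraMap W F)) := by
      rw [← t1_map, ← Matrix.map_mul, D.comm1, Matrix.map_mul]
    have c2 : t2 (y.map (algebraMap W F)) * e'.map (algebraMap W F) =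
        e'.map (algebraMap W F) * t2 (y.map (algebraMap W F)) := by
      rw [← t2_map, ← Matrix.map_mul, D.comm2, Matrix.map_mul]
    have c2p : ∀ n : ℕ, (t2 (y.map (algebraMap W F))) ^ n * e'.map (algebraMap W F) =
        e'.map (algebraMap W F) * (t2 (y.map (algebraMap W F))) ^ n := by
      intro n
      exact ((show Commute (t2 (y.map (algebraMap W F))) (e'.map (algebraMap W F)) from
        c2).pow_left n)
    have i1 : e'.map (algebraMap W F) * e'.map (algebraMap W F) = e'.map (algebraMap W F) := by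
      rw [← Matrix.map_mul, D.idem']
    have i2 : e.map (algebraMap W F) * e.map (algebraMap W F) = e.map (algebraMap W F) := by
      rw [← Matrix.map_mul, D.idem]
    obtain ⟨g1, g2, g3, g4⟩ := hT
    let T' : Matrix (X × X) S F :=
      e'.map (algebraMap W F) * star2 base q T * e.map (algebraMap W F)
    have a1 : t1 (y.map (algebraMap W F)) * T' = 0 := by
      show t1 (y.map (algebraMap W F)) * (e'.map (algebraMap W F) * star2 base q T *
        e.map (algebraMap W F)) = 0
      rw [← Matrix.mul_assoc, ← Matrix.mul_assoc, c1, Matrix.mul_assoc (e'.map _), star2_t1, h1',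
        star2_zero, Matrix.mul_zero, Matrix.zero_mul]
    have a2 : (t2 (y.map (algebraMap W F))) ^ (k - 1) * T' = T := by
      show (t2 (y.map (algebraMap W F))) ^ (k - 1) * (e'.map (algebraMap W F) * star2 base q T *
        e.map (algebraMap W F)) = T
      have h3 : (t2 (y.map (algebraMap W F))) ^ (k - 1) * star2 base q T = T := by
        have h4 := star2_one base T
        have h5 : (fun x : X => (1 : Matrix X X F)) = fun x =>
            (fun x => (y.map (algebraMap W F)) ^ (k - 1) * q x) x +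
              (fun x => r x * (y.map (algebraMap W F))) x := funext D.eq
        rw [h5, star2_add, ← star2_t2 base (y.map (algebraMap W F)) r, h2', star2_zero,
          add_zero] at h4
        rw [← t2_pow, t2_star2]
        exact h4
      rw [← Matrix.mul_assoc, ← Matrix.mul_assoc, c2p, Matrix.mul_assoc (e'.map _), h3]
      exact g2
    have a3 : T' ∈ LL rel e' e F := by
      refine ⟨D.cF _ (D.cq T g1), ?_, ?_, ?_⟩
      · show e'.map (algebraMap W F) * (e'.map (algebraMap W F) * star2 base q T *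
          e.map (algebraMap W F)) * e.map (algebraMap W F) = e'.map (algebraMap W F) *
          star2 base q T * e.map (algebraMap W F)
        rw [Matrix.mul_assoc _ _ (e.map _), Matrix.mul_assoc _ (e.map _) (e.map _), i2,
          ← Matrix.mul_assoc, ← Matrix.mul_assoc, i1]
      · have h6 := t1_pow_eq (R := F) D.pow
        have h7 : t1 (y.map (algebraMap W F)) ^ k * T' = 0 := by
          rw [show k = (k - 1) + 1 by omega, pow_succ, Matrix.mul_assoc, a1, Matrix.mul_zero]
        rw [h6, Matrix.sub_mul, hpM, Matrix.zero_mul, zero_sub, neg_eq_zero] at h7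
        exact h7
      · have h6 := t2_pow_eq (R := F) D.pow
        have h7 : t2 (y.map (algebraMap W F)) ^ k * T' = 0 := by
          rw [show k = 1 + (k - 1) by omega, pow_add, pow_one, Matrix.mul_assoc, a2, h2']
        rw [h6, Matrix.sub_mul, hpM, Matrix.zero_mul, zero_sub, neg_eq_zero] at h7
        exact h7
    refine ⟨⟨T', a3⟩, Subtype.ext a1, ?_⟩
    apply Subtype.ext
    rw [opL_pow_coe]
    exact a2

end

end PDeg.FactM
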