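import Pool.Agent.Lib.MP_369ee2_lc.FibreBad
import Pool.Agent.Lib.MP_369ee2_lc.BlockBad

/-!
# Prime fibres and prime blocks, from the prime degree theorem
-/

namespace PDeg

open MSch

/-- the prime degree theorem, as a statement -/
def PrimeDegree : Prop :=
  ∀ (V : Type) [Fintype V] (m : ℕ) (Q : MScheme V m), 6 ≤ m → (Fintype.card V).Prime →
    Q.Homogeneous → Q.Antisymmetric → Q.HasMatching

/-- there is no bad prime number -/
theorem PrimeDegree.not_bad (h : PrimeDegree) {m n : ℕ} (hm : 6 ≤ m) (hn : n.Prime) :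
    ¬ Bad m n := by
  rintro ⟨-, V, fV, Q, hc, hH, hA, hM⟩
  exact hM (h V m Q hm (by rw [hc]; exact hn) hH hA)

/-- a fibre of prime size gives a matching -/
theorem PrimeDegree.fibre (h : PrimeDegree) {V : Type} [Fintype V] {m j : ℕ} (Q : MScheme V m)
    (hA : Q.Antisymmetric) (hj : j + 6 ≤ m) (x : Fin j ↪ V) (v : V) (hv : v ∉ Set.range x)
    (hp : (Q.cls x v).ncard.Prime) : Q.HasMatching := by
  by_contra hM
  exact h.not_bad (by omega) hp (fibre_bad Q hA hM (by omega) x v hv hp.two_le)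

/-- a block of prime size gives a matching -/
theorem PrimeDegree.block (h : PrimeDegree) {V : Type} [Fintype V] {m : ℕ} (Q : MScheme V m)
    (hm : 6 ≤ m) (hH : Q.Homogeneous) (hA : Q.Antisymmetric) (E : Setoid V)
    (hE : ∀ a b : Fin 2 ↪ V, (Q.P 2).r a b → E.r (a 0) (a 1) → E.r (b 0) (b 1))
    (v : V) (hp : {w | E.r w v}.ncard.Prime) : Q.HasMatching := by
  by_contra hM
  exact h.not_bad hm hp
    (block_bad Q (by omega) hH hA hM E (fun a b _ _ => hE a b) v hp.two_le)

end PDeg
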