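import Pool.Agent.Lib.MP_369ee2_lc_PD.Block
import Pool.Agent.Lib.MP_369ee2_lc.FibreBad

/-!
# Fibre and block version of the prime degree theorem
-/

namespace PDeg

open MSch Function MSch.FibreBad

variable {V : Type} [Fintype V] {m j : ℕ}

theorem sch_hom (Q : MScheme V m) (hj : j < m) (x : Fin j ↪ V) (v : V) (hv : v ∉ Set.range x)
    [Fintype ↥(Q.cls x v)] : (sch Q x v hj.le).Homogeneous := by
  intro a b
  have key : ∀ a : Fin 1 ↪ ↥(Q.cls x v), (Q.P (j + 1)).r (ap Q x v 1 a) (ext x v hv) := by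
    intro a
    obtain ⟨hw, hv', h⟩ := (a 0).2
    have e : ap Q x v 1 a = ext x (a 0) hw := by
      apply DFunLike.ext
      intro k
      refine Fin.lastCases ?_ (fun k => ?_) k
      · exact (ap_right Q x v a 0).trans (ext_last x _ hw).symm
      · exact (ap_left Q x v a k).trans (ext_castSucc x _ hw k).symm
    rw [e]
    exact h
  exact (Q.P (j + 1)).trans' (key a) ((Q.P (j + 1)).symm' (key b))

theorem sch_anti (Q : MScheme V m) (hj : j < m) (hA : Q.Antisymmetric) (x : Fin j ↪ V) (v : V)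
    [Fintype ↥(Q.cls x v)] : (sch Q x v hj.le).Antisymmetric := by
  intro s hs σ hσ w h
  have h1 : (Q.P (j + s)).r (ap Q x v s (σ.toEmbedding.trans w)) (ap Q x v s w) := h
  rw [← ap_perm] at h1
  exact hA (j + s) (by omega) (pm j σ) (pm_ne_one hσ) _ h1

theorem sch_matching (Q : MScheme V m) (hj : j < m) (x : Fin j ↪ V) (v : V)
    [Fintype ↥(Q.cls x v)] (h : (sch Q x v hj.le).HasMatching) : Q.HasMatching := by
  obtain ⟨s, hs1, hs2, z, i, i', hlt, hrel, hcard⟩ := h
  refine ⟨j + s, by omega, by omega, ap Q x v (s + 1) z, Fin.natAdd j i,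
    Fin.natAdd j i', ?_, ?_, ?_⟩
  · rw [Fin.lt_def] at hlt ⊢
    simp
    exact hlt
  · rw [ap_del, ap_del]
    exact hrel
  · have e1 := rel_size Q (by omega : j + s + 1 ≤ m)
      (Fin.succAboveEmb (Fin.natAdd j i : Fin (j + s + 1))) (ap Q x v (s + 1) z)
    have e2 := rel_size (sch Q x v hj.le) hs2 (Fin.succAboveEmb i) z
    have e3 := fibre_count Q x v (by omega) i z (del i z)
    have e4 : (sch Q x v hj.le).size ((Fin.succAboveEmb i).trans z) =
      (sch Q x v hj.le).size z := hcard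
    have hpos : 0 < (sch Q x v hj.le).size ((Fin.succAboveEmb i).trans z) := by
      unfold MScheme.size
      have _ : Nonempty {y : Fin s ↪ ↥(Q.cls x v) // ((sch Q x v hj.le).P s).r y
        ((Fin.succAboveEmb i).trans z)} := ⟨⟨_, ((sch Q x v hj.le).P s).refl' _⟩⟩
      exact Nat.card_pos
    rw [← e4] at e2
    have e5 : Nat.card {w : Fin (s + 1) ↪ ↥(Q.cls x v) // ((sch Q x v hj.le).P (s + 1)).r w z ∧
        (Fin.succAboveEmb i).trans w = (Fin.succAboveEmb i).trans z} = 1 := by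
      have : (sch Q x v hj.le).size ((Fin.succAboveEmb i).trans z) * 1 =
        (sch Q x v hj.le).size ((Fin.succAboveEmb i).trans z) * _ := (mul_one _).trans e2
      exact (Nat.eq_of_mul_eq_mul_left hpos this).symm
    rw [← ap_del] at e3
    have e6 : Nat.card {y : Fin (j + s + 1) ↪ V // (Q.P (j + s + 1)).r y
        (ap Q x v (s + 1) z) ∧
        (Fin.succAboveEmb (Fin.natAdd j i : Fin (j + s + 1))).trans y =
          (Fin.succAboveEmb (Fin.natAdd j i : Fin (j + s + 1))).trans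
          (ap Q x v (s + 1) z)} = 1 := e3.symm.trans e5
    have e7 := e1.trans (congrArg _ e6)
    rw [mul_one] at e7
    exact e7.symm

theorem ap_two (Q : MScheme V m) (x : Fin j ↪ V) (v : V) (w : Fin 2 ↪ ↥(Q.cls x v))
    (h0 : (w 0 : V) ∉ Set.range x) (h1 : (w 1 : V) ∉ Set.range (ext x (w 0) h0)) :
    ap Q x v 2 w = ext (ext x (w 0) h0) (w 1) h1 := by
  apply DFunLike.ext
  intro k
  refine Fin.lastCases ?_ (fun k => ?_) k
  · exact (ap_right Q x v w 1).trans (ext_last _ _ h1).symm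
  · refine Fin.lastCases ?_ (fun k => ?_) k
    · exact (ap_right Q x v w 0).trans
        ((ext_last x _ h0).symm.trans (ext_castSucc _ _ h1 (Fin.last j)).symm)
    · exact (ap_left Q x v w k).trans
        ((ext_castSucc x _ h0 k).symm.trans (ext_castSucc _ _ h1 k.castSucc).symm)

theorem sch_weak (Q : MScheme V m) (hj : j + 2 ≤ m)
    (hA : ∀ x : Fin 2 ↪ V, ¬ (Q.P 2).r ((Equiv.swap (0 : Fin 2) 1).toEmbedding.trans x) x)
    (x : Fin j ↪ V) (v : V) [Fintype ↥(Q.cls x v)] :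
    ∀ w : Fin 2 ↪ ↥(Q.cls x v), ¬ ((sch Q x v (by omega : j ≤ m)).P 2).r
      ((Equiv.swap (0 : Fin 2) 1).toEmbedding.trans w) w := by
  intro w h
  have h1 : (Q.P (j + 2)).r (ap Q x v 2 ((Equiv.swap (0 : Fin 2) 1).toEmbedding.trans w))
    (ap Q x v 2 w) := h
  have h2 := P_comp Q hj (Fin.natAddEmb j) h1
  apply hA (w.trans (Embedding.subtype _))
  have e : ∀ w' : Fin 2 ↪ ↥(Q.cls x v), (Fin.natAddEmb j : Fin 2 ↪ Fin (j + 2)).trans
      (ap Q x v 2 w') = w'.trans (Embedding.subtype _) := by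
    intro w'
    apply DFunLike.ext
    intro k
    exact ap_right Q x v w' k
  rw [e, e] at h2
  exact h2

/-- **Fibre and block version.** Antisymmetry is only asked of the colours of pairs. `Φ` is the fibre of `v` over the tuple `x`, `E` an equivalence
relation whose restriction to `Φ` is a union of colours of pairs over `x`, and the class of `v`
in `Φ` has prime cardinality. -/
theorem fibre_block_weak
    (main : ∀ (V : Type) [Fintype V] (m : ℕ) (Q : MScheme V m), 6 ≤ m →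
      (Fintype.card V).Prime → Q.Homogeneous →
      (∀ x : Fin 2 ↪ V, ¬ (Q.P 2).r ((Equiv.swap (0 : Fin 2) 1).toEmbedding.trans x) x) →
      Q.HasMatching)
    (Q : MScheme V m)
    (hA : ∀ x : Fin 2 ↪ V, ¬ (Q.P 2).r ((Equiv.swap (0 : Fin 2) 1).toEmbedding.trans x) x)
    (hj : j + 6 ≤ m) (x : Fin j ↪ V) (v : V)
    (hv : v ∉ Set.range x) (E : Setoid V)
    (hE : ∀ (a b a' b' : V) (ha : a ∉ Set.range x) (hb : b ∉ Set.range (ext x a ha))
      (ha' : a' ∉ Set.range x) (hb' : b' ∉ Set.range (ext x a' ha')),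
      a ∈ Q.cls x v → b ∈ Q.cls x v →
      (Q.P (j + 2)).r (ext (ext x a ha) b hb) (ext (ext x a' ha') b' hb') → E.r a b → E.r a' b')
    (hp : {w | w ∈ Q.cls x v ∧ E.r w v}.ncard.Prime) : Q.HasMatching := by
  classical
  haveI : Fintype ↥(Q.cls x v) := Fintype.ofFinite _
  have hjm : j < m := by omega
  have hvm : v ∈ Q.cls x v := ⟨hv, hv, (Q.P _).refl' _⟩
  have hmem : ∀ w : Fin 2 ↪ ↥(Q.cls x v), ∃ (h0 : (w 0 : V) ∉ Set.range x)
      (h1 : (w 1 : V) ∉ Set.range (ext x (w 0) h0)), ap Q x v 2 w = ext (ext x (w 0) h0) (w 1) h1 := by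
    intro w
    have h0 : (w 0 : V) ∉ Set.range x := cls_nr Q x v (w 0).2
    have h1 : (w 1 : V) ∉ Set.range (ext x (w 0) h0) := by
      rintro ⟨k, hk⟩
      revert hk
      refine Fin.lastCases ?_ (fun k => ?_) k
      · intro hk
        have hk' : (w 0 : V) = w 1 := (ext_last x _ h0).symm.trans hk
        exact absurd (w.injective (Subtype.ext hk')) (by decide)
      · intro hk
        have hk' : x k = (w 1 : V) := (ext_castSucc x _ h0 k).symm.trans hk
        exact cls_nr Q x v (w 1).2 ⟨k, hk'⟩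
    exact ⟨h0, h1, ap_two Q x v w h0 h1⟩
  have hE' : ∀ a b : Fin 2 ↪ ↥(Q.cls x v), ((sch Q x v hjm.le).P 2).r a b →
      ((E.comap Subtype.val).r (a 0) (a 1) → (E.comap Subtype.val).r (b 0) (b 1)) := by
    intro a b hab hE1
    obtain ⟨h0, h1, e1⟩ := hmem a
    obtain ⟨h0', h1', e2⟩ := hmem b
    have hab' : (Q.P (j + 2)).r (ap Q x v 2 a) (ap Q x v 2 b) := hab
    rw [e1, e2] at hab'
    exact hE _ _ _ _ h0 h1 h0' h1' (a 0).2 (a 1).2 hab' hE1
  apply sch_matching Q hjm x v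
  refine block_version_weak main (sch Q x v hjm.le) (by omega) (sch_hom Q hjm x v hv)
    (sch_weak Q (by omega) hA x v) (E.comap Subtype.val)
    (fun a b hab => ⟨hE' a b hab, hE' b a (((sch Q x v hjm.le).P 2).symm' hab)⟩) ⟨v, hvm⟩ ?_
  have e : {b : ↥(Q.cls x v) // (E.comap Subtype.val).r b ⟨v, hvm⟩} ≃
      {w | w ∈ Q.cls x v ∧ E.r w v} :=
    { toFun := fun b => ⟨b.1.1, b.1.2, b.2⟩
      invFun := fun w => ⟨⟨w.1, w.2.1⟩, w.2.2⟩
      left_inv := fun b => rfl
      right_inv := fun w => rfl }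
  rw [Nat.card_congr e, Nat.card_coe_set_eq]
  exact hp

/-- **Fibre and block version.** `Φ` is the fibre of `v` over the tuple `x`, `E` an equivalence
relation whose restriction to `Φ` is a union of colours of pairs over `x`, and the class of `v`
in `Φ` has prime cardinality. -/
theorem fibre_block
    (main : ∀ (V : Type) [Fintype V] (m : ℕ) (Q : MScheme V m), 6 ≤ m →
      (Fintype.card V).Prime → Q.Homogeneous → Q.Antisymmetric → Q.HasMatching)
    (Q : MScheme V m) (hA : Q.Antisymmetric) (hj : j + 6 ≤ m) (x : Fin j ↪ V) (v : V)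
    (hv : v ∉ Set.range x) (E : Setoid V)
    (hE : ∀ (a b a' b' : V) (ha : a ∉ Set.range x) (hb : b ∉ Set.range (ext x a ha))
      (ha' : a' ∉ Set.range x) (hb' : b' ∉ Set.range (ext x a' ha')),
      a ∈ Q.cls x v → b ∈ Q.cls x v →
      (Q.P (j + 2)).r (ext (ext x a ha) b hb) (ext (ext x a' ha') b' hb') → E.r a b → E.r a' b')
    (hp : {w | w ∈ Q.cls x v ∧ E.r w v}.ncard.Prime) : Q.HasMatching := by
  classical
  haveI : Fintype ↥(Q.cls x v) := Fintype.ofFinite _
  have hjm : j < m := by omega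
  have hvm : v ∈ Q.cls x v := ⟨hv, hv, (Q.P _).refl' _⟩
  have hmem : ∀ w : Fin 2 ↪ ↥(Q.cls x v), ∃ (h0 : (w 0 : V) ∉ Set.range x)
      (h1 : (w 1 : V) ∉ Set.range (ext x (w 0) h0)), ap Q x v 2 w = ext (ext x (w 0) h0) (w 1) h1 := by
    intro w
    have h0 : (w 0 : V) ∉ Set.range x := cls_nr Q x v (w 0).2
    have h1 : (w 1 : V) ∉ Set.range (ext x (w 0) h0) := by
      rintro ⟨k, hk⟩
      revert hk
      refine Fin.lastCases ?_ (fun k => ?_) k
      · intro hk
        have hk' : (w 0 : V) = w 1 := (ext_last x _ h0).symm.trans hk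
        exact absurd (w.injective (Subtype.ext hk')) (by decide)
      · intro hk
        have hk' : x k = (w 1 : V) := (ext_castSucc x _ h0 k).symm.trans hk
        exact cls_nr Q x v (w 1).2 ⟨k, hk'⟩
    exact ⟨h0, h1, ap_two Q x v w h0 h1⟩
  have hE' : ∀ a b : Fin 2 ↪ ↥(Q.cls x v), ((sch Q x v hjm.le).P 2).r a b →
      ((E.comap Subtype.val).r (a 0) (a 1) → (E.comap Subtype.val).r (b 0) (b 1)) := by
    intro a b hab hE1
    obtain ⟨h0, h1, e1⟩ := hmem a
    obtain ⟨h0', h1', e2⟩ := hmem b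
    have hab' : (Q.P (j + 2)).r (ap Q x v 2 a) (ap Q x v 2 b) := hab
    rw [e1, e2] at hab'
    exact hE _ _ _ _ h0 h1 h0' h1' (a 0).2 (a 1).2 hab' hE1
  apply sch_matching Q hjm x v
  refine block_version main (sch Q x v hjm.le) (by omega) (sch_hom Q hjm x v hv)
    (sch_anti Q hjm hA x v) (E.comap Subtype.val)
    (fun a b hab => ⟨hE' a b hab, hE' b a (((sch Q x v hjm.le).P 2).symm' hab)⟩) ⟨v, hvm⟩ ?_
  have e : {b : ↥(Q.cls x v) // (E.comap Subtype.val).r b ⟨v, hvm⟩} ≃
      {w | w ∈ Q.cls x v ∧ E.r w v} :=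
    { toFun := fun b => ⟨b.1.1, b.1.2, b.2⟩
      invFun := fun w => ⟨⟨w.1, w.2.1⟩, w.2.2⟩
      left_inv := fun b => rfl
      right_inv := fun w => rfl }
  rw [Nat.card_congr e, Nat.card_coe_set_eq]
  exact hp

end PDeg
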