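import Pool.Agent.Lib.MP_369ee2_lc_PD.HColC
import Pool.Agent.Lib.MP_369ee2_lc_PD.Coh

/-!
# From a homogeneous antisymmetric `m`-scheme, `m ≥ 6`, of prime degree to a coherent colouring
-/

namespace PDeg

open MSch Function

/-- the coherent colouring of a homogeneous scheme without symmetric colour of pairs -/
def Coh.ofWeak {V : Type} [Fintype V] {m : ℕ} (Q : MScheme V m) (hm : 6 ≤ m)
    (hp : 2 ≤ Fintype.card V) (hom : Q.Homogeneous)
    (h2 : ∀ x : Fin 2 ↪ V, ¬ (Q.P 2).r ((Equiv.swap (0 : Fin 2) 1).toEmbedding.trans x) x) :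
    Coh V where
  r := PD.SS Q
  equiv := fun _ _ => ⟨PD.SS.refl, PD.SS.symm, PD.SS.trans⟩
  reindex := fun _ _ π _ _ h => h.reix π
  pattern := fun _ _ _ h i j => (h.1 i j).1
  regular := fun hn z _ _ h => h.reg (by omega) z
  hom := (PD.Col.ofMScheme Q (by omega) hom h2).hom
  odd := by
    intro n hn1 hn3 u b
    exact PD.Col.fib_odd (C := PD.Col.ofMScheme Q (by omega) hom h2) u b (by omega)
  lt := by
    intro n hn1 hn3 u b
    obtain ⟨k, rfl⟩ : ∃ k, n = k + 1 := ⟨n - 1, by omega⟩
    exact PD.Col.fib_lt (C := PD.Col.ofMScheme Q (by omega) hom h2) hp u b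
  anti := by
    intro x y hxy h
    have hinj : Injective ![y, x] := by
      intro i j
      fin_cases i <;> fin_cases j <;> simp [hxy, hxy.symm]
    have e : ![y, x] ∘ (Equiv.swap (0 : Fin 2) 1) = ![x, y] := by
      ext i
      fin_cases i <;> simp
    apply (PD.Col.ofMScheme Q (by omega) hom h2).anti (by omega) ![y, x] hinj
    rw [e]
    exact h

theorem Coh.ofWeak_r {V : Type} [Fintype V] {m : ℕ} (Q : MScheme V m) (hm : 6 ≤ m)
    (hp : 2 ≤ Fintype.card V) (hom : Q.Homogeneous)
    (h2 : ∀ x : Fin 2 ↪ V, ¬ (Q.P 2).r ((Equiv.swap (0 : Fin 2) 1).toEmbedding.trans x) x) {n : ℕ}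
    (hn : n ≤ m) (x y : Fin n ↪ V) :
    (Coh.ofWeak Q hm hp hom h2).r n x y ↔ (Q.P n).r x y :=
  PD.SS.iff_emb hn x y

/-- antisymmetry at level two -/
theorem weak_of_anti {V : Type} [Fintype V] {m : ℕ} {Q : MScheme V m} (hm : 2 ≤ m)
    (anti : Q.Antisymmetric) :
    ∀ x : Fin 2 ↪ V, ¬ (Q.P 2).r ((Equiv.swap (0 : Fin 2) 1).toEmbedding.trans x) x :=
  fun x => anti 2 hm (Equiv.swap (0 : Fin 2) 1) (by decide) x

/-- the coherent colouring of a homogeneous antisymmetric scheme -/
def Coh.ofMScheme {V : Type} [Fintype V] {m : ℕ} (Q : MScheme V m) (hm : 6 ≤ m)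
    (hp : 2 ≤ Fintype.card V) (hom : Q.Homogeneous) (anti : Q.Antisymmetric) : Coh V :=
  Coh.ofWeak Q hm hp hom (weak_of_anti (by omega) anti)

theorem Coh.ofMScheme_r {V : Type} [Fintype V] {m : ℕ} (Q : MScheme V m) (hm : 6 ≤ m)
    (hp : 2 ≤ Fintype.card V) (hom : Q.Homogeneous) (anti : Q.Antisymmetric) {n : ℕ}
    (hn : n ≤ m) (x y : Fin n ↪ V) :
    (Coh.ofMScheme Q hm hp hom anti).r n x y ↔ (Q.P n).r x y :=
  PD.SS.iff_emb hn x y

/-- if all fibres over injective pairs are singletons, the scheme has a matching -/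
theorem Coh.matching {V : Type} [Fintype V] {m : ℕ} (Q : MScheme V m) (hm : 6 ≤ m)
    (hp : 2 ≤ Fintype.card V) (hom : Q.Homogeneous) (anti : Q.Antisymmetric)
    (h1 : ∀ x y : V, x ≠ y → ∀ b : V, b ≠ x → b ≠ y →
      Nat.card {a : V // (Coh.ofMScheme Q hm hp hom anti).r 3 (sn ![x, y] a) (sn ![x, y] b)} = 1) :
    Q.HasMatching := by
  classical
  -- distinct points
  obtain ⟨x0, y0, hxy0⟩ := Fintype.exists_pair_of_one_lt_card (α := V) (by omega)
  let pt : V → (Fin 1 ↪ V) := fun x => ⟨fun _ => x, fun a b _ => Subsingleton.elim a b⟩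
  have hpt : ∀ x v : V, v ≠ x → v ∉ Set.range (pt x) := by
    rintro x v hv ⟨i, hi⟩
    exact hv hi.symm
  by_cases hsing : ∀ x v : V, v ≠ x → (Q.cls (pt x) v).ncard = 1
  · refine Singletons.matching_of Q (j := 1) le_rfl (by omega) (pt x0) y0
      (hpt x0 y0 hxy0.symm) (hsing x0 y0 hxy0.symm) 0 (by decide) (hom _ _)
  · push Not at hsing
    obtain ⟨x, v, hv, hne⟩ := hsing
    -- a second point in the fibre of `v` over `x`
    obtain ⟨w, hw, hwv⟩ : ∃ w ∈ Q.cls (pt x) v, w ≠ v := by
      by_contra hcon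
      push Not at hcon
      apply hne
      rw [Set.ncard_eq_one]
      refine ⟨v, ?_⟩
      ext w
      constructor
      · intro hw
        exact hcon w hw
      · intro hw
        rw [Set.mem_singleton_iff] at hw
        rw [hw]
        exact Singletons.mem_cls_self Q (pt x) (hpt x v hv)
    obtain ⟨hwr, hvr, hP⟩ := hw
    have hwx : w ≠ x := by
      rintro rfl
      exact hwr ⟨0, rfl⟩
    -- the pair `(x, v)` and the third point `w`
    let pr2 : Fin 2 ↪ V := ext (pt x) v hvr
    have e2 : (pr2 : Fin 2 → V) = ![x, v] := by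
      ext i
      fin_cases i
      · rfl
      · rfl
    have hw3 : w ∉ Set.range pr2 := by
      rintro ⟨i, hi⟩
      rw [e2] at hi
      fin_cases i
      · exact hwx hi.symm
      · exact hwv hi.symm
    have hcls : (Q.cls pr2 w).ncard = 1 := by
      have h2 := h1 x v hv.symm w hwx hwv
      rw [Set.ncard_eq_one]
      obtain ⟨hs, -⟩ := Nat.card_eq_one_iff_unique.1 h2
      refine ⟨w, ?_⟩
      ext a
      rw [Set.mem_singleton_iff]
      constructor
      · rintro ⟨ha, hw', hPa⟩
        have h3 : (Coh.ofMScheme Q hm hp hom anti).r 3 (sn ![x, v] a) (sn ![x, v] w) := by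
          have h4 := (Coh.ofMScheme_r Q hm hp hom anti (n := 3) (by omega) _ _).2 hPa
          have ea : (ext pr2 a ha : Fin 3 → V) = sn ![x, v] a := by
            rw [← e2]; rfl
          have ew : (ext pr2 w hw' : Fin 3 → V) = sn ![x, v] w := by
            rw [← e2]; rfl
          rw [ea, ew] at h4
          exact h4
        have := hs.allEq ⟨a, h3⟩ ⟨w, (Coh.equiv _ 3 (by norm_num)).refl _⟩
        exact congrArg Subtype.val this
      · rintro rfl
        exact Singletons.mem_cls_self Q pr2 hw3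
    refine Singletons.matching_of Q (j := 2) (by norm_num) (by omega) pr2 w hw3 hcls 1
      (by decide) ?_
    have ed : del 1 (ext pr2 w hw3) = ext (pt x) w hwr := by
      ext i
      fin_cases i
      · rfl
      · rfl
    rw [ed]
    exact hP

end PDeg
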