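import Pool.Agent.Lib.MP_369ee2_lc_PD.Coh
import Pool.Agent.Lib.MP_369ee2_lc.RelAPI
import Pool.Agent.Lib.MP_369ee2_lc_PD.HFrom

/-!
# From schemes to coherent colourings (row S0)
-/

namespace PDeg

open MSch

/-- the coherent colouring, from homogeneity and the absence of symmetric colours of pairs -/
theorem exists_coh_weak {V : Type} [Fintype V] {m : ℕ} (Q : MScheme V m) (hm : 6 ≤ m)
    (hp : 2 ≤ Fintype.card V) (hH : Q.Homogeneous)
    (h2 : ∀ x : Fin 2 ↪ V, ¬ (Q.P 2).r ((Equiv.swap (0 : Fin 2) 1).toEmbedding.trans x) x) :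
    ∃ C : Coh V, ∀ n, n ≤ m → ∀ x y : Fin n ↪ V, C.r n x y ↔ (Q.P n).r x y :=
  ⟨Coh.ofWeak Q hm hp hH h2, fun _ hn x y => Coh.ofWeak_r Q hm hp hH h2 hn x y⟩

/-- the number of points is odd -/
theorem odd_card_weak {V : Type} [Fintype V] {m : ℕ} (Q : MScheme V m) (hm : 2 ≤ m)
    (hV : 1 ≤ Fintype.card V) (hH : Q.Homogeneous)
    (h2 : ∀ x : Fin 2 ↪ V, ¬ (Q.P 2).r ((Equiv.swap (0 : Fin 2) 1).toEmbedding.trans x) x) :
    Odd (Fintype.card V) := by
  obtain ⟨b⟩ : Nonempty V := Fintype.card_pos_iff.1 (by omega)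
  have h := PD.Col.fib_odd (C := PD.Col.ofMScheme Q (by omega) hH h2) (n := 0) Fin.elim0 b hm
  have e : {a : V // (PD.Col.ofMScheme Q (by omega) hH h2).S 1
      (Fin.snoc (Fin.elim0 : Fin 0 → V) a) (Fin.snoc (Fin.elim0 : Fin 0 → V) b)} ≃ V :=
    { toFun := fun a => a.1
      invFun := fun a => ⟨a, (PD.Col.ofMScheme Q (by omega) hH h2).hom _ _⟩
      left_inv := fun _ => rfl
      right_inv := fun _ => rfl }
  have h3 : (PD.Col.ofMScheme Q (by omega) hH h2).fib Fin.elim0 b = Fintype.card V := by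
    rw [← Nat.card_eq_fintype_card]
    exact Nat.card_congr e
  rwa [h3] at h

theorem exists_coh {V : Type} [Fintype V] {m : ℕ} (Q : MScheme V m) (hm : 6 ≤ m)
    (hp : 2 ≤ Fintype.card V) (hH : Q.Homogeneous) (hA : Q.Antisymmetric) :
    ∃ C : Coh V, ∀ n, n ≤ 6 → ∀ x y : Fin n ↪ V, C.r n x y ↔ (Q.P n).r x y :=
  ⟨Coh.ofMScheme Q hm hp hH hA, fun _ hn x y =>
    Coh.ofMScheme_r Q hm hp hH hA (hn.trans hm) x y⟩

end PDeg
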