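import Mathlib

/-!
# Hensel: `k`-th roots in finite commutative algebras over a complete local ring
-/

namespace PD

open Ideal

/-- a finite module over a precomplete ring is precomplete -/
theorem isPrecomplete_of_finite {R M : Type*} [CommRing R] (I : Ideal R) [AddCommGroup M]
    [Module R M] [Module.Finite R M] [IsPrecomplete I R] : IsPrecomplete I M := by
  obtain ⟨n, φ, hφ⟩ := Module.Finite.exists_fin' R M
  have key : ∀ m : ℕ, ∀ x ∈ (I ^ m • ⊤ : Submodule R M),
      ∃ h : Fin n → R, (∀ i, h i ∈ I ^ m) ∧ φ h = x := by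
    intro m x hx
    induction hx using Submodule.smul_induction_on' with
    | smul r hr y _ =>
      obtain ⟨z, rfl⟩ := hφ y
      exact ⟨r • z, fun i => Ideal.mul_mem_right _ _ hr, by simp⟩
    | add a _ b _ ha hb =>
      obtain ⟨h1, h1m, h1e⟩ := ha
      obtain ⟨h2, h2m, h2e⟩ := hb
      exact ⟨h1 + h2, fun i => Ideal.add_mem _ (h1m i) (h2m i), by simp [h1e, h2e]⟩
  have back : ∀ m : ℕ, ∀ h : Fin n → R, (∀ i, h i ∈ I ^ m) → φ h ∈ (I ^ m • ⊤ : Submodule R M) := by
    intro m h hm
    have : φ h = ∑ i, h i • φ (Pi.single i 1) := by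
      conv_lhs => rw [← Finset.univ_sum_single h]
      rw [map_sum]
      refine Finset.sum_congr rfl fun i _ => ?_
      rw [← map_smul]
      congr 1
      ext j
      by_cases hij : j = i
      · subst hij; simp
      · simp [hij]
    rw [this]
    exact Submodule.sum_mem _ fun i _ => Submodule.smul_mem_smul (hm i) trivial
  refine ⟨fun f hf => ?_⟩
  have step : ∀ m : ℕ, ∃ h : Fin n → R, (∀ i, h i ∈ I ^ m) ∧ φ h = f (m + 1) - f m := by
    intro m
    apply key
    have := hf (Nat.le_succ m)
    rw [SModEq.comm, SModEq.sub_mem] at this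
    exact this
  choose h hh hφh using step
  obtain ⟨g0, hg0⟩ := hφ (f 0)
  let g : ℕ → Fin n → R := fun m => g0 + ∑ j ∈ Finset.range m, h j
  have hg : ∀ m, φ (g m) = f m := by
    intro m
    induction m with
    | zero => simp [g, hg0]
    | succ m ih =>
      have : g (m + 1) = g m + h m := by simp [g, Finset.sum_range_succ, add_assoc]
      rw [this, map_add, ih, hφh]; abel
  have hC : ∀ i : Fin n, ∀ {a b : ℕ}, a ≤ b → g a i ≡ g b i [SMOD (I ^ a • ⊤ : Submodule R R)] := by
    intro i a b hab
    rw [SModEq.comm, SModEq.sub_mem]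
    induction b, hab using Nat.le_induction with
    | base => simp
    | succ b hab ih =>
      have h1 : g (b + 1) i - g a i = (g b i - g a i) + h b i := by
        simp [g, Finset.sum_range_succ]; ring
      rw [h1]
      refine Submodule.add_mem _ ih ?_
      simpa using Ideal.pow_le_pow_right hab (hh b i)
  have hL : ∀ i : Fin n, ∃ L : R, ∀ m, g m i ≡ L [SMOD (I ^ m • ⊤ : Submodule R R)] :=
    fun i => IsPrecomplete.prec inferInstance (hC i)
  choose L hL using hL
  refine ⟨φ L, fun m => ?_⟩
  rw [SModEq.sub_mem, ← hg m, ← map_sub]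
  apply back
  intro i
  have := hL i m
  rw [SModEq.sub_mem] at this
  simpa using this

/-- a finite commutative algebra over a complete noetherian local ring is complete -/
theorem isAdicComplete_finite {W S : Type*} [CommRing W] [IsNoetherianRing W] [IsLocalRing W]
    [CommRing S] [Algebra W S] [Module.Finite W S]
    [IsAdicComplete (IsLocalRing.maximalIdeal W) W] :
    IsAdicComplete ((IsLocalRing.maximalIdeal W).map (algebraMap W S)) S := by
  have h1 : IsPrecomplete (IsLocalRing.maximalIdeal W) S := isPrecomplete_of_finite _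
  have h2 : IsHausdorff (IsLocalRing.maximalIdeal W) S := inferInstance
  have h3 : IsPrecomplete ((IsLocalRing.maximalIdeal W).map (algebraMap W S)) S :=
    (IsPrecomplete.map_algebraMap_iff).2 h1
  have h4 : IsHausdorff ((IsLocalRing.maximalIdeal W).map (algebraMap W S)) S :=
    (IsHausdorff.map_algebraMap_iff).2 h2
  exact { }

/-- in characteristic `p`: `w + nilpotent` is a `k`-th power if `w = w₀ ^ k` -/
theorem exists_root_char_p {T : Type*} [CommRing T] (p : ℕ) [Fact p.Prime] (hp : (p : T) = 0)
    {k : ℕ} (hk : Nat.Coprime k p) (w₀ w₁ n : T) (hw : w₀ * w₁ = 1) (hn : IsNilpotent n) :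
    ∃ v : T, v ^ k = w₀ ^ k + n := by
  rcases subsingleton_or_nontrivial T with hT | hT
  · exact ⟨0, Subsingleton.elim _ _⟩
  have : CharP T p := (CharP.charP_iff_prime_eq_zero (Fact.out : p.Prime)).2 hp
  obtain ⟨N, hN⟩ := hn
  have hN' : n ^ p ^ N = 0 := by
    have : N ≤ p ^ N := (Nat.lt_pow_self (Fact.out : p.Prime).one_lt).le
    exact pow_eq_zero_of_le this hN
  set m : T := w₁ ^ k * n with hm
  have hmN : (1 + m) ^ p ^ N = 1 := by
    rw [add_pow_char_pow, one_pow, hm, mul_pow, hN', mul_zero, add_zero]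
  -- j k = 1 + p ^ N l
  have hcop : Nat.Coprime k (p ^ N) := Nat.Coprime.pow_right N hk
  obtain ⟨j, hj⟩ : ∃ j l : ℕ, k * j = 1 + p ^ N * l := by
    rcases Nat.eq_zero_or_pos k with hk0 | hk0
    · subst hk0
      have : p = 1 := by simpa using hk
      exact absurd this (Fact.out : p.Prime).one_lt.ne'
    · rcases Nat.lt_or_ge 1 (p ^ N) with hpN | hpN
      · obtain ⟨j, hj⟩ := Nat.exists_mul_mod_eq_one_of_coprime hcop hpN
        refine ⟨j, (k * j) / p ^ N, ?_⟩
        have := Nat.div_add_mod (k * j) (p ^ N)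
        omega
      · have h1 : p ^ N = 1 :=
          le_antisymm hpN (pow_pos (Fact.out : p.Prime).pos N)
        exact ⟨1, k - 1, by rw [h1]; omega⟩
  obtain ⟨l, hl⟩ := hj
  refine ⟨w₀ * (1 + m) ^ j, ?_⟩
  have h1 : ((1 + m) ^ j) ^ k = 1 + m := by
    rw [← pow_mul, mul_comm, hl, pow_add, pow_one, pow_mul, hmN, one_pow, mul_one]
  rw [mul_pow, h1, hm]
  have h2 : w₀ ^ k * w₁ ^ k = 1 := by rw [← mul_pow, hw, one_pow]
  linear_combination n * h2

/-- Hensel's lemma for `k`-th roots: `W` complete, `p` in the maximal ideal, `S` finite over `W`;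
if `u = w + n` with `w` in `W` and `n` nilpotent modulo the maximal ideal of `W`, and `w` is a
`k`-th power of a unit modulo the maximal ideal, then `u` is a `k`-th power -/
theorem exists_root {W S : Type*} [CommRing W] [IsNoetherianRing W] [IsLocalRing W]
    [CommRing S] [Algebra W S] [Module.Finite W S]
    [IsAdicComplete (IsLocalRing.maximalIdeal W) W]
    (p : ℕ) [Fact p.Prime] (hp : (p : W) ∈ IsLocalRing.maximalIdeal W) {k : ℕ}
    (hk : Nat.Coprime k p) (w₀ : W) (hw₀ : IsUnit w₀) (n u : S)
    (hu : u - algebraMap W S (w₀ ^ k) - n ∈ (IsLocalRing.maximalIdeal W).map (algebraMap W S))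
    {N : ℕ} (hn : n ^ N ∈ (IsLocalRing.maximalIdeal W).map (algebraMap W S)) :
    ∃ v : S, v ^ k = u := by
  classical
  have hcomp : IsAdicComplete ((IsLocalRing.maximalIdeal W).map (algebraMap W S)) S :=
    isAdicComplete_finite
  set I : Ideal S := (IsLocalRing.maximalIdeal W).map (algebraMap W S) with hI
  have hpI : (p : S) ∈ I := by
    have := Ideal.mem_map_of_mem (algebraMap W S) hp
    simpa using this
  have hkpos : 0 < k := by
    rcases Nat.eq_zero_or_pos k with h | h
    · subst h
      have : p = 1 := by simpa using hk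
      exact absurd this (Fact.out : p.Prime).one_lt.ne'
    · exact h
  obtain ⟨w₁, hw₁⟩ := hw₀.exists_right_inv
  obtain ⟨v₀, hv₀⟩ := exists_root_char_p (T := S ⧸ I) p
    (by
      have := (Ideal.Quotient.eq_zero_iff_mem (I := I)).2 hpI
      simpa using this) hk
    (Ideal.Quotient.mk I (algebraMap W S w₀)) (Ideal.Quotient.mk I (algebraMap W S w₁))
    (Ideal.Quotient.mk I n)
    (by rw [← map_mul, ← map_mul, hw₁, map_one, map_one])
    ⟨N, by rw [← map_pow]; exact Ideal.Quotient.eq_zero_iff_mem.2 hn⟩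
  obtain ⟨a₀, rfl⟩ := Ideal.Quotient.mk_surjective v₀
  have ha₀ : a₀ ^ k - u ∈ I := by
    rw [← Ideal.Quotient.eq, map_pow, hv₀, ← map_pow, ← map_add, Ideal.Quotient.eq]
    have : algebraMap W S w₀ ^ k + n - u = -(u - algebraMap W S (w₀ ^ k) - n) := by
      rw [map_pow]; ring
    rw [this]
    exact I.neg_mem hu
  -- `k` is a unit modulo `I`
  have hkunit : IsUnit (k : W) := by
    obtain ⟨j, l, hjl⟩ : ∃ j l : ℤ, j * k + l * p = 1 := by
      have := (Nat.isCoprime_iff_coprime.2 hk)
      exact this
    by_contra hnu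
    have h1 : (k : W) ∈ IsLocalRing.maximalIdeal W := (IsLocalRing.mem_maximalIdeal _).2 hnu
    have h2 : (1 : W) ∈ IsLocalRing.maximalIdeal W := by
      have : (1 : W) = (j : W) * k + (l : W) * p := by
        exact_mod_cast (congrArg (fun t : ℤ => (t : W)) hjl).symm
      rw [this]
      exact Ideal.add_mem _ (Ideal.mul_mem_left _ _ h1) (Ideal.mul_mem_left _ _ hp)
    exact (IsLocalRing.maximalIdeal.isMaximal W).ne_top ((Ideal.eq_top_iff_one _).2 h2)
  -- `a₀` is a unit modulo `I`
  have hua : IsUnit (Ideal.Quotient.mk I a₀) := by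
    have h1 : IsUnit (Ideal.Quotient.mk I (algebraMap W S w₀) ^ k + Ideal.Quotient.mk I n) := by
      have hnil : IsNilpotent (Ideal.Quotient.mk I n) :=
        ⟨N, by rw [← map_pow]; exact Ideal.Quotient.eq_zero_iff_mem.2 hn⟩
      exact hnil.isUnit_add_left_of_commute
        (((hw₀.map (algebraMap W S)).map (Ideal.Quotient.mk I)).pow k) (Commute.all _ _)
    rw [← hv₀] at h1
    exact (isUnit_pow_iff hkpos.ne').1 h1
  have hmonic : (Polynomial.X ^ k - Polynomial.C u : Polynomial S).Monic :=
    Polynomial.monic_X_pow_sub_C u hkpos.ne'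
  obtain ⟨a, ha, -⟩ := HenselianRing.is_henselian (I := I) _ hmonic a₀
    (by simpa using ha₀)
    (by
      simp only [Polynomial.derivative_sub, Polynomial.derivative_X_pow, Polynomial.derivative_C,
        sub_zero, Polynomial.eval_mul, Polynomial.eval_pow, Polynomial.eval_X, map_mul, map_pow]
      refine IsUnit.mul ?_ (hua.pow _)
      have := (hkunit.map (algebraMap W S)).map (Ideal.Quotient.mk I)
      simpa using this)
  refine ⟨a, ?_⟩
  have := ha
  rw [Polynomial.IsRoot.def] at this
  simpa [sub_eq_zero] using this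

end PD
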