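import Pool.Agent.Lib.MP_369ee2_lc_PD.Alg
import Pool.Agent.Lib.MP_369ee2_lc_PD.OrdRoot

/-!
# Hensel for finite free commutative algebras (row B2)
-/

namespace PDeg

open scoped BigOperators

section
variable (p : ℕ) {W : Type} (K F : Type) [CommRing W] [IsDomain W] [Field K] [Algebra W K]
  [IsFractionRing W K] [Field F] [Algebra W F] [Base p W K F]

include K F

private theorem hensel_not_unit : ¬ IsUnit (p : W) := by
  intro h
  have h1 : algebraMap W F (p : W) = 0 := (Base.ker (p := p) (K := K) (F := F) (p : W)).2 dvd_rfl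
  exact (h.map (algebraMap W F)).ne_zero h1

private theorem hensel_maximal [IsDiscreteValuationRing W] :
    IsLocalRing.maximalIdeal W = Ideal.span {(p : W)} := by
  symm
  apply IsLocalRing.eq_maximalIdeal
  have h1 : Ideal.span {(p : W)} = RingHom.ker (algebraMap W F) := by
    ext w
    rw [Ideal.mem_span_singleton, RingHom.mem_ker]
    exact (Base.ker (p := p) (K := K) (F := F) w).symm
  rw [h1]
  exact RingHom.ker_isMaximal_of_surjective _ (Base.surj (p := p) (K := K) (F := F))

/-- a commutative `W`-algebra which is finite and free as a module is Henselian at `p` -/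
theorem henselian_of_finite (B : Type) [CommRing B] [Algebra W B] [Module.Finite W B]
    [Module.Free W B] : HenselianRing B (Ideal.span {(p : B)}) := by
  have hdvr : IsDiscreteValuationRing W := Base.dvr (p := p) (K := K) (F := F)
  have hmax := hensel_maximal p (W := W) K F
  have hc : IsAdicComplete (IsLocalRing.maximalIdeal W) W := by
    rw [hmax]
    exact Base.complete (p := p) (K := K) (F := F)
  have hB : IsAdicComplete ((IsLocalRing.maximalIdeal W).map (algebraMap W B)) B :=
    PD.isAdicComplete_finite
  have hmap : (IsLocalRing.maximalIdeal W).map (algebraMap W B) = Ideal.span {(p : B)} := by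
    rw [hmax, Ideal.map_span, Set.image_singleton, map_natCast]
  rw [hmap] at hB
  exact IsAdicComplete.henselianRing B _

/-- `k`-th roots: `u` a unit of `B` which modulo `p` is (unit scalar) * (1 + nilpotent) -/
theorem exists_root (B : Type) [CommRing B] [Algebra W B] [Module.Finite W B]
    [Module.Free W B] (k : ℕ) (hk : k ∣ p - 1) (hk0 : 1 ≤ k) (u n : B) (w : W) (hw : IsUnit w)
    (hu : u = algebraMap W B w * (1 + n)) (hn : ∃ N : ℕ, (p : B) ∣ n ^ N) :
    ∃ v : B, v ^ k = u := by
  have hdvr : IsDiscreteValuationRing W := Base.dvr (p := p) (K := K) (F := F)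
  have hmax := hensel_maximal p (W := W) K F
  have hc : IsAdicComplete (IsLocalRing.maximalIdeal W) W := by
    rw [hmax]
    exact Base.complete (p := p) (K := K) (F := F)
  have hmap : (IsLocalRing.maximalIdeal W).map (algebraMap W B) = Ideal.span {(p : B)} := by
    rw [hmax, Ideal.map_span, Set.image_singleton, map_natCast]
  have hp : p.Prime := Base.prime (W := W) (K := K) (F := F)
  have : Fact p.Prime := ⟨hp⟩
  have hF : IsAlgClosed F := Base.algClosed (p := p) (W := W) (K := K)
  have hcop : Nat.Coprime k p := by
    rw [Nat.coprime_comm, Nat.Prime.coprime_iff_not_dvd hp]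
    intro h
    have h1 : p ∣ p - 1 := h.trans hk
    have h2 : 0 < p - 1 := Nat.sub_pos_of_lt hp.one_lt
    have := Nat.le_of_dvd h2 h1
    omega
  obtain ⟨t, ht⟩ := Base.teich (p := p) (W := W) (K := K) (F := F)
  obtain ⟨c, hc0⟩ := IsAlgClosed.exists_pow_nat_eq (algebraMap W F w) (n := k) hk0
  have hcne : c ≠ 0 := by
    rintro rfl
    rw [zero_pow (by omega)] at hc0
    exact (hw.map (algebraMap W F)).ne_zero hc0.symm
  obtain ⟨N, hN⟩ := hn
  have hpm : (p : W) ∈ IsLocalRing.maximalIdeal W := by
    rw [hmax]
    exact Ideal.mem_span_singleton_self _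
  have hu0 : IsUnit (t c) := (IsUnit.mk0 c hcne).map t
  refine PD.exists_root p hpm hcop (t c) hu0 (algebraMap W B w * n) u ?_ (N := N) ?_
  · have h1 : u - algebraMap W B ((t c) ^ k) - algebraMap W B w * n
        = algebraMap W B (w - (t c) ^ k) := by
      rw [hu, map_sub]
      ring
    rw [h1]
    refine Ideal.mem_map_of_mem _ ?_
    rw [hmax, Ideal.mem_span_singleton]
    refine (Base.ker (p := p) (K := K) (F := F) _).1 ?_
    rw [map_sub, map_pow, ht, hc0, sub_self]
  · rw [hmap, Ideal.mem_span_singleton, mul_pow]
    exact hN.mul_left _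

end

end PDeg
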