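import Pool.Agent.Lib.MP_369ee2_lc_PD.LamLoc
import Pool.Agent.Lib.MP_369ee2_lc_PD.Hensel
import Pool.Agent.Lib.MP_369ee2_lc_PD.Sec3Base
import Pool.Agent.Lib.MP_369ee2_lc_PD.BaseWitt

/-!
# Section 3: the element `y` of `Λ_W` with `y ^ k = p - J` and `yᵀ = ζ0 y`
-/

namespace PDeg

open scoped BigOperators Matrix

namespace S3

section
variable {X : Type} [Fintype X] [DecidableEq X] (C : Coh X)
variable {p : ℕ} {W K F : Type}
  [CommRing W] [IsDomain W] [Field K] [Algebra W K] [IsFractionRing W K] [Field F] [Algebra W F]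

theorem fJ_coe : ((fJ C K : ↥(C.Lam K)) : Matrix X X K) = ((Fintype.card X : K)⁻¹) • JJ X K := rfl

theorem fJ_apply (i j : X) :
    ((fJ C K : ↥(C.Lam K)) : Matrix X X K) i j = (Fintype.card X : K)⁻¹ := by
  rw [fJ_coe]
  simp [JJ]

theorem card_ne (hB : Base p W K F) (hX : Fintype.card X = p) : (Fintype.card X : K) ≠ 0 := by
  rw [hX]
  exact p_neK hB

/-- multiplication by `J / p` on the left -/
theorem fJ_mul (hB : Base p W K F) (hX : Fintype.card X = p) (a : ↥(C.Lam K)) (x : X) :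
    fJ C K * a = (∑ j, (a : Matrix X X K) x j) • fJ C K := by
  apply Subtype.ext
  ext i j
  have h1 : ((fJ C K * a : ↥(C.Lam K)) : Matrix X X K) =
      ((fJ C K : ↥(C.Lam K)) : Matrix X X K) * (a : Matrix X X K) := rfl
  have h2 : (((∑ j, (a : Matrix X X K) x j) • fJ C K : ↥(C.Lam K)) : Matrix X X K) =
      (∑ j, (a : Matrix X X K) x j) • ((fJ C K : ↥(C.Lam K)) : Matrix X X K) := rfl
  rw [h1, h2, fJ_coe, Matrix.smul_mul, Matrix.smul_apply, JJ_mul, Matrix.smul_apply,
    Matrix.smul_apply, ← lam_row_col C (card_ne hB hX) a.2 x j]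
  simp [JJ, mul_comm]

theorem mul_fJ (hB : Base p W K F) (hX : Fintype.card X = p) (a : ↥(C.Lam K)) (x : X) :
    a * fJ C K = (∑ j, (a : Matrix X X K) x j) • fJ C K := by
  apply Subtype.ext
  ext i j
  have h1 : ((a * fJ C K : ↥(C.Lam K)) : Matrix X X K) =
      (a : Matrix X X K) * ((fJ C K : ↥(C.Lam K)) : Matrix X X K) := rfl
  have h2 : (((∑ j, (a : Matrix X X K) x j) • fJ C K : ↥(C.Lam K)) : Matrix X X K) =
      (∑ j, (a : Matrix X X K) x j) • ((fJ C K : ↥(C.Lam K)) : Matrix X X K) := rfl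
  rw [h1, h2, fJ_coe, Matrix.mul_smul, Matrix.smul_apply, mul_JJ, Matrix.smul_apply,
    Matrix.smul_apply, lam_row C a.2 x i]
  simp [JJ, mul_comm]

theorem fJ_central (hB : Base p W K F) (hX : Fintype.card X = p) (a : ↥(C.Lam K)) :
    fJ C K * a = a * fJ C K := by
  rcases isEmpty_or_nonempty X with h | ⟨⟨x⟩⟩
  · apply Subtype.ext
    ext i
    exact (h.false i).elim
  · rw [fJ_mul C hB hX a x, mul_fJ C hB hX a x]

theorem fJ_idem (hB : Base p W K F) (hX : Fintype.card X = p) :
    fJ C K * fJ C K = fJ C K := by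
  rcases isEmpty_or_nonempty X with h | ⟨⟨x⟩⟩
  · apply Subtype.ext
    ext i
    exact (h.false i).elim
  · rw [fJ_mul C hB hX _ x]
    simp only [fJ_apply]
    rw [Finset.sum_const, Finset.card_univ, nsmul_eq_mul, mul_inv_cancel₀ (card_ne hB hX),
      one_smul]

/-- `f = 1 - J / p` -/
noncomputable def ff (K : Type) [Field K] : ↥(C.Lam K) := 1 - fJ C K

theorem ff_idem (hB : Base p W K F) (hX : Fintype.card X = p) :
    ff C K * ff C K = ff C K := by
  rw [ff, mul_sub, mul_one, sub_mul, one_mul, fJ_idem C hB hX]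
  abel

theorem ff_central (hB : Base p W K F) (hX : Fintype.card X = p) (a : ↥(C.Lam K)) :
    ff C K * a = a * ff C K := by
  rw [ff, sub_mul, mul_sub, fJ_central C hB hX a, one_mul, mul_one]

/-- elements with zero row sums are fixed by `f` -/
theorem ff_mul_of (hB : Base p W K F) (hX : Fintype.card X = p) (a : ↥(C.Lam K)) (x : X)
    (h : ∑ j, (a : Matrix X X K) x j = 0) : ff C K * a = a := by
  rw [ff, sub_mul, one_mul, fJ_mul C hB hX a x, h, zero_smul, sub_zero]

theorem row_of_ff (hB : Base p W K F) (hX : Fintype.card X = p) (a : ↥(C.Lam K))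
    (h : ff C K * a = a) (x : X) : ∑ j, (a : Matrix X X K) x j = 0 := by
  have h1 : fJ C K * a = 0 := by
    have : a - fJ C K * a = a := by
      rw [ff, sub_mul, one_mul] at h
      exact h
    exact sub_eq_self.1 this
  rw [fJ_mul C hB hX a x] at h1
  have h2 := congrArg (fun b : ↥(C.Lam K) => (b : Matrix X X K) x x) h1
  have h3 : (∑ j, (a : Matrix X X K) x j) * (Fintype.card X : K)⁻¹ = 0 := by
    rw [← fJ_apply C (K := K) x x]
    exact h2
  rcases mul_eq_zero.1 h3 with h4 | h4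
  · exact h4
  · exact absurd h4 (inv_ne_zero (card_ne hB hX))

theorem natCast_lam (n : ℕ) : ((n : ↥(C.Lam K)) : Matrix X X K) = (n : Matrix X X K) := rfl

/-- `p f = p - J` -/
theorem p_ff (hB : Base p W K F) (hX : Fintype.card X = p) :
    (((p : ↥(C.Lam K)) * ff C K : ↥(C.Lam K)) : Matrix X X K) = (p : Matrix X X K) - JJ X K := by
  have h1 : (((p : ↥(C.Lam K)) * ff C K : ↥(C.Lam K)) : Matrix X X K) =
      (p : Matrix X X K) * (1 - ((Fintype.card X : K)⁻¹) • JJ X K) := rfl
  have h2 : ((p : ℕ) : Matrix X X K) = (p : K) • (1 : Matrix X X K) := by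
    rw [← Matrix.diagonal_natCast, Matrix.smul_one_eq_diagonal]
  rw [h1, h2, smul_mul_assoc, one_mul, smul_sub, smul_smul, hX, mul_inv_cancel₀ (p_neK hB),
    one_smul]

/-- integral elements of `Λ_K` come from `Λ_W` -/
theorem exists_lift (a : ↥(C.Lam K)) (ha : a ∈ LamO C W K) :
    ∃ b : Matrix X X W, b ∈ C.Lam W ∧ b.map (algebraMap W K) = (a : Matrix X X K) := by
  choose g hg using (fun i j => ha i j : ∀ i j, IsInt W ((a : Matrix X X K) i j))
  refine ⟨Matrix.of g, ?_, ?_⟩
  · rw [mem_lam]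
    intro i j i' j' h
    apply IsFractionRing.injective W K
    rw [Matrix.of_apply, Matrix.of_apply, hg, hg]
    exact (mem_lam C).1 a.2 _ _ _ _ h
  · ext i j
    rw [Matrix.map_apply, Matrix.of_apply, hg]

end

section
variable {X : Type} [Fintype X] [DecidableEq X] {C : Coh X}
variable {p : ℕ} {W K F : Type}
  [CommRing W] [IsDomain W] [Field K] [Algebra W K] [IsFractionRing W K] [Field F] [Algebra W F]
  {E : LocIdem p (LamO C W K)} {y0 x0 : ↥(C.Lam K)} {k : ℕ}

/-- `Λ_K` is commutative -/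
theorem lam_comm (hB : Base p W K F) (hX : Fintype.card X = p)
    (D : DVRC p K (ff C K) (fOf W (LamO C W K) (ff C K)) (fRad E (ff C K)) y0 x0 k)
    (a b : ↥(C.Lam K)) : a * b = b * a := by
  have hc := ff_central C (K := K) hB hX
  have hi := ff_idem C (K := K) hB hX
  have h1 : ∀ a : ↥(C.Lam K), ff C K * (ff C K * a) = ff C K * a := fun a => by
    rw [← mul_assoc, hi]
  have h2 : ∀ a : ↥(C.Lam K), (ff C K * a) * ff C K = ff C K * a := fun a => by
    rw [← hc (ff C K * a), h1]
  have h3 := D.comm (ff C K * a) (ff C K * b) (h1 a) (h2 a) (h1 b) (h2 b)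
  have h4 : ∀ a b : ↥(C.Lam K), (ff C K * a) * (ff C K * b) = ff C K * (a * b) := fun a b => by
    rw [← mul_assoc, h2, mul_assoc]
  rw [h4, h4] at h3
  rcases isEmpty_or_nonempty X with h | ⟨⟨x⟩⟩
  · apply Subtype.ext
    ext i
    exact (h.false i).elim
  have h5 : ∀ a b : ↥(C.Lam K), fJ C K * (a * b) = ((∑ j, (a : Matrix X X K) x j) *
      (∑ j, (b : Matrix X X K) x j)) • fJ C K := by
    intro a b
    rw [← mul_assoc, fJ_mul C hB hX a x, smul_mul_assoc, fJ_mul C hB hX b x, smul_smul]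
  have h6 : ∀ a : ↥(C.Lam K), a = ff C K * a + fJ C K * a := fun a => by
    rw [ff, sub_mul, one_mul]
    abel
  rw [h6 (a * b), h6 (b * a), h3, h5, h5, mul_comm (∑ j, (a : Matrix X X K) x j)]

theorem lamO_tf : Module.IsTorsionFree W ↥(LamO C W K) where
  isSMulRegular r hr := by
    intro a b hab
    have hr0 : r ≠ 0 := hr.ne_zero
    have h0 : algebraMap W K r ≠ 0 := fun h =>
      hr0 ((IsFractionRing.injective W K) (by rw [h, map_zero]))
    apply Subtype.ext
    apply Subtype.ext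
    ext i j
    have h1 : r • ((a : ↥(C.Lam K)) : Matrix X X K) i j =
        r • ((b : ↥(C.Lam K)) : Matrix X X K) i j :=
      congrArg (fun t : ↥(LamO C W K) => ((t : ↥(C.Lam K)) : Matrix X X K) i j) hab
    rw [Algebra.smul_def, Algebra.smul_def] at h1
    exact mul_left_cancel₀ h0 h1

theorem root_abs1 {B : Type*} [cr : CommRing B] (f z z' t P : B) (N : ℕ) (hi : f * f = f)
    (huv : (f * z) * (f * z') = f) (hzt : z ^ N = P * t) : f = P * (f * (t * z' ^ N)) := by
  have h1 : f * (z * z') = f := by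
    calc f * (z * z') = (f * f) * (z * z') := by rw [hi]
      _ = (f * z) * (f * z') := by ring
      _ = f := huv
  have h2 : ∀ n : ℕ, f * (z * z') ^ n = f := by
    intro n
    induction n with
    | zero => simp
    | succ n ih => rw [pow_succ, ← mul_assoc, ih, h1]
  calc f = f * (z * z') ^ N := (h2 N).symm
    _ = f * (z ^ N * z' ^ N) := by rw [mul_pow]
    _ = P * (f * (t * z' ^ N)) := by rw [hzt]; ring

/-- `f` is not divisible by `p` -/
theorem ff_ne_p_mul (hB : Base p W K F) (hX : Fintype.card X = p) {x x' : X} (hxx : x ≠ x')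
    (b : ↥(C.Lam K)) (hb : b ∈ LamO C W K) (h : ff C K = (p : ↥(C.Lam K)) * (ff C K * b)) :
    False := by
  have hd := hB.dvr
  -- `p f` is integral
  have h1 : (p : ↥(C.Lam K)) * ff C K ∈ LamO C W K := by
    intro i j
    rw [p_ff C hB hX, Matrix.sub_apply]
    have h2 : ((p : ℕ) : Matrix X X K) = (p : K) • (1 : Matrix X X K) := by
      rw [← Matrix.diagonal_natCast, Matrix.smul_one_eq_diagonal]
    rw [h2, Matrix.smul_apply, Matrix.one_apply]
    refine IsInt.sub ?_ ?_
    · split_ifs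
      · simpa using IsInt.natCast (W := W) (K := K) p
      · simpa using IsInt.zero (W := W) (K := K)
    · simpa [JJ] using IsInt.one (W := W) (K := K)
  have h2 : ff C K ∈ LamO C W K := by
    rw [h, ← mul_assoc]
    exact (LamO C W K).mul_mem h1 hb
  obtain ⟨w, hw⟩ := h2 x x'
  have h3 : ((ff C K : ↥(C.Lam K)) : Matrix X X K) x x' = -(Fintype.card X : K)⁻¹ := by
    have : ((ff C K : ↥(C.Lam K)) : Matrix X X K) =
        (1 : Matrix X X K) - ((fJ C K : ↥(C.Lam K)) : Matrix X X K) := rfl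
    rw [this, Matrix.sub_apply, fJ_apply, Matrix.one_apply_ne hxx, zero_sub]
  rw [h3, hX] at hw
  have h4 : (p : W) * (-w) = 1 := by
    apply IsFractionRing.injective W K
    rw [map_mul, map_neg, hw, map_one, map_natCast, neg_neg, mul_inv_cancel₀ (p_neK hB)]
  exact (irr hB).not_isUnit (IsUnit.of_mul_eq_one _ h4)

/-- (3b), in `Λ_K` -/
theorem exists_yK (hB : Base p W K F) (hX : Fintype.card X = p)
    (H : SymOrder p (LamO C W K) (tauL C K)) (h1 : E.e = 1)
    (h2 : ∀ a : ↥(C.Lam K), a ∈ E.rad ↔ a ∈ LamO C W K ∧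
      ∀ x, ∃ w : W, ∑ y, (a : Matrix X X K) x y = (p : K) * algebraMap W K w)
    (D : DVRC p K (ff C K) (fOf W (LamO C W K) (ff C K)) (fRad E (ff C K)) y0 x0 k)
    (hk : k ∣ p - 1) (hX2 : 2 ≤ Fintype.card X) :
    ∃ y ∈ LamO C W K, ff C K * y = y ∧ y ^ k = (p : ↥(C.Lam K)) * ff C K := by
  have hcomm := lam_comm hB hX D
  let cr : CommRing ↥(C.Lam K) := { (inferInstance : Ring ↥(C.Lam K)) with mul_comm := hcomm }
  have hi := ff_idem C (K := K) hB hX
  have hd := hB.dvr
  obtain ⟨m, hm, hym⟩ := mem_fRad.1 D.y_mem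
  obtain ⟨u, ⟨z, hz, hzu⟩, v, ⟨z', hz', hzv⟩, huv, hvu, hpe⟩ := D.p_eq
  change ff C K * (z * ff C K) = u at hzu
  change ff C K * (z' * ff C K) = v at hzv
  have hzu' : u = ff C K * z := by
    rw [← hzu, hcomm z, ← mul_assoc, hi]
  have hzv' : v = ff C K * z' := by
    rw [← hzv, hcomm z', ← mul_assoc, hi]
  obtain ⟨x, x', hxx⟩ : ∃ x x' : X, x ≠ x' := by
    have : Nontrivial X := Fintype.one_lt_card_iff_nontrivial.1 (by omega)
    exact exists_pair_ne X
  -- the row sum of `z` is a unit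
  obtain ⟨r, hr⟩ : IsInt W (∑ j, (z : Matrix X X K) x j) :=
    IsInt.sum _ (fun j _ => hz x j)
  have hrow : ∀ i, ∑ j, (z : Matrix X X K) i j = algebraMap W K r := fun i => by
    rw [hr]
    exact lam_row C z.2 i x
  have hru : IsUnit r := by
    by_contra hn
    have hpr : (p : W) ∣ r := by
      by_contra hn'
      exact hn (isUnit_of hB hn')
    obtain ⟨r', hr'⟩ := hpr
    have hzr : z ∈ E.rad := by
      rw [h2]
      exact ⟨hz, fun i => ⟨r', by rw [hrow i, hr', map_mul, map_natCast]⟩⟩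
    obtain ⟨N, hN⟩ := E.nilp
    obtain ⟨t, ht, hzt⟩ := hN _ (Submodule.pow_mem_pow _ hzr N)
    -- `f = (u v)^N` lies in `p O`
    have e1 : ff C K = (p : ↥(C.Lam K)) * (ff C K * (t * z' ^ N)) :=
      root_abs1 (cr := cr) _ z z' t _ N hi (by rw [← hzu', ← hzv']; exact huv) hzt
    have e2 : t * z' ^ N ∈ LamO C W K := (LamO C W K).mul_mem ht ((LamO C W K).pow_mem hz' N)
    exact ff_ne_p_mul hB hX hxx _ e2 e1
  -- `z = r (1 + n)`
  obtain ⟨r1, hr1⟩ := hru.exists_left_inv
  set n : ↥(C.Lam K) := r1 • z - 1 with hn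
  have hnO : n ∈ LamO C W K := (LamO C W K).sub_mem ((LamO C W K).smul_mem hz r1)
    (LamO C W K).one_mem
  have hnr : n ∈ E.rad := by
    rw [h2]
    refine ⟨hnO, fun i => ⟨0, ?_⟩⟩
    have h3 : ∀ j, (n : Matrix X X K) i j =
        algebraMap W K r1 * (z : Matrix X X K) i j - (1 : Matrix X X K) i j := by
      intro j
      have : (n : Matrix X X K) = r1 • (z : Matrix X X K) - 1 := rfl
      rw [this, Matrix.sub_apply, Matrix.smul_apply, Algebra.smul_def]
    simp only [h3, Finset.sum_sub_distrib, ← Finset.mul_sum, hrow]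
    rw [← map_mul, hr1]
    simp [Matrix.one_apply]
  obtain ⟨N, hN⟩ := E.nilp
  obtain ⟨t, ht, hnt⟩ := hN _ (Submodule.pow_mem_pow _ hnr N)
  -- the finite free commutative algebra `Λ_W`
  letI crO : CommRing ↥(LamO C W K) :=
    { (inferInstance : Ring ↥(LamO C W K)) with
      mul_comm := fun a b => Subtype.ext (hcomm _ _) }
  have hfin : Module.Finite W ↥(LamO C W K) := Module.Finite.iff_fg.2 H.fg
  have htf : Module.IsTorsionFree W ↥(LamO C W K) := lamO_tf
  have hfree : Module.Free W ↥(LamO C W K) := inferInstance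
  obtain ⟨⟨s, hs⟩, hsk⟩ := exists_root p K F ↥(LamO C W K) k hk D.kpos ⟨z, hz⟩ ⟨n, hnO⟩ r hru
    (by
      apply Subtype.ext
      show z = algebraMap W ↥(C.Lam K) r * (1 + n)
      rw [hn, add_sub_cancel, ← Algebra.smul_def, smul_smul, mul_comm r r1, hr1, one_smul])
    ⟨N, ⟨⟨t, ht⟩, Subtype.ext hnt⟩⟩
  have hsk' : s ^ k = z := congrArg Subtype.val hsk
  have hy0 : ff C K * y0 = y0 := by
    rw [← hym, ← mul_assoc, hi]
  refine ⟨y0 * s, ?_, ?_, ?_⟩
  · refine (LamO C W K).mul_mem ?_ hs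
    rw [← hym, ff, sub_mul, one_mul]
    obtain ⟨hmO, hmr⟩ := (h2 m).1 hm
    refine (LamO C W K).sub_mem hmO ?_
    intro i j
    obtain ⟨w, hw⟩ := hmr i
    rw [fJ_mul C hB hX m i, hw]
    refine ⟨w, ?_⟩
    have : ((((p : K) * algebraMap W K w) • fJ C K : ↥(C.Lam K)) : Matrix X X K) i j =
        ((p : K) * algebraMap W K w) * (Fintype.card X : K)⁻¹ := by
      rw [← fJ_apply C (K := K) i j]
      rfl
    rw [this, hX]
    field_simp [p_neK hB]
  · rw [← mul_assoc, hy0]
  · have h3 : (y0 * s) ^ k = y0 ^ k * s ^ k := (show Commute y0 s from hcomm _ _).mul_pow k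
    rw [h3, hsk', hpe, hzu']
    obtain ⟨j, hj⟩ : ∃ j, k = j + 1 := ⟨k - 1, by have := D.kpos; omega⟩
    have h4 : ff C K * y0 ^ k = y0 ^ k := by
      rw [hj, pow_succ', ← mul_assoc, hy0]
    rw [← mul_assoc, ← hcomm (ff C K) (y0 ^ k), h4]

/-- transposition on `Λ_K` -/
def tr (a : ↥(C.Lam K)) : ↥(C.Lam K) := ⟨(a : Matrix X X K)ᵀ, lam_transpose C a.2⟩

omit [IsDomain W] [IsFractionRing W K] [CommRing W] [Algebra W K] [Field F] [Algebra W F] in
theorem tr_pow (a : ↥(C.Lam K)) (n : ℕ) : (tr a) ^ n = tr (a ^ n) := by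
  apply Subtype.ext
  show ((a : Matrix X X K)ᵀ) ^ n = ((a : Matrix X X K) ^ n)ᵀ
  rw [Matrix.transpose_pow]

/-- in a domain `f A f` containing the `k`-th roots of unity, `t ^ k = f` implies `t = ζ f` -/
theorem root_of_unity {A : Type} [Ring A] [Algebra K A] {f t : A} (hf : DivC f)
    (hft : f * t = t) (htf : t * f = t) {k : ℕ} (hk : 0 < k) (htk : t ^ k = f) {ζ : K}
    (hζ : IsPrimitiveRoot ζ k) : ∃ i : ℕ, t = (ζ ^ i) • f := by
  classical
  obtain ⟨hff, hf0, hdiv⟩ := hf
  -- the ideal of polynomials killing `t`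
  have hcf : ∀ g : Polynomial K, Polynomial.aeval t g * f = f * Polynomial.aeval t g := by
    intro g
    induction g using Polynomial.induction_on' with
    | add a b ha hb => rw [map_add, add_mul, mul_add, ha, hb]
    | monomial n a =>
      rw [Polynomial.aeval_monomial]
      have h1 : t ^ n * f = f * t ^ n := by
        induction n with
        | zero => simp
        | succ n ih => rw [pow_succ, mul_assoc, htf, ← mul_assoc, ← ih, mul_assoc, hft]
      rw [mul_assoc, h1, ← mul_assoc, Algebra.commutes a f, mul_assoc]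
  let I : Ideal (Polynomial K) :=
    { carrier := {g | Polynomial.aeval t g * f = 0}
      add_mem' := by
        intro a b ha hb
        show Polynomial.aeval t (a + b) * f = 0
        rw [map_add, add_mul, ha, hb, add_zero]
      zero_mem' := by
        show Polynomial.aeval t 0 * f = 0
        rw [map_zero, zero_mul]
      smul_mem' := by
        intro c a ha
        show Polynomial.aeval t (c * a) * f = 0
        rw [map_mul, mul_assoc, ha, mul_zero] }
  have hI : I.IsPrime := by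
    refine ⟨?_, ?_⟩
    · intro h
      have h1 : (1 : Polynomial K) ∈ I := by rw [h]; trivial
      have h2 : Polynomial.aeval t (1 : Polynomial K) * f = 0 := h1
      rw [map_one, one_mul] at h2
      exact hf0 h2
    · intro a b hab
      by_contra hcon
      push Not at hcon
      obtain ⟨ha, hb⟩ := hcon
      have ha' : Polynomial.aeval t a * f ≠ 0 := ha
      have hb' : Polynomial.aeval t b * f ≠ 0 := hb
      obtain ⟨c, hc1, hc2, hc3, hc4⟩ := hdiv (Polynomial.aeval t a * f)
        (by rw [hcf, ← mul_assoc, hff]) (by rw [mul_assoc, hff]) ha'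
      apply hb'
      have h1 : Polynomial.aeval t (a * b) * f = 0 := hab
      rw [map_mul, mul_assoc] at h1
      have h2 : (c * (Polynomial.aeval t a * f)) * (Polynomial.aeval t b * f) = 0 := by
        rw [mul_assoc, mul_assoc, ← mul_assoc f, ← hcf b, mul_assoc (Polynomial.aeval t b) f f,
          hff, h1, mul_zero]
      rw [hc4, ← mul_assoc, ← hcf b, mul_assoc, hff] at h2
      exact h2
  have h1 : (Polynomial.X ^ k - 1 : Polynomial K) ∈ I := by
    show Polynomial.aeval t (Polynomial.X ^ k - 1 : Polynomial K) * f = 0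
    rw [map_sub, map_pow, Polynomial.aeval_X, map_one, htk, sub_mul, hff, one_mul, sub_self]
  rw [Polynomial.X_pow_sub_one_eq_prod hk hζ, Ideal.IsPrime.prod_mem_iff] at h1
  obtain ⟨c, hc, hcI⟩ := h1
  have hck : c ^ k = 1 := (Polynomial.mem_nthRootsFinset hk _).1 hc
  have : NeZero k := ⟨hk.ne'⟩
  obtain ⟨i, -, hi⟩ := hζ.eq_pow_of_pow_eq_one hck
  refine ⟨i, ?_⟩
  have h2 : Polynomial.aeval t (Polynomial.X - Polynomial.C c : Polynomial K) * f = 0 := hcI
  rw [map_sub, Polynomial.aeval_X, Polynomial.aeval_C, sub_mul, htf, sub_eq_zero,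
    ← Algebra.smul_def] at h2
  rw [hi]
  exact h2

/-- (3b) and (3c) -/
theorem exists_y (hB : Base p W K F) (hX : Fintype.card X = p)
    (H : SymOrder p (LamO C W K) (tauL C K)) (h1 : E.e = 1)
    (h2 : ∀ a : ↥(C.Lam K), a ∈ E.rad ↔ a ∈ LamO C W K ∧
      ∀ x, ∃ w : W, ∑ y, (a : Matrix X X K) x y = (p : K) * algebraMap W K w)
    (D : DVRC p K (ff C K) (fOf W (LamO C W K) (ff C K)) (fRad E (ff C K)) y0 x0 k)
    (hk : k ∣ p - 1) (hX2 : 2 ≤ Fintype.card X) :
    ∃ (y : Matrix X X W) (ζ0 : W), y ∈ C.Lam W ∧ (∀ i, ∑ j, y i j = 0) ∧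
      (∀ j, ∑ i, y i j = 0) ∧ y ^ k = (p : Matrix X X W) - JJ X W ∧ yᵀ = ζ0 • y ∧
      ζ0 ^ k = 1 := by
  obtain ⟨y, hyO, hfy, hyk⟩ := exists_yK hB hX H h1 h2 D hk hX2
  have hcomm := lam_comm hB hX D
  have hK := hB.charZero
  have hinj := IsFractionRing.injective W K
  obtain ⟨b, hb, hby⟩ := exists_lift C y hyO
  have hrowK : ∀ x, ∑ j, (y : Matrix X X K) x j = 0 := row_of_ff C hB hX y hfy
  have hcolK : ∀ x, ∑ j, (y : Matrix X X K) j x = 0 := fun x => by
    rw [← lam_row_col C (card_ne hB hX) y.2 x x]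
    exact hrowK x
  have hent : ∀ i j, algebraMap W K (b i j) = (y : Matrix X X K) i j := fun i j => by
    rw [← hby, Matrix.map_apply]
  have hmapinj : ∀ M N : Matrix X X W, M.map (algebraMap W K) = N.map (algebraMap W K) →
      M = N := by
    intro M N h
    ext i j
    apply hinj
    exact congrFun (congrFun h i) j
  -- the inverse of `y`
  have hy0 : y ≠ 0 := by
    intro h0
    have h3 : (p : ↥(C.Lam K)) * ff C K = 0 := by
      rw [← hyk, h0, zero_pow (by have := D.kpos; omega)]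
    have h4 : ff C K = 0 := by
      have h5 : (p : ↥(C.Lam K)) * ff C K = (p : K) • ff C K := by
        rw [← map_natCast (algebraMap K ↥(C.Lam K)), ← Algebra.smul_def]
      rw [h5] at h3
      exact (smul_eq_zero.1 h3).resolve_left (p_neK hB)
    exact D.div.2.1 h4
  obtain ⟨x, hx1, hx2, hyx, hxy⟩ := D.div.2.2 y hfy (by rw [hcomm, hfy]) hy0
  -- the transposed element
  have htf : tr (ff C K) = ff C K := by
    apply Subtype.ext
    show ((1 : Matrix X X K) - ((fJ C K : ↥(C.Lam K)) : Matrix X X K))ᵀ = 1 - _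
    rw [Matrix.transpose_sub, Matrix.transpose_one]
    congr 1
  have hft : ff C K * tr y = tr y := by
    apply Subtype.ext
    have h3 := congrArg (fun a : ↥(C.Lam K) => (a : Matrix X X K)ᵀ) hfy
    have h4 : ((ff C K * y : ↥(C.Lam K)) : Matrix X X K)ᵀ =
        (y : Matrix X X K)ᵀ * ((ff C K : ↥(C.Lam K)) : Matrix X X K)ᵀ :=
      Matrix.transpose_mul _ _
    have h5 : ((ff C K : ↥(C.Lam K)) : Matrix X X K)ᵀ = (ff C K : ↥(C.Lam K)) :=
      congrArg Subtype.val htf
    have h6 : (tr y * ff C K : ↥(C.Lam K)) = tr y := by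
      apply Subtype.ext
      show (y : Matrix X X K)ᵀ * ((ff C K : ↥(C.Lam K)) : Matrix X X K) = (y : Matrix X X K)ᵀ
      rw [← h5, ← h4]
      exact h3
    rw [hcomm, h6]
  have htk : (tr y) ^ k = (p : ↥(C.Lam K)) * ff C K := by
    rw [tr_pow, hyk]
    apply Subtype.ext
    show ((((p : ↥(C.Lam K)) * ff C K : ↥(C.Lam K)) : Matrix X X K))ᵀ = _
    rw [p_ff C hB hX, Matrix.transpose_sub, Matrix.transpose_natCast]
    congr 1
  have hfx : ff C K * x = x := hx1
  have htx : (tr y * x) ^ k = ff C K := by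
    have h3 : (tr y * x) ^ k = (tr y) ^ k * x ^ k :=
      (show Commute (tr y) x from hcomm _ _).mul_pow k
    have h4 : (y * x) ^ k = y ^ k * x ^ k := (show Commute y x from hcomm _ _).mul_pow k
    rw [h3, htk, ← hyk, ← h4, hyx]
    exact IsIdempotentElem.pow_eq (show IsIdempotentElem (ff C K) from D.div.1)
      (by have := D.kpos; omega)
  obtain ⟨ζ, hζ, -⟩ := hB.exists_primitive k hk D.kpos
  have hζK : IsPrimitiveRoot (algebraMap W K ζ) k := hζ.map_of_injective hinj
  obtain ⟨i, hi⟩ := root_of_unity D.div (t := tr y * x)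
    (by rw [← mul_assoc, hft]) (by rw [mul_assoc, hx2]) D.kpos htx hζK
  have hty : tr y = (algebraMap W K ζ) ^ i • y := by
    calc tr y = tr y * x * y := by rw [mul_assoc, hxy, hcomm, hft]
      _ = (algebraMap W K ζ) ^ i • y := by rw [hi, smul_mul_assoc, hfy]
  refine ⟨b, ζ ^ i, hb, ?_, ?_, ?_, ?_, ?_⟩
  · intro x
    apply hinj
    rw [map_sum, map_zero]
    simp only [hent]
    exact hrowK x
  · intro x
    apply hinj
    rw [map_sum, map_zero]
    simp only [hent]
    exact hcolK x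
  · apply hmapinj
    have h3 : (b ^ k).map (algebraMap W K) = (b.map (algebraMap W K)) ^ k :=
      map_pow (algebraMap W K).mapMatrix b k
    have h4 : ((p : Matrix X X W) - JJ X W).map (algebraMap W K) =
        (p : Matrix X X K) - JJ X K := by
      have h5 : ((p : Matrix X X W) - JJ X W).map (algebraMap W K) =
          (algebraMap W K).mapMatrix ((p : Matrix X X W) - JJ X W) := rfl
      rw [h5, map_sub, map_natCast]
      congr 1
      ext i j
      simp [JJ]
    rw [h3, h4, hby, ← p_ff C hB hX, ← hyk]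
    rfl
  · apply hmapinj
    ext i' j'
    have h3 := congrArg (fun a : ↥(C.Lam K) => (a : Matrix X X K) i' j') hty
    have h4 : (y : Matrix X X K) j' i' = (algebraMap W K ζ) ^ i * (y : Matrix X X K) i' j' := h3
    rw [Matrix.map_apply, Matrix.map_apply, Matrix.transpose_apply, Matrix.smul_apply,
      smul_eq_mul, map_mul, map_pow, hent, hent]
    exact h4
  · rw [← pow_mul, mul_comm, pow_mul, hζ.pow_eq_one, one_pow]

end

end S3

end PDeg
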