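import Pool.Agent.Lib.MP_369ee2_lc_PD.LamLoc
import Pool.Agent.Lib.MP_369ee2_lc_PD.GoodD
import Pool.Agent.Lib.MP_369ee2_lc_PD.Hensel
import Pool.Agent.Lib.MP_369ee2_lc_PD.Sec3A
import Pool.Agent.Lib.MP_369ee2_lc_PD.Sec3B

/-!
# The structure of `Λ_W` (rows S5, S6; section 3)
-/

namespace PDeg

open scoped BigOperators Matrix

section
variable {X : Type} [Fintype X] [DecidableEq X] (C : Coh X)
variable {p : ℕ} {W K F : Type}
  [CommRing W] [IsDomain W] [Field K] [Algebra W K] [IsFractionRing W K] [Field F] [Algebra W F]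

theorem exists_yData (hB : Base p W K F) (hX : Fintype.card X = p) (hp2 : p ≠ 2) :
    ∃ (k d : ℕ) (y : Matrix X X W) (ζ0 : W), YData C p W K k d y ζ0 := by
  have _ := hp2
  have hX2 : 2 ≤ Fintype.card X := by
    rw [hX]
    exact hB.prime.two_le
  have := hB.charZero
  have H := lam_symOrder C (W := W) (K := K) hB hX
  obtain ⟨E, h1, h2⟩ := lam_loc C (W := W) (K := K) hB hX
  have hG := lam_good C hB hX E h1 h2
  have hG' := Good.compl F hG
  obtain ⟨y0, x0, k, D⟩ := Good.dvr F H hG'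
  have hff : E.e - fJ C K = S3.ff C K := by
    rw [h1]
    rfl
  rw [hff] at D
  have hcomm := S3.lam_comm hB hX D
  obtain ⟨hk2, hrank, d, hkd, hval⟩ := Sec3A.main C K hX2
    (fun a ha b hb => congrArg Subtype.val (hcomm ⟨a, ha⟩ ⟨b, hb⟩))
    (f := S3.ff C K) rfl D.div
  rw [D.rank] at hk2 hrank hkd
  obtain ⟨y, ζ0, hy, hr, hc, hpow, ht, hz⟩ := S3.exists_y hB hX H h1 h2 D
    (by rw [← hX]; exact ⟨d, hkd.symm⟩) hX2
  exact ⟨k, d, y, ζ0, {
    card := hX
    k2 := hk2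
    kd := by rw [hkd, hX]
    mem := hy
    rowsum := hr
    colsum := hc
    pow := hpow
    trans := ht
    z0 := hz
    comm := fun a ha b hb => congrArg Subtype.val (hcomm ⟨a, ha⟩ ⟨b, hb⟩)
    rank2 := hrank
    val := hval }⟩

end

end PDeg
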