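import Pool.Agent.Lib.MP_369ee2_lc_PD.Asm
import Pool.Agent.Lib.MP_369ee2_lc_PD.SecV2
import Pool.Agent.Lib.MP_369ee2_lc_PD.Endgame
import Pool.Agent.Lib.MP_369ee2_lc_PD.YD
import Pool.Agent.Lib.MP_369ee2_lc_PD.PReg
import Pool.Agent.Lib.MP_369ee2_lc_PD.LamLoc
import Pool.Agent.Lib.MP_369ee2_lc_PD.FromScheme
import Pool.Agent.Lib.MP_369ee2_lc_PD.BaseWitt

/-!
# The prime degree theorem
-/

namespace PDeg

open MSch
open scoped BigOperators Matrix

section
variable {X : Type} [Fintype X] [DecidableEq X] {C : Coh X}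
variable {p k d : ℕ} {W K F : Type}
  [CommRing W] [IsDomain W] [Field K] [Algebra W K] [IsFractionRing W K] [Field F] [Algebra W F]
  {y : Matrix X X W} {ζ0 : W}

/-- the sum-zero part of `P δ` has dimension `k ^ 2 * d` -/
theorem dim_main (hB : Base p W K F) (hX : Fintype.card X = p) (hp2 : p ≠ 2)
    (hY : YData C p W K k d y ζ0) : Module.finrank K (szSub C K (dlt C K)) = k ^ 2 * d := by
  classical
  have hp : p.Prime := hB.prime
  obtain ⟨x₀⟩ : Nonempty X := Fintype.card_pos_iff.1 (by rw [hX]; exact hp.pos)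
  have hkp : k ∣ p - 1 := ⟨d, hY.kd.symm⟩
  have hk1 : 1 ≤ k := le_trans (by norm_num) hY.k2
  obtain ⟨ω, hω, -⟩ := hB.exists_primitive k hkp hk1
  have hωK : IsPrimitiveRoot (algebraMap W K ω) k :=
    hω.map_of_injective (IsFractionRing.injective W K)
  have hωi : ∀ i : Fin k, (ω ^ (i : ℕ)) ^ k = 1 := by
    intro i
    rw [← pow_mul, mul_comm, pow_mul, hω.pow_eq_one, one_pow]
  obtain ⟨q, r, hP⟩ := exists_pData C hB hY
  obtain ⟨E0, h1, h2⟩ := lam_loc C (W := W) (K := K) hB hX
  have hg := lam_good C hB hX E0 h1 h2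
  refine Asm.finrank_szSub hB hX hY hωK (Asm.c0_eq_d hB hX hp2 hY x₀ E0 h1 hg
    (pp_symOrder C hB hX) (fun g hgg => ⟨_, pp_nat C hB hX g hgg⟩) hω ?_ ?_ hP)
  · intro i
    rw [SecV.trace_b hB hkp hY hP (hωi i)
      (bfam_isB hB hX hY hωK (ζ := ω ^ (i : ℕ)) (by rw [map_pow]))]
    push_cast
    ring
  · intro e he hee hc hd
    obtain ⟨κ, h3, h4⟩ := SecV.trace_be hB hkp hY hP e he hee (fun a => hc a)
      (by
        have h5 := congrArg Subtype.val (t1J_mul_eq_zero C K e hc hd)
        have h6 := congrArg Subtype.val (hc ⟨t1 (JJ X K), t1_mem C K (JJ_mem C K)⟩)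
        exact h6.trans h5)
      (by
        have h5 := congrArg Subtype.val (t2J_mul_eq_zero C K e hc hd)
        have h6 := congrArg Subtype.val (hc ⟨t2 (JJ X K), t2_mem C K (JJ_mem C K)⟩)
        exact h6.trans h5)
    refine ⟨κ, h3, fun i => ?_⟩
    rw [h4 (ω ^ (i : ℕ)) (hωi i) _
      (bfam_isB hB hX hY hωK (ζ := ω ^ (i : ℕ)) (by rw [map_pow]))]
    push_cast
    ring

end

/-- **Singleton fibres.** A coherent colouring of tuples of length at most `6` of a set of prime
cardinality: all fibres over pairs of distinct points are singletons. -/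
theorem singles {X : Type} [Fintype X] (C : Coh X) (hp : (Fintype.card X).Prime) (x y z : X)
    (hxy : x ≠ y) (hxz : x ≠ z) (hyz : y ≠ z) :
    Nat.card {w : X // C.r 3 ![x, y, w] ![x, y, z]} = 1 := by
  classical
  have h3 : 3 ≤ Fintype.card X := by
    have h1 : ({x, y, z} : Finset X).card = 3 := by
      rw [Finset.card_insert_of_notMem (by simp [hxy, hxz]), Finset.card_pair hyz]
    rw [← h1]
    exact Finset.card_le_univ _
  have hp2 : Fintype.card X ≠ 2 := by omega
  obtain ⟨W, K, F, _, _, _, _, _, _, _, hB⟩ := exists_base (Fintype.card X) hp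
  obtain ⟨k, d, y', ζ0, hY⟩ := exists_yData (W := W) (K := K) (F := F) C hB rfl hp2
  exact singletons_of_dim C hp hY (dim_main hB rfl hp2 hY) x y z hxy hxz hyz

/-- **The prime degree theorem.** Every homogeneous antisymmetric `m`-scheme, `m ≥ 6`, on a prime
number of points has a matching. -/
theorem prime_degree {V : Type} [Fintype V] {m : ℕ} (Q : MScheme V m) (hm : 6 ≤ m)
    (hp : (Fintype.card V).Prime) (hH : Q.Homogeneous) (hA : Q.Antisymmetric) :
    Q.HasMatching := by
  classical
  have h2 := hp.two_le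
  have hodd : Odd (Fintype.card V) := odd_card Q (by omega) (by omega) hH hA
  have h3 : 3 ≤ Fintype.card V := by
    rcases Nat.lt_or_ge (Fintype.card V) 3 with h | h
    · have h4 : Fintype.card V = 2 := by omega
      rw [h4] at hodd
      exact absurd hodd (by decide)
    · exact h
  obtain ⟨C, hC⟩ := exists_coh Q hm h2 hH hA
  exact match_of Q hm h3 hH C hC (singles C hp)

end PDeg
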