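import Mathlib

/-!
# Transitive groups of prime degree in which only the identity fixes two points

Such a group is a group of affine maps `x ↦ a x + b` of `ZMod p` (with all translations).
-/

namespace PDeg.Frob

variable {V : Type} [Fintype V] {p : ℕ}

theorem inv_app {V : Type} (g : Equiv.Perm V) (x : V) : g⁻¹ (g x) = x := g.symm_apply_apply x

theorem app_inv {V : Type} (g : Equiv.Perm V) (x : V) : g (g⁻¹ x) = x := g.apply_symm_apply x

section tr
omit [Fintype V]
variable (c : Equiv.Perm V)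

/-- the powers of `c`, indexed by `ZMod p` -/
def tr (p : ℕ) (c : Equiv.Perm V) (i : ZMod p) : Equiv.Perm V := c ^ i.val

variable {c}

theorem tr_add [NeZero p] (hc : orderOf c = p) (i j : ZMod p) :
    tr p c (i + j) = tr p c i * tr p c j := by
  rw [tr, tr, tr, ← pow_add, ZMod.val_add]
  have := pow_mod_orderOf c (i.val + j.val)
  rwa [hc] at this

theorem tr_zero [NeZero p] : tr p c 0 = 1 := by
  rw [tr, ZMod.val_zero, pow_zero]

theorem tr_one [Fact (1 < p)] : tr p c 1 = c := by
  rw [tr, ZMod.val_one, pow_one]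

theorem tr_natCast [NeZero p] (hc : orderOf c = p) (n : ℕ) : tr p c (n : ZMod p) = c ^ n := by
  rw [tr, ZMod.val_natCast]
  have := pow_mod_orderOf c n
  rwa [hc] at this

theorem tr_mul_nat [NeZero p] (hc : orderOf c = p) (n : ℕ) (i : ZMod p) :
    tr p c ((n : ZMod p) * i) = (tr p c i) ^ n := by
  induction n with
  | zero => rw [Nat.cast_zero, zero_mul, tr_zero, pow_zero]
  | succ n ih => rw [Nat.cast_succ, add_mul, one_mul, tr_add hc, ih, pow_succ]

theorem tr_eq_one [NeZero p] (hc : orderOf c = p) {i : ZMod p} (h : tr p c i = 1) : i = 0 := by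
  rw [tr] at h
  have h1 := orderOf_dvd_of_pow_eq_one h
  rw [hc] at h1
  have h2 : i.val = 0 := Nat.eq_zero_of_dvd_of_lt h1 (ZMod.val_lt i)
  exact (ZMod.val_eq_zero i).1 h2

theorem tr_neg [NeZero p] (hc : orderOf c = p) (i : ZMod p) : tr p c (-i) = (tr p c i)⁻¹ := by
  rw [eq_inv_iff_mul_eq_one, ← tr_add hc, neg_add_cancel, tr_zero]

theorem tr_mem {G : Subgroup (Equiv.Perm V)} (hG : c ∈ G) (i : ZMod p) : tr p c i ∈ G :=
  G.pow_mem hG _

end tr

/-- a group of permutations of a set of prime size: transitive, only the identity fixes two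
points -/
structure FrobG (p : ℕ) (G : Subgroup (Equiv.Perm V)) : Prop where
  prime : p.Prime
  card : Fintype.card V = p
  trans : ∀ x y : V, ∃ g ∈ G, g x = y
  fix : ∀ g ∈ G, ∀ x y : V, x ≠ y → g x = x → g y = y → g = 1

namespace FrobG

variable {G : Subgroup (Equiv.Perm V)} (h : FrobG p G)
include h

theorem exists_ne (x : V) : ∃ y : V, y ≠ x := by
  have : 1 < Fintype.card V := by
    rw [h.card]
    exact h.prime.one_lt
  have : Nontrivial V := Fintype.one_lt_card_iff_nontrivial.1 this
  exact _root_.exists_ne x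

theorem exists_order : ∃ c ∈ G, orderOf c = p := by
  classical
  have := Fact.mk h.prime
  have : Nonempty V := Fintype.card_pos_iff.1 (by rw [h.card]; exact h.prime.pos)
  have : Fintype G := Fintype.ofFinite _
  have : MulAction.IsPretransitive G V := ⟨fun x y => by
    obtain ⟨g, hg, hgx⟩ := h.trans x y
    exact ⟨⟨g, hg⟩, hgx⟩⟩
  have h1 : Fintype.card V ∣ Fintype.card G := by
    obtain ⟨x⟩ := (inferInstance : Nonempty V)
    have h2 := MulAction.card_orbit_mul_card_stabilizer_eq_card_group G x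
    have h3 : Fintype.card (MulAction.orbit G x) = Fintype.card V := by
      rw [← Set.toFinset_card, MulAction.orbit_eq_univ]
      simp
    rw [h3] at h2
    exact Dvd.intro _ h2
  rw [h.card] at h1
  obtain ⟨c, hc⟩ := exists_prime_orderOf_dvd_card p h1
  exact ⟨c.1, c.2, by rw [← hc, Subgroup.orderOf_coe]⟩

theorem card_lt : Nat.card G < p * p := by
  classical
  have : Nonempty V := Fintype.card_pos_iff.1 (by rw [h.card]; exact h.prime.pos)
  obtain ⟨x⟩ := (inferInstance : Nonempty V)
  obtain ⟨y, hy⟩ := h.exists_ne x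
  let F : G → V × V := fun g => (g.1 x, g.1 y)
  have hF : Function.Injective F := by
    intro a b hab
    have h1 : a.1 x = b.1 x := congrArg Prod.fst hab
    have h2 : a.1 y = b.1 y := congrArg Prod.snd hab
    have h3 : b.1⁻¹ * a.1 = 1 := by
      refine h.fix _ (G.mul_mem (G.inv_mem b.2) a.2) x y hy.symm ?_ ?_
      · rw [Equiv.Perm.mul_apply, h1, inv_app]
      · rw [Equiv.Perm.mul_apply, h2, inv_app]
    apply Subtype.ext
    exact (inv_mul_eq_one.1 h3).symm
  have hns : ¬ Function.Surjective F := by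
    intro hs
    obtain ⟨g, hg⟩ := hs (x, x)
    have h1 : g.1 x = x := congrArg Prod.fst hg
    have h2 : g.1 y = x := congrArg Prod.snd hg
    exact hy (g.1.injective (h2.trans h1.symm))
  have : Fintype G := Fintype.ofFinite _
  rw [Nat.card_eq_fintype_card]
  have := Fintype.card_lt_of_injective_not_surjective F hF hns
  rwa [Fintype.card_prod, h.card] at this

variable {c : Equiv.Perm V} (hcG : c ∈ G) (hc : orderOf c = p)
include hcG hc

theorem tr_fix {i : ZMod p} (hi : i ≠ 0) (x : V) : tr p c i x ≠ x := by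
  classical
  have := Fact.mk h.prime
  have : NeZero p := ⟨h.prime.ne_zero⟩
  intro hx
  -- all powers fix `x`
  have h1 : ∀ j : ZMod p, tr p c j x = x := by
    intro j
    have e : j = (((j * i⁻¹).val : ℕ) : ZMod p) * i := by
      rw [ZMod.natCast_zmod_val, mul_assoc, inv_mul_cancel₀ hi, mul_one]
    rw [e, tr_mul_nat hc]
    generalize (j * i⁻¹).val = n
    induction n with
    | zero => simp
    | succ n ih => rw [pow_succ, Equiv.Perm.mul_apply, hx, ih]
  obtain ⟨y, hy⟩ := h.exists_ne x
  -- pigeonhole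
  have h2 : ¬ Function.Injective (fun j : ZMod p => tr p c j y) := by
    intro hinj
    have h3 : Function.Surjective (fun j : ZMod p => tr p c j y) := by
      apply ((Fintype.bijective_iff_injective_and_card _).2 ⟨hinj, ?_⟩).2
      rw [ZMod.card, h.card]
    obtain ⟨j, hj⟩ := h3 x
    exact hy ((tr p c j).injective (hj.trans (h1 j).symm))
  simp only [Function.Injective, not_forall] at h2
  obtain ⟨a, b, hab, hne⟩ := h2
  apply hne
  have h4 : tr p c (a - b) = 1 := by
    refine h.fix _ (tr_mem hcG _) x y hy.symm (h1 _) ?_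
    rw [sub_eq_neg_add, tr_add hc, Equiv.Perm.mul_apply, hab, tr_neg hc, inv_app]
  exact sub_eq_zero.1 (tr_eq_one hc h4)

/-- the orbit map -/
theorem bij (x : V) : Function.Bijective (fun j : ZMod p => tr p c j x) := by
  have := Fact.mk h.prime
  have : NeZero p := ⟨h.prime.ne_zero⟩
  rw [Fintype.bijective_iff_injective_and_card]
  refine ⟨?_, by rw [ZMod.card, h.card]⟩
  intro a b hab
  by_contra hne
  apply h.tr_fix hcG hc (sub_ne_zero.2 hne) x
  rw [sub_eq_neg_add, tr_add hc, Equiv.Perm.mul_apply]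
  have : tr p c a x = tr p c b x := hab
  rw [this, tr_neg hc, inv_app]

/-- the group generated by `c` is normal -/
theorem normal {g : Equiv.Perm V} (hg : g ∈ G) : ∃ a : ZMod p, g * c * g⁻¹ = tr p c a := by
  classical
  have := Fact.mk h.prime
  have : NeZero p := ⟨h.prime.ne_zero⟩
  by_contra hcon
  push Not at hcon
  have hc' : orderOf (g * c * g⁻¹) = p := by
    rw [← hc]
    exact orderOf_injective (MulAut.conj g).toMonoidHom (MulAut.conj g).injective c
  have hcG' : g * c * g⁻¹ ∈ G := G.mul_mem (G.mul_mem hg hcG) (G.inv_mem hg)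
  set c' := g * c * g⁻¹ with hc'def
  let F : ZMod p × ZMod p → G := fun q => ⟨tr p c q.1 * tr p c' q.2,
    G.mul_mem (tr_mem hcG _) (tr_mem hcG' _)⟩
  have hF : Function.Injective F := by
    rintro ⟨i, j⟩ ⟨k, l⟩ hij
    have h1 : tr p c i * tr p c' j = tr p c k * tr p c' l := congrArg Subtype.val hij
    have h2 : tr p c' (j - l) = tr p c (k - i) := by
      rw [sub_eq_add_neg, sub_eq_neg_add, tr_add hc', tr_add hc, tr_neg hc', tr_neg hc,
        mul_inv_eq_iff_eq_mul, mul_assoc, ← h1, inv_mul_cancel_left]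
    by_cases hjl : j - l = 0
    · have h3 : k - i = 0 := by
        rw [hjl, tr_zero] at h2
        exact tr_eq_one hc h2.symm
      rw [sub_eq_zero.1 hjl, sub_eq_zero.1 h3]
    · exfalso
      apply hcon ((((j - l)⁻¹).val : ℕ) * (k - i))
      rw [tr_mul_nat hc, ← h2, ← tr_mul_nat hc', ZMod.natCast_zmod_val, inv_mul_cancel₀ hjl, tr_one]
  have h1 := Nat.card_le_card_of_injective F hF
  rw [Nat.card_prod, Nat.card_zmod] at h1
  exact absurd h.card_lt (not_lt.2 h1)

end FrobG

/-- **Transitive groups of prime degree in which only the identity fixes two points.** -/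
theorem FrobG.main {G : Subgroup (Equiv.Perm V)} (h : FrobG p G) :
    ∃ (φ : V ≃ ZMod p) (H : Subgroup (ZMod p)ˣ), ∀ g : Equiv.Perm V,
      g ∈ G ↔ ∃ a ∈ H, ∃ b : ZMod p, ∀ v, φ (g v) = (a : ZMod p) * φ v + b := by
  classical
  have := Fact.mk h.prime
  have : NeZero p := ⟨h.prime.ne_zero⟩
  have : Nonempty V := Fintype.card_pos_iff.1 (by rw [h.card]; exact h.prime.pos)
  obtain ⟨x0⟩ := (inferInstance : Nonempty V)
  obtain ⟨c, hcG, hc⟩ := h.exists_order
  let ψ : ZMod p ≃ V := Equiv.ofBijective _ (h.bij hcG hc x0)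
  have hψ : ∀ i, ψ i = tr p c i x0 := fun i => rfl
  let φ : V ≃ ZMod p := ψ.symm
  have htr : ∀ (b : ZMod p) (v : V), φ (tr p c b v) = φ v + b := by
    intro b v
    apply ψ.injective
    rw [show ψ (φ (tr p c b v)) = tr p c b v from ψ.apply_symm_apply _, hψ, add_comm, tr_add hc,
      Equiv.Perm.mul_apply, ← hψ, show ψ (φ v) = v from ψ.apply_symm_apply v]
  -- every element is affine
  have haff : ∀ g ∈ G, ∃ a : (ZMod p)ˣ, ∃ b : ZMod p, ∀ v, φ (g v) = (a : ZMod p) * φ v + b := by
    intro g hg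
    obtain ⟨a, ha⟩ := h.normal hcG hc hg
    have ha0 : a ≠ 0 := by
      rintro rfl
      rw [tr_zero, mul_inv_eq_one] at ha
      have h1 : c = 1 := by
        have := congrArg (fun t => g⁻¹ * t) ha
        simpa using this
      rw [h1, orderOf_one] at hc
      exact h.prime.one_lt.ne hc
    refine ⟨Units.mk0 a ha0, φ (g x0), fun v => ?_⟩
    have hv : v = tr p c (φ v) x0 := by
      rw [← hψ]
      exact (ψ.apply_symm_apply v).symm
    have h2 : ∀ n : ℕ, g * c ^ n * g⁻¹ = tr p c ((n : ZMod p) * a) := by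
      intro n
      rw [tr_mul_nat hc, ← ha, conj_pow]
    have h3 : g (tr p c (φ v) x0) = tr p c (φ v * a) (g x0) := by
      have h4 := h2 (φ v).val
      rw [ZMod.natCast_zmod_val] at h4
      rw [← h4]
      simp [tr]
    conv_lhs => rw [hv]
    rw [h3, htr, add_comm, mul_comm]
    rfl
  have htG : ∀ b : ZMod p, tr p c b ∈ G := fun b => tr_mem hcG b
  let H : Subgroup (ZMod p)ˣ :=
    { carrier := {a | ∃ g ∈ G, ∀ v, φ (g v) = (a : ZMod p) * φ v}
      mul_mem' := by
        rintro a b ⟨g, hg, h1⟩ ⟨k, hk, h2⟩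
        refine ⟨g * k, G.mul_mem hg hk, fun v => ?_⟩
        rw [Equiv.Perm.mul_apply, h1, h2, Units.val_mul, mul_assoc]
      one_mem' := ⟨1, G.one_mem, fun v => by simp⟩
      inv_mem' := by
        rintro a ⟨g, hg, h1⟩
        refine ⟨g⁻¹, G.inv_mem hg, fun v => ?_⟩
        have h2 := h1 (g⁻¹ v)
        rw [app_inv] at h2
        rw [h2, ← mul_assoc, Units.inv_mul, one_mul] }
  refine ⟨φ, H, fun g => ⟨fun hg => ?_, ?_⟩⟩
  · obtain ⟨a, b, hab⟩ := haff g hg
    refine ⟨a, ⟨tr p c (-b) * g, G.mul_mem (htG _) hg, fun v => ?_⟩, b, hab⟩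
    rw [Equiv.Perm.mul_apply, htr, hab, add_neg_cancel_right]
  · rintro ⟨a, ⟨g0, hg0, h0⟩, b, hab⟩
    have : g = tr p c b * g0 := by
      ext v
      apply φ.injective
      rw [hab, Equiv.Perm.mul_apply, htr, h0]
    rw [this]
    exact G.mul_mem (htG b) hg0

end PDeg.Frob
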