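import Pool.Agent.Lib.MP_369ee2_lc_PD.HCol
import Pool.Agent.Lib.MP_369ee2_lc_PD.FrobGT

/-!
# Schemes of prime degree all of whose fibres over pairs are singletons

Such a scheme is the orbit scheme of a group of affine maps of `ZMod p`.
-/

namespace PDeg.Frob

open MSch Function PD

theorem two_zmod : (1 : ZMod 2) + 1 = 0 := by decide

section
variable {V : Type} [Fintype V] {m : ℕ} {Q : MScheme V m}

theorem ext1 {n : ℕ} (hn : n + 1 ≤ m) {u v : Fin n → V} (h : SS Q n u v) (a : V) :
    ∃ b : V, SS Q (n + 1) (Fin.snoc u a) (Fin.snoc v b) := by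
  have h1 := SS.reg hn (Fin.snoc u a) h
  have h2 : 0 < Nat.card {a' : V // SS Q (n + 1) (Fin.snoc u a') (Fin.snoc u a)} := by
    have : Nonempty {a' : V // SS Q (n + 1) (Fin.snoc u a') (Fin.snoc u a)} := ⟨⟨a, SS.refl _⟩⟩
    exact Nat.card_pos
  rw [h1] at h2
  obtain ⟨⟨b, hb⟩⟩ := (Nat.card_pos_iff.1 h2).1
  exact ⟨b, hb.symm⟩

/-- all fibres over pairs of distinct points are singletons -/
def Sing (Q : MScheme V m) : Prop :=
  ∀ x y a b : V, x ≠ y → SS Q 3 ![x, y, a] ![x, y, b] → a = b

omit [Fintype V] in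
theorem snoc2 (x y : V) : (Fin.snoc ![x] y : Fin 2 → V) = ![x, y] := by
  ext i
  fin_cases i <;> rfl

omit [Fintype V] in
theorem snoc3 (x y a : V) : (Fin.snoc ![x, y] a : Fin 3 → V) = ![x, y, a] := by
  ext i
  fin_cases i <;> rfl

omit [Fintype V] in
theorem snoc4 (x y a b : V) : (Fin.snoc ![x, y, a] b : Fin 4 → V) = ![x, y, a, b] := by
  ext i
  fin_cases i <;> rfl

omit [Fintype V] in
theorem snoc5 (x y a b c : V) : (Fin.snoc ![x, y, a, b] c : Fin 5 → V) = ![x, y, a, b, c] := by
  ext i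
  fin_cases i <;> rfl

variable (hm : 5 ≤ m) (hS : Sing Q)
include hm hS

/-- the map attached to two pairs of the same colour preserves the colours of triples -/
theorem exists_map3 {x y x' y' : V} (hxy : x ≠ y) (h : SS Q 2 ![x, y] ![x', y']) :
    ∃ g : V → V, (∀ a b c, SS Q 3 ![a, b, c] ![g a, g b, g c]) ∧ g x = x' ∧ g y = y' := by
  have hxy' : x' ≠ y' := by
    intro h'
    exact hxy ((h.1 0 1).2 h')
  have h1 : ∀ a : V, ∃ b : V, SS Q 3 ![x, y, a] ![x', y', b] := by
    intro a
    obtain ⟨b, hb⟩ := ext1 (by omega) h a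
    rw [snoc3, snoc3] at hb
    exact ⟨b, hb⟩
  choose g hg using h1
  have huni : ∀ a b, SS Q 3 ![x, y, a] ![x', y', b] → b = g a := fun a b hb =>
    hS x' y' b (g a) hxy' (hb.symm.trans (hg a))
  refine ⟨g, ?_, ?_, ?_⟩
  · intro a b c
    obtain ⟨b', hb'⟩ := ext1 (by omega) (hg a) b
    rw [snoc4, snoc4] at hb'
    obtain ⟨c', hc'⟩ := ext1 (by omega) hb' c
    rw [snoc5, snoc5] at hc'
    have e1 : b' = g b := by
      apply huni
      have := hc'.reix ![0, 1, 3]
      convert this using 1 <;> (ext i; fin_cases i <;> rfl)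
    have e2 : c' = g c := by
      apply huni
      have := hc'.reix ![0, 1, 4]
      convert this using 1 <;> (ext i; fin_cases i <;> rfl)
    have := hc'.reix ![2, 3, 4]
    rw [e1, e2] at this
    convert this using 1 <;> (ext i; fin_cases i <;> rfl)
  · exact (((hg x).1 0 2).1 rfl).symm
  · exact (((hg y).1 1 2).1 rfl).symm

omit hm in
/-- such a map preserves all colours of length at most `m` -/
theorem map_all {g : V → V} (hg : ∀ a b c, SS Q 3 ![a, b, c] ![g a, g b, g c]) :
    ∀ n, n ≤ m → ∀ t : Fin n → V, SS Q n t (g ∘ t) := by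
  have hg2 : ∀ a b, SS Q 2 ![a, b] ![g a, g b] := by
    intro a b
    have := (hg a b b).reix ![0, 1]
    convert this using 1 <;> (ext i; fin_cases i <;> rfl)
  have hinj : ∀ a b, a = b ↔ g a = g b := fun a b => (hg2 a b).1 0 1
  intro n
  induction n with
  | zero =>
    intro _ t
    have e : g ∘ t = t := by
      ext i
      exact i.elim0
    rw [e]
    exact SS.refl t
  | succ n ih =>
    intro hn t
    have ht : t = Fin.snoc (Fin.init t) (t (Fin.last n)) := (Fin.snoc_init_self t).symm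
    set u : Fin n → V := Fin.init t with hu
    set a : V := t (Fin.last n) with ha
    have e : g ∘ t = Fin.snoc (g ∘ u) (g a) := by
      rw [ht, Fin.comp_snoc]
    rw [e, ht]
    by_cases hc : ∃ i j, u i ≠ u j
    · obtain ⟨i, j, hij⟩ := hc
      obtain ⟨b, hb⟩ := ext1 (by omega) (ih (by omega) u) a
      have h3 : SS Q 3 ![u i, u j, a] ![g (u i), g (u j), b] := by
        have := hb.reix ![Fin.castSucc i, Fin.castSucc j, Fin.last n]
        convert this using 1
        · ext k; fin_cases k <;> simp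
        · ext k; fin_cases k <;> simp
      have : b = g a := hS _ _ _ _ (fun h => hij ((hinj _ _).2 h)) (h3.symm.trans (hg _ _ _))
      rw [← this]
      exact hb
    · push Not at hc
      rcases Nat.eq_zero_or_pos n with h0 | h0
      · subst h0
        have := (hg2 a a).reix ![0]
        convert this using 1
        · ext k; fin_cases k; simp [Fin.snoc]
        · ext k; fin_cases k; simp [Fin.snoc]
      · have := (hg2 (u ⟨0, h0⟩) a).reix
          (Fin.snoc (α := fun _ => Fin 2) (fun _ => 0) 1 : Fin (n + 1) → Fin 2)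
        convert this using 1
        · ext k
          refine Fin.lastCases ?_ (fun k => ?_) k
          · simp
          · simp [hc k ⟨0, h0⟩]
        · ext k
          refine Fin.lastCases ?_ (fun k => ?_) k
          · simp
          · simp [hc k ⟨0, h0⟩]

omit hm hS in
/-- the automorphism group of a scheme -/
def Aut (Q : MScheme V m) : Subgroup (Equiv.Perm V) where
  carrier := {g | ∀ n, n ≤ m → ∀ t : Fin n → V, SS Q n t (g ∘ t)}
  mul_mem' := by
    intro g k hg hk n hn t
    have h1 := hk n hn t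
    have h2 := hg n hn (k ∘ t)
    exact h1.trans h2
  one_mem' := fun n _ t => SS.refl t
  inv_mem' := by
    intro g hg n hn t
    have h1 := hg n hn (⇑g⁻¹ ∘ t)
    have e : ⇑g ∘ (⇑g⁻¹ ∘ t) = t := by
      ext i
      exact app_inv g (t i)
    rw [e] at h1
    exact h1.symm

/-- pairs of the same colour are conjugate under the automorphism group -/
theorem exists_aut2 {x y x' y' : V} (hxy : x ≠ y) (h : SS Q 2 ![x, y] ![x', y']) :
    ∃ g ∈ Aut Q, g x = x' ∧ g y = y' := by
  obtain ⟨g, hg, h1, h2⟩ := exists_map3 hm hS hxy h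
  have hall := map_all hS hg
  have hinj : Injective g := by
    intro a b hab
    exact ((hall 2 (by omega) ![a, b]).1 0 1).2 hab
  have hbij : Bijective g := Finite.injective_iff_bijective.1 hinj
  exact ⟨Equiv.ofBijective g hbij, hall, h1, h2⟩

theorem fix_aut {g : Equiv.Perm V} (hg : g ∈ Aut Q) {x y : V} (hxy : x ≠ y) (hx : g x = x)
    (hy : g y = y) : g = 1 := by
  ext z
  have h1 := hg 3 (by omega) ![x, y, z]
  have e : ⇑g ∘ ![x, y, z] = ![x, y, g z] := by
    ext i
    fin_cases i
    · exact hx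
    · exact hy
    · rfl
  rw [e] at h1
  exact (hS _ _ _ _ hxy h1).symm

/-- colours are orbits of the automorphism group -/
theorem colour_iff (hV : 2 ≤ Fintype.card V) {s : ℕ} (hs : s ≤ m) (u v : Fin s ↪ V) :
    (Q.P s).r u v ↔ ∃ g ∈ Aut Q, ∀ i, v i = g (u i) := by
  constructor
  · intro h
    have hSS := (SS.iff_emb hs u v).2 h
    rcases Nat.lt_or_ge s 2 with h2 | h2
    · interval_cases s
      · exact ⟨1, (Aut Q).one_mem, fun i => i.elim0⟩
      · have : Nontrivial V := Fintype.one_lt_card_iff_nontrivial.1 (by omega)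
        obtain ⟨y, hy⟩ := exists_ne (u 0)
        have h1 : SS Q 1 ![u 0] ![v 0] := by
          convert hSS using 1 <;> (ext i; fin_cases i; rfl)
        obtain ⟨y', hy'⟩ := ext1 (by omega) h1 y
        rw [snoc2, snoc2] at hy'
        obtain ⟨g, hg, h3, -⟩ := exists_aut2 hm hS hy.symm hy'
        refine ⟨g, hg, fun i => ?_⟩
        fin_cases i
        exact h3.symm
    · have h01 : (⟨0, by omega⟩ : Fin s) ≠ ⟨1, by omega⟩ := by
        intro h
        simpa using congrArg Fin.val h
      have hu : u ⟨0, by omega⟩ ≠ u ⟨1, by omega⟩ := fun h => h01 (u.injective h)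
      have h3 : ∀ i, SS Q 3 ![u ⟨0, by omega⟩, u ⟨1, by omega⟩, u i]
          ![v ⟨0, by omega⟩, v ⟨1, by omega⟩, v i] := by
        intro i
        have := hSS.reix ![⟨0, by omega⟩, ⟨1, by omega⟩, i]
        convert this using 1 <;> (ext k; fin_cases k <;> rfl)
      obtain ⟨g, hg, h4, h5⟩ := exists_aut2 hm hS hu (x' := v ⟨0, by omega⟩)
        (y' := v ⟨1, by omega⟩) (by
          have := (h3 ⟨0, by omega⟩).reix ![0, 1]
          convert this using 1 <;> (ext k; fin_cases k <;> rfl))
      refine ⟨g, hg, fun i => ?_⟩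
      have h6 := hg 3 (by omega) ![u ⟨0, by omega⟩, u ⟨1, by omega⟩, u i]
      have e : ⇑g ∘ ![u ⟨0, by omega⟩, u ⟨1, by omega⟩, u i] =
          ![v ⟨0, by omega⟩, v ⟨1, by omega⟩, g (u i)] := by
        ext k
        fin_cases k
        · exact h4
        · exact h5
        · rfl
      rw [e] at h6
      refine hS _ _ _ _ ?_ ((h3 i).symm.trans h6)
      intro h
      exact h01 (v.injective h)
  · rintro ⟨g, hg, hgv⟩
    rw [← SS.iff_emb hs u v]
    have e : (v : Fin s → V) = g ∘ u := by
      ext i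
      exact hgv i
    rw [e]
    exact hg s hs u

/-- **Classification from singletons.** -/
theorem main {p : ℕ} (hp : p.Prime) (hV : Fintype.card V = p) (hH : Q.Homogeneous)
    (h2 : ∀ x : Fin 2 ↪ V, ¬ (Q.P 2).r ((Equiv.swap 0 1).toEmbedding.trans x) x) :
    ∃ (φ : V ≃ ZMod p) (H : Subgroup (ZMod p)ˣ), Odd p ∧ Odd (Nat.card H) ∧
      ∀ s, s ≤ m → ∀ u v : Fin s ↪ V, (Q.P s).r u v ↔
        ∃ a ∈ H, ∃ b : ZMod p, ∀ i, φ (v i) = (a : ZMod p) * φ (u i) + b := by
  classical
  have hF : FrobG p (Aut Q) := by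
    refine ⟨hp, hV, ?_, fun g hg x y hxy hx hy => fix_aut hm hS hg hxy hx hy⟩
    intro x y
    obtain ⟨g, hg, h⟩ := (colour_iff hm hS (by rw [hV]; exact hp.two_le) (by omega)
      (⟨![x], fun _ _ _ => Subsingleton.elim _ _⟩ : Fin 1 ↪ V)
      ⟨![y], fun _ _ _ => Subsingleton.elim _ _⟩).1 (hH _ _)
    exact ⟨g, hg, (h 0).symm⟩
  obtain ⟨φ, H, hφ⟩ := hF.main
  have hcol : ∀ s, s ≤ m → ∀ u v : Fin s ↪ V, (Q.P s).r u v ↔
        ∃ a ∈ H, ∃ b : ZMod p, ∀ i, φ (v i) = (a : ZMod p) * φ (u i) + b := by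
    intro s hs u v
    rw [colour_iff hm hS (by rw [hV]; exact hp.two_le) hs]
    constructor
    · rintro ⟨g, hg, h⟩
      obtain ⟨a, ha, b, hab⟩ := (hφ g).1 hg
      exact ⟨a, ha, b, fun i => by rw [h, hab]⟩
    · rintro ⟨a, ha, b, hab⟩
      let g : Equiv.Perm V := φ.trans (((Units.mulLeft a).trans (Equiv.addRight b)).trans φ.symm)
      have hg : ∀ v, φ (g v) = (a : ZMod p) * φ v + b := by
        intro v
        simp [g]
      refine ⟨g, (hφ g).2 ⟨a, ha, b, hg⟩, fun i => ?_⟩
      apply φ.injective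
      rw [hg, hab]
  -- no element of the group exchanges two points
  have hsw : ∀ a ∈ H, ∀ b x y : ZMod p, x ≠ y → (a : ZMod p) * x + b = y →
      (a : ZMod p) * y + b ≠ x := by
    intro a ha b x y hxy h3 h4
    have hne : φ.symm x ≠ φ.symm y := fun h => hxy (φ.symm.injective h)
    have hinj : Injective ![φ.symm x, φ.symm y] := by
      intro i j
      fin_cases i <;> fin_cases j <;> simp [hxy, hxy.symm]
    apply h2 ⟨![φ.symm x, φ.symm y], hinj⟩
    rw [hcol 2 (by omega)]
    refine ⟨a, ha, b, fun i => ?_⟩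
    fin_cases i
    · change φ (φ.symm x) = a * φ (φ.symm y) + b
      rw [φ.apply_symm_apply, φ.apply_symm_apply, h4]
    · change φ (φ.symm y) = a * φ (φ.symm x) + b
      rw [φ.apply_symm_apply, φ.apply_symm_apply, h3]
  have := Fact.mk hp
  refine ⟨φ, H, ?_, ?_, hcol⟩
  · rcases hp.eq_two_or_odd' with h | h
    · exfalso
      subst h
      refine hsw 1 H.one_mem 1 0 1 zero_ne_one ?_ ?_
      · rw [mul_zero, zero_add]
      · rw [Units.val_one, one_mul]
        exact two_zmod
    · exact h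
  · by_contra hodd
    rw [Nat.not_odd_iff_even] at hodd
    obtain ⟨a, ha⟩ := exists_prime_orderOf_dvd_card' 2 hodd.two_dvd
    have h1 : ((a : (ZMod p)ˣ) : ZMod p) * (a : (ZMod p)ˣ) = 1 := by
      have h3 : a ^ 2 = 1 := by rw [← ha, pow_orderOf_eq_one]
      have h4 := congrArg (fun t : H => ((t : (ZMod p)ˣ) : ZMod p)) h3
      simpa [pow_two] using h4
    have h5 : ((a : (ZMod p)ˣ) : ZMod p) ≠ 1 := by
      intro h6
      have h7 : a = 1 := by
        apply Subtype.ext
        exact Units.ext h6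
      rw [h7, orderOf_one] at ha
      exact absurd ha (by norm_num)
    refine hsw a a.2 0 1 (a : (ZMod p)ˣ) h5.symm (by simp) ?_
    rw [add_zero, h1]

end

end PDeg.Frob
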