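import Pool.Agent.Lib.MP_369ee2_lc.Defs

/-!
# Affine orbit schemes: the converse of the classification, and antisymmetry
-/

namespace PDeg.Frob

open MSch Function

section conv
variable {p : ℕ} [hp : Fact p.Prime] (H : Subgroup (ZMod p)ˣ)

/-- the affine map `x ↦ a x + b` -/
def aff (a : (ZMod p)ˣ) (b : ZMod p) : Equiv.Perm (ZMod p) :=
  (Units.mulLeft a).trans (Equiv.addRight b)

theorem aff_apply (a : (ZMod p)ˣ) (b x : ZMod p) : aff a b x = (a : ZMod p) * x + b := rfl

/-- the tuples `u`, `v` are in the same orbit of the group of the maps `x ↦ a x + b`, `a ∈ H` -/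
def Orb {s : ℕ} (u v : Fin s ↪ ZMod p) : Prop :=
  ∃ a ∈ H, ∃ b : ZMod p, ∀ i, v i = (a : ZMod p) * u i + b

variable {H}

theorem Orb.refl {s : ℕ} (u : Fin s ↪ ZMod p) : Orb H u u :=
  ⟨1, H.one_mem, 0, fun i => by rw [Units.val_one, one_mul, add_zero]⟩

theorem Orb.symm {s : ℕ} {u v : Fin s ↪ ZMod p} (h : Orb H u v) : Orb H v u := by
  obtain ⟨a, ha, b, hab⟩ := h
  refine ⟨a⁻¹, H.inv_mem ha, -((a⁻¹ : (ZMod p)ˣ) : ZMod p) * b, fun i => ?_⟩
  rw [hab, mul_add, ← mul_assoc, Units.inv_mul]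
  ring

theorem Orb.trans {s : ℕ} {u v w : Fin s ↪ ZMod p} (h : Orb H u v) (h' : Orb H v w) :
    Orb H u w := by
  obtain ⟨a, ha, b, hab⟩ := h
  obtain ⟨c, hc, d, hcd⟩ := h'
  refine ⟨c * a, H.mul_mem hc ha, (c : ZMod p) * b + d, fun i => ?_⟩
  rw [hcd, hab, Units.val_mul]
  ring

theorem Orb.comp {s t : ℕ} {u v : Fin s ↪ ZMod p} (h : Orb H u v) (ι : Fin t ↪ Fin s) :
    Orb H (ι.trans u) (ι.trans v) := by
  obtain ⟨a, ha, b, hab⟩ := h
  exact ⟨a, ha, b, fun i => hab (ι i)⟩

theorem Orb.aff {a : (ZMod p)ˣ} (ha : a ∈ H) (b : ZMod p) {s : ℕ} (u : Fin s ↪ ZMod p) :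
    Orb H u (u.trans (aff a b).toEmbedding) :=
  ⟨a, ha, b, fun _ => rfl⟩

variable (H)

/-- the orbit scheme -/
def orbScheme (m : ℕ) : MScheme (ZMod p) m where
  P := fun _ => ⟨Orb H, ⟨Orb.refl, Orb.symm, Orb.trans⟩⟩
  compat := fun _ _ i _ _ h => Orb.comp h (Fin.succAboveEmb i)
  regular := by
    intro s _ i z u v h
    obtain ⟨a, ha, b, hab⟩ := h
    have huv : v = u.trans (aff a b).toEmbedding := by
      ext i
      exact hab i
    refine Nat.card_congr ((Equiv.embeddingCongr (Equiv.refl (Fin (s + 1)))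
      (aff a b)).subtypeEquiv (fun x => ?_))
    have hx : Equiv.embeddingCongr (Equiv.refl (Fin (s + 1))) (aff a b) x =
        x.trans (aff a b).toEmbedding := rfl
    rw [hx]
    have h1 : Orb H x (x.trans (aff a b).toEmbedding) := Orb.aff ha b x
    refine and_congr ⟨fun h => h1.symm.trans h, fun h => h1.trans h⟩ ?_
    rw [huv]
    have h2 : del i (x.trans (aff a b).toEmbedding) = (del i x).trans (aff a b).toEmbedding := rfl
    rw [h2]
    constructor
    · intro h
      rw [h]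
    · intro h
      ext k
      exact (aff a b).injective (DFunLike.congr_fun h k)
  inv := fun _ _ σ _ _ h => Orb.comp h σ.toEmbedding

theorem neg_one_notMem (hodd : Odd p) (hH : Odd (Nat.card H)) {a : (ZMod p)ˣ} (ha : a ∈ H) :
    (a : ZMod p) ≠ -1 := by
  intro h
  have h1 : a ^ 2 = 1 := by
    apply Units.ext
    rw [Units.val_pow_eq_pow_val, h, Units.val_one]
    ring
  have h2 : orderOf a ∣ 2 := orderOf_dvd_of_pow_eq_one h1
  have h3 : orderOf a ∣ Nat.card H := by
    have := orderOf_dvd_natCard (⟨a, ha⟩ : H)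
    rwa [Subgroup.orderOf_mk] at this
  have h4 : orderOf a = 1 := by
    rcases (Nat.dvd_prime Nat.prime_two).1 h2 with h | h
    · exact h
    · rw [h] at h3
      exact absurd (Nat.not_odd_iff_even.2 (even_iff_two_dvd.2 h3)) (not_not.2 hH)
  rw [orderOf_eq_one_iff] at h4
  rw [h4, Units.val_one] at h
  have h5 : ((2 : ℕ) : ZMod p) = 0 := by
    push_cast
    linear_combination h
  rw [ZMod.natCast_eq_zero_iff] at h5
  have h6 : p = 2 := (Nat.prime_dvd_prime_iff_eq hp.out Nat.prime_two).1 h5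
  rw [h6] at hodd
  exact absurd hodd (by decide)

/-- **The converse.** -/
theorem exists_orb (hodd : Odd p) (hH : Odd (Nat.card H)) (m : ℕ) :
    ∃ Q : MScheme (ZMod p) m, Q.Homogeneous ∧
      (∀ x : Fin 2 ↪ ZMod p, ¬ (Q.P 2).r ((Equiv.swap 0 1).toEmbedding.trans x) x) ∧
      ∀ (s : ℕ) (u v : Fin s ↪ ZMod p), (Q.P s).r u v ↔
        ∃ a ∈ H, ∃ b : ZMod p, ∀ i, v i = (a : ZMod p) * u i + b := by
  refine ⟨orbScheme H m, ?_, ?_, fun s u v => Iff.rfl⟩
  · intro x y
    refine ⟨1, H.one_mem, y 0 - x 0, fun i => ?_⟩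
    rw [Subsingleton.elim i 0, Units.val_one]
    ring
  · rintro x ⟨a, ha, b, hab⟩
    have h0 := hab 0
    have h1 := hab 1
    simp only [Embedding.trans_apply, Equiv.coe_toEmbedding, Equiv.swap_apply_left,
      Equiv.swap_apply_right] at h0 h1
    have hne : x 1 - x 0 ≠ 0 := by
      intro h
      exact absurd (x.injective (sub_eq_zero.1 h)) (by decide)
    apply neg_one_notMem H hodd hH ha
    apply mul_right_cancel₀ hne
    linear_combination h1 - h0

end conv

section anti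
variable {p : ℕ} [hp : Fact p.Prime] {V : Type} [Fintype V] {m : ℕ} {Q : MScheme V m}
  {φ : V ≃ ZMod p} {H : Subgroup (ZMod p)ˣ}

/-- the iterates of an affine map -/
theorem aff_pow (a : (ZMod p)ˣ) (b : ZMod p) (k : ℕ) :
    ∃ c : ZMod p, ∀ x, ((aff a b) ^ k) x = ((a ^ k : (ZMod p)ˣ) : ZMod p) * x + c := by
  induction k with
  | zero => exact ⟨0, fun x => by simp⟩
  | succ k ih =>
    obtain ⟨c, hc⟩ := ih
    refine ⟨(a : ZMod p) * c + b, fun x => ?_⟩
    rw [pow_succ', Equiv.Perm.mul_apply, hc, aff_apply, pow_succ', Units.val_mul]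
    ring

theorem aff_pow_card {a : (ZMod p)ˣ} (ha : a ∈ H) (b : ZMod p) :
    (aff a b) ^ (p * Nat.card H) = 1 := by
  have ha' : a ^ Nat.card H = 1 := by
    have := pow_card_eq_one' (x := (⟨a, ha⟩ : H))
    exact congrArg Subtype.val this
  obtain ⟨c, hc⟩ := aff_pow a b (Nat.card H)
  have h1 : (aff a b) ^ Nat.card H = aff 1 c := by
    ext x
    rw [hc, ha']
    rfl
  have h2 : ∀ n : ℕ, ∀ x : ZMod p, ((aff 1 c) ^ n) x = x + (n : ZMod p) * c := by
    intro n
    induction n with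
    | zero => intro x; simp
    | succ n ih =>
      intro x
      rw [pow_succ', Equiv.Perm.mul_apply, ih, aff_apply, Units.val_one]
      push_cast
      ring
  ext x
  rw [mul_comm, pow_mul, h1, h2, ZMod.natCast_self, zero_mul, add_zero]
  rfl

/-- **Antisymmetry of the affine orbit schemes.** -/
theorem anti_iff (hcol : ∀ s, s ≤ m → ∀ u v : Fin s ↪ V, (Q.P s).r u v ↔
      ∃ a ∈ H, ∃ b : ZMod p, ∀ i, φ (v i) = (a : ZMod p) * φ (u i) + b) :
    Q.Antisymmetric ↔ ∀ r : ℕ, r.Prime → r ∣ p * Nat.card H → m < r := by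
  constructor
  · intro hA r hr hdvd
    by_contra hmr
    push Not at hmr
    have : NeZero r := ⟨hr.ne_zero⟩
    have hr2 : Fact (1 < r) := ⟨hr.one_lt⟩
    have hσ : (Equiv.addRight (1 : Fin r) : Equiv.Perm (Fin r)) ≠ 1 := by
      intro h
      have h1 := Equiv.Perm.ext_iff.1 h 0
      simp only [Equiv.coe_addRight, zero_add, Equiv.Perm.coe_one, id_eq] at h1
      have h2 := congrArg Fin.val h1
      rw [Fin.val_zero, Fin.val_one', Nat.mod_eq_of_lt hr.one_lt] at h2
      exact one_ne_zero h2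
    -- a regular tuple
    have key : ∃ f : Fin r → ZMod p, Injective f ∧ ∃ a ∈ H, ∃ b : ZMod p,
        ∀ i : Fin r, f i = (a : ZMod p) * f (i + 1) + b := by
      rcases (Nat.Prime.dvd_mul hr).1 hdvd with h | h
      · have hrp : r = p := (Nat.prime_dvd_prime_iff_eq hr hp.out).1 h
        subst hrp
        refine ⟨fun i => (i.val : ZMod r), ?_, 1, H.one_mem, -1, fun i => ?_⟩
        · intro i j hij
          have h1 : ((i.val : ℕ) : ZMod r) = ((j.val : ℕ) : ZMod r) := hij
          rw [ZMod.natCast_eq_natCast_iff] at h1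
          exact Fin.ext (Nat.ModEq.eq_of_lt_of_lt h1 i.2 j.2)
        · simp only [Units.val_one, one_mul]
          rw [Fin.val_add, ZMod.natCast_mod, Fin.val_one', Nat.mod_eq_of_lt hr.one_lt]
          push_cast
          ring
      · have : Fact r.Prime := ⟨hr⟩
        obtain ⟨a, ha⟩ := exists_prime_orderOf_dvd_card' r h
        have ha' : orderOf (a : (ZMod p)ˣ) = r := by rw [Subgroup.orderOf_coe, ha]
        refine ⟨fun i => (((a : (ZMod p)ˣ) ^ i.val : (ZMod p)ˣ) : ZMod p), ?_,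
          (a : (ZMod p)ˣ)⁻¹, H.inv_mem a.2, 0, fun i => ?_⟩
        · intro i j hij
          have h1 : (a : (ZMod p)ˣ) ^ i.val = (a : (ZMod p)ˣ) ^ j.val := Units.ext hij
          rw [pow_inj_mod, ha', Nat.mod_eq_of_lt i.2, Nat.mod_eq_of_lt j.2] at h1
          exact Fin.ext h1
        · have h1 : (a : (ZMod p)ˣ) ^ (i + 1).val = (a : (ZMod p)ˣ) * (a : (ZMod p)ˣ) ^ i.val := by
            rw [← pow_succ', pow_inj_mod, ha', Fin.val_add, Fin.val_one',
              Nat.mod_eq_of_lt hr.one_lt, Nat.mod_mod]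
          simp only [h1, add_zero]
          rw [← Units.val_mul, inv_mul_cancel_left]
    obtain ⟨f, hf, a, ha, b, hab⟩ := key
    have hu : Injective (fun i => φ.symm (f i)) := φ.symm.injective.comp hf
    refine hA r hmr _ hσ ⟨fun i => φ.symm (f i), hu⟩ ((hcol r hmr _ _).2 ⟨a, ha, b, fun i => ?_⟩)
    change φ (φ.symm (f i)) = a * φ (φ.symm (f (i + 1))) + b
    rw [φ.apply_symm_apply, φ.apply_symm_apply]
    exact hab i
  · intro hr s hs σ hσ x h
    obtain ⟨a, ha, b, hab⟩ := (hcol s hs _ _).1 h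
    have h1 : ∀ k : ℕ, ∀ i, φ (x i) = ((aff a b) ^ k) (φ (x ((σ ^ k) i))) := by
      intro k
      induction k with
      | zero => intro i; simp
      | succ k ih =>
        intro i
        rw [ih i, pow_succ (aff a b), Equiv.Perm.mul_apply]
        congr 1
        rw [hab ((σ ^ k) i), aff_apply]
        rw [pow_succ', Equiv.Perm.mul_apply]
        rfl
    have h2 : σ ^ (p * Nat.card H) = 1 := by
      ext i
      have h3 := h1 (p * Nat.card H) i
      rw [aff_pow_card ha, Equiv.Perm.one_apply] at h3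
      have h4 := x.injective (φ.injective h3)
      rw [← h4]
      rfl
    have h3 := orderOf_dvd_of_pow_eq_one h2
    have h4 : orderOf σ ≠ 1 := fun h => hσ (orderOf_eq_one_iff.1 h)
    obtain ⟨r, hrp, hrd⟩ := Nat.exists_prime_and_dvd h4
    have h5 := hr r hrp (hrd.trans h3)
    have h6 : orderOf σ ∣ s.factorial := by
      have := orderOf_dvd_card (x := σ)
      rwa [Fintype.card_perm, Fintype.card_fin] at this
    have h7 := (Nat.Prime.dvd_factorial hrp).1 (hrd.trans h6)
    omega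

end anti

end PDeg.Frob
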