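import Pool.Agent.Lib.MP_369ee2_lc_PD.Final
import Pool.Agent.Lib.MP_369ee2_lc_PD.Frob
import Pool.Agent.Lib.MP_369ee2_lc_PD.FrobConv

/-!
# Classification of the homogeneous schemes of prime degree without symmetric colours of pairs
-/

namespace PDeg.Frob

open MSch Function

/-- No colour of pairs is its own reverse. -/
def NoSymmetricPair {V : Type} [Fintype V] {m : ℕ} (Q : MScheme V m) : Prop :=
  ∀ x : Fin 2 ↪ V, ¬ (Q.P 2).r ((Equiv.swap 0 1).toEmbedding.trans x) x

/-- Under the bijection `φ` the colours of `Q` at the levels `s ≤ m` are the orbits of the group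
of all maps `x ↦ a x + b` of `ZMod p` with `a ∈ H`. -/
def AffineColours {V : Type} [Fintype V] {m p : ℕ} (Q : MScheme V m) (φ : V ≃ ZMod p)
    (H : Subgroup (ZMod p)ˣ) : Prop :=
  ∀ s, s ≤ m → ∀ u v : Fin s ↪ V, (Q.P s).r u v ↔
    ∃ a ∈ H, ∃ b : ZMod p, ∀ i, φ (v i) = (a : ZMod p) * φ (u i) + b

section
variable {V : Type} [Fintype V] {m : ℕ} {Q : MScheme V m}

theorem sing (hm : 6 ≤ m) (hp : (Fintype.card V).Prime) (hH : Q.Homogeneous)
    (h2 : NoSymmetricPair Q) : Sing Q := by
  intro x y a b hxy h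
  let C : Coh V := Coh.ofWeak Q hm hp.two_le hH h2
  have hC : C.r 3 ![x, y, a] ![x, y, b] := h
  by_cases hbx : x = b
  · exact ((h.1 0 2).2 hbx).symm.trans hbx
  by_cases hby : y = b
  · exact ((h.1 1 2).2 hby).symm.trans hby
  obtain ⟨h5, -⟩ := Nat.card_eq_one_iff_unique.1 (singles C hp x y b hxy hbx hby)
  have h6 := h5.elim ⟨a, hC⟩ ⟨b, (C.equiv 3 (by norm_num)).refl _⟩
  exact congrArg Subtype.val h6

/-- transport of a scheme along a bijection -/
def trans {V' : Type} [Fintype V'] (φ : V' ≃ V) (Q : MScheme V m) : MScheme V' m where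
  P := fun s => (Q.P s).comap (fun u : Fin s ↪ V' => u.trans φ.toEmbedding)
  compat := fun s hs i x y h => Q.compat s hs i _ _ h
  regular := by
    intro s hs i z u v h
    have h1 := Q.regular s hs i (z.trans φ.toEmbedding) (u.trans φ.toEmbedding)
      (v.trans φ.toEmbedding) h
    have key : ∀ w : Fin s ↪ V', Nat.card {x : Fin (s + 1) ↪ V' //
        (Q.P (s + 1)).r (x.trans φ.toEmbedding) (z.trans φ.toEmbedding) ∧ del i x = w} =
        Nat.card {x : Fin (s + 1) ↪ V // (Q.P (s + 1)).r x (z.trans φ.toEmbedding) ∧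
          del i x = w.trans φ.toEmbedding} := by
      intro w
      refine Nat.card_congr ((Equiv.embeddingCongr (Equiv.refl (Fin (s + 1)))
        φ).subtypeEquiv (fun x => ?_))
      have hx : Equiv.embeddingCongr (Equiv.refl (Fin (s + 1))) φ x =
          x.trans φ.toEmbedding := rfl
      rw [hx]
      refine and_congr Iff.rfl ?_
      have h2 : del i (x.trans φ.toEmbedding) = (del i x).trans φ.toEmbedding := rfl
      rw [h2]
      constructor
      · intro h
        rw [h]
      · intro h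
        ext k
        exact φ.injective (DFunLike.congr_fun h k)
    exact (key u).trans (h1.trans (key v).symm)
  inv := fun s hs σ x y h => Q.inv s hs σ _ _ h

end

/-- **Classification.** -/
theorem classification (p : ℕ) (hp : p.Prime) (m : ℕ) (hm : 6 ≤ m) (V : Type) [Fintype V]
    (hV : Fintype.card V = p) :
    (∀ Q : MScheme V m, Q.Homogeneous → NoSymmetricPair Q →
      Odd p ∧ ∃ (φ : V ≃ ZMod p) (H : Subgroup (ZMod p)ˣ), Odd (Nat.card H) ∧
        AffineColours Q φ H ∧
        (Q.Antisymmetric ↔ ∀ r : ℕ, r.Prime → r ∣ p * Nat.card H → m < r)) ∧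
    (Odd p → ∀ (φ : V ≃ ZMod p) (H : Subgroup (ZMod p)ˣ), Odd (Nat.card H) →
      ∃ Q : MScheme V m, Q.Homogeneous ∧ NoSymmetricPair Q ∧ AffineColours Q φ H) := by
  have := Fact.mk hp
  constructor
  · intro Q hH h2
    obtain ⟨φ, H, h3, h4, h5⟩ := main (by omega) (sing hm (by rw [hV]; exact hp) hH h2) hp hV hH h2
    exact ⟨h3, φ, H, h4, h5, anti_iff h5⟩
  · intro hodd φ H hH
    obtain ⟨Q, h1, h2, h3⟩ := exists_orb H hodd hH m
    refine ⟨trans φ Q, fun x y => h1 _ _, fun x => h2 (x.trans φ.toEmbedding), ?_⟩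
    intro s _ u v
    exact h3 s (u.trans φ.toEmbedding) (v.trans φ.toEmbedding)

end PDeg.Frob
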