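import Pool.Agent.Lib.MP_369ee2_lc.Singletons

/-!
# Colours of tuples with repetitions

Section 0 of the prime degree theorem: from a homogeneous `m`-scheme, `m ≥ 6`, without symmetric
colour of pairs to a colouring of all tuples of length at most six.
-/

namespace PD

open MSch Function

/-- Colours of tuples with repetitions, with at most `m` coordinates. -/
structure Col (X : Type) (m : ℕ) where
  S : ∀ n : ℕ, (Fin n → X) → (Fin n → X) → Prop
  refl : ∀ {n : ℕ} (x : Fin n → X), S n x x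
  symm : ∀ {n : ℕ} {x y : Fin n → X}, S n x y → S n y x
  trans : ∀ {n : ℕ} {x y z : Fin n → X}, S n x y → S n y z → S n x z
  eqp : ∀ {n : ℕ} {x y : Fin n → X}, S n x y → ∀ i j, x i = x j ↔ y i = y j
  reix : ∀ {n k : ℕ} (ι : Fin k → Fin n) {x y : Fin n → X}, S n x y → S k (x ∘ ι) (y ∘ ι)
  reg : ∀ {n : ℕ}, n + 1 ≤ m → ∀ {u v : Fin n → X} (z : Fin (n + 1) → X), S n u v →
    Nat.card {a : X // S (n + 1) (Fin.snoc u a) z} = Nat.card {a : X // S (n + 1) (Fin.snoc v a) z}
  hom : ∀ x y : Fin 1 → X, S 1 x y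
  anti : 2 ≤ m → ∀ x : Fin 2 → X, Injective x → ¬ S 2 (x ∘ Equiv.swap (0 : Fin 2) 1) x

section OfScheme

variable {V : Type} [Fintype V] {m : ℕ} (Q : MScheme V m)

/-- the colour equality of tuples with repetitions -/
def SS (n : ℕ) (x y : Fin n → V) : Prop :=
  (∀ i j, x i = x j ↔ y i = y j) ∧
    ∀ (s : ℕ) (ι : Fin s → Fin n) (hx : Injective (x ∘ ι)) (hy : Injective (y ∘ ι)),
      s ≤ m → (Q.P s).r ⟨x ∘ ι, hx⟩ ⟨y ∘ ι, hy⟩

variable {Q}

theorem SS.inj_iff {n s : ℕ} {x y : Fin n → V} (h : ∀ i j, x i = x j ↔ y i = y j)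
    (ι : Fin s → Fin n) : Injective (x ∘ ι) ↔ Injective (y ∘ ι) := by
  constructor
  · intro hx a b hab
    exact hx ((h _ _).2 hab)
  · intro hx a b hab
    exact hx ((h _ _).1 hab)

theorem SS.refl {n : ℕ} (x : Fin n → V) : SS Q n x x :=
  ⟨fun _ _ => Iff.rfl, fun _ _ _ _ _ => (Q.P _).refl' _⟩

theorem SS.symm {n : ℕ} {x y : Fin n → V} (h : SS Q n x y) : SS Q n y x :=
  ⟨fun i j => (h.1 i j).symm, fun s ι hx hy hs => (Q.P _).symm' (h.2 s ι hy hx hs)⟩

theorem SS.trans {n : ℕ} {x y z : Fin n → V} (h : SS Q n x y) (h' : SS Q n y z) : SS Q n x z :=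
  ⟨fun i j => (h.1 i j).trans (h'.1 i j), fun s ι hx hy hs =>
    (Q.P _).trans' (h.2 s ι hx ((SS.inj_iff h.1 ι).1 hx) hs)
      (h'.2 s ι ((SS.inj_iff h.1 ι).1 hx) hy hs)⟩

theorem SS.reix {n k : ℕ} (ι : Fin k → Fin n) {x y : Fin n → V} (h : SS Q n x y) :
    SS Q k (x ∘ ι) (y ∘ ι) :=
  ⟨fun i j => h.1 _ _, fun s κ hx hy hs => h.2 s (ι ∘ κ) hx hy hs⟩

/-- the colour is determined by a system of representatives of the values -/
theorem SS.of_rep {n s : ℕ} {x y : Fin n → V} (h : ∀ i j, x i = x j ↔ y i = y j)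
    (ι : Fin s → Fin n) (hs : s ≤ m) (hrep : ∀ i, ∃ j, x i = x (ι j))
    (hx : Injective (x ∘ ι)) (hy : Injective (y ∘ ι))
    (hP : (Q.P s).r ⟨x ∘ ι, hx⟩ ⟨y ∘ ι, hy⟩) : SS Q n x y := by
  refine ⟨h, fun t κ hx' hy' ht => ?_⟩
  have hr : ∀ j : Fin t, ∃ a : Fin s, x (κ j) = x (ι a) := fun j => hrep _
  choose ρ hρ using hr
  have hρi : Injective ρ := by
    intro a b hab
    apply hx'
    show x (κ a) = x (κ b)
    rw [hρ a, hρ b, hab]
  have := RelAPI.emb Q hs ⟨ρ, hρi⟩ hP
  have e1 : (⟨ρ, hρi⟩ : Fin t ↪ Fin s).trans ⟨x ∘ ι, hx⟩ = ⟨x ∘ κ, hx'⟩ := by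
    ext j
    exact (hρ j).symm
  have e2 : (⟨ρ, hρi⟩ : Fin t ↪ Fin s).trans ⟨y ∘ ι, hy⟩ = ⟨y ∘ κ, hy'⟩ := by
    ext j
    exact ((h _ _).1 (hρ j)).symm
  rw [e1, e2] at this
  exact this

theorem SS.iff_emb {n : ℕ} (hn : n ≤ m) (x y : Fin n ↪ V) :
    SS Q n x y ↔ (Q.P n).r x y := by
  constructor
  · intro h
    exact h.2 n id x.injective y.injective hn
  · intro h
    exact SS.of_rep (fun i j => by rw [x.injective.eq_iff, y.injective.eq_iff]) id hn
      (fun i => ⟨i, rfl⟩) x.injective y.injective h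

/-- representatives of the values of a tuple -/
theorem exists_rep {n : ℕ} (x : Fin n → V) :
    ∃ (s : ℕ) (ι : Fin s → Fin n), Injective (x ∘ ι) ∧ ∀ i, ∃ j, x i = x (ι j) := by
  classical
  let T : Finset V := Finset.univ.image x
  have hT : ∀ t : T, ∃ i, x i = t.1 := by
    intro t
    obtain ⟨i, -, hi⟩ := Finset.mem_image.1 t.2
    exact ⟨i, hi⟩
  choose f hf using hT
  let e := (Fintype.equivFin T).symm
  refine ⟨Fintype.card T, f ∘ e, ?_, ?_⟩
  · intro a b hab
    apply e.injective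
    apply Subtype.ext
    rw [← hf (e a), ← hf (e b)]
    exact hab
  · intro i
    refine ⟨e.symm ⟨x i, Finset.mem_image_of_mem x (Finset.mem_univ i)⟩, ?_⟩
    have := hf (e (e.symm ⟨x i, Finset.mem_image_of_mem x (Finset.mem_univ i)⟩))
    simp only [comp_apply, Equiv.apply_symm_apply] at this ⊢
    exact this.symm

theorem rep_le {n s : ℕ} (x : Fin n → V) (ι : Fin s → Fin n) (h : Injective (x ∘ ι)) : s ≤ n := by
  have : Injective ι := h.of_comp
  simpa using Fintype.card_le_of_injective ι this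

theorem snoc_comp_castSucc {n : ℕ} {X : Type} (u : Fin n → X) (a : X) :
    (Fin.snoc u a : Fin (n + 1) → X) ∘ Fin.castSucc = u := by
  ext i
  simp [Fin.snoc_castSucc]

theorem SS.init {n : ℕ} {t : Fin n → V} {a : V} {z : Fin (n + 1) → V}
    (h : SS Q (n + 1) (Fin.snoc t a) z) : SS Q n t (Fin.init z) := by
  have := h.reix Fin.castSucc
  rw [snoc_comp_castSucc] at this
  exact this

theorem SS.card_one {n : ℕ} {t : Fin n → V} {z : Fin (n + 1) → V} (ht : SS Q n t (Fin.init z))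
    (i : Fin n) (hi : z (Fin.castSucc i) = z (Fin.last n)) :
    Nat.card {a : V // SS Q (n + 1) (Fin.snoc t a) z} = 1 := by
  rw [Nat.card_eq_one_iff_unique]
  have key : ∀ a : V, SS Q (n + 1) (Fin.snoc t a) z → a = t i := by
    intro a ha
    have := (ha.1 (Fin.castSucc i) (Fin.last n)).2 hi
    simp only [Fin.snoc_castSucc, Fin.snoc_last] at this
    exact this.symm
  refine ⟨⟨fun a b => Subtype.ext ((key a.1 a.2).trans (key b.1 b.2).symm)⟩, ⟨⟨t i, ?_⟩⟩⟩
  have h1 := ht.reix (Fin.snoc (α := fun _ => Fin n) id i : Fin (n + 1) → Fin n)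
  have e1 : t ∘ (Fin.snoc (α := fun _ => Fin n) id i : Fin (n + 1) → Fin n)
      = (Fin.snoc t (t i) : Fin (n + 1) → V) := by
    ext j
    refine Fin.lastCases ?_ (fun j => ?_) j
    · simp
    · simp
  have e2 : Fin.init z ∘ (Fin.snoc (α := fun _ => Fin n) id i : Fin (n + 1) → Fin n) = z := by
    ext j
    refine Fin.lastCases ?_ (fun j => ?_) j
    · simp [Fin.init, hi]
    · simp [Fin.init]
  rw [e1, e2] at h1
  exact h1

/-- the index map of the extended system of representatives -/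
def kap {n s : ℕ} (ι : Fin s → Fin n) : Fin (s + 1) → Fin (n + 1) :=
  Fin.snoc (α := fun _ => Fin (n + 1)) (Fin.castSucc ∘ ι) (Fin.last n)

theorem comp_kap_castSucc {n s : ℕ} {X : Type} (ι : Fin s → Fin n) (x : Fin (n + 1) → X)
    (j : Fin s) : (x ∘ kap ι) (Fin.castSucc j) = x (Fin.castSucc (ι j)) := by
  simp [kap]

theorem comp_kap_last {n s : ℕ} {X : Type} (ι : Fin s → Fin n) (x : Fin (n + 1) → X) :
    (x ∘ kap ι) (Fin.last s) = x (Fin.last n) := by
  simp [kap]

theorem comp_kap_inj {n s : ℕ} {X : Type} (ι : Fin s → Fin n) (x : Fin (n + 1) → X)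
    (h1 : Injective fun j => x (Fin.castSucc (ι j)))
    (h2 : ∀ j, x (Fin.castSucc (ι j)) ≠ x (Fin.last n)) : Injective (x ∘ kap ι) := by
  intro a b
  refine Fin.lastCases ?_ (fun a => ?_) a <;> refine Fin.lastCases ?_ (fun b => ?_) b
  · intro _; rfl
  · rw [comp_kap_last, comp_kap_castSucc]
    intro h; exact absurd h.symm (h2 _)
  · rw [comp_kap_last, comp_kap_castSucc]
    intro h; exact absurd h (h2 _)
  · rw [comp_kap_castSucc, comp_kap_castSucc]
    intro h; exact congrArg _ (h1 h)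

theorem SS.card_fibre {n s : ℕ} (hs : s + 1 ≤ m) {t : Fin n → V} {z : Fin (n + 1) → V}
    (ht : SS Q n t (Fin.init z)) (hz : ∀ i : Fin n, z (Fin.castSucc i) ≠ z (Fin.last n))
    (ι : Fin s → Fin n) (hι : Injective (t ∘ ι)) (hrep : ∀ i, ∃ j, t i = t (ι j))
    (hz' : Injective (z ∘ kap ι)) :
    Nat.card {a : V // SS Q (n + 1) (Fin.snoc t a) z} =
      Nat.card {x : Fin (s + 1) ↪ V // (Q.P (s + 1)).r x ⟨z ∘ kap ι, hz'⟩ ∧
        Fin.castSuccEmb.trans x = ⟨t ∘ ι, hι⟩} := by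
  have hinj : ∀ a : V, SS Q (n + 1) (Fin.snoc t a) z →
      Injective ((Fin.snoc t a : Fin (n + 1) → V) ∘ kap ι) := by
    intro a ha
    exact (SS.inj_iff ha.1 (kap ι)).2 hz'
  let F : {a : V // SS Q (n + 1) (Fin.snoc t a) z} →
      {x : Fin (s + 1) ↪ V // (Q.P (s + 1)).r x ⟨z ∘ kap ι, hz'⟩ ∧
        Fin.castSuccEmb.trans x = ⟨t ∘ ι, hι⟩} := fun a =>
    ⟨⟨(Fin.snoc t a.1 : Fin (n + 1) → V) ∘ kap ι, hinj a.1 a.2⟩,
      a.2.2 _ _ _ _ hs, by
        ext j
        show ((Fin.snoc t a.1 : Fin (n + 1) → V) ∘ kap ι) (Fin.castSucc j) = t (ι j)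
        rw [comp_kap_castSucc]
        simp⟩
  apply Nat.card_congr (Equiv.ofBijective F _)
  constructor
  · intro a b hab
    have h1 := congrArg (fun x => x.1 (Fin.last s)) hab
    simp only [F] at h1
    change ((Fin.snoc t a.1 : Fin (n + 1) → V) ∘ kap ι) (Fin.last s) =
      ((Fin.snoc t b.1 : Fin (n + 1) → V) ∘ kap ι) (Fin.last s) at h1
    rw [comp_kap_last, comp_kap_last, Fin.snoc_last, Fin.snoc_last] at h1
    exact Subtype.ext h1
  · rintro ⟨x, hx1, hx2⟩
    have hxj : ∀ j, x (Fin.castSucc j) = t (ι j) := fun j => DFunLike.congr_fun hx2 j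
    have hne : ∀ i, t i ≠ x (Fin.last s) := by
      intro i hi
      obtain ⟨j, hj⟩ := hrep i
      rw [hj, ← hxj] at hi
      exact (Fin.castSucc_lt_last j).ne (x.injective hi)
    have heq : (Fin.snoc t (x (Fin.last s)) : Fin (n + 1) → V) ∘ kap ι = x := by
      ext j
      refine Fin.lastCases ?_ (fun j => ?_) j
      · rw [comp_kap_last, Fin.snoc_last]
      · rw [comp_kap_castSucc, Fin.snoc_castSucc, hxj]
    have hpat : ∀ i j, (Fin.snoc t (x (Fin.last s)) : Fin (n + 1) → V) i =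
        (Fin.snoc t (x (Fin.last s)) : Fin (n + 1) → V) j ↔ z i = z j := by
      intro i j
      refine Fin.lastCases ?_ (fun i => ?_) i <;> refine Fin.lastCases ?_ (fun j => ?_) j
      · simp
      · simp only [Fin.snoc_last, Fin.snoc_castSucc]
        constructor
        · intro h; exact absurd h.symm (hne j)
        · intro h; exact absurd h.symm (hz j)
      · simp only [Fin.snoc_last, Fin.snoc_castSucc]
        constructor
        · intro h; exact absurd h (hne i)
        · intro h; exact absurd h (hz i)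
      · simp only [Fin.snoc_castSucc]
        exact ht.1 i j
    have hxinj : Injective ((Fin.snoc t (x (Fin.last s)) : Fin (n + 1) → V) ∘ kap ι) := by
      rw [heq]
      exact x.injective
    refine ⟨⟨x (Fin.last s), SS.of_rep hpat (kap ι) hs ?_ hxinj hz' ?_⟩, ?_⟩
    · intro i
      refine Fin.lastCases ?_ (fun i => ?_) i
      · refine ⟨Fin.last s, ?_⟩
        simp [kap]
      · obtain ⟨j, hj⟩ := hrep i
        refine ⟨Fin.castSucc j, ?_⟩
        simp [kap, hj]
    · have e : (⟨(Fin.snoc t (x (Fin.last s)) : Fin (n + 1) → V) ∘ kap ι, hxinj⟩ :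
          Fin (s + 1) ↪ V) = x := by
        ext j
        exact congrFun heq j
      rw [e]
      exact hx1
    · apply Subtype.ext
      ext j
      exact congrFun heq j

theorem SS.reg {n : ℕ} (hn : n + 1 ≤ m) {u v : Fin n → V} (z : Fin (n + 1) → V)
    (h : SS Q n u v) :
    Nat.card {a : V // SS Q (n + 1) (Fin.snoc u a) z} =
      Nat.card {a : V // SS Q (n + 1) (Fin.snoc v a) z} := by
  by_cases hw : SS Q n u (Fin.init z)
  · have hv : SS Q n v (Fin.init z) := h.symm.trans hw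
    by_cases hz : ∃ i : Fin n, z (Fin.castSucc i) = z (Fin.last n)
    · obtain ⟨i, hi⟩ := hz
      rw [hw.card_one i hi, hv.card_one i hi]
    · push Not at hz
      obtain ⟨s, ι, hι, hrep⟩ := exists_rep u
      have hsn := rep_le u ι hι
      have hιv : Injective (v ∘ ι) := (SS.inj_iff h.1 ι).1 hι
      have hrepv : ∀ i, ∃ j, v i = v (ι j) := by
        intro i
        obtain ⟨j, hj⟩ := hrep i
        exact ⟨j, (h.1 _ _).1 hj⟩
      have hz' : Injective (z ∘ kap ι) := by
        apply comp_kap_inj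
        · exact (SS.inj_iff hw.1 ι).1 hι
        · intro j
          exact hz _
      rw [hw.card_fibre (by omega) hz ι hι hrep hz', hv.card_fibre (by omega) hz ι hιv hrepv hz']
      exact RelAPI.count Q (by omega) Fin.castSuccEmb _ (h.2 s ι hι hιv (by omega))
  · have emp : ∀ t : Fin n → V, ¬ SS Q n t (Fin.init z) →
        Nat.card {a : V // SS Q (n + 1) (Fin.snoc t a) z} = 0 := by
      intro t ht
      haveI : IsEmpty {a : V // SS Q (n + 1) (Fin.snoc t a) z} := ⟨fun a => ht a.2.init⟩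
      simp
    rw [emp u hw, emp v (fun hv => hw (h.trans hv))]

/-- the colouring of tuples with repetitions of a homogeneous scheme without symmetric colour of
pairs -/
def Col.ofMScheme (Q : MScheme V m) (hm : 1 ≤ m) (hom : Q.Homogeneous)
    (h2 : ∀ x : Fin 2 ↪ V, ¬ (Q.P 2).r ((Equiv.swap (0 : Fin 2) 1).toEmbedding.trans x) x) :
    Col V m where
  S := SS Q
  refl := SS.refl
  symm := SS.symm
  trans := SS.trans
  eqp := fun h => h.1
  reix := fun ι _ _ h => h.reix ι
  reg := fun hn _ _ z h => h.reg (by omega) z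
  hom := by
    intro x y
    have hx : Injective x := fun a b _ => Subsingleton.elim a b
    have hy : Injective y := fun a b _ => Subsingleton.elim a b
    exact (SS.iff_emb (by omega) ⟨x, hx⟩ ⟨y, hy⟩).2 (hom _ _)
  anti := by
    intro hm2 x hx h
    have hxσ : Injective (x ∘ Equiv.swap (0 : Fin 2) 1) := hx.comp (Equiv.injective _)
    exact h2 ⟨x, hx⟩ ((SS.iff_emb hm2 ⟨x ∘ Equiv.swap (0 : Fin 2) 1, hxσ⟩ ⟨x, hx⟩).1 h)

end OfScheme

end PD
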