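import Pool.Agent.Lib.MP_369ee2_lc_PD.HCol

/-!
# Functions constant on colours; sizes of fibres and of colour classes
-/

namespace PD

open MSch Function Finset

namespace Col

variable {X : Type} {m : ℕ} (C : Col X m)

/-- the colour equality as a setoid -/
def st (n : ℕ) : Setoid (Fin n → X) := ⟨C.S n, C.refl, C.symm, C.trans⟩

/-- the colours of `n`-tuples -/
abbrev Q (n : ℕ) : Type := Quotient (C.st n)

/-- the colour of a tuple -/
def q {n : ℕ} (x : Fin n → X) : C.Q n := Quotient.mk (C.st n) x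

theorem q_eq {n : ℕ} {x y : Fin n → X} : C.q x = C.q y ↔ C.S n x y :=
  ⟨fun h => Quotient.exact h, fun h => Quotient.sound h⟩

theorem exists_rep {n : ℕ} (c : C.Q n) : ∃ x, C.q x = c := by
  induction c using Quotient.inductionOn with
  | _ x => exact ⟨x, rfl⟩

/-- constant on colours -/
def Const {R : Type*} (n : ℕ) (f : (Fin n → X) → R) : Prop := ∀ x y, C.S n x y → f x = f y

variable {C}

theorem Const.reix {R : Type*} {n k : ℕ} {f : (Fin k → X) → R} (h : C.Const k f)
    (ι : Fin k → Fin n) : C.Const n (fun x => f (x ∘ ι)) :=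
  fun _ _ hxy => h _ _ (C.reix ι hxy)

theorem Const.const {R : Type*} {n : ℕ} (r : R) : C.Const n (fun _ => r) := fun _ _ _ => rfl

theorem Const.map {R R' : Type*} {n : ℕ} {f : (Fin n → X) → R} (h : C.Const n f) (g : R → R') :
    C.Const n (fun x => g (f x)) := fun x y hxy => congrArg g (h x y hxy)

theorem Const.map₂ {R R' R'' : Type*} {n : ℕ} {f : (Fin n → X) → R} {f' : (Fin n → X) → R'}
    (h : C.Const n f) (h' : C.Const n f') (g : R → R' → R'') :
    C.Const n (fun x => g (f x) (f' x)) := fun x y hxy => by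
  show g (f x) (f' x) = g (f y) (f' y)
  rw [h x y hxy, h' x y hxy]

theorem card_fib [Fintype X] {n : ℕ} (hn : n + 1 ≤ m) {u v : Fin n → X} (h : C.S n u v)
    (c : C.Q (n + 1)) :
    Nat.card {a : X // C.q (Fin.snoc u a : Fin (n + 1) → X) = c} =
      Nat.card {a : X // C.q (Fin.snoc v a : Fin (n + 1) → X) = c} := by
  obtain ⟨z, rfl⟩ := C.exists_rep c
  simp only [q_eq]
  exact C.reg hn z h

theorem Const.sum [Fintype X] {R : Type*} [AddCommMonoid R] {n : ℕ} {f : (Fin (n + 1) → X) → R}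
    (hf : C.Const (n + 1) f) (hn : n + 1 ≤ m) :
    C.Const n (fun u => ∑ a : X, f (Fin.snoc u a)) := by
  classical
  intro u v huv
  haveI : Fintype (C.Q (n + 1)) := Fintype.ofFinite _
  let g : C.Q (n + 1) → R := Quotient.lift f (fun x y h => hf x y h)
  have key : ∀ w : Fin n → X, ∑ a : X, f (Fin.snoc w a) =
      ∑ c : C.Q (n + 1), Nat.card {a : X // C.q (Fin.snoc w a : Fin (n + 1) → X) = c} • g c := by
    intro w
    have h1 : ∑ a : X, f (Fin.snoc w a) =
        ∑ a : X, g (C.q (Fin.snoc w a : Fin (n + 1) → X)) := rfl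
    rw [h1, ← Finset.sum_fiberwise _ (fun a => C.q (Fin.snoc w a : Fin (n + 1) → X))]
    apply Finset.sum_congr rfl
    intro c _
    rw [Finset.sum_congr rfl (g := fun _ => g c)
      (fun a ha => by rw [(Finset.mem_filter.1 ha).2]), Finset.sum_const]
    congr 1
    rw [Nat.card_eq_fintype_card, Fintype.card_subtype]
  show ∑ a : X, f (Fin.snoc u a) = ∑ a : X, f (Fin.snoc v a)
  rw [key u, key v]
  exact Finset.sum_congr rfl (fun c _ => by rw [card_fib hn huv])

theorem Const.sum₂ [Fintype X] {R : Type*} [AddCommMonoid R] {n : ℕ}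
    {f : (Fin (n + 2) → X) → R} (hf : C.Const (n + 2) f) (hn : n + 2 ≤ m) :
    C.Const n (fun u => ∑ a : X, ∑ b : X, f (Fin.snoc (Fin.snoc u a : Fin (n + 1) → X) b)) :=
  Const.sum (Const.sum hf hn) (by omega)

section Sizes

variable [Fintype X] (C)

/-- the size of the fibre of `b` over `u` -/
noncomputable def fib {n : ℕ} (u : Fin n → X) (b : X) : ℕ :=
  Nat.card {a : X // C.S (n + 1) (Fin.snoc u a) (Fin.snoc u b)}

/-- the size of the colour class of `z` -/
noncomputable def cs {n : ℕ} (z : Fin n → X) : ℕ := Nat.card {x : Fin n → X // C.S n x z}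

variable {C}

theorem fib_pos {n : ℕ} (u : Fin n → X) (b : X) : 0 < C.fib u b := by
  haveI : Nonempty {a : X // C.S (n + 1) (Fin.snoc u a) (Fin.snoc u b)} := ⟨⟨b, C.refl _⟩⟩
  exact Nat.card_pos

theorem cs_congr {n : ℕ} {y z : Fin n → X} (h : C.S n y z) : C.cs y = C.cs z := by
  unfold cs
  exact Nat.card_congr (Equiv.subtypeEquivRight fun x =>
    ⟨fun hx => C.trans hx h, fun hx => C.trans hx (C.symm h)⟩)

theorem fib_eq_one_of_mem {n : ℕ} (u : Fin n → X) (b : X) (i : Fin n) (hb : u i = b) :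
    C.fib u b = 1 := by
  unfold fib
  rw [Nat.card_eq_one_iff_unique]
  have key : ∀ a : X, C.S (n + 1) (Fin.snoc u a) (Fin.snoc u b) → a = b := by
    intro a ha
    have := (C.eqp ha (Fin.castSucc i) (Fin.last n)).2 (by simp [hb])
    simp only [Fin.snoc_castSucc, Fin.snoc_last] at this
    rw [← this, hb]
  exact ⟨⟨fun x y => Subtype.ext ((key x.1 x.2).trans (key y.1 y.2).symm)⟩, ⟨⟨b, C.refl _⟩⟩⟩

theorem init_of {n : ℕ} {t : Fin n → X} {a : X} {z : Fin (n + 1) → X}
    (h : C.S (n + 1) (Fin.snoc t a) z) : C.S n t (Fin.init z) := by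
  have := C.reix Fin.castSucc h
  rw [snoc_comp_castSucc] at this
  exact this

theorem cs_succ {n : ℕ} (hn : n + 1 ≤ m) (u : Fin n → X) (b : X) :
    C.cs (Fin.snoc u b : Fin (n + 1) → X) = C.cs u * C.fib u b := by
  classical
  have e : {x : Fin (n + 1) → X // C.S (n + 1) x (Fin.snoc u b)} ≃
      Σ t : {t : Fin n → X // C.S n t u}, {a : X // C.S (n + 1) (Fin.snoc t.1 a) (Fin.snoc u b)} :=
    { toFun := fun x => ⟨⟨Fin.init x.1, by
          have := C.reix Fin.castSucc x.2
          rw [snoc_comp_castSucc] at this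
          exact this⟩, ⟨x.1 (Fin.last n), by
          rw [Fin.snoc_init_self]; exact x.2⟩⟩
      invFun := fun y => ⟨Fin.snoc y.1.1 y.2.1, y.2.2⟩
      left_inv := fun x => Subtype.ext (Fin.snoc_init_self _)
      right_inv := by
        rintro ⟨⟨t, ht⟩, ⟨a, ha⟩⟩
        have h1 : (Fin.init (Fin.snoc t a : Fin (n + 1) → X)) = t := Fin.init_snoc _ _
        have h2 : (Fin.snoc t a : Fin (n + 1) → X) (Fin.last n) = a := Fin.snoc_last _ _
        refine Sigma.ext (Subtype.ext h1) ?_
        refine (Subtype.heq_iff_coe_eq ?_).2 h2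
        intro x
        show C.S (n + 1) (Fin.snoc (Fin.init (Fin.snoc t a : Fin (n + 1) → X)) x) _ ↔ _
        rw [h1] }
  haveI : Fintype {t : Fin n → X // C.S n t u} := Fintype.ofFinite _
  unfold cs
  rw [Nat.card_congr e, Nat.card_sigma]
  have hc : ∀ t : {t : Fin n → X // C.S n t u},
      Nat.card {a : X // C.S (n + 1) (Fin.snoc t.1 a) (Fin.snoc u b)} = C.fib u b := by
    intro t
    exact C.reg hn _ t.2
  rw [Finset.sum_congr rfl (fun t _ => hc t), Finset.sum_const, Finset.card_univ, smul_eq_mul,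
    Nat.card_eq_fintype_card]

end Sizes

end Col

end PD
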