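import Pool.Agent.Lib.MP_369ee2_lc_PD.HColB

/-!
# (C0): fibres over tuples of length at most four have odd size
-/

namespace PD

open MSch Function Finset

namespace Col

variable {X : Type} {m : ℕ} {C : Col X m}

/-- the permutation exchanging the last two coordinates -/
def sw (n : ℕ) : Equiv.Perm (Fin (n + 2)) :=
  Equiv.swap (Fin.castSucc (Fin.last n)) (Fin.last (n + 1))

theorem snoc_sw {n : ℕ} (u : Fin n → X) (a b : X) :
    (Fin.snoc (Fin.snoc u a : Fin (n + 1) → X) b : Fin (n + 2) → X) ∘ sw n =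
      (Fin.snoc (Fin.snoc u b : Fin (n + 1) → X) a : Fin (n + 2) → X) := by
  ext j
  refine Fin.lastCases ?_ (fun j => ?_) j
  · simp [sw]
  · refine Fin.lastCases ?_ (fun j => ?_) j
    · simp [sw]
    · have h1 : (Fin.castSucc (Fin.castSucc j) : Fin (n + 2)) ≠ Fin.castSucc (Fin.last n) := by
        intro h
        have := Fin.castSucc_injective _ h
        exact (Fin.castSucc_lt_last j).ne this
      have h2 : (Fin.castSucc (Fin.castSucc j) : Fin (n + 2)) ≠ Fin.last (n + 1) :=
        (Fin.castSucc_lt_last _).ne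
      simp [sw, Equiv.swap_apply_of_ne_of_ne h1 h2]

theorem st_swap {n : ℕ} {u v : Fin n → X} {a b c d : X}
    (h : C.S (n + 2) (Fin.snoc (Fin.snoc u a : Fin (n + 1) → X) b)
      (Fin.snoc (Fin.snoc v c : Fin (n + 1) → X) d)) :
    C.S (n + 2) (Fin.snoc (Fin.snoc u b : Fin (n + 1) → X) a)
      (Fin.snoc (Fin.snoc v d : Fin (n + 1) → X) c) := by
  have := C.reix (sw n) h
  rwa [snoc_sw, snoc_sw] at this

/-- no colour of `(u, a, b)`, `a ≠ b`, is its own transpose -/
theorem not_symm {n : ℕ} (hn : n + 2 ≤ m) (u : Fin n → X) (a b : X) (hab : a ≠ b) :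
    ¬ C.S (n + 2) (Fin.snoc (Fin.snoc u b : Fin (n + 1) → X) a)
      (Fin.snoc (Fin.snoc u a : Fin (n + 1) → X) b) := by
  intro h
  have h1 := C.reix (![Fin.castSucc (Fin.last n), Fin.last (n + 1)] : Fin 2 → Fin (n + 2)) h
  have e : ∀ c d : X, (Fin.snoc (Fin.snoc u c : Fin (n + 1) → X) d : Fin (n + 2) → X) ∘
      (![Fin.castSucc (Fin.last n), Fin.last (n + 1)] : Fin 2 → Fin (n + 2)) = ![c, d] := by
    intro c d
    ext i
    fin_cases i <;> simp
  have e2 : (![a, b] : Fin 2 → X) ∘ Equiv.swap (0 : Fin 2) 1 = ![b, a] := by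
    ext i
    fin_cases i <;> simp
  rw [e, e, ← e2] at h1
  refine C.anti (by omega) ![a, b] ?_ h1
  intro i j
  fin_cases i <;> fin_cases j <;> simp [hab, hab.symm]

variable [Fintype X]

section odd

variable {n : ℕ} (u : Fin n → X) (b : X)

/-- the fibre as a finset -/
noncomputable def Fb (C : Col X m) : Finset X := by
  classical
  exact Finset.univ.filter fun a => C.S (n + 1) (Fin.snoc u a) (Fin.snoc u b)

theorem mem_Fb {a : X} : a ∈ Fb u b C ↔ C.S (n + 1) (Fin.snoc u a) (Fin.snoc u b) := by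
  classical
  simp [Fb]

theorem card_Fb : (Fb u b C).card = C.fib u b := by
  classical
  unfold fib Fb
  rw [Nat.card_eq_fintype_card, Fintype.card_subtype]

/-- the points `c ≠ a` of the fibre with `(u, a, c)` of colour `γ` -/
noncomputable def Out (C : Col X m) (a : X) (γ : C.Q (n + 2)) : Finset X := by
  classical
  exact (Fb u b C).filter fun c => c ≠ a ∧
    C.q (Fin.snoc (Fin.snoc u a : Fin (n + 1) → X) c : Fin (n + 2) → X) = γ

theorem mem_Out {a : X} {γ : C.Q (n + 2)} {c : X} : c ∈ Out u b C a γ ↔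
    C.S (n + 1) (Fin.snoc u c) (Fin.snoc u b) ∧ c ≠ a ∧
    C.q (Fin.snoc (Fin.snoc u a : Fin (n + 1) → X) c : Fin (n + 2) → X) = γ := by
  classical
  simp [Out, mem_Fb]

/-- the index map dropping the last but one coordinate -/
def dr (n : ℕ) : Fin (n + 1) → Fin (n + 2) :=
  Fin.snoc (α := fun _ => Fin (n + 2)) (fun i : Fin n => Fin.castSucc (Fin.castSucc i))
    (Fin.last (n + 1))

theorem snoc_dr (v : Fin n → X) (a c : X) :
    (Fin.snoc (Fin.snoc v a : Fin (n + 1) → X) c : Fin (n + 2) → X) ∘ dr n =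
      (Fin.snoc v c : Fin (n + 1) → X) := by
  ext j
  refine Fin.lastCases ?_ (fun j => ?_) j
  · simp [dr]
  · simp [dr]

theorem Out_eq {a c : X} {γ : C.Q (n + 2)} (hc : c ∈ Out u b C a γ) (d : X)
    (hd : C.q (Fin.snoc (Fin.snoc u a : Fin (n + 1) → X) d : Fin (n + 2) → X) = γ) :
    d ∈ Out u b C a γ := by
  rw [mem_Out] at hc ⊢
  obtain ⟨h1, h2, h3⟩ := hc
  have h4 : C.S (n + 2) (Fin.snoc (Fin.snoc u a : Fin (n + 1) → X) d)
      (Fin.snoc (Fin.snoc u a : Fin (n + 1) → X) c) := (q_eq C).1 (hd.trans h3.symm)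
  refine ⟨?_, ?_, hd⟩
  · have := C.reix (dr n) h4
    rw [snoc_dr, snoc_dr] at this
    exact C.trans this h1
  · intro hda
    have := (C.eqp h4 (Fin.last (n + 1)) (Fin.castSucc (Fin.last n))).1 (by simp [hda])
    simp only [Fin.snoc_last, Fin.snoc_castSucc] at this
    exact h2 this

theorem card_Out (hn : n + 2 ≤ m) {a : X} (ha : a ∈ Fb u b C) (γ : C.Q (n + 2)) :
    (Out u b C a γ).card = (Out u b C b γ).card := by
  classical
  rw [mem_Fb] at ha
  have hfib := card_fib (C := C) (n := n + 1) (by omega) ha γ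
  have full : ∀ t c : X, C.S (n + 1) (Fin.snoc u t) (Fin.snoc u b) → c ∈ Out u b C t γ →
      (Out u b C t γ).card =
        Nat.card {d : X // C.q (Fin.snoc (Fin.snoc u t : Fin (n + 1) → X) d :
          Fin (n + 2) → X) = γ} := by
    intro t c _ hc
    rw [Nat.card_eq_fintype_card, Fintype.card_subtype]
    congr 1
    ext d
    rw [Finset.mem_filter]
    constructor
    · intro hd
      exact ⟨Finset.mem_univ _, ((mem_Out u b).1 hd).2.2⟩
    · rintro ⟨-, hd⟩
      exact Out_eq u b hc d hd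
  -- transfer of nonemptiness
  have trans_ne : ∀ s t : X, C.S (n + 1) (Fin.snoc u s) (Fin.snoc u b) →
      C.S (n + 1) (Fin.snoc u t) (Fin.snoc u b) → (Out u b C s γ).Nonempty →
      (Out u b C t γ).Nonempty := by
    rintro s t hs ht ⟨c, hc⟩
    have hcard := card_fib (C := C) (n := n + 1) (by omega) (C.trans hs (C.symm ht)) γ
    have hc' := (mem_Out u b).1 hc
    haveI : Nonempty {d : X // C.q (Fin.snoc (Fin.snoc u s : Fin (n + 1) → X) d :
          Fin (n + 2) → X) = γ} := ⟨⟨c, hc'.2.2⟩⟩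
    have hpos : 0 < Nat.card {d : X // C.q (Fin.snoc (Fin.snoc u t : Fin (n + 1) → X) d :
          Fin (n + 2) → X) = γ} := by
      rw [← hcard]; exact Nat.card_pos
    obtain ⟨⟨d, hd⟩⟩ := (Nat.card_pos_iff.1 hpos).1
    refine ⟨d, ?_⟩
    rw [mem_Out]
    have h4 : C.S (n + 2) (Fin.snoc (Fin.snoc u t : Fin (n + 1) → X) d)
      (Fin.snoc (Fin.snoc u s : Fin (n + 1) → X) c) := (q_eq C).1 (hd.trans hc'.2.2.symm)
    refine ⟨?_, ?_, hd⟩
    · have := C.reix (dr n) h4
      rw [snoc_dr, snoc_dr] at this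
      exact C.trans this hc'.1
    · intro hdt
      have := (C.eqp h4 (Fin.last (n + 1)) (Fin.castSucc (Fin.last n))).1 (by simp [hdt])
      simp only [Fin.snoc_last, Fin.snoc_castSucc] at this
      exact hc'.2.1 this
  by_cases hne : (Out u b C a γ).Nonempty
  · obtain ⟨c, hc⟩ := hne
    obtain ⟨d, hd⟩ := trans_ne a b ha (C.refl _) ⟨c, hc⟩
    rw [full a c ha hc, full b d (C.refl _) hd, hfib]
  · have hne' : ¬ (Out u b C b γ).Nonempty := fun h => hne (trans_ne b a (C.refl _) ha h)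
    rw [Finset.not_nonempty_iff_eq_empty] at hne hne'
    rw [hne, hne']

/-- the transpose of a colour of `(n+2)`-tuples -/
def tr {n : ℕ} (C : Col X m) : C.Q (n + 2) → C.Q (n + 2) :=
  Quotient.lift (fun x => C.q (x ∘ sw n)) fun _ _ h => (q_eq C).2 (C.reix _ h)

theorem tr_q (v : Fin n → X) (a c : X) :
    tr C (C.q (Fin.snoc (Fin.snoc v a : Fin (n + 1) → X) c : Fin (n + 2) → X)) =
      C.q (Fin.snoc (Fin.snoc v c : Fin (n + 1) → X) a : Fin (n + 2) → X) := by
  show C.q (_ ∘ sw n) = _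
  rw [snoc_sw]

theorem tr_tr (γ : C.Q (n + 2)) : tr C (tr C γ) = γ := by
  obtain ⟨x, rfl⟩ := C.exists_rep γ
  show C.q ((x ∘ sw n) ∘ sw n) = C.q x
  congr 1
  ext i
  simp [sw]

theorem mem_Out_tr {a c : X} {γ : C.Q (n + 2)} (ha : a ∈ Fb u b C) (hc : c ∈ Out u b C a γ) :
    c ∈ Fb u b C ∧ a ∈ Out u b C c (tr C γ) := by
  rw [mem_Fb] at ha
  rw [mem_Out] at hc
  rw [mem_Fb, mem_Out]
  refine ⟨hc.1, ha, hc.2.1.symm, ?_⟩
  rw [← hc.2.2, tr_q]

theorem card_Out_tr (hn : n + 2 ≤ m) (γ : C.Q (n + 2)) :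
    (Out u b C b (tr C γ)).card = (Out u b C b γ).card := by
  classical
  have hb : b ∈ Fb u b C := (mem_Fb u b).2 (C.refl _)
  have h1 : ∀ δ : C.Q (n + 2), ((Fb u b C).sigma fun a => Out u b C a δ).card =
      (Fb u b C).card * (Out u b C b δ).card := by
    intro δ
    rw [Finset.card_sigma, Finset.sum_congr rfl (fun a ha => card_Out u b hn ha δ),
      Finset.sum_const, smul_eq_mul]
  have h2 : ∀ δ : C.Q (n + 2), ((Fb u b C).sigma fun a => Out u b C a δ).card ≤
      ((Fb u b C).sigma fun a => Out u b C a (tr C δ)).card := by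
    intro δ
    apply Finset.card_le_card_of_injOn (fun p => (⟨p.2, p.1⟩ : Σ _ : X, X))
    · intro p hp
      simp only [Finset.coe_sigma, Set.mem_sigma_iff, Finset.mem_coe] at hp ⊢
      exact mem_Out_tr u b hp.1 hp.2
    · rintro ⟨a, c⟩ _ ⟨a', c'⟩ _ h
      simp only [Sigma.mk.injEq, heq_eq_eq] at h ⊢
      exact ⟨h.2, h.1⟩
  have h3 := le_antisymm (h2 γ) ((h2 (tr C γ)).trans_eq (by rw [tr_tr]))
  rw [h1, h1] at h3
  exact (Nat.eq_of_mul_eq_mul_left (Finset.card_pos.2 ⟨b, hb⟩) h3).symm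

/-- **(C0)** the fibres over tuples of length at most four are odd -/
theorem fib_odd (hn : n + 2 ≤ m) : Odd (C.fib u b) := by
  classical
  by_cases hmem : ∃ i, u i = b
  · obtain ⟨i, hi⟩ := hmem
    rw [fib_eq_one_of_mem u b i hi]
    exact odd_one
  push Not at hmem
  haveI : Fintype (C.Q (n + 2)) := Fintype.ofFinite _
  have hb : b ∈ Fb u b C := (mem_Fb u b).2 (C.refl _)
  -- the fibre without `b` is the union of the `Out b γ`
  have hsum : ((Fb u b C).erase b).card = ∑ γ : C.Q (n + 2), (Out u b C b γ).card := by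
    rw [Finset.card_eq_sum_card_fiberwise (f := fun c =>
      C.q (Fin.snoc (Fin.snoc u b : Fin (n + 1) → X) c : Fin (n + 2) → X))
      (t := Finset.univ) (fun _ _ => Finset.mem_coe.2 (Finset.mem_univ _))]
    apply Finset.sum_congr rfl
    intro γ _
    congr 1
    ext c
    rw [Finset.mem_filter, Finset.mem_erase, mem_Out, mem_Fb]
    tauto
  have hz : (∑ γ : C.Q (n + 2), ((Out u b C b γ).card : ZMod 2)) = 0 := by
    apply Finset.sum_involution (fun γ _ => tr C γ)
    · intro γ _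
      rw [card_Out_tr u b hn γ]
      exact CharTwo.add_self_eq_zero _
    · intro γ _ hne htr
      have hcard : (Out u b C b γ).card ≠ 0 := by
        intro h
        apply hne
        rw [h]
        simp
      obtain ⟨c, hc⟩ := Finset.card_pos.1 (Nat.pos_of_ne_zero hcard)
      have hc' := (mem_Out u b).1 hc
      have h6 := htr
      rw [← hc'.2.2, tr_q, q_eq] at h6
      exact not_symm hn u b c hc'.2.1.symm h6
    · intro γ _
      exact Finset.mem_univ _
    · intro γ _
      exact tr_tr γ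
  have heven : Even (∑ γ : C.Q (n + 2), (Out u b C b γ).card) := by
    rw [← Nat.cast_sum] at hz
    exact (ZMod.natCast_eq_zero_iff_even).1 hz
  rw [← hsum] at heven
  rw [← card_Fb u b, ← Finset.card_erase_add_one hb]
  exact heven.add_one

end odd

theorem fib_lt {n : ℕ} (hX : 2 ≤ Fintype.card X) (u : Fin (n + 1) → X) (b : X) :
    C.fib u b < Fintype.card X := by
  classical
  by_cases hmem : ∃ i, u i = b
  · obtain ⟨i, hi⟩ := hmem
    rw [fib_eq_one_of_mem u b i hi]
    omega
  push Not at hmem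
  rw [← card_Fb u b]
  apply Finset.card_lt_univ_of_notMem (x := u 0)
  rw [mem_Fb]
  intro h
  have h5 := (C.eqp h (Fin.castSucc 0) (Fin.last (n + 1))).1 (by
    rw [Fin.snoc_last, Fin.snoc_castSucc])
  rw [Fin.snoc_castSucc, Fin.snoc_last] at h5
  exact hmem 0 h5

theorem cs_one (z : Fin 1 → X) : C.cs z = Fintype.card X := by
  unfold cs
  have e : {x : Fin 1 → X // C.S 1 x z} ≃ X :=
    { toFun := fun x => x.1 0
      invFun := fun a => ⟨fun _ => a, C.hom _ _⟩
      left_inv := fun x => Subtype.ext (by ext i; rw [Subsingleton.elim i 0])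
      right_inv := fun a => rfl }
  rw [Nat.card_congr e, Nat.card_eq_fintype_card]

/-- the class sizes are `p` times an odd number prime to `p`, up to level four (five for odd) -/
theorem cs_eq (hp : (Fintype.card X).Prime) {n : ℕ} (hn : n + 2 ≤ m) (z : Fin (n + 1) → X) :
    ∃ c : ℕ, Odd c ∧ c.Coprime (Fintype.card X) ∧ C.cs z = Fintype.card X * c := by
  induction n with
  | zero => exact ⟨1, odd_one, Nat.coprime_one_left _, by rw [cs_one, mul_one]⟩
  | succ n ih =>
    obtain ⟨c, hc1, hc2, hc3⟩ := ih (by omega) (Fin.init z)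
    refine ⟨c * C.fib (Fin.init z) (z (Fin.last (n + 1))), hc1.mul (fib_odd _ _ (by omega)),
      ?_, ?_⟩
    · apply Nat.Coprime.mul_left hc2
      apply Nat.Coprime.symm
      rw [hp.coprime_iff_not_dvd]
      intro hd
      exact absurd (Nat.le_of_dvd (fib_pos _ _) hd) (not_le.2 (fib_lt hp.two_le _ _))
    · have := cs_succ (C := C) (by omega) (Fin.init z) (z (Fin.last (n + 1)))
      rw [Fin.snoc_init_self] at this
      rw [this, hc3, mul_assoc]

end Col

end PD
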