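import Pool.Agent.Lib.MP_369ee2_lc_PD.Sec7H
import Pool.Agent.Lib.MP_369ee2_lc_PD.BZ
import Pool.Agent.Lib.MP_369ee2_lc_PD.OrderSym

/-!
# `dvd_dim` from `sec7_dvd`
-/

namespace PDeg

open scoped BigOperators Matrix

section
variable {X : Type} [Fintype X] [DecidableEq X] {C : Coh X}
variable {p : ℕ} {W K F : Type}
  [CommRing W] [IsDomain W] [Field K] [Algebra W K] [IsFractionRing W K] [Field F] [Algebra W F]
variable {k d : ℕ} {y : Matrix X X W} {ζ0 : W} {q r : X → Matrix X X F}

/-- `dim P_K f` is a multiple of `k_f * k` -/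
theorem dvd_dim_engine (hB : Base p W K F) (Y : YData C p W K k d y ζ0) (P : PData C F k y q r)
    {E : LocIdem p (PPO C W K)} {f : ↥(C.PP K)} (hG : Good E f)
    (h2 : ∀ T : ↥(C.PP K), jj2 C K * T * f = 0) :
    Module.finrank K (crn K f f) * k ∣ Module.finrank K (crn K 1 f) := by
  refine sec7_dvd hB Y P (pp_symOrder C hB Y.card) hG fun T hT => ?_
  have h3 := h2 T
  rw [mul_assoc, hT] at h3
  exact congrArg Subtype.val h3

end

end PDeg
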