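import Pool.Agent.Lib.MP_369ee2_lc_PD.Alg

/-!
# Lemma D (row A1)
-/

set_option linter.unusedSectionVars false

namespace PDeg

open scoped BigOperators

namespace LD

open Module

variable {W K A : Type} [CommRing W] [IsDomain W] [IsDiscreteValuationRing W] [Field K]
  [Algebra W K] [IsFractionRing W K] [Ring A] [Algebra K A] [Algebra W A] [IsScalarTower W K A]

/-- the hypotheses of Lemma D -/
structure CornerP (π : W) (τ : A →ₗ[K] K) (f : A) (O' m' : Submodule W A) : Prop where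
  irr : Irreducible π
  idem : f * f = f
  left : ∀ x ∈ O', f * x = x
  right : ∀ x ∈ O', x * f = x
  one : f ∈ O'
  mul : ∀ x ∈ O', ∀ y ∈ O', x * y ∈ O'
  le : m' ≤ O'
  mul_l : ∀ x ∈ O', ∀ y ∈ m', x * y ∈ m'
  mul_r : ∀ x ∈ O', ∀ y ∈ m', y * x ∈ m'
  dec : ∀ x ∈ O', ∃ w : W, x - w • f ∈ m'
  pe : π • f ∈ m'
  ne : f ∉ m'
  nil : ∃ n : ℕ, 0 < n ∧ ∀ x ∈ m' ^ n, ∃ y ∈ O', x = π • y
  fg : O'.FG
  dual : ∀ x, f * x = x → x * f = x → (∀ y ∈ m', IsInt W (τ (x * y))) → x ∈ O'
  int : ∀ y ∈ m', IsInt W (τ y)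

/-- the corner `f A f` as a `K`-subspace -/
def cor (K : Type*) {A : Type*} [Field K] [Ring A] [Algebra K A] (f : A) : Submodule K A where
  carrier := {x | f * x = x ∧ x * f = x}
  add_mem' := by
    rintro a b ⟨h1, h2⟩ ⟨h3, h4⟩
    exact ⟨by rw [mul_add, h1, h3], by rw [add_mul, h2, h4]⟩
  zero_mem' := ⟨mul_zero _, zero_mul _⟩
  smul_mem' := by
    rintro c x ⟨h1, h2⟩
    exact ⟨by rw [mul_smul_comm, h1], by rw [smul_mul_assoc, h2]⟩

theorem mem_cor {f x : A} : x ∈ cor K f ↔ f * x = x ∧ x * f = x := Iff.rfl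

namespace CornerP

variable {π : W} {τ : A →ₗ[K] K} {f : A} {O' m' : Submodule W A}

/-- in a corner of a finite dimensional algebra one-sided inverses are two-sided -/
theorem inv_comm [Module.Finite K A] {f u v : A} (hf : f * f = f) (fu : f * u = u) (uf : u * f = u)
    (fv : f * v = v) (vf : v * f = v) (h : u * v = f) : v * u = f := by
  have hN : IsNoetherianRing A := isNoetherian_of_tower K inferInstance
  have h1 : (u + (1 - f)) * (v + (1 - f)) = 1 := by
    have e1 : u * (1 - f) = 0 := by rw [mul_sub, mul_one, uf, sub_self]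
    have e2 : (1 - f) * v = 0 := by rw [sub_mul, one_mul, fv, sub_self]
    have e3 : (1 - f) * (1 - f) = 1 - f := by
      rw [mul_sub, mul_one, sub_mul, one_mul, hf]; abel
    rw [add_mul, mul_add, mul_add, e1, e2, e3, h]
    abel
  have h2 : (v + (1 - f)) * (u + (1 - f)) = 1 := mul_eq_one_comm.1 h1
  have e1 : v * (1 - f) = 0 := by rw [mul_sub, mul_one, vf, sub_self]
  have e2 : (1 - f) * u = 0 := by rw [sub_mul, one_mul, fu, sub_self]
  have e3 : (1 - f) * (1 - f) = 1 - f := by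
    rw [mul_sub, mul_one, sub_mul, one_mul, hf]; abel
  rw [add_mul, mul_add, mul_add, e1, e2, e3] at h2
  have h3 : v * u + (1 - f) = 1 := by
    simpa using h2
  calc v * u = v * u + (1 - f) - (1 - f) := by abel
    _ = 1 - (1 - f) := by rw [h3]
    _ = f := by abel

theorem pi_ne {π : W} (hπ : Irreducible π) : algebraMap W K π ≠ 0 := by
  intro h
  exact hπ.ne_zero ((IsFractionRing.injective W K) (by rw [h, map_zero]))

/-- division by the uniformizer -/
theorem pi_smul_inv {π : W} (hπ : Irreducible π) (x : A) :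
    π • ((algebraMap W K π)⁻¹ • x) = x := by
  rw [← algebraMap_smul K π ((algebraMap W K π)⁻¹ • x), smul_smul,
    mul_inv_cancel₀ (pi_ne (K := K) hπ), one_smul]

theorem pi_smul_inj (K : Type) {W A : Type} [CommRing W] [Field K] [Algebra W K]
    [IsFractionRing W K] [Ring A] [Algebra K A] [Algebra W A] [IsScalarTower W K A] {π : W}
    (hπ : Irreducible π) {x y : A} (h : π • x = π • y) : x = y := by
  have h0 : algebraMap W K π ≠ 0 := fun h0 =>
    hπ.ne_zero ((IsFractionRing.injective W K) (by rw [h0, map_zero]))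
  rw [← algebraMap_smul K π x, ← algebraMap_smul K π y] at h
  exact smul_right_injective A h0 h

theorem unit_or {π : W} (hπ : Irreducible π) (w : W) : IsUnit w ∨ ∃ v, w = π * v := by
  by_cases h : IsUnit w
  · exact Or.inl h
  · right
    have h1 : w ∈ IsLocalRing.maximalIdeal W := (IsLocalRing.mem_maximalIdeal w).2 h
    rw [(IsDiscreteValuationRing.irreducible_iff_uniformizer π).1 hπ,
      Ideal.mem_span_singleton] at h1
    exact h1

variable (h : CornerP π τ f O' m')
include h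

/-- decomposition into a unit and the radical -/
theorem unit_dec {x : A} (hx : x ∈ O') (hxm : x ∉ m') :
    ∃ w v : W, w * v = 1 ∧ x - w • f ∈ m' := by
  obtain ⟨w, hw⟩ := h.dec x hx
  rcases unit_or h.irr w with hu | ⟨v, rfl⟩
  · obtain ⟨u, rfl⟩ := hu
    exact ⟨u, ↑u⁻¹, Units.mul_inv u, hw⟩
  · exfalso
    apply hxm
    have h1 : (π * v) • f ∈ m' := by
      rw [mul_comm, mul_smul]
      exact m'.smul_mem _ h.pe
    have h2 := m'.add_mem hw h1
    rwa [sub_add_cancel] at h2

omit h in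
theorem pow_succ_mem (h : CornerP π τ f O' m') {a : A} (ha : a ∈ m') (n : ℕ) :
    a ^ (n + 1) ∈ m' := by
  induction n with
  | zero => simpa using ha
  | succ n ih =>
    rw [pow_succ]
    exact h.mul_l _ (h.le ih) _ ha

omit h [IsDomain W] [IsDiscreteValuationRing W] in
theorem pow_succ_mem_pow {a : A} (ha : a ∈ m') (n : ℕ) : a ^ n ∈ m' ^ n :=
  Submodule.pow_mem_pow m' ha n

theorem geom {a : A} (ha : a ∈ m') (n : ℕ) :
    ∃ s ∈ O', (f - a) * s = f - a ^ (n + 1) := by
  induction n with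
  | zero =>
    refine ⟨f, h.one, ?_⟩
    rw [sub_mul, h.idem, h.right a (h.le ha), zero_add, pow_one]
  | succ n ih =>
    obtain ⟨s, hs, e⟩ := ih
    have hm := pow_succ_mem h ha n
    refine ⟨s + a ^ (n + 1), O'.add_mem hs (h.le hm), ?_⟩
    rw [mul_add, e, sub_mul, h.left _ (h.le hm), ← pow_succ' a (n + 1)]
    abel

/-- elements outside the radical are units -/
theorem isUnit [Module.Finite K A] {x : A} (hx : x ∈ O') (hxm : x ∉ m') :
    ∃ v ∈ O', x * v = f ∧ v * x = f := by
  obtain ⟨w, v, hwv, hd⟩ := h.unit_dec hx hxm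
  obtain ⟨n, hn, hnil⟩ := h.nil
  obtain ⟨j, rfl⟩ : ∃ j, n = j + 1 := ⟨n - 1, by omega⟩
  set a : A := -(v • (x - w • f)) with ha
  have ham : a ∈ m' := m'.neg_mem (m'.smul_mem _ hd)
  have hxa : x = w • (f - a) := by
    rw [ha, sub_neg_eq_add, smul_add, smul_smul, hwv, one_smul]
    abel
  obtain ⟨s, hs, es⟩ := h.geom ham j
  obtain ⟨y, hy, ey⟩ := hnil _ (pow_succ_mem_pow (m' := m') ham (j + 1))
  have key : x * (v • s) = f - π • y := by
    rw [hxa, smul_mul_assoc, mul_smul_comm, smul_smul, hwv, one_smul, es, ey]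
  let N : Submodule W A := O'.map (LinearMap.mulLeft W x)
  have hle : O' ≤ N ⊔ (Ideal.span {π}) • O' := by
    intro t ht
    have e1 : t = x * (v • (s * t)) + π • (y * t) := by
      have e2 : f * t = (x * (v • s) + π • y) * t := by
        rw [key]; congr 1; abel
      rw [h.left t ht, add_mul, smul_mul_assoc, mul_assoc, smul_mul_assoc] at e2
      exact e2
    rw [e1]
    apply Submodule.add_mem_sup
    · exact ⟨v • (s * t), O'.smul_mem _ (h.mul s hs t ht), rfl⟩
    · exact Submodule.smul_mem_smul (Ideal.mem_span_singleton_self _) (h.mul y hy t ht)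
  have hjac : Ideal.span {π} ≤ Ideal.jacobson (⊥ : Ideal W) := by
    rw [IsLocalRing.jacobson_eq_maximalIdeal ⊥ bot_ne_top, Ideal.span_singleton_le_iff_mem,
      IsLocalRing.mem_maximalIdeal]
    exact h.irr.not_isUnit
  have hN := Submodule.le_of_le_smul_of_le_jacobson_bot h.fg hjac hle
  obtain ⟨u, hu, e⟩ := hN h.one
  have e' : x * u = f := e
  exact ⟨u, hu, e', inv_comm (K := K) h.idem (h.left x hx) (h.right x hx) (h.left u hu) (h.right u hu) e'⟩

/-- `f` is not divisible by the uniformizer -/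
theorem f_not_div : ¬ ∃ y ∈ O', f = π • y := by
  rintro ⟨y, hy, e⟩
  apply h.ne
  have h1 : f = (π • f) * y := by
    rw [smul_mul_assoc, h.left y hy, ← e]
  rw [h1]
  exact h.mul_r _ hy _ h.pe

theorem exists_z : ∃ z ∈ O', (¬ ∃ y ∈ O', z = π • y) ∧
    (∀ m ∈ m', ∃ y ∈ O', z * m = π • y) ∧ (∀ m ∈ m', ∃ y ∈ O', m * z = π • y) := by
  classical
  have hex := h.nil
  have hP := Nat.find_spec hex
  have hmin : ∀ k, k < Nat.find hex → ¬ (0 < k ∧ ∀ x ∈ m' ^ k, ∃ y ∈ O', x = π • y) :=
    fun k hk => Nat.find_min hex hk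
  generalize Nat.find hex = n at hP hmin
  obtain ⟨j, rfl⟩ : ∃ j, n = j + 1 := ⟨n - 1, by omega⟩
  rcases Nat.eq_zero_or_pos j with rfl | hj
  · refine ⟨f, h.one, h.f_not_div, ?_, ?_⟩
    · intro m hm
      rw [h.left m (h.le hm)]
      exact hP.2 m (by simpa using hm)
    · intro m hm
      rw [h.right m (h.le hm)]
      exact hP.2 m (by simpa using hm)
  · have h1 := hmin j (by omega)
    push Not at h1
    obtain ⟨z, hz, hz2⟩ := h1 hj
    have hzO : z ∈ O' := by
      have : m' ^ j ≤ m' := by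
        obtain ⟨i, rfl⟩ : ∃ i, j = i + 1 := ⟨j - 1, by omega⟩
        clear hz hz2 h1 hj hmin hP
        induction i with
        | zero => simp
        | succ i ih =>
          rw [pow_succ]
          rw [Submodule.mul_le]
          intro a ha b hb
          exact h.mul_l a (h.le (ih ha)) b hb
      exact h.le (this hz)
    refine ⟨z, hzO, ?_, ?_, ?_⟩
    · rintro ⟨y, hy, e⟩
      exact hz2 y hy e
    · intro m hm
      apply hP.2
      rw [pow_succ]
      exact Submodule.mul_mem_mul hz hm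
    · intro m hm
      apply hP.2
      rw [pow_succ']
      exact Submodule.mul_mem_mul hm hz

/-- **Lemma D.**  The radical has an invertible generator. -/
theorem exists_gen [Module.Finite K A] : ∃ y ∈ m', ∃ x, f * x = x ∧ x * f = x ∧ x * y = f ∧
    y * x = f ∧ (∀ m ∈ m', x * m ∈ O') ∧ (∀ m ∈ m', m * x ∈ O') := by
  obtain ⟨z, hz, hz1, hz2, hz3⟩ := h.exists_z
  set x₀ : A := (algebraMap W K π)⁻¹ • z with hx₀
  have e0 : π • x₀ = z := pi_smul_inv (K := K) h.irr z
  have hx₀O : x₀ ∉ O' := fun hc => hz1 ⟨x₀, hc, e0.symm⟩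
  have fx₀ : f * x₀ = x₀ := by rw [hx₀, mul_smul_comm, h.left z hz]
  have x₀f : x₀ * f = x₀ := by rw [hx₀, smul_mul_assoc, h.right z hz]
  have hl : ∀ m ∈ m', x₀ * m ∈ O' := by
    intro m hm
    obtain ⟨y, hy, e⟩ := hz2 m hm
    have : x₀ * m = y := by
      apply pi_smul_inj K h.irr
      rw [← smul_mul_assoc, e0, e]
    rwa [this]
  have hr : ∀ m ∈ m', m * x₀ ∈ O' := by
    intro m hm
    obtain ⟨y, hy, e⟩ := hz3 m hm
    have : m * x₀ = y := by
      apply pi_smul_inj K h.irr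
      rw [← mul_smul_comm, e0, e]
    rwa [this]
  have hex : ∃ y₀ ∈ m', x₀ * y₀ ∉ m' := by
    by_contra hcon
    push Not at hcon
    exact hx₀O (h.dual x₀ fx₀ x₀f fun y hy => h.int _ (hcon y hy))
  obtain ⟨y₀, hy₀, hu⟩ := hex
  obtain ⟨v, hv, e1, e2⟩ := h.isUnit (hl y₀ hy₀) hu
  have hym : y₀ * v ∈ m' := h.mul_r v hv y₀ hy₀
  have hxy : x₀ * (y₀ * v) = f := by rw [← mul_assoc, e1]
  exact ⟨y₀ * v, hym, x₀, fx₀, x₀f, hxy,
    inv_comm (K := K) h.idem fx₀ x₀f (h.left _ (h.le hym)) (h.right _ (h.le hym)) hxy, hl, hr⟩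

end CornerP

/-- Lemma D with its data: `y` generates the radical, `x` is its inverse in the corner. -/
structure GenP (π : W) (τ : A →ₗ[K] K) (f : A) (O' m' : Submodule W A) (y x : A) : Prop
    extends CornerP π τ f O' m' where
  y_mem : y ∈ m'
  fx : f * x = x
  xf : x * f = x
  xy : x * y = f
  yx : y * x = f
  x_mul : ∀ m ∈ m', x * m ∈ O'
  mul_x : ∀ m ∈ m', m * x ∈ O'

namespace GenP

variable {π : W} {τ : A →ₗ[K] K} {f y x : A} {O' m' : Submodule W A} (h : GenP π τ f O' m' y x)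
include h

theorem y_mem' : y ∈ O' := h.le h.y_mem

theorem eq_y_mul {m : A} (hm : m ∈ m') : m = y * (x * m) := by
  rw [← mul_assoc, h.yx, h.left m (h.le hm)]

theorem eq_mul_y {m : A} (hm : m ∈ m') : m = (m * x) * y := by
  rw [mul_assoc, h.xy, h.right m (h.le hm)]

theorem y_mul_mem {a : A} (ha : a ∈ O') : y * a ∈ m' := h.mul_r a ha y h.y_mem

theorem pow_mem (n : ℕ) : y ^ (n + 1) ∈ m' := CornerP.pow_succ_mem h.toCornerP h.y_mem n

/-- the left ideal filtration -/
theorem pow_mul_mem {a : A} (ha : a ∈ O') (n : ℕ) : y ^ n * a ∈ O' := by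
  cases n with
  | zero => simpa using ha
  | succ n => exact h.le (h.mul_r a ha _ (h.pow_mem n))

theorem xpow_mul (n : ℕ) {a : A} (ha : f * a = a) : x ^ n * (y ^ n * a) = a := by
  induction n generalizing a with
  | zero => simp
  | succ n ih =>
    rw [pow_succ, pow_succ', mul_assoc, ← mul_assoc x, ← mul_assoc x, h.xy, mul_assoc f,
      show f * (y ^ n * a) = y ^ n * a from ?_]
    · exact ih ha
    · cases n with
      | zero => simpa using ha
      | succ n => rw [← mul_assoc, h.left _ (h.le (h.pow_mem n))]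

theorem pow_inj (n : ℕ) {a b : A} (ha : f * a = a) (hb : f * b = b) (e : y ^ n * a = y ^ n * b) :
    a = b := by
  rw [← h.xpow_mul n ha, e, h.xpow_mul n hb]

/-- every element of `O'` is a scalar plus a multiple of `y` -/
theorem dec_y {a : A} (ha : a ∈ O') : ∃ w : W, ∃ b ∈ O', a = w • f + y * b := by
  obtain ⟨w, hw⟩ := h.dec a ha
  refine ⟨w, x * (a - w • f), h.x_mul _ hw, ?_⟩
  rw [← h.eq_y_mul hw]
  abel

/-- some power of `y` lies in `π O'` -/
theorem exists_pow_div : ∃ n : ℕ, 0 < n ∧ ∃ b ∈ O', y ^ n = π • b := by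
  obtain ⟨n, hn, hnil⟩ := h.nil
  exact ⟨n, hn, hnil _ (CornerP.pow_succ_mem_pow (m' := m') h.y_mem n)⟩

/-- the `W`-span of `f, y, ..., y ^ (n-1)` -/
def poly (W : Type*) {A : Type*} [CommRing W] [Ring A] [Algebra W A] (f y : A) (n : ℕ) :
    Submodule W A :=
  Submodule.span W (Set.range fun i : Fin n => y ^ (i : ℕ) * f)

end GenP

namespace GenP

variable {π : W} {τ : A →ₗ[K] K} {f y x : A} {O' m' : Submodule W A} (h : GenP π τ f O' m' y x)
include h

omit [IsDomain W] [IsDiscreteValuationRing W] [Field K] [Algebra W K] [IsFractionRing W K]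
  [Algebra K A] [IsScalarTower W K A] h in
/-- the filtration `y ^ j O'` -/
theorem filt_mem {j : ℕ} {a : A} :
    a ∈ O'.map (LinearMap.mulLeft W (y ^ j)) ↔ ∃ b ∈ O', a = y ^ j * b := by
  constructor
  · rintro ⟨b, hb, rfl⟩
    exact ⟨b, hb, rfl⟩
  · rintro ⟨b, hb, rfl⟩
    exact ⟨b, hb, rfl⟩

theorem yf : y * f = y := h.right y h.y_mem'

theorem fy : f * y = y := h.left y h.y_mem'

theorem f_ne : f ≠ 0 := by
  intro h0
  exact h.ne (h0 ▸ m'.zero_mem)

theorem poly_le (n : ℕ) : poly W f y n ≤ O' := by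
  apply Submodule.span_le.2
  rintro _ ⟨i, rfl⟩
  exact h.pow_mul_mem h.one i

theorem dec_pow (n : ℕ) {a : A} (ha : a ∈ O') :
    ∃ c ∈ poly W f y n, ∃ b ∈ O', a = c + y ^ n * b := by
  induction n generalizing a with
  | zero => exact ⟨0, Submodule.zero_mem _, a, ha, by simp⟩
  | succ n ih =>
    obtain ⟨c, hc, b, hb, rfl⟩ := ih ha
    obtain ⟨w, b', hb', rfl⟩ := h.dec_y hb
    refine ⟨c + w • (y ^ n * f), Submodule.add_mem _ ?_ ?_, b', hb', ?_⟩
    · refine Submodule.span_mono ?_ hc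
      rintro _ ⟨i, rfl⟩
      exact ⟨i.castSucc, rfl⟩
    · apply Submodule.smul_mem
      exact Submodule.subset_span ⟨Fin.last n, rfl⟩
    · rw [mul_add, mul_smul_comm, pow_succ, mul_assoc (y ^ n) y b']
      abel

/-- `O'` is generated by the powers of `y` -/
theorem le_poly {n : ℕ} (hn : ∃ b ∈ O', y ^ n * f = π • b) : O' ≤ poly W f y n := by
  obtain ⟨b, hb, e⟩ := hn
  have hjac : Ideal.span {π} ≤ Ideal.jacobson (⊥ : Ideal W) := by
    rw [IsLocalRing.jacobson_eq_maximalIdeal ⊥ bot_ne_top, Ideal.span_singleton_le_iff_mem,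
      IsLocalRing.mem_maximalIdeal]
    exact h.irr.not_isUnit
  apply Submodule.le_of_le_smul_of_le_jacobson_bot h.fg hjac
  intro a ha
  obtain ⟨c, hc, b', hb', rfl⟩ := h.dec_pow n ha
  apply Submodule.add_mem_sup hc
  have e1 : y ^ n * b' = π • (b * b') := by
    rw [← smul_mul_assoc, ← e, mul_assoc, h.left b' hb']
  rw [e1]
  exact Submodule.smul_mem_smul (Ideal.mem_span_singleton_self _) (h.mul b hb b' hb')

/-- `O'` is commutative -/
theorem comm' {a b : A} (ha : a ∈ O') (hb : b ∈ O') : a * b = b * a := by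
  obtain ⟨n, hn, c, hc, e⟩ := h.exists_pow_div
  have hle := h.le_poly (n := n) ⟨c, hc, by rw [e, smul_mul_assoc, h.right c hc]⟩
  have h1 : ∀ i j : ℕ, (y ^ i * f) * (y ^ j * f) = (y ^ j * f) * (y ^ i * f) := by
    intro i j
    have hc : ∀ i : ℕ, f * (y ^ i * f) = y ^ i * f := fun i => h.left _ (h.pow_mul_mem h.one i)
    rw [mul_assoc, hc, mul_assoc (y ^ j), hc, ← mul_assoc, ← mul_assoc, ← pow_add, ← pow_add,
      add_comm]
  refine Submodule.span_induction₂ (p := fun a b _ _ => a * b = b * a) ?_ ?_ ?_ ?_ ?_ ?_ ?_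
    (hle ha) (hle hb)
  · rintro _ _ ⟨i, rfl⟩ ⟨j, rfl⟩
    exact h1 i j
  · intros; simp
  · intros; simp
  · intro a b c _ _ _ h1 h2
    rw [add_mul, mul_add, h1, h2]
  · intro a b c _ _ _ h1 h2
    rw [mul_add, add_mul, h1, h2]
  · intro r a b _ _ h1
    rw [smul_mul_assoc, mul_smul_comm, h1]
  · intro r a b _ _ h1
    rw [mul_smul_comm, smul_mul_assoc, h1]

/-- `O'` is a lattice in the corner -/
theorem exists_smul_mem {a : A} (fa : f * a = a) (af : a * f = a) :
    ∃ c : W, c ≠ 0 ∧ c • a ∈ O' := by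
  have hN : IsNoetherian W O' := isNoetherian_of_fg_of_noetherian O' h.fg
  obtain ⟨s, hs⟩ := isNoetherian_submodule.1 hN m' h.le
  classical
  obtain ⟨c, hc⟩ := IsLocalization.exist_integer_multiples_of_finset (nonZeroDivisors W)
    (s.image fun g => τ (a * g))
  refine ⟨c, nonZeroDivisors.ne_zero c.2, ?_⟩
  apply h.dual
  · rw [mul_smul_comm, fa]
  · rw [smul_mul_assoc, af]
  · intro g hg
    rw [← hs] at hg
    refine Submodule.span_induction (p := fun g _ => IsInt W (τ ((c : W) • a * g)))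
      ?_ ?_ ?_ ?_ hg
    · intro g hg
      obtain ⟨w, hw⟩ := hc (τ (a * g)) (Finset.mem_image_of_mem _ hg)
      refine ⟨w, ?_⟩
      rw [hw, smul_mul_assoc, ← algebraMap_smul K (c : W) (a * g), map_smul, smul_eq_mul,
        Algebra.smul_def]
    · exact ⟨0, by simp⟩
    · rintro g g' _ _ ⟨w, hw⟩ ⟨w', hw'⟩
      exact ⟨w + w', by rw [map_add, hw, hw', mul_add, map_add]⟩
    · rintro r g _ ⟨w, hw⟩
      refine ⟨r * w, ?_⟩
      rw [map_mul, hw, mul_smul_comm, ← algebraMap_smul K r, map_smul, smul_eq_mul]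

/-- the corner is commutative -/
theorem comm {a b : A} (fa : f * a = a) (af : a * f = a) (fb : f * b = b) (bf : b * f = b) :
    a * b = b * a := by
  obtain ⟨c, hc, ha⟩ := h.exists_smul_mem fa af
  obtain ⟨d, hd, hb⟩ := h.exists_smul_mem fb bf
  have e := h.comm' ha hb
  rw [smul_mul_smul_comm, smul_mul_smul_comm, mul_comm d c, ← algebraMap_smul K (c * d),
    ← algebraMap_smul K (c * d)] at e
  have h0 : algebraMap W K (c * d) ≠ 0 := fun h0 =>
    mul_ne_zero hc hd ((IsFractionRing.injective W K) (by rw [h0, map_zero]))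
  exact smul_right_injective A h0 e

theorem smul_cancel {c : W} (hc : c ≠ 0) {a b : A} (e : c • a = c • b) : a = b := by
  have h0 : algebraMap W K c ≠ 0 := fun h0 =>
    hc ((IsFractionRing.injective W K) (by rw [h0, map_zero]))
  rw [← algebraMap_smul K c a, ← algebraMap_smul K c b] at e
  exact smul_right_injective A h0 e

/-- separatedness of the filtration -/
theorem sep {a : A} (ha : ∀ n : ℕ, ∃ b ∈ O', a = y ^ n * b) : a = 0 := by
  have haO : a ∈ O' := by
    obtain ⟨b, hb, e⟩ := ha 0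
    rw [e, pow_zero, one_mul]
    exact hb
  obtain ⟨n, hn, c, hc, e⟩ := h.exists_pow_div
  have h1 : ∀ j : ℕ, ∃ b ∈ O', a = π ^ j • b := by
    intro j
    obtain ⟨b, hb, eb⟩ := ha (n * j)
    have h2 : ∀ j : ℕ, ∀ b ∈ O', ∃ b' ∈ O', y ^ (n * j) * b = π ^ j • b' := by
      intro j
      induction j with
      | zero => exact fun b hb => ⟨b, hb, by simp⟩
      | succ j ih =>
        intro b hb
        obtain ⟨b', hb', e'⟩ := ih _ (h.mul c hc b hb)
        refine ⟨b', hb', ?_⟩
        rw [Nat.mul_succ, pow_add, mul_assoc, e, smul_mul_assoc, mul_smul_comm, e', smul_smul,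
          pow_succ']
    obtain ⟨b', hb', e'⟩ := h2 j b hb
    exact ⟨b', hb', by rw [eb, e']⟩
  have : Module.Finite W O' := Module.Finite.iff_fg.2 h.fg
  have h2 : (⟨a, haO⟩ : O') ∈ (⨅ i : ℕ, (Ideal.span {π}) ^ i • ⊤ : Submodule W O') := by
    rw [Submodule.mem_iInf]
    intro j
    obtain ⟨b, hb, e⟩ := h1 j
    have : (⟨a, haO⟩ : O') = π ^ j • (⟨b, hb⟩ : O') := Subtype.ext e
    rw [this]
    apply Submodule.smul_mem_smul _ Submodule.mem_top
    rw [Ideal.span_singleton_pow]
    exact Ideal.mem_span_singleton_self _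
  rw [Ideal.iInf_pow_smul_eq_bot_of_isLocalRing] at h2
  · exact congrArg Subtype.val ((Submodule.mem_bot W).1 h2)
  · intro htop
    rw [Ideal.span_singleton_eq_top] at htop
    exact h.irr.not_isUnit htop

/-- every nonzero element of `O'` is a power of `y` times a unit -/
theorem exists_pow_unit [Module.Finite K A] {a : A} (ha : a ∈ O') (ha0 : a ≠ 0) :
    ∃ i : ℕ, ∃ u ∈ O', ∃ v ∈ O', u * v = f ∧ v * u = f ∧ a = y ^ i * u := by
  classical
  have hex : ∃ n : ℕ, ¬ ∃ b ∈ O', a = y ^ n * b := by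
    by_contra hcon
    push Not at hcon
    exact ha0 (h.sep hcon)
  have hs := Nat.find_spec hex
  have hmin : ∀ k, k < Nat.find hex → ∃ b ∈ O', a = y ^ k * b :=
    fun k hk => not_not.1 (Nat.find_min hex hk)
  generalize Nat.find hex = n at hs hmin
  obtain ⟨i, rfl⟩ : ∃ i, n = i + 1 := by
    cases n with
    | zero => exact absurd ⟨a, ha, by simp⟩ hs
    | succ i => exact ⟨i, rfl⟩
  obtain ⟨b, hb, e⟩ := hmin i (Nat.lt_succ_self i)
  have hbm : b ∉ m' := by
    intro hbm
    apply hs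
    refine ⟨x * b, h.x_mul b hbm, ?_⟩
    rw [pow_succ, mul_assoc, ← h.eq_y_mul hbm]
    exact e
  obtain ⟨v, hv, e1, e2⟩ := h.isUnit hb hbm
  exact ⟨i, b, hb, v, hv, e1, e2, e⟩

theorem ypow_fxpow (i : ℕ) : y ^ i * f * x ^ i = f := by
  induction i with
  | zero => simp
  | succ i ih =>
    rw [pow_succ, pow_succ', mul_assoc, mul_assoc, ← mul_assoc f, h.fx, ← mul_assoc y, h.yx,
      ← mul_assoc]
    exact ih

/-- the corner is a division ring -/
theorem exists_inv [Module.Finite K A] {a : A} (fa : f * a = a) (af : a * f = a) (ha0 : a ≠ 0) :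
    ∃ b, f * b = b ∧ b * f = b ∧ a * b = f ∧ b * a = f := by
  obtain ⟨c, hc, ha⟩ := h.exists_smul_mem fa af
  have h0 : c • a ≠ 0 := by
    intro h0
    exact ha0 (h.smul_cancel hc (by rw [h0, smul_zero]))
  obtain ⟨i, u, hu, v, hv, e1, e2, e⟩ := h.exists_pow_unit ha h0
  have key : (c • a) * (v * x ^ i * f) = f := by
    rw [e]
    calc y ^ i * u * (v * x ^ i * f) = y ^ i * (u * v) * x ^ i * f := by simp only [mul_assoc]
      _ = f * f := by rw [e1, h.ypow_fxpow]
      _ = f := h.idem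
  have key2 : a * (c • (v * x ^ i * f)) = f := by
    rw [mul_smul_comm, ← smul_mul_assoc]
    exact key
  have hl : f * (c • (v * x ^ i * f)) = c • (v * x ^ i * f) := by
    rw [mul_smul_comm, ← mul_assoc, ← mul_assoc, h.left v hv]
  have hr : (c • (v * x ^ i * f)) * f = c • (v * x ^ i * f) := by
    rw [smul_mul_assoc, mul_assoc, h.idem]
  exact ⟨_, hl, hr, key2, CornerP.inv_comm (K := K) h.idem fa af hl hr key2⟩

/-- `π f = y ^ k * unit`, `k > 0` -/
theorem exists_ram [Module.Finite K A] : ∃ k : ℕ, 0 < k ∧ ∃ u ∈ O', ∃ v ∈ O', u * v = f ∧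
    v * u = f ∧ π • f = y ^ k * u := by
  have h0 : π • f ≠ 0 := by
    intro h0
    exact h.f_ne (h.smul_cancel h.irr.ne_zero (by rw [h0, smul_zero]))
  obtain ⟨k, u, hu, v, hv, e1, e2, e⟩ := h.exists_pow_unit (h.le h.pe) h0
  refine ⟨k, ?_, u, hu, v, hv, e1, e2, e⟩
  rcases Nat.eq_zero_or_pos k with rfl | hk
  · exfalso
    apply h.ne
    rw [← e1]
    apply h.mul_r v hv
    rw [pow_zero, one_mul] at e
    rw [← e]
    exact h.pe
  · exact hk

/-- the powers of `y` below the ramification index are independent over `W` -/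
theorem indep [Module.Finite K A] {k : ℕ} {u v : A} (hu : u ∈ O') (_hv : v ∈ O')
    (hk : π • f = y ^ k * u) (c : Fin k → W) (hc : ∑ i, c i • (y ^ (i : ℕ) * f) = 0) :
    ∀ i, c i = 0 := by
  have step : ∀ c : Fin k → W, ∑ i, c i • (y ^ (i : ℕ) * f) = 0 → ∀ i, ∃ d, c i = π * d := by
    intro c hc
    by_contra hcon
    push Not at hcon
    obtain ⟨i₁, hi₁⟩ := hcon
    classical
    have hex : ∃ n : ℕ, ∃ hn : n < k, ∀ d, c ⟨n, hn⟩ ≠ π * d := ⟨i₁, i₁.2, hi₁⟩
    obtain ⟨hn, hs⟩ := Nat.find_spec hex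
    have hmin : ∀ j, j < Nat.find hex → ¬ ∃ hn : j < k, ∀ d, c ⟨j, hn⟩ ≠ π * d :=
      fun j hj => Nat.find_min hex hj
    generalize Nat.find hex = n at hn hs hmin
    have hu' : IsUnit (c ⟨n, hn⟩) := by
      rcases CornerP.unit_or h.irr (c ⟨n, hn⟩) with h1 | ⟨d, hd⟩
      · exact h1
      · exact absurd hd (hs d)
    have hrest : ∀ i ∈ Finset.univ.erase (⟨n, hn⟩ : Fin k),
        c i • (y ^ (i : ℕ) * f) ∈ O'.map (LinearMap.mulLeft W (y ^ (n + 1))) := by
      intro i hi
      have hin : (i : ℕ) ≠ n := fun h0 => (Finset.ne_of_mem_erase hi) (Fin.ext h0)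
      rcases lt_or_gt_of_ne hin with hlt | hgt
      · have h1 := hmin i hlt
        push Not at h1
        obtain ⟨d, hd⟩ := h1 i.2
        rw [filt_mem]
        refine ⟨d • (y ^ (i + k - (n + 1)) * u), O'.smul_mem _ (h.pow_mul_mem hu _), ?_⟩
        have e1 : c i = d * π := by
          rw [mul_comm]
          exact hd
        rw [e1, mul_smul, ← mul_smul_comm, hk, mul_smul_comm, ← mul_assoc, ← mul_assoc,
          ← pow_add, ← pow_add]
        congr 3
        omega
      · rw [filt_mem]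
        refine ⟨c i • (y ^ (i - (n + 1)) * f), O'.smul_mem _ (h.pow_mul_mem h.one _), ?_⟩
        rw [mul_smul_comm, ← mul_assoc, ← pow_add]
        congr 3
        omega
    have hsum := Submodule.sum_mem _ hrest
    rw [← Finset.add_sum_erase _ _ (Finset.mem_univ (⟨n, hn⟩ : Fin k))] at hc
    rw [filt_mem] at hsum
    obtain ⟨b, hb, eb⟩ := hsum
    rw [eb] at hc
    have e2 : y ^ n * (c ⟨n, hn⟩ • f + y * b) = y ^ n * 0 := by
      rw [mul_add, mul_smul_comm, mul_zero, ← mul_assoc (y ^ n) y b, ← pow_succ]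
      exact hc
    have hcf : f * (c ⟨n, hn⟩ • f + y * b) = c ⟨n, hn⟩ • f + y * b := by
      apply h.left
      exact O'.add_mem (O'.smul_mem _ h.one) (h.le (h.y_mul_mem hb))
    have e3 := h.pow_inj n hcf (mul_zero f) e2
    apply h.ne
    obtain ⟨w, hw⟩ := hu'
    have e4 : f = (-(↑w⁻¹ : W)) • (y * b) := by
      have e5 : c ⟨n, hn⟩ • f = -(y * b) := eq_neg_of_add_eq_zero_left e3
      rw [← hw] at e5
      calc f = (↑w⁻¹ : W) • ((w : W) • f) := by rw [smul_smul, Units.inv_mul, one_smul]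
        _ = (-(↑w⁻¹ : W)) • (y * b) := by rw [e5, smul_neg, neg_smul]
    rw [e4]
    exact m'.smul_mem _ (h.y_mul_mem hb)
  have hdiv : ∀ n : ℕ, ∀ c : Fin k → W, ∑ i, c i • (y ^ (i : ℕ) * f) = 0 →
      ∀ i, π ^ n ∣ c i := by
    intro n
    induction n with
    | zero => intro c _ i; simp
    | succ n ih =>
      intro c hc i
      choose d hd using step c hc
      have e1 : ∑ i, d i • (y ^ (i : ℕ) * f) = 0 := by
        apply h.smul_cancel h.irr.ne_zero
        rw [smul_zero, Finset.smul_sum, ← hc]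
        apply Finset.sum_congr rfl
        intro i _
        rw [smul_smul, ← hd i]
      rw [hd i, pow_succ']
      exact mul_dvd_mul_left _ (ih d e1 i)
  intro i
  by_contra hne
  obtain ⟨n, hn⟩ := IsDiscreteValuationRing.associated_pow_irreducible hne h.irr
  have h1 := hdiv (n + 1) c hc i
  have h2 : π ^ (n + 1) ∣ π ^ n := h1.trans hn.dvd
  have h3 := (pow_dvd_pow_iff h.irr.ne_zero h.irr.not_isUnit).1 h2
  omega

/-- the degree of the corner is the ramification index -/
theorem finrank_cor [Module.Finite K A] {k : ℕ} {u v : A} (hu : u ∈ O') (hv : v ∈ O')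
    (huv : u * v = f) (hk : π • f = y ^ k * u) : finrank K (cor K f) = k := by
  have hmem : ∀ i : Fin k, y ^ (i : ℕ) * f ∈ cor K f := fun i =>
    ⟨h.left _ (h.pow_mul_mem h.one i), h.right _ (h.pow_mul_mem h.one i)⟩
  have hli : LinearIndependent K (fun i : Fin k => (⟨y ^ (i : ℕ) * f, hmem i⟩ : cor K f)) := by
    rw [← LinearIndependent.iff_fractionRing (R := W) (K := K), Fintype.linearIndependent_iff]
    intro c hc
    apply h.indep hu hv hk c
    have h1 := congrArg (Subtype.val : cor K f → A) hc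
    rw [Submodule.coe_zero] at h1
    rw [← h1]
    push_cast
    rfl
  have hsp : ⊤ ≤ Submodule.span K
      (Set.range (fun i : Fin k => (⟨y ^ (i : ℕ) * f, hmem i⟩ : cor K f))) := by
    rintro ⟨a, fa, af⟩ -
    obtain ⟨c, hc, ha⟩ := h.exists_smul_mem fa af
    have hle := h.le_poly (n := k) ⟨v, hv, by
      rw [← huv, ← mul_assoc, ← hk, smul_mul_assoc, h.left v hv]⟩
    have h1 := hle ha
    have h0 : algebraMap W K c ≠ 0 := fun h0 =>
      hc ((IsFractionRing.injective W K) (by rw [h0, map_zero]))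
    have h2 : ∀ b ∈ poly W f y k, ∀ hb : b ∈ cor K f, (⟨b, hb⟩ : cor K f) ∈ Submodule.span K
        (Set.range (fun i : Fin k => (⟨y ^ (i : ℕ) * f, hmem i⟩ : cor K f))) := by
      intro b hb
      refine Submodule.span_induction (p := fun b _ => ∀ hb : b ∈ cor K f,
        (⟨b, hb⟩ : cor K f) ∈ Submodule.span K
        (Set.range (fun i : Fin k => (⟨y ^ (i : ℕ) * f, hmem i⟩ : cor K f)))) ?_ ?_ ?_ ?_ hb
      · rintro _ ⟨i, rfl⟩ _
        exact Submodule.subset_span ⟨i, rfl⟩
      · intro _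
        exact Submodule.zero_mem _
      · intro b b' hb hb' i1 i2 hbb
        have m1 : b ∈ cor K f :=
          ⟨h.left _ (h.poly_le k hb), h.right _ (h.poly_le k hb)⟩
        have m2 : b' ∈ cor K f :=
          ⟨h.left _ (h.poly_le k hb'), h.right _ (h.poly_le k hb')⟩
        exact Submodule.add_mem _ (i1 m1) (i2 m2)
      · intro r b hb i1 hbb
        have m1 : b ∈ cor K f :=
          ⟨h.left _ (h.poly_le k hb), h.right _ (h.poly_le k hb)⟩
        have := Submodule.smul_mem _ (algebraMap W K r) (i1 m1)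
        convert this using 1
        apply Subtype.ext
        show r • b = algebraMap W K r • b
        rw [algebraMap_smul]
    have h3 := h2 _ h1 ⟨h.left _ ha, h.right _ ha⟩
    have h4 := Submodule.smul_mem _ (algebraMap W K c)⁻¹ h3
    convert h4 using 1
    apply Subtype.ext
    show a = (algebraMap W K c)⁻¹ • (c • a)
    rw [← algebraMap_smul K c a, smul_smul, inv_mul_cancel₀ h0, one_smul]
  have b := Basis.mk hli hsp
  rw [finrank_eq_card_basis b, Fintype.card_fin]

/-- summary: `π f = y ^ k * u`, `u` a unit, `k = [f A f : K] > 0` -/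
theorem ram [Module.Finite K A] : 0 < finrank K (cor K f) ∧ ∃ u ∈ O', ∃ v ∈ O', u * v = f ∧
    v * u = f ∧ π • f = y ^ (finrank K (cor K f)) * u := by
  obtain ⟨k, hk, u, hu, v, hv, e1, e2, e⟩ := h.exists_ram
  have := h.finrank_cor hu hv e1 e
  rw [this]
  exact ⟨hk, u, hu, v, hv, e1, e2, e⟩

end GenP

end LD

section
variable {p : ℕ} {W K F : Type} [CommRing W] [IsDomain W] [Field K] [Algebra W K]
  [IsFractionRing W K] [Field F] [Algebra W F]

/-- `p` is a prime element of `W` -/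
theorem Base.prime_p (hB : Base p W K F) : Prime (p : W) := by
  have h0 : algebraMap W F (p : W) = 0 := (hB.ker _).2 dvd_rfl
  refine ⟨?_, ?_, ?_⟩
  · intro h
    have := hB.charZero
    have h1 : (p : K) = 0 := by
      have := congrArg (algebraMap W K) h
      rwa [map_natCast, map_zero] at this
    exact hB.prime.ne_zero (by exact_mod_cast h1)
  · intro h
    have h1 := h.map (algebraMap W F)
    rw [h0] at h1
    exact not_isUnit_zero h1
  · intro a b hab
    have h1 := (hB.ker _).2 hab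
    rw [map_mul, mul_eq_zero] at h1
    exact h1.imp (hB.ker _).1 (hB.ker _).1

end

section
variable {p : ℕ} {W K : Type} (F : Type) [CommRing W] [IsDomain W] [Field K] [Algebra W K]
  [IsFractionRing W K] [Field F] [Algebra W F] [Base p W K F]
  {A : Type} [Ring A] [Algebra K A] [Algebra W A] [IsScalarTower W K A] [FiniteDimensional K A]

include F in
/-- Lemma D: `O'` in `f A f` local with maximal ideal `M = O'^#`, `O' = M^#`: then `M = y O' = O' y`,
and `O'` is a commutative discrete valuation ring. -/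
theorem lemmaD (τ : A →ₗ[K] K) (hcomm : ∀ x y : A, τ (x * y) = τ (y * x))
    (f : A) (O' M : Submodule W A) (hfg : O'.FG) (hf : f * f = f) (hfO : f ∈ O')
    (hO : ∀ x ∈ O', f * x = x ∧ x * f = x)
    (hmul : ∀ x ∈ O', ∀ y ∈ O', x * y ∈ O')
    (hM : M ≤ O') (hML : ∀ x ∈ O', ∀ m ∈ M, x * m ∈ M) (hMR : ∀ x ∈ O', ∀ m ∈ M, m * x ∈ M)
    (hdec : ∀ x ∈ O', ∃ w : W, x - w • f ∈ M) (hp : (p : A) * f ∈ M) (hnf : f ∉ M)
    (hnil : ∃ n : ℕ, ∀ x ∈ M ^ n, ∃ y ∈ O', x = (p : A) * y)
    (hspan : ∀ x : A, f * x = x → x * f = x → ∃ n : ℕ, (p : A) ^ n * x ∈ O')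
    (hdual : ∀ x : A, f * x = x → x * f = x → (∀ m ∈ M, IsInt W (τ (x * m))) → x ∈ O')
    (hint : ∀ m ∈ M, IsInt W (τ m)) :
    ∃ (y x : A) (k : ℕ), DVRC p K f O' M y x k := by
  have hB : Base p W K F := inferInstance
  have := hB.dvr
  have hps : ∀ a : A, (p : A) * a = (p : W) • a := by
    intro a
    rw [Algebra.smul_def, map_natCast]
  have hC : LD.CornerP (p : W) τ f O' M :=
    { irr := hB.prime_p.irreducible
      idem := hf
      left := fun x hx => (hO x hx).1
      right := fun x hx => (hO x hx).2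
      one := hfO
      mul := hmul
      le := hM
      mul_l := hML
      mul_r := hMR
      dec := hdec
      pe := by rw [← hps]; exact hp
      ne := hnf
      nil := by
        obtain ⟨n, hn⟩ := hnil
        rcases Nat.eq_zero_or_pos n with rfl | hpos
        · exfalso
          obtain ⟨y, hy, e⟩ := hn 1 (by rw [pow_zero]; exact Submodule.one_le.1 le_rfl)
          apply hnf
          have h1 : f = ((p : A) * f) * y := by
            calc f = f * 1 := (mul_one f).symm
              _ = f * ((p : A) * y) := by rw [← e]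
              _ = ((p : A) * f) * y := by rw [← mul_assoc, (Nat.cast_commute p f).eq]
          rw [h1]
          exact hMR y hy _ hp
        · refine ⟨n, hpos, fun x hx => ?_⟩
          obtain ⟨y, hy, e⟩ := hn x hx
          exact ⟨y, hy, by rw [e, hps]⟩
      fg := hfg
      dual := hdual
      int := hint }
  obtain ⟨y, hy, x, h1, h2, h3, h4, h5, h6⟩ := hC.exists_gen
  have hG : LD.GenP (p : W) τ f O' M y x := ⟨hC, hy, h1, h2, h3, h4, h5, h6⟩
  obtain ⟨k, hk, u, hu, v, hv, huv, hvu, hpk⟩ := hG.exists_ram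
  have hfy : ∀ i : ℕ, f * y ^ i = y ^ i * f := by
    intro i
    have : Commute f y := by
      show f * y = y * f
      rw [hG.fy, hG.yf]
    exact (this.pow_right i).eq
  refine ⟨y, x, k, hy, h1, h2, h3, h4, h5, h6, fun o ho => hG.y_mul_mem ho,
    fun o ho => hML o ho y hy, ?_, hk, ⟨u, hu, v, hv, huv, hvu, by rw [hps, hpk]⟩, ?_, ?_, ?_, ?_, ?_⟩
  · intro a ha ham
    exact hC.isUnit ha ham
  · intro a ha ha0
    obtain ⟨i, u, hu, v, hv, e1, e2, e⟩ := hG.exists_pow_unit ha ha0
    refine ⟨i, u, hu, v, hv, e1, e2, ?_⟩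
    rw [hfy i, mul_assoc, (hO u hu).1]
    exact e
  · intro a ha
    have hle := hG.le_poly (n := k) ⟨v, hv, by
      rw [← huv, ← mul_assoc, ← hpk, smul_mul_assoc, (hO v hv).1]⟩
    obtain ⟨c, hc⟩ := (Submodule.mem_span_range_iff_exists_fun W).1 (hle ha)
    refine ⟨c, ?_⟩
    rw [← hc]
    apply Finset.sum_congr rfl
    intro i _
    rw [hfy]
  · intro a b ha ha' hb hb'
    exact hG.comm ha ha' hb hb'
  · refine ⟨hf, hG.f_ne, ?_⟩
    intro a ha ha' ha0
    obtain ⟨b, e1, e2, e3, e4⟩ := hG.exists_inv ha ha' ha0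
    exact ⟨b, e1, e2, e3, e4⟩
  · have h7 := hG.finrank_cor hu hv huv hpk
    exact h7

end

end PDeg
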