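import Pool.Agent.Lib.MP_369ee2_lc_PD.OrdV

/-!
# Section 6: signs, propagation, the central idempotent `e_V` and the vertices
-/

set_option linter.unusedSectionVars false
set_option linter.unusedVariables false

namespace PD

section dims

variable {K A : Type*} [Field K] [Ring A] [Algebra K A]

/-- `b A g` as a subspace of `A` -/
def corLR (K : Type*) {A : Type*} [Field K] [Ring A] [Algebra K A] (b g : A) :
    Submodule K A where
  carrier := {x | b * x = x ∧ x * g = x}
  add_mem' := by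
    rintro x y ⟨h1, h2⟩ ⟨h3, h4⟩
    exact ⟨by rw [mul_add, h1, h3], by rw [add_mul, h2, h4]⟩
  zero_mem' := ⟨mul_zero _, zero_mul _⟩
  smul_mem' := by
    rintro c x ⟨h1, h2⟩
    exact ⟨by rw [mul_smul_comm, h1], by rw [smul_mul_assoc, h2]⟩

theorem mem_corLR {b g x : A} : x ∈ corLR K b g ↔ b * x = x ∧ x * g = x := Iff.rfl

/-- the dimension of `b A g` -/
noncomputable def dimD (K : Type*) {A : Type*} [Field K] [Ring A] [Algebra K A] (b g : A) : ℕ :=
  Module.finrank K (corLR K b g)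

theorem dimD_equi (b : A) {f g : A} (h : Equi f g) : dimD K b f = dimD K b g := by
  obtain ⟨a, l, hga, haf, hfl, hlg, hla, hal⟩ := h
  have e : corLR K b f ≃ₗ[K] corLR K b g :=
    { toFun := fun x => ⟨x.1 * l, by
        obtain ⟨h1, h2⟩ := x.2
        exact ⟨by rw [← mul_assoc, h1], by rw [mul_assoc, hlg]⟩⟩
      map_add' := by intro x y; ext; simp [add_mul]
      map_smul' := by intro c x; ext; simp
      invFun := fun x => ⟨x.1 * a, by
        obtain ⟨h1, h2⟩ := x.2
        exact ⟨by rw [← mul_assoc, h1], by rw [mul_assoc, haf]⟩⟩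
      left_inv := by
        rintro ⟨x, h1, h2⟩
        ext
        change x * l * a = x
        rw [mul_assoc, hla, h2]
      right_inv := by
        rintro ⟨x, h1, h2⟩
        ext
        change x * a * l = x
        rw [mul_assoc, hal, h2] }
  exact e.finrank_eq

theorem dimD_add [FiniteDimensional K A] (b : A) {f g : A} (hf : f * f = f) (hg : g * g = g)
    (hfg : f * g = 0) (hgf : g * f = 0) : dimD K b (f + g) = dimD K b f + dimD K b g := by
  have e : corLR K b (f + g) ≃ₗ[K] corLR K b f × corLR K b g :=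
    { toFun := fun x => (⟨x.1 * f, by
        obtain ⟨h1, h2⟩ := x.2
        exact ⟨by rw [← mul_assoc, h1], by rw [mul_assoc, hf]⟩⟩, ⟨x.1 * g, by
        obtain ⟨h1, h2⟩ := x.2
        exact ⟨by rw [← mul_assoc, h1], by rw [mul_assoc, hg]⟩⟩)
      map_add' := by intro x y; ext <;> simp [add_mul]
      map_smul' := by intro c x; ext <;> simp
      invFun := fun x => ⟨x.1.1 + x.2.1, by
        obtain ⟨h1, h2⟩ := x.1.2
        obtain ⟨h3, h4⟩ := x.2.2
        refine ⟨by rw [mul_add, h1, h3], ?_⟩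
        have e1 : x.1.1 * g = 0 := by rw [← h2, mul_assoc, hfg, mul_zero]
        have e2 : x.2.1 * f = 0 := by rw [← h4, mul_assoc, hgf, mul_zero]
        rw [add_mul, mul_add, mul_add, h2, h4, e1, e2, add_zero, zero_add]⟩
      left_inv := by
        rintro ⟨x, h1, h2⟩
        ext
        change x * f + x * g = x
        rw [← mul_add, h2]
      right_inv := by
        rintro ⟨⟨x, h1, h2⟩, ⟨y, h3, h4⟩⟩
        have e1 : x * g = 0 := by rw [← h2, mul_assoc, hfg, mul_zero]
        have e2 : y * f = 0 := by rw [← h4, mul_assoc, hgf, mul_zero]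
        ext
        · change (x + y) * f = x
          rw [add_mul, h2, e2, add_zero]
        · change (x + y) * g = y
          rw [add_mul, h4, e1, zero_add] }
  have h := e.finrank_eq
  rw [Module.finrank_prod] at h
  exact h

end dims

variable {W K A : Type*} [CommRing W] [IsDomain W] [IsDiscreteValuationRing W] [Field K]
  [Algebra W K] [IsFractionRing W K] [Ring A] [Algebra K A] [Algebra W A] [IsScalarTower W K A]

/-- the statement (EL) -/
def ELProp (Fr : Frame W K A) : Prop :=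
  ∀ (e₀ f₀ z e' : A) (r₀ r' : Submodule W A), Good Fr e₀ r₀ f₀ → Vertex z f₀ → Loc Fr e' r' →
    z * e' ≠ 0 → Good Fr e' r' (z * e') ∧ Equi f₀ (z * e')

/-- a good pair with a sign: the trace is `s` mod `p`, and the dimensions `dim b_ζ A f` differ by
`s k` between `ζ₀` and the other `ζ` -/
structure SG (Fr : Frame W K A) {Z : Type*} (b : Z → A) (ζ₀ : Z) (k : ℕ) (e : A)
    (r : Submodule W A) (f : A) (s : ℤ) : Prop where
  good : Good Fr e r f
  sign : s = 1 ∨ s = -1
  tr : IsInt W (Fr.τ f - (s : K) / algebraMap W K Fr.π)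
  dim : ∀ ζ, ζ ≠ ζ₀ → (dimD K (b ζ₀) f : ℤ) - dimD K (b ζ) f = s * k

section signs

variable {Fr : Frame W K A} {Z : Type*} {b : Z → A} {ζ₀ : Z} {k : ℕ}

private theorem isInt_sub {x y : K} (hx : IsInt W x) (hy : IsInt W y) : IsInt W (x - y) := by
  obtain ⟨a, rfl⟩ := hx
  obtain ⟨b, rfl⟩ := hy
  exact ⟨a - b, by simp⟩

theorem SG.compl [FiniteDimensional K A] {e f : A} {r : Submodule W A} {s : ℤ}
    (h : SG Fr b ζ₀ k e r f s)
    (hM : ∀ ζ, dimD K (b ζ) e = dimD K (b ζ₀) e) : SG Fr b ζ₀ k e r (e - f) (-s) where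
  good := h.good.compl
  sign := by rcases h.sign with h | h <;> simp [h]
  tr := by
    have h1 := isInt_sub (Fr.V e h.good.loc.mem) h.tr
    have h2 : Fr.τ e - (Fr.τ f - (s : K) / algebraMap W K Fr.π)
        = Fr.τ (e - f) - ((-s : ℤ) : K) / algebraMap W K Fr.π := by
      rw [map_sub]; push_cast; ring
    rwa [h2] at h1
  dim := by
    intro ζ hζ
    have key : ∀ c : A, (dimD K c e : ℤ) = dimD K c f + dimD K c (e - f) := by
      intro c
      have := dimD_add (K := K) c h.good.idem h.good.compl.idem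
        (by rw [mul_sub, h.good.fe, h.good.idem, sub_self])
        (by rw [sub_mul, h.good.ef, h.good.idem, sub_self])
      rw [show f + (e - f) = e by abel] at this
      exact_mod_cast this
    have h1 := key (b ζ₀)
    have h2 := key (b ζ)
    have h3 := hM ζ
    have h4 := h.dim ζ hζ
    have h5 : (dimD K (b ζ) e : ℤ) = dimD K (b ζ₀) e := by exact_mod_cast h3
    linarith

/-- the sign data is carried along an equivalence -/
theorem SG.of_equi {e f e' f' : A} {r r' : Submodule W A} {s : ℤ}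
    (h : SG Fr b ζ₀ k e r f s) (hg : Good Fr e' r' f') (he : Equi f f') :
    SG Fr b ζ₀ k e' r' f' s where
  good := hg
  sign := h.sign
  tr := by
    obtain ⟨a, l, -, -, -, -, hla, hal⟩ := he
    have : Fr.τ f' = Fr.τ f := by rw [← hal, ← hla, Fr.symm]
    rw [this]
    exact h.tr
  dim := by
    intro ζ hζ
    rw [← dimD_equi _ he, ← dimD_equi _ he]
    exact h.dim ζ hζ

/-- propagation of the sign data -/
theorem SG.propagate [FiniteDimensional K A] (hEL : ELProp Fr) {e f e' : A}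
    {r r' : Submodule W A} {s : ℤ} (h : SG Fr b ζ₀ k e r f s)
    (hM : ∀ ζ, dimD K (b ζ) e = dimD K (b ζ₀) e) (hL : Loc Fr e' r') {x : A}
    (hx : e * x * e' ≠ 0) : ∃ (f' : A) (s' : ℤ), SG Fr b ζ₀ k e' r' f' s' := by
  by_cases h1 : f * x * e' = 0
  · have h2 : (e - f) * x * e' ≠ 0 := by
      intro h3
      apply hx
      have : e * x * e' = f * x * e' + (e - f) * x * e' := by noncomm_ring
      rw [this, h1, h3, add_zero]
    obtain ⟨z, hz⟩ := Fr.exists_vertex (e - f)
    have h3 : z * e' ≠ 0 := fun h0 => h2 ((hz.mul_eq_zero_iff' e').2 h0 x)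
    obtain ⟨hG, hE⟩ := hEL e (e - f) z e' r r' h.good.compl hz hL h3
    exact ⟨_, _, (h.compl hM).of_equi hG hE⟩
  · obtain ⟨z, hz⟩ := Fr.exists_vertex f
    have h3 : z * e' ≠ 0 := fun h0 => h1 ((hz.mul_eq_zero_iff' e').2 h0 x)
    obtain ⟨hG, hE⟩ := hEL e f z e' r r' h.good hz hL h3
    exact ⟨_, _, h.of_equi hG hE⟩

end signs

/-- the result of section 6 -/
structure Blocks (Fr : Frame W K A) {Z : Type*} (b : Z → A) (ζ₀ : Z) (k : ℕ) (δ f₀ eV : A)
    (ZZ : Finset A) : Prop where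
  mem : eV ∈ Fr.O
  idem : eV * eV = eV
  central : ∀ x, eV * x = x * eV
  eδ : eV * δ = δ
  vert : ∀ z ∈ ZZ, ∃ (e : A) (r : Submodule W A) (f : A) (s : ℤ),
    SG Fr b ζ₀ k e r f s ∧ Vertex z f
  orth : ∀ z ∈ ZZ, ∀ z' ∈ ZZ, z ≠ z' → z * z' = 0
  sum : ∑ z ∈ ZZ, z = eV
  triv : ∀ z, Vertex z f₀ → z ∈ ZZ
  exc : ∀ z, Vertex z (δ - f₀) → z ∈ ZZ
  other : ∀ zt zE, Vertex zt f₀ → Vertex zE (δ - f₀) → ∀ z ∈ ZZ, z ≠ zt → z ≠ zE → z * δ = 0

theorem exists_blocks (Fr : Frame W K A) [FiniteDimensional K A] (hEL : ELProp Fr)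
    (hCF : ∀ (e f : A) (r : Submodule W A), Good Fr e r f → CornerField f)
    {Z : Type*} (b : Z → A) (ζ₀ : Z) (k : ℕ)
    (hM : ∀ (e : A) (r : Submodule W A), Loc Fr e r → ∀ ζ, dimD K (b ζ) e = dimD K (b ζ₀) e)
    {ι : Type*} [Fintype ι] (e : ι → A) (r : ι → Submodule W A) (hloc : ∀ i, Loc Fr (e i) (r i))
    (horth : ∀ i j, i ≠ j → e i * e j = 0) (hsum : ∑ i, e i = 1)
    {δ f₀ : A} {rδ : Submodule W A} {s₀ : ℤ} (hδ : SG Fr b ζ₀ k δ rδ f₀ s₀) :
    ∃ (eV : A) (ZZ : Finset A), Blocks Fr b ζ₀ k δ f₀ eV ZZ := by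
  classical
  set V : Finset ι := Finset.univ.filter
    fun i => ∃ (f : A) (s : ℤ), SG Fr b ζ₀ k (e i) (r i) f s with hV
  have hVm : ∀ i, i ∈ V ↔ ∃ (f : A) (s : ℤ), SG Fr b ζ₀ k (e i) (r i) f s := by
    intro i; simp [hV]
  have hidem : ∀ i, e i * e i = e i := fun i => (hloc i).idem
  -- vanishing between `V` and its complement
  have hz1 : ∀ i ∈ V, ∀ j, j ∉ V → ∀ x, e i * x * e j = 0 := by
    intro i hi j hj x
    by_contra hne
    obtain ⟨f, s, hf⟩ := (hVm i).1 hi
    exact hj ((hVm j).2 (hf.propagate hEL (hM _ _ (hloc i)) (hloc j) hne))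
  have hz2 : ∀ i ∈ V, ∀ j, j ∉ V → ∀ x, e j * x * e i = 0 := fun i hi j hj x =>
    Fr.corner_zero_symm (hz1 i hi j hj) x
  have hzδ : ∀ j, j ∉ V → ∀ x, δ * x * e j = 0 := by
    intro j hj x
    by_contra hne
    exact hj ((hVm j).2 (hδ.propagate hEL (hM _ _ hδ.good.loc) (hloc j) hne))
  set eV : A := ∑ i ∈ V, e i with heV
  have hcompl : (1 : A) - eV = ∑ j ∈ Vᶜ, e j := by
    rw [← hsum, heV, ← Finset.sum_add_sum_compl V]
    abel
  have hVi : ∀ i ∈ V, eV * e i = e i ∧ e i * eV = e i := by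
    intro i hi
    constructor
    · rw [heV, Finset.sum_mul, Finset.sum_eq_single i (fun j _ hj => horth j i hj)
        (fun h => absurd hi h), hidem]
    · rw [heV, Finset.mul_sum, Finset.sum_eq_single i (fun j _ hj => horth i j hj.symm)
        (fun h => absurd hi h), hidem]
  have hcorner1 : ∀ x, eV * x * (1 - eV) = 0 := by
    intro x
    rw [hcompl, heV, Finset.sum_mul, Finset.mul_sum]
    refine Finset.sum_eq_zero fun j hj => ?_
    rw [Finset.sum_mul]
    exact Finset.sum_eq_zero fun i hi => hz1 i hi j (Finset.mem_compl.1 hj) x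
  have hcorner2 : ∀ x, (1 - eV) * x * eV = 0 := by
    intro x
    rw [hcompl, heV, Finset.sum_mul, Finset.mul_sum]
    refine Finset.sum_eq_zero fun i hi => ?_
    rw [Finset.sum_mul]
    exact Finset.sum_eq_zero fun j hj => hz2 i hi j (Finset.mem_compl.1 hj) x
  have hcentral : ∀ x, eV * x = x * eV := by
    intro x
    have h1 := hcorner1 x
    have h2 := hcorner2 x
    rw [mul_sub, mul_one, sub_eq_zero] at h1
    rw [sub_mul, one_mul, sub_mul, sub_eq_zero] at h2
    rw [h1, h2]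
  have hVidem : eV * eV = eV := by
    conv_lhs => rw [heV]
    rw [← heV, Finset.sum_mul]
    exact Finset.sum_congr rfl fun i hi => (hVi i hi).2
  have hδe : δ * eV = δ := by
    have : δ * (1 - eV) = 0 := by
      rw [hcompl, Finset.mul_sum]
      refine Finset.sum_eq_zero fun j hj => ?_
      have := hzδ j (Finset.mem_compl.1 hj) 1
      rwa [mul_one] at this
    rw [mul_sub, mul_one, sub_eq_zero] at this
    exact this.symm
  have heδ : eV * δ = δ := by rw [hcentral, hδe]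
  -- the choice of the good idempotents and of their vertices
  have hch : ∀ i : ι, ∃ (f : A) (s : ℤ), i ∈ V → SG Fr b ζ₀ k (e i) (r i) f s := by
    intro i
    by_cases hi : i ∈ V
    · obtain ⟨f, s, h⟩ := (hVm i).1 hi
      exact ⟨f, s, fun _ => h⟩
    · exact ⟨0, 0, fun h => absurd h hi⟩
  choose f s hf using hch
  have hvx : ∀ g : A, ∃ z, Vertex z g := fun g => Fr.exists_vertex g
  choose vx hvx using hvx
  set ZZ : Finset A := (V.image fun i => vx (f i)) ∪ (V.image fun i => vx (e i - f i)) with hZZ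
  have hmem : ∀ z, z ∈ ZZ ↔ ∃ i ∈ V, z = vx (f i) ∨ z = vx (e i - f i) := by
    intro z
    simp only [hZZ, Finset.mem_union, Finset.mem_image]
    constructor
    · rintro (⟨i, hi, rfl⟩ | ⟨i, hi, rfl⟩)
      · exact ⟨i, hi, Or.inl rfl⟩
      · exact ⟨i, hi, Or.inr rfl⟩
    · rintro ⟨i, hi, rfl | rfl⟩
      · exact Or.inl ⟨i, hi, rfl⟩
      · exact Or.inr ⟨i, hi, rfl⟩
  have hvert : ∀ z ∈ ZZ, ∃ i ∈ V, ∃ (g : A) (t : ℤ),
      SG Fr b ζ₀ k (e i) (r i) g t ∧ Vertex z g := by
    intro z hz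
    obtain ⟨i, hi, rfl | rfl⟩ := (hmem z).1 hz
    · exact ⟨i, hi, f i, s i, hf i hi, hvx _⟩
    · exact ⟨i, hi, e i - f i, -s i, (hf i hi).compl (hM _ _ (hloc i)), hvx _⟩
  have hdich : ∀ z₁ z₂ g₁ g₂ e₁ e₂ r₁ r₂, Good Fr e₁ r₁ g₁ → Good Fr e₂ r₂ g₂ → Vertex z₁ g₁ →
      Vertex z₂ g₂ → z₁ = z₂ ∨ z₁ * z₂ = 0 := by
    intro z₁ z₂ g₁ g₂ e₁ e₂ r₁ r₂ h1 h2 h3 h4
    exact h3.eq_or_mul_eq_zero h4 h1.idem h2.idem (hCF _ _ _ h1) (hCF _ _ _ h2)
  have hdichZ : ∀ z ∈ ZZ, ∀ z₂ g₂ e₂ r₂, Good Fr e₂ r₂ g₂ → Vertex z₂ g₂ →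
      z = z₂ ∨ z * z₂ = 0 := by
    intro z hz z₂ g₂ e₂ r₂ h2 h4
    obtain ⟨i, hi, g, t, hg, hzg⟩ := hvert z hz
    exact hdich _ _ _ _ _ _ _ _ hg.good h2 hzg h4
  have horthZ : ∀ z ∈ ZZ, ∀ z' ∈ ZZ, z ≠ z' → z * z' = 0 := by
    intro z hz z' hz' hne
    obtain ⟨i, hi, g, t, hg, hzg⟩ := hvert z' hz'
    exact (hdichZ z hz z' g _ _ hg.good hzg).resolve_left hne
  -- the sum of the vertices
  have hsumZ : ∑ z ∈ ZZ, z = eV := by
    have h1 : ∀ i ∈ V, (∑ z ∈ ZZ, z) * e i = e i := by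
      intro i hi
      have hg := (hf i hi).good
      have hz1 : vx (f i) * e i = f i := hg.vertex_mul Fr (hvx _)
      have hz2 : vx (e i - f i) * e i = e i - f i := (hg.compl).vertex_mul Fr (hvx _)
      have hm1 : vx (f i) ∈ ZZ := (hmem _).2 ⟨i, hi, Or.inl rfl⟩
      have hm2 : vx (e i - f i) ∈ ZZ := (hmem _).2 ⟨i, hi, Or.inr rfl⟩
      have hne : vx (f i) ≠ vx (e i - f i) := by
        intro h
        have h3 : f i = e i - f i := hz1.symm.trans ((congrArg (· * e i) h).trans hz2)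
        apply hg.ne_zero Fr
        calc f i = f i * f i := hg.idem.symm
          _ = f i * (e i - f i) := by rw [← h3]
          _ = 0 := by rw [mul_sub, hg.fe, hg.idem, sub_self]
      rw [Finset.sum_mul]
      have hpair : ({vx (f i), vx (e i - f i)} : Finset A) ⊆ ZZ := by
        intro z hz
        simp only [Finset.mem_insert, Finset.mem_singleton] at hz
        rcases hz with rfl | rfl
        · exact hm1
        · exact hm2
      rw [← Finset.sum_subset hpair, Finset.sum_pair hne, hz1, hz2]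
      · abel
      · intro z hz hnz
        simp only [Finset.mem_insert, Finset.mem_singleton, not_or] at hnz
        have h4 := horthZ z hz _ hm1 hnz.1
        have h5 := horthZ z hz _ hm2 hnz.2
        have h6 : e i = vx (f i) * e i + vx (e i - f i) * e i := by rw [hz1, hz2]; abel
        rw [h6, mul_add, ← mul_assoc, ← mul_assoc, h4, h5, zero_mul, add_zero]
    have h2 : ∀ j, j ∉ V → (∑ z ∈ ZZ, z) * e j = 0 := by
      intro j hj
      rw [Finset.sum_mul]
      refine Finset.sum_eq_zero fun z hz => ?_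
      obtain ⟨i, hi, g, t, hg, hzg⟩ := hvert z hz
      refine hzg.mul_eq_zero' fun x => ?_
      rw [← hg.good.fe, mul_assoc g, mul_assoc g, hz1 i hi j hj x, mul_zero]
    calc ∑ z ∈ ZZ, z = (∑ z ∈ ZZ, z) * ∑ i, e i := by rw [hsum, mul_one]
      _ = ∑ i, (∑ z ∈ ZZ, z) * e i := by rw [Finset.mul_sum]
      _ = ∑ i ∈ V, (∑ z ∈ ZZ, z) * e i := by
        rw [← Finset.sum_add_sum_compl V, Finset.sum_eq_zero (s := Vᶜ), add_zero]
        intro j hj
        exact h2 j (Finset.mem_compl.1 hj)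
      _ = eV := Finset.sum_congr rfl h1
  -- a vertex of a good corner of `δ` is in `ZZ`
  have hin : ∀ g z : A, Good Fr δ rδ g → Vertex z g → z ∈ ZZ := by
    intro g z hg hz
    by_contra hcon
    have h1 : ∀ z' ∈ ZZ, z * z' = 0 := by
      intro z' hz'
      rcases hdichZ z' hz' z g _ _ hg hz with h | h
      · exact absurd (h ▸ hz') hcon
      · rw [hz.central, h]
    have h2 : z * eV = 0 := by
      rw [← hsumZ, Finset.mul_sum]
      exact Finset.sum_eq_zero h1
    have h3 : z * δ = g := hg.vertex_mul Fr hz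
    apply hg.ne_zero Fr
    rw [← h3, ← heδ, ← mul_assoc, h2, zero_mul]
  refine ⟨eV, ZZ, ?_, hVidem, hcentral, heδ, ?_, horthZ, hsumZ, ?_, ?_, ?_⟩
  · exact Fr.O.sum_mem fun i _ => (hloc i).mem
  · intro z hz
    obtain ⟨i, hi, g, t, hg, hzg⟩ := hvert z hz
    exact ⟨_, _, g, t, hg, hzg⟩
  · intro z hz
    exact hin f₀ z hδ.good hz
  · intro z hz
    exact hin _ z hδ.good.compl hz
  · intro zt zE hzt hzE z hz h1 h2
    have h3 := horthZ z hz zt (hin _ _ hδ.good hzt) h1
    have h4 := horthZ z hz zE (hin _ _ hδ.good.compl hzE) h2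
    have h5 : zt * δ = f₀ := hδ.good.vertex_mul Fr hzt
    have h6 : zE * δ = δ - f₀ := (hδ.good.compl).vertex_mul Fr hzE
    have h7 : δ = zt * δ + zE * δ := by rw [h5, h6]; abel
    rw [h7, mul_add, ← mul_assoc, ← mul_assoc, h3, h4, zero_mul, add_zero]

end PD
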