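import Pool.Agent.Lib.MP_369ee2_lc_PD.Ord6

/-!
# Section 8: the rank of a rational idempotent divides the product of the class sizes
-/

set_option linter.unusedSectionVars false
set_option linter.unusedVariables false

namespace PD

section rational

variable {K A : Type*} [Field K] [Ring A] [Algebra K A]

/-- left multiplication by `x` on `A f` -/
def lmul (K : Type*) {A : Type*} [Field K] [Ring A] [Algebra K A] (f x : A) :
    corLR K (1 : A) f →ₗ[K] corLR K (1 : A) f where
  toFun y := ⟨x * y.1, one_mul _, by rw [mul_assoc, y.2.2]⟩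
  map_add' y z := by ext; simp [mul_add]
  map_smul' c y := by ext; simp

theorem lmul_coe (f x : A) (y : corLR K (1 : A) f) : ((lmul K f x y : corLR K (1 : A) f) : A)
    = x * y.1 := rfl

/-- a form represents all functionals -/
theorem exists_repr_of_form [FiniteDimensional K A] (T : A →ₗ[K] K)
    (nondeg : ∀ x, (∀ y, T (x * y) = 0) → x = 0) (φ : A →ₗ[K] K) :
    ∃ ξ : A, ∀ x, φ x = T (ξ * x) := by
  let B : A →ₗ[K] Module.Dual K A :=
    { toFun := fun ξ => T ∘ₗ (LinearMap.mulLeft K ξ)
      map_add' := by intro a b; ext x; simp [add_mul]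
      map_smul' := by intro a b; ext x; simp }
  have hinj : Function.Injective B := by
    rw [← LinearMap.ker_eq_bot, LinearMap.ker_eq_bot']
    intro ξ h
    apply nondeg
    intro z
    have := congrArg (fun g => g z) h
    simpa [B] using this
  have hfr : Module.finrank K A = Module.finrank K (Module.Dual K A) :=
    (Subspace.dual_finrank_eq).symm
  have hsurj : Function.Surjective B :=
    (LinearMap.injective_iff_surjective_of_finrank_eq_finrank hfr).1 hinj
  obtain ⟨ξ, hξ⟩ := hsurj φ
  refine ⟨ξ, fun x => ?_⟩
  rw [← hξ]
  simp [B]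

/-- the dual basis of `f A` -/
theorem exists_dual [FiniteDimensional K A] (T : A →ₗ[K] K) (symm : ∀ x y, T (x * y) = T (y * x))
    (nondeg : ∀ x, (∀ y, T (x * y) = 0) → x = 0) {f : A} (hf : f * f = f)
    (hk : ∀ x, f * x = x → x * f = x → ∃ c : K, x = c • f) (hT : T f ≠ 0)
    {J : Type*} [Fintype J] [DecidableEq J] (β : Module.Basis J K (corLR K (1 : A) f)) :
    ∃ l : J → A, (∀ j, f * l j = l j) ∧
      (∀ i j, l i * (β j : A) = if i = j then f else 0) := by
  have key : ∀ i : J, ∃ l : A, f * l = l ∧ ∀ j, l * (β j : A) = if i = j then f else 0 := by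
    intro i
    let R : A →ₗ[K] corLR K (1 : A) f :=
      { toFun := fun x => ⟨x * f, one_mul _, by rw [mul_assoc, hf]⟩
        map_add' := by intro x y; ext; simp [add_mul]
        map_smul' := by intro c x; ext; simp }
    let φ : A →ₗ[K] K := (β.coord i) ∘ₗ R
    obtain ⟨ξ, hξ⟩ := exists_repr_of_form T nondeg φ
    refine ⟨T f • (f * ξ), ?_, ?_⟩
    · rw [mul_smul_comm, ← mul_assoc, hf]
    · intro j
      obtain ⟨h1, h2⟩ := (β j).2
      have hR : R (β j : A) = β j := by
        ext
        exact h2
      have hφ : φ (β j : A) = if i = j then 1 else 0 := by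
        change β.coord i (R (β j : A)) = _
        rw [hR, Module.Basis.coord_apply, Module.Basis.repr_self, Finsupp.single_apply]
        simp [eq_comm]
      obtain ⟨c, hc⟩ := hk (f * ξ * (β j : A)) (by rw [← mul_assoc, ← mul_assoc, hf])
        (by rw [mul_assoc, h2])
      have h3 : T (f * ξ * (β j : A)) = if i = j then 1 else 0 := by
        rw [← hφ, hξ, mul_assoc, symm f, mul_assoc, h2]
      rw [hc, map_smul, smul_eq_mul] at h3
      rw [smul_mul_assoc, hc, smul_smul, mul_comm, h3]
      split_ifs <;> simp
  choose l hl1 hl2 using key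
  exact ⟨l, hl1, hl2⟩

theorem vertex_eq_sum {f z : A} (hz : Vertex z f)
    {J : Type*} [Fintype J] [DecidableEq J] (β : Module.Basis J K (corLR K (1 : A) f))
    (hf : f * f = f) (l : J → A) (hl : ∀ j, f * l j = l j)
    (hlb : ∀ i j, l i * (β j : A) = if i = j then f else 0) :
    z = ∑ j, (β j : A) * l j := by
  set z' : A := ∑ j, (β j : A) * l j with hz'
  -- `z'` acts as the identity on `A f`
  have h1 : ∀ y : A, y * f = y → z' * y = y := by
    intro y hy
    have h2 : y = ∑ j, β.repr ⟨y, one_mul _, hy⟩ j • (β j : A) := by
      have h3 := congrArg (fun t : corLR K (1 : A) f => (t : A))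
        (β.sum_repr (⟨y, one_mul _, hy⟩ : corLR K (1 : A) f))
      simp only [Submodule.coe_sum, Submodule.coe_smul] at h3
      exact h3.symm
    have h4 : ∀ j, z' * (β j : A) = β j := by
      intro j
      rw [hz', Finset.sum_mul, Finset.sum_eq_single j]
      · rw [mul_assoc, hlb, if_pos rfl, (β j).2.2]
      · intro i _ hi
        rw [mul_assoc, hlb, if_neg hi, mul_zero]
      · intro h
        exact absurd (Finset.mem_univ j) h
    conv_lhs => rw [h2]
    rw [Finset.mul_sum]
    conv_rhs => rw [h2]
    refine Finset.sum_congr rfl fun j _ => ?_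
    rw [mul_smul_comm, h4]
  have h5 : z' * z = z := by
    have : ∀ x ∈ Submodule.span ℤ {x : A | ∃ a b, x = a * f * b}, z' * x = x := by
      intro x hx
      induction hx using Submodule.span_induction with
      | mem x h =>
        obtain ⟨a, b, rfl⟩ := h
        rw [← mul_assoc, h1 (a * f) (by rw [mul_assoc, hf])]
      | zero => rw [mul_zero]
      | add x y _ _ hx hy => rw [mul_add, hx, hy]
      | smul c x _ hx => rw [mul_smul_comm, hx]
    exact this z hz.mem
  have h6 : z * z' = z' := by
    rw [hz', Finset.mul_sum]
    refine Finset.sum_congr rfl fun j _ => ?_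
    rw [← hl j, ← mul_assoc, ← mul_assoc, hz.central, mul_assoc (β j : A) z, hz.zf, mul_assoc]
  rw [← h5, ← hz.central, h6]

/-- `T (z x) = T f * tr (L_x | A f)` -/
theorem trace_vertex [FiniteDimensional K A] (T : A →ₗ[K] K)
    (symm : ∀ x y, T (x * y) = T (y * x))
    (nondeg : ∀ x, (∀ y, T (x * y) = 0) → x = 0) {f z : A} (hf : f * f = f)
    (hk : ∀ x, f * x = x → x * f = x → ∃ c : K, x = c • f) (hT : T f ≠ 0)
    (hz : Vertex z f) (x : A) :
    T (z * x) = T f * LinearMap.trace K _ (lmul K f x) := by
  classical
  let β := Module.finBasis K (corLR K (1 : A) f)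
  obtain ⟨l, hl, hlb⟩ := exists_dual T symm nondeg hf hk hT β
  have h1 := vertex_eq_sum hz β hf l hl hlb
  rw [LinearMap.trace_eq_matrix_trace K β, Matrix.trace, h1, Finset.sum_mul, map_sum,
    Finset.mul_sum]
  refine Finset.sum_congr rfl fun j _ => ?_
  rw [Matrix.diag_apply, LinearMap.toMatrix_apply]
  -- the coefficient of `β j` in `x β j`
  set c := β.repr (lmul K f x (β j)) with hc
  have h2 : x * (β j : A) = ∑ i, c i • (β i : A) := by
    have h3 := congrArg (fun t : corLR K (1 : A) f => (t : A)) (β.sum_repr (lmul K f x (β j)))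
    simp only [Submodule.coe_sum, Submodule.coe_smul, lmul_coe] at h3
    exact h3.symm
  rw [mul_assoc, symm, mul_assoc, h2, Finset.mul_sum, Finset.sum_eq_single j]
  · rw [mul_smul_comm, hlb, if_pos rfl, map_smul, smul_eq_mul, mul_comm]
  · intro i _ hi
    rw [mul_smul_comm, hlb, if_neg (Ne.symm hi), smul_zero]
  · intro h
    exact absurd (Finset.mem_univ j) h

end rational

section integrality

/-- the trace of an endomorphism killed by a monic integral polynomial is integral -/
theorem isIntegral_trace_of_aeval {K V : Type*} [Field K] [AddCommGroup V] [Module K V]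
    [FiniteDimensional K V] (L : Module.End K V) (g : Polynomial ℤ) (hg : g.Monic)
    (h : Polynomial.aeval L g = 0) : IsIntegral ℤ (LinearMap.trace K V L) := by
  classical
  by_cases hn : Nonempty (Fin (Module.finrank K V))
  swap
  · have h0 : Module.finrank K V = 0 := by
      by_contra h0
      exact hn ⟨⟨0, Nat.pos_of_ne_zero h0⟩⟩
    have : LinearMap.trace K V L = 0 := by
      have := Module.finrank_zero_iff.1 h0
      rw [Subsingleton.elim L 0, map_zero]
    rw [this]
    exact isIntegral_zero
  let b := Module.finBasis K V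
  let M := LinearMap.toMatrix b b L
  have htr : LinearMap.trace K V L = -M.charpoly.coeff (Fintype.card (Fin (Module.finrank K V)) - 1)
      := by
    rw [LinearMap.trace_eq_matrix_trace K b, Matrix.trace_eq_neg_charpoly_coeff]
  rw [htr]
  refine IsIntegral.neg ?_
  have hM : Polynomial.aeval M g = 0 := by
    have h1 := congrArg (LinearMap.toMatrixAlgEquiv b) h
    rw [map_zero] at h1
    have h2 : Polynomial.aeval (LinearMap.toMatrixAlgEquiv b L) g
        = LinearMap.toMatrixAlgEquiv b (Polynomial.aeval L g) := by
      exact Polynomial.aeval_algHom_apply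
        ((LinearMap.toMatrixAlgEquiv b).toAlgHom.restrictScalars ℤ) L g
    rw [← h2] at h1
    exact h1
  set E := AlgebraicClosure K
  let φ : K →+* E := algebraMap K E
  have hinj : Function.Injective φ := φ.injective
  -- it is enough to prove integrality in the algebraic closure
  have key : ∀ i, IsIntegral ℤ ((M.charpoly.map φ).coeff i) := by
    intro i
    refine Polynomial.isIntegral_coeff_of_factors _ ?_ (IsAlgClosed.splits _) ?_ i
    · rw [(M.charpoly_monic.map φ).leadingCoeff]
      exact isIntegral_one
    · intro x hx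
      refine ⟨g, hg, ?_⟩
      rw [← Matrix.charpoly_map] at hx
      -- an eigenvector
      have hdet : (Matrix.scalar _ x - M.map φ).det = 0 := by
        rw [← Matrix.eval_charpoly]
        exact hx
      obtain ⟨v, hv0, hv⟩ := Matrix.exists_mulVec_eq_zero_iff.2 hdet
      have hv' : (M.map φ).mulVec v = x • v := by
        rw [Matrix.sub_mulVec, sub_eq_zero] at hv
        rw [← hv]
        ext i
        simp [Matrix.scalar_apply, Matrix.mulVec_diagonal]
      have hMφ : Polynomial.aeval (M.map φ) g = 0 := by
        have h1 : Polynomial.aeval ((φ.mapMatrix).toIntAlgHom M) g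
            = (φ.mapMatrix).toIntAlgHom (Polynomial.aeval M g) :=
          Polynomial.aeval_algHom_apply _ _ _
        rw [hM, map_zero] at h1
        exact h1
      have hpow : ∀ n : ℕ, ((M.map φ) ^ n).mulVec v = x ^ n • v := by
        intro n
        induction n with
        | zero => simp
        | succ n ih =>
          rw [pow_succ', ← Matrix.mulVec_mulVec, ih, Matrix.mulVec_smul, hv', smul_smul, pow_succ]
      have haev : (Polynomial.aeval (M.map φ) g).mulVec v = (Polynomial.aeval x g) • v := by
        rw [Polynomial.aeval_eq_sum_range, Polynomial.aeval_eq_sum_range, Matrix.sum_mulVec,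
          Finset.sum_smul]
        refine Finset.sum_congr rfl fun n _ => ?_
        rw [Matrix.smul_mulVec, hpow, smul_assoc]
      rw [hMφ, Matrix.zero_mulVec] at haev
      have := smul_eq_zero.1 haev.symm
      rcases this with h1 | h1
      · rw [← Polynomial.aeval_def]
        exact h1
      · exact absurd h1 hv0
  have h2 := key (Fintype.card (Fin (Module.finrank K V)) - 1)
  rw [Polynomial.coeff_map] at h2
  exact (isIntegral_algHom_iff (IsScalarTower.toAlgHom ℤ K E) hinj).1 h2

/-- the rank of a rational idempotent divides every common multiple of the class sizes -/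
theorem rank_dvd {K A : Type*} [Field K] [CharZero K] [Ring A] [Algebra K A]
    {I : Type*} [Fintype I] [DecidableEq I] (a : Module.Basis I K A) (tp : I → I) (n : I → ℕ)
    (hn : ∀ i, n i ≠ 0) (T : A →ₗ[K] K) (symm : ∀ x y, T (x * y) = T (y * x))
    (hT : ∀ i j, T (a i * a (tp j)) = if i = j then (n i : K) else 0)
    (mul : ∀ i j, a i * a j ∈ Submodule.span ℤ (Set.range a))
    (one : (1 : A) ∈ Submodule.span ℤ (Set.range a))
    {f z : A} (hf : f * f = f) (hk : ∀ x, f * x = x → x * f = x → ∃ c : K, x = c • f)
    (hz : Vertex z f) {M : ℕ} (hM : T f = M) (hM0 : M ≠ 0) {N : ℕ} (hN : ∀ i, n i ∣ N) :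
    M ∣ N := by
  classical
  haveI : FiniteDimensional K A := Module.Basis.finiteDimensional_of_finite a
  have hMK : (M : K) ≠ 0 := by exact_mod_cast hM0
  have hnK : ∀ i, (n i : K) ≠ 0 := fun i => by exact_mod_cast hn i
  have hTa : ∀ x i, T (x * a (tp i)) = a.repr x i * n i := by
    intro x i
    conv_lhs => rw [← a.sum_repr x]
    rw [Finset.sum_mul, map_sum, Finset.sum_eq_single i]
    · rw [smul_mul_assoc, map_smul, hT, if_pos rfl, smul_eq_mul]
    · intro j _ hj
      rw [smul_mul_assoc, map_smul, hT, if_neg hj, smul_zero]
    · intro h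
      exact absurd (Finset.mem_univ i) h
  have nondeg : ∀ x, (∀ y, T (x * y) = 0) → x = 0 := by
    intro x hx
    apply a.repr.map_eq_zero_iff.1
    ext i
    have := hTa x i
    rw [hx, eq_comm, mul_eq_zero] at this
    simpa [hnK i] using this
  -- the order spanned by the class matrices
  have hspan : ∀ x ∈ Submodule.span ℤ (Set.range a), ∀ y ∈ Submodule.span ℤ (Set.range a),
      x * y ∈ Submodule.span ℤ (Set.range a) := by
    intro x hx y hy
    induction hx using Submodule.span_induction with
    | mem x h =>
      obtain ⟨i, rfl⟩ := h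
      induction hy using Submodule.span_induction with
      | mem y h =>
        obtain ⟨j, rfl⟩ := h
        exact mul i j
      | zero => rw [mul_zero]; exact Submodule.zero_mem _
      | add u v _ _ hu hv => rw [mul_add]; exact Submodule.add_mem _ hu hv
      | smul c u _ hu => rw [mul_smul_comm]; exact Submodule.smul_mem _ _ hu
    | zero => rw [zero_mul]; exact Submodule.zero_mem _
    | add u v _ _ hu hv => rw [add_mul]; exact Submodule.add_mem _ hu hv
    | smul c u _ hu => rw [smul_mul_assoc]; exact Submodule.smul_mem _ _ hu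
  let S : Subalgebra ℤ A :=
    { carrier := Submodule.span ℤ (Set.range a)
      mul_mem' := fun hx hy => hspan _ hx _ hy
      add_mem' := fun hx hy => Submodule.add_mem _ hx hy
      algebraMap_mem' := by
        intro c
        rw [Algebra.algebraMap_eq_smul_one]
        exact Submodule.smul_mem _ _ one }
  have hSfg : (Subalgebra.toSubmodule S).FG := by
    have : Subalgebra.toSubmodule S = Submodule.span ℤ (Set.range a) := by
      ext; rfl
    rw [this]
    exact Submodule.fg_span (Set.finite_range a)
  have haint : ∀ i, IsIntegral ℤ (a i) := fun i =>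
    IsIntegral.of_mem_of_fg S hSfg _ (Submodule.subset_span ⟨i, rfl⟩)
  -- the characters are integral
  set χ : A → K := fun x => LinearMap.trace K _ (lmul K f x) with hχ
  have hχint : ∀ i, IsIntegral ℤ (χ (a i)) := by
    intro i
    obtain ⟨g, hg, hg0⟩ := haint i
    refine isIntegral_trace_of_aeval _ g hg ?_
    have hg0' : Polynomial.aeval (a i) g = 0 := hg0
    -- `lmul` is a ring homomorphism
    have hpow : ∀ m : ℕ, ∀ y : corLR K (1 : A) f,
        (((lmul K f (a i)) ^ m : Module.End K (corLR K (1 : A) f)) y : A) = a i ^ m * y.1 := by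
      intro m
      induction m with
      | zero => intro y; simp
      | succ m ih =>
        intro y
        rw [pow_succ', Module.End.mul_apply, lmul_coe, ih, pow_succ', mul_assoc]
    ext y
    rw [Polynomial.aeval_eq_sum_range, LinearMap.sum_apply, Submodule.coe_sum]
    have : ∀ m, (((g.coeff m • (lmul K f (a i)) ^ m : Module.End K (corLR K (1 : A) f)) y
        : corLR K (1 : A) f) : A) = (g.coeff m • a i ^ m) * y.1 := by
      intro m
      rw [LinearMap.smul_apply]
      change g.coeff m • ((((lmul K f (a i)) ^ m : Module.End K (corLR K (1 : A) f)) y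
        : corLR K (1 : A) f) : A) = _
      rw [hpow, smul_mul_assoc]
    rw [Finset.sum_congr rfl fun m _ => this m, ← Finset.sum_mul,
      ← Polynomial.aeval_eq_sum_range, hg0', zero_mul]
    rfl
  -- the coefficients of `z`
  have hTf : T f ≠ 0 := by rw [hM]; exact hMK
  have hzc : ∀ i, a.repr z i * n i = M * χ (a (tp i)) := by
    intro i
    rw [← hTa, trace_vertex T symm nondeg hf hk hTf hz, hM]
  -- the multiple of `z` with integral coefficients
  set R := integralClosure ℤ K with hR
  have hcoef : ∀ i, ((N : K) / M) * a.repr z i ∈ R := by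
    intro i
    obtain ⟨t, ht⟩ := hN i
    have h1 : ((N : K) / M) * a.repr z i = t * χ (a (tp i)) := by
      have h2 := hzc i
      have h3 : a.repr z i = M * χ (a (tp i)) / n i := by
        rw [eq_div_iff (hnK i), h2]
      rw [h3, ht]
      push_cast
      field_simp [hnK i, hMK]
    rw [h1]
    exact R.mul_mem (natCast_mem R t) (hχint _)
  have hz0 : z ≠ 0 := by
    refine hz.ne_zero ?_
    rintro rfl
    exact hTf (map_zero _)
  -- the `R`-order
  have hfin : IsIntegral R ((N : K) / M) := by
    have hspanR : ∀ x ∈ Submodule.span R (Set.range a), ∀ y ∈ Submodule.span R (Set.range a),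
        x * y ∈ Submodule.span R (Set.range a) := by
      intro x hx y hy
      induction hx using Submodule.span_induction with
      | mem x h =>
        obtain ⟨i, rfl⟩ := h
        induction hy using Submodule.span_induction with
        | mem y h =>
          obtain ⟨j, rfl⟩ := h
          exact Submodule.span_subset_span ℤ R _ (mul i j)
        | zero => rw [mul_zero]; exact Submodule.zero_mem _
        | add u v _ _ hu hv => rw [mul_add]; exact Submodule.add_mem _ hu hv
        | smul c u _ hu => rw [mul_smul_comm]; exact Submodule.smul_mem _ _ hu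
      | zero => rw [zero_mul]; exact Submodule.zero_mem _
      | add u v _ _ hu hv => rw [add_mul]; exact Submodule.add_mem _ hu hv
      | smul c u _ hu => rw [smul_mul_assoc]; exact Submodule.smul_mem _ _ hu
    let SR : Subalgebra R A :=
      { carrier := Submodule.span R (Set.range a)
        mul_mem' := fun hx hy => hspanR _ hx _ hy
        add_mem' := fun hx hy => Submodule.add_mem _ hx hy
        algebraMap_mem' := by
          intro c
          rw [Algebra.algebraMap_eq_smul_one]
          exact Submodule.smul_mem _ _ (Submodule.span_subset_span ℤ R _ one) }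
    have hSRfg : (Subalgebra.toSubmodule SR).FG := by
      have : Subalgebra.toSubmodule SR = Submodule.span R (Set.range a) := by
        ext; rfl
      rw [this]
      exact Submodule.fg_span (Set.finite_range a)
    set y : A := ((N : K) / M) • z with hy
    have hyS : y ∈ SR := by
      change y ∈ Submodule.span R (Set.range a)
      rw [hy, ← a.sum_repr z, Finset.smul_sum]
      refine Submodule.sum_mem _ fun i _ => ?_
      rw [smul_smul]
      have : (((N : K) / M) * a.repr z i) • a i
          = (⟨((N : K) / M) * a.repr z i, hcoef i⟩ : R) • a i := rfl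
      rw [this]
      exact Submodule.smul_mem _ _ (Submodule.subset_span ⟨i, rfl⟩)
    obtain ⟨g, hg, hg0⟩ := IsIntegral.of_mem_of_fg SR hSRfg y hyS
    refine ⟨g, hg, ?_⟩
    have hyz : ∀ m : ℕ, y ^ m * z = ((N : K) / M) ^ m • z := by
      intro m
      induction m with
      | zero => simp
      | succ m ih =>
        rw [pow_succ', mul_assoc, ih, mul_smul_comm, hy, smul_mul_assoc, hz.idem, smul_smul,
          pow_succ]
    have h1 : Polynomial.aeval y g * z = (Polynomial.aeval ((N : K) / M) g) • z := by
      rw [Polynomial.aeval_eq_sum_range, Polynomial.aeval_eq_sum_range, Finset.sum_mul,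
        Finset.sum_smul]
      refine Finset.sum_congr rfl fun m _ => ?_
      rw [smul_mul_assoc, hyz, smul_assoc]
    have hg0' : Polynomial.aeval y g = 0 := hg0
    rw [hg0', zero_mul] at h1
    rcases smul_eq_zero.1 h1.symm with h2 | h2
    · exact h2
    · exact absurd h2 hz0
  have hint : IsIntegral ℤ ((N : K) / M) := by
    haveI : Algebra.IsIntegral ℤ R := inferInstance
    exact isIntegral_trans (R := ℤ) (A := R) _ hfin
  have hintQ : IsIntegral ℤ ((N : ℚ) / M) := by
    have h1 : ((N : K) / M) = algebraMap ℚ K ((N : ℚ) / M) := by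
      rw [map_div₀, map_natCast, map_natCast]
    rw [h1] at hint
    exact (isIntegral_algHom_iff (IsScalarTower.toAlgHom ℤ ℚ K)
      (algebraMap ℚ K).injective).1 hint
  obtain ⟨c, hc⟩ := IsIntegrallyClosed.isIntegral_iff.1 hintQ
  have hMQ : (M : ℚ) ≠ 0 := by exact_mod_cast hM0
  have h3 : (N : ℚ) = (M : ℚ) * (c : ℚ) := by
    have : (c : ℚ) = (N : ℚ) / M := by rw [← hc]; simp
    rw [this]
    field_simp
  have h4 : (N : ℤ) = (M : ℤ) * c := by exact_mod_cast h3
  exact Int.natCast_dvd_natCast.1 ⟨c, h4⟩

end integrality

end PD
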