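import Pool.Agent.Lib.MP_369ee2_lc_PD.OrdGood

/-!
# Section 2, (EL) steps (iv) and (v)
-/

namespace PD

set_option linter.unusedSectionVars false

variable {W K A : Type*} [CommRing W] [IsDomain W] [IsDiscreteValuationRing W] [Field K]
  [Algebra W K] [IsFractionRing W K] [Ring A] [Algebra K A] [Algebra W A] [IsScalarTower W K A]

section tools

variable {Fr : Frame W K A} {e : A} {r : Submodule W A}

theorem Loc.tau_int (hL : Loc Fr e r) : IsInt W (Fr.τ e) := Fr.V e hL.mem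

theorem Loc.ne_zero (hL : Loc Fr e r) : e ≠ 0 := by
  rintro rfl
  exact hL.ne r.zero_mem

theorem Loc.pi_tau (hL : Loc Fr e r) {x : A} (hx' : x * e = x)
    (h : ∀ m ∈ r, IsInt W (Fr.τ (x * m))) : IsInt W (Fr.π • Fr.τ x) := by
  have := h _ hL.pe
  rwa [mul_smul_comm, hx', Fr.tau_smul] at this

/-- (iv) -/
theorem Loc.int_comb (hL : Loc Fr e r) {x y : A} (hx : e * x = x) (hx' : x * e = x)
    (hy : e * y = y) (hy' : y * e = y) (hxr : ∀ m ∈ r, IsInt W (Fr.τ (x * m)))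
    (hyr : ∀ m ∈ r, IsInt W (Fr.τ (y * m))) (hxn : ¬ IsInt W (Fr.τ x)) :
    ∃ w : W, y - w • x ∈ Fr.O ∧ Fr.τ y = w • Fr.τ x := by
  obtain ⟨w, key⟩ := Fr.ratio hxn (hL.pi_tau hx' hxr) (hL.pi_tau hy' hyr)
  refine ⟨w, ?_, key⟩
  refine hL.mem_O ?_ ?_ ?_ ?_
  · rw [mul_sub, mul_smul_comm, hx, hy]
  · rw [sub_mul, smul_mul_assoc, hx', hy']
  · rw [map_sub, Fr.tau_smul, ← key, sub_self]
    exact IsInt.zero
  · intro m hm
    rw [sub_mul, smul_mul_assoc, map_sub, Fr.tau_smul]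
    exact (hyr m hm).sub ((hxr m hm).smul _)

end tools

/-- `f A f` is a division ring (elementwise) -/
def Fld (f : A) : Prop :=
  ∀ x : A, f * x = x → x * f = x → x ≠ 0 → ∃ y : A, f * y = y ∧ y * f = y ∧ y * x = f ∧ x * y = f

theorem Fld.eq_of_mul (f : A) (hf : f * f = f) (hF : Fld f) {a ν : A} (h1 : f * a = a)
    (h2 : a * f = a) (hν : f * ν = ν) (h : a * ν = ν) (h0 : ν ≠ 0) : a = f := by
  by_contra hne
  obtain ⟨y, -, -, hy, -⟩ := hF (a - f) (by rw [mul_sub, h1, hf]) (by rw [sub_mul, h2, hf])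
    (sub_ne_zero.2 hne)
  apply h0
  rw [← hν, ← hy, mul_assoc, sub_mul, h, hν, sub_self, mul_zero]

/-- (v), one term -/
theorem Frame.not_unit (Fr : Frame W K A) {e f : A} (he0 : e ≠ 0) (he : IsInt W (Fr.τ e))
    (hf : f * f = f) (hF : Fld f) (hfn : ¬ IsInt W (Fr.τ f)) {β ν : A} (hβ : β * f = β)
    (hν : f * ν = ν) (hν' : ν * e = ν) : β * ν ≠ e := by
  intro h
  have hν0 : ν ≠ 0 := by
    rintro rfl
    exact he0 (by rw [← h, mul_zero])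
  have h1 : ν * β * ν = ν := by rw [mul_assoc, h, hν']
  have h2 : ν * β = f := Fld.eq_of_mul f hf hF (by rw [← mul_assoc, hν])
    (by rw [mul_assoc, hβ]) hν h1 hν0
  exact hfn (by rw [← h2, Fr.symm, h]; exact he)

/-- (v), two terms -/
theorem Frame.not_unit₂ (Fr : Frame W K A) {e f : A} (he0 : e ≠ 0) (he : IsInt W (Fr.τ e))
    (hf : f * f = f) (hF : Fld f) (hfn : ¬ IsInt W (Fr.τ f)) {β₁ ν₁ β₂ ν₂ : A}
    (hβ₁ : β₁ * f = β₁) (hβ₂ : β₂ * f = β₂) (hν₁ : f * ν₁ = ν₁) (hν₁' : ν₁ * e = ν₁)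
    (hν₂ : f * ν₂ = ν₂) (hν₂' : ν₂ * e = ν₂) : β₁ * ν₁ + β₂ * ν₂ ≠ e := by
  intro h
  -- multiplication from the left
  have h1 : ν₁ * β₁ * ν₁ + ν₁ * β₂ * ν₂ = ν₁ := by
    rw [mul_assoc, mul_assoc, ← mul_add, h, hν₁']
  have h2 : ν₂ * β₁ * ν₁ + ν₂ * β₂ * ν₂ = ν₂ := by
    rw [mul_assoc, mul_assoc, ← mul_add, h, hν₂']
  have c12 : f * (ν₁ * β₂) = ν₁ * β₂ := by rw [← mul_assoc, hν₁]
  have c12' : ν₁ * β₂ * f = ν₁ * β₂ := by rw [mul_assoc, hβ₂]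
  have c21 : f * (ν₂ * β₁) = ν₂ * β₁ := by rw [← mul_assoc, hν₂]
  have c21' : ν₂ * β₁ * f = ν₂ * β₁ := by rw [mul_assoc, hβ₁]
  by_cases h12 : ν₁ * β₂ = 0
  · by_cases h21 : ν₂ * β₁ = 0
    · rw [h12, zero_mul, add_zero] at h1
      rw [h21, zero_mul, zero_add] at h2
      by_cases n1 : ν₁ = 0
      · rw [n1, mul_zero, zero_add] at h
        exact Fr.not_unit he0 he hf hF hfn hβ₂ hν₂ hν₂' h
      by_cases n2 : ν₂ = 0
      · rw [n2, mul_zero, add_zero] at h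
        exact Fr.not_unit he0 he hf hF hfn hβ₁ hν₁ hν₁' h
      have e1 : ν₁ * β₁ = f := Fld.eq_of_mul f hf hF (by rw [← mul_assoc, hν₁])
        (by rw [mul_assoc, hβ₁]) hν₁ h1 n1
      have e2 : ν₂ * β₂ = f := Fld.eq_of_mul f hf hF (by rw [← mul_assoc, hν₂])
        (by rw [mul_assoc, hβ₂]) hν₂ h2 n2
      have h3 : Fr.τ e = 2 * Fr.τ f := by
        rw [← h, map_add, Fr.symm β₁, Fr.symm β₂, e1, e2]
        ring
      obtain ⟨u, hu⟩ := Fr.two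
      have h4 : Fr.τ f = algebraMap W K ((u⁻¹ : Wˣ) : W) * Fr.τ e := by
        rw [h3, ← mul_assoc]
        have : algebraMap W K ((u⁻¹ : Wˣ) : W) * 2 = 1 := by
          have h5 : algebraMap W K ((u⁻¹ : Wˣ) : W) * algebraMap W K (u : W) = 1 := by
            rw [← map_mul, Units.inv_mul, map_one]
          rwa [hu, map_ofNat] at h5
        rw [this, one_mul]
      exact hfn (by rw [h4, ← Algebra.smul_def]; exact he.smul _)
    · obtain ⟨y, hy1, hy2, hy3, hy4⟩ := hF _ c21 c21' h21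
      have h4 : ν₁ = y * (f - ν₂ * β₂) * ν₂ := by
        have : ν₂ * β₁ * ν₁ = (f - ν₂ * β₂) * ν₂ := by
          rw [sub_mul, hν₂]
          exact eq_sub_of_add_eq h2
        rw [mul_assoc, ← this, ← mul_assoc, hy3, hν₁]
      have h5 : (β₁ * (y * (f - ν₂ * β₂)) + β₂) * ν₂ = e := by
        rw [add_mul, mul_assoc β₁, ← h4, h]
      refine Fr.not_unit he0 he hf hF hfn ?_ hν₂ hν₂' h5
      rw [add_mul, hβ₂, mul_assoc, mul_assoc, sub_mul, hf, mul_assoc ν₂ β₂ f, hβ₂]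
  · obtain ⟨y, hy1, hy2, hy3, hy4⟩ := hF _ c12 c12' h12
    have h4 : ν₂ = y * (f - ν₁ * β₁) * ν₁ := by
      have : ν₁ * β₂ * ν₂ = (f - ν₁ * β₁) * ν₁ := by
        rw [sub_mul, hν₁]
        exact eq_sub_of_add_eq' h1
      rw [mul_assoc, ← this, ← mul_assoc, hy3, hν₂]
    have h5 : (β₁ + β₂ * (y * (f - ν₁ * β₁))) * ν₁ = e := by
      rw [add_mul, mul_assoc β₂, ← h4, h]
    refine Fr.not_unit he0 he hf hF hfn ?_ hν₁ hν₁' h5
    rw [add_mul, hβ₁, mul_assoc, mul_assoc, sub_mul, hf, mul_assoc ν₁ β₁ f, hβ₁]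

end PD
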