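import Pool.Agent.Lib.MP_369ee2_lc_PD.OrdDefs

/-!
# Basic facts about the frame: integrality, duality, the corner order of a Good pair
-/

set_option linter.unusedSectionVars false
set_option linter.style.haveILetI false

namespace PD

variable {W K A : Type*} [CommRing W] [IsDomain W] [IsDiscreteValuationRing W] [Field K]
  [Algebra W K] [IsFractionRing W K] [Ring A] [Algebra K A] [Algebra W A] [IsScalarTower W K A]

namespace IsInt

theorem zero : IsInt W (0 : K) := ⟨0, by simp⟩

theorem add {x y : K} (hx : IsInt W x) (hy : IsInt W y) : IsInt W (x + y) := by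
  obtain ⟨a, rfl⟩ := hx
  obtain ⟨b, rfl⟩ := hy
  exact ⟨a + b, by simp⟩

theorem neg {x : K} (hx : IsInt W x) : IsInt W (-x) := by
  obtain ⟨a, rfl⟩ := hx
  exact ⟨-a, by simp⟩

theorem sub {x y : K} (hx : IsInt W x) (hy : IsInt W y) : IsInt W (x - y) := by
  rw [sub_eq_add_neg]
  exact hx.add hy.neg

theorem mul {x y : K} (hx : IsInt W x) (hy : IsInt W y) : IsInt W (x * y) := by
  obtain ⟨a, rfl⟩ := hx
  obtain ⟨b, rfl⟩ := hy
  exact ⟨a * b, by simp⟩

theorem smul (w : W) {x : K} (hx : IsInt W x) : IsInt W (w • x) := by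
  obtain ⟨a, rfl⟩ := hx
  exact ⟨w * a, by simp [Algebra.smul_def]⟩

end IsInt

namespace Frame

variable (Fr : Frame W K A)

theorem pi_ne : Fr.π ≠ 0 := Fr.irr.ne_zero

theorem piK_ne : algebraMap W K Fr.π ≠ 0 := by
  intro h
  exact Fr.pi_ne ((IsFractionRing.injective W K) (by simpa using h))

theorem maximalIdeal_eq : IsLocalRing.maximalIdeal W = Ideal.span {Fr.π} :=
  Fr.irr.maximalIdeal_eq

/-- an element of `W` not divisible by `π` is a unit -/
theorem unit_of_not_dvd {w : W} (h : ¬ Fr.π ∣ w) : IsUnit w := by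
  by_contra hu
  have : w ∈ IsLocalRing.maximalIdeal W := (IsLocalRing.mem_maximalIdeal w).2 hu
  rw [Fr.maximalIdeal_eq, Ideal.mem_span_singleton] at this
  exact h this

theorem tau_smul (w : W) (x : A) : Fr.τ (w • x) = w • Fr.τ x :=
  Fr.τ.map_smul_of_tower w x

/-- if `x` is not integral but `π x` is, then `π x` is a unit of `W` -/
theorem unit_of_pi {x : K} (h : ¬ IsInt W x) (h' : IsInt W (Fr.π • x)) :
    ∃ u : W, IsUnit u ∧ algebraMap W K u = Fr.π • x := by
  obtain ⟨u, hu⟩ := h'
  refine ⟨u, Fr.unit_of_not_dvd ?_, hu⟩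
  rintro ⟨v, rfl⟩
  apply h
  refine ⟨v, ?_⟩
  rw [map_mul, Algebra.smul_def] at hu
  exact mul_left_cancel₀ Fr.piK_ne hu

/-- for `x`, `y` with `π x`, `π y` integral and `x` not, `y = w x` with `w` in `W` -/
theorem ratio {x y : K} (h : ¬ IsInt W x) (hx : IsInt W (Fr.π • x)) (hy : IsInt W (Fr.π • y)) :
    ∃ w : W, y = w • x := by
  obtain ⟨u, hu, hux⟩ := Fr.unit_of_pi h hx
  obtain ⟨v, hv⟩ := hy
  obtain ⟨u', rfl⟩ := hu
  refine ⟨v * (↑u'⁻¹ : W), ?_⟩
  have h1 : algebraMap W K Fr.π * y = algebraMap W K v := by rw [hv, Algebra.smul_def]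
  have h2 : algebraMap W K Fr.π * x = algebraMap W K u' := by rw [hux, Algebra.smul_def]
  apply mul_left_cancel₀ Fr.piK_ne
  rw [h1, Algebra.smul_def, map_mul]
  rw [show algebraMap W K Fr.π * (algebraMap W K v * algebraMap W K (↑u'⁻¹ : W) * x)
    = algebraMap W K v * algebraMap W K (↑u'⁻¹ : W) * (algebraMap W K Fr.π * x) by ring, h2,
    mul_assoc, ← map_mul, Units.inv_mul, map_one, mul_one]

theorem tau_cyc (x y z : A) : Fr.τ (x * y * z) = Fr.τ (y * z * x) := by
  rw [mul_assoc, Fr.symm]

theorem tau_cyc' (x y z : A) : Fr.τ (x * y * z) = Fr.τ (z * x * y) := by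
  rw [Fr.symm, mul_assoc]

/-- every functional is `τ(ξ ·)` -/
theorem exists_repr [FiniteDimensional K A] (φ : A →ₗ[K] K) : ∃ ξ : A, ∀ x, φ x = Fr.τ (ξ * x) := by
  let T : A →ₗ[K] Module.Dual K A :=
    { toFun := fun ξ => Fr.τ ∘ₗ (LinearMap.mulLeft K ξ)
      map_add' := by intro a b; ext x; simp [add_mul]
      map_smul' := by intro a b; ext x; simp }
  have hinj : Function.Injective T := by
    rw [← LinearMap.ker_eq_bot, LinearMap.ker_eq_bot']
    intro ξ h
    apply Fr.nondeg
    intro z
    have := congrArg (fun g => g z) h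
    simpa [T] using this
  have hfr : Module.finrank K A = Module.finrank K (Module.Dual K A) :=
    (Subspace.dual_finrank_eq).symm
  have hsurj : Function.Surjective T :=
    (LinearMap.injective_iff_surjective_of_finrank_eq_finrank hfr).1 hinj
  obtain ⟨ξ, hξ⟩ := hsurj φ
  refine ⟨ξ, fun x => ?_⟩
  rw [← hξ]
  simp [T]

/-- (DD) separation of a point from a finitely generated `W`-module -/
theorem exists_functional [FiniteDimensional K A] (π : W) (hπ : Irreducible π)
    (L : Submodule W A) (hL : L.FG) (x : A)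
    (hx : x ∉ L) : ∃ φ : A →ₗ[K] K, (∀ y ∈ L, IsInt W (φ y)) ∧ ¬ IsInt W (φ x) := by
  haveI : Module.Finite W L := Module.Finite.iff_fg.2 hL
  haveI : Module.IsTorsionFree W A := by
    haveI : FaithfulSMul W K := by infer_instance
    haveI := Module.IsTorsionFree.trans_faithfulSMul W K A
    infer_instance
  haveI : Module.IsTorsionFree W L := inferInstance
  haveI : Module.Free W L := inferInstance
  let b := Module.Free.chooseBasis W L
  let v : Module.Free.ChooseBasisIndex W L → A := fun i => (b i : A)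
  have hli : LinearIndependent W v := by
    have := b.linearIndependent
    exact this.map' L.subtype (Submodule.ker_subtype L)
  have hlK : LinearIndependent K v := (LinearIndependent.iff_fractionRing W K).1 hli
  have hsub : ∀ y ∈ L, ∃ c : Module.Free.ChooseBasisIndex W L → W, y = ∑ i, c i • v i := by
    intro y hy
    refine ⟨fun i => b.repr ⟨y, hy⟩ i, ?_⟩
    have := b.sum_repr ⟨y, hy⟩
    have h2 : ((∑ i, (b.repr ⟨y, hy⟩) i • b i : L) : A) = y := by rw [this]
    refine h2.symm.trans ?_
    rw [Submodule.coe_sum]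
    rfl
  by_cases hxs : x ∈ Submodule.span K (Set.range v)
  · have key : ∃ i, ¬ IsInt W (hlK.repr ⟨x, hxs⟩ i) := by
      by_contra hcon
      push Not at hcon
      apply hx
      choose c hc using hcon
      have h1 : x = ∑ i, hlK.repr ⟨x, hxs⟩ i • v i := by
        have := hlK.linearCombination_repr ⟨x, hxs⟩
        rw [Finsupp.linearCombination_apply, Finsupp.sum_fintype _ _ (by simp)] at this
        exact this.symm
      rw [h1]
      refine Submodule.sum_mem _ fun i _ => ?_
      rw [← hc i, algebraMap_smul]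
      exact L.smul_mem _ (b i).2
    obtain ⟨i, hi⟩ := key
    let ψ : Submodule.span K (Set.range v) →ₗ[K] K := (Finsupp.lapply i) ∘ₗ hlK.repr
    obtain ⟨φ, hφ⟩ := LinearMap.exists_extend ψ
    have hφx : ∀ (y : A) (hy : y ∈ Submodule.span K (Set.range v)), φ y = hlK.repr ⟨y, hy⟩ i := by
      intro y hy
      have := congrArg (fun g => g ⟨y, hy⟩) hφ
      simpa [ψ] using this
    refine ⟨φ, ?_, ?_⟩
    · intro y hy
      obtain ⟨c, hc⟩ := hsub y hy
      refine ⟨c i, ?_⟩
      have hv : ∀ j, φ (v j) = if j = i then 1 else 0 := by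
        intro j
        have hj : v j ∈ Submodule.span K (Set.range v) := Submodule.subset_span ⟨j, rfl⟩
        rw [hφx (v j) hj]
        have := hlK.repr_eq_single j ⟨v j, hj⟩ rfl
        rw [this, Finsupp.single_apply]
      rw [hc, map_sum]
      have : ∀ j, φ (c j • v j) = if j = i then algebraMap W K (c j) else 0 := by
        intro j
        rw [φ.map_smul_of_tower, hv j]
        split_ifs <;> simp [Algebra.smul_def]
      rw [Finset.sum_congr rfl (fun j _ => this j)]
      simp
    · rw [hφx x hxs]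
      exact hi
  · obtain ⟨φ, h1, h2⟩ := Submodule.exists_le_ker_of_notMem hxs
    have hπK : algebraMap W K π ≠ 0 := by
      intro h
      exact hπ.ne_zero ((IsFractionRing.injective W K) (by simpa using h))
    refine ⟨((algebraMap W K π)⁻¹ * (φ x)⁻¹) • φ, ?_, ?_⟩
    · intro y hy
      have : φ y = 0 := by
        obtain ⟨c, hc⟩ := hsub y hy
        have hy' : y ∈ Submodule.span K (Set.range v) := by
          rw [hc]
          refine Submodule.sum_mem _ fun i _ => ?_
          rw [← algebraMap_smul K (c i) (v i)]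
          exact Submodule.smul_mem _ _ (Submodule.subset_span ⟨i, rfl⟩)
        exact h2 hy'
      refine ⟨0, ?_⟩
      simp [this]
    · rintro ⟨w, hw⟩
      have h3 : algebraMap W K w = (algebraMap W K π)⁻¹ := by
        rw [hw]
        simp [h1]
      have h4 : algebraMap W K (w * π) = algebraMap W K 1 := by
        rw [map_mul, h3, inv_mul_cancel₀ hπK, map_one]
      have h5 := (IsFractionRing.injective W K) h4
      exact hπ.not_isUnit (IsUnit.of_mul_eq_one w (by rw [mul_comm]; exact h5))

/-- (DD) with the form -/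
theorem dd [FiniteDimensional K A] (L : Submodule W A) (hL : L.FG) (x : A) (hx : x ∉ L) :
    ∃ ξ : A, (∀ y ∈ L, IsInt W (Fr.τ (ξ * y))) ∧ ¬ IsInt W (Fr.τ (ξ * x)) := by
  obtain ⟨φ, h1, h2⟩ := exists_functional (K := K) Fr.π Fr.irr L hL x hx
  obtain ⟨ξ, hξ⟩ := Fr.exists_repr φ
  refine ⟨ξ, fun y hy => ?_, ?_⟩
  · rw [← hξ]; exact h1 y hy
  · rw [← hξ]; exact h2

end Frame

end PD
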