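import Pool.Agent.Lib.MP_369ee2_lc_PD.OrdDefs

/-!
# Lemma D of the prime degree theorem and its consequences

`f` an idempotent of `A`, `O'` an order of the corner `f A f` with radical `m'`, dual to each other
with respect to `τ`.  Then `O'` is a discrete valuation ring (commutative) and `f A f` is its field
of fractions, of degree `k` over `K`, where `π f = y ^ k * unit`.
-/

namespace PD

open Module

variable {W K A : Type*} [CommRing W] [IsDomain W] [IsDiscreteValuationRing W] [Field K]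
  [Algebra W K] [IsFractionRing W K] [Ring A] [Algebra K A] [Algebra W A] [IsScalarTower W K A]

/-- the hypotheses of Lemma D -/
structure Corner (Fr : Frame W K A) (f : A) (O' m' : Submodule W A) : Prop where
  idem : f * f = f
  left : ∀ x ∈ O', f * x = x
  right : ∀ x ∈ O', x * f = x
  one : f ∈ O'
  mul : ∀ x ∈ O', ∀ y ∈ O', x * y ∈ O'
  le : m' ≤ O'
  mul_l : ∀ x ∈ O', ∀ y ∈ m', x * y ∈ m'
  mul_r : ∀ x ∈ O', ∀ y ∈ m', y * x ∈ m'
  dec : ∀ x ∈ O', ∃ w : W, x - w • f ∈ m'
  pe : Fr.π • f ∈ m'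
  ne : f ∉ m'
  nil : ∃ n : ℕ, 0 < n ∧ ∀ x ∈ m' ^ n, ∃ y ∈ O', x = Fr.π • y
  fg : O'.FG
  dual : ∀ x, f * x = x → x * f = x → (∀ y ∈ m', IsInt W (Fr.τ (x * y))) → x ∈ O'
  int : ∀ y ∈ m', IsInt W (Fr.τ y)

/-- the corner `f A f` as a `K`-subspace -/
def cor (K : Type*) {A : Type*} [Field K] [Ring A] [Algebra K A] (f : A) : Submodule K A where
  carrier := {x | f * x = x ∧ x * f = x}
  add_mem' := by
    rintro a b ⟨h1, h2⟩ ⟨h3, h4⟩
    exact ⟨by rw [mul_add, h1, h3], by rw [add_mul, h2, h4]⟩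
  zero_mem' := ⟨mul_zero _, zero_mul _⟩
  smul_mem' := by
    rintro c x ⟨h1, h2⟩
    exact ⟨by rw [mul_smul_comm, h1], by rw [smul_mul_assoc, h2]⟩

theorem mem_cor {f x : A} : x ∈ cor K f ↔ f * x = x ∧ x * f = x := Iff.rfl

namespace Corner

variable {Fr : Frame W K A} {f : A} {O' m' : Submodule W A}

/-- in a corner of a finite dimensional algebra one-sided inverses are two-sided -/
theorem inv_comm [Module.Finite K A] {f u v : A} (hf : f * f = f) (fu : f * u = u) (uf : u * f = u)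
    (fv : f * v = v) (vf : v * f = v) (h : u * v = f) : v * u = f := by
  have hN : IsNoetherianRing A := isNoetherian_of_tower K inferInstance
  have h1 : (u + (1 - f)) * (v + (1 - f)) = 1 := by
    have e1 : u * (1 - f) = 0 := by rw [mul_sub, mul_one, uf, sub_self]
    have e2 : (1 - f) * v = 0 := by rw [sub_mul, one_mul, fv, sub_self]
    have e3 : (1 - f) * (1 - f) = 1 - f := by
      rw [mul_sub, mul_one, sub_mul, one_mul, hf]; abel
    rw [add_mul, mul_add, mul_add, e1, e2, e3, h]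
    abel
  have h2 : (v + (1 - f)) * (u + (1 - f)) = 1 := mul_eq_one_comm.1 h1
  have e1 : v * (1 - f) = 0 := by rw [mul_sub, mul_one, vf, sub_self]
  have e2 : (1 - f) * u = 0 := by rw [sub_mul, one_mul, fu, sub_self]
  have e3 : (1 - f) * (1 - f) = 1 - f := by
    rw [mul_sub, mul_one, sub_mul, one_mul, hf]; abel
  rw [add_mul, mul_add, mul_add, e1, e2, e3] at h2
  have h3 : v * u + (1 - f) = 1 := by
    simpa using h2
  calc v * u = v * u + (1 - f) - (1 - f) := by abel
    _ = 1 - (1 - f) := by rw [h3]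
    _ = f := by abel

theorem pi_ne (Fr : Frame W K A) : algebraMap W K Fr.π ≠ 0 := by
  intro h
  exact Fr.irr.ne_zero ((IsFractionRing.injective W K) (by rw [h, map_zero]))

/-- division by the uniformizer -/
theorem pi_smul_inv (Fr : Frame W K A) (x : A) :
    Fr.π • ((algebraMap W K Fr.π)⁻¹ • x) = x := by
  rw [← algebraMap_smul K Fr.π ((algebraMap W K Fr.π)⁻¹ • x), smul_smul,
    mul_inv_cancel₀ (pi_ne Fr), one_smul]

theorem pi_smul_inj (Fr : Frame W K A) {x y : A} (h : Fr.π • x = Fr.π • y) : x = y := by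
  rw [← algebraMap_smul K Fr.π x, ← algebraMap_smul K Fr.π y] at h
  exact smul_right_injective A (pi_ne Fr) h

theorem unit_or (Fr : Frame W K A) (w : W) : IsUnit w ∨ ∃ v, w = Fr.π * v := by
  by_cases h : IsUnit w
  · exact Or.inl h
  · right
    have h1 : w ∈ IsLocalRing.maximalIdeal W := (IsLocalRing.mem_maximalIdeal w).2 h
    rw [(IsDiscreteValuationRing.irreducible_iff_uniformizer Fr.π).1 Fr.irr,
      Ideal.mem_span_singleton] at h1
    exact h1

variable (h : Corner Fr f O' m')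
include h

/-- decomposition into a unit and the radical -/
theorem unit_dec {x : A} (hx : x ∈ O') (hxm : x ∉ m') :
    ∃ w v : W, w * v = 1 ∧ x - w • f ∈ m' := by
  obtain ⟨w, hw⟩ := h.dec x hx
  rcases unit_or Fr w with hu | ⟨v, rfl⟩
  · obtain ⟨u, rfl⟩ := hu
    exact ⟨u, ↑u⁻¹, Units.mul_inv u, hw⟩
  · exfalso
    apply hxm
    have h1 : (Fr.π * v) • f ∈ m' := by
      rw [mul_comm, mul_smul]
      exact m'.smul_mem _ h.pe
    have h2 := m'.add_mem hw h1
    rwa [sub_add_cancel] at h2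

omit h in
theorem pow_succ_mem (h : Corner Fr f O' m') {a : A} (ha : a ∈ m') (n : ℕ) :
    a ^ (n + 1) ∈ m' := by
  induction n with
  | zero => simpa using ha
  | succ n ih =>
    rw [pow_succ]
    exact h.mul_l _ (h.le ih) _ ha

omit h [IsDomain W] [IsDiscreteValuationRing W] in
theorem pow_succ_mem_pow {a : A} (ha : a ∈ m') (n : ℕ) : a ^ n ∈ m' ^ n :=
  Submodule.pow_mem_pow m' ha n

theorem geom {a : A} (ha : a ∈ m') (n : ℕ) :
    ∃ s ∈ O', (f - a) * s = f - a ^ (n + 1) := by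
  induction n with
  | zero =>
    refine ⟨f, h.one, ?_⟩
    rw [sub_mul, h.idem, h.right a (h.le ha), zero_add, pow_one]
  | succ n ih =>
    obtain ⟨s, hs, e⟩ := ih
    have hm := pow_succ_mem h ha n
    refine ⟨s + a ^ (n + 1), O'.add_mem hs (h.le hm), ?_⟩
    rw [mul_add, e, sub_mul, h.left _ (h.le hm), ← pow_succ' a (n + 1)]
    abel

/-- elements outside the radical are units -/
theorem isUnit [Module.Finite K A] {x : A} (hx : x ∈ O') (hxm : x ∉ m') :
    ∃ v ∈ O', x * v = f ∧ v * x = f := by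
  obtain ⟨w, v, hwv, hd⟩ := h.unit_dec hx hxm
  obtain ⟨n, hn, hnil⟩ := h.nil
  obtain ⟨j, rfl⟩ : ∃ j, n = j + 1 := ⟨n - 1, by omega⟩
  set a : A := -(v • (x - w • f)) with ha
  have ham : a ∈ m' := m'.neg_mem (m'.smul_mem _ hd)
  have hxa : x = w • (f - a) := by
    rw [ha, sub_neg_eq_add, smul_add, smul_smul, hwv, one_smul]
    abel
  obtain ⟨s, hs, es⟩ := h.geom ham j
  obtain ⟨y, hy, ey⟩ := hnil _ (pow_succ_mem_pow (m' := m') ham (j + 1))
  have key : x * (v • s) = f - Fr.π • y := by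
    rw [hxa, smul_mul_assoc, mul_smul_comm, smul_smul, hwv, one_smul, es, ey]
  let N : Submodule W A := O'.map (LinearMap.mulLeft W x)
  have hle : O' ≤ N ⊔ (Ideal.span {Fr.π}) • O' := by
    intro t ht
    have e1 : t = x * (v • (s * t)) + Fr.π • (y * t) := by
      have e2 : f * t = (x * (v • s) + Fr.π • y) * t := by
        rw [key]; congr 1; abel
      rw [h.left t ht, add_mul, smul_mul_assoc, mul_assoc, smul_mul_assoc] at e2
      exact e2
    rw [e1]
    apply Submodule.add_mem_sup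
    · exact ⟨v • (s * t), O'.smul_mem _ (h.mul s hs t ht), rfl⟩
    · exact Submodule.smul_mem_smul (Ideal.mem_span_singleton_self _) (h.mul y hy t ht)
  have hjac : Ideal.span {Fr.π} ≤ Ideal.jacobson (⊥ : Ideal W) := by
    rw [IsLocalRing.jacobson_eq_maximalIdeal ⊥ bot_ne_top, Ideal.span_singleton_le_iff_mem,
      IsLocalRing.mem_maximalIdeal]
    exact Fr.irr.not_isUnit
  have hN := Submodule.le_of_le_smul_of_le_jacobson_bot h.fg hjac hle
  obtain ⟨u, hu, e⟩ := hN h.one
  have e' : x * u = f := e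
  exact ⟨u, hu, e', inv_comm (K := K) h.idem (h.left x hx) (h.right x hx) (h.left u hu) (h.right u hu) e'⟩

/-- `f` is not divisible by the uniformizer -/
theorem f_not_div : ¬ ∃ y ∈ O', f = Fr.π • y := by
  rintro ⟨y, hy, e⟩
  apply h.ne
  have h1 : f = (Fr.π • f) * y := by
    rw [smul_mul_assoc, h.left y hy, ← e]
  rw [h1]
  exact h.mul_r _ hy _ h.pe

theorem exists_z : ∃ z ∈ O', (¬ ∃ y ∈ O', z = Fr.π • y) ∧
    (∀ m ∈ m', ∃ y ∈ O', z * m = Fr.π • y) ∧ (∀ m ∈ m', ∃ y ∈ O', m * z = Fr.π • y) := by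
  classical
  have hex := h.nil
  have hP := Nat.find_spec hex
  have hmin : ∀ k, k < Nat.find hex → ¬ (0 < k ∧ ∀ x ∈ m' ^ k, ∃ y ∈ O', x = Fr.π • y) :=
    fun k hk => Nat.find_min hex hk
  generalize Nat.find hex = n at hP hmin
  obtain ⟨j, rfl⟩ : ∃ j, n = j + 1 := ⟨n - 1, by omega⟩
  rcases Nat.eq_zero_or_pos j with rfl | hj
  · refine ⟨f, h.one, h.f_not_div, ?_, ?_⟩
    · intro m hm
      rw [h.left m (h.le hm)]
      exact hP.2 m (by simpa using hm)
    · intro m hm
      rw [h.right m (h.le hm)]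
      exact hP.2 m (by simpa using hm)
  · have h1 := hmin j (by omega)
    push Not at h1
    obtain ⟨z, hz, hz2⟩ := h1 hj
    have hzO : z ∈ O' := by
      have : m' ^ j ≤ m' := by
        obtain ⟨i, rfl⟩ : ∃ i, j = i + 1 := ⟨j - 1, by omega⟩
        clear hz hz2 h1 hj hmin hP
        induction i with
        | zero => simp
        | succ i ih =>
          rw [pow_succ]
          rw [Submodule.mul_le]
          intro a ha b hb
          exact h.mul_l a (h.le (ih ha)) b hb
      exact h.le (this hz)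
    refine ⟨z, hzO, ?_, ?_, ?_⟩
    · rintro ⟨y, hy, e⟩
      exact hz2 y hy e
    · intro m hm
      apply hP.2
      rw [pow_succ]
      exact Submodule.mul_mem_mul hz hm
    · intro m hm
      apply hP.2
      rw [pow_succ']
      exact Submodule.mul_mem_mul hm hz

/-- **Lemma D.**  The radical has an invertible generator. -/
theorem exists_gen [Module.Finite K A] : ∃ y ∈ m', ∃ x, f * x = x ∧ x * f = x ∧ x * y = f ∧
    y * x = f ∧ (∀ m ∈ m', x * m ∈ O') ∧ (∀ m ∈ m', m * x ∈ O') := by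
  obtain ⟨z, hz, hz1, hz2, hz3⟩ := h.exists_z
  set x₀ : A := (algebraMap W K Fr.π)⁻¹ • z with hx₀
  have e0 : Fr.π • x₀ = z := pi_smul_inv Fr z
  have hx₀O : x₀ ∉ O' := fun hc => hz1 ⟨x₀, hc, e0.symm⟩
  have fx₀ : f * x₀ = x₀ := by rw [hx₀, mul_smul_comm, h.left z hz]
  have x₀f : x₀ * f = x₀ := by rw [hx₀, smul_mul_assoc, h.right z hz]
  have hl : ∀ m ∈ m', x₀ * m ∈ O' := by
    intro m hm
    obtain ⟨y, hy, e⟩ := hz2 m hm
    have : x₀ * m = y := by
      apply pi_smul_inj Fr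
      rw [← smul_mul_assoc, e0, e]
    rwa [this]
  have hr : ∀ m ∈ m', m * x₀ ∈ O' := by
    intro m hm
    obtain ⟨y, hy, e⟩ := hz3 m hm
    have : m * x₀ = y := by
      apply pi_smul_inj Fr
      rw [← mul_smul_comm, e0, e]
    rwa [this]
  have hex : ∃ y₀ ∈ m', x₀ * y₀ ∉ m' := by
    by_contra hcon
    push Not at hcon
    exact hx₀O (h.dual x₀ fx₀ x₀f fun y hy => h.int _ (hcon y hy))
  obtain ⟨y₀, hy₀, hu⟩ := hex
  obtain ⟨v, hv, e1, e2⟩ := h.isUnit (hl y₀ hy₀) hu
  have hym : y₀ * v ∈ m' := h.mul_r v hv y₀ hy₀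
  have hxy : x₀ * (y₀ * v) = f := by rw [← mul_assoc, e1]
  exact ⟨y₀ * v, hym, x₀, fx₀, x₀f, hxy,
    inv_comm (K := K) h.idem fx₀ x₀f (h.left _ (h.le hym)) (h.right _ (h.le hym)) hxy, hl, hr⟩

end Corner

/-- Lemma D with its data: `y` generates the radical, `x` is its inverse in the corner. -/
structure Gen (Fr : Frame W K A) (f : A) (O' m' : Submodule W A) (y x : A) : Prop
    extends Corner Fr f O' m' where
  y_mem : y ∈ m'
  fx : f * x = x
  xf : x * f = x
  xy : x * y = f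
  yx : y * x = f
  x_mul : ∀ m ∈ m', x * m ∈ O'
  mul_x : ∀ m ∈ m', m * x ∈ O'

namespace Gen

variable {Fr : Frame W K A} {f y x : A} {O' m' : Submodule W A} (h : Gen Fr f O' m' y x)
include h

theorem y_mem' : y ∈ O' := h.le h.y_mem

theorem eq_y_mul {m : A} (hm : m ∈ m') : m = y * (x * m) := by
  rw [← mul_assoc, h.yx, h.left m (h.le hm)]

theorem eq_mul_y {m : A} (hm : m ∈ m') : m = (m * x) * y := by
  rw [mul_assoc, h.xy, h.right m (h.le hm)]

theorem y_mul_mem {a : A} (ha : a ∈ O') : y * a ∈ m' := h.mul_r a ha y h.y_mem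

theorem pow_mem (n : ℕ) : y ^ (n + 1) ∈ m' := Corner.pow_succ_mem h.toCorner h.y_mem n

/-- the left ideal filtration -/
theorem pow_mul_mem {a : A} (ha : a ∈ O') (n : ℕ) : y ^ n * a ∈ O' := by
  cases n with
  | zero => simpa using ha
  | succ n => exact h.le (h.mul_r a ha _ (h.pow_mem n))

theorem xpow_mul (n : ℕ) {a : A} (ha : f * a = a) : x ^ n * (y ^ n * a) = a := by
  induction n generalizing a with
  | zero => simp
  | succ n ih =>
    rw [pow_succ, pow_succ', mul_assoc, ← mul_assoc x, ← mul_assoc x, h.xy, mul_assoc f,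
      show f * (y ^ n * a) = y ^ n * a from ?_]
    · exact ih ha
    · cases n with
      | zero => simpa using ha
      | succ n => rw [← mul_assoc, h.left _ (h.le (h.pow_mem n))]

theorem pow_inj (n : ℕ) {a b : A} (ha : f * a = a) (hb : f * b = b) (e : y ^ n * a = y ^ n * b) :
    a = b := by
  rw [← h.xpow_mul n ha, e, h.xpow_mul n hb]

/-- every element of `O'` is a scalar plus a multiple of `y` -/
theorem dec_y {a : A} (ha : a ∈ O') : ∃ w : W, ∃ b ∈ O', a = w • f + y * b := by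
  obtain ⟨w, hw⟩ := h.dec a ha
  refine ⟨w, x * (a - w • f), h.x_mul _ hw, ?_⟩
  rw [← h.eq_y_mul hw]
  abel

/-- some power of `y` lies in `π O'` -/
theorem exists_pow_div : ∃ n : ℕ, 0 < n ∧ ∃ b ∈ O', y ^ n = Fr.π • b := by
  obtain ⟨n, hn, hnil⟩ := h.nil
  exact ⟨n, hn, hnil _ (Corner.pow_succ_mem_pow (m' := m') h.y_mem n)⟩

/-- the `W`-span of `f, y, ..., y ^ (n-1)` -/
def poly (W : Type*) {A : Type*} [CommRing W] [Ring A] [Algebra W A] (f y : A) (n : ℕ) :
    Submodule W A :=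
  Submodule.span W (Set.range fun i : Fin n => y ^ (i : ℕ) * f)

end Gen

end PD
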