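import Mathlib

/-!
# Abstract frame for section 2 of the prime degree theorem

`W` a discrete valuation ring, `K` its field of fractions, `A` a finite dimensional `K`-algebra,
`O` an order with a symmetric form `τ` for which `O` is self dual.
-/

namespace PD

variable {W K A : Type*} [CommRing W] [IsDomain W] [IsDiscreteValuationRing W] [Field K]
  [Algebra W K] [IsFractionRing W K] [Ring A] [Algebra K A] [Algebra W A] [IsScalarTower W K A]

/-- `x` lies in `W`. -/
def IsInt (W : Type*) {K : Type*} [CommRing W] [Field K] [Algebra W K] (x : K) : Prop :=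
  ∃ w : W, algebraMap W K w = x

/-- the frame: order, form, uniformizer -/
structure Frame (W K A : Type*) [CommRing W] [IsDomain W] [IsDiscreteValuationRing W] [Field K]
    [Algebra W K] [IsFractionRing W K] [Ring A] [Algebra K A] [Algebra W A]
    [IsScalarTower W K A] where
  π : W
  irr : Irreducible π
  two : IsUnit (2 : W)
  O : Subalgebra W A
  fg : (Subalgebra.toSubmodule O).FG
  full : ∀ x : A, ∃ c : W, c ≠ 0 ∧ c • x ∈ O
  τ : A →ₗ[K] K
  symm : ∀ x y, τ (x * y) = τ (y * x)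
  V : ∀ x ∈ O, IsInt W (τ x)
  U : ∀ x, (∀ z ∈ O, IsInt W (τ (x * z))) → x ∈ O
  nondeg : ∀ x, (∀ z, τ (x * z) = 0) → x = 0
  nilp : ∀ x, IsNilpotent x → τ x = 0

/-- `e` is a local idempotent of `O`, `r` the radical of `e O e`. -/
structure Loc (Fr : Frame W K A) (e : A) (r : Submodule W A) : Prop where
  idem : e * e = e
  mem : e ∈ Fr.O
  r_mem : ∀ x ∈ r, x ∈ Fr.O
  r_left : ∀ x ∈ r, e * x = x
  r_right : ∀ x ∈ r, x * e = x
  dec : ∀ x ∈ Fr.O, e * x = x → x * e = x → ∃ w : W, x - w • e ∈ r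
  mul_l : ∀ x ∈ Fr.O, e * x = x → x * e = x → ∀ y ∈ r, x * y ∈ r
  mul_r : ∀ x ∈ Fr.O, e * x = x → x * e = x → ∀ y ∈ r, y * x ∈ r
  pe : Fr.π • e ∈ r
  ne : e ∉ r
  nil : ∃ n : ℕ, 0 < n ∧ ∀ x ∈ r ^ n, ∃ y ∈ Fr.O, x = Fr.π • y

/-- GOOD(e, f) -/
structure Good (Fr : Frame W K A) (e : A) (r : Submodule W A) (f : A) : Prop where
  loc : Loc Fr e r
  idem : f * f = f
  ef : e * f = f
  fe : f * e = f
  central : ∀ x : A, e * x = x → x * e = x → f * x = x * f
  not_mem : f ∉ Fr.O
  mul_mem : ∀ x ∈ r, f * x ∈ Fr.O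

/-- equivalence of idempotents -/
def Equi (f g : A) : Prop :=
  ∃ a l : A, g * a = a ∧ a * f = a ∧ f * l = l ∧ l * g = l ∧ l * a = f ∧ a * l = g

/-- `z` is the vertex of the idempotent `f`: the central idempotent generating `A f A`. -/
structure Vertex (z f : A) : Prop where
  idem : z * z = z
  central : ∀ x, z * x = x * z
  zf : z * f = f
  mem : z ∈ Submodule.span ℤ {x : A | ∃ a b, x = a * f * b}

end PD
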