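import Pool.Agent.Lib.MP_369ee2_lc_PD.OrdEL
import Pool.Agent.Lib.MP_369ee2_lc_PD.Ord6

/-!
# (EL) in the form used by section 6
-/

namespace PD

variable {W K A : Type*} [CommRing W] [IsDomain W] [IsDiscreteValuationRing W] [Field K]
  [Algebra W K] [IsFractionRing W K] [Ring A] [Algebra K A] [Algebra W A] [IsScalarTower W K A]

theorem elProp (Fr : Frame W K A) [FiniteDimensional K A] : ELProp Fr :=
  fun _ _ _ _ _ _ hG hV hL hze => EL.main hG hV hL hze

end PD
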