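import Pool.Agent.Lib.MP_369ee2_lc_PD.OrdD2
import Pool.Agent.Lib.MP_369ee2_lc_PD.OrdRoot

/-!
# The generator `y` with `y ^ k = π f`

In the situation of Lemma D, with `W` complete, its residue field algebraically closed and `k` prime
to `p`, the generator `y` of the radical can be chosen with `y ^ k = π f`.
-/

namespace PD

open Module

variable {W K A : Type*} [CommRing W] [IsDomain W] [IsDiscreteValuationRing W] [Field K]
  [Algebra W K] [IsFractionRing W K] [Ring A] [Algebra K A] [Algebra W A] [IsScalarTower W K A]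

namespace Gen

variable {Fr : Frame W K A} {f y x : A} {O' m' : Submodule W A} (h : Gen Fr f O' m' y x)
include h

/-- the subalgebra `W + O'` -/
def sub : Subalgebra W A where
  carrier := {a | ∃ c : W, ∃ b ∈ O', a = algebraMap W A c + b}
  mul_mem' := by
    rintro _ _ ⟨c, b, hb, rfl⟩ ⟨d, b', hb', rfl⟩
    refine ⟨c * d, c • b' + d • b + b * b', ?_, ?_⟩
    · exact O'.add_mem (O'.add_mem (O'.smul_mem _ hb') (O'.smul_mem _ hb)) (h.mul b hb b' hb')
    · rw [add_mul, mul_add, mul_add, map_mul, Algebra.smul_def, Algebra.smul_def,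
        Algebra.commutes d b]
      abel
  add_mem' := by
    rintro _ _ ⟨c, b, hb, rfl⟩ ⟨d, b', hb', rfl⟩
    exact ⟨c + d, b + b', O'.add_mem hb hb', by rw [map_add]; abel⟩
  algebraMap_mem' c := ⟨c, 0, O'.zero_mem, by rw [add_zero]⟩

theorem mem_sub {a : A} : a ∈ h.sub ↔ ∃ c : W, ∃ b ∈ O', a = algebraMap W A c + b := Iff.rfl

theorem mem_sub_of {a : A} (ha : a ∈ O') : a ∈ h.sub := ⟨0, a, ha, by rw [map_zero, zero_add]⟩

theorem sub_comm (a b : h.sub) : a * b = b * a := by
  obtain ⟨_, c, a, ha, rfl⟩ := a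
  obtain ⟨_, d, b, hb, rfl⟩ := b
  apply Subtype.ext
  show (algebraMap W A c + a) * (algebraMap W A d + b) =
    (algebraMap W A d + b) * (algebraMap W A c + a)
  rw [add_mul, add_mul, mul_add, mul_add, mul_add, mul_add, h.comm' ha hb,
    Algebra.commutes c b, ← Algebra.commutes d a, ← map_mul, ← map_mul, mul_comm c d]
  abel

theorem sub_finite : Module.Finite W h.sub := by
  have : Module.Finite W O' := Module.Finite.iff_fg.2 h.fg
  let φ : W × O' →ₗ[W] h.sub :=
    { toFun := fun t => ⟨algebraMap W A t.1 + t.2, t.1, t.2, t.2.2, rfl⟩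
      map_add' := by
        rintro ⟨c, b⟩ ⟨d, b'⟩
        apply Subtype.ext
        show algebraMap W A (c + d) + ((b : A) + b') = algebraMap W A c + b + (algebraMap W A d + b')
        rw [map_add]
        abel
      map_smul' := by
        rintro r ⟨c, b⟩
        apply Subtype.ext
        show algebraMap W A (r * c) + r • (b : A) = r • (algebraMap W A c + b)
        rw [map_mul, smul_add, Algebra.smul_def, Algebra.smul_def] }
  apply Module.Finite.of_surjective φ
  rintro ⟨_, c, b, hb, rfl⟩
  exact ⟨(c, ⟨b, hb⟩), rfl⟩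

/-- the generator can be chosen with `y ^ k = π f` -/
theorem exists_root [Module.Finite K A] [IsAdicComplete (IsLocalRing.maximalIdeal W) W]
    [IsAlgClosed (IsLocalRing.ResidueField W)] {p : ℕ} (hp : p.Prime)
    (hpW : (p : W) ∈ IsLocalRing.maximalIdeal W)
    (hk : Nat.Coprime (finrank K (cor K f)) p) :
    ∃ y' x' : A, Gen Fr f O' m' y' x' ∧ y' ^ (finrank K (cor K f)) = Fr.π • f := by
  obtain ⟨hkpos, u, hu, v, hv, huv, hvu, e⟩ := h.ram
  set k := finrank K (cor K f) with hkdef
  have := Fact.mk hp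
  -- the scalar part
  obtain ⟨w, hw⟩ := h.dec u hu
  have hwu : IsUnit w := by
    rcases Corner.unit_or Fr w with h1 | ⟨d, hd⟩
    · exact h1
    · exfalso
      apply h.ne
      have h1 : u ∈ m' := by
        have h2 : w • f ∈ m' := by
          rw [hd, mul_comm, mul_smul]
          exact m'.smul_mem _ h.pe
        have := m'.add_mem hw h2
        simpa using this
      rw [← huv]
      exact h.mul_r v hv u h1
  have hIm : IsLocalRing.maximalIdeal W = Ideal.span {Fr.π} :=
    (IsDiscreteValuationRing.irreducible_iff_uniformizer _).1 Fr.irr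
  obtain ⟨r, hr⟩ := IsAlgClosed.exists_pow_nat_eq (IsLocalRing.residue W w) hkpos
  obtain ⟨w₀, rfl⟩ := IsLocalRing.residue_surjective r
  have hww : w - w₀ ^ k ∈ IsLocalRing.maximalIdeal W := by
    rw [← IsLocalRing.residue_eq_zero_iff, map_sub, map_pow, hr, sub_self]
  have hw₀ : IsUnit w₀ := by
    by_contra hn
    have h1 : w₀ ∈ IsLocalRing.maximalIdeal W := (IsLocalRing.mem_maximalIdeal _).2 hn
    have h2 : w ∈ IsLocalRing.maximalIdeal W := by
      have h3 := Ideal.add_mem _ hww (Ideal.pow_mem_of_mem _ h1 k hkpos)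
      simpa using h3
    exact (IsLocalRing.mem_maximalIdeal _).1 h2 hwu
  obtain ⟨d, hd⟩ : ∃ d, w - w₀ ^ k = Fr.π * d := by
    rw [hIm, Ideal.mem_span_singleton] at hww
    exact hww
  -- the algebra
  letI cr : CommRing h.sub := { (inferInstance : Ring h.sub) with mul_comm := h.sub_comm }
  have : Module.Finite W h.sub := h.sub_finite
  have hπ : ∀ b : h.sub, Fr.π • b ∈ (IsLocalRing.maximalIdeal W).map (algebraMap W h.sub) := by
    intro b
    rw [Algebra.smul_def]
    apply Ideal.mul_mem_right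
    apply Ideal.mem_map_of_mem
    rw [hIm]
    exact Ideal.mem_span_singleton_self _
  let n : h.sub := ⟨u - w • f, h.mem_sub_of (h.le hw)⟩
  obtain ⟨N, hN, hnil⟩ := h.nil
  have hn : n ^ N ∈ (IsLocalRing.maximalIdeal W).map (algebraMap W h.sub) := by
    obtain ⟨b, hb, eb⟩ := hnil _ (Corner.pow_succ_mem_pow (m' := m') hw N)
    have : n ^ N = Fr.π • (⟨b, h.mem_sub_of hb⟩ : h.sub) := Subtype.ext eb
    rw [this]
    exact hπ _
  let U : h.sub := ⟨algebraMap W A (w₀ ^ k) + (u - (w₀ ^ k) • f), w₀ ^ k, _,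
    O'.sub_mem hu (O'.smul_mem _ h.one), rfl⟩
  have hU : U - algebraMap W h.sub (w₀ ^ k) - n ∈
      (IsLocalRing.maximalIdeal W).map (algebraMap W h.sub) := by
    have : U - algebraMap W h.sub (w₀ ^ k) - n =
        Fr.π • (⟨d • f, h.mem_sub_of (O'.smul_mem _ h.one)⟩ : h.sub) := by
      apply Subtype.ext
      show algebraMap W A (w₀ ^ k) + (u - (w₀ ^ k) • f) - algebraMap W A (w₀ ^ k) - (u - w • f) =
        Fr.π • (d • f)
      rw [smul_smul, ← hd, sub_smul]
      abel
    rw [this]
    exact hπ _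
  obtain ⟨⟨V, hV⟩, hVk⟩ := PD.exists_root (S := h.sub) p hpW hk w₀ hw₀ n U hU hn
  have hVk' : V ^ k = algebraMap W A (w₀ ^ k) + (u - (w₀ ^ k) • f) := congrArg Subtype.val hVk
  obtain ⟨c, b, hb, rfl⟩ := hV
  -- the root in the corner
  set g : A := c • f + b with hg
  have hgO : g ∈ O' := O'.add_mem (O'.smul_mem _ h.one) hb
  have hgf : (algebraMap W A c + b) * f = g := by
    rw [add_mul, ← Algebra.smul_def, h.right b hb]
  have hfg : f * (algebraMap W A c + b) = g := by
    rw [mul_add, ← Algebra.commutes, ← Algebra.smul_def, h.left b hb]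
  have hgk : ∀ i : ℕ, (algebraMap W A c + b) ^ i * f = g ^ i * f := by
    intro i
    induction i with
    | zero => simp
    | succ i ih =>
      calc (algebraMap W A c + b) ^ (i + 1) * f
          = (algebraMap W A c + b) ^ i * ((algebraMap W A c + b) * f) := by
            rw [pow_succ, mul_assoc]
        _ = (algebraMap W A c + b) ^ i * f * g := by rw [hgf, mul_assoc, h.left g hgO]
        _ = g ^ (i + 1) * f := by
            rw [ih, mul_assoc, h.left g hgO, pow_succ, mul_assoc, h.right g hgO]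
  have hgku : g ^ k = u := by
    have h1 := hgk k
    rw [hVk', add_mul, ← Algebra.smul_def, sub_mul, smul_mul_assoc, h.idem, h.right u hu,
      add_sub_cancel] at h1
    obtain ⟨j, hj⟩ : ∃ j, k = j + 1 := ⟨k - 1, by omega⟩
    rw [h1, hj, pow_succ, mul_assoc, h.right g hgO]
  have hgm : g ∉ m' := by
    intro hgm
    apply h.ne
    rw [← huv, ← hgku]
    obtain ⟨j, hj⟩ : ∃ j, k = j + 1 := ⟨k - 1, by omega⟩
    rw [hj]
    exact h.mul_r v hv _ (Corner.pow_succ_mem h.toCorner hgm j)
  obtain ⟨g', hg', e1, e2⟩ := h.isUnit hgO hgm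
  have hyg : y * g = g * y := h.comm' h.y_mem' hgO
  refine ⟨y * g, g' * x, ?_, ?_⟩
  · refine ⟨h.toCorner, ?_, ?_, ?_, ?_, ?_, ?_, ?_⟩
    · exact h.mul_r g hgO y h.y_mem
    · rw [← mul_assoc, h.left g' hg']
    · rw [mul_assoc, h.xf]
    · calc g' * x * (y * g) = g' * (x * y * g) := by simp only [mul_assoc]
        _ = f := by rw [h.xy, h.left g hgO, e2]
    · calc y * g * (g' * x) = y * (g * g') * x := by simp only [mul_assoc]
        _ = f := by rw [e1, h.yf, h.yx]
    · intro m hm
      rw [mul_assoc]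
      exact h.mul g' hg' _ (h.x_mul m hm)
    · intro m hm
      rw [← mul_assoc]
      exact h.mul_x _ (h.mul_r g' hg' m hm)
  · rw [(show Commute y g from hyg).mul_pow, hgku]
    exact e.symm

end Gen

end PD
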