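import Pool.Agent.Lib.MP_369ee2_lc_PD.OrdA
import Pool.Agent.Lib.MP_369ee2_lc_PD.OrdV

/-!
# Section 2, Lemma T
-/

namespace PD

set_option linter.unusedSectionVars false

variable {W K A : Type*} [CommRing W] [IsDomain W] [IsDiscreteValuationRing W] [Field K]
  [Algebra W K] [IsFractionRing W K] [Ring A] [Algebra K A] [Algebra W A] [IsScalarTower W K A]

/-- the corner `b A f` (all `x` with `b x = x = x f`) as a `K`-subspace -/
def Crn (K : Type*) {A : Type*} [Field K] [Ring A] [Algebra K A] (b f : A) : Submodule K A where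
  carrier := {x | b * x = x ∧ x * f = x}
  add_mem' := by
    rintro x y ⟨h1, h2⟩ ⟨h3, h4⟩
    exact ⟨by rw [mul_add, h1, h3], by rw [add_mul, h2, h4]⟩
  zero_mem' := ⟨by simp, by simp⟩
  smul_mem' := by
    rintro c x ⟨h1, h2⟩
    exact ⟨by rw [mul_smul_comm, h1], by rw [smul_mul_assoc, h2]⟩

theorem mem_Crn {b f x : A} : x ∈ Crn K b f ↔ b * x = x ∧ x * f = x := Iff.rfl

/-- splitting off one copy of `f` from `b` -/
noncomputable def crnEquiv {b f a l : A} (_hf : f * f = f) (hb : b * b = b) (ha : b * a = a)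
    (ha' : a * f = a) (hl : f * l = l) (hl' : l * b = l) (hla : l * a = f) :
    Crn K b f ≃ₗ[K] Crn K (b - a * l) f × Crn K f f where
  toFun x := (⟨x.1 - a * l * x.1, by
      obtain ⟨h1, h2⟩ := x.2
      refine ⟨?_, by rw [sub_mul, h2, mul_assoc, h2]⟩
      have e1 : a * l * (a * l * x.1) = a * l * x.1 := by
        rw [show a * l * (a * l * x.1) = a * (l * a) * l * x.1 by noncomm_ring, hla, ha']
      have e2 : b * (a * l * x.1) = a * l * x.1 := by
        rw [← mul_assoc, ← mul_assoc, ha]
      rw [sub_mul, mul_sub, mul_sub, h1, e1, e2]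
      abel⟩,
    ⟨l * x.1, by
      obtain ⟨h1, h2⟩ := x.2
      exact ⟨by rw [← mul_assoc, hl], by rw [mul_assoc, h2]⟩⟩)
  invFun y := ⟨y.1.1 + a * y.2.1, by
      obtain ⟨h1, h2⟩ := y.1.2
      obtain ⟨h3, h4⟩ := y.2.2
      refine ⟨?_, by rw [add_mul, h2, mul_assoc, h4]⟩
      have e1 : b * y.1.1 = y.1.1 := by
        have e2 : b * (b - a * l) = b - a * l := by
          rw [mul_sub, hb, ← mul_assoc, ha]
        rw [← h1, ← mul_assoc, e2]
      rw [mul_add, e1, ← mul_assoc, ha]⟩
  map_add' x y := by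
    refine Prod.ext (Subtype.ext ?_) (Subtype.ext ?_)
    · show x.1 + y.1 - a * l * (x.1 + y.1) = x.1 - a * l * x.1 + (y.1 - a * l * y.1)
      rw [mul_add]
      abel
    · show l * (x.1 + y.1) = l * x.1 + l * y.1
      rw [mul_add]
  map_smul' c x := by
    refine Prod.ext (Subtype.ext ?_) (Subtype.ext ?_)
    · show c • x.1 - a * l * (c • x.1) = c • (x.1 - a * l * x.1)
      rw [mul_smul_comm, smul_sub]
    · show l * (c • x.1) = c • (l * x.1)
      rw [mul_smul_comm]
  left_inv x := by
    refine Subtype.ext ?_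
    show x.1 - a * l * x.1 + a * (l * x.1) = x.1
    rw [mul_assoc]
    abel
  right_inv y := by
    obtain ⟨⟨u, h1, h2⟩, ⟨v, h3, h4⟩⟩ := y
    have lu : l * u = 0 := by
      have e1 : l * (b - a * l) = 0 := by
        rw [mul_sub, hl', ← mul_assoc, hla, hl, sub_self]
      rw [← h1, ← mul_assoc, e1, zero_mul]
    have lv : l * (a * v) = v := by rw [← mul_assoc, hla, h3]
    refine Prod.ext (Subtype.ext ?_) (Subtype.ext ?_)
    · show u + a * v - a * l * (u + a * v) = u
      rw [mul_assoc, mul_add, lu, lv, zero_add]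
      abel
    · show l * (u + a * v) = v
      rw [mul_add, lu, lv, zero_add]

/-- in a corner, the trace form detects a nonzero element -/
theorem Frame.exists_left (Fr : Frame W K A) {f b a : A} (hf : f * f = f) (hb : b * b = b)
    (ha : b * a = a) (ha' : a * f = a) (h0 : a ≠ 0) :
    ∃ l : A, f * l = l ∧ l * b = l ∧ Fr.τ (l * a) ≠ 0 ∧ Fr.τ (a * l) ≠ 0 := by
  by_contra hcon
  push Not at hcon
  apply h0
  refine Fr.nondeg a fun z => ?_
  by_contra hz
  have e1 : f * (f * z * b) = f * z * b := by rw [← mul_assoc, ← mul_assoc, hf]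
  have e2 : f * z * b * b = f * z * b := by rw [mul_assoc, hb]
  have e3 : Fr.τ (a * (f * z * b)) = Fr.τ (a * z) := by
    rw [← mul_assoc, ← mul_assoc, ha', Fr.symm (a * z) b, ← mul_assoc, ha]
  have e4 : Fr.τ (f * z * b * a) ≠ 0 := by
    rw [Fr.symm, e3]
    exact hz
  have := hcon _ e1 e2 e4
  rw [e3] at this
  exact hz this

theorem Vertex.mul_eq {z f a : A} (hz : Vertex z f) (ha : a * f = a) : z * a = a := by
  rw [← ha, hz.central, mul_assoc, ← hz.central f, hz.zf]

theorem Fld.of_cornerField {f : A} (h : CornerField f) : Fld f := by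
  intro x h1 h2 h3
  obtain ⟨y, k1, k2, k3, k4⟩ := h.2 x h1 h2 h3
  exact ⟨y, k1, k2, k4, k3⟩

theorem Fld.cornerField {f : A} (h : Fld f) (h0 : f ≠ 0) : CornerField f := by
  refine ⟨h0, ?_⟩
  intro x h1 h2 h3
  obtain ⟨y, k1, k2, k3, k4⟩ := h x h1 h2 h3
  exact ⟨y, k1, k2, k4, k3⟩

/-- Lemma T -/
theorem Frame.lemmaT [FiniteDimensional K A] (Fr : Frame W K A) {f z : A} (hf : f * f = f)
    (hF : Fld f) (hz : Vertex z f) {b : A} (hb : b * b = b) :
    (Module.finrank K (Crn K f f) : K) * Fr.τ (b * z)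
      = Fr.τ f * (Module.finrank K (Crn K b f) : K) := by
  suffices H : ∀ n : ℕ, ∀ b : A, b * b = b → Module.finrank K (Crn K b f) = n →
      (Module.finrank K (Crn K f f) : K) * Fr.τ (b * z)
        = Fr.τ f * (Module.finrank K (Crn K b f) : K) from H _ b hb rfl
  intro n
  induction n using Nat.strong_induction_on with
  | _ n ih =>
    intro b hb hn
    by_cases h0 : ∀ x : A, b * x = x → x * f = x → x = 0
    · have h1 : b * z = 0 := hz.mul_eq_zero fun x => h0 _ (by
        rw [← mul_assoc, ← mul_assoc, hb]) (by rw [mul_assoc, hf])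
      have h2 : Crn K b f = ⊥ := by
        rw [eq_bot_iff]
        rintro x ⟨hx, hx'⟩
        exact (Submodule.mem_bot K).2 (h0 x hx hx')
      rw [h1, h2, map_zero, mul_zero, finrank_bot, Nat.cast_zero, mul_zero]
    · push Not at h0
      obtain ⟨a, ha, ha', hne⟩ := h0
      obtain ⟨l, hl, hl', hla, -⟩ := Fr.exists_left hf hb ha ha' hne
      have hla0 : l * a ≠ 0 := by
        intro h
        rw [h, map_zero] at hla
        exact hla rfl
      obtain ⟨y, hy1, hy2, hy3, -⟩ := hF (l * a) (by rw [← mul_assoc, hl])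
        (by rw [mul_assoc, ha']) hla0
      -- normalised
      have k1 : f * (y * l) = y * l := by rw [← mul_assoc, hy1]
      have k2 : y * l * b = y * l := by rw [mul_assoc, hl']
      have k3 : y * l * a = f := by rw [mul_assoc, hy3]
      set m := y * l with hm
      have hsum : Module.finrank K (Crn K b f)
          = Module.finrank K (Crn K (b - a * m) f) + Module.finrank K (Crn K f f) := by
        rw [(crnEquiv (K := K) hf hb ha ha' k1 k2 k3).finrank_eq, Module.finrank_prod]
      have hf0 : f ≠ 0 := by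
        rintro rfl
        exact hne (by rw [← ha', mul_zero])
      have hpos : 0 < Module.finrank K (Crn K f f) := by
        rw [Module.finrank_pos_iff_exists_ne_zero]
        exact ⟨⟨f, hf, hf⟩, fun h => hf0 (congrArg Subtype.val h)⟩
      have hgg : a * m * (a * m) = a * m := by
        rw [show a * m * (a * m) = a * (m * a) * m by noncomm_ring, k3, ha']
      have hbg : b * (a * m) = a * m := by rw [← mul_assoc, ha]
      have hgb : a * m * b = a * m := by rw [mul_assoc, k2]
      have hb' : (b - a * m) * (b - a * m) = b - a * m := by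
        rw [sub_mul, mul_sub, mul_sub, hb, hbg, hgb, hgg]
        abel
      have hih := ih (Module.finrank K (Crn K (b - a * m) f)) (by omega) (b - a * m) hb' rfl
      have hgz : a * m * z = a * m := by
        rw [← hz.central, ← mul_assoc, hz.mul_eq ha']
      have htau : Fr.τ (b * z) = Fr.τ ((b - a * m) * z) + Fr.τ f := by
        rw [sub_mul, hgz, map_sub, Fr.symm a m, k3]
        ring
      rw [htau, mul_add, hih, hsum, Nat.cast_add]
      ring

end PD
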