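import Pool.Agent.Lib.MP_369ee2_lc_PD.Ord
import Pool.Agent.Lib.MP_369ee2_lc_PD.BrF

/-!
# Matrix algebras of class functions are symmetric orders
-/

namespace PDeg

namespace SymMat

open scoped BigOperators

/-- sum of a class function -/
theorem sum_classes {R : Type*} [CommRing R] {Z : Type*} [Fintype Z] (r : Setoid Z)
    (f : Z → R) (hf : ∀ x y, r x y → f x = f y) :
    ∃ (ι : Type) (_ : Fintype ι) (g : ι → Z),
      ∑ z, f z = ∑ i, (Nat.card {y // r y (g i)} : R) * f (g i) := by
  classical
  haveI : Finite (Quotient r) := Quotient.finite r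
  obtain ⟨n, ⟨e⟩⟩ := Finite.exists_equiv_fin (Quotient r)
  refine ⟨Fin n, inferInstance, fun i => (e.symm i).out, ?_⟩
  have h1 : ∑ z, f z = ∑ i : Fin n, ∑ z ∈ Finset.univ.filter
      (fun z => e (Quotient.mk r z) = i), f z :=
    (Finset.sum_fiberwise (s := Finset.univ) (g := fun z => e (Quotient.mk r z)) f).symm
  rw [h1]
  refine Finset.sum_congr rfl (fun i _ => ?_)
  have h2 : ∀ z, e (Quotient.mk r z) = i ↔ r z (e.symm i).out := by
    intro z
    rw [← Equiv.eq_symm_apply]
    constructor
    · intro h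
      exact Quotient.exact (h.trans (Quotient.out_eq _).symm)
    · intro h
      exact (Quotient.sound h).trans (Quotient.out_eq _)
  rw [Finset.sum_congr rfl (g := fun _ => f (e.symm i).out) (fun z hz => by
    rw [Finset.mem_filter] at hz
    exact hf _ _ ((h2 z).1 hz.2))]
  rw [Finset.sum_const, nsmul_eq_mul]
  congr 2
  rw [Nat.card_eq_fintype_card, Fintype.card_subtype]
  congr 1
  ext z
  simp only [Finset.mem_filter, Finset.mem_univ, true_and]
  exact h2 z

variable {S : Type} [Fintype S] [DecidableEq S]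

/-- the indicator matrix of the class of `z` -/
noncomputable def clsMat (R : Type) [Zero R] [One R] (r : Setoid (S × S)) (z : S × S) :
    Matrix S S R := by
  classical
  exact Matrix.of fun a b => if r (a, b) z then 1 else 0

theorem clsMat_apply (R : Type) [Zero R] [One R] (r : Setoid (S × S)) (z : S × S) (a b : S)
    [Decidable (r (a, b) z)] :
    clsMat R r z a b = if r (a, b) z then 1 else 0 := by
  simp only [clsMat, Matrix.of_apply]
  congr

theorem trace_mul_clsMat (R : Type) [CommRing R] (r : Setoid (S × S))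
    (hT : ∀ z z', r z z' → r z.swap z'.swap) (z : S × S) (x : Matrix S S R)
    (hx : ∀ z z', r z z' → x z.1 z.2 = x z'.1 z'.2) :
    Matrix.trace (x * clsMat R r z.swap) = (Nat.card {y // r y z} : R) * x z.1 z.2 := by
  classical
  rw [Matrix.trace]
  simp only [Matrix.diag_apply, Matrix.mul_apply, clsMat_apply]
  rw [← Fintype.sum_prod_type']
  have h1 : ∀ w : S × S, x w.1 w.2 * (if r (w.2, w.1) z.swap then (1 : R) else 0) =
      if r w z then x z.1 z.2 else 0 := by
    intro w
    have h2 : r (w.2, w.1) z.swap ↔ r w z := by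
      constructor
      · intro h
        exact hT _ _ h
      · intro h
        exact hT _ _ h
    by_cases h : r w z
    · rw [if_pos (h2.2 h), if_pos h, mul_one, hx _ _ h]
    · rw [if_neg (fun h' => h (h2.1 h')), if_neg h, mul_zero]
  rw [Finset.sum_congr rfl (fun w _ => h1 w), Finset.sum_ite]
  simp only [Finset.sum_const_zero, add_zero, Finset.sum_const, nsmul_eq_mul]
  congr 2
  rw [Nat.card_eq_fintype_card, Fintype.card_subtype]

theorem clsMat_const (R : Type) [Zero R] [One R] (r : Setoid (S × S)) (z a b : S × S)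
    (hab : r a b) : clsMat R r z a.1 a.2 = clsMat R r z b.1 b.2 := by
  classical
  rw [clsMat_apply, clsMat_apply]
  have : r (a.1, a.2) z ↔ r (b.1, b.2) z :=
    ⟨fun h => r.trans' (r.symm' hab) h, fun h => r.trans' hab h⟩
  simp only [this]

/-- a class function as a combination of the indicator matrices -/
theorem eq_sum_clsMat (R : Type) [CommRing R] (r : Setoid (S × S)) :
    ∃ (ι : Type) (_ : Fintype ι) (g : ι → S × S),
      ∀ x : Matrix S S R, (∀ z z', r z z' → x z.1 z.2 = x z'.1 z'.2) →
        x = ∑ i, x (g i).1 (g i).2 • clsMat R r (g i) := by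
  classical
  haveI : Finite (Quotient r) := Quotient.finite r
  obtain ⟨n, ⟨e⟩⟩ := Finite.exists_equiv_fin (Quotient r)
  refine ⟨Fin n, inferInstance, fun i => (e.symm i).out, fun x hx => ?_⟩
  ext i j
  rw [Matrix.sum_apply, Finset.sum_eq_single (e (Quotient.mk r (i, j)))]
  · have h2 : r (i, j) (e.symm (e (Quotient.mk r (i, j)))).out := by
      rw [Equiv.symm_apply_apply]
      exact r.symm' (Quotient.mk_out (s := r) (i, j))
    rw [Matrix.smul_apply, clsMat_apply, if_pos h2, smul_eq_mul, mul_one]
    exact hx _ _ h2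
  · intro q _ hq
    have h2 : ¬ r (i, j) (e.symm q).out := by
      intro h
      apply hq
      have h3 : Quotient.mk r (i, j) = e.symm q :=
        (Quotient.sound h).trans (Quotient.out_eq _)
      rw [h3, Equiv.apply_symm_apply]
    rw [Matrix.smul_apply, clsMat_apply, if_neg h2, smul_zero]
  · intro h
    exact absurd (Finset.mem_univ _) h

variable {p : ℕ} {W K F : Type} [CommRing W] [IsDomain W] [Field K] [Algebra W K]
  [IsFractionRing W K] [Field F] [Algebra W F]

theorem isUnit_coprime (hB : Base p W K F) {t : ℕ} (ht : t.Coprime p) : IsUnit (t : W) := by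
  apply hB.isUnit_of_ne
  intro h
  have hpF : (p : F) = 0 := by
    have h1 := (hB.ker (p : W)).2 dvd_rfl
    simpa using h1
  have htF : (t : F) = 0 := by simpa using h
  have h2 : IsCoprime (t : ℤ) (p : ℤ) := Nat.isCoprime_iff_coprime.2 ht
  obtain ⟨a, b, hab⟩ := h2
  have h3 : ((a * t + b * p : ℤ) : F) = 1 := by
    rw [hab]
    exact Int.cast_one
  push_cast at h3
  rw [hpF, htF, mul_zero, mul_zero, add_zero] at h3
  exact zero_ne_one h3

/-- **the frame**: class functions with class sizes `p * unit` form a symmetric order -/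
theorem symOrder (hB : Base p W K F) (M : Subalgebra K (Matrix S S K)) (O : Subalgebra W M)
    (τ : M →ₗ[K] K) (hO : ∀ x : M, x ∈ O ↔ ∀ i j, IsInt W ((x : Matrix S S K) i j))
    (hτ : ∀ x : M, τ x = (p : K)⁻¹ * Matrix.trace (x : Matrix S S K)) (r : Setoid (S × S))
    (hM : ∀ T : Matrix S S K, T ∈ M ↔ ∀ z z', r z z' → T z.1 z.2 = T z'.1 z'.2)
    (hT : ∀ z z', r z z' → r z.swap z'.swap)
    (hcard : ∀ z, ∃ t : ℕ, Nat.card {y // r y z} = p * t ∧ t.Coprime p)
    (hdiag : ∀ z z', r z z' → z.1 = z.2 → z'.1 = z'.2) : SymOrder p O τ := by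
  classical
  have hpK : (p : K) ≠ 0 := by
    have h : algebraMap W K (p : W) ≠ 0 := by
      intro h
      exact hB.p_ne_zero ((IsFractionRing.injective W K) (by rw [h, map_zero]))
    simpa using h
  have hc : ∀ z, clsMat K r z ∈ M := by
    intro z
    rw [hM]
    exact fun a b hab => clsMat_const K r z a b hab
  have hcO : ∀ z, (⟨clsMat K r z, hc z⟩ : M) ∈ O := by
    intro z
    rw [hO]
    intro a b
    show IsInt W (clsMat K r z a b)
    rw [clsMat_apply]
    split
    · exact IsInt.one
    · exact IsInt.zero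
  refine
  { fg := ?_
    span := ?_
    comm := ?_
    int := ?_
    dual := ?_
    nil := ?_ }
  · obtain ⟨ι, hι, g, hg⟩ := eq_sum_clsMat K r
    have hspan : Subalgebra.toSubmodule O =
        Submodule.span W (Set.range (fun i => (⟨clsMat K r (g i), hc (g i)⟩ : M))) := by
      apply le_antisymm
      · intro x hx
        have hx' : ∀ i j, IsInt W ((x : Matrix S S K) i j) := (hO x).1 hx
        choose c hcc using hx'
        have h1 : x = ∑ i, c (g i).1 (g i).2 • (⟨clsMat K r (g i), hc (g i)⟩ : M) := by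
          refine Subtype.ext ?_
          rw [AddSubmonoidClass.coe_finsetSum]
          refine (hg (x : Matrix S S K) ((hM _).1 x.2)).trans ?_
          refine Finset.sum_congr rfl (fun i _ => ?_)
          show (x : Matrix S S K) (g i).1 (g i).2 • clsMat K r (g i) =
            c (g i).1 (g i).2 • clsMat K r (g i)
          rw [← hcc, algebraMap_smul]
        rw [h1]
        exact Submodule.sum_mem _ (fun i _ => Submodule.smul_mem _ _
          (Submodule.subset_span ⟨i, rfl⟩))
      · rw [Submodule.span_le]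
        rintro _ ⟨i, rfl⟩
        exact hcO (g i)
    rw [hspan]
    exact Submodule.fg_span (Set.finite_range _)
  · intro x
    have := hB.dvr
    obtain ⟨c, hc'⟩ := IsLocalization.exist_integer_multiples (nonZeroDivisors W)
      (Finset.univ : Finset (S × S)) (fun z => (x : Matrix S S K) z.1 z.2)
    obtain ⟨n, u, hu⟩ := IsDiscreteValuationRing.eq_unit_mul_pow_irreducible
      (nonZeroDivisors.coe_ne_zero c) hB.irr
    refine ⟨n, ?_⟩
    rw [hO]
    intro i j
    obtain ⟨w, hw⟩ := hc' (i, j) (Finset.mem_univ _)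
    have h1 : (((p : M) ^ n * x : M) : Matrix S S K) i j =
        (p : K) ^ n * (x : Matrix S S K) i j := by
      have h2 : ((p : M) ^ n * x : M) = (p : K) ^ n • x := by
        rw [Algebra.smul_def, map_pow, map_natCast]
      rw [h2]
      rfl
    rw [h1]
    refine ⟨(↑u⁻¹ : W) * w, ?_⟩
    rw [map_mul, hw]
    have h3 : (c : W) • (x : Matrix S S K) i j =
        algebraMap W K (u : W) * ((p : K) ^ n * (x : Matrix S S K) i j) := by
      rw [Algebra.smul_def, hu, map_mul, map_pow, map_natCast, mul_assoc]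
    show algebraMap W K (↑u⁻¹ : W) * ((c : W) • (x : Matrix S S K) i j) = _
    rw [h3, ← mul_assoc, ← map_mul, Units.inv_mul, map_one, one_mul]
  · intro x y
    rw [hτ, hτ]
    congr 1
    exact Matrix.trace_mul_comm _ _
  · intro x hx
    rw [hτ]
    rw [hO] at hx
    have h1 : Matrix.trace (x : Matrix S S K) =
        ∑ z : S × S, (if z.1 = z.2 then (x : Matrix S S K) z.1 z.2 else 0) := by
      rw [Fintype.sum_prod_type, Matrix.trace]
      refine Finset.sum_congr rfl (fun i _ => ?_)
      rw [Finset.sum_ite_eq]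
      simp
    obtain ⟨ι, hι, g, hg⟩ := sum_classes r (fun z : S × S =>
      if z.1 = z.2 then (x : Matrix S S K) z.1 z.2 else 0) (by
        intro a b hab
        have h3 := (hM _).1 x.2 _ _ hab
        have h4 : a.1 = a.2 ↔ b.1 = b.2 := ⟨hdiag _ _ hab, hdiag _ _ (r.symm' hab)⟩
        simp only [h3, h4])
    rw [h1, hg, Finset.mul_sum]
    refine IsInt.sum _ (fun i _ => ?_)
    obtain ⟨t, ht, _⟩ := hcard (g i)
    rw [ht, Nat.cast_mul, ← mul_assoc, ← mul_assoc, inv_mul_cancel₀ hpK, one_mul]
    refine IsInt.mul (IsInt.natCast t) ?_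
    split
    · exact hx _ _
    · exact IsInt.zero
  · intro x hx
    rw [hO]
    intro i j
    obtain ⟨t, ht, htu⟩ := hcard (i, j)
    have h1 := hx ⟨clsMat K r (j, i), hc _⟩ (hcO _)
    rw [hτ] at h1
    have h2 := trace_mul_clsMat K r hT (i, j) (x : Matrix S S K) ((hM _).1 x.2)
    have h3 : (p : K)⁻¹ * Matrix.trace ((x : Matrix S S K) * clsMat K r (j, i)) =
        (t : K) * (x : Matrix S S K) i j := by
      have h4 : Prod.swap (i, j) = (j, i) := rfl
      rw [h4] at h2
      rw [h2, ht, Nat.cast_mul, ← mul_assoc, ← mul_assoc, inv_mul_cancel₀ hpK, one_mul]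
    have h5 : IsInt W ((t : K) * (x : Matrix S S K) i j) := by
      rw [← h3]
      exact h1
    obtain ⟨u, hu⟩ := isUnit_coprime hB htu
    obtain ⟨w, hw⟩ := h5
    refine ⟨(↑u⁻¹ : W) * w, ?_⟩
    rw [map_mul, hw]
    have h6 : (t : K) = algebraMap W K (u : W) := by
      rw [hu]
      simp
    rw [h6, ← mul_assoc, ← map_mul, Units.inv_mul, map_one, one_mul]
  · intro x hx
    rw [hτ]
    have h1 : IsNilpotent (x : Matrix S S K) := by
      obtain ⟨n, hn⟩ := hx
      exact ⟨n, by rw [← SubmonoidClass.coe_pow, hn]; rfl⟩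
    have h2 := Matrix.isNilpotent_trace_of_isNilpotent h1
    rw [h2.eq_zero, mul_zero]

end SymMat

end PDeg
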