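import Pool.Agent.Lib.MP_369ee2_lc_PD.Ord
import Pool.Agent.Lib.MP_369ee2_lc_PD.SymMat

/-!
# `Λ_W` and `P_W` are symmetric orders, given the class sizes
-/

namespace PDeg

open scoped BigOperators Matrix

section
variable {X : Type} [Fintype X] [DecidableEq X] (C : Coh X) {p : ℕ} {W K F : Type}
  [CommRing W] [IsDomain W] [Field K] [Algebra W K] [IsFractionRing W K] [Field F] [Algebra W F]

theorem OrderSym48.vec2 (x : Fin 2 → X) : ![x 0, x 1] = x := by
  funext i
  fin_cases i <;> rfl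

theorem OrderSym48.vec4 (x : Fin 4 → X) : ![x 0, x 1, x 2, x 3] = x := by
  funext i
  fin_cases i <;> rfl

theorem OrderSym48.lam (hB : Base p W K F) (hX : Fintype.card X = p)
    (hsize : ∀ z : Fin 2 → X, ∃ t : ℕ, Nat.card {x : Fin 2 → X // C.r 2 x z} = p * t ∧
      t.Coprime p) :
    SymOrder p (LamO C W K) (tauL C K) := by
  classical
  have hE := C.equiv 2 (by norm_num)
  let r : Setoid (X × X) :=
    { r := fun z z' => C.r 2 ![z.1, z.2] ![z'.1, z'.2]
      iseqv := ⟨fun z => hE.refl _, fun h => hE.symm h, fun h h' => hE.trans h h'⟩ }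
  refine SymMat.symOrder hB (C.Lam K) (LamO C W K) (tauL C K) (fun x => Iff.rfl)
    (fun x => by rw [tauL_apply, hX]) r ?_ ?_ ?_ ?_
  · intro T
    rw [Coh.mem_Lam]
    constructor
    · intro h z z' hz
      exact h _ _ hz
    · intro h x y hxy
      refine h (x 0, x 1) (y 0, y 1) ?_
      show C.r 2 ![x 0, x 1] ![y 0, y 1]
      rw [OrderSym48.vec2, OrderSym48.vec2]
      exact hxy
  · intro z z' hz
    have h1 := C.reindex (n := 2) (k := 2) (by norm_num) (by norm_num) ![1, 0] _ _ hz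
    have h2 : ∀ z : X × X, (fun i => ![z.1, z.2] ((![1, 0] : Fin 2 → Fin 2) i)) =
        ![z.2, z.1] := by
      intro z
      funext i
      fin_cases i <;> rfl
    rw [h2, h2] at h1
    exact h1
  · intro z
    obtain ⟨t, ht, ht2⟩ := hsize ![z.1, z.2]
    refine ⟨t, ?_, ht2⟩
    rw [← ht]
    refine Nat.card_congr (Equiv.subtypeEquiv (finTwoArrowEquiv X).symm (fun y => ?_))
    exact Iff.rfl
  · intro z z' hz h
    exact C.pattern (by norm_num) _ _ hz 0 1 h

theorem OrderSym48.pp (hB : Base p W K F) (hX : Fintype.card X = p)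
    (hsize : ∀ z : Fin 4 → X, ∃ t : ℕ, Nat.card {x : Fin 4 → X // C.r 4 x z} = p * t ∧
      t.Coprime p) :
    SymOrder p (PPO C W K) (tauP C K) := by
  classical
  have hE := C.equiv 4 (by norm_num)
  let r : Setoid ((X × X) × (X × X)) :=
    { r := fun z z' => C.r 4 ![z.1.1, z.1.2, z.2.1, z.2.2] ![z'.1.1, z'.1.2, z'.2.1, z'.2.2]
      iseqv := ⟨fun z => hE.refl _, fun h => hE.symm h, fun h h' => hE.trans h h'⟩ }
  refine SymMat.symOrder hB (C.PP K) (PPO C W K) (tauP C K) (fun x => Iff.rfl)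
    (fun x => by rw [tauP_apply, hX]) r ?_ ?_ ?_ ?_
  · intro T
    rw [Coh.mem_PP]
    constructor
    · intro h z z' hz
      exact h _ _ hz
    · intro h x y hxy
      refine h ((x 0, x 1), (x 2, x 3)) ((y 0, y 1), (y 2, y 3)) ?_
      show C.r 4 ![x 0, x 1, x 2, x 3] ![y 0, y 1, y 2, y 3]
      rw [OrderSym48.vec4, OrderSym48.vec4]
      exact hxy
  · intro z z' hz
    have h1 := C.reindex (n := 4) (k := 4) (by norm_num) (by norm_num) ![2, 3, 0, 1] _ _ hz
    have h2 : ∀ z : (X × X) × (X × X), (fun i => ![z.1.1, z.1.2, z.2.1, z.2.2]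
        ((![2, 3, 0, 1] : Fin 4 → Fin 4) i)) = ![z.2.1, z.2.2, z.1.1, z.1.2] := by
      intro z
      funext i
      fin_cases i <;> rfl
    rw [h2, h2] at h1
    exact h1
  · intro z
    obtain ⟨t, ht, ht2⟩ := hsize ![z.1.1, z.1.2, z.2.1, z.2.2]
    refine ⟨t, ?_, ht2⟩
    rw [← ht]
    let e : (X × X) × (X × X) ≃ (Fin 4 → X) :=
      { toFun := fun z => ![z.1.1, z.1.2, z.2.1, z.2.2]
        invFun := fun x => ((x 0, x 1), (x 2, x 3))
        left_inv := fun z => rfl
        right_inv := fun x => OrderSym48.vec4 x }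
    refine Nat.card_congr (Equiv.subtypeEquiv e (fun y => ?_))
    exact Iff.rfl
  · intro z z' hz h
    have h1 : z.1.1 = z.2.1 := congrArg Prod.fst h
    have h2 : z.1.2 = z.2.2 := congrArg Prod.snd h
    exact Prod.ext (C.pattern (by norm_num) _ _ hz 0 2 h1)
      (C.pattern (by norm_num) _ _ hz 1 3 h2)

/-- traces of idempotents are natural numbers -/
theorem OrderSym48.pp_nat (hB : Base p W K F) (hX : Fintype.card X = p) (g : ↥(C.PP K))
    (hg : g * g = g) :
    (p : K) * tauP C K g = ((g : Matrix (X × X) (X × X) K).rank : K) := by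
  have hpK : (p : K) ≠ 0 := by
    have h : algebraMap W K (p : W) ≠ 0 := by
      intro h
      exact hB.p_ne_zero ((IsFractionRing.injective W K) (by rw [h, map_zero]))
    simpa using h
  rw [tauP_apply, hX, ← mul_assoc, mul_inv_cancel₀ hpK, one_mul]
  have h1 : IsIdempotentElem (Matrix.toLin' (g : Matrix (X × X) (X × X) K)) := by
    have h2 : (g : Matrix (X × X) (X × X) K) * (g : Matrix (X × X) (X × X) K) = g :=
      congrArg Subtype.val hg
    show Matrix.toLin' _ * Matrix.toLin' _ = _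
    rw [Module.End.mul_eq_comp, ← Matrix.toLin'_mul, h2]
  have h3 := (LinearMap.IsIdempotentElem.isProj_range _ h1).trace
  rw [Matrix.rank, ← Matrix.toLin'_apply']
  rw [← h3]
  exact (Matrix.trace_toLin'_eq _).symm

end

end PDeg
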