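import Pool.Agent.Lib.MP_369ee2_lc_PD.MColCount

/-!
# The matrix algebras of a scheme

`IsLam`, `IsAA`, `IsP`, `IsH` : matrices depending only on the colour.
-/

namespace MSch

open Function Matrix

namespace MScheme

variable {V : Type} [Fintype V] {m : ℕ} (Q : MScheme V m)

section preds

variable {R : Type*}

/-- `Lam` : matrices `X x X` depending only on the colour -/
def IsLam (a : Matrix V V R) : Prop := Q.Const (fun x : Fin 2 → V => a (x 0) (x 1))

/-- `AA` : functions `a(x; y, y')` on `X^3` depending only on the colour -/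
def IsAA (a : V → Matrix V V R) : Prop := Q.Const (fun x : Fin 3 → V => a (x 0) (x 1) (x 2))

/-- `P` : matrices `X^2 x X^2` depending only on the colour -/
def IsP (T : Matrix (V × V) (V × V) R) : Prop :=
  Q.Const (fun x : Fin 4 → V => T (x 0, x 1) (x 2, x 3))

/-- `Hom(1,2)` : target `X^2`, source `X` -/
def IsH (T : Matrix (V × V) V R) : Prop :=
  Q.Const (fun x : Fin 3 → V => T (x 0, x 1) (x 2))

variable {Q} {I : Type} [Fintype I]

theorem IsLam.at {a : Matrix V V R} (h : Q.IsLam a) (hI : Fintype.card I ≤ m) (i j : I) :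
    Q.Const (fun x : I → V => a (x i) (x j)) :=
  Const.comp (f := fun x : Fin 2 → V => a (x 0) (x 1)) h hI ![i, j]

theorem IsAA.at {a : V → Matrix V V R} (h : Q.IsAA a) (hI : Fintype.card I ≤ m) (i j k : I) :
    Q.Const (fun x : I → V => a (x i) (x j) (x k)) :=
  Const.comp (f := fun x : Fin 3 → V => a (x 0) (x 1) (x 2)) h hI ![i, j, k]

theorem IsH.at {T : Matrix (V × V) V R} (h : Q.IsH T) (hI : Fintype.card I ≤ m) (i j k : I) :
    Q.Const (fun x : I → V => T (x i, x j) (x k)) :=
  Const.comp (f := fun x : Fin 3 → V => T (x 0, x 1) (x 2)) h hI ![i, j, k]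

theorem IsP.at {T : Matrix (V × V) (V × V) R} (h : Q.IsP T) (hI : Fintype.card I ≤ m)
    (i j k l : I) : Q.Const (fun x : I → V => T (x i, x j) (x k, x l)) :=
  Const.comp (f := fun x : Fin 4 → V => T (x 0, x 1) (x 2, x 3)) h hI ![i, j, k, l]

end preds

section ring

variable {R : Type*} [CommRing R]

variable {Q}

theorem IsLam.mul (hm : 6 ≤ m) {a b : Matrix V V R} (ha : Q.IsLam a) (hb : Q.IsLam b) :
    Q.IsLam (a * b) := by
  have h := ((ha.at (I := Fin 2 ⊕ Unit) (by simp; omega) (Sum.inl 0) (Sum.inr ())).mul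
    (hb.at (by simp; omega) (Sum.inr ()) (Sum.inl 1))).sum_one (by simp; omega)
  exact h

theorem IsAA.mul (hm : 6 ≤ m) {a b : V → Matrix V V R} (ha : Q.IsAA a) (hb : Q.IsAA b) :
    Q.IsAA (a * b) := by
  have h := ((ha.at (I := Fin 3 ⊕ Unit) (by simp; omega) (Sum.inl 0) (Sum.inl 1)
    (Sum.inr ())).mul (hb.at (by simp; omega) (Sum.inl 0) (Sum.inr ())
      (Sum.inl 2))).sum_one (by simp; omega)
  exact h

theorem IsP.mul (hm : 6 ≤ m) {a b : Matrix (V × V) (V × V) R} (ha : Q.IsP a) (hb : Q.IsP b) :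
    Q.IsP (a * b) := by
  have h := ((ha.at (I := Fin 4 ⊕ Fin 2) (by simp; omega) (Sum.inl 0) (Sum.inl 1)
    (Sum.inr 0) (Sum.inr 1)).mul (hb.at (by simp; omega) (Sum.inr 0) (Sum.inr 1)
      (Sum.inl 2) (Sum.inl 3))).sum_two (by simp; omega)
  exact h

theorem IsLam.kronecker (hm : 6 ≤ m) {a b : Matrix V V R} (ha : Q.IsLam a) (hb : Q.IsLam b) :
    Q.IsP (kronecker a b) := by
  have h := (ha.at (I := Fin 4) (by simp; omega) 0 2).mul (hb.at (by simp; omega) 1 3)
  exact h

variable [DecidableEq V]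

theorem IsLam.one : Q.IsLam (1 : Matrix V V R) := by
  have h := Const.ite (Q := Q) (R := R) (Const.eq_pattern (I := Fin 2) 0 1)
    (Const.const 1) (Const.const 0)
  exact h

theorem IsAA.one : Q.IsAA (1 : V → Matrix V V R) := by
  have h := Const.ite (Q := Q) (R := R) (Const.eq_pattern (I := Fin 3) 1 2)
    (Const.const 1) (Const.const 0)
  exact h

theorem IsP.one : Q.IsP (1 : Matrix (V × V) (V × V) R) := by
  have h := Const.ite (Q := Q) (R := R) (Const.map₂ (Const.eq_pattern (I := Fin 4) 0 2)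
    (Const.eq_pattern (I := Fin 4) 1 3) And) (Const.const 1) (Const.const 0)
  intro x y hxy
  have h1 := h x y hxy
  simpa [Matrix.one_apply, Prod.ext_iff] using h1

end ring

section alg

variable (R : Type*) [CommRing R] [DecidableEq V]

/-- the algebra `Lam_R` -/
def lam (hm : 6 ≤ m) : Subalgebra R (Matrix V V R) where
  carrier := {a | Q.IsLam a}
  mul_mem' ha hb := IsLam.mul hm ha hb
  add_mem' ha hb := Const.add ha hb
  algebraMap_mem' r := by
    rw [Algebra.algebraMap_eq_smul_one]
    exact Const.smul r IsLam.one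

/-- the algebra `AA_R` -/
def aa (hm : 6 ≤ m) : Subalgebra R (V → Matrix V V R) where
  carrier := {a | Q.IsAA a}
  mul_mem' ha hb := IsAA.mul hm ha hb
  add_mem' ha hb := Const.add ha hb
  algebraMap_mem' r := by
    rw [Algebra.algebraMap_eq_smul_one]
    exact Const.smul r IsAA.one

/-- the algebra `P_R` -/
def pp (hm : 6 ≤ m) : Subalgebra R (Matrix (V × V) (V × V) R) where
  carrier := {a | Q.IsP a}
  mul_mem' ha hb := IsP.mul hm ha hb
  add_mem' ha hb := Const.add ha hb
  algebraMap_mem' r := by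
    rw [Algebra.algebraMap_eq_smul_one]
    exact Const.smul r IsP.one

end alg

end MScheme

section mats

variable {V : Type} [Fintype V] {R : Type*} [CommRing R]

/-- the all one matrix -/
def JJ (V R : Type*) [One R] : Matrix V V R := Matrix.of fun _ _ => 1

/-- `a ⊗ 1` -/
def l1 [DecidableEq V] (a : Matrix V V R) : Matrix (V × V) (V × V) R := kronecker a 1

/-- `1 ⊗ a` -/
def l2 [DecidableEq V] (a : Matrix V V R) : Matrix (V × V) (V × V) R := kronecker 1 a

/-- the diagonal idempotent `δ` -/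
def dlt (V R : Type*) [DecidableEq V] [Zero R] [One R] : Matrix (V × V) (V × V) R :=
  Matrix.of fun z x => if z.1 = z.2 ∧ x.1 = x.2 ∧ z.1 = x.1 then 1 else 0

/-- `a *1 T`; the base point is the first source coordinate -/
def star1 {Y : Type*} (a : V → Matrix V V R) (T : Matrix (V × V) (V × Y) R) :
    Matrix (V × V) (V × Y) R :=
  Matrix.of fun z x => ∑ w, a x.1 z.1 w * T (w, z.2) x

/-- `a *2 T`; the base point is the first source coordinate -/
def star2 {Y : Type*} (a : V → Matrix V V R) (T : Matrix (V × V) (V × Y) R) :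
    Matrix (V × V) (V × Y) R :=
  Matrix.of fun z x => ∑ w, a x.1 z.2 w * T (z.1, w) x

/-- a matrix as an element of `AA` not depending on the base point -/
def toAA (a : Matrix V V R) : V → Matrix V V R := fun _ => a

/-- the sum over the first target coordinate -/
def sg1 {Y : Type*} (T : Matrix (V × V) Y R) : Matrix V Y R :=
  Matrix.of fun z x => ∑ w, T (w, z) x

/-- the sum over the second target coordinate -/
def sg2 {Y : Type*} (T : Matrix (V × V) Y R) : Matrix V Y R :=
  Matrix.of fun z x => ∑ w, T (z, w) x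

theorem l1_mul_apply [DecidableEq V] {Y : Type*} (a : Matrix V V R)
    (T : Matrix (V × V) Y R) (z : V × V) (x : Y) :
    (l1 a * T) z x = ∑ w, a z.1 w * T (w, z.2) x := by
  rw [Matrix.mul_apply, Fintype.sum_prod_type]
  refine Finset.sum_congr rfl (fun w _ => ?_)
  rw [Finset.sum_eq_single z.2]
  · simp [l1, kronecker]
  · intro b _ hb
    simp [l1, kronecker, Ne.symm hb]
  · simp

theorem l2_mul_apply [DecidableEq V] {Y : Type*} (a : Matrix V V R)
    (T : Matrix (V × V) Y R) (z : V × V) (x : Y) :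
    (l2 a * T) z x = ∑ w, a z.2 w * T (z.1, w) x := by
  rw [Matrix.mul_apply, Fintype.sum_prod_type, Finset.sum_eq_single z.1]
  · refine Finset.sum_congr rfl (fun w _ => ?_)
    simp [l2, kronecker]
  · intro b _ hb
    refine Finset.sum_eq_zero (fun w _ => ?_)
    simp [l2, kronecker, Ne.symm hb]
  · simp

theorem star1_toAA [DecidableEq V] {Y : Type*} (a : Matrix V V R)
    (T : Matrix (V × V) (V × Y) R) : star1 (toAA a) T = l1 a * T := by
  ext z x
  rw [l1_mul_apply]
  rfl

theorem star2_toAA [DecidableEq V] {Y : Type*} (a : Matrix V V R)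
    (T : Matrix (V × V) (V × Y) R) : star2 (toAA a) T = l2 a * T := by
  ext z x
  rw [l2_mul_apply]
  rfl

theorem JJ1_mul_apply [DecidableEq V] {Y : Type*} (T : Matrix (V × V) Y R) (z : V × V)
    (x : Y) : (l1 (JJ V R) * T) z x = sg1 T z.2 x := by
  rw [l1_mul_apply]
  simp [JJ, sg1]

theorem JJ2_mul_apply [DecidableEq V] {Y : Type*} (T : Matrix (V × V) Y R) (z : V × V)
    (x : Y) : (l2 (JJ V R) * T) z x = sg2 T z.1 x := by
  rw [l2_mul_apply]
  simp [JJ, sg2]

theorem star1_mul {Y : Type*} (a b : V → Matrix V V R) (T : Matrix (V × V) (V × Y) R) :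
    star1 (a * b) T = star1 a (star1 b T) := by
  ext z x
  simp only [star1, Matrix.of_apply, Pi.mul_apply, Matrix.mul_apply, Finset.sum_mul,
    Finset.mul_sum]
  rw [Finset.sum_comm]
  refine Finset.sum_congr rfl (fun w _ => Finset.sum_congr rfl (fun w' _ => ?_))
  ring

theorem star2_mul {Y : Type*} (a b : V → Matrix V V R) (T : Matrix (V × V) (V × Y) R) :
    star2 (a * b) T = star2 a (star2 b T) := by
  ext z x
  simp only [star2, Matrix.of_apply, Pi.mul_apply, Matrix.mul_apply, Finset.sum_mul,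
    Finset.mul_sum]
  rw [Finset.sum_comm]
  refine Finset.sum_congr rfl (fun w _ => Finset.sum_congr rfl (fun w' _ => ?_))
  ring

theorem star1_star2 {Y : Type*} (a b : V → Matrix V V R) (T : Matrix (V × V) (V × Y) R) :
    star1 a (star2 b T) = star2 b (star1 a T) := by
  ext z x
  simp only [star1, star2, Matrix.of_apply, Finset.mul_sum]
  rw [Finset.sum_comm]
  refine Finset.sum_congr rfl (fun w _ => Finset.sum_congr rfl (fun w' _ => ?_))
  ring

theorem star1_add {Y : Type*} (a b : V → Matrix V V R) (T : Matrix (V × V) (V × Y) R) :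
    star1 (a + b) T = star1 a T + star1 b T := by
  ext z x
  simp [star1, add_mul, Finset.sum_add_distrib]

theorem star2_add {Y : Type*} (a b : V → Matrix V V R) (T : Matrix (V × V) (V × Y) R) :
    star2 (a + b) T = star2 a T + star2 b T := by
  ext z x
  simp [star2, add_mul, Finset.sum_add_distrib]

theorem star1_add_right {Y : Type*} (a : V → Matrix V V R) (T S : Matrix (V × V) (V × Y) R) :
    star1 a (T + S) = star1 a T + star1 a S := by
  ext z x
  simp [star1, mul_add, Finset.sum_add_distrib]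

theorem star2_add_right {Y : Type*} (a : V → Matrix V V R) (T S : Matrix (V × V) (V × Y) R) :
    star2 a (T + S) = star2 a T + star2 a S := by
  ext z x
  simp [star2, mul_add, Finset.sum_add_distrib]

theorem star1_zero {Y : Type*} (a : V → Matrix V V R) :
    star1 a (0 : Matrix (V × V) (V × Y) R) = 0 := by
  ext z x
  simp [star1]

theorem star2_zero {Y : Type*} (a : V → Matrix V V R) :
    star2 a (0 : Matrix (V × V) (V × Y) R) = 0 := by
  ext z x
  simp [star2]

theorem star1_one [DecidableEq V] {Y : Type*} (T : Matrix (V × V) (V × Y) R) :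
    star1 1 T = T := by
  ext z x
  simp [star1, Matrix.one_apply]

theorem star2_one [DecidableEq V] {Y : Type*} (T : Matrix (V × V) (V × Y) R) :
    star2 1 T = T := by
  ext z x
  simp [star2, Matrix.one_apply]

theorem l1_mul [DecidableEq V] (a b : Matrix V V R) : l1 (a * b) = l1 a * l1 b := by
  have h := Matrix.mul_kronecker_mul a b (1 : Matrix V V R) (1 : Matrix V V R)
  rw [Matrix.mul_one] at h
  exact h

theorem l2_mul [DecidableEq V] (a b : Matrix V V R) : l2 (a * b) = l2 a * l2 b := by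
  have h := Matrix.mul_kronecker_mul (1 : Matrix V V R) (1 : Matrix V V R) a b
  rw [Matrix.mul_one] at h
  exact h

theorem l1_l2 [DecidableEq V] (a b : Matrix V V R) : l1 a * l2 b = kronecker a b := by
  have h := Matrix.mul_kronecker_mul a (1 : Matrix V V R) (1 : Matrix V V R) b
  rw [Matrix.mul_one, Matrix.one_mul] at h
  exact h.symm

theorem l2_l1 [DecidableEq V] (a b : Matrix V V R) : l2 b * l1 a = kronecker a b := by
  have h := Matrix.mul_kronecker_mul (1 : Matrix V V R) a b (1 : Matrix V V R)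
  rw [Matrix.mul_one, Matrix.one_mul] at h
  exact h.symm

theorem l1_comm_l2 [DecidableEq V] (a b : Matrix V V R) : l1 a * l2 b = l2 b * l1 a := by
  rw [l1_l2, l2_l1]

theorem l1_one [DecidableEq V] : l1 (1 : Matrix V V R) = 1 := Matrix.one_kronecker_one

theorem l2_one [DecidableEq V] : l2 (1 : Matrix V V R) = 1 := Matrix.one_kronecker_one

theorem dlt_mul_self [DecidableEq V] : dlt V R * dlt V R = dlt V R := by
  ext z x
  rw [Matrix.mul_apply, Fintype.sum_prod_type]
  simp only [dlt, Matrix.of_apply]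
  by_cases h1 : z.1 = z.2
  · by_cases h2 : x.1 = x.2
    · rw [Finset.sum_eq_single z.1, Finset.sum_eq_single z.1]
      · simp [h1, h2]
      · intro b _ hb
        simp [Ne.symm hb]
      · simp
      · intro b _ hb
        refine Finset.sum_eq_zero (fun c _ => ?_)
        simp [Ne.symm hb]
      · simp
    · simp [h2]
  · simp [h1]

end mats

namespace MScheme

variable {V : Type} [Fintype V] {m : ℕ} {Q : MScheme V m} {R : Type*} [CommRing R]

theorem isLam_JJ : Q.IsLam (JJ V R) := fun _ _ _ => rfl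

theorem IsLam.toAA (hm : 6 ≤ m) {a : Matrix V V R} (ha : Q.IsLam a) :
    Q.IsAA (MSch.toAA a) := ha.at (by simp; omega) 1 2

theorem IsP.star1 (hm : 6 ≤ m) {a : V → Matrix V V R} {T : Matrix (V × V) (V × V) R}
    (ha : Q.IsAA a) (hT : Q.IsP T) : Q.IsP (star1 a T) := by
  have h := ((ha.at (I := Fin 4 ⊕ Unit) (by simp; omega) (Sum.inl 2) (Sum.inl 0)
    (Sum.inr ())).mul (hT.at (by simp; omega) (Sum.inr ()) (Sum.inl 1)
      (Sum.inl 2) (Sum.inl 3))).sum_one (by simp; omega)
  exact h

theorem IsP.star2 (hm : 6 ≤ m) {a : V → Matrix V V R} {T : Matrix (V × V) (V × V) R}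
    (ha : Q.IsAA a) (hT : Q.IsP T) : Q.IsP (star2 a T) := by
  have h := ((ha.at (I := Fin 4 ⊕ Unit) (by simp; omega) (Sum.inl 2) (Sum.inl 1)
    (Sum.inr ())).mul (hT.at (by simp; omega) (Sum.inl 0) (Sum.inr ())
      (Sum.inl 2) (Sum.inl 3))).sum_one (by simp; omega)
  exact h

theorem IsP.add {S T : Matrix (V × V) (V × V) R} (hS : Q.IsP S) (hT : Q.IsP T) :
    Q.IsP (S + T) := Const.add hS hT

theorem IsP.sub {S T : Matrix (V × V) (V × V) R} (hS : Q.IsP S) (hT : Q.IsP T) :
    Q.IsP (S - T) := Const.sub hS hT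

theorem IsP.smul (c : R) {T : Matrix (V × V) (V × V) R} (hT : Q.IsP T) :
    Q.IsP (c • T) := Const.smul c hT

theorem IsP.transpose (hm : 6 ≤ m) {T : Matrix (V × V) (V × V) R} (hT : Q.IsP T) :
    Q.IsP T.transpose := hT.at (by simp; omega) 2 3 0 1

theorem IsLam.transpose (hm : 6 ≤ m) {T : Matrix V V R} (hT : Q.IsLam T) :
    Q.IsLam T.transpose := hT.at (by simp; omega) 1 0

variable [DecidableEq V]

theorem IsLam.l1 (hm : 6 ≤ m) {a : Matrix V V R} (ha : Q.IsLam a) : Q.IsP (l1 a) :=
  ha.kronecker hm IsLam.one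

theorem IsLam.l2 (hm : 6 ≤ m) {a : Matrix V V R} (ha : Q.IsLam a) : Q.IsP (l2 a) :=
  IsLam.one.kronecker hm ha

theorem isP_dlt : Q.IsP (dlt V R) := by
  have h := Const.ite (Q := Q) (R := R) (Const.map₂ (Const.eq_pattern (I := Fin 4) 0 1)
    (Const.map₂ (Const.eq_pattern (I := Fin 4) 2 3) (Const.eq_pattern (I := Fin 4) 0 2)
      And) And) (Const.const 1) (Const.const 0)
  exact h

end MScheme

end MSch
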