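import Pool.Agent.Lib.MP_369ee2_lc_PD.Ord
import Pool.Agent.Lib.MP_369ee2_lc_PD.ColourCount

/-!
# Counting colours of triples (row S15, end of section 9)
-/

namespace PDeg

section
variable {X : Type} [Fintype X] [DecidableEq X] {C : Coh X}
variable {p : ℕ} {W K : Type} [CommRing W] [Field K] [Algebra W K]

omit [Fintype X] [DecidableEq X] in
private theorem triples_sn3 (a b c : X) : (sn ![a, b] c : Fin 3 → X) = ![a, b, c] := by
  ext i
  fin_cases i <;> rfl

omit [Fintype X] [DecidableEq X] in
private theorem triples_sn2 (a b : X) : (sn ![a] b : Fin 2 → X) = ![a, b] := by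
  ext i
  fin_cases i <;> rfl

theorem singles {k d : ℕ} {y : Matrix X X W} {ζ0 : W} (hp : p.Prime)
    (Y : YData C p W K k d y ζ0)
    (h : Nat.card (Quot (C.r 3)) = k * (k * d) + (2 * k + 1)) (x y z : X) (hxy : x ≠ y)
    (hxz : x ≠ z) (hyz : y ≠ z) : Nat.card {w : X // C.r 3 ![x, y, w] ![x, y, z]} = 1 := by
  have hp2 := hp.two_le
  have hkd := Y.kd
  have h1 := C.singletons_of_count p k d Y.card hp2 (by omega) (fun a b hab => by
    have h2 := Y.val a b hab
    rw [← h2]
    unfold Coh.fb
    simp only [triples_sn2]) Y.rank2 (by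
      rw [h]
      exact le_of_eq (by ring)) x y hxy z hxz.symm hyz.symm
  simp only [triples_sn3] at h1
  exact h1

end

end PDeg
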