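import Pool.Agent.Lib.MP_369ee2_lc_PD.Count
import Pool.Agent.Lib.MP_369ee2_lc_PD.Triples
import Pool.Agent.Lib.MP_369ee2_lc_PD.YD
import Pool.Agent.Lib.MP_369ee2_lc_PD.FromScheme
import Pool.Agent.Lib.MP_369ee2_lc_PD.Match

/-!
# The prime degree theorem (assembly)
-/

namespace PDeg

open MSch

theorem prime_matching {V : Type} [Fintype V] {m : ℕ} (Q : MScheme V m) (hm : 6 ≤ m)
    (hp : (Fintype.card V).Prime) (hH : Q.Homogeneous) (hA : Q.Antisymmetric) :
    Q.HasMatching := by
  classical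
  set p := Fintype.card V with hV
  have hodd : Odd p := odd_card Q (by omega) (by have := hp.two_le; omega) hH hA
  have hp2 : p ≠ 2 := by
    rintro h
    rw [h] at hodd
    exact absurd hodd (by decide)
  obtain ⟨C, hC⟩ := exists_coh Q hm hp.two_le hH hA
  obtain ⟨W, K, F, _, _, _, _, _, _, _, hB⟩ := exists_base p hp
  obtain ⟨k, d, y, ζ0, Y⟩ := exists_yData (W := W) (K := K) (F := F) C hB hV.symm hp2
  obtain ⟨q, r, P⟩ := exists_pData C hB Y
  obtain ⟨ζ, i0, b, B⟩ := exists_bData hB Y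
  have h1 := dl_dim_sum hB Y B
  rw [dl_dim (C := C) (K := K), Finset.sum_congr rfl (fun i _ => count_main hB hp2 Y P B i)] at h1
  rw [Finset.sum_const, Finset.card_univ, Fintype.card_fin, smul_eq_mul] at h1
  refine match_of Q hm ?_ hH C hC (fun x y z hxy hxz hyz => singles hp Y h1 x y z hxy hxz hyz)
  have := hp.two_le
  omega

end PDeg
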