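import Pool.Agent.Lib.MP_369ee2_lc_PD.FromScheme
import Pool.Agent.Lib.MP_369ee2_lc_PD.Match
import Pool.Agent.Lib.MP_369ee2_lc_PD.FibreBlock

/-!
# From singletons over pairs to matchings, antisymmetry being asked of the colours of pairs only
-/

namespace PDeg

open MSch

/-- From the statement that all fibres over pairs of distinct points are singletons for coherent colourings of a set
of prime cardinality to matchings of schemes of prime degree without symmetric colour of pairs. -/
theorem matching_of_singles
    (singles : ∀ (X : Type) [Fintype X] (C : Coh X), (Fintype.card X).Prime →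
      ∀ x y z : X, x ≠ y → x ≠ z → y ≠ z → Nat.card {w : X // C.r 3 ![x, y, w] ![x, y, z]} = 1)
    (V : Type) [Fintype V] (m : ℕ) (Q : MScheme V m) (hm : 6 ≤ m)
    (hp : (Fintype.card V).Prime) (hH : Q.Homogeneous)
    (h2 : ∀ x : Fin 2 ↪ V, ¬ (Q.P 2).r ((Equiv.swap (0 : Fin 2) 1).toEmbedding.trans x) x) :
    Q.HasMatching := by
  have h2le := hp.two_le
  have hodd : Odd (Fintype.card V) := odd_card_weak Q (by omega) (by omega) hH h2
  have h3 : 3 ≤ Fintype.card V := by
    rcases hodd with ⟨k, hk⟩
    omega
  obtain ⟨C, hC⟩ := exists_coh_weak Q hm h2le hH h2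
  exact match_of Q hm h3 hH C (fun n hn => hC n (hn.trans hm)) (singles V C hp)

end PDeg
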