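import Pool.Agent.Lib.MP_369ee2_lc_PD.ELMain
import Pool.Agent.Lib.MP_369ee2_lc_PD.VtxL
import Pool.Agent.Lib.MP_369ee2_lc_PD.GoodD
import Pool.Agent.Lib.MP_369ee2_lc_PD.LemmaT
import Pool.Agent.Lib.MP_369ee2_lc_PD.Decomp
import Pool.Agent.Lib.MP_369ee2_lc_PD.BaseWitt

/-!
# Signs on the block (row A8)
-/

namespace PDeg

open scoped BigOperators

section
variable {p : ℕ} {W K : Type} (F : Type) [CommRing W] [IsDomain W] [Field K] [Algebra W K]
  [IsFractionRing W K] [Field F] [Algebra W F] [Base p W K F]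
  {A : Type} [Ring A] [Algebra K A] [Algebra W A] [IsScalarTower W K A] [FiniteDimensional K A]
  {O : Subalgebra W A} {τ : A →ₗ[K] K}

/-- the data attached to a vertex `z` with representative `f`: sign `s`, degree `M` -/
structure SignData (p : ℕ) {W K A : Type} [CommRing W] [Field K] [Algebra W K]
    [Ring A] [Algebra K A] [Algebra W A] [IsScalarTower W K A] (O : Subalgebra W A)
    (τ : A →ₗ[K] K) {ι : Type} (b : ι → A) (i0 : ι) (k : ℕ) (z f : A) (E : LocIdem p O)
    (s : ℤ) (M : ℕ) : Prop where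
  good : Good E f
  vtx : Vtx z f
  sign : s = 1 ∨ s = -1
  deg : (p : K) * τ f = M
  degmod : (M : ℤ) ≡ s [ZMOD p]
  diff : ∀ i, i ≠ i0 → (Module.finrank K (crn K (b i0) f) : ℤ) -
    Module.finrank K (crn K (b i) f) = s * k

include F

private theorem sgn_ne_zero {E : LocIdem p O} {f : A} (hG : Good E f) : f ≠ 0 := by
  intro h
  exact hG.not_mem (h ▸ O.zero_mem)

private theorem sgn_compl (H : SymOrder p O τ)
    (hnat : ∀ g : A, g * g = g → ∃ n : ℕ, (p : K) * τ g = n)
    {ι : Type} {b : ι → A} {i0 : ι} {k : ℕ}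
    (hfact : ∀ e ∈ O, e * e = e → ∀ i,
      Module.finrank K (crn K (b i) e) = Module.finrank K (crn K (b i0) e))
    {E : LocIdem p O} {z f : A} {s : ℤ} {M : ℕ} (h : SignData p O τ b i0 k z f E s M) :
    ∃ (z' : A) (M' : ℕ), SignData p O τ b i0 k z' (E.e - f) E (-s) M' := by
  have hB : Base p W K F := inferInstance
  haveI : CharZero K := hB.charZero
  have hGc : Good E (E.e - f) := Good.compl F h.good
  obtain ⟨z', hz'⟩ := exists_vtx (τ := τ) H.comm
    (fun x hx => SymOrder.nondeg F H x hx) H.nil (E.e - f) hGc.idem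
  obtain ⟨M', hM'⟩ := hnat _ hGc.idem
  obtain ⟨n, hn⟩ := hnat _ E.idem
  have hdvd : p ∣ n := Base.dvd_of_int hB n (τ E.e) (H.int _ E.mem) hn.symm
  have hsum : (M : K) + M' = n := by
    rw [← h.deg, ← hM', ← hn, map_sub]
    ring
  have hsum' : M + M' = n := by exact_mod_cast hsum
  refine ⟨z', M', hGc, hz', ?_, hM', ?_, ?_⟩
  · rcases h.sign with h1 | h1
    · right
      rw [h1]
    · left
      rw [h1, neg_neg]
  · have h1 : ((M : ℤ) + M') ≡ 0 [ZMOD p] := by
      have : ((M : ℤ) + M') = n := by exact_mod_cast hsum'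
      rw [this]
      exact (Int.modEq_zero_iff_dvd).2 (Int.natCast_dvd_natCast.2 hdvd)
    have h2 := h1.sub h.degmod
    have h3 : (M : ℤ) + M' - M = M' := by ring
    rw [h3, zero_sub] at h2
    exact h2
  · intro i hi
    have hfe : f * (E.e - f) = 0 := by
      rw [mul_sub, h.good.right, h.good.idem, sub_self]
    have hef : (E.e - f) * f = 0 := by
      rw [sub_mul, h.good.left, h.good.idem, sub_self]
    have hadd : f + (E.e - f) = E.e := by abel
    have e1 := finrank_crn_add (K := K) h.good.idem hGc.idem hfe hef (b i0)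
    have e2 := finrank_crn_add (K := K) h.good.idem hGc.idem hfe hef (b i)
    rw [hadd] at e1 e2
    have e3 := hfact _ E.mem E.idem i
    have e4 := h.diff i hi
    have e1' : (Module.finrank K (crn K (b i0) E.e) : ℤ) =
        Module.finrank K (crn K (b i0) f) + Module.finrank K (crn K (b i0) (E.e - f)) := by
      exact_mod_cast e1
    have e2' : (Module.finrank K (crn K (b i) E.e) : ℤ) =
        Module.finrank K (crn K (b i) f) + Module.finrank K (crn K (b i) (E.e - f)) := by
      exact_mod_cast e2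
    have e3' : (Module.finrank K (crn K (b i) E.e) : ℤ) =
        Module.finrank K (crn K (b i0) E.e) := by
      exact_mod_cast e3
    have : -s * (k : ℤ) = -(s * k) := by ring
    rw [this, ← e4]
    linarith

private theorem sgn_transfer (H : SymOrder p O τ) (hp : p ≠ 2)
    {ι : Type} {b : ι → A} {i0 : ι} {k : ℕ}
    {E E' : LocIdem p O} {z f : A} {s : ℤ} {M : ℕ} (h : SignData p O τ b i0 k z f E s M)
    (hne : z * E'.e ≠ 0) : SignData p O τ b i0 k z (z * E'.e) E' s M := by
  obtain ⟨hG', hEq⟩ := EL_main F H hp h.good h.vtx hne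
  refine ⟨hG', h.vtx.eqv hEq, h.sign, ?_, h.degmod, ?_⟩
  · rw [← Eqv.tau H.comm hEq]
    exact h.deg
  · intro i hi
    rw [← Eqv.finrank hEq, ← Eqv.finrank hEq]
    exact h.diff i hi

private theorem sgn_divC (H : SymOrder p O τ) {E : LocIdem p O} {f : A} (hG : Good E f) :
    DivC f := by
  obtain ⟨y, x, k, hD⟩ := Good.dvr F H hG
  exact hD.div

private theorem sgn_spread (H : SymOrder p O τ) (hp : p ≠ 2)
    (hnat : ∀ g : A, g * g = g → ∃ n : ℕ, (p : K) * τ g = n)
    {ι : Type} {b : ι → A} {i0 : ι} {k : ℕ}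
    (hfact : ∀ e ∈ O, e * e = e → ∀ i,
      Module.finrank K (crn K (b i) e) = Module.finrank K (crn K (b i0) e))
    {E E' : LocIdem p O} {z f : A} {s : ℤ} {M : ℕ} (h : SignData p O τ b i0 k z f E s M)
    (x : A) (hne : E.e * x * E'.e ≠ 0) :
    ∃ (z1 f1 : A) (s1 : ℤ) (M1 : ℕ), SignData p O τ b i0 k z1 f1 E' s1 M1 := by
  obtain ⟨z', M', h'⟩ := sgn_compl F H hnat hfact h
  by_cases h1 : z * E'.e = 0
  · by_cases h2 : z' * E'.e = 0
    · exfalso
      apply hne
      have e1 : f * x * E'.e = 0 := by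
        have : f * x * E'.e = f * (z * x) * E'.e := by
          rw [← mul_assoc, ← h.vtx.central f, h.vtx.zf]
        rw [this, h.vtx.central x, mul_assoc, mul_assoc, h1, mul_zero, mul_zero]
      have e2 : (E.e - f) * x * E'.e = 0 := by
        have : (E.e - f) * x * E'.e = (E.e - f) * (z' * x) * E'.e := by
          rw [← mul_assoc, ← h'.vtx.central (E.e - f), h'.vtx.zf]
        rw [this, h'.vtx.central x, mul_assoc, mul_assoc, h2, mul_zero, mul_zero]
      have e3 : E.e * x * E'.e = f * x * E'.e + (E.e - f) * x * E'.e := by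
        rw [← add_mul, ← add_mul, add_sub_cancel]
      rw [e3, e1, e2, add_zero]
    · exact ⟨z', _, _, _, sgn_transfer F H hp h' h2⟩
  · exact ⟨z, _, _, _, sgn_transfer F H hp h h1⟩

theorem block (H : SymOrder p O τ) (hp : p ≠ 2)
    (hnat : ∀ g : A, g * g = g → ∃ n : ℕ, (p : K) * τ g = n)
    {ι : Type} (b : ι → A) (hb : ∀ i, b i * b i = b i) (i0 : ι) (k : ℕ)
    (hfact : ∀ e ∈ O, e * e = e → ∀ i,
      Module.finrank K (crn K (b i) e) = Module.finrank K (crn K (b i0) e))
    (D : LocIdem p O) (f0 : A) (hG : Good D f0) (hM : (p : K) * τ f0 = 1)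
    (hD : ∀ i, i ≠ i0 → (Module.finrank K (crn K (b i0) f0) : ℤ) -
      Module.finrank K (crn K (b i) f0) = k) :
    ∃ (eV : A) (Z : Finset A), eV ∈ O ∧ eV * eV = eV ∧ (∀ x, eV * x = x * eV) ∧
      D.e * eV = D.e ∧ ∑ z ∈ Z, z = eV ∧
      (∀ z ∈ Z, ∀ z' ∈ Z, z ≠ z' → z * z' = 0) ∧
      (∀ z ∈ Z, ∃ (f : A) (E : LocIdem p O) (s : ℤ) (M : ℕ), SignData p O τ b i0 k z f E s M) ∧
      (∃ z ∈ Z, Vtx z f0) ∧ (∃ z ∈ Z, Vtx z (D.e - f0)) := by
  classical
  have hB : Base p W K F := inferInstance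
  haveI : CharZero K := hB.charZero
  -- the data of `D`
  have hnd : ∀ x : A, (∀ y : A, τ (x * y) = 0) → x = 0 := fun x hx => SymOrder.nondeg F H x hx
  obtain ⟨z0, hz0⟩ := exists_vtx (τ := τ) H.comm hnd H.nil f0 hG.idem
  have hD0 : SignData p O τ b i0 k z0 f0 D 1 1 := by
    refine ⟨hG, hz0, Or.inl rfl, by rw [hM]; simp, by simp, ?_⟩
    intro i hi
    rw [one_mul]
    exact hD i hi
  -- the local decomposition
  obtain ⟨n, E, horth, hsum⟩ := exists_local_decomp F H
  set Q : Fin n → Prop := fun i =>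
    ∃ (z f : A) (s : ℤ) (M : ℕ), SignData p O τ b i0 k z f (E i) s M with hQ
  set S : Finset (Fin n) := Finset.univ.filter Q with hS
  have hmS : ∀ i, i ∈ S ↔ Q i := fun i => by simp [hS]
  have hQmem : ∀ i : S, Q i.1 := fun i => (hmS i.1).1 i.2
  choose zz ff ss MM hSD using hQmem
  have hcmp : ∀ i : S, ∃ (z' : A) (M' : ℕ),
      SignData p O τ b i0 k z' ((E i.1).e - ff i) (E i.1) (-(ss i)) M' :=
    fun i => sgn_compl F H hnat hfact (hSD i)
  choose zc Mc hSDc using hcmp
  -- vertices in the corner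
  have hcor : ∀ {E' : LocIdem p O} {z f : A}, Good E' f → Vtx z f → z * E'.e = f := by
    intro E' z f hG' hV'
    exact Vtx.corner hV' E'.idem hG'.left hG'.right hG'.idem hG'.central
  have hEi : ∀ i : S, (E i.1).e = zz i * (E i.1).e + zc i * (E i.1).e := by
    intro i
    rw [hcor (hSD i).good (hSD i).vtx, hcor (hSDc i).good (hSDc i).vtx, add_sub_cancel]
  set eV : A := ∑ i ∈ S, (E i).e with heV
  -- no connection between the `i` with and without `Q`
  have hno : ∀ i ∈ S, ∀ j ∉ S, ∀ x : A, (E i).e * x * (E j).e = 0 := by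
    intro i hi j hj x
    by_contra hne
    obtain ⟨z, f, s, M, h⟩ := (hmS i).1 hi
    exact hj ((hmS j).2 (sgn_spread F H hp hnat hfact h x hne))
  have hno' : ∀ i ∈ S, ∀ j ∉ S, ∀ x : A, (E j).e * x * (E i).e = 0 := by
    intro i hi j hj x
    apply hnd
    intro y
    have e1 : (E j).e * x * (E i).e * y = (E j).e * (x * (E i).e * y) := by
      simp only [mul_assoc]
    have e2 : x * (E i).e * y * (E j).e = x * ((E i).e * y * (E j).e) := by
      simp only [mul_assoc]
    rw [e1, H.comm, e2, hno i hi j hj y, mul_zero, map_zero]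
  have heVO : eV ∈ O := Subalgebra.sum_mem _ fun i _ => (E i).mem
  have hEeV : ∀ i ∈ S, (E i).e * eV = (E i).e := by
    intro i hi
    rw [heV, Finset.mul_sum, Finset.sum_eq_single_of_mem i hi]
    · exact (E i).idem
    · intro j _ hji
      exact horth i j (Ne.symm hji)
  have hEeV' : ∀ j ∉ S, (E j).e * eV = 0 := by
    intro j hj
    rw [heV, Finset.mul_sum]
    apply Finset.sum_eq_zero
    intro i hi
    apply horth j i
    rintro rfl
    exact hj hi
  have heVE : ∀ i ∈ S, eV * (E i).e = (E i).e := by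
    intro i hi
    rw [heV, Finset.sum_mul, Finset.sum_eq_single_of_mem i hi]
    · exact (E i).idem
    · intro j _ hji
      exact horth j i hji
  have hidem : eV * eV = eV := by
    conv_lhs => rw [heV, Finset.sum_mul]
    rw [heV]
    exact Finset.sum_congr rfl fun i hi => hEeV i hi
  have hcen1 : ∀ x : A, eV * x = eV * x * eV := by
    intro x
    have e1 : eV * x = ∑ j, eV * x * (E j).e := by
      rw [← Finset.mul_sum, hsum, mul_one]
    have e2 : ∑ j, eV * x * (E j).e = ∑ j ∈ S, eV * x * (E j).e := by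
      symm
      apply Finset.sum_subset (Finset.subset_univ _)
      intro j _ hj
      rw [heV, Finset.sum_mul, Finset.sum_mul]
      exact Finset.sum_eq_zero fun i hi => hno i hi j hj x
    rw [e2, ← Finset.mul_sum] at e1
    exact e1
  have hcen2 : ∀ x : A, x * eV = eV * x * eV := by
    intro x
    have e1 : x * eV = ∑ j, (E j).e * (x * eV) := by
      rw [← Finset.sum_mul, hsum, one_mul]
    have e2 : ∑ j, (E j).e * (x * eV) = ∑ j ∈ S, (E j).e * (x * eV) := by
      symm
      apply Finset.sum_subset (Finset.subset_univ _)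
      intro j _ hj
      rw [← mul_assoc, heV, Finset.mul_sum]
      exact Finset.sum_eq_zero fun i hi => hno' i hi j hj x
    rw [e2, ← Finset.sum_mul, ← mul_assoc] at e1
    exact e1
  have hcen : ∀ x : A, eV * x = x * eV := fun x => (hcen1 x).trans (hcen2 x).symm
  have hDeV : D.e * eV = D.e := by
    have e1 : D.e = ∑ j, D.e * (E j).e := by
      rw [← Finset.mul_sum, hsum, mul_one]
    have e2 : ∑ j, D.e * (E j).e = ∑ j ∈ S, D.e * (E j).e := by
      symm
      apply Finset.sum_subset (Finset.subset_univ _)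
      intro j _ hj
      by_contra hne
      have hne' : D.e * 1 * (E j).e ≠ 0 := by rwa [mul_one]
      exact hj ((hmS j).2 (sgn_spread F H hp hnat hfact hD0 1 hne'))
    rw [e2, ← Finset.mul_sum] at e1
    exact e1.symm
  -- the finite set of vertices
  set Z : Finset A := (Finset.univ.image zz) ∪ (Finset.univ.image zc) with hZ
  have hzzZ : ∀ i : S, zz i ∈ Z := fun i =>
    Finset.mem_union_left _ (Finset.mem_image_of_mem _ (Finset.mem_univ _))
  have hzcZ : ∀ i : S, zc i ∈ Z := fun i =>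
    Finset.mem_union_right _ (Finset.mem_image_of_mem _ (Finset.mem_univ _))
  have hZall : ∀ z ∈ Z, ∃ (f : A) (E : LocIdem p O) (s : ℤ) (M : ℕ),
      SignData p O τ b i0 k z f E s M := by
    intro z hz
    rcases Finset.mem_union.1 hz with h | h
    · obtain ⟨i, -, rfl⟩ := Finset.mem_image.1 h
      exact ⟨_, _, _, _, hSD i⟩
    · obtain ⟨i, -, rfl⟩ := Finset.mem_image.1 h
      exact ⟨_, _, _, _, hSDc i⟩
  have hZorth : ∀ z ∈ Z, ∀ z' ∈ Z, z ≠ z' → z * z' = 0 := by
    intro z hz z' hz' hne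
    obtain ⟨f, E1, s, M, h⟩ := hZall z hz
    obtain ⟨f', E1', s', M', h'⟩ := hZall z' hz'
    rcases Vtx.eq_or_orth h.vtx h'.vtx (sgn_divC F H h.good) (sgn_divC F H h'.good) with h1 | h1
    · exact absurd h1 hne
    · exact h1
  have hZidem : ∀ z ∈ Z, z * z = z := by
    intro z hz
    obtain ⟨f, E1, s, M, h⟩ := hZall z hz
    exact h.vtx.idem
  have hZsum : ∀ z' ∈ Z, (∑ z ∈ Z, z) * z' = z' := by
    intro z' hz'
    rw [Finset.sum_mul, Finset.sum_eq_single_of_mem z' hz']
    · exact hZidem z' hz'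
    · intro z hz hne
      exact hZorth z hz z' hz' hne
  have hZE : ∀ i ∈ S, (∑ z ∈ Z, z) * (E i).e = (E i).e := by
    intro i hi
    have h1 := hEi ⟨i, hi⟩
    conv_lhs => rw [h1]
    rw [mul_add, ← mul_assoc, ← mul_assoc, hZsum _ (hzzZ ⟨i, hi⟩), hZsum _ (hzcZ ⟨i, hi⟩)]
    exact h1.symm
  have hZE' : ∀ j ∉ S, (∑ z ∈ Z, z) * (E j).e = 0 := by
    intro j hj
    rw [Finset.sum_mul]
    apply Finset.sum_eq_zero
    intro z hz
    by_contra hne
    obtain ⟨f, E1, s, M, h⟩ := hZall z hz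
    exact hj ((hmS j).2 ⟨_, _, _, _, sgn_transfer F H hp h hne⟩)
  have hZeV : ∑ z ∈ Z, z = eV := by
    have e1 : ∑ z ∈ Z, z = ∑ j, (∑ z ∈ Z, z) * (E j).e := by
      rw [← Finset.mul_sum, hsum, mul_one]
    have e2 : ∑ j, (∑ z ∈ Z, z) * (E j).e = ∑ j ∈ S, (∑ z ∈ Z, z) * (E j).e := by
      symm
      apply Finset.sum_subset (Finset.subset_univ _)
      intro j _ hj
      exact hZE' j hj
    rw [e2] at e1
    rw [e1, heV]
    exact Finset.sum_congr rfl fun i hi => hZE i hi
  -- vertices of good components of `D`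
  have hvD : ∀ f : A, Good D f → ∃ z ∈ Z, Vtx z f := by
    intro f hGf
    obtain ⟨z, hz⟩ := exists_vtx (τ := τ) H.comm hnd H.nil f hGf.idem
    refine ⟨z, ?_, hz⟩
    have hex : ∃ i : S, z * (E i.1).e ≠ 0 := by
      by_contra hno1
      push Not at hno1
      have h1 : z * eV = 0 := by
        rw [heV, Finset.mul_sum]
        exact Finset.sum_eq_zero fun i hi => hno1 ⟨i, hi⟩
      have h2 : f * eV = f := by
        calc f * eV = f * (D.e * eV) := by rw [← mul_assoc, hGf.right]
          _ = f := by rw [hDeV, hGf.right]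
      apply sgn_ne_zero F hGf
      calc f = f * eV := h2.symm
        _ = z * f * eV := by rw [hz.zf]
        _ = f * (z * eV) := by rw [hz.central f, mul_assoc]
        _ = 0 := by rw [h1, mul_zero]
    obtain ⟨i, hi⟩ := hex
    rcases Vtx.eq_or_orth hz (hSD i).vtx (sgn_divC F H hGf) (sgn_divC F H (hSD i).good)
      with h1 | h1
    · rw [h1]
      exact hzzZ i
    rcases Vtx.eq_or_orth hz (hSDc i).vtx (sgn_divC F H hGf) (sgn_divC F H (hSDc i).good)
      with h2 | h2
    · rw [h2]
      exact hzcZ i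
    exfalso
    apply hi
    rw [hEi i, mul_add, ← mul_assoc, ← mul_assoc, h1, h2, zero_mul, add_zero]
  exact ⟨eV, Z, heVO, hidem, hcen, hDeV, hZeV, hZorth, hZall, hvD f0 hG,
    hvD _ (Good.compl F hG)⟩

end

end PDeg
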