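import Pool.Agent.Lib.MP_369ee2_lc_PD.Sec7A
import Pool.Agent.Lib.MP_369ee2_lc_PD.Sec7H
import Pool.Agent.Lib.MP_369ee2_lc_PD.SecB
import Pool.Agent.Lib.MP_369ee2_lc_PD.Signs

/-!
# Section 7: the vertices away from the diagonal have no ramification
-/

namespace PDeg

open scoped BigOperators Matrix

section
variable {X : Type} [Fintype X] [DecidableEq X] {C : Coh X} {p k d : ℕ} {W K F : Type}
  [CommRing W] [IsDomain W] [Field K] [Algebra W K] [IsFractionRing W K] [Field F] [Algebra W F]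
  {y : Matrix X X W} {ζ0 : W}

/-- `(1 - J_1/p)(1 - J_2/p) z = z` for a central `z` with `z δ = 0` -/
theorem EP_mul_of_delta (z : ↥(C.PP K)) (hz : ∀ x : ↥(C.PP K), z * x = x * z)
    (hd : z * ⟨tδ 1, tδ_mem C K (C.Lam K).one_mem⟩ = 0) : EP C K * z = z := by
  have h1 : t1 (JJ X K) * (z : Matrix (X × X) (X × X) K) = 0 :=
    congrArg Subtype.val (t1J_mul_eq_zero C K z hz hd)
  have h2 : t2 (JJ X K) * (z : Matrix (X × X) (X × X) K) = 0 :=
    congrArg Subtype.val (t2J_mul_eq_zero C K z hz hd)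
  apply Subtype.ext
  change t1 (EE X K) * t2 (EE X K) * (z : Matrix (X × X) (X × X) K) = z
  have e1 : t1 (EE X K) * (z : Matrix (X × X) (X × X) K) = z := by
    rw [EE, t1_sub, t1_one, t1_smul, sub_mul, one_mul, Matrix.smul_mul, h1, smul_zero, sub_zero]
  have e2 : t2 (EE X K) * (z : Matrix (X × X) (X × X) K) = z := by
    rw [EE, t2_sub, t2_one, t2_smul, sub_mul, one_mul, Matrix.smul_mul, h2, smul_zero, sub_zero]
  rw [mul_assoc, e2, e1]

/-- section 7, general family of idempotents `b_ζ` -/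
theorem sec7_gen (hB : Base p W K F) (H : SymOrder p (PPO C W K) (tauP C K))
    {ι : Type} [Fintype ι] [DecidableEq ι] {b : ι → ↥(C.PP K)}
    (hb : ∀ i, b i * b i = b i) (hbb : ∀ i j, i ≠ j → b i * b j = 0)
    (hsum : ∑ i, b i = EP C K) (hk : Fintype.card ι = k) {i0 i1 : ι} (h01 : i1 ≠ i0)
    {z f : ↥(C.PP K)} {E : LocIdem p (PPO C W K)} {s : ℤ} {M : ℕ}
    (h : SignData p (PPO C W K) (tauP C K) b i0 k z f E s M)
    (hd : z * ⟨tδ 1, tδ_mem C K (C.Lam K).one_mem⟩ = 0)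
    (h7 : ∀ (yf xf : ↥(C.PP K)) (kf : ℕ),
      DVRC p K f (fOf W (PPO C W K) f) (fRad E f) yf xf kf →
        ∃ n : ℕ, Module.finrank K (crn K 1 f) = kf * (k * n)) :
    Module.finrank K (crn K f f) = 1 ∧ (Module.finrank K (crn K 1 f) : ℤ) =
      k * (Module.finrank K (crn K (b i1) f) + s) := by
  haveI := hB
  obtain ⟨yf, xf, kf, hD⟩ := Good.dvr F H h.good
  have hz : (∑ i, b i) * z = z := by
    rw [hsum]
    exact EP_mul_of_delta z h.vtx.central hd
  have := sec7_count (K := K) hb hbb h.vtx.central h.vtx.zf hz h01 hk h.sign h.diff hD.div hD.rank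
    (h7 yf xf kf hD)
  exact ⟨by rw [hD.rank, this.1], this.2⟩

/-- the family `b_ζ`, indexed by the powers of a primitive root -/
noncomputable def bfam (hY : YData C p W K k d y ζ0) (ω : K) (i : Fin k) : ↥(C.PP K) :=
  bz hY (ω ^ (i : ℕ))

section
variable (hB : Base p W K F) (hX : Fintype.card X = p) (hY : YData C p W K k d y ζ0) {ω : K}
  (hω : IsPrimitiveRoot ω k)
include hB hX hω

theorem bfam_rp : RP k (p : K) (Y1 hY) (Y2 hY) (EP C K) := by
  haveI : CharZero K := hB.charZero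
  have hp0 : (p : K) ≠ 0 := Nat.cast_ne_zero.2 hB.prime.ne_zero
  have hk0 : (k : K) ≠ 0 := Nat.cast_ne_zero.2 (by have := hY.k2; omega)
  exact rp (by rw [hX]; exact hp0) hp0 hk0 hY

theorem bfam_idem (i : Fin k) : bfam hY ω i * bfam hY ω i = bfam hY ω i :=
  (bfam_rp hB hX hY hω).b_idem (by rw [← pow_mul, mul_comm, pow_mul, hω.pow_eq_one, one_pow])

theorem bfam_orth (i j : Fin k) (hij : i ≠ j) : bfam hY ω i * bfam hY ω j = 0 := by
  refine (bfam_rp hB hX hY hω).b_orth (by rw [← pow_mul, mul_comm, pow_mul, hω.pow_eq_one, one_pow])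
    (by rw [← pow_mul, mul_comm, pow_mul, hω.pow_eq_one, one_pow]) ?_
  intro h
  exact hij (Fin.ext (hω.pow_inj i.2 j.2 h))

theorem bfam_sum : ∑ i, bfam hY ω i = EP C K := by
  have h := (bfam_rp hB hX hY hω).sum_b hω
  rw [← Fin.sum_univ_eq_sum_range (fun i => rpb k (p : K) (Y1 hY) (Y2 hY) (EP C K) (ω ^ i)) k] at h
  exact h

theorem bfam_isB {ζ : W} {i : Fin k} (hζ : algebraMap W K ζ = ω ^ (i : ℕ)) :
    IsB C y ζ (bfam hY ω i) := by
  haveI : CharZero K := hB.charZero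
  have hp0 : (p : K) ≠ 0 := Nat.cast_ne_zero.2 hB.prime.ne_zero
  have hk0 : (k : K) ≠ 0 := Nat.cast_ne_zero.2 (by have := hY.k2; omega)
  have h1 : ζ ^ k = 1 := by
    apply IsFractionRing.injective W K
    rw [map_pow, hζ, ← pow_mul, mul_comm, pow_mul, hω.pow_eq_one, one_pow, map_one]
  have := isB_bz (by rw [hX]; exact hp0) hp0 hk0 hY h1
  rwa [hζ] at this

end

/-- section 7 for the family `b_ζ` -/
theorem sec7 (hB : Base p W K F) (hX : Fintype.card X = p) (hY : YData C p W K k d y ζ0) {ω : K}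
    (hω : IsPrimitiveRoot ω k) (H : SymOrder p (PPO C W K) (tauP C K))
    {i0 i1 : Fin k} (h01 : i1 ≠ i0)
    {z f : ↥(C.PP K)} {E : LocIdem p (PPO C W K)} {s : ℤ} {M : ℕ}
    (h : SignData p (PPO C W K) (tauP C K) (bfam hY ω) i0 k z f E s M)
    (hd : z * ⟨tδ 1, tδ_mem C K (C.Lam K).one_mem⟩ = 0) {q r : X → Matrix X X F}
    (hP : PData C F k y q r) :
    Module.finrank K (crn K f f) = 1 ∧ (Module.finrank K (crn K 1 f) : ℤ) =
      k * (Module.finrank K (crn K (bfam hY ω i1) f) + s) :=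
  sec7_gen hB H (bfam_idem hB hX hY hω) (bfam_orth hB hX hY hω) (bfam_sum hB hX hY hω)
    (Fintype.card_fin k) h01 h hd (fun _ _ _ hD => sec7_H hB hY hP H h.good h.vtx.central h.vtx.zf
      (congrArg Subtype.val (t2J_mul_eq_zero C K z h.vtx.central hd)) hD)

end

end PDeg
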