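import Pool.Agent.Lib.MP_369ee2_lc_PD.FactMAbs
import Pool.Agent.Lib.MP_369ee2_lc_PD.Sec3Base

/-!
# Fact M for spaces of vectors (section 5, applications to `K^(X × X)`)
-/

set_option linter.unusedSectionVars false

namespace PDeg

open scoped BigOperators Matrix
open Module

namespace SecV

section engine
variable {p k : ℕ} {W K F : Type} [CommRing W] [IsDomain W] [Field K] [Algebra W K]
  [IsFractionRing W K] [Field F] [Algebra W F]
variable {I Z : Type} [Fintype I] [DecidableEq I] [Fintype Z] [DecidableEq Z]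

/-- the kernel of a matrix -/
def kr {R : Type} [CommRing R] (N : Matrix Z I R) : Submodule R (I → R) :=
  LinearMap.ker N.mulVecLin

theorem mem_kr {R : Type} [CommRing R] {N : Matrix Z I R} {v : I → R} :
    v ∈ kr N ↔ N *ᵥ v = 0 := Iff.rfl

/-- base change of vectors -/
def bc (S : Type) {R : Type} [CommRing R] [CommRing S] [Algebra R S] (v : I → R) : I → S :=
  fun i => algebraMap R S (v i)

theorem bc_mulVec (S : Type) {R : Type} [CommRing R] [CommRing S] [Algebra R S]
    (M : Matrix Z I R) (v : I → R) :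
    bc S (M *ᵥ v) = (M.map (algebraMap R S)) *ᵥ (bc S v) := by
  funext i
  exact RingHom.map_mulVec (algebraMap R S) M v i

theorem bc_mem {S : Type} {R : Type} [CommRing R] [CommRing S] [Algebra R S]
    {N : Matrix Z I R} {v : I → R} (hv : v ∈ kr N) : bc S v ∈ kr (N.map (algebraMap R S)) := by
  rw [mem_kr] at hv ⊢
  rw [← bc_mulVec, hv]
  funext i
  exact map_zero _

/-- the restriction of a matrix to the kernel of another one -/
noncomputable def rst {R : Type} [CommRing R] (N : Matrix Z I R) (Y : Matrix I I R)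
    (h : ∀ v ∈ kr N, Y *ᵥ v ∈ kr N) : kr N →ₗ[R] kr N := Y.mulVecLin.restrict h

theorem rst_coe {R : Type} [CommRing R] (N : Matrix Z I R) (Y : Matrix I I R)
    (h : ∀ v ∈ kr N, Y *ᵥ v ∈ kr N) (v : kr N) : (rst N Y h v : I → R) = Y *ᵥ (v : I → R) := rfl

theorem rst_pow_coe {R : Type} [CommRing R] (N : Matrix Z I R) (Y : Matrix I I R)
    (h : ∀ v ∈ kr N, Y *ᵥ v ∈ kr N) (n : ℕ) (v : kr N) :
    ((rst N Y h ^ n) v : I → R) = (Y ^ n) *ᵥ (v : I → R) := by
  induction n with
  | zero => simp
  | succ n ih =>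
    rw [pow_succ', pow_succ', Module.End.mul_apply, rst_coe, ih, Matrix.mulVec_mulVec]

theorem stable {R : Type} [CommRing R] {N : Matrix Z I R} {Y : Matrix I I R} {N1 : Matrix Z Z R}
    (h : N * Y = N1 * N) : ∀ v ∈ kr N, Y *ᵥ v ∈ kr N := by
  intro v hv
  rw [mem_kr] at hv ⊢
  rw [Matrix.mulVec_mulVec, h, ← Matrix.mulVec_mulVec, hv, Matrix.mulVec_zero]

theorem pow_kr {R : Type} [CommRing R] {N : Matrix Z I R} {Y : Matrix I I R} {P : Matrix I Z R}
    {c : R} {k : ℕ} (h : Y ^ k = algebraMap R _ c - P * N) {v : I → R} (hv : v ∈ kr N) :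
    (Y ^ k) *ᵥ v = c • v := by
  rw [mem_kr] at hv
  rw [h, Matrix.sub_mulVec, ← Matrix.mulVec_mulVec, hv, Matrix.mulVec_zero, sub_zero,
    Algebra.algebraMap_eq_smul_one, Matrix.smul_mulVec, Matrix.one_mulVec]

/-- the solution space of `N v = 0`, `Y₂ v = ζ Y₁ v` -/
def sol {R : Type} [CommRing R] (N : Matrix Z I R) (Y1 Y2 : Matrix I I R) (ζ : R) :
    Submodule R (I → R) :=
  kr N ⊓ LinearMap.ker (Y2 - ζ • Y1).mulVecLin

theorem mem_sol {R : Type} [CommRing R] {N : Matrix Z I R} {Y1 Y2 : Matrix I I R} {ζ : R}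
    {v : I → R} : v ∈ sol N Y1 Y2 ζ ↔ N *ᵥ v = 0 ∧ Y2 *ᵥ v = ζ • (Y1 *ᵥ v) := by
  have h : v ∈ LinearMap.ker (Y2 - ζ • Y1).mulVecLin ↔ Y2 *ᵥ v = ζ • (Y1 *ᵥ v) := by
    rw [LinearMap.mem_ker, Matrix.mulVecLin_apply, Matrix.sub_mulVec, Matrix.smul_mulVec,
      sub_eq_zero]
  exact and_congr Iff.rfl h

/-- **Fact M for vectors.** -/
theorem vecM (hB : Base p W K F) (hk : k ∣ p - 1) (hk1 : 1 ≤ k)
    (Y1 Y2 : Matrix I I W) (N : Matrix Z I W) (N1 N2 : Matrix Z Z W) (P1 P2 : Matrix I Z W)
    (hN1 : N * Y1 = N1 * N) (hN2 : N * Y2 = N2 * N) (hY : Y1 * Y2 = Y2 * Y1)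
    (hp1 : Y1 ^ k = (p : Matrix I I W) - P1 * N) (hp2 : Y2 ^ k = (p : Matrix I I W) - P2 * N)
    (hlift : ∀ g : I → W, (∀ z, (p : W) ∣ (N *ᵥ g) z) →
      ∃ h : I → W, N *ᵥ (g - (p : W) • h) = 0)
    (hP2 : ∀ t : I → F, N.map (algebraMap W F) *ᵥ t = 0 → Y1.map (algebraMap W F) *ᵥ t = 0 →
      Y2.map (algebraMap W F) *ᵥ t = 0 → ∃ u : I → F, N.map (algebraMap W F) *ᵥ u = 0 ∧
        Y1.map (algebraMap W F) *ᵥ u = 0 ∧ t = (Y2.map (algebraMap W F)) ^ (k - 1) *ᵥ u) :
    ∃ κ : ℕ, finrank K (kr (N.map (algebraMap W K))) = k ^ 2 * κ ∧ ∀ ζ : W, ζ ^ k = 1 →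
      finrank K (sol (N.map (algebraMap W K)) (Y1.map (algebraMap W K))
        (Y2.map (algebraMap W K)) (algebraMap W K ζ)) = k * κ := by
  classical
  have hdvr : IsDiscreteValuationRing W := hB.dvr
  have hp0 : (p : W) ≠ 0 := S3.p_ne hB
  -- base change of the matrix identities
  have mapmul : ∀ {S : Type} [CommRing S] [Algebra W S] {A B C : Type} [Fintype B]
      (M : Matrix A B W) (M' : Matrix B C W), (M * M').map (algebraMap W S) =
        M.map (algebraMap W S) * M'.map (algebraMap W S) := by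
    intro S _ _ A B C _ M M'
    exact Matrix.map_mul
  have mappow : ∀ {S : Type} [CommRing S] [Algebra W S] (M : Matrix I I W) (n : ℕ),
      (M ^ n).map (algebraMap W S) = M.map (algebraMap W S) ^ n := by
    intro S _ _ M n
    exact map_pow ((algebraMap W S).mapMatrix) M n
  have hbc : ∀ {S : Type} [CommRing S] [Algebra W S] (Y : Matrix I I W) (P : Matrix I Z W),
      Y ^ k = (p : Matrix I I W) - P * N → (Y.map (algebraMap W S)) ^ k =
        algebraMap S (Matrix I I S) (p : S) - P.map (algebraMap W S) * N.map (algebraMap W S) := by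
    intro S _ _ Y P h
    rw [← mappow, h, ← mapmul, Matrix.map_sub _ (map_sub _)]
    congr 1
    rw [map_natCast]
    exact map_natCast ((algebraMap W S).mapMatrix) p
  have hbN : ∀ {S : Type} [CommRing S] [Algebra W S] (Y : Matrix I I W) (M : Matrix Z Z W),
      N * Y = M * N → N.map (algebraMap W S) * Y.map (algebraMap W S) =
        M.map (algebraMap W S) * N.map (algebraMap W S) := by
    intro S _ _ Y M h
    rw [← mapmul, ← mapmul, h]
  have hp1W : Y1 ^ k = algebraMap W (Matrix I I W) (p : W) - P1 * N := by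
    rw [hp1, map_natCast]
  have hp2W : Y2 ^ k = algebraMap W (Matrix I I W) (p : W) - P2 * N := by
    rw [hp2, map_natCast]
  let LK := kr (N.map (algebraMap W K))
  let LF := kr (N.map (algebraMap W F))
  let L := kr N
  have : Module.Finite W L := Module.Finite.iff_fg.2 (IsNoetherian.noetherian _)
  let iK : L →+ LK :=
    { toFun := fun g => ⟨bc K g.1, bc_mem g.2⟩
      map_zero' := by
        apply Subtype.ext
        funext i
        exact map_zero _
      map_add' := by
        intro a b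
        apply Subtype.ext
        funext i
        exact map_add _ _ _ }
  let iF : L →+ LF :=
    { toFun := fun g => ⟨bc F g.1, bc_mem g.2⟩
      map_zero' := by
        apply Subtype.ext
        funext i
        exact map_zero _
      map_add' := by
        intro a b
        apply Subtype.ext
        funext i
        exact map_add _ _ _ }
  let y1 : L →ₗ[W] L := rst N Y1 (stable hN1)
  let y2 : L →ₗ[W] L := rst N Y2 (stable hN2)
  let y1K : LK →ₗ[K] LK := rst _ (Y1.map (algebraMap W K)) (stable (hbN Y1 N1 hN1))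
  let y2K : LK →ₗ[K] LK := rst _ (Y2.map (algebraMap W K)) (stable (hbN Y2 N2 hN2))
  let y1F : LF →ₗ[F] LF := rst _ (Y1.map (algebraMap W F)) (stable (hbN Y1 N1 hN1))
  let y2F : LF →ₗ[F] LF := rst _ (Y2.map (algebraMap W F)) (stable (hbN Y2 N2 hN2))
  have hFker : ∀ v : L, iF v = 0 → ∃ u : L, v = (p : W) • u := by
    intro v hv
    have h1 : ∀ i, ∃ c, (v : I → W) i = (p : W) * c := by
      intro i
      have h2 := congrFun (congrArg Subtype.val hv) i
      exact (hB.ker _).1 h2
    choose c hc using h1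
    have hcm : c ∈ kr N := by
      rw [mem_kr]
      funext z
      have h3 : (p : W) * (N *ᵥ c) z = 0 := by
        have h4 := congrFun (mem_kr.1 v.2) z
        have h5 : (v : I → W) = (p : W) • c := funext fun i => hc i
        rw [h5, Matrix.mulVec_smul] at h4
        exact h4
      exact (mul_eq_zero.1 h3).resolve_left hp0
    refine ⟨⟨c, hcm⟩, Subtype.ext (funext fun i => hc i)⟩
  have hFsurj : Function.Surjective iF := by
    intro v
    choose g hg using fun i => hB.surj ((v : I → F) i)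
    have hdiv : ∀ z, (p : W) ∣ (N *ᵥ g) z := by
      intro z
      rw [← hB.ker]
      have h1 := congrFun (bc_mulVec F N g) z
      have h2 : bc F g = (v : I → F) := funext hg
      rw [h2, mem_kr.1 v.2] at h1
      exact h1
    obtain ⟨h, hh⟩ := hlift g hdiv
    refine ⟨⟨g - (p : W) • h, hh⟩, ?_⟩
    apply Subtype.ext
    funext i
    change algebraMap W F (g i - (p : W) * h i) = (v : I → F) i
    rw [map_sub, map_mul, (hB.ker (p : W)).2 dvd_rfl, zero_mul, sub_zero, hg]
  have hpW : ∀ v : L, (y1 ^ k) v = (p : W) • v := by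
    intro v
    apply Subtype.ext
    rw [rst_pow_coe]
    exact pow_kr hp1W v.2
  have hc1F : ∀ v, iF (y1 v) = y1F (iF v) := by
    intro v
    apply Subtype.ext
    exact bc_mulVec F Y1 v.1
  have hc1Fpow : ∀ n v, iF ((y1 ^ n) v) = (y1F ^ n) (iF v) := by
    intro n
    induction n with
    | zero => intro v; rfl
    | succ n ih =>
      intro v
      rw [pow_succ', pow_succ', Module.End.mul_apply, Module.End.mul_apply, hc1F, ih]
  have hsmul0 : ∀ v : L, (p : W) • v = 0 → v = 0 := by
    intro v hv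
    apply Subtype.ext
    funext i
    have h1 := congrFun (congrArg Subtype.val hv) i
    exact (mul_eq_zero.1 h1).resolve_left hp0
  have hy1inj : ∀ v : L, y1 v = 0 → v = 0 := by
    intro v hv
    apply hsmul0
    rw [← hpW]
    obtain ⟨j, rfl⟩ : ∃ j, k = j + 1 := ⟨k - 1, by omega⟩
    rw [pow_succ, Module.End.mul_apply, hv, map_zero]
  have hP1 : ∀ v : LF, y1F v = 0 → ∃ u : LF, v = (y1F ^ (k - 1)) u := by
    intro v hv
    obtain ⟨g, rfl⟩ := hFsurj v
    rw [← hc1F] at hv
    obtain ⟨u, hu⟩ := hFker _ hv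
    refine ⟨iF u, ?_⟩
    rw [← hc1Fpow]
    have h1 : y1 (g - (y1 ^ (k - 1)) u) = 0 := by
      rw [map_sub, hu, ← hpW u]
      obtain ⟨j, rfl⟩ : ∃ j, k = j + 1 := ⟨k - 1, by omega⟩
      rw [Nat.add_sub_cancel, pow_succ', Module.End.mul_apply, sub_self]
    have h2 := hy1inj _ h1
    rw [sub_eq_zero.1 h2]
  have key := factM_abs hB k hk hk1 (L := L) (LK := LK) (LF := LF) iK iF ?_ ?_ ?_ ?_ hFsurj hFker
    y1.toAddMonoidHom y2.toAddMonoidHom y1K y2K y1F y2F ?_ ?_ hc1F ?_ ?_ ?_ ?_ hP1 ?_
  · refine ⟨_, key.1, ?_⟩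
    intro ζ hζ
    rw [← key.2 ζ hζ]
    let φ : LinearMap.ker (y2K - (algebraMap W K ζ) • y1K) →ₗ[K]
        sol (N.map (algebraMap W K)) (Y1.map (algebraMap W K)) (Y2.map (algebraMap W K))
          (algebraMap W K ζ) :=
      { toFun := fun v => ⟨v.1.1, by
          rw [mem_sol]
          refine ⟨v.1.2, ?_⟩
          have h1 : (y2K - (algebraMap W K ζ) • y1K) v.1 = 0 := v.2
          rw [LinearMap.sub_apply, sub_eq_zero] at h1
          exact congrArg Subtype.val h1⟩
        map_add' := by intro a b; rfl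
        map_smul' := by intro c a; rfl }
    have hφ : Function.Bijective φ := by
      constructor
      · intro a b h
        have h1 : ((φ a : I → K)) = (φ b : I → K) := congrArg Subtype.val h
        apply Subtype.ext
        apply Subtype.ext
        exact h1
      · intro w
        have hw := mem_sol.1 w.2
        refine ⟨⟨⟨w.1, hw.1⟩, ?_⟩, rfl⟩
        rw [LinearMap.mem_ker, LinearMap.sub_apply, sub_eq_zero]
        apply Subtype.ext
        exact hw.2
    exact (LinearEquiv.ofBijective φ hφ).finrank_eq.symm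
  · intro w v
    apply Subtype.ext
    funext i
    exact map_mul _ _ _
  · intro w v
    apply Subtype.ext
    funext i
    exact map_mul _ _ _
  · intro a b h
    apply Subtype.ext
    funext i
    exact (IsFractionRing.injective W K) (congrFun (congrArg Subtype.val h) i)
  · intro v
    choose n hn using fun i => S3.exists_pow hB ((v : I → K) i)
    let m := ∑ i, n i
    have hm : ∀ i, ∃ w : W, algebraMap W K w = (p : K) ^ m * (v : I → K) i := by
      intro i
      obtain ⟨w, hw⟩ := hn i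
      have hle : n i ≤ m := Finset.single_le_sum (fun _ _ => Nat.zero_le _) (Finset.mem_univ i)
      refine ⟨(p : W) ^ (m - n i) * w, ?_⟩
      rw [map_mul, hw, map_pow, map_natCast, ← mul_assoc, ← pow_add, Nat.sub_add_cancel hle]
    choose g hg using hm
    have hgm : g ∈ kr N := by
      rw [mem_kr]
      funext z
      have h1 := congrFun (bc_mulVec K N g) z
      have h2 : bc K g = (p : K) ^ m • (v : I → K) := funext hg
      rw [h2, Matrix.mulVec_smul, mem_kr.1 v.2, smul_zero] at h1
      exact (IsFractionRing.injective W K) (by rw [Pi.zero_apply, map_zero]; exact h1)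
    refine ⟨m, ⟨g, hgm⟩, ?_⟩
    apply Subtype.ext
    funext i
    exact (hg i).symm
  · intro v
    apply Subtype.ext
    exact bc_mulVec K Y1 v.1
  · intro v
    apply Subtype.ext
    exact bc_mulVec K Y2 v.1
  · intro v
    apply Subtype.ext
    exact bc_mulVec F Y2 v.1
  · intro v
    apply Subtype.ext
    change Y1 *ᵥ (Y2 *ᵥ (v : I → W)) = Y2 *ᵥ (Y1 *ᵥ (v : I → W))
    rw [Matrix.mulVec_mulVec, Matrix.mulVec_mulVec, hY]
  · intro v
    apply Subtype.ext
    rw [rst_pow_coe]
    exact pow_kr (hbc Y1 P1 hp1) v.2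
  · intro v
    apply Subtype.ext
    rw [rst_pow_coe]
    exact pow_kr (hbc Y2 P2 hp2) v.2
  · intro v h1 h2
    obtain ⟨u, hu1, hu2, hu3⟩ := hP2 v.1 v.2 (congrArg Subtype.val h1) (congrArg Subtype.val h2)
    refine ⟨⟨u, hu1⟩, Subtype.ext hu2, ?_⟩
    apply Subtype.ext
    rw [rst_pow_coe]
    exact hu3

end engine

end SecV

end PDeg
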